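import Pool.Agent.Lib.CPlane.AOStat

/-!
# Row A1: the plane of a good subgroup and its sharply flag-transitive group
-/

namespace Pool.Agent.Lib.CPlane.AO

namespace R1

variable {E : Type} [Field E] {n : ℕ} {S : AddSubgroup E}

/-- the line through `b` in the direction `u` -/
def cos (S : AddSubgroup E) (u b : E) : Set E := {x | ∃ s ∈ S, x = b + u * s}

theorem self_mem (u b : E) : b ∈ cos S u b := ⟨0, S.zero_mem, by ring⟩

theorem cos_eq {u b p : E} (h : p ∈ cos S u b) : cos S u b = cos S u p := by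
  obtain ⟨s, hs, rfl⟩ := h
  ext x
  constructor
  · rintro ⟨t, ht, rfl⟩
    exact ⟨t - s, S.sub_mem ht hs, by ring⟩
  · rintro ⟨t, ht, rfl⟩
    exact ⟨s + t, S.add_mem hs ht, by ring⟩

theorem sub_mem {u b p q : E} (hp : p ∈ cos S u b) (hq : q ∈ cos S u b) :
    ∃ s ∈ S, q - p = u * s := by
  obtain ⟨s, hs, rfl⟩ := hp
  obtain ⟨t, ht, rfl⟩ := hq
  exact ⟨t - s, S.sub_mem ht hs, by ring⟩

theorem finite (h : Good E n S) : Finite E := by
  apply Nat.finite_of_card_ne_zero
  rw [h.card]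
  have := h.two
  positivity

theorem ne_zero_of {u : E} (hu : u ^ (n + 1) = 1) : u ≠ 0 := by
  rintro rfl
  rw [zero_pow (by omega)] at hu
  exact zero_ne_one hu

theorem dir_unique (h : Good E n S) {u v s t : E} (hu : u ^ (n + 1) = 1) (hv : v ^ (n + 1) = 1)
    (hs : s ∈ S) (ht : t ∈ S) (hst : u * s = v * t) (h0 : s ≠ 0) : u = v := by
  by_contra hne
  have hv0 := ne_zero_of hv
  refine h0 (h.disj (u / v) ?_ ?_ s hs ?_)
  · rw [div_pow, hu, hv, div_one]
  · intro h1
    exact hne ((div_eq_one_iff_eq hv0).1 h1)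
  · have h2 : u / v * s = t := by
      rw [div_mul_eq_mul_div, hst, mul_div_cancel_left₀ _ hv0]
    rw [h2]
    exact ht

/-- the set of the directions -/
def C (E : Type) [Field E] (n : ℕ) : Set E := {u | u ^ (n + 1) = 1}

theorem card_C (h : Good E n S) : Nat.card (C E n) = n + 1 := by
  classical
  have := finite h
  have := Fintype.ofFinite E
  have h2 := h.two
  obtain ⟨g, hg⟩ := IsCyclic.exists_ofOrder_eq_natCard (α := Eˣ)
  have hE : Nat.card Eˣ = (n + 1) * (n - 1) := by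
    rw [Nat.card_units, h.card]
    obtain ⟨m, rfl⟩ : ∃ m, n = m + 2 := ⟨n - 2, by omega⟩
    simp only [show m + 2 - 1 = m + 1 by omega]
    have h3 : (m + 2) ^ 2 = (m + 2 + 1) * (m + 1) + 1 := by ring
    omega
  have hpr : IsPrimitiveRoot (g : E) ((n + 1) * (n - 1)) := by
    rw [← hE, ← hg]
    exact IsPrimitiveRoot.coe_units_iff.2 (IsPrimitiveRoot.orderOf g)
  have hpr2 : IsPrimitiveRoot ((g : E) ^ (n - 1)) (n + 1) :=
    hpr.pow (Nat.mul_pos (by omega) (by omega)) (by ring)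
  have h3 := hpr2.card_nthRootsFinset
  have h4 : C E n = ((Polynomial.nthRootsFinset (n + 1) (1 : E) : Finset E) : Set E) := by
    ext u
    rw [Finset.mem_coe, Polynomial.mem_nthRootsFinset (by omega)]
    rfl
  rw [h4, Nat.card_coe_set_eq, Set.ncard_coe_finset, h3]

theorem dir_exists (h : Good E n S) {z : E} (hz : z ≠ 0) :
    ∃ u s : E, u ^ (n + 1) = 1 ∧ s ∈ S ∧ z = u * s := by
  classical
  have := finite h
  let X := C E n × {s : S // s ≠ 0}
  let f : X → {z : E // z ≠ 0} := fun x => ⟨x.1.1 * x.2.1.1, mul_ne_zero (ne_zero_of x.1.2)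
    (fun h0 => x.2.2 (Subtype.ext h0))⟩
  have hf : Function.Injective f := by
    rintro ⟨⟨u, hu⟩, ⟨⟨s, hs⟩, hs0⟩⟩ ⟨⟨v, hv⟩, ⟨⟨t, ht⟩, ht0⟩⟩ hxy
    have h1 : u * s = v * t := congrArg Subtype.val hxy
    have h2 : u = v := dir_unique h hu hv hs ht h1 (fun h0 => hs0 (Subtype.ext h0))
    subst h2
    have h3 : s = t := mul_left_cancel₀ (ne_zero_of hu) h1
    subst h3
    rfl
  have hcard : Nat.card X = Nat.card {z : E // z ≠ 0} := by
    have := h.two
    rw [Nat.card_prod, card_C h]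
    have h1 : Nat.card {s : S // s ≠ 0} = n - 1 := by
      have h2 : Nat.card {s : S // s ≠ 0} = ({0}ᶜ : Set S).ncard := rfl
      rw [h2, Set.ncard_compl, Set.ncard_singleton, h.cardS]
    have h3 : Nat.card {z : E // z ≠ 0} = n ^ 2 - 1 := by
      have h2 : Nat.card {z : E // z ≠ 0} = ({0}ᶜ : Set E).ncard := rfl
      rw [h2, Set.ncard_compl, Set.ncard_singleton, h.card]
    rw [h1, h3]
    obtain ⟨m, rfl⟩ : ∃ m, n = m + 2 := ⟨n - 2, by omega⟩
    have h4 : (m + 2) ^ 2 = (m + 2 + 1) * (m + 1) + 1 := by ring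
    rw [h4]
    simp
  obtain ⟨⟨⟨u, hu⟩, ⟨⟨s, hs⟩, hs0⟩⟩, hx⟩ :=
    ((Nat.bijective_iff_injective_and_card f).2 ⟨hf, hcard⟩).2 ⟨z, hz⟩
  exact ⟨u, s, hu, hs, (congrArg Subtype.val hx).symm⟩

theorem sum_exists (h : Good E n S) {u v : E} (hu : u ^ (n + 1) = 1) (hv : v ^ (n + 1) = 1)
    (huv : u ≠ v) (z : E) : ∃ s ∈ S, ∃ t ∈ S, z = u * s + v * t := by
  classical
  have := finite h
  let f : S × S → E := fun x => u * x.1.1 + v * x.2.1
  have hf : Function.Injective f := by
    rintro ⟨⟨s, hs⟩, ⟨t, ht⟩⟩ ⟨⟨s', hs'⟩, ⟨t', ht'⟩⟩ hxy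
    have h1 : u * s + v * t = u * s' + v * t' := hxy
    have h2 : u * (s - s') = v * (t' - t) := by linear_combination h1
    by_cases h0 : s - s' = 0
    · have h3 : s = s' := sub_eq_zero.1 h0
      subst h3
      have h4 : t = t' := mul_left_cancel₀ (ne_zero_of hv) (by linear_combination h1)
      subst h4
      rfl
    · exact absurd (dir_unique h hu hv (S.sub_mem hs hs') (S.sub_mem ht' ht) h2 h0) huv
  have hcard : Nat.card (S × S) = Nat.card E := by
    rw [Nat.card_prod, h.cardS, h.card, pow_two]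
  obtain ⟨⟨⟨s, hs⟩, ⟨t, ht⟩⟩, hx⟩ :=
    ((Nat.bijective_iff_injective_and_card f).2 ⟨hf, hcard⟩).2 z
  exact ⟨s, hs, t, ht, hx.symm⟩

theorem exists_ne_zero (h : Good E n S) : ∃ s ∈ S, s ≠ 0 := by
  have := finite h
  have h2 := h.two
  rw [← h.cardS] at h2
  have h3 : Nontrivial S := Finite.one_lt_card_iff_nontrivial.1 (by omega)
  obtain ⟨s, hs⟩ := exists_ne (0 : S)
  exact ⟨s, s.2, fun h0 => hs (Subtype.ext h0)⟩

theorem cos_inj (h : Good E n S) {u v b : E} (hu : u ^ (n + 1) = 1) (hv : v ^ (n + 1) = 1)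
    (huv : cos S u b = cos S v b) : u = v := by
  obtain ⟨s, hs, hs0⟩ := exists_ne_zero h
  have h1 : b + u * s ∈ cos S v b := huv ▸ ⟨s, hs, rfl⟩
  obtain ⟨t, ht, h2⟩ := h1
  exact dir_unique h hu hv hs ht (add_left_cancel h2) hs0

theorem ncard_cos (h : Good E n S) {u : E} (hu : u ^ (n + 1) = 1) (b : E) :
    (cos S u b).ncard = n := by
  have h1 : cos S u b = (fun s => b + u * s) '' (S : Set E) := by
    ext x
    constructor
    · rintro ⟨s, hs, rfl⟩
      exact ⟨s, hs, rfl⟩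
    · rintro ⟨s, hs, rfl⟩
      exact ⟨s, hs, rfl⟩
  rw [h1, Set.ncard_image_of_injective _ (fun s t hst =>
    mul_left_cancel₀ (ne_zero_of hu) (add_left_cancel hst))]
  exact h.cardS

theorem mem_lines {L : Set E} : L ∈ goodLines E n S ↔ ∃ u b : E, u ^ (n + 1) = 1 ∧
    L = cos S u b := Iff.rfl

theorem card_lines (h : Good E n S) : (goodLines E n S).ncard = n ^ 2 + n := by
  classical
  have := finite h
  have hn := h.two
  have hfl : Finite (goodLines E n S) := inferInstance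
  have := Fintype.ofFinite (goodLines E n S)
  let f : E × C E n → Σ L : goodLines E n S, (L : Set E) := fun x =>
    ⟨⟨cos S x.2.1 x.1, x.2.1, x.1, x.2.2, rfl⟩, ⟨x.1, self_mem _ _⟩⟩
  have hf : Function.Bijective f := by
    constructor
    · rintro ⟨p, ⟨u, hu⟩⟩ ⟨q, ⟨v, hv⟩⟩ hxy
      have h1 : p = q := congrArg (fun y : Σ L : goodLines E n S, (L : Set E) => (y.2 : E)) hxy
      subst h1
      have h2 : cos S u p = cos S v p :=
        congrArg (fun y : Σ L : goodLines E n S, (L : Set E) => (y.1 : Set E)) hxy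
      have h3 := cos_inj h hu hv h2
      subst h3
      rfl
    · rintro ⟨⟨L, u, b, hu, hL⟩, ⟨p, hp⟩⟩
      change L = cos S u b at hL
      subst hL
      have hext : ∀ x y : (Σ L : goodLines E n S, (L : Set E)), (x.1 : Set E) = y.1 →
          (x.2 : E) = y.2 → x = y := by
        rintro ⟨⟨L, hL⟩, ⟨x, hx⟩⟩ ⟨⟨M, hM⟩, ⟨y, hy⟩⟩ h1 h2
        simp only at h1 h2
        subst h1
        subst h2
        rfl
      exact ⟨⟨p, ⟨u, hu⟩⟩, hext _ _ (cos_eq hp).symm rfl⟩
  have h1 := Nat.card_congr (Equiv.ofBijective f hf)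
  rw [Nat.card_prod, card_C h, h.card, Nat.card_sigma] at h1
  have h2 : ∀ L : goodLines E n S, Nat.card (L : Set E) = n := by
    rintro ⟨L, u, b, hu, hL⟩
    change L = cos S u b at hL
    subst hL
    exact ncard_cos h hu b
  rw [Finset.sum_congr rfl (fun L _ => h2 L), Finset.sum_const, Finset.card_univ,
    ← Nat.card_eq_fintype_card, smul_eq_mul] at h1
  have h3 : Nat.card (goodLines E n S) = (goodLines E n S).ncard := rfl
  rw [← h3]
  apply Nat.eq_of_mul_eq_mul_right (show 0 < n by omega)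
  rw [← h1]
  ring

/-- the plane -/
def plane (h : Good E n S) : AffinePlane E n where
  lines := goodLines E n S
  card_points := h.card
  card_lines := card_lines h
  card_line := by
    rintro L ⟨u, b, hu, rfl⟩
    exact ncard_cos h hu b
  join := by
    intro p q hpq
    obtain ⟨u, s, hu, hs, hz⟩ := dir_exists h (sub_ne_zero.2 hpq.symm)
    refine ⟨cos S u p, ⟨⟨u, p, hu, rfl⟩, self_mem _ _, ⟨s, hs, by rw [← hz]; ring⟩⟩, ?_⟩
    rintro M ⟨⟨v, b, hv, rfl⟩, hp, hq⟩
    change cos S v b = _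
    obtain ⟨t, ht, h1⟩ := sub_mem hp hq
    have hs0 : s ≠ 0 := by
      rintro rfl
      rw [mul_zero] at hz
      exact hpq (sub_eq_zero.1 hz).symm
    have h2 : u = v := dir_unique h hu hv hs ht (hz.symm.trans h1) hs0
    subst h2
    exact cos_eq hp
  parallel := by
    rintro L ⟨u, b, hu, rfl⟩ p hp
    refine ⟨cos S u p, ⟨⟨u, p, hu, rfl⟩, self_mem _ _, ?_⟩, ?_⟩
    · rw [Set.disjoint_left]
      rintro x hx hxb
      change x ∈ cos S u b at hxb
      apply hp
      change p ∈ cos S u b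
      rw [cos_eq hxb, ← cos_eq hx]
      exact self_mem _ _
    · rintro M ⟨⟨v, c, hv, rfl⟩, hpM, hd⟩
      change p ∈ cos S v c at hpM
      change Disjoint (cos S v c) (cos S u b) at hd
      change cos S v c = _
      rw [cos_eq hpM] at hd ⊢
      by_cases huv : u = v
      · rw [huv]
      · exfalso
        obtain ⟨s, hs, t, ht, h1⟩ := sum_exists h hu hv huv (p - b)
        have hd' := Set.disjoint_left.1 hd
        refine @hd' (b + u * s) ⟨-t, S.neg_mem ht, ?_⟩ ⟨s, hs, rfl⟩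
        linear_combination -h1

theorem image_cos (g : Equiv.Perm E) {u b : E} (hg : ∀ z, g z = b + u * z) (v c : E) :
    g '' (cos S v c) = cos S (u * v) (b + u * c) := by
  ext x
  constructor
  · rintro ⟨_, ⟨s, hs, rfl⟩, rfl⟩
    exact ⟨s, hs, by rw [hg]; ring⟩
  · rintro ⟨s, hs, rfl⟩
    exact ⟨c + v * s, ⟨s, hs, rfl⟩, by rw [hg]; ring⟩

/-- the group -/
def grp (E : Type) [Field E] (n : ℕ) : Subgroup (Equiv.Perm E) where
  carrier := {g | ∃ u b : E, u ^ (n + 1) = 1 ∧ ∀ z, g z = b + u * z}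
  mul_mem' := by
    rintro g h ⟨u, b, hu, hg⟩ ⟨v, c, hv, hh⟩
    refine ⟨u * v, b + u * c, by rw [mul_pow, hu, hv, mul_one], fun z => ?_⟩
    rw [Equiv.Perm.mul_apply, hh, hg]
    ring
  one_mem' := ⟨1, 0, one_pow _, fun z => by simp⟩
  inv_mem' := by
    rintro g ⟨u, b, hu, hg⟩
    have hu0 := ne_zero_of hu
    refine ⟨u⁻¹, -(u⁻¹ * b), by rw [inv_pow, hu, inv_one], fun z => ?_⟩
    rw [Equiv.Perm.inv_eq_iff_eq, hg]
    field_simp
    ring

end R1

open R1 in
/-- **row A1** -/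
theorem a1 : A1 := by
  intro E _ n S h
  refine ⟨plane h, grp E n, rfl, ?_, ?_⟩
  · rintro g ⟨u, b, hu, hg⟩ L ⟨v, c, hv, rfl⟩
    exact ⟨u * v, b + u * c, by rw [mul_pow, hu, hv, mul_one], image_cos g hg v c⟩
  · rintro p L ⟨u, b, hu, rfl⟩ hp q M ⟨v, c, hv, rfl⟩ hq
    change p ∈ cos S u b at hp
    change q ∈ cos S v c at hq
    have hL : {x | ∃ s ∈ S, x = b + u * s} = cos S u p := cos_eq hp
    have hM : {x | ∃ s ∈ S, x = c + v * s} = cos S v q := cos_eq hq
    rw [hL, hM]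
    have hu0 := ne_zero_of hu
    have hv0 := ne_zero_of hv
    have hw0 : v / u ≠ 0 := div_ne_zero hv0 hu0
    let g : Equiv.Perm E :=
      { toFun := fun z => (q - v / u * p) + v / u * z
        invFun := fun z => (z - (q - v / u * p)) / (v / u)
        left_inv := fun z => by
          field_simp
          ring
        right_inv := fun z => by
          field_simp
          ring }
    have hg : ∀ z, g z = (q - v / u * p) + v / u * z := fun _ => rfl
    refine ⟨g, ⟨⟨v / u, _, by rw [div_pow, hu, hv, div_one], hg⟩, ?_, ?_⟩, ?_⟩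
    · rw [hg]
      ring
    · rw [image_cos g hg]
      have h1 : v / u * u = v := div_mul_cancel₀ _ hu0
      rw [h1]
      congr 1
      ring
    · rintro k ⟨⟨w, d, hw, hk⟩, hkp, hkL⟩
      rw [image_cos k hk, ← hk, hkp] at hkL
      have h1 : w * u = v := cos_inj h (by rw [mul_pow, hw, hu, mul_one]) hv hkL
      have h2 : w = v / u := by
        rw [eq_div_iff hu0]
        exact h1
      ext z
      rw [hk, hg, ← h2]
      rw [hk] at hkp
      linear_combination hkp

end Pool.Agent.Lib.CPlane.AO
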