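import Pool.Agent.Lib.CPlane.ITDef

/-!
# Sharply flag-transitive planes, order by order: statements of the rows
-/

namespace Pool.Agent.Lib.CPlane.AO

/-- `S` is a subgroup of order `n` of the additive group of a field with `n ^ 2` elements whose
images under the `n + 1` elements `u` with `u ^ (n + 1) = 1` meet pairwise in `0` -/
structure Good (E : Type) [Field E] (n : ℕ) (S : AddSubgroup E) : Prop where
  two : 2 ≤ n
  card : Nat.card E = n ^ 2
  cardS : Nat.card S = n
  disj : ∀ u : E, u ^ (n + 1) = 1 → u ≠ 1 → ∀ s ∈ S, u * s ∈ S → s = 0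

/-- the lines of the plane of `S` -/
def goodLines (E : Type) [Field E] (n : ℕ) (S : AddSubgroup E) : Set (Set E) :=
  {L | ∃ u b : E, u ^ (n + 1) = 1 ∧ L = {x | ∃ s ∈ S, x = b + u * s}}

/-- row A1: the plane of `S` and its group -/
def A1 : Prop :=
  ∀ (E : Type) [Field E] (n : ℕ) (S : AddSubgroup E), Good E n S →
    ∃ (A : AffinePlane E n) (G : Subgroup (Equiv.Perm E)), A.lines = goodLines E n S ∧
      IsCollineationGroup A G ∧ SharplyFlagTransitive A G

/-- row A2: a good subgroup which is not a subspace over the subfield with `n` elements -/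
def A2 : Prop :=
  ∀ e k : ℕ, 1 ≤ e → 3 ≤ k → Odd k → ∃ (E : Type) (_ : Field E) (S : AddSubgroup E),
    Good E (2 ^ (e * k)) S ∧ ∃ f s : E, f ^ 2 ^ (e * k) = f ∧ s ∈ S ∧ f * s ∉ S

/-- row A3: a desarguesian plane comes from a subspace -/
def A3 : Prop :=
  ∀ (E : Type) [Field E] (m : ℕ) (S : AddSubgroup E) (A : AffinePlane E (2 ^ m)), 1 ≤ m → m ≠ 3 →
    Good E (2 ^ m) S → A.lines = goodLines E (2 ^ m) S → Desarguesian A →
    ∀ f : E, f ^ 2 ^ m = f → ∀ s ∈ S, f * s ∈ S

/-- row A4: the order is a power of two -/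
def A4 : Prop :=
  ∀ (P : Type) (n : ℕ) (A : AffinePlane P n) (G : Subgroup (Equiv.Perm P)), 2 ≤ n → Even n →
    IsCollineationGroup A G → SharplyFlagTransitive A G → ∃ m, 1 ≤ m ∧ n = 2 ^ m

/-- row A5: the planes of order 8 -/
def A5 : Prop :=
  ∀ (P : Type) (A : AffinePlane P 8) (G : Subgroup (Equiv.Perm P)),
    IsCollineationGroup A G → SharplyFlagTransitive A G → Desarguesian A

/-- row A6: the subfield is good -/
def A6 : Prop :=
  ∀ m : ℕ, 1 ≤ m → ∃ (E : Type) (_ : Field E) (S : AddSubgroup E), Good E (2 ^ m) S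

/-- row A7: there are no planes of odd order -/
def A7 : Prop :=
  ∀ (P : Type) (n : ℕ) (A : AffinePlane P n) (G : Subgroup (Equiv.Perm P)), 2 ≤ n →
    IsCollineationGroup A G → SharplyFlagTransitive A G → Even n

/-- row A8: S2 -/
def A8 : Prop :=
  ∀ (P : Type) (n k : ℕ) (A : AffinePlane P n) (G : Subgroup (Equiv.Perm P)), n = 2 ^ 2 ^ k →
    IsCollineationGroup A G → SharplyFlagTransitive A G → Desarguesian A

theorem exists_odd_factor {m : ℕ} (hm : 1 ≤ m) (h : ¬ ∃ k, m = 2 ^ k) :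
    ∃ e k : ℕ, 1 ≤ e ∧ 3 ≤ k ∧ Odd k ∧ m = e * k := by
  obtain ⟨a, b, hb, hab⟩ := Nat.exists_eq_two_pow_mul_odd (n := m) (by omega)
  refine ⟨2 ^ a, b, Nat.one_le_two_pow, ?_, hb, hab⟩
  by_contra hb3
  obtain ⟨c, rfl⟩ := hb
  have hc : c = 0 := by omega
  subst hc
  exact h ⟨a, by simpa using hab⟩

/-- **assembly**: the complete answer, order by order -/
theorem all_orders (a1 : A1) (a2 : A2) (a3 : A3) (a4 : A4) (a5 : A5) (a6 : A6) (a7 : A7) (a8 : A8)
    (n : ℕ) (hn : 2 ≤ n) :
    ((∃ (P : Type) (A : AffinePlane P n) (G : Subgroup (Equiv.Perm P)),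
        IsCollineationGroup A G ∧ SharplyFlagTransitive A G) ↔ ∃ m, n = 2 ^ m) ∧
    ((∀ (P : Type) (A : AffinePlane P n) (G : Subgroup (Equiv.Perm P)),
        IsCollineationGroup A G → SharplyFlagTransitive A G → Desarguesian A) ↔
      n = 8 ∨ ∀ m, n = 2 ^ m → ∃ k, m = 2 ^ k) := by
  constructor
  · constructor
    · rintro ⟨P, A, G, hG, hf⟩
      obtain ⟨m, -, h⟩ := a4 P n A G hn (a7 P n A G hn hG hf) hG hf
      exact ⟨m, h⟩
    · rintro ⟨m, rfl⟩
      have hm : 1 ≤ m := by
        by_contra h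
        have h0 : m = 0 := by omega
        subst h0
        simp at hn
      obtain ⟨E, hE, S, hS⟩ := a6 m hm
      obtain ⟨A, G, -, hG, hf⟩ := a1 E _ S hS
      exact ⟨E, A, G, hG, hf⟩
  · constructor
    · intro h
      by_contra hcon
      push Not at hcon
      obtain ⟨h8, m, rfl, hm⟩ := hcon
      have hm1 : 1 ≤ m := by
        by_contra h
        have h0 : m = 0 := by omega
        subst h0
        simp at hn
      obtain ⟨e, k, he, hk, hko, rfl⟩ := exists_odd_factor hm1 (by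
        rintro ⟨k, hk⟩
        exact hm k hk)
      obtain ⟨E, hE, S, hS, f, s, hf, hs, hfs⟩ := a2 e k he hk hko
      obtain ⟨A, G, hA, hG, hfl⟩ := a1 E _ S hS
      refine hfs (a3 E (e * k) S A hm1 ?_ hS hA (h E A G hG hfl) f hf s hs)
      rintro h3
      apply h8
      rw [h3]
      norm_num
    · rintro (rfl | h) P A G hG hf
      · exact a5 P A G hG hf
      · obtain ⟨m, -, hm⟩ := a4 P n A G hn (a7 P n A G hn hG hf) hG hf
        obtain ⟨k, hk⟩ := h m hm
        exact a8 P n k A G (by rw [hm, hk]) hG hf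

end Pool.Agent.Lib.CPlane.AO
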