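import Mathlib
import Pool.Agent.Lib.CPlane.AOStat

/-!
# Sharply flag-transitive planes, order by order: rows A2 and A6

In the field with `n ^ 2` elements, `n = 2 ^ (e * k)`, `k` odd, let `F` be the subfield with `n`
elements, `T` the trace of `F` over the subfield with `2 ^ e` elements and `r ^ n = r + 1`.  The
elements `x + r * T x`, `x` in `F`, form a good subgroup, which is not a subspace over `F`.
-/

set_option autoImplicit false

namespace Pool.Agent.Lib.CPlane.AO

open Finset Polynomial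

namespace A2

section Core

variable {E : Type} [Field E]

/-- the trace polynomial -/
def T (q k : ℕ) (x : E) : E := ∑ i ∈ range k, x ^ q ^ i

theorem pow_fix {q : ℕ} {c : E} (hc : c ^ q = c) (i : ℕ) : c ^ q ^ i = c := by
  induction i with
  | zero => simp
  | succ i ih => rw [pow_succ, pow_mul, ih, hc]

theorem T_mul {q : ℕ} (k : ℕ) {c : E} (hc : c ^ q = c) (x : E) : T q k (c * x) = c * T q k x := by
  simp only [T, mul_pow, pow_fix hc, mul_sum]

variable [CharP E 2]

theorem two_eq : (2 : E) = 0 := CharP.cast_eq_zero E 2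

theorem add_pow_q (e i : ℕ) (x y : E) :
    (x + y) ^ (2 ^ e) ^ i = x ^ (2 ^ e) ^ i + y ^ (2 ^ e) ^ i := by
  rw [← pow_mul]
  exact add_pow_char_pow x y 2 _

theorem T_add (e k : ℕ) (x y : E) : T (2 ^ e) k (x + y) = T (2 ^ e) k x + T (2 ^ e) k y := by
  simp only [T, add_pow_q, sum_add_distrib]

theorem T_fix {q k : ℕ} (hk : Odd k) {c : E} (hc : c ^ q = c) : T q k c = c := by
  simp only [T, pow_fix hc, sum_const, card_range]
  obtain ⟨a, rfl⟩ := hk
  rw [nsmul_eq_mul]
  push_cast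
  rw [two_eq]
  ring

theorem T_sq (q k : ℕ) (x : E) : T q k (x ^ 2) = T q k x ^ 2 := by
  simp only [T]
  rw [sum_pow_char 2]
  refine sum_congr rfl fun i _ => ?_
  rw [← pow_mul, ← pow_mul, mul_comm]

theorem T_frob (e k : ℕ) (x : E) : T (2 ^ e) k (x ^ 2 ^ e) = T (2 ^ e) k x ^ 2 ^ e := by
  simp only [T]
  rw [sum_pow_char_pow 2 e]
  refine sum_congr rfl fun i _ => ?_
  rw [← pow_mul x, ← pow_mul x, mul_comm]

theorem T_pow (e k : ℕ) (x : E) :
    T (2 ^ e) k x ^ 2 ^ e + x = T (2 ^ e) k x + x ^ (2 ^ e) ^ k := by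
  have h : T (2 ^ e) k x ^ 2 ^ e = ∑ i ∈ range k, x ^ (2 ^ e) ^ (i + 1) := by
    simp only [T]
    rw [sum_pow_char_pow 2 e]
    refine sum_congr rfl fun i _ => ?_
    rw [← pow_mul, pow_succ]
  rw [h]
  have h1 := sum_range_succ (fun i => x ^ (2 ^ e) ^ i) k
  have h2 := sum_range_succ' (fun i => x ^ (2 ^ e) ^ i) k
  rw [pow_zero, pow_one] at h2
  rw [← h2, h1, T]

/-- two elements `x + r * T x` of the same norm are equal -/
theorem core (e k : ℕ) (hk : Odd k) (r : E) (hr : r ^ (2 ^ e) ^ k = r + 1) (x y u : E)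
    (hx : x ^ (2 ^ e) ^ k = x) (hy : y ^ (2 ^ e) ^ k = y) (hu : u ^ ((2 ^ e) ^ k + 1) = 1)
    (h : u * (x + r * T (2 ^ e) k x) = y + r * T (2 ^ e) k y) : x = y := by
  set n := (2 ^ e) ^ k with hn
  have hadd : ∀ a b : E, (a + b) ^ n = a ^ n + b ^ n := fun a b => add_pow_q e k a b
  have h2 : (2 : E) = 0 := two_eq
  have hself : ∀ a : E, a + a = 0 := fun a => by rw [← two_mul, h2, zero_mul]
  -- values of the trace
  have hT : ∀ a : E, a ^ n = a → T (2 ^ e) k a ^ 2 ^ e = T (2 ^ e) k a := by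
    intro a ha
    have := T_pow e k a
    rw [← hn, ha] at this
    exact add_right_cancel this
  have hTn : ∀ a : E, a ^ n = a → T (2 ^ e) k a ^ n = T (2 ^ e) k a := fun a ha =>
    pow_fix (hT a ha) k
  -- the norm
  have hN : ∀ a : E, a ^ n = a → (a + r * T (2 ^ e) k a) ^ (n + 1) =
      a ^ 2 + T (2 ^ e) k a * a + T (2 ^ e) k a ^ 2 * (r ^ 2 + r) := by
    intro a ha
    rw [pow_succ, hadd, mul_pow, ha, hTn a ha, hr]
    linear_combination (a * r * T (2 ^ e) k a) * h2
  have hNe : x ^ 2 + T (2 ^ e) k x * x + T (2 ^ e) k x ^ 2 * (r ^ 2 + r) =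
      y ^ 2 + T (2 ^ e) k y * y + T (2 ^ e) k y ^ 2 * (r ^ 2 + r) := by
    rw [← hN x hx, ← hN y hy, ← h, mul_pow, hu, one_mul]
  -- the trace of the norm
  have hsq : ∀ c : E, c ^ 2 ^ e = c → (c ^ 2) ^ 2 ^ e = c ^ 2 := fun c hc => by
    rw [← pow_mul, mul_comm, pow_mul, hc]
  have hTT : ∀ a : E, a ^ n = a → T (2 ^ e) k (a ^ 2 + T (2 ^ e) k a * a +
      T (2 ^ e) k a ^ 2 * (r ^ 2 + r)) =
      T (2 ^ e) k a ^ 2 * (T (2 ^ e) k r ^ 2 + T (2 ^ e) k r) := by
    intro a ha
    rw [T_add, T_add, T_sq, T_mul k (hT a ha), T_mul k (hsq _ (hT a ha)), T_add, T_sq]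
    have := hself (T (2 ^ e) k a ^ 2)
    linear_combination this
  have ht : T (2 ^ e) k r ^ 2 ^ e = T (2 ^ e) k r + 1 := by
    have := T_pow e k r
    rw [← hn, hr] at this
    linear_combination this
  have ht0 : T (2 ^ e) k r ^ 2 + T (2 ^ e) k r ≠ 0 := by
    intro h0
    have h1 : T (2 ^ e) k r * (T (2 ^ e) k r + 1) = 0 := by linear_combination h0
    rcases mul_eq_zero.1 h1 with h3 | h3
    · rw [h3, zero_pow (by positivity), zero_add] at ht
      exact one_ne_zero ht.symm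
    · have h4 : T (2 ^ e) k r = 1 := by linear_combination h3 - h2
      rw [h4, one_pow] at ht
      have : (1 : E) = 0 := by linear_combination -ht
      exact one_ne_zero this
  have hTxy : T (2 ^ e) k x = T (2 ^ e) k y := by
    have h1 := hTT x hx
    rw [hNe, hTT y hy] at h1
    have h3 := mul_right_cancel₀ ht0 h1
    have h4 : (T (2 ^ e) k x + T (2 ^ e) k y) ^ 2 = 0 := by
      linear_combination -h3 + (T (2 ^ e) k x * T (2 ^ e) k y + T (2 ^ e) k y ^ 2) * h2
    have h5 := pow_eq_zero_iff (two_ne_zero) |>.1 h4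
    linear_combination h5 - T (2 ^ e) k y * h2
  rw [hTxy] at hNe
  have h6 : (x + y) * (x + y + T (2 ^ e) k y) = 0 := by
    linear_combination hNe + (x * y + y ^ 2 + T (2 ^ e) k y * y) * h2
  have h7 : T (2 ^ e) k (x + y) = 0 := by rw [T_add, hTxy, hself]
  rcases mul_eq_zero.1 h6 with h8 | h8
  · linear_combination h8 - y * h2
  · have h9 : x + y = T (2 ^ e) k y := by linear_combination h8 - T (2 ^ e) k y * h2
    rw [h9, T_fix hk (hT y hy)] at h7
    rw [h7] at h9
    linear_combination h9 - y * h2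

end Core

section Fixed

variable {E : Type} [Field E] [CharP E 2] (m : ℕ)

/-- the elements fixed by the power `2 ^ m` -/
def fixed (E : Type) [Field E] [CharP E 2] (m : ℕ) : AddSubgroup E where
  carrier := {x | x ^ 2 ^ m = x}
  zero_mem' := zero_pow (by positivity)
  add_mem' := fun {a b} ha hb => by
    change (a + b) ^ 2 ^ m = a + b
    rw [add_pow_char_pow a b 2 m, ha, hb]
  neg_mem' := fun {a} ha => by
    change (-a) ^ 2 ^ m = -a
    have h : -a = a := by linear_combination (-a) * (two_eq (E := E))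
    rw [h]
    exact ha

theorem mem_fixed {x : E} : x ∈ fixed E m ↔ x ^ 2 ^ m = x := Iff.rfl

/-- the map `x ^ 2 ^ m + x` -/
def frobAdd (E : Type) [Field E] [CharP E 2] (m : ℕ) : E →+ E where
  toFun x := x ^ 2 ^ m + x
  map_zero' := by rw [zero_pow (by positivity), zero_add]
  map_add' x y := by
    rw [add_pow_char_pow x y 2 m]
    ring

theorem ker_frobAdd : (frobAdd E m).ker = fixed E m := by
  ext x
  rw [AddMonoidHom.mem_ker, mem_fixed]
  change x ^ 2 ^ m + x = 0 ↔ _
  constructor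
  · intro h
    linear_combination h - x * (two_eq (E := E))
  · intro h
    linear_combination h + x * (two_eq (E := E))

theorem card_fixed_le [Finite E] (hm : 1 ≤ m) : Nat.card (fixed E m) ≤ 2 ^ m := by
  classical
  have := Fintype.ofFinite E
  have h1 : 1 < 2 ^ m := Nat.one_lt_two_pow (by omega)
  have hne : (X ^ 2 ^ m - X : E[X]) ≠ 0 := FiniteField.X_pow_card_sub_X_ne_zero E h1
  have h2 : (fixed E m : Set E) ⊆ (X ^ 2 ^ m - X : E[X]).roots.toFinset := by
    intro x hx
    rw [Finset.mem_coe, Multiset.mem_toFinset, mem_roots hne, IsRoot.def, eval_sub, eval_pow,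
      eval_X, sub_eq_zero]
    exact hx
  calc Nat.card (fixed E m) ≤ Nat.card ((X ^ 2 ^ m - X : E[X]).roots.toFinset : Set E) :=
        Nat.card_mono (Finset.finite_toSet _) h2
    _ = (X ^ 2 ^ m - X : E[X]).roots.toFinset.card := by
        rw [Nat.card_coe_set_eq, Set.ncard_coe_finset]
    _ ≤ Multiset.card (X ^ 2 ^ m - X : E[X]).roots := Multiset.toFinset_card_le _
    _ ≤ (X ^ 2 ^ m - X : E[X]).natDegree := card_roots' _
    _ = 2 ^ m := FiniteField.X_pow_card_sub_X_natDegree_eq E h1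

theorem card_fixed [Finite E] (hm : 1 ≤ m) (hE : Nat.card E = (2 ^ m) ^ 2) :
    Nat.card (fixed E m) = 2 ^ m ∧ ∃ r : E, r ^ 2 ^ m = r + 1 := by
  have hle := card_fixed_le (E := E) m hm
  have hr : (frobAdd E m).range ≤ fixed E m := by
    rintro _ ⟨x, rfl⟩
    change (x ^ 2 ^ m + x) ^ 2 ^ m = x ^ 2 ^ m + x
    rw [add_pow_char_pow _ _ 2 m, ← pow_mul]
    have hx : x ^ (2 ^ m * 2 ^ m) = x := by
      have := Fintype.ofFinite E
      have h1 := FiniteField.pow_card x
      rw [← Nat.card_eq_fintype_card, hE, sq] at h1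
      exact h1
    rw [hx, add_comm]
  have hmul : Nat.card (fixed E m) * Nat.card (frobAdd E m).range = 2 ^ m * 2 ^ m := by
    have h1 := AddSubgroup.card_mul_index (frobAdd E m).ker
    rw [AddSubgroup.index_ker, ker_frobAdd, hE, sq] at h1
    exact h1
  have hrle : Nat.card (frobAdd E m).range ≤ Nat.card (fixed E m) :=
    Nat.card_mono (Set.toFinite _) hr
  have hpos : 0 < 2 ^ m := by positivity
  have h3 : Nat.card (fixed E m) = 2 ^ m := by
    refine le_antisymm hle ?_
    by_contra hlt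
    push Not at hlt
    have := Nat.mul_lt_mul'' hlt (lt_of_le_of_lt hrle hlt)
    omega
  refine ⟨h3, ?_⟩
  have h4 : Nat.card (frobAdd E m).range = 2 ^ m := by
    rw [h3] at hmul
    exact Nat.eq_of_mul_eq_mul_left hpos hmul
  have h5 : (frobAdd E m).range = fixed E m := by
    apply SetLike.coe_injective
    refine Set.eq_of_subset_of_ncard_le hr ?_ (Set.toFinite _)
    rw [← Nat.card_coe_set_eq, ← Nat.card_coe_set_eq]
    exact (h3.trans h4.symm).le
  have h6 : (1 : E) ∈ (frobAdd E m).range := by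
    rw [h5, mem_fixed, one_pow]
  obtain ⟨r, hr⟩ := h6
  change r ^ 2 ^ m + r = 1 at hr
  exact ⟨r, by linear_combination hr - r * (two_eq (E := E))⟩

end Fixed

end A2

open A2

theorem a6 : A6 := by
  intro m hm
  have hc : Nat.card (GaloisField 2 (2 * m)) = (2 ^ m) ^ 2 := by
    rw [GaloisField.card 2 (2 * m) (by omega), ← pow_mul, mul_comm]
  obtain ⟨hF, -⟩ := card_fixed (E := GaloisField 2 (2 * m)) m hm hc
  refine ⟨GaloisField 2 (2 * m), inferInstance, fixed _ m, ⟨?_, hc, hF, ?_⟩⟩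
  · calc 2 = 2 ^ 1 := (pow_one 2).symm
      _ ≤ 2 ^ m := Nat.pow_le_pow_right (by norm_num) hm
  · intro u hu hu1 s hs hus
    by_contra hs0
    rw [mem_fixed] at hs hus
    rw [mul_pow, hs] at hus
    have h1 : u ^ 2 ^ m = u := mul_right_cancel₀ hs0 hus
    rw [pow_succ, h1] at hu
    have h2 : (u + 1) * (u + 1) = 0 := by
      linear_combination hu + (u + 1) * (two_eq (E := GaloisField 2 (2 * m)))
    have h3 : u + 1 = 0 := mul_self_eq_zero.1 h2
    exact hu1 (by linear_combination h3 - (two_eq (E := GaloisField 2 (2 * m))))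

theorem a2 : A2 := by
  intro e k he hk hko
  have hm : 1 ≤ e * k := Nat.mul_pos (by omega) (by omega)
  have hc : Nat.card (GaloisField 2 (2 * (e * k))) = (2 ^ (e * k)) ^ 2 := by
    rw [GaloisField.card 2 (2 * (e * k)) (by omega), ← pow_mul, mul_comm]
  obtain ⟨hF, r, hr⟩ := card_fixed (E := GaloisField 2 (2 * (e * k))) (e * k) hm hc
  have h2 : (2 : GaloisField 2 (2 * (e * k))) = 0 := two_eq
  have hn : (2 : ℕ) ^ (e * k) = (2 ^ e) ^ k := pow_mul 2 e k
  have hadd : ∀ a b : GaloisField 2 (2 * (e * k)),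
      (a + b) ^ 2 ^ (e * k) = a ^ 2 ^ (e * k) + b ^ 2 ^ (e * k) := fun a b =>
    add_pow_char_pow a b 2 _
  -- the trace of the subfield
  have hT : ∀ a : GaloisField 2 (2 * (e * k)), a ^ 2 ^ (e * k) = a →
      T (2 ^ e) k a ^ 2 ^ e = T (2 ^ e) k a := by
    intro a ha
    have := T_pow e k a
    rw [← hn, ha] at this
    exact add_right_cancel this
  have hTn : ∀ a : GaloisField 2 (2 * (e * k)), a ^ 2 ^ (e * k) = a →
      T (2 ^ e) k a ^ 2 ^ (e * k) = T (2 ^ e) k a := fun a ha => by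
    rw [hn]
    exact pow_fix (hT a ha) k
  have hcore : ∀ x y u : GaloisField 2 (2 * (e * k)), x ^ 2 ^ (e * k) = x →
      y ^ 2 ^ (e * k) = y → u ^ (2 ^ (e * k) + 1) = 1 →
      u * (x + r * T (2 ^ e) k x) = y + r * T (2 ^ e) k y → x = y := by
    intro x y u hx hy hu h
    rw [hn] at hx hy hu hr
    exact core e k hko r hr x y u hx hy hu h
  let ψ : fixed (GaloisField 2 (2 * (e * k))) (e * k) →+ GaloisField 2 (2 * (e * k)) :=
    { toFun := fun x => x.1 + r * T (2 ^ e) k x.1
      map_zero' := by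
        have h0 : T (2 ^ e) k (0 : GaloisField 2 (2 * (e * k))) = 0 := by
          have := T_add e k (0 : GaloisField 2 (2 * (e * k))) 0
          rw [add_zero] at this
          exact left_eq_add.1 this
        change (0 : GaloisField 2 (2 * (e * k))) + r * T (2 ^ e) k 0 = 0
        rw [h0, mul_zero, add_zero]
      map_add' := fun x y => by
        change x.1 + y.1 + r * T (2 ^ e) k (x.1 + y.1) = _
        rw [T_add]
        ring }
  have hψ : ∀ x, ψ x = x.1 + r * T (2 ^ e) k x.1 := fun x => rfl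
  have hinj : Function.Injective ψ := by
    intro x y h
    rw [hψ, hψ] at h
    exact Subtype.ext (hcore x.1 y.1 1 x.2 y.2 (one_pow _) (by rw [one_mul]; exact h))
  refine ⟨GaloisField 2 (2 * (e * k)), inferInstance, ψ.range, ⟨?_, hc, ?_, ?_⟩, ?_⟩
  · calc 2 = 2 ^ 1 := (pow_one 2).symm
      _ ≤ 2 ^ (e * k) := Nat.pow_le_pow_right (by norm_num) hm
  · rw [← hF]
    exact (Nat.card_congr (AddMonoidHom.ofInjective hinj).toEquiv).symm
  · rintro u hu hu1 _ ⟨x, rfl⟩ ⟨y, hy⟩
    rw [hψ, hψ] at hy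
    have hxy := hcore x.1 y.1 u x.2 y.2 hu hy.symm
    rw [← hxy] at hy
    rw [hψ]
    by_contra h0
    apply hu1
    apply mul_right_cancel₀ h0
    rw [one_mul]
    exact hy.symm
  · -- an element of the subfield which is not in the subfield with `2 ^ e` elements
    obtain ⟨z, hz, hze⟩ : ∃ z : GaloisField 2 (2 * (e * k)), z ^ 2 ^ (e * k) = z ∧
        z ^ 2 ^ e ≠ z := by
      by_contra hcon
      push Not at hcon
      have h3 : Nat.card (fixed (GaloisField 2 (2 * (e * k))) (e * k)) ≤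
          Nat.card (fixed (GaloisField 2 (2 * (e * k))) e) :=
        Nat.card_mono (Set.toFinite _) fun z hz => hcon z hz
      have h4 := card_fixed_le (E := GaloisField 2 (2 * (e * k))) e he
      rw [hF] at h3
      have h5 := (Nat.pow_le_pow_iff_right (by norm_num : 1 < 2)).1 (h3.trans h4)
      nlinarith
    have hx0 : z ^ 2 ^ e + z ≠ 0 := fun h => hze (by linear_combination h - z * h2)
    have hzF : (z ^ 2 ^ e + z) ^ 2 ^ (e * k) = z ^ 2 ^ e + z := by
      rw [hadd, ← pow_mul, mul_comm (2 ^ e), pow_mul, hz]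
    have hT0 : T (2 ^ e) k (z ^ 2 ^ e + z) = 0 := by
      rw [T_add, T_frob, hT z hz]
      linear_combination (T (2 ^ e) k z) * h2
    refine ⟨(z ^ 2 ^ e + z)⁻¹, z ^ 2 ^ e + z, ?_, ⟨⟨_, hzF⟩, ?_⟩, ?_⟩
    · rw [inv_pow, hzF]
    · rw [hψ]
      change z ^ 2 ^ e + z + r * T (2 ^ e) k (z ^ 2 ^ e + z) = z ^ 2 ^ e + z
      rw [hT0, mul_zero, add_zero]
    · rw [inv_mul_cancel₀ hx0]
      rintro ⟨x, hx⟩
      rw [hψ] at hx
      have h3 : (x.1 + r * T (2 ^ e) k x.1) ^ 2 ^ (e * k) = 1 := by rw [hx, one_pow]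
      rw [hadd, mul_pow, hTn x.1 x.2, show x.1 ^ 2 ^ (e * k) = x.1 from x.2, hr] at h3
      have h4 : T (2 ^ e) k x.1 = 0 := by linear_combination h3 - hx
      have h5 : x.1 = 1 := by rw [h4] at hx; linear_combination hx
      rw [h5, T_fix hko (one_pow _)] at h4
      exact one_ne_zero h4

end Pool.Agent.Lib.CPlane.AO
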