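import Pool.Agent.Lib.CPlane.IT5
import Pool.Agent.Lib.CPlane.AOStat

/-!
# A desarguesian plane `b + u S` comes from a subspace (row A3)
-/

namespace Pool.Agent.Lib.CPlane.AO

namespace A3x

open Module

/-- a homology with centre `0` is additive -/
theorem hom_additive {V : Type} [AddCommGroup V] {n : ℕ} (A : AffinePlane V n) (hn2 : 2 ≤ n)
    (htrans : ∀ L ∈ A.lines, ∀ v : V, (fun x => v + x) '' L ∈ A.lines)
    (hsub : ∀ L ∈ A.lines, (0 : V) ∈ L → ∃ U : AddSubgroup V, (U : Set V) = L)
    (h : V ≃ V) (hc : ∀ L ∈ A.lines, h '' L ∈ A.lines) (h0 : h 0 = 0)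
    (hfix : ∀ L ∈ A.lines, (0 : V) ∈ L → h '' L = L) (x y : V) : h (x + y) = h x + h y := by
  have hmem : ∀ L ∈ A.lines, (0 : V) ∈ L → ∀ x, h x ∈ L ↔ x ∈ L := by
    intro L hL hL0 x
    constructor
    · intro hx
      rw [← hfix L hL hL0] at hx
      obtain ⟨y, hy, hyx⟩ := hx
      rwa [← h.injective hyx]
    · intro hx
      rw [← hfix L hL hL0]
      exact ⟨x, hx, rfl⟩
  -- directions are preserved
  have key : ∀ L ∈ A.lines, (0 : V) ∈ L → ∀ x, ∀ l ∈ L, h (x + l) - h x ∈ L := by
    intro L hL hL0 x l hl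
    obtain ⟨U, hU⟩ := hsub L hL hL0
    by_cases hx : x ∈ L
    · rw [← hU] at hx hl ⊢
      have h1 : x + l ∈ (U : Set V) := U.add_mem hx hl
      rw [hU] at h1 hx ⊢
      have h2 := (hmem L hL hL0 _).2 h1
      have h3 := (hmem L hL hL0 _).2 hx
      rw [← hU] at h2 h3 ⊢
      exact U.sub_mem h2 h3
    · have hhx : h x ∉ L := fun h' => hx ((hmem L hL hL0 x).1 h')
      have h1 : h '' ((fun z => x + z) '' L) = (fun z => h x + z) '' L := by
        refine (A.parallel L hL (h x) hhx).unique ⟨hc _ (htrans L hL x), ?_, ?_⟩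
          ⟨htrans L hL (h x), ?_, ?_⟩
        · exact ⟨x, ⟨0, hL0, add_zero x⟩, rfl⟩
        · rw [Set.disjoint_left]
          rintro _ ⟨_, ⟨z, hz, rfl⟩, rfl⟩ h'
          have h2 := (hmem L hL hL0 _).1 h'
          apply hx
          change x + z ∈ L at h2
          rw [← hU] at h2 hz ⊢
          have h3 := U.sub_mem h2 hz
          rwa [add_sub_cancel_right] at h3
        · exact ⟨0, hL0, add_zero _⟩
        · rw [Set.disjoint_left]
          rintro _ ⟨z, hz, rfl⟩ h'
          apply hhx
          change h x + z ∈ L at h'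
          rw [← hU] at h' hz ⊢
          have h3 := U.sub_mem h' hz
          rwa [add_sub_cancel_right] at h3
      have h2 : h (x + l) ∈ (fun z => h x + z) '' L := by
        rw [← h1]
        exact ⟨x + l, ⟨l, hl, rfl⟩, rfl⟩
      obtain ⟨z, hz, hz'⟩ := h2
      rw [← hz']
      change h x + z - h x ∈ L
      rwa [add_sub_cancel_left]
  -- points on different lines through `0`
  have step : ∀ L ∈ A.lines, (0 : V) ∈ L → ∀ x y, x ∈ L → y ∉ L → h (x + y) = h x + h y := by
    intro L hL hL0 x y hx hy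
    have hy0 : y ≠ 0 := by
      rintro rfl
      exact hy hL0
    obtain ⟨M, ⟨hM, hM0, hMy⟩, -⟩ := A.join 0 y hy0.symm
    have h1 : h (x + y) - h x ∈ M := key M hM hM0 x y hMy
    have h2 : h (x + y) - h y ∈ L := by
      rw [add_comm x y]
      exact key L hL hL0 y x hx
    have h3 : h y ∈ M := (hmem M hM hM0 y).2 hMy
    have h4 : h x ∈ L := (hmem L hL hL0 x).2 hx
    by_contra hne
    have h5 : h (x + y) - h x - h y ≠ 0 := by
      intro h'
      apply hne
      rw [sub_sub, sub_eq_zero] at h'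
      exact h'
    obtain ⟨U, hU⟩ := hsub L hL hL0
    obtain ⟨W, hW⟩ := hsub M hM hM0
    have h6 : h (x + y) - h x - h y ∈ M := by
      rw [← hW] at h1 h3 ⊢
      exact W.sub_mem h1 h3
    have h7 : h (x + y) - h x - h y ∈ L := by
      rw [sub_right_comm]
      rw [← hU] at h2 h4 ⊢
      exact U.sub_mem h2 h4
    have h8 : L = M := line_unique A hL hM h5.symm hL0 h7 hM0 h6
    exact hy (h8 ▸ hMy)
  by_cases hx0 : x = 0
  · rw [hx0, zero_add, h0, zero_add]
  obtain ⟨L, ⟨hL, hL0, hLx⟩, -⟩ := A.join 0 x (Ne.symm hx0)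
  by_cases hy : y ∈ L
  · obtain ⟨z, hz⟩ := exists_notMem A hn2 hL
    obtain ⟨U, hU⟩ := hsub L hL hL0
    have hyz : y + z ∉ L := by
      intro h'
      apply hz
      rw [← hU] at h' hy ⊢
      have h3 := U.sub_mem h' hy
      rwa [add_sub_cancel_left] at h3
    have hxy : x + y ∈ L := by
      rw [← hU] at hLx hy ⊢
      exact U.add_mem hLx hy
    have h1 := step L hL hL0 x (y + z) hLx hyz
    have h2 := step L hL hL0 y z hy hz
    have h3 := step L hL hL0 (x + y) z hxy hz
    rw [← add_assoc, h3, h2, ← add_assoc] at h1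
    exact add_right_cancel h1
  · exact step L hL hL0 x y hLx hy


/-- arithmetic: the subfields -/
theorem arith {m d r : ℕ} (hm : 1 ≤ m) (hm3 : m ≠ 3) (hdr : 2 * m = d * r) (hr : 2 ≤ r)
    (h : 2 ^ m + 1 ∣ m * (2 ^ d - 1)) : False := by
  have hlt : m < 2 ^ m := Nat.lt_two_pow_self
  -- `2 ^ m + 1` is prime to `2 ^ j - 1` for `j ∣ m`
  have hcop : ∀ j, j ∣ m → Nat.Coprime (2 ^ m + 1) (2 ^ j - 1) := by
    intro j hj
    have h1 : (2 ^ j - 1) ∣ (2 ^ m - 1) := by
      obtain ⟨t, rfl⟩ := hj
      rw [pow_mul]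
      simpa using Nat.sub_dvd_pow_sub_pow (2 ^ j) 1 t
    refine Nat.Coprime.coprime_dvd_right h1 ?_
    have h2 : 2 ^ m + 1 = 2 + (2 ^ m - 1) := by omega
    rw [h2, Nat.coprime_add_self_left]
    refine Nat.Coprime.symm (Nat.Coprime.symm ?_)
    rw [Nat.coprime_two_left]
    obtain ⟨t, rfl⟩ : ∃ t, m = t + 1 := ⟨m - 1, by omega⟩
    refine ⟨2 ^ t - 1, ?_⟩
    rw [pow_succ]
    have : 1 ≤ 2 ^ t := Nat.one_le_two_pow
    omega
  rcases Nat.even_or_odd r with ⟨r', hr'⟩ | hodd
  · have h1 : d ∣ m := ⟨r', by subst hr'; nlinarith⟩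
    have h2 : 2 ^ m + 1 ∣ m := (hcop d h1).dvd_of_dvd_mul_right h
    have h3 := Nat.le_of_dvd hm h2
    omega
  · have hd2 : 2 ∣ d := by
      have h1 : 2 ∣ d * r := ⟨m, hdr.symm⟩
      exact (Nat.Coprime.dvd_mul_right (Nat.coprime_two_left.2 hodd)).1 h1
    obtain ⟨e, rfl⟩ := hd2
    have hme : m = e * r := by nlinarith
    have hr3 : 3 ≤ r := by
      obtain ⟨c, hc⟩ := hodd
      omega
    have he1 : 1 ≤ e := by
      by_contra h'
      have : e = 0 := by omega
      subst this
      omega
    have h1 : 2 ^ (2 * e) - 1 = (2 ^ e - 1) * (2 ^ e + 1) := by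
      have h2 : 1 ≤ 2 ^ e := Nat.one_le_two_pow
      rw [two_mul, pow_add]
      obtain ⟨t, ht⟩ : ∃ t, 2 ^ e = t + 1 := ⟨2 ^ e - 1, by omega⟩
      rw [ht]
      have : (t + 1) * (t + 1) = t * (t + 1 + 1) + 1 := by ring
      rw [this]
      simp
    rw [h1, ← mul_assoc, mul_right_comm] at h
    have h2 : 2 ^ m + 1 ∣ m * (2 ^ e + 1) :=
      (hcop e ⟨r, hme⟩).dvd_of_dvd_mul_right h
    have h3 : 2 ^ m + 1 ≤ m * (2 ^ e + 1) := Nat.le_of_dvd (by positivity) h2
    have h4 : m * (2 ^ e + 1) < 2 ^ m + 1 := by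
      rcases Nat.lt_or_ge e 2 with he | he
      · have he' : e = 1 := by omega
        subst he'
        rw [one_mul] at hme
        subst hme
        have hr4 : 4 ≤ m := by omega
        clear h h2 h3 hcop hlt hdr h1
        have : ∀ t, 4 ≤ t → t * 3 < 2 ^ t + 1 := by
          intro t ht
          induction t, ht using Nat.le_induction with
          | base => norm_num
          | succ t ht ih =>
            have : 2 ^ (t + 1) = 2 * 2 ^ t := by rw [pow_succ]; ring
            omega
        simpa using this m hr4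
      · have hx : ∀ t, 4 ≤ t → 3 * t ≤ 2 ^ t := by
          intro t ht
          induction t, ht using Nat.le_induction with
          | base => norm_num
          | succ t ht ih =>
            have : 2 ^ (t + 1) = 2 * 2 ^ t := by rw [pow_succ]; ring
            omega
        obtain ⟨r0, rfl⟩ : ∃ r0, r = r0 + 1 := ⟨r - 1, by omega⟩
        have hr0 : 2 ≤ r0 := by omega
        have hx4 : 4 ≤ e * r0 := by nlinarith
        have h5 := hx (e * r0) hx4
        have h6 : 2 * (e * (r0 + 1)) ≤ 3 * (e * r0) := by nlinarith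
        have h7 : 2 ^ e + 1 ≤ 2 * 2 ^ e := by
          have : 1 ≤ 2 ^ e := Nat.one_le_two_pow
          omega
        have h8 : 2 ^ (e * (r0 + 1)) = 2 ^ (e * r0) * 2 ^ e := by
          rw [← pow_add, mul_add, mul_one]
        rw [hme]
        calc e * (r0 + 1) * (2 ^ e + 1) ≤ e * (r0 + 1) * (2 * 2 ^ e) :=
              Nat.mul_le_mul_left _ h7
          _ = 2 * (e * (r0 + 1)) * 2 ^ e := by ring
          _ ≤ 2 ^ (e * r0) * 2 ^ e := Nat.mul_le_mul_right _ (h6.trans h5)
          _ < 2 ^ (e * (r0 + 1)) + 1 := by rw [h8]; omega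
    omega

/-- a subfield which contains `c ^ m`, `c` of order `2 ^ m + 1`, is everything -/
theorem subfield_top {E : Type} [Field E] {m : ℕ} (hm : 1 ≤ m) (hm3 : m ≠ 3)
    (hE : Nat.card E = (2 ^ m) ^ 2) (c : E) (hc : orderOf c = 2 ^ m + 1) (Z : Subfield E)
    (hZ : c ^ m ∈ Z) : ∀ y, y ∈ Z := by
  classical
  have hfin : Finite E := Nat.finite_of_card_ne_zero (by rw [hE]; positivity)
  have : Fintype E := Fintype.ofFinite E
  have : Fintype Z := Fintype.ofFinite Z
  have hchar : CharP E 2 := by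
    have h1 : Fintype.card E = 2 ^ (m * 2) := by
      rw [← Nat.card_eq_fintype_card, hE, pow_mul]
    exact charP_of_card_eq_prime_pow h1
  obtain ⟨d, -, hd⟩ := FiniteField.card Z 2
  have h1 : Nat.card E = Nat.card Z ^ finrank Z E := Module.natCard_eq_pow_finrank
  rw [hE, Nat.card_eq_fintype_card (α := Z), hd, ← pow_mul, ← pow_mul] at h1
  have h2 : m * 2 = d * finrank Z E := Nat.pow_right_injective le_rfl h1
  have h3 : finrank Z E < 2 := by
    by_contra h4
    refine arith hm hm3 (d := d) (r := finrank Z E) ((mul_comm 2 m).trans h2) (by omega) ?_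
    have h5 : (⟨c ^ m, hZ⟩ : Z) ^ (Fintype.card Z - 1) = 1 := by
      refine FiniteField.pow_card_sub_one_eq_one _ ?_
      intro h6
      have h7 : c ^ m = 0 := congrArg Subtype.val h6
      have h8 : c = 0 := pow_eq_zero_iff (by omega) |>.1 h7
      rw [h8, orderOf_zero] at hc
      exact absurd hc (Nat.succ_ne_zero _).symm
    have h6 : c ^ (m * (2 ^ (d : ℕ) - 1)) = 1 := by
      rw [pow_mul, ← hd]
      exact congrArg Subtype.val h5
    rw [← hc]
    exact orderOf_dvd_of_pow_eq_one h6
  have h4 : finrank Z E = 1 := by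
    have : 0 < finrank Z E := finrank_pos
    omega
  intro y
  obtain ⟨z, hz⟩ := (finrank_eq_one_iff_of_nonzero' (1 : E) one_ne_zero).1 h4 y
  rw [← hz]
  change (z : E) * 1 ∈ Z
  rw [mul_one]
  exact z.2


/-- the lines are invariant under translations -/
theorem good_trans {E : Type} [Field E] {n : ℕ} {S : AddSubgroup E} {L : Set E}
    (hL : L ∈ goodLines E n S) (v : E) : (fun x => v + x) '' L ∈ goodLines E n S := by
  obtain ⟨u, b, hu, rfl⟩ := hL
  refine ⟨u, v + b, hu, ?_⟩
  ext x
  constructor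
  · rintro ⟨_, ⟨s, hs, rfl⟩, rfl⟩
    exact ⟨s, hs, by ring⟩
  · rintro ⟨s, hs, rfl⟩
    exact ⟨b + u * s, ⟨s, hs, rfl⟩, by ring⟩

/-- the lines are invariant under multiplication by `u` -/
theorem good_mul {E : Type} [Field E] {n : ℕ} {S : AddSubgroup E} {L : Set E}
    (hL : L ∈ goodLines E n S) (v : E) (hv : v ^ (n + 1) = 1) :
    (fun x => v * x) '' L ∈ goodLines E n S := by
  obtain ⟨u, b, hu, rfl⟩ := hL
  refine ⟨v * u, v * b, by rw [mul_pow, hu, hv, one_mul], ?_⟩
  ext x
  constructor
  · rintro ⟨_, ⟨s, hs, rfl⟩, rfl⟩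
    exact ⟨s, hs, by ring⟩
  · rintro ⟨s, hs, rfl⟩
    exact ⟨b + u * s, ⟨s, hs, rfl⟩, by ring⟩

/-- the lines through `0` are subgroups -/
theorem good_sub {E : Type} [Field E] {n : ℕ} {S : AddSubgroup E} {L : Set E}
    (hL : L ∈ goodLines E n S) (h0 : (0 : E) ∈ L) : ∃ U : AddSubgroup E, (U : Set E) = L := by
  obtain ⟨u, b, hu, rfl⟩ := hL
  obtain ⟨s0, hs0, hb⟩ := h0
  refine ⟨S.map (AddMonoidHom.mulLeft u), ?_⟩
  ext x
  constructor
  · rintro ⟨s, hs, rfl⟩
    refine ⟨s + s0, S.add_mem hs hs0, ?_⟩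
    change u * s = b + u * (s + s0)
    linear_combination hb
  · rintro ⟨s, hs, rfl⟩
    refine ⟨s - s0, S.sub_mem hs hs0, ?_⟩
    change u * (s - s0) = b + u * s
    linear_combination hb

/-- from a desarguesian plane: many homologies -/
theorem exists_hom {V : Type} [AddCommGroup V] {n : ℕ} (A : AffinePlane V n)
    (hA : Desarguesian A) : ∃ (F : Type) (_ : Field F) (h : F → V → V), Nat.card F = n ∧
      (∀ a b x, x ≠ 0 → h a x = h b x → a = b) ∧
      (∀ a, a ≠ 0 → ∃ φ : V ≃ V, (∀ x, φ x = h a x) ∧ (∀ L ∈ A.lines, φ '' L ∈ A.lines) ∧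
        φ 0 = 0 ∧ ∀ L ∈ A.lines, (0 : V) ∈ L → φ '' L = L) := by
  obtain ⟨F, hF, e, hcard, hlines⟩ := hA
  refine ⟨F, hF, fun a x => e.symm (e 0 + a • (e x - e 0)), hcard, ?_, ?_⟩
  · intro a b x hx h
    have h1 := e.symm.injective h
    have h2 : (a - b) • (e x - e 0) = 0 := by
      rw [sub_smul, sub_eq_zero]
      exact add_left_cancel h1
    have h3 : e x - e 0 ≠ 0 := by
      intro h4
      exact hx (e.injective (sub_eq_zero.1 h4))
    exact sub_eq_zero.1 ((smul_eq_zero.1 h2).resolve_right h3)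
  · intro a ha
    let φ : V ≃ V :=
      { toFun := fun x => e.symm (e 0 + a • (e x - e 0))
        invFun := fun x => e.symm (e 0 + a⁻¹ • (e x - e 0))
        left_inv := by
          intro x
          simp only [Equiv.apply_symm_apply, add_sub_cancel_left]
          rw [smul_smul, inv_mul_cancel₀ ha, one_smul, add_sub_cancel, Equiv.symm_apply_apply]
        right_inv := by
          intro x
          simp only [Equiv.apply_symm_apply, add_sub_cancel_left]
          rw [smul_smul, mul_inv_cancel₀ ha, one_smul, add_sub_cancel, Equiv.symm_apply_apply] }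
    have hφ : ∀ x, φ x = e.symm (e 0 + a • (e x - e 0)) := fun _ => rfl
    refine ⟨φ, fun x => rfl, ?_, ?_, ?_⟩
    · intro L hL
      rw [hlines] at hL ⊢
      obtain ⟨p, d, hd, hLd⟩ := hL
      refine ⟨e 0 + a • (p - e 0), d, hd, ?_⟩
      ext y
      constructor
      · rintro ⟨_, ⟨x, hx, rfl⟩, rfl⟩
        have h1 : e x ∈ e '' L := ⟨x, hx, rfl⟩
        rw [hLd] at h1
        obtain ⟨t, ht⟩ := h1
        refine ⟨a * t, ?_⟩
        rw [hφ, Equiv.apply_symm_apply, ht, mul_smul, add_assoc, ← smul_add]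
        congr 2
        abel
      · rintro ⟨t, rfl⟩
        have h1 : p + (a⁻¹ * t) • d ∈ e '' L := by
          rw [hLd]
          exact ⟨_, rfl⟩
        obtain ⟨x, hx, hxe⟩ := h1
        refine ⟨φ x, ⟨x, hx, rfl⟩, ?_⟩
        rw [hφ, Equiv.apply_symm_apply, hxe]
        have h2 : a • (a⁻¹ * t) • d = t • d := by
          rw [smul_smul, mul_inv_cancel_left₀ ha]
        rw [← h2, add_assoc, ← smul_add]
        congr 2
        abel
    · rw [hφ, sub_self, smul_zero, add_zero, Equiv.symm_apply_apply]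
    · intro L hL hL0
      have hL' := hL
      rw [hlines] at hL
      obtain ⟨p, d, hd, hLd⟩ := hL
      have h0 : e 0 ∈ e '' L := ⟨0, hL0, rfl⟩
      rw [hLd] at h0
      obtain ⟨t0, ht0⟩ := h0
      have hsub : ∀ x ∈ L, φ x ∈ L := by
        intro x hx
        have h1 : e x ∈ e '' L := ⟨x, hx, rfl⟩
        rw [hLd] at h1
        obtain ⟨t, ht⟩ := h1
        have h2 : e (φ x) ∈ e '' L := by
          rw [hLd]
          refine ⟨t0 + a * (t - t0), ?_⟩
          rw [hφ, Equiv.apply_symm_apply, ht, ht0, add_smul, mul_smul, sub_smul, ← add_assoc]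
          congr 2
          abel
        obtain ⟨x', hx', he⟩ := h2
        rwa [← e.injective he]
      have hsub' : ∀ x ∈ L, φ.symm x ∈ L := by
        intro x hx
        have h1 : e x ∈ e '' L := ⟨x, hx, rfl⟩
        rw [hLd] at h1
        obtain ⟨t, ht⟩ := h1
        have h2 : e (φ.symm x) ∈ e '' L := by
          rw [hLd]
          refine ⟨t0 + a⁻¹ * (t - t0), ?_⟩
          change e (e.symm (e 0 + a⁻¹ • (e x - e 0))) = _
          rw [Equiv.apply_symm_apply, ht, ht0, add_smul, mul_smul, sub_smul, ← add_assoc]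
          congr 2
          abel
        obtain ⟨x', hx', he⟩ := h2
        rwa [← e.injective he]
      ext x
      constructor
      · rintro ⟨y, hy, rfl⟩
        exact hsub y hy
      · intro hx
        exact ⟨φ.symm x, hsub' x hx, φ.apply_symm_apply x⟩

/-- the automorphism group of a field of order `2 ^ m` -/
theorem aut_pow {K : Type} [Field K] [Fintype K] [CharP K 2] {m : ℕ}
    (hK : Fintype.card K = 2 ^ m) (τ : letI := ZMod.algebra K 2; K ≃ₐ[ZMod 2] K) :
    τ ^ m = 1 := by
  let _ : Algebra (ZMod 2) K := ZMod.algebra K 2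
  have hcard : Nat.card (K ≃ₐ[ZMod 2] K) = m := by
    rw [IsGalois.card_aut_eq_finrank]
    have h1 : Fintype.card K = Fintype.card (ZMod 2) ^ finrank (ZMod 2) K :=
      Module.card_eq_pow_finrank
    rw [hK, ZMod.card] at h1
    exact (Nat.pow_right_injective (le_refl 2) h1).symm
  have h := pow_card_eq_one' (x := τ)
  rwa [hcard] at h


/-- the number of the elements of the subfield -/
theorem card_sub_le {E : Type} [Field E] [Finite E] {n : ℕ} (hn2 : 2 ≤ n) :
    Set.ncard {f : E | f ^ n = f} ≤ n := by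
  classical
  have hp : (Polynomial.X ^ n - Polynomial.X : Polynomial E) ≠ 0 :=
    FiniteField.X_pow_card_sub_X_ne_zero E (by omega)
  have h1 : {f : E | f ^ n = f} ⊆
      ((Polynomial.X ^ n - Polynomial.X : Polynomial E).roots.toFinset : Set E) := by
    intro f hf
    rw [Finset.mem_coe, Multiset.mem_toFinset, Polynomial.mem_roots hp, Polynomial.IsRoot.def]
    simp only [Polynomial.eval_sub, Polynomial.eval_pow, Polynomial.eval_X]
    exact sub_eq_zero.2 hf
  refine (Set.ncard_le_ncard h1 (Finset.finite_toSet _)).trans ?_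
  rw [Set.ncard_coe_finset]
  refine (Multiset.toFinset_card_le _).trans ((Polynomial.card_roots' _).trans ?_)
  rw [FiniteField.X_pow_card_sub_X_natDegree_eq E (by omega)]

end A3x

open A3x in
/-- **row A3** -/
theorem a3 : A3 := by
  classical
  intro E _ m S A hm hm3 hgood hA hdes f hf s hs
  have hn2 : 2 ≤ 2 ^ m := hgood.two
  have hfin : Finite E := finite_points A hn2
  have hchar : CharP E 2 := by
    have : Fintype E := Fintype.ofFinite E
    have h1 : Fintype.card E = 2 ^ (m * 2) := by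
      rw [← Nat.card_eq_fintype_card, hgood.card, pow_mul]
    exact charP_of_card_eq_prime_pow h1
  have h2 : ∀ x : E, x + x = 0 := CharTwo.add_self_eq_zero
  have htrans : ∀ L ∈ A.lines, ∀ v : E, (fun x => v + x) '' L ∈ A.lines := by
    intro L hL v
    rw [hA] at hL ⊢
    exact good_trans hL v
  have hsub : ∀ L ∈ A.lines, (0 : E) ∈ L → ∃ U : AddSubgroup E, (U : Set E) = L := by
    intro L hL h0
    rw [hA] at hL
    exact good_sub hL h0
  obtain ⟨K, hKf, hKfin, hKm, hK2, hKsub, hKadd, hKsemi⟩ := exists_kernel A hn2 h2 htrans hsub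
  obtain ⟨F, hF, h, hFcard, hinj, hhom⟩ := exists_hom A hdes
  have hFfin : Finite F := Nat.finite_of_card_ne_zero (by rw [hFcard]; positivity)
  -- `S` is a line
  have hSline : (S : Set E) ∈ A.lines := by
    rw [hA]
    refine ⟨1, 0, one_pow _, ?_⟩
    ext x
    constructor
    · intro hx
      exact ⟨x, hx, by ring⟩
    · rintro ⟨t, ht, rfl⟩
      rw [one_mul, zero_add]
      exact ht
  obtain ⟨U, hU⟩ := hKsub _ hSline S.zero_mem
  -- the kernel has `n` elements
  have hone : (1 : E) ≠ 0 := one_ne_zero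
  have hKge : 2 ^ m ≤ Fintype.card K := by
    have hex : ∀ a : F, ∃ k : K, a ≠ 0 → ∀ x, h a x = k • x := by
      intro a
      by_cases ha : a = 0
      · exact ⟨0, fun h' => absurd ha h'⟩
      · obtain ⟨φ, hφ, hφl, hφ0, hφfix⟩ := hhom a ha
        have hadd := hom_additive A hn2 htrans hsub φ hφl hφ0 hφfix
        obtain ⟨k, hk⟩ := hKadd { toFun := φ, map_zero' := hφ0, map_add' := hadd } (by
          intro L hL h0 x hx
          rw [← hφfix L hL h0]
          exact ⟨x, hx, rfl⟩)
        refine ⟨k, fun _ x => ?_⟩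
        rw [← hφ]
        exact hk x
    choose κ hκ using hex
    have hne : ∀ a, a ≠ 0 → κ a ≠ 0 := by
      intro a ha hk
      obtain ⟨φ, hφ, hφl, hφ0, hφfix⟩ := hhom a ha
      have h3 := hκ a ha 1
      rw [hk, zero_smul, ← hφ, ← hφ0] at h3
      exact hone (φ.injective h3)
    have hκinj : Function.Injective fun a : F => if a = 0 then 0 else κ a := by
      intro a b hab
      by_cases ha : a = 0
      · by_cases hb : b = 0
        · rw [ha, hb]
        · simp only [if_pos ha, if_neg hb] at hab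
          exact absurd hab.symm (hne b hb)
      · by_cases hb : b = 0
        · simp only [if_neg ha, if_pos hb] at hab
          exact absurd hab (hne a ha)
        · simp only [if_neg ha, if_neg hb] at hab
          refine hinj a b 1 hone ?_
          rw [hκ a ha, hκ b hb, hab]
    have h4 := Nat.card_le_card_of_injective _ hκinj
    rwa [hFcard, Nat.card_eq_fintype_card] at h4
  have hKle : Fintype.card K ≤ 2 ^ m := by
    obtain ⟨s0, hs0, hs00⟩ : ∃ s0 ∈ S, s0 ≠ 0 := by
      by_contra hcon
      push Not at hcon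
      have h3 : S = ⊥ := by
        rw [eq_bot_iff]
        intro x hx
        exact hcon x hx
      have h4 := hgood.cardS
      rw [h3, AddSubgroup.card_bot] at h4
      omega
    have h3 : Function.Injective fun k : K => (⟨k • s0, by
        have : s0 ∈ (U : Set E) := by rw [hU]; exact hs0
        have h5 := U.smul_mem k this
        have h6 : k • s0 ∈ (U : Set E) := h5
        rw [hU] at h6
        exact h6⟩ : S) := by
      intro a b hab
      have h4 : a • s0 = b • s0 := congrArg Subtype.val hab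
      have h5 : (a - b) • s0 = 0 := by rw [sub_smul, h4, sub_self]
      exact sub_eq_zero.1 ((smul_eq_zero.1 h5).resolve_right hs00)
    have h4 := Nat.card_le_card_of_injective _ h3
    rwa [hgood.cardS, Nat.card_eq_fintype_card] at h4
  have hK : Fintype.card K = 2 ^ m := le_antisymm hKle hKge
  let _ : Algebra (ZMod 2) K := ZMod.algebra K 2
  -- elements of `C`
  have hsemi : ∀ u : E, u ^ (2 ^ m + 1) = 1 → ∀ (k : K) (x : E),
      u ^ m * (k • x) = k • (u ^ m * x) := by
    intro u hu
    have hu0 : u ≠ 0 := by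
      rintro rfl
      rw [zero_pow (Nat.succ_ne_zero _)] at hu
      exact zero_ne_one hu
    let φ : E ≃+ E :=
      { toFun := fun x => u * x
        invFun := fun x => u⁻¹ * x
        left_inv := fun x => inv_mul_cancel_left₀ hu0 x
        right_inv := fun x => mul_inv_cancel_left₀ hu0 x
        map_add' := fun x y => mul_add u x y }
    obtain ⟨σ, hσ⟩ := hKsemi φ (by
      intro L hL
      rw [hA] at hL ⊢
      exact good_mul hL u hu)
    have hσ' : ∀ (k : K) (x : E), u * (k • x) = σ k • (u * x) := hσ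
    let τ : K ≃ₐ[ZMod 2] K := AlgEquiv.ofRingEquiv (f := σ) (fun r => by
      have h1 : ∀ r : ZMod 2, r = 0 ∨ r = 1 := by decide
      rcases h1 r with rfl | rfl
      · simp
      · simp)
    have hiter : ∀ (j : ℕ) (k : K) (x : E), u ^ j * (k • x) = (τ ^ j) k • (u ^ j * x) := by
      intro j
      induction j with
      | zero => intro k x; simp
      | succ j ih =>
        intro k x
        rw [pow_succ' u, mul_assoc, ih, hσ', pow_succ' τ, mul_assoc]
        rfl
    intro k x
    rw [hiter, aut_pow hK τ]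
    rfl
  -- the centralizer
  let Z : Subfield E :=
    { carrier := {y | ∀ (k : K) (x : E), y * (k • x) = k • (y * x)}
      mul_mem' := by
        intro a b ha hb k x
        rw [mul_assoc, hb, ha, mul_assoc]
      one_mem' := by
        intro k x
        rw [one_mul, one_mul]
      add_mem' := by
        intro a b ha hb k x
        rw [add_mul, ha, hb, add_mul, smul_add]
      zero_mem' := by
        intro k x
        rw [zero_mul, zero_mul, smul_zero]
      neg_mem' := by
        intro a ha k x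
        rw [neg_mul, ha, neg_mul, smul_neg]
      inv_mem' := by
        intro a ha k x
        by_cases ha0 : a = 0
        · rw [ha0, inv_zero, zero_mul, zero_mul, smul_zero]
        · rw [inv_mul_eq_iff_eq_mul₀ ha0, ha, mul_inv_cancel_left₀ ha0] }
  obtain ⟨c, hc⟩ : ∃ c : E, orderOf c = 2 ^ m + 1 := by
    obtain ⟨g, hg⟩ := IsCyclic.exists_ofOrder_eq_natCard (α := Eˣ)
    have h3 : Nat.card Eˣ = (2 ^ m - 1) * (2 ^ m + 1) := by
      rw [Nat.card_units, hgood.card]
      obtain ⟨t, ht⟩ : ∃ t, 2 ^ m = t + 1 := ⟨2 ^ m - 1, by omega⟩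
      rw [ht]
      have : (t + 1) ^ 2 = t * (t + 1 + 1) + 1 := by ring
      rw [this]
      simp
    refine ⟨((g ^ (2 ^ m - 1) : Eˣ) : E), ?_⟩
    rw [orderOf_units, orderOf_pow_of_dvd (by omega) (by rw [hg, h3]; exact Dvd.intro _ rfl), hg,
      h3, Nat.mul_div_cancel_left _ (by omega)]
  have hcZ : c ^ m ∈ Z := by
    intro k x
    refine hsemi c ?_ k x
    rw [← hc]
    exact pow_orderOf_eq_one c
  have htop := subfield_top hm hm3 hgood.card c hc Z hcZ
  have hcomm : ∀ (y : E) (k : K) (x : E), y * (k • x) = k • (y * x) := fun y => htop y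
  -- `K` acts by multiplications
  have hκ : ∀ (k : K) (x : E), k • x = (k • (1 : E)) * x := by
    intro k x
    have h3 := hcomm x k 1
    rw [mul_one] at h3
    rw [← h3, mul_comm]
  have hpow : ∀ (k : K) (j : ℕ), (k • (1 : E)) ^ j = (k ^ j) • (1 : E) := by
    intro k j
    induction j with
    | zero => rw [pow_zero, pow_zero, one_smul]
    | succ j ih => rw [pow_succ, ih, pow_succ, mul_smul, hκ (k ^ j) (k • (1 : E))]
  have hrange : Set.range (fun k : K => k • (1 : E)) = {f : E | f ^ 2 ^ m = f} := by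
    refine Set.eq_of_subset_of_ncard_le ?_ ?_ (Set.toFinite _)
    · rintro _ ⟨k, rfl⟩
      change (k • (1 : E)) ^ 2 ^ m = k • (1 : E)
      rw [hpow, ← hK, FiniteField.pow_card]
    · refine (card_sub_le hn2).trans ?_
      have h3 : Function.Injective fun k : K => k • (1 : E) := by
        intro a b hab
        have h4 : a • (1 : E) = b • (1 : E) := hab
        have h5 : (a - b) • (1 : E) = 0 := by rw [sub_smul, h4, sub_self]
        exact sub_eq_zero.1 ((smul_eq_zero.1 h5).resolve_right hone)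
      rw [← Set.image_univ, Set.ncard_image_of_injective _ h3, Set.ncard_univ,
        Nat.card_eq_fintype_card, hK]
  obtain ⟨k, hk⟩ : f ∈ Set.range (fun k : K => k • (1 : E)) := by
    rw [hrange]
    exact hf
  have hk' : k • (1 : E) = f := hk
  rw [← hk', ← hκ]
  have h3 : s ∈ (U : Set E) := by rw [hU]; exact hs
  have h5 : k • s ∈ (U : Set E) := U.smul_mem k h3
  rw [hU] at h5
  exact h5

end Pool.Agent.Lib.CPlane.AO
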