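import Mathlib

/-!
# Row A3b: a power of a generator of the norm one group generates the field
-/

namespace Pool.Agent.Lib.CPlane.AO

/-- the only exception is `m = 3` -/
theorem small {m e : ℕ} (h3 : 3 * e ≤ m) (he : 1 ≤ e) (hm3 : m ≠ 3) :
    m * (2 ^ e + 1) < 2 ^ m + 1 := by
  have key : ∀ e : ℕ, 1 ≤ e → ∀ d : ℕ, 3 * e + d ≠ 3 →
      (3 * e + d) * (2 ^ e + 1) < 2 ^ (3 * e + d) + 1 := by
    intro e he d
    induction d with
    | zero =>
      intro h
      rw [Nat.add_zero] at h ⊢
      have h2 : 2 ≤ e := by omega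
      clear h he
      induction e, h2 using Nat.le_induction with
      | base => norm_num
      | succ k hk ih =>
        have e1 : 2 ^ (3 * (k + 1)) = 8 * 2 ^ (3 * k) := by
          rw [show 3 * (k + 1) = 3 * k + 3 by ring, pow_add]
          ring
        have e2 : 2 ^ (k + 1) = 2 * 2 ^ k := by ring
        rw [e1, e2]
        have h4 : 4 ≤ 2 ^ k := by
          calc 4 = 2 ^ 2 := by norm_num
            _ ≤ 2 ^ k := Nat.pow_le_pow_right (by norm_num) hk
        have h5 : 3 * (k + 1) * (2 * 2 ^ k + 1) ≤ 4 * (3 * k * (2 ^ k + 1)) := by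
          nlinarith
        have h6 : 64 ≤ 2 ^ (3 * k) := by
          calc 64 = 2 ^ 6 := by norm_num
            _ ≤ 2 ^ (3 * k) := Nat.pow_le_pow_right (by norm_num) (by omega)
        omega
    | succ d ih =>
      intro h
      by_cases h3 : 3 * e + d = 3
      · have h1 : e = 1 := by omega
        have h2 : d = 0 := by omega
        subst h1
        subst h2
        norm_num
      · have h4 := ih h3
        have e1 : 2 ^ (3 * e + (d + 1)) = 2 * 2 ^ (3 * e + d) := by ring
        rw [e1]
        have h5 : (3 * e + (d + 1)) * (2 ^ e + 1) ≤ 2 * ((3 * e + d) * (2 ^ e + 1)) - 1 := by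
          have h7 : 2 * (2 ^ e + 1) ≤ (3 * e + d) * (2 ^ e + 1) :=
            Nat.mul_le_mul_right _ (by omega)
          have h8 : 1 ≤ 2 ^ e := Nat.one_le_two_pow
          have h9 : (3 * e + (d + 1)) * (2 ^ e + 1) = (3 * e + d) * (2 ^ e + 1) + (2 ^ e + 1) := by
            ring
          omega
        omega
  obtain ⟨d, rfl⟩ := Nat.exists_eq_add_of_le h3
  exact key e he d hm3

/-- **Row A3b.** -/
theorem subfield_top {E : Type*} [Field E] {m : ℕ} (hm : 1 ≤ m) (hm3 : m ≠ 3)
    (hE : Nat.card E = (2 ^ m) ^ 2) (c : E) (hc : orderOf c = 2 ^ m + 1) (B : Subfield E)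
    (hB : c ^ m ∈ B) : B = ⊤ := by
  have hfin : Finite E := Nat.finite_of_card_ne_zero (by rw [hE]; positivity)
  have : Fintype E := Fintype.ofFinite E
  have : Fintype B := Fintype.ofFinite B
  -- `|E| = |B| ^ j`
  have hEB : Nat.card E = Nat.card B ^ Module.finrank B E := Module.natCard_eq_pow_finrank
  set j := Module.finrank B E with hj
  have hj1 : 1 ≤ j := Module.finrank_pos
  have hcB2 : 2 ≤ Nat.card B := by
    rw [Nat.card_eq_fintype_card]
    exact Fintype.one_lt_card
  -- `|B| = 2 ^ d`
  obtain ⟨d, hd⟩ : ∃ d, Nat.card B = 2 ^ d := by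
    have h1 : Nat.card B ∣ 2 ^ (m * 2) := by
      rw [pow_mul, ← hE, hEB]
      exact dvd_pow_self _ (by omega)
    obtain ⟨d, -, hd⟩ := (Nat.dvd_prime_pow Nat.prime_two).1 h1
    exact ⟨d, hd⟩
  have hdj : d * j = m * 2 := by
    have h1 : 2 ^ (d * j) = 2 ^ (m * 2) := by
      rw [pow_mul, ← hd, ← hEB, hE, pow_mul]
    exact Nat.pow_right_injective (le_refl 2) h1
  have hd1 : 1 ≤ d := by
    rcases Nat.eq_zero_or_pos d with h | h
    · rw [h] at hdj
      omega
    · exact h
  set b : E := c ^ m with hb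
  have hb0 : b ≠ 0 := by
    intro h
    have h1 : c = 0 := pow_eq_zero_iff (by omega) |>.1 (hb ▸ h)
    rw [h1, orderOf_zero] at hc
    have h9 : 0 < 2 ^ m := by positivity
    omega
  have hbB : b ^ (2 ^ d - 1) = 1 := by
    have h1 : (⟨b, hB⟩ : B) ^ (Nat.card B - 1) = 1 := by
      rw [Nat.card_eq_fintype_card]
      refine FiniteField.pow_card_sub_one_eq_one _ ?_
      intro h
      exact hb0 (congrArg Subtype.val h)
    have h2 := congrArg (Subtype.val : B → E) h1
    rw [hd] at h2
    simpa using h2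
  have hbm : b ^ (2 ^ m + 1) = 1 := by
    rw [hb, ← pow_mul, mul_comm, pow_mul, ← hc, pow_orderOf_eq_one, one_pow]
  have hbd : orderOf b ∣ 2 ^ d - 1 := orderOf_dvd_of_pow_eq_one hbB
  have hbm' : orderOf b ∣ 2 ^ m + 1 := orderOf_dvd_of_pow_eq_one hbm
  -- `j = 1`
  have hj_one : j = 1 := by
    by_contra hne
    set o := orderOf b with ho
    have hd2 : (2 : ZMod o) ^ d = 1 := by
      have h1 : ((2 ^ d - 1 : ℕ) : ZMod o) = 0 := (ZMod.natCast_eq_zero_iff _ _).2 hbd
      rw [Nat.cast_sub Nat.one_le_two_pow] at h1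
      push_cast at h1
      exact sub_eq_zero.1 h1
    have hm2 : (2 : ZMod o) ^ m = -1 := by
      have h1 : ((2 ^ m + 1 : ℕ) : ZMod o) = 0 := (ZMod.natCast_eq_zero_iff _ _).2 hbm'
      push_cast at h1
      exact eq_neg_of_add_eq_zero_left h1
    have hodd : Odd o := by
      rcases Nat.even_or_odd o with h | h
      · exfalso
        have h1 : 2 ∣ 2 ^ m + 1 := (even_iff_two_dvd.1 h).trans hbm'
        have h2 : 2 ∣ 2 ^ m := dvd_pow_self _ (by omega)
        have := (Nat.dvd_add_right h2).1 h1
        omega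
      · exact h
    rcases Nat.even_or_odd j with hje | hjo
    · -- `d ∣ m`
      obtain ⟨i, hi⟩ := hje
      have h1 : m = d * i := by
        have : d * (i + i) = m * 2 := by rw [← hi]; exact hdj
        nlinarith
      have h2 : (-1 : ZMod o) = 1 := by
        rw [← hm2, h1, pow_mul, hd2, one_pow]
      have h3 : ((2 : ℕ) : ZMod o) = 0 := by
        push_cast
        calc (2 : ZMod o) = 1 + 1 := by norm_num
          _ = 1 + -1 := by rw [h2]
          _ = 0 := by ring
      have h4 : o ∣ 2 := (ZMod.natCast_eq_zero_iff _ _).1 h3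
      have h5 : o = 1 := by
        rcases (Nat.dvd_prime Nat.prime_two).1 h4 with h | h
        · exact h
        · rw [h] at hodd
          exact absurd hodd (by decide)
      have h6 : b = 1 := orderOf_eq_one_iff.1 (ho ▸ h5)
      have h7 : 2 ^ m + 1 ∣ m := by
        rw [← hc]
        exact orderOf_dvd_of_pow_eq_one (hb ▸ h6)
      have h8 := Nat.le_of_dvd (by omega) h7
      have h9 : m < 2 ^ m := Nat.lt_two_pow_self
      omega
    · -- `d = 2 e`
      have h1 : Even d := by
        have h2 : Even (d * j) := by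
          rw [hdj]
          exact ⟨m, by ring⟩
        rcases Nat.even_mul.1 h2 with h | h
        · exact h
        · exact absurd hjo (Nat.not_odd_iff_even.2 h)
      obtain ⟨e, he⟩ := h1
      have hme : m = e * j := by
        have : (e + e) * j = m * 2 := by rw [← he]; exact hdj
        nlinarith
      obtain ⟨i, hi⟩ := hjo
      have h3 : (2 : ZMod o) ^ e = -1 := by
        rw [← hm2, hme, hi]
        have : e * (2 * i + 1) = (e + e) * i + e := by ring
        rw [this, pow_add, pow_mul, ← he, hd2, one_pow, one_mul]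
      have h4 : o ∣ 2 ^ e + 1 := by
        rw [← ZMod.natCast_eq_zero_iff]
        push_cast
        rw [h3]
        ring
      have h5 : b ^ (2 ^ e + 1) = 1 := orderOf_dvd_iff_pow_eq_one.1 h4
      have h6 : 2 ^ m + 1 ∣ m * (2 ^ e + 1) := by
        rw [← hc]
        refine orderOf_dvd_of_pow_eq_one ?_
        rw [pow_mul]
        exact h5
      have he1 : 1 ≤ e := by omega
      have hj3 : 3 ≤ j := by omega
      have h7 : 3 * e ≤ m := by
        rw [hme, mul_comm e j]
        exact Nat.mul_le_mul_right _ hj3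
      have h8 := Nat.le_of_dvd (by positivity) h6
      have h9 := small h7 he1 hm3
      omega
  -- conclusion
  rw [hj_one, pow_one] at hEB
  rw [eq_top_iff]
  intro x _
  have hinj : Function.Injective (Subtype.val : B → E) := Subtype.val_injective
  have hbij : Function.Bijective (Subtype.val : B → E) := by
    rw [Nat.bijective_iff_injective_and_card]
    exact ⟨hinj, hEB.symm⟩
  obtain ⟨y, hy⟩ := hbij.2 x
  rw [← hy]
  exact y.2

end Pool.Agent.Lib.CPlane.AO
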