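import Pool.Agent.Lib.CPlane.IT2

/-!
# The plane as a plane on an elementary abelian 2-group (row I4)
-/

namespace Pool.Agent.Lib.CPlane

variable {P : Type} {n : ℕ}

theorem image_perm_mul (t u : Equiv.Perm P) (L : Set P) :
    ((t * u : Equiv.Perm P) : P → P) '' L = (t : P → P) '' ((u : P → P) '' L) := by
  rw [Set.image_image]
  rfl

theorem image_perm_inv (t : Equiv.Perm P) (L : Set P) :
    (t : P → P) '' ((t⁻¹ : Equiv.Perm P) '' L) = L := by
  rw [← image_perm_mul, mul_inv_cancel]
  simp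

theorem image_perm_inv' (t : Equiv.Perm P) (L : Set P) :
    (t⁻¹ : Equiv.Perm P) '' ((t : P → P) '' L) = L := by
  rw [← image_perm_mul, inv_mul_cancel]
  simp

theorem Par.image {L M : Set P} (h : Par L M) (t : Equiv.Perm P) :
    Par ((t : P → P) '' L) ((t : P → P) '' M) := by
  rcases h with rfl | h
  · exact Or.inl rfl
  · exact Or.inr (Set.disjoint_image_of_injective t.injective h)

theorem IsDil.mul {A : AffinePlane P n} {t u : Equiv.Perm P} (ht : IsDil A t) (hu : IsDil A u) :
    IsDil A (t * u) := by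
  intro L hL
  rw [image_perm_mul]
  obtain ⟨h1, h2⟩ := hu L hL
  obtain ⟨h3, h4⟩ := ht _ h1
  exact ⟨h3, Par.trans h3 h1 hL h4 h2⟩

theorem isDil_one (A : AffinePlane P n) : IsDil A 1 := by
  intro L hL
  have : ((1 : Equiv.Perm P) : P → P) '' L = L := by simp
  rw [this]
  exact ⟨hL, Or.inl rfl⟩

/-- a dilatation which is an involution fixes the lines `p t(p)` -/
theorem IsDil.fix_line {A : AffinePlane P n} {t : Equiv.Perm P} (ht : IsDil A t)
    (_htt : ∀ x, t (t x) = x) {p : P} {L : Set P} (hL : L ∈ A.lines) (h1 : p ∈ L)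
    (h2 : t p ∈ L) : (t : P → P) '' L = L :=
  (ht L hL).2.eq_of_mem ⟨p, h1, rfl⟩ h2

/-- the key step: the image of `q` off the line `o t(o)` is determined -/
theorem IsDil.agree_step {A : AffinePlane P n} {t u : Equiv.Perm P} (ht : IsDil A t)
    (hu : IsDil A u) (htt : ∀ x, t (t x) = x) (huu : ∀ x, u (u x) = x)
    (htf : ∀ x, t x ≠ x) (huf : ∀ x, u x ≠ x) {o : P} (ho : t o = u o) {ℓ : Set P}
    (hℓ : ℓ ∈ A.lines) (h1 : o ∈ ℓ) (h2 : t o ∈ ℓ) {q : P} (hq : q ∉ ℓ) : t q = u q := by
  -- the parallel to `ℓ` through `q`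
  obtain ⟨m, ⟨hm, hqm, hmd⟩, hmu⟩ := A.parallel ℓ hℓ q hq
  have key : ∀ w : Equiv.Perm P, IsDil A w → (∀ x, w (w x) = x) → (∀ x, w x ≠ x) →
      w o ∈ ℓ → w q ∈ m := by
    intro w hw hww hwf hwo
    obtain ⟨k, ⟨hk, hqk, hwk⟩, _⟩ := A.join q (w q) (hwf q).symm
    have hkf : (w : P → P) '' k = k := hw.fix_line hww hk hqk hwk
    have hℓf : (w : P → P) '' ℓ = ℓ := hw.fix_line hww hℓ h1 hwo
    have hdis : Disjoint k ℓ := by
      rw [Set.disjoint_left]
      intro x hxk hxℓ
      have h3 : w x ∈ k := by rw [← hkf]; exact ⟨x, hxk, rfl⟩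
      have h4 : w x ∈ ℓ := by rw [← hℓf]; exact ⟨x, hxℓ, rfl⟩
      have h5 : k = ℓ := A.eq_of_mem (hwf x).symm hk hℓ hxk h3 hxℓ h4
      rw [h5] at hqk
      exact hq hqk
    have : k = m := hmu k ⟨hk, hqk, hdis⟩
    rw [← this]
    exact hwk
  have htm := key t ht htt htf h2
  have hum := key u hu huu huf (ho ▸ h2)
  by_contra hne
  -- the line `o q`
  have hoq : o ≠ q := by
    rintro rfl
    exact hq h1
  obtain ⟨k, ⟨hk, hok, hqk⟩, _⟩ := A.join o q hoq
  have h3 := ht k hk
  have h4 := hu k hk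
  have h5 : Par ((t : P → P) '' k) ((u : P → P) '' k) := Par.trans h3.1 hk h4.1 h3.2 h4.2.symm
  have h6 : (t : P → P) '' k = (u : P → P) '' k := h5.eq_of_mem ⟨o, hok, rfl⟩ ⟨o, hok, ho.symm⟩
  have h7 : m = (t : P → P) '' k := by
    refine A.eq_of_mem hne hm h3.1 htm hum ⟨q, hqk, rfl⟩ ?_
    rw [h6]
    exact ⟨q, hqk, rfl⟩
  have h8 : t o ∈ m := by rw [h7]; exact ⟨o, hok, rfl⟩
  exact Set.disjoint_left.mp hmd h8 h2

/-- two fixed point free dilatations of order two which agree at a point are equal -/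
theorem IsDil.agree {A : AffinePlane P n} (hn2 : 2 ≤ n) {t u : Equiv.Perm P} (ht : IsDil A t)
    (hu : IsDil A u) (htt : ∀ x, t (t x) = x) (huu : ∀ x, u (u x) = x)
    (htf : ∀ x, t x ≠ x) (huf : ∀ x, u x ≠ x) {o : P} (ho : t o = u o) : t = u := by
  have := A.finite hn2
  obtain ⟨ℓ, ⟨hℓ, h1, h2⟩, _⟩ := A.join o (t o) (htf o).symm
  -- a point off `ℓ`
  obtain ⟨q, hq⟩ : ∃ q, q ∉ ℓ := by
    by_contra hcon
    push Not at hcon
    have h3 : ℓ = Set.univ := Set.eq_univ_of_forall hcon
    have h4 := A.card_line ℓ hℓ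
    rw [h3, Set.ncard_univ, A.card_points] at h4
    nlinarith
  have hqq : t q = u q := ht.agree_step hu htt huu htf huf ho hℓ h1 h2 hq
  obtain ⟨k, ⟨hk, hqk, htk⟩, _⟩ := A.join q (t q) (htf q).symm
  have hkf : (t : P → P) '' k = k := ht.fix_line htt hk hqk htk
  have hℓf : (t : P → P) '' ℓ = ℓ := ht.fix_line htt hℓ h1 h2
  ext x
  by_cases hx : x ∈ ℓ
  · refine ht.agree_step hu htt huu htf huf hqq hk hqk htk ?_
    intro hxk
    have h3 : t x ∈ k := by rw [← hkf]; exact ⟨x, hxk, rfl⟩
    have h4 : t x ∈ ℓ := by rw [← hℓf]; exact ⟨x, hx, rfl⟩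
    have h5 : k = ℓ := A.eq_of_mem (htf x).symm hk hℓ hxk h3 hx h4
    rw [h5] at hqk
    exact hq hqk
  · exact ht.agree_step hu htt huu htf huf ho hℓ h1 h2 hx

/-- the plane `A` transported along a bijection -/
def AffinePlane.pull {V : Type} (A : AffinePlane P n) (e : V ≃ P) :
    AffinePlane V n where
  lines := {M | e '' M ∈ A.lines}
  card_points := by rw [Nat.card_congr e, A.card_points]
  card_lines := by
    rw [← A.card_lines]
    exact Set.ncard_preimage_of_injective_subset_range (f := fun M : Set V => e '' M)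
      (Set.image_injective.mpr e.injective) (fun L _ => ⟨e ⁻¹' L, e.image_preimage L⟩)
  card_line := by
    intro M hM
    rw [← A.card_line _ hM, Set.ncard_image_of_injective _ e.injective]
  join := by
    intro p q hpq
    obtain ⟨L, ⟨hL, h1, h2⟩, h3⟩ := A.join (e p) (e q) (fun h => hpq (e.injective h))
    refine ⟨e ⁻¹' L, ⟨?_, h1, h2⟩, ?_⟩
    · change e '' (e ⁻¹' L) ∈ A.lines
      rw [e.image_preimage]
      exact hL
    · rintro M ⟨hM, h4, h5⟩
      have h6 := h3 (e '' M) ⟨hM, ⟨p, h4, rfl⟩, ⟨q, h5, rfl⟩⟩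
      rw [← h6, e.preimage_image]
  parallel := by
    intro L hL p hp
    have hp' : e p ∉ e '' L := fun h => hp (by
      obtain ⟨x, hx, hxp⟩ := h
      rwa [← e.injective hxp])
    obtain ⟨M, ⟨hM, h1, h2⟩, h3⟩ := A.parallel (e '' L) hL (e p) hp'
    refine ⟨e ⁻¹' M, ⟨?_, h1, ?_⟩, ?_⟩
    · change e '' (e ⁻¹' M) ∈ A.lines
      rw [e.image_preimage]
      exact hM
    · rw [Set.disjoint_left]
      intro x hx hxL
      exact Set.disjoint_left.mp h2 hx ⟨x, hxL, rfl⟩
    · rintro N ⟨hN, h4, h5⟩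
      have h6 := h3 (e '' N) ⟨hN, ⟨p, h4, rfl⟩, Set.disjoint_image_of_injective e.injective h5⟩
      rw [← h6, e.preimage_image]

/-- a collineation and its inverse -/
theorem AffinePlane.inv_mem {A : AffinePlane P n} (hn2 : 2 ≤ n) {δ : Equiv.Perm P}
    (hδ : ∀ L ∈ A.lines, (δ : P → P) '' L ∈ A.lines) :
    ∀ L ∈ A.lines, (δ⁻¹ : Equiv.Perm P) '' L ∈ A.lines := by
  have := A.finite hn2
  intro L hL
  have hfin : A.lines.Finite := Set.toFinite _
  have h1 : (fun M : Set P => (δ : P → P) '' M) '' A.lines = A.lines := by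
    refine Set.eq_of_subset_of_ncard_le ?_ ?_ hfin
    · rintro _ ⟨M, hM, rfl⟩
      exact hδ M hM
    · rw [Set.ncard_image_of_injective _ (Set.image_injective.mpr δ.injective)]
  rw [← h1] at hL
  obtain ⟨M, hM, rfl⟩ := hL
  simp only [image_perm_inv']
  exact hM

/-- the plane as a plane on an elementary abelian 2-group -/
theorem exists_model {A : AffinePlane P n} {G : Subgroup (Equiv.Perm P)}
    (hn : Even n) (hn2 : 2 ≤ n) (hG : IsCollineationGroup A G)
    (hflag : SharplyFlagTransitive A G) (o : P) :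
    ∃ (V : Type) (_ : AddCommGroup V) (e : V ≃ P) (A' : AffinePlane V n), e 0 = o ∧
      (∀ x : V, x + x = 0) ∧
      (∀ M : Set V, M ∈ A'.lines ↔ e '' M ∈ A.lines) ∧
      (∀ L ∈ A'.lines, ∀ v : V, (fun x => v + x) '' L ∈ A'.lines) ∧
      (∀ L ∈ A'.lines, (0 : V) ∈ L → ∃ U : AddSubgroup V, (U : Set V) = L) ∧
      (∀ δ : Equiv.Perm P, (∀ L ∈ A.lines, (δ : P → P) '' L ∈ A.lines) → δ o = o →
        ∃ φ : V ≃+ V, ∀ x, e (φ x) = δ (e x)) := by
  classical
  obtain ⟨hreg, hfree, hinv, hcomm⟩ := dil_regular hn hn2 hG hflag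
  let T : Subgroup (Equiv.Perm P) :=
    { carrier := {t | t ∈ G ∧ IsDil A t}
      mul_mem' := fun ha hb => ⟨G.mul_mem ha.1 hb.1, ha.2.mul hb.2⟩
      one_mem' := ⟨G.one_mem, isDil_one A⟩
      inv_mem' := fun {x} hx => by
        have h1 : x⁻¹ = x := inv_eq_of_mul_eq_one_right (hinv x hx.1 hx.2)
        rw [h1]
        exact hx }
  let iT : CommGroup T := { (inferInstance : Group T) with
    mul_comm := fun a b => Subtype.ext (hcomm a a.2.1 b b.2.1 a.2.2 b.2.2) }
  let f : Additive T → P := fun x => (x.toMul : Equiv.Perm P) o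
  have hf : Function.Bijective f := by
    constructor
    · intro x y hxy
      have h1 : ((y.toMul⁻¹ * x.toMul : T) : Equiv.Perm P) o = o := by
        have h2 : (x.toMul : Equiv.Perm P) o = (y.toMul : Equiv.Perm P) o := hxy
        rw [Subgroup.coe_mul, Equiv.Perm.mul_apply, h2, Subgroup.coe_inv, Equiv.Perm.inv_def,
          Equiv.symm_apply_apply]
      have h3 := hfree _ (y.toMul⁻¹ * x.toMul : T).2.1 (y.toMul⁻¹ * x.toMul : T).2.2 o h1
      have h4 : (y.toMul⁻¹ * x.toMul : T) = 1 := Subtype.ext h3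
      exact (inv_mul_eq_one.mp h4).symm
    · intro q
      obtain ⟨t, ht, ht', htq⟩ := hreg o q
      exact ⟨Additive.ofMul ⟨t, ht, ht'⟩, htq⟩
  let e : Additive T ≃ P := Equiv.ofBijective f hf
  have he : ∀ x : Additive T, e x = (x.toMul : Equiv.Perm P) o := fun x => rfl
  have headd : ∀ x y : Additive T, e (x + y) = (x.toMul : Equiv.Perm P) (e y) := fun x y => rfl
  have hadd : ∀ x : Additive T, x + x = 0 := by
    intro x
    apply e.injective
    rw [headd, he, he]
    have := Equiv.congr_fun (hinv _ x.toMul.2.1 x.toMul.2.2) o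
    exact this
  have htrL : ∀ (L : Set (Additive T)) (v : Additive T),
      e '' ((fun x => v + x) '' L) = ((v.toMul : Equiv.Perm P) : P → P) '' (e '' L) := by
    intro L v
    rw [Set.image_image, Set.image_image]
    rfl
  refine ⟨Additive T, inferInstance, e, A.pull e, rfl, hadd, fun M => Iff.rfl, ?_, ?_, ?_⟩
  · intro L hL v
    change e '' _ ∈ A.lines
    rw [htrL]
    exact hG _ v.toMul.2.1 _ hL
  · intro L hL h0
    refine ⟨{ carrier := L, add_mem' := ?_, zero_mem' := h0, neg_mem' := ?_ }, rfl⟩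
    · intro a b ha hb
      have h1 := (a.toMul.2.2 _ hL).2
      have h2 : ((a.toMul : Equiv.Perm P) : P → P) '' (e '' L) = e '' L :=
        h1.eq_of_mem (p := e a) ⟨o, ⟨0, h0, rfl⟩, rfl⟩ ⟨a, ha, rfl⟩
      have h3 : e (a + b) ∈ e '' L := by
        rw [← h2, headd]
        exact ⟨e b, ⟨b, hb, rfl⟩, rfl⟩
      obtain ⟨c, hc, hce⟩ := h3
      rwa [← e.injective hce]
    · intro a ha
      have h1 : -a = a := neg_eq_of_add_eq_zero_left (hadd a)
      rwa [h1]
  · intro δ hδ hδo
    have hδi := A.inv_mem hn2 hδ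
    -- conjugates of translations are translations
    have hconj : ∀ x y : Additive T, e y = δ (e x) →
        ∀ p, (y.toMul : Equiv.Perm P) (δ p) = δ ((x.toMul : Equiv.Perm P) p) := by
      intro x y hxy p
      by_cases hx : x = 0
      · have hy : y = 0 := by
          apply e.injective
          rw [hxy, hx]
          exact hδo
        rw [hx, hy]
        rfl
      · have hy : y ≠ 0 := by
          rintro rfl
          apply hx
          apply e.injective
          apply δ.injective
          rw [← hxy]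
          exact hδo.symm
        have hxf : ∀ q, (x.toMul : Equiv.Perm P) q ≠ q := by
          intro q hq
          apply hx
          have := hfree _ x.toMul.2.1 x.toMul.2.2 q hq
          exact Subtype.ext this
        have hyf : ∀ q, (y.toMul : Equiv.Perm P) q ≠ q := by
          intro q hq
          apply hy
          have := hfree _ y.toMul.2.1 y.toMul.2.2 q hq
          exact Subtype.ext this
        have hxx : ∀ q, (x.toMul : Equiv.Perm P) ((x.toMul : Equiv.Perm P) q) = q := fun q =>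
          Equiv.congr_fun (hinv _ x.toMul.2.1 x.toMul.2.2) q
        have hyy : ∀ q, (y.toMul : Equiv.Perm P) ((y.toMul : Equiv.Perm P) q) = q := fun q =>
          Equiv.congr_fun (hinv _ y.toMul.2.1 y.toMul.2.2) q
        have hδδ : ∀ q, δ⁻¹ (δ q) = q := fun q => by
          rw [Equiv.Perm.inv_def, Equiv.symm_apply_apply]
        have hδδ' : ∀ q, δ (δ⁻¹ q) = q := fun q => by
          rw [Equiv.Perm.inv_def, Equiv.apply_symm_apply]
        have hu : IsDil A (δ * x.toMul * δ⁻¹) := by
          intro L hL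
          rw [image_perm_mul, image_perm_mul]
          have h1 := hδi L hL
          have h2 := x.toMul.2.2 _ h1
          refine ⟨hδ _ h2.1, ?_⟩
          have h3 := h2.2.image δ
          rwa [image_perm_inv] at h3
        have h4 : (δ * x.toMul * δ⁻¹ : Equiv.Perm P) = y.toMul := by
          refine hu.agree hn2 y.toMul.2.2 ?_ hyy ?_ hyf (o := o) ?_
          · intro q
            simp only [Equiv.Perm.mul_apply, hδδ, hxx, hδδ']
          · intro q hq
            simp only [Equiv.Perm.mul_apply] at hq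
            apply hxf (δ⁻¹ q)
            apply δ.injective
            rw [hq, hδδ']
          · simp only [Equiv.Perm.mul_apply]
            have h5 : δ⁻¹ o = o := by
              conv_lhs => rw [← hδo]
              exact hδδ o
            rw [h5]
            exact hxy.symm
        have h5 := Equiv.congr_fun h4 (δ p)
        rw [← h5]
        simp only [Equiv.Perm.mul_apply, hδδ]
    let φ : Additive T ≃+ Additive T :=
      { toEquiv := (e.trans δ).trans e.symm
        map_add' := fun x y => by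
          apply e.injective
          change e (e.symm (δ (e (x + y)))) = e (e.symm (δ (e x)) + e.symm (δ (e y)))
          rw [e.apply_symm_apply, headd, headd, e.apply_symm_apply]
          exact (hconj x (e.symm (δ (e x))) (by rw [e.apply_symm_apply]) (e y)).symm }
    refine ⟨φ, fun x => ?_⟩
    change e (e.symm (δ (e x))) = δ (e x)
    rw [e.apply_symm_apply]

end Pool.Agent.Lib.CPlane
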