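import Pool.Agent.Lib.CPlane.AOStat
import Pool.Agent.Lib.CPlane.IT4

/-!
# Row A4: the order of a sharply flag-transitive plane of even order is a power of two
-/

namespace Pool.Agent.Lib.CPlane.AO

/-- a finite group of exponent two has `2 ^ m` elements -/
theorem A4.card_of_add_self {V : Type} [AddCommGroup V] [Finite V] (h : ∀ x : V, x + x = 0) :
    ∃ m, Nat.card V = 2 ^ m := by
  have : Fact (Nat.Prime 2) := ⟨Nat.prime_two⟩
  have h1 : IsPGroup 2 (Multiplicative V) := by
    intro x
    refine ⟨1, ?_⟩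
    rw [pow_one, pow_two]
    exact h x.toAdd
  obtain ⟨m, hm⟩ := IsPGroup.iff_card.1 h1
  exact ⟨m, hm⟩

/-- row A4 -/
theorem a4 : A4 := by
  intro P n A G hn2 hn hG hflag
  have hPne : Nonempty P := by
    have h : 0 < Nat.card P := by
      rw [A.card_points]
      positivity
    exact (Nat.card_pos_iff.1 h).1
  obtain ⟨o⟩ := hPne
  obtain ⟨V, iV, e, A', -, hV, -, -, hsub, -⟩ := exists_model hn hn2 hG hflag o
  have hfin : Finite V := A'.finite hn2
  obtain ⟨L, hL, h0⟩ := IT2.exists_line_mem A' hn2 (0 : V)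
  obtain ⟨U, hU⟩ := hsub L hL h0
  have hcard : Nat.card U = n := by
    rw [← A'.card_line L hL, ← hU]
    rfl
  obtain ⟨m, hm⟩ := A4.card_of_add_self (V := U) (fun x => Subtype.ext (hV x.1))
  refine ⟨m, ?_, by rw [← hcard, hm]⟩
  by_contra hm1
  have h00 : m = 0 := by omega
  rw [h00, pow_zero, hcard] at hm
  omega

end Pool.Agent.Lib.CPlane.AO
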