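import Pool.Agent.Lib.CPlane.AO5F

/-!
# Order 8: from the finite check to groups with 64 elements (row A5b)
-/

namespace Pool.Agent.Lib.CPlane.AO

namespace A5

/-! ### Numbers -/

theorem dec64 : ∀ c < 64, c = ((if c % 2 = 1 then 1 else 0) ^^^ ((if c / 2 % 2 = 1 then 2 else 0) ^^^
    ((if c / 4 % 2 = 1 then 4 else 0) ^^^ ((if c / 8 % 2 = 1 then 8 else 0) ^^^
    ((if c / 16 % 2 = 1 then 16 else 0) ^^^ (if c / 32 % 2 = 1 then 32 else 0)))))) := by
  decide +kernel

theorem ind64 (P : ℕ → Prop) (h0 : P 0) (hx : ∀ a b, a < 64 → b < 64 → P a → P b → P (a ^^^ b))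
    (hb : ∀ i < 6, P (2 ^ i)) : ∀ c < 64, P c := by
  have h1 : ∀ (q : Prop) [Decidable q] (i : ℕ), i < 6 → P (if q then 2 ^ i else 0) := by
    intro q _ i hi
    split_ifs
    · exact hb i hi
    · exact h0
  have l1 : ∀ (q : Prop) [Decidable q] (i : ℕ), i < 6 → (if q then 2 ^ i else 0) < 64 := by
    intro q _ i hi
    split_ifs
    · interval_cases i <;> norm_num
    · norm_num
  have lx : ∀ a b : ℕ, a < 64 → b < 64 → a ^^^ b < 64 := fun a b ha hb =>
    Nat.xor_lt_two_pow (n := 6) ha hb
  intro c hc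
  rw [dec64 c hc]
  refine hx _ _ (l1 _ 0 (by norm_num)) ?_ (h1 _ 0 (by norm_num)) ?_
  · exact lx _ _ (l1 _ 1 (by norm_num)) (lx _ _ (l1 _ 2 (by norm_num)) (lx _ _ (l1 _ 3 (by norm_num))
      (lx _ _ (l1 _ 4 (by norm_num)) (l1 _ 5 (by norm_num)))))
  refine hx _ _ (l1 _ 1 (by norm_num)) ?_ (h1 _ 1 (by norm_num)) ?_
  · exact lx _ _ (l1 _ 2 (by norm_num)) (lx _ _ (l1 _ 3 (by norm_num))
      (lx _ _ (l1 _ 4 (by norm_num)) (l1 _ 5 (by norm_num))))
  refine hx _ _ (l1 _ 2 (by norm_num)) ?_ (h1 _ 2 (by norm_num)) ?_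
  · exact lx _ _ (l1 _ 3 (by norm_num)) (lx _ _ (l1 _ 4 (by norm_num)) (l1 _ 5 (by norm_num)))
  refine hx _ _ (l1 _ 3 (by norm_num)) ?_ (h1 _ 3 (by norm_num)) ?_
  · exact lx _ _ (l1 _ 4 (by norm_num)) (l1 _ 5 (by norm_num))
  exact hx _ _ (l1 _ 4 (by norm_num)) (l1 _ 5 (by norm_num)) (h1 _ 4 (by norm_num))
    (h1 _ 5 (by norm_num))

theorem mx_lt : ∀ c < 64, mx c < 64 := by decide +kernel

theorem mx_xor : ∀ a < 64, ∀ b < 64, mx (a ^^^ b) = mx a ^^^ mx b := by decide +kernel

theorem app_lt : ∀ N ∈ table, ∀ c < 64, app N c < 64 := by decide +kernel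

theorem inv64 : ∀ c < 64, c = 0 ∨ ∃ d < 64,
    app [c, mx c, mx (mx c), mx (mx (mx c)), mx (mx (mx (mx c))), mx (mx (mx (mx (mx c))))] d = 1 := by
  decide +kernel

theorem sp_nodup : ∀ a < 32, ∀ b < 32, a = 0 ∨ b = 0 ∨ a = b ∨
    (0 :: sp (2 * a) (2 * b)).Nodup := by decide +kernel

theorem sp_lt : ∀ a < 32, ∀ b < 32, ∀ c ∈ sp (2 * a) (2 * b), c < 64 := by decide +kernel

theorem testBit_mask (l : List ℕ) (c : ℕ) : (mask l).testBit c = true ↔ c ∈ l := by
  induction l with
  | nil => simp [mask]
  | cons x l ih =>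
    rw [mask, Nat.testBit_or, Nat.testBit_two_pow, Bool.or_eq_true, decide_eq_true_iff, ih,
      List.mem_cons, eq_comm]

theorem iter_lt (i : ℕ) : ∀ c < 64, mx^[i] c < 64 := by
  induction i with
  | zero => intro c hc; exact hc
  | succ i ih => intro c hc; rw [Function.iterate_succ_apply]; exact ih _ (mx_lt c hc)

theorem okr_iter (N : List ℕ) : ∀ (k : ℕ) (l : List ℕ), okr N k l = true → ∀ i < k, ∀ c ∈ l,
    ∃ c' ∈ l, app N (mx^[i] c) = mx^[i] c'
  | 0, _, _, i, hi, _, _ => absurd hi (Nat.not_lt_zero i)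
  | k + 1, l, h, i, hi, c, hc => by
    rw [okr, Bool.and_eq_true] at h
    rcases Nat.eq_zero_or_pos i with rfl | hi0
    · have h1 := h.1
      rw [okl] at h1
      simp only [List.all_eq_true] at h1
      exact ⟨app N c, (testBit_mask l _).mp (h1 c hc), rfl⟩
    · obtain ⟨j, rfl⟩ := Nat.exists_eq_succ_of_ne_zero hi0.ne'
      obtain ⟨c', hc', he⟩ := okr_iter N k (l.map mx) h.2 j (by omega) (mx c)
        (List.mem_map_of_mem hc)
      obtain ⟨c'', hc'', rfl⟩ := List.mem_map.mp hc'
      exact ⟨c'', hc'', by rw [Nat.succ_eq_add_one, Function.iterate_succ_apply, he,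
        Function.iterate_succ_apply]⟩

theorem app_xor (N : List ℕ) : ∀ a b : ℕ, app N (a ^^^ b) = app N a ^^^ app N b := by
  induction N with
  | nil => intro a b; simp [app]
  | cons n N ih =>
    intro a b
    rw [app, app, app, Nat.xor_div_two, ih]
    have h : (a ^^^ b) % 2 = (a + b) % 2 := Nat.xor_mod_two_eq
    rcases Nat.mod_two_eq_zero_or_one a with ha | ha <;>
      rcases Nat.mod_two_eq_zero_or_one b with hb | hb
    · rw [if_neg (by omega), if_neg (by omega), if_neg (by omega)]; simp
    · rw [if_pos (by omega), if_neg (by omega), if_pos (by omega)]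
      simp only [Nat.zero_xor]
      rw [Nat.xor_left_comm]
    · rw [if_pos (by omega), if_pos (by omega), if_neg (by omega)]
      simp only [Nat.zero_xor]
      rw [Nat.xor_assoc]
    · rw [if_neg (by omega), if_pos (by omega), if_pos (by omega)]
      simp only [Nat.zero_xor]
      rw [Nat.xor_assoc, ← Nat.xor_left_comm (app N (a / 2)), ← Nat.xor_assoc n n, Nat.xor_self,
        Nat.zero_xor]

/-! ### The evaluation -/

section

variable {V : Type} [AddCommGroup V]

/-- evaluation of the bits at `v, f v, f (f v), ...` -/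
def evr (f : V → V) : ℕ → V → ℕ → V
  | 0, _, _ => 0
  | k + 1, v, c => (if c % 2 = 1 then v else 0) + evr f k (f v) (c / 2)

theorem evr_xor (h2 : ∀ x : V, x + x = 0) (f : V → V) (k : ℕ) : ∀ (v : V) (a b : ℕ),
    evr f k v (a ^^^ b) = evr f k v a + evr f k v b := by
  induction k with
  | zero => intro v a b; simp [evr]
  | succ k ih =>
    intro v a b
    rw [evr, evr, evr, Nat.xor_div_two, ih]
    have h : (a ^^^ b) % 2 = (a + b) % 2 := Nat.xor_mod_two_eq
    rcases Nat.mod_two_eq_zero_or_one a with ha | ha <;>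
      rcases Nat.mod_two_eq_zero_or_one b with hb | hb
    · rw [if_neg (by omega), if_neg (by omega), if_neg (by omega)]; abel
    · rw [if_pos (by omega), if_neg (by omega), if_pos (by omega)]; abel
    · rw [if_pos (by omega), if_pos (by omega), if_neg (by omega)]; abel
    · rw [if_neg (by omega), if_pos (by omega), if_pos (by omega)]
      calc (0 : V) + (evr f k (f v) (a / 2) + evr f k (f v) (b / 2)) =
          (v + v) + (evr f k (f v) (a / 2) + evr f k (f v) (b / 2)) := by rw [h2]
        _ = _ := by abel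

theorem evr_app (h2 : ∀ x : V, x + x = 0) (f : V → V) (k : ℕ) (v : V) (N : List ℕ)
    (hN : ∀ n ∈ N, evr f k v n = 0) : ∀ d : ℕ, evr f k v (app N d) = 0 := by
  have h0 : evr f k v 0 = 0 := by
    have := evr_xor h2 f k v 0 0
    simpa using this
  induction N with
  | nil => intro d; rw [app]; exact h0
  | cons n N ih =>
    intro d
    rw [app, evr_xor h2, ih (fun m hm => hN m (List.mem_cons_of_mem _ hm)), add_zero]
    split_ifs
    · exact hN n List.mem_cons_self
    · exact h0

end

end A5

open A5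

theorem a5b (V : Type) [AddCommGroup V] (rho : V ≃+ V) (S : AddSubgroup V)
    (h2 : ∀ x : V, x + x = 0) (hV : Nat.card V = 64) (hS : Nat.card S = 8)
    (hrho : ∀ x, rho (rho (rho (rho (rho (rho x))))) + rho (rho (rho x)) + x = 0)
    (hdisj : ∀ i, 1 ≤ i → i ≤ 8 → ∀ s ∈ S, (rho^[i]) s ∈ S → s = 0) :
    ∃ N : V →+ V, (∀ x, N (N (N x)) + N x + x = 0) ∧
      ∀ i, ∀ s ∈ S, ∃ t ∈ S, N (rho^[i] s) = rho^[i] t := by
  classical
  have hfin : Finite V := Nat.finite_of_card_ne_zero (by rw [hV]; norm_num)
  have hneg : ∀ x y : V, x + y = 0 → x = y := fun x y h => by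
    calc x = x + (y + y) := by rw [h2, add_zero]
      _ = (x + y) + y := by abel
      _ = y := by rw [h, zero_add]
  -- a nonzero element of `S`
  obtain ⟨v, hvS, hv0⟩ : ∃ v ∈ S, v ≠ 0 := by
    by_contra hcon
    push Not at hcon
    have : S = ⊥ := by
      rw [eq_bot_iff]
      intro x hx
      rw [AddSubgroup.mem_bot]
      exact hcon x hx
    rw [this, AddSubgroup.card_bot] at hS
    norm_num at hS
  set ev : ℕ → V := evr rho 6 v with hev
  have ex : ∀ a b, ev (a ^^^ b) = ev a + ev b := evr_xor h2 rho 6 v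
  have e0 : ev 0 = 0 := by
    have := ex 0 0
    simpa using this
  have e1 : ev 1 = v := by simp [hev, evr]
  -- multiplication by `x`
  have emx : ∀ c < 64, ev (mx c) = rho (ev c) := by
    refine ind64 _ (by rw [e0, map_zero]; simpa [mx] using e0) ?_ ?_
    · intro a b ha hb h1 h3
      rw [mx_xor a ha b hb, ex, h1, h3, ex, map_add]
    · intro i hi
      interval_cases i
      · simp [hev, evr, mx]
      · simp [hev, evr, mx]
      · simp [hev, evr, mx]
      · simp [hev, evr, mx]
      · simp [hev, evr, mx]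
      · have h9 : mx (2 ^ 5) = 9 := by decide
        have h10 : ev 9 = v + rho (rho (rho v)) := by simp [hev, evr]
        have h11 : ev (2 ^ 5) = rho (rho (rho (rho (rho v)))) := by simp [hev, evr]
        rw [h9, h10, h11]
        have := hneg _ _ ((add_assoc _ _ _).symm.trans (hrho v))
        rw [this]; abel
  have eit : ∀ i, ∀ c < 64, ev (mx^[i] c) = rho^[i] (ev c) := by
    intro i
    induction i with
    | zero => intro c _; rfl
    | succ i ih =>
      intro c hc
      rw [Function.iterate_succ_apply, ih _ (mx_lt c hc), emx c hc, Function.iterate_succ_apply]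
  -- injectivity
  have eker : ∀ c < 64, ev c = 0 → c = 0 := by
    intro c hc h
    rcases inv64 c hc with h0 | ⟨d, -, hd⟩
    · exact h0
    · exfalso
      have hz : ∀ i, ev (mx^[i] c) = 0 := by
        intro i
        rw [eit i c hc, h]
        induction i with
        | zero => rfl
        | succ i ih => rw [Function.iterate_succ_apply, map_zero, ih]
      have h3 := evr_app h2 rho 6 v [c, mx c, mx (mx c), mx (mx (mx c)), mx (mx (mx (mx c))),
        mx (mx (mx (mx (mx c))))] (by
          intro n hn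
          simp only [List.mem_cons, List.not_mem_nil, or_false] at hn
          rcases hn with rfl | rfl | rfl | rfl | rfl | rfl
          · exact hz 0
          · exact hz 1
          · exact hz 2
          · exact hz 3
          · exact hz 4
          · exact hz 5) d
      rw [hd] at h3
      exact hv0 (e1.symm.trans h3)
  have einj : ∀ a < 64, ∀ b < 64, ev a = ev b → a = b := by
    intro a ha b hb h
    have h1 : ev (a ^^^ b) = 0 := by rw [ex, h, h2]
    exact Nat.xor_eq_zero_iff.mp (eker _ (Nat.xor_lt_two_pow (n := 6) ha hb) h1)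
  have esurj : ∀ x : V, ∃ c < 64, ev c = x := by
    have hinj : Function.Injective (fun c : Fin 64 => ev c) := fun a b h =>
      Fin.ext (einj a a.2 b b.2 h)
    have hbij : Function.Bijective (fun c : Fin 64 => ev c) := by
      have : Fintype V := Fintype.ofFinite V
      rw [Fintype.bijective_iff_injective_and_card]
      refine ⟨hinj, ?_⟩
      rw [Fintype.card_fin, ← Nat.card_eq_fintype_card, hV]
    intro x
    obtain ⟨c, hc⟩ := hbij.2 x
    exact ⟨c, c.2, hc⟩
  choose inv hinv1 hinv2 using esurj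
  have hinv : ∀ c < 64, inv (ev c) = c := fun c hc => einj _ (hinv1 _) _ hc (hinv2 _)
  -- the numbers of `S`
  set S' : Finset ℕ := (Finset.range 64).filter fun c => ev c ∈ S with hS'
  have hmem : ∀ c, c ∈ S' ↔ c < 64 ∧ ev c ∈ S := fun c => by
    rw [hS', Finset.mem_filter, Finset.mem_range]
  have hS'c : S'.card = 8 := by
    have h1 : ((S'.image ev : Finset V) : Set V) = (S : Set V) := by
      ext x
      rw [Finset.mem_coe, Finset.mem_image]
      constructor
      · rintro ⟨c, hc, rfl⟩
        exact ((hmem c).mp hc).2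
      · intro hx
        exact ⟨inv x, (hmem _).mpr ⟨hinv1 x, by rw [hinv2]; exact hx⟩, hinv2 x⟩
    have h3 : (S'.image ev).card = 8 := by
      rw [← Set.ncard_coe_finset, h1, ← hS]
      exact (Nat.card_coe_set_eq (S : Set V)).symm
    rw [← h3, Finset.card_image_of_injOn]
    intro a ha b hb h
    exact einj a ((hmem a).mp ha).1 b ((hmem b).mp hb).1 h
  -- even representatives
  set A : Finset ℕ := S'.image fun c => c / 2 with hA
  have hAc : 4 ≤ A.card := by
    have h1 : S' ⊆ A.image (fun a => 2 * a) ∪ A.image (fun a => 2 * a + 1) := by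
      intro c hc
      have h3 : c / 2 ∈ A := Finset.mem_image_of_mem _ hc
      rw [Finset.mem_union, Finset.mem_image, Finset.mem_image]
      rcases Nat.mod_two_eq_zero_or_one c with h | h
      · exact Or.inl ⟨c / 2, h3, by omega⟩
      · exact Or.inr ⟨c / 2, h3, by omega⟩
    have h3 := Finset.card_le_card h1
    have h4 := Finset.card_union_le (A.image (fun a => 2 * a)) (A.image (fun a => 2 * a + 1))
    have h5 : (A.image (fun a => 2 * a)).card ≤ A.card := Finset.card_image_le
    have h6 : (A.image (fun a => 2 * a + 1)).card ≤ A.card := Finset.card_image_le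
    omega
  have hodd : ∀ c < 64, c % 2 = 1 → 2 * (c / 2) ^^^ 1 = c := by decide +kernel
  have hAm : ∀ a ∈ A, a < 32 ∧ 2 * a ∈ S' := by
    intro a ha
    obtain ⟨c, hc, rfl⟩ := Finset.mem_image.mp ha
    obtain ⟨h1, h3⟩ := (hmem c).mp hc
    refine ⟨by omega, (hmem _).mpr ⟨by omega, ?_⟩⟩
    rcases Nat.mod_two_eq_zero_or_one c with h | h
    · have : 2 * (c / 2) = c := by omega
      rw [this]; exact h3
    · have h4 : ev c = ev (2 * (c / 2)) + v := by
        rw [← e1, ← ex, hodd c h1 h]
      have h5 : ev (2 * (c / 2)) = ev c + v := by rw [h4, add_assoc, h2, add_zero]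
      rw [h5]; exact S.add_mem h3 hvS
  obtain ⟨a, haA, ha0⟩ : ∃ a ∈ A, a ≠ 0 := by
    by_contra hcon
    push Not at hcon
    have : A ⊆ {0} := fun a ha => Finset.mem_singleton.mpr (hcon a ha)
    have := Finset.card_le_card this
    rw [Finset.card_singleton] at this
    omega
  obtain ⟨b, hbA, hb0, hab⟩ : ∃ b ∈ A, b ≠ 0 ∧ a ≠ b := by
    by_contra hcon
    push Not at hcon
    have : A ⊆ {0, a} := fun b hb => by
      rw [Finset.mem_insert, Finset.mem_singleton]
      by_cases h : b = 0
      · exact Or.inl h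
      · exact Or.inr (hcon b hb h).symm
    have := (Finset.card_le_card this).trans Finset.card_le_two
    omega
  obtain ⟨ha32, ha'⟩ := hAm a haA
  obtain ⟨hb32, hb'⟩ := hAm b hbA
  have hva := ((hmem _).mp ha').2
  have hvb := ((hmem _).mp hb').2
  have hnd : (0 :: sp (2 * a) (2 * b)).Nodup := by
    rcases sp_nodup a ha32 b hb32 with h | h | h | h
    · exact absurd h ha0
    · exact absurd h hb0
    · exact absurd h hab
    · exact h
  have hspS : ∀ c ∈ sp (2 * a) (2 * b), ev c ∈ S := by
    intro c hc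
    have h1v : ev 1 ∈ S := by rw [e1]; exact hvS
    simp only [sp, List.mem_cons, List.not_mem_nil, or_false] at hc
    rcases hc with rfl | rfl | rfl | rfl | rfl | rfl | rfl
    · exact h1v
    · exact hva
    · rw [ex]; exact S.add_mem hva h1v
    · exact hvb
    · rw [ex]; exact S.add_mem hvb h1v
    · rw [ex]; exact S.add_mem hvb hva
    · rw [ex, ex]; exact S.add_mem (S.add_mem hvb hva) h1v
  have hSeq : ∀ c, c ∈ S' ↔ c = 0 ∨ c ∈ sp (2 * a) (2 * b) := by
    have hsub : (0 :: sp (2 * a) (2 * b)).toFinset ⊆ S' := by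
      intro c hc
      rw [List.mem_toFinset, List.mem_cons] at hc
      rcases hc with rfl | hc
      · exact (hmem 0).mpr ⟨by norm_num, by rw [e0]; exact S.zero_mem⟩
      · exact (hmem c).mpr ⟨sp_lt a ha32 b hb32 c hc, hspS c hc⟩
    have hcard : (0 :: sp (2 * a) (2 * b)).toFinset.card = 8 := by
      rw [List.toFinset_card_of_nodup hnd]; rfl
    have heq := Finset.eq_of_subset_of_card_le hsub (by rw [hcard, hS'c])
    intro c
    rw [← heq, List.mem_toFinset, List.mem_cons]
  have h0sp : (0 : ℕ) ∉ sp (2 * a) (2 * b) := (List.nodup_cons.mp hnd).1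
  -- the images of `S` meet `S` in zero only
  have hd : disj (2 * a) (2 * b) = true := by
    have key : ∀ i, 1 ≤ i → i ≤ 8 → ∀ c ∈ sp (2 * a) (2 * b),
        (mask (sp (2 * a) (2 * b))).testBit (mx^[i] c) = false := by
      intro i hi1 hi8 c hc
      by_contra hcon
      rw [Bool.not_eq_false, testBit_mask] at hcon
      have h1 := hspS _ hcon
      rw [eit i c (sp_lt a ha32 b hb32 c hc)] at h1
      have h3 := hdisj i hi1 hi8 _ (hspS c hc) h1
      have h4 := eker c (sp_lt a ha32 b hb32 c hc) h3
      exact h0sp (h4 ▸ hc)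
    unfold disj free
    simp only [Bool.and_eq_true, List.all_eq_true, Bool.not_eq_true']
    refine ⟨⟨⟨?_, ?_⟩, ?_⟩, ?_⟩
    · intro c hc
      obtain ⟨c1, h1, rfl⟩ := List.mem_map.mp hc
      exact key 1 le_rfl (by norm_num) c1 h1
    · intro c hc
      obtain ⟨c1, h1, rfl⟩ := List.mem_map.mp hc
      obtain ⟨c2, h3, rfl⟩ := List.mem_map.mp h1
      exact key 2 (by norm_num) (by norm_num) c2 h3
    · intro c hc
      obtain ⟨c1, h1, rfl⟩ := List.mem_map.mp hc
      obtain ⟨c2, h3, rfl⟩ := List.mem_map.mp h1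
      obtain ⟨c3, h4, rfl⟩ := List.mem_map.mp h3
      exact key 3 (by norm_num) (by norm_num) c3 h4
    · intro c hc
      obtain ⟨c1, h1, rfl⟩ := List.mem_map.mp hc
      obtain ⟨c2, h3, rfl⟩ := List.mem_map.mp h1
      obtain ⟨c3, h4, rfl⟩ := List.mem_map.mp h3
      obtain ⟨c4, h5, rfl⟩ := List.mem_map.mp h4
      exact key 4 (by norm_num) (by norm_num) c4 h5
  -- the matrix
  obtain ⟨N, hN, hok⟩ : ∃ N ∈ table, okr N 9 (sp (2 * a) (2 * b)) = true := by
    have h1 := check a ha32 b hb32
    rw [hd] at h1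
    simp only [Bool.not_true, Bool.or_false, Bool.or_eq_true, beq_iff_eq, List.any_eq_true] at h1
    rcases h1 with ((h1 | h1) | h1) | h1
    · exact absurd h1 ha0
    · exact absurd h1 hb0
    · exact absurd h1 hab
    · exact h1
  have hNlt := app_lt N hN
  have hcub : ∀ c < 64, app N (app N (app N c)) = app N c ^^^ c := by
    refine ind64 _ ?_ ?_ ?_
    · have h1 : app N 0 = 0 := by
        have := app_xor N 0 0
        simpa using this
      rw [h1, h1, h1]; rfl
    · intro a b _ _ h1 h3
      rw [app_xor, app_xor, app_xor, h1, h3]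
      generalize app N a = p, app N b = q
      apply Nat.eq_of_testBit_eq
      intro i
      simp only [Nat.testBit_xor]
      cases p.testBit i <;> cases q.testBit i <;> cases a.testBit i <;> cases b.testBit i <;> rfl
    · intro i hi
      exact table_cub N hN i hi
  have hinvadd : ∀ x y : V, inv (x + y) = inv x ^^^ inv y := fun x y => by
    refine einj _ (hinv1 _) _ (Nat.xor_lt_two_pow (n := 6) (hinv1 x) (hinv1 y)) ?_
    rw [ex, hinv2, hinv2, hinv2]
  have hinv0 : inv 0 = 0 := by rw [← e0]; exact hinv 0 (by norm_num)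
  have happ0 : app N 0 = 0 := by
    have := app_xor N 0 0
    simpa using this
  set Nm : V →+ V :=
    { toFun := fun x => ev (app N (inv x))
      map_zero' := by rw [hinv0, happ0, e0]
      map_add' := fun x y => by rw [hinvadd, app_xor, ex] } with hNm
  have hNe : ∀ c < 64, Nm (ev c) = ev (app N c) := fun c hc => by
    change ev (app N (inv (ev c))) = _
    rw [hinv c hc]
  refine ⟨Nm, fun x => ?_, fun i s hs => ?_⟩
  · have hx := hinv2 x
    set c := inv x with hc
    have hc64 : c < 64 := hinv1 x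
    rw [← hx, hNe c hc64, hNe _ (hNlt c hc64), hNe _ (hNlt _ (hNlt c hc64)), hcub c hc64, ex]
    calc ev (app N c) + ev c + ev (app N c) + ev c =
        (ev (app N c) + ev (app N c)) + (ev c + ev c) := by abel
      _ = 0 := by rw [h2, h2, add_zero]
  · -- `rho` has order nine
    have h9 : ∀ x, rho^[9] x = x := by
      intro x
      have h1 : ∀ y, rho (rho (rho (rho (rho (rho y))))) = rho (rho (rho y)) + y := fun y =>
        hneg _ _ ((add_assoc _ _ _).symm.trans (hrho y))
      have h3 : rho^[9] x = rho (rho (rho (rho (rho (rho (rho (rho (rho x)))))))) := rfl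
      rw [h3, h1 (rho (rho (rho x))), h1 x]
      calc rho (rho (rho x)) + x + rho (rho (rho x)) = (rho (rho (rho x)) + rho (rho (rho x))) + x := by
            abel
        _ = x := by rw [h2, zero_add]
    have hper : ∀ x, rho^[i] x = rho^[i % 9] x := by
      intro x
      have h1 : ∀ q y, rho^[9 * q] y = y := by
        intro q
        induction q with
        | zero => intro y; rfl
        | succ q ih =>
          intro y
          rw [Nat.mul_succ, Function.iterate_add_apply, h9, ih]
      have h3 : i = 9 * (i / 9) + i % 9 := by omega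
      conv_lhs => rw [h3]
      rw [Function.iterate_add_apply, h1]
    have hi9 : i % 9 < 9 := Nat.mod_lt _ (by norm_num)
    have hc64 := hinv1 s
    have hcS : inv s ∈ S' := (hmem _).mpr ⟨hc64, by rw [hinv2]; exact hs⟩
    rcases (hSeq _).mp hcS with h0 | hsp
    · refine ⟨0, S.zero_mem, ?_⟩
      have hs0 : s = 0 := by rw [← hinv2 s, h0, e0]
      have hz : ∀ j, rho^[j] (0 : V) = 0 := by
        intro j
        induction j with
        | zero => rfl
        | succ j ih => rw [Function.iterate_succ_apply, map_zero, ih]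
      rw [hs0, hz, map_zero]
    · obtain ⟨c', hc', he⟩ := okr_iter N 9 _ hok (i % 9) hi9 (inv s) hsp
      refine ⟨ev c', hspS c' hc', ?_⟩
      rw [hper s, hper (ev c'), ← eit _ c' (sp_lt a ha32 b hb32 c' hc'), ← he,
        ← hNe _ (iter_lt _ _ hc64), eit _ _ hc64, hinv2]

end Pool.Agent.Lib.CPlane.AO
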