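import Mathlib

/-!
# Order 8: the finite check

Numbers below 64 are polynomials over `F_2` modulo `x ^ 6 + x ^ 3 + 1`; `mx` is the multiplication
by `x`, `app N` the linear map with the columns `N`.
-/

namespace Pool.Agent.Lib.CPlane.AO.A5

/-- multiplication by `x` -/
def mx (c : ℕ) : ℕ := if c < 32 then 2 * c else (2 * c - 64) ^^^ 9

/-- the nonzero elements of the span of `1, a, b` -/
def sp (a b : ℕ) : List ℕ := [1, a, a ^^^ 1, b, b ^^^ 1, b ^^^ a, (b ^^^ a) ^^^ 1]

/-- the mask of a list -/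
def mask : List ℕ → ℕ
  | [] => 0
  | c :: l => 2 ^ c ||| mask l

/-- no element of the list is in the mask -/
def free (m : ℕ) (l : List ℕ) : Bool := l.all fun c => !(m.testBit c)

def disj (a b : ℕ) : Bool :=
  let l := sp a b
  let m := mask l
  let l1 := l.map mx
  let l2 := l1.map mx
  let l3 := l2.map mx
  let l4 := l3.map mx
  free m l1 && free m l2 && free m l3 && free m l4

/-- the linear map with the columns `N` -/
def app : List ℕ → ℕ → ℕ
  | [], _ => 0
  | n :: N, c => (if c % 2 = 1 then n else 0) ^^^ app N (c / 2)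

/-- one component -/
def okl (N : List ℕ) (l : List ℕ) : Bool :=
  let m := mask l
  l.all fun c => m.testBit (app N c)

/-- `N` maps all components into themselves -/
def okr (N : List ℕ) : ℕ → List ℕ → Bool
  | 0, _ => true
  | k + 1, l => okl N l && okr N k (l.map mx)

def table : List (List ℕ) := [
  [6, 19, 62, 48, 10, 15], [50, 12, 11, 38, 41, 17], [10, 41, 51, 25, 37, 46],
  [10, 37, 43, 25, 12, 53], [13, 31, 10, 33, 35, 25], [50, 26, 39, 38, 11, 28],
  [26, 40, 56, 11, 45, 63], [22, 28, 41, 34, 59, 37], [34, 37, 25, 52, 12, 19],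
  [38, 5, 10, 20, 40, 25], [22, 27, 39, 34, 3, 28], [34, 61, 41, 52, 23, 37],
  [26, 5, 43, 11, 40, 53], [52, 27, 61, 22, 3, 23], [48, 19, 61, 54, 10, 23]]

theorem check : ∀ a < 32, ∀ b < 32, (a == 0 || b == 0 || a == b || !disj (2 * a) (2 * b) ||
    table.any fun N => okr N 9 (sp (2 * a) (2 * b))) = true := by
  decide +kernel

theorem table_cub : ∀ N ∈ table, ∀ i < 6,
    app N (app N (app N (2 ^ i))) = app N (2 ^ i) ^^^ 2 ^ i := by
  decide +kernel

end Pool.Agent.Lib.CPlane.AO.A5
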