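import Pool.Agent.Lib.CPlane.IT5

/-!
# Row A5c: a translation plane whose kernel has `n` elements is desarguesian
-/

namespace Pool.Agent.Lib.CPlane.AO

open Module

theorem line_of_kernel {n : ℕ} (K : Type) {V : Type} [Field K] [Fintype K] [AddCommGroup V]
    [Module K V] (A : AffinePlane V n) (hn2 : 2 ≤ n) (hK : Nat.card K = n)
    (htrans : ∀ L ∈ A.lines, ∀ v : V, (fun x => v + x) '' L ∈ A.lines)
    (hker : ∀ L ∈ A.lines, (0 : V) ∈ L → ∃ U : Submodule K V, (U : Set V) = L)
    {L : Set V} (hL : L ∈ A.lines) {p q : V} (hp : p ∈ L) (hq : q ∈ L) (hpq : p ≠ q) :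
    L = {x | ∃ t : K, x = p + t • (q - p)} := by
  have hfin := finite_points A hn2
  have hd : q - p ≠ 0 := sub_ne_zero.2 hpq.symm
  have hM := htrans L hL (-p)
  obtain ⟨U, hU⟩ := hker _ hM ⟨p, hp, by simp⟩
  have hdU : q - p ∈ U := by
    rw [← SetLike.mem_coe, hU]
    exact ⟨q, hq, by simp only; abel⟩
  have h1 : Set.range (fun t : K => t • (q - p)) = (U : Set V) := by
    refine Set.eq_of_subset_of_ncard_le ?_ ?_ (Set.toFinite _)
    · rintro _ ⟨t, rfl⟩
      exact U.smul_mem t hdU
    · rw [hU, A.card_line _ hM, Set.ncard_range_of_injective (smul_left_injective K hd), hK]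
  ext x
  constructor
  · intro hx
    have h2 : -p + x ∈ (U : Set V) := by
      rw [hU]
      exact ⟨x, hx, rfl⟩
    rw [← h1] at h2
    obtain ⟨t, ht⟩ := h2
    have ht' : t • (q - p) = -p + x := ht
    exact ⟨t, by rw [ht']; abel⟩
  · rintro ⟨t, rfl⟩
    have h2 : t • (q - p) ∈ (U : Set V) := U.smul_mem t hdU
    rw [hU] at h2
    obtain ⟨y, hy, hyx⟩ := h2
    have hyx' : -p + y = t • (q - p) := hyx
    rw [← hyx']
    have h3 : p + (-p + y) = y := by abel
    rw [h3]
    exact hy

/-- **row A5c** -/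
theorem desarguesian_of_kernel {n : ℕ} (K : Type) {V : Type} [Field K] [Fintype K]
    [AddCommGroup V] [Module K V] (A : AffinePlane V n) (hn2 : 2 ≤ n) (hK : Nat.card K = n)
    (htrans : ∀ L ∈ A.lines, ∀ v : V, (fun x => v + x) '' L ∈ A.lines)
    (hker : ∀ L ∈ A.lines, (0 : V) ∈ L → ∃ U : Submodule K V, (U : Set V) = L) :
    Desarguesian A := by
  classical
  have hfin := finite_points A hn2
  have := Fintype.ofFinite V
  have hfd : FiniteDimensional K V := Module.Finite.of_finite
  have hrank : finrank K V = 2 := by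
    have h1 := A.card_points
    have h2 : Nat.card V = Nat.card K ^ finrank K V := by
      rw [Nat.card_eq_fintype_card, Nat.card_eq_fintype_card, Module.card_eq_pow_finrank (K := K)]
    rw [h1, hK] at h2
    exact (Nat.pow_right_injective hn2 h2).symm
  have hrank2 : finrank K (K × K) = 2 := by
    rw [Module.finrank_prod, Module.finrank_self]
  let ε : V ≃ₗ[K] K × K := LinearEquiv.ofFinrankEq V (K × K) (by rw [hrank, hrank2])
  have himg : ∀ p d : V, ε.toEquiv '' {x | ∃ t : K, x = p + t • d} =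
      {x | ∃ t : K, x = ε p + t • ε d} := by
    intro p d
    ext x
    constructor
    · rintro ⟨_, ⟨t, rfl⟩, rfl⟩
      exact ⟨t, by
        change ε (p + t • d) = _
        rw [map_add, map_smul]⟩
    · rintro ⟨t, rfl⟩
      exact ⟨p + t • d, ⟨t, rfl⟩, by
        change ε (p + t • d) = _
        rw [map_add, map_smul]⟩
  refine ⟨K, inferInstance, ε.toEquiv, hK, ?_⟩
  intro L
  constructor
  · intro hL
    have h1 : 1 < L.ncard := by
      rw [A.card_line L hL]
      omega
    obtain ⟨p, q, hp, hq, hpq⟩ := (Set.one_lt_ncard_iff (Set.toFinite L)).1 h1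
    have h2 := line_of_kernel K A hn2 hK htrans hker hL hp hq hpq
    rw [h2, himg]
    exact ⟨ε p, ε (q - p), by
      rw [Ne, LinearEquiv.map_eq_zero_iff]
      exact sub_ne_zero.2 hpq.symm, rfl⟩
  · rintro ⟨p, d, hd, hLd⟩
    obtain ⟨p, rfl⟩ := ε.surjective p
    obtain ⟨d, rfl⟩ := ε.surjective d
    rw [← himg] at hLd
    have hLe := ε.toEquiv.injective.image_injective hLd
    subst hLe
    have hd' : d ≠ 0 := by
      rintro rfl
      exact hd (map_zero ε)
    have hpd : p ≠ p + d := fun h => hd' (left_eq_add.1 h)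
    obtain ⟨M, ⟨hM, hpM, hdM⟩, -⟩ := A.join p (p + d) hpd
    have h2 := line_of_kernel K A hn2 hK htrans hker hM hpM hdM hpd
    rw [add_sub_cancel_left] at h2
    rw [← h2]
    exact hM

end Pool.Agent.Lib.CPlane.AO
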