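import Pool.Agent.Lib.CPlane.IT6

/-!
# Groups of order `s ^ m + 1`, `m = 2 ^ a`, which act linearly and freely are cyclic (row Z1)
-/

namespace Pool.Agent.Lib.CPlane

open Module

namespace Cyc

/-- the order of `s` modulo a prime divisor of `s ^ 2 ^ a + 1`, `s` even -/
theorem pow_dvd_of_dvd {p s a j : ℕ} (hs : Even s) (hs0 : 0 < s) (hp : p.Prime)
    (hpk : p ∣ s ^ 2 ^ a + 1) (hj : p ∣ s ^ j - 1) : 2 ^ (a + 1) ∣ j := by
  have : Fact p.Prime := ⟨hp⟩
  have hp2 : p ≠ 2 := by
    rintro rfl
    have h1 : 2 ∣ s ^ 2 ^ a := dvd_pow hs.two_dvd (by positivity)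
    have h2 := (Nat.dvd_add_right h1).1 hpk
    omega
  have h1 : (s : ZMod p) ^ 2 ^ a = -1 := by
    have h2 : ((s ^ 2 ^ a + 1 : ℕ) : ZMod p) = 0 := (ZMod.natCast_eq_zero_iff _ _).2 hpk
    push_cast at h2
    exact eq_neg_of_add_eq_zero_left h2
  have h2 : ¬ (s : ZMod p) ^ 2 ^ a = 1 := by
    intro h
    rw [h1] at h
    have h3 : ((2 : ℕ) : ZMod p) = 0 := by
      push_cast
      linear_combination -h
    have h4 := (ZMod.natCast_eq_zero_iff _ _).1 h3
    exact hp2 ((Nat.prime_dvd_prime_iff_eq hp Nat.prime_two).1 h4)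
  have h3 : (s : ZMod p) ^ 2 ^ (a + 1) = 1 := by
    rw [pow_succ, pow_mul, h1]
    ring
  have h4 : orderOf (s : ZMod p) = 2 ^ (a + 1) := orderOf_eq_prime_pow h2 h3
  rw [← h4]
  apply orderOf_dvd_of_pow_eq_one
  have h5 : ((s ^ j - 1 : ℕ) : ZMod p) = 0 := (ZMod.natCast_eq_zero_iff _ _).2 hj
  rw [Nat.cast_sub (Nat.one_le_pow _ _ hs0)] at h5
  push_cast at h5
  exact sub_eq_zero.1 h5

section

variable {K : Type} {V : Type} [Field K] [Fintype K] [CharP K 2] [AddCommGroup V] [Module K V]
  {H : Type} [Group H] [DistribMulAction H V] [SMulCommClass H K V]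

omit [SMulCommClass H K V] in
/-- an element of prime order acts irreducibly -/
theorem irred (a : ℕ) (hV : finrank K V = 2 ^ (a + 1))
    (hfree : ∀ h : H, ∀ v : V, v ≠ 0 → h • v = v → h = 1)
    {p : ℕ} (hp : p.Prime) (hpk : p ∣ Fintype.card K ^ 2 ^ a + 1) {z : H} (hz : orderOf z = p)
    (U : Submodule K V) (hU : ∀ u ∈ U, z • u ∈ U) : U = ⊥ ∨ U = ⊤ := by
  have hfd : FiniteDimensional K V := Module.finite_of_finrank_pos (by rw [hV]; positivity)
  have hfin : Finite V := Module.finite_of_finite K
  have hs : Even (Fintype.card K) := by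
    obtain ⟨c, -, hc⟩ := FiniteField.card K 2
    rw [hc]
    exact Nat.even_pow.2 ⟨even_two, c.ne_zero⟩
  have h3 := card_fix_mod hp hz U.toAddSubgroup ⊥ hU (fun u => by
    constructor
    · intro h
      have : u = 0 := (AddSubgroup.mem_bot).1 h
      subst this
      exact ⟨U.zero_mem, smul_zero z⟩
    · rintro ⟨-, h⟩
      by_contra hu
      have hu0 : u ≠ 0 := fun h0 => hu (by rw [h0]; exact AddSubgroup.zero_mem _)
      have h1 := hfree z u hu0 h
      rw [h1, orderOf_one] at hz
      exact hp.one_lt.ne hz)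
  rw [AddSubgroup.card_bot] at h3
  have h4 : Nat.card U.toAddSubgroup = Fintype.card K ^ finrank K U := by
    rw [← Nat.card_eq_fintype_card]
    exact Module.natCard_eq_pow_finrank (K := K) (V := U)
  rw [h4] at h3
  have h5 : p ∣ Fintype.card K ^ finrank K U - 1 :=
    (Nat.modEq_iff_dvd' (Nat.one_le_pow _ _ Fintype.card_pos)).1 h3.symm
  have h6 := pow_dvd_of_dvd hs Fintype.card_pos hp hpk h5
  have h7 : finrank K U ≤ 2 ^ (a + 1) := by
    rw [← hV]
    exact Submodule.finrank_le U
  by_cases hj0 : finrank K U = 0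
  · left
    exact Submodule.finrank_eq_zero.1 hj0
  · right
    apply Submodule.eq_top_of_finrank_eq
    rw [hV]
    exact le_antisymm h7 (Nat.le_of_dvd (Nat.pos_of_ne_zero hj0) h6)

/-- the action as an endomorphism -/
def act (K : Type) (V : Type) [Field K] [AddCommGroup V] [Module K V]
    {H : Type} [Group H] [DistribMulAction H V] [SMulCommClass H K V] :
    H →* Module.End K V := DistribMulAction.toModuleEnd K V

omit [Fintype K] [CharP K 2] in
theorem act_apply (h : H) (v : V) : act K V h v = h • v := rfl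

/-- the linear endomorphisms which commute with `z` -/
def DK (K : Type) (V : Type) [Field K] [AddCommGroup V] [Module K V]
    {H : Type} [Group H] [DistribMulAction H V] [SMulCommClass H K V] (z : H) :
    Subalgebra K (Module.End K V) :=
  Subalgebra.centralizer K {act K V z}

omit [Fintype K] [CharP K 2] in
theorem mem_DK {z : H} {f : Module.End K V} : f ∈ DK K V z ↔ ∀ v, f (z • v) = z • f v := by
  rw [DK, Subalgebra.mem_centralizer_iff]
  constructor
  · intro h v
    have h1 := h _ (Set.mem_singleton _)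
    exact (DFunLike.congr_fun h1 v).symm
  · intro h g hg
    rw [Set.mem_singleton_iff.1 hg]
    ext v
    exact (h v).symm

theorem isField_DK (a : ℕ) (hV : finrank K V = 2 ^ (a + 1))
    (hfree : ∀ h : H, ∀ v : V, v ≠ 0 → h • v = v → h = 1)
    {p : ℕ} (hp : p.Prime) (hpk : p ∣ Fintype.card K ^ 2 ^ a + 1) {z : H} (hz : orderOf z = p) :
    IsField (DK K V z) := by
  have hfd : FiniteDimensional K V := Module.finite_of_finrank_pos (by rw [hV]; positivity)
  have hfin : Finite V := Module.finite_of_finite K
  have hnt : Nontrivial V := Module.nontrivial_of_finrank_pos (R := K) (by rw [hV]; positivity)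
  have hfe : Finite (Module.End K V) := Finite.of_injective (fun f => (f : V → V))
    DFunLike.coe_injective
  have hnz : NoZeroDivisors (DK K V z) := by
    constructor
    rintro ⟨f, hf⟩ ⟨g, hg⟩ hfg
    by_cases hf0 : f = 0
    · left
      exact Subtype.ext hf0
    right
    have hker := irred a hV hfree hp hpk hz (LinearMap.ker f) (by
      intro u hu
      rw [LinearMap.mem_ker] at hu ⊢
      rw [mem_DK.1 hf, hu, smul_zero])
    rcases hker with h1 | h1
    · apply Subtype.ext
      ext v
      have h2 : f (g v) = 0 := by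
        have h3 := congrArg (fun e : DK K V z => (e : Module.End K V) v) hfg
        exact h3
      have h4 : g v ∈ LinearMap.ker f := h2
      rw [h1] at h4
      exact h4
    · exfalso
      apply hf0
      ext v
      have h2 : v ∈ LinearMap.ker f := by rw [h1]; trivial
      exact h2
  have hntE : Nontrivial (DK K V z) := by
    refine ⟨⟨0, 1, ?_⟩⟩
    intro h
    obtain ⟨v, hv⟩ := exists_ne (0 : V)
    apply hv
    have h3 := congrArg (fun e : DK K V z => (e : Module.End K V) v) h
    exact h3.symm
  have hdom : IsDomain (DK K V z) := NoZeroDivisors.to_isDomain _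
  have hfD : Finite (DK K V z) := Subtype.finite
  exact Finite.isDomain_to_isField _

/-- the centraliser of an element of prime order is cyclic -/
theorem centralizer [Finite H] (a : ℕ) (hV : finrank K V = 2 ^ (a + 1))
    (hfree : ∀ h : H, ∀ v : V, v ≠ 0 → h • v = v → h = 1)
    {p : ℕ} (hp : p.Prime) (hpk : p ∣ Fintype.card K ^ 2 ^ a + 1) {z : H} (hz : orderOf z = p) :
    IsCyclic (Subgroup.centralizer {z}) := by
  have hnt : Nontrivial V := Module.nontrivial_of_finrank_pos (R := K) (by rw [hV]; positivity)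
  have hF := isField_DK (V := V) (K := K) a hV hfree hp hpk hz
  let _ : Field (DK K V z) := hF.toField
  let f : Subgroup.centralizer {z} →* DK K V z :=
    { toFun := fun h => ⟨act K V h, by
        rw [mem_DK]
        intro v
        have h1 := Subgroup.mem_centralizer_iff.1 h.2 z (Set.mem_singleton z)
        change (h : H) • z • v = z • (h : H) • v
        rw [← mul_smul, ← mul_smul, h1]⟩
      map_one' := by
        apply Subtype.ext
        change act K V ((1 : Subgroup.centralizer {z}) : H) = 1
        rw [Subgroup.coe_one, map_one]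
      map_mul' := by
        intro x y
        apply Subtype.ext
        change act K V ((x * y : Subgroup.centralizer {z}) : H) = act K V x * act K V y
        rw [Subgroup.coe_mul, map_mul]
        rfl }
  refine isCyclic_of_injective_ringHom f ?_
  intro x y hxy
  apply Subtype.ext
  obtain ⟨v, hv⟩ := exists_ne (0 : V)
  have h1 : (x : H) • v = (y : H) • v :=
    congrArg (fun e : DK K V z => (e : Module.End K V) v) hxy
  have h2 := hfree ((y : H)⁻¹ * x) v hv (by rw [mul_smul, h1, inv_smul_smul])
  exact (inv_mul_eq_one.1 h2).symm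

omit [CharP K 2] in
/-- a semilinear bijection of odd order of a space of dimension `2 ^ j` is linear -/
theorem rel_linear {D : Type} [Field D] [Algebra K D] [Module D V] [IsScalarTower K D V]
    (a : ℕ) (hV : finrank K V = 2 ^ (a + 1)) (φ : V → V) (N : ℕ)
    (hN : Odd N) (hφ : ∀ x, φ^[N] x = x) (σ : D ≃ₐ[K] D)
    (hσ : ∀ (c : D) (x : V), φ (c • x) = σ c • φ x) (c : D) (x : V) : φ (c • x) = c • φ x := by
  have hfd : FiniteDimensional K V := Module.finite_of_finrank_pos (by rw [hV]; positivity)
  have hnt : Nontrivial V := Module.nontrivial_of_finrank_pos (R := K) (by rw [hV]; positivity)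
  obtain ⟨v, hv⟩ := exists_ne (0 : V)
  have hinj : Function.Injective (fun c : D => c • v) := by
    intro c d h
    have h1 : (c - d) • v = 0 := by
      have h2 : c • v = d • v := h
      rw [sub_smul, h2, sub_self]
    exact sub_eq_zero.1 ((smul_eq_zero.1 h1).resolve_right hv)
  have hfV : Finite V := Module.finite_of_finite K
  have hfD : Finite D := Finite.of_injective _ hinj
  have hfdD : FiniteDimensional K D := Module.Finite.of_finite
  have hmul := Module.finrank_mul_finrank K D V
  rw [hV] at hmul
  obtain ⟨i, hi, hDi⟩ := (Nat.dvd_prime_pow Nat.prime_two).1 (Dvd.intro _ hmul)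
  have hiter : ∀ (j : ℕ) (c : D) (x : V), φ^[j] (c • x) = (σ ^ j) c • φ^[j] x := by
    intro j
    induction j with
    | zero => intro c x; simp
    | succ j ih =>
      intro c x
      rw [Function.iterate_succ_apply', ih, hσ, Function.iterate_succ_apply', pow_succ']
      rfl
  have hσN : σ ^ N = 1 := by
    ext c
    have h1 := hiter N c v
    rw [hφ, hφ] at h1
    exact (hinj h1).symm
  have hcard : Nat.card (D ≃ₐ[K] D) = 2 ^ i := by
    rw [IsGalois.card_aut_eq_finrank, hDi]
  have hord1 : orderOf σ ∣ 2 ^ i := by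
    rw [← hcard]
    exact orderOf_dvd_natCard σ
  have hord2 : orderOf σ ∣ N := orderOf_dvd_of_pow_eq_one hσN
  have hord : orderOf σ = 1 := by
    have hcop : Nat.Coprime (2 ^ i) N := Nat.Coprime.pow_left i (Nat.coprime_two_left.2 hN)
    exact Nat.eq_one_of_dvd_coprimes hcop hord1 hord2
  have hσ1 : σ = 1 := orderOf_eq_one_iff.1 hord
  rw [hσ, hσ1]
  rfl

/-- an element which normalises `⟨z⟩` commutes with `z` -/
theorem commute [Finite H] (a : ℕ) (hV : finrank K V = 2 ^ (a + 1))
    (hH : Nat.card H = Fintype.card K ^ 2 ^ a + 1)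
    (hfree : ∀ h : H, ∀ v : V, v ≠ 0 → h • v = v → h = 1)
    {p : ℕ} (hp : p.Prime) (hpk : p ∣ Fintype.card K ^ 2 ^ a + 1) {z : H} (hz : orderOf z = p)
    (hn : ∀ h : H, h * z * h⁻¹ ∈ Subgroup.zpowers z) (h : H) : h * z = z * h := by
  have hnt : Nontrivial V := Module.nontrivial_of_finrank_pos (R := K) (by rw [hV]; positivity)
  have hs : Even (Fintype.card K) := by
    obtain ⟨c, -, hc⟩ := FiniteField.card K 2
    rw [hc]
    exact Nat.even_pow.2 ⟨even_two, c.ne_zero⟩
  have hF := isField_DK (V := V) (K := K) a hV hfree hp hpk hz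
  let _ : Field (DK K V z) := hF.toField
  -- commuting with powers of `z`
  have hcomm : ∀ f ∈ DK K V z, ∀ g ∈ Subgroup.zpowers z, ∀ v, f (g • v) = g • f v := by
    intro f hf g hg v
    have hfo : IsOfFinOrder z := isOfFinOrder_of_finite z
    rw [← hfo.mem_powers_iff_mem_zpowers] at hg
    obtain ⟨n, rfl⟩ := hg
    simp only
    induction n generalizing v with
    | zero => simp
    | succ n ih => rw [pow_succ, mul_smul, ih, mem_DK.1 hf, ← mul_smul]
  have hconj : ∀ g : H, ∀ f ∈ DK K V z, act K V g * f * act K V g⁻¹ ∈ DK K V z := by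
    intro g f hf
    rw [mem_DK]
    intro v
    change g • f (g⁻¹ • z • v) = z • g • f (g⁻¹ • v)
    have h3 : g⁻¹ • z • v = (g⁻¹ * z * g) • g⁻¹ • v := by
      rw [← mul_smul, ← mul_smul]
      congr 1
      group
    have h4 : g⁻¹ * z * g ∈ Subgroup.zpowers z := by
      have := hn g⁻¹
      rwa [inv_inv] at this
    rw [h3, hcomm f hf _ h4, ← mul_smul, ← mul_smul]
    congr 1
    group
  let σ : DK K V z ≃ₐ[K] DK K V z :=
    { toFun := fun f => ⟨_, hconj h f f.2⟩
      invFun := fun f => ⟨_, hconj h⁻¹ f f.2⟩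
      left_inv := by
        intro f
        apply Subtype.ext
        ext v
        change h⁻¹ • h • (f : Module.End K V) (h⁻¹ • h⁻¹⁻¹ • v) = (f : Module.End K V) v
        rw [inv_inv, inv_smul_smul, inv_smul_smul]
      right_inv := by
        intro f
        apply Subtype.ext
        ext v
        change h • h⁻¹ • (f : Module.End K V) (h⁻¹⁻¹ • h⁻¹ • v) = (f : Module.End K V) v
        rw [inv_inv, smul_inv_smul, smul_inv_smul]
      map_mul' := by
        intro f g
        apply Subtype.ext
        ext v
        change h • (f : Module.End K V) ((g : Module.End K V) (h⁻¹ • v)) =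
          h • (f : Module.End K V) (h⁻¹ • h • (g : Module.End K V) (h⁻¹ • v))
        rw [inv_smul_smul]
      map_add' := by
        intro f g
        apply Subtype.ext
        ext v
        change h • ((f : Module.End K V) (h⁻¹ • v) + (g : Module.End K V) (h⁻¹ • v)) =
          h • (f : Module.End K V) (h⁻¹ • v) + h • (g : Module.End K V) (h⁻¹ • v)
        rw [smul_add]
      commutes' := by
        intro c
        apply Subtype.ext
        ext v
        change h • c • h⁻¹ • v = c • v
        rw [smul_comm, smul_inv_smul] }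
  have hlin := rel_linear (D := DK K V z) (K := K) (V := V) a hV (fun v => h • v)
    (Nat.card H) (by rw [hH]; exact Even.add_one (Nat.even_pow.2 ⟨hs, by positivity⟩)) ?_ σ ?_
    ⟨act K V z, by
      rw [mem_DK]
      intro v
      rfl⟩
  · obtain ⟨v, hv⟩ := exists_ne (0 : V)
    have h1 : h • z • v = z • h • v := hlin v
    have h2 := hfree ((z * h)⁻¹ * (h * z)) v hv (by
      rw [mul_smul, mul_smul, h1, ← mul_smul z h, inv_smul_smul])
    exact (inv_mul_eq_one.1 h2).symm
  · intro x
    have h3 : ∀ n : ℕ, ∀ x : V, (fun v : V => h • v)^[n] x = h ^ n • x := by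
      intro n
      induction n with
      | zero => intro x; simp
      | succ n ih =>
        intro x
        rw [Function.iterate_succ_apply', ih, pow_succ', mul_smul]
    rw [h3, pow_card_eq_one', one_smul]
  · intro c x
    change h • (c : Module.End K V) x = h • (c : Module.End K V) (h⁻¹ • h • x)
    rw [inv_smul_smul]

theorem isCyclic (a : ℕ) (hV : finrank K V = 2 ^ (a + 1))
    (hH : Nat.card H = Fintype.card K ^ 2 ^ a + 1)
    (hfree : ∀ h : H, ∀ v : V, v ≠ 0 → h • v = v → h = 1) : IsCyclic H := by
  have hfinH : Finite H := Nat.finite_of_card_ne_zero (by rw [hH]; exact Nat.succ_ne_zero _)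
  have hcyc : ∀ p : ℕ, p.Prime → ∀ z : H, orderOf z = p → IsCyclic (Subgroup.centralizer {z}) := by
    intro p hp z hz
    refine centralizer (V := V) (K := K) a hV hfree hp ?_ hz
    rw [← hH, ← hz]
    exact orderOf_dvd_natCard z
  have hZ : IsZGroup H := by
    refine ⟨fun p hp P => ?_⟩
    have : Fact p.Prime := ⟨hp⟩
    rcases subsingleton_or_nontrivial P with hP | hP
    · exact isCyclic_of_subsingleton
    · have h3 : Nontrivial (Subgroup.center P) := P.isPGroup'.center_nontrivial
      have h4 : IsPGroup p (Subgroup.center P) := P.isPGroup'.to_subgroup _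
      have h5 : p ∣ Nat.card (Subgroup.center P) := by
        rcases h4.card_eq_or_dvd with h6 | h6
        · exact absurd h6 (Finite.one_lt_card_iff_nontrivial.2 h3).ne'
        · exact h6
      obtain ⟨z0, hz0⟩ := exists_prime_orderOf_dvd_card' p h5
      have hz : orderOf ((z0 : P) : H) = p := by
        rw [Subgroup.orderOf_coe, Subgroup.orderOf_coe, hz0]
      have h7 := hcyc p hp _ hz
      have h8 : (P : Subgroup H) ≤ Subgroup.centralizer {((z0 : P) : H)} := by
        intro x hx
        rw [Subgroup.mem_centralizer_iff]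
        intro y hy
        rw [Set.mem_singleton_iff.1 hy]
        have h9 := Subgroup.mem_center_iff.1 z0.2 ⟨x, hx⟩
        exact (congrArg Subtype.val h9).symm
      exact Subgroup.isCyclic_of_le h8
  have hfinish : ∀ p : ℕ, p.Prime → ∀ z : H, orderOf z = p → (∀ h : H, h * z = z * h) →
      IsCyclic H := by
    intro p hp z hz hc
    have h3 := hcyc p hp z hz
    have h4 : Subgroup.centralizer {z} = ⊤ := by
      rw [eq_top_iff]
      intro x _
      rw [Subgroup.mem_centralizer_iff]
      intro y hy
      rw [Set.mem_singleton_iff.1 hy]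
      exact (hc x).symm
    rw [h4] at h3
    exact isCyclic_of_injective (Subgroup.topEquiv (G := H)).symm.toMonoidHom
      (Subgroup.topEquiv (G := H)).symm.injective
  by_cases hc : commutator H = ⊥
  · obtain ⟨p, hp, hpd⟩ := Nat.exists_prime_and_dvd (n := Nat.card H) (by
      rw [hH]
      have : 0 < Fintype.card K ^ 2 ^ a := pow_pos Fintype.card_pos _
      omega)
    have : Fact p.Prime := ⟨hp⟩
    obtain ⟨z, hz⟩ := exists_prime_orderOf_dvd_card' p hpd
    refine hfinish p hp z hz fun h => ?_
    have h3 : h ∈ Subgroup.center H := by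
      rw [(commutator_eq_bot_iff_center_eq_top H).1 hc]
      trivial
    exact (Subgroup.mem_center_iff.1 h3 z).symm
  · have hC : IsCyclic (commutator H) := IsZGroup.isCyclic_commutator H
    have hnt : Nontrivial (commutator H) := (Subgroup.nontrivial_iff_ne_bot _).2 hc
    obtain ⟨p, hp, hpd⟩ := Nat.exists_prime_and_dvd (n := Nat.card (commutator H))
      (Finite.one_lt_card_iff_nontrivial.2 hnt).ne'
    have : Fact p.Prime := ⟨hp⟩
    obtain ⟨z0, hz0⟩ := exists_prime_orderOf_dvd_card' p hpd
    have hz : orderOf (z0 : H) = p := by rw [Subgroup.orderOf_coe, hz0]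
    have hn : ∀ h : H, h * z0 * h⁻¹ ∈ Subgroup.zpowers (z0 : H) := by
      intro h
      have h3 : h * z0 * h⁻¹ ∈ commutator H := Subgroup.Normal.conj_mem inferInstance _ z0.2 h
      have h4 : (⟨h * z0 * h⁻¹, h3⟩ : commutator H) ^ p = 1 := by
        apply Subtype.ext
        rw [Subgroup.coe_pow, Subgroup.coe_one]
        change (h * z0 * h⁻¹) ^ p = 1
        rw [conj_pow, ← hz, pow_orderOf_eq_one]
        group
      have h5 := mem_zpowers_of_pow_eq_one hp.pos hz0 h4
      obtain ⟨n, hn⟩ := Subgroup.mem_zpowers_iff.1 h5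
      refine Subgroup.mem_zpowers_iff.2 ⟨n, ?_⟩
      have h6 := congrArg Subtype.val hn
      rw [Subgroup.coe_zpow] at h6
      exact h6
    refine hfinish p hp _ hz fun h => ?_
    refine commute (V := V) (K := K) a hV hH hfree hp ?_ hz hn h
    rw [← hH, ← hz]
    exact orderOf_dvd_natCard _

end

end Cyc

/-- (Z1) a linear group of order `s ^ m + 1`, `m = 2 ^ a`, which acts freely on a space of
dimension `2m` is cyclic -/
theorem cyclic_of_linear (K : Type) {V : Type} [Field K] [Fintype K] [CharP K 2]
    [AddCommGroup V] [Module K V] {m a : ℕ} (hm : m = 2 ^ a) (hV : finrank K V = 2 * m)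
    (G0 : Subgroup (V ≃ₗ[K] V)) (hcard : Nat.card G0 = Fintype.card K ^ m + 1)
    (hfree : ∀ h ∈ G0, ∀ v : V, v ≠ 0 → h v = v → h = 1) :
    ∃ g ∈ G0, ∀ h ∈ G0, h ∈ Subgroup.zpowers g := by
  subst hm
  have h1 : IsCyclic G0 := by
    refine Cyc.isCyclic (K := K) (V := V) (H := G0) a (by rw [hV, pow_succ, mul_comm]) hcard ?_
    rintro ⟨h, hh⟩ v hv hfix
    exact Subtype.ext (hfree h hh v hv hfix)
  obtain ⟨⟨g, hg⟩, hgen⟩ := h1.exists_generator
  refine ⟨g, hg, fun h hh => ?_⟩
  obtain ⟨n, hn⟩ := Subgroup.mem_zpowers_iff.1 (hgen ⟨h, hh⟩)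
  refine Subgroup.mem_zpowers_iff.2 ⟨n, ?_⟩
  have h3 := congrArg Subtype.val hn
  rw [Subgroup.coe_zpow] at h3
  exact h3

end Pool.Agent.Lib.CPlane
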