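import Pool.Agent.Lib.CPlane.ITDef

/-!
# Involutions are dilatations (row I1)
-/

namespace Pool.Agent.Lib.CPlane

variable {P : Type} {n : ℕ}

theorem Par.symm {L M : Set P} (h : Par L M) : Par M L := by
  rcases h with h | h
  · exact Or.inl h.symm
  · exact Or.inr h.symm

theorem Par.eq_of_mem {L M : Set P} (h : Par L M) {p : P} (h1 : p ∈ L) (h2 : p ∈ M) : L = M := by
  rcases h with h | h
  · exact h
  · exact absurd h2 (Set.disjoint_left.mp h h1)

/-- I1a: parallelism is transitive -/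
theorem Par.trans {A : AffinePlane P n} {L M N : Set P} (hL : L ∈ A.lines) (hM : M ∈ A.lines)
    (hN : N ∈ A.lines) (h1 : Par L M) (h2 : Par M N) : Par L N := by
  rcases h1 with rfl | h1
  · exact h2
  rcases h2 with rfl | h2
  · exact Or.inr h1
  by_cases h : Disjoint L N
  · exact Or.inr h
  · left
    obtain ⟨p, hp1, hp2⟩ := Set.not_disjoint_iff.mp h
    have hpM : p ∉ M := Set.disjoint_left.mp h1 hp1
    exact (A.parallel M hM p hpM).unique ⟨hL, hp1, h1⟩ ⟨hN, hp2, h2.symm⟩

theorem AffinePlane.finite (A : AffinePlane P n) (hn : 2 ≤ n) : Finite P := by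
  apply Nat.finite_of_card_ne_zero
  rw [A.card_points]
  positivity

/-- two points on two lines: the lines are equal -/
theorem AffinePlane.eq_of_mem (A : AffinePlane P n) {p q : P} (hpq : p ≠ q) {L M : Set P}
    (hL : L ∈ A.lines) (hM : M ∈ A.lines) (h1 : p ∈ L) (h2 : q ∈ L) (h3 : p ∈ M) (h4 : q ∈ M) :
    L = M :=
  (A.join p q hpq).unique ⟨hL, h1, h2⟩ ⟨hM, h3, h4⟩

/-- I1b: number of lines through a point -/
theorem ncard_pencil (A : AffinePlane P n) (hn : 2 ≤ n) (p : P) :
    {L | L ∈ A.lines ∧ p ∈ L}.ncard = n + 1 := by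
  classical
  have := A.finite hn
  have := Fintype.ofFinite P
  let S : Finset (Set P) := (Set.toFinite {L | L ∈ A.lines ∧ p ∈ L}).toFinset
  have hS : ∀ L, L ∈ S ↔ L ∈ A.lines ∧ p ∈ L := by
    intro L
    simp [S]
  have hcard : {L | L ∈ A.lines ∧ p ∈ L}.ncard = S.card := by
    rw [Set.ncard_eq_toFinset_card _ (Set.toFinite _)]
  -- the line joining `p` to `q`
  have hex : ∀ q : P, ∃ L, q ≠ p → (L ∈ A.lines ∧ p ∈ L ∧ q ∈ L) := by
    intro q
    by_cases h : q = p
    · exact ⟨∅, fun h' => absurd h h'⟩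
    · obtain ⟨L, hL, _⟩ := A.join p q (Ne.symm h)
      exact ⟨L, fun _ => hL⟩
  choose f hf using hex
  have h1 := Finset.card_eq_sum_card_fiberwise (s := Finset.univ.erase p) (t := S) (f := f)
    (by
      intro q hq
      have hq' := Finset.ne_of_mem_erase (Finset.mem_coe.mp hq)
      exact Finset.mem_coe.mpr ((hS _).mpr ⟨(hf q hq').1, (hf q hq').2.1⟩))
  have h2 : ∀ L ∈ S, ((Finset.univ.erase p).filter (fun q => f q = L)).card = n - 1 := by
    intro L hL
    rw [hS] at hL
    have h3 : (((Finset.univ.erase p).filter (fun q => f q = L) : Finset P) : Set P) =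
        L \ {p} := by
      ext q
      simp only [Finset.coe_filter, Finset.mem_erase, Finset.mem_univ, and_true,
        Set.mem_ofPred_eq, Set.mem_sdiff, Set.mem_singleton_iff]
      constructor
      · rintro ⟨h4, rfl⟩
        exact ⟨(hf q h4).2.2, h4⟩
      · rintro ⟨h4, h5⟩
        refine ⟨h5, ?_⟩
        exact A.eq_of_mem (Ne.symm h5) (hf q h5).1 hL.1 (hf q h5).2.1 (hf q h5).2.2 hL.2 h4
    rw [← Set.ncard_coe_finset, h3, Set.ncard_sdiff_singleton_of_mem hL.2, A.card_line L hL.1]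
  rw [Finset.sum_congr rfl h2, Finset.sum_const, smul_eq_mul, Finset.card_erase_of_mem
    (Finset.mem_univ _), Finset.card_univ, ← Nat.card_eq_fintype_card, A.card_points] at h1
  rw [hcard]
  obtain ⟨k, rfl⟩ : ∃ k, n = k + 2 := ⟨n - 2, by omega⟩
  have h3 : (k + 2) ^ 2 - 1 = (k + 3) * (k + 1) := by
    have : (k + 2) ^ 2 = (k + 3) * (k + 1) + 1 := by ring
    omega
  rw [h3] at h1
  have h4 : k + 2 - 1 = k + 1 := by omega
  rw [h4] at h1
  exact (Nat.eq_of_mul_eq_mul_right (by omega) h1).symm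

/-- I1c: an element of `G` which fixes a flag is `1` -/
theorem eq_one_of_flag {A : AffinePlane P n} {G : Subgroup (Equiv.Perm P)}
    (hflag : SharplyFlagTransitive A G) {g : Equiv.Perm P} (hg : g ∈ G) {p : P} {L : Set P}
    (hL : L ∈ A.lines) (hp : p ∈ L) (h1 : g p = p) (h2 : (g : P → P) '' L = L) : g = 1 := by
  refine (hflag p L hL hp p L hL hp).unique ⟨hg, h1, h2⟩ ⟨G.one_mem, rfl, ?_⟩
  simp

/-- an involution in `G` has no fixed point -/
theorem not_fixed_of_involution {A : AffinePlane P n} {G : Subgroup (Equiv.Perm P)}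
    (hn : Even n) (hn2 : 2 ≤ n) (hG : IsCollineationGroup A G)
    (hflag : SharplyFlagTransitive A G) {t : Equiv.Perm P} (ht : t ∈ G) (ht2 : t * t = 1)
    (ht1 : t ≠ 1) (p : P) : t p ≠ p := by
  classical
  intro hp
  have := A.finite hn2
  have htt : ∀ x, t (t x) = x := fun x => by
    have := Equiv.congr_fun ht2 x
    simpa using this
  have himg : ∀ L : Set P, (t : P → P) '' ((t : P → P) '' L) = L := by
    intro L
    rw [Set.image_image]
    simp [htt]
  let S := {L : Set P // L ∈ A.lines ∧ p ∈ L}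
  have hfin : Finite S := inferInstance
  have := Fintype.ofFinite S
  let σ : Equiv.Perm S :=
    { toFun := fun L => ⟨(t : P → P) '' L.1, hG t ht _ L.2.1, ⟨p, L.2.2, hp⟩⟩
      invFun := fun L => ⟨(t : P → P) '' L.1, hG t ht _ L.2.1, ⟨p, L.2.2, hp⟩⟩
      left_inv := fun L => Subtype.ext (himg L.1)
      right_inv := fun L => Subtype.ext (himg L.1) }
  have hcard : Fintype.card S = n + 1 := by
    rw [← Nat.card_eq_fintype_card, ← ncard_pencil A hn2 p]
    rfl
  have h2 : ¬ 2 ∣ Fintype.card S := by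
    rw [hcard]
    obtain ⟨k, hk⟩ := hn
    omega
  have hσ : σ ^ 2 ^ 1 = 1 := by
    ext1 L
    rw [pow_one, pow_two]
    exact Subtype.ext (himg L.1)
  obtain ⟨L, hL⟩ := Equiv.Perm.exists_fixed_point_of_prime (p := 2) (n := 1) h2 hσ
  exact ht1 (eq_one_of_flag hflag ht L.2.1 L.2.2 hp (congrArg Subtype.val hL))

/-- I1d: involutions are dilatations without fixed points -/
theorem isDil_of_involution {A : AffinePlane P n} {G : Subgroup (Equiv.Perm P)}
    (hn : Even n) (hn2 : 2 ≤ n) (hG : IsCollineationGroup A G)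
    (hflag : SharplyFlagTransitive A G) {t : Equiv.Perm P} (ht : t ∈ G) (ht2 : t * t = 1)
    (ht1 : t ≠ 1) : IsDil A t := by
  intro L hL
  refine ⟨hG t ht L hL, ?_⟩
  by_cases hd : Disjoint ((t : P → P) '' L) L
  · exact Or.inr hd
  · left
    obtain ⟨p, hp1, hp2⟩ := Set.not_disjoint_iff.mp hd
    have htt : ∀ x, t (t x) = x := fun x => by
      have := Equiv.congr_fun ht2 x
      simpa using this
    have h1 : t p ∈ L := by
      obtain ⟨q, hq, hqp⟩ := hp1
      rw [← hqp, htt]
      exact hq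
    have h2 : t p ∈ (t : P → P) '' L := ⟨p, hp2, rfl⟩
    exact A.eq_of_mem (not_fixed_of_involution hn hn2 hG hflag ht ht2 ht1 p).symm
      (hG t ht L hL) hL hp1 h2 hp2 h1

end Pool.Agent.Lib.CPlane
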