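import Pool.Agent.Lib.CPlane.ITDef

/-!
# The kernel of a plane on an elementary abelian 2-group (I5)
-/

namespace Pool.Agent.Lib.CPlane

open Module

variable {n : ℕ} {V : Type} [AddCommGroup V]

/-- the kernel: the endomorphisms which map every line through `0` into itself -/
def kern (A : AffinePlane V n)
    (hsub : ∀ L ∈ A.lines, (0 : V) ∈ L → ∃ U : AddSubgroup V, (U : Set V) = L) :
    Subring (AddMonoid.End V) where
  carrier := {φ | ∀ L ∈ A.lines, (0 : V) ∈ L → ∀ x ∈ L, φ x ∈ L}
  mul_mem' := fun {a b} ha hb L hL h0 x hx => ha L hL h0 _ (hb L hL h0 x hx)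
  one_mem' := fun _ _ _ _ hx => hx
  add_mem' := by
    intro a b ha hb L hL h0 x hx
    obtain ⟨U, rfl⟩ := hsub L hL h0
    exact U.add_mem (ha _ hL h0 x hx) (hb _ hL h0 x hx)
  zero_mem' := fun _ _ h0 _ _ => h0
  neg_mem' := by
    intro a ha L hL h0 x hx
    obtain ⟨U, rfl⟩ := hsub L hL h0
    exact U.neg_mem (ha _ hL h0 x hx)

theorem finite_points {P : Type} (A : AffinePlane P n) (hn2 : 2 ≤ n) : Finite P := by
  refine Nat.finite_of_card_ne_zero ?_
  rw [A.card_points]
  positivity

theorem exists_notMem {P : Type} (A : AffinePlane P n) (hn2 : 2 ≤ n) {L : Set P}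
    (hL : L ∈ A.lines) : ∃ w, w ∉ L := by
  by_contra h
  push Not at h
  have h1 : L = Set.univ := Set.eq_univ_of_forall h
  have h2 := A.card_line L hL
  rw [h1, Set.ncard_univ, A.card_points] at h2
  nlinarith

theorem line_unique {P : Type} (A : AffinePlane P n) {L M : Set P} (hL : L ∈ A.lines)
    (hM : M ∈ A.lines) {p q : P} (hpq : p ≠ q) (h1 : p ∈ L) (h2 : q ∈ L) (h3 : p ∈ M)
    (h4 : q ∈ M) : L = M :=
  (A.join p q hpq).unique ⟨hL, h1, h2⟩ ⟨hM, h3, h4⟩

theorem kern_inj (A : AffinePlane V n) (hn2 : 2 ≤ n)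
    (hsub : ∀ L ∈ A.lines, (0 : V) ∈ L → ∃ U : AddSubgroup V, (U : Set V) = L)
    {φ : AddMonoid.End V} (hφ : φ ∈ kern A hsub) {v : V} (hv : v ≠ 0) (h0 : φ v = 0) :
    φ = 0 := by
  obtain ⟨L, ⟨hL, hL0, hLv⟩, -⟩ := A.join 0 v hv.symm
  have key : ∀ w, w ∉ L → φ w = 0 := by
    intro w hw
    by_contra hne
    have hw0 : w ≠ 0 := by
      rintro rfl
      exact hw hL0
    have hvw0 : v + w ≠ 0 := by
      intro h
      apply hw
      obtain ⟨U, rfl⟩ := hsub L hL hL0
      have h1 : w = -v := by rw [eq_neg_iff_add_eq_zero, add_comm]; exact h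
      rw [h1]
      exact U.neg_mem hLv
    obtain ⟨M, ⟨hM, hM0, hMw⟩, -⟩ := A.join 0 w hw0.symm
    obtain ⟨N, ⟨hN, hN0, hNw⟩, -⟩ := A.join 0 (v + w) hvw0.symm
    have h1 : φ w ∈ M := hφ M hM hM0 w hMw
    have h2 : φ w ∈ N := by
      have h3 := hφ N hN hN0 (v + w) hNw
      rw [map_add, h0, zero_add] at h3
      exact h3
    have h3 : M = N := line_unique A hM hN (Ne.symm hne) hM0 h1 hN0 h2
    subst h3
    have h4 : v ∈ M := by
      obtain ⟨U, rfl⟩ := hsub M hM hM0
      have h5 := U.sub_mem hNw hMw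
      rwa [add_sub_cancel_right] at h5
    have h5 : L = M := line_unique A hL hM hv.symm hL0 hLv hM0 h4
    exact hw (h5 ▸ hMw)
  obtain ⟨w, hw⟩ := exists_notMem A hn2 hL
  ext x
  by_cases hx : x ∈ L
  · have h1 : x + w ∉ L := by
      intro h
      apply hw
      obtain ⟨U, rfl⟩ := hsub L hL hL0
      have h5 := U.sub_mem h hx
      rwa [add_sub_cancel_left] at h5
    have h2 := key (x + w) h1
    rw [map_add, key w hw, add_zero] at h2
    exact h2
  · exact key x hx

/-- a collineation maps the set of lines onto itself -/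
theorem exists_image {P : Type} (A : AffinePlane P n) (hn2 : 2 ≤ n) (φ : P ≃ P)
    (hφ : ∀ L ∈ A.lines, φ '' L ∈ A.lines) {L : Set P} (hL : L ∈ A.lines) :
    ∃ M ∈ A.lines, φ '' M = L := by
  have := finite_points A hn2
  have hfin : A.lines.Finite := Set.toFinite _
  have h1 : (fun M : Set P => φ '' M) '' A.lines ⊆ A.lines := by
    rintro _ ⟨M, hM, rfl⟩
    exact hφ M hM
  have h2 : (fun M : Set P => φ '' M) '' A.lines = A.lines := by
    refine Set.eq_of_subset_of_ncard_le h1 ?_ hfin
    rw [Set.ncard_image_of_injective _ φ.injective.image_injective]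
  rw [← h2] at hL
  obtain ⟨M, hM, h⟩ := hL
  exact ⟨M, hM, h⟩

/-- the inverse of a collineation is a collineation -/
theorem symm_image {P : Type} (A : AffinePlane P n) (hn2 : 2 ≤ n) (φ : P ≃ P)
    (hφ : ∀ L ∈ A.lines, φ '' L ∈ A.lines) : ∀ L ∈ A.lines, φ.symm '' L ∈ A.lines := by
  intro L hL
  obtain ⟨M, hM, rfl⟩ := exists_image A hn2 φ hφ hL
  rw [← Set.image_comp]
  simpa using hM

/-- conjugation by a collineation maps the kernel into itself -/
theorem conj_mem_kern (A : AffinePlane V n) (hn2 : 2 ≤ n)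
    (hsub : ∀ L ∈ A.lines, (0 : V) ∈ L → ∃ U : AddSubgroup V, (U : Set V) = L)
    (φ : V ≃+ V) (hφ : ∀ L ∈ A.lines, φ '' L ∈ A.lines) {k : AddMonoid.End V}
    (hk : k ∈ kern A hsub) :
    ((φ.toAddMonoidHom.comp (AddMonoidHom.comp k φ.symm.toAddMonoidHom) : V →+ V) :
      AddMonoid.End V) ∈ kern A hsub := by
  intro L hL h0 x hx
  obtain ⟨M, hM, rfl⟩ := exists_image A hn2 φ.toEquiv hφ hL
  obtain ⟨y, hy, rfl⟩ := hx
  obtain ⟨z, hz, hz0⟩ := h0
  have hz1 : z = 0 := by
    apply φ.injective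
    rw [map_zero]
    exact hz0
  subst hz1
  refine ⟨k y, hk M hM hz y hy, ?_⟩
  change φ (k y) = φ (k (φ.symm (φ y)))
  rw [AddEquiv.symm_apply_apply]

/-- the kernel -/
theorem exists_kernel {V : Type} [AddCommGroup V] (A : AffinePlane V n) (hn2 : 2 ≤ n)
    (h2 : ∀ x : V, x + x = 0)
    (htrans : ∀ L ∈ A.lines, ∀ v : V, (fun x => v + x) '' L ∈ A.lines)
    (hsub : ∀ L ∈ A.lines, (0 : V) ∈ L → ∃ U : AddSubgroup V, (U : Set V) = L) :
    ∃ (K : Type) (_ : Field K) (_ : Fintype K) (_ : Module K V), CharP K 2 ∧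
      (∀ L ∈ A.lines, (0 : V) ∈ L → ∃ U : Submodule K V, (U : Set V) = L) ∧
      (∀ φ : V →+ V, (∀ L ∈ A.lines, (0 : V) ∈ L → ∀ x ∈ L, φ x ∈ L) →
        ∃ k : K, ∀ x, φ x = k • x) ∧
      (∀ φ : V ≃+ V, (∀ L ∈ A.lines, φ '' L ∈ A.lines) →
        ∃ σ : K ≃+* K, ∀ (k : K) (x : V), φ (k • x) = σ k • φ x) := by
  have hVfin : Finite V := finite_points A hn2
  have hVcard : 1 < Nat.card V := by
    rw [A.card_points]
    nlinarith
  have hVnt : Nontrivial V := Finite.one_lt_card_iff_nontrivial.1 hVcard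
  have hEndfin : Finite (AddMonoid.End V) :=
    Finite.of_injective (fun φ : AddMonoid.End V => (φ : V → V)) DFunLike.coe_injective
  have hKfin : Finite (kern A hsub) := inferInstance
  have hnt : Nontrivial (kern A hsub) := by
    obtain ⟨v, hv⟩ := exists_ne (0 : V)
    refine ⟨⟨0, 1, fun h => hv ?_⟩⟩
    have h1 := congrArg (fun k : kern A hsub => (k : AddMonoid.End V) v) h
    exact h1.symm
  have hnzd : NoZeroDivisors (kern A hsub) := by
    refine ⟨fun {a b} hab => ?_⟩
    by_cases hb : b = 0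
    · exact Or.inr hb
    · left
      have h1 : ∃ v, (b : AddMonoid.End V) v ≠ 0 := by
        by_contra h
        push Not at h
        apply hb
        apply Subtype.ext
        ext v
        exact h v
      obtain ⟨v, hv⟩ := h1
      have h3 : (a : AddMonoid.End V) ((b : AddMonoid.End V) v) = 0 := by
        have h4 := congrArg (fun k : kern A hsub => (k : AddMonoid.End V) v) hab
        exact h4
      exact Subtype.ext (kern_inj A hn2 hsub a.2 hv h3)
  have hdom : IsDomain (kern A hsub) := NoZeroDivisors.to_isDomain _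
  have hf : IsField (kern A hsub) := Finite.isDomain_to_isField _
  let fld : Field (kern A hsub) := hf.toField
  let fint : Fintype (kern A hsub) := Fintype.ofFinite _
  let mdl : Module (kern A hsub) V :=
    { smul := fun k x => (k : AddMonoid.End V) x
      one_smul := fun x => rfl
      mul_smul := fun a b x => rfl
      smul_zero := fun a => map_zero (a : AddMonoid.End V)
      smul_add := fun a x y => map_add (a : AddMonoid.End V) x y
      add_smul := fun a b x => rfl
      zero_smul := fun x => rfl }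
  have hsmul : ∀ (k : kern A hsub) (x : V), k • x = (k : AddMonoid.End V) x := fun _ _ => rfl
  refine ⟨kern A hsub, fld, fint, mdl, ?_, ?_, ?_, ?_⟩
  · refine CharTwo.of_one_ne_zero_of_two_eq_zero one_ne_zero ?_
    obtain ⟨v, hv⟩ := exists_ne (0 : V)
    by_contra hne
    have h3 : (2 : kern A hsub) • v = 0 := by
      rw [← one_add_one_eq_two, add_smul, one_smul, h2]
    exact hv ((smul_eq_zero.1 h3).resolve_left hne)
  · intro L hL h0
    obtain ⟨U, rfl⟩ := hsub L hL h0
    exact ⟨{ U with smul_mem' := fun k x hx => k.2 _ hL h0 x hx }, rfl⟩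
  · intro φ hφ
    exact ⟨⟨φ, hφ⟩, fun x => rfl⟩
  · intro φ hφ
    have hφ' : ∀ L ∈ A.lines, φ.symm '' L ∈ A.lines := symm_image A hn2 φ.toEquiv hφ
    refine ⟨{ toFun := fun k => ⟨_, conj_mem_kern A hn2 hsub φ hφ k.2⟩
              invFun := fun k => ⟨_, conj_mem_kern A hn2 hsub φ.symm hφ' k.2⟩
              left_inv := ?_
              right_inv := ?_
              map_mul' := ?_
              map_add' := ?_ }, ?_⟩
    · intro k
      apply Subtype.ext
      ext x
      change φ.symm (φ ((k : AddMonoid.End V) (φ.symm (φ x)))) = (k : AddMonoid.End V) x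
      simp
    · intro k
      apply Subtype.ext
      ext x
      change φ (φ.symm ((k : AddMonoid.End V) (φ (φ.symm x)))) = (k : AddMonoid.End V) x
      simp
    · intro a b
      apply Subtype.ext
      ext x
      change φ ((a : AddMonoid.End V) ((b : AddMonoid.End V) (φ.symm x))) =
        φ ((a : AddMonoid.End V) (φ.symm (φ ((b : AddMonoid.End V) (φ.symm x)))))
      simp
    · intro a b
      apply Subtype.ext
      ext x
      change φ ((a : AddMonoid.End V) (φ.symm x) + (b : AddMonoid.End V) (φ.symm x)) =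
        φ ((a : AddMonoid.End V) (φ.symm x)) + φ ((b : AddMonoid.End V) (φ.symm x))
      simp
    · intro k x
      change φ ((k : AddMonoid.End V) x) = φ ((k : AddMonoid.End V) (φ.symm (φ x)))
      simp

end Pool.Agent.Lib.CPlane
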