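import Mathlib

/-!
# The point stabiliser is cyclic and linear over the kernel (rows I6, I7)
-/

namespace Pool.Agent.Lib.CPlane

open Module

/-- `|K| = 2 ^ 2 ^ i` -/
theorem card_kernel {K V : Type} [Field K] [Fintype K] [CharP K 2] [AddCommGroup V]
    [Module K V] (k : ℕ) (hV : Nat.card V = 2 ^ 2 ^ (k + 1)) :
    ∃ i, i ≤ k + 1 ∧ Fintype.card K = 2 ^ 2 ^ i := by
  have hfin : Finite V := Nat.finite_of_card_ne_zero (by rw [hV]; positivity)
  obtain ⟨c, -, hc⟩ := FiniteField.card K 2
  have h1 : Nat.card V = Nat.card K ^ finrank K V := Module.natCard_eq_pow_finrank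
  rw [hV, Nat.card_eq_fintype_card, hc, ← pow_mul] at h1
  have h2 := Nat.pow_right_injective (le_refl 2) h1
  have h3 : (c : ℕ) ∣ 2 ^ (k + 1) := ⟨_, h2⟩
  obtain ⟨i, hi, hci⟩ := (Nat.dvd_prime_pow Nat.prime_two).1 h3
  exact ⟨i, hi, by rw [hc, hci]⟩

theorem linear_of_odd {K V : Type} [Field K] [Fintype K] [CharP K 2] [AddCommGroup V]
    [Module K V] (k : ℕ) (hV : Nat.card V = 2 ^ 2 ^ (k + 1)) (φ : V ≃+ V) (N : ℕ)
    (hN : Odd N) (hφ : ∀ x, (φ : V → V)^[N] x = x) (σ : K ≃+* K)
    (hσ : ∀ (c : K) (x : V), φ (c • x) = σ c • φ x) (c : K) (x : V) : φ (c • x) = c • φ x := by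
  have hfin : Finite V := Nat.finite_of_card_ne_zero (by rw [hV]; positivity)
  have hnt : Nontrivial V := by
    rw [← Finite.one_lt_card_iff_nontrivial, hV]
    exact Nat.one_lt_two_pow (by positivity)
  obtain ⟨i, -, hi⟩ := card_kernel (K := K) k hV
  let _ : Algebra (ZMod 2) K := ZMod.algebra K 2
  -- `σ` as an element of the Galois group
  let τ : K ≃ₐ[ZMod 2] K := AlgEquiv.ofRingEquiv (f := σ) (fun r => by
    have h1 : ∀ r : ZMod 2, r = 0 ∨ r = 1 := by decide
    rcases h1 r with rfl | rfl
    · simp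
    · simp)
  have hτ : ∀ c, τ c = σ c := fun _ => rfl
  -- iterates
  have hiter : ∀ (j : ℕ) (c : K) (x : V), (φ : V → V)^[j] (c • x) = (τ ^ j) c • (φ : V → V)^[j] x := by
    intro j
    induction j with
    | zero => intro c x; simp
    | succ j ih =>
      intro c x
      rw [Function.iterate_succ_apply', ih, hσ, Function.iterate_succ_apply', pow_succ']
      rfl
  have hτN : τ ^ N = 1 := by
    ext c
    obtain ⟨v, hv⟩ := exists_ne (0 : V)
    have h1 := hiter N c v
    rw [hφ, hφ] at h1
    have h2 : ((τ ^ N) c - c) • v = 0 := by rw [sub_smul, ← h1, sub_self]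
    have h3 := (smul_eq_zero.1 h2).resolve_right hv
    exact sub_eq_zero.1 h3
  have hcard : Nat.card (K ≃ₐ[ZMod 2] K) = 2 ^ i := by
    rw [IsGalois.card_aut_eq_finrank]
    have h1 : Fintype.card K = Fintype.card (ZMod 2) ^ finrank (ZMod 2) K :=
      Module.card_eq_pow_finrank
    rw [hi, ZMod.card] at h1
    exact (Nat.pow_right_injective (le_refl 2) h1).symm
  have hord1 : orderOf τ ∣ 2 ^ i := by
    rw [← hcard]
    exact orderOf_dvd_natCard τ
  have hord2 : orderOf τ ∣ N := orderOf_dvd_of_pow_eq_one hτN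
  have hord : orderOf τ = 1 := by
    have hcop : Nat.Coprime (2 ^ i) N := Nat.Coprime.pow_left i (Nat.coprime_two_left.2 hN)
    exact Nat.eq_one_of_dvd_coprimes hcop hord1 hord2
  have hτ1 : τ = 1 := orderOf_eq_one_iff.1 hord
  rw [hσ, ← hτ, hτ1]
  rfl

/-- the order of `2` modulo a prime divisor of `2 ^ 2 ^ k + 1` -/
theorem pow_dvd_of_dvd {p k j : ℕ} (hp : p.Prime) (hpk : p ∣ 2 ^ 2 ^ k + 1) (hj : p ∣ 2 ^ j - 1) :
    2 ^ (k + 1) ∣ j := by
  have : Fact p.Prime := ⟨hp⟩
  have hp2 : p ≠ 2 := by
    rintro rfl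
    have h1 : 2 ∣ 2 ^ 2 ^ k := dvd_pow_self 2 (by positivity)
    have h2 := (Nat.dvd_add_right h1).1 hpk
    omega
  have h1 : (2 : ZMod p) ^ 2 ^ k = -1 := by
    have h2 : ((2 ^ 2 ^ k + 1 : ℕ) : ZMod p) = 0 := (ZMod.natCast_eq_zero_iff _ _).2 hpk
    push_cast at h2
    exact eq_neg_of_add_eq_zero_left h2
  have h2 : ¬ (2 : ZMod p) ^ 2 ^ k = 1 := by
    intro h
    rw [h1] at h
    have h3 : ((2 : ℕ) : ZMod p) = 0 := by
      push_cast
      linear_combination -h
    have h4 := (ZMod.natCast_eq_zero_iff _ _).1 h3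
    exact hp2 ((Nat.prime_dvd_prime_iff_eq hp Nat.prime_two).1 h4)
  have h3 : (2 : ZMod p) ^ 2 ^ (k + 1) = 1 := by
    rw [pow_succ, pow_mul, h1]
    ring
  have h4 : orderOf (2 : ZMod p) = 2 ^ (k + 1) := orderOf_eq_prime_pow h2 h3
  rw [← h4]
  apply orderOf_dvd_of_pow_eq_one
  have h5 : ((2 ^ j - 1 : ℕ) : ZMod p) = 0 := (ZMod.natCast_eq_zero_iff _ _).2 hj
  rw [Nat.cast_sub (Nat.one_le_two_pow)] at h5
  push_cast at h5
  exact sub_eq_zero.1 h5

section Cyc

variable {V : Type} [AddCommGroup V] {H : Type} [Group H] [DistribMulAction H V]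

/-- cardinality of subgroups of an elementary abelian 2-group -/
theorem card_addSubgroup (k : ℕ) (hV : Nat.card V = 2 ^ k) (U : AddSubgroup V) :
    ∃ j, j ≤ k ∧ Nat.card U = 2 ^ j := by
  have h1 : Nat.card U ∣ 2 ^ k := by
    rw [← hV]
    exact AddSubgroup.card_addSubgroup_dvd_card U
  exact (Nat.dvd_prime_pow Nat.prime_two).1 h1

/-- the fixed points of an element of prime order -/
theorem card_fix_mod {p : ℕ} (hp : p.Prime) {z : H} (hz : orderOf z = p) [Finite V]
    (U C : AddSubgroup V) (hU : ∀ u ∈ U, z • u ∈ U) (hC : ∀ u, u ∈ C ↔ u ∈ U ∧ z • u = u) :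
    Nat.card U ≡ Nat.card C [MOD p] := by
  have : Fact p.Prime := ⟨hp⟩
  have hpow : ∀ (n : ℕ), ∀ u ∈ U, z ^ n • u ∈ U := by
    intro n
    induction n with
    | zero => intro u hu; simpa using hu
    | succ n ih =>
      intro u hu
      rw [pow_succ', mul_smul]
      exact hU _ (ih u hu)
  have hfo : IsOfFinOrder z := by
    rw [← orderOf_pos_iff, hz]
    exact hp.pos
  have hzp : ∀ g ∈ Subgroup.zpowers z, ∃ n : ℕ, z ^ n = g := by
    intro g hg
    rw [← hfo.mem_powers_iff_mem_zpowers] at hg
    exact hg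
  let S : SubMulAction (Subgroup.zpowers z) V :=
    { carrier := U
      smul_mem' := by
        rintro ⟨g, hg⟩ u hu
        obtain ⟨n, rfl⟩ := hzp g hg
        exact hpow n u hu }
  have hG : IsPGroup p (Subgroup.zpowers z) := by
    apply IsPGroup.of_card (n := 1)
    rw [Nat.card_zpowers, hz, pow_one]
  have hfinS : Finite S := Subtype.finite
  have h1 := hG.card_modEq_card_fixedPoints (α := S)
  have h2 : Nat.card S = Nat.card U := rfl
  have h3 : Nat.card (MulAction.fixedPoints (Subgroup.zpowers z) S) = Nat.card C := by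
    refine Nat.card_congr
      { toFun := fun x => ⟨(x.1 : V), (hC _).2 ⟨x.1.2, ?_⟩⟩
        invFun := fun x => ⟨⟨(x : V), ((hC _).1 x.2).1⟩, ?_⟩
        left_inv := ?_
        right_inv := ?_ }
    · have h4 := x.2 ⟨z, Subgroup.mem_zpowers z⟩
      exact congrArg Subtype.val h4
    · rintro ⟨g, hg⟩
      obtain ⟨n, rfl⟩ := hzp g hg
      apply Subtype.ext
      change z ^ n • (x : V) = x
      have h5 : z • (x : V) = x := ((hC _).1 x.2).2
      induction n with
      | zero => simp
      | succ n ih => rw [pow_succ', mul_smul, ih (Subgroup.npow_mem_zpowers z n), h5]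
    · intro x
      rfl
    · intro x
      rfl
  rwa [h2, h3] at h1

theorem dvd_of_modEq {p a b : ℕ} (hp : p.Prime) (hp2 : p ≠ 2) (hab : b ≤ a)
    (h : 2 ^ a ≡ 2 ^ b [MOD p]) : p ∣ 2 ^ (a - b) - 1 := by
  have h1 : p ∣ 2 ^ a - 2 ^ b :=
    (Nat.modEq_iff_dvd' (Nat.pow_le_pow_right (by norm_num) hab)).1 h.symm
  have h2 : 2 ^ a - 2 ^ b = 2 ^ b * (2 ^ (a - b) - 1) := by
    rw [Nat.mul_sub, ← pow_add, mul_one, Nat.add_sub_cancel' hab]
  rw [h2] at h1
  rcases (Nat.Prime.dvd_mul hp).1 h1 with h3 | h3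
  · exact absurd ((Nat.prime_dvd_prime_iff_eq hp Nat.prime_two).1 (hp.dvd_of_dvd_pow h3)) hp2
  · exact h3

/-- an element of prime order acts irreducibly -/
theorem irreducible_of_prime [FaithfulSMul H V] (k : ℕ) (hV : Nat.card V = 2 ^ 2 ^ (k + 1))
    {p : ℕ} (hp : p.Prime) (hpk : p ∣ 2 ^ 2 ^ k + 1) {z : H} (hz : orderOf z = p)
    (U : AddSubgroup V) (hU : ∀ u ∈ U, z • u ∈ U) : U = ⊥ ∨ U = ⊤ := by
  have hfin : Finite V := Nat.finite_of_card_ne_zero (by rw [hV]; positivity)
  have hp2 : p ≠ 2 := by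
    rintro rfl
    have h1 : 2 ∣ 2 ^ 2 ^ k := dvd_pow_self 2 (by positivity)
    have h2 := (Nat.dvd_add_right h1).1 hpk
    omega
  let C : AddSubgroup V :=
    { carrier := {v | z • v = v}
      zero_mem' := smul_zero z
      add_mem' := by
        intro a b ha hb
        change z • (a + b) = a + b
        rw [smul_add, ha, hb]
      neg_mem' := by
        intro a ha
        change z • (-a) = -a
        rw [smul_neg, ha] }
  have hC : ∀ v, v ∈ C ↔ z • v = v := fun _ => Iff.rfl
  have h1 := card_fix_mod hp hz ⊤ C (fun _ _ => AddSubgroup.mem_top _)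
    (fun u => by rw [hC]; simp)
  rw [AddSubgroup.card_top, hV] at h1
  obtain ⟨c, hc, hCc⟩ := card_addSubgroup _ hV C
  rw [hCc] at h1
  have h2 := pow_dvd_of_dvd hp hpk (dvd_of_modEq hp hp2 hc h1)
  have hc0 : c = 0 := by
    by_contra hc0
    have h3 : 2 ^ (k + 1) - c < 2 ^ (k + 1) := by
      have : 0 < 2 ^ (k + 1) := by positivity
      omega
    have h4 : 2 ^ (k + 1) - c = 0 := Nat.eq_zero_of_dvd_of_lt h2 h3
    have h5 : c = 2 ^ (k + 1) := by omega
    have h6 : C = ⊤ := by
      apply AddSubgroup.eq_top_of_card_eq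
      rw [hCc, h5, hV]
    have h7 : z = 1 := by
      apply FaithfulSMul.eq_of_smul_eq_smul (α := V)
      intro v
      have h8 : v ∈ C := by rw [h6]; trivial
      rw [one_smul]
      exact h8
    rw [h7, orderOf_one] at hz
    exact hp.one_lt.ne hz
  have hC1 : Nat.card C = 1 := by rw [hCc, hc0, pow_zero]
  have hCbot : C = ⊥ := AddSubgroup.eq_bot_of_card_eq C hC1
  have h3 := card_fix_mod hp hz U ⊥ hU (fun u => by
    constructor
    · intro h
      have : u = 0 := (AddSubgroup.mem_bot).1 h
      subst this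
      exact ⟨U.zero_mem, smul_zero z⟩
    · rintro ⟨-, h⟩
      rw [← hCbot]
      exact h)
  rw [AddSubgroup.card_bot] at h3
  obtain ⟨j, hj, hUj⟩ := card_addSubgroup _ hV U
  rw [hUj, ← pow_zero 2] at h3
  have h4 := pow_dvd_of_dvd hp hpk (dvd_of_modEq hp hp2 (Nat.zero_le j) h3)
  rw [Nat.sub_zero] at h4
  by_cases hj0 : j = 0
  · left
    apply AddSubgroup.eq_bot_of_card_eq
    rw [hUj, hj0, pow_zero]
  · right
    apply AddSubgroup.eq_top_of_card_eq
    rw [hUj, hV]
    have h5 := Nat.le_of_dvd (Nat.pos_of_ne_zero hj0) h4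
    rw [le_antisymm hj h5]

/-- the endomorphisms which commute with `z` -/
def DD (V : Type) [AddCommGroup V] {H : Type} [Group H] [DistribMulAction H V] (z : H) :
    Subring (AddMonoid.End V) :=
  Subring.centralizer {DistribMulAction.toAddMonoidEnd H V z}

theorem mem_DD {z : H} {f : AddMonoid.End V} : f ∈ DD V z ↔ ∀ v, f (z • v) = z • f v := by
  rw [DD, Subring.mem_centralizer_iff]
  constructor
  · intro h v
    have h1 := h _ (Set.mem_singleton _)
    exact (DFunLike.congr_fun h1 v).symm
  · intro h g hg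
    rw [Set.mem_singleton_iff.1 hg]
    ext v
    exact (h v).symm

theorem isField_DD [FaithfulSMul H V] (k : ℕ) (hV : Nat.card V = 2 ^ 2 ^ (k + 1))
    {p : ℕ} (hp : p.Prime) (hpk : p ∣ 2 ^ 2 ^ k + 1) {z : H} (hz : orderOf z = p) :
    IsField (DD V z) := by
  have hfin : Finite V := Nat.finite_of_card_ne_zero (by rw [hV]; positivity)
  have hnt : Nontrivial V := by
    rw [← Finite.one_lt_card_iff_nontrivial, hV]
    exact Nat.one_lt_two_pow (by positivity)
  have hfe : Finite (AddMonoid.End V) := Finite.of_injective (fun f => (f : V → V))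
    DFunLike.coe_injective
  have hnz : NoZeroDivisors (DD V z) := by
    constructor
    rintro ⟨f, hf⟩ ⟨g, hg⟩ hfg
    by_cases hf0 : f = 0
    · left
      exact Subtype.ext hf0
    right
    have hker := irreducible_of_prime k hV hp hpk hz (AddMonoidHom.ker f) (by
      intro u hu
      have hu' : f u = 0 := hu
      have h1 : f (z • u) = 0 := by rw [mem_DD.1 hf, hu', smul_zero]
      exact h1)
    rcases hker with h1 | h1
    · apply Subtype.ext
      ext v
      have h2 : f (g v) = 0 := by
        have h3 := congrArg (fun e : DD V z => (e : AddMonoid.End V) v) hfg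
        exact h3
      have h4 : g v ∈ AddMonoidHom.ker f := h2
      rw [h1] at h4
      exact h4
    · exfalso
      apply hf0
      ext v
      have h2 : v ∈ AddMonoidHom.ker f := by rw [h1]; trivial
      exact h2
  have hntE : Nontrivial (DD V z) := by
    refine ⟨⟨0, 1, ?_⟩⟩
    intro h
    obtain ⟨v, hv⟩ := exists_ne (0 : V)
    apply hv
    have h3 := congrArg (fun e : DD V z => (e : AddMonoid.End V) v) h
    exact h3.symm
  have hdom : IsDomain (DD V z) := NoZeroDivisors.to_isDomain _
  have hfD : Finite (DD V z) := Subtype.finite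
  exact Finite.isDomain_to_isField _

/-- the centraliser of an element of prime order is cyclic -/
theorem isCyclic_centralizer [FaithfulSMul H V] [Finite H] (k : ℕ)
    (hV : Nat.card V = 2 ^ 2 ^ (k + 1))
    {p : ℕ} (hp : p.Prime) (hpk : p ∣ 2 ^ 2 ^ k + 1) {z : H} (hz : orderOf z = p) :
    IsCyclic (Subgroup.centralizer {z}) := by
  have hF := isField_DD (V := V) k hV hp hpk hz
  let _ : Field (DD V z) := hF.toField
  let f : Subgroup.centralizer {z} →* DD V z :=
    { toFun := fun h => ⟨DistribMulAction.toAddMonoidEnd H V h, by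
        rw [mem_DD]
        intro v
        have h1 := Subgroup.mem_centralizer_iff.1 h.2 z (Set.mem_singleton z)
        change (h : H) • z • v = z • (h : H) • v
        rw [← mul_smul, ← mul_smul, h1]⟩
      map_one' := by
        apply Subtype.ext
        change DistribMulAction.toAddMonoidEnd H V ((1 : Subgroup.centralizer {z}) : H) = 1
        rw [Subgroup.coe_one, map_one]
      map_mul' := by
        intro a b
        apply Subtype.ext
        change DistribMulAction.toAddMonoidEnd H V ((a * b : Subgroup.centralizer {z}) : H) =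
          DistribMulAction.toAddMonoidEnd H V a * DistribMulAction.toAddMonoidEnd H V b
        rw [Subgroup.coe_mul, map_mul] }
  refine isCyclic_of_injective_ringHom f ?_
  intro a b hab
  apply Subtype.ext
  apply FaithfulSMul.eq_of_smul_eq_smul (α := V)
  intro v
  exact congrArg (fun e : DD V z => (e : AddMonoid.End V) v) hab

/-- an element which normalises `⟨z⟩` commutes with `z` -/
theorem commute_of_normal [FaithfulSMul H V] [Finite H] (k : ℕ)
    (hV : Nat.card V = 2 ^ 2 ^ (k + 1)) (hH : Nat.card H = 2 ^ 2 ^ k + 1)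
    (h2 : ∀ x : V, x + x = 0)
    {p : ℕ} (hp : p.Prime) (hpk : p ∣ 2 ^ 2 ^ k + 1) {z : H} (hz : orderOf z = p)
    (hn : ∀ h : H, h * z * h⁻¹ ∈ Subgroup.zpowers z) (h : H) : h * z = z * h := by
  have hfin : Finite V := Nat.finite_of_card_ne_zero (by rw [hV]; positivity)
  have hnt : Nontrivial V := by
    rw [← Finite.one_lt_card_iff_nontrivial, hV]
    exact Nat.one_lt_two_pow (by positivity)
  have hfe : Finite (AddMonoid.End V) := Finite.of_injective (fun f => (f : V → V))
    DFunLike.coe_injective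
  have hfD : Finite (DD V z) := Subtype.finite
  have hF := isField_DD (V := V) k hV hp hpk hz
  let _ : Field (DD V z) := hF.toField
  have hft := Fintype.ofFinite (DD V z)
  have hchar : CharP (DD V z) 2 := by
    apply CharTwo.of_one_ne_zero_of_two_eq_zero one_ne_zero
    apply Subtype.ext
    ext v
    have h3 : ((2 : DD V z) : AddMonoid.End V) v = v + v := by
      rw [← one_add_one_eq_two]
      rfl
    rw [h3, h2]
    rfl
  -- commuting with powers of `z`
  have hcomm : ∀ f ∈ DD V z, ∀ g ∈ Subgroup.zpowers z, ∀ v, f (g • v) = g • f v := by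
    intro f hf g hg v
    have hfo : IsOfFinOrder z := isOfFinOrder_of_finite z
    rw [← hfo.mem_powers_iff_mem_zpowers] at hg
    obtain ⟨n, rfl⟩ := hg
    simp only
    induction n generalizing v with
    | zero => simp
    | succ n ih => rw [pow_succ, mul_smul, ih, mem_DD.1 hf, ← mul_smul]
  have hconj : ∀ g : H, ∀ f ∈ DD V z,
      DistribMulAction.toAddMonoidEnd H V g * f * DistribMulAction.toAddMonoidEnd H V g⁻¹ ∈
        DD V z := by
    intro g f hf
    rw [mem_DD]
    intro v
    change g • f (g⁻¹ • z • v) = z • g • f (g⁻¹ • v)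
    have h3 : g⁻¹ • z • v = (g⁻¹ * z * g) • g⁻¹ • v := by
      rw [← mul_smul, ← mul_smul]
      congr 1
      group
    have h4 : g⁻¹ * z * g ∈ Subgroup.zpowers z := by
      have := hn g⁻¹
      rwa [inv_inv] at this
    rw [h3, hcomm f hf _ h4, ← mul_smul, ← mul_smul]
    congr 1
    group
  let σ : DD V z ≃+* DD V z :=
    { toFun := fun f => ⟨_, hconj h f f.2⟩
      invFun := fun f => ⟨_, hconj h⁻¹ f f.2⟩
      left_inv := by
        intro f
        apply Subtype.ext
        ext v
        change h⁻¹ • h • (f : AddMonoid.End V) (h⁻¹ • h⁻¹⁻¹ • v) = (f : AddMonoid.End V) v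
        rw [inv_inv, inv_smul_smul, inv_smul_smul]
      right_inv := by
        intro f
        apply Subtype.ext
        ext v
        change h • h⁻¹ • (f : AddMonoid.End V) (h⁻¹⁻¹ • h⁻¹ • v) = (f : AddMonoid.End V) v
        rw [inv_inv, smul_inv_smul, smul_inv_smul]
      map_mul' := by
        intro f g
        apply Subtype.ext
        ext v
        change h • (f : AddMonoid.End V) ((g : AddMonoid.End V) (h⁻¹ • v)) =
          h • (f : AddMonoid.End V) (h⁻¹ • h • (g : AddMonoid.End V) (h⁻¹ • v))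
        rw [inv_smul_smul]
      map_add' := by
        intro f g
        apply Subtype.ext
        ext v
        change h • ((f : AddMonoid.End V) (h⁻¹ • v) + (g : AddMonoid.End V) (h⁻¹ • v)) =
          h • (f : AddMonoid.End V) (h⁻¹ • v) + h • (g : AddMonoid.End V) (h⁻¹ • v)
        rw [smul_add] }
  have hlin := linear_of_odd (K := DD V z) (V := V) k hV (DistribMulAction.toAddEquiv V h)
    (Nat.card H) (by rw [hH]; exact Even.add_one (Nat.even_pow.2 ⟨even_two, by positivity⟩)) ?_ σ ?_
    ⟨DistribMulAction.toAddMonoidEnd H V z, by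
      rw [mem_DD]
      intro v
      rfl⟩
  · apply FaithfulSMul.eq_of_smul_eq_smul (α := V)
    intro v
    rw [mul_smul, mul_smul]
    exact hlin v
  · intro x
    have h3 : ∀ n : ℕ, ∀ x : V, (DistribMulAction.toAddEquiv V h : V → V)^[n] x = h ^ n • x := by
      intro n
      induction n with
      | zero => intro x; simp
      | succ n ih =>
        intro x
        rw [Function.iterate_succ_apply', ih, pow_succ', mul_smul]
        rfl
    rw [h3, pow_card_eq_one', one_smul]
  · intro c x
    change h • (c : AddMonoid.End V) x = h • (c : AddMonoid.End V) (h⁻¹ • h • x)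
    rw [inv_smul_smul]

theorem mem_zpowers_of_pow_eq_one {C : Type} [Group C] [Finite C] [IsCyclic C] {z w : C} {p : ℕ}
    (hp : 0 < p) (hz : orderOf z = p) (hw : w ^ p = 1) : w ∈ Subgroup.zpowers z := by
  classical
  have := Fintype.ofFinite C
  have h1 := IsCyclic.card_pow_eq_one_le (α := C) hp
  have h2 : (Subgroup.zpowers z : Set C).toFinset ⊆ Finset.univ.filter (fun a : C => a ^ p = 1) := by
    intro x hx
    rw [Set.mem_toFinset] at hx
    rw [Finset.mem_filter]
    refine ⟨Finset.mem_univ _, ?_⟩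
    obtain ⟨n, rfl⟩ := Subgroup.mem_zpowers_iff.1 hx
    rw [← zpow_natCast, ← zpow_mul, mul_comm, zpow_mul, zpow_natCast, ← hz, pow_orderOf_eq_one,
      one_zpow]
  have h3 : (Subgroup.zpowers z : Set C).toFinset.card = p := by
    rw [Set.toFinset_card, ← Nat.card_eq_fintype_card]
    exact (Nat.card_zpowers z).trans hz
  have h4 := Finset.eq_of_subset_of_card_le h2 (by rw [h3]; exact h1)
  have h5 : w ∈ Finset.univ.filter (fun a : C => a ^ p = 1) := by
    rw [Finset.mem_filter]
    exact ⟨Finset.mem_univ _, hw⟩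
  rw [← h4, Set.mem_toFinset] at h5
  exact h5

end Cyc

theorem isCyclic_of_card {V : Type} [AddCommGroup V] (h2 : ∀ x : V, x + x = 0) (k : ℕ)
    (hV : Nat.card V = 2 ^ 2 ^ (k + 1)) (H : Type) [Group H] [DistribMulAction H V]
    [FaithfulSMul H V] (hH : Nat.card H = 2 ^ 2 ^ k + 1) : IsCyclic H := by
  have hfinH : Finite H := Nat.finite_of_card_ne_zero (by rw [hH]; exact Nat.succ_ne_zero _)
  have hcyc : ∀ p : ℕ, p.Prime → ∀ z : H, orderOf z = p → IsCyclic (Subgroup.centralizer {z}) := by
    intro p hp z hz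
    refine isCyclic_centralizer (V := V) k hV hp ?_ hz
    rw [← hH, ← hz]
    exact orderOf_dvd_natCard z
  have hZ : IsZGroup H := by
    refine ⟨fun p hp P => ?_⟩
    have : Fact p.Prime := ⟨hp⟩
    rcases subsingleton_or_nontrivial P with hP | hP
    · exact isCyclic_of_subsingleton
    · have h3 : Nontrivial (Subgroup.center P) := P.isPGroup'.center_nontrivial
      have h4 : IsPGroup p (Subgroup.center P) := P.isPGroup'.to_subgroup _
      have h5 : p ∣ Nat.card (Subgroup.center P) := by
        rcases h4.card_eq_or_dvd with h6 | h6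
        · exact absurd h6 (Finite.one_lt_card_iff_nontrivial.2 h3).ne'
        · exact h6
      obtain ⟨z0, hz0⟩ := exists_prime_orderOf_dvd_card' p h5
      have hz : orderOf ((z0 : P) : H) = p := by
        rw [Subgroup.orderOf_coe, Subgroup.orderOf_coe, hz0]
      have h7 := hcyc p hp _ hz
      have h8 : (P : Subgroup H) ≤ Subgroup.centralizer {((z0 : P) : H)} := by
        intro x hx
        rw [Subgroup.mem_centralizer_iff]
        intro y hy
        rw [Set.mem_singleton_iff.1 hy]
        have h9 := Subgroup.mem_center_iff.1 z0.2 ⟨x, hx⟩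
        exact (congrArg Subtype.val h9).symm
      exact Subgroup.isCyclic_of_le h8
  have hfinish : ∀ p : ℕ, p.Prime → ∀ z : H, orderOf z = p → (∀ h : H, h * z = z * h) →
      IsCyclic H := by
    intro p hp z hz hc
    have h3 := hcyc p hp z hz
    have h4 : Subgroup.centralizer {z} = ⊤ := by
      rw [eq_top_iff]
      intro x _
      rw [Subgroup.mem_centralizer_iff]
      intro y hy
      rw [Set.mem_singleton_iff.1 hy]
      exact (hc x).symm
    rw [h4] at h3
    exact isCyclic_of_injective (Subgroup.topEquiv (G := H)).symm.toMonoidHom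
      (Subgroup.topEquiv (G := H)).symm.injective
  by_cases hc : commutator H = ⊥
  · obtain ⟨p, hp, hpd⟩ := Nat.exists_prime_and_dvd (n := Nat.card H) (by
      rw [hH]
      have : 0 < 2 ^ 2 ^ k := by positivity
      omega)
    have : Fact p.Prime := ⟨hp⟩
    obtain ⟨z, hz⟩ := exists_prime_orderOf_dvd_card' p hpd
    refine hfinish p hp z hz fun h => ?_
    have h3 : h ∈ Subgroup.center H := by
      rw [(commutator_eq_bot_iff_center_eq_top H).1 hc]
      trivial
    exact (Subgroup.mem_center_iff.1 h3 z).symm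
  · have hC : IsCyclic (commutator H) := IsZGroup.isCyclic_commutator H
    have hnt : Nontrivial (commutator H) := (Subgroup.nontrivial_iff_ne_bot _).2 hc
    obtain ⟨p, hp, hpd⟩ := Nat.exists_prime_and_dvd (n := Nat.card (commutator H))
      (Finite.one_lt_card_iff_nontrivial.2 hnt).ne'
    have : Fact p.Prime := ⟨hp⟩
    obtain ⟨z0, hz0⟩ := exists_prime_orderOf_dvd_card' p hpd
    have hz : orderOf (z0 : H) = p := by rw [Subgroup.orderOf_coe, hz0]
    have hn : ∀ h : H, h * z0 * h⁻¹ ∈ Subgroup.zpowers (z0 : H) := by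
      intro h
      have h3 : h * z0 * h⁻¹ ∈ commutator H := Subgroup.Normal.conj_mem inferInstance _ z0.2 h
      have h4 : (⟨h * z0 * h⁻¹, h3⟩ : commutator H) ^ p = 1 := by
        apply Subtype.ext
        rw [Subgroup.coe_pow, Subgroup.coe_one]
        change (h * z0 * h⁻¹) ^ p = 1
        rw [conj_pow, ← hz, pow_orderOf_eq_one]
        group
      have h5 := mem_zpowers_of_pow_eq_one hp.pos hz0 h4
      obtain ⟨n, hn⟩ := Subgroup.mem_zpowers_iff.1 h5
      refine Subgroup.mem_zpowers_iff.2 ⟨n, ?_⟩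
      have h6 := congrArg Subtype.val hn
      rw [Subgroup.coe_zpow] at h6
      exact h6
    refine hfinish p hp _ hz fun h => ?_
    refine commute_of_normal (V := V) k hV hH h2 hp ?_ hz hn h
    rw [← hH, ← hz]
    exact orderOf_dvd_natCard _

end Pool.Agent.Lib.CPlane
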