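import Pool.Agent.Lib.CPlane.Plane
import Pool.Agent.Lib.CPlane.IT1
import Pool.Agent.Lib.CPlane.IT4
import Pool.Agent.Lib.CPlane.IT5
import Pool.Agent.Lib.CPlane.IT6
import Pool.Agent.Lib.CPlane.Cyc

/-!
# The intrinsic theorem: assembly
-/

namespace Pool.Agent.Lib.CPlane

open Module

namespace IT8

variable {P : Type} {n : ℕ}

/-- the order of the stabiliser of a point -/
theorem card_stab {A : AffinePlane P n} {G : Subgroup (Equiv.Perm P)} (hn2 : 2 ≤ n)
    (hG : IsCollineationGroup A G) (hflag : SharplyFlagTransitive A G) (o : P)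
    (S : Subgroup (Equiv.Perm P)) (hS : ∀ g, g ∈ S ↔ g ∈ G ∧ g o = o) :
    Nat.card S = n + 1 := by
  classical
  rw [← ncard_pencil A hn2 o, ← Nat.card_coe_set_eq]
  have h1 : {L | L ∈ A.lines ∧ o ∈ L}.Nonempty := by
    have h := ncard_pencil A hn2 o
    rw [← Set.ncard_pos (Set.finite_of_ncard_pos (by omega)), h]
    omega
  obtain ⟨L₀, hL₀, hoL₀⟩ := h1
  refine Nat.card_congr (Equiv.ofBijective (fun h : S => (⟨((h : Equiv.Perm P) : P → P) '' L₀,
    hG _ ((hS _).1 h.2).1 _ hL₀, ⟨o, hoL₀, ((hS _).1 h.2).2⟩⟩ :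
      {L | L ∈ A.lines ∧ o ∈ L})) ⟨?_, ?_⟩)
  · intro h h' hhh
    have h2 : ((h : Equiv.Perm P) : P → P) '' L₀ = ((h' : Equiv.Perm P) : P → P) '' L₀ :=
      congrArg Subtype.val hhh
    have hh := (hS _).1 h.2
    have hh' := (hS _).1 h'.2
    obtain ⟨γ, -, hγ⟩ := hflag o L₀ hL₀ hoL₀ o
      (((h' : Equiv.Perm P) : P → P) '' L₀) (hG _ hh'.1 _ hL₀) ⟨o, hoL₀, hh'.2⟩
    exact Subtype.ext ((hγ _ ⟨hh.1, hh.2, h2⟩).trans (hγ _ ⟨hh'.1, hh'.2, rfl⟩).symm)
  · rintro ⟨L, hL, hoL⟩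
    obtain ⟨γ, ⟨h1, h2, h3⟩, -⟩ := hflag o L₀ hL₀ hoL₀ o L hL hoL
    exact ⟨⟨γ, (hS γ).2 ⟨h1, h2⟩⟩, Subtype.ext h3⟩

/-- the model: the stabiliser of `0` consists of linear maps -/
theorem model_aux (K : Type) {V : Type} [Field K] [Fintype K] [CharP K 2] [AddCommGroup V]
    [Module K V] {n a m : ℕ} (hm : m = 2 ^ a) (hs : 4 ≤ Fintype.card K)
    (hn : n = Fintype.card K ^ m) (A : AffinePlane V n)
    (htrans : ∀ L ∈ A.lines, ∀ v : V, (fun x => v + x) '' L ∈ A.lines)
    (hker : ∀ L ∈ A.lines, (0 : V) ∈ L → ∃ U : Submodule K V, (U : Set V) = L)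
    (G : Subgroup (Equiv.Perm V)) (hG : IsCollineationGroup A G)
    (hflag : SharplyFlagTransitive A G)
    (hlin : ∀ h ∈ G, h 0 = 0 → ∃ φ : V ≃ₗ[K] V, φ.toEquiv = h) :
    Desarguesian A := by
  classical
  subst hn
  have hm0 : 0 < m := by rw [hm]; positivity
  have hne : NeZero m := ⟨by omega⟩
  have hK1 : 1 < Fintype.card K := Fintype.one_lt_card
  have hq2 : 2 ≤ Fintype.card K ^ m := le_trans hK1 (Nat.le_self_pow (by omega) _)
  have hVfin : Finite V := by
    apply Nat.finite_of_card_ne_zero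
    rw [A.card_points]
    positivity
  have := Fintype.ofFinite V
  have hfd : FiniteDimensional K V := Module.Finite.of_finite
  have hV : finrank K V = 2 * m := by
    have h1 := Module.card_eq_pow_finrank (K := K) (V := V)
    have h2 := A.card_points
    rw [Nat.card_eq_fintype_card, h1, ← pow_mul, mul_comm m 2] at h2
    exact Nat.pow_right_injective hK1 h2
  let θ : (V ≃ₗ[K] V) →* Equiv.Perm V :=
    { toFun := fun h => h.toEquiv
      map_one' := rfl
      map_mul' := fun _ _ => rfl }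
  have hθinj : Function.Injective θ := by
    intro h h' hhh
    exact LinearEquiv.toEquiv_injective hhh
  let G₀ : Subgroup (V ≃ₗ[K] V) := G.comap θ
  have hG₀ : ∀ φ : V ≃ₗ[K] V, φ ∈ G₀ ↔ θ φ ∈ G := fun _ => Iff.rfl
  let S : Subgroup (Equiv.Perm V) := G ⊓ MulAction.stabilizer (Equiv.Perm V) (0 : V)
  have hS : ∀ h : Equiv.Perm V, h ∈ S ↔ h ∈ G ∧ h 0 = 0 := by
    intro h
    simp [S, Subgroup.mem_inf, MulAction.mem_stabilizer_iff]
  have hcardG₀ : Nat.card G₀ = Fintype.card K ^ m + 1 := by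
    rw [← card_stab hq2 hG hflag 0 S hS]
    refine Nat.card_congr (Equiv.ofBijective (fun φ : G₀ => (⟨θ φ, (hS _).2
      ⟨φ.2, map_zero (φ : V ≃ₗ[K] V)⟩⟩ : S)) ⟨?_, ?_⟩)
    · intro φ φ' h
      exact Subtype.ext (hθinj (congrArg Subtype.val h))
    · rintro ⟨h, hh⟩
      obtain ⟨h1, h2⟩ := (hS h).1 hh
      obtain ⟨φ, hφ⟩ := hlin h h1 h2
      exact ⟨⟨φ, by rw [hG₀]; change φ.toEquiv ∈ G; rw [hφ]; exact h1⟩, Subtype.ext hφ⟩
  have hfree : ∀ φ ∈ G₀, ∀ v : V, v ≠ 0 → φ v = v → φ = 1 := by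
    intro φ hφ v hv hφv
    obtain ⟨L, ⟨hL, h0L, hvL⟩, hu⟩ := A.join 0 v hv.symm
    have h1 : (θ φ : V → V) '' L = L :=
      hu _ ⟨hG _ hφ L hL, ⟨0, h0L, map_zero φ⟩, ⟨v, hvL, hφv⟩⟩
    apply hθinj
    rw [map_one]
    exact eq_one_of_flag hflag hφ hL h0L (map_zero φ) h1
  obtain ⟨g, hg, hgen⟩ := cyclic_of_linear K hm hV G₀ hcardG₀ hfree
  refine plane_aux K hm hs A htrans hker G hG hflag ⟨g, hg, ?_⟩
  intro h hh h0
  obtain ⟨φ, hφ⟩ := hlin h hh h0
  obtain ⟨k, hk⟩ := hgen φ (by rw [hG₀]; change φ.toEquiv ∈ G; rw [hφ]; exact hh)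
  refine ⟨k, ?_⟩
  change (θ g) ^ k = h
  rw [← hφ, ← map_zpow]
  exact congrArg θ hk

/-- transport: the group on the model -/
theorem transport {V : Type} {A : AffinePlane P n} {G : Subgroup (Equiv.Perm P)}
    (hG : IsCollineationGroup A G) (hflag : SharplyFlagTransitive A G)
    (e : V ≃ P) (A' : AffinePlane V n) (he : ∀ M : Set V, M ∈ A'.lines ↔ e '' M ∈ A.lines) :
    ∃ G' : Subgroup (Equiv.Perm V), IsCollineationGroup A' G' ∧ SharplyFlagTransitive A' G' ∧
      ∀ h ∈ G', ∃ g ∈ G, ∀ x, e (h x) = g (e x) := by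
  classical
  have himg : ∀ (h : Equiv.Perm V) (M : Set V),
      e '' ((h : V → V) '' M) = ((e.permCongr h : Equiv.Perm P) : P → P) '' (e '' M) := by
    intro h M
    rw [Set.image_image, Set.image_image]
    refine Set.image_congr fun x _ => ?_
    simp
  have hsymm : ∀ M : Set P, e '' (e.symm '' M) = M := by
    intro M
    rw [Set.image_image]
    simp
  have hinj : ∀ M N : Set V, e '' M = e '' N → M = N := fun M N h =>
    (Set.image_injective.2 e.injective) h
  let G' : Subgroup (Equiv.Perm V) := G.comap e.permCongrHom.toMonoidHom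
  have hG' : ∀ h, h ∈ G' ↔ e.permCongr h ∈ G := fun _ => Iff.rfl
  refine ⟨G', ?_, ?_, ?_⟩
  · intro h hh M hM
    rw [he, himg]
    exact hG _ hh _ ((he M).1 hM)
  · intro p L hL hp q M hM hq
    obtain ⟨γ, ⟨h1, h2, h3⟩, hu⟩ := hflag (e p) (e '' L) ((he L).1 hL) ⟨p, hp, rfl⟩ (e q)
      (e '' M) ((he M).1 hM) ⟨q, hq, rfl⟩
    have h4 : e.permCongr (e.symm.permCongr γ) = γ := by
      ext x
      simp
    refine ⟨e.symm.permCongr γ, ⟨?_, ?_, ?_⟩, ?_⟩
    · rw [hG', h4]
      exact h1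
    · simp [Equiv.permCongr_apply, h2]
    · apply hinj
      rw [himg, h4]
      exact h3
    · rintro h ⟨hh, hpq, hLM⟩
      apply e.permCongr.injective
      rw [h4]
      refine hu _ ⟨hh, ?_, ?_⟩
      · simp [Equiv.permCongr_apply, hpq]
      · rw [← himg, hLM]
  · intro h hh
    exact ⟨e.permCongr h, hh, fun x => by simp [Equiv.permCongr_apply]⟩

/-- transport of the conclusion -/
theorem desarguesian_of_equiv {V : Type} {A : AffinePlane P n} (e : V ≃ P)
    (A' : AffinePlane V n) (he : ∀ M : Set V, M ∈ A'.lines ↔ e '' M ∈ A.lines)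
    (h : Desarguesian A') : Desarguesian A := by
  obtain ⟨F, hF, ε, hcard, hε⟩ := h
  refine ⟨F, hF, e.symm.trans ε, hcard, ?_⟩
  intro L
  have h1 : e '' (e.symm '' L) = L := by
    rw [Set.image_image]
    simp
  have h2 := he (e.symm '' L)
  rw [h1] at h2
  rw [← h2, hε, Set.image_image]
  rfl

end IT8

open IT8

/-- **The theorem.** -/
theorem intrinsic {P : Type} {n : ℕ} (A : AffinePlane P n) (G : Subgroup (Equiv.Perm P))
    (hG : IsCollineationGroup A G) (hflag : SharplyFlagTransitive A G) (o : P)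
    (hδ : ∃ δ, IsHom A o δ ∧ δ ≠ 1)
    (h : (∃ k, n = 2 ^ 2 ^ k) ∨
      (Even n ∧ (∃ a, n = ({δ | IsHom A o δ}.ncard + 1) ^ 2 ^ a) ∧
        ∀ g ∈ G, g o = o → ∀ δ, IsHom A o δ → g * δ = δ * g)) :
    Desarguesian A := by
  classical
  have hn2 : 2 ≤ n := by
    rcases h with ⟨k, rfl⟩ | ⟨he, ⟨a, ha⟩, -⟩
    · exact le_trans (by norm_num) (Nat.pow_le_pow_right (by norm_num) (Nat.one_le_two_pow :
        1 ≤ 2 ^ k))
    · have h1 : 0 < n := by rw [ha]; positivity
      obtain ⟨r, hr⟩ := he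
      omega
  have hneven : Even n := by
    rcases h with ⟨k, rfl⟩ | ⟨he, -, -⟩
    · exact even_two.pow_of_ne_zero (by positivity)
    · exact he
  obtain ⟨V, hVg, e, A', he0, h2, he, htrans, hsub, hlift⟩ := exists_model hneven hn2 hG hflag o
  obtain ⟨K, hK, hKf, hVm, hchar, hker, hhom, hsemi⟩ := exists_kernel A' hn2 h2 htrans hsub
  obtain ⟨G', hG', hflag', hGG'⟩ := transport hG hflag e A' he
  refine desarguesian_of_equiv e A' he ?_
  have hVfin : Finite V := A'.finite hn2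
  have := Fintype.ofFinite V
  have hfd : FiniteDimensional K V := Module.Finite.of_finite
  have hK1 : 1 < Fintype.card K := Fintype.one_lt_card
  -- `n = |K| ^ m`
  obtain ⟨L₀, hL₀, h0L₀⟩ : ∃ L ∈ A'.lines, (0 : V) ∈ L := by
    have h := ncard_pencil A' hn2 0
    have h1 : {L | L ∈ A'.lines ∧ (0 : V) ∈ L}.Nonempty := by
      rw [← Set.ncard_pos (Set.finite_of_ncard_pos (by omega)), h]
      omega
    exact h1
  obtain ⟨U₀, hU₀⟩ := hker L₀ hL₀ h0L₀
  set m := finrank K U₀ with hm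
  have hnm : n = Fintype.card K ^ m := by
    have h1 := A'.card_line _ hL₀
    have h3 : L₀.ncard = Fintype.card U₀ := by
      rw [← hU₀, ← Nat.card_eq_fintype_card]
      rfl
    rw [← h1, h3, Module.card_eq_pow_finrank (K := K)]
  -- the homologies with centre `o` are the multiplications by the elements of `K`
  have hfixo : ∀ δ, IsHom A o δ → δ o = o := by
    intro δ hδ
    by_contra hne
    obtain ⟨N, ⟨hN, hoN, hδN⟩, hu⟩ := A.join o (δ o) (Ne.symm hne)
    have h1 := ncard_pencil A hn2 o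
    have h2 : {L | L ∈ A.lines ∧ o ∈ L} ⊆ {N} := by
      rintro M ⟨hM, hoM⟩
      refine hu M ⟨hM, hoM, ?_⟩
      have h3 := hδ.2 M hM hoM
      rw [← h3]
      exact ⟨o, hoM, rfl⟩
    have h3 := Set.ncard_le_ncard h2 (Set.finite_singleton N)
    rw [h1, Set.ncard_singleton] at h3
    omega
  have hlines0 : ∀ L ∈ A'.lines, (0 : V) ∈ L → e '' L ∈ A.lines ∧ o ∈ e '' L := by
    intro L hL h0
    exact ⟨(he L).1 hL, ⟨0, h0, he0⟩⟩
  have hscal : ∀ δ, IsHom A o δ → ∃ k : K, k ≠ 0 ∧ ∀ x, e (k • x) = δ (e x) := by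
    intro δ hδ
    obtain ⟨φ, hφ⟩ := hlift δ hδ.1 (hfixo δ hδ)
    obtain ⟨k, hk⟩ := hhom φ.toAddMonoidHom (by
      intro L hL h0 x hx
      obtain ⟨h1, h2⟩ := hlines0 L hL h0
      have h3 := hδ.2 _ h1 h2
      have h4 : e (φ x) ∈ e '' L := by
        rw [hφ, ← h3]
        exact ⟨e x, ⟨x, hx, rfl⟩, rfl⟩
      obtain ⟨y, hy, hyx⟩ := h4
      have h5 : y = φ x := e.injective hyx
      change φ x ∈ L
      rw [← h5]
      exact hy)
    have hk' : ∀ x, φ x = k • x := hk
    refine ⟨k, ?_, fun x => by rw [← hk', hφ]⟩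
    rintro rfl
    obtain ⟨x, hx⟩ : ∃ x : V, x ≠ 0 := by
      by_contra hcon
      push Not at hcon
      have h1 : Nat.card V = 1 := Nat.card_eq_one_iff_exists.2 ⟨0, hcon⟩
      rw [A'.card_points] at h1
      nlinarith
    have h1 := hk' x
    rw [zero_smul] at h1
    exact hx ((AddEquiv.map_eq_zero_iff φ).1 h1)
  have hscal' : ∀ k : K, k ≠ 0 → ∃ δ, IsHom A o δ ∧ ∀ x, e (k • x) = δ (e x) := by
    intro k hk
    let δ' : Equiv.Perm V := (LinearEquiv.smulOfNeZero K V k hk).toEquiv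
    have hδ' : ∀ x, δ' x = k • x := fun _ => rfl
    have hδ0 : ∀ L ∈ A'.lines, (0 : V) ∈ L → (δ' : V → V) '' L = L := by
      intro L hL h0
      obtain ⟨U, hU⟩ := hker L hL h0
      rw [← hU]
      ext x
      constructor
      · rintro ⟨y, hy, rfl⟩
        exact U.smul_mem k hy
      · intro hx
        refine ⟨k⁻¹ • x, U.smul_mem _ hx, ?_⟩
        rw [hδ', smul_inv_smul₀ hk]
    have hδL : ∀ L ∈ A'.lines, (δ' : V → V) '' L ∈ A'.lines := by
      intro L hL
      have hne : L.Nonempty := by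
        rw [← Set.ncard_pos (Set.toFinite _), A'.card_line L hL]
        omega
      obtain ⟨p, hp⟩ := hne
      have h1 := htrans L hL (-p)
      have h3 := hδ0 _ h1 ⟨p, hp, neg_add_cancel p⟩
      have h4 : (δ' : V → V) '' L = (fun x => k • p + x) '' ((fun x => -p + x) '' L) := by
        rw [← h3, Set.image_image, Set.image_image]
        refine Set.image_congr fun x _ => ?_
        rw [hδ', hδ', smul_add, smul_neg, add_neg_cancel_left]
      rw [h4]
      exact htrans _ h1 _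
    have himg : ∀ M : Set V,
        e '' ((δ' : V → V) '' M) = ((e.permCongr δ' : Equiv.Perm P) : P → P) '' (e '' M) := by
      intro M
      rw [Set.image_image, Set.image_image]
      refine Set.image_congr fun x _ => ?_
      simp
    have hsymm : ∀ M : Set P, e '' (e.symm '' M) = M := by
      intro M
      rw [Set.image_image]
      simp
    refine ⟨e.permCongr δ', ⟨?_, ?_⟩, ?_⟩
    · intro L hL
      rw [← hsymm L] at hL ⊢
      rw [← himg, ← he]
      exact hδL _ ((he _).2 hL)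
    · intro L hL hoL
      rw [← hsymm L] at hL ⊢
      rw [← himg, hδ0 _ ((he _).2 hL) ⟨o, hoL, by rw [← he0, Equiv.symm_apply_apply]⟩]
    · intro x
      simp [Equiv.permCongr_apply, hδ']
  -- the number of homologies
  have hVnt : ∃ x : V, x ≠ 0 := by
    by_contra hcon
    push Not at hcon
    have h1 : Nat.card V = 1 := Nat.card_eq_one_iff_exists.2 ⟨0, hcon⟩
    rw [A'.card_points] at h1
    nlinarith
  have hcardK : {δ | IsHom A o δ}.ncard + 1 = Fintype.card K := by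
    choose! f hf0 hf using hscal
    have h1 : {δ | IsHom A o δ}.ncard = ({k : K | k ≠ 0} : Set K).ncard := by
      refine Set.ncard_congr (fun δ _ => f δ) (fun δ hδ => hf0 δ hδ) ?_ ?_
      · intro δ δ' hδ hδ' hff
        ext x
        obtain ⟨y, rfl⟩ := e.surjective x
        rw [← hf δ hδ, ← hf δ' hδ', hff]
      · intro k hk
        obtain ⟨δ, hδ, hδk⟩ := hscal' k hk
        refine ⟨δ, hδ, ?_⟩
        obtain ⟨x, hx⟩ := hVnt
        have h2 : f δ • x = k • x := e.injective (by rw [hf δ hδ, hδk])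
        have h3 : (f δ - k) • x = 0 := by rw [sub_smul, h2, sub_self]
        rcases smul_eq_zero.1 h3 with h4 | h4
        · exact sub_eq_zero.1 h4
        · exact absurd h4 hx
    have h2 : ({k : K | k ≠ 0} : Set K) = {0}ᶜ := rfl
    rw [h1, h2, Set.ncard_compl, Set.ncard_singleton, Nat.card_eq_fintype_card]
    omega
  -- `|K| ≥ 4`
  have hK4 : 4 ≤ Fintype.card K := by
    obtain ⟨δ, hδ, hδ1⟩ := hδ
    obtain ⟨k, hk0, hk⟩ := hscal δ hδ
    have hk1 : k ≠ 1 := by
      rintro rfl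
      apply hδ1
      ext x
      obtain ⟨y, rfl⟩ := e.surjective x
      rw [← hk, one_smul]
      rfl
    have h3 : 3 ≤ Fintype.card K := by
      have h4 : ({0, 1, k} : Finset K).card = 3 := by
        rw [Finset.card_eq_three]
        exact ⟨0, 1, k, zero_ne_one, hk0.symm, hk1.symm, rfl⟩
      rw [← h4]
      exact Finset.card_le_univ _
    obtain ⟨r, -, hr⟩ := FiniteField.card K 2
    rw [hr] at h3 ⊢
    have h5 : 2 ≤ (r : ℕ) := by
      by_contra hcon
      have h6 : (r : ℕ) = 1 := by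
        have := r.pos
        omega
      rw [h6] at h3
      omega
    calc 4 = 2 ^ 2 := by norm_num
      _ ≤ 2 ^ (r : ℕ) := Nat.pow_le_pow_right (by norm_num) h5
  -- elements of `G'`
  have hfun : ∀ h' ∈ G', h' 0 = 0 → ∃ g ∈ G, g o = o ∧ ∃ φ : V ≃+ V,
      (∀ x, φ x = h' x) ∧ ∀ x, e (φ x) = g (e x) := by
    intro h' hh' h0
    obtain ⟨g, hg, hge⟩ := hGG' h' hh'
    have hgo : g o = o := by
      rw [← he0, ← hge, h0]
    obtain ⟨φ, hφ⟩ := hlift g (hG g hg) hgo
    refine ⟨g, hg, hgo, φ, fun x => ?_, hφ⟩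
    apply e.injective
    rw [hφ, hge]
  have hodd : Odd (n + 1) := hneven.add_one
  rcases h with ⟨k, hk⟩ | ⟨-, ⟨a, ha⟩, hcomm⟩
  · -- order `2 ^ 2 ^ k`
    have hcardV : Nat.card V = 2 ^ 2 ^ (k + 1) := by
      rw [A'.card_points, hk, ← pow_mul, pow_succ]
    obtain ⟨i, -, hi⟩ := card_kernel (K := K) k hcardV
    have hm' : ∃ a, m = 2 ^ a := by
      have h1 : 2 ^ 2 ^ k = 2 ^ (2 ^ i * m) := by
        rw [pow_mul, ← hi, ← hk, hnm]
      have h2 : 2 ^ k = 2 ^ i * m := Nat.pow_right_injective (le_refl 2) h1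
      have h3 : m ∣ 2 ^ k := ⟨2 ^ i, by rw [h2, mul_comm]⟩
      obtain ⟨a, -, ha⟩ := (Nat.dvd_prime_pow Nat.prime_two).1 h3
      exact ⟨a, ha⟩
    obtain ⟨a, ha⟩ := hm'
    let S : Subgroup (Equiv.Perm V) := G' ⊓ MulAction.stabilizer (Equiv.Perm V) (0 : V)
    have hS : ∀ h : Equiv.Perm V, h ∈ S ↔ h ∈ G' ∧ h 0 = 0 := by
      intro h
      simp [S, Subgroup.mem_inf, MulAction.mem_stabilizer_iff]
    have hcardS := card_stab hn2 hG' hflag' 0 S hS
    refine model_aux K ha hK4 hnm A' htrans hker G' hG' hflag' ?_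
    intro h' hh' h0
    obtain ⟨g, hg, hgo, φ, hφh, hφg⟩ := hfun h' hh' h0
    obtain ⟨σ, hσ⟩ := hsemi φ (by
      intro L hL
      have h1 : φ '' L = (h' : V → V) '' L := Set.image_congr fun x _ => hφh x
      rw [h1]
      exact hG' _ hh' L hL)
    have hlin := linear_of_odd k hcardV φ (n + 1) hodd (by
      intro x
      have h1 : (⟨h', (hS _).2 ⟨hh', h0⟩⟩ : S) ^ (n + 1) = 1 := by
        rw [← hcardS]
        exact pow_card_eq_one'
      have h2 : h' ^ (n + 1) = 1 := congrArg Subtype.val h1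
      have h3 : (φ : V → V) = (h' : V → V) := funext hφh
      rw [h3, ← Equiv.Perm.coe_pow, h2]
      rfl) σ hσ
    exact ⟨{ h' with
      map_add' := fun x y => by
        change h' (x + y) = h' x + h' y
        rw [← hφh, ← hφh, ← hφh, map_add]
      map_smul' := fun c x => by
        change h' (c • x) = c • h' x
        rw [← hφh, ← hφh, hlin] }, rfl⟩
  · -- order `s ^ 2 ^ a`
    have hm' : m = 2 ^ a := by
      rw [hcardK, hnm] at ha
      exact Nat.pow_right_injective hK1 ha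
    refine model_aux K hm' hK4 hnm A' htrans hker G' hG' hflag' ?_
    intro h' hh' h0
    obtain ⟨g, hg, hgo, φ, hφh, hφg⟩ := hfun h' hh' h0
    have hlin : ∀ (c : K) (x : V), φ (c • x) = c • φ x := by
      intro c x
      by_cases hc : c = 0
      · rw [hc, zero_smul, zero_smul, map_zero]
      obtain ⟨δ, hδ, hδc⟩ := hscal' c hc
      apply e.injective
      rw [hφg, hδc, hδc, hφg]
      have h1 := hcomm g hg hgo δ hδ
      exact DFunLike.congr_fun h1 (e x)
    exact ⟨{ h' with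
      map_add' := fun x y => by
        change h' (x + y) = h' x + h' y
        rw [← hφh, ← hφh, ← hφh, map_add]
      map_smul' := fun c x => by
        change h' (c • x) = c • h' x
        rw [← hφh, ← hφh, hlin] }, rfl⟩

end Pool.Agent.Lib.CPlane
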