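import Pool.Agent.Lib.CPlane.AO5
import Pool.Agent.Lib.CPlane.AO5c
import Pool.Agent.Lib.CPlane.IT8
import Pool.Agent.Lib.CPlane.AOStat

/-!
# Row A5: the planes of order eight
-/

namespace Pool.Agent.Lib.CPlane.AO

open Module

namespace E5

theorem finish {V : Type} [AddCommGroup V] (A : AffinePlane V 8) (h2 : ∀ x : V, x + x = 0)
    (htrans : ∀ L ∈ A.lines, ∀ v : V, (fun x => v + x) '' L ∈ A.lines)
    (hsub : ∀ L ∈ A.lines, (0 : V) ∈ L → ∃ U : AddSubgroup V, (U : Set V) = L)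
    (rho : V ≃+ V) (U : AddSubgroup V) (hU : (U : Set V) ∈ A.lines)
    (hrho : ∀ x, rho (rho (rho (rho (rho (rho x))))) + rho (rho (rho x)) + x = 0)
    (hdisj : ∀ i, 1 ≤ i → i ≤ 8 → ∀ s ∈ U, (rho^[i]) s ∈ U → s = 0)
    (hall : ∀ L ∈ A.lines, (0 : V) ∈ L → ∃ i, L = rho^[i] '' (U : Set V)) : Desarguesian A := by
  classical
  have hV : Nat.card V = 64 := by
    rw [A.card_points]
    norm_num
  have hUc : Nat.card U = 8 := A.card_line _ hU
  obtain ⟨N, hN3, hNU⟩ := a5b V rho U h2 hV hUc hrho hdisj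
  obtain ⟨K, hK, hKf, hVm, hchar, hker, hhom, -⟩ := exists_kernel A (by norm_num) h2 htrans hsub
  have hVfin : Finite V := finite_points A (by norm_num)
  have := Fintype.ofFinite V
  obtain ⟨k, hk⟩ := hhom N (fun L hL h0 x hx => by
    obtain ⟨i, rfl⟩ := hall L hL h0
    obtain ⟨s, hs, rfl⟩ := hx
    obtain ⟨t, ht, h⟩ := hNU i s hs
    exact ⟨t, ht, h.symm⟩)
  have hnt : Nontrivial V := Finite.one_lt_card_iff_nontrivial.1 (by rw [hV]; norm_num)
  obtain ⟨v, hv⟩ := exists_ne (0 : V)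
  have hk3 : k * (k * k) + k + 1 = 0 := by
    by_contra hne
    have h3 : (k * (k * k) + k + 1) • v = 0 := by
      rw [add_smul, add_smul, one_smul, mul_smul, mul_smul, ← hk, ← hk, ← hk]
      exact hN3 v
    exact hv ((smul_eq_zero.1 h3).resolve_left hne)
  obtain ⟨W, hW⟩ := hker _ hU U.zero_mem
  have hW8 : Fintype.card K ^ finrank K W = 8 := by
    have : Fintype W := Fintype.ofFinite _
    rw [← Module.card_eq_pow_finrank (K := K), ← Nat.card_eq_fintype_card, ← hUc]
    exact Nat.card_congr (Equiv.setCongr hW)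
  have hK2 : Fintype.card K ≠ 2 := by
    intro hc
    have h4 := FiniteField.pow_card k
    rw [hc] at h4
    have h5 : k * (k - 1) = 0 := by linear_combination h4
    rcases mul_eq_zero.1 h5 with h6 | h6
    · rw [h6] at hk3
      simp at hk3
    · have h7 : k = 1 := sub_eq_zero.1 h6
      rw [h7] at hk3
      have h8 : (1 : K) + 1 = 0 := CharTwo.add_self_eq_zero 1
      rw [one_mul, one_mul, h8, zero_add] at hk3
      exact one_ne_zero hk3
  have hK1 : 1 < Fintype.card K := Fintype.one_lt_card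
  have hK8 : Nat.card K = 8 := by
    rw [Nat.card_eq_fintype_card]
    have h9 : Fintype.card K ≤ 8 := by
      rw [← hW8]
      refine Nat.le_self_pow ?_ _
      intro h0
      rw [h0] at hW8
      norm_num at hW8
    have h10 : finrank K W ≤ 3 := by
      by_contra h11
      have h12 : 2 ^ 4 ≤ Fintype.card K ^ finrank K W :=
        (Nat.pow_le_pow_left (by omega) 4).trans (Nat.pow_le_pow_right (by omega) (by omega))
      omega
    generalize finrank K W = m at *
    generalize Fintype.card K = q at *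
    interval_cases q <;> interval_cases m <;> simp_all
  exact desarguesian_of_kernel K A (by norm_num) hK8 htrans hker

/-- an element of order nine -/
theorem exists_nine {V : Type} [AddCommGroup V] [Nontrivial V] (h2 : ∀ x : V, x + x = 0)
    (H : Subgroup (Equiv.Perm V)) (hcard : Nat.card H = 9)
    (hadd : ∀ h ∈ H, ∀ x y, h (x + y) = h x + h y)
    (hfree : ∀ h ∈ H, ∀ v, v ≠ 0 → h v = v → h = 1) :
    ∃ h : H, orderOf h = 9 ∧ ∀ x, h.1 (h.1 (h.1 (h.1 (h.1 (h.1 x))))) + h.1 (h.1 (h.1 x)) + x = 0 := by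
  have : Fact (Nat.Prime 3) := ⟨Nat.prime_three⟩
  have hfin : Finite H := Nat.finite_of_card_ne_zero (by rw [hcard]; norm_num)
  have hz : ∀ h ∈ H, h 0 = 0 := by
    intro h hh
    have h1 := hadd h hh 0 0
    rw [add_zero] at h1
    exact left_eq_add.1 h1
  -- the relation for elements of order three
  have key : ∀ h ∈ H, h * h * h = 1 → h ≠ 1 → ∀ v, v + h v = h (h v) := by
    intro h hh h3 hne v
    have h4 : h (v + h v + h (h v)) = v + h v + h (h v) := by
      rw [hadd h hh, hadd h hh]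
      have h5 : h (h (h v)) = v := Equiv.congr_fun h3 v
      rw [h5]
      abel
    have h6 : v + h v + h (h v) = 0 := by
      by_contra h7
      exact hne (hfree h hh _ h7 h4)
    have h8 := eq_neg_of_add_eq_zero_left h6
    rw [h8]
    exact neg_eq_of_add_eq_zero_left (h2 _)
  have hnine : ∃ h : H, orderOf h = 9 := by
    by_contra hcon
    push Not at hcon
    have h3 : ∀ h : H, h * h * h = 1 := by
      intro h
      have h4 : orderOf h ∣ 3 ^ 2 := by
        have := orderOf_dvd_natCard h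
        rwa [hcard] at this
      obtain ⟨k, hk, hk'⟩ := (Nat.dvd_prime_pow Nat.prime_three).1 h4
      have h5 : k ≤ 1 := by
        by_contra h6
        have h7 : k = 2 := by omega
        subst h7
        exact hcon h (by rw [hk']; norm_num)
      have h6 : h ^ 3 = 1 := by
        apply orderOf_dvd_iff_pow_eq_one.1
        rw [hk']
        calc 3 ^ k ∣ 3 ^ 1 := pow_dvd_pow 3 h5
          _ = 3 := by norm_num
      rw [← h6, pow_three']
    have hcomm : ∀ a b : H, a * b = b * a :=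
      (IsPGroup.isMulCommutative_of_card_eq_prime_sq (p := 3) (by rw [hcard]; norm_num)).is_comm.comm
    -- two elements
    have hnt : Nontrivial H := Finite.one_lt_card_iff_nontrivial.1 (by rw [hcard]; norm_num)
    obtain ⟨g, hg⟩ := exists_ne (1 : H)
    obtain ⟨h, hh⟩ : ∃ h : H, h ∉ ({1, g, g * g} : Set H) := by
      by_contra hcon2
      push Not at hcon2
      have h5 : (Set.univ : Set H) ⊆ {1, g, g * g} := fun x _ => hcon2 x
      have h6 := Set.ncard_le_ncard h5 (Set.toFinite _)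
      rw [Set.ncard_univ, hcard] at h6
      have h7 : ({1, g, g * g} : Set H).ncard ≤ 3 := by
        have h8 := Set.ncard_insert_le (1 : H) {g, g * g}
        have h9 := Set.ncard_insert_le g {g * g}
        rw [Set.ncard_singleton] at h9
        omega
      omega
    simp only [Set.mem_insert_iff, Set.mem_singleton_iff, not_or] at hh
    obtain ⟨hh1, hhg, hhgg⟩ := hh
    have hgh : g * h ≠ 1 := by
      intro h5
      apply hhgg
      have h6 : g * g * g = 1 := h3 g
      calc h = g * g * g * h := by rw [h6, one_mul]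
        _ = g * g * (g * h) := by group
        _ = g * g := by rw [h5, mul_one]
    have hcoe : ∀ a : H, a ≠ 1 → (a : Equiv.Perm V) ≠ 1 := fun a ha h5 => ha (Subtype.ext h5)
    have hcoe3 : ∀ a : H, (a : Equiv.Perm V) * a * a = 1 := fun a => congrArg Subtype.val (h3 a)
    apply hhg
    apply Subtype.ext
    ext v
    have e1 := key g.1 g.2 (hcoe3 g) (hcoe g hg) (h.1 (h.1 v))
    have e2 := key h.1 h.2 (hcoe3 h) (hcoe h hh1) v
    have e3 := key (g * h).1 (g * h).2 (hcoe3 _) (hcoe _ hgh) v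
    have e4 : g.1 (g.1 (h.1 (h.1 v))) = (g * h).1 ((g * h).1 v) := by
      have h5 : g * g * h * h = (g * h) * (g * h) := by
        rw [mul_assoc g h, ← mul_assoc h g, hcomm h g]
        group
      exact Equiv.congr_fun (congrArg Subtype.val h5) v
    have e5 : (g * h).1 v = g.1 (h.1 v) := rfl
    rw [e4, ← e3, e5, ← e2, hadd g.1 g.2] at e1
    -- e1 : v + h v + (g v + g (h v)) = v + g (h v)
    have e6 : h.1 v + g.1 v = 0 := by
      have e7 : v + h.1 v + (g.1 v + g.1 (h.1 v)) = (v + g.1 (h.1 v)) + (h.1 v + g.1 v) := by abel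
      rw [e7] at e1
      exact left_eq_add.1 e1.symm
    have e8 := eq_neg_of_add_eq_zero_left e6
    rw [e8]
    exact neg_eq_of_add_eq_zero_left (h2 _)
  obtain ⟨h, hh⟩ := hnine
  refine ⟨h, hh, fun x => ?_⟩
  have h9 : h ^ 9 = 1 := by rw [← hh]; exact pow_orderOf_eq_one h
  have h3 : h ^ 3 ≠ 1 := by
    intro h4
    have h5 := orderOf_dvd_iff_pow_eq_one.2 h4
    rw [hh] at h5
    norm_num at h5
  have h5 := key (h ^ 3).1 (h ^ 3).2 (by
    have h6 : h ^ 3 * h ^ 3 * h ^ 3 = 1 := by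
      rw [← h9]
      group
    exact congrArg Subtype.val h6) (fun h6 => h3 (Subtype.ext h6)) x
  have h6 : ∀ y, (h ^ 3).1 y = h.1 (h.1 (h.1 y)) := by
    intro y
    have h7 : h ^ 3 = h * h * h := pow_three' h
    rw [h7]
    rfl
  rw [h6, h6] at h5
  rw [← h5]
  have h8 : x + h.1 (h.1 (h.1 x)) + h.1 (h.1 (h.1 x)) + x =
      (x + x) + (h.1 (h.1 (h.1 x)) + h.1 (h.1 (h.1 x))) := by abel
  rw [h8, h2, h2, add_zero]

end E5

open E5 IT8 in
/-- **row A5** -/
theorem a5e : A5 := by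
  classical
  intro P A G hG hflag
  have hne : Nonempty P := by
    have h : 0 < Nat.card P := by
      rw [A.card_points]
      norm_num
    exact (Nat.card_pos_iff.1 h).1
  obtain ⟨o⟩ := hne
  have hn2 : 2 ≤ 8 := by norm_num
  obtain ⟨V, hVg, e, A', he0, h2, he, htrans, hsub, hlift⟩ :=
    exists_model (by decide : Even 8) hn2 hG hflag o
  obtain ⟨G', hG', hflag', hGG'⟩ := transport hG hflag e A' he
  refine desarguesian_of_equiv e A' he ?_
  have hVfin : Finite V := A'.finite hn2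
  have hnt : Nontrivial V := Finite.one_lt_card_iff_nontrivial.1 (by
    rw [A'.card_points]
    norm_num)
  let H : Subgroup (Equiv.Perm V) :=
    { carrier := {g | g ∈ G' ∧ g 0 = 0}
      mul_mem' := fun {a b} ha hb => ⟨G'.mul_mem ha.1 hb.1, by
        rw [Equiv.Perm.mul_apply, hb.2, ha.2]⟩
      one_mem' := ⟨G'.one_mem, rfl⟩
      inv_mem' := fun {a} ha => ⟨G'.inv_mem ha.1, by
        rw [Equiv.Perm.inv_eq_iff_eq]
        exact ha.2.symm⟩ }
  have hH : ∀ g, g ∈ H ↔ g ∈ G' ∧ g 0 = 0 := fun _ => Iff.rfl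
  have hcard : Nat.card H = 9 := card_stab hn2 hG' hflag' 0 H hH
  have hlin : ∀ h ∈ H, ∃ φ : V ≃+ V, ∀ x, φ x = h x := by
    intro h hh
    obtain ⟨g, hg, hgx⟩ := hGG' h hh.1
    have hgo : g o = o := by
      rw [← he0, ← hgx, hh.2]
    obtain ⟨φ, hφ⟩ := hlift g (hG g hg) hgo
    exact ⟨φ, fun x => e.injective (by rw [hφ, hgx])⟩
  have hadd : ∀ h ∈ H, ∀ x y, h (x + y) = h x + h y := by
    intro h hh x y
    obtain ⟨φ, hφ⟩ := hlin h hh
    rw [← hφ, ← hφ, ← hφ, map_add]
  have hflag1 : ∀ h ∈ H, ∀ L ∈ A'.lines, (0 : V) ∈ L → (h : V → V) '' L = L → h = 1 := by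
    intro h hh L hL h0 hhL
    obtain ⟨γ, -, hγ⟩ := hflag' 0 L hL h0 0 L hL h0
    exact (hγ h ⟨hh.1, hh.2, hhL⟩).trans (hγ 1 ⟨G'.one_mem, rfl, by simp⟩).symm
  have hfree : ∀ h ∈ H, ∀ v, v ≠ 0 → h v = v → h = 1 := by
    intro h hh v hv hhv
    obtain ⟨L, ⟨hL, h0L, hvL⟩, -⟩ := A'.join 0 v hv.symm
    refine hflag1 h hh L hL h0L ?_
    exact line_unique A' (hG' h hh.1 L hL) hL hv.symm ⟨0, h0L, hh.2⟩ ⟨v, hvL, hhv⟩ h0L hvL
  obtain ⟨ρ, hρ9, hρ⟩ := exists_nine h2 H hcard hadd hfree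
  obtain ⟨rho, hrho⟩ := hlin ρ.1 ρ.2
  have hiter : ∀ (i : ℕ) (x : V), rho^[i] x = (ρ ^ i).1 x := by
    intro i
    induction i with
    | zero => intro x; rfl
    | succ i ih =>
      intro x
      rw [Function.iterate_succ_apply', ih, pow_succ', hrho]
      rfl
  -- a line through `0`
  obtain ⟨v, hv⟩ := exists_ne (0 : V)
  obtain ⟨L, ⟨hL, h0L, hvL⟩, -⟩ := A'.join 0 v hv.symm
  obtain ⟨U, hU⟩ := hsub L hL h0L
  subst hU
  refine finish A' h2 htrans hsub rho U hL ?_ ?_ ?_
  · intro x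
    simp only [hrho]
    exact hρ x
  · intro i hi1 hi8 s hs his
    by_contra hs0
    rw [hiter] at his
    have h1 : ((ρ ^ i).1 : V → V) '' (U : Set V) = U := by
      have hs1 : (ρ ^ i).1 s ≠ 0 := by
        intro h4
        apply hs0
        apply (ρ ^ i).1.injective
        rw [h4]
        exact (ρ ^ i).2.2.symm
      exact line_unique A' (hG' _ (ρ ^ i).2.1 _ hL) hL hs1.symm ⟨0, h0L, (ρ ^ i).2.2⟩
        ⟨s, hs, rfl⟩ h0L his
    have h3 := hflag1 _ (ρ ^ i).2 _ hL h0L h1
    have h4 : ρ ^ i = 1 := Subtype.ext h3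
    have h5 := orderOf_dvd_iff_pow_eq_one.2 h4
    rw [hρ9] at h5
    have h6 := Nat.le_of_dvd (by omega) h5
    omega
  · intro M hM h0M
    obtain ⟨h, ⟨hh, hh0, hhM⟩, -⟩ := hflag' 0 _ hL h0L 0 M hM h0M
    have h1 : (⟨h, hh, hh0⟩ : H) ∈ Subgroup.zpowers ρ := by
      have h2 : Subgroup.zpowers ρ = ⊤ := Subgroup.eq_top_of_card_eq _ (by
        rw [Nat.card_zpowers, hρ9, hcard])
      rw [h2]
      exact Subgroup.mem_top _
    have hfinH : Finite H := Nat.finite_of_card_ne_zero (by rw [hcard]; norm_num)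
    rw [← mem_powers_iff_mem_zpowers] at h1
    obtain ⟨i, hi⟩ := h1
    refine ⟨i, ?_⟩
    rw [← hhM]
    ext x
    constructor
    · rintro ⟨s, hs, rfl⟩
      refine ⟨s, hs, ?_⟩
      rw [hiter]
      exact Equiv.congr_fun (congrArg Subtype.val hi) s
    · rintro ⟨s, hs, rfl⟩
      refine ⟨s, hs, ?_⟩
      rw [hiter]
      exact (Equiv.congr_fun (congrArg Subtype.val hi) s).symm

end Pool.Agent.Lib.CPlane.AO
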