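import Pool.Agent.Lib.CPlane.AOStat

/-!
# Row A7: there are no planes of odd order
-/

namespace Pool.Agent.Lib.CPlane.AO.A7

open Pool.Agent.Lib.CPlane

section

variable {P : Type} {n : ℕ} (A : AffinePlane P n)

/-- the lines through a point -/
def pencil (p : P) : Set (Set P) := {L | L ∈ A.lines ∧ p ∈ L}

theorem finite_points {P : Type} {n : ℕ} (A : AffinePlane P n) (hn : 2 ≤ n) : Finite P := by
  apply Nat.finite_of_card_ne_zero
  rw [A.card_points]
  positivity

theorem pencil_ncard (hn : 2 ≤ n) (p : P) : (pencil A p).ncard = n + 1 := by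
  classical
  have : Finite P := finite_points A hn
  have : Fintype P := Fintype.ofFinite P
  -- points different from `p` are partitioned by the lines through `p`
  have hfin : (pencil A p).Finite := Set.toFinite _
  -- the map sending a point `q ≠ p` to the line joining it with `p`
  have hsum : (Finset.univ.erase p).card
      = ∑ L ∈ hfin.toFinset, (Finset.univ.filter (fun q : P => q ≠ p ∧ q ∈ L)).card := by
    rw [← Finset.card_biUnion]
    · congr 1
      ext q
      simp only [Finset.mem_erase, Finset.mem_univ, and_true, Finset.mem_biUnion,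
        Set.Finite.mem_toFinset, Finset.mem_filter, true_and]
      constructor
      · intro hq
        obtain ⟨L, ⟨hL, hpL, hqL⟩, _⟩ := A.join p q (Ne.symm hq)
        exact ⟨L, ⟨hL, hpL⟩, hq, hqL⟩
      · rintro ⟨L, _, hq, _⟩
        exact hq
    · intro L hL M hM hLM
      simp only [Finset.mem_coe, Set.Finite.mem_toFinset] at hL hM
      rw [Function.onFun, Finset.disjoint_left]
      intro q hq hq'
      simp only [Finset.mem_filter, Finset.mem_univ, true_and] at hq hq'
      obtain ⟨K, _, hK⟩ := A.join p q (Ne.symm hq.1)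
      exact hLM ((hK L ⟨hL.1, hL.2, hq.2⟩).trans (hK M ⟨hM.1, hM.2, hq'.2⟩).symm)
  have hterm : ∀ L ∈ hfin.toFinset,
      (Finset.univ.filter (fun q : P => q ≠ p ∧ q ∈ L)).card = n - 1 := by
    intro L hL
    simp only [Set.Finite.mem_toFinset] at hL
    have h1 : (Finset.univ.filter (fun q : P => q ≠ p ∧ q ∈ L))
        = (Finset.univ.filter (fun q : P => q ∈ L)).erase p := by
      ext q
      simp
    have h2 : (Finset.univ.filter (fun q : P => q ∈ L)).card = n := by
      rw [← A.card_line L hL.1, Set.ncard_eq_toFinset_card' L]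
      congr 1
      ext q
      simp
    rw [h1, Finset.card_erase_of_mem (by simpa using hL.2), h2]
  rw [Finset.sum_congr rfl hterm, Finset.sum_const, smul_eq_mul,
    Finset.card_erase_of_mem (Finset.mem_univ p), Finset.card_univ,
    ← Nat.card_eq_fintype_card, A.card_points] at hsum
  have hcard : (pencil A p).ncard = hfin.toFinset.card := Set.ncard_eq_toFinset_card _ hfin
  rw [hcard]
  obtain ⟨m, rfl⟩ : ∃ m, n = m + 2 := ⟨n - 2, by omega⟩
  have h3 : (m + 2) ^ 2 - 1 = (m + 3) * (m + 1) := by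
    have : (m + 2) ^ 2 = (m + 3) * (m + 1) + 1 := by ring
    omega
  have h4 : m + 2 - 1 = m + 1 := by omega
  rw [h3, h4] at hsum
  exact (Nat.eq_of_mul_eq_mul_right (Nat.succ_pos m) hsum).symm

end

/-- **Theorem.** If a finite affine plane of order `n ≥ 2` admits a collineation group acting
sharply transitively on its flags, then `n` is even. -/
theorem even_order (P : Type) (n : ℕ) (hn : 2 ≤ n) (A : AffinePlane P n)
    (G : Subgroup (Equiv.Perm P)) (hG : IsCollineationGroup A G)
    (hflag : SharplyFlagTransitive A G) : Even n := by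
  classical
  have : Finite P := finite_points A hn
  by_contra hodd
  -- pick a point
  have hcard : 0 < Nat.card P := by rw [A.card_points]; positivity
  have : Nonempty P := (Nat.card_pos_iff.mp hcard).1
  obtain ⟨p⟩ := ‹Nonempty P›
  -- the stabiliser of `p`
  let S : Subgroup (Equiv.Perm P) := G ⊓ MulAction.stabilizer (Equiv.Perm P) p
  have hSmem : ∀ g : Equiv.Perm P, g ∈ S ↔ g ∈ G ∧ g p = p := by
    intro g
    simp [S, Subgroup.mem_inf, MulAction.mem_stabilizer_iff]
  have hpencil : (pencil A p).ncard = n + 1 := pencil_ncard A hn p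
  have hne : (pencil A p).Nonempty := by
    rw [← Set.ncard_pos (Set.toFinite _), hpencil]
    omega
  obtain ⟨L, hL, hpL⟩ := hne
  -- `S` is in bijection with the pencil of `p`
  have himg : ∀ g ∈ S, (g : P → P) '' L ∈ pencil A p := by
    intro g hg
    rw [hSmem] at hg
    exact ⟨hG g hg.1 L hL, ⟨p, hpL, hg.2⟩⟩
  have hScard : Nat.card S = n + 1 := by
    rw [← hpencil, ← Nat.card_coe_set_eq]
    apply Nat.card_congr
    refine Equiv.ofBijective (fun g : S => (⟨((g : Equiv.Perm P) : P → P) '' L, himg g g.2⟩ :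
      pencil A p)) ⟨?_, ?_⟩
    · intro g h hgh
      have hgh' : ((g : Equiv.Perm P) : P → P) '' L = ((h : Equiv.Perm P) : P → P) '' L :=
        congrArg Subtype.val hgh
      have hg := (hSmem g).mp g.2
      have hh := (hSmem h).mp h.2
      obtain ⟨K, _, hK⟩ := hflag p L hL hpL p (((g : Equiv.Perm P) : P → P) '' L)
        (himg g g.2).1 (himg g g.2).2
      exact Subtype.ext ((hK g ⟨hg.1, hg.2, rfl⟩).trans (hK h ⟨hh.1, hh.2, hgh'.symm⟩).symm)
    · rintro ⟨M, hM, hpM⟩
      obtain ⟨g, ⟨hgG, hgp, hgL⟩, _⟩ := hflag p L hL hpL p M hM hpM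
      exact ⟨⟨g, (hSmem g).mpr ⟨hgG, hgp⟩⟩, Subtype.ext hgL⟩
  -- an involution in `S`
  have h2 : 2 ∣ Nat.card S := by
    rw [hScard]
    rw [Nat.not_even_iff_odd] at hodd
    exact (Odd.add_one hodd).two_dvd
  have : Fact (Nat.Prime 2) := ⟨Nat.prime_two⟩
  have : Finite (Equiv.Perm P) := inferInstance
  obtain ⟨σ, hσ⟩ := exists_prime_orderOf_dvd_card' (G := S) 2 h2
  have hσS := (hSmem σ).mp σ.2
  set s : Equiv.Perm P := (σ : Equiv.Perm P) with hs
  have hs1 : s ≠ 1 := by
    intro h
    have : σ = 1 := Subtype.ext h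
    rw [this, orderOf_one] at hσ
    omega
  have hs2 : ∀ x, s (s x) = x := by
    intro x
    have h : σ ^ 2 = 1 := by rw [← hσ]; exact pow_orderOf_eq_one σ
    have h' : s ^ 2 = 1 := by
      have := congrArg (Subtype.val) h
      simpa using this
    have := congrArg (fun f : Equiv.Perm P => f x) h'
    simpa [pow_two] using this
  -- `s` fixes no line through `p`
  have hfix : ∀ K ∈ A.lines, p ∈ K → (s : P → P) '' K ≠ K := by
    intro K hK hpK hsK
    obtain ⟨g, _, hg⟩ := hflag p K hK hpK p K hK hpK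
    have e1 := hg s ⟨hσS.1, hσS.2, hsK⟩
    have e2 := hg 1 ⟨G.one_mem, rfl, by simp⟩
    exact hs1 (e1.trans e2.symm)
  -- a second point
  have h2card : 1 < Nat.card P := by
    rw [A.card_points]
    nlinarith
  obtain ⟨x, hx⟩ : ∃ x, x ≠ p := by
    have : Nontrivial P := Finite.one_lt_card_iff_nontrivial.mp h2card
    exact exists_ne p
  -- `s` moves `x`
  have hsx : s x ≠ x := by
    intro h
    obtain ⟨K, ⟨hK, hpK, hxK⟩, huniq⟩ := A.join p x (Ne.symm hx)
    refine hfix K hK hpK ?_
    exact huniq _ ⟨hG s hσS.1 K hK, ⟨p, hpK, hσS.2⟩, ⟨x, hxK, h⟩⟩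
  -- the line joining `x` and `s x` is fixed
  obtain ⟨m, ⟨hm, hxm, hsxm⟩, hmu⟩ := A.join x (s x) (Ne.symm hsx)
  have hsm : (s : P → P) '' m = m := by
    refine hmu _ ⟨hG s hσS.1 m hm, ⟨s x, hsxm, hs2 x⟩, ⟨x, hxm, rfl⟩⟩
  have hpm : p ∉ m := fun h => hfix m hm h hsm
  -- the parallel to it through `p` is fixed as well
  obtain ⟨K, ⟨hK, hpK, hKm⟩, hKu⟩ := A.parallel m hm p hpm
  refine hfix K hK hpK ?_
  refine hKu _ ⟨hG s hσS.1 K hK, ⟨p, hpK, hσS.2⟩, ?_⟩
  rw [← hsm]
  exact (Set.disjoint_image_iff s.injective).mpr hKm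

end Pool.Agent.Lib.CPlane.AO.A7

namespace Pool.Agent.Lib.CPlane.AO

theorem a7 : A7 := fun P n A G hn hG hflag => A7.even_order P n hn A G hG hflag

end Pool.Agent.Lib.CPlane.AO
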