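import Pool.Agent.Lib.CPlane.S2EF

/-!
# s = 2, Theorem E
-/

namespace Pool.Agent.Lib.CPlane.S2.TE

open Finset Module Pool.Agent.Lib.CPlane.P2

variable {K E : Type} [Field K] [Fintype K] [CharP K 2] [Field E] [Finite E]
  [CharP E 2] [Algebra K E] {n f e a : ℕ} {ga et : Fin (n + 2) → E}

omit [Finite E] in
theorem lin_pow2 (hK : Fintype.card K = 2) (v : Fin (n + 2) → E) (c : Fin (n + 2) → K) (k : ℕ) :
    (lin v c) ^ 2 ^ k = ∑ i, algebraMap K E (c i) * fv v k i := by
  have h := lin_pow (K := K) (r := 1) (by rw [hK, pow_one]) v c k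
  rw [pow_one] at h
  rw [h]
  refine Finset.sum_congr rfl fun i _ => ?_
  rw [Algebra.smul_def]
  rfl

/-- there is no relation with coefficients in the prime field -/
theorem no_rel (hP : Pair3 K ga et f e a) {Z : Finset ℕ} (hZ : Z ⊆ range (2 ^ a))
    (hne : Z.Nonempty) : tZ ga et Z ≠ 0 := by
  intro h0
  have he : 0 < e := lt_of_lt_of_le (by norm_num) hP.split.two_e
  obtain ⟨j, hj⟩ : ∃ j, ga j = 0 := by
    by_contra hno
    push Not at hno
    have h1 := hP.split.ce
    have h2 : IsEmpty {j // ga j = 0} := ⟨fun j => hno j.1 j.2⟩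
    rw [Nat.card_of_isEmpty] at h1
    omega
  classical
  set c : Fin (n + 2) → K := Pi.single j 1 with hc
  have hlin : ∀ v : Fin (n + 2) → E, lin v c = v j := by
    intro v
    unfold lin
    rw [Finset.sum_eq_single j]
    · rw [hc, Pi.single_eq_same, one_smul]
    · intro i _ hi
      rw [hc, Pi.single_eq_of_ne hi, zero_smul]
    · intro h
      exact absurd (Finset.mem_univ _) h
  have hne' : lin et c ≠ 0 := by
    intro h
    have h1 := hP.p2.ind c (by rw [hlin, hj]) h
    have h2 := congrFun h1 j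
    rw [hc, Pi.single_eq_same] at h2
    exact one_ne_zero h2
  obtain ⟨d, hd⟩ := hP.p2.tr c hne'
  apply hd
  refine trace_eq_zero_of_sum hP.deg Z hZ hne _ ?_
  have h1 : ∀ k, (lin ga d * lin et c) ^ Fintype.card K ^ k =
      ∑ i, ∑ i', algebraMap K E (d i) * algebraMap K E (c i') *
        (fv ga k i * fv et k i') := by
    intro k
    rw [hP.card, mul_pow, lin_pow2 hP.card, lin_pow2 hP.card, Finset.sum_mul_sum]
    refine Finset.sum_congr rfl fun i _ => Finset.sum_congr rfl fun i' _ => ?_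
    ring
  simp only [h1]
  rw [Finset.sum_comm]
  refine Finset.sum_eq_zero fun i _ => ?_
  rw [Finset.sum_comm]
  refine Finset.sum_eq_zero fun i' _ => ?_
  rw [← Finset.mul_sum, ← tZ_apply, h0]
  simp

theorem yU_ne (hP : Pair3 K ga et f e a) (k : ℕ) : yU ga et k ≠ 0 := by
  obtain ⟨b, _, hw⟩ := hP.p2.one
  intro h
  have h1 := (val ga et hP.card hP.p2.ind b hw).1 k
  rw [h] at h1
  simp at h1

theorem the0 (hP : Pair3 K ga et f e a) {A : Finset ℕ} (hA : A ⊆ Icc 1 n) (hnt : IsNT ga et A)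
    {k : ℕ} (hk : k < 2 ^ a) (hg : fv ga k ∈ WA ga et A) (hy : fv et k ∈ WA ga et A) :
    k ∈ A := by
  classical
  by_contra hkA
  have hU : ∀ k, yU ga et k ≠ 0 := yU_ne hP
  have hne : A.Nonempty := by
    rw [Finset.nonempty_iff_ne_empty]
    rintro rfl
    unfold IsNT at hnt
    rw [WA_empty, finrank_bot] at hnt
    simp at hnt
  have hn : n + 2 < 2 ^ a := by
    have h1 := hP.hf
    have h2 := hP.he
    have h3 := hP.split.sum
    omega
  obtain ⟨p, ze, hN⟩ := exists_NTd ga et A (fun k hk => by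
    have := Finset.mem_Icc.1 (hA hk)
    omega) hnt
  have hvec : tZ ga et {k} = Matrix.vecMulVec (fv ga k) (fv et k) := Finset.sum_singleton _ _
  have hT : InT (WA ga et A) (tZ ga et {k}) := by
    rw [hvec]
    exact InT.vec hg hy
  have hmap : (tZ ga et {k}).map (Polynomial.C : E → Polynomial E) = tk ga et k := by
    rw [hvec]
    ext1 i j
    rfl
  have hNu : Nu ga et k 0 = 0 := by
    obtain ⟨k0, hk0⟩ := hne
    have h1 := RT_bmin hN hk0 (hU k0) hT (j := 0) (fun h => by
      have := (Finset.mem_Icc.1 (hA h)).1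
      simp at this)
    rw [hmap] at h1
    exact h1
  have hH : HG (RT ga et) (tZ ga et {k}) = 0 := by
    unfold HG
    rw [hmap]
    exact m0_all ga et hP.card hP.p2 hP.split k hNu
  have st : St ga et A {k} :=
    ⟨hA, fun _ => hnt, hT, hH, Finset.disjoint_singleton_left.2 hkA⟩
  obtain ⟨D, hD, _, h0⟩ := strip_all hP hU A.card A {k} rfl st
  refine no_rel hP ?_ ⟨k, Finset.mem_union_left _ (Finset.mem_singleton_self k)⟩ h0
  intro l hl
  rw [Finset.mem_range]
  rcases Finset.mem_union.1 hl with h | h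
  · rw [Finset.mem_singleton.1 h]
    exact hk
  · have := Finset.mem_Icc.1 (hA (hD h))
    omega

end TE

open Finset Module Pool.Agent.Lib.CPlane.P2

/-- THEOREM E -/
theorem the : THE := by
  intro K E _ _ _ _ _ _ _ n f e a ga et hP s A hA hnt k hg hy
  classical
  set A' : Finset ℕ := A.image (· - s) with hA'
  have hAs : A = A'.image (· + s) := by
    ext x
    rw [hA', Finset.mem_image]
    constructor
    · intro hx
      refine ⟨x - s, Finset.mem_image_of_mem _ hx, ?_⟩
      have := Finset.mem_Icc.1 (hA hx)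
      omega
    · rintro ⟨y, hy, rfl⟩
      obtain ⟨z, hz, rfl⟩ := Finset.mem_image.1 hy
      have := Finset.mem_Icc.1 (hA hz)
      have h2 : z - s + s = z := by omega
      rw [h2]
      exact hz
  have hA1 : A' ⊆ Icc 1 n := by
    intro x hx
    obtain ⟨z, hz, rfl⟩ := Finset.mem_image.1 hx
    have := Finset.mem_Icc.1 (hA hz)
    exact Finset.mem_Icc.2 ⟨by omega, by omega⟩
  have hnt' : IsNT ga et A' := by
    rw [hAs] at hnt
    exact (isNT_shift s).1 hnt
  have hpos : 0 < 2 ^ a := by positivity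
  set k' := (k + (2 ^ a - 1) * s) % 2 ^ a with hk'
  have hcong : k' + s ≡ k [MOD 2 ^ a] := by
    have h1 : k' ≡ k + (2 ^ a - 1) * s [MOD 2 ^ a] := Nat.mod_modEq _ _
    have h2 : k' + s ≡ k + (2 ^ a - 1) * s + s [MOD 2 ^ a] := h1.add_right s
    have h3 : k + (2 ^ a - 1) * s + s = k + 2 ^ a * s := by
      obtain ⟨q, hq⟩ : ∃ q, 2 ^ a = q + 1 := ⟨2 ^ a - 1, by omega⟩
      rw [hq]
      simp only [Nat.add_sub_cancel]
      ring
    rw [h3] at h2
    refine h2.trans ?_
    have h4 : k + 2 ^ a * s ≡ k + 0 [MOD 2 ^ a] :=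
      Nat.ModEq.add_left k ((Nat.modEq_zero_iff_dvd).2 (dvd_mul_right _ _))
    rw [add_zero] at h4
    exact h4
  have hg' : fv ga k' ∈ WA ga et A' := by
    rw [← fv_mem_shift ga k' s, ← hAs, fv_congr hP.card hP.deg ga hcong]
    exact hg
  have hy' : fv et k' ∈ WA ga et A' := by
    rw [← fv_mem_shift et k' s, ← hAs, fv_congr hP.card hP.deg et hcong]
    exact hy
  have hmem := TE.the0 hP hA1 hnt' (Nat.mod_lt _ hpos) hg' hy'
  refine ⟨k' + s, ?_, hcong.symm⟩
  rw [hAs]
  exact Finset.mem_image_of_mem _ hmem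

end Pool.Agent.Lib.CPlane.S2
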