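import Mathlib

/-!
# Leaf module: determinants with distinguished rows

`C` is the index set of a near tight set, `I` the set of coordinates, `D` indexes constant
completing rows, `|C| + |D| + 1 = |I|`.  Everything in characteristic two.
-/

set_option autoImplicit false
set_option linter.unusedSectionVars false

namespace Pool.Agent.Lib.CPlane.LF

open MvPolynomial

variable {E I C D A B : Type} [Field E] [CommRing A] [CommRing B]
  [Fintype I] [DecidableEq I]

/-- `μ(x)` -/
def ev (μ x : I → A) : A := ∑ i, μ i * x i

/-- `α(x, .)` for `α = g ∧ y` -/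
def al (g y x : I → A) : I → A := fun i => ev y x * g i + ev g x * y i

variable [DecidableEq C]

/-- the matrix with rows `μ`, `r_l` (`l ∈ C`), `ν_d` (`d ∈ D`) -/
def Mx (ep : I ≃ Option C ⊕ D) (μ : I → A) (r : C → I → A) (ν : D → I → A) : Matrix I I A :=
  Matrix.of fun i j => Sum.elim (fun o : Option C => o.elim μ r) ν (ep i) j

/-- its determinant -/
def dt (ep : I ≃ Option C ⊕ D) (μ : I → A) (r : C → I → A) (ν : D → I → A) : A :=
  (Mx ep μ r ν).det

/-- the rows `R_l = g_l + t_l y_l` -/
noncomputable def Rt (g y : C → I → E) (l : C) (i : I) : MvPolynomial C E :=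
  MvPolynomial.C (g l i) + X l * MvPolynomial.C (y l i)

/-- constant rows -/
noncomputable def cst {σ κ : Type} (ν : κ → I → E) (d : κ) (i : I) : MvPolynomial σ E :=
  MvPolynomial.C (ν d i)

/-- constant row -/
noncomputable def cs {σ : Type} (v : I → E) (i : I) : MvPolynomial σ E := MvPolynomial.C (v i)

/-- the vector of minors: `μ(Ut) = dt μ R ν` -/
noncomputable def Ut (ep : I ≃ Option C ⊕ D) (g y : C → I → E) (ν : D → I → E) (i : I) :
    MvPolynomial C E :=
  dt ep (Pi.single i 1) (Rt g y) (cst ν)

/-- `Φ_k = det (y_k ; g_k, R_l (l ≠ k) ; ν)` -/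
noncomputable def Ph (ep : I ≃ Option C ⊕ D) (g y : C → I → E) (ν : D → I → E) (k : C) :
    MvPolynomial C E :=
  dt ep (cs (y k)) (Function.update (Rt g y) k (cs (g k))) (cst ν)

/-- `w_C = det (y_k ; g_k, α_l(x, .) (l ≠ k) ; ν)`, a polynomial in the coordinates `x` -/
noncomputable def wC (ep : I ≃ Option C ⊕ D) (g y : C → I → E) (ν : D → I → E) (k : C) :
    MvPolynomial I E :=
  dt ep (cs (y k)) (Function.update (fun l => al (cs (g l)) (cs (y l)) X) k (cs (g k))) (cst ν)

/-! ## row operations -/

theorem Mx_mu (ep : I ≃ Option C ⊕ D) (μ μ' : I → A) (r : C → I → A) (ν : D → I → A) :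
    Mx ep μ' r ν = (Mx ep μ r ν).updateRow (ep.symm (Sum.inl none)) μ' := by
  ext i j
  by_cases h : i = ep.symm (Sum.inl none)
  · subst h; simp [Mx]
  · rw [Matrix.updateRow_ne h]
    have h' : ep i ≠ Sum.inl none := fun hh => h (by rw [← hh]; simp)
    simp only [Mx, Matrix.of_apply]
    rcases hi : ep i with o | d
    · rcases o with _ | l
      · exact absurd hi h'
      · simp
    · simp

theorem Mx_row (ep : I ≃ Option C ⊕ D) (μ : I → A) (r : C → I → A) (ν : D → I → A) (l : C)
    (v : I → A) :
    Mx ep μ (Function.update r l v) ν =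
      (Mx ep μ r ν).updateRow (ep.symm (Sum.inl (some l))) v := by
  ext i j
  by_cases h : i = ep.symm (Sum.inl (some l))
  · subst h; simp [Mx]
  · rw [Matrix.updateRow_ne h]
    have h' : ep i ≠ Sum.inl (some l) := fun hh => h (by rw [← hh]; simp)
    simp only [Mx, Matrix.of_apply]
    rcases hi : ep i with o | d
    · rcases o with _ | l'
      · simp
      · have hl : l' ≠ l := fun hh => h' (by rw [hi, hh])
        simp [Function.update_of_ne hl]
    · simp

theorem Mx_map (ep : I ≃ Option C ⊕ D) (φ : A →+* B) (μ : I → A) (r : C → I → A) (ν : D → I → A) :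
    φ.mapMatrix (Mx ep μ r ν) =
      Mx ep (fun i => φ (μ i)) (fun l i => φ (r l i)) (fun d i => φ (ν d i)) := by
  ext i j
  simp only [RingHom.mapMatrix_apply, Matrix.map_apply, Mx, Matrix.of_apply]
  rcases ep i with o | d
  · rcases o with _ | l <;> simp
  · simp

theorem dt_map (ep : I ≃ Option C ⊕ D) (φ : A →+* B) (μ : I → A) (r : C → I → A) (ν : D → I → A) :
    φ (dt ep μ r ν) = dt ep (fun i => φ (μ i)) (fun l i => φ (r l i)) (fun d i => φ (ν d i)) := by
  rw [dt, RingHom.map_det, Mx_map, dt]

theorem dt_mu_add (ep : I ≃ Option C ⊕ D) (μ μ' : I → A) (r : C → I → A) (ν : D → I → A) :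
    dt ep (μ + μ') r ν = dt ep μ r ν + dt ep μ' r ν := by
  rw [dt, Mx_mu ep 0, Matrix.det_updateRow_add, ← Mx_mu, ← Mx_mu]; rfl

theorem dt_mu_smul (ep : I ≃ Option C ⊕ D) (a : A) (μ : I → A) (r : C → I → A) (ν : D → I → A) :
    dt ep (a • μ) r ν = a * dt ep μ r ν := by
  rw [dt, Mx_mu ep 0, Matrix.det_updateRow_smul, ← Mx_mu]; rfl

/-- the determinant as a linear form in the first row -/
def dtL (ep : I ≃ Option C ⊕ D) (r : C → I → A) (ν : D → I → A) : (I → A) →ₗ[A] A where
  toFun μ := dt ep μ r ν
  map_add' μ μ' := dt_mu_add ep μ μ' r ν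
  map_smul' a μ := dt_mu_smul ep a μ r ν

theorem dt_row_add (ep : I ≃ Option C ⊕ D) (μ : I → A) (r : C → I → A) (ν : D → I → A) (l : C)
    (u v : I → A) :
    dt ep μ (Function.update r l (u + v)) ν =
      dt ep μ (Function.update r l u) ν + dt ep μ (Function.update r l v) ν := by
  rw [dt, Mx_row, Matrix.det_updateRow_add, ← Mx_row, ← Mx_row]; rfl

theorem dt_row_smul (ep : I ≃ Option C ⊕ D) (μ : I → A) (r : C → I → A) (ν : D → I → A) (l : C)
    (a : A) (v : I → A) :
    dt ep μ (Function.update r l (a • v)) ν = a * dt ep μ (Function.update r l v) ν := by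
  rw [dt, Mx_row, Matrix.det_updateRow_smul, ← Mx_row]; rfl

theorem dt_sum (ep : I ≃ Option C ⊕ D) (μ : I → A) (r : C → I → A) (ν : D → I → A) :
    dt ep μ r ν = ev μ (fun i => dt ep (Pi.single i 1) r ν) := by
  have h := (dtL ep r ν).pi_apply_eq_sum_univ μ
  have h2 : (dtL ep r ν) μ = dt ep μ r ν := rfl
  rw [← h2, h]
  simp only [ev, smul_eq_mul]
  refine Finset.sum_congr rfl fun i _ => ?_
  congr 1
  show dt ep (fun j => if i = j then 1 else 0) r ν = _
  congr 1
  ext j
  by_cases h : i = j
  · subst h; simp
  · simp [h]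

/-- two equal rows -/
theorem dt_mu_eq (ep : I ≃ Option C ⊕ D) (μ : I → A) (r : C → I → A) (ν : D → I → A) (l : C)
    (h : r l = μ) : dt ep μ r ν = 0 := by
  apply Matrix.det_zero_of_row_eq (i := ep.symm (Sum.inl none)) (j := ep.symm (Sum.inl (some l)))
  · intro hh
    simpa using ep.symm.injective hh
  · ext j; simp [Mx, h]

theorem dt_mu_eq_nu (ep : I ≃ Option C ⊕ D) (μ : I → A) (r : C → I → A) (ν : D → I → A) (d : D)
    (h : ν d = μ) : dt ep μ r ν = 0 := by
  apply Matrix.det_zero_of_row_eq (i := ep.symm (Sum.inl none)) (j := ep.symm (Sum.inr d))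
  · intro hh
    simpa using ep.symm.injective hh
  · ext j; simp [Mx, h]

theorem dt_row_eq (ep : I ≃ Option C ⊕ D) (μ : I → A) (r : C → I → A) (ν : D → I → A) {l l' : C}
    (hl : l ≠ l') (h : r l = r l') : dt ep μ r ν = 0 := by
  apply Matrix.det_zero_of_row_eq (i := ep.symm (Sum.inl (some l)))
    (j := ep.symm (Sum.inl (some l')))
  · intro hh
    exact hl (by simpa using ep.symm.injective hh)
  · ext j; simp [Mx, h]

theorem dt_row_eq_nu (ep : I ≃ Option C ⊕ D) (μ : I → A) (r : C → I → A) (ν : D → I → A) (l : C)
    (d : D) (h : r l = ν d) : dt ep μ r ν = 0 := by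
  apply Matrix.det_zero_of_row_eq (i := ep.symm (Sum.inl (some l)))
    (j := ep.symm (Sum.inr d))
  · intro hh
    simpa using ep.symm.injective hh
  · ext j; simp [Mx, h]

/-- exchange of the first row and the row `l` (characteristic two) -/
theorem dt_swap [CharP A 2] (ep : I ≃ Option C ⊕ D) (μ v : I → A) (r : C → I → A) (ν : D → I → A)
    (l : C) : dt ep μ (Function.update r l v) ν = dt ep v (Function.update r l μ) ν := by
  have h0 : dt ep (μ + v) (Function.update r l (μ + v)) ν = 0 :=
    dt_mu_eq ep _ _ _ l (by simp)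
  rw [dt_mu_add, dt_row_add, dt_row_add] at h0
  rw [dt_mu_eq ep μ (Function.update r l μ) ν l (by simp),
    dt_mu_eq ep v (Function.update r l v) ν l (by simp), zero_add, add_zero] at h0
  exact CharTwo.add_eq_zero.mp h0

/-- exchange of two rows (characteristic two) -/
theorem dt_swap_rows [CharP A 2] (ep : I ≃ Option C ⊕ D) (μ u v : I → A) (r : C → I → A)
    (ν : D → I → A) {l l' : C} (hl : l ≠ l') :
    dt ep μ (Function.update (Function.update r l u) l' v) ν =
      dt ep μ (Function.update (Function.update r l v) l' u) ν := by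
  have h0 : dt ep μ (Function.update (Function.update r l (u + v)) l' (u + v)) ν = 0 :=
    dt_row_eq ep _ _ _ hl (by simp [Function.update_of_ne hl])
  have e1 : ∀ a b : I → A, Function.update (Function.update r l a) l' b =
      Function.update (Function.update r l' b) l a := fun a b => Function.update_comm hl.symm _ _ _
        |>.symm
  rw [dt_row_add, e1, e1, dt_row_add, dt_row_add] at h0
  rw [dt_row_eq ep μ (Function.update (Function.update r l' u) l u) ν hl
      (by simp [Function.update_of_ne hl.symm]),
    dt_row_eq ep μ (Function.update (Function.update r l' v) l v) ν hl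
      (by simp [Function.update_of_ne hl.symm]), zero_add, add_zero, ← e1, ← e1] at h0
  exact (CharTwo.add_eq_zero.mp h0).symm

/-- scaling all rows -/
theorem dt_prod [Fintype C] (ep : I ≃ Option C ⊕ D) (μ : I → A) (r : C → I → A) (ν : D → I → A) (c : C → A) :
    dt ep μ (fun l => c l • r l) ν = (∏ l, c l) * dt ep μ r ν := by
  have key : ∀ S : Finset C, dt ep μ (fun l => if l ∈ S then c l • r l else r l) ν =
      (∏ l ∈ S, c l) * dt ep μ r ν := by
    intro S
    induction S using Finset.induction_on with
    | empty => simp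
    | insert a S ha ih =>
      have e : (fun l => if l ∈ insert a S then c l • r l else r l) =
          Function.update (fun l => if l ∈ S then c l • r l else r l) a (c a • r a) := by
        ext1 l
        by_cases h : l = a
        · subst h; simp
        · simp [h]
      have e2 : (fun l => if l ∈ S then c l • r l else r l) =
          Function.update (fun l => if l ∈ S then c l • r l else r l) a (r a) := by
        ext1 l
        by_cases h : l = a
        · subst h; simp [ha]
        · simp [h]
      rw [e, dt_row_smul, ← e2, ih, Finset.prod_insert ha]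
      ring
  simpa using key Finset.univ

/-- Cramer: `det(a, b, ..) c = det(c, b, ..) a + det(a, c, ..) b + ..` -/
theorem pluecker [CharP A 2] (ep : I ≃ Option C ⊕ D) (r : C → I → A) (ν : D → I → A) (l : C)
    (a b c d : I → A) :
    dt ep a (Function.update r l b) ν * dt ep c (Function.update r l d) ν +
      dt ep a (Function.update r l c) ν * dt ep b (Function.update r l d) ν +
      dt ep a (Function.update r l d) ν * dt ep b (Function.update r l c) ν = 0 := by
  set M := Mx ep a (Function.update r l b) ν with hM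
  have hc : M.transpose.mulVec (Matrix.cramer M.transpose c) = M.transpose.det • c :=
    Matrix.mulVec_cramer _ _
  -- apply the linear form `v ↦ dt v (update r l d) ν`
  have h1 : (dtL ep (Function.update r l d) ν) (M.transpose.det • c) =
      ∑ i, Matrix.cramer M.transpose c i * dt ep (M i) (Function.update r l d) ν := by
    rw [← hc]
    have e : M.transpose.mulVec (Matrix.cramer M.transpose c) =
        ∑ i, Matrix.cramer M.transpose c i • M i := by
      ext j
      simp [Matrix.mulVec, dotProduct, Finset.sum_apply, mul_comm]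
    rw [e, map_sum]
    refine Finset.sum_congr rfl fun i _ => ?_
    rw [map_smul, smul_eq_mul]; rfl
  have h2 : (dtL ep (Function.update r l d) ν) (M.transpose.det • c) =
      dt ep a (Function.update r l b) ν * dt ep c (Function.update r l d) ν := by
    rw [map_smul, smul_eq_mul, Matrix.det_transpose]; rfl
  have h3 : ∑ i, Matrix.cramer M.transpose c i * dt ep (M i) (Function.update r l d) ν =
      Matrix.cramer M.transpose c (ep.symm (Sum.inl none)) * dt ep a (Function.update r l d) ν +
      Matrix.cramer M.transpose c (ep.symm (Sum.inl (some l))) *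
        dt ep b (Function.update r l d) ν := by
    have hne : ep.symm (Sum.inl none) ≠ ep.symm (Sum.inl (some l)) := by
      intro hh
      simpa using ep.symm.injective hh
    rw [← Finset.sum_subset (Finset.subset_univ {ep.symm (Sum.inl none), ep.symm (Sum.inl (some l))}),
      Finset.sum_pair hne]
    · congr 2
      · congr 1
        ext j; simp [hM, Mx]
      · congr 1
        ext j; simp [hM, Mx]
    · intro i _ hi
      simp only [Finset.mem_insert, Finset.mem_singleton, not_or] at hi
      rw [show dt ep (M i) (Function.update r l d) ν = 0 from ?_, mul_zero]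
      rcases hi' : ep i with o | dd
      · rcases o with _ | l'
        · exact absurd (by rw [← hi']; simp) hi.1
        · have hl' : l' ≠ l := by
            rintro rfl
            exact hi.2 (by rw [← hi']; simp)
          refine dt_mu_eq ep _ _ _ l' ?_
          ext j
          simp [hM, Mx, hi', Function.update_of_ne hl']
      · refine dt_mu_eq_nu ep _ _ _ dd ?_
        ext j
        simp [hM, Mx, hi']
  have h4 : Matrix.cramer M.transpose c (ep.symm (Sum.inl none)) =
      dt ep c (Function.update r l b) ν := by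
    rw [Matrix.cramer_apply, Matrix.updateCol_transpose, Matrix.det_transpose, hM, ← Mx_mu]; rfl
  have h5 : Matrix.cramer M.transpose c (ep.symm (Sum.inl (some l))) =
      dt ep a (Function.update r l c) ν := by
    rw [Matrix.cramer_apply, Matrix.updateCol_transpose, Matrix.det_transpose, hM, ← Mx_row]
    rw [Function.update_idem]; rfl
  rw [h1, h3, h4, h5] at h2
  rw [← h2, dt_swap ep b c r ν l]
  have e : ∀ x y z : A, x * z + y + (y + z * x) = 0 := by
    intro x y z
    have : x * z + y + (y + z * x) = (x * z + x * z) + (y + y) := by ring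
    rw [this, CharTwo.add_self_eq_zero, CharTwo.add_self_eq_zero, add_zero]
  have := e (dt ep c (Function.update r l b) ν)
    (dt ep a (Function.update r l c) ν * dt ep b (Function.update r l d) ν)
    (dt ep a (Function.update r l d) ν)
  linear_combination this

/-! ## the vector of minors and the key formula -/

section key

variable (ep : I ≃ Option C ⊕ D) (g y : C → I → E) (ν : D → I → E)

theorem Rt_eq (l : C) : Rt g y l = cs (g l) + (X l : MvPolynomial C E) • cs (y l) := by
  ext1 i; simp [Rt, cs]

theorem ev_Ut (μ : I → MvPolynomial C E) :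
    ev μ (Ut ep g y ν) = dt ep μ (Rt g y) (cst ν) := (dt_sum ep _ _ _).symm

theorem ev_Rt_Ut (l : C) : ev (Rt g y l) (Ut ep g y ν) = 0 := by
  rw [ev_Ut, dt_mu_eq ep _ _ _ l rfl]

theorem ev_nu_Ut (d : D) : ev (cs (ν d)) (Ut ep g y ν) = 0 := by
  rw [ev_Ut]
  exact dt_mu_eq_nu ep _ _ _ d rfl

theorem Rt_update (l : C) : Rt g y = Function.update (Rt g y) l
    (cs (g l) + (X l : MvPolynomial C E) • cs (y l)) := by
  rw [← Rt_eq, Function.update_eq_self]

theorem ev_y_Ut (k : C) : ev (cs (y k)) (Ut ep g y ν) = Ph ep g y ν k := by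
  rw [ev_Ut, Rt_update g y k, dt_row_add, dt_row_smul,
    dt_mu_eq ep _ (Function.update (Rt g y) k (cs (y k))) _ k (by simp), mul_zero, add_zero]
  rfl

theorem ev_g_Ut [CharP E 2] (k : C) : ev (cs (g k)) (Ut ep g y ν) = X k * Ph ep g y ν k := by
  rw [ev_Ut, Rt_update g y k, dt_row_add, dt_row_smul,
    dt_mu_eq ep _ (Function.update (Rt g y) k (cs (g k))) _ k (by simp), zero_add, dt_swap]
  rfl

theorem al_Ut [CharP E 2] (l : C) : al (cs (g l)) (cs (y l)) (Ut ep g y ν) =
    Ph ep g y ν l • Rt g y l := by
  ext1 i
  rw [al, ev_y_Ut, ev_g_Ut, Rt_eq]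
  simp only [Pi.smul_apply, Pi.add_apply, smul_eq_mul]
  ring

theorem aeval_al [Algebra E B] (x : I → B) (a b : I → E) (i : I) :
    aeval x (al (cs a) (cs b) (X : I → MvPolynomial I E) i) =
      al (fun i => algebraMap E B (a i)) (fun i => algebraMap E B (b i)) x i := by
  simp [al, ev, cs, map_sum]

/-- **the key formula** -/
theorem aeval_wC [Fintype C] [CharP E 2] (k : C) :
    aeval (Ut ep g y ν) (wC ep g y ν k) = ∏ l, Ph ep g y ν l := by
  rw [wC]
  have h1 := dt_map ep (aeval (Ut ep g y ν) : MvPolynomial I E →ₐ[E] MvPolynomial C E).toRingHom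
    (cs (y k)) (Function.update (fun l => al (cs (g l)) (cs (y l)) X) k (cs (g k))) (cst ν)
  simp only [AlgHom.toRingHom_eq_coe, RingHom.coe_coe] at h1
  rw [h1]
  have e1 : (fun i => aeval (Ut ep g y ν) (cs (y k) i : MvPolynomial I E)) = cs (y k) := by
    ext1 i; simp [cs, algebraMap_eq]
  have e3 : (fun d i => aeval (Ut ep g y ν) (cst ν d i : MvPolynomial I E)) = cst ν := by
    ext1 d; ext1 i; simp [cst, algebraMap_eq]
  have e2 : (fun l i => aeval (Ut ep g y ν)
      (Function.update (fun l => al (cs (g l)) (cs (y l)) X) k (cs (g k)) l i :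
        MvPolynomial I E)) = fun l => (if l = k then 1 else Ph ep g y ν l) •
          (Function.update (Rt g y) k (cs (g k)) l) := by
    ext1 l; ext1 i
    by_cases h : l = k
    · subst h; simp [cs, algebraMap_eq]
    · rw [Function.update_of_ne h, aeval_al, if_neg h, Function.update_of_ne h]
      exact congrFun (al_Ut ep g y ν l) i
  rw [e1, e2, e3, dt_prod, ← Finset.mul_prod_erase Finset.univ _ (Finset.mem_univ k), if_pos rfl,
    one_mul, ← Finset.mul_prod_erase Finset.univ (Ph ep g y ν) (Finset.mem_univ k), mul_comm]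
  have e4 : dt ep (cs (y k)) (Function.update (Rt g y) k (cs (g k))) (cst ν) =
      Ph ep g y ν k := rfl
  rw [e4]
  congr 1
  refine Finset.prod_congr rfl fun l hl => ?_
  rw [if_neg (Finset.ne_of_mem_erase hl)]

end key

end Pool.Agent.Lib.CPlane.LF
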