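import Mathlib

/-!
# Translation invariance of the divisors of an invariant polynomial
-/

namespace Pool.Agent.Lib.CPlane.Leaf

open MvPolynomial

variable {s E : Type} [Fintype s] [Field E]

/-- the linear form `Σ lam_i X_i` -/
noncomputable def lf (lam : s → E) : MvPolynomial s E := ∑ i, C (lam i) * X i

/-- `P ↦ P (X + τ v)` -/
noncomputable def tr (v : s → E) : MvPolynomial s E →ₐ[E] Polynomial (MvPolynomial s E) :=
  aeval fun i => Polynomial.C (X i) + Polynomial.X * Polynomial.C (C (v i))

/-- the constants -/
noncomputable def cst (s E : Type) [Field E] :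
    MvPolynomial s E →ₐ[E] Polynomial (MvPolynomial s E) where
  toRingHom := Polynomial.C
  commutes' := fun _ => rfl

omit [Fintype s] in
theorem cst_apply (P : MvPolynomial s E) : cst s E P = Polynomial.C P := rfl

omit [Fintype s] in
theorem tr_X (v : s → E) (i : s) :
    tr v (X i) = Polynomial.C (X i) + Polynomial.X * Polynomial.C (C (v i)) := by
  rw [tr, aeval_X]

theorem tr_lf (v lam : s → E) (h : ∑ i, lam i * v i = 0) :
    tr v (lf lam) = Polynomial.C (lf lam) := by
  have h1 : ∀ c : E, tr v (C c) = Polynomial.C (C c) := fun c => (tr v).commutes c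
  unfold lf
  rw [map_sum, map_sum]
  simp only [map_mul, h1, tr_X, mul_add]
  rw [Finset.sum_add_distrib]
  have h2 : ∑ i, (Polynomial.C (C (lam i)) * (Polynomial.X * Polynomial.C (C (v i))) :
      Polynomial (MvPolynomial s E)) = 0 := by
    have h3 : ∀ i, (Polynomial.C (C (lam i)) * (Polynomial.X * Polynomial.C (C (v i))) :
        Polynomial (MvPolynomial s E)) =
        Polynomial.X * Polynomial.C (C (lam i * v i)) := by
      intro i
      rw [map_mul, map_mul]
      ring
    rw [Finset.sum_congr rfl fun i _ => h3 i, ← Finset.mul_sum, ← map_sum, ← map_sum, h,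
      map_zero, map_zero, mul_zero]
  rw [h2, add_zero]

/-- a polynomial in forms which vanish at `v` is invariant under translation by `v` -/
theorem tr_of_mem_adjoin (v : s → E) (S : Set (s → E)) (hS : ∀ lam ∈ S, ∑ i, lam i * v i = 0)
    {A : MvPolynomial s E} (hA : A ∈ Algebra.adjoin E (lf '' S)) :
    tr v A = Polynomial.C A := by
  have h : Algebra.adjoin E (lf '' S) ≤ AlgHom.equalizer (tr v) (cst s E) := by
    rw [Algebra.adjoin_le_iff]
    rintro _ ⟨lam, hlam, rfl⟩
    exact tr_lf v lam (hS lam hlam)
  exact h hA

omit [Fintype s] in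
theorem eval_zero_tr (v : s → E) (P : MvPolynomial s E) :
    (tr v P).eval 0 = P := by
  have h : (Polynomial.aeval (0 : MvPolynomial s E)).toRingHom.comp
      (tr v).toRingHom = RingHom.id _ := by
    apply MvPolynomial.ringHom_ext
    · intro r
      have h1 : tr v (C r) = Polynomial.C (C r) := (tr v).commutes r
      simp [h1]
    · intro i
      simp [tr_X]
  have h2 := congrArg (fun f => f P) h
  simpa [Polynomial.aeval_def, Polynomial.eval₂_eq_eval_map] using h2

omit [Fintype s] in
/-- a divisor of an invariant polynomial is invariant -/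
theorem tr_of_dvd (v : s → E) {A P : MvPolynomial s E} (hA0 : A ≠ 0)
    (hA : tr v A = Polynomial.C A) (hP : P ∣ A) : tr v P = Polynomial.C P := by
  obtain ⟨B, hB⟩ := hP
  have h1 : tr v P * tr v B = Polynomial.C A := by rw [← map_mul, ← hB, hA]
  have h0 : (Polynomial.C A : Polynomial (MvPolynomial s E)) ≠ 0 := by
    rwa [Ne, Polynomial.C_eq_zero]
  have hP0 : tr v P ≠ 0 := by
    intro h
    exact h0 (by rw [← h1, h, zero_mul])
  have hB0 : tr v B ≠ 0 := by
    intro h
    exact h0 (by rw [← h1, h, mul_zero])
  have h2 := congrArg Polynomial.natDegree h1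
  rw [Polynomial.natDegree_mul hP0 hB0, Polynomial.natDegree_C] at h2
  have h3 : (tr v P).natDegree = 0 := by omega
  rw [Polynomial.natDegree_eq_zero] at h3
  obtain ⟨c, hc⟩ := h3
  have h4 := eval_zero_tr v P
  rw [← hc, Polynomial.eval_C] at h4
  rw [← hc, h4]

/-- (LA3) a divisor of a nonzero polynomial in the forms of `S` is invariant under translation
by every `v` which is killed by `S` -/
theorem tr_divisor (v : s → E) (S : Set (s → E)) (hS : ∀ lam ∈ S, ∑ i, lam i * v i = 0)
    {A P : MvPolynomial s E} (hA : A ∈ Algebra.adjoin E (lf '' S)) (hA0 : A ≠ 0) (hP : P ∣ A) :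
    tr v P = Polynomial.C P :=
  tr_of_dvd v hA0 (tr_of_mem_adjoin v S hS hA) hP

omit [Fintype s] in
/-- evaluation at `τ = c` -/
theorem eval_tr (v : s → E) (c P : MvPolynomial s E) :
    (tr v P).eval c = aeval (fun i => X i + c * C (v i)) P := by
  have h : (Polynomial.evalRingHom c).comp (tr v).toRingHom =
      (aeval (R := E) fun i => X i + c * C (v i)).toRingHom := by
    apply MvPolynomial.ringHom_ext
    · intro r
      have h1 : tr v (C r) = Polynomial.C (C r) := (tr v).commutes r
      simp [h1]
    · intro i
      simp [tr_X]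
      rw [mul_comm]
  exact congrArg (fun f => f P) h

omit [Fintype s] in
/-- consequence: `P (X + c v) = P` for every polynomial (or constant) `c` -/
theorem aeval_of_tr (v : s → E) {P : MvPolynomial s E} (h : tr v P = Polynomial.C P)
    (c : MvPolynomial s E) : aeval (fun i => X i + c * C (v i)) P = P := by
  rw [← eval_tr, h, Polynomial.eval_C]

/-- the derivative of `P (X + τ v)` at `τ = 0` is the derivative of `P` in the direction `v` -/
theorem derivative_tr (v : s → E) (P : MvPolynomial s E) :
    (Polynomial.derivative (tr v P)).eval 0 = ∑ i, C (v i) * pderiv i P := by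
  classical
  induction P using MvPolynomial.induction_on with
  | C a =>
    have h1 : tr v (C a) = Polynomial.C (C a) := (tr v).commutes a
    rw [h1]
    simp
  | add p q hp hq =>
    rw [map_add, Polynomial.derivative_add, Polynomial.eval_add, hp, hq, ← Finset.sum_add_distrib]
    exact Finset.sum_congr rfl fun i _ => by rw [map_add, mul_add]
  | mul_X p i hp =>
    rw [map_mul, Polynomial.derivative_mul, Polynomial.eval_add, Polynomial.eval_mul,
      Polynomial.eval_mul, hp, eval_zero_tr, eval_zero_tr, tr_X]
    have h1 : (Polynomial.derivative (Polynomial.C (X i : MvPolynomial s E) +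
        Polynomial.X * Polynomial.C (C (v i)))).eval 0 = C (v i) := by
      simp
    rw [h1]
    simp only [pderiv_mul, pderiv_X]
    have h2 : ∀ j, C (v j) * (pderiv j p * X i + p * Pi.single (M := fun _ => MvPolynomial s E) j 1 i) =
        C (v j) * pderiv j p * X i + (if j = i then C (v j) * p else 0) := by
      intro j
      by_cases hj : j = i
      · subst hj
        rw [Pi.single_eq_same, if_pos rfl]
        ring
      · rw [Pi.single_eq_of_ne (Ne.symm hj), if_neg hj]
        ring
    rw [Finset.sum_congr rfl fun j _ => h2 j, Finset.sum_add_distrib, ← Finset.sum_mul,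
      Finset.sum_ite_eq' Finset.univ i (fun j => C (v j) * p), if_pos (Finset.mem_univ i)]
    ring

/-- consequence: the derivative in the direction `v` vanishes -/
theorem pderiv_of_tr (v : s → E) {P : MvPolynomial s E} (h : tr v P = Polynomial.C P) :
    ∑ i, C (v i) * pderiv i P = 0 := by
  rw [← derivative_tr, h, Polynomial.derivative_C, Polynomial.eval_zero]

end Pool.Agent.Lib.CPlane.Leaf
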