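import Mathlib

/-!
# Irreducibility of multilinear polynomials with non-vanishing discriminants
-/

namespace Pool.Agent.Lib.CPlane.S2Irr

open MvPolynomial

variable {σ : Type*} {K : Type*} [Field K] [DecidableEq σ]

/-- substitution of a constant for one variable -/
noncomputable def sb (l : σ) (c : K) : MvPolynomial σ K →ₐ[K] MvPolynomial σ K :=
  aeval (fun i => if i = l then C c else X i)

theorem sb_X_ne (l i : σ) (h : i ≠ l) (c : K) : sb l c (X i : MvPolynomial σ K) = X i := by
  simp [sb, h]

theorem sb_X_self (l : σ) (c : K) : sb l c (X l : MvPolynomial σ K) = C c := by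
  simp [sb]

theorem notMem_vars_of_degreeOf {P : MvPolynomial σ K} {l : σ} (h : P.degreeOf l = 0) :
    l ∉ P.vars := by
  rw [vars_def, Multiset.mem_toFinset, ← Multiset.count_eq_zero, ← degreeOf_def]
  exact h

theorem degreeOf_of_notMem_vars {P : MvPolynomial σ K} {l : σ} (h : l ∉ P.vars) :
    P.degreeOf l = 0 := by
  rw [vars_def, Multiset.mem_toFinset, ← Multiset.count_eq_zero, ← degreeOf_def] at h
  exact h

theorem sb_eq_self {P : MvPolynomial σ K} {l : σ} (h : P.degreeOf l = 0) (c : K) :
    sb l c P = P := by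
  have h1 : sb l c P = aeval (X : σ → MvPolynomial σ K) P := by
    unfold sb
    rw [aeval_def, aeval_def, ← coe_eval₂Hom, ← coe_eval₂Hom]
    apply eval₂Hom_congr' rfl _ rfl
    intro i hi _
    have : i ≠ l := by
      rintro rfl
      exact notMem_vars_of_degreeOf h hi
    simp [this]
  rw [h1, aeval_X_left_apply]

theorem sb_comm (l l' : σ) (h : l ≠ l') (c c' : K) (P : MvPolynomial σ K) :
    sb l' c' (sb l c P) = sb l c (sb l' c' P) := by
  have : (sb l' c').comp (sb l c) = (sb l c).comp (sb l' c' : MvPolynomial σ K →ₐ[K] _) := by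
    apply algHom_ext
    intro i
    simp only [AlgHom.comp_apply]
    by_cases h1 : i = l
    · subst h1
      rw [sb_X_self, sb_X_ne l' i h, sb_X_self]
      simp [sb]
    · by_cases h2 : i = l'
      · subst h2
        rw [sb_X_ne l i h1, sb_X_self]
        simp [sb]
      · rw [sb_X_ne l i h1, sb_X_ne l' i h2, sb_X_ne l i h1]
  exact DFunLike.congr_fun this P

/-- A multilinear polynomial all of whose discriminants are non-zero is irreducible. -/
theorem irreducible_of_disc (Φ : MvPolynomial σ K) (D : Finset σ)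
    (hne : ∃ l ∈ D, ∃ l' ∈ D, l ≠ l') (hvars : ∀ l, l ∉ D → Φ.degreeOf l = 0)
    (hdeg : ∀ l, Φ.degreeOf l ≤ 1)
    (hdisc : ∀ l ∈ D, ∀ l' ∈ D, l ≠ l' →
      sb l' 0 (sb l 0 Φ) * sb l' 1 (sb l 1 Φ) ≠ sb l' 1 (sb l 0 Φ) * sb l' 0 (sb l 1 Φ)) :
    Irreducible Φ := by
  obtain ⟨l0, hl0, l1, hl1, hl01⟩ := hne
  have hΦ : Φ ≠ 0 := by
    rintro rfl
    exact hdisc l0 hl0 l1 hl1 hl01 (by simp)
  have hconst : ∀ a : MvPolynomial σ K, a ≠ 0 → (∀ l, a.degreeOf l = 0) → IsUnit a := by
    intro a ha h
    have hv : a.vars = ∅ := by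
      apply Finset.eq_empty_of_forall_notMem
      intro l
      exact notMem_vars_of_degreeOf (h l)
    have h0 : a.totalDegree = 0 := by
      rw [totalDegree_eq_zero_iff]
      intro m hm l
      by_contra hne
      have : l ∈ a.vars := by
        rw [mem_vars]
        exact ⟨m, hm, by simpa using hne⟩
      rw [hv] at this
      simp at this
    rw [totalDegree_eq_zero_iff_eq_C] at h0
    rw [h0] at ha ⊢
    have : a.coeff 0 ≠ 0 := by
      intro h1
      rw [h1] at ha
      simp at ha
    exact (isUnit_iff_ne_zero.mpr this).map C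
  refine ⟨?_, ?_⟩
  · intro hu
    have h1 := MvPolynomial.isUnit_iff_eq_C_of_isReduced.mp hu
    obtain ⟨c, _, hc⟩ := h1
    apply hdisc l0 hl0 l1 hl1 hl01
    rw [hc]
    simp [sb]
  · intro a b hab
    have ha : a ≠ 0 := by
      rintro rfl
      simp at hab
      exact hΦ hab
    have hb : b ≠ 0 := by
      rintro rfl
      simp at hab
      exact hΦ hab
    have hsum : ∀ l, a.degreeOf l + b.degreeOf l ≤ 1 := by
      intro l
      rw [← degreeOf_mul_eq ha hb, ← hab]
      exact hdeg l
    have hout : ∀ l, l ∉ D → a.degreeOf l = 0 ∧ b.degreeOf l = 0 := by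
      intro l hl
      have := hvars l hl
      rw [hab, degreeOf_mul_eq ha hb] at this
      omega
    by_cases h1 : ∀ l, a.degreeOf l = 0
    · exact Or.inl (hconst a ha h1)
    by_cases h2 : ∀ l, b.degreeOf l = 0
    · exact Or.inr (hconst b hb h2)
    exfalso
    push Not at h1 h2
    obtain ⟨l, hl⟩ := h1
    obtain ⟨l', hl'⟩ := h2
    have hlD : l ∈ D := by
      by_contra h
      exact hl (hout l h).1
    have hlD' : l' ∈ D := by
      by_contra h
      exact hl' (hout l' h).2
    have hbl : b.degreeOf l = 0 := by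
      have := hsum l
      omega
    have hal : a.degreeOf l' = 0 := by
      have := hsum l'
      omega
    have hll : l ≠ l' := by
      rintro rfl
      exact hl hal
    have key : ∀ c c' : K, sb l' c' (sb l c Φ) = sb l c a * sb l' c' b := by
      intro c c'
      rw [hab, map_mul, map_mul, sb_eq_self hbl, sb_comm l l' hll, sb_eq_self hal]
    apply hdisc l hlD l' hlD' hll
    rw [key, key, key, key]
    ring

end Pool.Agent.Lib.CPlane.S2Irr
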