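import Mathlib
import Pool.Agent.Lib.CPlane.S2Irr

/-!
# Bookkeeping of divisors: a polynomial whose pull back is a product of multilinear primes
-/

namespace Pool.Agent.Lib.CPlane.S2Book

open MvPolynomial S2Irr

variable {K : Type*} [Field K]

theorem degreeOf_one_of_disc {σ : Type*} [DecidableEq σ] (Φ : MvPolynomial σ K) {l l' : σ}
    (hdeg : Φ.degreeOf l ≤ 1)
    (hdisc : sb l' 0 (sb l 0 Φ) * sb l' 1 (sb l 1 Φ) ≠ sb l' 1 (sb l 0 Φ) * sb l' 0 (sb l 1 Φ)) :
    Φ.degreeOf l = 1 := by
  by_contra h
  have h0 : Φ.degreeOf l = 0 := by omega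
  apply hdisc
  rw [sb_eq_self h0, sb_eq_self h0]
  ring

theorem degreeOf_finset_sum_le {σ ι : Type*} (l : σ) (s : Finset ι) (f : ι → MvPolynomial σ K)
    (d : ℕ) (h : ∀ i ∈ s, (f i).degreeOf l ≤ d) : (∑ i ∈ s, f i).degreeOf l ≤ d := by
  classical
  exact (degreeOf_sum_le l s f).trans (Finset.sup_le h)

/-- row-wise bound for the degree of a determinant in one variable -/
theorem degreeOf_det_le {σ n : Type*} [Fintype n] [DecidableEq n] (l : σ)
    (M : Matrix n n (MvPolynomial σ K)) (d : n → ℕ) (h : ∀ i j, (M i j).degreeOf l ≤ d i) :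
    M.det.degreeOf l ≤ ∑ i, d i := by
  classical
  rw [← Matrix.det_transpose, Matrix.det_apply]
  apply degreeOf_finset_sum_le
  intro τ _
  have h1 : (Equiv.Perm.sign τ • ∏ i, Matrix.transpose M (τ i) i).degreeOf l
      ≤ (∏ i, M i (τ i)).degreeOf l := by
    rcases Int.units_eq_one_or (Equiv.Perm.sign τ) with h | h
    · rw [h]; simp [Matrix.transpose_apply]
    · rw [h]
      simp only [Units.neg_smul, one_smul, Matrix.transpose_apply]
      rw [← neg_one_mul, ← C_1, ← C_neg]
      exact degreeOf_C_mul_le _ _ _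
  refine h1.trans ((degreeOf_prod_le _ _ _).trans (Finset.sum_le_sum (fun i _ => h i (τ i))))

theorem totalDegree_det_le {σ n : Type*} [Fintype n] [DecidableEq n]
    (M : Matrix n n (MvPolynomial σ K)) (d : n → ℕ) (h : ∀ i j, (M i j).totalDegree ≤ d i) :
    M.det.totalDegree ≤ ∑ i, d i := by
  classical
  rw [← Matrix.det_transpose, Matrix.det_apply]
  apply totalDegree_finsetSum_le
  intro τ _
  have h1 : (Equiv.Perm.sign τ • ∏ i, Matrix.transpose M (τ i) i).totalDegree
      ≤ (∏ i, M i (τ i)).totalDegree := by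
    rcases Int.units_eq_one_or (Equiv.Perm.sign τ) with h | h
    · rw [h]; simp [Matrix.transpose_apply]
    · rw [h]
      simp only [Units.neg_smul, one_smul, Matrix.transpose_apply, totalDegree_neg, le_refl]
  refine h1.trans ((totalDegree_finsetProd _ _).trans
    (Finset.sum_le_sum (fun i _ => h i (τ i))))

/-- the degree in one variable of a pull back is at most the total degree -/
theorem degreeOf_aeval_le {I C : Type*} (U : I → MvPolynomial C K) (l : C)
    (hU : ∀ i, (U i).degreeOf l ≤ 1) (P : MvPolynomial I K) :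
    (aeval U P).degreeOf l ≤ P.totalDegree := by
  classical
  rw [aeval_def, eval₂_eq]
  apply degreeOf_finset_sum_le
  intro d hd
  have h1 : ((algebraMap K (MvPolynomial C K)) (P.coeff d) * ∏ i ∈ d.support, U i ^ d i).degreeOf l
      ≤ (∏ i ∈ d.support, U i ^ d i).degreeOf l := by
    rw [algebraMap_eq]
    exact degreeOf_C_mul_le _ _ _
  refine h1.trans ((degreeOf_prod_le _ _ _).trans ?_)
  have h2 : ∀ i ∈ d.support, (U i ^ d i).degreeOf l ≤ d i := by
    intro i _
    refine (degreeOf_pow_le _ _ _).trans ?_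
    calc d i * (U i).degreeOf l ≤ d i * 1 := Nat.mul_le_mul_left _ (hU i)
      _ = d i := mul_one _
  refine (Finset.sum_le_sum h2).trans ?_
  exact le_totalDegree hd

/-- **Bookkeeping lemma.** -/
theorem irreducible_of_prod {I C : Type*} [Fintype C] (W : MvPolynomial I K)
    (U : I → MvPolynomial C K) (Φ : C → MvPolynomial C K) (hΦ : ∀ k, Irreducible (Φ k))
    (hdeg : ∀ k l, l ≠ k → (Φ k).degreeOf l = 1) (hdeg' : ∀ k, (Φ k).degreeOf k = 0)
    (hU : ∀ i l, (U i).degreeOf l ≤ 1) (hW : aeval U W = ∏ k, Φ k)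
    (htot : W.totalDegree ≤ Fintype.card C - 1) (hC : 1 ≤ Fintype.card C) :
    Irreducible W := by
  classical
  have hne : ∀ k, Φ k ≠ 0 := fun k => (hΦ k).ne_zero
  have hprod : ∏ k, Φ k ≠ 0 := Finset.prod_ne_zero_iff.mpr (fun k _ => hne k)
  have hW0 : W ≠ 0 := by
    rintro rfl
    rw [map_zero] at hW
    exact hprod hW.symm
  have hunit : ∀ P : MvPolynomial I K, P ≠ 0 → P.totalDegree = 0 → IsUnit P := by
    intro P hP h
    rw [totalDegree_eq_zero_iff_eq_C] at h
    rw [h] at hP ⊢
    have : P.coeff 0 ≠ 0 := by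
      intro h1
      rw [h1] at hP
      simp at hP
    exact (isUnit_iff_ne_zero.mpr this).map MvPolynomial.C
  obtain ⟨k0⟩ : Nonempty C := Fintype.card_pos_iff.mp (by omega)
  refine ⟨?_, ?_⟩
  · intro hu
    have h1 : IsUnit (∏ k, Φ k) := by
      rw [← hW]
      exact hu.map _
    exact (hΦ k0).not_isUnit (isUnit_of_dvd_unit (Finset.dvd_prod_of_mem _ (Finset.mem_univ k0)) h1)
  · intro P Q hPQ
    have hP : P ≠ 0 := by rintro rfl; simp at hPQ; exact hW0 hPQ
    have hQ : Q ≠ 0 := by rintro rfl; simp at hPQ; exact hW0 hPQ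
    have h1 : aeval U P * aeval U Q = 1 * ∏ k, Φ k := by
      rw [one_mul, ← hW, hPQ, map_mul]
    obtain ⟨t, u, b, c, htu, hdis, hbc, hx, hy⟩ :=
      mul_eq_mul_prime_prod (fun k _ => (hΦ k).prime) h1
    have hb : IsUnit b := IsUnit.of_mul_eq_one c hbc.symm
    have hc : IsUnit c := IsUnit.of_mul_eq_one b (by rw [mul_comm]; exact hbc.symm)
    have hud : ∀ (a : MvPolynomial C K) (l : C), IsUnit a → a.degreeOf l = 0 := by
      intro a l ha
      obtain ⟨r, _, hr⟩ := MvPolynomial.isUnit_iff_eq_C_of_isReduced.mp ha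
      rw [hr, degreeOf_C]
    have hdP : ∀ (a : MvPolynomial C K) (s : Finset C) (l : C), IsUnit a →
        (a * ∏ k ∈ s, Φ k).degreeOf l = (s.erase l).card := by
      intro a s l ha
      rw [degreeOf_mul_eq ha.ne_zero (Finset.prod_ne_zero_iff.mpr (fun k _ => hne k)),
        hud a l ha, zero_add, degreeOf_prod_eq _ _ (fun k _ => hne k)]
      rw [Finset.card_eq_sum_ones]
      by_cases hl : l ∈ s
      · rw [← Finset.add_sum_erase _ _ hl, hdeg' l, zero_add]
        apply Finset.sum_congr rfl
        intro k hk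
        exact hdeg k l (Finset.ne_of_mem_erase hk).symm
      · rw [Finset.erase_eq_of_notMem hl]
        apply Finset.sum_congr rfl
        intro k hk
        apply hdeg k l
        rintro rfl
        exact hl hk
    have e1 : ∀ l, (t.erase l).card ≤ P.totalDegree := by
      intro l
      rw [← hdP b t l hb, ← hx]
      exact degreeOf_aeval_le U l (fun i => hU i l) P
    have e2 : ∀ l, (u.erase l).card ≤ Q.totalDegree := by
      intro l
      rw [← hdP c u l hc, ← hy]
      exact degreeOf_aeval_le U l (fun i => hU i l) Q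
    have e3 : P.totalDegree + Q.totalDegree ≤ Fintype.card C - 1 := by
      rw [← totalDegree_mul_of_isDomain hP hQ, ← hPQ]
      exact htot
    have e4 : ∀ l, (t.erase l).card + (u.erase l).card = Fintype.card C - 1 := by
      intro l
      rw [← Finset.card_union_of_disjoint, ← Finset.erase_union_distrib, htu,
        Finset.card_erase_of_mem (Finset.mem_univ l), Finset.card_univ]
      exact hdis.mono (Finset.erase_subset _ _) (Finset.erase_subset _ _)
    have e5 : ∀ l, (t.erase l).card = P.totalDegree ∧ (u.erase l).card = Q.totalDegree := by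
      intro l
      have := e1 l
      have := e2 l
      have := e4 l
      omega
    by_cases ht : t = ∅
    · left
      apply hunit P hP
      rw [← (e5 k0).1, ht]
      simp
    by_cases hu' : u = ∅
    · right
      apply hunit Q hQ
      rw [← (e5 k0).2, hu']
      simp
    exfalso
    obtain ⟨a, ha⟩ := Finset.nonempty_iff_ne_empty.mpr ht
    obtain ⟨a', ha'⟩ := Finset.nonempty_iff_ne_empty.mpr hu'
    have ha't : a' ∉ t := fun h => (Finset.disjoint_left.mp hdis h) ha'
    have h5 := (e5 a).1
    have h6 := (e5 a').1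
    rw [Finset.card_erase_of_mem ha] at h5
    rw [Finset.erase_eq_of_notMem ha't] at h6
    have : 0 < t.card := Finset.card_pos.mpr ⟨a, ha⟩
    omega

end Pool.Agent.Lib.CPlane.S2Book
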