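import Mathlib
import Pool.Agent.Lib.CPlane.S2Irr

/-!
# The leaf lemma: determinant identities
-/

namespace Pool.Agent.Lib.CPlane.S2Leaf

open Matrix

section det

variable {n : Type*} [Fintype n] [DecidableEq n] {R : Type*} [CommRing R]

/-- Cramer in row form -/
theorem cramer_row (M : Matrix n n R) (a : n → R) :
    ∑ j, (M.updateRow j a).det • (fun i => M j i) = M.det • a := by
  have h := mulVec_cramer Mᵀ a
  rw [det_transpose] at h
  rw [← h]
  ext i
  simp only [Finset.sum_apply, Pi.smul_apply, smul_eq_mul, mulVec, dotProduct, transpose_apply,
    cramer_transpose_apply]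
  apply Finset.sum_congr rfl
  intro j _
  ring

theorem det_updateRow_sum_smul {ι : Type*} (M : Matrix n n R) (j : n) (s : Finset ι)
    (c : ι → R) (v : ι → n → R) :
    (M.updateRow j (∑ i ∈ s, c i • v i)).det = ∑ i ∈ s, c i * (M.updateRow j (v i)).det := by
  rw [← cramer_transpose_apply, map_sum, Finset.sum_apply]
  apply Finset.sum_congr rfl
  intro i _
  rw [map_smul, Pi.smul_apply, cramer_transpose_apply, smul_eq_mul]

theorem det_swap_rows (N : Matrix n n R) {l l' : n} (h : l ≠ l') (u v : n → R) :
    ((N.updateRow l u).updateRow l' v).det = -((N.updateRow l v).updateRow l' u).det := by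
  have h1 : ((N.updateRow l u).updateRow l' v) =
      (fun i => ((N.updateRow l v).updateRow l' u) (Equiv.swap l l' i) : n → n → R) := by
    funext i j
    by_cases h1 : i = l'
    · subst h1
      rw [Equiv.swap_apply_right, updateRow_self, updateRow_ne h, updateRow_self]
    · by_cases h2 : i = l
      · subst h2
        rw [Equiv.swap_apply_left, updateRow_self, updateRow_ne h, updateRow_self]
      · rw [Equiv.swap_apply_of_ne_of_ne h2 h1, updateRow_ne h1, updateRow_ne h2,
          updateRow_ne h1, updateRow_ne h2]
  have h2 := (detRowAlternating (n := n) (R := R)).map_swap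
    ((N.updateRow l v).updateRow l' u) h
  rw [h1]
  exact h2

/-- the three term Plücker relation -/
theorem plucker (N : Matrix n n R) {l l' : n} (h : l ≠ l') (a a' b b' : n → R) :
    ((N.updateRow l b).updateRow l' b').det * ((N.updateRow l a).updateRow l' a').det
      = ((N.updateRow l a).updateRow l' b).det * ((N.updateRow l a').updateRow l' b').det
        - ((N.updateRow l a).updateRow l' b').det * ((N.updateRow l a').updateRow l' b).det := by
  set M := (N.updateRow l b).updateRow l' b' with hM
  set N' := N.updateRow l' a' with hN'
  have h1 := cramer_row M a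
  have h2 : (N'.updateRow l (∑ j, (M.updateRow j a).det • (fun i => M j i))).det
      = (N'.updateRow l (M.det • a)).det := by rw [h1]
  rw [det_updateRow_sum_smul, det_updateRow_smul, ← Finset.add_sum_erase _ _ (Finset.mem_univ l),
    ← Finset.add_sum_erase _ _ (Finset.mem_erase.mpr ⟨h.symm, Finset.mem_univ l'⟩)] at h2
  have h3 : ∑ x ∈ (Finset.univ.erase l).erase l',
      (M.updateRow x a).det * (N'.updateRow l (fun i => M x i)).det = 0 := by
    apply Finset.sum_eq_zero
    intro j hj
    simp only [Finset.mem_erase, Finset.mem_univ, and_true] at hj
    have : (fun i => M j i) = N' j := by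
      funext i
      rw [hM, hN', updateRow_ne hj.1, updateRow_ne hj.2, updateRow_ne hj.1]
    rw [this, det_updateRow_eq_zero hj.2, mul_zero]
  rw [h3, add_zero] at h2
  have e1 : (fun i => M l i) = b := by
    funext i
    rw [hM, updateRow_ne h, updateRow_self]
  have e2 : (fun i => M l' i) = b' := by
    funext i
    rw [hM, updateRow_self]
  have e3 : M.updateRow l a = (N.updateRow l a).updateRow l' b' := by
    rw [hM, updateRow_comm _ h.symm, updateRow_idem]
  have e4 : M.updateRow l' a = (N.updateRow l b).updateRow l' a := by
    rw [hM, updateRow_idem]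
  have e5 : ∀ v, N'.updateRow l v = (N.updateRow l v).updateRow l' a' := by
    intro v
    rw [hN', updateRow_comm _ h.symm]
  rw [e1, e2, e3, e4, e5, e5, e5, det_swap_rows N h b a', det_swap_rows N h b a,
    det_swap_rows N h b' a'] at h2
  rw [← h2]
  ring

end det

section leaf

variable {C : Type*} [Fintype C] [DecidableEq C] {R : Type*} [CommRing R]

/-- the matrix with the row `a` on top and the rows `r l` below -/
def mat (a : Option C → R) (r : C → Option C → R) : Matrix (Option C) (Option C) R :=
  Matrix.of (fun o => o.elim a r)

omit [Fintype C] in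
theorem updateRow_none (a a' : Option C → R) (r : C → Option C → R) :
    (mat a r).updateRow none a' = mat a' r := by
  ext o i
  cases o with
  | none => rw [updateRow_self]; rfl
  | some l => rw [updateRow_ne (by simp)]; rfl

omit [Fintype C] in
theorem updateRow_some (a : Option C → R) (r : C → Option C → R) (k : C) (v : Option C → R) :
    (mat a r).updateRow (some k) v = mat a (Function.update r k v) := by
  ext o i
  cases o with
  | none => rw [updateRow_ne (by simp)]; rfl
  | some l =>
    by_cases h : l = k
    · subst h
      rw [updateRow_self]
      simp [mat]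
    · rw [updateRow_ne (by simpa using h)]
      simp [mat, h]

theorem det_mat_update_add (a : Option C → R) (r : C → Option C → R) (k : C)
    (u v : Option C → R) :
    (mat a (Function.update r k (u + v))).det
      = (mat a (Function.update r k u)).det + (mat a (Function.update r k v)).det := by
  rw [← updateRow_some, ← updateRow_some, ← updateRow_some, det_updateRow_add]

theorem det_mat_update_smul (a : Option C → R) (r : C → Option C → R) (k : C) (c : R)
    (u : Option C → R) :
    (mat a (Function.update r k (c • u))).det
      = c * (mat a (Function.update r k u)).det := by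
  rw [← updateRow_some, ← updateRow_some, det_updateRow_smul]

theorem det_mat_swap (a : Option C → R) (r : C → Option C → R) (k : C) (v : Option C → R) :
    (mat a (Function.update r k v)).det = -(mat v (Function.update r k a)).det := by
  have h := det_swap_rows (mat a r) (l := none) (l' := some k) (by simp) a v
  rw [updateRow_none, updateRow_none, updateRow_some, updateRow_some] at h
  exact h

theorem det_mat_eq_zero (a : Option C → R) (r : C → Option C → R) (k : C) (h : r k = a) :
    (mat a r).det = 0 := by
  apply det_zero_of_row_eq (i := none) (j := some k) (by simp)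
  funext i
  simp [mat, h]

/-- the alternating form `α_l(x, ·)` -/
def alph (g y : C → Option C → R) (x : Option C → R) (l : C) : Option C → R :=
  (g l ⬝ᵥ x) • y l - (y l ⬝ᵥ x) • g l

/-- the polynomial `w` of a near tight set, written without division -/
def w (g y : C → Option C → R) (k : C) (x : Option C → R) : R :=
  (mat (g k) (Function.update (alph g y x) k (y k))).det

theorem alph_dot (g y : C → Option C → R) (x : Option C → R) (l : C) :
    alph g y x l ⬝ᵥ x = 0 := by
  simp only [alph, sub_dotProduct, smul_dotProduct, smul_eq_mul]
  ring

/-- the basic identity: the determinant of `lam, α_l(x, ·)` is `lam(x) w(x)` -/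
theorem det_alph (g y : C → Option C → R) (k : C) (x lam : Option C → R) :
    (mat lam (alph g y x)).det = (lam ⬝ᵥ x) * w g y k x := by
  set r := alph g y x with hr
  set M := mat (g k) (Function.update r k (y k)) with hM
  have h1 := congrArg (fun v => v ⬝ᵥ x) (cramer_row M lam)
  simp only [sum_dotProduct, smul_dotProduct, smul_eq_mul] at h1
  rw [Fintype.sum_option, ← Finset.add_sum_erase _ _ (Finset.mem_univ k)] at h1
  have h2 : ∑ l ∈ Finset.univ.erase k,
      (M.updateRow (some l) lam).det * ((fun i => M (some l) i) ⬝ᵥ x) = 0 := by
    apply Finset.sum_eq_zero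
    intro l hl
    have hlk : l ≠ k := Finset.ne_of_mem_erase hl
    have : (fun i => M (some l) i) = alph g y x l := by
      funext i
      simp [hM, mat, hlk, hr]
    rw [this, alph_dot, mul_zero]
  rw [h2, add_zero] at h1
  have e1 : (fun i => M none i) = g k := by
    funext i
    simp [hM, mat]
  have e2 : (fun i => M (some k) i) = y k := by
    funext i
    simp [hM, mat]
  rw [e1, e2, hM, updateRow_none, updateRow_some, Function.update_idem] at h1
  have h3 : mat lam r = mat lam (Function.update r k ((g k ⬝ᵥ x) • y k + (-(y k ⬝ᵥ x)) • g k)) := by
    congr 1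
    rw [eq_comm, Function.update_eq_self_iff, hr]
    simp only [alph, neg_smul, sub_eq_add_neg]
  rw [h3, det_mat_update_add, det_mat_update_smul, det_mat_update_smul, det_mat_swap lam r k (g k)]
  unfold w
  rw [← hr, mul_comm (lam ⬝ᵥ x), ← h1]
  ring

end leaf

end Pool.Agent.Lib.CPlane.S2Leaf
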