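import Mathlib
import Pool.Agent.Lib.CPlane.LFDefs
import Pool.Agent.Lib.CPlane.S2Leaf
import Pool.Agent.Lib.CPlane.S2Book
import Pool.Agent.Lib.CPlane.Leaf2

/-!
# The leaf lemma: `w_C` is irreducible and full
-/

set_option autoImplicit false
set_option linter.unusedSectionVars false

namespace Pool.Agent.Lib.CPlane.LF

open MvPolynomial S2Irr S2Book

variable {E I C D : Type} [Field E] [CharP E 2] [Fintype I] [DecidableEq I]
  [DecidableEq C]

/-- rows `y_k; g_k, u` at `l`, `v` at `l'`, `R_j` elsewhere -/
noncomputable def F2 (ep : I ≃ Option C ⊕ D) (g y : C → I → E) (ν : D → I → E) (k l l' : C)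
    (u v : I → MvPolynomial C E) : MvPolynomial C E :=
  dt ep (cs (y k)) (Function.update (Function.update (Function.update (Rt g y) k (cs (g k)))
    l u) l' v) (cst ν)

/-- Rado's condition in determinant form -/
def R4 (ep : I ≃ Option C ⊕ D) (g y : C → I → E) (ν : D → I → E) : Prop :=
  ∀ k l l' : C, k ≠ l → k ≠ l' → l ≠ l' → F2 ep g y ν k l l' (cs (g l)) (cs (y l)) ≠ 0

section disc

variable (ep : I ≃ Option C ⊕ D) (g y : C → I → E) (ν : D → I → E)

theorem F2_add_right (k l l' : C) (u v v' : I → MvPolynomial C E) :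
    F2 ep g y ν k l l' u (v + v') = F2 ep g y ν k l l' u v + F2 ep g y ν k l l' u v' :=
  dt_row_add ep _ _ _ _ _ _

theorem F2_same (k l l' : C) (h : l ≠ l') (u : I → MvPolynomial C E) :
    F2 ep g y ν k l l' u u = 0 :=
  dt_row_eq ep _ _ _ h (by simp [Function.update_of_ne h])

theorem F2_eq_det (k l l' : C) (u v : I → MvPolynomial C E) :
    F2 ep g y ν k l l' u v =
      (((Mx ep (cs (y k)) (Function.update (Rt g y) k (cs (g k))) (cst ν)).updateRow
        (ep.symm (Sum.inl (some l))) u).updateRow (ep.symm (Sum.inl (some l'))) v).det := by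
  rw [F2, dt, Mx_row, Mx_row]

theorem F2_pluecker (k l l' : C) (h : l ≠ l') (a a' b b' : I → MvPolynomial C E) :
    F2 ep g y ν k l l' b b' * F2 ep g y ν k l l' a a' =
      F2 ep g y ν k l l' a b * F2 ep g y ν k l l' a' b' -
      F2 ep g y ν k l l' a b' * F2 ep g y ν k l l' a' b := by
  simp only [F2_eq_det]
  apply S2Leaf.plucker
  intro hh
  exact h (by simpa using ep.symm.injective hh)

theorem F2_swap (k l l' : C) (h : l ≠ l') (u v : I → MvPolynomial C E) :
    F2 ep g y ν k l l' u v = F2 ep g y ν k l' l u v := by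
  rw [F2, dt_swap_rows ep _ _ _ _ _ h, Function.update_comm h, F2]

/-- the substitution of constants in `Ph` -/
theorem sb_Ph (k l l' : C) (hkl : k ≠ l) (hkl' : k ≠ l') (h : l ≠ l') (c c' : E) :
    sb l' c' (sb l c (Ph ep g y ν k)) =
      F2 ep g y ν k l l' (cs (g l + c • y l)) (cs (g l' + c' • y l')) := by
  have h1 := dt_map ep (((sb l' c').comp (sb l c) :
    MvPolynomial C E →ₐ[E] MvPolynomial C E) : MvPolynomial C E →+* MvPolynomial C E)
    (cs (y k)) (Function.update (Rt g y) k (cs (g k))) (cst ν)
  have h2 : ((((sb l' c').comp (sb l c) : MvPolynomial C E →ₐ[E] MvPolynomial C E) :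
      MvPolynomial C E →+* MvPolynomial C E)) (dt ep (cs (y k))
        (Function.update (Rt g y) k (cs (g k))) (cst ν)) = sb l' c' (sb l c (Ph ep g y ν k)) :=
    rfl
  rw [h2] at h1
  rw [h1, F2]
  have hC : ∀ r : E, sb l' c' (sb l c (MvPolynomial.C r : MvPolynomial C E)) =
      MvPolynomial.C r := by
    intro r
    simp [sb]
  congr 1
  · ext1 i
    exact hC _
  · ext1 j
    ext1 i
    show sb l' c' (sb l c (Function.update (Rt g y) k (cs (g k)) j i)) = _
    by_cases hj : j = k
    · subst hj
      rw [Function.update_self, Function.update_of_ne hkl', Function.update_of_ne hkl,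
        Function.update_self]
      exact hC _
    · rw [Function.update_of_ne hj]
      by_cases hj1 : j = l'
      · subst hj1
        rw [Function.update_self, Rt, map_add, map_add, map_mul, map_mul, hC, hC,
          sb_X_ne l j h.symm, sb_X_self]
        simp [cs]
      · rw [Function.update_of_ne hj1]
        by_cases hj2 : j = l
        · subst hj2
          rw [Function.update_self, Rt, map_add, map_add, map_mul, map_mul, hC, hC,
            sb_X_self]
          have : sb l' c' (MvPolynomial.C c : MvPolynomial C E) = MvPolynomial.C c := by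
            simp [sb]
          rw [this]
          simp [cs]
        · rw [Function.update_of_ne hj2, Function.update_of_ne hj, Rt, map_add, map_add,
            map_mul, map_mul, hC, hC, sb_X_ne l j hj2, sb_X_ne l' j hj1]
  · ext1 d
    ext1 i
    exact hC _

theorem cs_add (u v : I → E) : (cs (u + v) : I → MvPolynomial C E) = cs u + cs v := by
  ext1 i
  simp [cs]

theorem disc_ne {ep : I ≃ Option C ⊕ D} {g y : C → I → E} {ν : D → I → E}
    (hR : R4 ep g y ν) (k l l' : C) (hkl : k ≠ l) (hkl' : k ≠ l') (h : l ≠ l') :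
    sb l' 0 (sb l 0 (Ph ep g y ν k)) * sb l' 1 (sb l 1 (Ph ep g y ν k)) ≠
      sb l' 1 (sb l 0 (Ph ep g y ν k)) * sb l' 0 (sb l 1 (Ph ep g y ν k)) := by
  rw [sb_Ph ep g y ν k l l' hkl hkl' h, sb_Ph ep g y ν k l l' hkl hkl' h,
    sb_Ph ep g y ν k l l' hkl hkl' h, sb_Ph ep g y ν k l l' hkl hkl' h]
  simp only [zero_smul, add_zero, one_smul]
  intro heq
  have h1 := F2_pluecker ep g y ν k l l' h (cs (g l)) (cs (g l + y l)) (cs (g l'))
    (cs (g l' + y l'))
  rw [heq, sub_self] at h1
  rcases mul_eq_zero.mp h1 with h2 | h2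
  · rw [cs_add, F2_add_right, F2_same ep g y ν k l l' h, zero_add,
      F2_swap ep g y ν k l l' h] at h2
    exact hR k l' l hkl' hkl h.symm h2
  · rw [cs_add, F2_add_right, F2_same ep g y ν k l l' h, zero_add] at h2
    exact hR k l l' hkl hkl' h h2

end disc

section degrees

variable (ep : I ≃ Option C ⊕ D) (g y : C → I → E) (ν : D → I → E)

theorem degreeOf_cs (l : C) (v : I → E) (i : I) :
    ((cs v : I → MvPolynomial C E) i).degreeOf l = 0 := degreeOf_C _ _

theorem degreeOf_Rt (l j : C) (i : I) :
    (Rt g y j i).degreeOf l ≤ if l = j then 1 else 0 := by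
  rw [Rt]
  refine (degreeOf_add_le _ _ _).trans ?_
  rw [degreeOf_C, Nat.zero_max, mul_comm]
  refine (degreeOf_C_mul_le _ _ _).trans ?_
  classical
  rw [degreeOf_X]

/-- row-wise degree bound for the determinants `dt` with at most one non-constant row -/
theorem degreeOf_dt_le (l : C) (μ : I → MvPolynomial C E) (r : C → I → MvPolynomial C E)
    (hμ : ∀ i, (μ i).degreeOf l = 0) (hr : ∀ j i, j ≠ l → (r j i).degreeOf l = 0)
    (hl : ∀ i, (r l i).degreeOf l ≤ 1) : (dt ep μ r (cst ν)).degreeOf l ≤ 1 := by
  rw [dt]
  have h := degreeOf_det_le l (Mx ep μ r (cst ν))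
    (fun i => if i = ep.symm (Sum.inl (some l)) then 1 else 0) ?_
  · rw [Finset.sum_ite_eq' Finset.univ] at h
    simpa using h
  · intro i j
    by_cases hi : i = ep.symm (Sum.inl (some l))
    · subst hi
      simpa [Mx] using hl j
    · rw [if_neg hi]
      simp only [Mx, Matrix.of_apply]
      rcases hi' : ep i with o | d
      · rcases o with _ | j'
        · simpa using (hμ j).le
        · have : j' ≠ l := by
            rintro rfl
            exact hi (by rw [← hi']; simp)
          simpa using (hr j' j this).le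
      · simp [cst]

theorem degreeOf_dt_zero (l : C) (μ : I → MvPolynomial C E) (r : C → I → MvPolynomial C E)
    (hμ : ∀ i, (μ i).degreeOf l = 0) (hr : ∀ j i, (r j i).degreeOf l = 0) :
    (dt ep μ r (cst ν)).degreeOf l = 0 := by
  rw [dt]
  have h := degreeOf_det_le l (Mx ep μ r (cst ν)) (fun _ => 0) ?_
  · simpa using h
  · intro i j
    simp only [Mx, Matrix.of_apply]
    rcases hi' : ep i with o | d
    · rcases o with _ | j'
      · simpa using (hμ j).le
      · simpa using (hr j' j).le
    · simp [cst]

theorem Ph_degreeOf_le (k l : C) : (Ph ep g y ν k).degreeOf l ≤ 1 := by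
  apply degreeOf_dt_le
  · exact degreeOf_cs l _
  · intro j i hj
    by_cases hjk : j = k
    · subst hjk
      rw [Function.update_self]
      exact degreeOf_cs l _ i
    · rw [Function.update_of_ne hjk]
      have := degreeOf_Rt g y l j i
      rw [if_neg hj.symm] at this
      omega
  · intro i
    by_cases hlk : l = k
    · subst hlk
      rw [Function.update_self, degreeOf_cs]
      omega
    · rw [Function.update_of_ne hlk]
      have := degreeOf_Rt g y l l i
      rw [if_pos rfl] at this
      exact this

theorem Ph_degreeOf_self (k : C) : (Ph ep g y ν k).degreeOf k = 0 := by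
  apply degreeOf_dt_zero
  · exact degreeOf_cs k _
  · intro j i
    by_cases hjk : j = k
    · subst hjk
      rw [Function.update_self]
      exact degreeOf_cs j _ i
    · rw [Function.update_of_ne hjk]
      have := degreeOf_Rt g y k j i
      rw [if_neg (Ne.symm hjk)] at this
      omega

theorem Ut_degreeOf_le (i : I) (l : C) : (Ut ep g y ν i).degreeOf l ≤ 1 := by
  apply degreeOf_dt_le
  · intro j
    by_cases h : j = i
    · subst h
      simp
    · simp [Pi.single_apply, h]
  · intro j i' hj
    have := degreeOf_Rt g y l j i'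
    rw [if_neg hj.symm] at this
    omega
  · intro i'
    have := degreeOf_Rt g y l l i'
    rw [if_pos rfl] at this
    exact this

variable {ep g y ν}

variable [Fintype C]

theorem exists_third (hC : 3 ≤ Fintype.card C) (k l : C) : ∃ l' : C, l' ≠ k ∧ l' ≠ l := by
  by_contra h
  push Not at h
  have : (Finset.univ : Finset C) ⊆ {k, l} := by
    intro x _
    by_cases hx : x = k
    · simp [hx]
    · simp [h x hx]
  have := Finset.card_le_card this
  rw [Finset.card_univ] at this
  have h2 : ({k, l} : Finset C).card ≤ 2 := Finset.card_le_two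
  omega

theorem Ph_degreeOf (hC : 3 ≤ Fintype.card C) (hR : R4 ep g y ν) (k l : C) (h : l ≠ k) :
    (Ph ep g y ν k).degreeOf l = 1 := by
  obtain ⟨l', h1, h2⟩ := exists_third hC k l
  exact degreeOf_one_of_disc _ (Ph_degreeOf_le ep g y ν k l)
    (disc_ne hR k l l' h.symm h1.symm h2.symm)

theorem Ph_irreducible (hC : 3 ≤ Fintype.card C) (hR : R4 ep g y ν) (k : C) :
    Irreducible (Ph ep g y ν k) := by
  obtain ⟨l, hl, _⟩ := exists_third hC k k
  obtain ⟨l', h1, h2⟩ := exists_third hC k l
  apply irreducible_of_disc _ (Finset.univ.erase k)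
  · exact ⟨l, by simp [hl], l', by simp [h1], h2.symm⟩
  · intro j hj
    have : j = k := by simpa using hj
    subst this
    exact Ph_degreeOf_self ep g y ν j
  · exact Ph_degreeOf_le ep g y ν k
  · intro j hj j' hj' hjj
    have e1 : j ≠ k := by simpa using hj
    have e2 : j' ≠ k := by simpa using hj'
    exact disc_ne hR k j j' e1.symm e2.symm hjj

theorem totalDegree_al_le (a b : I → E) (i : I) :
    ((al (cs a) (cs b) X : I → MvPolynomial I E) i).totalDegree ≤ 1 := by
  have hev : ∀ c : I → E, (ev (cs c) (X : I → MvPolynomial I E)).totalDegree ≤ 1 := by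
    intro c
    unfold ev
    apply totalDegree_finsetSum_le
    intro j _
    refine (totalDegree_mul _ _).trans ?_
    rw [cs, totalDegree_C, zero_add]
    exact (totalDegree_X j).le
  unfold al
  refine (totalDegree_add _ _).trans (max_le ?_ ?_)
  · refine (totalDegree_mul _ _).trans ?_
    rw [cs, totalDegree_C, add_zero]
    exact hev b
  · refine (totalDegree_mul _ _).trans ?_
    rw [cs, totalDegree_C, add_zero]
    exact hev a

theorem wC_totalDegree_le (k : C) : (wC ep g y ν k).totalDegree ≤ Fintype.card C - 1 := by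
  have h := totalDegree_det_le (Mx ep (cs (y k)) (Function.update
    (fun l => al (cs (g l)) (cs (y l)) X) k (cs (g k))) (cst ν))
    (fun i => ∑ l ∈ Finset.univ.erase k, if i = ep.symm (Sum.inl (some l)) then 1 else 0) ?_
  · refine h.trans ?_
    rw [Finset.sum_comm]
    have : ∀ l ∈ Finset.univ.erase k,
        (∑ i : I, if i = ep.symm (Sum.inl (some l)) then 1 else 0) = 1 := by
      intro l _
      rw [Finset.sum_ite_eq' Finset.univ]
      simp
    rw [Finset.sum_congr rfl this, Finset.sum_const, smul_eq_mul, mul_one,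
      Finset.card_erase_of_mem (Finset.mem_univ k), Finset.card_univ]
  · intro i j
    simp only [Mx, Matrix.of_apply]
    rcases hi' : ep i with o | d
    · rcases o with _ | l
      · simp [cs]
      · by_cases hl : l = k
        · subst hl
          simp [cs]
        · simp only [Sum.elim_inl, Option.elim_some, Function.update_of_ne hl]
          refine (totalDegree_al_le (g l) (y l) j).trans ?_
          have hi : i = ep.symm (Sum.inl (some l)) := by rw [← hi']; simp
          refine le_trans ?_ (Finset.single_le_sum (f := fun l => if i = ep.symm (Sum.inl (some l))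
            then 1 else 0) (fun _ _ => Nat.zero_le _) (show l ∈ Finset.univ.erase k by simp [hl]))
          rw [if_pos hi]
    · simp [cst]

/-- **`w_C` is irreducible in the full polynomial ring.** -/
theorem wC_irreducible (hC : 3 ≤ Fintype.card C) (hR : R4 ep g y ν) (k : C) :
    Irreducible (wC ep g y ν k) :=
  irreducible_of_prod (wC ep g y ν k) (Ut ep g y ν) (Ph ep g y ν)
    (fun j => Ph_irreducible hC hR j) (fun j l h => Ph_degreeOf hC hR j l h)
    (fun j => Ph_degreeOf_self ep g y ν j) (fun i l => Ut_degreeOf_le ep g y ν i l)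
    (aeval_wC ep g y ν k) (wC_totalDegree_le k) (by omega)

end degrees

section full

variable {ep : I ≃ Option C ⊕ D} {g y : C → I → E} {ν : D → I → E} [Fintype C]

theorem Ph_not_dvd (hC : 3 ≤ Fintype.card C) (hR : R4 ep g y ν) (l j : C) (h : j ≠ l) :
    ¬ Ph ep g y ν l ∣ Ph ep g y ν j := by
  rintro ⟨B, hB⟩
  have hj := (Ph_irreducible hC hR j)
  have hl := (Ph_irreducible hC hR l)
  have hB0 : B ≠ 0 := by
    rintro rfl
    rw [mul_zero] at hB
    exact hj.ne_zero hB
  have hu : IsUnit B := by
    rcases hj.isUnit_or_isUnit hB with h1 | h1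
    · exact absurd h1 hl.not_isUnit
    · exact h1
  obtain ⟨r, _, hr⟩ := MvPolynomial.isUnit_iff_eq_C_of_isReduced.mp hu
  have h1 := congrArg (degreeOf j) hB
  rw [degreeOf_mul_eq hl.ne_zero hB0, Ph_degreeOf_self, hr, degreeOf_C,
    Ph_degreeOf hC hR l j h] at h1
  omega

/-- if the first variable row is `α_l(v)` then the determinant vanishes only for `α_l(v) = 0` -/
theorem lin_zero (hC : 3 ≤ Fintype.card C) (hR : R4 ep g y ν) (k l : C) (h : k ≠ l) (a b : E)
    (hab : MvPolynomial.C a * sb l 0 (Ph ep g y ν k) +
      MvPolynomial.C b * (sb l 1 (Ph ep g y ν k) + sb l 0 (Ph ep g y ν k)) = 0) :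
    a = 0 ∧ b = 0 := by
  obtain ⟨l', h1, h2⟩ := exists_third hC k l
  have hd := disc_ne hR k l l' h h1.symm h2.symm
  set P0 := sb l 0 (Ph ep g y ν k) with hP0
  set P1 := sb l 1 (Ph ep g y ν k) with hP1
  have hsb : ∀ c : E, MvPolynomial.C a * sb l' c P0 +
      MvPolynomial.C b * (sb l' c P1 + sb l' c P0) = 0 := by
    intro c
    have := congrArg (sb l' c) hab
    rw [map_add, map_mul, map_mul, map_add, map_zero] at this
    have e : ∀ r : E, sb l' c (MvPolynomial.C r : MvPolynomial C E) = MvPolynomial.C r := by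
      intro r
      simp [sb]
    rwa [e, e] at this
  have e0 := hsb 0
  have e1 := hsb 1
  by_cases hb : b = 0
  · refine ⟨?_, hb⟩
    by_contra ha
    rw [hb, map_zero, zero_mul, add_zero] at e0 e1
    have hCa : (MvPolynomial.C a : MvPolynomial C E) ≠ 0 := by
      rwa [Ne, MvPolynomial.C_eq_zero]
    have f0 := (mul_eq_zero.mp e0).resolve_left hCa
    have f1 := (mul_eq_zero.mp e1).resolve_left hCa
    apply hd
    rw [f0, f1]
    ring
  · exfalso
    apply hd
    have hCb : (MvPolynomial.C b : MvPolynomial C E) ≠ 0 := by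
      rwa [Ne, MvPolynomial.C_eq_zero]
    apply mul_left_cancel₀ hCb
    linear_combination (sb l' 0 P0) * e1 - (sb l' 1 P0) * e0

end full

end Pool.Agent.Lib.CPlane.LF
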