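import Mathlib
import Pool.Agent.Lib.CPlane.LFIrr

/-!
# The leaf lemma: `w_C` is full
-/

set_option autoImplicit false
set_option linter.unusedSectionVars false

namespace Pool.Agent.Lib.CPlane.LF

open MvPolynomial S2Irr S2Book

variable {E I C D : Type} [Field E] [CharP E 2] [Fintype I] [DecidableEq I]
  [DecidableEq C]

/-- evaluation of `P (X + τ v)` at `X = x`, `τ = c` -/
theorem eval_tr_gen {B : Type} [CommRing B] [Algebra E B] (v : I → E) (x : I → B) (c : B)
    (P : MvPolynomial I E) :
    Polynomial.eval₂ ((aeval x : MvPolynomial I E →ₐ[E] B) : MvPolynomial I E →+* B) c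
      (Leaf.tr v P) = aeval (fun i => x i + c * algebraMap E B (v i)) P := by
  have h : (Polynomial.eval₂RingHom ((aeval x : MvPolynomial I E →ₐ[E] B) :
      MvPolynomial I E →+* B) c).comp (Leaf.tr v).toRingHom =
      (aeval (R := E) fun i => x i + c * algebraMap E B (v i)).toRingHom := by
    apply MvPolynomial.ringHom_ext
    · intro r
      have h1 : Leaf.tr v (MvPolynomial.C r) = Polynomial.C (MvPolynomial.C r) :=
        (Leaf.tr v).commutes r
      simp [h1]
    · intro i
      have h1 := Leaf.tr_X v i
      simp only [RingHom.comp_apply, AlgHom.toRingHom_eq_coe, RingHom.coe_coe, h1,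
        Polynomial.coe_eval₂RingHom, Polynomial.eval₂_add, Polynomial.eval₂_mul,
        Polynomial.eval₂_C, Polynomial.eval₂_X, aeval_X, aeval_C]
  exact RingHom.congr_fun h P

theorem eval_of_tr {B : Type} [CommRing B] [Algebra E B] (v : I → E) {P : MvPolynomial I E}
    (h : Leaf.tr v P = Polynomial.C P) (x : I → B) (c : B) :
    aeval (fun i => x i + c * algebraMap E B (v i)) P = aeval x P := by
  rw [← eval_tr_gen, h, Polynomial.eval₂_C]
  rfl

section

variable (ep : I ≃ Option C ⊕ D) (g y : C → I → E) (ν : D → I → E)

theorem aeval_wC_gen (k : C) (x : I → MvPolynomial C E) :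
    aeval x (wC ep g y ν k) = dt ep (cs (y k))
      (Function.update (fun l => al (cs (g l)) (cs (y l)) x) k (cs (g k))) (cst ν) := by
  rw [wC]
  have h1 := dt_map ep (aeval x : MvPolynomial I E →ₐ[E] MvPolynomial C E).toRingHom
    (cs (y k)) (Function.update (fun l => al (cs (g l)) (cs (y l)) X) k (cs (g k))) (cst ν)
  simp only [AlgHom.toRingHom_eq_coe, RingHom.coe_coe] at h1
  rw [h1]
  congr 1
  · ext1 i; simp [cs, algebraMap_eq]
  · ext1 l
    ext1 i
    by_cases h : l = k
    · subst h; simp [cs, algebraMap_eq]
    · rw [Function.update_of_ne h, Function.update_of_ne h, aeval_al]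
      rfl
  · ext1 d; ext1 i; simp [cst, algebraMap_eq]

theorem sb_Ph1 (k l : C) (hkl : k ≠ l) (c : E) :
    sb l c (Ph ep g y ν k) = dt ep (cs (y k))
      (Function.update (Function.update (Rt g y) k (cs (g k))) l (cs (g l + c • y l)))
      (cst ν) := by
  have h1 := dt_map ep ((sb l c : MvPolynomial C E →ₐ[E] MvPolynomial C E) :
      MvPolynomial C E →+* MvPolynomial C E)
    (cs (y k)) (Function.update (Rt g y) k (cs (g k))) (cst ν)
  have h2 : (((sb l c : MvPolynomial C E →ₐ[E] MvPolynomial C E) :
      MvPolynomial C E →+* MvPolynomial C E)) (dt ep (cs (y k))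
        (Function.update (Rt g y) k (cs (g k))) (cst ν)) = sb l c (Ph ep g y ν k) :=
    rfl
  rw [h2] at h1
  rw [h1]
  have hC : ∀ r : E, sb l c (MvPolynomial.C r : MvPolynomial C E) = MvPolynomial.C r := by
    intro r
    simp [sb]
  congr 1
  · ext1 i
    exact hC _
  · ext1 j
    ext1 i
    show sb l c (Function.update (Rt g y) k (cs (g k)) j i) = _
    by_cases hj : j = k
    · subst hj
      rw [Function.update_self, Function.update_of_ne hkl, Function.update_self]
      exact hC _
    · rw [Function.update_of_ne hj]
      by_cases hj2 : j = l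
      · subst hj2
        rw [Function.update_self, Rt, map_add, map_mul, hC, hC, sb_X_self]
        simp [cs]
      · rw [Function.update_of_ne hj2, Function.update_of_ne hj, Rt, map_add,
          map_mul, hC, hC, sb_X_ne l j hj2]
  · ext1 d
    ext1 i
    exact hC _

end

theorem ev_shift (a : I → E) (x : I → MvPolynomial C E) (c : MvPolynomial C E) (v : I → E) :
    ev (cs a) (fun i => x i + c * algebraMap E (MvPolynomial C E) (v i)) =
      ev (cs a) x + c * MvPolynomial.C (ev a v) := by
  simp only [ev, mul_add, Finset.sum_add_distrib, map_sum, Finset.mul_sum, cs, algebraMap_eq,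
    map_mul]
  congr 1
  apply Finset.sum_congr rfl
  intro i _
  rw [mul_left_comm]

theorem al_shift (a b : I → E) (x : I → MvPolynomial C E) (c : MvPolynomial C E) (v : I → E)
    (i : I) :
    al (cs a) (cs b) (fun i => x i + c * algebraMap E (MvPolynomial C E) (v i)) i =
      al (cs a) (cs b) x i + c * (cs (al a b v) : I → MvPolynomial C E) i := by
  unfold al
  rw [ev_shift, ev_shift]
  simp only [cs, map_add, map_mul]
  ring

section full

variable {ep : I ≃ Option C ⊕ D} {g y : C → I → E} {ν : D → I → E} [Fintype C]

/-- **`w_C` is full**: it is invariant only under the translations killed by all the forms. -/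
theorem wC_full (hC : 3 ≤ Fintype.card C) (hR : R4 ep g y ν) (k : C) (v : I → E)
    (hv : Leaf.tr v (wC ep g y ν k) = Polynomial.C (wC ep g y ν k)) (l : C) (hkl : k ≠ l) :
    ev (g l) v = 0 ∧ ev (y l) v = 0 := by
  set c := Ph ep g y ν l with hc
  have hirr := Ph_irreducible hC hR l
  have hc0 : c ≠ 0 := hirr.ne_zero
  have h1 := eval_of_tr v hv (Ut ep g y ν) c
  rw [aeval_wC, aeval_wC_gen] at h1
  set r1 : C → I → MvPolynomial C E := fun j => Ph ep g y ν j • Rt g y j +
    c • cs (al (g j) (y j) v) with hr1
  have hrow : (fun j => al (cs (g j)) (cs (y j)) (fun i => Ut ep g y ν i +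
      c * algebraMap E (MvPolynomial C E) (v i))) = r1 := by
    ext1 j
    rw [hr1]
    simp only
    rw [← al_Ut]
    ext1 i
    rw [Pi.add_apply, Pi.smul_apply, smul_eq_mul]
    exact al_shift (g j) (y j) (Ut ep g y ν) c v i
  rw [hrow] at h1
  -- factor `c` out of row `l`
  have h2 : Function.update r1 k (cs (g k)) = Function.update (Function.update r1 k (cs (g k))) l
      (c • (Rt g y l + cs (al (g l) (y l) v))) := by
    rw [eq_comm, Function.update_eq_self_iff, Function.update_of_ne hkl.symm, hr1]
    simp only [smul_add]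
    rfl
  rw [h2, dt_row_smul, ← Finset.mul_prod_erase Finset.univ (Ph ep g y ν) (Finset.mem_univ l)]
    at h1
  have h3 := mul_left_cancel₀ hc0 h1
  -- reduce modulo `c`
  set J : Ideal (MvPolynomial C E) := Ideal.span {c} with hJ
  have hJp : J.IsPrime := (Ideal.span_singleton_prime hc0).mpr hirr.prime
  set q := Ideal.Quotient.mk J with hq
  have hqc : q c = 0 := by
    rw [hq, Ideal.Quotient.eq_zero_iff_mem, hJ]
    exact Ideal.mem_span_singleton_self c
  have hq0 : ∀ P, q P = 0 → c ∣ P := by
    intro P hP
    rw [hq, Ideal.Quotient.eq_zero_iff_mem, hJ, Ideal.mem_span_singleton] at hP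
    exact hP
  set r2 : C → I → MvPolynomial C E := Function.update (Function.update (Rt g y) k (cs (g k))) l
      (Rt g y l + cs (al (g l) (y l) v)) with hr2
  have h4 : q (dt ep (cs (y k)) (Function.update (Function.update r1 k (cs (g k))) l
      (Rt g y l + cs (al (g l) (y l) v))) (cst ν)) =
      (∏ j ∈ (Finset.univ.erase l).erase k, q (Ph ep g y ν j)) *
        q (dt ep (cs (y k)) r2 (cst ν)) := by
    rw [dt_map, dt_map]
    have h5 : (fun j i => q (Function.update (Function.update r1 k (cs (g k))) l
        (Rt g y l + cs (al (g l) (y l) v)) j i)) =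
        fun j => (if j ∈ (Finset.univ.erase l).erase k then q (Ph ep g y ν j) else 1) •
          (fun i => q (r2 j i)) := by
      ext1 j
      ext1 i
      rw [hr2]
      by_cases hj : j = l
      · subst hj
        simp
      · rw [Function.update_of_ne hj, Function.update_of_ne hj]
        by_cases hj' : j = k
        · subst hj'
          simp
        · rw [Function.update_of_ne hj', Function.update_of_ne hj',
            if_pos (by simp [hj, hj']), hr1]
          simp only [Pi.add_apply, Pi.smul_apply, smul_eq_mul, map_add, map_mul, hqc, zero_mul,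
            add_zero]
    rw [h5, dt_prod, Finset.prod_ite_mem, Finset.univ_inter]
  have h6 : dt ep (cs (y k)) r2 (cst ν) = Ph ep g y ν k + dt ep (cs (y k))
      (Function.update (Function.update (Rt g y) k (cs (g k))) l (cs (al (g l) (y l) v)))
      (cst ν) := by
    rw [hr2, dt_row_add]
    congr 1
    rw [Ph]
    congr 1
    rw [Function.update_eq_self_iff, Function.update_of_ne hkl.symm]
  set Ξ := dt ep (cs (y k))
      (Function.update (Function.update (Rt g y) k (cs (g k))) l (cs (al (g l) (y l) v)))
      (cst ν) with hΞ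
  have h7 : (∏ j ∈ (Finset.univ.erase l).erase k, q (Ph ep g y ν j)) * q Ξ = 0 := by
    have h8 := congrArg q h3
    rw [h4, h6, map_add, map_prod, ← Finset.mul_prod_erase (Finset.univ.erase l)
      (fun j => q (Ph ep g y ν j)) (show k ∈ Finset.univ.erase l by simp [hkl])] at h8
    linear_combination h8
  have hdom : IsDomain (MvPolynomial C E ⧸ J) := Ideal.Quotient.isDomain J
  have h9 : q Ξ = 0 := by
    rcases mul_eq_zero.mp h7 with h | h
    · exfalso
      rw [Finset.prod_eq_zero_iff] at h
      obtain ⟨j, hj, hj0⟩ := h
      have hjl : j ≠ l := by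
        simp only [Finset.mem_erase, Finset.mem_univ, and_true] at hj
        exact hj.2
      exact Ph_not_dvd hC hR l j hjl (hq0 _ hj0)
    · exact h
  have h10 : Ξ = 0 := by
    by_contra hne
    obtain ⟨B, hB⟩ := hq0 _ h9
    have hB0 : B ≠ 0 := by
      rintro rfl
      rw [mul_zero] at hB
      exact hne hB
    have hdeg : Ξ.degreeOf k = 0 := by
      rw [hΞ]
      apply degreeOf_dt_zero
      · exact degreeOf_cs k _
      · intro j i
        by_cases hj : j = l
        · subst hj
          rw [Function.update_self]
          exact degreeOf_cs k _ i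
        · rw [Function.update_of_ne hj]
          by_cases hjk : j = k
          · subst hjk
            rw [Function.update_self]
            exact degreeOf_cs j _ i
          · rw [Function.update_of_ne hjk]
            have := degreeOf_Rt g y k j i
            rw [if_neg (Ne.symm hjk)] at this
            omega
    rw [hB, degreeOf_mul_eq hc0 hB0, hc, Ph_degreeOf hC hR l k hkl] at hdeg
    omega
  have h11 : Ξ = MvPolynomial.C (ev (y l) v) * sb l 0 (Ph ep g y ν k) +
      MvPolynomial.C (ev (g l) v) * (sb l 1 (Ph ep g y ν k) + sb l 0 (Ph ep g y ν k)) := by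
    have e1 : (cs (al (g l) (y l) v) : I → MvPolynomial C E) =
        (MvPolynomial.C (ev (y l) v) : MvPolynomial C E) • cs (g l) +
        (MvPolynomial.C (ev (g l) v) : MvPolynomial C E) • cs (y l) := by
      ext1 i
      simp [cs, al]
    rw [hΞ, e1, dt_row_add, dt_row_smul, dt_row_smul, sb_Ph1 ep g y ν k l hkl,
      sb_Ph1 ep g y ν k l hkl, zero_smul, add_zero, one_smul, cs_add, dt_row_add]
    rw [add_comm (dt ep (cs (y k)) (Function.update (Function.update (Rt g y) k (cs (g k))) l
      (cs (g l))) (cst ν)) (dt ep (cs (y k)) (Function.update (Function.update (Rt g y) k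
      (cs (g k))) l (cs (y l))) (cst ν)), add_assoc, CharTwo.add_self_eq_zero, add_zero]
  rw [h10] at h11
  have h12 := lin_zero hC hR k l hkl _ _ h11.symm
  exact ⟨h12.2, h12.1⟩

end full

end Pool.Agent.Lib.CPlane.LF
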