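import Pool.Agent.Lib.CPlane.LFGlue

/-!
# Leaf module: the completing rows `ν`, adapted to the splitting of the coordinates
-/

set_option autoImplicit false
set_option linter.unusedSectionVars false

namespace Pool.Agent.Lib.CPlane.LF

open Module Submodule

namespace NUx

variable {E : Type} [Field E]

/-- a basis of `E^J` beginning with a basis of the kernel of `A` -/
theorem exists_basis {J C : Type} [Fintype J] [DecidableEq J] [Fintype C] (A : Matrix C J E)
    {a p : ℕ} (hp : finrank E (span E (Set.range fun l => A l)) = p)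
    (ha : a + p = Fintype.card J) :
    ∃ B : Basis (Fin a ⊕ Fin p) E (J → E), ∀ d : Fin a, A.mulVec (B (Sum.inl d)) = 0 := by
  have hr : A.rank = p := by
    rw [Matrix.rank_eq_finrank_span_row]
    exact hp
  have h1 := LinearMap.finrank_range_add_finrank_ker A.mulVecLin
  rw [finrank_fintype_fun_eq_card] at h1
  have h2 : finrank E (LinearMap.range A.mulVecLin) = p := hr
  have h3 : finrank E (LinearMap.ker A.mulVecLin) = a := by omega
  obtain ⟨L, hL⟩ := Submodule.exists_isCompl (LinearMap.ker A.mulVecLin)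
  have h4 : finrank E L = p := by
    have := Submodule.finrank_add_eq_of_isCompl hL
    rw [finrank_fintype_fun_eq_card] at this
    omega
  let bK := finBasisOfFinrankEq E (LinearMap.ker A.mulVecLin) h3
  let bL := finBasisOfFinrankEq E L h4
  refine ⟨(bK.prod bL).map (Submodule.prodEquivOfIsCompl _ L hL), fun d => ?_⟩
  have h5 : (bK.prod bL).map (Submodule.prodEquivOfIsCompl _ L hL) (Sum.inl d) = (bK d : J → E) := by
    simp [Basis.prod_apply]
  rw [h5]
  exact (bK d).2

/-- the dual vectors -/
theorem exists_dual {J ι : Type} [Fintype J] [DecidableEq J] [DecidableEq ι]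
    (B : Basis ι E (J → E)) :
    ∃ nu : ι → J → E, ∀ s s', ∑ j, nu s j * B s' j = if s = s' then 1 else 0 := by
  refine ⟨fun s j => B.coord s (Pi.single j 1), fun s s' => ?_⟩
  have h1 : ∀ v : J → E, ∑ j, B.coord s (Pi.single j 1) * v j = B.coord s v := by
    intro v
    conv_rhs => rw [pi_eq_sum_univ' v]
    rw [map_sum]
    refine Finset.sum_congr rfl fun j _ => ?_
    rw [map_smul, smul_eq_mul, mul_comm]
  rw [h1, Basis.coord_apply, Basis.repr_self, Finsupp.single_apply]
  simp only [eq_comm]

section

variable {I : Type} [Fintype I] [DecidableEq I] (pG : I → Prop) [DecidablePred pG]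

/-- `E^I = E^(JG) × E^(JY)` -/
noncomputable def Lq : (I → E) ≃ₗ[E] ({i // pG i} → E) × ({i // ¬ pG i} → E) :=
  (LinearEquiv.funCongrLeft E E (Equiv.sumCompl pG)).trans
    (LinearEquiv.sumArrowLequivProdArrow _ _ E E)

theorem Lq_fst (v : I → E) (i : {i // pG i}) : (Lq pG v).1 i = v i := rfl

theorem Lq_snd (v : I → E) (i : {i // ¬ pG i}) : (Lq pG v).2 i = v i := rfl

/-- extension by zero of both parts -/
noncomputable def exq (v : {i // pG i} → E) (w : {i // ¬ pG i} → E) : I → E :=
  (Lq pG).symm (v, w)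

theorem exq_pos (v : {i // pG i} → E) (w : {i // ¬ pG i} → E) (i : {i // pG i}) :
    exq pG v w i = v i := by
  have h := Lq_fst pG (exq pG v w) i
  rw [exq, LinearEquiv.apply_symm_apply] at h
  exact h.symm

theorem exq_neg (v : {i // pG i} → E) (w : {i // ¬ pG i} → E) (i : {i // ¬ pG i}) :
    exq pG v w i = w i := by
  have h := Lq_snd pG (exq pG v w) i
  rw [exq, LinearEquiv.apply_symm_apply] at h
  exact h.symm

theorem ev_exq (mu : I → E) (v : {i // pG i} → E) (w : {i // ¬ pG i} → E) :
    ev mu (exq pG v w) = ∑ i : {i // pG i}, mu i * v i + ∑ i : {i // ¬ pG i}, mu i * w i := by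
  unfold ev
  rw [← Equiv.sum_comp (Equiv.sumCompl pG), Fintype.sum_sum_type]
  congr 1
  · refine Finset.sum_congr rfl fun i _ => ?_
    rw [Equiv.sumCompl_apply_inl, exq_pos]
  · refine Finset.sum_congr rfl fun i _ => ?_
    rw [Equiv.sumCompl_apply_inr, exq_neg]

theorem finrank_restrict {C : Type} [Fintype C] (g : C → I → E)
    (hg : ∀ l i, ¬ pG i → g l i = 0) :
    finrank E (span E (Set.range fun l => (fun i : {i // pG i} => g l i))) =
      finrank E (span E (Set.range g)) := by
  let ρ : ({i // pG i} → E) →ₗ[E] (I → E) := (Lq pG).symm.toLinearMap ∘ₗ LinearMap.inl E _ _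
  have hρ : ∀ v, ρ v = exq pG v 0 := fun v => rfl
  have hinj : Function.Injective ρ := by
    intro v w h
    rw [hρ, hρ] at h
    funext i
    rw [← exq_pos pG v 0 i, h, exq_pos]
  have h1 : ∀ l, ρ (fun i : {i // pG i} => g l i) = g l := by
    intro l
    rw [hρ]
    funext i
    by_cases hi : pG i
    · exact exq_pos pG _ _ ⟨i, hi⟩
    · have := exq_neg pG (fun i : {i // pG i} => g l i) 0 ⟨i, hi⟩
      rw [Pi.zero_apply] at this
      rw [hg l i hi]
      exact this
  have h2 : span E (Set.range g) =
      Submodule.map ρ (span E (Set.range fun l => (fun i : {i // pG i} => g l i))) := by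
    rw [Submodule.map_span, ← Set.range_comp]
    congr 1
    ext v
    simp only [Set.mem_range, Function.comp_apply, h1]
  rw [h2]
  exact LinearEquiv.finrank_eq (Submodule.equivMapOfInjective ρ hinj _)

theorem finrank_restrict' {C : Type} [Fintype C] (y : C → I → E)
    (hy : ∀ l i, pG i → y l i = 0) :
    finrank E (span E (Set.range fun l => (fun i : {i // ¬ pG i} => y l i))) =
      finrank E (span E (Set.range y)) := by
  let ρ : ({i // ¬ pG i} → E) →ₗ[E] (I → E) := (Lq pG).symm.toLinearMap ∘ₗ LinearMap.inr E _ _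
  have hρ : ∀ v, ρ v = exq pG 0 v := fun v => rfl
  have hinj : Function.Injective ρ := by
    intro v w h
    rw [hρ, hρ] at h
    funext i
    rw [← exq_neg pG 0 v i, h, exq_neg]
  have h1 : ∀ l, ρ (fun i : {i // ¬ pG i} => y l i) = y l := by
    intro l
    rw [hρ]
    funext i
    by_cases hi : pG i
    · have := exq_pos pG 0 (fun i : {i // ¬ pG i} => y l i) ⟨i, hi⟩
      rw [Pi.zero_apply] at this
      rw [hy l i hi]
      exact this
    · exact exq_neg pG _ _ ⟨i, hi⟩
  have h2 : span E (Set.range y) =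
      Submodule.map ρ (span E (Set.range fun l => (fun i : {i // ¬ pG i} => y l i))) := by
    rw [Submodule.map_span, ← Set.range_comp]
    congr 1
    ext v
    simp only [Set.mem_range, Function.comp_apply, h1]
  rw [h2]
  exact LinearEquiv.finrank_eq (Submodule.equivMapOfInjective ρ hinj _)

/-- the rank of `g_l, y_l` is the sum of the ranks -/
theorem finrank_union {C : Type} [Fintype C] (g y : C → I → E)
    (hg : ∀ l i, ¬ pG i → g l i = 0) (hy : ∀ l i, pG i → y l i = 0) :
    finrank E (span E (Set.range g ∪ Set.range y)) =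
      finrank E (span E (Set.range g)) + finrank E (span E (Set.range y)) := by
  rw [Submodule.span_union]
  have h1 := Submodule.finrank_sup_add_finrank_inf_eq (span E (Set.range g))
    (span E (Set.range y))
  have h2 : span E (Set.range g) ⊓ span E (Set.range y) = ⊥ := by
    rw [eq_bot_iff]
    rintro v ⟨hv1, hv2⟩
    rw [Submodule.mem_bot]
    funext i
    by_cases hi : pG i
    · refine Submodule.span_induction (p := fun v _ => v i = 0) ?_ rfl ?_ ?_ hv2
      · rintro _ ⟨l, rfl⟩
        exact hy l i hi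
      · intro a b _ _ ha hb
        rw [Pi.add_apply, ha, hb, add_zero]
      · intro c a _ ha
        rw [Pi.smul_apply, ha, smul_zero]
    · refine Submodule.span_induction (p := fun v _ => v i = 0) ?_ rfl ?_ ?_ hv1
      · rintro _ ⟨l, rfl⟩
        exact hg l i hi
      · intro a b _ _ ha hb
        rw [Pi.add_apply, ha, hb, add_zero]
      · intro c a _ ha
        rw [Pi.smul_apply, ha, smul_zero]
  rw [h2, finrank_bot, add_zero] at h1
  exact h1

end

end NUx

open NUx

/-- (NU) completing rows and dual vectors, adapted to the splitting -/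
theorem exists_nu {E I C : Type} [Field E] [Fintype I] [DecidableEq I] [Fintype C]
    [DecidableEq C] (pG : I → Prop) [DecidablePred pG] (g y : C → I → E)
    (hg : ∀ l i, ¬ pG i → g l i = 0) (hy : ∀ l i, pG i → y l i = 0) {p q f e : ℕ}
    (hp : finrank E (span E (Set.range g)) = p) (hq : finrank E (span E (Set.range y)) = q)
    (hpq : p + q = Fintype.card C + 1) (hf : Fintype.card {i // pG i} = f)
    (he : Fintype.card {i // ¬ pG i} = e) :
    ∃ (ep : I ≃ Option C ⊕ (Fin (f - p) ⊕ Fin (e - q)))
      (nu x : Fin (f - p) ⊕ Fin (e - q) → I → E) (b : Option C → I → E),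
      (Matrix.of fun i j => Sum.elim b x (ep j) i : Matrix I I E).det ≠ 0 ∧
      (∀ l d, ev (g l) (x d) = 0) ∧ (∀ l d, ev (y l) (x d) = 0) ∧
      (∀ d d', ev (nu d) (x d') = if d = d' then 1 else 0) ∧
      (∀ d i, ¬ pG i → nu (Sum.inl d) i = 0) ∧ (∀ d i, pG i → nu (Sum.inr d) i = 0) := by
  classical
  have hp' := (finrank_restrict pG g hg).trans hp
  have hq' := (finrank_restrict' pG y hy).trans hq
  have hpf : p ≤ f := by
    rw [← hp', ← hf, ← finrank_fintype_fun_eq_card (R := E)]
    exact Submodule.finrank_le _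
  have hqe : q ≤ e := by
    rw [← hq', ← he, ← finrank_fintype_fun_eq_card (R := E)]
    exact Submodule.finrank_le _
  obtain ⟨BG, hBG⟩ := exists_basis (Matrix.of fun l (i : {i // pG i}) => g l i)
    (a := f - p) (p := p) hp' (by rw [hf]; omega)
  obtain ⟨BY, hBY⟩ := exists_basis (Matrix.of fun l (i : {i // ¬ pG i}) => y l i)
    (a := e - q) (p := q) hq' (by rw [he]; omega)
  obtain ⟨nG, hnG⟩ := exists_dual BG
  obtain ⟨nY, hnY⟩ := exists_dual BY
  have hcard : Fintype.card I = f + e := by
    rw [← hf, ← he, ← Fintype.card_sum]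
    exact Fintype.card_congr (Equiv.sumCompl pG).symm
  let σ : Option C ≃ Fin p ⊕ Fin q := Fintype.equivOfCardEq (by
    rw [Fintype.card_option, Fintype.card_sum, Fintype.card_fin, Fintype.card_fin, hpq])
  let ep : I ≃ Option C ⊕ (Fin (f - p) ⊕ Fin (e - q)) := Fintype.equivOfCardEq (by
    rw [hcard, Fintype.card_sum, Fintype.card_option, Fintype.card_sum, Fintype.card_fin,
      Fintype.card_fin]
    omega)
  let Bt : Basis ((Fin (f - p) ⊕ Fin p) ⊕ (Fin (e - q) ⊕ Fin q)) E (I → E) :=
    (BG.prod BY).map (Lq pG).symm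
  have hBtl : ∀ s, Bt (Sum.inl s) = exq pG (BG s) 0 := by
    intro s
    simp [Bt, exq, Basis.prod_apply]
  have hBtr : ∀ s, Bt (Sum.inr s) = exq pG 0 (BY s) := by
    intro s
    simp [Bt, exq, Basis.prod_apply]
  let x : Fin (f - p) ⊕ Fin (e - q) → I → E :=
    Sum.elim (fun d => exq pG (BG (Sum.inl d)) 0) (fun d => exq pG 0 (BY (Sum.inl d)))
  let b : Option C → I → E := fun o =>
    Sum.elim (fun r => exq pG (BG (Sum.inr r)) 0) (fun r => exq pG 0 (BY (Sum.inr r))) (σ o)
  let nu : Fin (f - p) ⊕ Fin (e - q) → I → E :=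
    Sum.elim (fun d => exq pG (nG (Sum.inl d)) 0) (fun d => exq pG 0 (nY (Sum.inl d)))
  refine ⟨ep, nu, x, b, ?_, ?_, ?_, ?_, ?_, ?_⟩
  · -- the matrix of a basis
    let κ : Option C ⊕ (Fin (f - p) ⊕ Fin (e - q)) ≃
        (Fin (f - p) ⊕ Fin p) ⊕ (Fin (e - q) ⊕ Fin q) :=
      (Equiv.sumCongr σ (Equiv.refl _)).trans
        ((Equiv.sumComm _ _).trans (Equiv.sumSumSumComm _ _ _ _))
    have hκ : ∀ s, Sum.elim b x s = Bt (κ s) := by
      rintro (o | (d | d))
      · change Sum.elim (fun r => exq pG (BG (Sum.inr r)) 0)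
          (fun r => exq pG 0 (BY (Sum.inr r))) (σ o) = _
        have h1 : κ (Sum.inl o) = Sum.elim (fun r => Sum.inl (Sum.inr r))
            (fun r => Sum.inr (Sum.inr r)) (σ o) := by
          simp only [κ, Equiv.trans_apply, Equiv.sumCongr_apply, Sum.map_inl]
          rcases σ o with r | r <;> rfl
        rw [h1]
        rcases σ o with r | r
        · exact (hBtl _).symm
        · exact (hBtr _).symm
      · exact (hBtl _).symm
      · exact (hBtr _).symm
    have hli : LinearIndependent E (fun j : I => Sum.elim b x (ep j)) := by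
      have h2 := Bt.linearIndependent.comp (fun j : I => κ (ep j))
        (κ.injective.comp ep.injective)
      convert h2 using 1
      funext j
      exact hκ (ep j)
    have h3 : LinearIndependent E
        (Matrix.of fun i j => Sum.elim b x (ep j) i : Matrix I I E).col := hli
    rw [Matrix.linearIndependent_cols_iff_isUnit, Matrix.isUnit_iff_isUnit_det] at h3
    exact h3.ne_zero
  · rintro l (d | d)
    · change ev (g l) (exq pG (BG (Sum.inl d)) 0) = 0
      rw [ev_exq]
      have h1 := congrFun (hBG d) l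
      simp only [Matrix.mulVec, dotProduct, Matrix.of_apply, Pi.zero_apply] at h1
      rw [h1]
      simp
    · change ev (g l) (exq pG 0 (BY (Sum.inl d))) = 0
      rw [ev_exq]
      have h1 : ∀ i : {i // ¬ pG i}, g l i = 0 := fun i => hg l i i.2
      simp [h1]
  · rintro l (d | d)
    · change ev (y l) (exq pG (BG (Sum.inl d)) 0) = 0
      rw [ev_exq]
      have h1 : ∀ i : {i // pG i}, y l i = 0 := fun i => hy l i i.2
      simp [h1]
    · change ev (y l) (exq pG 0 (BY (Sum.inl d))) = 0
      rw [ev_exq]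
      have h1 := congrFun (hBY d) l
      simp only [Matrix.mulVec, dotProduct, Matrix.of_apply, Pi.zero_apply] at h1
      rw [h1]
      simp
  · rintro (d | d) (d' | d')
    · change ev (exq pG (nG (Sum.inl d)) 0) (exq pG (BG (Sum.inl d')) 0) = _
      rw [ev_exq]
      simp only [exq_pos, Pi.zero_apply, mul_zero, Finset.sum_const_zero, add_zero, hnG,
        Sum.inl.injEq]
    · change ev (exq pG (nG (Sum.inl d)) 0) (exq pG 0 (BY (Sum.inl d'))) = _
      rw [ev_exq]
      simp only [exq_pos, exq_neg, Pi.zero_apply, mul_zero, zero_mul, Finset.sum_const_zero,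
        add_zero, reduceCtorEq, if_false]
    · change ev (exq pG 0 (nY (Sum.inl d))) (exq pG (BG (Sum.inl d')) 0) = _
      rw [ev_exq]
      simp only [exq_pos, exq_neg, Pi.zero_apply, mul_zero, zero_mul, Finset.sum_const_zero,
        add_zero, reduceCtorEq, if_false]
    · change ev (exq pG 0 (nY (Sum.inl d))) (exq pG 0 (BY (Sum.inl d'))) = _
      rw [ev_exq]
      simp only [exq_pos, exq_neg, Pi.zero_apply, zero_mul, Finset.sum_const_zero, zero_add, hnY,
        Sum.inl.injEq, Sum.inr.injEq]
  · intro d i hi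
    exact exq_neg pG (nG (Sum.inl d)) 0 ⟨i, hi⟩
  · intro d i hi
    exact exq_pos pG 0 (nY (Sum.inl d)) ⟨i, hi⟩

end Pool.Agent.Lib.CPlane.LF
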