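import Mathlib

/-!
# Rado's lemma for pencils: generic rows `a_r + t_r b_r` are independent
-/

namespace Pool.Agent.Lib.CPlane.S2

open Module Submodule

section Choice

variable {K V ρ : Type*} [Field K] [AddCommGroup V] [Module K V]

/-- the span of the `a r`, `b r`, `r ∈ B` -/
def ab (K : Type*) {V ρ : Type*} [Field K] [AddCommGroup V] [Module K V] (a b : ρ → V)
    (B : Finset ρ) : Submodule K V :=
  span K (a '' (B : Set ρ) ∪ b '' (B : Set ρ))

theorem ab_union [DecidableEq ρ] (a b : ρ → V) (B C : Finset ρ) :
    ab K a b (B ∪ C) = ab K a b B ⊔ ab K a b C := by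
  unfold ab
  rw [← span_union, Finset.coe_union, Set.image_union, Set.image_union]
  congr 1
  exact Set.union_union_union_comm _ _ _ _

theorem ab_empty (a b : ρ → V) : ab K a b ∅ = ⊥ := by
  unfold ab
  simp

theorem ab_mono (a b : ρ → V) {B C : Finset ρ} (h : B ⊆ C) : ab K a b B ≤ ab K a b C := by
  unfold ab
  refine span_mono (Set.union_subset_union ?_ ?_) <;>
    exact Set.image_mono (by exact_mod_cast h)

variable [FiniteDimensional K V]

theorem rado_aux [DecidableEq ρ] (a b : ρ → V) (n : ℕ) : ∀ (s : Finset ρ), s.card = n →
    ∀ X : Submodule K V,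
    (∀ B ⊆ s, finrank K X + B.card ≤ finrank K (X ⊔ ab K a b B : Submodule K V)) →
    ∃ v : ρ → V, (∀ r, v r = a r ∨ v r = b r) ∧
      finrank K (X ⊔ span K (v '' (s : Set ρ)) : Submodule K V) = finrank K X + s.card := by
  induction n using Nat.strong_induction_on with
  | _ n ih =>
    intro s hs X h
    by_cases hn : s = ∅
    · subst hn
      refine ⟨a, fun r => Or.inl rfl, ?_⟩
      rw [Finset.coe_empty, Set.image_empty, span_empty, sup_bot_eq, Finset.card_empty, add_zero]
    by_cases hB : ∃ B ⊆ s, B ≠ ∅ ∧ B ≠ s ∧
        finrank K (X ⊔ ab K a b B : Submodule K V) = finrank K X + B.card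
    · obtain ⟨B, hBs, hB0, hB1, hBe⟩ := hB
      have hBc : B.card < s.card := Finset.card_lt_card (Finset.ssubset_iff_subset_ne.2 ⟨hBs, hB1⟩)
      obtain ⟨v, hv, hve⟩ := ih B.card (hs ▸ hBc) B rfl X fun C hC => h C (hC.trans hBs)
      have hle : X ⊔ span K (v '' (B : Set ρ)) ≤ X ⊔ ab K a b B := by
        refine sup_le_sup_left (span_mono ?_) X
        rintro _ ⟨r, hr, rfl⟩
        rcases hv r with h1 | h1
        · exact Or.inl ⟨r, hr, h1.symm⟩
        · exact Or.inr ⟨r, hr, h1.symm⟩
      have heq : X ⊔ span K (v '' (B : Set ρ)) = X ⊔ ab K a b B :=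
        Submodule.eq_of_le_of_finrank_eq hle (by rw [hve, hBe])
      have hpos : 0 < B.card := Finset.card_pos.2 (Finset.nonempty_iff_ne_empty.2 hB0)
      have hsd : (s \ B).card + B.card = s.card := Finset.card_sdiff_add_card_eq_card hBs
      obtain ⟨w, hw, hwe⟩ := ih (s \ B).card (by omega) (s \ B) rfl (X ⊔ ab K a b B) fun C hC => by
        have hdis : Disjoint B C := by
          refine Finset.disjoint_left.2 fun x hx hx' => ?_
          exact (Finset.mem_sdiff.1 (hC hx')).2 hx
        have h1 := h (B ∪ C) (Finset.union_subset hBs (hC.trans Finset.sdiff_subset))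
        rw [Finset.card_union_of_disjoint hdis, ab_union, ← sup_assoc] at h1
        rw [hBe]
        omega
      refine ⟨fun r => if r ∈ B then v r else w r, fun r => ?_, ?_⟩
      · by_cases hr : r ∈ B
        · simp only [hr, if_true]
          exact hv r
        · simp only [hr, if_false]
          exact hw r
      · have himg : (fun r => if r ∈ B then v r else w r) '' (s : Set ρ) =
            v '' (B : Set ρ) ∪ w '' ((s \ B : Finset ρ) : Set ρ) := by
          ext x
          constructor
          · rintro ⟨r, hr, rfl⟩
            by_cases hrB : r ∈ B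
            · left
              exact ⟨r, hrB, by simp [hrB]⟩
            · right
              refine ⟨r, ?_, by simp [hrB]⟩
              simp only [Finset.coe_sdiff, Set.mem_sdiff, Finset.mem_coe]
              exact ⟨hr, hrB⟩
          · rintro (⟨r, hr, rfl⟩ | ⟨r, hr, rfl⟩)
            · refine ⟨r, hBs hr, ?_⟩
              have : r ∈ B := hr
              simp [this]
            · simp only [Finset.coe_sdiff, Set.mem_sdiff, Finset.mem_coe] at hr
              refine ⟨r, hr.1, ?_⟩
              simp [hr.2]
        rw [himg, span_union, ← sup_assoc, heq, hwe, hBe]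
        omega
    · push Not at hB
      obtain ⟨i, hi⟩ := Finset.nonempty_iff_ne_empty.2 hn
      have h1 := h {i} (Finset.singleton_subset_iff.2 hi)
      have hnot : ∃ u, (u = a i ∨ u = b i) ∧ u ∉ X := by
        by_contra hcon
        push Not at hcon
        have h2 : ab K a b {i} ≤ X := by
          unfold ab
          rw [span_le]
          rintro x (⟨r, hr, rfl⟩ | ⟨r, hr, rfl⟩)
          · have : r = i := by simpa using hr
            subst this
            exact hcon _ (Or.inl rfl)
          · have : r = i := by simpa using hr
            subst this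
            exact hcon _ (Or.inr rfl)
        rw [sup_eq_left.2 h2, Finset.card_singleton] at h1
        omega
      obtain ⟨u, hu, huX⟩ := hnot
      have hX' : finrank K (X ⊔ span K {u} : Submodule K V) = finrank K X + 1 := by
        have h3 := Submodule.finrank_sup_add_finrank_inf_eq X (span K {u})
        have h4 : X ⊓ span K {u} = ⊥ := by
          rw [Submodule.eq_bot_iff]
          rintro x ⟨hx1, hx2⟩
          obtain ⟨c, rfl⟩ := mem_span_singleton.1 hx2
          by_cases hc : c = 0
          · rw [hc, zero_smul]
          · exact absurd ((X.smul_mem_iff hc).1 hx1) huX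
        have h5 : finrank K (span K {u}) = 1 := by
          refine finrank_span_singleton fun h0 => huX ?_
          rw [h0]
          exact X.zero_mem
        rw [h4, finrank_bot, h5] at h3
        omega
      have hc : (s.erase i).card + 1 = s.card := Finset.card_erase_add_one hi
      obtain ⟨w, hw, hwe⟩ := ih (s.erase i).card (by omega) (s.erase i) rfl (X ⊔ span K {u})
        fun C hC => by
          by_cases hC0 : C = ∅
          · subst hC0
            simp only [Finset.card_empty, add_zero]
            exact Submodule.finrank_mono le_sup_left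
          · have hCs : C ⊆ s := hC.trans (Finset.erase_subset _ _)
            have hne : C ≠ s := by
              rintro rfl
              exact (Finset.mem_erase.1 (hC hi)).1 rfl
            have h5 := h C hCs
            have h6 := hB C hCs (Finset.nonempty_iff_ne_empty.2 hC0) hne
            have h7 : finrank K (X ⊔ ab K a b C : Submodule K V) ≤
                finrank K ((X ⊔ span K {u}) ⊔ ab K a b C : Submodule K V) :=
              Submodule.finrank_mono (sup_le_sup_right le_sup_left _)
            rw [hX']
            omega
      refine ⟨fun r => if r = i then u else w r, fun r => ?_, ?_⟩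
      · by_cases hr : r = i
        · subst hr
          simp only [if_true]
          exact hu
        · simp only [hr, if_false]
          exact hw r
      · have himg : (fun r => if r = i then u else w r) '' (s : Set ρ) =
            {u} ∪ w '' ((s.erase i : Finset ρ) : Set ρ) := by
          ext x
          constructor
          · rintro ⟨r, hr, rfl⟩
            by_cases hri : r = i
            · left
              simp [hri]
            · right
              refine ⟨r, ?_, by simp [hri]⟩
              simp only [Finset.coe_erase, Set.mem_sdiff, Finset.mem_coe, Set.mem_singleton_iff]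
              exact ⟨hr, hri⟩
          · rintro (hx | ⟨r, hr, rfl⟩)
            · refine ⟨i, hi, ?_⟩
              simp only [if_true]
              exact (Set.mem_singleton_iff.1 hx).symm
            · simp only [Finset.coe_erase, Set.mem_sdiff, Finset.mem_coe,
                Set.mem_singleton_iff] at hr
              exact ⟨r, hr.1, by simp [hr.2]⟩
        rw [himg, span_union, ← sup_assoc, hwe, hX']
        omega

/-- Rado's lemma: if `dim (X + W_B) ≥ dim X + |B|` for all `B`, where `W_B` is spanned by the
`a r`, `b r` with `r ∈ B`, then one can choose one of `a r`, `b r` for each `r` such that these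
are independent modulo `X`. -/
theorem rado_choice (a b : ρ → V) (s : Finset ρ) (X : Submodule K V)
    (h : ∀ B ⊆ s, finrank K X + B.card ≤ finrank K (X ⊔ ab K a b B : Submodule K V)) :
    ∃ v : ρ → V, (∀ r, v r = a r ∨ v r = b r) ∧
      finrank K (X ⊔ span K (v '' (s : Set ρ)) : Submodule K V) = finrank K X + s.card := by
  classical
  exact rado_aux a b s.card s rfl X h

/-- Rado's lemma without the fixed subspace -/
theorem rado_pairs [Fintype ρ] (a b : ρ → V)
    (h : ∀ B : Finset ρ, B.card ≤ finrank K (ab K a b B)) :
    ∃ v : ρ → V, (∀ r, v r = a r ∨ v r = b r) ∧ LinearIndependent K v := by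
  classical
  obtain ⟨v, hv, hve⟩ := rado_choice a b Finset.univ (⊥ : Submodule K V) fun B _ => by
    rw [finrank_bot, zero_add, bot_sup_eq]
    exact h B
  rw [finrank_bot, zero_add, bot_sup_eq, Finset.coe_univ, Set.image_univ,
    Finset.card_univ] at hve
  exact ⟨v, hv, linearIndependent_iff_card_eq_finrank_span.2 hve.symm⟩

end Choice

section Det

variable {K ρ : Type*} [Field K] [Fintype ρ] [DecidableEq ρ]

/-- the matrix with the rows `a r + t_r b r` -/
noncomputable def pen (a b : ρ → ρ → K) : Matrix ρ ρ (MvPolynomial ρ K) :=
  Matrix.of fun r c => MvPolynomial.C (a r c) + MvPolynomial.X r * MvPolynomial.C (b r c)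

/-- Rado's lemma, polynomial form: the determinant with the rows `a r + t_r b r` is not zero
if the `a r`, `b r` with `r ∈ B` span a space of dimension at least `|B|` for all `B` -/
theorem rado_det (a b : ρ → ρ → K)
    (h : ∀ B : Finset ρ, B.card ≤ finrank K (ab K a b B)) : (pen a b).det ≠ 0 := by
  classical
  obtain ⟨v, hv, hli⟩ := rado_pairs a b h
  have hdet : (Matrix.of v).det ≠ 0 := by
    have h1 : IsUnit (Matrix.of v) := Matrix.linearIndependent_rows_iff_isUnit.1 hli
    exact ((Matrix.isUnit_iff_isUnit_det _).1 h1).ne_zero
  intro h0
  -- the set where `b` is chosen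
  let S : ρ → Prop := fun r => v r = b r ∧ v r ≠ a r
  have hS : ∀ r, ¬ S r → v r = a r := by
    intro r hr
    by_contra hne
    rcases hv r with h1 | h1
    · exact hne h1
    · exact hr ⟨h1, hne⟩
  let f : MvPolynomial ρ K →+* Polynomial K :=
    MvPolynomial.eval₂Hom Polynomial.C fun r => if S r then Polynomial.X else 0
  let B : Matrix ρ ρ K := Matrix.of fun r c => if S r then a r c else 0
  have hco := Polynomial.coeff_det_X_add_C_card (Matrix.of v) B
  have hmat : (Polynomial.X : Polynomial K) • (Matrix.of v).map Polynomial.C +
      B.map Polynomial.C = Matrix.of fun r c =>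
        (if S r then 1 else Polynomial.X : Polynomial K) * (f.mapMatrix (pen a b)) r c := by
    refine Matrix.ext fun r c => ?_
    simp only [Matrix.add_apply, Matrix.smul_apply, Matrix.map_apply, Matrix.of_apply, smul_eq_mul,
      RingHom.mapMatrix_apply, pen, map_add, map_mul]
    have hfC : ∀ x : K, f (MvPolynomial.C x) = Polynomial.C x := fun x => by
      simp [f]
    have hfX : f (MvPolynomial.X r) = if S r then Polynomial.X else 0 := by
      simp [f]
    rw [hfC, hfC, hfX]
    by_cases hr : S r
    · have hvb : v r = b r := hr.1
      simp only [hr, if_true, B, Matrix.of_apply, hvb]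
      ring
    · have hva : v r = a r := hS r hr
      simp only [hr, if_false, B, Matrix.of_apply, hva, map_zero]
      ring
  rw [hmat, Matrix.det_mul_column, ← RingHom.map_det, h0, map_zero, mul_zero,
    Polynomial.coeff_zero] at hco
  exact hdet hco.symm

end Det

end Pool.Agent.Lib.CPlane.S2
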