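import Mathlib
import Pool.Agent.Lib.CPlane.LFFull
import Pool.Agent.Lib.CPlane.S2Rado

/-!
# The leaf lemma from the rank conditions
-/

set_option autoImplicit false
set_option linter.unusedSectionVars false

namespace Pool.Agent.Lib.CPlane.LF

open MvPolynomial S2Irr S2Book Module Submodule S2

variable {E I C D : Type} [Field E] [CharP E 2] [Fintype I] [DecidableEq I]
  [DecidableEq C] [Fintype C] [Fintype D] [DecidableEq D]

/-- the `ν` are independent modulo every space killed by the dual vectors -/
theorem finrank_sup_nu (ν x : D → I → E) (hν : ∀ d d', ev (ν d) (x d') = if d = d' then 1 else 0)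
    (W : Submodule E (I → E)) (hW : ∀ v ∈ W, ∀ d, ev v (x d) = 0) :
    finrank E W + Fintype.card D ≤ finrank E (W ⊔ span E (Set.range ν) : Submodule E (I → E)) := by
  have hsum : ∀ (c : D → E) (d' : D), ev (∑ d, c d • ν d) (x d') = c d' := by
    intro c d'
    have : ev (∑ d, c d • ν d) (x d') = ∑ d, c d * ev (ν d) (x d') := by
      simp only [ev, Finset.sum_apply, Pi.smul_apply, smul_eq_mul, Finset.sum_mul,
        Finset.mul_sum]
      rw [Finset.sum_comm]
      refine Finset.sum_congr rfl fun d _ => Finset.sum_congr rfl fun i _ => by ring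
    rw [this]
    simp [hν]
  have hli : LinearIndependent E ν := by
    rw [Fintype.linearIndependent_iff]
    intro c hc d'
    rw [← hsum c d', hc]
    simp [ev]
  have h1 : finrank E (span E (Set.range ν)) = Fintype.card D := finrank_span_eq_card hli
  have h2 : W ⊓ span E (Set.range ν) = ⊥ := by
    rw [eq_bot_iff]
    intro v hv
    obtain ⟨hv1, hv2⟩ := mem_inf.mp hv
    obtain ⟨c, rfl⟩ := (mem_span_range_iff_exists_fun E).mp hv2
    have hc : ∀ d, c d = 0 := by
      intro d
      rw [← hsum c d]
      exact hW _ hv1 d
    simp [hc]
  have h3 := Submodule.finrank_sup_add_finrank_inf_eq W (span E (Set.range ν))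
  rw [h2, finrank_bot, add_zero, h1] at h3
  omega

theorem ev_zero_of_mem_span {S : Set (I → E)} {w : I → E} (h : ∀ u ∈ S, ev u w = 0) :
    ∀ v ∈ span E S, ev v w = 0 := by
  intro v hv
  induction hv using Submodule.span_induction with
  | mem u hu => exact h u hu
  | zero => simp [ev]
  | add u v _ _ hu hv =>
    have : ev (u + v) w = ev u w + ev v w := by
      simp [ev, add_mul, Finset.sum_add_distrib]
    rw [this, hu, hv, add_zero]
  | smul a u _ hu =>
    have : ev (a • u) w = a * ev u w := by
      simp [ev, Finset.mul_sum, mul_assoc]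
    rw [this, hu, mul_zero]

/-- Rado: `R4` from the rank condition of a leaf -/
theorem R4_of_rank (ep : I ≃ Option C ⊕ D) (g y : C → I → E) (ν x : D → I → E)
    (hg : ∀ l d, ev (g l) (x d) = 0) (hy : ∀ l d, ev (y l) (x d) = 0)
    (hν : ∀ d d', ev (ν d) (x d') = if d = d' then 1 else 0)
    (hr : ∀ A : Finset C, 2 ≤ A.card → A ≠ Finset.univ →
      A.card + 2 ≤ finrank E (span E (g '' (A : Set C) ∪ y '' (A : Set C)))) :
    R4 ep g y ν := by
  classical
  intro k l l' hkl hkl' hll' h0
  set τ : C → I := fun j => ep.symm (Sum.inl (some j)) with hτ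
  have hτinj : Function.Injective τ := by
    intro a b hab
    simpa [hτ] using hab
  have hτep : ∀ j, ep (τ j) = Sum.inl (some j) := by
    intro j
    simp [hτ]
  -- the rows
  set a' : C → I → E := Function.update g l' (y l) with ha'
  set b' : C → I → E := fun j => if j = k ∨ j = l ∨ j = l' then 0 else y j with hb'
  set A : I → I → E := fun i => Sum.elim (fun o : Option C => o.elim (y k) a') ν (ep i) with hA
  set B : I → I → E := fun i => Sum.elim (fun o : Option C => o.elim 0 b') (fun _ => 0) (ep i)
    with hB
  have hrows : Function.update (Function.update (Function.update (Rt g y) k (cs (g k)))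
      l (cs (g l))) l' (cs (y l)) =
      fun j i => MvPolynomial.C (a' j i) + (X j : MvPolynomial C E) * MvPolynomial.C (b' j i) := by
    ext1 j
    ext1 i
    by_cases h1 : j = l'
    · subst h1
      simp [ha', hb', cs]
    · rw [Function.update_of_ne h1]
      by_cases h2 : j = l
      · subst h2
        simp [ha', hb', cs, h1]
      · rw [Function.update_of_ne h2]
        by_cases h3 : j = k
        · subst h3
          simp [ha', hb', cs, h1]
        · rw [Function.update_of_ne h3]
          simp [ha', hb', h1, h2, h3, Rt]
  have hpen : (pen A B).det = rename τ (F2 ep g y ν k l l' (cs (g l)) (cs (y l))) := by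
    have h1 := dt_map ep ((rename τ : MvPolynomial C E →ₐ[E] MvPolynomial I E) :
      MvPolynomial C E →+* MvPolynomial I E) (cs (y k))
      (Function.update (Function.update (Function.update (Rt g y) k (cs (g k)))
      l (cs (g l))) l' (cs (y l))) (cst ν)
    have h2 : ((rename τ : MvPolynomial C E →ₐ[E] MvPolynomial I E) :
      MvPolynomial C E →+* MvPolynomial I E) (dt ep (cs (y k))
        (Function.update (Function.update (Function.update (Rt g y) k (cs (g k)))
        l (cs (g l))) l' (cs (y l))) (cst ν)) =
        rename τ (F2 ep g y ν k l l' (cs (g l)) (cs (y l))) := rfl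
    rw [h2] at h1
    rw [h1, hrows, dt]
    congr 1
    ext1 i c
    simp only [pen, Mx, Matrix.of_apply, hA, hB]
    rcases hi : ep i with o | d
    · rcases o with _ | j
      · simp [cs]
      · have : i = τ j := by rw [hτ]; simp [← hi]
        simp [this]
    · simp [cst]
  have hdet : (pen A B).det = 0 := by
    rw [hpen, h0, map_zero]
  revert hdet
  apply rado_det
  intro S
  -- the normal and the special indices
  set C0 : Finset C := ((Finset.univ.erase k).erase l).erase l' with hC0
  have hC0c : C0.card + 3 = Fintype.card C := by
    have e1 : l' ∈ (Finset.univ.erase k).erase l := by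
      simp [hll'.symm, hkl'.symm]
    have e2 : l ∈ Finset.univ.erase k := by simp [hkl.symm]
    have e3 := Finset.card_erase_add_one e1
    have e4 := Finset.card_erase_add_one e2
    have e5 := Finset.card_erase_add_one (Finset.mem_univ k)
    rw [Finset.card_univ] at e5
    rw [hC0]
    omega
  set nrm : Finset I := C0.image τ with hnrm
  have hnc : nrm.card = C0.card := Finset.card_image_of_injective _ hτinj
  have hIc : Fintype.card I = Fintype.card C + 1 + Fintype.card D := by
    rw [Fintype.card_congr ep, Fintype.card_sum, Fintype.card_option]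
  set A' : Finset C := C0.filter (fun j => τ j ∈ S) with hA'
  have hSn : (S ∩ nrm).card = A'.card := by
    rw [← Finset.card_image_of_injective A' hτinj]
    congr 1
    ext i
    simp only [Finset.mem_inter, hnrm, Finset.mem_image, hA', Finset.mem_filter]
    constructor
    · rintro ⟨h1, j, hj, rfl⟩
      exact ⟨j, ⟨hj, h1⟩, rfl⟩
    · rintro ⟨j, ⟨hj, h1⟩, rfl⟩
      exact ⟨h1, j, hj, rfl⟩
  -- B vanishes on the special indices
  have hBspc : ∀ i, i ∉ nrm → B i = 0 := by
    intro i hi
    simp only [hB]
    rcases hi' : ep i with o | d
    · rcases o with _ | j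
      · simp
      · have hij : i = τ j := by rw [hτ]; simp [← hi']
        have : j = k ∨ j = l ∨ j = l' := by
          by_contra hcon
          push Not at hcon
          apply hi
          rw [hij, hnrm]
          refine Finset.mem_image_of_mem _ ?_
          simp [hC0, hcon]
        simp [hb', this]
    · simp
  have hfin : Fintype.card D + (A'.card + 4) ≤ finrank E (ab E A B (S ∪ nrmᶜ)) := by
    set W := span E (g '' ((insert k (insert l A') : Finset C) : Set C) ∪
      y '' ((insert k (insert l A') : Finset C) : Set C)) with hW
    have h1 : A'.card + 4 ≤ finrank E W := by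
      have hk1 : k ∉ insert l A' := by
        simp [hkl, hA', hC0]
      have hl1 : l ∉ A' := by
        simp [hA', hC0]
      have h2 := hr (insert k (insert l A')) (by
        rw [Finset.card_insert_of_notMem hk1, Finset.card_insert_of_notMem hl1]
        omega) (by
        intro hcon
        have : l' ∈ insert k (insert l A') := by rw [hcon]; exact Finset.mem_univ _
        simp [hkl'.symm, hll'.symm, hA', hC0] at this)
      rw [Finset.card_insert_of_notMem hk1, Finset.card_insert_of_notMem hl1] at h2
      omega
    have h2 := finrank_sup_nu ν x hν W (by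
      intro v hv d
      refine ev_zero_of_mem_span ?_ v hv
      rintro u (⟨j, _, rfl⟩ | ⟨j, _, rfl⟩)
      · exact hg j d
      · exact hy j d)
    have h3 : W ⊔ span E (Set.range ν) ≤ ab E A B (S ∪ nrmᶜ) := by
      have hspc : ∀ i, i ∉ nrm → A i ∈ ab E A B (S ∪ nrmᶜ) := by
        intro i hi
        apply subset_span
        left
        exact ⟨i, by simp [hi], rfl⟩
      have hτk : ∀ j, j = k ∨ j = l ∨ j = l' → τ j ∉ nrm := by
        intro j hj hmem
        rw [hnrm, Finset.mem_image] at hmem
        obtain ⟨j', hj', hjj⟩ := hmem
        have := hτinj hjj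
        subst this
        simp only [hC0, Finset.mem_erase, Finset.mem_univ, and_true] at hj'
        rcases hj with h | h | h
        · exact hj'.2.2 h
        · exact hj'.2.1 h
        · exact hj'.1 h
      have egk : g k ∈ ab E A B (S ∪ nrmᶜ) := by
        have := hspc (τ k) (hτk k (Or.inl rfl))
        simp only [hA, hτep, Sum.elim_inl, Option.elim_some, ha',
          Function.update_of_ne hkl'] at this
        exact this
      have egl : g l ∈ ab E A B (S ∪ nrmᶜ) := by
        have := hspc (τ l) (hτk l (Or.inr (Or.inl rfl)))
        simp only [hA, hτep, Sum.elim_inl, Option.elim_some, ha',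
          Function.update_of_ne hll'] at this
        exact this
      have eyl : y l ∈ ab E A B (S ∪ nrmᶜ) := by
        have := hspc (τ l') (hτk l' (Or.inr (Or.inr rfl)))
        simp only [hA, hτep, Sum.elim_inl, Option.elim_some, ha',
          Function.update_self] at this
        exact this
      have eyk : y k ∈ ab E A B (S ∪ nrmᶜ) := by
        have h4 : ep.symm (Sum.inl none) ∉ nrm := by
          intro hmem
          rw [hnrm, Finset.mem_image] at hmem
          obtain ⟨j', _, hjj⟩ := hmem
          simp [hτ] at hjj
        have := hspc _ h4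
        simp only [hA, Equiv.apply_symm_apply, Sum.elim_inl, Option.elim_none] at this
        exact this
      rw [sup_le_iff, hW, span_le, span_le]
      refine ⟨?_, ?_⟩
      · rintro u (⟨j, hj, rfl⟩ | ⟨j, hj, rfl⟩)
        · simp only [Finset.coe_insert, Set.mem_insert_iff, Finset.mem_coe] at hj
          rcases hj with rfl | rfl | hj
          · exact egk
          · exact egl
          · have hjS : τ j ∈ S := by simp [hA'] at hj; exact hj.2
            have hjC : j ∈ C0 := by simp [hA'] at hj; exact hj.1
            apply subset_span
            left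
            refine ⟨τ j, by simp [hjS], ?_⟩
            have : j ≠ l' := by simp [hC0] at hjC; exact hjC.1
            simp only [hA, hτep, Sum.elim_inl, Option.elim_some, ha',
              Function.update_of_ne this]
        · simp only [Finset.coe_insert, Set.mem_insert_iff, Finset.mem_coe] at hj
          rcases hj with rfl | rfl | hj
          · exact eyk
          · exact eyl
          · have hjS : τ j ∈ S := by simp [hA'] at hj; exact hj.2
            have hjC : j ∈ C0 := by simp [hA'] at hj; exact hj.1
            apply subset_span
            right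
            refine ⟨τ j, by simp [hjS], ?_⟩
            have : ¬ (j = k ∨ j = l ∨ j = l') := by
              simp only [hC0, Finset.mem_erase, Finset.mem_univ, and_true] at hjC
              tauto
            simp only [hB, hτep, Sum.elim_inl, Option.elim_some, hb', if_neg this]
      · rintro u ⟨d, rfl⟩
        have h4 : ep.symm (Sum.inr d) ∉ nrm := by
          intro hmem
          rw [hnrm, Finset.mem_image] at hmem
          obtain ⟨j', _, hjj⟩ := hmem
          simp [hτ] at hjj
        have := hspc _ h4
        simp only [hA, Equiv.apply_symm_apply, Sum.elim_inr] at this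
        exact this
    have h4 := Submodule.finrank_mono h3
    omega
  -- adding the special indices outside `S`
  have hadd : finrank E (ab E A B (S ∪ nrmᶜ)) ≤
      finrank E (ab E A B S) + (nrmᶜ \ S).card := by
    have h1 : ab E A B (S ∪ nrmᶜ) = ab E A B S ⊔ ab E A B (nrmᶜ \ S) := by
      rw [← ab_union]
      congr 1
      ext i
      simp only [Finset.mem_union, Finset.mem_sdiff]
      tauto
    have h2 : ab E A B (nrmᶜ \ S) ≤ span E (((nrmᶜ \ S).image A : Finset (I → E)) :
        Set (I → E)) := by
      unfold ab
      rw [span_le]
      rintro u (⟨i, hi, rfl⟩ | ⟨i, hi, rfl⟩)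
      · apply subset_span
        exact Finset.mem_coe.mpr (Finset.mem_image_of_mem _ (Finset.mem_coe.mp hi))
      · have : i ∉ nrm := by
          simp at hi
          exact hi.1
        rw [hBspc i this]
        exact zero_mem _
    have h3 := Submodule.finrank_mono h2
    have h4 := (finrank_span_finset_le_card (R := E) ((nrmᶜ \ S).image A)).trans
      Finset.card_image_le
    have h5 := Submodule.finrank_add_le_finrank_add_finrank (ab E A B S) (ab E A B (nrmᶜ \ S))
    rw [h1]
    unfold Set.finrank at h4
    omega
  have hc1 : (nrmᶜ \ S).card + (S ∩ nrmᶜ).card = nrmᶜ.card := by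
    rw [Finset.inter_comm, Finset.card_sdiff_add_card_inter]
  have hc2 : nrmᶜ.card + nrm.card = Fintype.card I := by
    rw [Finset.card_compl]
    have := Finset.card_le_univ nrm
    omega
  have hc3 : (S ∩ nrm).card + (S ∩ nrmᶜ).card = S.card := by
    rw [← Finset.sdiff_eq_inter_compl, add_comm, Finset.card_sdiff_add_card_inter]
  omega

/-- **Leaf lemma**: `w_C` is irreducible and full. -/
theorem leaf (ep : I ≃ Option C ⊕ D) (g y : C → I → E) (ν x : D → I → E)
    (hg : ∀ l d, ev (g l) (x d) = 0) (hy : ∀ l d, ev (y l) (x d) = 0)
    (hν : ∀ d d', ev (ν d) (x d') = if d = d' then 1 else 0)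
    (hC : 3 ≤ Fintype.card C)
    (hr : ∀ A : Finset C, 2 ≤ A.card → A ≠ Finset.univ →
      A.card + 2 ≤ finrank E (span E (g '' (A : Set C) ∪ y '' (A : Set C))))
    (hnt : finrank E (span E (Set.range g ∪ Set.range y)) ≤ Fintype.card C + 1) (k : C) :
    Irreducible (wC ep g y ν k) ∧ ∀ v : I → E,
      Leaf.tr v (wC ep g y ν k) = Polynomial.C (wC ep g y ν k) →
      ∀ l, ev (g l) v = 0 ∧ ev (y l) v = 0 := by
  have hR := R4_of_rank ep g y ν x hg hy hν hr
  refine ⟨wC_irreducible hC hR k, ?_⟩
  intro v hv l
  have h1 : ∀ l, k ≠ l → ev (g l) v = 0 ∧ ev (y l) v = 0 := fun l hl => wC_full hC hR k v hv l hl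
  by_cases hkl : k = l
  · subst hkl
    have h2 := hr (Finset.univ.erase k) (by
      rw [Finset.card_erase_of_mem (Finset.mem_univ k), Finset.card_univ]
      omega) (by
      intro hcon
      have : k ∈ Finset.univ.erase k := by rw [hcon]; exact Finset.mem_univ _
      simp at this)
    rw [Finset.card_erase_of_mem (Finset.mem_univ k), Finset.card_univ] at h2
    set W := span E (g '' ((Finset.univ.erase k : Finset C) : Set C) ∪
      y '' ((Finset.univ.erase k : Finset C) : Set C)) with hW
    have h3 : W ≤ span E (Set.range g ∪ Set.range y) :=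
      span_mono (Set.union_subset_union (Set.image_subset_range _ _) (Set.image_subset_range _ _))
    have h4 : W = span E (Set.range g ∪ Set.range y) :=
      Submodule.eq_of_le_of_finrank_le h3 (by omega)
    have h5 : ∀ u ∈ W, ev u v = 0 := by
      rw [hW]
      apply ev_zero_of_mem_span
      rintro u (⟨j, hj, rfl⟩ | ⟨j, hj, rfl⟩)
      · exact (h1 j (by simpa [eq_comm] using hj)).1
      · exact (h1 j (by simpa [eq_comm] using hj)).2
    rw [h4] at h5
    exact ⟨h5 _ (subset_span (Or.inl ⟨k, rfl⟩)), h5 _ (subset_span (Or.inr ⟨k, rfl⟩))⟩
  · exact h1 l hkl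

end Pool.Agent.Lib.CPlane.LF
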