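import Pool.Agent.Lib.CPlane.LFShift
import Pool.Agent.Lib.CPlane.LFFull
import Pool.Agent.Lib.CPlane.LFNu
import Pool.Agent.Lib.CPlane.LFRank

/-!
# Row S08: the leaf prime
-/

set_option autoImplicit false
set_option linter.unusedSectionVars false

namespace Pool.Agent.Lib.CPlane.S2

open MvPolynomial Module Pool.Agent.Lib.CPlane.LF

namespace LfX

theorem fv_succ {E : Type} [Field E] {N : ℕ} (v : Fin N → E) (k : ℕ) (i : Fin N) :
    fv v (k + 1) i = fv v k i ^ 2 := by
  simp only [fv]; rw [pow_succ, pow_mul]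

/-- the arithmetic of the immortal case -/
theorem immortal_arith {a n p q c f e : ℕ} (hn : 0 < n) (hna : n ∣ 2 ^ a) (hc : 2 ^ a ≤ n * c)
    (hf : n * (p - 1) ≤ f - 1) (he : n * (q - 1) ≤ e - 1) (hpq : p + q = c + 1) (hc3 : 2 ≤ c)
    (hp : 1 ≤ p) (hq : 1 ≤ q)
    (hf1 : 1 ≤ f) (he1 : 1 ≤ e) (h2f : 2 * f < 2 ^ a) (h2e : 2 * e < 2 ^ a) : False := by
  obtain ⟨h, hh⟩ := hna
  have hhc : h ≤ c := by
    rw [hh] at hc
    exact Nat.le_of_mul_le_mul_left hc hn
  have h1 : 2 * (p - 1) < h := by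
    by_contra hcon
    push Not at hcon
    have : n * h ≤ n * (2 * (p - 1)) := Nat.mul_le_mul_left n hcon
    have e1 : n * (2 * (p - 1)) = 2 * (n * (p - 1)) := by ring
    omega
  have h2 : 2 * (q - 1) < h := by
    by_contra hcon
    push Not at hcon
    have : n * h ≤ n * (2 * (q - 1)) := Nat.mul_le_mul_left n hcon
    have e1 : n * (2 * (q - 1)) = 2 * (n * (q - 1)) := by ring
    omega
  have h3 : h = 2 * (p - 1) + 1 := by omega
  have h4 : h ∣ 2 ^ a := ⟨n, by rw [hh]; ring⟩
  obtain ⟨b, -, hb⟩ := (Nat.dvd_prime_pow Nat.prime_two).mp h4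
  rcases b with _ | b
  · rw [pow_zero] at hb; omega
  · rw [pow_succ] at hb; omega

section window

variable {E : Type} [Field E] {n : ℕ}

/-- the row order of the window -/
def epW (n : ℕ) : Fin (n + 2) ≃ Option (Fin (n + 1)) ⊕ Empty :=
  (_root_.finSuccEquiv (n + 1)).trans (Equiv.sumEmpty _ _).symm

/-- the functionals of the window -/
def win (v : Fin (n + 2) → E) (s : ℕ) (j : Fin (n + 1)) : Fin (n + 2) → E := fv v (s + j)

theorem wC_zero [CharP E 2] (ga et : Fin (n + 2) → E) (s : ℕ) :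
    wC (epW n) (win ga s) (win et s) (Empty.elim : Empty → Fin (n + 2) → E) 0 = wF ga et s := by
  rw [wC, dt_swap, wF, dd, dt]
  congr 1
  have h0 : epW n 0 = Sum.inl none := by simp [epW]
  have h1 : ∀ i : Fin (n + 1), epW n i.succ = Sum.inl (some i) := by intro i; simp [epW]
  refine Matrix.ext fun i j => ?_
  refine Fin.cases ?_ (fun i => ?_) i
  · simp only [Mx, Matrix.of_apply, h0]
    simp [win]
  · refine Fin.cases ?_ (fun i => ?_) i
    · simp only [Mx, Matrix.of_apply, h1]
      simp [win]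
    · have e : (s + ((i.succ : Fin (n + 1)) : ℕ)) = s + 1 + i := by
        simp only [Fin.val_succ]; ring
      simp only [Mx, Matrix.of_apply, h1, Sum.elim_inl, Option.elim_some, Fin.cons_succ]
      rw [Function.update_of_ne (Fin.succ_ne_zero i)]
      simp only [win, ax, e]

theorem wC_win [CharP E 2] (ga et : Fin (n + 2) → E) (het : ∃ i, et i ≠ 0) (s : ℕ)
    (j : Fin (n + 1)) :
    wC (epW n) (win ga s) (win et s) (Empty.elim : Empty → Fin (n + 2) → E) j = wF ga et s := by
  have hne : ∀ k, fv et k ≠ 0 := by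
    intro k h
    obtain ⟨i, hi⟩ := het
    exact hi (by simpa [fv] using congrFun h i)
  rw [← wC_zero, ← wx_X, ← wx_X]
  apply wx_indep
  · intro h
    have := congrFun h 0
    simp at this
  · exact ev_X_ne_zero (hne _)
  · exact ev_X_ne_zero (hne _)

theorem Fr_wF [CharP E 2] (ga et : Fin (n + 2) → E) (s : ℕ) :
    Fr (wF ga et s) = wF ga et (s + 1) := by
  rw [← wC_zero, ← wC_zero, Fr_wC]
  congr 1
  · ext1 l; ext1 i
    simp only [win]
    rw [← fv_succ]; congr 1; ring
  · ext1 l; ext1 i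
    simp only [win]
    rw [← fv_succ]; congr 1; ring
  · ext1 d; exact d.elim

end window

section coords

variable {K E : Type} [Field K] [Fintype K] [CharP K 2] [Field E] [Finite E] [CharP E 2]
  [Algebra K E] {n f e a : ℕ} {ga et : Fin (n + 2) → E}

theorem split_disj {N : ℕ} {ga et : Fin N → E} (h : Split ga et f e) (i : Fin N) :
    ga i = 0 → et i ≠ 0 := by
  classical
  intro hg he
  have h1 : (Finset.univ.filter fun j => et j = 0).card = f := by
    rw [← h.cf, Nat.card_eq_fintype_card, Fintype.card_subtype]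
  have h2 : (Finset.univ.filter fun j => ga j = 0).card = e := by
    rw [← h.ce, Nat.card_eq_fintype_card, Fintype.card_subtype]
  have h3 : (Finset.univ.filter fun j => et j = 0) ∪ (Finset.univ.filter fun j => ga j = 0) =
      Finset.univ := by
    ext j
    simp only [Finset.mem_union, Finset.mem_filter, Finset.mem_univ, true_and, iff_true]
    exact (h.zero j).symm
  have h4 := Finset.card_union_add_card_inter (Finset.univ.filter fun j => et j = 0)
    (Finset.univ.filter fun j => ga j = 0)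
  rw [h3, h1, h2, h.sum, Finset.card_univ, Fintype.card_fin] at h4
  have h5 : i ∈ (Finset.univ.filter fun j => et j = 0) ∩
      (Finset.univ.filter fun j => ga j = 0) := by simp [hg, he]
  have h6 := Finset.card_pos.mpr ⟨i, h5⟩
  omega

theorem fv_zero {N : ℕ} {v : Fin N → E} {i : Fin N} (h : v i = 0) (k : ℕ) : fv v k i = 0 := by
  simp [fv, h]

theorem pow_two_pow (hK : Fintype.card K = 2) (hE : finrank K E = 2 ^ a) (c : E) :
    c ^ 2 ^ 2 ^ a = c := by
  have : Fintype E := Fintype.ofFinite E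
  have : FiniteDimensional K E := inferInstance
  have h := Module.card_eq_pow_finrank (K := K) (V := E)
  rw [hK, hE] at h
  rw [← h]
  exact FiniteField.pow_card c

theorem fv_period {N : ℕ} (hm : ∀ c : E, c ^ 2 ^ 2 ^ a = c) (v : Fin N → E) (k : ℕ) :
    fv v (k + 2 ^ a) = fv v k := by
  ext i
  simp only [fv]
  rw [pow_add, pow_mul, hm]

theorem fv_mod {N : ℕ} (hm : ∀ c : E, c ^ 2 ^ 2 ^ a = c) (v : Fin N → E) (k : ℕ) :
    fv v (k % 2 ^ a) = fv v k := by
  have h : ∀ q r : ℕ, fv v (r + 2 ^ a * q) = fv v r := by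
    intro q
    induction q with
    | zero => intro r; simp
    | succ q ih =>
      intro r
      rw [Nat.mul_succ, ← Nat.add_assoc, fv_period hm, ih]
  conv_rhs => rw [← Nat.mod_add_div k (2 ^ a)]
  rw [h]

theorem fv_congr {N : ℕ} (hm : ∀ c : E, c ^ 2 ^ 2 ^ a = c) (v : Fin N → E) {k l : ℕ}
    (h : k ≡ l [MOD 2 ^ a]) : fv v k = fv v l := by
  rw [← fv_mod hm v k, ← fv_mod hm v l, h]

theorem wF_period (hm : ∀ c : E, c ^ 2 ^ 2 ^ a = c) (ga et : Fin (n + 2) → E) (s : ℕ) :
    wF ga et (s + 2 ^ a) = wF ga et s := by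
  have h : ∀ v : Fin (n + 2) → E, ∀ j : ℕ, fv v (s + 2 ^ a + 1 + j) = fv v (s + 1 + j) := by
    intro v j
    rw [show s + 2 ^ a + 1 + j = (s + 1 + j) + 2 ^ a by ring, fv_period hm]
  simp only [wF, ax, fv_period hm, h]

theorem WA_eq {N : ℕ} (ga et : Fin N → E) (C : Finset ℕ) : WA ga et C = Submodule.span E
    (Set.range (fun l : C => fv ga l) ∪ Set.range (fun l : C => fv et l)) := by
  have h : ∀ v : Fin N → E, Set.range (fun l : C => fv v l) = fv v '' (C : Set ℕ) := by
    intro v
    ext w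
    simp
  rw [WA, gy, h, h]

theorem finrank_pair {V : Type} [AddCommGroup V] [Module E V] [FiniteDimensional E V]
    (C : Finset ℕ) (hC : C.card = 2) (g : ℕ → V)
    (h : ∀ k ∈ C, ∀ l ∈ C, k ≠ l → ∀ c : E, g k ≠ c • g l) :
    finrank E (Submodule.span E (Set.range (fun l : C => g l))) = 2 := by
  obtain ⟨k, l, hkl, rfl⟩ := Finset.card_eq_two.mp hC
  have hr : Set.range (fun x : ({k, l} : Finset ℕ) => g x) = Set.range ![g k, g l] := by
    ext w
    constructor
    · rintro ⟨⟨x, hx⟩, rfl⟩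
      rcases Finset.mem_insert.mp hx with h1 | h1
      · subst h1; exact ⟨0, rfl⟩
      · rw [Finset.mem_singleton] at h1; subst h1; exact ⟨1, rfl⟩
    · rintro ⟨i, rfl⟩
      fin_cases i
      · exact ⟨⟨k, by simp⟩, rfl⟩
      · exact ⟨⟨l, by simp⟩, rfl⟩
  have hk : k ∈ ({k, l} : Finset ℕ) := by simp
  have hl : l ∈ ({k, l} : Finset ℕ) := by simp
  rw [hr]
  have hli : LinearIndependent E ![g k, g l] := by
    rw [LinearIndependent.pair_iff' (fun h0 => h k hk l hl hkl 0 (by rw [zero_smul, h0]))]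
    intro c hc
    exact h l hl k hk hkl.symm c hc.symm
  rw [finrank_span_eq_card hli]
  simp

theorem three_le (hP : Pair3 K ga et f e a) {s : ℕ} {C : Finset ℕ}
    (hC : C ⊆ Finset.Icc (s + 1) (s + n)) (hL : IsLeaf ga et C) : 3 ≤ C.card := by
  classical
  have hm := pow_two_pow (E := E) hP.card hP.deg
  have hn : n + 2 < 2 ^ a := by have := hP.hf; have := hP.he; have := hP.split.sum; omega
  by_contra hcon
  have h2 : C.card = 2 := by have := hL.two; omega
  have hnp : ∀ v : Fin (n + 2) → E, (∀ k l, k < 2 ^ a → l < 2 ^ a → k ≠ l → ∀ c : E,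
      fv v k ≠ c • fv v l) → ∀ k ∈ C, ∀ l ∈ C, k ≠ l → ∀ c : E, fv v k ≠ c • fv v l := by
    intro v hv k hk l hl hkl c
    have hk' := Finset.mem_Icc.mp (hC hk)
    have hl' := Finset.mem_Icc.mp (hC hl)
    rw [← fv_mod hm v k, ← fv_mod hm v l]
    refine hv _ _ (Nat.mod_lt _ (by positivity)) (Nat.mod_lt _ (by positivity)) ?_ c
    intro hmod
    apply hkl
    have h3 : k ≡ l [MOD 2 ^ a] := hmod
    rcases le_total k l with hle | hle
    · have h4 := (Nat.modEq_iff_dvd' hle).mp h3
      have h5 := Nat.eq_zero_of_dvd_of_lt h4 (by omega)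
      omega
    · have h4 := (Nat.modEq_iff_dvd' hle).mp h3.symm
      have h5 := Nat.eq_zero_of_dvd_of_lt h4 (by omega)
      omega
  have hnt := hL.nt
  rw [IsNT, WA_eq, NUx.finrank_union (fun i => et i = 0) _ _ ?_ ?_,
    finrank_pair C h2 (fv ga) (hnp ga hP.np_g), finrank_pair C h2 (fv et) (hnp et hP.np_y),
    h2] at hnt
  · omega
  · intro l i hi
    exact fv_zero ((hP.split.zero i).resolve_right hi) l
  · intro l i hi
    exact fv_zero hi l

end coords

theorem exists_beta {C D : Type} [Fintype C] [Fintype D] {N : ℕ} (ι : C → Fin N)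
    (hι : Function.Injective ι) (h : Fintype.card C + Fintype.card D = N) :
    ∃ β : C ⊕ D ≃ Fin N, ∀ l, β (Sum.inl l) = ι l := by
  classical
  have h1 : Fintype.card (Set.range ι : Set (Fin N)) = Fintype.card C :=
    Fintype.card_congr (Equiv.ofInjective ι hι).symm
  have h2 : Fintype.card ((Set.range ι)ᶜ : Set (Fin N)) = Fintype.card D := by
    rw [Fintype.card_compl_set, h1, Fintype.card_fin]
    omega
  refine ⟨(Equiv.sumCongr (Equiv.ofInjective ι hι) (Fintype.equivOfCardEq h2.symm)).trans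
    (Equiv.Set.sumCompl (Set.range ι)), fun l => ?_⟩
  simp

theorem card_left (a b : ℕ) [DecidablePred fun d : Fin a ⊕ Fin b => d.isLeft = true] :
    Fintype.card {d : Fin a ⊕ Fin b // d.isLeft = true} = a := by
  rw [Fintype.card_congr (β := Fin a), Fintype.card_fin]
  exact { toFun := fun d => d.1.getLeft d.2
          invFun := fun i => ⟨Sum.inl i, rfl⟩
          left_inv := by rintro ⟨d | d, h⟩ <;> simp_all
          right_inv := fun i => rfl }

theorem card_right (a b : ℕ) [DecidablePred fun d : Fin a ⊕ Fin b => d.isRight = true] :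
    Fintype.card {d : Fin a ⊕ Fin b // d.isRight = true} = b := by
  rw [Fintype.card_congr (β := Fin b), Fintype.card_fin]
  exact { toFun := fun d => d.1.getRight d.2
          invFun := fun i => ⟨Sum.inr i, rfl⟩
          left_inv := by rintro ⟨d | d, h⟩ <;> simp_all
          right_inv := fun i => rfl }

end LfX

open LfX in
/-- **row S08** -/
theorem leaf (the : THE) (wnz : WNZ) : LEAF := by
  classical
  intro K E _ _ _ _ _ _ _ n f e a ga et hP s C hC hL
  have hm := pow_two_pow (E := E) hP.card hP.deg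
  have hfe := hP.split.sum
  have h2f := hP.hf
  have h2e := hP.he
  have hn : n + 2 < 2 ^ a := by omega
  have hC3 := three_le hP hC hL
  have hC3' : 3 ≤ Fintype.card C := by simpa using hC3
  have hdisj := split_disj hP.split
  have hzero := hP.split.zero
  have hcf : Fintype.card {i // et i = 0} = f := by
    rw [← Nat.card_eq_fintype_card]; exact hP.split.cf
  have hiff : ∀ i, ¬ et i = 0 ↔ ga i = 0 := fun i =>
    ⟨fun h => (hzero i).resolve_right h, fun h => hdisj i h⟩
  have hce : Fintype.card {i // ¬ et i = 0} = e := by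
    rw [← Nat.card_eq_fintype_card, ← hP.split.ce]
    exact Nat.card_congr (Equiv.subtypeEquivRight hiff)
  have hg : ∀ (l : C) (i : Fin (n + 2)), ¬ et i = 0 → fv ga (l : ℕ) i = 0 :=
    fun l i hi => fv_zero ((hiff i).mp hi) l
  have hy : ∀ (l : C) (i : Fin (n + 2)), et i = 0 → fv et (l : ℕ) i = 0 :=
    fun l i hi => fv_zero hi l
  obtain ⟨p, hp⟩ : ∃ p, finrank E (Submodule.span E (Set.range fun l : C => fv ga (l : ℕ))) = p :=
    ⟨_, rfl⟩
  obtain ⟨q, hq⟩ : ∃ q, finrank E (Submodule.span E (Set.range fun l : C => fv et (l : ℕ))) = q :=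
    ⟨_, rfl⟩
  have hnt := hL.nt
  rw [IsNT, WA_eq] at hnt
  have hpq : p + q = C.card + 1 := by
    rw [← hnt, NUx.finrank_union (fun i => et i = 0) _ _ hg hy, hp, hq]
  obtain ⟨ep, nu, x, b, hQ, hgx, hyx, hnu, hnl, hnr⟩ := exists_nu (fun i => et i = 0)
    (fun l : C => fv ga (l : ℕ)) (fun l : C => fv et (l : ℕ)) hg hy hp hq
    (by rw [hpq]; simp) hcf hce
  have hcard := Fintype.card_congr ep
  simp only [Fintype.card_fin, Fintype.card_sum, Fintype.card_option, Fintype.card_coe] at hcard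
  have hpf : p ≤ f := by omega
  have hqe : q ≤ e := by omega
  obtain ⟨k0, hk0⟩ : C.Nonempty := Finset.card_pos.mp (by omega)
  have hr : ∀ A : Finset C, 2 ≤ A.card → A ≠ Finset.univ → A.card + 2 ≤
      finrank E (Submodule.span E ((fun l : C => fv ga (l : ℕ)) '' (A : Set C) ∪
        (fun l : C => fv et (l : ℕ)) '' (A : Set C))) := by
    intro A hA hAu
    have h1 := hL.min (A.map (Function.Embedding.subtype _)) ?_ (by simpa using hA)
    · rw [Finset.card_map, WA, gy] at h1
      have hs : ∀ v : Fin (n + 2) → E, fv v '' ((A.map (Function.Embedding.subtype _) :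
          Finset ℕ) : Set ℕ) = (fun l : C => fv v (l : ℕ)) '' (A : Set C) := by
        intro v
        rw [Finset.coe_map, Set.image_image]
        rfl
      rw [hs, hs] at h1
      exact h1
    · rw [Finset.ssubset_iff_subset_ne]
      refine ⟨fun z hz => ?_, fun h => hAu ?_⟩
      · obtain ⟨z', -, rfl⟩ := Finset.mem_map.mp hz
        exact z'.2
      · apply Finset.eq_univ_of_card
        have h2 := congrArg Finset.card h
        rw [Finset.card_map] at h2
        rw [h2, Fintype.card_coe]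
  obtain ⟨hirr, hfull⟩ := LF.leaf ep (fun l : C => fv ga (l : ℕ)) (fun l : C => fv et (l : ℕ))
    nu x hgx hyx hnu hC3' hr (by rw [hnt]; simp) ⟨k0, hk0⟩
  have hfull' : ∀ v, Leaf.tr v (wC ep (fun l : C => fv ga (l : ℕ)) (fun l : C => fv et (l : ℕ)) nu
      ⟨k0, hk0⟩) = Polynomial.C (wC ep (fun l : C => fv ga (l : ℕ))
        (fun l : C => fv et (l : ℕ)) nu ⟨k0, hk0⟩) → ∀ l ∈ C,
      ∑ i, fv ga l i * v i = 0 ∧ ∑ i, fv et l i * v i = 0 :=
    fun v hv l hl => hfull v hv ⟨l, hl⟩
  have het : ∃ i, et i ≠ 0 := by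
    by_contra hcon
    push Not at hcon
    have h1 : IsEmpty {i // ¬ et i = 0} := ⟨fun i => i.2 (hcon i)⟩
    have h2 : Fintype.card {i // ¬ et i = 0} = 0 := Fintype.card_eq_zero
    have := hP.split.two_e
    omega
  have hprime := hirr.prime
  have hw0 := hirr.ne_zero
  refine ⟨wC ep (fun l : C => fv ga (l : ℕ)) (fun l : C => fv et (l : ℕ)) nu ⟨k0, hk0⟩, hprime,
    hfull', ?_, ?_⟩
  · -- divisibility
    intro s' C' hC' hmod
    have hch : ∀ l : C, ∃ j : Fin (n + 1), (l : ℕ) ≡ s' + j [MOD 2 ^ a] := by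
      intro l
      obtain ⟨l', hl', hll⟩ := hmod l l.2
      have h1 := Finset.mem_Icc.mp (hC' hl')
      exact ⟨⟨l' - s', by omega⟩, by rwa [show s' + (l' - s') = l' by omega]⟩
    choose ι hι using hch
    have hinj : Function.Injective ι := by
      intro k l hkl
      have h3 : (k : ℕ) ≡ l [MOD 2 ^ a] := by
        have h1 := hι k
        rw [hkl] at h1
        exact h1.trans (hι l).symm
      have hk' := Finset.mem_Icc.mp (hC k.2)
      have hl' := Finset.mem_Icc.mp (hC l.2)
      apply Subtype.ext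
      rcases le_total (k : ℕ) l with hle | hle
      · have h4 := (Nat.modEq_iff_dvd' hle).mp h3
        have h5 := Nat.eq_zero_of_dvd_of_lt h4 (by omega)
        omega
      · have h4 := (Nat.modEq_iff_dvd' hle).mp h3.symm
        have h5 := Nat.eq_zero_of_dvd_of_lt h4 (by omega)
        omega
    obtain ⟨β, hβ⟩ := exists_beta (D := Fin (f - p) ⊕ Fin (e - q)) ι hinj
      (by simp only [Fintype.card_coe, Fintype.card_sum, Fintype.card_fin]; omega)
    rw [← wC_win ga et het s' (β (Sum.inl ⟨k0, hk0⟩))]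
    refine wC_dvd ep _ _ nu _ x b hQ hgx hyx hnu (epW n) (win ga s') (win et s') _ β ?_ ?_
    · intro l
      rw [hβ, win, ← fv_congr hm ga (hι l)]
    · intro l
      rw [hβ, win, ← fv_congr hm et (hι l)]
  · -- not immortal
    intro himm
    have hall : ∀ d, wC ep (fun l : C => fv ga (l : ℕ)) (fun l : C => fv et (l : ℕ)) nu
        ⟨k0, hk0⟩ ∣ wF ga et d := by
      intro d
      have h1 : ∀ q : ℕ, wF ga et (d + q * 2 ^ a) = wF ga et d := by
        intro q
        induction q with
        | zero => simp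
        | succ q ih => rw [Nat.succ_mul, ← Nat.add_assoc, wF_period hm, ih]
      rw [← h1 s]
      apply himm
      have : 1 ≤ 2 ^ a := Nat.one_le_two_pow
      nlinarith
    have hmem : wC ep (fun l : C => fv ga (l : ℕ)) (fun l : C => fv et (l : ℕ)) nu
        ⟨k0, hk0⟩ ∈ Algebra.adjoin E (Leaf.lf '' rowsX (fv ga) (fv et) (C : Set ℕ) 0) :=
      wC_mem ep _ _ nu _ _ (fun l => ⟨l, l.2, Or.inl rfl⟩) (fun l => ⟨l, l.2, Or.inr rfl⟩)
    have hspan : ∀ t, Submodule.span E (rowsX (fv ga) (fv et) (C : Set ℕ) t) =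
        WA ga et (C.image (· + t)) := by
      intro t
      rw [WA]
      congr 1
      ext w
      simp only [rowsX, gy, Set.mem_union, Set.mem_image, Finset.coe_image, Set.mem_ofPred_eq]
      constructor
      · rintro ⟨k, hk, h | h⟩
        · exact Or.inl ⟨k + t, ⟨k, hk, rfl⟩, h.symm⟩
        · exact Or.inr ⟨k + t, ⟨k, hk, rfl⟩, h.symm⟩
      · rintro (⟨_, ⟨k, hk, rfl⟩, h⟩ | ⟨_, ⟨k, hk, rfl⟩, h⟩)
        · exact ⟨k, hk, Or.inl h.symm⟩
        · exact ⟨k, hk, Or.inr h.symm⟩
    have hclosed : ∀ t k, fv ga k ∈ Submodule.span E (rowsX (fv ga) (fv et) (C : Set ℕ) t) →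
        fv et k ∈ Submodule.span E (rowsX (fv ga) (fv et) (C : Set ℕ) t) →
        ∃ j ∈ C, (k : ZMod (2 ^ a)) = j + t := by
      intro t k h1 h2
      rw [hspan] at h1 h2
      obtain ⟨j', hj', hkj⟩ := the ga et hP (s + t) (C.image (· + t)) (by
        intro z hz
        obtain ⟨l, hl, rfl⟩ := Finset.mem_image.mp hz
        have := Finset.mem_Icc.mp (hC hl)
        rw [Finset.mem_Icc]
        constructor <;> omega) (isNT_shift ga et C hL.nt t) k h1 h2
      obtain ⟨j, hj, rfl⟩ := Finset.mem_image.mp hj'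
      refine ⟨j, hj, ?_⟩
      have h3 := (ZMod.natCast_eq_natCast_iff k (j + t) (2 ^ a)).mpr hkj
      rw [h3]; push_cast; ring
    obtain ⟨N, hN0, hNa, hNc, hNd⟩ := immortal (m := 2 ^ a) (by positivity) hm (fv ga) (fv et)
      (fv_succ ga) (fv_succ et) C ⟨k0, hk0⟩ (wF ga et) (Fr_wF ga et) (wnz ga et hP 0) hprime hall
      hmem hfull' hclosed
    have d1 := dg_wC ep (fun l : C => fv ga (l : ℕ)) (fun l : C => fv et (l : ℕ)) nu
      (fun i => et i = 0) (fun d => d.isLeft = true) hg hy (by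
        rintro (d | d) i h1 h2
        · exact hnl d i h2
        · simp at h1) (by
        rintro (d | d) i h1 h2
        · simp at h1
        · exact hnr d i h2) ⟨k0, hk0⟩ hw0
    have d2 := dg_wC ep (fun l : C => fv et (l : ℕ)) (fun l : C => fv ga (l : ℕ)) nu
      (fun i => ¬ et i = 0) (fun d => d.isRight = true) (fun l i h => hy l i (not_not.mp h))
      (fun l i h => hg l i h) (by
        rintro (d | d) i h1 h2
        · simp at h1
        · exact hnr d i (not_not.mp h2)) (by
        rintro (d | d) i h1 h2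
        · exact hnl d i h2
        · simp at h1) ⟨k0, hk0⟩ (by rw [wC_symm]; exact hw0)
    rw [wC_symm] at d2
    rw [card_left, hcf] at d1
    rw [card_right, hce] at d2
    have hwin : ∀ (v : Fin (n + 2) → E) (l : Fin (n + 1)) (i : Fin (n + 2)), v i = 0 →
        win v 0 l i = 0 := fun v l i h => fv_zero h _
    have d3 := dg_wC (epW n) (win ga 0) (win et 0) (Empty.elim : Empty → Fin (n + 2) → E)
      (fun i => et i = 0) (fun _ => True) (fun l i h => hwin ga l i ((hiff i).mp h))
      (fun l i h => hwin et l i h) (fun d => d.elim) (fun d => d.elim) 0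
      (by rw [wC_zero]; exact wnz ga et hP 0)
    have d4 := dg_wC (epW n) (win et 0) (win ga 0) (Empty.elim : Empty → Fin (n + 2) → E)
      (fun i => ¬ et i = 0) (fun _ => True) (fun l i h => hwin et l i (not_not.mp h))
      (fun l i h => hwin ga l i ((hiff i).mp h)) (fun d => d.elim) (fun d => d.elim) 0
      (by rw [wC_symm, wC_zero]; exact wnz ga et hP 0)
    rw [wC_symm, wC_zero, hce] at d4
    rw [wC_zero, hcf] at d3
    have hE0 : Fintype.card {_d : Empty // True} = 0 := Fintype.card_eq_zero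
    rw [hE0] at d3 d4
    have hp1 : 1 ≤ p := by
      by_contra hcon
      have h0 : finrank E (Submodule.span E (Set.range fun l : C => fv ga (l : ℕ))) = 0 := by
        omega
      rw [Submodule.finrank_eq_zero, Submodule.span_eq_bot] at h0
      have h1 : fv ga k0 = 0 := h0 _ ⟨⟨k0, hk0⟩, rfl⟩
      rw [← fv_mod hm ga k0] at h1
      have h2a : 2 ≤ 2 ^ a := by omega
      rcases Nat.eq_zero_or_pos (k0 % 2 ^ a) with h2 | h2
      · exact hP.np_g (k0 % 2 ^ a) 1 (Nat.mod_lt _ (by positivity)) (by omega) (by omega) 0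
          (by rw [h1, zero_smul])
      · exact hP.np_g (k0 % 2 ^ a) 0 (Nat.mod_lt _ (by positivity)) (by omega) (by omega) 0
          (by rw [h1, zero_smul])
    have hq1 : 1 ≤ q := by
      by_contra hcon
      have h0 : finrank E (Submodule.span E (Set.range fun l : C => fv et (l : ℕ))) = 0 := by
        omega
      rw [Submodule.finrank_eq_zero, Submodule.span_eq_bot] at h0
      have h1 : fv et k0 = 0 := h0 _ ⟨⟨k0, hk0⟩, rfl⟩
      rw [← fv_mod hm et k0] at h1
      have h2a : 2 ≤ 2 ^ a := by omega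
      rcases Nat.eq_zero_or_pos (k0 % 2 ^ a) with h2 | h2
      · exact hP.np_y (k0 % 2 ^ a) 1 (Nat.mod_lt _ (by positivity)) (by omega) (by omega) 0
          (by rw [h1, zero_smul])
      · exact hP.np_y (k0 % 2 ^ a) 0 (Nat.mod_lt _ (by positivity)) (by omega) (by omega) 0
          (by rw [h1, zero_smul])
    have n1 := hNd (dg fun i => et i = 0) (fun _ _ h1 h2 => dg_mul _ h1 h2) (fun _ => dg_Fr _ _)
    have n2 := hNd (dg fun i => ¬ et i = 0) (fun _ _ h1 h2 => dg_mul _ h1 h2)
      (fun _ => dg_Fr _ _)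
    have hf2 := hP.split.two_f
    have he2 := hP.split.two_e
    refine immortal_arith (p := p) (q := q) (f := f) (e := e) hN0 hNa hNc ?_ ?_ hpq (by omega)
      hp1 hq1 (by omega) (by omega) h2f h2e
    · have e1 : dg (fun i => et i = 0) (wC ep (fun l : C => fv ga (l : ℕ))
          (fun l : C => fv et (l : ℕ)) nu ⟨k0, hk0⟩) = p - 1 := by omega
      rw [e1] at n1
      omega
    · have e1 : dg (fun i => ¬ et i = 0) (wC ep (fun l : C => fv ga (l : ℕ))
          (fun l : C => fv et (l : ℕ)) nu ⟨k0, hk0⟩) = q - 1 := by omega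
      rw [e1] at n2
      omega

end Pool.Agent.Lib.CPlane.S2
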