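import Pool.Agent.Lib.CPlane.S2Pre
import Pool.Agent.Lib.CPlane.S2E
import Pool.Agent.Lib.CPlane.S2LeafFin

/-!
# s = 2: Part II over the field with two elements
-/

namespace Pool.Agent.Lib.CPlane.S2

/-- Part II over the field with two elements -/
theorem main2 : MAIN2 := main2_pre the (leaf the (wnz ntt))

end Pool.Agent.Lib.CPlane.S2
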