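import Pool.Agent.Lib.CPlane.AOStat
import Pool.Agent.Lib.CPlane.S2All

/-!
# Row A8: the planes of order `2 ^ 2 ^ k`
-/

namespace Pool.Agent.Lib.CPlane.AO

theorem a8 : A8 := by
  intro P n k A G hn hG hflag
  have h1 : 0 < n := by
    rw [hn]
    positivity
  have h2 : 0 < Nat.card P := by
    rw [A.card_points]
    positivity
  obtain ⟨o⟩ := (Nat.card_pos_iff.mp h2).1
  exact S2.plane_of_main S2.main2 A G hG hflag o (Or.inl ⟨k, hn⟩)

end Pool.Agent.Lib.CPlane.AO
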