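import Pool.Agent.Lib.CPlane.AO1
import Pool.Agent.Lib.CPlane.AO2
import Pool.Agent.Lib.CPlane.AO3
import Pool.Agent.Lib.CPlane.AO4
import Pool.Agent.Lib.CPlane.AO5e
import Pool.Agent.Lib.CPlane.AO7
import Pool.Agent.Lib.CPlane.AO8

/-!
# Sharply flag-transitive planes, order by order: assembly
-/

namespace Pool.Agent.Lib.CPlane.AO

theorem all (n : ℕ) (hn : 2 ≤ n) :
    ((∃ (P : Type) (A : AffinePlane P n) (G : Subgroup (Equiv.Perm P)),
        IsCollineationGroup A G ∧ SharplyFlagTransitive A G) ↔ ∃ m, n = 2 ^ m) ∧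
    ((∀ (P : Type) (A : AffinePlane P n) (G : Subgroup (Equiv.Perm P)),
        IsCollineationGroup A G → SharplyFlagTransitive A G → Desarguesian A) ↔
      n = 8 ∨ ∀ m, n = 2 ^ m → ∃ k, m = 2 ^ k) :=
  all_orders a1 a2 a3 a4 a5e a6 a7 a8 n hn

end Pool.Agent.Lib.CPlane.AO
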