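import Mathlib

/-!
# Affine planes, collineations
-/

namespace Pool.Agent.Lib.CPlane

/-- A finite affine plane of order `n` on the point set `P`: `n ^ 2` points, `n ^ 2 + n` lines
(given as sets of points), every line carries `n` points, two distinct points lie on exactly one
line, and through a point off a line `L` passes exactly one line disjoint from `L`. -/
structure AffinePlane (P : Type) (n : ℕ) where
  /-- the set of lines -/
  lines : Set (Set P)
  card_points : Nat.card P = n ^ 2
  card_lines : lines.ncard = n ^ 2 + n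
  card_line : ∀ L ∈ lines, L.ncard = n
  join : ∀ p q : P, p ≠ q → ∃! L : Set P, L ∈ lines ∧ p ∈ L ∧ q ∈ L
  parallel : ∀ L ∈ lines, ∀ p : P, p ∉ L → ∃! M : Set P, M ∈ lines ∧ p ∈ M ∧ Disjoint M L

/-- `G` is a group of collineations of the plane `A`: each of its elements maps lines onto
lines. -/
def IsCollineationGroup {P : Type} {n : ℕ} (A : AffinePlane P n)
    (G : Subgroup (Equiv.Perm P)) : Prop :=
  ∀ g ∈ G, ∀ L ∈ A.lines, (g : P → P) '' L ∈ A.lines

/-- `G` is sharply transitive on the flags (incident point-line pairs) of `A`: for any two flags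
exactly one element of `G` maps the first onto the second. -/
def SharplyFlagTransitive {P : Type} {n : ℕ} (A : AffinePlane P n)
    (G : Subgroup (Equiv.Perm P)) : Prop :=
  ∀ p : P, ∀ L ∈ A.lines, p ∈ L → ∀ q : P, ∀ M ∈ A.lines, q ∈ M →
    ∃! g : Equiv.Perm P, g ∈ G ∧ g p = q ∧ (g : P → P) '' L = M

/-- the lines of the plane `AG(2, F)` -/
def agLines (F : Type) [Field F] : Set (Set (F × F)) :=
  {L | ∃ p d : F × F, d ≠ 0 ∧ L = {x | ∃ t : F, x = p + t • d}}

/-- `A` is desarguesian: isomorphic to `AG(2, F)` for a finite field `F` with `n` elements -/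
def Desarguesian {P : Type} {n : ℕ} (A : AffinePlane P n) : Prop :=
  ∃ (F : Type) (_ : Field F) (e : P ≃ F × F), Nat.card F = n ∧
    ∀ L : Set P, L ∈ A.lines ↔ e '' L ∈ agLines F

end Pool.Agent.Lib.CPlane
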