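import Pool.Agent.Lib.CPlane.Form

/-!
# The blocks (rows A5, A6, A7)
-/

namespace Pool.Agent.Lib.CPlane

open Module

variable {m : ℕ} {Ω : Type} [Field Ω]

section pr

variable {b : ℕ} (κ : ZMod (2 * m) → Fin b)

theorem pr_pr (c c' : Fin b) (z : Zs m Ω) :
    pr κ c' (pr κ c z) = if c' = c then pr κ c z else 0 := by
  ext i
  by_cases h : c' = c
  · subst h
    rw [if_pos rfl]
    by_cases hi : κ i = c' <;> simp [pr_apply, hi]
  · simp only [pr_apply, if_neg h, Pi.zero_apply, ite_eq_right_iff]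
    intro h1 h2
    exact absurd (h1.symm.trans h2) h

theorem pr_self (c : Fin b) (z : Zs m Ω) : pr κ c (pr κ c z) = pr κ c z := by
  rw [pr_pr, if_pos rfl]

theorem sum_pr (z : Zs m Ω) : ∑ c, pr κ c z = z := by
  ext i
  rw [Finset.sum_apply]
  simp [pr_apply]

/-- (A7d) dimension of a sum of blocks -/
theorem finrank_blocks (U : Fin b → Submodule Ω (Zs m Ω)) [NeZero m]
    (hU : ∀ c, ∀ z ∈ U c, pr κ c z = z) (S : Submodule Ω (Zs m Ω))
    (hS : ∀ z, z ∈ S ↔ ∀ c, pr κ c z ∈ U c) :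
    finrank Ω S = ∑ c, finrank Ω (U c) := by
  have key : ∀ u : (c : Fin b) → U c, ∀ c', pr κ c' (∑ c, (u c : Zs m Ω)) = u c' := by
    intro u c'
    rw [map_sum, Finset.sum_eq_single c']
    · exact hU c' _ (u c').2
    · intro c _ hc
      rw [← hU c _ (u c).2, pr_pr, if_neg (Ne.symm hc)]
    · intro h
      exact absurd (Finset.mem_univ _) h
  let e : S ≃ₗ[Ω] ((c : Fin b) → U c) :=
    { toFun := fun z c => ⟨pr κ c z, (hS z).1 z.2 c⟩
      map_add' := by
        intro x y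
        ext c
        simp
      map_smul' := by
        intro a x
        ext c
        simp
      invFun := fun u => ⟨∑ c, (u c : Zs m Ω), by
        rw [hS]
        intro c'
        rw [key]
        exact (u c').2⟩
      left_inv := by
        intro z
        apply Subtype.ext
        exact sum_pr κ (z : Zs m Ω)
      right_inv := by
        intro u
        funext c
        apply Subtype.ext
        exact key u c }
  rw [e.finrank_eq, Module.finrank_pi_fintype]

end pr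

variable [NeZero m] (C : Cfg m Ω) (D : Submodule Ω (Zs m Ω))
  {b : ℕ} (κ : ZMod (2 * m) → Fin b)

/-- the line `ℓ_c(t)`: the image of `D^⊥t` in the block `c` -/
noncomputable def ell (c : Fin b) (t : Zs m Ω) : Submodule Ω (Zs m Ω) :=
  Submodule.map (pr κ c) (perp C.X D t)

/-- the sum of all blocks of `D` -/
noncomputable def bigD : Submodule Ω (Zs m Ω) where
  carrier := {z | ∀ c, pr κ c z ∈ Submodule.map (pr κ c) D}
  zero_mem' := by intro c; rw [map_zero]; exact Submodule.zero_mem _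
  add_mem' := by
    intro x y hx hy c
    rw [map_add]
    exact Submodule.add_mem _ (hx c) (hy c)
  smul_mem' := by
    intro a x hx c
    rw [map_smul]
    exact Submodule.smul_mem _ a (hx c)

omit [NeZero m] in
theorem mem_bigD {z : Zs m Ω} :
    z ∈ bigD D κ ↔ ∀ c, pr κ c z ∈ Submodule.map (pr κ c) D := Iff.rfl

/-- the sum of all lines `ℓ_c(t)` -/
noncomputable def bigL (t : Zs m Ω) : Submodule Ω (Zs m Ω) where
  carrier := {z | ∀ c, pr κ c z ∈ ell C D κ c t}
  zero_mem' := by intro c; rw [map_zero]; exact Submodule.zero_mem _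
  add_mem' := by
    intro x y hx hy c
    rw [map_add]
    exact Submodule.add_mem _ (hx c) (hy c)
  smul_mem' := by
    intro a x hx c
    rw [map_smul]
    exact Submodule.smul_mem _ a (hx c)

theorem mem_bigL {t z : Zs m Ω} : z ∈ bigL C D κ t ↔ ∀ c, pr κ c z ∈ ell C D κ c t := Iff.rfl

/-- `t` is very good: for generic `t'` all mixtures of `t` and `t'` are good -/
def Good2 (t : Zs m Ω) : Prop :=
  ∀ᶠ t' in Gen (ZMod (2 * m)) Ω, ∀ S : Set (ZMod (2 * m)), C.Good D (mix S t t')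

theorem good2_eventually [Infinite Ω] (h : ∀ᶠ t in Gen (ZMod (2 * m)) Ω, C.Good D t) :
    ∀ᶠ t in Gen (ZMod (2 * m)) Ω, Good2 C D t :=
  gen_mix h

omit [Field Ω] [NeZero m] in
theorem mix_empty (t t' : Zs m Ω) : mix ∅ t t' = t := by
  ext i
  simp [mix]

omit [Field Ω] [NeZero m] in
theorem mix_univ (t t' : Zs m Ω) : mix Set.univ t t' = t' := by
  ext i
  simp [mix]

theorem Good2.good [Infinite Ω] {t : Zs m Ω} (h : Good2 C D t) : C.Good D t := by
  have := gen_neBot (ι := ZMod (2 * m)) (Ω := Ω)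
  obtain ⟨t', ht'⟩ := Filter.Eventually.exists h
  have h1 := ht' ∅
  rwa [mix_empty] at h1

variable {C D κ}

theorem rad_le_perp (hD : D ≤ C.X) (t : Zs m Ω) : C.rad t ≤ perp C.X D t :=
  fun _ hw => ⟨hw.1, fun d hd => hw.2 d (hD hd)⟩

theorem ell_eq_span (hκ : ∀ i j, κ i = κ j ↔ C.Rel D i j)
    {t : Zs m Ω} (ht : C.Good D t) {c : Fin b} {i : ZMod (2 * m)} (hi : κ i = c)
    {w₀ : Zs m Ω} (hw₀ : w₀ ∈ perp C.X D t) (h0 : w₀ i ≠ 0) :
    ell C D κ c t = Submodule.span Ω {pr κ c w₀} := by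
  apply le_antisymm
  · rintro _ ⟨w, hw, rfl⟩
    rw [Submodule.mem_span_singleton]
    refine ⟨w i / w₀ i, ?_⟩
    ext j
    simp only [Pi.smul_apply, pr_apply, smul_eq_mul]
    by_cases hj : κ j = c
    · rw [if_pos hj, if_pos hj]
      have h1 := ht.rel i j ((hκ i j).1 (hi.trans hj.symm)) w hw w₀ hw₀
      field_simp
      rw [h1, mul_comm]
    · rw [if_neg hj, if_neg hj, mul_zero]
  · rw [Submodule.span_singleton_le_iff_mem]
    exact ⟨w₀, hw₀, rfl⟩

/-- (A5a) `ℓ_c(t)` is one-dimensional -/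
theorem finrank_ell (hκ : ∀ i j, κ i = κ j ↔ C.Rel D i j) (hs : Function.Surjective κ)
    {t : Zs m Ω} (ht : C.Good D t) (hD : D ≤ C.X) (c : Fin b) :
    finrank Ω (ell C D κ c t) = 1 := by
  obtain ⟨i, hi⟩ := hs c
  obtain ⟨w, hw, hwi⟩ := ht.nz i
  rw [ell_eq_span hκ ht hi (rad_le_perp hD t hw) hwi]
  apply finrank_span_singleton
  intro h
  have := congrFun h i
  rw [pr_apply, if_pos hi] at this
  exact hwi this

theorem Bt_ell (hκ : ∀ i j, κ i = κ j ↔ C.Rel D i j) (hs : Function.Surjective κ) [CharP Ω 2]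
    {t : Zs m Ω} (ht : C.Good D t) (hD : D ≤ C.X) (c : Fin b) {x y : Zs m Ω}
    (hx : x ∈ ell C D κ c t) (hy : y ∈ ell C D κ c t) : Bt t x y = 0 := by
  obtain ⟨i, hi⟩ := hs c
  obtain ⟨w, hw, hwi⟩ := ht.nz i
  rw [ell_eq_span hκ ht hi (rad_le_perp hD t hw) hwi, Submodule.mem_span_singleton] at hx hy
  obtain ⟨p, rfl⟩ := hx
  obtain ⟨q, rfl⟩ := hy
  simp [Bt_self]

/-- (A5b) = (B2) for two good points which differ only in the coordinate `j` outside of the
block `c`: some `w ∈ D^⊥t` has `w j = 0` (so `w (j + m) = 0`) and `w i ≠ 0`, `i` in the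
block `c`; it lies in `D^⊥t'` too. -/
theorem ell_update (hκ : ∀ i j, κ i = κ j ↔ C.Rel D i j) (hs : Function.Surjective κ)
    {t t' : Zs m Ω} (ht : C.Good D t) (ht' : C.Good D t') (hD : D ≤ C.X) {c : Fin b}
    {j : ZMod (2 * m)} (hj : κ j ≠ c) (htt : ∀ i, i ≠ j → t' i = t i) :
    ell C D κ c t' = ell C D κ c t := by
  obtain ⟨i, hi⟩ := hs c
  obtain ⟨w, hw, hwj, hwi⟩ := ht.nrel i j (fun h => hj (((hκ i j).2 h).symm.trans hi))
  obtain ⟨u, hu, huj⟩ := ht.nz j
  have h1 := ht.iso j w hw u (rad_le_perp hD t hu)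
  rw [Bi_apply, hwj, zero_mul, zero_add] at h1
  have hwj' : w (j + m) = 0 := (mul_eq_zero.1 h1).resolve_right huj
  have hw' : w ∈ perp C.X D t' := by
    refine ⟨hw.1, fun d hd => ?_⟩
    rw [← hw.2 d hd, Bt_apply, Bt_apply]
    refine Finset.sum_congr rfl fun k _ => ?_
    by_cases hk : k = j
    · subst hk
      rw [hwj, hwj']
      ring
    · rw [htt k hk]
  rw [ell_eq_span hκ ht hi hw hwi, ell_eq_span hκ ht' hi hw' hwi]

theorem ell_mix_aux (hκ : ∀ i j, κ i = κ j ↔ C.Rel D i j) (hs : Function.Surjective κ)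
    {t t' : Zs m Ω} (hg : ∀ S, C.Good D (mix S t t')) (hD : D ≤ C.X) {c : Fin b}
    (S : Set (ZMod (2 * m))) :
    ell C D κ c (mix S t t') = ell C D κ c (mix (S ∩ {i | κ i = c}) t t') := by
  classical
  have key : ∀ F : Finset (ZMod (2 * m)), (∀ j ∈ F, κ j ≠ c) →
      ell C D κ c (mix ((S ∩ {i | κ i = c}) ∪ (F : Set _)) t t') =
        ell C D κ c (mix (S ∩ {i | κ i = c}) t t') := by
    intro F
    induction F using Finset.induction_on with
    | empty => intro _; simp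
    | insert j F hjF ih =>
      intro h
      rw [← ih (fun k hk => h k (Finset.mem_insert_of_mem hk))]
      refine ell_update hκ hs (hg _) (hg _) hD (h j (Finset.mem_insert_self _ _)) ?_
      intro i hi
      simp only [mix, Finset.coe_insert, Set.mem_union, Set.mem_insert_iff, hi, false_or]
  have h := key (Finset.univ.filter fun j => j ∈ S ∧ κ j ≠ c) (by
    intro j hj
    exact (Finset.mem_filter.1 hj).2.2)
  rw [← h]
  congr 2
  ext i
  by_cases hi : κ i = c <;> simp [hi]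

/-- (A5c) the line of the block `c` of a mixture depends only on the part of `S` in the block -/
theorem ell_mix (hκ : ∀ i j, κ i = κ j ↔ C.Rel D i j) (hs : Function.Surjective κ)
    {t t' : Zs m Ω} (hg : ∀ S, C.Good D (mix S t t')) (hD : D ≤ C.X) {c : Fin b}
    {S S' : Set (ZMod (2 * m))} (hS : ∀ i, κ i = c → (i ∈ S ↔ i ∈ S')) :
    ell C D κ c (mix S t t') = ell C D κ c (mix S' t t') := by
  rw [ell_mix_aux hκ hs hg hD S, ell_mix_aux hκ hs hg hD S']
  congr 2
  ext i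
  simp only [Set.mem_inter_iff, Set.mem_ofPred_eq]
  constructor
  · rintro ⟨h1, h2⟩
    exact ⟨(hS i h2).1 h1, h2⟩
  · rintro ⟨h1, h2⟩
    exact ⟨(hS i h2).2 h1, h2⟩

/-- (A6a) = (B3'): the elements of `D` whose components outside of the block `c` lie in the lines
still project onto the block `c` of `D`. -/
theorem exists_lift (hH : C.IsHull D) (hD : D ≤ C.X)
    (hκ : ∀ i j, κ i = κ j ↔ C.Rel D i j) (hs : Function.Surjective κ)
    {t : Zs m Ω} (ht : Good2 C D t) (c : Fin b) {d : Zs m Ω} (hd : d ∈ D) :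
    ∃ d₂ ∈ D, pr κ c d₂ = pr κ c d ∧ ∀ c', c' ≠ c → pr κ c' d₂ ∈ ell C D κ c' t := by
  let D₂ : Submodule Ω (Zs m Ω) :=
    { carrier := {d | d ∈ D ∧ ∀ c', c' ≠ c → pr κ c' d ∈ ell C D κ c' t}
      zero_mem' := ⟨D.zero_mem, fun c' _ => by rw [map_zero]; exact Submodule.zero_mem _⟩
      add_mem' := by
        rintro x y ⟨hx, hx'⟩ ⟨hy, hy'⟩
        refine ⟨D.add_mem hx hy, fun c' hc' => ?_⟩
        rw [map_add]
        exact Submodule.add_mem _ (hx' c' hc') (hy' c' hc')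
      smul_mem' := by
        rintro a x ⟨hx, hx'⟩
        refine ⟨D.smul_mem a hx, fun c' hc' => ?_⟩
        rw [map_smul]
        exact Submodule.smul_mem _ a (hx' c' hc') }
  have hle : D ≤ Submodule.comap (pr κ c) (Submodule.map (pr κ c) D₂) := by
    apply hH.2
    filter_upwards [ht] with t'' hg w hw
    have hg1 := hg Set.univ
    rw [mix_univ] at hg1
    have h1 : pr κ c w ∈ ell C D κ c t'' := ⟨w, rad_le_perp hD t'' hw, rfl⟩
    have h2 : ell C D κ c (mix {i | κ i = c} t t'') = ell C D κ c t'' := by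
      rw [ell_mix hκ hs hg hD (S := {i | κ i = c}) (S' := Set.univ), mix_univ]
      intro i hi
      simp [hi]
    rw [← h2] at h1
    obtain ⟨w', hw', hww⟩ := h1
    refine ⟨w', ⟨(hg _).perp_le hw', fun c' hc' => ?_⟩, hww⟩
    have h3 : ell C D κ c' (mix {i | κ i = c} t t'') = ell C D κ c' t := by
      rw [ell_mix hκ hs hg hD (S := {i | κ i = c}) (S' := ∅), mix_empty]
      intro i hi
      simp only [Set.mem_ofPred_eq, Set.mem_empty_iff_false, iff_false]
      rw [hi]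
      exact hc'
    rw [← h3]
    exact ⟨w', hw', rfl⟩
  obtain ⟨d₂, hd₂, h⟩ := hle hd
  exact ⟨d₂, hd₂.1, h, hd₂.2⟩

/-- (A6b) decomposition of the form in blocks -/
theorem Bt_pr (hκm : ∀ i : ZMod (2 * m), κ (i + m) = κ i) (t z z' : Zs m Ω) :
    Bt t z z' = ∑ c, Bt t (pr κ c z) (pr κ c z') := by
  simp only [Bt_apply]
  rw [Finset.sum_comm]
  refine Finset.sum_congr rfl fun i _ => ?_
  rw [Finset.sum_eq_single (κ i)]
  · simp only [pr_apply, hκm, if_true]
  · intro c _ hc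
    simp only [pr_apply, hκm, if_neg (Ne.symm hc)]
    ring
  · intro h
    exact absurd (Finset.mem_univ _) h

/-- (A6c) -/
theorem Bt_pr_left (hκm : ∀ i : ZMod (2 * m), κ (i + m) = κ i) (t z z' : Zs m Ω) (c : Fin b) :
    Bt t (pr κ c z) z' = Bt t (pr κ c z) (pr κ c z') := by
  simp only [Bt_apply]
  refine Finset.sum_congr rfl fun i _ => ?_
  by_cases h : κ i = c
  · simp only [pr_apply, hκm, if_pos h]
  · simp only [pr_apply, hκm, if_neg h]
    ring

/-- (A6d) = (B3) -/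
theorem Bt_pr_eq_zero [Infinite Ω] [CharP Ω 2] (hH : C.IsHull D) (hD : D ≤ C.X)
    (hκ : ∀ i j, κ i = κ j ↔ C.Rel D i j) (hκm : ∀ i : ZMod (2 * m), κ (i + m) = κ i)
    (hs : Function.Surjective κ)
    {t : Zs m Ω} (ht : Good2 C D t) (c : Fin b) {w d : Zs m Ω} (hw : w ∈ perp C.X D t)
    (hd : d ∈ D) : Bt t (pr κ c w) d = 0 := by
  obtain ⟨d₂, hd₂, h1, h2⟩ := exists_lift hH hD hκ hs ht c hd
  have h3 := hw.2 d₂ hd₂
  rw [Bt_pr hκm, Finset.sum_eq_single c] at h3
  · rw [Bt_pr_left hκm, ← h1]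
    exact h3
  · intro c' _ hc'
    exact Bt_ell hκ hs ht.good hD c' ⟨w, hw, rfl⟩ (h2 c' hc')
  · intro h
    exact absurd (Finset.mem_univ _) h

/-- (A6e) = (B4) the radical of the block `c` of `D` is the line -/
theorem mem_ell_of_orth [Infinite Ω] [CharP Ω 2] (hH : C.IsHull D) (hD : D ≤ C.X)
    (hκ : ∀ i j, κ i = κ j ↔ C.Rel D i j) (hκm : ∀ i : ZMod (2 * m), κ (i + m) = κ i)
    (hs : Function.Surjective κ)
    {t : Zs m Ω} (ht : Good2 C D t) (c : Fin b) {ω : Zs m Ω}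
    (hω : ω ∈ Submodule.map (pr κ c) D)
    (h : ∀ ω' ∈ Submodule.map (pr κ c) D, Bt t ω ω' = 0) : ω ∈ ell C D κ c t := by
  obtain ⟨d, hd, rfl⟩ := hω
  obtain ⟨d₂, hd₂, h1, h2⟩ := exists_lift hH hD hκ hs ht c hd
  refine ⟨d₂, ⟨hD hd₂, fun d' hd' => ?_⟩, h1⟩
  rw [Bt_pr hκm]
  refine Finset.sum_eq_zero fun c' _ => ?_
  by_cases hc' : c' = c
  · subst hc'
    rw [h1]
    exact h _ ⟨d', hd', rfl⟩
  · obtain ⟨w, hw, hww⟩ := h2 c' hc'
    rw [← hww, ← Bt_pr_left hκm]
    exact Bt_pr_eq_zero hH hD hκ hκm hs ht c' hw hd'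

theorem sup_bigL_step (hκ : ∀ i j, κ i = κ j ↔ C.Rel D i j) (hs : Function.Surjective κ)
    {t t' : Zs m Ω} (hg : ∀ S, C.Good D (mix S t t')) (hD : D ≤ C.X) (c : Fin b)
    {S S' : Set (ZMod (2 * m))} (hS : ∀ i, κ i ≠ c → (i ∈ S ↔ i ∈ S')) :
    D ⊔ bigL C D κ (mix S t t') ≤ D ⊔ bigL C D κ (mix S' t t') := by
  refine sup_le le_sup_left ?_
  intro z hz
  obtain ⟨w, hw, hww⟩ := hz c
  have h1 : z - w ∈ bigL C D κ (mix S' t t') := by
    intro c'
    by_cases hc' : c' = c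
    · subst hc'
      rw [map_sub, hww, sub_self]
      exact Submodule.zero_mem _
    · rw [ell_mix hκ hs hg hD (S := S') (S' := S), map_sub]
      · exact Submodule.sub_mem _ (hz c') ⟨w, hw, rfl⟩
      · intro i hi
        exact (hS i (by rw [hi]; exact hc')).symm
  have h2 : z = w + (z - w) := by abel
  rw [h2]
  exact Submodule.add_mem_sup ((hg S).perp_le hw) h1

/-- (A7a) `D + L(t)` does not change if `t` is changed -/
theorem sup_bigL_mix (hκ : ∀ i j, κ i = κ j ↔ C.Rel D i j) (hs : Function.Surjective κ)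
    {t t' : Zs m Ω} (hg : ∀ S, C.Good D (mix S t t')) (hD : D ≤ C.X) :
    D ⊔ bigL C D κ t' ≤ D ⊔ bigL C D κ t := by
  classical
  have key : ∀ F : Finset (Fin b), D ⊔ bigL C D κ (mix {i | κ i ∈ F} t t') ≤
      D ⊔ bigL C D κ t := by
    intro F
    induction F using Finset.induction_on with
    | empty =>
      have h : {i : ZMod (2 * m) | κ i ∈ (∅ : Finset (Fin b))} = ∅ := by
        ext i
        simp
      rw [h, mix_empty]
    | insert c F hcF ih =>
      refine le_trans (sup_bigL_step hκ hs hg hD c ?_) ih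
      intro i hi
      simp [hi]
  have h := key Finset.univ
  have h2 : {i : ZMod (2 * m) | κ i ∈ (Finset.univ : Finset (Fin b))} = Set.univ := by
    ext i
    simp
  rwa [h2, mix_univ] at h

/-- (A7b) = (B5) -/
theorem bigD_le (hH : C.IsHull D) (hD : D ≤ C.X)
    (hκ : ∀ i j, κ i = κ j ↔ C.Rel D i j) (hs : Function.Surjective κ)
    {t : Zs m Ω} (ht : Good2 C D t) : bigD D κ ≤ D ⊔ bigL C D κ t := by
  have key : ∀ c, Submodule.map (pr κ c) D ≤ D ⊔ bigL C D κ t := by
    intro c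
    rw [Submodule.map_le_iff_le_comap]
    apply hH.2
    filter_upwards [ht] with t'' hg w hw
    refine sup_bigL_mix hκ hs hg hD (Submodule.mem_sup_right ?_)
    intro c'
    rw [pr_pr]
    by_cases hc : c' = c
    · rw [if_pos hc, hc]
      exact ⟨w, rad_le_perp hD t'' hw, rfl⟩
    · rw [if_neg hc]
      exact Submodule.zero_mem _
  intro z hz
  rw [← sum_pr κ z]
  exact Submodule.sum_mem _ fun c _ => key c (hz c)

/-- (A7c) `D ∩ L(t) = D^⊥t` -/
theorem inf_bigL [Infinite Ω] [CharP Ω 2] (hH : C.IsHull D) (hD : D ≤ C.X)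
    (hκ : ∀ i j, κ i = κ j ↔ C.Rel D i j) (hκm : ∀ i : ZMod (2 * m), κ (i + m) = κ i)
    (hs : Function.Surjective κ)
    {t : Zs m Ω} (ht : Good2 C D t) : D ⊓ bigL C D κ t = perp C.X D t := by
  apply le_antisymm
  · rintro d ⟨hd, hdL⟩
    refine ⟨hD hd, fun d' hd' => ?_⟩
    rw [Bt_pr hκm]
    refine Finset.sum_eq_zero fun c _ => ?_
    obtain ⟨w, hw, hww⟩ := hdL c
    rw [← hww, ← Bt_pr_left hκm]
    exact Bt_pr_eq_zero hH hD hκ hκm hs ht c hw hd'
  · intro w hw
    exact ⟨ht.good.perp_le hw, fun c => ⟨w, hw, rfl⟩⟩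

end Pool.Agent.Lib.CPlane
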