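import Mathlib

/-!
# The free row in (CA), and extraction of coefficients

`ca_u`: two functionals of a row `u`, both killed by `n + 1` common rows, are proportional.
`exists_coeff`: a ratio of polynomials in further variables, equal to a ratio of constants.
-/

namespace Pool.Agent.Lib.CPlane.CAU

open Finset

section row

variable {A : Type} [CommRing A] {n : ℕ}

/-- `u ↦ det (a, b, ρ with row l replaced by u)` -/
noncomputable def ddL (a b : Fin (n + 2) → A) (ρ : Fin n → Fin (n + 2) → A) (l : Fin n) :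
    (Fin (n + 2) → A) →ₗ[A] A :=
  Matrix.detRowAlternating.toMultilinearMap.toLinearMap
    (Fin.cons a (Fin.cons b ρ) : Fin (n + 2) → Fin (n + 2) → A) l.succ.succ

theorem ddL_apply (a b : Fin (n + 2) → A) (ρ : Fin n → Fin (n + 2) → A) (l : Fin n)
    (u : Fin (n + 2) → A) :
    ddL a b ρ l u = (Matrix.of (Fin.cons a (Fin.cons b (Function.update ρ l u)) :
      Fin (n + 2) → Fin (n + 2) → A)).det := by
  unfold ddL
  rw [MultilinearMap.toLinearMap_apply, ← Fin.cons_update, ← Fin.cons_update]
  rfl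

/-- the rows `a`, `b`, `ρ_k` (`k ≠ l`) are killed -/
theorem ddL_row (a b : Fin (n + 2) → A) (ρ : Fin n → Fin (n + 2) → A) (l k : Fin n)
    (hk : k ≠ l) : ddL a b ρ l (ρ k) = 0 := by
  rw [ddL_apply]
  apply Matrix.det_zero_of_row_eq (i := k.succ.succ) (j := l.succ.succ)
  · intro h
    exact hk (Fin.succ_injective _ (Fin.succ_injective _ h))
  · ext j
    simp [-Fin.cons_update, Function.update_of_ne hk]

theorem ddL_left (a b : Fin (n + 2) → A) (ρ : Fin n → Fin (n + 2) → A) (l : Fin n) :
    ddL a b ρ l a = 0 := by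
  rw [ddL_apply]
  apply Matrix.det_zero_of_row_eq (i := 0) (j := l.succ.succ)
  · exact (Fin.succ_ne_zero _).symm
  · ext j
    simp [-Fin.cons_update]

theorem ddL_right (a b : Fin (n + 2) → A) (ρ : Fin n → Fin (n + 2) → A) (l : Fin n) :
    ddL a b ρ l b = 0 := by
  rw [ddL_apply]
  apply Matrix.det_zero_of_row_eq (i := (0 : Fin (n + 1)).succ) (j := l.succ.succ)
  · intro h
    exact (Fin.succ_ne_zero l).symm (Fin.succ_injective _ h)
  · ext j
    simp only [Matrix.of_apply, Fin.cons_succ, Fin.cons_zero, Function.update_self]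

/-- the free row: general form -/
theorem free_row (F : (Fin (n + 2) → A) →ₗ[A] A) (a b : Fin (n + 2) → A)
    (ρ : Fin n → Fin (n + 2) → A) (l : Fin n) (ha : F a = 0) (hb : F b = 0)
    (hρ : ∀ k, k ≠ l → F (ρ k) = 0) (u u' : Fin (n + 2) → A) :
    F u * ddL a b ρ l u' = F u' * ddL a b ρ l u := by
  set M : Matrix (Fin (n + 2)) (Fin (n + 2)) A :=
    Matrix.of (Fin.cons a (Fin.cons b (Function.update ρ l u)) :
      Fin (n + 2) → Fin (n + 2) → A) with hM
  have h1 := Matrix.mulVec_cramer M.transpose u'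
  rw [Matrix.det_transpose] at h1
  have h2 : M.det • u' = ∑ i, (M.updateRow i u').det • M i := by
    rw [← h1]
    funext j
    simp only [Matrix.mulVec, dotProduct, Matrix.transpose_apply, Finset.sum_apply,
      Pi.smul_apply, smul_eq_mul, Matrix.cramer_transpose_apply]
    exact Finset.sum_congr rfl fun i _ => mul_comm _ _
  have h3 := congrArg F h2
  rw [map_smul, map_sum, smul_eq_mul] at h3
  have hdet : M.det = ddL a b ρ l u := by rw [ddL_apply]
  have hrow : ∀ i : Fin (n + 2), i ≠ l.succ.succ → F (M i) = 0 := by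
    intro i
    refine Fin.cases ?_ (fun i => ?_) i
    · intro _
      exact ha
    · refine Fin.cases ?_ (fun i => ?_) i
      · intro _
        exact hb
      · intro hi
        have hil : i ≠ l := fun h => hi (by rw [h])
        have h4 : M i.succ.succ = ρ i := by
          rw [hM]
          ext j
          simp [-Fin.cons_update, Function.update_of_ne hil]
        rw [h4]
        exact hρ i hil
  have hMl : M l.succ.succ = u := by
    rw [hM]
    ext j
    simp [-Fin.cons_update]
  have hup : (M.updateRow l.succ.succ u').det = ddL a b ρ l u' := by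
    rw [ddL_apply]
    congr 1
    rw [hM]
    ext i j
    have h5 : (Fin.cons a (Fin.cons b (Function.update ρ l u')) :
        Fin (n + 2) → Fin (n + 2) → A) =
        Function.update (Fin.cons a (Fin.cons b (Function.update ρ l u)) :
        Fin (n + 2) → Fin (n + 2) → A) l.succ.succ u' := by
      rw [← Fin.cons_update, ← Fin.cons_update, Function.update_idem]
    rw [h5]
    rfl
  rw [Finset.sum_eq_single l.succ.succ (fun i _ hi => by rw [map_smul, hrow i hi, smul_zero])
    (fun h => absurd (Finset.mem_univ _) h), map_smul, smul_eq_mul, hMl, hup, hdet] at h3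
  linear_combination -h3

/-- the free row in (CA) -/
theorem ca_u {ι : Type} (S : Finset ι) (g y : ι → Fin (n + 2) → A) (a b : Fin (n + 2) → A)
    (ρ : Fin n → Fin (n + 2) → A) (l : Fin n)
    (ha : ∑ k ∈ S, (Matrix.of (Fin.cons (g k) (Fin.cons (y k) (Function.update ρ l a)) :
      Fin (n + 2) → Fin (n + 2) → A)).det = 0)
    (hb : ∑ k ∈ S, (Matrix.of (Fin.cons (g k) (Fin.cons (y k) (Function.update ρ l b)) :
      Fin (n + 2) → Fin (n + 2) → A)).det = 0) (u u' : Fin (n + 2) → A) :
    (∑ k ∈ S, (Matrix.of (Fin.cons (g k) (Fin.cons (y k) (Function.update ρ l u)) :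
      Fin (n + 2) → Fin (n + 2) → A)).det) *
      (Matrix.of (Fin.cons a (Fin.cons b (Function.update ρ l u')) :
      Fin (n + 2) → Fin (n + 2) → A)).det =
    (∑ k ∈ S, (Matrix.of (Fin.cons (g k) (Fin.cons (y k) (Function.update ρ l u')) :
      Fin (n + 2) → Fin (n + 2) → A)).det) *
      (Matrix.of (Fin.cons a (Fin.cons b (Function.update ρ l u)) :
      Fin (n + 2) → Fin (n + 2) → A)).det := by
  have hF : ∀ v, (∑ k ∈ S, ddL (g k) (y k) ρ l) v =
      ∑ k ∈ S, (Matrix.of (Fin.cons (g k) (Fin.cons (y k) (Function.update ρ l v)) :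
      Fin (n + 2) → Fin (n + 2) → A)).det := by
    intro v
    rw [LinearMap.sum_apply]
    exact Finset.sum_congr rfl fun k _ => ddL_apply _ _ _ _ _
  have h := free_row (∑ k ∈ S, ddL (g k) (y k) ρ l) a b ρ l (by rw [hF]; exact ha)
    (by rw [hF]; exact hb)
    (fun k hk => by
      rw [LinearMap.sum_apply]
      exact Finset.sum_eq_zero fun i _ => ddL_row _ _ _ _ _ hk) u u'
  rw [hF, hF, ddL_apply, ddL_apply] at h
  exact h

end row

section coeff

open MvPolynomial

variable {E R : Type} [Field E] [CommRing R] [Algebra E R] {τ : Type}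

/-- extraction of a coefficient -/
theorem exists_coeff [IsDomain R] (S : Subalgebra E R) {num den : R} (P Q : MvPolynomial τ R)
    (hP : ∀ m, P.coeff m ∈ S) (hQ : ∀ m, Q.coeff m ∈ S) (hQ0 : Q ≠ 0) (hn : num ≠ 0)
    (h : C num * Q = C den * P) :
    ∃ A ∈ S, ∃ B ∈ S, A ≠ 0 ∧ B ≠ 0 ∧ A * den = B * num := by
  obtain ⟨m, hm⟩ := MvPolynomial.exists_coeff_ne_zero hQ0
  have h1 : num * Q.coeff m = den * P.coeff m := by
    have h2 := congrArg (fun p => MvPolynomial.coeff m p) h
    simpa [MvPolynomial.coeff_C_mul] using h2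
  refine ⟨P.coeff m, hP m, Q.coeff m, hQ m, ?_, hm, by linear_combination -h1⟩
  intro h0
  rw [h0, mul_zero] at h1
  exact (mul_ne_zero hn hm) h1

variable (S : Subalgebra E R)

/-- polynomials with coefficients in a subalgebra, as a subring -/
noncomputable def cf (τ : Type) : Subring (MvPolynomial τ R) :=
  (MvPolynomial.map (σ := τ) S.toSubring.subtype).range

theorem mem_cf {p : MvPolynomial τ R} : p ∈ cf S τ ↔ ∀ m, p.coeff m ∈ S := by
  constructor
  · rintro ⟨q, rfl⟩ m
    rw [MvPolynomial.coeff_map]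
    exact (q.coeff m).2
  · intro h
    rw [p.as_sum]
    refine (cf S τ).sum_mem fun m _ => ?_
    exact ⟨MvPolynomial.monomial m ⟨p.coeff m, h m⟩, by
      rw [MvPolynomial.map_monomial]; rfl⟩

theorem C_mem_cf {c : R} (hc : c ∈ S) : (C c : MvPolynomial τ R) ∈ cf S τ :=
  ⟨C ⟨c, hc⟩, by rw [MvPolynomial.map_C]; rfl⟩

theorem X_mem_cf (i : τ) : (X i : MvPolynomial τ R) ∈ cf S τ :=
  ⟨X i, by rw [MvPolynomial.map_X]⟩

/-- a determinant with entries in `cf` -/
theorem det_mem_cf {ι : Type} [Fintype ι] [DecidableEq ι] (M : Matrix ι ι (MvPolynomial τ R))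
    (h : ∀ i j, M i j ∈ cf S τ) : M.det ∈ cf S τ := by
  rw [Matrix.det_apply']
  refine (cf S τ).sum_mem fun σ _ => (cf S τ).mul_mem ?_ ((cf S τ).prod_mem fun i _ => h _ _)
  exact intCast_mem _ _

end coeff

end Pool.Agent.Lib.CPlane.CAU
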