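import Pool.Agent.Lib.CPlane.IT8

/-!
# The stabiliser is linear over the kernel if the order is `2 ^ m` with `m` coprime to
`2 ^ m + 1`
-/

namespace Pool.Agent.Lib.CPlane

open Module IT8

theorem linear_of_coprime {K V : Type} [Field K] [Fintype K] [CharP K 2] [AddCommGroup V]
    [Module K V] [Nontrivial V] (r : ℕ) (hr : Fintype.card K = 2 ^ r) (φ : V ≃+ V) (N : ℕ)
    (hN : Nat.Coprime r N) (hφ : ∀ x, (φ : V → V)^[N] x = x) (σ : K ≃+* K)
    (hσ : ∀ (c : K) (x : V), φ (c • x) = σ c • φ x) (c : K) (x : V) : φ (c • x) = c • φ x := by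
  let _ : Algebra (ZMod 2) K := ZMod.algebra K 2
  -- `σ` as an element of the Galois group
  let τ : K ≃ₐ[ZMod 2] K := AlgEquiv.ofRingEquiv (f := σ) (fun r => by
    have h1 : ∀ r : ZMod 2, r = 0 ∨ r = 1 := by decide
    rcases h1 r with rfl | rfl
    · simp
    · simp)
  have hτ : ∀ c, τ c = σ c := fun _ => rfl
  -- iterates
  have hiter : ∀ (j : ℕ) (c : K) (x : V), (φ : V → V)^[j] (c • x) = (τ ^ j) c • (φ : V → V)^[j] x := by
    intro j
    induction j with
    | zero => intro c x; simp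
    | succ j ih =>
      intro c x
      rw [Function.iterate_succ_apply', ih, hσ, Function.iterate_succ_apply', pow_succ']
      rfl
  have hτN : τ ^ N = 1 := by
    ext c
    obtain ⟨v, hv⟩ := exists_ne (0 : V)
    have h1 := hiter N c v
    rw [hφ, hφ] at h1
    have h2 : ((τ ^ N) c - c) • v = 0 := by rw [sub_smul, ← h1, sub_self]
    have h3 := (smul_eq_zero.1 h2).resolve_right hv
    exact sub_eq_zero.1 h3
  have hcard : Nat.card (K ≃ₐ[ZMod 2] K) = r := by
    rw [IsGalois.card_aut_eq_finrank]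
    have h1 : Fintype.card K = Fintype.card (ZMod 2) ^ finrank (ZMod 2) K :=
      Module.card_eq_pow_finrank
    rw [hr, ZMod.card] at h1
    exact (Nat.pow_right_injective (le_refl 2) h1).symm
  have hord1 : orderOf τ ∣ r := by
    rw [← hcard]
    exact orderOf_dvd_natCard τ
  have hord2 : orderOf τ ∣ N := orderOf_dvd_of_pow_eq_one hτN
  have hord : orderOf τ = 1 := Nat.eq_one_of_dvd_coprimes hN hord1 hord2
  have hτ1 : τ = 1 := orderOf_eq_one_iff.1 hord
  rw [hσ, ← hτ, hτ1]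
  rfl

/-- If the order is `2 ^ M` with `M` coprime to `2 ^ M + 1`, then the stabiliser of a point
commutes with the homologies. -/
theorem comm_of_coprime {P : Type} {n : ℕ} (A : AffinePlane P n) (G : Subgroup (Equiv.Perm P))
    (hG : IsCollineationGroup A G) (hflag : SharplyFlagTransitive A G) (o : P) (hn2 : 2 ≤ n)
    (M : ℕ) (hnM : n = 2 ^ M) (hM : Nat.Coprime M (n + 1)) :
    ∀ g ∈ G, g o = o → ∀ δ, IsHom A o δ → g * δ = δ * g := by
  classical
  have hM0 : M ≠ 0 := by
    rintro rfl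
    rw [pow_zero] at hnM
    omega
  have hneven : Even n := by
    rw [hnM]
    exact even_two.pow_of_ne_zero hM0
  obtain ⟨V, hVg, e, A', he0, h2, he, htrans, hsub, hlift⟩ := exists_model hneven hn2 hG hflag o
  obtain ⟨K, hK, hKf, hVm, hchar, hker, hhom, hsemi⟩ := exists_kernel A' hn2 h2 htrans hsub
  have hVfin : Finite V := A'.finite hn2
  have := Fintype.ofFinite V
  have hfd : FiniteDimensional K V := Module.Finite.of_finite
  have hcard1 : 1 < Nat.card V := by
    rw [A'.card_points]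
    nlinarith
  have hVnt : Nontrivial V := Finite.one_lt_card_iff_nontrivial.1 hcard1
  -- `n = |K| ^ m`
  obtain ⟨L₀, hL₀, h0L₀⟩ : ∃ L ∈ A'.lines, (0 : V) ∈ L := by
    have h := ncard_pencil A' hn2 0
    have h1 : {L | L ∈ A'.lines ∧ (0 : V) ∈ L}.Nonempty := by
      rw [← Set.ncard_pos (Set.finite_of_ncard_pos (by omega)), h]
      omega
    exact h1
  obtain ⟨U₀, hU₀⟩ := hker L₀ hL₀ h0L₀
  have hnm : n = Fintype.card K ^ finrank K U₀ := by
    have h1 := A'.card_line _ hL₀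
    have h3 : L₀.ncard = Fintype.card U₀ := by
      rw [← hU₀, ← Nat.card_eq_fintype_card]
      rfl
    rw [← h1, h3, Module.card_eq_pow_finrank (K := K)]
  obtain ⟨r, -, hr⟩ := FiniteField.card K 2
  have hrM : (r : ℕ) ∣ M := by
    rw [hr, hnM, ← pow_mul] at hnm
    exact ⟨_, Nat.pow_right_injective (le_refl 2) hnm⟩
  have hcop : Nat.Coprime (r : ℕ) (n + 1) := Nat.Coprime.coprime_dvd_left hrM hM
  -- the homologies
  have hfixo : ∀ δ, IsHom A o δ → δ o = o := by
    intro δ hδ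
    by_contra hne
    obtain ⟨N, ⟨hN, hoN, hδN⟩, hu⟩ := A.join o (δ o) (Ne.symm hne)
    have h1 := ncard_pencil A hn2 o
    have h2 : {L | L ∈ A.lines ∧ o ∈ L} ⊆ {N} := by
      rintro M ⟨hM, hoM⟩
      refine hu M ⟨hM, hoM, ?_⟩
      have h3 := hδ.2 M hM hoM
      rw [← h3]
      exact ⟨o, hoM, rfl⟩
    have h3 := Set.ncard_le_ncard h2 (Set.finite_singleton N)
    rw [h1, Set.ncard_singleton] at h3
    omega
  have hlines0 : ∀ L ∈ A'.lines, (0 : V) ∈ L → e '' L ∈ A.lines ∧ o ∈ e '' L := by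
    intro L hL h0
    exact ⟨(he L).1 hL, ⟨0, h0, he0⟩⟩
  have hscal : ∀ δ, IsHom A o δ → ∃ k : K, ∀ x, e (k • x) = δ (e x) := by
    intro δ hδ
    obtain ⟨φ, hφ⟩ := hlift δ hδ.1 (hfixo δ hδ)
    obtain ⟨k, hk⟩ := hhom φ.toAddMonoidHom (by
      intro L hL h0 x hx
      obtain ⟨h1, h2⟩ := hlines0 L hL h0
      have h3 := hδ.2 _ h1 h2
      have h4 : e (φ x) ∈ e '' L := by
        rw [hφ, ← h3]
        exact ⟨e x, ⟨x, hx, rfl⟩, rfl⟩
      obtain ⟨y, hy, hyx⟩ := h4
      have h5 : y = φ x := e.injective hyx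
      change φ x ∈ L
      rw [← h5]
      exact hy)
    have hk' : ∀ x, φ x = k • x := hk
    exact ⟨k, fun x => by rw [← hk', hφ]⟩
  intro g hg hgo δ hδ
  obtain ⟨φ, hφ⟩ := hlift g (hG g hg) hgo
  obtain ⟨k, hk⟩ := hscal δ hδ
  -- `φ` maps lines onto lines
  have hφL : ∀ L ∈ A'.lines, φ '' L ∈ A'.lines := by
    intro L hL
    rw [he]
    have h1 : e '' (φ '' L) = (g : P → P) '' (e '' L) := by
      rw [Set.image_image, Set.image_image]
      exact Set.image_congr fun x _ => hφ x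
    rw [h1]
    exact hG g hg _ ((he L).1 hL)
  obtain ⟨σ, hσ⟩ := hsemi φ hφL
  -- the order of `g` divides `n + 1`
  let S : Subgroup (Equiv.Perm P) := G ⊓ MulAction.stabilizer (Equiv.Perm P) o
  have hS : ∀ h : Equiv.Perm P, h ∈ S ↔ h ∈ G ∧ h o = o := by
    intro h
    simp [S, Subgroup.mem_inf, MulAction.mem_stabilizer_iff]
  have hcardS := card_stab hn2 hG hflag o S hS
  have hgn : g ^ (n + 1) = 1 := by
    have h1 : (⟨g, (hS _).2 ⟨hg, hgo⟩⟩ : S) ^ (n + 1) = 1 := by
      rw [← hcardS]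
      exact pow_card_eq_one'
    exact congrArg Subtype.val h1
  have hiter : ∀ (j : ℕ) (x : V), e ((φ : V → V)^[j] x) = (g ^ j) (e x) := by
    intro j
    induction j with
    | zero => intro x; simp
    | succ j ih =>
      intro x
      rw [Function.iterate_succ_apply', hφ, ih, pow_succ']
      rfl
  have hlin := linear_of_coprime (r : ℕ) hr φ (n + 1) hcop (by
    intro x
    apply e.injective
    rw [hiter, hgn]
    rfl) σ hσ
  ext p
  obtain ⟨x, rfl⟩ := e.surjective p
  change g (δ (e x)) = δ (g (e x))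
  rw [← hk, ← hφ, ← hφ, hlin, hk]

end Pool.Agent.Lib.CPlane
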