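import Pool.Agent.Lib.CPlane.Moore

/-!
# Descent (row P3)
-/

namespace Pool.Agent.Lib.CPlane

open Module

variable (K : Type) {V Ω : Type} [Field K] [Fintype K] [Field V] [Finite V] [Algebra K V]
  [Field Ω] [Algebra V Ω]

/-- an element of an extension field with `x ^ |V| = x` lies in `V` -/
theorem exists_algebraMap_eq {m : ℕ} (hV : finrank K V = 2 * m) (x : Ω)
    (hx : x ^ (Fintype.card K ^ (2 * m)) = x) : ∃ y : V, algebraMap V Ω y = x := by
  classical
  have := Fintype.ofFinite V
  have hcard : Fintype.card V = Fintype.card K ^ (2 * m) := by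
    rw [Module.card_eq_pow_finrank (K := K) (V := V), hV]
  have h1 : 1 < Fintype.card V := Fintype.one_lt_card
  by_contra hcon
  push Not at hcon
  let p : Polynomial Ω := Polynomial.X ^ Fintype.card V - Polynomial.X
  have hp0 : p ≠ 0 := FiniteField.X_pow_card_sub_X_ne_zero Ω h1
  have hpd : p.natDegree = Fintype.card V := FiniteField.X_pow_card_sub_X_natDegree_eq Ω h1
  let Z : Finset Ω := insert x (Finset.univ.image (algebraMap V Ω))
  have hZ : Z.card = Fintype.card V + 1 := by
    rw [Finset.card_insert_of_notMem, Finset.card_image_of_injective _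
      (algebraMap V Ω).injective, Finset.card_univ]
    intro h
    obtain ⟨y, -, hy⟩ := Finset.mem_image.1 h
    exact hcon y hy
  have hsub : Z.val ⊆ p.roots := by
    intro z hz
    rw [Polynomial.mem_roots hp0, Polynomial.IsRoot, Polynomial.eval_sub, Polynomial.eval_pow,
      Polynomial.eval_X, sub_eq_zero]
    have hz' : z ∈ Z := hz
    rcases Finset.mem_insert.1 hz' with h | h
    · rw [h, hcard, hx]
    · obtain ⟨y, -, hy⟩ := Finset.mem_image.1 h
      rw [← hy, ← map_pow, FiniteField.pow_card]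
  have h2 := Polynomial.card_le_degree_of_subset_roots hsub
  omega

variable [CharP K 2]

include K in
omit [Finite V] [Fintype K] in
theorem charP_V : CharP V 2 := charP_of_injective_algebraMap (algebraMap K V).injective 2

/-- Hilbert 90 for the quadratic extension -/
theorem exists_hilbert {m : ℕ} [NeZero m] (hV : finrank K V = 2 * m) (r : V)
    (hr : r ^ (Fintype.card K ^ m + 1) = 1) :
    ∃ v : V, v ≠ 0 ∧ r * v ^ (Fintype.card K ^ m) = v := by
  have := charP_V K (V := V)
  have key : ∀ x : V, r * (x + r * x ^ (Fintype.card K ^ m)) ^ (Fintype.card K ^ m) =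
      x + r * x ^ (Fintype.card K ^ m) := by
    intro x
    rw [add_pow_card, mul_pow, pow_pow_card K hV, mul_add, ← mul_assoc, ← pow_succ', hr, one_mul,
      add_comm]
  by_cases h : ∃ x : V, x + r * x ^ (Fintype.card K ^ m) ≠ 0
  · obtain ⟨x, hx⟩ := h
    exact ⟨_, hx, key x⟩
  · exfalso
    push Not at h
    have h1 := h 1
    rw [one_pow, mul_one] at h1
    have h2 : r = 1 := (CharTwo.add_eq_zero.1 h1).symm
    obtain ⟨x, hx⟩ := exists_pow_ne K hV
    have h3 := h x
    rw [h2, one_mul] at h3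
    exact hx (CharTwo.add_eq_zero.1 h3).symm

variable {m : ℕ} [NeZero m]

/-- the linear map `x ↦ x + r x ^ q` -/
def theta (m : ℕ) (r : V) : V →ₗ[K] V where
  toFun x := x + r * x ^ (Fintype.card K ^ m)
  map_add' x y := by
    rw [add_pow_card]
    ring
  map_smul' k x := by
    rw [smul_pow_card, RingHom.id_apply, smul_add, mul_smul_comm]

omit [Finite V] [CharP K 2] [NeZero m] in
theorem theta_apply (r x : V) : theta K m r x = x + r * x ^ (Fintype.card K ^ m) := rfl

/-- the corresponding map of `Ω ^ (ℤ/2m)` -/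
def Theta (ρ : Zs m Ω) : Zs m Ω →ₗ[Ω] Zs m Ω where
  toFun z i := z i + ρ i * z (i + m)
  map_add' x y := by
    ext i
    simp only [Pi.add_apply]
    ring
  map_smul' k x := by
    ext i
    simp only [Pi.smul_apply, smul_eq_mul, RingHom.id_apply]
    ring

omit [CharP K 2] in
theorem Mo_theta (hV : finrank K V = 2 * m) (r x : V) :
    Mo K m Ω (theta K m r x) = Theta (Mo K m Ω r) (Mo K m Ω x) := by
  ext i
  rw [theta_apply, Mo_add, Pi.add_apply]
  change _ = Mo K m Ω x i + Mo K m Ω r i * Mo K m Ω x (i + m)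
  rw [Mo_half K hV, Mo_apply, Mo_apply, Mo_apply, Mo_apply, mul_pow, map_mul]

/-- (P3) descent: a shift-stable subspace `D` of the span of `W` on which all forms vanish gives
a line of `E` which meets `W` in dimension `≥ dim D`. -/
theorem exists_line (hV : finrank K V = 2 * m)
    (W : Submodule K V) (τ : Ω ≃+* Ω) (hτ : ∀ x, τ x = x ^ Fintype.card K)
    (D : Submodule Ω (Zs m Ω)) (hDW : D ≤ Submodule.span Ω (Mo K m Ω '' (W : Set V)))
    (hΦ : ∀ z, Phi m τ z ∈ D ↔ z ∈ D) (hB : ∀ j, ∀ z ∈ D, ∀ z' ∈ D, Bi j z z' = 0)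
    (hnz : ∀ j, ∃ z ∈ D, z j ≠ 0) :
    ∃ v : V, v ≠ 0 ∧ finrank Ω D ≤ finrank K (W ⊓ lineE K m v : Submodule K V) := by
  classical
  have hV2 := charP_V K (V := V)
  have hΩ2 : CharP Ω 2 := charP_of_injective_algebraMap (algebraMap V Ω).injective 2
  have htwo : ∀ i : ZMod (2 * m), i + m + m = i := by
    intro i
    have h1 : ((2 * m : ℕ) : ZMod (2 * m)) = 0 := ZMod.natCast_self _
    have h2 : i + m + m = i + ((2 * m : ℕ) : ZMod (2 * m)) := by
      push_cast
      ring
    rw [h2, h1, add_zero]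
  -- the factor `ρ`
  obtain ⟨z₀, hz₀, hz₀m⟩ := hnz ((0 : ZMod (2 * m)) + m)
  let ρ : Ω := z₀ 0 / z₀ (0 + m)
  have hρ : ∀ z ∈ D, z 0 = ρ * z (0 + m) := by
    intro z hz
    have h1 := hB 0 z hz z₀ hz₀
    rw [Bi_apply] at h1
    have h2 := CharTwo.add_eq_zero.1 h1
    simp only [ρ]
    field_simp
    rw [h2]
    ring
  have hρn : ∀ n : ℕ, ∀ z ∈ D, z (n : ZMod (2 * m)) =
      ρ ^ (Fintype.card K ^ n) * z ((n : ZMod (2 * m)) + m) := by
    intro n
    induction n with
    | zero =>
      intro z hz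
      rw [Nat.cast_zero, pow_zero, pow_one]
      exact hρ z hz
    | succ n ih =>
      intro z hz
      have h1 : (Phi m τ).symm z ∈ D := by
        rw [← hΦ, AddEquiv.apply_symm_apply]
        exact hz
      have h2 := ih _ h1
      have h3 : ∀ k : ZMod (2 * m), z (k + 1) = τ ((Phi m τ).symm z k) := by
        intro k
        change z (k + 1) = τ (τ.symm (z (k + 1)))
        rw [RingEquiv.apply_symm_apply]
      rw [Nat.cast_succ, h3, h2, map_mul, map_pow, hτ ρ, ← pow_mul, ← pow_succ',
        add_right_comm, h3]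
  have hρ1 : ρ ^ (Fintype.card K ^ m + 1) = 1 := by
    have h1 := hρn m z₀ hz₀
    have h2 := hρ z₀ hz₀
    have h3 : ((m : ℕ) : ZMod (2 * m)) + m = 0 := by
      have := htwo 0
      rwa [zero_add] at this
    rw [h3, h2, zero_add, ← mul_assoc, ← pow_succ] at h1
    rw [zero_add] at hz₀m
    have h4 : (ρ ^ (Fintype.card K ^ m + 1) - 1) * z₀ ((m : ℕ) : ZMod (2 * m)) = 0 := by
      rw [sub_mul, ← h1, one_mul, sub_self]
    exact sub_eq_zero.1 ((mul_eq_zero.1 h4).resolve_right hz₀m)
  -- `ρ` comes from `V`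
  have hρV : ρ ^ (Fintype.card K ^ (2 * m)) = ρ := by
    have hq : 1 ≤ Fintype.card K ^ m := Nat.one_le_pow _ _ Fintype.card_pos
    have h1 : Fintype.card K ^ (2 * m) =
        (Fintype.card K ^ m + 1) * (Fintype.card K ^ m - 1) + 1 := by
      obtain ⟨q, hq'⟩ := Nat.exists_eq_add_of_le hq
      rw [two_mul, pow_add, hq']
      have : 1 + q - 1 = q := by omega
      rw [this]
      ring
    rw [h1, pow_succ, pow_mul, hρ1, one_pow, one_mul]
  obtain ⟨r, hr⟩ := exists_algebraMap_eq K hV ρ hρV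
  have hr1 : r ^ (Fintype.card K ^ m + 1) = 1 := by
    apply (algebraMap V Ω).injective
    rw [map_pow, hr, hρ1, map_one]
  obtain ⟨v, hv, hrv⟩ := exists_hilbert K hV r hr1
  refine ⟨v, hv, ?_⟩
  -- the kernel of `Theta` contains `D`
  have hDker : D ≤ LinearMap.ker (Theta (Mo K m Ω r)) := by
    intro z hz
    rw [LinearMap.mem_ker]
    ext i
    change z i + Mo K m Ω r i * z (i + m) = 0
    have h1 := hρn i.val z hz
    rw [ZMod.natCast_zmod_val] at h1
    rw [Mo_apply, map_pow, hr, ← h1, CharTwo.add_self_eq_zero]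
  have hspan : Submodule.span Ω (Mo K m Ω '' (Submodule.map (theta K m r) W : Set V)) =
      Submodule.map (Theta (Mo K m Ω r)) (Submodule.span Ω (Mo K m Ω '' (W : Set V))) := by
    rw [Submodule.map_span]
    congr 1
    ext z
    constructor
    · rintro ⟨_, ⟨x, hx, rfl⟩, rfl⟩
      exact ⟨_, ⟨x, hx, rfl⟩, (Mo_theta K hV r x).symm⟩
    · rintro ⟨_, ⟨x, hx, rfl⟩, rfl⟩
      exact ⟨_, ⟨x, hx, rfl⟩, Mo_theta K hV r x⟩
  set X := Submodule.span Ω (Mo K m Ω '' (W : Set V)) with hX
  have e1 : finrank Ω (Submodule.map (Theta (Mo K m Ω r)) X) =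
      finrank K (Submodule.map (theta K m r) W) := by
    rw [← hspan, finrank_span_Mo K hV]
  have e2 : finrank Ω X = finrank K W := finrank_span_Mo K hV W
  have e3 := LinearMap.finrank_range_add_finrank_ker ((Theta (Mo K m Ω r)).domRestrict X)
  have e4 := LinearMap.finrank_range_add_finrank_ker ((theta K m r).domRestrict W)
  rw [LinearMap.range_domRestrict] at e3 e4
  have e5 : finrank Ω D ≤ finrank Ω (LinearMap.ker ((Theta (Mo K m Ω r)).domRestrict X)) := by
    have h1 : D ≤ Submodule.map X.subtype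
        (LinearMap.ker ((Theta (Mo K m Ω r)).domRestrict X)) := by
      intro z hz
      exact ⟨⟨z, hDW hz⟩, hDker hz, rfl⟩
    calc finrank Ω D ≤ finrank Ω (Submodule.map X.subtype
        (LinearMap.ker ((Theta (Mo K m Ω r)).domRestrict X))) := Submodule.finrank_mono h1
      _ = _ := Submodule.finrank_map_subtype_eq _ _
  have e6 : finrank K (LinearMap.ker ((theta K m r).domRestrict W)) ≤
      finrank K (W ⊓ lineE K m v : Submodule K V) := by
    rw [← Submodule.finrank_map_subtype_eq]
    apply Submodule.finrank_mono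
    rintro _ ⟨⟨x, hx⟩, hx', rfl⟩
    refine ⟨hx, ?_⟩
    have h1 : x + r * x ^ (Fintype.card K ^ m) = 0 := hx'
    have h2 : x = r * x ^ (Fintype.card K ^ m) := CharTwo.add_eq_zero.1 h1
    change x ^ (Fintype.card K ^ m) * v = x * v ^ (Fintype.card K ^ m)
    calc x ^ (Fintype.card K ^ m) * v = x ^ (Fintype.card K ^ m) *
        (r * v ^ (Fintype.card K ^ m)) := by rw [hrv]
      _ = (r * x ^ (Fintype.card K ^ m)) * v ^ (Fintype.card K ^ m) := by ring
      _ = x * v ^ (Fintype.card K ^ m) := by rw [← h2]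
  omega

end Pool.Agent.Lib.CPlane
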