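import Mathlib

/-!
# Digits to base `s`, degrees of determinants
-/

namespace Pool.Agent.Lib.CPlane

open Finset

/-- the number with the digits `d k` to base `s` -/
def dnum {n : ℕ} (s : ℕ) (d : Fin n →₀ ℕ) : ℕ := ∑ k, d k * s ^ (k : ℕ)

theorem dnum_lt {n s : ℕ} (d : Fin n →₀ ℕ) (hd : ∀ k, d k < s) : dnum s d < s ^ n := by
  have h := (finFunctionFinEquiv (fun k : Fin n => (⟨d k, hd k⟩ : Fin s))).2
  rw [finFunctionFinEquiv_apply] at h
  exact h

theorem dnum_inj {n s : ℕ} (d e : Fin n →₀ ℕ) (hd : ∀ k, d k < s) (he : ∀ k, e k < s)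
    (h : dnum s d = dnum s e) : d = e := by
  have h1 : finFunctionFinEquiv (fun k : Fin n => (⟨d k, hd k⟩ : Fin s)) =
      finFunctionFinEquiv (fun k : Fin n => (⟨e k, he k⟩ : Fin s)) := by
    apply Fin.ext
    rw [finFunctionFinEquiv_apply, finFunctionFinEquiv_apply]
    exact h
  have h2 := finFunctionFinEquiv.injective h1
  ext k
  have h3 := congrFun h2 k
  exact congrArg Fin.val h3

/-- the substitution `t_k = X ^ (s ^ k)` -/
noncomputable def curve {R : Type*} [CommRing R] {n : ℕ} (s : ℕ) (h : MvPolynomial (Fin n) R) :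
    Polynomial R :=
  MvPolynomial.aeval (fun k : Fin n => (Polynomial.X : Polynomial R) ^ s ^ (k : ℕ)) h

theorem curve_eq {R : Type*} [CommRing R] {n : ℕ} (s : ℕ) (h : MvPolynomial (Fin n) R) :
    curve s h = ∑ d ∈ h.support, Polynomial.C (h.coeff d) * Polynomial.X ^ dnum s d := by
  unfold curve
  rw [MvPolynomial.aeval_def, MvPolynomial.eval₂_eq']
  refine Finset.sum_congr rfl fun d _ => ?_
  congr 1
  unfold dnum
  rw [← Finset.prod_pow_eq_pow_sum]
  refine Finset.prod_congr rfl fun k _ => ?_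
  rw [← pow_mul, mul_comm]

theorem digits {R : Type*} [CommRing R] {n s : ℕ} (h : MvPolynomial (Fin n) R)
    (hd : ∀ k, h.degreeOf k < s) (h0 : curve s h = 0) : h = 0 := by
  rw [curve_eq] at h0
  ext d
  rw [MvPolynomial.coeff_zero]
  by_contra hne
  have hmem : d ∈ h.support := MvPolynomial.mem_support_iff.2 hne
  have hlt : ∀ e ∈ h.support, ∀ k, e k < s := fun e he k =>
    lt_of_le_of_lt (MvPolynomial.monomial_le_degreeOf k he) (hd k)
  have h1 := congrArg (fun p => Polynomial.coeff p (dnum s d)) h0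
  simp only [Polynomial.finsetSum_coeff, Polynomial.coeff_C_mul, Polynomial.coeff_X_pow,
    Polynomial.coeff_zero] at h1
  rw [Finset.sum_eq_single d] at h1
  · simp at h1
    exact hne h1
  · intro e he hed
    rw [if_neg, mul_zero]
    intro hh
    exact hed (dnum_inj e d (hlt e he) (hlt d hmem) hh.symm)
  · intro h2
    exact absurd hmem h2

theorem natDegree_curve_lt {R : Type*} [CommRing R] {n s : ℕ} (h : MvPolynomial (Fin n) R)
    (hd : ∀ k, h.degreeOf k < s) (hs : 0 < s) : (curve s h).natDegree < s ^ n := by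
  rw [curve_eq]
  refine lt_of_le_of_lt (Polynomial.natDegree_sum_le _ _) ?_
  rw [Finset.fold_max_lt]
  refine ⟨pow_pos hs n, fun d hdm => ?_⟩
  refine lt_of_le_of_lt (Polynomial.natDegree_C_mul_X_pow_le _ _) ?_
  exact dnum_lt d fun k => lt_of_le_of_lt (MvPolynomial.monomial_le_degreeOf k hdm) (hd k)

theorem eval_curve {R : Type*} [CommRing R] {n s : ℕ} (h : MvPolynomial (Fin n) R) (x : R) :
    (curve s h).eval x = MvPolynomial.eval (fun k : Fin n => x ^ s ^ (k : ℕ)) h := by
  rw [curve_eq, MvPolynomial.eval_eq', Polynomial.eval_finsetSum]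
  refine Finset.sum_congr rfl fun d _ => ?_
  rw [Polynomial.eval_C_mul, Polynomial.eval_pow, Polynomial.eval_X]
  congr 1
  unfold dnum
  rw [← Finset.prod_pow_eq_pow_sum]
  refine Finset.prod_congr rfl fun k _ => ?_
  rw [← pow_mul, mul_comm]

theorem digits_finset {R : Type*} [CommRing R] [IsDomain R] {n s : ℕ} (hs : 0 < s)
    (h : MvPolynomial (Fin n) R) (hd : ∀ k, h.degreeOf k < s) (S : Finset R)
    (hS : s ^ n ≤ S.card)
    (h0 : ∀ x ∈ S, MvPolynomial.eval (fun k : Fin n => x ^ s ^ (k : ℕ)) h = 0) : h = 0 := by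
  refine digits h hd ?_
  refine Polynomial.eq_zero_of_natDegree_lt_card_of_eval_eq_zero' _ S (fun x hx => ?_)
    (lt_of_lt_of_le (natDegree_curve_lt h hd hs) hS)
  rw [eval_curve]
  exact h0 x hx

/-- degree of a determinant, bound by the rows -/
theorem degreeOf_det_le {R σ ι : Type*} [CommRing R] [Fintype ι] [DecidableEq ι]
    (M : Matrix ι ι (MvPolynomial σ R)) (k : σ) (d : ι → ℕ)
    (h : ∀ i j, (M i j).degreeOf k ≤ d i) : M.det.degreeOf k ≤ ∑ i, d i := by
  rw [Matrix.det_apply]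
  refine (MvPolynomial.degreeOf_sum_le _ _ _).trans ?_
  refine Finset.sup_le fun τ _ => ?_
  have h1 : (Equiv.Perm.sign τ • ∏ i, M (τ i) i).degreeOf k ≤ (∏ i, M (τ i) i).degreeOf k := by
    rcases Int.units_eq_one_or (Equiv.Perm.sign τ) with h2 | h2
    · rw [h2, one_smul]
    · rw [h2, Units.neg_smul, one_smul, MvPolynomial.degreeOf_neg]
  refine h1.trans ((MvPolynomial.degreeOf_prod_le _ _ _).trans ?_)
  calc ∑ i, (M (τ i) i).degreeOf k ≤ ∑ i, d (τ i) := Finset.sum_le_sum fun i _ => h _ _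
    _ = ∑ i, d i := Equiv.sum_comp τ d

/-- degree of a determinant, bound by the columns -/
theorem degreeOf_det_le' {R σ ι : Type*} [CommRing R] [Fintype ι] [DecidableEq ι]
    (M : Matrix ι ι (MvPolynomial σ R)) (k : σ) (d : ι → ℕ)
    (h : ∀ i j, (M i j).degreeOf k ≤ d j) : M.det.degreeOf k ≤ ∑ i, d i := by
  rw [← Matrix.det_transpose]
  exact degreeOf_det_le M.transpose k d fun i j => h j i

end Pool.Agent.Lib.CPlane
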