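import Pool.Agent.Lib.CPlane.Line

/-!
# A linear map which acts freely and has order `s ^ m + 1` is a field multiplication (row S1)
-/

namespace Pool.Agent.Lib.CPlane

open Module Polynomial

theorem two_mul_le_of_dvd {s m d : ℕ} (hs : 2 ≤ s) (hd : 1 ≤ d)
    (h : s ^ m + 1 ∣ s ^ d - 1) : 2 * m ≤ d := by
  by_contra hlt
  push Not at hlt
  have hsd : 2 ≤ s ^ d := le_trans hs (Nat.le_self_pow (by omega) s)
  by_cases hdm : d ≤ m
  · have h1 := Nat.le_of_dvd (by omega) h
    have h2 : s ^ d ≤ s ^ m := Nat.pow_le_pow_right (by omega) hdm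
    omega
  · obtain ⟨j, rfl⟩ : ∃ j, d = m + j := ⟨d - m, by omega⟩
    have hjm : j < m := by omega
    have h1 : s ^ j < s ^ m := Nat.pow_lt_pow_right (by omega) hjm
    have h3 : s ^ (m + j) - 1 + (s ^ j + 1) = s ^ j * (s ^ m + 1) := by
      have : s ^ (m + j) = s ^ j * s ^ m := by rw [pow_add, mul_comm]
      rw [mul_add, ← this]
      omega
    have h4 : s ^ m + 1 ∣ s ^ j + 1 := by
      rw [← Nat.dvd_add_right h, h3]
      exact Dvd.intro_left _ rfl
    have h5 := Nat.le_of_dvd (by omega) h4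
    omega

variable (K : Type) {V : Type} [Field K] [Fintype K] [AddCommGroup V] [Module K V]

/-- (S1) a linear map `g` of order `s ^ m + 1` whose non-trivial powers have no fixed vector
`≠ 0`, on a space of dimension `2m`: then `V` is a field extension of `K` such that `g` is the
multiplication by an element. -/
theorem exists_field {m : ℕ} [NeZero m] (hV : finrank K V = 2 * m) (g : V ≃ₗ[K] V)
    (hord : orderOf g = Fintype.card K ^ m + 1)
    (hfree : ∀ k : ℕ, ∀ v : V, v ≠ 0 → (g ^ k) v = v → g ^ k = 1) :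
    ∃ (L : Type) (_ : Field L) (_ : Algebra K L) (e : V ≃ₗ[K] L) (ζ : L),
      orderOf ζ = Fintype.card K ^ m + 1 ∧ ∀ v, e (g v) = ζ * e v := by
  classical
  have hm : 0 < m := Nat.pos_of_ne_zero (NeZero.ne m)
  have hfd : FiniteDimensional K V := Module.finite_of_finrank_pos (by rw [hV]; omega)
  have hnt : Nontrivial V := Module.nontrivial_of_finrank_pos (R := K) (by rw [hV]; omega)
  let G : Module.End K V := (g : V →ₗ[K] V)
  have hG : ∀ v, G v = g v := fun _ => rfl
  have hGk : ∀ (k : ℕ) (v : V), (G ^ k) v = (g ^ k) v := by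
    intro k v
    rw [LinearEquiv.pow_apply, Module.End.pow_apply]
    rfl
  have hint : IsIntegral K G := Algebra.IsIntegral.isIntegral G
  obtain ⟨f, hf, hfM⟩ := exists_irreducible_of_natDegree_pos (minpoly.natDegree_pos hint)
  obtain ⟨h, hh⟩ := hfM
  have hM0 : minpoly K G ≠ 0 := minpoly.ne_zero hint
  have hh0 : h ≠ 0 := by
    rintro rfl
    rw [mul_zero] at hh
    exact hM0 hh
  have hhG : aeval G h ≠ 0 := by
    intro h0
    have h1 := minpoly.dvd K G h0
    have h2 := natDegree_le_of_dvd h1 hh0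
    rw [hh, natDegree_mul hf.ne_zero hh0] at h2
    have h3 := hf.natDegree_pos
    omega
  obtain ⟨u, hu⟩ : ∃ u, aeval G h u ≠ 0 := by
    by_contra hcon
    push Not at hcon
    exact hhG (LinearMap.ext fun x => by rw [hcon x, LinearMap.zero_apply])
  let w : V := aeval G h u
  have hfw : aeval G f w = 0 := by
    change aeval G f (aeval G h u) = 0
    rw [← Module.End.mul_apply, ← map_mul, ← hh, minpoly.aeval, LinearMap.zero_apply]
  have : Fact (Irreducible f) := ⟨hf⟩
  let L := AdjoinRoot f
  have hsurj : Function.Surjective (AdjoinRoot.mk f) := AdjoinRoot.mk_surjective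
  let ψ0 : L → V := fun x => aeval G (Function.surjInv hsurj x) w
  have hψ : ∀ p : K[X], ψ0 (AdjoinRoot.mk f p) = aeval G p w := by
    intro p
    have h1 : AdjoinRoot.mk f (Function.surjInv hsurj (AdjoinRoot.mk f p)) =
        AdjoinRoot.mk f p := Function.surjInv_eq hsurj _
    rw [AdjoinRoot.mk_eq_mk] at h1
    obtain ⟨q, hq⟩ := h1
    have h2 : aeval G (Function.surjInv hsurj (AdjoinRoot.mk f p) - p) w = 0 := by
      rw [hq, mul_comm, map_mul, Module.End.mul_apply, hfw, map_zero]
    rw [map_sub, LinearMap.sub_apply] at h2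
    exact sub_eq_zero.1 h2
  let ψ : L →ₗ[K] V :=
    { toFun := ψ0
      map_add' := by
        intro x y
        obtain ⟨p, rfl⟩ := hsurj x
        obtain ⟨q, rfl⟩ := hsurj y
        rw [← map_add, hψ, hψ, hψ, map_add, LinearMap.add_apply]
      map_smul' := by
        intro c x
        obtain ⟨p, rfl⟩ := hsurj x
        have h1 : c • AdjoinRoot.mk f p = AdjoinRoot.mk f (c • p) := by
          rw [AdjoinRoot.smul_mk]
        rw [h1, hψ, hψ, map_smul, LinearMap.smul_apply, RingHom.id_apply] }
  have hψ' : ∀ p : K[X], ψ (AdjoinRoot.mk f p) = aeval G p w := hψ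
  have hψinj : Function.Injective ψ := by
    rw [injective_iff_map_eq_zero]
    intro x hx
    by_contra hx0
    obtain ⟨p, rfl⟩ := hsurj x
    obtain ⟨q, hq⟩ := hsurj (AdjoinRoot.mk f p)⁻¹
    have h1 : AdjoinRoot.mk f (q * p) = 1 := by
      rw [map_mul, hq, inv_mul_cancel₀ hx0]
    have h2 : ψ (AdjoinRoot.mk f (q * p)) = 0 := by
      rw [hψ', map_mul, Module.End.mul_apply, ← hψ' p, hx, map_zero]
    rw [h1, ← map_one (AdjoinRoot.mk f), hψ', map_one, Module.End.one_apply] at h2
    exact hu h2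
  let ζ : L := AdjoinRoot.root f
  have hζ : ∀ x, ψ (ζ * x) = g (ψ x) := by
    intro x
    obtain ⟨p, rfl⟩ := hsurj x
    change ψ (AdjoinRoot.root f * AdjoinRoot.mk f p) = _
    rw [← AdjoinRoot.mk_X, ← map_mul, hψ', hψ', map_mul, Module.End.mul_apply, aeval_X, hG]
  have hψ1 : ψ 1 = w := by
    rw [← map_one (AdjoinRoot.mk f), hψ', map_one, Module.End.one_apply]
  have hζk : ∀ k : ℕ, ψ (ζ ^ k) = (g ^ k) w := by
    intro k
    induction k with
    | zero => rw [pow_zero, hψ1, pow_zero]; rfl
    | succ k ih => rw [pow_succ', hζ, ih, pow_succ']; rfl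
  have hordζ : orderOf ζ = Fintype.card K ^ m + 1 := by
    apply Nat.dvd_antisymm
    · apply orderOf_dvd_of_pow_eq_one
      apply hψinj
      rw [hζk, ← hord, pow_orderOf_eq_one, hψ1]
      rfl
    · rw [← hord]
      apply orderOf_dvd_of_pow_eq_one
      apply hfree _ w hu
      rw [← hζk, pow_orderOf_eq_one, hψ1]
  have hLfd : FiniteDimensional K L := (AdjoinRoot.powerBasis hf.ne_zero).finite
  have hLfin : Finite L := Module.finite_of_finite K
  have hle : finrank K L ≤ 2 * m := by
    rw [← hV]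
    exact LinearMap.finrank_le_finrank_of_injective hψinj
  have hge : 2 * m ≤ finrank K L := by
    have := Fintype.ofFinite L
    have hζ0 : ζ ≠ 0 := by
      intro h0
      rw [h0] at hordζ
      have h1 : orderOf (0 : L) = 0 := orderOf_zero L
      omega
    have h1 := FiniteField.pow_card_sub_one_eq_one ζ hζ0
    have h2 := orderOf_dvd_of_pow_eq_one h1
    rw [hordζ, Module.card_eq_pow_finrank (K := K) (V := L)] at h2
    exact two_mul_le_of_dvd Fintype.one_lt_card (Module.finrank_pos) h2
  have hfr : finrank K L = finrank K V := by omega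
  let e : L ≃ₗ[K] V := LinearEquiv.ofBijective ψ
    ⟨hψinj, (LinearMap.injective_iff_surjective_of_finrank_eq_finrank hfr).1 hψinj⟩
  refine ⟨L, inferInstance, inferInstance, e.symm, ζ, hordζ, ?_⟩
  intro v
  rw [LinearEquiv.symm_apply_eq]
  change g v = ψ (ζ * e.symm v)
  rw [hζ]
  congr 1
  exact (e.apply_symm_apply v).symm

end Pool.Agent.Lib.CPlane
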