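import Pool.Agent.Lib.CPlane.Gen

/-!
# Configurations of `2m` coordinates on an `m`-dimensional space: definitions

Everything lives in the space `Zs m Ω = Ω ^ (ℤ/2m)`.  `Bi i` is the alternating form
`z_i z'_(i+m) + z_(i+m) z'_i`, and `Bt t = Σ t_i B_i`.
-/

namespace Pool.Agent.Lib.CPlane

/-- the space `Ω ^ (ℤ/2m)` -/
abbrev Zs (m : ℕ) (Ω : Type) : Type := ZMod (2 * m) → Ω

open Module

variable {m : ℕ} {Ω : Type} [Field Ω]

/-- `B^(i)(z, z') = z_i z'_(i+m) + z_(i+m) z'_i` -/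
noncomputable def Bi (i : ZMod (2 * m)) : Zs m Ω →ₗ[Ω] Zs m Ω →ₗ[Ω] Ω :=
  LinearMap.mk₂ Ω (fun z z' => z i * z' (i + m) + z (i + m) * z' i)
    (by intros; simp only [Pi.add_apply]; ring)
    (by intros; simp only [Pi.smul_apply, smul_eq_mul]; ring)
    (by intros; simp only [Pi.add_apply]; ring)
    (by intros; simp only [Pi.smul_apply, smul_eq_mul]; ring)

theorem Bi_apply (i : ZMod (2 * m)) (z z' : Zs m Ω) :
    Bi i z z' = z i * z' (i + m) + z (i + m) * z' i := rfl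

/-- the shift `(Φ z)_(i+1) = τ (z_i)` -/
def Phi (m : ℕ) (τ : Ω ≃+* Ω) : Zs m Ω ≃+ Zs m Ω where
  toFun z i := τ (z (i - 1))
  invFun z i := τ.symm (z (i + 1))
  left_inv z := by ext i; simp
  right_inv z := by ext i; simp
  map_add' z z' := by ext i; simp

theorem Phi_apply (τ : Ω ≃+* Ω) (z : Zs m Ω) (i : ZMod (2 * m)) :
    Phi m τ z i = τ (z (i - 1)) := rfl

theorem Phi_smul (τ : Ω ≃+* Ω) (c : Ω) (z : Zs m Ω) : Phi m τ (c • z) = τ c • Phi m τ z := by
  ext i
  simp [Phi_apply]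

section

variable [NeZero m]

/-- `B_t = Σ t_i B^(i)` -/
noncomputable def Bt (t : Zs m Ω) : Zs m Ω →ₗ[Ω] Zs m Ω →ₗ[Ω] Ω := ∑ i, t i • Bi i

theorem Bt_apply (t z z' : Zs m Ω) :
    Bt t z z' = ∑ i, t i * (z i * z' (i + m) + z (i + m) * z' i) := by
  simp [Bt, Bi_apply, LinearMap.sum_apply]

/-- the elements of `X` which are orthogonal to `D` for `B_t` -/
noncomputable def perp (X D : Submodule Ω (Zs m Ω)) (t : Zs m Ω) : Submodule Ω (Zs m Ω) where
  carrier := {w | w ∈ X ∧ ∀ d ∈ D, Bt t w d = 0}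
  zero_mem' := ⟨X.zero_mem, by intro d _; simp⟩
  add_mem' := by
    rintro a b ⟨ha, ha'⟩ ⟨hb, hb'⟩
    exact ⟨X.add_mem ha hb, fun d hd => by simp [ha' d hd, hb' d hd]⟩
  smul_mem' := by
    rintro c a ⟨ha, ha'⟩
    exact ⟨X.smul_mem c ha, fun d hd => by simp [ha' d hd]⟩

theorem mem_perp {X D : Submodule Ω (Zs m Ω)} {t w : Zs m Ω} :
    w ∈ perp X D t ↔ w ∈ X ∧ ∀ d ∈ D, Bt t w d = 0 := Iff.rfl

theorem perp_eq_map (X D : Submodule Ω (Zs m Ω)) (t : Zs m Ω) :
    perp X D t = Submodule.map X.subtype (LinearMap.ker (0 + ∑ i, t i •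
      (Bi i : Zs m Ω →ₗ[Ω] Zs m Ω →ₗ[Ω] Ω).domRestrict₁₂ X D)) := by
  ext w
  simp only [mem_perp, Submodule.mem_map, LinearMap.mem_ker, Submodule.coe_subtype,
    Subtype.exists, exists_and_right, exists_eq_right]
  constructor
  · rintro ⟨hw, h⟩
    refine ⟨hw, ?_⟩
    ext d
    have := h d d.2
    simpa [Bt, LinearMap.sum_apply, LinearMap.domRestrict₁₂_apply] using this
  · rintro ⟨hw, h⟩
    refine ⟨hw, fun d hd => ?_⟩
    have := LinearMap.congr_fun h ⟨d, hd⟩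
    simpa [Bt, LinearMap.sum_apply, LinearMap.domRestrict₁₂_apply] using this

theorem finrank_perp_add (X D : Submodule Ω (Zs m Ω)) (t : Zs m Ω) :
    finrank Ω (LinearMap.range (0 + ∑ i, t i •
      (Bi i : Zs m Ω →ₗ[Ω] Zs m Ω →ₗ[Ω] Ω).domRestrict₁₂ X D)) + finrank Ω (perp X D t) =
      finrank Ω X := by
  rw [perp_eq_map, Submodule.finrank_map_subtype_eq]
  exact LinearMap.finrank_range_add_finrank_ker _

/-- (A0) the dimension of `perp X D t` is generically constant and generically minimal -/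
theorem perp_rank [Infinite Ω] (X D : Submodule Ω (Zs m Ω)) :
    ∃ c : ℕ, (∀ t : Zs m Ω, c ≤ Module.finrank Ω (perp X D t)) ∧
      ∀ᶠ t in Gen (ZMod (2 * m)) Ω, Module.finrank Ω (perp X D t) = c := by
  obtain ⟨r, hr1, hr2⟩ := gen_rank (ι := ZMod (2 * m)) (Ω := Ω) (0 : X →ₗ[Ω] (D →ₗ[Ω] Ω))
    (fun i => (Bi i : Zs m Ω →ₗ[Ω] Zs m Ω →ₗ[Ω] Ω).domRestrict₁₂ X D)
  refine ⟨finrank Ω X - r, fun t => ?_, ?_⟩
  · have h1 := finrank_perp_add X D t
    have h2 := hr1 t
    omega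
  · filter_upwards [hr2] with t ht
    have h1 := finrank_perp_add X D t
    omega

/-- (A0') the dimension of the image of `perp X D t` is generically constant -/
theorem perp_map_rank [Infinite Ω] {Y : Type} [AddCommGroup Y] [Module Ω Y]
    (X D : Submodule Ω (Zs m Ω)) (g : Zs m Ω →ₗ[Ω] Y) :
    ∃ c : ℕ, ∀ᶠ t in Gen (ZMod (2 * m)) Ω,
      Module.finrank Ω (Submodule.map g (perp X D t)) = c := by
  obtain ⟨c1, -, h1⟩ := perp_rank X D
  obtain ⟨c2, -, h2⟩ := perp_rank (X ⊓ LinearMap.ker g) D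
  refine ⟨c1 - c2, ?_⟩
  filter_upwards [h1, h2] with t ht1 ht2
  have h3 := LinearMap.finrank_range_add_finrank_ker (g.domRestrict (perp X D t))
  have h4 : LinearMap.range (g.domRestrict (perp X D t)) = Submodule.map g (perp X D t) := by
    rw [LinearMap.range_domRestrict]
  have h6 : Submodule.map (perp X D t).subtype (LinearMap.ker (g.domRestrict (perp X D t))) =
      perp (X ⊓ LinearMap.ker g) D t := by
    ext w
    simp only [Submodule.mem_map, LinearMap.mem_ker, LinearMap.domRestrict_apply,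
      Submodule.coe_subtype, Subtype.exists, exists_and_right, exists_eq_right, mem_perp,
      Submodule.mem_inf]
    tauto
  have h5 : finrank Ω (LinearMap.ker (g.domRestrict (perp X D t))) =
      finrank Ω (perp (X ⊓ LinearMap.ker g) D t) := by
    rw [← Submodule.finrank_map_subtype_eq, h6]
  rw [h4, h5, ht1, ht2] at h3
  omega

/-- (A0'') the forms and the shift -/
theorem Bt_Phi (τ : Ω ≃+* Ω) (t z z' : Zs m Ω) :
    Bt (Phi m τ t) (Phi m τ z) (Phi m τ z') = τ (Bt t z z') := by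
  rw [Bt_apply, Bt_apply, map_sum, ← Equiv.sum_comp (Equiv.addRight (1 : ZMod (2 * m)))]
  refine Finset.sum_congr rfl fun i _ => ?_
  simp only [Equiv.coe_addRight, Phi_apply, map_mul, map_add]
  have h1 : i + 1 - 1 = i := by ring
  have h2 : i + 1 + (m : ZMod (2 * m)) - 1 = i + m := by ring
  rw [h1, h2]

theorem Bt_symm (t z z' : Zs m Ω) : Bt t z z' = Bt t z' z := by
  rw [Bt_apply, Bt_apply]
  refine Finset.sum_congr rfl fun i _ => ?_
  ring

theorem Bt_self [CharP Ω 2] (t z : Zs m Ω) : Bt t z z = 0 := by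
  rw [Bt_apply]
  refine Finset.sum_eq_zero fun i _ => ?_
  rw [mul_comm (z (i + m)) (z i), CharTwo.add_self_eq_zero, mul_zero]

end

/-- an `m`-dimensional subspace of `Ω ^ (ℤ/2m)` which is stable under the shift -/
structure Cfg (m : ℕ) (Ω : Type) [Field Ω] where
  /-- the subspace -/
  X : Submodule Ω (Zs m Ω)
  /-- the automorphism of the field -/
  τ : Ω ≃+* Ω
  finrank_X : Module.finrank Ω X = m
  mem_iff : ∀ z : Zs m Ω, Phi m τ z ∈ X ↔ z ∈ X

namespace Cfg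

variable [NeZero m] (C : Cfg m Ω)

/-- the radical of `B_t` on `X` -/
noncomputable def rad (t : Zs m Ω) : Submodule Ω (Zs m Ω) := perp C.X C.X t

/-- `D` is the smallest subspace which contains `rad t` for generic `t` -/
def IsHull (D : Submodule Ω (Zs m Ω)) : Prop :=
  (∀ᶠ t in Gen (ZMod (2 * m)) Ω, C.rad t ≤ D) ∧
    ∀ D' : Submodule Ω (Zs m Ω), (∀ᶠ t in Gen (ZMod (2 * m)) Ω, C.rad t ≤ D') → D ≤ D'

/-- the coordinates `i` and `j` are proportional on `D^⊥t` for generic `t` -/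
def Rel (D : Submodule Ω (Zs m Ω)) (i j : ZMod (2 * m)) : Prop :=
  ∀ᶠ t in Gen (ZMod (2 * m)) Ω, ∀ w ∈ perp C.X D t, ∀ w' ∈ perp C.X D t, w i * w' j = w j * w' i

/-- the properties which hold at generic points -/
structure Good (D : Submodule Ω (Zs m Ω)) (t : Zs m Ω) : Prop where
  rad_le : C.rad t ≤ D
  nz : ∀ i, ∃ w ∈ C.rad t, w i ≠ 0
  perp_le : perp C.X D t ≤ D
  iso : ∀ j, ∀ w ∈ perp C.X D t, ∀ w' ∈ perp C.X D t, Bi j w w' = 0
  rel : ∀ i j, C.Rel D i j → ∀ w ∈ perp C.X D t, ∀ w' ∈ perp C.X D t, w i * w' j = w j * w' i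
  nrel : ∀ i j, ¬ C.Rel D i j → ∃ w ∈ perp C.X D t, w j = 0 ∧ w i ≠ 0

end Cfg

/-- the projection to the coordinates of the block `c` -/
noncomputable def pr {Q : Type} [DecidableEq Q] (κ : ZMod (2 * m) → Q) (c : Q) :
    Zs m Ω →ₗ[Ω] Zs m Ω where
  toFun z i := if κ i = c then z i else 0
  map_add' z z' := by ext i; by_cases h : κ i = c <;> simp [h]
  map_smul' a z := by ext i; by_cases h : κ i = c <;> simp [h]

theorem pr_apply {Q : Type} [DecidableEq Q] (κ : ZMod (2 * m) → Q) (c : Q) (z : Zs m Ω)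
    (i : ZMod (2 * m)) : pr κ c z i = if κ i = c then z i else 0 := rfl

end Pool.Agent.Lib.CPlane
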