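import Mathlib

/-!
# Generic points of affine space

`Gen ι Ω` is the filter of all sets which contain the non-vanishing set of a non-zero polynomial.
-/

namespace Pool.Agent.Lib.CPlane

open MvPolynomial

variable {ι : Type} {Ω : Type} [Field Ω]

/-- the filter of generic sets of points of `Ω ^ ι` -/
def Gen (ι : Type) (Ω : Type) [Field Ω] : Filter (ι → Ω) where
  sets := {S | ∃ F : MvPolynomial ι Ω, F ≠ 0 ∧ ∀ t : ι → Ω, eval t F ≠ 0 → t ∈ S}
  univ_sets := ⟨1, one_ne_zero, fun _ _ => Set.mem_univ _⟩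
  sets_of_superset := by
    rintro S T ⟨F, hF, h⟩ hST
    exact ⟨F, hF, fun t ht => hST (h t ht)⟩
  inter_sets := by
    rintro S T ⟨F, hF, h⟩ ⟨G, hG, h'⟩
    refine ⟨F * G, mul_ne_zero hF hG, fun t ht => ?_⟩
    rw [map_mul] at ht
    exact ⟨h t (left_ne_zero_of_mul ht), h' t (right_ne_zero_of_mul ht)⟩

theorem eventually_gen {P : (ι → Ω) → Prop} :
    (∀ᶠ t in Gen ι Ω, P t) ↔
      ∃ F : MvPolynomial ι Ω, F ≠ 0 ∧ ∀ t : ι → Ω, eval t F ≠ 0 → P t :=
  Iff.rfl

/-- (G1) -/
theorem gen_neBot [Finite ι] [Infinite Ω] : (Gen ι Ω).NeBot := by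
  refine ⟨fun h => ?_⟩
  have h0 : (∅ : Set (ι → Ω)) ∈ Gen ι Ω := by rw [h]; exact Filter.mem_bot
  obtain ⟨F, hF, hF'⟩ := h0
  refine hF (MvPolynomial.funext fun t => ?_)
  by_contra ht
  rw [map_zero] at ht
  exact hF' t ht

/-- (G2) the rank of an affine linear family of linear maps is generically constant and
generically maximal -/
theorem gen_rank [Fintype ι] [Infinite Ω] {X Y : Type} [AddCommGroup X] [Module Ω X]
    [FiniteDimensional Ω X] [AddCommGroup Y] [Module Ω Y] [FiniteDimensional Ω Y]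
    (L₀ : X →ₗ[Ω] Y) (L : ι → X →ₗ[Ω] Y) :
    ∃ r : ℕ, (∀ t : ι → Ω, Module.finrank Ω (LinearMap.range (L₀ + ∑ i, t i • L i)) ≤ r) ∧
      ∀ᶠ t in Gen ι Ω, Module.finrank Ω (LinearMap.range (L₀ + ∑ i, t i • L i)) = r := by
  classical
  set g : (ι → Ω) → ℕ := fun t => Module.finrank Ω (LinearMap.range (L₀ + ∑ i, t i • L i)) with hg
  have hb : ∀ t, g t ≤ Module.finrank Ω Y := fun t => Submodule.finrank_le _
  -- a point of maximal rank
  obtain ⟨t₀, ht₀⟩ : ∃ t₀, ∀ t, g t ≤ g t₀ := by
    have hfin : (Set.range g).Finite :=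
      (Set.finite_Iic (Module.finrank Ω Y)).subset (by rintro _ ⟨t, rfl⟩; exact hb t)
    obtain ⟨_, ⟨t₀, rfl⟩, h⟩ := Set.exists_max_image (Set.range g) id hfin ⟨g 0, 0, rfl⟩
    exact ⟨t₀, fun t => h _ ⟨t, rfl⟩⟩
  refine ⟨g t₀, ht₀, ?_⟩
  -- a basis of the range at `t₀`, preimages and dual functionals
  set M : (ι → Ω) → (X →ₗ[Ω] Y) := fun t => L₀ + ∑ i, t i • L i with hM
  let b := Module.finBasis Ω (LinearMap.range (M t₀))
  set r := Module.finrank Ω (LinearMap.range (M t₀)) with hr
  have hx : ∀ j : Fin r, ∃ x : X, M t₀ x = (b j : Y) := fun j => (b j).2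
  choose x hx using hx
  obtain ⟨q, hq⟩ := Submodule.exists_isCompl (LinearMap.range (M t₀))
  let B : Fin r → Y →ₗ[Ω] Ω := fun i =>
    (b.coord i) ∘ₗ (Submodule.projectionOnto (LinearMap.range (M t₀)) q hq)
  have hB : ∀ i j, B i (M t₀ (x j)) = if i = j then 1 else 0 := by
    intro i j
    have h1 : Submodule.projectionOnto (LinearMap.range (M t₀)) q hq (b j : Y) = b j :=
      Submodule.projectionOnto_apply_left hq (b j)
    simp only [B, LinearMap.comp_apply, hx, h1, Module.Basis.coord_apply,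
      Module.Basis.repr_self, Finsupp.single_apply]
    by_cases h : i = j
    · simp [h]
    · simp [h, Ne.symm h]
  let P : Matrix (Fin r) (Fin r) (MvPolynomial ι Ω) := fun i j =>
    C (B i (L₀ (x j))) + ∑ k, MvPolynomial.X k * C (B i (L k (x j)))
  have hP : ∀ t, eval t P.det = (Matrix.of fun i j => B i (M t (x j))).det := by
    intro t
    rw [RingHom.map_det]
    congr 1
    ext i j
    rw [RingHom.mapMatrix_apply, Matrix.map_apply, Matrix.of_apply]
    simp only [P, hM, map_add, map_sum, map_mul, eval_C, eval_X, LinearMap.add_apply,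
      LinearMap.sum_apply, LinearMap.smul_apply, map_smul, smul_eq_mul]
  refine ⟨P.det, ?_, ?_⟩
  · intro h0
    have h1 := hP t₀
    rw [h0, map_zero] at h1
    have h2 : (Matrix.of fun i j => B i (M t₀ (x j))) = (1 : Matrix (Fin r) (Fin r) Ω) := by
      ext i j
      rw [Matrix.of_apply, hB, Matrix.one_apply]
    rw [h2, Matrix.det_one] at h1
    exact zero_ne_one h1
  · intro t ht
    refine le_antisymm (ht₀ t) ?_
    rw [hP t] at ht
    have hli : LinearIndependent Ω fun j : Fin r => M t (x j) := by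
      rw [Fintype.linearIndependent_iff]
      intro c hc
      have h1 : (Matrix.of fun i j => B i (M t (x j))).mulVec c = 0 := by
        ext i
        have h2 := congrArg (B i) hc
        simp only [map_sum, map_smul, smul_eq_mul, map_zero] at h2
        simp only [Matrix.mulVec, dotProduct, Matrix.of_apply, Pi.zero_apply]
        rw [← h2]
        exact Finset.sum_congr rfl fun j _ => mul_comm _ _
      have h3 := Matrix.eq_zero_of_mulVec_eq_zero ht h1
      intro j
      exact congrFun h3 j
    have h4 : Module.finrank Ω (Submodule.span Ω (Set.range fun j : Fin r => M t (x j))) = r := by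
      rw [finrank_span_eq_card hli, Fintype.card_fin]
    have h5 : Submodule.span Ω (Set.range fun j : Fin r => M t (x j)) ≤
        LinearMap.range (M t) := by
      rw [Submodule.span_le]
      rintro _ ⟨j, rfl⟩
      exact ⟨x j, rfl⟩
    calc g t₀ = r := rfl
      _ = _ := h4.symm
      _ ≤ _ := Submodule.finrank_mono h5

/-- the mixture of two points: `t'` on `S`, `t` off `S` -/
noncomputable def mix (S : Set ι) (t t' : ι → Ω) : ι → Ω := by
  classical
  exact fun i => if i ∈ S then t' i else t i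

/-- (G3) mixtures of generic points are generic -/
theorem gen_mix [Finite ι] [Infinite Ω] {P : (ι → Ω) → Prop} (h : ∀ᶠ t in Gen ι Ω, P t) :
    ∀ᶠ t in Gen ι Ω, ∀ᶠ t' in Gen ι Ω, ∀ S : Set ι, P (mix S t t') := by
  classical
  have key : ∀ S : Set ι, ∀ᶠ t in Gen ι Ω, ∀ᶠ t' in Gen ι Ω, P (mix S t t') := by
    intro S
    obtain ⟨F, hF, hF'⟩ := h
    let G : MvPolynomial ι (MvPolynomial ι Ω) :=
      eval₂ (C.comp C) (fun i => if i ∈ S then X i else C (X i)) F
    have hG : ∀ t t' : ι → Ω, eval t' (map (eval t) G) = eval (mix S t t') F := by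
      intro t t'
      have h1 : eval t' (map (eval t) G) = eval₂Hom (eval t) t' G := by
        rw [eval_map]; rfl
      rw [h1]
      simp only [G]
      rw [eval₂_comp_left]
      have h2 : (eval₂Hom (eval t) t').comp (C.comp C) = RingHom.id Ω := by
        ext a; simp
      rw [h2]
      rw [eval₂_id]
      congr 1
      congr 1
      ext i
      by_cases hi : i ∈ S
      · simp [mix, hi]
      · simp [mix, hi]
    have hG0 : G ≠ 0 := by
      intro h0
      refine hF (MvPolynomial.funext fun t => ?_)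
      have h1 := hG t t
      have h2 : mix S t t = t := by
        ext i; by_cases hi : i ∈ S <;> simp [mix, hi]
      rw [h0, h2, map_zero, map_zero] at h1
      rw [map_zero, ← h1]
    obtain ⟨d, hd⟩ := MvPolynomial.exists_coeff_ne_zero hG0
    refine ⟨coeff d G, hd, fun t ht => ⟨map (eval t) G, ?_, fun t' ht' => ?_⟩⟩
    · intro h0
      apply ht
      rw [← coeff_map, h0, coeff_zero]
    · rw [hG] at ht'
      exact hF' _ ht'
  have h2 := Filter.eventually_all.2 key
  filter_upwards [h2] with t ht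
  exact Filter.eventually_all.2 ht

/-- (G4) changing one coordinate -/
theorem gen_update [Finite ι] [DecidableEq ι] [Infinite Ω] {P : (ι → Ω) → Prop}
    (h : ∀ᶠ t in Gen ι Ω, P t) :
    ∀ᶠ t in Gen ι Ω, ∀ j : ι, ∀ᶠ l in Filter.cofinite, P (t + Pi.single j l) := by
  obtain ⟨F, hF, hF'⟩ := h
  refine ⟨F, hF, fun t ht j => ?_⟩
  let p : Polynomial Ω :=
    eval₂ Polynomial.C (fun i => Polynomial.C (t i) + if i = j then Polynomial.X else 0) F
  have hp : ∀ l : Ω, Polynomial.eval l p = eval (t + Pi.single j l) F := by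
    intro l
    have h1 : Polynomial.eval l p = Polynomial.evalRingHom l p := rfl
    rw [h1]
    simp only [p]
    rw [eval₂_comp_left]
    have h2 : (Polynomial.evalRingHom l).comp Polynomial.C = RingHom.id Ω := by
      ext a; simp
    rw [h2, eval₂_id]
    congr 1
    congr 1
    ext i
    by_cases hi : i = j
    · subst hi; simp
    · simp [hi]
  have hp0 : p ≠ 0 := by
    intro h0
    have h1 := hp 0
    rw [h0, Pi.single_zero, add_zero, Polynomial.eval_zero] at h1
    exact ht h1.symm
  have hfin : {l : Ω | Polynomial.eval l p = 0}.Finite := by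
    classical
    have h1 := (p.roots.toFinset).finite_toSet
    refine h1.subset fun l hl => ?_
    simp only [Finset.mem_coe, Multiset.mem_toFinset]
    exact (Polynomial.mem_roots hp0).2 hl
  rw [Filter.eventually_cofinite]
  refine hfin.subset fun l hl => ?_
  by_contra hne
  apply hl
  apply hF'
  rw [← hp]
  exact hne

/-- (G5) semilinear changes of coordinates -/
theorem gen_semi [Finite ι] {P : (ι → Ω) → Prop} (τ : Ω ≃+* Ω) (e : ι ≃ ι)
    (h : ∀ᶠ t in Gen ι Ω, P t) : ∀ᶠ t in Gen ι Ω, P (fun i => τ (t (e i))) := by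
  obtain ⟨F, hF, hF'⟩ := h
  refine ⟨rename e (map (τ.symm : Ω →+* Ω) F), ?_, fun t ht => hF' _ ?_⟩
  · intro h0
    apply hF
    have h1 : map (τ.symm : Ω →+* Ω) F = 0 := by
      apply rename_injective e e.injective
      rw [h0, map_zero]
    apply map_injective (τ.symm : Ω →+* Ω) τ.symm.injective
    rw [h1, map_zero]
  · intro h0
    apply ht
    rw [eval_rename, eval_map]
    have h1 : (τ.symm : Ω →+* Ω) (eval (fun i => τ (t (e i))) F) = 0 := by
      rw [h0, map_zero]
    rw [← h1]
    have h2 : (τ.symm : Ω →+* Ω) (eval (fun i => τ (t (e i))) F) =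
        eval₂ (τ.symm : Ω →+* Ω) ((τ.symm : Ω →+* Ω) ∘ fun i => τ (t (e i))) F := by
      have h3 := eval₂_comp_left (τ.symm : Ω →+* Ω) (RingHom.id Ω) (fun i => τ (t (e i))) F
      rw [eval₂_id, RingHom.comp_id] at h3
      exact h3
    rw [h2]
    congr 1
    ext i
    simp

end Pool.Agent.Lib.CPlane
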