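import Pool.Agent.Lib.CPlane.Form

/-!
# The hull of the radicals (rows A1, A2, A3)
-/

namespace Pool.Agent.Lib.CPlane

open Module

variable {m : ℕ} {Ω : Type} [Field Ω] [NeZero m] (C : Cfg m Ω)

/-- (A1a) the hull exists: take `D` of minimal dimension with `rad t ≤ D` generically; for another
`D'` the subspace `D ⊓ D'` has the property, so it is `D`. -/
theorem exists_hull : ∃ D, C.IsHull D := by
  classical
  have hex : ∃ n : ℕ, ∃ D : Submodule Ω (Zs m Ω), finrank Ω D = n ∧
      ∀ᶠ t in Gen (ZMod (2 * m)) Ω, C.rad t ≤ D :=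
    ⟨_, C.X, rfl, Filter.Eventually.of_forall fun _ _ hw => hw.1⟩
  obtain ⟨D, hD, hD'⟩ := Nat.find_spec hex
  refine ⟨D, hD', fun D' h => ?_⟩
  have h1 : ∀ᶠ t in Gen (ZMod (2 * m)) Ω, C.rad t ≤ D ⊓ D' := by
    filter_upwards [hD', h] with t e1 e2
    exact le_inf e1 e2
  have h2 : Nat.find hex ≤ finrank Ω (D ⊓ D' : Submodule Ω (Zs m Ω)) :=
    Nat.find_min' hex ⟨_, rfl, h1⟩
  have h3 : D ⊓ D' = D := by
    apply Submodule.eq_of_le_of_finrank_le inf_le_left
    rw [hD]
    exact h2
  rw [← h3]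
  exact inf_le_right

theorem hull_le {D : Submodule Ω (Zs m Ω)} (hD : C.IsHull D) : D ≤ C.X :=
  hD.2 C.X (Filter.Eventually.of_forall fun _ _ hw => hw.1)

theorem Phi_mem_rad {t w : Zs m Ω} (hw : w ∈ C.rad t) :
    Phi m C.τ w ∈ C.rad (Phi m C.τ t) := by
  refine ⟨(C.mem_iff w).2 hw.1, fun d hd => ?_⟩
  have h1 : (Phi m C.τ).symm d ∈ C.X := (C.mem_iff _).1 (by rwa [AddEquiv.apply_symm_apply])
  have h2 := hw.2 _ h1
  have h3 := Bt_Phi C.τ t w ((Phi m C.τ).symm d)
  rw [AddEquiv.apply_symm_apply, h2, map_zero] at h3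
  exact h3

theorem symm_mem_rad {t w : Zs m Ω} (hw : w ∈ C.rad t) :
    (Phi m C.τ).symm w ∈ C.rad ((Phi m C.τ).symm t) := by
  refine ⟨(C.mem_iff _).1 (by rw [AddEquiv.apply_symm_apply]; exact hw.1), fun d hd => ?_⟩
  apply C.τ.injective
  rw [← Bt_Phi, AddEquiv.apply_symm_apply, AddEquiv.apply_symm_apply, map_zero]
  exact hw.2 _ ((C.mem_iff d).2 hd)

/-- (A1b) the hull is stable under the shift: `Φ (rad t) = rad (Φ t)` by `Bt_Phi` and
`C.mem_iff`, use `gen_semi` for `τ` and `τ.symm` -/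
theorem hull_shift {D : Submodule Ω (Zs m Ω)} (hD : C.IsHull D) (z : Zs m Ω) :
    Phi m C.τ z ∈ D ↔ z ∈ D := by
  constructor
  · intro hz
    let D' : Submodule Ω (Zs m Ω) :=
      { carrier := {z | (Phi m C.τ).symm z ∈ D}
        zero_mem' := by
          simp only [Set.mem_ofPred_eq, map_zero]
          exact D.zero_mem
        add_mem' := by
          intro x y hx hy
          simp only [Set.mem_ofPred_eq, map_add] at hx hy ⊢
          exact D.add_mem hx hy
        smul_mem' := by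
          intro c x hx
          have h1 : (Phi m C.τ).symm (c • x) = C.τ.symm c • (Phi m C.τ).symm x := by
            rw [AddEquiv.symm_apply_eq, Phi_smul, AddEquiv.apply_symm_apply,
              RingEquiv.apply_symm_apply]
          simp only [Set.mem_ofPred_eq] at hx ⊢
          rw [h1]
          exact D.smul_mem _ hx }
    have h1 : D ≤ D' := by
      apply hD.2
      have h2 := gen_semi C.τ.symm (Equiv.addRight (1 : ZMod (2 * m))) hD.1
      filter_upwards [h2] with t ht w hw
      exact ht (symm_mem_rad C hw)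
    have h3 : (Phi m C.τ).symm (Phi m C.τ z) ∈ D := h1 hz
    rwa [AddEquiv.symm_apply_apply] at h3
  · intro hz
    let D' : Submodule Ω (Zs m Ω) :=
      { carrier := {z | Phi m C.τ z ∈ D}
        zero_mem' := by
          simp only [Set.mem_ofPred_eq, map_zero]
          exact D.zero_mem
        add_mem' := by
          intro x y hx hy
          simp only [Set.mem_ofPred_eq, map_add] at hx hy ⊢
          exact D.add_mem hx hy
        smul_mem' := by
          intro c x hx
          simp only [Set.mem_ofPred_eq] at hx ⊢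
          rw [Phi_smul]
          exact D.smul_mem _ hx }
    have h1 : D ≤ D' := by
      apply hD.2
      have h2 := gen_semi C.τ (Equiv.subRight (1 : ZMod (2 * m))) hD.1
      filter_upwards [h2] with t ht w hw
      exact ht (Phi_mem_rad C hw)
    exact h1 hz

/-- (A2) = (F0): no coordinate vanishes on `rad t` for generic `t`: by `perp_map_rank` for the
coordinate `i` the image of `rad t` is generically `0` or generically not `0`; in the first case
`D ≤ ker (coordinate i)`, by `hull_shift` all coordinates vanish on `D`, `D = ⊥`. -/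
theorem F0 [Infinite Ω] {D : Submodule Ω (Zs m Ω)} (hD : C.IsHull D)
    (hdeg : ∀ t, C.rad t ≠ ⊥) (i : ZMod (2 * m)) :
    ∀ᶠ t in Gen (ZMod (2 * m)) Ω, ∃ w ∈ C.rad t, w i ≠ 0 := by
  obtain ⟨r, hr⟩ := perp_map_rank C.X C.X (LinearMap.proj i : Zs m Ω →ₗ[Ω] Ω)
  by_cases hr0 : r = 0
  · exfalso
    subst hr0
    have h1 : D ≤ LinearMap.ker (LinearMap.proj i : Zs m Ω →ₗ[Ω] Ω) := by
      apply hD.2
      filter_upwards [hr] with t ht w hw
      rw [Submodule.finrank_eq_zero] at ht
      have h2 : (LinearMap.proj i : Zs m Ω →ₗ[Ω] Ω) w ∈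
          Submodule.map (LinearMap.proj i : Zs m Ω →ₗ[Ω] Ω) (perp C.X C.X t) := ⟨w, hw, rfl⟩
      rw [ht, Submodule.mem_bot] at h2
      exact h2
    have h2 : ∀ n : ℕ, ∀ z ∈ D, z (i - n) = 0 := by
      intro n
      induction n with
      | zero =>
        intro z hz
        rw [Nat.cast_zero, sub_zero]
        exact h1 hz
      | succ n ih =>
        intro z hz
        have h3 := ih _ ((hull_shift C hD z).2 hz)
        rw [Phi_apply] at h3
        have h4 : z (i - n - 1) = 0 := C.τ.injective (by rw [h3, map_zero])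
        rw [Nat.cast_succ, ← sub_sub]
        exact h4
    have h5 : D = ⊥ := by
      rw [eq_bot_iff]
      intro z hz
      rw [Submodule.mem_bot]
      ext j
      have h6 := h2 (i - j).val z hz
      rwa [ZMod.natCast_zmod_val, sub_sub_cancel] at h6
    have := gen_neBot (ι := ZMod (2 * m)) (Ω := Ω)
    obtain ⟨t, ht⟩ := Filter.Eventually.exists hD.1
    rw [h5, le_bot_iff] at ht
    exact hdeg t ht
  · filter_upwards [hr] with t ht
    by_contra hcon
    push Not at hcon
    apply hr0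
    rw [← ht, Submodule.finrank_eq_zero, eq_bot_iff]
    rintro _ ⟨w, hw, rfl⟩
    rw [Submodule.mem_bot]
    exact hcon w hw

theorem Bt_add_single [DecidableEq (ZMod (2 * m))] (t : Zs m Ω) (j : ZMod (2 * m)) (l : Ω)
    (x y : Zs m Ω) : Bt (t + Pi.single j l) x y = Bt t x y + l * Bi j x y := by
  rw [Bt_apply, Bt_apply, Bi_apply]
  simp only [Pi.add_apply, add_mul, Finset.sum_add_distrib]
  congr 1
  rw [Finset.sum_eq_single j]
  · rw [Pi.single_eq_same]
  · intro i _ hi
    rw [Pi.single_eq_of_ne hi, zero_mul]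
  · intro h
    exact absurd (Finset.mem_univ _) h

/-- (A3a) = (F3): for generic `t` the form `B^(j)` vanishes on `D^⊥t`: take `λ ≠ 0` with
`t' = t + λ e_j` good (`gen_update`), `w'' ∈ rad t' ≤ D` with `w'' j ≠ 0`; then
`0 = B_t(w,w'') = B_t'(w,w'') - λ B^(j)(w,w'')`, `B_t'(w,w'') = 0`. -/
theorem F3_iso [Infinite Ω] [CharP Ω 2] {D : Submodule Ω (Zs m Ω)} (hD : C.IsHull D)
    (hdeg : ∀ t, C.rad t ≠ ⊥) :
    ∀ᶠ t in Gen (ZMod (2 * m)) Ω,
      ∀ j, ∀ w ∈ perp C.X D t, ∀ w' ∈ perp C.X D t, Bi j w w' = 0 := by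
  classical
  have h1 : ∀ᶠ t in Gen (ZMod (2 * m)) Ω, C.rad t ≤ D ∧ ∀ i, ∃ w ∈ C.rad t, w i ≠ 0 :=
    hD.1.and (Filter.eventually_all.2 fun i => F0 C hD hdeg i)
  have h2 := gen_update h1
  filter_upwards [h2] with t ht j
  obtain ⟨l, ⟨hl1, hl2⟩, hl0⟩ := ((ht j).and (Filter.eventually_cofinite_ne (0 : Ω))).exists
  obtain ⟨u, hu, huj⟩ := hl2 j
  have key : ∀ w ∈ perp C.X D t, Bi j w u = 0 := by
    intro w hw
    have e1 := hw.2 u (hl1 hu)
    have e2 := hu.2 w hw.1
    rw [Bt_symm, Bt_add_single, e1, zero_add] at e2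
    exact (mul_eq_zero.1 e2).resolve_left hl0
  have key2 : ∀ w ∈ perp C.X D t, w (j + m) = w j * (u (j + m) / u j) := by
    intro w hw
    have e1 := key w hw
    rw [Bi_apply] at e1
    have e2 := CharTwo.add_eq_zero.1 e1
    field_simp
    exact e2.symm
  intro w hw w' hw'
  rw [Bi_apply, key2 w hw, key2 w' hw']
  have e3 : w j * (w' j * (u (j + ↑m) / u j)) + w j * (u (j + ↑m) / u j) * w' j =
      w j * (w' j * (u (j + ↑m) / u j)) + w j * (w' j * (u (j + ↑m) / u j)) := by ring
  rw [e3, CharTwo.add_self_eq_zero]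

/-- (A3b) dimension of the orthogonal of `D` in `X` (for all `t` with `rad t ≤ D ≤ X`) -/
theorem finrank_perp {D : Submodule Ω (Zs m Ω)} (hDX : D ≤ C.X) {t : Zs m Ω}
    (ht : C.rad t ≤ D) :
    finrank Ω D + finrank Ω (perp C.X D t) = m + finrank Ω (C.rad t) := by
  let B : LinearMap.BilinForm Ω C.X := (Bt t).domRestrict₁₂ C.X C.X
  have hB : ∀ x y : C.X, B x y = Bt t x y := fun _ _ => rfl
  have hrefl : B.IsRefl := by
    intro x y hxy
    rw [hB] at hxy ⊢
    rw [Bt_symm]
    exact hxy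
  let W : Submodule Ω C.X := Submodule.comap C.X.subtype D
  have h1 := LinearMap.BilinForm.finrank_add_finrank_orthogonal hrefl W
  have e1 : finrank Ω W = finrank Ω D := by
    rw [← Submodule.finrank_map_subtype_eq, Submodule.map_comap_subtype, inf_eq_right.2 hDX]
  have e2 : finrank Ω (B.orthogonal W) = finrank Ω (perp C.X D t) := by
    rw [← Submodule.finrank_map_subtype_eq]
    have h2 : Submodule.map C.X.subtype (B.orthogonal W) = perp C.X D t := by
      ext w
      constructor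
      · rintro ⟨x, hx, rfl⟩
        refine ⟨x.2, fun d hd => ?_⟩
        have h3 := LinearMap.BilinForm.mem_orthogonal_iff.1 hx ⟨d, hDX hd⟩ hd
        rw [Bt_symm]
        exact h3
      · rintro ⟨hw, hw'⟩
        refine ⟨⟨w, hw⟩, ?_, rfl⟩
        apply LinearMap.BilinForm.mem_orthogonal_iff.2
        intro x hx
        have h3 := hw' x hx
        rw [Bt_symm] at h3
        exact h3
    rw [h2]
  have e3 : finrank Ω (W ⊓ B.orthogonal ⊤ : Submodule Ω C.X) = finrank Ω (C.rad t) := by
    rw [← Submodule.finrank_map_subtype_eq]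
    have h2 : Submodule.map C.X.subtype (W ⊓ B.orthogonal ⊤) = C.rad t := by
      ext w
      constructor
      · rintro ⟨x, ⟨hx, hx'⟩, rfl⟩
        refine ⟨x.2, fun d hd => ?_⟩
        have h3 := LinearMap.BilinForm.mem_orthogonal_iff.1 hx' ⟨d, hd⟩ trivial
        rw [Bt_symm]
        exact h3
      · intro hw
        refine ⟨⟨w, hw.1⟩, ⟨ht hw, ?_⟩, rfl⟩
        apply LinearMap.BilinForm.mem_orthogonal_iff.2
        intro x _
        have h3 := hw.2 x x.2
        rw [Bt_symm] at h3
        exact h3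
    rw [h2]
  rw [e1, e2, e3, C.finrank_X] at h1
  exact h1

/-- (A3c) if all `B^(j)` vanish on `D^⊥t` then `D^⊥t ≤ (D^⊥t)^⊥t = D` (dimension count with
`finrank_perp` for `D` and for `D^⊥t`) -/
theorem perp_le_of_iso {D : Submodule Ω (Zs m Ω)} (hDX : D ≤ C.X) {t : Zs m Ω}
    (ht : C.rad t ≤ D)
    (hiso : ∀ j, ∀ w ∈ perp C.X D t, ∀ w' ∈ perp C.X D t, Bi j w w' = 0) :
    perp C.X D t ≤ D := by
  have h1 := finrank_perp C hDX ht
  have hR : perp C.X D t ≤ C.X := fun _ hw => hw.1
  have hrad : C.rad t ≤ perp C.X D t := fun _ hw => ⟨hw.1, fun d hd => hw.2 d (hDX hd)⟩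
  have h2 := finrank_perp C hR hrad
  have h3 : D ≤ perp C.X (perp C.X D t) t := by
    intro d hd
    refine ⟨hDX hd, fun w hw => ?_⟩
    rw [Bt_symm]
    exact hw.2 d hd
  have h4 : D = perp C.X (perp C.X D t) t :=
    Submodule.eq_of_le_of_finrank_eq h3 (by omega)
  have h5 : perp C.X D t ≤ perp C.X (perp C.X D t) t := by
    intro w hw
    refine ⟨hw.1, fun w' hw' => ?_⟩
    rw [Bt_apply]
    refine Finset.sum_eq_zero fun i _ => ?_
    have := hiso i w hw w' hw'
    rw [Bi_apply] at this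
    rw [this, mul_zero]
  rw [← h4] at h5
  exact h5

end Pool.Agent.Lib.CPlane
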