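import Pool.Agent.Lib.CPlane.IT1

/-!
# The translations in `G` form a regular elementary abelian 2-group
-/

namespace Pool.Agent.Lib.CPlane

open Module

variable {P : Type} {n : ℕ}

namespace IT2

theorem im_mul (t u : Equiv.Perm P) (L : Set P) :
    ((t * u : Equiv.Perm P) : P → P) '' L = (t : P → P) '' ((u : P → P) '' L) := by
  rw [Equiv.Perm.coe_mul, Set.image_comp]

theorem im_one (L : Set P) : ((1 : Equiv.Perm P) : P → P) '' L = L := by
  rw [Equiv.Perm.coe_one, Set.image_id]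

theorem im_inv (t : Equiv.Perm P) (L : Set P) :
    ((t⁻¹ : Equiv.Perm P) : P → P) '' ((t : P → P) '' L) = L := by
  rw [← im_mul, inv_mul_cancel, im_one]

theorem im_inv' (t : Equiv.Perm P) (L : Set P) :
    (t : P → P) '' (((t⁻¹ : Equiv.Perm P) : P → P) '' L) = L := by
  rw [← im_mul, mul_inv_cancel, im_one]

theorem par_symm {L M : Set P} (h : Par L M) : Par M L := by
  rcases h with h | h
  · exact Or.inl h.symm
  · exact Or.inr h.symm

theorem par_im (t : Equiv.Perm P) {L M : Set P} (h : Par L M) :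
    Par ((t : P → P) '' L) ((t : P → P) '' M) := by
  rcases h with h | h
  · left; rw [h]
  · right
    exact (Set.disjoint_image_iff t.injective).2 h

theorem par_eq {L M : Set P} (h : Par L M) {p : P} (h1 : p ∈ L) (h2 : p ∈ M) : L = M := by
  rcases h with h | h
  · exact h
  · exact absurd h2 (Set.disjoint_left.1 h h1)

/-- two lines with two common points are equal -/
theorem line_eq (A : AffinePlane P n) {L M : Set P} (hL : L ∈ A.lines) (hM : M ∈ A.lines)
    {p q : P} (hpq : p ≠ q) (h1 : p ∈ L) (h2 : q ∈ L) (h3 : p ∈ M) (h4 : q ∈ M) : L = M := by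
  obtain ⟨N, _, hu⟩ := A.join p q hpq
  rw [hu L ⟨hL, h1, h2⟩, hu M ⟨hM, h3, h4⟩]

/-- the dilatations in `G` -/
def T (A : AffinePlane P n) (G : Subgroup (Equiv.Perm P)) (hG : IsCollineationGroup A G) :
    Subgroup (Equiv.Perm P) where
  carrier := {t | t ∈ G ∧ IsDil A t}
  mul_mem' := by
    rintro t u ⟨ht, ht'⟩ ⟨hu, hu'⟩
    refine ⟨G.mul_mem ht hu, fun L hL => ?_⟩
    rw [im_mul]
    have h1 := hu' L hL
    have h2 := ht' _ h1.1
    exact ⟨h2.1, Par.trans h2.1 h1.1 hL h2.2 h1.2⟩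
  one_mem' := by
    refine ⟨G.one_mem, fun L hL => ?_⟩
    rw [im_one]
    exact ⟨hL, Or.inl rfl⟩
  inv_mem' := by
    rintro t ⟨ht, ht'⟩
    refine ⟨G.inv_mem ht, fun L hL => ?_⟩
    have h1 := hG _ (G.inv_mem ht) L hL
    refine ⟨h1, ?_⟩
    have h2 := (ht' _ h1).2
    rw [im_inv'] at h2
    exact par_symm h2

variable {A : AffinePlane P n} {G : Subgroup (Equiv.Perm P)} {hG : IsCollineationGroup A G}

theorem mem_T {t : Equiv.Perm P} : t ∈ T A G hG ↔ t ∈ G ∧ IsDil A t := Iff.rfl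

theorem conj_mem_T {g t : Equiv.Perm P} (hg : g ∈ G) (ht : t ∈ T A G hG) :
    g * t * g⁻¹ ∈ T A G hG := by
  refine ⟨G.mul_mem (G.mul_mem hg ht.1) (G.inv_mem hg), fun L hL => ?_⟩
  rw [im_mul, im_mul]
  have h1 := hG _ (G.inv_mem hg) L hL
  have h2 := ht.2 _ h1
  refine ⟨hG _ hg _ h2.1, ?_⟩
  have h3 := par_im g h2.2
  rw [im_inv'] at h3
  exact h3

/-- every point is on a line -/
theorem exists_line_mem (A : AffinePlane P n) (hn2 : 2 ≤ n) (p : P) :
    ∃ L ∈ A.lines, p ∈ L := by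
  have h := ncard_pencil A hn2 p
  have h1 : {L | L ∈ A.lines ∧ p ∈ L}.Nonempty := by
    rw [← Set.ncard_pos (Set.finite_of_ncard_pos (by omega)), h]
    omega
  exact h1

theorem eq_one_of_fixed (hn2 : 2 ≤ n) (hflag : SharplyFlagTransitive A G) {t : Equiv.Perm P}
    (ht : t ∈ T A G hG) {p : P} (hp : t p = p) : t = 1 := by
  obtain ⟨L, hL, hpL⟩ := exists_line_mem A hn2 p
  have h1 := ht.2 L hL
  refine eq_one_of_flag hflag ht.1 hL hpL hp (par_eq h1.2 ?_ hpL)
  exact ⟨p, hpL, hp⟩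

/-- a line containing `p` and `t p` is fixed -/
theorem fixed_line {t : Equiv.Perm P} (ht : t ∈ T A G hG) {L : Set P} (hL : L ∈ A.lines)
    {p : P} (hp : p ∈ L) (htp : t p ∈ L) : (t : P → P) '' L = L :=
  par_eq (ht.2 L hL).2 ⟨p, hp, rfl⟩ htp

/-- if `t ≠ 1` fixes the line `L` then `t p ∈ L` for `p ∈ L` -/
theorem mem_of_fixed {t : Equiv.Perm P} {L : Set P} (h : (t : P → P) '' L = L) {p : P}
    (hp : p ∈ L) : t p ∈ L := by
  rw [← h]
  exact ⟨p, hp, rfl⟩

/-- fixed lines of `t ≠ 1` are parallel -/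
theorem fixed_par (hn2 : 2 ≤ n) (hflag : SharplyFlagTransitive A G) {t : Equiv.Perm P}
    (ht : t ∈ T A G hG) (ht1 : t ≠ 1) {L M : Set P} (hL : L ∈ A.lines) (hM : M ∈ A.lines)
    (h1 : (t : P → P) '' L = L) (h2 : (t : P → P) '' M = M) : Par L M := by
  by_cases h : Disjoint L M
  · exact Or.inr h
  · left
    obtain ⟨p, hp1, hp2⟩ := Set.not_disjoint_iff.1 h
    have hne : p ≠ t p := fun hh => ht1 (eq_one_of_fixed hn2 hflag ht hh.symm)
    exact line_eq A hL hM hne hp1 (mem_of_fixed h1 hp1) hp2 (mem_of_fixed h2 hp2)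

/-- the elements of `T` which fix the line `L` -/
def TL (A : AffinePlane P n) (G : Subgroup (Equiv.Perm P)) (hG : IsCollineationGroup A G)
    (L : Set P) : Subgroup (Equiv.Perm P) where
  carrier := {t | t ∈ T A G hG ∧ (t : P → P) '' L = L}
  mul_mem' := by
    rintro t u ⟨ht, ht'⟩ ⟨hu, hu'⟩
    exact ⟨(T A G hG).mul_mem ht hu, by rw [im_mul, hu', ht']⟩
  one_mem' := ⟨(T A G hG).one_mem, im_one L⟩
  inv_mem' := by
    rintro t ⟨ht, ht'⟩
    refine ⟨(T A G hG).inv_mem ht, ?_⟩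
    conv_lhs => rw [← ht']
    exact im_inv t L

theorem mem_TL {t : Equiv.Perm P} {L : Set P} :
    t ∈ TL A G hG L ↔ t ∈ T A G hG ∧ (t : P → P) '' L = L := Iff.rfl

/-- parallel lines have the same group -/
theorem TL_of_par (hn2 : 2 ≤ n) (hflag : SharplyFlagTransitive A G) {L M : Set P}
    (hL : L ∈ A.lines) (hM : M ∈ A.lines) (h : Par L M) {t : Equiv.Perm P}
    (ht : t ∈ TL A G hG L) : t ∈ TL A G hG M := by
  by_cases ht1 : t = 1
  · rw [ht1]
    exact Subgroup.one_mem _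
  · refine ⟨ht.1, ?_⟩
    have h1 := (ht.1.2 M hM)
    -- `M` is not empty
    have hMn : M.Nonempty := by
      have := A.card_line M hM
      rw [← Set.ncard_pos (Set.finite_of_ncard_pos (by omega))]
      omega
    obtain ⟨p, hp⟩ := hMn
    have hne : p ≠ t p := fun hh => ht1 (eq_one_of_fixed hn2 hflag ht.1 hh.symm)
    obtain ⟨N, ⟨hN, hpN, htpN⟩, _⟩ := A.join p (t p) hne
    have h2 := fixed_line ht.1 hN hpN htpN
    have h3 : Par N L := fixed_par hn2 hflag ht.1 ht1 hN hL h2 ht.2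
    have h4 : N = M := par_eq (Par.trans hN hL hM h3 h) hpN hp
    rw [← h4]
    exact h2

/-- conjugation -/
theorem conj_mem_TL {g t : Equiv.Perm P} (hg : g ∈ G) {L : Set P} (ht : t ∈ TL A G hG L) :
    g * t * g⁻¹ ∈ TL A G hG ((g : P → P) '' L) := by
  refine ⟨conj_mem_T hg ht.1, ?_⟩
  rw [im_mul, im_inv, im_mul, ht.2]

/-- trivial intersection -/
theorem TL_inf (hn2 : 2 ≤ n) (hflag : SharplyFlagTransitive A G) {L M : Set P}
    (hL : L ∈ A.lines) (hM : M ∈ A.lines) {p : P} (hpL : p ∈ L) (hpM : p ∈ M) (hLM : L ≠ M)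
    {t : Equiv.Perm P} (h1 : t ∈ TL A G hG L) (h2 : t ∈ TL A G hG M) : t = 1 := by
  by_contra ht
  exact hLM (par_eq (fixed_par hn2 hflag h1.1 ht hL hM h1.2 h2.2) hpL hpM)

/-- every `t ∈ T` lies in some `TL L`, `p ∈ L` -/
theorem exists_TL (hn2 : 2 ≤ n) (p : P) {t : Equiv.Perm P}
    (ht : t ∈ T A G hG) : ∃ L ∈ A.lines, p ∈ L ∧ t ∈ TL A G hG L := by
  by_cases h : t p = p
  · obtain ⟨L, hL, hpL⟩ := exists_line_mem A hn2 p
    exact ⟨L, hL, hpL, ht, fixed_line ht hL hpL (by rw [h]; exact hpL)⟩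
  · obtain ⟨N, ⟨hN, hpN, htpN⟩, _⟩ := A.join p (t p) (fun hh => h hh.symm)
    exact ⟨N, hN, hpN, ht, fixed_line ht hN hpN htpN⟩

/-- another line through `p` -/
theorem exists_other (A : AffinePlane P n) (hn2 : 2 ≤ n) (p : P) (L : Set P) :
    ∃ M ∈ A.lines, p ∈ M ∧ L ≠ M := by
  by_contra hcon
  have h := ncard_pencil A hn2 p
  have h1 : {L | L ∈ A.lines ∧ p ∈ L} ⊆ {L} := by
    rintro M ⟨hM, hpM⟩
    by_contra hne
    exact hcon ⟨M, hM, hpM, fun h => hne h.symm⟩
  have h2 := Set.ncard_le_ncard h1 (Set.finite_singleton L)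
  rw [h, Set.ncard_singleton] at h2
  omega

/-- elements with different centres commute -/
theorem comm_of_ne (hn2 : 2 ≤ n) (hflag : SharplyFlagTransitive A G) {L M : Set P}
    (hL : L ∈ A.lines) (hM : M ∈ A.lines) {p : P} (hpL : p ∈ L) (hpM : p ∈ M) (hLM : L ≠ M)
    {t u : Equiv.Perm P} (h1 : t ∈ TL A G hG L) (h2 : u ∈ TL A G hG M) : t * u = u * t := by
  -- `t (u t⁻¹ u⁻¹) ∈ TL L`, `(t u t⁻¹) u⁻¹ ∈ TL M`
  have h3 : u * t⁻¹ * u⁻¹ ∈ TL A G hG L := by
    have h4 := conj_mem_TL (hG := hG) h2.1.1 (Subgroup.inv_mem _ h1)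
    exact TL_of_par hn2 hflag (hG _ h2.1.1 L hL) hL (h2.1.2 L hL).2 h4
  have h4 : t * u * t⁻¹ ∈ TL A G hG M := by
    have h5 := conj_mem_TL (hG := hG) h1.1.1 h2
    exact TL_of_par hn2 hflag (hG _ h1.1.1 M hM) hM (h1.1.2 M hM).2 h5
  have h5 : t * (u * t⁻¹ * u⁻¹) = t * u * t⁻¹ * u⁻¹ := by group
  have h6 : t * (u * t⁻¹ * u⁻¹) = 1 := by
    refine TL_inf hn2 hflag hL hM hpL hpM hLM (Subgroup.mul_mem _ h1 h3) ?_
    rw [h5]
    exact Subgroup.mul_mem _ h4 (Subgroup.inv_mem _ h2)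
  rw [h5] at h6
  have h7 : t * u * t⁻¹ * u⁻¹ * (u * t) = u * t := by rw [h6, one_mul]
  rw [← h7]
  group

/-- `T` is commutative, provided that every `TL M` is nontrivial -/
theorem comm (hn2 : 2 ≤ n) (hflag : SharplyFlagTransitive A G) (p : P)
    (hnt : ∀ M ∈ A.lines, p ∈ M → ∃ u ∈ TL A G hG M, u ≠ 1)
    {t u : Equiv.Perm P} (ht : t ∈ T A G hG) (hu : u ∈ T A G hG) : t * u = u * t := by
  obtain ⟨L, hL, hpL, htL⟩ := exists_TL hn2 p ht
  obtain ⟨M, hM, hpM, huM⟩ := exists_TL hn2 p hu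
  by_cases hLM : L = M
  · subst hLM
    obtain ⟨N, hN, hpN, hLN⟩ := exists_other A hn2 p L
    obtain ⟨v, hv, hv1⟩ := hnt N hN hpN
    -- `v u` has a centre different from that of `L`
    have hvu : v * u ∈ T A G hG := Subgroup.mul_mem _ hv.1 hu
    obtain ⟨M', hM', hpM', hvuM⟩ := exists_TL hn2 p hvu
    have hne : L ≠ M' := by
      rintro rfl
      apply hv1
      refine TL_inf hn2 hflag hL hN hpL hpN hLN ?_ hv
      have h1 := Subgroup.mul_mem _ hvuM (Subgroup.inv_mem _ huM)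
      rwa [mul_inv_cancel_right] at h1
    have h1 := comm_of_ne hn2 hflag hL hM' hpL hpM' hne htL hvuM
    have h2 := comm_of_ne hn2 hflag hL hN hpL hpN hLN htL hv
    -- `t v u = v u t`, `t v = v t`
    have h3 : v * (t * u) = v * (u * t) := by
      calc v * (t * u) = (v * t) * u := by group
        _ = (t * v) * u := by rw [h2]
        _ = t * (v * u) := by group
        _ = (v * u) * t := h1
        _ = v * (u * t) := by group
    exact mul_left_cancel h3
  · exact comm_of_ne hn2 hflag hL hM hpL hpM hLM htL huM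

/-- every `TL M` contains an involution -/
theorem exists_involution (hn : Even n) (hn2 : 2 ≤ n) (hG : IsCollineationGroup A G)
    (hflag : SharplyFlagTransitive A G) (p : P) :
    ∀ M ∈ A.lines, p ∈ M → ∃ u ∈ TL A G hG M, u ≠ 1 ∧ u * u = 1 := by
  classical
  have hPfin : Finite P := by
    apply Nat.finite_of_card_ne_zero
    rw [A.card_points]
    positivity
  have := Fintype.ofFinite P
  -- `G` has even order
  obtain ⟨L0, hL0, hpL0⟩ := exists_line_mem A hn2 p
  have htr : MulAction.IsPretransitive G P := by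
    constructor
    intro x y
    obtain ⟨L, hL, hxL⟩ := exists_line_mem A hn2 x
    obtain ⟨M, hM, hyM⟩ := exists_line_mem A hn2 y
    obtain ⟨g, ⟨hg, hgx, _⟩, _⟩ := hflag x L hL hxL y M hM hyM
    exact ⟨⟨g, hg⟩, hgx⟩
  have hdvd : 2 ∣ Nat.card G := by
    have h1 := MulAction.index_stabilizer_of_transitive G p
    rw [A.card_points] at h1
    have h2 := Subgroup.index_dvd_card (MulAction.stabilizer G p)
    rw [h1] at h2
    exact (hn.two_dvd.trans (dvd_pow_self n two_ne_zero)).trans h2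
  obtain ⟨t0, ht0⟩ := exists_prime_orderOf_dvd_card' (G := G) 2 hdvd
  have ht01 : (t0 : Equiv.Perm P) ≠ 1 := by
    intro h
    have h1 : t0 = 1 := Subtype.ext h
    rw [h1, orderOf_one] at ht0
    omega
  have ht02 : (t0 : Equiv.Perm P) * t0 = 1 := by
    have h1 := pow_orderOf_eq_one t0
    rw [ht0, pow_two] at h1
    exact congrArg Subtype.val h1
  have hdil := isDil_of_involution hn hn2 hG hflag t0.2 ht02 ht01
  have ht0T : (t0 : Equiv.Perm P) ∈ T A G hG := ⟨t0.2, hdil⟩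
  obtain ⟨L, hL, hpL, htL⟩ := exists_TL hn2 p ht0T
  intro M hM hpM
  obtain ⟨g, ⟨hg, _, hgL⟩, _⟩ := hflag p L hL hpL p M hM hpM
  refine ⟨g * t0 * g⁻¹, ?_, ?_, ?_⟩
  · have h1 := conj_mem_TL (hG := hG) hg htL
    rwa [hgL] at h1
  · intro h
    apply ht01
    have h1 : (t0 : Equiv.Perm P) = g⁻¹ * (g * t0 * g⁻¹) * g := by group
    rw [h1, h]
    group
  · have h1 : g * (t0 : Equiv.Perm P) * g⁻¹ * (g * t0 * g⁻¹) = g * (t0 * t0) * g⁻¹ := by group
    rw [h1, ht02]
    group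

/-- exponent two -/
theorem sq_eq_one (hn2 : 2 ≤ n) (hflag : SharplyFlagTransitive A G) (p : P)
    (hinv : ∀ M ∈ A.lines, p ∈ M → ∃ u ∈ TL A G hG M, u ≠ 1 ∧ u * u = 1)
    {t : Equiv.Perm P} (ht : t ∈ T A G hG) : t * t = 1 := by
  obtain ⟨L, hL, hpL, htL⟩ := exists_TL hn2 p ht
  obtain ⟨M, hM, hpM, hLM⟩ := exists_other A hn2 p L
  obtain ⟨u, hu, hu1, hu2⟩ := hinv M hM hpM
  have hnt : ∀ M ∈ A.lines, p ∈ M → ∃ u ∈ TL A G hG M, u ≠ 1 := by
    intro M hM hpM
    obtain ⟨u, hu, hu1, _⟩ := hinv M hM hpM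
    exact ⟨u, hu, hu1⟩
  have hcomm := comm_of_ne hn2 hflag hL hM hpL hpM hLM htL hu
  have htu : t * u ∈ T A G hG := Subgroup.mul_mem _ ht hu.1
  obtain ⟨N, hN, hpN, htuN⟩ := exists_TL hn2 p htu
  have hne : L ≠ N := by
    rintro rfl
    apply hu1
    refine TL_inf hn2 hflag hL hM hpL hpM hLM ?_ hu
    have h1 := Subgroup.mul_mem _ (Subgroup.inv_mem _ htL) htuN
    rwa [inv_mul_cancel_left] at h1
  have h1 : (t * u) * (t * u) = t * t := by
    calc (t * u) * (t * u) = t * (u * t) * u := by group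
      _ = t * (t * u) * u := by rw [hcomm]
      _ = t * t * (u * u) := by group
      _ = t * t := by rw [hu2, mul_one]
  refine TL_inf hn2 hflag hL hN hpL hpN hne (Subgroup.mul_mem _ htL htL) ?_
  rw [← h1]
  exact Subgroup.mul_mem _ htuN htuN

/-- the arithmetic -/
theorem arith {n h t j : ℕ} (hn : 1 ≤ n) (h2 : 2 ≤ h) (ht : t = 1 + (n + 1) * (h - 1))
    (hj : t = 2 ^ j) (hdvd : h ∣ t) (hdvd2 : t ∣ n ^ 2) : t = n ^ 2 := by
  obtain ⟨h', rfl⟩ : ∃ h', h = h' + 1 := ⟨h - 1, by omega⟩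
  rw [Nat.add_sub_cancel] at ht
  have ht' : t = (h' + 1) + n * h' := by rw [ht]; ring
  -- `h ∣ n`
  have h3 : (h' + 1) ∣ n * h' := by
    rw [ht'] at hdvd
    exact (Nat.dvd_add_right (dvd_refl _)).1 hdvd
  have hcop : Nat.Coprime (h' + 1) h' := by
    rw [Nat.coprime_comm]
    exact (Nat.coprime_self_add_right).2 (Nat.coprime_one_right h')
  have h4 : (h' + 1) ∣ n := hcop.dvd_of_dvd_mul_right h3
  obtain ⟨k, hk⟩ := h4
  have ht2 : t = (h' + 1) * (1 + k * h') := by
    rw [ht', hk]; ring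
  have hkpos : 1 ≤ k := by
    rcases Nat.eq_zero_or_pos k with h | h
    · rw [h, mul_zero] at hk
      omega
    · exact h
  -- `1 + k h'` is a power of two, greater than one
  have hpow1 : (1 + k * h') ∣ 2 ^ j := by
    rw [← hj, ht2]
    exact Dvd.intro_left _ rfl
  obtain ⟨i, _, hi⟩ := (Nat.dvd_prime_pow Nat.prime_two).1 hpow1
  have hi0 : i ≠ 0 := by
    rintro rfl
    rw [pow_zero] at hi
    have : 0 < k * h' := Nat.mul_pos (by omega) (by omega)
    omega
  have heven : Even (1 + k * h') := by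
    rw [hi]
    exact (Nat.even_pow.2 ⟨even_two, hi0⟩)
  have hkodd : Odd k := by
    by_contra hcon
    rw [Nat.not_odd_iff_even] at hcon
    have h5 : Even (k * h') := hcon.mul_right h'
    rw [Nat.even_iff] at heven h5
    omega
  -- `t ∣ h ^ 2`
  have hcop2 : Nat.Coprime t (k ^ 2) := by
    rw [hj]
    exact Nat.Coprime.pow_left _ (Nat.coprime_two_left.2 (hkodd.pow))
  have h6 : t ∣ (h' + 1) ^ 2 := by
    rw [hk, mul_pow] at hdvd2
    exact hcop2.dvd_of_dvd_mul_right hdvd2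
  have h7 : t ≤ (h' + 1) ^ 2 := Nat.le_of_dvd (by positivity) h6
  have hk1 : k = 1 := by
    by_contra hne
    have hk2 : 2 ≤ k := by omega
    have h8 : (h' + 1) * (1 + k * h') ≤ (h' + 1) * (h' + 1) := by
      rw [← ht2, ← pow_two]
      exact h7
    have h9 : 1 + k * h' ≤ h' + 1 := Nat.le_of_mul_le_mul_left h8 (by omega)
    have h10 : 2 * h' ≤ k * h' := Nat.mul_le_mul_right _ hk2
    omega
  rw [hk1, mul_one] at hk
  rw [ht2, hk1, hk]
  ring

theorem card_TL (hflag : SharplyFlagTransitive A G) {p : P} {L M : Set P}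
    (hfin : Finite P)
    (hL : L ∈ A.lines) (hpL : p ∈ L) (hM : M ∈ A.lines) (hpM : p ∈ M) :
    Nat.card (TL A G hG M) ≤ Nat.card (TL A G hG L) := by
  obtain ⟨g, ⟨hg, _, hgL⟩, _⟩ := hflag p M hM hpM p L hL hpL
  let f : TL A G hG M → TL A G hG L := fun t => ⟨g * t.1 * g⁻¹, by
    have h1 := conj_mem_TL (hG := hG) hg t.2
    rwa [hgL] at h1⟩
  refine Nat.card_le_card_of_injective f ?_
  intro t u h
  have h1 : g * t.1 * g⁻¹ = g * u.1 * g⁻¹ := congrArg Subtype.val h
  exact Subtype.ext (mul_left_cancel (mul_right_cancel h1))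

theorem card_T (hn2 : 2 ≤ n) (hflag : SharplyFlagTransitive A G) (hfin : Finite P) {p : P}
    {L : Set P} (hL : L ∈ A.lines) (hpL : p ∈ L) :
    Nat.card (T A G hG) = 1 + (n + 1) * (Nat.card (TL A G hG L) - 1) := by
  classical
  have := Fintype.ofFinite P
  let S : Finset (Equiv.Perm P) := (Finset.univ.filter (fun t => t ∈ T A G hG)).erase 1
  have hpen : {M | M ∈ A.lines ∧ p ∈ M}.Finite := Set.toFinite _
  let f : Equiv.Perm P → Set P := fun t =>
    if h : ∃ M ∈ A.lines, p ∈ M ∧ t ∈ TL A G hG M then h.choose else ∅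
  have hf : ∀ t ∈ S, f t ∈ A.lines ∧ p ∈ f t ∧ t ∈ TL A G hG (f t) := by
    intro t ht
    have h1 : t ∈ T A G hG := (Finset.mem_filter.1 (Finset.mem_of_mem_erase ht)).2
    have h2 := exists_TL hn2 p h1
    have h3 : f t = h2.choose := dif_pos h2
    rw [h3]
    exact h2.choose_spec
  have hmaps : ∀ t ∈ S, f t ∈ hpen.toFinset := by
    intro t ht
    rw [Set.Finite.mem_toFinset]
    exact ⟨(hf t ht).1, (hf t ht).2.1⟩
  have h1 := Finset.card_eq_sum_card_fiberwise hmaps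
  have hS : S.card + 1 = Nat.card (T A G hG) := by
    have h2 : (Finset.univ.filter (fun t => t ∈ T A G hG)).card = Nat.card (T A G hG) := by
      rw [← Set.ncard_coe_finset]
      simp only [Finset.coe_filter, Finset.mem_univ, true_and]
      rfl
    rw [← h2]
    exact Finset.card_erase_add_one (Finset.mem_filter.2 ⟨Finset.mem_univ _, Subgroup.one_mem _⟩)
  have hfib : ∀ M ∈ hpen.toFinset, (S.filter (fun t => f t = M)).card =
      Nat.card (TL A G hG L) - 1 := by
    intro M hM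
    rw [Set.Finite.mem_toFinset] at hM
    have h3 : Nat.card (TL A G hG L) = Nat.card (TL A G hG M) :=
      le_antisymm (card_TL hflag hfin hM.1 hM.2 hL hpL) (card_TL hflag hfin hL hpL hM.1 hM.2)
    have h4 : S.filter (fun t => f t = M) =
        (Finset.univ.filter (fun t => t ∈ TL A G hG M)).erase 1 := by
      ext t
      constructor
      · intro ht
        have ht' := Finset.mem_filter.1 ht
        have h5 := (hf t ht'.1).2.2
        rw [ht'.2] at h5
        exact Finset.mem_erase.2 ⟨Finset.ne_of_mem_erase ht'.1,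
          Finset.mem_filter.2 ⟨Finset.mem_univ _, h5⟩⟩
      · intro ht
        have ht' := Finset.mem_erase.1 ht
        have htM := (Finset.mem_filter.1 ht'.2).2
        have htS : t ∈ S :=
          Finset.mem_erase.2 ⟨ht'.1, Finset.mem_filter.2 ⟨Finset.mem_univ _, htM.1⟩⟩
        refine Finset.mem_filter.2 ⟨htS, ?_⟩
        by_contra hne
        exact ht'.1 (TL_inf hn2 hflag (hf t htS).1 hM.1 (hf t htS).2.1 hM.2 hne
          (hf t htS).2.2 htM)
    rw [h4, h3, Finset.card_erase_of_mem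
      (Finset.mem_filter.2 ⟨Finset.mem_univ _, Subgroup.one_mem _⟩)]
    congr 1
    rw [← Set.ncard_coe_finset]
    simp only [Finset.coe_filter, Finset.mem_univ, true_and]
    rfl
  rw [Finset.sum_congr rfl hfib, Finset.sum_const, smul_eq_mul] at h1
  have h5 : hpen.toFinset.card = n + 1 := by
    rw [← Set.ncard_eq_toFinset_card _ hpen]
    exact ncard_pencil A hn2 p
  rw [h5] at h1
  omega

end IT2

/-- the elements of `G` which are dilatations act regularly on the points and form an elementary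
abelian 2-group -/
theorem dil_regular {A : AffinePlane P n} {G : Subgroup (Equiv.Perm P)}
    (hn : Even n) (hn2 : 2 ≤ n) (hG : IsCollineationGroup A G)
    (hflag : SharplyFlagTransitive A G) :
    (∀ p q : P, ∃ t ∈ G, IsDil A t ∧ t p = q) ∧
    (∀ t ∈ G, IsDil A t → ∀ p, t p = p → t = 1) ∧
    (∀ t ∈ G, IsDil A t → t * t = 1) ∧
    (∀ t ∈ G, ∀ u ∈ G, IsDil A t → IsDil A u → t * u = u * t) := by
  classical
  have hPfin : Finite P := by
    apply Nat.finite_of_card_ne_zero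
    rw [A.card_points]
    positivity
  have hPne : Nonempty P := by
    have h : 0 < Nat.card P := by
      rw [A.card_points]
      positivity
    exact (Nat.card_pos_iff.1 h).1
  obtain ⟨p0⟩ := hPne
  have hinv := IT2.exists_involution hn hn2 hG hflag
  have hnt : ∀ p : P, ∀ M ∈ A.lines, p ∈ M → ∃ u ∈ IT2.TL A G hG M, u ≠ 1 := by
    intro p M hM hpM
    obtain ⟨u, hu, hu1, _⟩ := hinv p M hM hpM
    exact ⟨u, hu, hu1⟩
  have hsq : ∀ t ∈ IT2.T A G hG, t * t = 1 := fun t ht =>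
    IT2.sq_eq_one hn2 hflag p0 (hinv p0) ht
  have hfree : ∀ t ∈ IT2.T A G hG, ∀ p, t p = p → t = 1 := fun t ht p hp =>
    IT2.eq_one_of_fixed hn2 hflag ht hp
  have hcard : Nat.card (IT2.T A G hG) = n ^ 2 := by
    obtain ⟨L, hL, hpL⟩ := IT2.exists_line_mem A hn2 p0
    have h1 := IT2.card_T (hG := hG) hn2 hflag hPfin hL hpL
    have h2 : 2 ≤ Nat.card (IT2.TL A G hG L) := by
      obtain ⟨u, hu, hu1⟩ := hnt p0 L hL hpL
      have h3 : 1 < Nat.card (IT2.TL A G hG L) := by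
        rw [Finite.one_lt_card_iff_nontrivial]
        exact ⟨⟨u, hu⟩, 1, fun h => hu1 (congrArg Subtype.val h)⟩
      omega
    have hle : IT2.TL A G hG L ≤ IT2.T A G hG := fun t ht => ht.1
    have h3 : Nat.card (IT2.TL A G hG L) ∣ Nat.card (IT2.T A G hG) :=
      Subgroup.card_dvd_of_le hle
    have h4 : IsPGroup 2 (IT2.T A G hG) := by
      intro t
      refine ⟨1, ?_⟩
      rw [pow_one, pow_two]
      exact Subtype.ext (hsq t.1 t.2)
    have : Fact (Nat.Prime 2) := ⟨Nat.prime_two⟩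
    obtain ⟨j, hj⟩ := IsPGroup.iff_card.1 h4
    have h5 : Nat.card (IT2.T A G hG) ∣ n ^ 2 := by
      rw [← A.card_points]
      have hstab : ∀ b : P, MulAction.stabilizer (IT2.T A G hG) b = ⊥ := by
        intro b
        rw [eq_bot_iff]
        intro t ht
        rw [Subgroup.mem_bot]
        exact Subtype.ext (hfree t.1 t.2 b ht)
      rw [Nat.card_congr (MulAction.selfEquivOrbitsQuotientProd hstab), Nat.card_prod]
      exact Dvd.intro_left _ rfl
    exact IT2.arith (by omega) h2 h1 hj h3 h5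
  refine ⟨?_, fun t ht ht' => hfree t ⟨ht, ht'⟩, fun t ht ht' => hsq t ⟨ht, ht'⟩, ?_⟩
  · intro p q
    let f : IT2.T A G hG → P := fun t => t.1 p
    have hf : Function.Injective f := by
      intro t u htu
      have h1 : (u.1⁻¹ * t.1) p = p := by
        rw [Equiv.Perm.mul_apply]
        have h2 : t.1 p = u.1 p := htu
        rw [h2, ← Equiv.Perm.mul_apply, inv_mul_cancel, Equiv.Perm.one_apply]
      have h2 := hfree _ (Subgroup.mul_mem _ (Subgroup.inv_mem _ u.2) t.2) p h1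
      exact Subtype.ext (inv_mul_eq_one.1 h2).symm
    have hbij : Function.Bijective f :=
      (Nat.bijective_iff_injective_and_card f).2 ⟨hf, by rw [hcard, A.card_points]⟩
    obtain ⟨t, ht⟩ := hbij.2 q
    exact ⟨t.1, t.2.1, t.2.2, ht⟩
  · intro t ht u hu ht' hu'
    exact IT2.comm hn2 hflag p0 (hnt p0) ⟨ht, ht'⟩ (⟨hu, hu'⟩ : u ∈ IT2.T A G hG)

end Pool.Agent.Lib.CPlane
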