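import Pool.Agent.Lib.CPlane.Aff

/-!
# The group of translations contained in `G`: definitions
-/

namespace Pool.Agent.Lib.CPlane

variable {P : Type} {n : ℕ}

/-- parallel: equal or disjoint -/
def Par (L M : Set P) : Prop := L = M ∨ Disjoint L M

/-- `t` maps every line onto a parallel line -/
def IsDil (A : AffinePlane P n) (t : Equiv.Perm P) : Prop :=
  ∀ L ∈ A.lines, (t : P → P) '' L ∈ A.lines ∧ Par ((t : P → P) '' L) L

/-- `δ` is a collineation which fixes every line through `o` -/
def IsHom (A : AffinePlane P n) (o : P) (δ : Equiv.Perm P) : Prop :=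
  (∀ L ∈ A.lines, (δ : P → P) '' L ∈ A.lines) ∧ ∀ L ∈ A.lines, o ∈ L → (δ : P → P) '' L = L

end Pool.Agent.Lib.CPlane
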