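import Pool.Agent.Lib.CPlane.Leaf2
import Pool.Agent.Lib.CPlane.LFDefs

/-!
# The mortal case: a leaf prime which dies divides an element of `E[W_(X+d)]`
-/

namespace Pool.Agent.Lib.CPlane.LF

open MvPolynomial Pool.Agent.Lib.CPlane.Leaf

variable {E I : Type} [Field E] [Fintype I]

/-- the rows `g_(k+d)`, `y_(k+d)`, `k ∈ X` -/
def rowsX (g y : ℕ → I → E) (X : Set ℕ) (d : ℕ) : Set (I → E) :=
  {lam | ∃ k ∈ X, lam = g (k + d) ∨ lam = y (k + d)}

/-- the death step -/
theorem death (v : I → E) (S : Set (I → E)) (hS : ∀ lam ∈ S, ∑ i, lam i * v i = 0)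
    {P w0 w1 A B : MvPolynomial I E} (hP : Prime P) (hAB : w0 * B = w1 * A) (h0 : P ∣ w0)
    (h1 : ¬ P ∣ w1) (hA : A ∈ Algebra.adjoin E (lf '' S)) (hA0 : A ≠ 0) :
    tr v P = Polynomial.C P := by
  refine tr_divisor v S hS hA hA0 ?_
  have h2 : P ∣ w1 * A := hAB ▸ h0.mul_right B
  exact (hP.dvd_or_dvd h2).resolve_left h1

/-- double orthogonal space -/
theorem mem_span_of_perp (S : Set (I → E)) (lam : I → E)
    (h : ∀ v : I → E, (∀ mu ∈ S, ∑ i, mu i * v i = 0) → ∑ i, lam i * v i = 0) :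
    lam ∈ Submodule.span E S := by
  classical
  by_contra hn
  obtain ⟨f, hf, hfS⟩ := Submodule.exists_le_ker_of_notMem hn
  apply hf
  have hfv : ∀ mu : I → E, f mu = ∑ i, mu i * f (Pi.single i 1) := by
    intro mu
    conv_lhs => rw [pi_eq_sum_univ' mu]
    rw [map_sum]
    refine Finset.sum_congr rfl fun i _ => ?_
    rw [map_smul, smul_eq_mul]
  rw [hfv]
  apply h
  intro mu hmu
  rw [← hfv]
  exact hfS (Submodule.subset_span hmu)

/-- (MORTAL) if `P` is full and closed then it never dies -/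
theorem never_dies (g y : ℕ → I → E) (X : Set ℕ) (C : Set ℕ) (wF : ℕ → MvPolynomial I E)
    {P : MvPolynomial I E} (hP : Prime P) (h0 : P ∣ wF 0)
    (hCA : ∀ d, ∃ A B : MvPolynomial I E, A ≠ 0 ∧
      A ∈ Algebra.adjoin E (lf '' rowsX g y X d) ∧ wF d * B = wF (d + 1) * A)
    (hfull : ∀ v : I → E, tr v P = Polynomial.C P →
      ∀ l ∈ C, ∑ i, g l i * v i = 0 ∧ ∑ i, y l i * v i = 0)
    (hclosed : ∀ d, (∀ l ∈ C, g l ∈ Submodule.span E (rowsX g y X d) ∧
      y l ∈ Submodule.span E (rowsX g y X d)) → P ∣ wF (d + 1)) :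
    ∀ d, P ∣ wF d := by
  intro d
  induction d with
  | zero => exact h0
  | succ d ih =>
    by_contra hnd
    obtain ⟨A, B, hA0, hA, hAB⟩ := hCA d
    apply hnd
    apply hclosed d
    intro l hl
    constructor
    · exact mem_span_of_perp _ _ fun v hv =>
        (hfull v (death v _ hv hP hAB ih hnd hA hA0) l hl).1
    · exact mem_span_of_perp _ _ fun v hv =>
        (hfull v (death v _ hv hP hAB ih hnd hA hA0) l hl).2

/-- (MORTAL), general form: at every time `d` a set `S` of forms may be chosen -/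
theorem never_dies' (g y : ℕ → I → E) (C : Set ℕ) (wF : ℕ → MvPolynomial I E)
    {P : MvPolynomial I E} (hP : Prime P) (h0 : P ∣ wF 0)
    (hfull : ∀ v : I → E, tr v P = Polynomial.C P →
      ∀ l ∈ C, ∑ i, g l i * v i = 0 ∧ ∑ i, y l i * v i = 0)
    (hCA : ∀ d, ∃ (S : Set (I → E)) (A B : MvPolynomial I E), A ≠ 0 ∧
      A ∈ Algebra.adjoin E (lf '' S) ∧ A * wF (d + 1) = B * wF d ∧
      ((∀ l ∈ C, g l ∈ Submodule.span E S ∧ y l ∈ Submodule.span E S) → P ∣ wF (d + 1))) :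
    ∀ d, P ∣ wF d := by
  intro d
  induction d with
  | zero => exact h0
  | succ d ih =>
    by_contra hnd
    obtain ⟨S, A, B, hA0, hA, hAB, hcl⟩ := hCA d
    apply hnd
    have hAB' : wF d * B = wF (d + 1) * A := by rw [mul_comm (wF d), ← hAB, mul_comm]
    refine hcl fun l hl => ⟨?_, ?_⟩
    · exact mem_span_of_perp _ _ fun v hv =>
        (hfull v (death v _ hv hP hAB' ih hnd hA hA0) l hl).1
    · exact mem_span_of_perp _ _ fun v hv =>
        (hfull v (death v _ hv hP hAB' ih hnd hA hA0) l hl).2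

/-! ## the Frobenius twist of the relation `w_(F_0) B = w_(F_1) A` -/

section frob

variable [CharP E 2]

/-- Frobenius on the coefficients -/
noncomputable def Fr : MvPolynomial I E →+* MvPolynomial I E :=
  have : Fact (Nat.Prime 2) := ⟨Nat.prime_two⟩
  MvPolynomial.map (frobenius E 2)

omit [Fintype I] in
theorem Fr_C (c : E) : Fr (C c : MvPolynomial I E) = C (c ^ 2) := by
  have : Fact (Nat.Prime 2) := ⟨Nat.prime_two⟩
  rw [Fr, map_C, frobenius_def]

omit [Fintype I] in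
theorem Fr_X (i : I) : Fr (X i : MvPolynomial I E) = X i := by
  rw [Fr, map_X]

omit [Fintype I] in
theorem Fr_injective : Function.Injective (Fr : MvPolynomial I E →+* MvPolynomial I E) := by
  have : Fact (Nat.Prime 2) := ⟨Nat.prime_two⟩
  exact MvPolynomial.map_injective _ (frobenius E 2).injective

theorem Fr_lf (lam : I → E) : Fr (lf lam) = lf (fun i => lam i ^ 2) := by
  unfold lf
  rw [map_sum]
  exact Finset.sum_congr rfl fun i _ => by rw [map_mul, Fr_C, Fr_X]

theorem Fr_mem_adjoin {S T : Set (I → E)} (hST : ∀ lam ∈ S, (fun i => lam i ^ 2) ∈ T)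
    {A : MvPolynomial I E} (hA : A ∈ Algebra.adjoin E (lf '' S)) :
    Fr A ∈ Algebra.adjoin E (lf '' T) := by
  induction hA using Algebra.adjoin_induction with
  | mem x hx =>
    obtain ⟨lam, hlam, rfl⟩ := hx
    rw [Fr_lf]
    exact Algebra.subset_adjoin ⟨_, hST lam hlam, rfl⟩
  | algebraMap r =>
    rw [algebraMap_eq, Fr_C]
    exact Subalgebra.algebraMap_mem _ (r ^ 2)
  | add x y _ _ hx hy =>
    rw [map_add]
    exact add_mem hx hy
  | mul x y _ _ hx hy =>
    rw [map_mul]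
    exact mul_mem hx hy

omit [Fintype I] [CharP E 2] in
theorem rowsX_succ (g y : ℕ → I → E) (hg : ∀ k i, g (k + 1) i = g k i ^ 2)
    (hy : ∀ k i, y (k + 1) i = y k i ^ 2) (X : Set ℕ) (d : ℕ) :
    ∀ lam ∈ rowsX g y X d, (fun i => lam i ^ 2) ∈ rowsX g y X (d + 1) := by
  rintro lam ⟨k, hk, rfl | rfl⟩
  · exact ⟨k, hk, Or.inl (funext fun i => (hg _ i).symm)⟩
  · exact ⟨k, hk, Or.inr (funext fun i => (hy _ i).symm)⟩

/-- the relation at all times -/
theorem ca_all (g y : ℕ → I → E) (hg : ∀ k i, g (k + 1) i = g k i ^ 2)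
    (hy : ∀ k i, y (k + 1) i = y k i ^ 2) (X : Set ℕ) (wF : ℕ → MvPolynomial I E)
    (hFr : ∀ d, Fr (wF d) = wF (d + 1))
    (hCA : ∃ A B : MvPolynomial I E, A ≠ 0 ∧
      A ∈ Algebra.adjoin E (lf '' rowsX g y X 0) ∧ wF 0 * B = wF 1 * A) :
    ∀ d, ∃ A B : MvPolynomial I E, A ≠ 0 ∧
      A ∈ Algebra.adjoin E (lf '' rowsX g y X d) ∧ wF d * B = wF (d + 1) * A := by
  intro d
  induction d with
  | zero => exact hCA
  | succ d ih =>
    obtain ⟨A, B, hA0, hA, hAB⟩ := ih
    refine ⟨Fr A, Fr B, ?_, Fr_mem_adjoin (rowsX_succ g y hg hy X d) hA, ?_⟩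
    · intro h
      exact hA0 (Fr_injective (by rw [h, map_zero]))
    · rw [← hFr d, ← hFr (d + 1), ← map_mul, hAB, map_mul]

end frob

end Pool.Agent.Lib.CPlane.LF
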