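import Pool.Agent.Lib.CPlane.LFGlue
import Pool.Agent.Lib.CPlane.LFMort

/-!
# Leaf module: bidegrees, Frobenius, the forms occurring in `w_C`
-/

set_option autoImplicit false
set_option linter.unusedSectionVars false

namespace Pool.Agent.Lib.CPlane.LF

open MvPolynomial Pool.Agent.Lib.CPlane.Leaf

variable {E I C D A : Type} [Field E] [CommRing A] [Fintype I] [DecidableEq I] [DecidableEq C]

/-! ## scaling -/

/-- multiply the coordinates outside `pG` by `s` -/
def sc (pG : I → Prop) [DecidablePred pG] (s : A) (x : I → A) (i : I) : A :=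
  if pG i then x i else s * x i

theorem dt_col (ep : I ≃ Option C ⊕ D) (c : I → A) (μ : I → A) (r : C → I → A) (ν : D → I → A) :
    dt ep (fun i => c i * μ i) (fun l i => c i * r l i) (fun d i => c i * ν d i) =
      (∏ i, c i) * dt ep μ r ν := by
  rw [dt, dt, ← Matrix.det_mul_row]
  congr 1
  ext i j
  simp only [Mx, Matrix.of_apply]
  rcases ep i with o | d
  · rcases o with _ | l <;> simp
  · simp

theorem dt_rows [Fintype C] [Fintype D] (ep : I ≃ Option C ⊕ D) (c0 : A) (c : C → A) (cn : D → A)
    (μ : I → A) (r : C → I → A) (ν : D → I → A) :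
    dt ep (fun i => c0 * μ i) (fun l i => c l * r l i) (fun d i => cn d * ν d i) =
      (c0 * (∏ l, c l) * ∏ d, cn d) * dt ep μ r ν := by
  have h := Matrix.det_mul_column (fun i => Sum.elim (fun o : Option C => o.elim c0 c) cn (ep i))
    (Mx ep μ r ν)
  have e : (∏ i, Sum.elim (fun o : Option C => o.elim c0 c) cn (ep i)) =
      c0 * (∏ l, c l) * ∏ d, cn d := by
    rw [Equiv.prod_comp ep (fun s => Sum.elim (fun o : Option C => o.elim c0 c) cn s),
      Fintype.prod_sum_type, Fintype.prod_option]
    rfl
  rw [e] at h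
  rw [dt, dt, ← h]
  congr 1
  ext i j
  simp only [Mx, Matrix.of_apply]
  rcases ep i with o | d
  · rcases o with _ | l <;> simp
  · simp

theorem prod_ite_pow {κ : Type} [Fintype κ] (p : κ → Prop) [DecidablePred p] (s : A) :
    (∏ i, if p i then s else 1) = s ^ Fintype.card {i // p i} := by
  rw [Finset.prod_ite, Finset.prod_const_one, mul_one, Finset.prod_const, Fintype.card_subtype]

/-- `s^f w(x) = s^(1 + a) w(x_G, s x_Y)`, `f` = number of `G`-coordinates, `a` = number of
completing rows of type `G` -/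
theorem wx_scale [Algebra E A] [Fintype C] [Fintype D] (ep : I ≃ Option C ⊕ D)
    (g y : C → I → E) (ν : D → I → E) (pG : I → Prop) [DecidablePred pG] (dG : D → Prop)
    [DecidablePred dG] (hg : ∀ l i, ¬ pG i → g l i = 0) (hy : ∀ l i, pG i → y l i = 0)
    (hν : ∀ d i, dG d → ¬ pG i → ν d i = 0) (hν' : ∀ d i, ¬ dG d → pG i → ν d i = 0)
    (k : C) (s : A) (x : I → A) :
    s ^ Fintype.card {i // pG i} * wx ep g y ν k x =
      s ^ (1 + Fintype.card {d // dG d}) * wx ep g y ν k (sc pG s x) := by
  set c : I → A := fun i => if pG i then s else 1 with hc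
  have hevg : ∀ l, ev (am (g l)) (sc pG s x) = ev (am (g l)) x := by
    intro l
    refine Finset.sum_congr rfl fun i _ => ?_
    by_cases h : pG i
    · simp [sc, h]
    · simp [am, hg l i h]
  have hevy : ∀ l, ev (am (y l)) (sc pG s x) = s * ev (am (y l)) x := by
    intro l
    rw [ev, ev, Finset.mul_sum]
    refine Finset.sum_congr rfl fun i _ => ?_
    by_cases h : pG i
    · simp [am, hy l i h]
    · simp only [sc, if_neg h]; ring
  rw [← prod_ite_pow, wx, ← hc, ← dt_col]
  have e1 : (fun i => c i * am (y k) i) = fun i => (1 : A) * am (y k) i := by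
    ext1 i
    by_cases h : pG i
    · simp [am, hy k i h]
    · simp [hc, h]
  have e2 : (fun l i => c i * Function.update (fun l => al (am (g l)) (am (y l)) x) k
      (am (g k)) l i) = fun l i => (if l = k then s else 1) * Function.update
        (fun l => al (am (g l)) (am (y l)) (sc pG s x)) k (am (g k)) l i := by
    ext1 l; ext1 i
    by_cases hl : l = k
    · subst hl
      rw [Function.update_self, Function.update_self, if_pos rfl]
      by_cases h : pG i
      · simp [hc, h]
      · simp [am, hg l i h]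
    · rw [Function.update_of_ne hl, Function.update_of_ne hl, if_neg hl, one_mul]
      simp only [al, hevg, hevy]
      by_cases h : pG i
      · simp [hc, h, am, hy l i h]; ring
      · simp [hc, h, am, hg l i h]
  have e3 : (fun d i => c i * am (ν d) i) = fun d i => (if dG d then s else 1) *
      (am (ν d) i : A) := by
    ext1 d; ext1 i
    by_cases hd : dG d
    · by_cases h : pG i
      · simp [hc, h, hd]
      · simp [am, hν d i hd h]
    · by_cases h : pG i
      · simp [am, hν' d i hd h]
      · simp [hc, h, hd]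
  have e4 : (∏ l : C, if l = k then s else 1) = s := by
    rw [Finset.prod_ite_eq' Finset.univ k (fun _ => s)]; simp
  rw [e1, e2, e3, dt_rows, e4, prod_ite_pow, one_mul, pow_add, pow_one, wx]

/-- the degree in the coordinates outside `pG`: ring homomorphism to `E[x][s]` -/
noncomputable def th (pG : I → Prop) [DecidablePred pG] :
    MvPolynomial I E →ₐ[E] Polynomial (MvPolynomial I E) :=
  aeval (sc pG Polynomial.X fun i => Polynomial.C (X i))

omit [Fintype I] in
theorem th_eval_one (pG : I → Prop) [DecidablePred pG] (P : MvPolynomial I E) :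
    (th pG P).eval 1 = P := by
  have h : ((Polynomial.evalRingHom (1 : MvPolynomial I E)).comp (th pG).toRingHom) =
      RingHom.id _ := by
    apply MvPolynomial.ringHom_ext
    · intro r
      have h1 : th pG (C r : MvPolynomial I E) = Polynomial.C (C r) := (th pG).commutes r
      simp [h1]
    · intro i
      simp only [AlgHom.toRingHom_eq_coe, RingHom.coe_comp, RingHom.coe_coe, Function.comp_apply,
        RingHom.id_apply, th, aeval_X, sc]
      split_ifs <;> simp
  have h2 := congrArg (fun f => f P) h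
  simpa using h2

omit [Fintype I] in
theorem th_ne_zero (pG : I → Prop) [DecidablePred pG] {P : MvPolynomial I E} (hP : P ≠ 0) :
    th pG P ≠ 0 := by
  intro h
  apply hP
  rw [← th_eval_one pG P, h, Polynomial.eval_zero]

/-- the degree in the coordinates outside `pG` -/
noncomputable def dg (pG : I → Prop) [DecidablePred pG] (P : MvPolynomial I E) : ℕ :=
  (th pG P).natDegree

omit [Fintype I] in
theorem dg_mul (pG : I → Prop) [DecidablePred pG] {P Q : MvPolynomial I E} (hP : P ≠ 0)
    (hQ : Q ≠ 0) : dg pG (P * Q) = dg pG P + dg pG Q := by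
  rw [dg, map_mul, Polynomial.natDegree_mul (th_ne_zero pG hP) (th_ne_zero pG hQ), dg, dg]

omit [Fintype I] in
theorem dg_prod (pG : I → Prop) [DecidablePred pG] {κ : Type} (S : Finset κ)
    (P : κ → MvPolynomial I E) (hP : ∀ k ∈ S, P k ≠ 0) :
    dg pG (∏ k ∈ S, P k) = ∑ k ∈ S, dg pG (P k) := by
  rw [dg, map_prod, Polynomial.natDegree_prod _ _ fun k hk => th_ne_zero pG (hP k hk)]
  rfl

omit [Fintype I] in
theorem dg_le_of_dvd (pG : I → Prop) [DecidablePred pG] {P Q : MvPolynomial I E} (h : P ∣ Q)
    (hQ : Q ≠ 0) : dg pG P ≤ dg pG Q := by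
  obtain ⟨R, rfl⟩ := h
  have hP : P ≠ 0 := left_ne_zero_of_mul hQ
  have hR : R ≠ 0 := right_ne_zero_of_mul hQ
  rw [dg_mul pG hP hR]
  exact Nat.le_add_right _ _

/-- the degree of `w_C`: `dg + 1 + a = f` -/
theorem dg_wC [Fintype C] [Fintype D] (ep : I ≃ Option C ⊕ D)
    (g y : C → I → E) (ν : D → I → E) (pG : I → Prop) [DecidablePred pG] (dG : D → Prop)
    [DecidablePred dG] (hg : ∀ l i, ¬ pG i → g l i = 0) (hy : ∀ l i, pG i → y l i = 0)
    (hν : ∀ d i, dG d → ¬ pG i → ν d i = 0) (hν' : ∀ d i, ¬ dG d → pG i → ν d i = 0)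
    (k : C) (hw : wC ep g y ν k ≠ 0) :
    dg pG (wC ep g y ν k) + (1 + Fintype.card {d // dG d}) = Fintype.card {i // pG i} := by
  have h := wx_scale ep g y ν pG dG hg hy hν hν' k (Polynomial.X : Polynomial (MvPolynomial I E))
    (fun i => Polynomial.C (X i))
  have h1 : wx ep g y ν k (fun i => (Polynomial.C (X i) : Polynomial (MvPolynomial I E))) =
      Polynomial.C (wC ep g y ν k) := by
    rw [← aeval_wx]
    have e : (aeval fun i => (Polynomial.C (X i) : Polynomial (MvPolynomial I E))) =
        Leaf.cst I E := by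
      apply MvPolynomial.algHom_ext
      intro i
      rw [aeval_X, cst_apply]
    rw [e, cst_apply]
  have h2 : wx ep g y ν k (sc pG (Polynomial.X : Polynomial (MvPolynomial I E))
      (fun i => Polynomial.C (X i))) = th pG (wC ep g y ν k) := by
    rw [← aeval_wx]; rfl
  rw [h1, h2] at h
  have h3 := congrArg Polynomial.natDegree h
  rw [Polynomial.natDegree_mul (pow_ne_zero _ Polynomial.X_ne_zero)
      (by rwa [Ne, Polynomial.C_eq_zero]), Polynomial.natDegree_X_pow, Polynomial.natDegree_C,
    Polynomial.natDegree_mul (pow_ne_zero _ Polynomial.X_ne_zero) (th_ne_zero pG hw),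
    Polynomial.natDegree_X_pow] at h3
  rw [dg]
  omega

/-- `w_C` is symmetric in `g` and `y` -/
theorem wC_symm [CharP E 2] (ep : I ≃ Option C ⊕ D) (g y : C → I → E) (ν : D → I → E) (k : C) :
    wC ep y g ν k = wC ep g y ν k := by
  rw [wC, wC, dt_swap]
  congr 2
  ext1 l
  ext1 i
  simp only [al]
  ring

/-! ## Frobenius -/

theorem Fr_wC [CharP E 2] (ep : I ≃ Option C ⊕ D) (g y : C → I → E) (ν : D → I → E) (k : C) :
    Fr (wC ep g y ν k) = wC ep (fun l i => g l i ^ 2) (fun l i => y l i ^ 2)
      (fun d i => ν d i ^ 2) k := by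
  rw [wC, wC, dt_map]
  congr 1
  · ext1 i; simp [cs, Fr_C]
  · ext1 l; ext1 i
    by_cases h : l = k
    · subst h; simp [cs, Fr_C]
    · rw [Function.update_of_ne h, Function.update_of_ne h]
      simp [al, ev, cs, Fr_C, Fr_X, map_sum]
  · ext1 d; ext1 i; simp [cst, Fr_C]

/-! ## the forms occurring in `w_C` -/

theorem det_mem [Algebra E A] (S : Subalgebra E A) (M : Matrix I I A) (h : ∀ i j, M i j ∈ S) :
    M.det ∈ S := by
  rw [Matrix.det_apply]
  refine sum_mem fun σ _ => ?_
  rw [Units.smul_def]
  exact zsmul_mem (prod_mem fun i _ => h _ _) _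

theorem ev_cs_X (v : I → E) : ev (cs v) (X : I → MvPolynomial I E) = lf v := rfl

/-- `w_C` is a polynomial in the forms `g_l, y_l` -/
theorem wC_mem (ep : I ≃ Option C ⊕ D) (g y : C → I → E) (ν : D → I → E) (k : C) (S : Set (I → E))
    (hg : ∀ l, g l ∈ S) (hy : ∀ l, y l ∈ S) :
    wC ep g y ν k ∈ Algebra.adjoin E (lf '' S) := by
  have hc : ∀ c : E, (MvPolynomial.C c : MvPolynomial I E) ∈ Algebra.adjoin E (lf '' S) :=
    fun c => Subalgebra.algebraMap_mem _ c
  apply det_mem
  intro i j
  simp only [Mx, Matrix.of_apply]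
  rcases ep i with o | d
  · rcases o with _ | l
    · exact hc _
    · by_cases h : l = k
      · subst h
        simpa [cs] using hc _
      · simp only [Sum.elim_inl, Option.elim_some, Function.update_of_ne h, al, ev_cs_X]
        exact add_mem (mul_mem (Algebra.subset_adjoin ⟨_, hy l, rfl⟩) (hc _))
          (mul_mem (Algebra.subset_adjoin ⟨_, hg l, rfl⟩) (hc _))
  · exact hc _

end Pool.Agent.Lib.CPlane.LF
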