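import Pool.Agent.Lib.CPlane.LFDefs

/-!
# Leaf module: block triangular divisibility, independence of the distinguished index
-/

set_option autoImplicit false
set_option linter.unusedSectionVars false

namespace Pool.Agent.Lib.CPlane.LF

open MvPolynomial

variable {E I C D A : Type} [Field E] [CommRing A] [Fintype I] [DecidableEq I] [DecidableEq C]

/-- in characteristic two the order of the rows is irrelevant -/
theorem det_perm [CharP A 2] {κ : Type} (ep ep' : I ≃ κ) (R : κ → I → A) :
    (Matrix.of fun i j => R (ep i) j).det = (Matrix.of fun i j => R (ep' i) j).det := by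
  have h := Matrix.det_permute (ep.trans ep'.symm) (Matrix.of fun i j => R (ep' i) j)
  have e : (Matrix.of fun i j => R (ep' i) j).submatrix (ep.trans ep'.symm) id =
      Matrix.of fun i j => R (ep i) j := by
    ext i j; simp
  rw [e] at h
  rw [h]
  rcases Int.units_eq_one_or (Equiv.Perm.sign (ep.trans ep'.symm)) with h1 | h1 <;> rw [h1] <;>
    simp [CharTwo.neg_eq]

theorem ev_add (μ μ' x : I → A) : ev (μ + μ') x = ev μ x + ev μ' x := by
  simp [ev, add_mul, Finset.sum_add_distrib]

theorem ev_smul (a : A) (μ x : I → A) : ev (a • μ) x = a * ev μ x := by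
  simp [ev, Finset.mul_sum, mul_assoc]

theorem al_eq (g y x : I → A) : al g y x = ev y x • g + ev g x • y := rfl

theorem ev_al_self [CharP A 2] (g y x : I → A) : ev (al g y x) x = 0 := by
  rw [al_eq, ev_add, ev_smul, ev_smul, mul_comm, CharTwo.add_self_eq_zero]

theorem ev_al (g y x v : I → A) : ev (al g y x) v = ev y x * ev g v + ev g x * ev y v := by
  rw [al_eq, ev_add, ev_smul, ev_smul]

/-- **block formula**: if the rows `μ, r_l` are killed by the vectors `x_d`, dual to `ν_d`, then
replacing `ν` by `ρ` multiplies the determinant by `det (ρ_d (x_d'))` -/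
theorem dt_block [Algebra E A] [Fintype C] [Fintype D] [DecidableEq D] (ep : I ≃ Option C ⊕ D)
    (μ : I → A) (r : C → I → A) (ν : D → I → E) (ρ : D → I → A) (x : D → I → E)
    (b : Option C → I → E)
    (hQ : (Matrix.of fun i j => Sum.elim b x (ep j) i : Matrix I I E).det ≠ 0)
    (hμ : ∀ d, ev μ (fun i => algebraMap E A (x d i)) = 0)
    (hr : ∀ l d, ev (r l) (fun i => algebraMap E A (x d i)) = 0)
    (hν : ∀ d d', ev (ν d) (x d') = if d = d' then 1 else 0) :
    dt ep μ r ρ = dt ep μ r (fun d i => algebraMap E A (ν d i)) *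
      (Matrix.of fun d d' => ev (ρ d) (fun i => algebraMap E A (x d' i))).det := by
  classical
  set Q : Matrix I (Option C ⊕ D) A := Matrix.of fun i s => algebraMap E A (Sum.elim b x s i)
    with hQd
  set q : A := (Q.submatrix id ep).det with hq
  have hunit : IsUnit q := by
    have : q = algebraMap E A (Matrix.of fun i j => Sum.elim b x (ep j) i : Matrix I I E).det := by
      rw [hq, RingHom.map_det]
      rfl
    rw [this]
    exact (IsUnit.mk0 _ hQ).map _
  have key : ∀ ρ' : D → I → A, dt ep μ r ρ' * q =
      (Matrix.of fun s s' => ev (Sum.elim (fun o : Option C => o.elim μ r) ρ' s)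
        (fun i => Q i s')).det := by
    intro ρ'
    rw [dt, hq, ← Matrix.det_mul, ← Matrix.det_submatrix_equiv_self ep
      (Matrix.of fun s s' => ev (Sum.elim (fun o : Option C => o.elim μ r) ρ' s)
        (fun i => Q i s'))]
    rfl
  have blk : ∀ ρ' : D → I → A, (Matrix.of fun s s' =>
      ev (Sum.elim (fun o : Option C => o.elim μ r) ρ' s) (fun i => Q i s')).det =
      (Matrix.of fun o o' : Option C => ev (o.elim μ r) (fun i => Q i (Sum.inl o'))).det *
        (Matrix.of fun d d' => ev (ρ' d) (fun i => algebraMap E A (x d' i))).det := by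
    intro ρ'
    rw [← Matrix.det_fromBlocks_zero₁₂ _
      (Matrix.of fun d o' => ev (ρ' d) (fun i => Q i (Sum.inl o')))]
    congr 1
    ext s s'
    rcases s with o | d <;> rcases s' with o' | d'
    · simp
    · simp only [Matrix.of_apply, Sum.elim_inl, Matrix.fromBlocks_apply₁₂, Matrix.zero_apply]
      rcases o with _ | l
      · exact hμ d'
      · exact hr l d'
    · simp
    · simp [hQd]
  have h1 := key ρ
  have h2 := key (fun d i => algebraMap E A (ν d i))
  rw [blk] at h1 h2
  have h3 : (Matrix.of fun d d' => ev (fun i => algebraMap E A (ν d i))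
      (fun i => algebraMap E A (x d' i)) : Matrix D D A) = 1 := by
    ext d d'
    have : ev (fun i => algebraMap E A (ν d i)) (fun i => algebraMap E A (x d' i)) =
        algebraMap E A (ev (ν d) (x d')) := by simp [ev, map_sum]
    rw [Matrix.of_apply, this, hν]
    by_cases h : d = d'
    · subst h; simp
    · simp [h]
  rw [h3, Matrix.det_one, mul_one] at h2
  rw [← h2] at h1
  refine hunit.mul_right_cancel ?_
  rw [h1]; ring

/-- `μ(x) det (μ'; α(x)) = μ'(x) det (μ; α(x))` when all the other rows kill `x` -/
theorem cross [IsDomain A] [CharP A 2] [Nonempty I] (ep : I ≃ Option C ⊕ D) (μ μ' : I → A)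
    (r : C → I → A) (ν : D → I → A) (x : I → A) (hx : x ≠ 0) (hr : ∀ l, ev (r l) x = 0)
    (hν : ∀ d, ev (ν d) x = 0) :
    ev μ x * dt ep μ' r ν = ev μ' x * dt ep μ r ν := by
  have h0 : dt ep (ev μ x • μ' + ev μ' x • μ) r ν = 0 := by
    apply Matrix.exists_mulVec_eq_zero_iff.mp
    refine ⟨x, hx, ?_⟩
    ext i
    have hrow : ∀ s : Option C ⊕ D, ev (Sum.elim (fun o : Option C =>
        o.elim (ev μ x • μ' + ev μ' x • μ) r) ν s) x = 0 := by
      intro s
      rcases s with o | d
      · rcases o with _ | l
        · show ev (ev μ x • μ' + ev μ' x • μ) x = 0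
          rw [ev_add, ev_smul, ev_smul, mul_comm, CharTwo.add_self_eq_zero]
        · exact hr l
      · exact hν d
    exact hrow (ep i)
  rw [dt_mu_add, dt_mu_smul, dt_mu_smul] at h0
  exact CharTwo.add_eq_zero.mp h0

/-! ## the polynomials `w` at a point -/

/-- constants -/
def am [Algebra E A] (v : I → E) (i : I) : A := algebraMap E A (v i)

/-- `w_C(x)` -/
def wx [Algebra E A] (ep : I ≃ Option C ⊕ D) (g y : C → I → E) (ν : D → I → E) (k : C)
    (x : I → A) : A :=
  dt ep (am (y k)) (Function.update (fun l => al (am (g l)) (am (y l)) x) k (am (g k)))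
    (fun d => am (ν d))

theorem aeval_wx [Algebra E A] (ep : I ≃ Option C ⊕ D) (g y : C → I → E) (ν : D → I → E) (k : C)
    (x : I → A) : aeval x (wC ep g y ν k) = wx ep g y ν k x := by
  rw [wC, wx]
  have h1 := dt_map ep (aeval x : MvPolynomial I E →ₐ[E] A).toRingHom
    (cs (y k)) (Function.update (fun l => al (cs (g l)) (cs (y l)) X) k (cs (g k))) (cst ν)
  simp only [AlgHom.toRingHom_eq_coe, RingHom.coe_coe] at h1
  rw [h1]
  congr 1
  · ext1 i; simp [cs, am]
  · ext1 l; ext1 i
    by_cases h : l = k
    · subst h; simp [cs, am]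
    · rw [Function.update_of_ne h, aeval_al, Function.update_of_ne h]; rfl
  · ext1 d; ext1 i; simp [cst, am]

theorem wx_X (ep : I ≃ Option C ⊕ D) (g y : C → I → E) (ν : D → I → E) (k : C) :
    wx ep g y ν k (X : I → MvPolynomial I E) = wC ep g y ν k := by
  rw [← aeval_wx]; simp

theorem dt_al_y [Algebra E A] (ep : I ≃ Option C ⊕ D) (g y : C → I → E) (ν : D → I → E) (k : C)
    (x : I → A) :
    dt ep (am (y k)) (fun l => al (am (g l)) (am (y l)) x) (fun d => am (ν d)) =
      ev (am (y k)) x * wx ep g y ν k x := by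
  have e : (fun l => al (am (g l)) (am (y l)) x) = Function.update
      (fun l => al (am (g l)) (am (y l)) x) k
      (ev (am (y k)) x • am (g k) + ev (am (g k)) x • am (y k)) := by
    rw [← al_eq, Function.update_eq_self]
  rw [e, dt_row_add, dt_row_smul, dt_row_smul,
    dt_mu_eq ep (am (y k)) (Function.update _ k (am (y k))) _ k (by simp), mul_zero, add_zero,
    wx]

/-- for a window (no completing rows) `det (μ; α(x)) = μ(x) w(x)` -/
theorem dt_al [Algebra E A] [IsDomain A] [CharP A 2] [Nonempty I] [IsEmpty D]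
    (ep : I ≃ Option C ⊕ D) (g y : C → I → E) (ν : D → I → E) (k : C) (x : I → A) (hx : x ≠ 0)
    (hk : ev (am (y k)) x ≠ 0) (μ : I → A) :
    dt ep μ (fun l => al (am (g l)) (am (y l)) x) (fun d => am (ν d)) =
      ev μ x * wx ep g y ν k x := by
  have h := cross ep μ (am (y k)) (fun l => al (am (g l)) (am (y l)) x) (fun d => am (ν d)) x hx
    (fun l => ev_al_self _ _ _) (fun d => isEmptyElim d)
  rw [dt_al_y] at h
  apply mul_left_cancel₀ hk
  rw [← h]; ring

/-- independence of the distinguished index, windows -/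
theorem wx_indep [Algebra E A] [IsDomain A] [CharP A 2] [Nonempty I] [IsEmpty D]
    (ep : I ≃ Option C ⊕ D) (g y : C → I → E) (ν : D → I → E) (k k' : C) (x : I → A) (hx : x ≠ 0)
    (hk : ev (am (y k)) x ≠ 0) (hk' : ev (am (y k')) x ≠ 0) :
    wx ep g y ν k x = wx ep g y ν k' x := by
  have h := dt_al ep g y ν k x hx hk (am (y k'))
  rw [dt_al_y] at h
  exact (mul_left_cancel₀ hk' h).symm

theorem ev_X_ne_zero {v : I → E} (hv : v ≠ 0) :
    ev (am v) (X : I → MvPolynomial I E) ≠ 0 := by
  intro h
  apply hv
  ext i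
  have h2 := congrArg (MvPolynomial.coeff (Finsupp.single i 1)) h
  simp only [ev, am, algebraMap_eq, coeff_sum, coeff_C_mul, coeff_X, coeff_zero] at h2
  rw [Finset.sum_eq_single i] at h2
  · simpa using h2
  · intro j _ hj
    rw [if_neg, mul_zero]
    intro hh
    exact hj (Finsupp.single_left_injective one_ne_zero hh)
  · simp

/-- the equivalence of row indices -/
noncomputable def rowEquiv {J : Type} (β : C ⊕ D ≃ J) : Option C ⊕ D ≃ Option J :=
  Equiv.ofBijective (Sum.elim (fun o => o.map (fun l => β (Sum.inl l)))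
    (fun d => some (β (Sum.inr d)))) (by
    constructor
    · rintro (o | d) (o' | d') h
      · rcases o with _ | l <;> rcases o' with _ | l'
        · rfl
        · simp at h
        · simp at h
        · simp only [Sum.elim_inl, Option.map_some, Option.some.injEq,
            EmbeddingLike.apply_eq_iff_eq, Sum.inl.injEq] at h
          rw [h]
      · rcases o with _ | l
        · simp at h
        · simp at h
      · rcases o' with _ | l'
        · simp at h
        · simp at h
      · simp only [Sum.elim_inr, Option.some.injEq, EmbeddingLike.apply_eq_iff_eq,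
          Sum.inr.injEq] at h
        rw [h]
    · rintro (_ | j)
      · exact ⟨Sum.inl none, rfl⟩
      · rcases h : β.symm j with l | d
        · exact ⟨Sum.inl (some l), by simp [← h]⟩
        · exact ⟨Sum.inr d, by simp [← h]⟩)

/-- **`w_C` divides `w_J`** -/
theorem wC_dvd [CharP E 2] [Fintype C] [Fintype D] [DecidableEq D] {J D' : Type}
    [DecidableEq J] [IsEmpty D'] (ep : I ≃ Option C ⊕ D) (g y : C → I → E) (ν : D → I → E) (k : C)
    (x : D → I → E) (b : Option C → I → E)
    (hQ : (Matrix.of fun i j => Sum.elim b x (ep j) i : Matrix I I E).det ≠ 0)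
    (hg : ∀ l d, ev (g l) (x d) = 0) (hy : ∀ l d, ev (y l) (x d) = 0)
    (hν : ∀ d d', ev (ν d) (x d') = if d = d' then 1 else 0)
    (epJ : I ≃ Option J ⊕ D') (gJ yJ : J → I → E) (νJ : D' → I → E) (β : C ⊕ D ≃ J)
    (hgJ : ∀ l, gJ (β (Sum.inl l)) = g l) (hyJ : ∀ l, yJ (β (Sum.inl l)) = y l) :
    wC ep g y ν k ∣ wC epJ gJ yJ νJ (β (Sum.inl k)) := by
  have hJ : wC epJ gJ yJ νJ (β (Sum.inl k)) = dt ep (cs (y k))
      (Function.update (fun l => al (cs (g l)) (cs (y l)) (X : I → MvPolynomial I E)) k (cs (g k)))
      (fun d => al (cs (gJ (β (Sum.inr d)))) (cs (yJ (β (Sum.inr d)))) X) := by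
    have h := det_perm (epJ.trans (Equiv.sumEmpty (Option J) D')) (ep.trans (rowEquiv β))
      (fun o : Option J => o.elim (cs (yJ (β (Sum.inl k))))
        (Function.update (fun l => al (cs (gJ l)) (cs (yJ l)) (X : I → MvPolynomial I E))
          (β (Sum.inl k)) (cs (gJ (β (Sum.inl k))))))
    rw [wC, dt, dt]
    convert h using 2
    · ext i j : 2
      simp only [Mx, Matrix.of_apply, Equiv.coe_trans, Function.comp_apply]
      rcases hi : epJ i with o | d
      · simp
      · exact isEmptyElim d
    · ext i j : 2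
      simp only [Mx, Matrix.of_apply, Equiv.coe_trans, Function.comp_apply]
      rcases hi : ep i with o | d
      · rcases o with _ | l
        · simp [rowEquiv, hyJ]
        · by_cases hl : l = k
          · subst hl; simp [rowEquiv, hgJ]
          · have : β (Sum.inl l) ≠ β (Sum.inl k) := fun h => hl (by simpa using h)
            simp [rowEquiv, hgJ, hyJ, Function.update_of_ne hl, Function.update_of_ne this]
      · simp [rowEquiv]
  rw [hJ]
  have ec : ∀ (v z : I → E), ev (cs v) (fun i => algebraMap E (MvPolynomial I E) (z i)) =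
      algebraMap E (MvPolynomial I E) (ev v z) := by
    intro v z; simp [ev, cs, map_sum, algebraMap_eq]
  rw [dt_block ep _ _ ν _ x b hQ]
  · exact Dvd.intro _ rfl
  · intro d; rw [ec, hy, map_zero]
  · intro l d
    by_cases hl : l = k
    · subst hl; rw [Function.update_self, ec, hg, map_zero]
    · rw [Function.update_of_ne hl, ev_al, ec, ec, hg, hy, map_zero, mul_zero, mul_zero, add_zero]
  · exact hν

end Pool.Agent.Lib.CPlane.LF
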