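import Pool.Agent.Lib.CPlane.LFDeg

/-!
# The immortal case
-/

set_option autoImplicit false
set_option linter.unusedSectionVars false

namespace Pool.Agent.Lib.CPlane.LF

open MvPolynomial Pool.Agent.Lib.CPlane.Leaf

variable {E I : Type} [Field E] [Fintype I] [CharP E 2]

theorem Fr_iter_C (t : ℕ) (c : E) : Fr^[t] (C c : MvPolynomial I E) = C (c ^ 2 ^ t) := by
  induction t generalizing c with
  | zero => simp
  | succ t ih => rw [Function.iterate_succ_apply, Fr_C, ih, ← pow_mul, ← pow_succ']

theorem Fr_iter_X (t : ℕ) (i : I) : Fr^[t] (X i : MvPolynomial I E) = X i := by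
  induction t with
  | zero => simp
  | succ t ih => rw [Function.iterate_succ_apply, Fr_X, ih]

/-- `Fr^t` as a ring homomorphism -/
noncomputable def Frt (t : ℕ) : MvPolynomial I E →+* MvPolynomial I E :=
  (Fr : MvPolynomial I E →+* MvPolynomial I E) ^ t

theorem Frt_apply (t : ℕ) (P : MvPolynomial I E) : Frt t P = Fr^[t] P := by
  rw [Frt, RingHom.coe_pow]

theorem Frt_add (s t : ℕ) (P : MvPolynomial I E) : Frt (s + t) P = Frt s (Frt t P) := by
  rw [Frt_apply, Frt_apply, Frt_apply, Function.iterate_add_apply]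

theorem Frt_period {m : ℕ} (hm : ∀ c : E, c ^ 2 ^ m = c) (P : MvPolynomial I E) :
    Frt m P = P := by
  have h : (Frt m : MvPolynomial I E →+* MvPolynomial I E) = RingHom.id _ := by
    apply MvPolynomial.ringHom_ext
    · intro r; rw [Frt_apply, Fr_iter_C, hm]; rfl
    · intro i; rw [Frt_apply, Fr_iter_X]; rfl
  rw [h]; rfl

theorem Frt_ne_zero (t : ℕ) {P : MvPolynomial I E} (hP : P ≠ 0) : Frt t P ≠ 0 := by
  rw [Frt_apply]
  intro h
  apply hP
  have : Function.Injective (Fr^[t] : MvPolynomial I E → MvPolynomial I E) :=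
    Fr_injective.iterate t
  apply this
  rw [h, ← Frt_apply, map_zero]

theorem Frt_mem (g y : ℕ → I → E) (hg : ∀ k i, g (k + 1) i = g k i ^ 2)
    (hy : ∀ k i, y (k + 1) i = y k i ^ 2) (S : Set ℕ) {P : MvPolynomial I E}
    (hP : P ∈ Algebra.adjoin E (lf '' rowsX g y S 0)) (t : ℕ) :
    Frt t P ∈ Algebra.adjoin E (lf '' rowsX g y S t) := by
  induction t with
  | zero => simpa [Frt] using hP
  | succ t ih =>
    rw [Nat.add_comm, Frt_add]
    have h := Fr_mem_adjoin (rowsX_succ g y hg hy S t) ih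
    rw [Nat.add_comm]
    simpa [Frt] using h

theorem Frt_prime {m : ℕ} (hm : ∀ c : E, c ^ 2 ^ m = c) (t : ℕ) {P : MvPolynomial I E}
    (hP : Prime P) (ht : t ≤ m) : Prime (Frt t P) := by
  have h1 : ∀ Q : MvPolynomial I E, Frt t (Frt (m - t) Q) = Q := by
    intro Q; rw [← Frt_add, Nat.add_sub_cancel' ht, Frt_period hm]
  have h2 : ∀ Q : MvPolynomial I E, Frt (m - t) (Frt t Q) = Q := by
    intro Q; rw [← Frt_add, Nat.sub_add_cancel ht, Frt_period hm]
  let e : MvPolynomial I E ≃+* MvPolynomial I E :=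
    { toFun := Frt t, invFun := Frt (m - t), left_inv := h2, right_inv := h1,
      map_mul' := map_mul _, map_add' := map_add _ }
  have h := (MulEquiv.prime_iff (e : MvPolynomial I E ≃* MvPolynomial I E) (p := P)).mpr hP
  exact h

/-- **counting**: if `P` divides all `wF d` then there is `n ∣ m` with `n ≥ 1`, `m ≤ n |C|`,
`n deg P ≤ deg wF 0` for all degrees which are invariant under Frobenius -/
theorem immortal {m : ℕ} (hm0 : 0 < m) (hm : ∀ c : E, c ^ 2 ^ m = c) (g y : ℕ → I → E)
    (hg : ∀ k i, g (k + 1) i = g k i ^ 2) (hy : ∀ k i, y (k + 1) i = y k i ^ 2)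
    (S : Finset ℕ) (hS : S.Nonempty) (wF : ℕ → MvPolynomial I E)
    (hFr : ∀ d, Fr (wF d) = wF (d + 1)) (hw0 : wF 0 ≠ 0) {P : MvPolynomial I E} (hP : Prime P)
    (hdvd : ∀ d, P ∣ wF d) (hmem : P ∈ Algebra.adjoin E (lf '' rowsX g y (S : Set ℕ) 0))
    (hfull : ∀ v : I → E, tr v P = Polynomial.C P →
      ∀ l ∈ S, ∑ i, g l i * v i = 0 ∧ ∑ i, y l i * v i = 0)
    (hclosed : ∀ t k, g k ∈ Submodule.span E (rowsX g y (S : Set ℕ) t) →
      y k ∈ Submodule.span E (rowsX g y (S : Set ℕ) t) → ∃ j ∈ S, (k : ZMod m) = j + t) :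
    ∃ n : ℕ, 0 < n ∧ n ∣ m ∧ m ≤ n * S.card ∧
      ∀ dd : MvPolynomial I E → ℕ, (∀ p q, p ≠ 0 → q ≠ 0 → dd (p * q) = dd p + dd q) →
        (∀ p, dd (Fr p) = dd p) → n * dd P ≤ dd (wF 0) := by
  classical
  have : NeZero m := ⟨hm0.ne'⟩
  obtain ⟨Cm, hCm⟩ : ∃ Cm : Finset (ZMod m), Cm = S.image (fun k : ℕ => (k : ZMod m)) := ⟨_, rfl⟩
  have hCmne : Cm.Nonempty := hCm ▸ hS.image _
  -- associated primes give periods
  have hper : ∀ t : ℕ, P ∣ Frt t P → Cm.image (fun x => x + (t : ZMod m)) = Cm := by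
    intro t ht
    have hsub : Cm ⊆ Cm.image (fun x => x + (t : ZMod m)) := by
      intro x hx
      rw [hCm, Finset.mem_image] at hx
      obtain ⟨l, hl, rfl⟩ := hx
      have hmem' := Frt_mem g y hg hy (S : Set ℕ) hmem t
      have hk : ∀ v : I → E, (∀ mu ∈ rowsX g y (S : Set ℕ) t, ∑ i, mu i * v i = 0) →
          ∑ i, g l i * v i = 0 ∧ ∑ i, y l i * v i = 0 := by
        intro v hv
        have h1 : tr v (Frt t P) = Polynomial.C (Frt t P) := tr_of_mem_adjoin v _ hv hmem'
        have h2 : tr v P = Polynomial.C P :=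
          tr_of_dvd v (Frt_ne_zero t hP.ne_zero) h1 ht
        exact hfull v h2 l hl
      obtain ⟨j, hj, hjt⟩ := hclosed t l (mem_span_of_perp _ _ fun v hv => (hk v hv).1)
        (mem_span_of_perp _ _ fun v hv => (hk v hv).2)
      rw [Finset.mem_image]
      exact ⟨j, hCm ▸ Finset.mem_image_of_mem _ hj, hjt.symm⟩
    exact (Finset.eq_of_subset_of_card_le hsub Finset.card_image_le).symm
  -- the least period
  have hex : ∃ n : ℕ, 0 < n ∧ Cm.image (fun x => x + (n : ZMod m)) = Cm :=
    ⟨m, hm0, by simp⟩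
  obtain ⟨n, ⟨hn0, hn⟩, hmin⟩ : ∃ n : ℕ, (0 < n ∧ Cm.image (fun x => x + (n : ZMod m)) = Cm) ∧
      ∀ k < n, ¬ (0 < k ∧ Cm.image (fun x => x + (k : ZMod m)) = Cm) :=
    ⟨Nat.find hex, Nat.find_spec hex, fun k hk => Nat.find_min hex hk⟩
  have hmul : ∀ i : ℕ, Cm.image (fun x => x + ((i * n : ℕ) : ZMod m)) = Cm := by
    intro i
    induction i with
    | zero => simp
    | succ i ih =>
      calc Cm.image (fun x => x + (((i + 1) * n : ℕ) : ZMod m)) =
          (Cm.image (fun x => x + ((i * n : ℕ) : ZMod m))).image (fun x => x + (n : ZMod m)) := by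
            rw [Finset.image_image]
            have e : (fun x : ZMod m => x + (((i + 1) * n : ℕ) : ZMod m)) =
                (fun x => x + (n : ZMod m)) ∘ fun x => x + ((i * n : ℕ) : ZMod m) := by
              ext1 x
              simp only [Function.comp_apply]; push_cast; ring
            rw [e]
        _ = Cm := by rw [ih, hn]
  have hdiv : ∀ t : ℕ, Cm.image (fun x => x + (t : ZMod m)) = Cm → n ∣ t := by
    intro t ht
    by_contra hnt
    have h1 : Cm.image (fun x => x + ((t % n : ℕ) : ZMod m)) = Cm := by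
      have h2 : (Cm.image (fun x => x + ((t % n : ℕ) : ZMod m))).image
          (fun x => x + (((t / n) * n : ℕ) : ZMod m)) = Cm := by
        rw [Finset.image_image]
        conv_rhs => rw [← ht]
        have e : (fun x : ZMod m => x + (t : ZMod m)) =
            (fun x => x + (((t / n) * n : ℕ) : ZMod m)) ∘
              fun x => x + ((t % n : ℕ) : ZMod m) := by
          ext1 x
          simp only [Function.comp_apply]
          rw [add_assoc, ← Nat.cast_add, Nat.mod_add_div' t n]
        rw [e]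
      apply (Finset.image_injective (add_left_injective (((t / n) * n : ℕ) : ZMod m)))
      rw [h2, hmul]
    exact hmin (t % n) (Nat.mod_lt t hn0) ⟨Nat.pos_of_ne_zero fun h => hnt
      (Nat.dvd_of_mod_eq_zero h), h1⟩
  have hnm : n ∣ m := hdiv m (by simp)
  refine ⟨n, hn0, hnm, ?_, ?_⟩
  · -- `m / n` distinct elements of `Cm`
    obtain ⟨c, hc⟩ := hCmne
    have hinj : Set.InjOn (fun i : ℕ => c + ((i * n : ℕ) : ZMod m)) (Finset.range (m / n)) := by
      intro i hi j hj hij
      simp only [Finset.coe_range, Set.mem_Iio] at hi hj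
      have h1 : ((i * n : ℕ) : ZMod m) = ((j * n : ℕ) : ZMod m) := add_left_cancel hij
      rw [ZMod.natCast_eq_natCast_iff'] at h1
      have hlt : ∀ i, i < m / n → i * n < m := fun i hi =>
        lt_of_lt_of_le (Nat.mul_lt_mul_of_pos_right hi hn0) (Nat.div_mul_le_self m n)
      rw [Nat.mod_eq_of_lt (hlt i hi), Nat.mod_eq_of_lt (hlt j hj)] at h1
      exact Nat.eq_of_mul_eq_mul_right hn0 h1
    have hsub : (Finset.range (m / n)).image (fun i : ℕ => c + ((i * n : ℕ) : ZMod m)) ⊆ Cm := by
      intro x hx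
      rw [Finset.mem_image] at hx
      obtain ⟨i, -, rfl⟩ := hx
      rw [← hmul i]
      exact Finset.mem_image_of_mem _ hc
    have h1 := Finset.card_le_card hsub
    rw [Finset.card_image_of_injOn hinj, Finset.card_range] at h1
    have h2 : Cm.card ≤ S.card := hCm ▸ Finset.card_image_le
    calc m = n * (m / n) := (Nat.mul_div_cancel' hnm).symm
      _ ≤ n * S.card := Nat.mul_le_mul_left n (h1.trans h2)
  · intro dd hdm hdF
    have hnlem : n ≤ m := Nat.le_of_dvd hm0 hnm
    have hwF : ∀ t d, Frt t (wF d) = wF (d + t) := by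
      intro t d
      induction t with
      | zero => simp [Frt]
      | succ t ih =>
        rw [Nat.add_comm t 1, Frt_add, ih]
        have : Frt 1 (wF (d + t)) = Fr (wF (d + t)) := by simp [Frt]
        rw [this, hFr]
        congr 1; ring
    have hwm : wF m = wF 0 := by
      have := hwF m 0
      rw [Frt_period hm, Nat.zero_add] at this
      exact this.symm
    have hPt : ∀ t ∈ Finset.range n, Frt t P ∣ wF 0 := by
      intro t ht
      have ht' : t ≤ m := (Finset.mem_range.mp ht).le.trans hnlem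
      have h1 : Frt t P ∣ Frt t (wF (m - t)) := map_dvd _ (hdvd (m - t))
      rwa [hwF, Nat.sub_add_cancel ht', hwm] at h1
    have hprime : ∀ t ∈ Finset.range n, Prime (Frt t P) := fun t ht =>
      Frt_prime hm t hP ((Finset.mem_range.mp ht).le.trans hnlem)
    have hna : ∀ i ∈ Finset.range n, ∀ j ∈ Finset.range n, i < j →
        ¬ Frt j P ∣ Frt i P ∧ ¬ Frt i P ∣ Frt j P := by
      intro i hi j hj hij
      have hi' : i ≤ m := (Finset.mem_range.mp hi).le.trans hnlem
      have key : ¬ Frt i P ∣ Frt j P := by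
        intro h
        have h1 : Frt (m - i) (Frt i P) ∣ Frt (m - i) (Frt j P) := map_dvd _ h
        rw [← Frt_add, ← Frt_add, Nat.sub_add_cancel hi', Frt_period hm] at h1
        have e : m - i + j = (j - i) + m := by omega
        rw [e, Frt_add, Frt_period hm] at h1
        have h2 := hdiv _ (hper _ h1)
        have h3 := Nat.le_of_dvd (by omega) h2
        have := Finset.mem_range.mp hj
        omega
      refine ⟨fun h => key ?_, key⟩
      exact ((hprime j hj).associated_of_dvd (hprime i hi) h).symm.dvd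
    have hprod : (∏ t ∈ Finset.range n, Frt t P) ∣ wF 0 := by
      refine Finset.prod_dvd_of_isRelPrime ?_ hPt
      intro i hi j hj hij
      rw [Function.onFun, (hprime i hi).irreducible.isRelPrime_iff_not_dvd]
      rcases lt_or_gt_of_ne hij with h | h
      · exact (hna i hi j hj h).2
      · exact (hna j hj i hi h).1
    obtain ⟨R, hR⟩ := hprod
    have hR0 : R ≠ 0 := by rintro rfl; exact hw0 (by rw [hR, mul_zero])
    have hne : ∀ T : Finset ℕ, (∏ t ∈ T, Frt t P) ≠ 0 := fun T =>
      Finset.prod_ne_zero_iff.mpr fun t _ => Frt_ne_zero t hP.ne_zero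
    have hddF : ∀ t, dd (Frt t P) = dd P := by
      intro t
      induction t with
      | zero => simp [Frt]
      | succ t ih =>
        rw [Nat.add_comm, Frt_add]
        have : Frt 1 (Frt t P) = Fr (Frt t P) := by simp [Frt]
        rw [this, hdF, ih]
    have hsum : ∀ T : Finset ℕ, T.card * dd P ≤ dd (∏ t ∈ T, Frt t P) := by
      intro T
      induction T using Finset.induction_on with
      | empty => simp
      | insert a T ha ih =>
        rw [Finset.prod_insert ha, hdm _ _ (Frt_ne_zero a hP.ne_zero) (hne T), hddF,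
          Finset.card_insert_of_notMem ha]
        nlinarith
    have h1 := hsum (Finset.range n)
    rw [Finset.card_range] at h1
    rw [hR, hdm _ _ (hne _) hR0]
    omega

end Pool.Agent.Lib.CPlane.LF
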