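import Pool.Agent.Lib.CPlane.S2Stat
import Pool.Agent.Lib.CPlane.LFImm

/-!
# Frobenius shift of near tight sets, Frobenius invariance of the bidegree
-/

set_option autoImplicit false
set_option linter.unusedSectionVars false

namespace Pool.Agent.Lib.CPlane.LF

open MvPolynomial Module

section

variable (E I : Type) [Field E] [Finite E] [CharP E 2]

instance frInv : RingHomInvPair ((frobeniusEquiv E 2 : E ≃+* E) : E →+* E)
    (((frobeniusEquiv E 2).symm : E ≃+* E) : E →+* E) :=
  RingHomInvPair.of_ringEquiv _

instance frInv' : RingHomInvPair (((frobeniusEquiv E 2).symm : E ≃+* E) : E →+* E)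
    ((frobeniusEquiv E 2 : E ≃+* E) : E →+* E) :=
  RingHomInvPair.symm ((frobeniusEquiv E 2 : E ≃+* E) : E →+* E)
    (((frobeniusEquiv E 2).symm : E ≃+* E) : E →+* E)

/-- the coordinatewise Frobenius as a semilinear equivalence -/
noncomputable def frE : (I → E) ≃ₛₗ[((frobeniusEquiv E 2 : E ≃+* E) : E →+* E)] (I → E) where
  toFun v i := v i ^ 2
  invFun v i := (frobeniusEquiv E 2).symm (v i)
  left_inv v := by
    ext i
    exact (frobeniusEquiv E 2).symm_apply_apply (v i)
  right_inv v := by
    ext i
    exact (frobeniusEquiv E 2).apply_symm_apply (v i)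
  map_add' v w := by
    ext i
    simp [add_pow_char]
  map_smul' c v := by
    ext i
    exact mul_pow _ _ _

end

theorem finrank_fr {E I : Type} [Field E] [Finite E] [CharP E 2] [Fintype I] (S : Set (I → E)) :
    finrank E (Submodule.span E ((fun (v : I → E) i => v i ^ 2) '' S)) =
      finrank E (Submodule.span E S) := by
  have h1 : Submodule.span E ((fun (v : I → E) i => v i ^ 2) '' S) =
      (Submodule.span E S).map ((frE E I) :
        (I → E) →ₛₗ[((frobeniusEquiv E 2 : E ≃+* E) : E →+* E)] (I → E)) := by
    rw [Submodule.map_span]; rfl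
  rw [h1]
  have h2 := rank_eq_of_equiv_equiv (frobeniusEquiv E 2 : E → E)
    ((frE E I).submoduleMap (Submodule.span E S)).toAddEquiv (frobeniusEquiv E 2).bijective
    (fun r m => ((frE E I).submoduleMap (Submodule.span E S)).map_smulₛₗ r m)
  exact (congrArg Cardinal.toNat h2).symm

theorem finrank_WA_shift {E : Type} [Field E] [Finite E] [CharP E 2] {N : ℕ} (ga et : Fin N → E)
    (B : Finset ℕ) : finrank E (S2.WA ga et (B.image (· + 1))) = finrank E (S2.WA ga et B) := by
  rw [S2.WA, S2.WA, ← finrank_fr (S2.gy ga et B)]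
  have hf : ∀ v : Fin N → E, ∀ k, S2.fv v (k + 1) = fun i => S2.fv v k i ^ 2 := by
    intro v k; ext i; simp only [S2.fv]; rw [pow_succ, pow_mul]
  have hset : S2.gy ga et (B.image (· + 1)) = (fun v i => v i ^ 2) '' S2.gy ga et B := by
    rw [S2.gy, S2.gy, Set.image_union, Set.image_image, Set.image_image, Finset.coe_image,
      Set.image_image, Set.image_image]
    simp only [hf]
  rw [hset]

theorem isNT_shift {E : Type} [Field E] [Finite E] [CharP E 2] {N : ℕ} (ga et : Fin N → E)
    (A : Finset ℕ) (hA : S2.IsNT ga et A) (t : ℕ) : S2.IsNT ga et (A.image (· + t)) := by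
  induction t with
  | zero => simpa using hA
  | succ t ih =>
    have e : A.image (· + (t + 1)) = (A.image (· + t)).image (· + 1) := by
      rw [Finset.image_image]; rfl
    rw [e]
    generalize A.image (· + t) = B at ih ⊢
    unfold S2.IsNT at ih ⊢
    rw [Finset.card_image_of_injective _ (add_left_injective 1), ← ih, finrank_WA_shift]

theorem dg_Fr {E I : Type} [Field E] [Fintype I] [CharP E 2] (pG : I → Prop) [DecidablePred pG]
    (P : MvPolynomial I E) : dg pG (Fr P) = dg pG P := by
  have h : (th pG : MvPolynomial I E →ₐ[E] _).toRingHom.comp Fr =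
      (Polynomial.mapRingHom (Fr : MvPolynomial I E →+* MvPolynomial I E)).comp
        (th pG : MvPolynomial I E →ₐ[E] _).toRingHom := by
    apply MvPolynomial.ringHom_ext
    · intro r
      have h1 : ∀ r : E, th pG (C r : MvPolynomial I E) = Polynomial.C (C r) :=
        fun r => (th pG).commutes r
      simp [Fr_C, h1]
    · intro i
      simp only [AlgHom.toRingHom_eq_coe, RingHom.coe_comp, RingHom.coe_coe, Function.comp_apply,
        Fr_X, th, aeval_X, sc]
      split_ifs <;> simp [Fr_X]
  have h2 := congrArg (fun f => f P) h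
  simp only [AlgHom.toRingHom_eq_coe, RingHom.coe_comp, RingHom.coe_coe, Function.comp_apply,
    Polynomial.coe_mapRingHom] at h2
  rw [dg, h2, Polynomial.natDegree_map_eq_of_injective Fr_injective, dg]

end Pool.Agent.Lib.CPlane.LF
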