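import Mathlib

/-!
# The leaf lemma, algebra: irreducibility of multiaffine polynomials
-/

namespace Pool.Agent.Lib.CPlane.Leaf

open MvPolynomial

variable {σ E : Type} [Field E]

theorem degreeOf_eq_zero_iff_vars {i : σ} {p : MvPolynomial σ E} :
    degreeOf i p = 0 ↔ i ∉ p.vars := by
  classical
  rw [degreeOf_def, vars_def, Multiset.mem_toFinset, Multiset.count_eq_zero]

theorem pderiv_eq_zero_of_degreeOf {i : σ} {p : MvPolynomial σ E} (h : degreeOf i p = 0) :
    pderiv i p = 0 :=
  pderiv_eq_zero_of_notMem_vars (degreeOf_eq_zero_iff_vars.1 h)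

theorem pderiv_comm' (i j : σ) (p : MvPolynomial σ E) :
    pderiv i (pderiv j p) = pderiv j (pderiv i p) := by
  classical
  have h : ⁅pderiv (R := E) i, pderiv j⁆ = (0 : Derivation E (MvPolynomial σ E) _) := by
    apply derivation_ext
    intro k
    rw [Derivation.commutator_apply, pderiv_X, pderiv_X]
    have h1 : ∀ a b c : σ, pderiv (R := E) a (Pi.single (M := fun _ => MvPolynomial σ E) b 1 c) = 0 := by
      intro a b c
      by_cases hbc : c = b
      · subst hbc
        rw [Pi.single_eq_same, pderiv_one]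
      · rw [Pi.single_eq_of_ne hbc, map_zero]
    rw [h1, h1]
    simp
  have h2 := congrArg (fun D => D p) h
  simp only [Derivation.commutator_apply] at h2
  exact sub_eq_zero.1 h2

theorem isUnit_of_vars {p : MvPolynomial σ E} (hp : p ≠ 0) (h : ∀ i, degreeOf i p = 0) :
    IsUnit p := by
  have h1 : p.vars = ∅ := by
    rw [Finset.eq_empty_iff_forall_notMem]
    exact fun i => degreeOf_eq_zero_iff_vars.1 (h i)
  rw [vars_eq_empty_iff_eq_C] at h1
  rw [h1] at hp ⊢
  exact (isUnit_iff_ne_zero.2 fun h => hp (by rw [h, map_zero])).map C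

theorem isUnit_of_totalDegree {p : MvPolynomial σ E} (hp : p ≠ 0) (h : p.totalDegree = 0) :
    IsUnit p := by
  rw [totalDegree_eq_zero_iff_eq_C] at h
  rw [h] at hp ⊢
  exact (isUnit_iff_ne_zero.2 fun h => hp (by rw [h, map_zero])).map C

/-- (LA1) a multiaffine polynomial whose discriminants do not vanish is irreducible -/
theorem irreducible_multiaffine [CharP E 2] (S : Finset σ) (hS : 2 ≤ S.card)
    (p : MvPolynomial σ E) (h1 : ∀ i, degreeOf i p ≤ 1) (h0 : ∀ i, i ∉ S → degreeOf i p = 0)
    (hd : ∀ i ∈ S, ∀ j ∈ S, i ≠ j →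
      pderiv i p * pderiv j p + p * pderiv i (pderiv j p) ≠ 0) :
    Irreducible p ∧ ∀ i ∈ S, degreeOf i p = 1 := by
  classical
  have hch : CharP (MvPolynomial σ E) 2 := inferInstance
  have hne : ∀ i ∈ S, degreeOf i p = 1 := by
    intro i hi
    obtain ⟨j, hj, hij⟩ : ∃ j ∈ S, j ≠ i := by
      by_contra hcon
      push Not at hcon
      have : S.card ≤ 1 := Finset.card_le_one.2 fun a ha b hb => by rw [hcon a ha, hcon b hb]
      omega
    have h2 := hd i hi j hj (Ne.symm hij)
    have h3 : degreeOf i p ≠ 0 := by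
      intro h3
      apply h2
      have h4 := pderiv_eq_zero_of_degreeOf h3
      rw [pderiv_comm', h4, map_zero, mul_zero, zero_mul, add_zero]
    have := h1 i
    omega
  refine ⟨⟨?_, ?_⟩, hne⟩
  · intro hu
    obtain ⟨i, hi⟩ : S.Nonempty := Finset.card_pos.1 (by omega)
    obtain ⟨c, -, hc⟩ := (isUnit_iff_eq_C_of_isReduced (P := p)).1 hu
    have := hne i hi
    rw [hc, degreeOf_C] at this
    omega
  · intro A B hAB
    have hp0 : p ≠ 0 := by
      intro hp
      obtain ⟨i, hi⟩ : S.Nonempty := Finset.card_pos.1 (by omega)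
      have := hne i hi
      rw [hp, degreeOf_zero] at this
      omega
    have hA0 : A ≠ 0 := by
      rintro rfl
      exact hp0 (by rw [hAB, zero_mul])
    have hB0 : B ≠ 0 := by
      rintro rfl
      exact hp0 (by rw [hAB, mul_zero])
    have hsum : ∀ i, degreeOf i A + degreeOf i B = degreeOf i p := by
      intro i
      rw [hAB, degreeOf_mul_eq hA0 hB0]
    -- the two variables cannot be separated
    have key : ∀ i ∈ S, ∀ j ∈ S, i ≠ j → degreeOf i A = 0 → degreeOf j B = 0 → False := by
      intro i hi j hj hij hA hB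
      apply hd i hi j hj hij
      have e1 := pderiv_eq_zero_of_degreeOf hA
      have e2 := pderiv_eq_zero_of_degreeOf hB
      have e3 : pderiv i (pderiv j A) = 0 := by rw [pderiv_comm', e1, map_zero]
      rw [hAB, pderiv_mul, pderiv_mul, e1, e2, zero_mul, zero_add, mul_zero, add_zero,
        pderiv_mul, e3, zero_mul, zero_add]
      have h2 : (2 : MvPolynomial σ E) = 0 := CharTwo.two_eq_zero
      linear_combination (A * pderiv i B * (pderiv j A * B)) * h2
    obtain ⟨i0, hi0⟩ : S.Nonempty := Finset.card_pos.1 (by omega)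
    have hi0' := hsum i0
    rw [hne i0 hi0] at hi0'
    rcases (show degreeOf i0 A = 0 ∨ degreeOf i0 B = 0 by omega) with hz | hz
    · left
      apply isUnit_of_vars hA0
      intro j
      by_cases hj : j ∈ S
      · by_cases hij : i0 = j
        · rw [← hij, hz]
        · by_contra hjA
          refine key i0 hi0 j hj hij hz ?_
          have := hsum j
          rw [hne j hj] at this
          omega
      · have := hsum j
        rw [h0 j hj] at this
        omega
    · right
      apply isUnit_of_vars hB0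
      intro j
      by_cases hj : j ∈ S
      · by_cases hij : i0 = j
        · rw [← hij, hz]
        · by_contra hjB
          refine key j hj i0 hi0 (Ne.symm hij) ?_ hz
          have := hsum j
          rw [hne j hj] at this
          omega
      · have := hsum j
        rw [h0 j hj] at this
        omega

theorem degreeOf_aeval_le {ι s : Type} (U : s → MvPolynomial ι E) (l : ι)
    (hU : ∀ i, degreeOf l (U i) ≤ 1) (P : MvPolynomial s E) :
    degreeOf l (aeval U P) ≤ P.totalDegree := by
  classical
  rw [aeval_def, eval₂_eq]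
  refine (degreeOf_sum_le l _ _).trans (Finset.sup_le fun m hm => ?_)
  have h1 : degreeOf l ((algebraMap E (MvPolynomial ι E)) (coeff m P) * ∏ i ∈ m.support, U i ^ m i) ≤
      degreeOf l (∏ i ∈ m.support, U i ^ m i) := degreeOf_C_mul_le _ _ _
  refine h1.trans ((degreeOf_prod_le l _ _).trans ?_)
  have h2 : ∑ i ∈ m.support, degreeOf l (U i ^ m i) ≤ ∑ i ∈ m.support, m i := by
    refine Finset.sum_le_sum fun i _ => (degreeOf_pow_le l _ _).trans ?_
    calc m i * degreeOf l (U i) ≤ m i * 1 := Nat.mul_le_mul_left _ (hU i)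
      _ = m i := mul_one _
  exact h2.trans (le_totalDegree hm)

/-- a factor of a product of primes -/
theorem exists_subproduct {R ι : Type} [CommRing R] [IsDomain R] [DecidableEq ι] (Φ : ι → R)
    (hΦ : ∀ k, Prime (Φ k)) (T : Finset ι) :
    ∀ (p p' c : R), IsUnit c → p * p' = c * ∏ k ∈ T, Φ k →
      ∃ K ⊆ T, ∃ u, IsUnit u ∧ p = u * ∏ k ∈ K, Φ k := by
  induction T using Finset.induction_on with
  | empty =>
    intro p p' c hc h
    refine ⟨∅, Finset.empty_subset _, p, ?_, by simp⟩
    rw [Finset.prod_empty, mul_one] at h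
    exact isUnit_of_mul_isUnit_left (h ▸ hc)
  | insert k T hk ih =>
    intro p p' c hc h
    rw [Finset.prod_insert hk] at h
    have hdvd : Φ k ∣ p * p' := ⟨c * ∏ k ∈ T, Φ k, by rw [h]; ring⟩
    have hk0 := (hΦ k).ne_zero
    rcases (hΦ k).dvd_or_dvd hdvd with ⟨q, hq⟩ | ⟨q, hq⟩
    · obtain ⟨K, hKT, u, hu, hqu⟩ := ih q p' c hc (by
        apply mul_left_cancel₀ hk0
        rw [hq] at h
        linear_combination h)
      refine ⟨insert k K, Finset.insert_subset_insert k hKT, u, hu, ?_⟩
      rw [Finset.prod_insert (fun hkK => hk (hKT hkK)), hq, hqu]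
      ring
    · obtain ⟨K, hKT, u, hu, hqu⟩ := ih p q c hc (by
        apply mul_left_cancel₀ hk0
        rw [hq] at h
        linear_combination h)
      exact ⟨K, hKT.trans (Finset.subset_insert k T), u, hu, hqu⟩

/-- (LA2) the degree argument: a factor of `w` is constant or `w` up to a constant -/
theorem leaf_factor {ι s : Type} [Fintype ι] [DecidableEq ι] (Φ : ι → MvPolynomial ι E)
    (hirr : ∀ k, Irreducible (Φ k)) (hdeg : ∀ k l, degreeOf l (Φ k) = if l = k then 0 else 1)
    (U : s → MvPolynomial ι E) (hU : ∀ i l, degreeOf l (U i) ≤ 1) (P P' : MvPolynomial s E)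
    (htot : P.totalDegree + P'.totalDegree + 1 ≤ Fintype.card ι) {c : E} (hc : c ≠ 0)
    (hprod : aeval U (P * P') = C c * ∏ k, Φ k) :
    P.totalDegree = 0 ∨ P'.totalDegree = 0 := by
  classical
  have hprime : ∀ k, Prime (Φ k) := fun k => (hirr k).prime
  have hcu : IsUnit (C c : MvPolynomial ι E) := (isUnit_iff_ne_zero.2 hc).map C
  rw [map_mul] at hprod
  have hne : (C c : MvPolynomial ι E) * ∏ k, Φ k ≠ 0 :=
    mul_ne_zero hcu.ne_zero (Finset.prod_ne_zero_iff.2 fun k _ => (hprime k).ne_zero)
  have hp0 : aeval U P ≠ 0 := by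
    intro h
    exact hne (by rw [← hprod, h, zero_mul])
  have hp0' : aeval U P' ≠ 0 := by
    intro h
    exact hne (by rw [← hprod, h, mul_zero])
  have hcard : 0 < Fintype.card ι := by omega
  -- the degree of the product
  have hd : ∀ l, degreeOf l (aeval U P) + degreeOf l (aeval U P') + 1 = Fintype.card ι := by
    intro l
    rw [← degreeOf_mul_eq hp0 hp0', hprod, degreeOf_mul_eq hcu.ne_zero
      (Finset.prod_ne_zero_iff.2 fun k _ => (hprime k).ne_zero), degreeOf_C, zero_add,
      degreeOf_prod_eq _ _ (fun k _ => (hprime k).ne_zero)]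
    simp only [hdeg]
    have h1 : ∑ k : ι, (if l = k then 0 else 1) + ∑ k : ι, (if l = k then 1 else 0) =
        Fintype.card ι := by
      rw [← Finset.sum_add_distrib]
      have : ∀ k : ι, ((if l = k then 0 else 1) + (if l = k then 1 else 0) : ℕ) = 1 := by
        intro k
        split_ifs <;> rfl
      simp [this]
    rw [Finset.sum_ite_eq Finset.univ l (fun _ => 1), if_pos (Finset.mem_univ l)] at h1
    exact h1
  have hconst : ∀ l, degreeOf l (aeval U P) = P.totalDegree := by
    intro l
    have h1 := degreeOf_aeval_le U l (fun i => hU i l) P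
    have h2 := degreeOf_aeval_le U l (fun i => hU i l) P'
    have h3 := hd l
    omega
  have hconst' : ∀ l, degreeOf l (aeval U P') = P'.totalDegree := by
    intro l
    have h1 := degreeOf_aeval_le U l (fun i => hU i l) P
    have h2 := degreeOf_aeval_le U l (fun i => hU i l) P'
    have h3 := hd l
    omega
  obtain ⟨K, -, u, hu, hK⟩ := exists_subproduct Φ hprime Finset.univ _ _ _ hcu hprod
  have hdK : ∀ l, degreeOf l (aeval U P) + (if l ∈ K then 1 else 0) = K.card := by
    intro l
    obtain ⟨d, -, hd'⟩ := (isUnit_iff_eq_C_of_isReduced (P := u)).1 hu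
    rw [hK, degreeOf_mul_eq hu.ne_zero
      (Finset.prod_ne_zero_iff.2 fun k _ => (hprime k).ne_zero), hd', degreeOf_C, zero_add,
      degreeOf_prod_eq _ _ (fun k _ => (hprime k).ne_zero)]
    simp only [hdeg]
    have h1 : (if l ∈ K then 1 else 0 : ℕ) = ∑ k ∈ K, (if l = k then 1 else 0) := by
      rw [Finset.sum_ite_eq K l (fun _ => 1)]
    rw [h1, ← Finset.sum_add_distrib, Finset.card_eq_sum_ones]
    refine Finset.sum_congr rfl fun k _ => ?_
    split_ifs <;> rfl
  by_cases hKe : K = ∅
  · left
    obtain ⟨l⟩ : Nonempty ι := Fintype.card_pos_iff.1 hcard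
    have h1 := hdK l
    rw [hKe] at h1
    simp only [Finset.notMem_empty, if_false, Finset.card_empty, add_zero] at h1
    rw [← hconst l, h1]
  · right
    obtain ⟨k, hk⟩ := Finset.nonempty_iff_ne_empty.2 hKe
    have h1 := hdK k
    rw [if_pos hk, hconst] at h1
    have hall : ∀ l, l ∈ K := by
      intro l
      by_contra hl
      have h2 := hdK l
      rw [if_neg hl, hconst] at h2
      omega
    have hKu : K = Finset.univ := Finset.eq_univ_iff_forall.2 hall
    rw [hKu, Finset.card_univ] at h1
    have h3 := hd k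
    rw [hconst, hconst'] at h3
    omega

end Pool.Agent.Lib.CPlane.Leaf
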