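import Mathlib

/-!
# The lines `E v` of `V` (`K` a finite field, `V / K` of degree `2m`, `E` of degree `m`)
-/

namespace Pool.Agent.Lib.CPlane

open Module

variable (K : Type) {V : Type} [Field K] [Fintype K] [Field V] [Algebra K V]

theorem fr_pow (n : ℕ) (x : V) :
    (FiniteField.frobeniusAlgHom K V ^ n) x = x ^ (Fintype.card K ^ n) := by
  rw [AlgHom.coe_pow, FiniteField.coe_frobeniusAlgHom, pow_iterate]

theorem add_pow_card (n : ℕ) (x y : V) :
    (x + y) ^ (Fintype.card K ^ n) = x ^ (Fintype.card K ^ n) + y ^ (Fintype.card K ^ n) := by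
  rw [← fr_pow, ← fr_pow, ← fr_pow, map_add]

theorem smul_pow_card (n : ℕ) (k : K) (x : V) :
    (k • x) ^ (Fintype.card K ^ n) = k • x ^ (Fintype.card K ^ n) := by
  rw [← fr_pow, ← fr_pow, map_smul]

theorem algebraMap_pow_card (n : ℕ) (k : K) :
    (algebraMap K V k) ^ (Fintype.card K ^ n) = algebraMap K V k := by
  rw [← fr_pow, AlgHom.commutes]

theorem pow_card_finrank [Finite V] (x : V) : x ^ (Fintype.card K ^ finrank K V) = x := by
  have := Fintype.ofFinite V
  rw [← Module.card_eq_pow_finrank (K := K) (V := V), FiniteField.pow_card]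

theorem pow_pow_card [Finite V] {m : ℕ} (hV : finrank K V = 2 * m) (x : V) :
    (x ^ (Fintype.card K ^ m)) ^ (Fintype.card K ^ m) = x := by
  rw [← pow_mul, ← pow_add, ← two_mul, ← hV, pow_card_finrank]

/-- some `x` is not fixed by the `s ^ m` power -/
theorem exists_pow_ne [Finite V] {m : ℕ} [NeZero m] (hV : finrank K V = 2 * m) :
    ∃ x : V, x ^ (Fintype.card K ^ m) ≠ x := by
  by_contra h
  push Not at h
  have h1 : FiniteField.frobeniusAlgHom K V ^ m = 1 := by
    ext x
    rw [fr_pow, h x, AlgHom.one_apply]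
  have h2 := orderOf_dvd_of_pow_eq_one h1
  rw [FiniteField.orderOf_frobeniusAlgHom, hV] at h2
  have h3 := Nat.le_of_dvd (Nat.pos_of_ne_zero (NeZero.ne m)) h2
  have h4 := Nat.pos_of_ne_zero (NeZero.ne m)
  omega

/-- the set `{x | x ^ q v = x v ^ q}`, `q = s ^ m`: the line `E v` if `v ≠ 0` -/
def lineE (m : ℕ) (v : V) : Submodule K V where
  carrier := {x | x ^ (Fintype.card K ^ m) * v = x * v ^ (Fintype.card K ^ m)}
  zero_mem' := by
    simp only [Set.mem_ofPred_eq, zero_mul]
    rw [zero_pow (pow_ne_zero _ Fintype.card_ne_zero), zero_mul]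
  add_mem' := by
    intro x y hx hy
    simp only [Set.mem_ofPred_eq] at hx hy ⊢
    rw [add_pow_card, add_mul, add_mul, hx, hy]
  smul_mem' := by
    intro k x hx
    simp only [Set.mem_ofPred_eq] at hx ⊢
    rw [smul_pow_card, smul_mul_assoc, smul_mul_assoc, hx]

theorem mem_lineE {m : ℕ} {v x : V} : x ∈ lineE K m v ↔
    x ^ (Fintype.card K ^ m) * v = x * v ^ (Fintype.card K ^ m) := Iff.rfl

end Pool.Agent.Lib.CPlane
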