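import Pool.Agent.Lib.CPlane.M0Stat

/-!
# s = 2, the theorem (M0): the final count (row CNT)

The pointwise inequality `2^w - 1 ≤ [w = 1] + 3 (2^(w-1) - 1)`, summed over `S`, and the degree
bound give the count.
-/

namespace Pool.Agent.Lib.CPlane.S2

open Finset

theorem cnt_pt (w : ℕ) : 2 ^ w - 1 ≤ (if w = 1 then 1 else 0) + 3 * (2 ^ (w - 1) - 1) := by
  rcases w with _ | _ | k
  · simp
  · simp
  · have hx : 1 ≤ 2 ^ k := Nat.one_le_two_pow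
    have h1 : (2 : ℕ) ^ (k + 1 + 1) = 4 * 2 ^ k := by ring
    have h2 : (2 : ℕ) ^ (k + 1 + 1 - 1) = 2 * 2 ^ k := by
      rw [Nat.add_sub_cancel]; ring
    rw [h1, h2]
    omega

theorem cnt : CNT := by
  intro ι _ S V w f e _ hf he _ _ h1 _ h3
  have hp : ∑ a ∈ S, (2 ^ w a - 1) ≤ (S.filter (fun a => w a = 1)).card +
      3 * ∑ a ∈ S, (2 ^ (w a - 1) - 1) := by
    calc ∑ a ∈ S, (2 ^ w a - 1)
        ≤ ∑ a ∈ S, ((if w a = 1 then 1 else 0) + 3 * (2 ^ (w a - 1) - 1)) :=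
          Finset.sum_le_sum fun a _ => cnt_pt (w a)
      _ = _ := by
          rw [Finset.sum_add_distrib, ← Finset.mul_sum, Finset.card_filter]
  rw [h1] at hp
  obtain ⟨f', rfl⟩ : ∃ f', f = f' + 2 := ⟨f - 2, by omega⟩
  obtain ⟨e', rfl⟩ : ∃ e', e = e' + 2 := ⟨e - 2, by omega⟩
  set R := ∑ a ∈ S, (2 ^ (w a - 1) - 1) with hR
  set n1 := (S.filter (fun a => w a = 1)).card with hn1
  have hF : 1 ≤ 2 ^ f' := Nat.one_le_two_pow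
  have hE : 1 ≤ 2 ^ e' := Nat.one_le_two_pow
  have q1 : (2 : ℕ) ^ (f' + 2) = 4 * 2 ^ f' := by ring
  have q2 : (2 : ℕ) ^ (e' + 2) = 4 * 2 ^ e' := by ring
  have q3 : (2 : ℕ) ^ (e' + 2 - 1) = 2 * 2 ^ e' := by
    rw [show e' + 2 - 1 = e' + 1 by omega]; ring
  have q4 : (2 : ℕ) ^ (f' + 2 - 1) = 2 * 2 ^ f' := by
    rw [show f' + 2 - 1 = f' + 1 by omega]; ring
  have q5 : (2 : ℕ) ^ (f' + 2 + (e' + 2) - 2) = 4 * (2 ^ f' * 2 ^ e') := by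
    rw [show f' + 2 + (e' + 2) - 2 = f' + e' + 2 by omega]; ring
  have q6 : (2 : ℕ) ^ (f' + 2 + (e' + 2) + 1) = 32 * (2 ^ f' * 2 ^ e') := by ring
  rw [q1, q2] at hp
  rw [q3, q4, q5] at h3
  rw [q6, q3, q1]
  have q7 : (4 * 2 ^ f' - 1) * (4 * 2 ^ e' - 1) + 4 * 2 ^ f' + 4 * 2 ^ e' =
      16 * (2 ^ f' * 2 ^ e') + 1 := by
    obtain ⟨x, hx⟩ : ∃ x, 2 ^ f' = x + 1 := ⟨2 ^ f' - 1, by omega⟩
    obtain ⟨y, hy⟩ : ∃ y, 2 ^ e' = y + 1 := ⟨2 ^ e' - 1, by omega⟩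
    rw [hx, hy, show 4 * (x + 1) - 1 = 4 * x + 3 by omega,
      show 4 * (y + 1) - 1 = 4 * y + 3 by omega]
    ring
  omega

end Pool.Agent.Lib.CPlane.S2
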