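import Pool.Agent.Lib.CPlane.P2Moore

/-!
# Part II, row B: the product of the `F_c` is a square times a constant
-/

namespace Pool.Agent.Lib.CPlane.P2

open Module Finset

theorem artin_schreier {E : Type} [Field E] [Finite E] [CharP E 2] {n : ℕ}
    (hE : Nat.card E = 2 ^ (n + 1)) (x : E) (hx : ∑ j ∈ range (n + 1), x ^ 2 ^ j = 0) :
    ∃ w : E, w ^ 2 + w = x := by
  classical
  have hfin : Fintype E := Fintype.ofFinite E
  let ψ : E →+ E :=
    { toFun := fun w => w ^ 2 + w
      map_zero' := by simp
      map_add' := by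
        intro u v
        rw [CharTwo.add_sq]
        ring }
  have hψ : ∀ w, ψ w = w ^ 2 + w := fun w => rfl
  have hker : Nat.card ψ.ker ≤ 2 := by
    have h1 : ((ψ.ker : AddSubgroup E) : Set E) ⊆ {0, 1} := by
      intro w hw
      have h2 : w ^ 2 + w = 0 := hw
      have h3 : w * (w + 1) = 0 := by rw [← h2]; ring
      rcases mul_eq_zero.1 h3 with h4 | h4
      · left; exact h4
      · right
        rw [Set.mem_singleton_iff, ← sub_eq_zero, CharTwo.sub_eq_add]
        exact h4
    have h2 := Set.ncard_le_ncard h1 (Set.toFinite _)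
    have h3 : Set.ncard ({0, 1} : Set E) ≤ 2 := Set.ncard_insert_le 0 {1} |>.trans (by simp)
    exact h2.trans h3
  have hidx := AddSubgroup.card_mul_index ψ.ker
  rw [AddSubgroup.index_ker, hE, pow_succ] at hidx
  have hrange : 2 ^ n ≤ Nat.card ψ.range := by
    by_contra hcon
    have h1 : Nat.card ψ.ker * Nat.card ψ.range ≤ 2 * Nat.card ψ.range :=
      Nat.mul_le_mul_right _ hker
    omega
  set p : Polynomial E := ∑ j ∈ range (n + 1), Polynomial.X ^ 2 ^ j with hp
  have hp0 : p ≠ 0 := by
    intro h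
    have h1 := congrArg (fun q => Polynomial.coeff q 1) h
    simp only [hp, Polynomial.finsetSum_coeff, Polynomial.coeff_X_pow,
      Polynomial.coeff_zero] at h1
    rw [Finset.sum_eq_single 0] at h1
    · simp at h1
    · intro j _ hj
      rw [if_neg]
      exact (Nat.one_lt_two_pow hj).ne
    · intro h2
      exact absurd (Finset.mem_range.2 (Nat.succ_pos n)) h2
  have hdeg : p.natDegree ≤ 2 ^ n := by
    refine (Polynomial.natDegree_sum_le _ _).trans ?_
    rw [Finset.fold_max_le]
    refine ⟨Nat.zero_le _, fun j hj => ?_⟩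
    rw [Function.comp_apply, Polynomial.natDegree_X_pow]
    exact Nat.pow_le_pow_right (by norm_num) (Nat.lt_succ_iff.1 (Finset.mem_range.1 hj))
  have hroots : p.roots.toFinset.card ≤ 2 ^ n :=
    (Multiset.toFinset_card_le _).trans ((Polynomial.card_roots' p).trans hdeg)
  have hev : ∀ y : E, p.eval y = ∑ j ∈ range (n + 1), y ^ 2 ^ j := by
    intro y
    rw [hp, Polynomial.eval_finsetSum]
    exact Finset.sum_congr rfl fun j _ => by rw [Polynomial.eval_pow, Polynomial.eval_X]
  have hpsi : ∀ w : E, ∑ j ∈ range (n + 1), (w ^ 2 + w) ^ 2 ^ j = 0 := by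
    intro w
    have h1 : ∀ k : ℕ, ∑ j ∈ range k, (w ^ 2 + w) ^ 2 ^ j = w ^ 2 ^ k + w := by
      intro k
      induction k with
      | zero => simp [CharTwo.add_self_eq_zero]
      | succ k ih =>
        rw [Finset.sum_range_succ, ih, add_pow_char_pow, ← pow_mul, ← pow_succ']
        have h2 := CharTwo.add_self_eq_zero (w ^ 2 ^ k)
        linear_combination h2
    rw [h1, ← hE, Nat.card_eq_fintype_card, FiniteField.pow_card]
    exact CharTwo.add_self_eq_zero w
  have hsub : univ.image ψ ⊆ p.roots.toFinset := by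
    intro y hy
    obtain ⟨w, _, rfl⟩ := Finset.mem_image.1 hy
    rw [Multiset.mem_toFinset, Polynomial.mem_roots hp0, Polynomial.IsRoot.def, hev, hψ]
    exact hpsi w
  have hcardim : (univ.image ψ).card = Nat.card ψ.range := by
    rw [← Set.ncard_coe_finset, Finset.coe_image, Finset.coe_univ, Set.image_univ]
    rfl
  have heq := Finset.eq_of_subset_of_card_le hsub (by rw [hcardim]; exact hroots.trans hrange)
  have hxr : x ∈ p.roots.toFinset := by
    rw [Multiset.mem_toFinset, Polynomial.mem_roots hp0, Polynomial.IsRoot.def, hev]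
    exact hx
  rw [← heq] at hxr
  obtain ⟨w, _, hw⟩ := Finset.mem_image.1 hxr
  exact ⟨w, hw⟩

section

variable {K E : Type} [Field K] [Fintype K] [CharP K 2] [Field E] [Finite E] [Algebra K E]

theorem sum_range_mul' {M : Type} [AddCommMonoid M] (f : ℕ → M) (r m : ℕ) :
    ∑ j ∈ range (m * r), f j = ∑ k ∈ range m, ∑ i ∈ range r, f (k * r + i) := by
  induction m with
  | zero => simp
  | succ m ih =>
    rw [Nat.succ_mul, Finset.sum_range_add, ih, Finset.sum_range_succ]

/-- the absolute trace -/
theorem algebraMap_abs_trace {r : ℕ} (hK : Fintype.card K = 2 ^ r) (x : E) :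
    algebraMap K E (∑ i ∈ range r, (Algebra.trace K E x) ^ 2 ^ i) =
      ∑ j ∈ range (finrank K E * r), x ^ 2 ^ j := by
  have : CharP E 2 := charP_of_injective_algebraMap (algebraMap K E).injective 2
  rw [map_sum, sum_range_mul', Finset.sum_comm]
  refine Finset.sum_congr rfl fun i _ => ?_
  rw [map_pow, FiniteField.algebraMap_trace_eq_sum_pow, sum_pow_char_pow]
  refine Finset.sum_congr rfl fun k _ => ?_
  rw [← pow_mul, Nat.card_eq_fintype_card, hK, ← pow_mul, ← pow_add, mul_comm r k]

theorem card_eq_two_pow {r : ℕ} (hK : Fintype.card K = 2 ^ r) :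
    Nat.card E = 2 ^ (finrank K E * r) := by
  have h := Module.natCard_eq_pow_finrank (K := K) (V := E)
  rw [h, Nat.card_eq_fintype_card, hK, ← pow_mul, mul_comm]

theorem exists_sq_add_self {r : ℕ} (hr : 1 ≤ r) (hK : Fintype.card K = 2 ^ r) (x : E)
    (hx : ∑ i ∈ range r, (Algebra.trace K E x) ^ 2 ^ i = 0) : ∃ w : E, w ^ 2 + w = x := by
  have : CharP E 2 := charP_of_injective_algebraMap (algebraMap K E).injective 2
  have h := algebraMap_abs_trace hK x
  rw [hx, map_zero] at h
  have hpos : 0 < finrank K E * r := Nat.mul_pos Module.finrank_pos (by omega)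
  obtain ⟨n, hn⟩ : ∃ n, finrank K E * r = n + 1 := ⟨finrank K E * r - 1, by omega⟩
  refine artin_schreier (n := n) ?_ x ?_
  · rw [card_eq_two_pow hK, hn]
  · rw [← hn, ← h]

theorem trace_sq_add_self {r : ℕ} (hK : Fintype.card K = 2 ^ r) (w : E) :
    ∑ i ∈ range r, (Algebra.trace K E (w ^ 2 + w)) ^ 2 ^ i = 0 := by
  have : CharP E 2 := charP_of_injective_algebraMap (algebraMap K E).injective 2
  apply (algebraMap K E).injective
  rw [algebraMap_abs_trace hK, map_zero]
  have h1 : ∀ k : ℕ, ∑ j ∈ range k, (w ^ 2 + w) ^ 2 ^ j = w ^ 2 ^ k + w := by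
    intro k
    induction k with
    | zero => simp [CharTwo.add_self_eq_zero]
    | succ k ih =>
      rw [Finset.sum_range_succ, ih, add_pow_char_pow, ← pow_mul, ← pow_succ']
      have h2 := CharTwo.add_self_eq_zero (w ^ 2 ^ k)
      linear_combination h2
  have hfin : Fintype E := Fintype.ofFinite E
  rw [h1, ← card_eq_two_pow hK, Nat.card_eq_fintype_card, FiniteField.pow_card]
  exact CharTwo.add_self_eq_zero w

end

end Pool.Agent.Lib.CPlane.P2
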