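import Pool.Agent.Lib.CPlane.M0Stat
import Pool.Agent.Lib.CPlane.P2B

/-!
# s = 2, (M0): the three counts over `E`
-/

namespace Pool.Agent.Lib.CPlane.S2

open Finset Module Pool.Agent.Lib.CPlane.P2

namespace CntA

section

variable {K E : Type} [Field K] [Field E] [Algebra K E] {N : ℕ}

theorem lin_eq_zero_iff (ga et : Fin N → E)
    (hind : ∀ c : Fin N → K, lin ga c = 0 → lin et c = 0 → c = 0)
    (hz : ∀ j, ga j = 0 ∨ et j = 0) (c : Fin N → K) :
    lin ga c = 0 ↔ ∀ j, ga j ≠ 0 → c j = 0 := by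
  classical
  constructor
  · intro h j hj
    have h1 : (fun i => if ga i = 0 then 0 else c i) = (0 : Fin N → K) := by
      apply hind
      · refine Eq.trans ?_ h
        unfold lin
        refine Finset.sum_congr rfl fun i _ => ?_
        by_cases hi : ga i = 0
        · rw [hi, smul_zero, smul_zero]
        · change (if ga i = 0 then 0 else c i) • ga i = c i • ga i
          rw [if_neg hi]
      · unfold lin
        refine Finset.sum_eq_zero fun i _ => ?_
        by_cases hi : ga i = 0
        · simp [hi]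
        · rw [(hz i).resolve_left hi, smul_zero]
    have h2 := congrFun h1 j
    simpa [hj] using h2
  · intro h
    unfold lin
    refine Finset.sum_eq_zero fun i _ => ?_
    by_cases hi : ga i = 0
    · rw [hi, smul_zero]
    · rw [h i hi, zero_smul]

theorem not_both (ga et : Fin N → E)
    (hind : ∀ c : Fin N → K, lin ga c = 0 → lin et c = 0 → c = 0) (j : Fin N) :
    ga j ≠ 0 ∨ et j ≠ 0 := by
  classical
  by_contra h
  push Not at h
  have h1 : ∀ l : Fin N → E, l j = 0 → lin l (Pi.single j 1 : Fin N → K) = 0 := by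
    intro l hl
    unfold lin
    refine Finset.sum_eq_zero fun i _ => ?_
    by_cases hi : i = j
    · rw [hi, hl, smul_zero]
    · rw [Pi.single_eq_of_ne hi, zero_smul]
  have h2 := congrFun (hind _ (h1 ga h.1) (h1 et h.2)) j
  rw [Pi.single_eq_same] at h2
  exact one_ne_zero h2

theorem ga_ne_iff (ga et : Fin N → E)
    (hind : ∀ c : Fin N → K, lin ga c = 0 → lin et c = 0 → c = 0)
    (hz : ∀ j, ga j = 0 ∨ et j = 0) (j : Fin N) : ga j = 0 ↔ ¬ et j = 0 := by
  have h1 := not_both ga et hind j
  have h2 := hz j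
  tauto

/-- (1) the kernel of `lin ga` has dimension `#{j | ga j = 0}` -/
theorem finrank_ker (ga et : Fin N → E)
    (hind : ∀ c : Fin N → K, lin ga c = 0 → lin et c = 0 → c = 0)
    (hz : ∀ j, ga j = 0 ∨ et j = 0) :
    wt K ga et 0 = Nat.card {j // ga j = 0} := by
  classical
  have h1 : Dsub K ga et 0 =
      (⨅ i ∈ {i | ga i ≠ 0}, LinearMap.ker (LinearMap.proj i : (Fin N → K) →ₗ[K] K)) := by
    ext c
    simp only [Submodule.mem_iInf, LinearMap.mem_ker, LinearMap.proj_apply, Set.mem_ofPred_eq]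
    rw [← lin_eq_zero_iff ga et hind hz c]
    change lin ga c = 0 * lin et c ↔ _
    rw [zero_mul]
  have h2 : Disjoint {i | ga i = 0} {i | ga i ≠ 0} := by
    rw [Set.disjoint_left]
    intro i hi hi'
    exact hi' hi
  have h3 : Set.univ ⊆ {i | ga i = 0} ∪ {i | ga i ≠ 0} := by
    intro i _
    exact em (ga i = 0)
  rw [wt, h1, LinearEquiv.finrank_eq (LinearMap.iInfKerProjEquiv K (fun _ => K) h2 h3)]
  rw [Module.finrank_fintype_fun_eq_card, ← Nat.card_eq_fintype_card]
  rfl

/-- the coordinates in `G` and in `Y` -/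
def glue (et : Fin N → E) [DecidablePred fun j => et j = 0] :
    (Fin N → K) ≃ ({j // et j = 0} → K) × ({j // ¬ et j = 0} → K) :=
  Equiv.piEquivPiSubtypeProd (fun j => et j = 0) (fun _ => K)

theorem lin_et_eq (et : Fin N → E) [DecidablePred fun j => et j = 0] (c : Fin N → K) :
    lin et c = ∑ j : {j // ¬ et j = 0}, (glue et c).2 j • et j := by
  unfold lin
  rw [← Fintype.sum_subtype_add_sum_subtype (fun j => et j = 0) (fun j => c j • et j)]
  have h1 : ∑ j : {j // et j = 0}, c j • et j = 0 :=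
    Finset.sum_eq_zero fun j _ => by rw [j.2, smul_zero]
  rw [h1, zero_add]
  rfl

theorem lin_ga_eq (ga et : Fin N → E) (hz : ∀ j, ga j = 0 ∨ et j = 0)
    [DecidablePred fun j => et j = 0] (c : Fin N → K) :
    lin ga c = ∑ j : {j // et j = 0}, (glue et c).1 j • ga j := by
  unfold lin
  rw [← Fintype.sum_subtype_add_sum_subtype (fun j => et j = 0) (fun j => c j • ga j)]
  have h1 : ∑ j : {j // ¬ et j = 0}, c j • ga j = 0 :=
    Finset.sum_eq_zero fun j _ => by rw [(hz j).resolve_right j.2, smul_zero]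
  rw [h1, add_zero]
  rfl

theorem lin_ga_zero_iff (ga et : Fin N → E)
    (hind : ∀ c : Fin N → K, lin ga c = 0 → lin et c = 0 → c = 0)
    (hz : ∀ j, ga j = 0 ∨ et j = 0)
    [DecidablePred fun j => et j = 0] (c : Fin N → K) :
    lin ga c = 0 ↔ (glue et c).1 = 0 := by
  rw [lin_eq_zero_iff ga et hind hz c]
  constructor
  · intro h
    funext j
    exact h j (fun h0 => (ga_ne_iff ga et hind hz j).1 h0 j.2)
  · intro h j hj
    have hj' : et j = 0 := by
      by_contra h0
      exact hj ((ga_ne_iff ga et hind hz j).2 h0)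
    exact congrFun h ⟨j, hj'⟩

theorem lin_et_zero_iff (ga et : Fin N → E)
    (hind : ∀ c : Fin N → K, lin ga c = 0 → lin et c = 0 → c = 0)
    (hz : ∀ j, ga j = 0 ∨ et j = 0)
    [DecidablePred fun j => et j = 0] (c : Fin N → K) :
    lin et c = 0 ↔ (glue et c).2 = 0 := by
  have hind' : ∀ c : Fin N → K, lin et c = 0 → lin ga c = 0 → c = 0 :=
    fun c h1 h2 => hind c h2 h1
  rw [lin_eq_zero_iff et ga hind' (fun j => (hz j).symm) c]
  constructor
  · intro h
    funext j
    exact h j j.2
  · intro h j hj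
    exact congrFun h ⟨j, hj⟩

/-- the square root -/
theorem exists_sqrt [Finite E] [CharP E 2] (x : E) : ∃ a : E, a ^ 2 = x := by
  have hsurj : Function.Surjective (frobenius E 2) :=
    Finite.surjective_of_injective (frobenius_inj E 2)
  obtain ⟨a, ha⟩ := hsurj x
  exact ⟨a, ha⟩

theorem sq_inj [CharP E 2] {a b : E} (h : a ^ 2 = b ^ 2) : a = b :=
  frobenius_inj E 2 h

omit [Field K] in
theorem card_fun [Fintype K] (hK : Fintype.card K = 2) (ι : Type) [Fintype ι] :
    Nat.card (ι → K) = 2 ^ Nat.card ι := by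
  classical
  rw [Nat.card_eq_fintype_card, Fintype.card_fun, hK, Nat.card_eq_fintype_card]

theorem card_Dsub [Fintype K] (hK : Fintype.card K = 2) (ga et : Fin N → E) (τ : E) :
    Nat.card {c : Fin N → K // lin ga c = τ * lin et c} = 2 ^ wt K ga et τ := by
  have h1 := Module.natCard_eq_pow_finrank (K := K) (V := Dsub K ga et τ)
  rw [Nat.card_eq_fintype_card (α := K), hK] at h1
  rw [wt, ← h1]
  rfl

theorem eq_one_of_ne [Fintype K] (hK : Fintype.card K = 2) (k : K) (hk : k ≠ 0) : k = 1 := by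
  classical
  have h1 : Fintype.card Kˣ = 1 := by rw [Fintype.card_units, hK]
  have h2 : Subsingleton Kˣ := Fintype.card_le_one_iff_subsingleton.1 h1.le
  have h3 : Units.mk0 k hk = 1 := Subsingleton.elim _ _
  have h4 := congrArg Units.val h3
  simpa using h4

/-- the additive map `(a, u) ↦ a + a² η + Σ u_j ga_j` -/
def Av [CharP E 2] {ι : Type} [Fintype ι] (η : E) (ga : ι → E) : E × (ι → K) →+ E where
  toFun p := p.1 + p.1 ^ 2 * η + ∑ j, p.2 j • ga j
  map_zero' := by simp
  map_add' := by
    intro p q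
    have h1 : (p.1 + q.1) ^ 2 = p.1 ^ 2 + q.1 ^ 2 := CharTwo.add_sq _ _
    simp only [Prod.fst_add, Prod.snd_add, Pi.add_apply, add_smul, Finset.sum_add_distrib, h1]
    ring

theorem card_ker_of_surj {A B : Type} [AddCommGroup A] [AddCommGroup B] (f : A →+ B)
    (hf : Function.Surjective f) : Nat.card A = Nat.card B * Nat.card f.ker := by
  rw [AddSubgroup.card_eq_card_quotient_mul_card_addSubgroup f.ker,
    Nat.card_congr (QuotientAddGroup.quotientKerEquivOfSurjective f hf).toEquiv]

theorem card_Av [Fintype K] [CharP K 2] [Fintype E] [CharP E 2] (hK : Fintype.card K = 2)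
    {ι : Type} [Fintype ι] (η : E) (ga : ι → E)
    (htr : η ≠ 0 → ∃ u : ι → K, Algebra.trace K E ((∑ j, u j • ga j) * η) ≠ 0) :
    Nat.card {p : E × (ι → K) // p.1 + p.1 ^ 2 * η + ∑ j, p.2 j • ga j = 0} =
      2 ^ Nat.card ι := by
  classical
  have hsurj : Function.Surjective (Av (K := K) η ga) := by
    intro x
    by_cases hη : η = 0
    · refine ⟨(x, 0), ?_⟩
      change x + x ^ 2 * η + ∑ j, (0 : ι → K) j • ga j = x
      simp [hη]
    · have key : ∀ x : E, Algebra.trace K E (x * η) = 0 → ∃ a : E, a + a ^ 2 * η = x := by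
        intro x hx
        obtain ⟨w, hw⟩ := exists_sq_add_self (K := K) (E := E) (r := 1) le_rfl
          (by rw [hK, pow_one]) (x * η) (by simp [hx])
        refine ⟨w / η, ?_⟩
        field_simp
        linear_combination hw
      by_cases hx : Algebra.trace K E (x * η) = 0
      · obtain ⟨a, ha⟩ := key x hx
        refine ⟨(a, 0), ?_⟩
        change a + a ^ 2 * η + ∑ j, (0 : ι → K) j • ga j = x
        simp [ha]
      · obtain ⟨u, hu⟩ := htr hη
        obtain ⟨a, ha⟩ := key (x - ∑ j, u j • ga j) (by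
          rw [sub_mul, map_sub, eq_one_of_ne hK _ hx, eq_one_of_ne hK _ hu, sub_self])
        refine ⟨(a, u), ?_⟩
        change a + a ^ 2 * η + ∑ j, u j • ga j = x
        rw [ha, sub_add_cancel]
  have h1 := card_ker_of_surj _ hsurj
  rw [Nat.card_prod, card_fun hK] at h1
  have h2 : 0 < Nat.card E := Nat.card_pos
  have h3 := Nat.eq_of_mul_eq_mul_left h2 h1
  rw [h3]
  rfl

end

end CntA

theorem cnt0 : CNT0 := by
  intro K E _ _ _ N f e ga et hind hs
  rw [CntA.finrank_ker ga et hind hs.zero, hs.ce]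

theorem cnt1 : CNT1 := by
  intro K E _ _ _ _ _ _ _ _ N f e ga et hK hind hs
  classical
  have hz := hs.zero
  set S : Finset (Fin N → K) := univ.filter fun c => lin ga c ≠ 0 ∧ lin et c ≠ 0 with hS
  have h1 : ∀ a ∈ univ.filter (fun a : E => a ≠ 0), 2 ^ wt K ga et (a ^ 2) - 1 =
      (S.filter fun c => lin ga c = a ^ 2 * lin et c).card := by
    intro a ha
    have ha0 : a ≠ 0 := (Finset.mem_filter.1 ha).2
    have h2 := CntA.card_Dsub hK ga et (a ^ 2)
    rw [Nat.card_eq_fintype_card, Fintype.card_subtype] at h2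
    rw [← h2]
    have h3 : (univ.filter fun c : Fin N → K => lin ga c = a ^ 2 * lin et c) =
        insert 0 (S.filter fun c => lin ga c = a ^ 2 * lin et c) := by
      ext c
      simp only [Finset.mem_filter, Finset.mem_univ, true_and, Finset.mem_insert, hS]
      constructor
      · intro h
        by_cases hc : c = 0
        · exact Or.inl hc
        · right
          have h4 : lin et c ≠ 0 := by
            intro h5
            rw [h5, mul_zero] at h
            exact hc (hind c h h5)
          refine ⟨⟨?_, h4⟩, h⟩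
          rw [h]
          exact mul_ne_zero (pow_ne_zero 2 ha0) h4
      · rintro (h | h)
        · rw [h, lin_zero, lin_zero, mul_zero]
        · exact h.2
    rw [h3, Finset.card_insert_of_notMem, Nat.add_sub_cancel]
    intro h4
    have h5 := (Finset.mem_filter.1 (Finset.mem_filter.1 h4).1).2
    rw [lin_zero] at h5
    exact h5.1 rfl
  rw [Finset.sum_congr rfl h1]
  have h2 := Finset.sum_card_bipartiteAbove_eq_sum_card_bipartiteBelow
    (s := univ.filter (fun a : E => a ≠ 0)) (t := S)
    (fun (a : E) (c : Fin N → K) => lin ga c = a ^ 2 * lin et c)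
  simp only [Finset.bipartiteAbove, Finset.bipartiteBelow] at h2
  rw [h2]
  have h3 : ∀ c ∈ S, ((univ.filter (fun a : E => a ≠ 0)).filter
      fun a => lin ga c = a ^ 2 * lin et c).card = 1 := by
    intro c hc
    obtain ⟨hg, hy⟩ := (Finset.mem_filter.1 hc).2
    obtain ⟨a, ha⟩ := CntA.exists_sqrt (lin ga c / lin et c)
    have ha0 : a ≠ 0 := by
      intro h
      rw [h, zero_pow two_ne_zero] at ha
      exact div_ne_zero hg hy ha.symm
    rw [Finset.card_eq_one]
    refine ⟨a, ?_⟩
    ext b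
    simp only [Finset.mem_filter, Finset.mem_univ, true_and, Finset.mem_singleton]
    constructor
    · rintro ⟨_, hb⟩
      apply CntA.sq_inj
      rw [ha, hb, mul_div_cancel_right₀ _ hy]
    · rintro rfl
      refine ⟨ha0, ?_⟩
      rw [ha, div_mul_cancel₀ _ hy]
  rw [Finset.sum_congr rfl h3, Finset.sum_const, smul_eq_mul, mul_one]
  have h4 : S.card = Nat.card {c : Fin N → K // lin ga c ≠ 0 ∧ lin et c ≠ 0} := by
    rw [Nat.card_eq_fintype_card, Fintype.card_subtype]
  have h5 : {c : Fin N → K // lin ga c ≠ 0 ∧ lin et c ≠ 0} ≃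
      {u : {j // et j = 0} → K // u ≠ 0} × {v : {j // ¬ et j = 0} → K // v ≠ 0} :=
    ((CntA.glue et).subtypeEquiv (p := fun c => lin ga c ≠ 0 ∧ lin et c ≠ 0)
      (q := fun p => p.1 ≠ 0 ∧ p.2 ≠ 0) (fun c => by
        rw [ne_eq, ne_eq, CntA.lin_ga_zero_iff ga et hind hz c,
          CntA.lin_et_zero_iff ga et hind hz c])).trans
      (Equiv.subtypeProdEquivProd (p := fun u => u ≠ 0) (q := fun v => v ≠ 0))
  have h6 : ∀ (ι : Type) [Fintype ι], Nat.card {u : ι → K // u ≠ 0} = 2 ^ Nat.card ι - 1 := by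
    intro ι _
    rw [← CntA.card_fun hK ι, Nat.card_eq_fintype_card, Nat.card_eq_fintype_card]
    exact Fintype.card_subtype_compl (fun u : ι → K => u = 0) |>.trans (by
      rw [Fintype.card_subtype_eq])
  rw [h4, Nat.card_congr h5, Nat.card_prod, h6, h6, hs.cf]
  have h7 : Nat.card {j // ¬ et j = 0} = e := by
    rw [← hs.ce]
    exact Nat.card_congr (Equiv.subtypeEquivRight fun j => (CntA.ga_ne_iff ga et hind hz j).symm)
  rw [h7]

theorem cnt2 : CNT2 := by
  intro K E _ _ _ _ _ _ _ N f e ga et VV hK hVV hP hs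
  classical
  have hz := hs.zero
  have hind := hP.ind
  have h7 : Nat.card {j // ¬ et j = 0} = e := by
    rw [← hs.ce]
    exact Nat.card_congr (Equiv.subtypeEquivRight fun j => (CntA.ga_ne_iff ga et hind hz j).symm)
  -- the set of pairs
  set F : E → ℕ := fun a => Nat.card {c : Fin N → K // lin ga c + a ^ 2 * lin et c = a} with hF
  have hneg : ∀ x : E, -x = x := fun x => CharTwo.neg_eq x
  have hF1 : ∀ a ∈ VV, F a = 2 ^ wt K ga et (a ^ 2) := by
    intro a ha
    obtain ⟨_, c₀, hc₀⟩ := (hVV a).1 ha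
    rw [← CntA.card_Dsub hK ga et (a ^ 2)]
    refine Nat.card_congr ((Equiv.subRight c₀).subtypeEquiv fun c => ?_)
    change lin ga c + a ^ 2 * lin et c = a ↔ lin ga (c - c₀) = a ^ 2 * lin et (c - c₀)
    rw [lin_sub, lin_sub]
    constructor
    · intro h
      have h2 := CharTwo.add_self_eq_zero (a ^ 2 * lin et c - a ^ 2 * lin et c₀)
      linear_combination h - hc₀ - h2
    · intro h
      have h2 := CharTwo.add_self_eq_zero (a ^ 2 * lin et c - a ^ 2 * lin et c₀)
      linear_combination h + hc₀ + h2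
  have hF0 : F 0 = 2 ^ e := by
    have h1 : wt K ga et 0 = e := by rw [CntA.finrank_ker ga et hind hz, hs.ce]
    rw [← h1, ← CntA.card_Dsub hK ga et 0]
    refine Nat.card_congr (Equiv.subtypeEquivRight fun c => ?_)
    rw [zero_pow two_ne_zero, zero_mul, add_zero]
  have hF2 : ∀ a, a ∉ VV → a ≠ 0 → F a = 0 := by
    intro a ha ha0
    rw [hF]
    have : IsEmpty {c : Fin N → K // lin ga c + a ^ 2 * lin et c = a} :=
      ⟨fun c => ha ((hVV a).2 ⟨ha0, c.1, c.2⟩)⟩
    exact Nat.card_of_isEmpty
  have h0 : (0 : E) ∉ VV := fun h => ((hVV 0).1 h).1 rfl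
  have hsum : ∑ a, F a = ∑ a ∈ VV, 2 ^ wt K ga et (a ^ 2) + 2 ^ e := by
    rw [← Finset.sum_subset (Finset.subset_univ (insert 0 VV)), Finset.sum_insert h0, hF0,
      Finset.sum_congr rfl hF1, add_comm]
    intro a _ ha
    rw [Finset.mem_insert, not_or] at ha
    exact hF2 a ha.2 ha.1
  rw [← hsum]
  -- the second count
  have h8 : ∑ a, F a = Nat.card {p : E × (Fin N → K) // lin ga p.2 + p.1 ^ 2 * lin et p.2 = p.1} := by
    have e1 : (Σ a : E, {c : Fin N → K // lin ga c + a ^ 2 * lin et c = a}) ≃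
        {p : E × (Fin N → K) // lin ga p.2 + p.1 ^ 2 * lin et p.2 = p.1} :=
      { toFun := fun x => ⟨(x.1, x.2.1), x.2.2⟩
        invFun := fun p => ⟨p.1.1, p.1.2, p.2⟩
        left_inv := fun x => rfl
        right_inv := fun p => rfl }
    rw [← Nat.card_congr e1, Nat.card_sigma]
  rw [h8, ← Nat.card_congr (Equiv.sigmaFiberEquiv
    (fun p : {p : E × (Fin N → K) // lin ga p.2 + p.1 ^ 2 * lin et p.2 = p.1} =>
      (CntA.glue et p.1.2).2)), Nat.card_sigma]
  have h9 : ∀ v : {j // ¬ et j = 0} → K,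
      Nat.card {p : {p : E × (Fin N → K) // lin ga p.2 + p.1 ^ 2 * lin et p.2 = p.1} //
        (CntA.glue et p.1.2).2 = v} = 2 ^ f := by
    intro v
    set η : E := ∑ j : {j // ¬ et j = 0}, v j • et j with hη
    have hlη : ∀ c : Fin N → K, (CntA.glue et c).2 = v → lin et c = η := by
      intro c hc
      rw [CntA.lin_et_eq, hc]
    have h10 := CntA.card_Av (K := K) hK η (fun j : {j // et j = 0} => ga j) (by
      intro hη0
      have h11 : lin et ((CntA.glue et).symm ((0 : {j // et j = 0} → K), v)) = η := by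
        apply hlη
        rw [Equiv.apply_symm_apply]
      obtain ⟨d, hd⟩ := hP.tr _ (by rw [h11]; exact hη0)
      refine ⟨(CntA.glue et d).1, ?_⟩
      rw [← CntA.lin_ga_eq ga et hz d]
      rw [h11] at hd
      exact hd)
    rw [hs.cf] at h10
    rw [← h10]
    refine Nat.card_congr
      { toFun := fun p => ⟨(p.1.1.1, (CntA.glue et p.1.1.2).1), ?_⟩
        invFun := fun q => ⟨⟨(q.1.1, (CntA.glue et).symm (q.1.2, v)), ?_⟩, ?_⟩
        left_inv := ?_
        right_inv := ?_ }
    · have h12 := p.1.2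
      rw [hlη _ p.2] at h12
      change p.1.1.1 + p.1.1.1 ^ 2 * η + ∑ j : {j // et j = 0}, (CntA.glue et p.1.1.2).1 j • ga j = 0
      rw [← CntA.lin_ga_eq ga et hz]
      have h13 := CharTwo.add_self_eq_zero (p.1.1.1 : E)
      linear_combination h12 + h13
    · have h12 := q.2
      change lin ga ((CntA.glue et).symm (q.1.2, v)) +
        q.1.1 ^ 2 * lin et ((CntA.glue et).symm (q.1.2, v)) = q.1.1
      rw [CntA.lin_ga_eq ga et hz, hlη _ (by rw [Equiv.apply_symm_apply]),
        Equiv.apply_symm_apply]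
      have h13 := CharTwo.add_self_eq_zero (q.1.1 : E)
      change ∑ j : {j // et j = 0}, q.1.2 j • ga j + q.1.1 ^ 2 * η = q.1.1
      linear_combination h12 - h13
    · change (CntA.glue et ((CntA.glue et).symm (q.1.2, v))).2 = v
      rw [Equiv.apply_symm_apply]
    · intro p
      apply Subtype.ext
      apply Subtype.ext
      have h12 : (CntA.glue et).symm ((CntA.glue et p.1.1.2).1, v) = p.1.1.2 := by
        rw [Equiv.symm_apply_eq]
        exact Prod.ext rfl p.2.symm
      exact Prod.ext rfl h12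
    · intro q
      apply Subtype.ext
      refine Prod.ext rfl ?_
      change (CntA.glue et ((CntA.glue et).symm (q.1.2, v))).1 = q.1.2
      rw [Equiv.apply_symm_apply]
  rw [Finset.sum_congr rfl fun v _ => h9 v, Finset.sum_const, smul_eq_mul, Finset.card_univ,
    ← Nat.card_eq_fintype_card, CntA.card_fun hK, h7, ← pow_add, add_comm e f, hs.sum]

end Pool.Agent.Lib.CPlane.S2
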