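import Pool.Agent.Lib.CPlane.P2Def

/-!
# Moore determinants over a domain; row H (`special`)
-/

namespace Pool.Agent.Lib.CPlane.P2

open Module Finset

section

variable {K A : Type} [Field K] [CommRing A] [Algebra K A] {N : ℕ}

theorem lin_add (l : Fin N → A) (c d : Fin N → K) : lin l (c + d) = lin l c + lin l d := by
  simp only [lin, Pi.add_apply, add_smul, Finset.sum_add_distrib]

theorem lin_sub (l : Fin N → A) (c d : Fin N → K) : lin l (c - d) = lin l c - lin l d := by
  simp only [lin, Pi.sub_apply, sub_smul, Finset.sum_sub_distrib]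

theorem lin_smul (l : Fin N → A) (k : K) (c : Fin N → K) : lin l (k • c) = k • lin l c := by
  simp only [lin, Pi.smul_apply, smul_assoc, Finset.smul_sum]

theorem lin_zero (l : Fin N → A) : lin l (0 : Fin N → K) = 0 := by
  simp [lin]

theorem lin_injective (l : Fin N → A) (hl : ∀ c : Fin N → K, lin l c = 0 → c = 0) :
    Function.Injective (lin (K := K) l) := by
  intro c d h
  have h1 : lin l (c - d) = 0 := by rw [lin_sub, h, sub_self]
  exact sub_eq_zero.1 (hl _ h1)

/-- `l(c) ^ (s ^ k) = Σ c_j l_j ^ (s ^ k)` -/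
theorem lin_pow [Fintype K] [CharP K 2] [CharP A 2] {r : ℕ} (hK : Fintype.card K = 2 ^ r)
    (l : Fin N → A) (c : Fin N → K) (k : ℕ) :
    (lin l c) ^ (2 ^ r) ^ k = ∑ j, c j • l j ^ (2 ^ r) ^ k := by
  unfold lin
  rw [← pow_mul, sum_pow_char_pow]
  refine Finset.sum_congr rfl fun j _ => ?_
  rw [Algebra.smul_def, mul_pow, ← map_pow, pow_mul, ← hK, FiniteField.pow_card_pow,
    Algebra.smul_def]

end

/-- Moore's determinant does not vanish on independent elements -/
theorem moore {K A : Type} [Field K] [Fintype K] [CharP K 2] [CommRing A] [IsDomain A]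
    [CharP A 2] [Algebra K A] {N r : ℕ} (hK : Fintype.card K = 2 ^ r)
    (l : Fin N → A) (hl : ∀ c : Fin N → K, lin l c = 0 → c = 0) :
    (RM N (2 ^ r) l).det ≠ 0 := by
  classical
  intro h
  obtain ⟨v, hv, hv0⟩ := Matrix.exists_vecMul_eq_zero_iff.2 h
  have hs : 1 < 2 ^ r := by
    rw [← hK]
    exact Fintype.one_lt_card
  set p : Polynomial A := ∑ k : Fin N, Polynomial.C (v k) * Polynomial.X ^ (2 ^ r) ^ (k : ℕ)
    with hp
  have hroot : ∀ c : Fin N → K, p.eval (lin l c) = 0 := by
    intro c
    rw [hp, Polynomial.eval_finsetSum]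
    have h1 : ∀ j, ∑ k : Fin N, v k * l j ^ (2 ^ r) ^ (k : ℕ) = 0 := by
      intro j
      exact congrFun hv0 j
    calc ∑ k : Fin N, Polynomial.eval (lin l c)
          (Polynomial.C (v k) * Polynomial.X ^ (2 ^ r) ^ (k : ℕ))
        = ∑ k : Fin N, ∑ j, c j • (v k * l j ^ (2 ^ r) ^ (k : ℕ)) := by
          refine Finset.sum_congr rfl fun k _ => ?_
          rw [Polynomial.eval_mul, Polynomial.eval_C, Polynomial.eval_pow, Polynomial.eval_X,
            lin_pow hK, Finset.mul_sum]
          refine Finset.sum_congr rfl fun j _ => ?_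
          rw [mul_smul_comm]
      _ = ∑ j, c j • ∑ k : Fin N, v k * l j ^ (2 ^ r) ^ (k : ℕ) := by
          rw [Finset.sum_comm]
          simp only [Finset.smul_sum]
      _ = 0 := by
          simp only [h1, smul_zero, Finset.sum_const_zero]
  have hdeg : p.natDegree < (univ.image (lin (K := K) l)).card := by
    rw [Finset.card_image_of_injective _ (lin_injective l hl), Finset.card_univ,
      Fintype.card_fun, hK, Fintype.card_fin]
    refine lt_of_le_of_lt (Polynomial.natDegree_sum_le _ _) ?_
    rw [Finset.fold_max_lt]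
    refine ⟨pow_pos (by omega) N, fun k _ => ?_⟩
    refine lt_of_le_of_lt (Polynomial.natDegree_C_mul_X_pow_le _ _) ?_
    exact Nat.pow_lt_pow_right hs k.2
  have hp0 : p = 0 := by
    refine Polynomial.eq_zero_of_natDegree_lt_card_of_eval_eq_zero' p
      (univ.image (lin (K := K) l)) ?_ hdeg
    intro x hx
    obtain ⟨c, _, rfl⟩ := Finset.mem_image.1 hx
    exact hroot c
  apply hv
  ext k
  have h2 := congrArg (fun q => Polynomial.coeff q ((2 ^ r) ^ (k : ℕ))) hp0
  simp only [hp, Polynomial.finsetSum_coeff, Polynomial.coeff_C_mul, Polynomial.coeff_X_pow,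
    Polynomial.coeff_zero] at h2
  rw [Finset.sum_eq_single k] at h2
  · simpa using h2
  · intro j _ hj
    rw [if_neg, mul_zero]
    intro h3
    exact hj (Fin.ext (Nat.pow_right_injective (by omega : 2 ≤ 2 ^ r) h3.symm))
  · intro h3
    exact absurd (Finset.mem_univ k) h3

theorem special {K E : Type} [Field K] [Fintype K] [CharP K 2] [Field E] [CharP E 2]
    [Algebra K E] {n r : ℕ} (hK : Fintype.card K = 2 ^ r) (l : Fin (n + 1) → E)
    (hlast : l (Fin.last n) = 0)
    (hind : ∀ c : Fin n → K, lin (fun j : Fin n => l j.castSucc) c = 0 → c = 0) :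
    ∃ c : E, c ≠ 0 ∧ Umin (RM n (2 ^ r) l) = Pi.single (Fin.last n) c := by
  refine ⟨Umin (RM n (2 ^ r) l) (Fin.last n), ?_, ?_⟩
  · have h := moore hK (fun j : Fin n => l j.castSucc) hind
    unfold Umin
    rw [Fin.succAbove_last]
    exact h
  · ext1 j
    by_cases h : j = Fin.last n
    · subst h
      rw [Pi.single_eq_same]
    · rw [Pi.single_eq_of_ne h]
      obtain ⟨i, hi⟩ := Fin.exists_succAbove_eq (Ne.symm h)
      unfold Umin
      refine Matrix.det_eq_zero_of_column_eq_zero i fun k => ?_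
      rw [Matrix.submatrix_apply, hi, id]
      simp only [RM, Matrix.of_apply]
      rw [hlast, zero_pow]
      exact pow_ne_zero _ (pow_ne_zero _ two_ne_zero)

end Pool.Agent.Lib.CPlane.P2
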