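import Pool.Agent.Lib.CPlane.P2Map
import Pool.Agent.Lib.CPlane.P2Moore

/-!
# Orders and degrees of determinants
-/

namespace Pool.Agent.Lib.CPlane.M0

open Finset Polynomial Pool.Agent.Lib.CPlane.P2

/-- distinct powers of two -/
theorem two_pow_card_le (S : Finset ℕ) : 2 ^ S.card ≤ (∑ i ∈ S, 2 ^ i) + 1 := by
  induction S using Finset.induction_on_max with
  | empty => simp
  | insert a s ha ih =>
    have h1 : a ∉ s := fun h => lt_irrefl _ (ha a h)
    rw [Finset.card_insert_of_notMem h1, Finset.sum_insert h1, pow_succ]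
    have h2 : s.card ≤ a := by
      have : s ⊆ Finset.range a := fun x hx => Finset.mem_range.2 (ha x hx)
      simpa using Finset.card_le_card this
    have h3 : 2 ^ s.card ≤ 2 ^ a := Nat.pow_le_pow_right (by norm_num) h2
    omega

/-- distinct powers of two with exponents below `n` -/
theorem sum_two_pow_le (n : ℕ) (S : Finset ℕ) (hS : ∀ i ∈ S, i < n) :
    (∑ i ∈ S, 2 ^ i) + 2 ^ (n - S.card) ≤ 2 ^ n := by
  have h0 : S ⊆ Finset.range n := fun x hx => Finset.mem_range.2 (hS x hx)
  have h1 := two_pow_card_le (Finset.range n \ S)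
  have h2 : (Finset.range n \ S).card = n - S.card := by
    rw [Finset.card_sdiff_of_subset h0, Finset.card_range]
  have h3 : ∑ i ∈ Finset.range n \ S, 2 ^ i + ∑ i ∈ S, 2 ^ i = ∑ i ∈ Finset.range n, 2 ^ i :=
    Finset.sum_sdiff h0
  have h4 : ∑ i ∈ Finset.range n, 2 ^ i = 2 ^ n - 1 := by
    have := Nat.geomSum_eq (le_refl 2) n
    simpa using this
  have h5 : 0 < 2 ^ n := by positivity
  rw [h2] at h1
  omega

/-- divisibility of a determinant by a power, from divisibilities on some columns -/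
theorem det_dvd {A : Type} [CommRing A] {N : ℕ} (M : Matrix (Fin N) (Fin N) A)
    (C : Finset (Fin N)) (π : A) (c : Fin N → ℕ) (h : ∀ i ∈ C, ∀ r, π ^ c r ∣ M r i) (d : ℕ)
    (hd : ∀ S : Finset (Fin N), S.card = C.card → d ≤ ∑ r ∈ S, c r) : π ^ d ∣ M.det := by
  rw [Matrix.det_apply']
  refine Finset.dvd_sum fun σ _ => ?_
  refine dvd_mul_of_dvd_right ?_ _
  have h1 : ∏ i ∈ C, M (σ i) i ∣ ∏ i, M (σ i) i :=
    Finset.prod_dvd_prod_of_subset _ _ _ (Finset.subset_univ C)
  refine dvd_trans ?_ h1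
  have h2 : ∏ i ∈ C, π ^ c (σ i) ∣ ∏ i ∈ C, M (σ i) i :=
    Finset.prod_dvd_prod_of_dvd _ _ fun i hi => h i hi (σ i)
  refine dvd_trans ?_ h2
  rw [Finset.prod_pow_eq_pow_sum]
  refine pow_dvd_pow _ ?_
  have h3 := hd (C.map σ.toEmbedding) (Finset.card_map _)
  rw [Finset.sum_map] at h3
  exact h3

/-- the same with the columns replaced by a subspace -/
theorem det_dvd_sub {F A : Type} [Field F] [CommRing A] [Algebra F A] {N : ℕ}
    (M : Matrix (Fin N) (Fin N) A) (D : Submodule F (Fin N → F)) (π : A) (c : Fin N → ℕ)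
    (h : ∀ x ∈ D, ∀ r, π ^ c r ∣ ∑ i, M r i * algebraMap F A (x i)) (d : ℕ)
    (hd : ∀ S : Finset (Fin N), S.card = Module.finrank F D → d ≤ ∑ r ∈ S, c r) :
    π ^ d ∣ M.det := by
  classical
  obtain ⟨D', hD'⟩ := D.exists_isCompl
  let b1 := ((Module.finBasis F D).prod (Module.finBasis F D')).map
    (Submodule.prodEquivOfIsCompl D D' hD')
  have hb1 : ∀ i, b1 (Sum.inl i) ∈ D := by
    intro i
    have : b1 (Sum.inl i) = (Module.finBasis F D i : Fin N → F) := by
      simp [b1]
    rw [this]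
    exact (Module.finBasis F D i).2
  have hcard : Fintype.card (Fin (Module.finrank F D) ⊕ Fin (Module.finrank F D')) = N := by
    rw [← Module.finrank_eq_card_basis b1, Module.finrank_fintype_fun_eq_card, Fintype.card_fin]
  let e := Fintype.equivFinOfCardEq hcard
  let b := b1.reindex e
  have hb : ∀ i, b (e (Sum.inl i)) ∈ D := by
    intro i
    have : b (e (Sum.inl i)) = b1 (Sum.inl i) := by simp [b]
    rw [this]
    exact hb1 i
  let P := (Pi.basisFun F (Fin N)).toMatrix b
  have hP : IsUnit P.det := by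
    let _ := (Pi.basisFun F (Fin N)).invertibleToMatrix b
    exact Matrix.isUnit_det_of_invertible P
  have hPa : ∀ i j, P i j = b j i := fun i j => rfl
  have hdet : (M * P.map (algebraMap F A)).det = M.det * algebraMap F A P.det := by
    rw [Matrix.det_mul, RingHom.map_det]
    rfl
  have hu : IsUnit (algebraMap F A P.det) := hP.map _
  rw [← hu.dvd_mul_right, ← hdet]
  have hinj : Function.Injective (fun i : Fin (Module.finrank F D) => e (Sum.inl i)) :=
    e.injective.comp Sum.inl_injective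
  refine det_dvd _ (Finset.univ.map ⟨_, hinj⟩) π c ?_ d ?_
  · intro i hi r
    obtain ⟨i0, -, rfl⟩ := Finset.mem_map.1 hi
    exact h _ (hb i0) r
  · intro S hS
    refine hd S ?_
    rw [hS, Finset.card_map, Finset.card_univ, Fintype.card_fin]

/-- degrees of determinants -/
theorem natDegree_det_le {A : Type} [CommRing A] {N : ℕ} (M : Matrix (Fin N) (Fin N) A[X])
    (d : ℕ) (h : ∀ σ : Equiv.Perm (Fin N), (∃ i, M (σ i) i = 0) ∨
      ∑ i, (M (σ i) i).natDegree ≤ d) : M.det.natDegree ≤ d := by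
  rw [Matrix.det_apply]
  refine natDegree_sum_le_of_forall_le _ _ fun σ _ => ?_
  have h0 : (Equiv.Perm.sign σ • ∏ i, M (σ i) i).natDegree ≤ (∏ i, M (σ i) i).natDegree := by
    rcases Int.units_eq_one_or (Equiv.Perm.sign σ) with h1 | h1
    · rw [h1, one_smul]
    · rw [h1]
      simp
  refine h0.trans ?_
  rcases h σ with ⟨i, hi⟩ | h1
  · have h2 : ∏ i, M (σ i) i = 0 := Finset.prod_eq_zero (Finset.mem_univ i) hi
    rw [h2]
    simp
  · exact (natDegree_prod_le _ _).trans h1

end Pool.Agent.Lib.CPlane.M0
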