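import Pool.Agent.Lib.CPlane.M0Bm
import Pool.Agent.Lib.CPlane.M0Ord

/-!
# The degrees of `H_k` and of `y_(N-2)(U)`
-/

namespace Pool.Agent.Lib.CPlane.S2

open Finset Pool.Agent.Lib.CPlane.P2 Pool.Agent.Lib.CPlane.M0

/-- degree bound: `Z` = rows vanishing outside the columns `C`, `W` = rows vanishing on `C` -/
theorem natDegree_det_le' {A : Type} [CommRing A] {N : ℕ}
    (M : Matrix (Fin N) (Fin N) (Polynomial A)) (C : Finset (Fin N)) (c : Fin N → ℕ)
    (h1 : ∀ r, ∀ i ∈ C, (M r i).natDegree ≤ c r) (h2 : ∀ r, ∀ i, i ∉ C → (M r i).natDegree = 0)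
    (Z W : Finset (Fin N)) (hZ : ∀ r ∈ Z, ∀ i, i ∉ C → M r i = 0)
    (hW : ∀ r ∈ W, ∀ i ∈ C, M r i = 0) (d : ℕ)
    (hd : ∀ S : Finset (Fin N), S.card = C.card → Z ⊆ S → (∀ r ∈ W, r ∉ S) →
      ∑ r ∈ S, c r ≤ d) : M.det.natDegree ≤ d := by
  classical
  refine natDegree_det_le M d fun σ => ?_
  by_cases hz : Z ⊆ C.map σ.toEmbedding
  · by_cases hw : ∀ r ∈ W, r ∉ C.map σ.toEmbedding
    · right
      have h3 := hd _ (Finset.card_map _) hz hw
      rw [Finset.sum_map] at h3
      refine le_trans ?_ h3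
      rw [← Finset.sum_subset (Finset.subset_univ C) (f := fun i => (M (σ i) i).natDegree)]
      · exact Finset.sum_le_sum fun i hi => h1 _ i hi
      · intro i _ hi
        exact h2 _ i hi
    · left
      push Not at hw
      obtain ⟨r, hr, hr'⟩ := hw
      obtain ⟨i, hi, rfl⟩ := Finset.mem_map.1 hr'
      exact ⟨i, hW _ hr i hi⟩
  · left
    rw [Finset.not_subset] at hz
    obtain ⟨r, hr, hr'⟩ := hz
    refine ⟨σ.symm r, ?_⟩
    rw [Equiv.apply_symm_apply]
    refine hZ r hr _ fun hi => hr' ?_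
    exact Finset.mem_map.2 ⟨σ.symm r, hi, by simp⟩

/-- sums of the row weights `2 ^ (r - 1)` -/
theorem sum_rows {n : ℕ} (S : Finset (Fin (n + 2))) (h0 : (0 : Fin (n + 2)) ∉ S) (b : ℕ)
    (hb : ∀ r ∈ S, (r : ℕ) ≤ b) :
    ∑ r ∈ S, 2 ^ ((r : ℕ) - 1) + 2 ^ (b - S.card) ≤ 2 ^ b := by
  classical
  have hpos : ∀ r ∈ S, 1 ≤ (r : ℕ) := by
    intro r hr
    rcases Nat.eq_zero_or_pos (r : ℕ) with h | h
    · exact absurd (by rwa [show r = 0 from Fin.ext h] at hr) h0
    · exact h
  have hinj : Set.InjOn (fun r : Fin (n + 2) => (r : ℕ) - 1) S := by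
    intro r hr s hs h
    have h1 := hpos r hr
    have h2 := hpos s hs
    simp only at h
    exact Fin.ext (by omega)
  have h3 := sum_two_pow_le b (S.image fun r : Fin (n + 2) => (r : ℕ) - 1) (by
    intro i hi
    obtain ⟨r, hr, rfl⟩ := Finset.mem_image.1 hi
    have h1 := hpos r hr
    have h2 := hb r hr
    omega)
  rw [Finset.sum_image hinj, Finset.card_image_of_injOn hinj] at h3
  exact h3

variable {E : Type} [Field E] [CharP E 2] {n f e : ℕ} (ga et : Fin (n + 2) → E)

omit [CharP E 2] in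
theorem exists_cols (h : Split ga et f e) : ∃ C : Finset (Fin (n + 2)), C.card = e ∧
    (∀ i ∈ C, ga i = 0) ∧ ∀ i, i ∉ C → et i = 0 := by
  classical
  refine ⟨univ.filter fun i => ga i = 0, ?_, ?_, ?_⟩
  · rw [← h.ce, Nat.card_eq_fintype_card, Fintype.card_subtype]
  · intro i hi
    exact (Finset.mem_filter.1 hi).2
  · intro i hi
    have h1 : ga i ≠ 0 := fun h0 => hi (Finset.mem_filter.2 ⟨Finset.mem_univ _, h0⟩)
    exact (h.zero i).resolve_left h1

/-- weights of the rows -/
def cw (n : ℕ) (Z : Finset (Fin (n + 2))) (r : Fin (n + 2)) : ℕ :=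
  if r ∈ insert 0 Z then 0 else 2 ^ ((r : ℕ) - 1)

omit [CharP E 2] in
theorem natDegree_RT (r : Fin (n + 1)) (i : Fin (n + 2)) :
    (RT ga et r i).natDegree ≤ 2 ^ (r : ℕ) := by
  unfold RT
  rw [Matrix.of_apply]
  refine (Polynomial.natDegree_add_le _ _).trans (max_le ?_ ?_)
  · rw [Polynomial.natDegree_C]
    positivity
  · refine (Polynomial.natDegree_mul_C_le _ _).trans ?_
    exact Polynomial.natDegree_X_pow_le _

omit [CharP E 2] in
theorem natDegree_RT_zero (r : Fin (n + 1)) (i : Fin (n + 2)) (hi : et i = 0) :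
    (RT ga et r i).natDegree = 0 := by
  unfold RT
  rw [Matrix.of_apply, hi, zero_pow (by positivity), Polynomial.C_0, mul_zero, add_zero,
    Polynomial.natDegree_C]

omit [CharP E 2] in
/-- the three kinds of determinants -/
theorem natDegree_cmat (C : Finset (Fin (n + 2))) (hC : ∀ i, i ∉ C → et i = 0)
    (g : Fin (n + 2) → E) (R : Matrix (Fin (n + 1)) (Fin (n + 2)) (Polynomial E))
    (Z' : Finset (Fin (n + 1)))
    (hR1 : ∀ r, r ∉ Z' → R r = RT ga et r)
    (hR2 : ∀ r ∈ Z', ∀ i, (R r i).natDegree = 0)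
    (Z W : Finset (Fin (n + 2)))
    (hZ : ∀ r ∈ Z, ∀ i, i ∉ C → cmat R (fun i => Polynomial.C (g i)) r i = 0)
    (hW : ∀ r ∈ W, ∀ i ∈ C, cmat R (fun i => Polynomial.C (g i)) r i = 0) (d : ℕ)
    (hd : ∀ S : Finset (Fin (n + 2)), S.card = C.card → Z ⊆ S → (∀ r ∈ W, r ∉ S) →
      ∑ r ∈ S, cw n (Z'.map (Fin.succEmb _)) r ≤ d) :
    (cmat R (fun i => Polynomial.C (g i))).det.natDegree ≤ d := by
  refine natDegree_det_le' _ C (cw n (Z'.map (Fin.succEmb _))) ?_ ?_ Z W hZ hW d hd
  · intro r i _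
    refine Fin.cases ?_ (fun r => ?_) r
    · rw [cmat_zero, Polynomial.natDegree_C]
      exact Nat.zero_le _
    · rw [cmat_succ]
      by_cases hr : r ∈ Z'
      · rw [hR2 r hr]
        exact Nat.zero_le _
      · rw [hR1 r hr]
        have h1 : r.succ ∉ insert 0 (Z'.map (Fin.succEmb _)) := by
          intro h
          rcases Finset.mem_insert.1 h with h | h
          · exact Fin.succ_ne_zero _ h
          · obtain ⟨s, hs, hs'⟩ := Finset.mem_map.1 h
            exact hr (by rwa [← Fin.succ_injective _ hs'])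
        unfold cw
        rw [if_neg h1]
        have h2 := natDegree_RT ga et r i
        simpa using h2
  · intro r i hi
    refine Fin.cases ?_ (fun r => ?_) r
    · rw [cmat_zero, Polynomial.natDegree_C]
    · rw [cmat_succ]
      by_cases hr : r ∈ Z'
      · exact hR2 r hr i
      · rw [hR1 r hr]
        exact natDegree_RT_zero ga et r i (hC i hi)

/-- the sum of the row weights -/
theorem sum_cw (S Z : Finset (Fin (n + 2))) (b : ℕ) (hb : ∀ r ∈ S, r ∉ insert 0 Z → (r : ℕ) ≤ b) :
    ∑ r ∈ S, cw n Z r + 2 ^ (b - (S \ insert 0 Z).card) ≤ 2 ^ b := by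
  classical
  have h1 : ∑ r ∈ S, cw n Z r = ∑ r ∈ S \ insert 0 Z, 2 ^ ((r : ℕ) - 1) := by
    rw [← Finset.sum_subset (Finset.sdiff_subset : S \ insert 0 Z ⊆ S)]
    · refine Finset.sum_congr rfl fun r hr => ?_
      unfold cw
      rw [if_neg (Finset.mem_sdiff.1 hr).2]
    · intro r hr hr'
      unfold cw
      rw [if_pos]
      by_contra h
      exact hr' (Finset.mem_sdiff.2 ⟨hr, h⟩)
  rw [h1]
  refine sum_rows _ ?_ b ?_
  · intro h
    exact (Finset.mem_sdiff.1 h).2 (Finset.mem_insert_self _ _)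
  · intro r hr
    exact hb r (Finset.mem_sdiff.1 hr).1 (Finset.mem_sdiff.1 hr).2

omit [CharP E 2] in
theorem Split.card_le (h : Split ga et f e) : f - 1 + e = n + 1 := by
  have h1 := h.sum
  have h2 := h.two_f
  omega

omit [CharP E 2] in
/-- `deg g_k(U)` -/
theorem deg_g (h : Split ga et f e) (k : ℕ) :
    (cmat (RT ga et) (fun i => Polynomial.C (ga i ^ 2 ^ k))).det.natDegree + 2 ^ (f - 1) ≤
      2 ^ (n + 1) := by
  classical
  obtain ⟨C, hc, hC1, hC2⟩ := exists_cols ga et h
  have hs := Split.card_le ga et h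
  have h1 : 2 ^ (f - 1) ≤ 2 ^ (n + 1) := Nat.pow_le_pow_right (by norm_num) (by omega)
  have h2 := natDegree_cmat ga et C hC2 (fun i => ga i ^ 2 ^ k) (RT ga et) ∅
    (fun r _ => rfl) (fun r hr => absurd hr (Finset.notMem_empty r)) ∅ {0}
    (fun r hr => absurd hr (Finset.notMem_empty r))
    (by
      intro r hr i hi
      rw [Finset.mem_singleton.1 hr, cmat_zero, hC1 i hi, zero_pow (by positivity),
        Polynomial.C_0])
    (2 ^ (n + 1) - 2 ^ (f - 1)) (by
      intro S hS _ hW
      have h0 : (0 : Fin (n + 2)) ∉ S := hW 0 (Finset.mem_singleton_self 0)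
      have h3 := sum_cw S ((∅ : Finset (Fin (n + 1))).map (Fin.succEmb _)) (n + 1)
        (fun r _ _ => by omega)
      have h4 : S \ insert 0 ((∅ : Finset (Fin (n + 1))).map (Fin.succEmb _)) = S := by
        rw [Finset.map_empty]
        refine Finset.sdiff_eq_self_of_disjoint ?_
        rw [Finset.disjoint_insert_right]
        exact ⟨h0, Finset.disjoint_empty_right _⟩
      rw [h4, hS, hc, show n + 1 - e = f - 1 by omega] at h3
      omega)
  omega

omit [CharP E 2] in
/-- `deg y_k(U)` -/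
theorem deg_y (h : Split ga et f e) (k : ℕ) :
    (cmat (RT ga et) (fun i => Polynomial.C (et i ^ 2 ^ k))).det.natDegree + 2 ^ f ≤
      2 ^ (n + 1) := by
  classical
  obtain ⟨C, hc, hC1, hC2⟩ := exists_cols ga et h
  have hs := Split.card_le ga et h
  have he := h.two_e
  have hf := h.two_f
  have h1 : 2 ^ f ≤ 2 ^ (n + 1) := Nat.pow_le_pow_right (by norm_num) (by omega)
  have h2 := natDegree_cmat ga et C hC2 (fun i => et i ^ 2 ^ k) (RT ga et) ∅
    (fun r _ => rfl) (fun r hr => absurd hr (Finset.notMem_empty r)) {0} ∅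
    (by
      intro r hr i hi
      rw [Finset.mem_singleton.1 hr, cmat_zero, hC2 i hi, zero_pow (by positivity),
        Polynomial.C_0])
    (fun r hr => absurd hr (Finset.notMem_empty r))
    (2 ^ (n + 1) - 2 ^ f) (by
      intro S hS hZ _
      have h0 : (0 : Fin (n + 2)) ∈ S := hZ (Finset.mem_singleton_self 0)
      have h3 := sum_cw S ((∅ : Finset (Fin (n + 1))).map (Fin.succEmb _)) (n + 1)
        (fun r _ _ => by omega)
      have h4 : (S \ insert 0 ((∅ : Finset (Fin (n + 1))).map (Fin.succEmb _))).card = e - 1 := by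
        rw [Finset.map_empty, insert_empty_eq, Finset.sdiff_singleton_eq_erase,
          Finset.card_erase_of_mem h0, hS, hc]
      rw [h4, show n + 1 - (e - 1) = f by omega] at h3
      omega)
  omega

/-- `deg Num_kj` -/
theorem deg_Nu (h : Split ga et f e) (k : ℕ) (j : Fin (n + 1)) :
    2 * (Nu ga et k j).natDegree + 2 ^ (j : ℕ) + 3 * 2 ^ (f - 1) ≤ 2 ^ (n + 2) := by
  classical
  obtain ⟨C, hc, hC1, hC2⟩ := exists_cols ga et h
  have hs := Split.card_le ga et h
  have he := h.two_e
  have hf := h.two_f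
  have h1 : 2 ^ f ≤ 2 ^ (n + 1) := Nat.pow_le_pow_right (by norm_num) (by omega)
  have hff : 2 ^ f = 2 * 2 ^ (f - 1) := by
    rw [← pow_succ']
    congr 1
    omega
  have hnn : 2 ^ (n + 2) = 2 * 2 ^ (n + 1) := by rw [← pow_succ']
  have key := fun d => natDegree_cmat ga et C hC2 (fun i => ga i ^ 2 ^ k)
    ((RT ga et).updateRow j (fun i => Polynomial.C (et i ^ 2 ^ k))) {j}
    (fun r hr => by
      rw [Finset.mem_singleton] at hr
      ext1 i
      rw [Matrix.updateRow_ne hr])
    (fun r hr i => by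
      rw [Finset.mem_singleton.1 hr, Matrix.updateRow_self, Polynomial.natDegree_C])
    {j.succ} {0}
    (by
      intro r hr i hi
      rw [Finset.mem_singleton.1 hr, cmat_succ, Matrix.updateRow_self, hC2 i hi,
        zero_pow (by positivity), Polynomial.C_0])
    (by
      intro r hr i hi
      rw [Finset.mem_singleton.1 hr, cmat_zero, hC1 i hi, zero_pow (by positivity),
        Polynomial.C_0]) d
  simp only [← Nu_eq_det] at key
  by_cases hj : f - 1 ≤ (j : ℕ)
  · have hpj : 2 ^ (f - 1) ≤ 2 ^ (j : ℕ) := Nat.pow_le_pow_right (by norm_num) hj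
    have h2 := key (2 ^ (n + 1) - 2 ^ (f - 1) - 2 ^ (j : ℕ)) (by
      intro S hS hZ hW
      have h0 : (0 : Fin (n + 2)) ∉ S := hW 0 (Finset.mem_singleton_self 0)
      have hjS : j.succ ∈ S := hZ (Finset.mem_singleton_self _)
      have h3 := sum_rows S h0 (n + 1) (fun r _ => by omega)
      have h4 : ∑ r ∈ S, cw n (({j} : Finset (Fin (n + 1))).map (Fin.succEmb _)) r +
          2 ^ (j : ℕ) = ∑ r ∈ S, 2 ^ ((r : ℕ) - 1) := by
        rw [← Finset.add_sum_erase S _ hjS, ← Finset.add_sum_erase S (fun r => 2 ^ ((r : ℕ) - 1))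
          hjS]
        have h5 : cw n (({j} : Finset (Fin (n + 1))).map (Fin.succEmb _)) j.succ = 0 := by
          unfold cw
          rw [if_pos]
          simp
        have h6 : ∑ r ∈ S.erase j.succ, cw n (({j} : Finset (Fin (n + 1))).map (Fin.succEmb _)) r
            = ∑ r ∈ S.erase j.succ, 2 ^ ((r : ℕ) - 1) := by
          refine Finset.sum_congr rfl fun r hr => ?_
          unfold cw
          rw [if_neg]
          intro h7
          rcases Finset.mem_insert.1 h7 with h7 | h7
          · exact h0 (h7 ▸ Finset.mem_of_mem_erase hr)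
          · rw [Finset.map_singleton, Finset.mem_singleton] at h7
            exact Finset.ne_of_mem_erase hr h7
        rw [h5, h6, zero_add, add_comm]
        congr 1
      rw [hS, hc, show n + 1 - e = f - 1 by omega] at h3
      omega)
    have h8 : 2 ^ (f - 1) + 2 ^ (j : ℕ) ≤ 2 ^ (n + 1) := by
      have hj2 := j.2
      rcases Nat.lt_or_ge (j : ℕ) n with h9 | h9
      · have h10 : 2 ^ (j : ℕ) ≤ 2 ^ n := Nat.pow_le_pow_right (by norm_num) h9.le
        have h11 : 2 ^ (f - 1) ≤ 2 ^ n := Nat.pow_le_pow_right (by norm_num) (by omega)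
        rw [pow_succ]
        omega
      · have h10 : (j : ℕ) = n := by omega
        have h11 : 2 ^ (f - 1) ≤ 2 ^ n := Nat.pow_le_pow_right (by norm_num) (by omega)
        rw [h10, pow_succ]
        omega
    omega
  · push Not at hj
    have hpj : 2 ^ (j : ℕ) ≤ 2 ^ (f - 1) := Nat.pow_le_pow_right (by norm_num) hj.le
    have h2 := key (2 ^ (n + 1) - 2 ^ f) (by
      intro S hS hZ hW
      have h0 : (0 : Fin (n + 2)) ∉ S := hW 0 (Finset.mem_singleton_self 0)
      have hjS : j.succ ∈ S := hZ (Finset.mem_singleton_self _)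
      have h3 := sum_cw S (({j} : Finset (Fin (n + 1))).map (Fin.succEmb _)) (n + 1)
        (fun r _ _ => by omega)
      have h4 : (S \ insert 0 (({j} : Finset (Fin (n + 1))).map (Fin.succEmb _))).card
          = e - 1 := by
        rw [Finset.sdiff_insert_of_notMem h0, Finset.map_singleton,
          Finset.sdiff_singleton_eq_erase]
        rw [show (Fin.succEmb (n + 1)) j = j.succ from rfl, Finset.card_erase_of_mem hjS, hS, hc]
      rw [h4, show n + 1 - (e - 1) = f by omega] at h3
      omega)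
    omega

theorem deg : DEG := by
  intro E _ _ n f e ga et h k
  have hs := Split.card_le ga et h
  have he := h.two_e
  have hf := h.two_f
  have hff : 2 ^ f = 2 * 2 ^ (f - 1) := by
    rw [← pow_succ']
    congr 1
    omega
  have hnn : 2 ^ (n + 2) = 2 * 2 ^ (n + 1) := by rw [← pow_succ']
  have h1 := deg_g ga et h k
  have h2 := deg_y ga et h k
  have h3 : (Qf (tk ga et k) (Uv ga et)).natDegree ≤ 2 ^ (n + 2) - 3 * 2 ^ (f - 1) := by
    rw [Qf_eq_mul]
    refine Polynomial.natDegree_mul_le.trans ?_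
    omega
  have h4 : (∑ j : Fin (n + 1), (Nu ga et k j) ^ 2 * Polynomial.X ^ 2 ^ (j : ℕ)).natDegree ≤
      2 ^ (n + 2) - 3 * 2 ^ (f - 1) := by
    refine Polynomial.natDegree_sum_le_of_forall_le _ _ fun j _ => ?_
    refine Polynomial.natDegree_mul_le.trans ?_
    have h5 := deg_Nu ga et h k j
    have h6 : ((Nu ga et k j) ^ 2).natDegree ≤ 2 * (Nu ga et k j).natDegree :=
      Polynomial.natDegree_pow_le
    have h7 : (Polynomial.X ^ 2 ^ (j : ℕ) : Polynomial E).natDegree ≤ 2 ^ (j : ℕ) :=
      Polynomial.natDegree_X_pow_le _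
    omega
  have h8 : (Hk ga et k).natDegree ≤ 2 ^ (n + 2) - 3 * 2 ^ (f - 1) := by
    unfold Hk
    exact (Polynomial.natDegree_add_le _ _).trans (max_le h3 h4)
  omega

theorem degp : DEGP := by
  classical
  intro E _ _ n f e ga et h
  obtain ⟨C, hc, hC1, hC2⟩ := exists_cols ga et h
  have hs := Split.card_le ga et h
  have he := h.two_e
  have hf := h.two_f
  have h1 : 2 ^ (f - 1) ≤ 2 ^ n := Nat.pow_le_pow_right (by norm_num) (by omega)
  have hrow : (cmat (RT ga et) (fun i => Polynomial.C (et i ^ 2 ^ n))).det =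
      (cmat ((RT ga et).updateRow (Fin.last n) (fun i => Polynomial.C (ga i ^ 2 ^ n)))
        (fun i => Polynomial.C (et i ^ 2 ^ n))).det := by
    rw [← Matrix.det_updateRow_add_smul_self (cmat ((RT ga et).updateRow (Fin.last n)
      (fun i => Polynomial.C (ga i ^ 2 ^ n))) (fun i => Polynomial.C (et i ^ 2 ^ n)))
      (i := (Fin.last n).succ) (j := 0) (Fin.succ_ne_zero _) (Polynomial.X ^ 2 ^ n)]
    congr 1
    ext1 a b
    by_cases ha : a = (Fin.last n).succ
    · subst ha
      rw [Matrix.updateRow_self, Pi.add_apply, Pi.smul_apply, cmat_succ, cmat_succ, cmat_zero,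
        Matrix.updateRow_self, smul_eq_mul]
      simp only [RT, Matrix.of_apply, Fin.val_last]
    · rw [Matrix.updateRow_ne ha]
      revert ha
      refine Fin.cases (fun _ => rfl) (fun a ha => ?_) a
      rw [cmat_succ, cmat_succ, Matrix.updateRow_ne fun h => ha (by rw [h])]
  have h2 := natDegree_cmat ga et C hC2 (fun i => et i ^ 2 ^ n)
    ((RT ga et).updateRow (Fin.last n) (fun i => Polynomial.C (ga i ^ 2 ^ n))) {Fin.last n}
    (fun r hr => by
      rw [Finset.mem_singleton] at hr
      ext1 i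
      rw [Matrix.updateRow_ne hr])
    (fun r hr i => by
      rw [Finset.mem_singleton.1 hr, Matrix.updateRow_self, Polynomial.natDegree_C])
    {0} {(Fin.last n).succ}
    (by
      intro r hr i hi
      rw [Finset.mem_singleton.1 hr, cmat_zero, hC2 i hi, zero_pow (by positivity),
        Polynomial.C_0])
    (by
      intro r hr i hi
      rw [Finset.mem_singleton.1 hr, cmat_succ, Matrix.updateRow_self, hC1 i hi,
        zero_pow (by positivity), Polynomial.C_0])
    (2 ^ n - 2 ^ (f - 1)) (by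
      intro S hS hZ hW
      have h0 : (0 : Fin (n + 2)) ∈ S := hZ (Finset.mem_singleton_self 0)
      have hl : (Fin.last n).succ ∉ S := hW _ (Finset.mem_singleton_self _)
      have h3 := sum_cw S (({Fin.last n} : Finset (Fin (n + 1))).map (Fin.succEmb _)) n
        (fun r hr _ => by
          have h5 : r ≠ Fin.last (n + 1) := fun h6 => hl (by rw [Fin.succ_last, ← h6]; exact hr)
          have h6 : (r : ℕ) ≠ n + 1 := fun h7 => h5 (Fin.ext h7)
          omega)
      have h4 : (S \ insert 0 (({Fin.last n} : Finset (Fin (n + 1))).map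
          (Fin.succEmb _))).card = e - 1 := by
        rw [Finset.map_singleton, Finset.pair_comm,
          show (Fin.succEmb (n + 1)) (Fin.last n) = (Fin.last n).succ from rfl,
          Finset.sdiff_insert_of_notMem hl, Finset.sdiff_singleton_eq_erase,
          Finset.card_erase_of_mem h0, hS, hc]
      rw [h4, show n - (e - 1) = f - 1 by omega] at h3
      omega)
  rw [← hrow, ← yU_eq_det] at h2
  omega

end Pool.Agent.Lib.CPlane.S2
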