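import Pool.Agent.Lib.CPlane.M0Stat

/-!
# (M0), row DER: `dH_k/dT = Num_k0 (y_0(U) + Num_k0)`
-/

namespace Pool.Agent.Lib.CPlane.S2

open Finset Pool.Agent.Lib.CPlane.P2

theorem deriv_X_pow {E : Type} [Field E] [CharP E 2] (k : ℕ) :
    Polynomial.derivative ((Polynomial.X : Polynomial E) ^ 2 ^ k) = if k = 0 then 1 else 0 := by
  by_cases hk : k = 0
  · subst hk
    rw [if_pos rfl, pow_zero, pow_one, Polynomial.derivative_X]
  · rw [if_neg hk, Polynomial.derivative_X_pow]
    obtain ⟨l, rfl⟩ := Nat.exists_eq_succ_of_ne_zero hk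
    have h : ((2 ^ (l + 1) : ℕ) : E) = 0 := by
      rw [pow_succ, Nat.cast_mul]
      have : ((2 : ℕ) : E) = 0 := CharP.cast_eq_zero E 2
      rw [this, mul_zero]
    rw [Nat.succ_eq_add_one, h, Polynomial.C_0, zero_mul]

theorem deriv_RT {E : Type} [Field E] [CharP E 2] {n : ℕ} (ga et : Fin (n + 2) → E)
    (k : Fin (n + 1)) (j : Fin (n + 2)) :
    Polynomial.derivative (RT ga et k j) = if k = 0 then Polynomial.C (et j ^ 2 ^ 0) else 0 := by
  unfold RT
  rw [Matrix.of_apply, Polynomial.derivative_add, Polynomial.derivative_C, zero_add,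
    Polynomial.derivative_mul, Polynomial.derivative_C, mul_zero, add_zero, deriv_X_pow]
  by_cases hk : k = 0
  · subst hk
    rw [if_pos rfl, if_pos (by rfl), one_mul]
    rfl
  · rw [if_neg hk, if_neg, zero_mul]
    intro h
    exact hk (Fin.ext h)

theorem RT_deriv_U {E : Type} [Field E] [CharP E 2] {n : ℕ} (ga et : Fin (n + 2) → E)
    (k : Fin (n + 1)) :
    ∑ j, RT ga et k j * Polynomial.derivative (Uv ga et j) = if k = 0 then yU ga et 0 else 0 := by
  have : CharP (Polynomial E) 2 := inferInstance
  have h := congrArg Polynomial.derivative (R_Umin (RT ga et) k)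
  rw [Polynomial.derivative_sum, Polynomial.derivative_zero] at h
  simp only [Polynomial.derivative_mul, deriv_RT] at h
  rw [Finset.sum_add_distrib] at h
  have h2 : ∑ j, RT ga et k j * Polynomial.derivative (Umin (RT ga et) j) =
      ∑ j, (if k = 0 then Polynomial.C (et j ^ 2 ^ 0) else 0) * Umin (RT ga et) j := by
    have h3 := eq_neg_of_add_eq_zero_right h
    rw [h3]
    exact CharTwo.neg_eq _
  unfold Uv
  rw [h2]
  by_cases hk : k = 0
  · simp only [if_pos hk]
    rfl
  · simp only [if_neg hk, zero_mul, Finset.sum_const_zero]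

theorem der : DER := by
  intro E _ _ n ga et k
  have : CharP (Polynomial E) 2 := inferInstance
  have hQ : Polynomial.derivative (Qf (tk ga et k) (Uv ga et)) =
      Bf (tk ga et k) (Uv ga et) (fun j => Polynomial.derivative (Uv ga et j)) := by
    simp only [Qf, Bf, Polynomial.derivative_sum, Polynomial.derivative_mul, tk, Matrix.of_apply,
      Polynomial.derivative_C, zero_mul, zero_add]
    refine Finset.sum_congr rfl fun i _ => Finset.sum_congr rfl fun j _ => ?_
    ring
  have hS : Polynomial.derivative (∑ j : Fin (n + 1), (Nu ga et k j) ^ 2 *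
      Polynomial.X ^ 2 ^ (j : ℕ)) = (Nu ga et k 0) ^ 2 := by
    rw [Polynomial.derivative_sum]
    have h2 : ∀ x : Polynomial E, Polynomial.derivative (x ^ 2) = 0 := by
      intro x
      rw [pow_two, Polynomial.derivative_mul, mul_comm x]
      exact CharTwo.add_self_eq_zero _
    simp only [Polynomial.derivative_mul, h2, zero_mul, zero_add, deriv_X_pow]
    rw [Finset.sum_eq_single 0]
    · rw [if_pos (by rfl), mul_one]
    · intro j _ hj
      rw [if_neg, mul_zero]
      intro h
      exact hj (Fin.ext h)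
    · intro h
      exact absurd (Finset.mem_univ _) h
  have hB := Bf_Umin (tk ga et k) (RT ga et) (fun j => Polynomial.derivative (Uv ga et j))
  unfold Hk
  rw [Polynomial.derivative_add, hQ, hS]
  unfold Uv at hB ⊢
  rw [hB]
  have h1 := RT_deriv_U ga et
  unfold Uv at h1
  simp only [h1]
  rw [Finset.sum_eq_single 0]
  · rw [if_pos rfl]
    unfold Nu
    ring
  · intro j _ hj
    rw [if_neg hj, mul_zero]
  · intro h
    exact absurd (Finset.mem_univ _) h

end Pool.Agent.Lib.CPlane.S2
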