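import Pool.Agent.Lib.CPlane.M0Stat

/-!
# `Num_kj` and the forms as determinants
-/

namespace Pool.Agent.Lib.CPlane.M0

open Finset Pool.Agent.Lib.CPlane.P2

variable {A : Type} [CommRing A] [CharP A 2]

omit [CharP A 2] in
theorem cm_updateRow {n : ℕ} (R : Matrix (Fin n) (Fin (n + 1)) A) (j : Fin n)
    (y v : Fin (n + 1) → A) (i : Fin (n + 1)) :
    (cm (R.updateRow j y) i).updateRow j.succ v = (cm R i).updateRow j.succ v := by
  ext a b
  by_cases ha : a = j.succ
  · subst ha
    rw [Matrix.updateRow_self, Matrix.updateRow_self]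
  · rw [Matrix.updateRow_ne ha, Matrix.updateRow_ne ha]
    revert ha
    refine Fin.cases (fun _ => rfl) (fun a ha => ?_) a
    have h1 : a ≠ j := fun h => ha (by rw [h])
    unfold cm
    rw [cmat_succ, cmat_succ, Matrix.updateRow_ne h1]

/-- for a decomposable tensor `bmin` is one determinant -/
theorem bmin_tensor {n : ℕ} (g y : Fin (n + 1) → A) (R : Matrix (Fin n) (Fin (n + 1)) A)
    (j : Fin n) :
    bmin (Matrix.of fun a b => g a * y b) R j = (cmat (R.updateRow j y) g).det := by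
  rw [det_cmat]
  unfold bmin
  refine Finset.sum_congr rfl fun i _ => ?_
  rw [← det_cm (R.updateRow j y) i, Matrix.det_eq_sum_mul_adjugate_row _ j.succ, Finset.mul_sum]
  refine Finset.sum_congr rfl fun i' _ => ?_
  rw [Matrix.of_apply, mul_assoc, Matrix.adjugate_apply, Matrix.adjugate_apply, cm_updateRow]
  congr 2
  unfold cm
  rw [cmat_succ, Matrix.updateRow_self]

omit [CharP A 2] in
theorem Qf_tensor {n : ℕ} (g y x : Fin n → A) :
    Qf (Matrix.of fun a b => g a * y b) x = (∑ i, g i * x i) * ∑ j, y j * x j := by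
  unfold Qf
  rw [Finset.sum_mul]
  refine Finset.sum_congr rfl fun i _ => ?_
  rw [Finset.mul_sum]
  refine Finset.sum_congr rfl fun j _ => ?_
  rw [Matrix.of_apply]
  ring

variable {E : Type} [Field E] [CharP E 2]

theorem Nu_eq_det {n : ℕ} (ga et : Fin (n + 2) → E) (k : ℕ) (j : Fin (n + 1)) :
    S2.Nu ga et k j = (cmat ((S2.RT ga et).updateRow j
      (fun i => Polynomial.C (et i ^ 2 ^ k))) (fun i => Polynomial.C (ga i ^ 2 ^ k))).det := by
  rw [← bmin_tensor]
  unfold S2.Nu S2.tk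
  congr 1
  ext a b
  simp only [Matrix.of_apply, map_mul]

theorem Qf_eq_mul {n : ℕ} (ga et : Fin (n + 2) → E) (k : ℕ) :
    Qf (S2.tk ga et k) (S2.Uv ga et) =
      (cmat (S2.RT ga et) (fun i => Polynomial.C (ga i ^ 2 ^ k))).det *
      (cmat (S2.RT ga et) (fun i => Polynomial.C (et i ^ 2 ^ k))).det := by
  rw [det_cmat, det_cmat]
  unfold S2.Uv
  rw [← Qf_tensor]
  congr 1
  ext a b
  simp only [S2.tk, Matrix.of_apply, map_mul]

theorem yU_eq_det {n : ℕ} (ga et : Fin (n + 2) → E) (k : ℕ) :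
    S2.yU ga et k = (cmat (S2.RT ga et) (fun i => Polynomial.C (et i ^ 2 ^ k))).det := by
  rw [det_cmat]
  rfl

end Pool.Agent.Lib.CPlane.M0
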