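import Pool.Agent.Lib.CPlane.M0Stat
import Pool.Agent.Lib.CPlane.M0Ord
import Pool.Agent.Lib.CPlane.M0Bm

/-!
# s = 2, (M0): divisibility at the points of weight `w` (row M0c)
-/

namespace Pool.Agent.Lib.CPlane.S2

open Finset Module Pool.Agent.Lib.CPlane.P2 Pool.Agent.Lib.CPlane.M0

namespace DIVx

/-- the exponents of the rows -/
theorem sumc {n : ℕ} (c : Fin (n + 2) → ℕ) (S : Finset (Fin (n + 2))) (T : Finset (Fin (n + 1)))
    (hT : ∀ i ∈ T, i.succ ∈ S ∧ 2 ^ (i : ℕ) ≤ c i.succ) (hc : S.card ≤ T.card + 1) :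
    2 ^ (S.card - 1) - 1 ≤ ∑ r ∈ S, c r := by
  have h1 : ∑ i ∈ T, 2 ^ (i : ℕ) ≤ ∑ r ∈ S, c r := by
    calc ∑ i ∈ T, 2 ^ (i : ℕ) ≤ ∑ i ∈ T, c i.succ := sum_le_sum fun i hi => (hT i hi).2
      _ = ∑ r ∈ T.map (Fin.succEmb (n + 1)), c r := by
          rw [sum_map]
          rfl
      _ ≤ ∑ r ∈ S, c r := by
          refine sum_le_sum_of_subset ?_
          intro r hr
          obtain ⟨i, hi, rfl⟩ := mem_map.1 hr
          exact (hT i hi).1
  have h2 := two_pow_card_le (T.map Fin.valEmbedding)
  rw [card_map, sum_map] at h2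
  simp only [Fin.valEmbedding_apply] at h2
  have h3 : 2 ^ (S.card - 1) ≤ 2 ^ T.card := Nat.pow_le_pow_right (by norm_num) (by omega)
  omega

section

variable {K E : Type} [Field K] [Fintype K] [CharP K 2] [Field E] [CharP E 2] [Algebra K E]

/-- a Frobenius power of a linear form on a rational vector -/
theorem sum_pow {N : ℕ} (hK : Fintype.card K = 2) (l : Fin N → E) (x : Fin N → K) (k : ℕ) :
    ∑ j, Polynomial.C (l j ^ 2 ^ k) * algebraMap K (Polynomial E) (x j) =
      Polynomial.C (lin l x ^ 2 ^ k) := by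
  have h1 := lin_pow (r := 1) (by rw [hK, pow_one]) l x k
  rw [pow_one] at h1
  rw [h1, map_sum]
  refine sum_congr rfl fun j _ => ?_
  rw [Polynomial.algebraMap_apply, ← map_mul, Algebra.smul_def, mul_comm]

/-- the rows `R_i` on `D_τ` -/
theorem row {n : ℕ} (hK : Fintype.card K = 2) (ga et : Fin (n + 2) → E) (τ : E)
    (x : Fin (n + 2) → K) (hx : x ∈ Dsub K ga et τ) (i : Fin (n + 1)) :
    (Polynomial.X - Polynomial.C τ) ^ 2 ^ (i : ℕ) ∣
      ∑ j, RT ga et i j * algebraMap K (Polynomial E) (x j) := by
  have hx' : lin ga x = τ * lin et x := hx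
  refine ⟨Polynomial.C (lin et x ^ 2 ^ (i : ℕ)), ?_⟩
  have h1 := sum_pow hK ga x (i : ℕ)
  have h2 := sum_pow hK et x (i : ℕ)
  have h3 : ∑ j, RT ga et i j * algebraMap K (Polynomial E) (x j) =
      Polynomial.C (lin ga x ^ 2 ^ (i : ℕ)) +
        Polynomial.X ^ 2 ^ (i : ℕ) * Polynomial.C (lin et x ^ 2 ^ (i : ℕ)) := by
    rw [← h1, ← h2, mul_sum, ← sum_add_distrib]
    refine sum_congr rfl fun j _ => ?_
    rw [RT, Matrix.of_apply]
    ring
  rw [h3, hx', sub_pow_char_pow, mul_pow, map_mul, map_pow, CharTwo.sub_eq_add]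
  ring

end

end DIVx

open DIVx in
/-- row M0c -/
theorem div : DIV := by
  classical
  intro K E _ _ _ _ _ _ n ga et hK _ τ
  have hN : finrank K (Dsub K ga et τ) ≤ n + 2 := by
    have h1 := Submodule.finrank_le (Dsub K ga et τ)
    rwa [finrank_fintype_fun_eq_card, Fintype.card_fin] at h1
  constructor
  · intro j
    unfold Uv
    rw [← det_cm (RT ga et) j]
    refine det_dvd_sub _ (Dsub K ga et τ) _ (Fin.cases 0 fun i : Fin (n + 1) => 2 ^ (i : ℕ)) ?_ _ ?_
    · intro x hx r
      refine Fin.cases ?_ (fun i => ?_) r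
      · simp only [Fin.cases_zero, pow_zero]
        exact one_dvd _
      · simp only [Fin.cases_succ]
        exact row hK ga et τ x hx i
    · intro S hS
      unfold wt
      rw [← hS]
      refine sumc _ S (univ.filter fun i : Fin (n + 1) => i.succ ∈ S) ?_ ?_
      · intro i hi
        refine ⟨(mem_filter.1 hi).2, ?_⟩
        simp only [Fin.cases_succ]
        exact le_rfl
      · have h1 : S ⊆ insert 0 ((univ.filter fun i : Fin (n + 1) => i.succ ∈ S).map
            (Fin.succEmb (n + 1))) := by
          intro r hr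
          rcases Fin.eq_zero_or_eq_succ r with h0 | ⟨i, h0⟩
          · rw [h0]; exact mem_insert_self _ _
          · refine mem_insert_of_mem (mem_map.2 ⟨i, ?_, h0.symm⟩)
            rw [mem_filter]
            exact ⟨mem_univ _, h0 ▸ hr⟩
        refine (card_le_card h1).trans ((card_insert_le _ _).trans ?_)
        rw [card_map]
  · intro k j
    rw [Nu_eq_det]
    set R' := (RT ga et).updateRow j (fun i => Polynomial.C (et i ^ 2 ^ k)) with hR'
    -- the first row may be changed
    have h1 : (cmat R' (fun i => Polynomial.C (ga i ^ 2 ^ k))).det =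
        (cmat R' (fun i => Polynomial.C (ga i ^ 2 ^ k) +
          Polynomial.C (τ ^ 2 ^ k) * Polynomial.C (et i ^ 2 ^ k))).det := by
      rw [det_cmat, det_cmat]
      have h2 : ∑ i, Polynomial.C (et i ^ 2 ^ k) * Umin R' i = 0 := by
        have h3 := R_Umin R' j
        rw [hR'] at h3 ⊢
        simp only [Matrix.updateRow_self] at h3
        exact h3
      have h4 : ∑ i, (Polynomial.C (ga i ^ 2 ^ k) +
          Polynomial.C (τ ^ 2 ^ k) * Polynomial.C (et i ^ 2 ^ k)) * Umin R' i =
          ∑ i, Polynomial.C (ga i ^ 2 ^ k) * Umin R' i +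
            Polynomial.C (τ ^ 2 ^ k) * ∑ i, Polynomial.C (et i ^ 2 ^ k) * Umin R' i := by
        rw [mul_sum, ← sum_add_distrib]
        refine sum_congr rfl fun i _ => ?_
        ring
      rw [h4, h2, mul_zero, add_zero]
    rw [h1]
    refine det_dvd_sub _ (Dsub K ga et τ) _
      (Fin.cases (2 ^ (n + 2)) fun i : Fin (n + 1) => if i = j then 0 else 2 ^ (i : ℕ)) ?_ _ ?_
    · intro x hx r
      refine Fin.cases ?_ (fun i => ?_) r
      · have h2 : ∑ i, cmat R' (fun i => Polynomial.C (ga i ^ 2 ^ k) +
            Polynomial.C (τ ^ 2 ^ k) * Polynomial.C (et i ^ 2 ^ k)) 0 i *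
              algebraMap K (Polynomial E) (x i) = 0 := by
          have h3 := sum_pow hK ga x k
          have h4 := sum_pow hK et x k
          have h5 : ∑ i, cmat R' (fun i => Polynomial.C (ga i ^ 2 ^ k) +
              Polynomial.C (τ ^ 2 ^ k) * Polynomial.C (et i ^ 2 ^ k)) 0 i *
                algebraMap K (Polynomial E) (x i) =
              Polynomial.C (lin ga x ^ 2 ^ k) +
                Polynomial.C (τ ^ 2 ^ k) * Polynomial.C (lin et x ^ 2 ^ k) := by
            rw [← h3, ← h4, mul_sum, ← sum_add_distrib]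
            refine sum_congr rfl fun i _ => ?_
            rw [cmat_zero]
            ring
          rw [h5]
          have hx' : lin ga x = τ * lin et x := hx
          rw [hx', mul_pow, map_mul]
          exact CharTwo.add_self_eq_zero _
        rw [h2]
        exact dvd_zero _
      · simp only [Fin.cases_succ]
        by_cases hij : i = j
        · rw [if_pos hij, pow_zero]
          exact one_dvd _
        · rw [if_neg hij]
          have h2 := row hK ga et τ x hx i
          have h3 : ∀ a, cmat R' (fun i => Polynomial.C (ga i ^ 2 ^ k) +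
              Polynomial.C (τ ^ 2 ^ k) * Polynomial.C (et i ^ 2 ^ k)) i.succ a = RT ga et i a := by
            intro a
            rw [cmat_succ, hR', Matrix.updateRow_ne hij]
          simp only [h3]
          exact h2
    · intro S hS
      unfold wt
      rw [← hS]
      by_cases h0 : (0 : Fin (n + 2)) ∈ S
      · have h2 : 2 ^ (S.card - 1) ≤ 2 ^ (n + 2) := Nat.pow_le_pow_right (by norm_num) (by omega)
        have h3 := single_le_sum (f := (Fin.cases (2 ^ (n + 2)) fun i : Fin (n + 1) =>
          if i = j then 0 else 2 ^ (i : ℕ) : Fin (n + 2) → ℕ)) (fun _ _ => Nat.zero_le _) h0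
        refine le_trans ?_ h3
        exact (Nat.sub_le _ _).trans h2
      · refine sumc _ S (univ.filter fun i : Fin (n + 1) => i.succ ∈ S ∧ i ≠ j) ?_ ?_
        · intro i hi
          have h2 := (mem_filter.1 hi).2
          refine ⟨h2.1, ?_⟩
          simp only [Fin.cases_succ]
          rw [if_neg h2.2]
        · have h1 : S ⊆ insert j.succ ((univ.filter fun i : Fin (n + 1) => i.succ ∈ S ∧ i ≠ j).map
              (Fin.succEmb (n + 1))) := by
            intro r hr
            rcases Fin.eq_zero_or_eq_succ r with h5 | ⟨i, h5⟩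
            · exact absurd (h5 ▸ hr) h0
            · by_cases hij : i = j
              · rw [h5, hij]; exact mem_insert_self _ _
              · refine mem_insert_of_mem (mem_map.2 ⟨i, ?_, h5.symm⟩)
                rw [mem_filter]
                exact ⟨mem_univ _, h5 ▸ hr, hij⟩
          refine (card_le_card h1).trans ((card_insert_le _ _).trans ?_)
          rw [card_map]

end Pool.Agent.Lib.CPlane.S2
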