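import Pool.Agent.Lib.CPlane.M0Stat

/-!
# s = 2, (M0): values at weight one points (row M0d)
-/

namespace Pool.Agent.Lib.CPlane.S2

open Finset Module Pool.Agent.Lib.CPlane.P2

namespace VALx

section

variable {E : Type} [Field E] [CharP E 2] {n : ℕ} (ga et : Fin (n + 2) → E) (τ : E)

/-- the value `l_j = ga_j + τ et_j` -/
def lv (ga et : Fin (n + 2) → E) (τ : E) (j : Fin (n + 2)) : E := ga j + τ * et j

theorem lv_pow (j : Fin (n + 2)) (k : ℕ) :
    lv ga et τ j ^ (2 ^ 1) ^ k = ga j ^ 2 ^ k + τ ^ 2 ^ k * et j ^ 2 ^ k := by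
  rw [pow_one, lv, add_pow_char_pow, mul_pow]

theorem eval_RT : (RT ga et).map (Polynomial.evalRingHom τ) =
    RM (n + 1) (2 ^ 1) (lv ga et τ) := by
  ext k j
  simp only [RT, RM, Matrix.map_apply, Matrix.of_apply, Polynomial.coe_evalRingHom,
    Polynomial.eval_add, Polynomial.eval_mul, Polynomial.eval_pow, Polynomial.eval_X,
    Polynomial.eval_C, lv_pow]

omit [CharP E 2] in
theorem eval_tk (k : ℕ) : (tk ga et k).map (Polynomial.evalRingHom τ) =
    Matrix.of fun i j => ga i ^ 2 ^ k * et j ^ 2 ^ k := by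
  ext i j
  simp only [tk, Matrix.map_apply, Matrix.of_apply, Polynomial.coe_evalRingHom,
    Polynomial.eval_C]

theorem eval_Uv (j : Fin (n + 2)) : (Uv ga et j).eval τ =
    Umin (RM (n + 1) (2 ^ 1) (lv ga et τ)) j := by
  have h := Umin_map (Polynomial.evalRingHom τ) (RT ga et) j
  rw [eval_RT] at h
  exact h

theorem eval_Nu (k : ℕ) (j : Fin (n + 1)) : (Nu ga et k j).eval τ =
    bmin (Matrix.of fun i j => ga i ^ 2 ^ k * et j ^ 2 ^ k)
      (RM (n + 1) (2 ^ 1) (lv ga et τ)) j := by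
  have h := bmin_map (Polynomial.evalRingHom τ) (tk ga et k) (RT ga et) j
  rw [eval_RT, eval_tk] at h
  exact h

end

section

variable {K E : Type} [Field K] [Fintype K] [CharP K 2] [Field E] [CharP E 2]
  [Algebra K E] {n : ℕ}

omit [Fintype K] [CharP K 2] [CharP E 2] in
theorem lin_lv (ga et : Fin (n + 2) → E) (τ : E) (c : Fin (n + 2) → K) :
    lin (lv ga et τ) c = lin ga c + τ * lin et c := by
  simp only [lin, lv, smul_add, Finset.sum_add_distrib, Finset.mul_sum, mul_smul_comm]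

/-- the vector of the minors at a weight one point is a nonzero multiple of the rational vector -/
theorem U_eq (hK : Fintype.card K = 2) (ga et : Fin (n + 2) → E) (τ : E)
    (c0 : Fin (n + 2) → K) (hc0 : c0 ≠ 0) (h0 : lin ga c0 = τ * lin et c0)
    (h1 : ∀ c : Fin (n + 2) → K, lin ga c = τ * lin et c → ∃ k : K, k • c0 = c) :
    ∃ κ : E, κ ≠ 0 ∧ ∀ j, Umin (RM (n + 1) (2 ^ 1) (lv ga et τ)) j =
      κ * algebraMap K E (c0 j) := by
  set l := lv ga et τ with hl
  obtain ⟨j0, hj0⟩ : ∃ j, c0 j ≠ 0 := by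
    by_contra h
    push Not at h
    exact hc0 (funext h)
  set d : Fin (n + 2) → E := fun j => algebraMap K E (c0 j) with hd
  have hdj0 : d j0 ≠ 0 := by
    rw [hd]
    exact (map_ne_zero (algebraMap K E)).2 hj0
  set U := Umin (RM (n + 1) (2 ^ 1) l) with hU
  have hK1 : Fintype.card K = 2 ^ 1 := by rw [hK, pow_one]
  -- independence of the others
  have hind : ∀ c : Fin (n + 1) → K, lin (fun i => l (j0.succAbove i)) c = 0 → c = 0 := by
    intro c hc
    have e1 : lin l (j0.insertNth 0 c : Fin (n + 2) → K) = 0 := by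
      unfold lin
      rw [Fin.sum_univ_succAbove _ j0, Fin.insertNth_apply_same, zero_smul, zero_add]
      simp only [Fin.insertNth_apply_succAbove]
      exact hc
    rw [hl, lin_lv, CharTwo.add_eq_zero] at e1
    obtain ⟨k, hk⟩ := h1 _ e1
    have e2 := congrFun hk j0
    rw [Pi.smul_apply, smul_eq_mul, Fin.insertNth_apply_same] at e2
    have e3 : k = 0 := (mul_eq_zero.1 e2).resolve_right hj0
    funext i
    have e4 := congrFun hk (j0.succAbove i)
    rw [e3, zero_smul, Fin.insertNth_apply_succAbove] at e4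
    exact e4.symm
  have hdet := moore hK1 (fun i => l (j0.succAbove i)) hind
  have hUj0 : U j0 ≠ 0 := hdet
  -- both vectors are in the kernel
  have hkU : ∀ k : Fin (n + 1), ∑ j, l j ^ (2 ^ 1) ^ (k : ℕ) * U j = 0 := fun k =>
    R_Umin (RM (n + 1) (2 ^ 1) l) k
  have hkd : ∀ k : Fin (n + 1), ∑ j, l j ^ (2 ^ 1) ^ (k : ℕ) * d j = 0 := by
    intro k
    have e1 := lin_pow hK1 l c0 (k : ℕ)
    rw [hl, lin_lv, h0, CharTwo.add_self_eq_zero, zero_pow
      (pow_ne_zero _ (pow_ne_zero _ two_ne_zero)), ← hl] at e1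
    rw [e1]
    refine Finset.sum_congr rfl fun j _ => ?_
    rw [Algebra.smul_def, mul_comm]
  have hw : (fun i => d j0 * U (j0.succAbove i) + U j0 * d (j0.succAbove i)) = 0 := by
    refine Matrix.eq_zero_of_mulVec_eq_zero hdet ?_
    funext k
    have e1 := hkU k
    have e2 := hkd k
    rw [Fin.sum_univ_succAbove _ j0] at e1 e2
    rw [Pi.zero_apply, Matrix.mulVec, dotProduct]
    simp only [RM, Matrix.of_apply]
    calc ∑ i : Fin (n + 1), l (j0.succAbove i) ^ (2 ^ 1) ^ (k : ℕ) *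
          (d j0 * U (j0.succAbove i) + U j0 * d (j0.succAbove i))
        = d j0 * (∑ i : Fin (n + 1), l (j0.succAbove i) ^ (2 ^ 1) ^ (k : ℕ) *
            U (j0.succAbove i)) + U j0 * (∑ i : Fin (n + 1),
            l (j0.succAbove i) ^ (2 ^ 1) ^ (k : ℕ) * d (j0.succAbove i)) := by
          rw [Finset.mul_sum, Finset.mul_sum, ← Finset.sum_add_distrib]
          exact Finset.sum_congr rfl fun i _ => by ring
      _ = 0 := by
          have e3 : (2 : E) = 0 := CharTwo.two_eq_zero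
          linear_combination d j0 * e1 + U j0 * e2 -
            (d j0 * (l j0 ^ (2 ^ 1) ^ (k : ℕ) * U j0)) * e3
  refine ⟨U j0 / d j0, div_ne_zero hUj0 hdj0, fun j => ?_⟩
  by_cases hj : j = j0
  · subst hj
    rw [div_mul_cancel₀ _ hdj0]
  · obtain ⟨i, rfl⟩ := Fin.exists_succAbove_eq hj
    have e1 := congrFun hw i
    simp only [Pi.zero_apply] at e1
    rw [CharTwo.add_eq_zero] at e1
    change U (j0.succAbove i) = U j0 / d j0 * d (j0.succAbove i)
    rw [div_mul_eq_mul_div, eq_div_iff hdj0, ← e1, mul_comm]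

end

end VALx

open VALx

/-- (M0d) at a weight one vertex `H_k` vanishes and `y_l(U)` does not -/
theorem val : VAL := by
  intro K E _ _ _ _ _ _ _ n ga et hK hind a hwt
  have hK1 : Fintype.card K = 2 ^ 1 := by rw [hK, pow_one]
  set τ := a ^ 2 with hτ
  obtain ⟨⟨c0, hc0m⟩, hc0ne, hc0s⟩ := finrank_eq_one_iff'.1 hwt
  have hc0 : c0 ≠ 0 := fun h => hc0ne (Subtype.ext h)
  have h0 : lin ga c0 = τ * lin et c0 := hc0m
  have h1 : ∀ c : Fin (n + 2) → K, lin ga c = τ * lin et c → ∃ k : K, k • c0 = c := by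
    intro c hc
    obtain ⟨k, hk⟩ := hc0s ⟨c, hc⟩
    exact ⟨k, congrArg Subtype.val hk⟩
  obtain ⟨κ, hκ, hU⟩ := U_eq hK ga et τ c0 hc0 h0 h1
  have hθ : lin et c0 ≠ 0 := by
    intro h
    apply hc0
    exact hind c0 (by rw [h0, h, mul_zero]) h
  have hpow : ∀ (v : Fin (n + 2) → E) (k : ℕ),
      ∑ j, v j ^ 2 ^ k * algebraMap K E (c0 j) = (lin v c0) ^ 2 ^ k := by
    intro v k
    have e := lin_pow hK1 v c0 k
    rw [pow_one] at e
    rw [e]
    exact Finset.sum_congr rfl fun j _ => by rw [Algebra.smul_def, mul_comm]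
  refine ⟨?_, ?_⟩
  · intro l
    have e : (yU ga et l).eval τ = κ * (lin et c0) ^ 2 ^ l := by
      unfold yU
      rw [Polynomial.eval_finsetSum, ← hpow et l, Finset.mul_sum]
      refine Finset.sum_congr rfl fun j _ => ?_
      rw [Polynomial.eval_mul, Polynomial.eval_C, eval_Uv, hU]
      ring
    rw [e]
    exact mul_ne_zero hκ (pow_ne_zero _ hθ)
  · rintro ⟨ha, v, hv⟩ k
    set σ : Matrix (Fin (n + 2)) (Fin (n + 2)) E :=
      Matrix.of fun i j => ga i ^ 2 ^ k * et j ^ 2 ^ k with hσ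
    set ve : Fin (n + 2) → E := fun j => algebraMap K E (v j) with hve
    have hvpow : ∀ (u : Fin (n + 2) → E) (k : ℕ),
        ∑ j, u j ^ 2 ^ k * ve j = (lin u v) ^ 2 ^ k := by
      intro u k
      have e := lin_pow hK1 u v k
      rw [pow_one] at e
      rw [e]
      exact Finset.sum_congr rfl fun j _ => by rw [Algebra.smul_def, mul_comm]
    -- the sum of the `Num_j a^(2^j)`
    have hN : ∑ j : Fin (n + 1), (Nu ga et k j).eval τ * a ^ 2 ^ (j : ℕ) =
        κ * (lin et c0) ^ 2 ^ k * a ^ 2 ^ k := by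
      have e1 := Bf_Umin σ (RM (n + 1) (2 ^ 1) (lv ga et τ)) ve
      have e2 : ∀ j : Fin (n + 1), ∑ i, RM (n + 1) (2 ^ 1) (lv ga et τ) j i * ve i =
          a ^ 2 ^ (j : ℕ) := by
        intro j
        simp only [RM, Matrix.of_apply, pow_one]
        rw [hvpow, lin_lv, hv]
      simp only [e2] at e1
      simp only [eval_Nu, ← hσ]
      rw [← e1]
      have e3 : Bf σ (Umin (RM (n + 1) (2 ^ 1) (lv ga et τ))) ve =
          κ * ((∑ i, ga i ^ 2 ^ k * algebraMap K E (c0 i)) * (∑ j, et j ^ 2 ^ k * ve j) +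
            (∑ j, ga j ^ 2 ^ k * ve j) * (∑ i, et i ^ 2 ^ k * algebraMap K E (c0 i))) := by
        rw [Bf, Finset.sum_mul_sum, Finset.sum_mul_sum, ← Finset.sum_add_distrib,
          Finset.mul_sum]
        refine Finset.sum_congr rfl fun i _ => ?_
        rw [← Finset.sum_add_distrib, Finset.mul_sum]
        refine Finset.sum_congr rfl fun j _ => ?_
        rw [hU, hU, hσ]
        simp only [Matrix.of_apply]
        ring
      rw [e3, hpow, hpow, hvpow, hvpow, h0, mul_pow]
      have e4 : (lin ga v) ^ 2 ^ k + τ ^ 2 ^ k * (lin et v) ^ 2 ^ k = a ^ 2 ^ k := by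
        rw [← mul_pow, ← add_pow_char_pow, hv]
      linear_combination κ * (lin et c0) ^ 2 ^ k * e4
    have hQ : Qf σ (fun i => κ * algebraMap K E (c0 i)) =
        κ ^ 2 * ((lin ga c0) ^ 2 ^ k * (lin et c0) ^ 2 ^ k) := by
      rw [← hpow ga k, ← hpow et k, Qf, Finset.sum_mul_sum, Finset.mul_sum]
      refine Finset.sum_congr rfl fun i _ => ?_
      rw [Finset.mul_sum]
      refine Finset.sum_congr rfl fun j _ => ?_
      rw [hσ]
      simp only [Matrix.of_apply]
      ring
    have hH : (Hk ga et k).eval τ = Qf σ (fun i => κ * algebraMap K E (c0 i)) +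
        (∑ j : Fin (n + 1), (Nu ga et k j).eval τ * a ^ 2 ^ (j : ℕ)) ^ 2 := by
      unfold Hk
      rw [Polynomial.eval_add, Polynomial.eval_finsetSum]
      congr 1
      · have e := Qf_map (Polynomial.evalRingHom τ) (tk ga et k) (Uv ga et)
        rw [eval_tk] at e
        refine e.trans ?_
        congr 1
        funext i
        rw [Polynomial.coe_evalRingHom, eval_Uv, hU]
      · rw [CharTwo.sum_sq]
        refine Finset.sum_congr rfl fun j _ => ?_
        rw [Polynomial.eval_mul, Polynomial.eval_pow, Polynomial.eval_pow, Polynomial.eval_X,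
          mul_pow, hτ]
        ring
    rw [hH, hQ, hN, h0, hτ]
    have e5 : (2 : E) = 0 := CharTwo.two_eq_zero
    linear_combination (κ ^ 2 * ((lin et c0) ^ 2 ^ k) ^ 2 * (a ^ 2 ^ k) ^ 2) * e5 +
      κ ^ 2 * (lin et c0) ^ 2 ^ k * (by ring : (a ^ 2 * lin et c0) ^ 2 ^ k =
        (a ^ 2 ^ k) ^ 2 * (lin et c0) ^ 2 ^ k)

end Pool.Agent.Lib.CPlane.S2
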