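import Pool.Agent.Lib.CPlane.M0Main
import Pool.Agent.Lib.CPlane.M0DER
import Pool.Agent.Lib.CPlane.M0DEG
import Pool.Agent.Lib.CPlane.M0DIV
import Pool.Agent.Lib.CPlane.M0VAL
import Pool.Agent.Lib.CPlane.M0CNTA
import Pool.Agent.Lib.CPlane.M0CNT

/-!
# (M0)
-/

namespace Pool.Agent.Lib.CPlane.S2

theorem m0_all : M0 := m0 der deg degp div val cnt0 cnt1 cnt2 cnt

end Pool.Agent.Lib.CPlane.S2
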