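import Pool.Agent.Lib.CPlane.M0Stat

/-!
# (M0), assembly
-/

namespace Pool.Agent.Lib.CPlane.S2

open Finset Pool.Agent.Lib.CPlane.P2

theorem exists_sq {E : Type} [Field E] [Finite E] [CharP E 2] (H : Polynomial E)
    (h : Polynomial.derivative H = 0) : ∃ μ : Polynomial E, H = μ ^ 2 := by
  have : Fact (Nat.Prime 2) := ⟨Nat.prime_two⟩
  have : PerfectRing E 2 := PerfectRing.ofFiniteOfIsReduced 2 E
  refine ⟨(Polynomial.contract 2 H).map ((frobeniusEquiv E 2).symm : E →+* E), ?_⟩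
  rw [← Polynomial.map_frobenius_expand (R := E) (p := 2), ← Polynomial.map_expand,
    Polynomial.map_map, Polynomial.expand_contract 2 h two_ne_zero]
  have h1 : (frobenius E 2).comp ((frobeniusEquiv E 2).symm : E →+* E) = RingHom.id E := by
    ext x
    exact frobenius_apply_frobeniusEquiv_symm E 2 x
  rw [h1, Polynomial.map_id]

/-- a product of powers of distinct linear factors -/
theorem sum_le_natDegree {E : Type} [Field E] [CharP E 2] (S : Finset E) (d : E → ℕ)
    (p : Polynomial E) (hp : p ≠ 0)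
    (h : ∀ a ∈ S, (Polynomial.X - Polynomial.C (a ^ 2)) ^ d a ∣ p) :
    ∑ a ∈ S, d a ≤ p.natDegree := by
  have h1 : ∏ a ∈ S, (Polynomial.X - Polynomial.C (a ^ 2)) ^ d a ∣ p := by
    refine Finset.prod_dvd_of_coprime (fun a _ b _ hab => ?_) h
    refine IsCoprime.pow ?_
    refine Polynomial.isCoprime_X_sub_C_of_isUnit_sub ?_
    rw [isUnit_iff_ne_zero, sub_ne_zero]
    intro h2
    have h3 : (a - b) ^ 2 = 0 := by
      rw [CharTwo.sub_eq_add, CharTwo.add_sq, h2, CharTwo.add_self_eq_zero]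
    exact hab (sub_eq_zero.1 (pow_eq_zero_iff two_ne_zero |>.1 h3))
  have h2 := Polynomial.natDegree_le_of_dvd h1 hp
  rw [Polynomial.natDegree_prod_of_monic _ _ fun a _ => (Polynomial.monic_X_sub_C _).pow _] at h2
  simp only [Polynomial.natDegree_pow, Polynomial.natDegree_X_sub_C, mul_one] at h2
  exact h2

theorem dvd_Qf {R : Type} [CommRing R] {n : ℕ} (τ : Matrix (Fin n) (Fin n) R)
    (x : Fin n → R) (q : R) (h : ∀ i, q ∣ x i) : q ^ 2 ∣ Qf τ x := by
  unfold Qf
  refine Finset.dvd_sum fun i _ => Finset.dvd_sum fun j _ => ?_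
  rw [pow_two]
  exact Dvd.dvd.mul_left (mul_dvd_mul (h i) (h j)) _

theorem m0 : DER → DEG → DEGP → DIV → VAL → CNT0 → CNT1 → CNT2 → CNT → M0 := by
  intro hDER hDEG hDEGP hDIV hVAL hC0 hC1 hC2 hCNT
  intro K E _ _ _ _ _ _ _ n f e ga et hK hP hS k h0
  classical
  have : Fintype E := Fintype.ofFinite E
  have : Fact (Nat.Prime 2) := ⟨Nat.prime_two⟩
  obtain ⟨μ, hμ⟩ := exists_sq (Hk ga et k) (by rw [hDER ga et k, h0, zero_mul])
  by_contra hne
  have hμ0 : μ ≠ 0 := by
    rintro rfl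
    exact hne (by rw [hμ]; ring)
  set w : E → ℕ := fun a => wt K ga et (a ^ 2) with hw
  have hdiv : ∀ a : E, (Polynomial.X - Polynomial.C (a ^ 2)) ^ (2 ^ (w a - 1) - 1) ∣ μ := by
    intro a
    obtain ⟨h1, h2⟩ := hDIV (K := K) ga et hK hP.ind (a ^ 2)
    have h3 : ((Polynomial.X - Polynomial.C (a ^ 2)) ^ (2 ^ (w a - 1) - 1)) ^ 2 ∣ μ ^ 2 := by
      rw [← hμ]
      unfold Hk
      refine dvd_add (dvd_Qf _ _ _ h1) (Finset.dvd_sum fun j _ => ?_)
      exact Dvd.dvd.mul_right (pow_dvd_pow_of_dvd (h2 k j) 2) _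
    exact (IsIntegrallyClosed.pow_dvd_pow_iff two_ne_zero).1 h3
  have hroot : ∀ a : E, a ≠ 0 → w a = 1 → (Polynomial.X - Polynomial.C (a ^ 2)) ∣ μ := by
    intro a ha ha1
    rw [Polynomial.dvd_iff_isRoot, Polynomial.IsRoot.def]
    have h1 := (hVAL (K := K) ga et hK hP.ind a ha1).2 (hP.wv a ha ha1) k
    rw [hμ, Polynomial.eval_pow] at h1
    exact pow_eq_zero_iff two_ne_zero |>.1 h1
  -- the polynomial `y_(N-2)(U)`
  have hp0 : yU ga et n ≠ 0 := by
    obtain ⟨a, _, ha1⟩ := hP.one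
    have h1 := (hVAL (K := K) ga et hK hP.ind a ha1).1 n
    intro h2
    rw [h2, Polynomial.eval_zero] at h1
    exact h1 rfl
  have hpd : ∀ a ∈ (univ : Finset E),
      (Polynomial.X - Polynomial.C (a ^ 2)) ^ (2 ^ (w a - 1) - 1) ∣ yU ga et n := by
    intro a _
    obtain ⟨h1, _⟩ := hDIV (K := K) ga et hK hP.ind (a ^ 2)
    unfold yU
    exact Finset.dvd_sum fun j _ => Dvd.dvd.mul_left (h1 j) _
  have hw0 : w 0 = e := by
    have h1 : ((0 : E) ^ 2) = 0 := by ring
    rw [hw]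
    simp only
    rw [h1]
    exact hC0 ga et hP.ind hS
  set S : Finset E := univ.filter (fun a : E => a ≠ 0) with hSdef
  have hSe : S = univ.erase 0 := by
    ext a
    simp [hSdef]
  have hsplit : ∀ F : E → ℕ, ∑ a, F a = F 0 + ∑ a ∈ S, F a := by
    intro F
    rw [hSe, Finset.add_sum_erase _ _ (Finset.mem_univ 0)]
  have hdegp := sum_le_natDegree univ (fun a => 2 ^ (w a - 1) - 1) _ hp0 hpd
  rw [hsplit] at hdegp
  simp only [hw0] at hdegp
  have h3 := hDEGP ga et hS
  have hN : n = f + e - 2 := by have := hS.sum; omega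
  -- the polynomial `μ`
  have hdegm := sum_le_natDegree univ
    (fun a => if a ≠ 0 ∧ w a = 1 then 1 else 2 ^ (w a - 1) - 1) μ hμ0 (by
      intro a _
      by_cases h : a ≠ 0 ∧ w a = 1
      · simp only [if_pos h, pow_one]
        exact hroot a h.1 h.2
      · simp only [if_neg h]
        exact hdiv a)
  rw [hsplit] at hdegm
  have e0 : (if (0 : E) ≠ 0 ∧ w 0 = 1 then 1 else 2 ^ (w 0 - 1) - 1) = 2 ^ (e - 1) - 1 := by
    rw [if_neg (fun h => h.1 rfl), hw0]
  have e1 : ∑ a ∈ S, (if a ≠ 0 ∧ w a = 1 then 1 else 2 ^ (w a - 1) - 1) =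
      (S.filter (fun a => w a = 1)).card + ∑ a ∈ S, (2 ^ (w a - 1) - 1) := by
    rw [Finset.card_filter, ← Finset.sum_add_distrib]
    refine Finset.sum_congr rfl fun a ha => ?_
    have ha0 : a ≠ 0 := by
      rw [hSdef, Finset.mem_filter] at ha
      exact ha.2
    by_cases h : w a = 1
    · rw [if_pos ⟨ha0, h⟩, if_pos h, h]
      norm_num
    · rw [if_neg (fun h' => h h'.2), if_neg h, zero_add]
  simp only [e0, e1] at hdegm
  have hdH := hDEG ga et hS k
  rw [hμ, Polynomial.natDegree_pow] at hdH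
  have hcnt := hCNT S (univ.filter fun a : E => IsVx K ga et a) w f e (by
      intro a ha
      rw [Finset.mem_filter] at ha
      rw [hSdef, Finset.mem_filter]
      exact ⟨Finset.mem_univ _, ha.2.1⟩) hS.two_f hS.two_e (by
      intro a ha
      rw [Finset.mem_filter] at ha
      exact hP.vx a ha.2) (by
      intro a ha ha1
      rw [hSdef, Finset.mem_filter] at ha
      rw [Finset.mem_filter]
      exact ⟨Finset.mem_univ _, hP.wv a ha.2 ha1⟩)
    (hC1 (K := K) ga et hK hP.ind hS)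
    (by
      have := hC2 (K := K) ga et (univ.filter fun a : E => IsVx K ga et a) hK (by
        intro a
        rw [Finset.mem_filter]
        exact ⟨fun h => h.2, fun h => ⟨Finset.mem_univ _, h⟩⟩) hP hS
      rw [hS.sum]
      exact this)
    (by
      rw [← hN]
      omega)
  have hf2 := hS.two_f
  have hpow : 2 ^ f = 2 * 2 ^ (f - 1) := by
    rw [← pow_succ']
    congr 1
    omega
  have hpow2 : 2 ^ (f + e + 1) = 2 * 2 ^ (n + 2) := by
    rw [← pow_succ', ← hS.sum]
  omega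

end Pool.Agent.Lib.CPlane.S2
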