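import Pool.Agent.Lib.CPlane.P2Map
import Pool.Agent.Lib.CPlane.P2Moore

/-!
# s = 2, the theorem (M0): definitions and statements
-/

namespace Pool.Agent.Lib.CPlane.S2

open Finset Pool.Agent.Lib.CPlane.P2

/-- the rows `R_k(j) = ga_j ^ (2^k) + T ^ (2^k) et_j ^ (2^k)`, `k = 0 .. N - 2`, over `E[T]`,
`N = n + 2` (the variable `T` is `Polynomial.X`) -/
noncomputable def RT {E : Type} [Field E] {n : ℕ} (ga et : Fin (n + 2) → E) :
    Matrix (Fin (n + 1)) (Fin (n + 2)) (Polynomial E) :=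
  Matrix.of fun k j => Polynomial.C (ga j ^ 2 ^ (k : ℕ)) +
    Polynomial.X ^ 2 ^ (k : ℕ) * Polynomial.C (et j ^ 2 ^ (k : ℕ))

/-- the tensor `g_k ⊗ y_k` -/
noncomputable def tk {E : Type} [Field E] {n : ℕ} (ga et : Fin (n + 2) → E) (k : ℕ) :
    Matrix (Fin (n + 2)) (Fin (n + 2)) (Polynomial E) :=
  Matrix.of fun i j => Polynomial.C (ga i ^ 2 ^ k * et j ^ 2 ^ k)

/-- the vector `U` of the maximal minors -/
noncomputable def Uv {E : Type} [Field E] {n : ℕ} (ga et : Fin (n + 2) → E) :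
    Fin (n + 2) → Polynomial E := Umin (RT ga et)

/-- `y_k(U)` -/
noncomputable def yU {E : Type} [Field E] {n : ℕ} (ga et : Fin (n + 2) → E) (k : ℕ) :
    Polynomial E := ∑ j, Polynomial.C (et j ^ 2 ^ k) * Uv ga et j

/-- `Num_kj`: the coefficients of `α_k(U, .) = Σ_j Num_kj R_j` -/
noncomputable def Nu {E : Type} [Field E] {n : ℕ} (ga et : Fin (n + 2) → E) (k : ℕ)
    (j : Fin (n + 1)) : Polynomial E := bmin (tk ga et k) (RT ga et) j

/-- `H_k = g_k(U) y_k(U) + Σ_j Num_kj² T ^ (2^j)` -/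
noncomputable def Hk {E : Type} [Field E] {n : ℕ} (ga et : Fin (n + 2) → E) (k : ℕ) :
    Polynomial E :=
  Qf (tk ga et k) (Uv ga et) + ∑ j : Fin (n + 1), (Nu ga et k j) ^ 2 *
    Polynomial.X ^ 2 ^ (j : ℕ)

/-- `D_τ = {(g, y) : g = τ y}` in coordinates -/
def Dsub (K : Type) {E : Type} [Field K] [Field E] [Algebra K E] {N : ℕ} (ga et : Fin N → E)
    (τ : E) : Submodule K (Fin N → K) where
  carrier := {c | lin ga c = τ * lin et c}
  add_mem' := by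
    intro c d hc hd
    simp only [Set.mem_ofPred_eq, lin_add] at hc hd ⊢
    rw [hc, hd, mul_add]
  zero_mem' := by
    simp only [Set.mem_ofPred_eq, lin_zero, mul_zero]
  smul_mem' := by
    intro k c hc
    simp only [Set.mem_ofPred_eq, lin_smul] at hc ⊢
    rw [hc, mul_smul_comm]

/-- the weight of the point `τ` -/
noncomputable def wt (K : Type) {E : Type} [Field K] [Field E] [Algebra K E] {N : ℕ}
    (ga et : Fin N → E) (τ : E) : ℕ := Module.finrank K (Dsub K ga et τ)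

/-- `a` is a vertex: `a ≠ 0`, `a = g + a² y` -/
def IsVx (K : Type) {E : Type} [Field K] [Field E] [Algebra K E] {N : ℕ} (ga et : Fin N → E)
    (a : E) : Prop := a ≠ 0 ∧ ∃ c : Fin N → K, lin ga c + a ^ 2 * lin et c = a

/-- adapted basis: `f` vectors of `G`, `e` vectors of `Y`, `N = f + e` -/
structure Split {E : Type} [Field E] {N : ℕ} (ga et : Fin N → E) (f e : ℕ) : Prop where
  zero : ∀ j, ga j = 0 ∨ et j = 0
  cf : Nat.card {j // et j = 0} = f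
  ce : Nat.card {j // ga j = 0} = e
  sum : f + e = N
  two_f : 2 ≤ f
  two_e : 2 ≤ e

/-- the hypotheses on the pair -/
structure Pair2 (K : Type) {E : Type} [Field K] [Field E] [Algebra K E] {N : ℕ}
    (ga et : Fin N → E) : Prop where
  /-- independence -/
  ind : ∀ c : Fin N → K, lin ga c = 0 → lin et c = 0 → c = 0
  /-- (i') -/
  tr : ∀ c : Fin N → K, lin et c ≠ 0 → ∃ d : Fin N → K,
    Algebra.trace K E (lin ga d * lin et c) ≠ 0
  /-- (ii) -/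
  vx : ∀ a : E, IsVx K ga et a → 1 ≤ wt K ga et (a ^ 2)
  /-- a weight one point -/
  one : ∃ a : E, a ≠ 0 ∧ wt K ga et (a ^ 2) = 1
  /-- weight one points are vertices (row WV) -/
  wv : ∀ a : E, a ≠ 0 → wt K ga et (a ^ 2) = 1 → IsVx K ga et a

/-- DER: `dH_k/dT = Num_k0 (y_0(U) + Num_k0)` -/
def DER : Prop := ∀ {E : Type} [Field E] [CharP E 2] {n : ℕ} (ga et : Fin (n + 2) → E) (k : ℕ),
  Polynomial.derivative (Hk ga et k) = Nu ga et k 0 * (yU ga et 0 + Nu ga et k 0)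

/-- DEG: `deg H_k ≤ 2^N - 3 * 2^(f-1)` -/
def DEG : Prop := ∀ {E : Type} [Field E] [CharP E 2] {n f e : ℕ} (ga et : Fin (n + 2) → E),
  Split ga et f e → ∀ k : ℕ, (Hk ga et k).natDegree + 3 * 2 ^ (f - 1) ≤ 2 ^ (n + 2)

/-- DEGP: `deg y_(N-2)(U) ≤ 2^(N-2) - 2^(f-1)` -/
def DEGP : Prop := ∀ {E : Type} [Field E] [CharP E 2] {n f e : ℕ} (ga et : Fin (n + 2) → E),
  Split ga et f e → (yU ga et n).natDegree + 2 ^ (f - 1) ≤ 2 ^ n

/-- DIV: at a point of weight `w ≥ 1` everything is divisible by `(T - τ)^(2^(w-1) - 1)` -/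
def DIV : Prop := ∀ {K E : Type} [Field K] [Fintype K] [CharP K 2] [Field E] [CharP E 2]
  [Algebra K E] {n : ℕ} (ga et : Fin (n + 2) → E), Fintype.card K = 2 →
  (∀ c : Fin (n + 2) → K, lin ga c = 0 → lin et c = 0 → c = 0) → ∀ τ : E,
  (∀ j, (Polynomial.X - Polynomial.C τ) ^ (2 ^ (wt K ga et τ - 1) - 1) ∣ Uv ga et j) ∧
  ∀ k j, (Polynomial.X - Polynomial.C τ) ^ (2 ^ (wt K ga et τ - 1) - 1) ∣ Nu ga et k j

/-- VAL: at a weight one vertex `H_k` vanishes and `y_l(U)` does not -/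
def VAL : Prop := ∀ {K E : Type} [Field K] [Fintype K] [CharP K 2] [Field E] [Finite E]
  [CharP E 2] [Algebra K E] {n : ℕ} (ga et : Fin (n + 2) → E), Fintype.card K = 2 →
  (∀ c : Fin (n + 2) → K, lin ga c = 0 → lin et c = 0 → c = 0) → ∀ a : E,
  wt K ga et (a ^ 2) = 1 →
  (∀ l, (yU ga et l).eval (a ^ 2) ≠ 0) ∧
  (IsVx K ga et a → ∀ k, (Hk ga et k).eval (a ^ 2) = 0)

/-- CNT1: `Σ_(a ≠ 0) (2^w - 1) = (2^f - 1) (2^e - 1)` -/
def CNT1 : Prop := ∀ {K E : Type} [Field K] [Fintype K] [CharP K 2] [Field E] [Fintype E]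
  [CharP E 2] [Algebra K E] [DecidableEq E] {N f e : ℕ} (ga et : Fin N → E),
  Fintype.card K = 2 →
  (∀ c : Fin N → K, lin ga c = 0 → lin et c = 0 → c = 0) → Split ga et f e →
  ∑ a ∈ univ.filter (fun a : E => a ≠ 0), (2 ^ wt K ga et (a ^ 2) - 1) =
    (2 ^ f - 1) * (2 ^ e - 1)

/-- CNT2: `Σ_(vertices) 2^w = 2^N - 2^e` -/
def CNT2 : Prop := ∀ {K E : Type} [Field K] [Fintype K] [CharP K 2] [Field E] [Fintype E]
  [CharP E 2] [Algebra K E] {N f e : ℕ} (ga et : Fin N → E)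
  (VV : Finset E), Fintype.card K = 2 → (∀ a, a ∈ VV ↔ IsVx K ga et a) →
  Pair2 K ga et → Split ga et f e →
  ∑ a ∈ VV, 2 ^ wt K ga et (a ^ 2) + 2 ^ e = 2 ^ N

/-- CNT0: the weight of `τ = 0` is `e` -/
def CNT0 : Prop := ∀ {K E : Type} [Field K] [Field E] [Algebra K E] {N f e : ℕ}
  (ga et : Fin N → E),
  (∀ c : Fin N → K, lin ga c = 0 → lin et c = 0 → c = 0) → Split ga et f e →
  wt K ga et 0 = e

/-- CNT: the arithmetic -/
def CNT : Prop := ∀ {ι : Type} [DecidableEq ι] (S V : Finset ι) (w : ι → ℕ) (f e : ℕ),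
  V ⊆ S → 2 ≤ f → 2 ≤ e → (∀ a ∈ V, 1 ≤ w a) → (∀ a ∈ S, w a = 1 → a ∈ V) →
  ∑ a ∈ S, (2 ^ w a - 1) = (2 ^ f - 1) * (2 ^ e - 1) →
  ∑ a ∈ V, 2 ^ w a + 2 ^ e = 2 ^ (f + e) →
  (2 ^ (e - 1) - 1) + ∑ a ∈ S, (2 ^ (w a - 1) - 1) + 2 ^ (f - 1) ≤ 2 ^ (f + e - 2) →
  2 ^ (f + e + 1) < 4 * ((S.filter (fun a => w a = 1)).card +
    ((2 ^ (e - 1) - 1) + ∑ a ∈ S, (2 ^ (w a - 1) - 1))) + 3 * 2 ^ f

/-- (M0): if `Num_k0 = 0` then `H_k = 0`, i.e. `g_k(U) y_k(U) = Σ_j Num_kj² T^(2^j)` -/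
def M0 : Prop := ∀ {K E : Type} [Field K] [Fintype K] [CharP K 2] [Field E] [Finite E]
  [CharP E 2] [Algebra K E] {n f e : ℕ} (ga et : Fin (n + 2) → E), Fintype.card K = 2 →
  Pair2 K ga et → Split ga et f e → ∀ k : ℕ, Nu ga et k 0 = 0 → Hk ga et k = 0

end Pool.Agent.Lib.CPlane.S2
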