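import Mathlib

/-!
# Alternating forms have even rank (row A8a)
-/

namespace Pool.Agent.Lib.CPlane

open Module

/-- (A8a) `dim U` and the dimension of the radical of an alternating form on `U` have the same
parity. -/
theorem even_rank {Ω V : Type} [Field Ω] [AddCommGroup V] [Module Ω V] [FiniteDimensional Ω V]
    (B : V →ₗ[Ω] V →ₗ[Ω] Ω) (hB : ∀ v, B v v = 0) (U R : Submodule Ω V)
    (hR : ∀ u, u ∈ R ↔ u ∈ U ∧ ∀ u' ∈ U, B u u' = 0) :
    Even (finrank Ω U + finrank Ω R) := by
  have hneg : ∀ x y, B x y = - B y x := by
    intro x y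
    have h := hB (x + y)
    simp only [map_add, LinearMap.add_apply, hB, zero_add, add_zero] at h
    exact eq_neg_of_add_eq_zero_right h
  suffices H : ∀ (n : ℕ) (U : Submodule Ω V), finrank Ω U = n →
      (∀ u, u ∈ R ↔ u ∈ U ∧ ∀ u' ∈ U, B u u' = 0) → Even (n + finrank Ω R) from
    H _ U rfl hR
  intro n
  induction n using Nat.strong_induction_on with
  | _ n ih =>
    intro U hU hR
    by_cases hz : ∀ u ∈ U, ∀ v ∈ U, B u v = 0
    · have h1 : R = U := by
        ext u
        rw [hR]
        exact ⟨fun h => h.1, fun h => ⟨h, hz u h⟩⟩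
      rw [h1, hU]
      exact ⟨n, rfl⟩
    · push Not at hz
      obtain ⟨u, hu, v, hv, huv⟩ := hz
      let φ : V →ₗ[Ω] Ω × Ω := LinearMap.prod (B.flip u) (B.flip v)
      have hφ : ∀ w, φ w = (B w u, B w v) := fun _ => rfl
      let U' : Submodule Ω V := U ⊓ LinearMap.ker φ
      have hmemU' : ∀ w, w ∈ U' ↔ w ∈ U ∧ B w u = 0 ∧ B w v = 0 := by
        intro w
        rw [Submodule.mem_inf, LinearMap.mem_ker, hφ, Prod.mk_eq_zero]
      have hrange : Submodule.map φ U = ⊤ := by
        rw [eq_top_iff]
        rintro ⟨a, b⟩ -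
        refine ⟨(a / B v u) • v + (b / B u v) • u, U.add_mem (U.smul_mem _ hv)
          (U.smul_mem _ hu), ?_⟩
        have hvu : B v u ≠ 0 := by
          rw [hneg]
          exact neg_ne_zero.2 huv
        rw [hφ]
        simp only [map_add, map_smul, LinearMap.add_apply, LinearMap.smul_apply, hB, mul_zero,
          add_zero, zero_add, smul_eq_mul, div_mul_cancel₀ _ huv, div_mul_cancel₀ _ hvu]
      have hdim : finrank Ω U' + 2 = n := by
        have h1 := LinearMap.finrank_range_add_finrank_ker (φ.domRestrict U)
        rw [LinearMap.range_domRestrict, hrange, hU] at h1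
        have h2 : finrank Ω (⊤ : Submodule Ω (Ω × Ω)) = 2 := by
          rw [finrank_top, Module.finrank_prod, Module.finrank_self]
        have h3 : Submodule.map U.subtype (LinearMap.ker (φ.domRestrict U)) = U' := by
          ext w
          simp only [Submodule.mem_map, LinearMap.mem_ker, LinearMap.domRestrict_apply,
            Submodule.coe_subtype, Subtype.exists, exists_and_right, exists_eq_right, U',
            Submodule.mem_inf]
          tauto
        have h4 : finrank Ω (LinearMap.ker (φ.domRestrict U)) = finrank Ω U' := by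
          rw [← Submodule.finrank_map_subtype_eq, h3]
        omega
      have hR' : ∀ w, w ∈ R ↔ w ∈ U' ∧ ∀ w' ∈ U', B w w' = 0 := by
        intro w
        rw [hR, hmemU']
        constructor
        · rintro ⟨h1, h2⟩
          exact ⟨⟨h1, h2 u hu, h2 v hv⟩, fun w' hw' => h2 w' ((hmemU' w').1 hw').1⟩
        · rintro ⟨⟨h1, h2, h3⟩, h4⟩
          refine ⟨h1, fun x hx => ?_⟩
          have hvu : B v u ≠ 0 := by
            rw [hneg]
            exact neg_ne_zero.2 huv
          have h5 : x - (B x u / B v u) • v - (B x v / B u v) • u ∈ U' := by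
            rw [hmemU']
            refine ⟨U.sub_mem (U.sub_mem hx (U.smul_mem _ hv)) (U.smul_mem _ hu), ?_, ?_⟩
            · simp only [map_sub, map_smul, LinearMap.sub_apply, LinearMap.smul_apply, hB,
                mul_zero, sub_zero, smul_eq_mul, div_mul_cancel₀ _ hvu, sub_self]
            · simp only [map_sub, map_smul, LinearMap.sub_apply, LinearMap.smul_apply, hB,
                mul_zero, sub_zero, smul_eq_mul, div_mul_cancel₀ _ huv, sub_self]
          have h6 := h4 _ h5
          simp only [map_sub, map_smul, h2, h3, smul_zero, sub_zero] at h6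
          exact h6
      have h := ih (finrank Ω U') (by omega) U' rfl hR'
      obtain ⟨k, hk⟩ := h
      exact ⟨k + 1, by omega⟩

end Pool.Agent.Lib.CPlane
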