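import Pool.Agent.Lib.CPlane.Rel
import Pool.Agent.Lib.CPlane.Block
import Pool.Agent.Lib.CPlane.Par

/-!
# Part I (row A8b)
-/

namespace Pool.Agent.Lib.CPlane

open Module

/-- the arithmetic at the end of Part I -/
theorem partOne_arith {m a b r d p c : ℕ} (hm : m = 2 ^ a) (hb : b ∣ m) (hr : Even (r + 1))
    (h1 : b * r + p = d + b) (h2 : d + p = m + c) (hp : p ≤ b) (hc : 1 ≤ c) (hcp : c ≤ p) :
    m < 2 * d ∧ d = p := by
  obtain ⟨q, hq⟩ := hb
  have hb0 : 0 < b := by omega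
  have e1 : ((b : ℤ) * (q + 1 - r)) = 2 * p - c := by
    have a1 : (b : ℤ) * r + p = d + b := by exact_mod_cast h1
    have a2 : (d : ℤ) + p = m + c := by exact_mod_cast h2
    have a3 : (m : ℤ) = b * q := by exact_mod_cast hq
    linear_combination -a1 - a2 - a3
  have hpos : (0 : ℤ) < (q : ℤ) + 1 - r := by
    by_contra h
    have h3 : (b : ℤ) * (q + 1 - r) ≤ 0 :=
      mul_nonpos_of_nonneg_of_nonpos (by positivity) (not_lt.1 h)
    omega
  have hlt : (q : ℤ) + 1 - r < 2 := by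
    by_contra h
    have h3 : (b : ℤ) * 2 ≤ (b : ℤ) * (q + 1 - r) :=
      mul_le_mul_of_nonneg_left (not_lt.1 h) (by positivity)
    omega
  have hqr : q = r := by omega
  subst hqr
  have hdvd : q ∣ 2 ^ a := ⟨b, by rw [← hm, hq, mul_comm]⟩
  obtain ⟨k, -, hk⟩ := (Nat.dvd_prime_pow Nat.prime_two).1 hdvd
  have hk0 : k = 0 := by
    by_contra hk0
    obtain ⟨k', rfl⟩ := Nat.exists_eq_succ_of_ne_zero hk0
    rw [hk, Nat.succ_eq_add_one, pow_succ] at hr
    obtain ⟨x, hx⟩ := hr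
    omega
  subst hk0
  rw [pow_zero] at hk
  subst hk
  rw [mul_one] at h1 hq
  omega

variable {m : ℕ} {Ω : Type} [Field Ω] [NeZero m] (C : Cfg m Ω)

/-- (A8b) if all forms `B_t` are degenerate on `X` and `m` is a power of two then all forms
`B^(j)` vanish on a shift-stable subspace of dimension `> m / 2`. -/
theorem partOne [Infinite Ω] [CharP Ω 2] {a : ℕ} (hm : m = 2 ^ a) (hdeg : ∀ t, C.rad t ≠ ⊥) :
    ∃ D : Submodule Ω (Zs m Ω), D ≤ C.X ∧ m < 2 * finrank Ω D ∧
      (∀ z, Phi m C.τ z ∈ D ↔ z ∈ D) ∧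
      (∀ j, ∀ z ∈ D, ∀ z' ∈ D, Bi j z z' = 0) ∧ ∀ j, ∃ z ∈ D, z j ≠ 0 := by
  obtain ⟨D, hD⟩ := exists_hull C
  have hDX := hull_le C hD
  obtain ⟨b, κ, hb, hs, hκm, hκ⟩ := exists_blocks C hD hdeg
  have hg2 := good2_eventually C D (good_eventually C hD hdeg)
  have := gen_neBot (ι := ZMod (2 * m)) (Ω := Ω)
  obtain ⟨t, ht2⟩ := Filter.Eventually.exists hg2
  have ht := ht2.good
  have hLD : ∀ c, ell C D κ c t ≤ Submodule.map (pr κ c) D := fun c =>
    Submodule.map_mono ht.perp_le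
  -- the blocks have odd dimension
  have hodd : ∀ c, Even (finrank Ω (Submodule.map (pr κ c) D) + 1) := by
    intro c
    have h := even_rank (Bt t) (Bt_self t) (Submodule.map (pr κ c) D) (ell C D κ c t) (by
      intro u
      constructor
      · intro hu
        refine ⟨hLD c hu, ?_⟩
        obtain ⟨w, hw, rfl⟩ := hu
        rintro _ ⟨d, hd, rfl⟩
        rw [← Bt_pr_left hκm]
        exact Bt_pr_eq_zero hD hDX hκ hκm hs ht2 c hw hd
      · rintro ⟨hu, hu'⟩
        exact mem_ell_of_orth hD hDX hκ hκm hs ht2 c hu hu')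
    rwa [finrank_ell hκ hs ht hDX c] at h
  have hsup : D ⊔ bigL C D κ t = bigD D κ := by
    apply le_antisymm
    · refine sup_le ?_ ?_
      · intro d hd c
        exact ⟨d, hd, rfl⟩
      · intro z hz c
        exact hLD c (hz c)
    · exact bigD_le hD hDX hκ hs ht2
  have hinf := inf_bigL hD hDX hκ hκm hs ht2
  let i0 : ZMod (2 * m) := 0
  have hfD : finrank Ω (bigD D κ) = b * finrank Ω (Submodule.map (pr κ (κ i0)) D) := by
    rw [finrank_blocks κ (fun c => Submodule.map (pr κ c) D) ?_ (bigD D κ) (fun z => Iff.rfl),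
      Finset.sum_congr rfl (fun c _ => blockdim_eq C hD κ hs hκ c (κ i0)), Finset.sum_const,
      Finset.card_univ, Fintype.card_fin, smul_eq_mul]
    rintro c _ ⟨d, hd, rfl⟩
    exact pr_self κ c d
  have hfL : finrank Ω (bigL C D κ t) = b := by
    rw [finrank_blocks κ (fun c => ell C D κ c t) ?_ (bigL C D κ t) (fun z => Iff.rfl),
      Finset.sum_congr rfl (fun c _ => finrank_ell hκ hs ht hDX c), Finset.sum_const,
      Finset.card_univ, Fintype.card_fin, smul_eq_mul, mul_one]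
    rintro c _ ⟨d, hd, rfl⟩
    exact pr_self κ c d
  have h1 := Submodule.finrank_sup_add_finrank_inf_eq D (bigL C D κ t)
  rw [hsup, hinf, hfD, hfL] at h1
  have h2 := finrank_perp C hDX ht.rad_le
  have h3 : finrank Ω (perp C.X D t) ≤ b := by
    rw [← hfL, ← hinf]
    exact Submodule.finrank_mono inf_le_right
  have h4 : 1 ≤ finrank Ω (C.rad t) := Submodule.one_le_finrank_iff.2 (hdeg t)
  have h5 : finrank Ω (C.rad t) ≤ finrank Ω (perp C.X D t) :=
    Submodule.finrank_mono (rad_le_perp hDX t)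
  obtain ⟨h6, h7⟩ := partOne_arith hm hb (hodd (κ i0)) h1 h2 h3 h4 h5
  have h8 : perp C.X D t = D := Submodule.eq_of_le_of_finrank_eq ht.perp_le h7.symm
  refine ⟨D, hDX, h6, hull_shift C hD, ?_, ?_⟩
  · intro j z hz z' hz'
    rw [← h8] at hz hz'
    exact ht.iso j z hz z' hz'
  · intro j
    obtain ⟨w, hw, hwj⟩ := ht.nz j
    exact ⟨w, ht.rad_le hw, hwj⟩

end Pool.Agent.Lib.CPlane
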