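import Pool.Agent.Lib.CPlane.P2B

/-!
# Part II, row B, second half: `deriv_prod`
-/

namespace Pool.Agent.Lib.CPlane.P2

open Module Finset Polynomial

section

variable {K E : Type} [Field K] [Field E] [Algebra K E] {N : ℕ}

theorem lin_lp (z th : Fin N → E) (c : Fin N → K) :
    lin (lp z th) c = C (lin z c) + X ^ 2 * C (lin th c) := by
  unfold lin lp
  simp only [smul_add, Finset.sum_add_distrib, map_sum, Finset.mul_sum]
  congr 1
  · refine Finset.sum_congr rfl fun j _ => ?_
    rw [smul_C]
  · refine Finset.sum_congr rfl fun j _ => ?_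
    rw [← mul_smul_comm, smul_C]

theorem Qf_trace [FiniteDimensional K E] (z th : Fin N → E) (τ : Matrix (Fin N) (Fin N) K)
    (hτ : ∀ i j, τ i j = Algebra.trace K E (z i * th j)) (c : Fin N → K) :
    Qf τ c = Algebra.trace K E (lin z c * lin th c) := by
  unfold Qf lin
  rw [Finset.sum_mul_sum, map_sum]
  refine Finset.sum_congr rfl fun i _ => ?_
  rw [map_sum]
  refine Finset.sum_congr rfl fun j _ => ?_
  rw [smul_mul_smul_comm, map_smul, smul_eq_mul, hτ, mul_comm]

theorem eval_F (z th : Fin N → E) (c : Fin N → K) (x : E) :
    (X + lin (lp z th) c).eval x = x + (lin z c + x ^ 2 * lin th c) := by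
  rw [lin_lp, eval_add, eval_X, eval_add, eval_C, eval_mul, eval_pow, eval_X, eval_C]

theorem derivative_F [CharP E 2] (z th : Fin N → E) (c : Fin N → K) :
    derivative (X + lin (lp z th) c) = 1 := by
  rw [lin_lp, derivative_add, derivative_X, derivative_add, derivative_C, derivative_mul,
    derivative_C, mul_zero, add_zero, zero_add, derivative_X_pow]
  have h2 : ((2 : ℕ) : E) = 0 := CharP.cast_eq_zero E 2
  rw [h2, C_0, zero_mul, zero_mul, add_zero]

theorem F_ne_zero [CharP E 2] (z th : Fin N → E) (c : Fin N → K) :
    (X + lin (lp z th) c) ≠ 0 := by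
  intro h
  have h1 := derivative_F z th c
  rw [h, derivative_zero] at h1
  exact zero_ne_one h1

theorem splits_F [CharP E 2] (z th : Fin N → E) (c : Fin N → K) {w : E}
    (hw : w ^ 2 + w = lin z c * lin th c) : (X + lin (lp z th) c).Splits := by
  rw [lin_lp]
  by_cases h : lin th c = 0
  · rw [h, C_0, mul_zero, add_zero]
    refine Splits.of_natDegree_le_one ?_
    rw [natDegree_X_add_C]
  · have h1 : (X : E[X]) + (C (lin z c) + X ^ 2 * C (lin th c)) =
        C (lin th c) * ((X + C (w / lin th c)) * (X + C ((w + 1) / lin th c))) := by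
      have h2 : C (lin th c) * C (w / lin th c) = C w := by
        rw [← C_mul]
        congr 1
        field_simp
      have h3 : C (lin th c) * C ((w + 1) / lin th c) = C w + 1 := by
        rw [← C_mul, ← C_1, ← C_add]
        congr 1
        field_simp
      have h4 : C w * C ((w + 1) / lin th c) = C (lin z c) := by
        rw [← C_mul]
        congr 1
        rw [mul_div_assoc', div_eq_iff h, ← hw]
        ring
      have h5 : (C w : E[X]) + C w = 0 := by
        rw [← C_add, CharTwo.add_self_eq_zero, C_0]
      have h6 : C (lin th c) * ((X + C (w / lin th c)) * (X + C ((w + 1) / lin th c))) =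
          C (lin th c) * X ^ 2 + (C (lin th c) * C (w / lin th c)) * X +
          (C (lin th c) * C ((w + 1) / lin th c)) * X +
          (C (lin th c) * C (w / lin th c)) * C ((w + 1) / lin th c) := by ring
      rw [h6, h2, h3, h4]
      linear_combination (-X) * h5
    rw [h1]
    exact (Splits.C _).mul ((Splits.X_add_C _).mul (Splits.X_add_C _))

end

/-- the product of the `F_c = θ X² + X + z` with `tr (z θ) = 0` has derivative `0` -/
theorem deriv_prod {K E : Type} [Field K] [Fintype K] [DecidableEq K] [CharP K 2] [Field E]
    [Finite E] [Algebra K E] {N r : ℕ} (hr : 1 ≤ r) (hK : Fintype.card K = 2 ^ r)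
    (z th : Fin N → E) (τ : Matrix (Fin N) (Fin N) K)
    (hτ : ∀ i j, τ i j = Algebra.trace K E (z i * th j))
    (h4 : ∀ b : E, (∃ c : Fin N → K, lin z c + b ^ 2 * lin th c = b) →
      ∃ c : Fin N → K, c ≠ 0 ∧ lin z c + b ^ 2 * lin th c = 0) :
    derivative (∏ c ∈ univ.filter (fun c : Fin N → K =>
      ∑ i ∈ range r, (Qf τ c) ^ 2 ^ i = 0), (X + lin (lp z th) c)) = 0 := by
  classical
  have hch : CharP E 2 := charP_of_injective_algebraMap (algebraMap K E).injective 2
  have hchX : CharP E[X] 2 := inferInstance
  set S : Finset (Fin N → K) := univ.filter (fun c : Fin N → K =>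
      ∑ i ∈ range r, (Qf τ c) ^ 2 ^ i = 0) with hS
  set P : E[X] := ∏ c ∈ S, (X + lin (lp z th) c) with hP
  have hsplit : P.Splits := by
    rw [hP]
    refine Splits.prod fun c hc => ?_
    have h1 := (Finset.mem_filter.1 hc).2
    rw [Qf_trace z th τ hτ] at h1
    obtain ⟨w, hw⟩ := exists_sq_add_self hr hK _ h1
    exact splits_F z th c hw
  have hP0 : P ≠ 0 := by
    rw [hP]
    exact Finset.prod_ne_zero_iff.2 fun c _ => F_ne_zero z th c
  have heven : ∀ x, Even (P.roots.count x) := by
    intro x
    have h1 : P.roots.count x = (univ.filter (fun c : Fin N → K =>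
        x + (lin z c + x ^ 2 * lin th c) = 0)).card := by
      rw [hP, roots_prod _ _ hP0, Multiset.count_bind]
      have h2 : ∀ c ∈ S, Multiset.count x (X + lin (lp z th) c).roots =
          if x + (lin z c + x ^ 2 * lin th c) = 0 then 1 else 0 := by
        intro c _
        have hsep : (X + lin (lp z th) c).Separable := by
          unfold Separable
          rw [derivative_F]
          exact isCoprime_one_right
        split_ifs with h
        · refine Multiset.count_eq_one_of_mem (nodup_roots hsep) ?_
          rw [mem_roots (F_ne_zero z th c), IsRoot.def, eval_F]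
          exact h
        · rw [Multiset.count_eq_zero, mem_roots (F_ne_zero z th c), IsRoot.def, eval_F]
          exact h
      change (∑ c ∈ S, Multiset.count x (X + lin (lp z th) c).roots) = _
      rw [Finset.sum_congr rfl h2, Finset.sum_boole, Nat.cast_id, hS, Finset.filter_filter]
      congr 1
      refine Finset.filter_congr fun c _ => ?_
      constructor
      · exact fun h => h.2
      · intro h
        refine ⟨?_, h⟩
        rw [Qf_trace z th τ hτ]
        have h3 : lin z c * lin th c = (lin th c * x) ^ 2 + lin th c * x := by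
          have h4 : lin z c = x + x ^ 2 * lin th c := by
            rw [← sub_eq_zero, CharTwo.sub_eq_add, ← h]
            ring
          rw [h4]
          ring
        rw [h3]
        exact trace_sq_add_self hK _
    rw [h1]
    set T := univ.filter (fun c : Fin N → K => x + (lin z c + x ^ 2 * lin th c) = 0) with hT
    by_cases hne : T.Nonempty
    · obtain ⟨c0, hc0⟩ := hne
      have h2 := (Finset.mem_filter.1 hc0).2
      obtain ⟨d, hd0, hd⟩ := h4 x ⟨c0, by
        rw [← sub_eq_zero, CharTwo.sub_eq_add, ← h2]
        ring⟩
      have h3 : ∑ c ∈ T, (1 : ZMod 2) = 0 := by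
        refine Finset.sum_involution (fun c _ => c + d) ?_ ?_ ?_ ?_
        · intro c _
          decide
        · intro c _ _ h
          exact hd0 (by simpa using h)
        · intro c hc
          rw [hT, Finset.mem_filter] at hc ⊢
          refine ⟨Finset.mem_univ _, ?_⟩
          rw [lin_add, lin_add, ← hc.2]
          linear_combination hd
        · intro c _
          ext i
          simp only [Pi.add_apply]
          rw [add_assoc, CharTwo.add_self_eq_zero, add_zero]
      rw [Finset.sum_const, nsmul_eq_mul, mul_one] at h3
      exact (ZMod.natCast_eq_zero_iff_even).1 h3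
    · rw [Finset.not_nonempty_iff_eq_empty.1 hne, Finset.card_empty]
      exact Even.zero
  rw [hsplit.eq_prod_roots, Finset.prod_multiset_map_count]
  have h5 : ∏ x ∈ P.roots.toFinset, (X - C x) ^ Multiset.count x P.roots =
      (∏ x ∈ P.roots.toFinset, (X - C x) ^ (Multiset.count x P.roots / 2)) ^ 2 := by
    rw [← Finset.prod_pow]
    refine Finset.prod_congr rfl fun x _ => ?_
    rw [← pow_mul, Nat.div_mul_cancel (heven x).two_dvd]
  rw [h5, derivative_C_mul, pow_two, derivative_mul, mul_comm (derivative _) _]
  rw [CharTwo.add_self_eq_zero, mul_zero]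

end Pool.Agent.Lib.CPlane.P2
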