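import Pool.Agent.Lib.CPlane.P2Map
import Pool.Agent.Lib.CPlane.Digits

/-!
# Part II, row E: the identity for independent variables (`s ≥ 4`)
-/

namespace Pool.Agent.Lib.CPlane.P2

open Finset

section deg

variable {E : Type} [Field E] {n s : ℕ} (z th : Fin (n + 1) → E)

theorem deg_Rt (k i : Fin n) (j : Fin (n + 1)) :
    (Rt s z th i j).degreeOf k ≤ if i = k then 1 else 0 := by
  unfold Rt
  rw [Matrix.of_apply]
  refine (MvPolynomial.degreeOf_add_le _ _ _).trans ?_
  rw [MvPolynomial.degreeOf_C]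
  refine max_le (Nat.zero_le _) ?_
  refine (MvPolynomial.degreeOf_mul_le _ _ _).trans ?_
  rw [MvPolynomial.degreeOf_C, add_zero, MvPolynomial.degreeOf_X]
  by_cases h : i = k
  · rw [if_pos h, if_pos h.symm]
  · rw [if_neg h, if_neg (Ne.symm h)]

theorem deg_Umin (k : Fin n) (j : Fin (n + 1)) :
    (Umin (Rt s z th) j).degreeOf k ≤ 1 := by
  unfold Umin
  refine (degreeOf_det_le _ k (fun i => if i = k then 1 else 0) fun i l => ?_).trans ?_
  · rw [Matrix.submatrix_apply]
    exact deg_Rt z th k i _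
  · rw [Finset.sum_ite_eq' univ k]
    simp

theorem deg_adj (k : Fin n) (i j : Fin (n + 1)) (l : Fin n) :
    ((cm (Rt s z th) i).adjugate j l.succ).degreeOf k ≤ 1 := by
  rw [Matrix.adjugate_apply]
  refine (degreeOf_det_le _ k (Fin.cons 0 (fun i => if i = k then 1 else 0))
    fun a b => ?_).trans ?_
  · have h01 : ∀ u v : Fin (n + 1), ((Pi.single u 1 : Fin (n + 1) → MvPolynomial (Fin n) E)
        v).degreeOf k ≤ 0 := by
      intro u v
      by_cases h : v = u
      · subst h
        rw [Pi.single_eq_same, ← MvPolynomial.C_1, MvPolynomial.degreeOf_C]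
      · rw [Pi.single_eq_of_ne h, MvPolynomial.degreeOf_zero]
    refine Fin.cases ?_ (fun a => ?_) a
    · rw [Matrix.updateRow_ne (Fin.succ_ne_zero l).symm]
      exact h01 i b
    · by_cases h : a = l
      · subst h
        rw [Matrix.updateRow_self]
        exact (h01 j b).trans (Nat.zero_le _)
      · rw [Matrix.updateRow_ne (fun h' => h (Fin.succ_injective n h'))]
        rw [Fin.cons_succ]
        exact deg_Rt z th k a b
  · rw [Fin.sum_univ_succ, Fin.cons_zero, zero_add]
    simp only [Fin.cons_succ]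
    rw [Finset.sum_ite_eq' univ k]
    simp

theorem deg_sum_le {ι σ R : Type} [CommRing R] (S : Finset ι) (f : ι → MvPolynomial σ R) (k : σ)
    (d : ℕ) (h : ∀ i ∈ S, (f i).degreeOf k ≤ d) : (∑ i ∈ S, f i).degreeOf k ≤ d :=
  (MvPolynomial.degreeOf_sum_le _ _ _).trans (Finset.sup_le h)

theorem deg_bmin (τ : Matrix (Fin (n + 1)) (Fin (n + 1)) E) (k l : Fin n) :
    (bmin (τ.map MvPolynomial.C) (Rt s z th) l).degreeOf k ≤ 1 := by
  unfold bmin
  refine deg_sum_le _ _ _ _ fun i _ => deg_sum_le _ _ _ _ fun j _ => ?_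
  refine (MvPolynomial.degreeOf_mul_le _ _ _).trans ?_
  rw [Matrix.map_apply, MvPolynomial.degreeOf_C, zero_add]
  exact deg_adj z th k i j l

theorem deg_h (τ : Matrix (Fin (n + 1)) (Fin (n + 1)) E) (k : Fin n) :
    (Qf (τ.map MvPolynomial.C) (Umin (Rt s z th)) +
      ∑ k : Fin n, (bmin (τ.map MvPolynomial.C) (Rt s z th) k) ^ 2 *
        MvPolynomial.X k).degreeOf k ≤ 3 := by
  refine (MvPolynomial.degreeOf_add_le _ _ _).trans (max_le ?_ ?_)
  · unfold Qf
    refine deg_sum_le _ _ _ _ fun i _ => deg_sum_le _ _ _ _ fun j _ => ?_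
    refine (MvPolynomial.degreeOf_mul_le _ _ _).trans ?_
    rw [Matrix.map_apply, MvPolynomial.degreeOf_C, zero_add]
    refine (MvPolynomial.degreeOf_mul_le _ _ _).trans ?_
    have h1 := deg_Umin (s := s) z th k i
    have h2 := deg_Umin (s := s) z th k j
    omega
  · refine deg_sum_le _ _ _ _ fun l _ => ?_
    refine (MvPolynomial.degreeOf_mul_le _ _ _).trans ?_
    have h1 := deg_bmin (s := s) z th τ k l
    have h2 : (bmin (τ.map MvPolynomial.C) (Rt s z th) l ^ 2).degreeOf k ≤ 2 := by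
      rw [pow_two]
      refine (MvPolynomial.degreeOf_mul_le _ _ _).trans ?_
      omega
    have h3 : (MvPolynomial.X l : MvPolynomial (Fin n) E).degreeOf k ≤ 1 := by
      rw [MvPolynomial.degreeOf_X]
      split_ifs <;> omega
    omega

end deg

theorem identityE {E : Type} [Field E] [CharP E 2] {n r : ℕ} (hr : 2 ≤ r)
    (z th : Fin (n + 1) → E) (τ : Matrix (Fin (n + 1)) (Fin (n + 1)) E)
    (hC : Qf (τ.map Polynomial.C) (Umin (RM n (2 ^ r) (lp z th))) =
      ∑ k : Fin n, (bmin (τ.map Polynomial.C) (RM n (2 ^ r) (lp z th)) k) ^ 2 *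
        (Polynomial.X ^ 2) ^ (2 ^ r) ^ (k : ℕ)) :
    Qf (τ.map MvPolynomial.C) (Umin (Rt (2 ^ r) z th)) =
      ∑ k : Fin n, (bmin (τ.map MvPolynomial.C) (Rt (2 ^ r) z th) k) ^ 2 *
        MvPolynomial.X k := by
  have : CharP (MvPolynomial (Fin n) E) 2 := inferInstance
  have : CharP (Polynomial E) 2 := inferInstance
  rw [← sub_eq_zero, CharTwo.sub_eq_add]
  have h4 : 3 < 2 ^ r := by
    calc 3 < 2 ^ 2 := by norm_num
      _ ≤ 2 ^ r := Nat.pow_le_pow_right (by norm_num) hr
  refine digits (s := 2 ^ r) _ (fun k => lt_of_le_of_lt (deg_h z th τ k) h4) ?_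
  apply Polynomial.expand_injective (R := E) (n := 2) (by norm_num)
  rw [map_zero]
  set f : MvPolynomial (Fin n) E →+* Polynomial E :=
    (MvPolynomial.aeval (fun k : Fin n =>
      ((Polynomial.X : Polynomial E) ^ 2) ^ (2 ^ r) ^ (k : ℕ))).toRingHom with hf
  have hcurve : ∀ h : MvPolynomial (Fin n) E,
      Polynomial.expand E 2 (curve (2 ^ r) h) = f h := by
    intro h
    unfold curve
    rw [hf]
    change (Polynomial.expand E 2) _ = (MvPolynomial.aeval _) h
    rw [MvPolynomial.comp_aeval_apply (f := fun k : Fin n =>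
      (Polynomial.X : Polynomial E) ^ (2 ^ r) ^ (k : ℕ)) (Polynomial.expand E 2) h]
    congr 2
    ext1 k
    rw [map_pow, Polynomial.expand_X]
  rw [hcurve]
  have hfX : ∀ k, f (MvPolynomial.X k) = (Polynomial.X ^ 2) ^ (2 ^ r) ^ (k : ℕ) := by
    intro k
    rw [hf]
    exact MvPolynomial.aeval_X _ k
  have hfC : ∀ e, f (MvPolynomial.C e) = Polynomial.C e := by
    intro e
    rw [hf]
    exact MvPolynomial.aeval_C _ e
  have hτ : (τ.map MvPolynomial.C).map f = τ.map Polynomial.C := by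
    ext1 i j
    simp only [Matrix.map_apply, hfC]
  have hR : (Rt (2 ^ r) z th).map f = RM n (2 ^ r) (lp z th) := by
    ext1 k j
    simp only [Matrix.map_apply, Rt, RM, Matrix.of_apply, lp]
    rw [map_add, map_mul, hfC, hfC, hfX, ← pow_mul, add_pow_char_pow, mul_pow, Polynomial.C_pow,
      Polynomial.C_pow]
  rw [map_add, Qf_map, map_sum, hτ]
  simp only [map_mul, map_pow, hfX, bmin_map, Umin_map, hτ, hR]
  rw [show (fun i => Umin (RM n (2 ^ r) (lp z th)) i) = Umin (RM n (2 ^ r) (lp z th)) from rfl,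
    hC]
  exact CharTwo.add_self_eq_zero _

end Pool.Agent.Lib.CPlane.P2
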