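import Pool.Agent.Lib.CPlane.P2Map

/-!
# Part II, row F: the derivative of `Q(U) = Σ t_k b_k²`
-/

namespace Pool.Agent.Lib.CPlane.P2

open Finset

theorem b_cases {E : Type} [Field E] [CharP E 2] {n s : ℕ}
    (z th : Fin (n + 1) → E) (τ : Matrix (Fin (n + 1)) (Fin (n + 1)) E)
    (hE : Qf (τ.map MvPolynomial.C) (Umin (Rt s z th)) =
      ∑ k : Fin n, (bmin (τ.map MvPolynomial.C) (Rt s z th) k) ^ 2 * MvPolynomial.X k)
    (k : Fin n) :
    bmin (τ.map MvPolynomial.C) (Rt s z th) k = 0 ∨
      bmin (τ.map MvPolynomial.C) (Rt s z th) k =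
        ∑ j, MvPolynomial.C (th j ^ s ^ (k : ℕ)) * Umin (Rt s z th) j := by
  have hch : CharP (MvPolynomial (Fin n) E) 2 := inferInstance
  have hR : ∀ l j, MvPolynomial.pderiv k (Rt s z th l j) =
      if l = k then MvPolynomial.C (th j ^ s ^ (k : ℕ)) else 0 := by
    intro l j
    simp only [Rt, Matrix.of_apply, map_add, Derivation.leibniz, MvPolynomial.pderiv_C,
      zero_add, smul_eq_mul, MvPolynomial.pderiv_X, mul_zero]
    by_cases h : l = k
    · subst h
      rw [Pi.single_eq_same, if_pos rfl, mul_one]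
    · rw [Pi.single_eq_of_ne h, if_neg h, mul_zero]
  have hRU : ∀ l, ∑ j, Rt s z th l j * MvPolynomial.pderiv k (Umin (Rt s z th) j) =
      if l = k then ∑ j, MvPolynomial.C (th j ^ s ^ (k : ℕ)) * Umin (Rt s z th) j else 0 := by
    intro l
    have h := congrArg (MvPolynomial.pderiv k) (R_Umin (Rt s z th) l)
    rw [map_sum, map_zero] at h
    simp only [Derivation.leibniz, smul_eq_mul, hR] at h
    rw [Finset.sum_add_distrib, ← sub_eq_zero, CharTwo.sub_eq_add, add_zero] at h
    rw [← sub_eq_zero, CharTwo.sub_eq_add, ← h]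
    congr 1
    by_cases hl : l = k
    · simp only [if_pos hl]
      exact Finset.sum_congr rfl fun j _ => mul_comm _ _
    · simp only [if_neg hl, mul_zero, Finset.sum_const_zero] at h ⊢
      rw [add_zero] at h ⊢
      exact h
  have hQ : MvPolynomial.pderiv k (Qf (τ.map MvPolynomial.C) (Umin (Rt s z th))) =
      Bf (τ.map MvPolynomial.C) (Umin (Rt s z th))
        (fun j => MvPolynomial.pderiv k (Umin (Rt s z th) j)) := by
    simp only [Qf, Bf, map_sum, Derivation.leibniz, smul_eq_mul, Matrix.map_apply,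
      MvPolynomial.pderiv_C, mul_zero, add_zero]
    refine Finset.sum_congr rfl fun i _ => Finset.sum_congr rfl fun j _ => ?_
    ring
  have hS : MvPolynomial.pderiv k (∑ l : Fin n,
      (bmin (τ.map MvPolynomial.C) (Rt s z th) l) ^ 2 * MvPolynomial.X l) =
      (bmin (τ.map MvPolynomial.C) (Rt s z th) k) ^ 2 := by
    rw [map_sum]
    have h2 : ∀ x : MvPolynomial (Fin n) E, MvPolynomial.pderiv k (x ^ 2) = 0 := by
      intro x
      rw [pow_two, Derivation.leibniz]
      exact CharTwo.add_self_eq_zero _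
    simp only [Derivation.leibniz, smul_eq_mul, h2, mul_zero, add_zero, MvPolynomial.pderiv_X]
    rw [Finset.sum_eq_single k]
    · rw [Pi.single_eq_same, mul_one]
    · intro j _ hj
      rw [Pi.single_eq_of_ne hj, mul_zero]
    · intro h
      exact absurd (Finset.mem_univ k) h
  have h := congrArg (MvPolynomial.pderiv k) hE
  rw [hQ, hS, Bf_Umin] at h
  simp only [hRU] at h
  rw [Finset.sum_eq_single k] at h
  · rw [if_pos rfl] at h
    rw [pow_two] at h
    rcases mul_eq_mul_left_iff.1 h with h1 | h1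
    · exact Or.inr h1.symm
    · exact Or.inl h1
  · intro j _ hj
    rw [if_neg hj, mul_zero]
  · intro h
    exact absurd (Finset.mem_univ k) h

end Pool.Agent.Lib.CPlane.P2
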