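import Pool.Agent.Lib.CPlane.P2Def

/-!
# Part II, row G: the algebra `K[σ]`, `σ ^ m = 1`, `m = 2 ^ a`
-/

namespace Pool.Agent.Lib.CPlane.P2

open Module Finset Polynomial

theorem geom_char2 {K : Type} [Field K] [CharP K 2] (a : ℕ) :
    ∑ k ∈ range (2 ^ a), (X : Polynomial K) ^ k = (X - C 1) ^ (2 ^ a - 1) := by
  have hch : CharP (Polynomial K) 2 := inferInstance
  have h1 : (∑ k ∈ range (2 ^ a), (X : Polynomial K) ^ k) * (X - C 1) =
      (X - C 1) ^ (2 ^ a - 1) * (X - C 1) := by
    rw [← pow_succ, Nat.sub_add_cancel (Nat.one_le_two_pow), C_1, geom_sum_mul,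
      sub_pow_char_pow, one_pow]
  exact mul_right_cancel₀ (X_sub_C_ne_zero 1) h1

theorem trace_eq_zero_of_sum {K E : Type} [Field K] [Fintype K] [CharP K 2] [Field E] [Finite E]
    [Algebra K E] {a : ℕ} (hm : finrank K E = 2 ^ a) (T : Finset ℕ) (hT : T ⊆ range (2 ^ a))
    (hne : T.Nonempty) (x : E) (hx : ∑ k ∈ T, x ^ Fintype.card K ^ k = 0) :
    Algebra.trace K E x = 0 := by
  classical
  have hch : CharP (Polynomial K) 2 := inferInstance
  set φ : Module.End K E := (FiniteField.frobeniusAlgHom K E).toLinearMap with hφ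
  have hφa : ∀ y, φ y = y ^ Fintype.card K := fun y => rfl
  have hφk : ∀ (k : ℕ) (y : E), (φ ^ k) y = y ^ Fintype.card K ^ k := by
    intro k y
    induction k with
    | zero => simp
    | succ k ih =>
      rw [pow_succ', Module.End.mul_apply, hφa, ih, ← pow_mul, ← pow_succ]
  have hcard : Nat.card E = Fintype.card K ^ 2 ^ a := by
    rw [← Nat.card_eq_fintype_card, ← hm]
    exact Module.natCard_eq_pow_finrank
  have hφm : φ ^ 2 ^ a = 1 := by
    ext y
    rw [hφk, ← hcard]
    have : Fintype E := Fintype.ofFinite E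
    rw [Nat.card_eq_fintype_card, FiniteField.pow_card]
    rfl
  have hq : aeval φ ((X - C 1 : Polynomial K) ^ 2 ^ a) = 0 := by
    rw [C_1, sub_pow_char_pow, one_pow, map_sub, map_pow, aeval_X, map_one, hφm, sub_self]
  set P : Polynomial K := ∑ k ∈ T, X ^ k with hP
  have hPx : aeval φ P x = 0 := by
    rw [hP, map_sum, LinearMap.sum_apply, ← hx]
    refine Finset.sum_congr rfl fun k _ => ?_
    rw [map_pow, aeval_X, hφk]
  have hPcoeff : ∀ k, P.coeff k = if k ∈ T then 1 else 0 := by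
    intro k
    rw [hP, finsetSum_coeff]
    simp only [coeff_X_pow]
    rw [Finset.sum_ite_eq T k]
  have hP0 : P ≠ 0 := by
    obtain ⟨k, hk⟩ := hne
    intro h
    have := hPcoeff k
    rw [h, coeff_zero, if_pos hk] at this
    exact zero_ne_one this
  have hPdeg : P.natDegree < 2 ^ a := by
    rw [natDegree_lt_iff_degree_lt hP0, degree_lt_iff_coeff_zero]
    intro k hk
    rw [hPcoeff, if_neg]
    intro h
    have := Finset.mem_range.1 (hT h)
    omega
  obtain ⟨l, hl, hassoc⟩ := (dvd_prime_pow (prime_X_sub_C (1 : K)) (2 ^ a)).1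
    (EuclideanDomain.gcd_dvd_right P ((X - C 1) ^ 2 ^ a))
  have hlP : (X - C 1 : Polynomial K) ^ l ∣ P :=
    hassoc.symm.dvd.trans (EuclideanDomain.gcd_dvd_left _ _)
  have hlt : l < 2 ^ a := by
    have h1 := natDegree_le_of_dvd hlP hP0
    rw [natDegree_pow, natDegree_X_sub_C, mul_one] at h1
    omega
  have hkill : ∀ p q : Polynomial K, aeval φ p x = 0 → aeval φ (p * q) x = 0 := by
    intro p q h
    rw [mul_comm, map_mul, Module.End.mul_apply, h, map_zero]
  have hgx : aeval φ (EuclideanDomain.gcd P ((X - C 1) ^ 2 ^ a)) x = 0 := by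
    rw [EuclideanDomain.gcd_eq_gcd_ab, map_add, LinearMap.add_apply, hkill _ _ hPx, zero_add]
    exact hkill _ _ (by rw [hq, LinearMap.zero_apply])
  have hlx : aeval φ ((X - C 1 : Polynomial K) ^ (2 ^ a - 1)) x = 0 := by
    obtain ⟨c, hc⟩ := hassoc.dvd
    have h2 : (X - C 1 : Polynomial K) ^ (2 ^ a - 1) =
        EuclideanDomain.gcd P ((X - C 1) ^ 2 ^ a) * (c * (X - C 1) ^ (2 ^ a - 1 - l)) := by
      rw [← mul_assoc, ← hc, ← pow_add]
      congr 1
      omega
    rw [h2]
    exact hkill _ _ hgx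
  rw [← geom_char2] at hlx
  have htr : algebraMap K E (Algebra.trace K E x) = 0 := by
    rw [FiniteField.algebraMap_trace_eq_sum_pow]
    rw [map_sum, LinearMap.sum_apply] at hlx
    rw [hm, ← hlx]
    refine Finset.sum_congr rfl fun k _ => ?_
    rw [map_pow, aeval_X, hφk, Nat.card_eq_fintype_card]
  exact (map_eq_zero_iff _ (algebraMap K E).injective).1 htr

end Pool.Agent.Lib.CPlane.P2
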