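import Mathlib

/-!
# Part II, rows C and D: the identity on the curve

`K` is a finite field with `s = 2 ^ r` elements, `F` an extension of `K`, `l_0, …, l_n` are
`K`-independent elements of `F` and `A` is a square matrix over `K`.  If the sum of
`1 / (x + Σ c_j l_j)` over all `c` with `Tr (cᵗ A c) = 0` is zero, then `(pᵗ (A + Aᵗ) u)² = uᵗ A u`
for all `u`, `p` with `Σ u_j l_j ^ (s ^ k) = 0` and `Σ p_j l_j ^ (s ^ k) = x ^ (s ^ k)` for
`1 ≤ k ≤ n`.
-/

namespace Pool.Agent.Lib.CPlane

open Polynomial Finset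

section Lagrange

variable {F V : Type*} [Field F] [AddCommGroup V] [Fintype V] [DecidableEq V]

/-- the weights of Lagrange interpolation at the elements of an additive group are equal -/
theorem nodalWeight_eq (e : V →+ F) (i : V) :
    Lagrange.nodalWeight (univ : Finset V) e i = ∏ j ∈ (univ : Finset V).erase 0, (e j)⁻¹ := by
  unfold Lagrange.nodalWeight
  refine Finset.prod_nbij' (fun j => i - j) (fun j => i - j) ?_ ?_ ?_ ?_ ?_
  · intro j hj
    have hj' := Finset.ne_of_mem_erase hj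
    exact Finset.mem_erase.2 ⟨sub_ne_zero.2 (Ne.symm hj'), Finset.mem_univ _⟩
  · intro j hj
    have hj' := Finset.ne_of_mem_erase hj
    refine Finset.mem_erase.2 ⟨?_, Finset.mem_univ _⟩
    intro h
    exact hj' (by simpa using h)
  · intro j _; simp
  · intro j _; simp
  · intro j _
    rw [map_sub]

/-- Lagrange interpolation at the elements of an additive group -/
theorem eval_eq_zero_of_sum (e : V →+ F) (he : Function.Injective e) (h : F[X])
    (hd : h.degree < (Fintype.card V : ℕ)) (x : F) (hx : ∀ v, x ≠ e v)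
    (hsum : ∑ v, (x - e v)⁻¹ * h.eval (e v) = 0) : h.eval x = 0 := by
  have h1 : h = Lagrange.interpolate univ e (fun v => h.eval (e v)) :=
    Lagrange.eq_interpolate (he.injOn) (by rwa [Finset.card_univ])
  rw [h1, Lagrange.eval_interpolate_not_at_node _ (fun i _ => hx i)]
  have h2 : ∑ i, Lagrange.nodalWeight (univ : Finset V) e i * (x - e i)⁻¹ * h.eval (e i) =
      (∏ j ∈ (univ : Finset V).erase 0, (e j)⁻¹) * ∑ v, (x - e v)⁻¹ * h.eval (e v) := by
    rw [Finset.mul_sum]
    refine Finset.sum_congr rfl fun i _ => ?_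
    rw [nodalWeight_eq, mul_assoc]
  rw [h2, hsum, mul_zero, mul_zero]

end Lagrange

section Moore

variable {K F : Type*} [Field K] [Fintype K] [Field F] [Algebra K F] {N : ℕ}

/-- powers of linear combinations -/
theorem lin_pow (l : Fin N → F) (c : Fin N → K) (k : ℕ) :
    (∑ j, c j • l j) ^ (Fintype.card K ^ k) = ∑ j, c j • l j ^ (Fintype.card K ^ k) := by
  induction k with
  | zero => simp
  | succ k ih =>
    rw [pow_succ, pow_mul, ih]
    have h := map_sum (FiniteField.frobeniusAlgHom K F) (fun j => c j • l j ^ (Fintype.card K ^ k))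
      univ
    simp only [FiniteField.coe_frobeniusAlgHom, map_smul] at h
    rw [h]
    refine Finset.sum_congr rfl fun j _ => ?_
    rw [pow_mul]

/-- the values of a linearised polynomial at linear combinations -/
theorem moore_eval (l : Fin N → F) (a : Fin N → F) (c : Fin N → K)
    (ha : ∀ j, ∑ k, a k * l j ^ (Fintype.card K ^ (k : ℕ)) = 0) :
    ∑ k, a k * (∑ j, c j • l j) ^ (Fintype.card K ^ (k : ℕ)) = 0 := by
  simp only [lin_pow, Finset.mul_sum]
  rw [Finset.sum_comm]
  refine Finset.sum_eq_zero fun j _ => ?_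
  have : ∑ k : Fin N, a k * c j • l j ^ (Fintype.card K ^ (k : ℕ)) =
      c j • ∑ k : Fin N, a k * l j ^ (Fintype.card K ^ (k : ℕ)) := by
    rw [Finset.smul_sum]
    refine Finset.sum_congr rfl fun k _ => ?_
    rw [mul_smul_comm]
  rw [this, ha j, smul_zero]

/-- Moore: independent elements have a non-zero Moore determinant -/
theorem moore_det_ne_zero {l : Fin N → F} (hl : LinearIndependent K l) :
    (Matrix.of fun (k j : Fin N) => l j ^ (Fintype.card K ^ (k : ℕ))).det ≠ 0 := by
  classical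
  intro hdet
  obtain ⟨a, ha0, ha⟩ := Matrix.exists_vecMul_eq_zero_iff.2 hdet
  have ha' : ∀ j, ∑ k, a k * l j ^ (Fintype.card K ^ (k : ℕ)) = 0 := by
    intro j
    have := congrFun ha j
    simpa [Matrix.vecMul, dotProduct] using this
  have hq : 1 < Fintype.card K := Fintype.one_lt_card
  set P : F[X] := ∑ k : Fin N, C (a k) * X ^ (Fintype.card K ^ (k : ℕ)) with hP
  have hdeg : P.degree < ((univ : Finset (Fin N → K)).card : ℕ) := by
    rw [Finset.card_univ, Fintype.card_fun, Fintype.card_fin, ← Polynomial.mem_degreeLT]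
    refine Submodule.sum_mem _ fun k _ => ?_
    rw [Polynomial.mem_degreeLT]
    refine lt_of_le_of_lt (degree_C_mul_X_pow_le _ _) ?_
    exact_mod_cast Nat.pow_lt_pow_right hq k.2
  have hinj : Function.Injective (fun c : Fin N → K => ∑ j, c j • l j) := by
    intro c c' h
    have h1 : ∑ j, (c j - c' j) • l j = 0 := by
      simp only [sub_smul, Finset.sum_sub_distrib]
      exact sub_eq_zero.2 h
    have h2 := Fintype.linearIndependent_iff.1 hl _ h1
    funext j
    exact sub_eq_zero.1 (h2 j)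
  have hP0 : P = 0 := by
    refine Polynomial.eq_zero_of_degree_lt_of_eval_index_eq_zero _ hinj.injOn hdeg ?_
    intro c _
    rw [hP, eval_finsetSum]
    simp only [eval_mul, eval_C, eval_pow, eval_X]
    exact moore_eval l a c ha'
  apply ha0
  funext k
  have h3 := congrArg (fun Q : F[X] => Q.coeff (Fintype.card K ^ (k : ℕ))) hP0
  simp only [hP, finsetSum_coeff, coeff_C_mul, coeff_X_pow, coeff_zero] at h3
  rw [Finset.sum_eq_single k] at h3
  · simpa using h3
  · intro b _ hb
    rw [if_neg, mul_zero]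
    intro h
    exact hb (Fin.ext (Nat.pow_right_injective hq h).symm)
  · intro h; exact absurd (Finset.mem_univ _) h

end Moore

section Forms

variable {K R : Type*} [Field K] [CommRing R] [Algebra K R] {N : ℕ}

/-- the quadratic form of the matrix `A` -/
def qf (A : Matrix (Fin N) (Fin N) K) (u : Fin N → R) : R := ∑ j, ∑ l, A j l • (u j * u l)

/-- the polar form of the quadratic form of the matrix `A` -/
def bf (A : Matrix (Fin N) (Fin N) K) (u v : Fin N → R) : R :=
  ∑ j, ∑ l, A j l • (u j * v l + v j * u l)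

theorem qf_add (A : Matrix (Fin N) (Fin N) K) (u v : Fin N → R) :
    qf A (u + v) = qf A u + bf A u v + qf A v := by
  simp only [qf, bf, ← Finset.sum_add_distrib, ← smul_add]
  refine Finset.sum_congr rfl fun j _ => Finset.sum_congr rfl fun l _ => ?_
  congr 1
  simp only [Pi.add_apply]
  ring

theorem qf_smul (A : Matrix (Fin N) (Fin N) K) (a : R) (u : Fin N → R) :
    qf A (a • u) = a ^ 2 * qf A u := by
  simp only [qf, Finset.mul_sum]
  refine Finset.sum_congr rfl fun j _ => Finset.sum_congr rfl fun l _ => ?_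
  rw [mul_smul_comm]
  congr 1
  simp only [Pi.smul_apply, smul_eq_mul]
  ring

theorem bf_add_left (A : Matrix (Fin N) (Fin N) K) (u u' v : Fin N → R) :
    bf A (u + u') v = bf A u v + bf A u' v := by
  simp only [bf, ← Finset.sum_add_distrib, ← smul_add]
  refine Finset.sum_congr rfl fun j _ => Finset.sum_congr rfl fun l _ => ?_
  congr 1
  simp only [Pi.add_apply]
  ring

theorem bf_smul_left (A : Matrix (Fin N) (Fin N) K) (a : R) (u v : Fin N → R) :
    bf A (a • u) v = a * bf A u v := by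
  simp only [bf, Finset.mul_sum]
  refine Finset.sum_congr rfl fun j _ => Finset.sum_congr rfl fun l _ => ?_
  rw [mul_smul_comm]
  congr 1
  simp only [Pi.smul_apply, smul_eq_mul]
  ring

theorem bf_comm (A : Matrix (Fin N) (Fin N) K) (u v : Fin N → R) : bf A u v = bf A v u := by
  simp only [bf]
  refine Finset.sum_congr rfl fun j _ => Finset.sum_congr rfl fun l _ => ?_
  rw [add_comm]

theorem bf_self [CharP R 2] (A : Matrix (Fin N) (Fin N) K) (u : Fin N → R) : bf A u u = 0 := by
  simp only [bf]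
  refine Finset.sum_eq_zero fun j _ => Finset.sum_eq_zero fun l _ => ?_
  rw [CharTwo.add_self_eq_zero, smul_zero]

/-- quadratic forms and homomorphisms -/
theorem map_qf {R' : Type*} [CommRing R'] [Algebra K R'] (g : R →ₐ[K] R')
    (A : Matrix (Fin N) (Fin N) K) (u : Fin N → R) : g (qf A u) = qf A (fun j => g (u j)) := by
  simp only [qf, map_sum, map_smul, map_mul]

theorem map_bf {R' : Type*} [CommRing R'] [Algebra K R'] (g : R →ₐ[K] R')
    (A : Matrix (Fin N) (Fin N) K) (u v : Fin N → R) :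
    g (bf A u v) = bf A (fun j => g (u j)) (fun j => g (v j)) := by
  simp only [bf, map_sum, map_smul, map_mul, map_add]

end Forms

section Deg

variable {F : Type*} [Field F] [CharP F 2]

omit [CharP F 2] in
theorem pow_mem_degreeLT {q : F[X]} {d k : ℕ} (hk : 0 < k) (hq : q ∈ degreeLT F d) :
    q ^ k ∈ degreeLT F (k * d) := by
  rw [mem_degreeLT] at hq ⊢
  by_cases h0 : q = 0
  · rw [h0, zero_pow hk.ne', degree_zero]
    exact WithBot.bot_lt_coe _
  · rw [degree_pow, degree_eq_natDegree h0] at *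
    have h1 : q.natDegree < d := by exact_mod_cast hq
    have h2 : k * q.natDegree < k * d := Nat.mul_lt_mul_of_pos_left h1 hk
    rw [nsmul_eq_mul]
    exact_mod_cast h2

/-- the two terms of highest degree cancel -/
theorem deg_h {q q1 M M1 : F[X]} {m r : ℕ} {c : F} (hm : 0 < m) (hr : 0 < r)
    (hq : q = C c * X ^ (2 * m) + q1) (hq1 : q1 ∈ degreeLT F (2 * m))
    (hM : M = X ^ (m * 2 ^ r) + M1) (hM1 : M1 ∈ degreeLT F (m * 2 ^ r)) :
    1 + ∑ i ∈ range r, q ^ (2 ^ i) + C (c ^ (2 ^ (r - 1))) * M ∈ degreeLT F (m * 2 ^ r) := by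
  obtain ⟨r', rfl⟩ : ∃ r', r = r' + 1 := ⟨r - 1, by omega⟩
  rw [Nat.add_sub_cancel]
  have hpos : 0 < m * 2 ^ (r' + 1) := by positivity
  have e1 : q ^ 2 ^ r' = C (c ^ 2 ^ r') * X ^ (m * 2 ^ (r' + 1)) + q1 ^ 2 ^ r' := by
    rw [hq, add_pow_char_pow, mul_pow, ← C_pow, ← pow_mul]
    congr 3
    ring
  have e2 : 1 + ∑ i ∈ range (r' + 1), q ^ (2 ^ i) + C (c ^ (2 ^ r')) * M =
      1 + ∑ i ∈ range r', q ^ (2 ^ i) + q1 ^ 2 ^ r' + C (c ^ 2 ^ r') * M1 := by
    rw [Finset.sum_range_succ, e1, hM]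
    have : (C (c ^ 2 ^ r') * X ^ (m * 2 ^ (r' + 1)) : F[X]) +
        C (c ^ 2 ^ r') * X ^ (m * 2 ^ (r' + 1)) = 0 := CharTwo.add_self_eq_zero _
    linear_combination this
  rw [e2]
  refine Submodule.add_mem _ (Submodule.add_mem _ (Submodule.add_mem _ ?_ ?_) ?_) ?_
  · rw [mem_degreeLT, degree_one]
    exact_mod_cast hpos
  · refine Submodule.sum_mem _ fun i hi => ?_
    have hi' := Finset.mem_range.1 hi
    have hq' : q ∈ degreeLT F (2 * m + 1) := by
      rw [hq]
      refine Submodule.add_mem _ ?_ (degreeLT_mono (by omega) hq1)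
      rw [mem_degreeLT]
      refine lt_of_le_of_lt (degree_C_mul_X_pow_le _ _) ?_
      exact_mod_cast Nat.lt_succ_self _
    have h1 : q.natDegree ≤ 2 * m := by
      rw [mem_degreeLT] at hq'
      by_cases h0 : q = 0
      · rw [h0]; simp
      · rw [degree_eq_natDegree h0] at hq'
        have : q.natDegree < 2 * m + 1 := by exact_mod_cast hq'
        omega
    rw [mem_degreeLT]
    refine lt_of_le_of_lt degree_le_natDegree ?_
    have h2 : (q ^ 2 ^ i).natDegree ≤ 2 ^ i * (2 * m) :=
      (natDegree_pow_le).trans (Nat.mul_le_mul_left _ h1)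
    have h3 : 2 ^ i * (2 * m) < m * 2 ^ (r' + 1) := by
      have h4 : (2 : ℕ) ^ (i + 1) ≤ 2 ^ r' := Nat.pow_le_pow_right (by norm_num) hi'
      have h5 : (2 : ℕ) ^ r' < 2 ^ (r' + 1) := Nat.pow_lt_pow_right (by norm_num) (by omega)
      calc 2 ^ i * (2 * m) = m * 2 ^ (i + 1) := by ring
        _ < m * 2 ^ (r' + 1) := Nat.mul_lt_mul_of_pos_left (lt_of_le_of_lt h4 h5) hm
    exact_mod_cast lt_of_le_of_lt h2 h3
  · have := pow_mem_degreeLT (k := 2 ^ r') (by positivity) hq1
    refine degreeLT_mono (le_of_eq ?_) this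
    ring
  · rw [← smul_eq_C_mul]
    exact Submodule.smul_mem _ _ hM1

end Deg

section Tele

/-- telescoping -/
theorem tele {R : Type*} [CommRing R] [CharP R 2] (x : R) (r : ℕ) :
    (∑ i ∈ range r, x ^ (2 ^ i)) ^ 2 + ∑ i ∈ range r, x ^ (2 ^ i) = x ^ (2 ^ r) + x := by
  induction r with
  | zero => simp [CharTwo.add_self_eq_zero]
  | succ r ih =>
    rw [Finset.sum_range_succ, add_sq]
    have h2 : (2 : R) = 0 := CharTwo.two_eq_zero
    have h3 : x ^ (2 ^ (r + 1)) = (x ^ 2 ^ r) ^ 2 := by rw [← pow_mul, pow_succ]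
    rw [h3]
    linear_combination ih + (∑ i ∈ range r, x ^ 2 ^ i) * x ^ 2 ^ r * h2 + x ^ (2 ^ r) * h2

theorem tr_zero_or_one {K : Type*} [Field K] [Fintype K] [CharP K 2] {r : ℕ}
    (hs : Fintype.card K = 2 ^ r) (x : K) :
    ∑ i ∈ range r, x ^ (2 ^ i) = 0 ∨ ∑ i ∈ range r, x ^ (2 ^ i) = 1 := by
  have h := tele x r
  rw [← hs, FiniteField.pow_card, CharTwo.add_self_eq_zero] at h
  set t := ∑ i ∈ range r, x ^ (2 ^ i)
  have h1 : t * (t + 1) = 0 := by linear_combination h
  rcases mul_eq_zero.1 h1 with h2 | h2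
  · exact Or.inl h2
  · right
    have h3 : (2 : K) = 0 := CharTwo.two_eq_zero
    linear_combination h2 - h3

end Tele

section Curve

variable {K F : Type*} [Field K] [Fintype K] [Field F] [Algebra K F] {n : ℕ}

omit [Fintype K] in
theorem qf_algebraMap (A : Matrix (Fin n) (Fin n) K) (c : Fin n → K) :
    algebraMap K F (qf A c) = qf A (fun j => algebraMap K F (c j)) :=
  map_qf (Algebra.ofId K F) A c

/-- the quadratic form and the Frobenius automorphism -/
theorem qf_frob (A : Matrix (Fin n) (Fin n) K) (u : Fin n → F) :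
    qf A (fun j => u j ^ Fintype.card K) = qf A u ^ Fintype.card K := by
  have h := map_qf (FiniteField.frobeniusAlgHom K F) A u
  simpa [FiniteField.coe_frobeniusAlgHom] using h.symm

omit [Fintype K] in
theorem smul_mem_degreeLT {d : ℕ} (a : K) {q : F[X]} (hq : q ∈ degreeLT F d) :
    a • q ∈ degreeLT F d := by
  rw [← algebraMap_smul F a q]
  exact Submodule.smul_mem _ _ hq

theorem mul_mem_degreeLT {a b : ℕ} {p q : F[X]} (hp : p ∈ degreeLT F (a + 1))
    (hq : q ∈ degreeLT F b) : p * q ∈ degreeLT F (a + b) := by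
  rw [mem_degreeLT] at hp hq ⊢
  by_cases h0 : p = 0
  · rw [h0, zero_mul, degree_zero]
    exact WithBot.bot_lt_coe _
  by_cases h1 : q = 0
  · rw [h1, mul_zero, degree_zero]
    exact WithBot.bot_lt_coe _
  · rw [degree_mul]
    rw [degree_eq_natDegree h0] at *
    rw [degree_eq_natDegree h1] at *
    have h2 : p.natDegree < a + 1 := by exact_mod_cast hp
    have h3 : q.natDegree < b := by exact_mod_cast hq
    have h4 : p.natDegree + q.natDegree < a + b := by omega
    exact_mod_cast h4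

variable [CharP F 2]

open Classical in
theorem curve_identity {r : ℕ} (hr : 0 < r) (hs : Fintype.card K = 2 ^ r)
    (A : Matrix (Fin (n + 1)) (Fin (n + 1)) K) {l : Fin (n + 1) → F}
    (hl : LinearIndependent K l) (x : F) (hx : ∀ c : Fin (n + 1) → K, x ≠ ∑ j, c j • l j)
    (hsum : ∑ c : Fin (n + 1) → K,
      (if ∑ i ∈ range r, qf A c ^ (2 ^ i) = 0 then (x - ∑ j, c j • l j)⁻¹ else 0) = 0)
    (u p : Fin (n + 1) → F)
    (hu : ∀ k : Fin n, ∑ j, l j ^ (Fintype.card K ^ ((k : ℕ) + 1)) * u j = 0)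
    (hp : ∀ k : Fin n, ∑ j, l j ^ (Fintype.card K ^ ((k : ℕ) + 1)) * p j =
      x ^ (Fintype.card K ^ ((k : ℕ) + 1))) :
    bf A p u ^ 2 = qf A u := by
  have : CharP K 2 := (RingHom.charP_iff (algebraMap K F) (algebraMap K F).injective 2).2
    inferInstance
  set s := Fintype.card K with hsdef
  have hs1 : 1 < s := Fintype.one_lt_card
  have h20 : (2 : F) = 0 := CharTwo.two_eq_zero
  -- the Moore matrix
  set R : Matrix (Fin (n + 1)) (Fin (n + 1)) F := Matrix.of fun k j => l j ^ (s ^ (k : ℕ)) with hR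
  have hRdet : R.det ≠ 0 := moore_det_ne_zero hl
  have hRu : IsUnit R.det := isUnit_iff_ne_zero.2 hRdet
  have hRRi : R * R⁻¹ = 1 := Matrix.mul_nonsing_inv R hRu
  have hRiR : R⁻¹ * R = 1 := Matrix.nonsing_inv_mul R hRu
  -- the Frobenius twist of the Moore matrix
  set R1 : Matrix (Fin (n + 1)) (Fin (n + 1)) F :=
    Matrix.of fun k j => l j ^ (s ^ ((k : ℕ) + 1)) with hR1
  have hR1det : R1.det ≠ 0 := by
    have h1 : R1 = (FiniteField.frobeniusAlgHom K F : F →+* F).mapMatrix R := by
      ext k j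
      simp only [hR1, hR, Matrix.of_apply, RingHom.mapMatrix_apply, Matrix.map_apply,
        RingHom.coe_coe, FiniteField.coe_frobeniusAlgHom]
      rw [← pow_mul, pow_succ]
    rw [h1, ← RingHom.map_det]
    exact (_root_.map_ne_zero _).2 hRdet
  have hR1inj : ∀ v w : Fin (n + 1) → F, R1.mulVec v = R1.mulVec w → v = w := by
    intro v w h
    have h2 : R1⁻¹ * R1 = 1 := Matrix.nonsing_inv_mul R1 (isUnit_iff_ne_zero.2 hR1det)
    have h3 := congrArg (R1⁻¹).mulVec h
    rwa [Matrix.mulVec_mulVec, Matrix.mulVec_mulVec, h2, Matrix.one_mulVec,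
      Matrix.one_mulVec] at h3
  -- the coefficients of the linearised polynomial
  set mu : Fin (n + 1) → F := Matrix.vecMul (fun j => l j ^ (s ^ (n + 1))) R⁻¹ with hmu
  have hmuR : Matrix.vecMul mu R = fun j => l j ^ (s ^ (n + 1)) := by
    rw [hmu, Matrix.vecMul_vecMul, hRiR, Matrix.vecMul_one]
  have hmul : ∀ j, ∑ k, mu k * l j ^ (s ^ (k : ℕ)) = l j ^ (s ^ (n + 1)) := by
    intro j
    have := congrFun hmuR j
    simpa [Matrix.vecMul, dotProduct, hR] using this
  -- the polynomial vector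
  set w : Fin (n + 1) → F[X] := fun j => ∑ k, C (R⁻¹ j k) * X ^ (s ^ (k : ℕ)) with hw
  set e : Fin (n + 1) → F := fun j => R⁻¹ j (Fin.last n) with he
  set w1 : Fin (n + 1) → F[X] := fun j => ∑ k : Fin n, C (R⁻¹ j k.castSucc) * X ^ (s ^ (k : ℕ))
    with hw1
  set m := s ^ n with hm
  have hmpos : 0 < m := by positivity
  have hw1mem : ∀ j, w1 j ∈ degreeLT F m := by
    intro j
    refine Submodule.sum_mem _ fun k _ => ?_
    rw [mem_degreeLT]
    refine lt_of_le_of_lt (degree_C_mul_X_pow_le _ _) ?_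
    exact_mod_cast Nat.pow_lt_pow_right hs1 k.2
  have hwsplit : w = (X ^ m : F[X]) • (fun j => C (e j)) + w1 := by
    funext j
    simp only [hw, hw1, Pi.add_apply, Pi.smul_apply, smul_eq_mul, he]
    rw [Fin.sum_univ_castSucc]
    simp only [Fin.val_castSucc, Fin.val_last]
    rw [add_comm, mul_comm]
  set c0 : F := qf A e with hc0
  set q : F[X] := qf A w with hq
  set q1 : F[X] := bf A ((X ^ m : F[X]) • (fun j => C (e j))) w1 + qf A w1 with hq1
  have hCe : qf A (fun j => C (e j)) = C c0 :=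
    (map_qf ((CAlgHom : F →ₐ[F] F[X]).restrictScalars K) A e).symm
  have hqsplit : q = C c0 * X ^ (2 * m) + q1 := by
    rw [hq, hwsplit, qf_add, qf_smul, hCe, hq1, ← pow_mul]
    ring
  have hXC : ∀ j, ((X ^ m : F[X]) • (fun j => C (e j))) j ∈ degreeLT F (m + 1) := by
    intro j
    rw [Pi.smul_apply, smul_eq_mul, mul_comm, mem_degreeLT]
    refine lt_of_le_of_lt (degree_C_mul_X_pow_le _ _) ?_
    exact_mod_cast Nat.lt_succ_self _
  have hq1mem : q1 ∈ degreeLT F (2 * m) := by
    rw [two_mul]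
    refine Submodule.add_mem _ ?_ ?_
    · refine Submodule.sum_mem _ fun j _ => Submodule.sum_mem _ fun k _ => smul_mem_degreeLT _ ?_
      refine Submodule.add_mem _ (mul_mem_degreeLT (hXC j) (hw1mem k)) ?_
      rw [mul_comm]
      exact mul_mem_degreeLT (hXC k) (hw1mem j)
    · refine Submodule.sum_mem _ fun j _ => Submodule.sum_mem _ fun k _ => smul_mem_degreeLT _ ?_
      exact mul_mem_degreeLT (degreeLT_mono (by omega) (hw1mem j)) (hw1mem k)
  set M1 : F[X] := ∑ k : Fin (n + 1), C (mu k) * X ^ (s ^ (k : ℕ)) with hM1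
  set M : F[X] := X ^ (m * 2 ^ r) + M1 with hM
  have hms : m * 2 ^ r = s ^ (n + 1) := by rw [← hs, hm, pow_succ]
  have hM1mem : M1 ∈ degreeLT F (m * 2 ^ r) := by
    rw [hms]
    refine Submodule.sum_mem _ fun k _ => ?_
    rw [mem_degreeLT]
    refine lt_of_le_of_lt (degree_C_mul_X_pow_le _ _) ?_
    exact_mod_cast Nat.pow_lt_pow_right hs1 k.2
  set h : F[X] := 1 + ∑ i ∈ range r, q ^ (2 ^ i) + C (c0 ^ (2 ^ (r - 1))) * M with hh
  have hhmem : h ∈ degreeLT F (m * 2 ^ r) := deg_h hmpos hr hqsplit hq1mem hM hM1mem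
  -- the values at the nodes
  have hnode : ∀ c : Fin (n + 1) → K, ∀ k : ℕ,
      (∑ j, c j • l j) ^ (s ^ k) = ∑ j, c j • l j ^ (s ^ k) := fun c k => lin_pow l c k
  have hevw : ∀ (z : F) (j : Fin (n + 1)), eval z (w j) = ∑ k, R⁻¹ j k * z ^ (s ^ (k : ℕ)) := by
    intro z j
    simp only [hw, eval_finsetSum, eval_mul, eval_C, eval_pow, eval_X]
  have hevq : ∀ z : F, eval z q = qf A (fun j => eval z (w j)) := by
    intro z
    exact map_qf ((aeval z : F[X] →ₐ[F] F).restrictScalars K) A w
  have hevM : ∀ z : F, eval z M = z ^ (s ^ (n + 1)) + ∑ k, mu k * z ^ (s ^ (k : ℕ)) := by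
    intro z
    simp only [hM, hM1, eval_add, eval_finsetSum, eval_mul, eval_C, eval_pow, eval_X, hms]
  have hwnode : ∀ (c : Fin (n + 1) → K) (j), eval (∑ j, c j • l j) (w j) = algebraMap K F (c j) := by
    intro c j
    rw [hevw]
    have h1 : (fun k : Fin (n + 1) => (∑ j, c j • l j) ^ (s ^ (k : ℕ))) =
        R.mulVec (fun j => algebraMap K F (c j)) := by
      funext k
      rw [hnode]
      simp only [Matrix.mulVec, dotProduct, hR, Matrix.of_apply]
      refine Finset.sum_congr rfl fun i _ => ?_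
      rw [Algebra.smul_def, mul_comm]
    have h2 : ∑ k, R⁻¹ j k * (∑ j, c j • l j) ^ (s ^ (k : ℕ)) =
        (R⁻¹.mulVec (R.mulVec (fun j => algebraMap K F (c j)))) j := by
      rw [← h1]; rfl
    rw [h2, Matrix.mulVec_mulVec, hRiR, Matrix.one_mulVec]
  have hMnode : ∀ c : Fin (n + 1) → K, eval (∑ j, c j • l j) M = 0 := by
    intro c
    rw [hevM]
    simp only [hnode, Finset.mul_sum]
    rw [Finset.sum_comm]
    rw [← Finset.sum_add_distrib]
    refine Finset.sum_eq_zero fun j _ => ?_
    have h1 : ∑ k : Fin (n + 1), mu k * c j • l j ^ (s ^ (k : ℕ)) =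
        c j • ∑ k : Fin (n + 1), mu k * l j ^ (s ^ (k : ℕ)) := by
      rw [Finset.smul_sum]
      refine Finset.sum_congr rfl fun k _ => ?_
      rw [mul_smul_comm]
    rw [h1, hmul j]
    exact CharTwo.add_self_eq_zero _
  have hhnode : ∀ c : Fin (n + 1) → K, eval (∑ j, c j • l j) h =
      1 + algebraMap K F (∑ i ∈ range r, qf A c ^ (2 ^ i)) := by
    intro c
    simp only [hh, eval_add, eval_one, eval_finsetSum, eval_pow, eval_mul, hMnode, mul_zero,
      add_zero, hevq, hwnode, map_sum, map_pow, qf_algebraMap]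
  -- Lagrange
  have hinj : Function.Injective (Fintype.linearCombination K l).toAddMonoidHom := by
    intro c c' h
    have h0 : ∑ j, c j • l j = ∑ j, c' j • l j := h
    have h1 : ∑ j, (c j - c' j) • l j = 0 := by
      simp only [sub_smul, Finset.sum_sub_distrib]
      exact sub_eq_zero.2 h0
    have h2 := Fintype.linearIndependent_iff.1 hl _ h1
    funext j
    exact sub_eq_zero.1 (h2 j)
  have hhx : eval x h = 0 := by
    refine eval_eq_zero_of_sum (Fintype.linearCombination K l).toAddMonoidHom hinj h ?_ x ?_ ?_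
    · rw [mem_degreeLT, hms] at hhmem
      rw [Fintype.card_fun, Fintype.card_fin]
      exact hhmem
    · intro c
      exact hx c
    · rw [← hsum]
      refine Finset.sum_congr rfl fun c _ => ?_
      have h1 : (Fintype.linearCombination K l).toAddMonoidHom c = ∑ j, c j • l j := rfl
      rw [h1, hhnode]
      rcases tr_zero_or_one hs (qf A c) with h2 | h2
      · rw [if_pos h2, h2, map_zero, add_zero, mul_one]
      · rw [if_neg (by rw [h2]; exact one_ne_zero), h2, map_one, CharTwo.add_self_eq_zero, mul_zero]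
  -- `M (x) ≠ 0`
  set Mx : F := eval x M with hMx
  have hMx0 : Mx ≠ 0 := by
    intro h0
    have hM0 : M = 0 := by
      refine Polynomial.eq_zero_of_natDegree_lt_card_of_eval_eq_zero M
        (f := fun o : Option (Fin (n + 1) → K) => o.elim x (fun c => ∑ j, c j • l j)) ?_ ?_ ?_
      · rintro (_ | c) (_ | c') hcc
        · rfl
        · exact absurd hcc (hx c')
        · exact absurd hcc.symm (hx c)
        · exact congrArg some (hinj hcc)
      · rintro (_ | c)
        · exact h0
        · exact hMnode c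
      · rw [Fintype.card_option, Fintype.card_fun, Fintype.card_fin]
        refine Nat.lt_succ_of_le (natDegree_le_of_degree_le ?_)
        rw [hM]
        refine (degree_add_le _ _).trans (max_le ?_ ?_)
        · rw [degree_X_pow, hms]
        · rw [mem_degreeLT, hms] at hM1mem
          exact hM1mem.le
    have h1 : M.coeff (s ^ (n + 1)) = 1 := by
      rw [hM, coeff_add, hms, coeff_X_pow, if_pos rfl]
      have h2 : M1.coeff (s ^ (n + 1)) = 0 := by
        rw [mem_degreeLT, hms] at hM1mem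
        exact coeff_eq_zero_of_degree_lt hM1mem
      rw [h2, add_zero]
    rw [hM0, coeff_zero] at h1
    exact zero_ne_one h1
  -- the vector `pp`
  set pp : Fin (n + 1) → F := fun j => eval x (w j) with hpp
  set κ : F := qf A pp with hκ
  have hevqx : eval x q = κ := hevq x
  have hkey1 : 1 + ∑ i ∈ range r, κ ^ (2 ^ i) + c0 ^ (2 ^ (r - 1)) * Mx = 0 := by
    have h1 := hhx
    simp only [hh, eval_add, eval_one, eval_finsetSum, eval_pow, eval_mul, eval_C, hevqx] at h1
    exact h1
  have hRpp : ∀ k : Fin (n + 1), ∑ j, l j ^ (s ^ (k : ℕ)) * pp j = x ^ (s ^ (k : ℕ)) := by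
    have h1 : pp = R⁻¹.mulVec (fun k : Fin (n + 1) => x ^ (s ^ (k : ℕ))) := by
      funext j
      rw [hpp]
      simp only [hevw]
      rfl
    intro k
    have h2 := congrFun (congrArg R.mulVec h1) k
    rw [Matrix.mulVec_mulVec, hRRi, Matrix.one_mulVec] at h2
    exact h2
  have hRe : ∀ k : Fin (n + 1), ∑ j, l j ^ (s ^ (k : ℕ)) * e j = if k = Fin.last n then 1 else 0 := by
    intro k
    have h2 := congrFun (congrFun hRRi k) (Fin.last n)
    rw [Matrix.mul_apply, Matrix.one_apply] at h2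
    exact h2
  -- the twists
  set φp : Fin (n + 1) → F := fun j => pp j ^ s with hφp
  set φe : Fin (n + 1) → F := fun j => e j ^ s with hφe
  have hfrobsum : ∀ (k : ℕ) (v : Fin (n + 1) → F),
      ∑ j, l j ^ (s ^ (k + 1)) * v j ^ s = (∑ j, l j ^ (s ^ k) * v j) ^ s := by
    intro k v
    have h1 := map_sum (FiniteField.frobeniusAlgHom K F) (fun j => l j ^ (s ^ k) * v j) univ
    simp only [FiniteField.coe_frobeniusAlgHom] at h1
    rw [hsdef] at *
    rw [h1]
    refine Finset.sum_congr rfl fun j _ => ?_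
    rw [mul_pow, ← pow_mul, pow_succ]
  have hR1app : ∀ (v : Fin (n + 1) → F) (k : Fin (n + 1)),
      R1.mulVec v k = ∑ j, l j ^ (s ^ ((k : ℕ) + 1)) * v j := fun v k => rfl
  have hR1φe : ∀ k : Fin (n + 1), R1.mulVec φe k = if k = Fin.last n then 1 else 0 := by
    intro k
    rw [hR1app, hφe]
    simp only
    rw [hfrobsum, hRe]
    split_ifs
    · rw [one_pow]
    · rw [zero_pow (by omega)]
  have hR1φp : ∀ k : Fin (n + 1), R1.mulVec φp k = x ^ (s ^ ((k : ℕ) + 1)) := by
    intro k
    rw [hR1app, hφp]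
    simp only
    rw [hfrobsum, hRpp, ← pow_mul, pow_succ]
  have hR1pp : ∀ k : Fin n, R1.mulVec pp k.castSucc = x ^ (s ^ ((k : ℕ) + 1)) := by
    intro k
    rw [hR1app]
    have := hRpp k.succ
    rw [Fin.val_succ] at this
    rw [Fin.val_castSucc]
    exact this
  have hR1ppl : R1.mulVec pp (Fin.last n) = x ^ (s ^ (n + 1)) + Mx := by
    rw [hR1app, Fin.val_last, hMx, hevM]
    have h1 : ∑ j, l j ^ (s ^ (n + 1)) * pp j = ∑ k, mu k * x ^ (s ^ (k : ℕ)) := by
      simp only [← hmul, Finset.sum_mul]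
      rw [Finset.sum_comm]
      refine Finset.sum_congr rfl fun k _ => ?_
      rw [← hRpp k, Finset.mul_sum]
      refine Finset.sum_congr rfl fun j _ => ?_
      ring
    rw [h1]
    linear_combination - x ^ (s ^ (n + 1)) * h20
  have hφpe : φp = pp + Mx • φe := by
    apply hR1inj
    rw [Matrix.mulVec_add, Matrix.mulVec_smul]
    funext k
    rw [Pi.add_apply, Pi.smul_apply, hR1φp, hR1φe, smul_eq_mul]
    refine Fin.lastCases ?_ (fun i => ?_) k
    · rw [if_pos rfl, hR1ppl, Fin.val_last]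
      linear_combination - Mx * h20
    · rw [if_neg (Fin.castSucc_lt_last i).ne, hR1pp, mul_zero, add_zero, Fin.val_castSucc]
  -- the key identity
  have hκs : κ ^ s = κ + Mx * bf A pp φe + Mx ^ 2 * c0 ^ s := by
    have h1 : qf A φp = κ ^ s := qf_frob A pp
    have h2 : qf A φe = c0 ^ s := qf_frob A e
    rw [← h1, hφpe, qf_add, qf_smul, h2, bf_comm, bf_smul_left, bf_comm]
  have hb : bf A pp φe = c0 ^ (2 ^ (r - 1)) := by
    have h1 := tele κ r
    rw [← hs] at h1
    set t := ∑ i ∈ range r, κ ^ (2 ^ i) with ht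
    set b := bf A pp φe with hbdef
    set c1 := c0 ^ (2 ^ (r - 1)) with hc1
    have h2 : c0 ^ s = c1 ^ 2 := by
      rw [hc1, hs, ← pow_mul, ← pow_succ]
      congr 2
      omega
    rw [h2] at hκs
    have h3 : t = 1 + c1 * Mx := by linear_combination hkey1 - (1 + c1 * Mx) * h20
    rw [h3] at h1
    have h4 : Mx * (b - c1) = 0 := by
      linear_combination - hκs - h1 + (1 + Mx * c1 - κ) * h20
    rcases mul_eq_zero.1 h4 with h5 | h5
    · exact absurd h5 hMx0
    · exact sub_eq_zero.1 h5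
  have hb2 : bf A pp φe ^ 2 = qf A φe := by
    have h2 : qf A φe = c0 ^ s := qf_frob A e
    rw [hb, h2, hs, ← pow_mul, ← pow_succ]
    congr 2
    omega
  -- general vectors
  have hker : ∀ v : Fin (n + 1) → F, (∀ k : Fin n, R1.mulVec v k.castSucc = 0) →
      v = R1.mulVec v (Fin.last n) • φe := by
    intro v hv
    apply hR1inj
    rw [Matrix.mulVec_smul]
    funext k
    rw [Pi.smul_apply, hR1φe, smul_eq_mul]
    refine Fin.lastCases ?_ (fun i => ?_) k
    · rw [if_pos rfl, mul_one]
    · rw [if_neg (Fin.castSucc_lt_last i).ne, hv, mul_zero]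
  obtain ⟨α, hα⟩ : ∃ α : F, u = α • φe := ⟨_, hker u hu⟩
  obtain ⟨β, hβ⟩ : ∃ β : F, p = pp + β • φe := by
    refine ⟨R1.mulVec (p - pp) (Fin.last n), ?_⟩
    have h1 := hker (p - pp) (fun k => by
      rw [Matrix.mulVec_sub, Pi.sub_apply, hR1pp, sub_eq_zero]
      exact hp k)
    rw [← h1]
    abel
  rw [hα, hβ, bf_add_left, bf_smul_left, bf_comm A φe, bf_smul_left, bf_self, bf_comm A pp,
    bf_smul_left, qf_smul, bf_comm A φe, mul_zero, mul_zero, add_zero, mul_pow, hb2]

end Curve

end Pool.Agent.Lib.CPlane
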