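import Pool.Agent.Lib.CPlane.P2Map
import Pool.Agent.Lib.CPlane.P2Curve

/-!
# Part II, row D: the identity on the curve for the vector of minors
-/

namespace Pool.Agent.Lib.CPlane.P2

open Module Finset

theorem RM_map {A B ι : Type} [CommRing A] [CommRing B] (g : A →+* B) {n s : ℕ} (l : ι → A) :
    (RM n s l).map g = RM n s (fun j => g (l j)) := by
  ext k j
  simp [RM, Matrix.map_apply]

section IdC

open Polynomial

theorem Qf_eq_qf {K A : Type} [Field K] [CommRing A] [Algebra K A] {N : ℕ}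
    (τ : Matrix (Fin N) (Fin N) K) (x : Fin N → A) : Qf (τ.map (algebraMap K A)) x = qf τ x := by
  simp only [Qf, qf, Matrix.map_apply, Algebra.smul_def]

theorem Bf_eq_bf {K A : Type} [Field K] [CommRing A] [Algebra K A] {N : ℕ}
    (τ : Matrix (Fin N) (Fin N) K) (x y : Fin N → A) :
    Bf (τ.map (algebraMap K A)) x y = bf τ x y := by
  simp only [Bf, bf, Matrix.map_apply, Algebra.smul_def]

theorem Qf_self {K : Type} [Field K] {N : ℕ}
    (τ : Matrix (Fin N) (Fin N) K) (c : Fin N → K) : Qf τ c = qf τ c := by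
  simp only [Qf, qf, smul_eq_mul]

open Classical in
/-- the identity in a field extension -/
theorem identity_field {K F : Type} [Field K] [Fintype K] [Field F] [Algebra K F] [CharP F 2]
    {n r : ℕ} (hr : 0 < r) (hK : Fintype.card K = 2 ^ r)
    (τ : Matrix (Fin (n + 1)) (Fin (n + 1)) K) {l : Fin (n + 1) → F}
    (hl : LinearIndependent K l) (x : F) (hx : ∀ c : Fin (n + 1) → K, x ≠ ∑ j, c j • l j)
    (hsum : ∑ c : Fin (n + 1) → K,
      (if ∑ i ∈ range r, qf τ c ^ (2 ^ i) = 0 then (x - ∑ j, c j • l j)⁻¹ else 0) = 0) :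
    Qf (τ.map (algebraMap K F)) (Umin (RM n (2 ^ r) l)) =
      ∑ k : Fin n, (bmin (τ.map (algebraMap K F)) (RM n (2 ^ r) l) k) ^ 2 *
        (x ^ 2) ^ (2 ^ r) ^ (k : ℕ) := by
  -- the Moore matrix and a vector `p`
  set R0 : Matrix (Fin n) (Fin (n + 1)) F := RM n (2 ^ r) l with hR0
  set g : F →+* F := (FiniteField.frobeniusAlgHom K F : F →+* F) with hg
  have hgx : ∀ a : F, g a = a ^ (2 ^ r) := by
    intro a
    rw [hg, RingHom.coe_coe, FiniteField.coe_frobeniusAlgHom, hK]
  have hτg : (τ.map (algebraMap K F)).map g = τ.map (algebraMap K F) := by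
    ext i j
    simp only [Matrix.map_apply, hg, RingHom.coe_coe, AlgHom.commutes]
  set R : Matrix (Fin (n + 1)) (Fin (n + 1)) F :=
    Matrix.of fun k j => l j ^ ((2 ^ r) ^ (k : ℕ)) with hR
  have hRdet : R.det ≠ 0 := by
    have := moore_det_ne_zero hl
    rw [hK] at this
    exact this
  have hRRi : R * R⁻¹ = 1 := Matrix.mul_nonsing_inv R (isUnit_iff_ne_zero.2 hRdet)
  set p : Fin (n + 1) → F := R⁻¹.mulVec (fun k : Fin (n + 1) => x ^ ((2 ^ r) ^ (k : ℕ))) with hp
  have hRp : ∀ k : Fin (n + 1), ∑ j, l j ^ ((2 ^ r) ^ (k : ℕ)) * p j = x ^ ((2 ^ r) ^ (k : ℕ)) := by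
    have h1 : R.mulVec p = fun k : Fin (n + 1) => x ^ ((2 ^ r) ^ (k : ℕ)) := by
      rw [hp, Matrix.mulVec_mulVec, hRRi, Matrix.one_mulVec]
    intro k
    exact congrFun h1 k
  set U : Fin (n + 1) → F := Umin R0 with hU
  set U1 : Fin (n + 1) → F := Umin (R0.map g) with hU1
  have hU1U : U1 = fun j => g (U j) := by
    funext j
    exact (Umin_map g R0 j).symm
  have hR1 : ∀ (k : Fin n) (j : Fin (n + 1)), (R0.map g) k j = l j ^ (2 ^ r) ^ ((k : ℕ) + 1) := by
    intro k j
    rw [Matrix.map_apply, hgx, hR0, RM, Matrix.of_apply, ← pow_mul, pow_succ]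
  have hmain : bf τ p U1 ^ 2 = qf τ U1 := by
    refine curve_identity hr hK τ hl x hx hsum U1 p ?_ ?_
    · intro k
      rw [hK]
      have := R_Umin (R0.map g) k
      simp only [hR1] at this
      exact this
    · intro k
      rw [hK]
      exact hRp k.succ
  rw [bf_comm, ← Bf_eq_bf, ← Qf_eq_qf, hU1, Bf_Umin] at hmain
  have h1 : ∀ k : Fin n, ∑ j, (R0.map g) k j * p j = g (x ^ (2 ^ r) ^ (k : ℕ)) := by
    intro k
    have e1 : (x ^ (2 ^ r) ^ (k : ℕ)) ^ (2 ^ r) = x ^ (2 ^ r) ^ ((k : ℕ) + 1) := by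
      rw [← pow_mul, ← pow_succ]
    simp only [hR1]
    rw [hgx, e1]
    exact hRp k.succ
  have h2 : ∀ k : Fin n, bmin (τ.map (algebraMap K F)) (R0.map g) k =
      g (bmin (τ.map (algebraMap K F)) R0 k) := by
    intro k
    rw [bmin_map, hτg]
  have h3 : Qf (τ.map (algebraMap K F)) (Umin (R0.map g)) =
      g (Qf (τ.map (algebraMap K F)) U) := by
    rw [Qf_map, hτg, ← hU1, hU1U]
  rw [h3] at hmain
  simp only [h1, h2, ← map_mul, ← map_sum, ← map_pow] at hmain
  have h4 := g.injective hmain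
  rw [← h4]
  have h5 : ∀ f : Fin n → F, (∑ k, f k) ^ 2 = ∑ k, f k ^ 2 := by
    intro f
    exact map_sum (frobenius F 2) f univ
  rw [h5]
  refine Finset.sum_congr rfl fun k _ => ?_
  rw [mul_pow, pow_right_comm]

theorem lin_algebraMap {K A F : Type} [Field K] [CommRing A] [Algebra K A] [CommRing F]
    [Algebra A F] [Algebra K F] [IsScalarTower K A F] {N : ℕ} (l : Fin N → A) (c : Fin N → K) :
    algebraMap A F (lin l c) = ∑ j, c j • algebraMap A F (l j) := by
  simp only [lin, map_sum]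
  refine Finset.sum_congr rfl fun j _ => ?_
  rw [Algebra.algebraMap_eq_smul_one, Algebra.algebraMap_eq_smul_one, smul_assoc]

/-- (C) on the curve: `Q(U) = Σ b_k² X^(2 s^k)` -/
theorem identityC {K E : Type} [Field K] [Fintype K] [DecidableEq K] [CharP K 2] [Field E]
    [Algebra K E] {n r : ℕ} (hr : 1 ≤ r) (hK : Fintype.card K = 2 ^ r)
    (z th : Fin (n + 1) → E) (hl : ∀ c : Fin (n + 1) → K, lin (lp z th) c = 0 → c = 0)
    (τ : Matrix (Fin (n + 1)) (Fin (n + 1)) K)
    (hsq : Polynomial.derivative (∏ c ∈ univ.filter (fun c : Fin (n + 1) → K =>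
      ∑ i ∈ range r, (Qf τ c) ^ 2 ^ i = 0), (Polynomial.X + lin (lp z th) c)) = 0) :
    Qf (τ.map (algebraMap K (Polynomial E))) (Umin (RM n (2 ^ r) (lp z th))) =
      ∑ k : Fin n, (bmin (τ.map (algebraMap K (Polynomial E))) (RM n (2 ^ r) (lp z th)) k) ^ 2 *
        (Polynomial.X ^ 2) ^ (2 ^ r) ^ (k : ℕ) := by
  have : CharP E 2 := charP_of_injective_algebraMap (algebraMap K E).injective 2
  set F := FractionRing (Polynomial E) with hF
  have hinj : Function.Injective (algebraMap (Polynomial E) F) :=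
    IsFractionRing.injective (Polynomial E) F
  have : CharP F 2 := charP_of_injective_algebraMap hinj 2
  set ι : Polynomial E →+* F := algebraMap (Polynomial E) F with hι
  have hlin : ∀ c : Fin (n + 1) → K, ι (lin (lp z th) c) = ∑ j, c j • ι (lp z th j) :=
    fun c => lin_algebraMap (F := F) (lp z th) c
  have hli : LinearIndependent K (fun j => ι (lp z th j)) := by
    rw [Fintype.linearIndependent_iff]
    intro c hc
    rw [← hlin] at hc
    have h1 := hl c (hinj (by rw [hc, map_zero]))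
    intro j
    rw [h1]
    rfl
  have h20 : (2 : Polynomial E) = 0 := CharTwo.two_eq_zero
  have hdlp : ∀ c : Fin (n + 1) → K, Polynomial.derivative (lin (lp z th) c) = 0 := by
    intro c
    simp only [lin, lp, Polynomial.derivative_sum, Polynomial.derivative_smul,
      Polynomial.derivative_add, Polynomial.derivative_C, Polynomial.derivative_mul,
      Polynomial.derivative_X_pow, mul_zero, add_zero, zero_add]
    refine Finset.sum_eq_zero fun j _ => ?_
    have h1 : ((2 : ℕ) : E) = 0 := by exact_mod_cast (CharTwo.two_eq_zero : (2 : E) = 0)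
    rw [h1, Polynomial.C_0, zero_mul, zero_mul, smul_zero]
  have hd1 : ∀ c : Fin (n + 1) → K,
      Polynomial.derivative (Polynomial.X + lin (lp z th) c) = 1 := by
    intro c
    rw [Polynomial.derivative_add, hdlp, Polynomial.derivative_X, add_zero]
  have hne : ∀ c : Fin (n + 1) → K, Polynomial.X + lin (lp z th) c ≠ 0 := by
    intro c h
    have h1 := hd1 c
    rw [h, Polynomial.derivative_zero] at h1
    exact zero_ne_one h1
  have hne' : ∀ c : Fin (n + 1) → K, ι Polynomial.X + ∑ j, c j • ι (lp z th j) ≠ 0 := by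
    intro c
    rw [← hlin, ← map_add]
    exact (map_ne_zero_iff ι hinj).2 (hne c)
  have hsub : ∀ c : Fin (n + 1) → K, ι Polynomial.X - ∑ j, c j • ι (lp z th j) =
      ι Polynomial.X + ∑ j, c j • ι (lp z th j) := fun c => CharTwo.sub_eq_add _ _
  have h := identity_field hr hK τ hli (ι Polynomial.X) ?_ ?_
  · have e1 : RM n (2 ^ r) (fun j => ι (lp z th j)) = (RM n (2 ^ r) (lp z th)).map ι :=
      (RM_map ι (lp z th)).symm
    have e2 : τ.map (algebraMap K F) = (τ.map (algebraMap K (Polynomial E))).map ι := by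
      ext i j
      simp only [Matrix.map_apply]
      exact IsScalarTower.algebraMap_apply K (Polynomial E) F _
    have e3 : Umin ((RM n (2 ^ r) (lp z th)).map ι) =
        fun j => ι (Umin (RM n (2 ^ r) (lp z th)) j) := by
      funext j
      exact (Umin_map ι _ j).symm
    rw [e1, e2, e3, ← Qf_map] at h
    simp only [← bmin_map, ← map_pow, ← map_mul, ← map_sum] at h
    exact hinj h
  · intro c hc
    exact hne' c (by rw [← hsub, ← hc, sub_self])
  · set S : Finset (Fin (n + 1) → K) := univ.filter (fun c : Fin (n + 1) → K =>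
      ∑ i ∈ range r, (Qf τ c) ^ 2 ^ i = 0) with hS
    rw [Polynomial.derivative_prod_finset] at hsq
    simp only [hd1, mul_one] at hsq
    have h1 := congrArg ι hsq
    rw [map_sum, map_zero] at h1
    have h2 : ∀ c ∈ S, ι (∏ c' ∈ S.erase c, (Polynomial.X + lin (lp z th) c')) =
        (∏ c' ∈ S, (ι Polynomial.X + ∑ j, c' j • ι (lp z th j))) *
          (ι Polynomial.X - ∑ j, c j • ι (lp z th j))⁻¹ := by
      intro c hc
      rw [hsub, eq_mul_inv_iff_mul_eq₀ (hne' c), map_prod]
      simp only [map_add, hlin]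
      exact Finset.prod_erase_mul S (fun c' => ι Polynomial.X + ∑ j, c' j • ι (lp z th j)) hc
    rw [Finset.sum_congr rfl h2, ← Finset.mul_sum] at h1
    have h3 : (∏ c' ∈ S, (ι Polynomial.X + ∑ j, c' j • ι (lp z th j))) ≠ 0 :=
      Finset.prod_ne_zero_iff.2 fun c _ => hne' c
    have h4 := (mul_eq_zero.1 h1).resolve_left h3
    refine Eq.trans ?_ h4
    rw [hS, Finset.sum_filter]
    refine Finset.sum_congr rfl fun c _ => ?_
    rw [Qf_self]
    by_cases h5 : ∑ i ∈ range r, (qf τ c) ^ 2 ^ i = 0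
    · rw [if_pos h5, if_pos h5]
    · rw [if_neg h5, if_neg h5]

end IdC

end Pool.Agent.Lib.CPlane.P2
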