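import Pool.Agent.Lib.CPlane.P2A
import Pool.Agent.Lib.CPlane.P2B2
import Pool.Agent.Lib.CPlane.P2E
import Pool.Agent.Lib.CPlane.P2F
import Pool.Agent.Lib.CPlane.P2G
import Pool.Agent.Lib.CPlane.P2IdC

/-!
# Part II, assembly
-/

namespace Pool.Agent.Lib.CPlane.P2

open Module Finset

/-- at the point of weight one: for all `x ∈ K ^ (n+1)`,
`B(e_last, x) = Σ_(k ∈ S) (θ_last l(x)) ^ (s ^ k)` -/
theorem point_identity {K E : Type} [Field K] [Fintype K] [CharP K 2] [Field E]
    [Finite E] [Algebra K E] {n r : ℕ} (hr : 2 ≤ r) (hK : Fintype.card K = 2 ^ r)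
    (z th : Fin (n + 1) → E)
    (hl : ∀ c : Fin (n + 1) → K, lin z c = 0 → lin th c = 0 → c = 0)
    (h4 : ∀ b : E, (∃ c : Fin (n + 1) → K, lin z c + b ^ 2 * lin th c = b) →
      ∃ c : Fin (n + 1) → K, c ≠ 0 ∧ lin z c + b ^ 2 * lin th c = 0)
    (b : E) (hlast : z (Fin.last n) = b ^ 2 * th (Fin.last n))
    (hind : ∀ c : Fin n → K, lin (fun j : Fin n => z j.castSucc + b ^ 2 * th j.castSucc) c = 0 →
        c = 0) :
    ∃ S : Finset ℕ, S ⊆ range n ∧ ∀ c : Fin (n + 1) → K,
      algebraMap K E (Algebra.trace K E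
        (z (Fin.last n) * lin th c + th (Fin.last n) * lin z c)) =
      ∑ k ∈ S, (th (Fin.last n) * (lin z c + b ^ 2 * lin th c)) ^ Fintype.card K ^ k := by
  classical
  have hch : CharP E 2 := charP_of_injective_algebraMap (algebraMap K E).injective 2
  set τ : Matrix (Fin (n + 1)) (Fin (n + 1)) K := Matrix.of fun i j =>
    Algebra.trace K E (z i * th j) with hτ
  have hτ' : ∀ i j, τ i j = Algebra.trace K E (z i * th j) := fun i j => rfl
  have hl' : ∀ c : Fin (n + 1) → K, lin (lp z th) c = 0 → c = 0 := by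
    intro c hc
    rw [lin_lp] at hc
    have h0 := congrArg (fun p => Polynomial.coeff p 0) hc
    have h2 := congrArg (fun p => Polynomial.coeff p 2) hc
    simp only [Polynomial.coeff_add, Polynomial.coeff_C_zero, Polynomial.coeff_mul_C,
      Polynomial.coeff_X_pow, Polynomial.coeff_zero] at h0 h2
    refine hl c ?_ ?_
    · simpa using h0
    · simpa [Polynomial.coeff_C] using h2
  have hsq := deriv_prod (by omega : 1 ≤ r) hK z th τ hτ' h4
  have hC := identityC (by omega : 1 ≤ r) hK z th hl' τ hsq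
  set τE : Matrix (Fin (n + 1)) (Fin (n + 1)) E := τ.map (algebraMap K E) with hτE
  have hmap : τ.map (algebraMap K (Polynomial E)) = τE.map Polynomial.C := by
    ext1 i j
    rfl
  rw [hmap] at hC
  have hE := identityE hr z th τE hC
  have hb := b_cases z th τE hE
  -- specialisation
  set l : Fin (n + 1) → E := fun j => z j + b ^ 2 * th j with hldef
  set f : MvPolynomial (Fin n) E →+* E :=
    MvPolynomial.eval (fun k : Fin n => (b ^ 2) ^ (2 ^ r) ^ (k : ℕ)) with hf
  have hR : (Rt (2 ^ r) z th).map f = RM n (2 ^ r) l := by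
    ext1 k j
    simp only [Matrix.map_apply, Rt, RM, Matrix.of_apply, hldef]
    rw [map_add, map_mul, hf, MvPolynomial.eval_C, MvPolynomial.eval_C, MvPolynomial.eval_X,
      ← pow_mul, add_pow_char_pow, mul_pow]
  have hτf : (τE.map MvPolynomial.C).map f = τE := by
    ext1 i j
    rw [Matrix.map_apply, Matrix.map_apply, hf, MvPolynomial.eval_C]
  have hllast : l (Fin.last n) = 0 := by
    rw [hldef]
    change z (Fin.last n) + b ^ 2 * th (Fin.last n) = 0
    rw [hlast]
    exact CharTwo.add_self_eq_zero _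
  obtain ⟨c0, hc0, hU⟩ := special hK l hllast hind
  have hb' : ∀ k : Fin n, bmin τE (RM n (2 ^ r) l) k = 0 ∨
      bmin τE (RM n (2 ^ r) l) k = c0 * th (Fin.last n) ^ (2 ^ r) ^ (k : ℕ) := by
    intro k
    rcases hb k with h | h
    · left
      have h1 := congrArg f h
      rw [bmin_map, hτf, hR, map_zero] at h1
      exact h1
    · right
      have h1 := congrArg f h
      rw [bmin_map, hτf, hR, map_sum] at h1
      simp only [map_mul, Umin_map, hR] at h1
      rw [h1, hU]
      rw [Finset.sum_eq_single (Fin.last n)]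
      · rw [Pi.single_eq_same, hf, MvPolynomial.eval_C, mul_comm]
      · intro j _ hj
        rw [Pi.single_eq_of_ne hj, mul_zero]
      · intro h2
        exact absurd (Finset.mem_univ _) h2
  set S' : Finset (Fin n) := univ.filter (fun k => bmin τE (RM n (2 ^ r) l) k ≠ 0) with hS'
  refine ⟨S'.image (fun k : Fin n => (k : ℕ)), ?_, ?_⟩
  · intro k hk
    obtain ⟨k', _, rfl⟩ := Finset.mem_image.1 hk
    exact Finset.mem_range.2 k'.2
  intro c
  have hB := Bf_Umin τE (RM n (2 ^ r) l) (fun j => algebraMap K E (c j))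
  have hRc : ∀ k : Fin n, ∑ j, RM n (2 ^ r) l k j * algebraMap K E (c j) =
      (lin z c + b ^ 2 * lin th c) ^ (2 ^ r) ^ (k : ℕ) := by
    intro k
    have h1 : lin z c + b ^ 2 * lin th c = lin l c := by
      simp only [lin, hldef, smul_add, Finset.sum_add_distrib, Finset.mul_sum, mul_smul_comm]
    rw [h1, lin_pow hK]
    refine Finset.sum_congr rfl fun j _ => ?_
    rw [RM, Matrix.of_apply, Algebra.smul_def, mul_comm]
  simp only [hRc] at hB
  have hB2 : Bf τE (Umin (RM n (2 ^ r) l)) (fun j => algebraMap K E (c j)) =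
      c0 * algebraMap K E (Algebra.trace K E
        (z (Fin.last n) * lin th c + th (Fin.last n) * lin z c)) := by
    rw [hU]
    have e1 : ∀ i j, τE i j = algebraMap K E (Algebra.trace K E (z i * th j)) := fun i j => rfl
    have e2 : algebraMap K E (Algebra.trace K E (z (Fin.last n) * lin th c)) =
        ∑ j, τE (Fin.last n) j * algebraMap K E (c j) := by
      unfold lin
      rw [Finset.mul_sum, map_sum, map_sum]
      refine Finset.sum_congr rfl fun j _ => ?_
      rw [mul_smul_comm, map_smul, smul_eq_mul, map_mul, e1, mul_comm]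
    have e3 : algebraMap K E (Algebra.trace K E (th (Fin.last n) * lin z c)) =
        ∑ j, τE j (Fin.last n) * algebraMap K E (c j) := by
      unfold lin
      rw [Finset.mul_sum, map_sum, map_sum]
      refine Finset.sum_congr rfl fun j _ => ?_
      rw [mul_smul_comm, map_smul, smul_eq_mul, map_mul, e1, mul_comm, mul_comm (z j)]
    unfold Bf
    rw [map_add, map_add, e2, e3]
    simp only [mul_add, Finset.sum_add_distrib]
    congr 1
    · rw [Finset.sum_eq_single (Fin.last n)]
      · rw [Finset.mul_sum]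
        refine Finset.sum_congr rfl fun j _ => ?_
        rw [Pi.single_eq_same]
        ring
      · intro i _ hi
        refine Finset.sum_eq_zero fun j _ => ?_
        rw [Pi.single_eq_of_ne hi, zero_mul, mul_zero]
      · intro h
        exact absurd (Finset.mem_univ _) h
    · rw [Finset.mul_sum]
      refine Finset.sum_congr rfl fun i _ => ?_
      rw [Finset.sum_eq_single (Fin.last n)]
      · rw [Pi.single_eq_same]
        ring
      · intro j _ hj
        rw [Pi.single_eq_of_ne hj, mul_zero, mul_zero]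
      · intro h
        exact absurd (Finset.mem_univ _) h
  rw [hB2] at hB
  have hB3 : ∑ k : Fin n, bmin τE (RM n (2 ^ r) l) k *
      (lin z c + b ^ 2 * lin th c) ^ (2 ^ r) ^ (k : ℕ) =
      c0 * ∑ k ∈ S'.image (fun k : Fin n => (k : ℕ)),
        (th (Fin.last n) * (lin z c + b ^ 2 * lin th c)) ^ Fintype.card K ^ k := by
    rw [Finset.sum_image (fun x _ y _ h => Fin.ext h), Finset.mul_sum, hS', Finset.sum_filter]
    refine Finset.sum_congr rfl fun k _ => ?_
    rcases hb' k with h | h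
    · rw [if_neg (by rw [not_not]; exact h), h, zero_mul]
    · by_cases h0 : bmin τE (RM n (2 ^ r) l) k = 0
      · rw [if_neg (by rw [not_not]; exact h0), h0, zero_mul]
      · rw [if_pos h0, h, hK, mul_pow, mul_assoc]
  rw [hB3] at hB
  exact mul_left_cancel₀ hc0 hB

/-- PART II -/
theorem main {K E : Type} [Field K] [Fintype K] [CharP K 2] [Field E] [Finite E] [Algebra K E]
    {r a : ℕ} (hr : 2 ≤ r) (hK : Fintype.card K = 2 ^ r) (hm : finrank K E = 2 ^ a)
    (G Y : Submodule K E) (hGY : finrank K G = finrank K Y) (h2 : 2 * finrank K Y ≤ 2 ^ a)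
    (hY : Y ≠ ⊥)
    (hp : ∀ g ∈ G, g ≠ 0 → ∃ y ∈ Y, Algebra.trace K E (g * y) ≠ 0)
    (hii : ∀ b : E, b ≠ 0 → (∃ g ∈ G, ∃ y ∈ Y, g + b ^ 2 * y = b) →
      ∃ y ∈ Y, y ≠ 0 ∧ b ^ 2 * y ∈ G) : False := by
  classical
  have hch : CharP E 2 := charP_of_injective_algebraMap (algebraMap K E).injective 2
  have hG : G ≠ ⊥ := by
    intro h
    rw [h, finrank_bot] at hGY
    exact hY (Submodule.finrank_eq_zero.1 hGY.symm)
  obtain ⟨Z, hZG, hZ4, b, hb0, y0, hy0, hy00, hy0Z, huniq⟩ := reduction G Y hG hY hii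
  obtain ⟨n, z, th, hn, hzZ, hthY, hspan, hind, hzl, hthl, hind2⟩ :=
    exists_basis Z Y hy0 hy00 hy0Z huniq
  have h4 : ∀ b : E, (∃ c : Fin (n + 1) → K, lin z c + b ^ 2 * lin th c = b) →
      ∃ c : Fin (n + 1) → K, c ≠ 0 ∧ lin z c + b ^ 2 * lin th c = 0 := by
    rintro b' ⟨c, hc⟩
    by_cases hb' : b' = 0
    · obtain ⟨d, hd1, hd2⟩ := hspan 0 Z.zero_mem y0 hy0
      refine ⟨d, ?_, ?_⟩
      · rintro rfl
        rw [lin_zero] at hd2
        exact hy00 hd2.symm
      · rw [hd1, hb']
        ring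
    · have hlz : lin z c ∈ Z := Z.sum_mem fun j _ => Z.smul_mem _ (hzZ j)
      have hlt : lin th c ∈ Y := Y.sum_mem fun j _ => Y.smul_mem _ (hthY j)
      obtain ⟨y, hy, hy0', hyZ⟩ := hZ4 b' hb' ⟨lin z c, hlz, lin th c, hlt, hc⟩
      obtain ⟨d, hd1, hd2⟩ := hspan (b' ^ 2 * y) hyZ y hy
      refine ⟨d, ?_, ?_⟩
      · rintro rfl
        rw [lin_zero] at hd2
        exact hy0' hd2.symm
      · rw [hd1, hd2]
        exact CharTwo.add_self_eq_zero _
  obtain ⟨S, hS, hSc⟩ := point_identity hr hK z th hind h4 b (by rw [hzl, hthl]) hind2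
  have hz0 : z (Fin.last n) ≠ 0 := by
    rw [hzl]
    exact mul_ne_zero (pow_ne_zero _ hb0) hy00
  obtain ⟨y, hy, htr⟩ := hp (z (Fin.last n)) (hZG (hzZ _)) hz0
  obtain ⟨c, hc1, hc2⟩ := hspan 0 Z.zero_mem y hy
  have h5 := hSc c
  rw [hc1, hc2, mul_zero, add_zero, zero_add, hthl] at h5
  have h6 : y0 * (b ^ 2 * y) = z (Fin.last n) * y := by
    rw [hzl]
    ring
  rw [h6, FiniteField.algebraMap_trace_eq_sum_pow, hm] at h5
  have hle : finrank K Z ≤ finrank K G := Submodule.finrank_mono hZG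
  have hnm : n < 2 ^ a := by omega
  have hSm : S ⊆ range (2 ^ a) := hS.trans (Finset.range_mono hnm.le)
  refine htr (trace_eq_zero_of_sum hm (range (2 ^ a) \ S) Finset.sdiff_subset ?_ _ ?_)
  · refine ⟨n, Finset.mem_sdiff.2 ⟨Finset.mem_range.2 hnm, fun h => ?_⟩⟩
    exact absurd (Finset.mem_range.1 (hS h)) (lt_irrefl n)
  · have h7 := Finset.sum_sdiff (f := fun k => (z (Fin.last n) * y) ^ Fintype.card K ^ k) hSm
    have h8 : ∑ k ∈ range (2 ^ a), (z (Fin.last n) * y) ^ Fintype.card K ^ k =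
        ∑ k ∈ S, (z (Fin.last n) * y) ^ Fintype.card K ^ k := by
      rw [← h5]
      refine Finset.sum_congr rfl fun k _ => ?_
      rw [Nat.card_eq_fintype_card]
    rw [h8] at h7
    exact add_eq_right.1 h7

end Pool.Agent.Lib.CPlane.P2
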