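import Pool.Agent.Lib.CPlane.PartTwoQ
import Pool.Agent.Lib.CPlane.P2Main

/-!
# Part II in the form needed for `Main`
-/

namespace Pool.Agent.Lib.CPlane

open Module

/-- (Q5) Part II. -/
theorem partTwo {K E : Type} [Field K] [Fintype K] [CharP K 2] [Field E] [Finite E] [Algebra K E]
    {a : ℕ} (hE : finrank K E = 2 ^ a) (hs : 4 ≤ Fintype.card K)
    (H Y : Submodule K E) (n : E → E)
    (hinj : ∀ h ∈ H, ∀ h' ∈ H, ∀ y ∈ Y, ∀ y' ∈ Y,
      h ^ 2 + h * y + n y = h' ^ 2 + h' * y' + n y' → h = h' ∧ y = y')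
    (hdim : finrank K H + finrank K Y = finrank K E)
    (hY : 2 * finrank K Y ≤ finrank K E) : Y = ⊥ := by
  have hch : CharP E 2 := charP_of_injective_algebraMap (algebraMap K E).injective 2
  by_contra hY0
  obtain ⟨r, _, hr⟩ := FiniteField.card K 2
  have hr2 : 2 ≤ (r : ℕ) := by
    by_contra h
    have h1 : (r : ℕ) ≤ 1 := by omega
    have h2 : 2 ^ (r : ℕ) ≤ 2 ^ 1 := Nat.pow_le_pow_right (by norm_num) h1
    omega
  have h3 := finrank_orth H
  refine P2.main hr2 hr hE (orth H) Y (by omega) (by omega) hY0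
    (exists_trace_ne H Y n hinj hdim) ?_
  rintro b hb ⟨g, hg, y, hy, h⟩
  refine exists_second H Y n hinj hdim hb hy ?_
  have h4 : b + b ^ 2 * y = g := by
    have h5 := CharTwo.add_self_eq_zero (b ^ 2 * y)
    linear_combination h5 - h
  rw [h4]
  exact hg

end Pool.Agent.Lib.CPlane
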