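import Pool.Agent.Lib.CPlane.Desc
import Pool.Agent.Lib.CPlane.PartTwo
import Pool.Agent.Lib.CPlane.PartOne

/-!
# The theorem on the subspace `W` (rows M1, M2, M3)
-/

namespace Pool.Agent.Lib.CPlane

open Module

variable (K : Type) {V : Type} [Field K] [Fintype K] [Field V] [Finite V] [Algebra K V]

/-- (M1) the subfield `E` of degree `m` -/
theorem exists_subfield {m : ℕ} [NeZero m] (hV : finrank K V = 2 * m) :
    ∃ E : IntermediateField K V, finrank K E = m ∧
      ∀ x : V, x ∈ E ↔ x ^ (Fintype.card K ^ m) = x := by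
  have hm : 0 < m := Nat.pos_of_ne_zero (NeZero.ne m)
  let φ : Gal(V/K) := FiniteField.frobeniusAlgEquivOfAlgebraic K V
  have hφ : orderOf φ = 2 * m := by
    rw [FiniteField.orderOf_frobeniusAlgEquivOfAlgebraic, hV]
  have hφm : orderOf (φ ^ m) = 2 := by
    rw [orderOf_pow, hφ]
    have : (2 * m).gcd m = m := Nat.gcd_eq_right (Dvd.intro_left 2 rfl)
    rw [this, Nat.mul_div_cancel _ hm]
  have happ : ∀ x : V, (φ ^ m) x = x ^ (Fintype.card K ^ m) := by
    intro x
    rw [AlgEquiv.coe_pow, FiniteField.coe_frobeniusAlgEquivOfAlgebraic_iterate]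
  refine ⟨IntermediateField.fixedField (Subgroup.zpowers (φ ^ m)), ?_, ?_⟩
  · have h1 := IntermediateField.finrank_fixedField_eq_card (Subgroup.zpowers (φ ^ m))
    rw [Nat.card_zpowers, hφm] at h1
    have h2 := Module.finrank_mul_finrank K
      (IntermediateField.fixedField (Subgroup.zpowers (φ ^ m))) V
    rw [h1, hV] at h2
    omega
  · intro x
    rw [IntermediateField.mem_fixedField_iff]
    constructor
    · intro h
      rw [← happ]
      exact h _ (Subgroup.mem_zpowers _)
    · intro h f hf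
      have h1 : (φ ^ m) ∈ MulAction.stabilizer Gal(V/K) x := by
        rw [MulAction.mem_stabilizer_iff, AlgEquiv.smul_def, happ, h]
      have h2 : Subgroup.zpowers (φ ^ m) ≤ MulAction.stabilizer Gal(V/K) x :=
        (Subgroup.zpowers_le).2 h1
      have h3 := h2 hf
      rwa [MulAction.mem_stabilizer_iff, AlgEquiv.smul_def] at h3

omit [Finite V] in
/-- the norm form on `h + w`, `h` in the subfield -/
theorem norm_add {m : ℕ} {h w : V} (hh : h ^ (Fintype.card K ^ m) = h) :
    (h + w) ^ (Fintype.card K ^ m + 1) =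
      h ^ 2 + h * (w + w ^ (Fintype.card K ^ m)) + w ^ (Fintype.card K ^ m + 1) := by
  rw [pow_succ, add_pow_card, hh, pow_succ]
  ring

/-- (M2) from `dim (W ∩ E v) > m / 2` to `W = E v`: apply `partTwo` to `H = {h ∈ E | v h ∈ W}`,
`Y = {w + w ^ q | v w ∈ W}`, `n y = w ^ (q + 1)`. -/
theorem eq_lineE [CharP K 2] {m a : ℕ} [NeZero m] (hm : m = 2 ^ a) (hV : finrank K V = 2 * m)
    (hs : 4 ≤ Fintype.card K) (W : Submodule K V) (hW : finrank K W = m)
    (hN : ∀ x ∈ W, ∀ y ∈ W, x ^ (Fintype.card K ^ m + 1) = y ^ (Fintype.card K ^ m + 1) → x = y)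
    {v : V} (hv : v ≠ 0) (h : m < 2 * finrank K (W ⊓ lineE K m v : Submodule K V)) :
    W = lineE K m v := by
  classical
  have hV2 := charP_V K (V := V)
  obtain ⟨E, hE, hmemE⟩ := exists_subfield K hV
  have hEfin : Finite E := inferInstance
  -- the maps
  let μ : V →ₗ[K] V := LinearMap.mulLeft K v
  have hμ : ∀ x, μ x = v * x := fun _ => rfl
  have hμinj : Function.Injective μ := by
    intro x y hxy
    exact mul_left_cancel₀ hv hxy
  have hμsurj : Function.Surjective μ := fun x => ⟨v⁻¹ * x, by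
    rw [hμ, mul_inv_cancel_left₀ hv]⟩
  let W' : Submodule K V := Submodule.comap μ W
  have hmapW' : Submodule.map μ W' = W := Submodule.map_comap_eq_of_surjective hμsurj W
  have hW' : finrank K W' = m := by
    rw [← hW]
    conv_rhs => rw [← hmapW']
    exact (LinearEquiv.finrank_eq (Submodule.equivMapOfInjective μ hμinj W')).symm ▸ rfl
  have hN' : ∀ x ∈ W', ∀ y ∈ W',
      x ^ (Fintype.card K ^ m + 1) = y ^ (Fintype.card K ^ m + 1) → x = y := by
    intro x hx y hy hxy
    apply hμinj
    apply hN _ hx _ hy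
    rw [hμ, hμ, mul_pow, mul_pow, hxy]
  let tr : V →ₗ[K] V := theta K m 1
  have htr : ∀ x, tr x = x + x ^ (Fintype.card K ^ m) := by
    intro x
    change x + 1 * x ^ (Fintype.card K ^ m) = _
    rw [one_mul]
  have htrE : ∀ x, tr x ∈ E := by
    intro x
    rw [hmemE, htr, add_pow_card, pow_pow_card K hV, add_comm]
  let ι : E →ₗ[K] V := E.val.toLinearMap
  have hι : ∀ x : E, ι x = (x : V) := fun _ => rfl
  have hιinj : Function.Injective ι := fun x y hxy => Subtype.ext hxy
  let H : Submodule K E := Submodule.comap ι W'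
  let Y : Submodule K E := Submodule.comap ι (Submodule.map tr W')
  have hch : ∀ y : E, y ∈ Y → ∃ w ∈ W', tr w = (y : V) := fun y hy => hy
  let wc : E → V := fun y => if hy : y ∈ Y then (hch y hy).choose else 0
  have hwc : ∀ y ∈ Y, wc y ∈ W' ∧ tr (wc y) = (y : V) := by
    intro y hy
    have h1 := (hch y hy).choose_spec
    simp only [wc, dif_pos hy]
    exact h1
  have hNE : ∀ w : V, w ^ (Fintype.card K ^ m + 1) ∈ E := by
    intro w
    rw [hmemE, ← pow_mul, mul_comm, pow_mul, pow_succ, pow_pow_card K hV, pow_succ, mul_comm]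
  let n : E → E := fun y => ⟨wc y ^ (Fintype.card K ^ m + 1), hNE _⟩
  have hinj : ∀ h ∈ H, ∀ h' ∈ H, ∀ y ∈ Y, ∀ y' ∈ Y,
      h ^ 2 + h * y + n y = h' ^ 2 + h' * y' + n y' → h = h' ∧ y = y' := by
    intro h hh h' hh' y hy y' hy' heq
    obtain ⟨hw1, hw2⟩ := hwc y hy
    obtain ⟨hw1', hw2'⟩ := hwc y' hy'
    have e1 := norm_add K (m := m) (w := wc y) ((hmemE h).1 h.2)
    have e2 := norm_add K (m := m) (w := wc y') ((hmemE h').1 h'.2)
    have e3 : ((h : V) + wc y) ^ (Fintype.card K ^ m + 1) =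
        ((h' : V) + wc y') ^ (Fintype.card K ^ m + 1) := by
      rw [e1, e2, ← htr, ← htr, hw2, hw2']
      exact congrArg Subtype.val heq
    have e4 := hN' _ (W'.add_mem hh hw1) _ (W'.add_mem hh' hw1') e3
    have e5 : tr ((h : V) + wc y) = tr ((h' : V) + wc y') := congrArg tr e4
    have e6 : ∀ x : E, tr (x : V) = 0 := by
      intro x
      rw [htr, (hmemE x).1 x.2, CharTwo.add_self_eq_zero]
    rw [map_add, map_add, e6, e6, zero_add, zero_add, hw2, hw2'] at e5
    have e7 : y = y' := Subtype.ext e5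
    subst e7
    exact ⟨Subtype.ext (add_right_cancel e4), rfl⟩
  have hdim : finrank K H + finrank K Y = finrank K E := by
    have h1 := LinearMap.finrank_range_add_finrank_ker (tr.domRestrict W')
    rw [LinearMap.range_domRestrict] at h1
    have h2 : finrank K Y = finrank K (Submodule.map tr W') := by
      have h3 : Submodule.map ι Y = Submodule.map tr W' := by
        apply le_antisymm
        · rintro _ ⟨y, hy, rfl⟩
          exact hy
        · rintro _ ⟨w, hw, rfl⟩
          exact ⟨⟨tr w, htrE w⟩, ⟨w, hw, rfl⟩, rfl⟩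
      rw [← h3]
      exact LinearEquiv.finrank_eq (Submodule.equivMapOfInjective ι hιinj Y)
    have h4 : finrank K H = finrank K (LinearMap.ker (tr.domRestrict W')) := by
      have h5 : Submodule.map ι H = Submodule.map W'.subtype
          (LinearMap.ker (tr.domRestrict W')) := by
        apply le_antisymm
        · rintro _ ⟨x, hx, rfl⟩
          refine ⟨⟨ι x, hx⟩, ?_, rfl⟩
          change tr (ι x) = 0
          rw [hι, htr, (hmemE x).1 x.2, CharTwo.add_self_eq_zero]
        · rintro _ ⟨⟨x, hx⟩, hx', rfl⟩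
          have h6 : x + x ^ (Fintype.card K ^ m) = 0 := by
            rw [← htr]
            exact hx'
          have h7 : x ∈ E := (hmemE x).2 (CharTwo.add_eq_zero.1 h6).symm
          exact ⟨⟨x, h7⟩, hx, rfl⟩
      rw [LinearEquiv.finrank_eq (Submodule.equivMapOfInjective ι hιinj H), h5,
        Submodule.finrank_map_subtype_eq]
    rw [h2, h4, add_comm, h1, hW', hE]
  have hHW : Submodule.map μ (Submodule.map ι H) = W ⊓ lineE K m v := by
    apply le_antisymm
    · rintro _ ⟨_, ⟨x, hx, rfl⟩, rfl⟩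
      refine ⟨hx, ?_⟩
      rw [hμ, hι]
      change (v * (x : V)) ^ (Fintype.card K ^ m) * v = v * (x : V) * v ^ (Fintype.card K ^ m)
      rw [mul_pow, (hmemE x).1 x.2]
      ring
    · rintro x ⟨hx, hx'⟩
      have h1 : x ^ (Fintype.card K ^ m) * v = x * v ^ (Fintype.card K ^ m) := hx'
      have hvq : v ^ (Fintype.card K ^ m) ≠ 0 := pow_ne_zero _ hv
      have h2 : v⁻¹ * x ∈ E := by
        rw [hmemE, mul_pow, inv_pow]
        field_simp
        rw [h1, mul_comm]
      refine ⟨v⁻¹ * x, ⟨⟨_, h2⟩, ?_, rfl⟩, by rw [hμ, mul_inv_cancel_left₀ hv]⟩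
      change v * (v⁻¹ * x) ∈ W
      rwa [mul_inv_cancel_left₀ hv]
  have hHW' : finrank K H = finrank K (W ⊓ lineE K m v : Submodule K V) := by
    rw [← hHW, LinearEquiv.finrank_eq (Submodule.equivMapOfInjective ι hιinj H),
      LinearEquiv.finrank_eq (Submodule.equivMapOfInjective μ hμinj (Submodule.map ι H))]
  have hY : Y = ⊥ := by
    refine partTwo (a := a) (by rw [hE, hm]) hs H Y n hinj hdim ?_
    rw [hE] at hdim ⊢
    omega
  rw [hY, finrank_bot, add_zero] at hdim
  have hHtop : H = ⊤ := Submodule.eq_top_of_finrank_eq hdim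
  apply le_antisymm
  · have h1 : W ⊓ lineE K m v = W := by
      apply Submodule.eq_of_le_of_finrank_eq inf_le_left
      rw [← hHW', hdim, hE, hW]
    rw [← h1]
    exact inf_le_right
  · intro x hx
    have h1 : x ^ (Fintype.card K ^ m) * v = x * v ^ (Fintype.card K ^ m) := hx
    have hvq : v ^ (Fintype.card K ^ m) ≠ 0 := pow_ne_zero _ hv
    have h2 : v⁻¹ * x ∈ E := by
      rw [hmemE, mul_pow, inv_pow]
      field_simp
      rw [h1, mul_comm]
    have h3 : (⟨_, h2⟩ : E) ∈ H := by
      rw [hHtop]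
      trivial
    have h4 : v * (v⁻¹ * x) ∈ W := h3
    rwa [mul_inv_cancel_left₀ hv] at h4

/-- (M3) the theorem -/
theorem exists_eq_lineE [CharP K 2] {m a : ℕ} (hm : m = 2 ^ a) (hV : finrank K V = 2 * m)
    (hs : 4 ≤ Fintype.card K) (W : Submodule K V) (hW : finrank K W = m)
    (hN : ∀ x ∈ W, ∀ y ∈ W,
      x ^ (Fintype.card K ^ m + 1) = y ^ (Fintype.card K ^ m + 1) → x = y) :
    ∃ v : V, v ≠ 0 ∧ W = lineE K m v := by
  have : NeZero m := ⟨by rw [hm]; positivity⟩
  have hV2 := charP_V K (V := V)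
  have hΩ2 : CharP (AlgebraicClosure V) 2 :=
    charP_of_injective_algebraMap (algebraMap V (AlgebraicClosure V)).injective 2
  obtain ⟨e, -, he⟩ := FiniteField.card K 2
  have hprime : Fact (Nat.Prime 2) := ⟨Nat.prime_two⟩
  let Ω := AlgebraicClosure V
  let τ : Ω ≃+* Ω := iterateFrobeniusEquiv Ω 2 e
  have hτ : ∀ x, τ x = x ^ Fintype.card K := by
    intro x
    rw [he]
    exact iterateFrobeniusEquiv_def Ω 2 e x
  let X : Submodule Ω (Zs m Ω) := Submodule.span Ω (Mo K m Ω '' (W : Set V))
  have hfix : ∀ x : V, Phi m τ (Mo K m Ω x) = Mo K m Ω x := Phi_Mo K hV τ hτ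
  have hX1 : ∀ z ∈ X, Phi m τ z ∈ X := by
    intro z hz
    induction hz using Submodule.span_induction with
    | mem z hz =>
      obtain ⟨x, hx, rfl⟩ := hz
      rw [hfix]
      exact Submodule.subset_span ⟨x, hx, rfl⟩
    | zero =>
      rw [map_zero]
      exact X.zero_mem
    | add x y _ _ hx hy =>
      rw [map_add]
      exact X.add_mem hx hy
    | smul c x _ hx =>
      rw [Phi_smul]
      exact X.smul_mem _ hx
  have hX2 : ∀ z ∈ X, (Phi m τ).symm z ∈ X := by
    intro z hz
    induction hz using Submodule.span_induction with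
    | mem z hz =>
      obtain ⟨x, hx, rfl⟩ := hz
      have h1 : (Phi m τ).symm (Mo K m Ω x) = Mo K m Ω x := by
        rw [AddEquiv.symm_apply_eq, hfix]
      rw [h1]
      exact Submodule.subset_span ⟨x, hx, rfl⟩
    | zero =>
      rw [map_zero]
      exact X.zero_mem
    | add x y _ _ hx hy =>
      rw [map_add]
      exact X.add_mem hx hy
    | smul c x _ hx =>
      have h1 : (Phi m τ).symm (c • x) = τ.symm c • (Phi m τ).symm x := by
        rw [AddEquiv.symm_apply_eq, Phi_smul, AddEquiv.apply_symm_apply,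
          RingEquiv.apply_symm_apply]
      rw [h1]
      exact X.smul_mem _ hx
  let C : Cfg m Ω :=
    { X := X
      τ := τ
      finrank_X := by rw [finrank_span_Mo K hV, hW]
      mem_iff := fun z => ⟨fun h => by
        have := hX2 _ h
        rwa [AddEquiv.symm_apply_apply] at this, hX1 z⟩ }
  have hinf : Infinite Ω := IsAlgClosed.instInfinite
  obtain ⟨D, hDX, hDm, hDΦ, hDB, hDnz⟩ := partOne C (a := a) hm
    (fun t => rad_ne_bot K hV W hW hN t)
  obtain ⟨v, hv, hle⟩ := exists_line K hV W τ hτ D hDX hDΦ hDB hDnz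
  exact ⟨v, hv, eq_lineE K hm hV hs W hW hN hv (by omega)⟩

end Pool.Agent.Lib.CPlane
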