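import Pool.Agent.Lib.CPlane.MooreP2b
import Pool.Agent.Lib.CPlane.Digits

/-!
# All the forms `B_t` are degenerate on the span of `W` (row P2c)
-/

namespace Pool.Agent.Lib.CPlane

open Module

/-- in characteristic two the determinant of an alternating matrix is a square (Leibniz' formula:
`σ` and `σ⁻¹` cancel, an involution without fixed point gives a square) -/
theorem det_eq_sq {R n : Type*} [CommRing R] [CharP R 2] [Fintype n] [LinearOrder n]
    (A : Matrix n n R) (hsymm : ∀ i j, A i j = A j i) (hdiag : ∀ i, A i i = 0) :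
    ∃ g : R, A.det = g ^ 2 := by
  classical
  have h1 : A.det = ∑ σ : Equiv.Perm n, ∏ i, A (σ i) i := by
    rw [Matrix.det_apply']
    refine Finset.sum_congr rfl fun σ _ => ?_
    rcases Int.units_eq_one_or (Equiv.Perm.sign σ) with h | h
    · rw [h]; simp
    · rw [h]; simp [CharTwo.neg_eq]
  have h2 : ∀ σ : Equiv.Perm n, ∏ i, A (σ⁻¹ i) i = ∏ i, A (σ i) i := by
    intro σ
    rw [← Equiv.prod_comp σ (fun i => A (σ⁻¹ i) i)]
    refine Finset.prod_congr rfl fun i _ => ?_
    rw [Equiv.Perm.inv_def, Equiv.symm_apply_apply, hsymm]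
  have h3 : ∑ σ ∈ Finset.univ.filter (fun σ : Equiv.Perm n => ¬ σ⁻¹ = σ), ∏ i, A (σ i) i = 0 := by
    refine Finset.sum_involution (fun σ _ => σ⁻¹) ?_ ?_ ?_ ?_
    · intro σ _
      rw [h2]
      exact CharTwo.add_self_eq_zero _
    · intro σ hσ _
      exact (Finset.mem_filter.mp hσ).2
    · intro σ hσ
      rw [Finset.mem_filter] at hσ ⊢
      refine ⟨Finset.mem_univ _, fun h => hσ.2 ?_⟩
      rw [inv_inv] at h
      exact h.symm
    · intro σ _
      exact inv_inv σ
  have h4 : ∀ σ ∈ Finset.univ.filter (fun σ : Equiv.Perm n => σ⁻¹ = σ),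
      ∃ g : R, ∏ i, A (σ i) i = g ^ 2 := by
    intro σ hσ
    have hinv : ∀ i, σ (σ i) = i := by
      intro i
      have h5 := (Finset.mem_filter.mp hσ).2
      have h6 : σ⁻¹ (σ i) = i := by rw [Equiv.Perm.inv_def, Equiv.symm_apply_apply]
      rwa [h5] at h6
    by_cases hfix : ∃ i, σ i = i
    · obtain ⟨i, hi⟩ := hfix
      refine ⟨0, ?_⟩
      rw [zero_pow two_ne_zero]
      refine Finset.prod_eq_zero (Finset.mem_univ i) ?_
      rw [hi, hdiag]
    · push Not at hfix
      refine ⟨∏ i ∈ Finset.univ.filter (fun i => i < σ i), A (σ i) i, ?_⟩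
      rw [sq, ← Finset.prod_filter_mul_prod_filter_not Finset.univ (fun i => i < σ i)]
      congr 1
      refine Finset.prod_bij (fun i _ => σ i) ?_ ?_ ?_ ?_
      · intro i hi
        rw [Finset.mem_filter] at hi ⊢
        refine ⟨Finset.mem_univ _, ?_⟩
        rw [hinv]
        exact lt_of_le_of_ne (not_lt.mp hi.2) (hfix i)
      · intro i _ j _ hij
        exact σ.injective hij
      · intro i hi
        rw [Finset.mem_filter] at hi
        refine ⟨σ i, ?_, hinv i⟩
        rw [Finset.mem_filter]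
        refine ⟨Finset.mem_univ _, ?_⟩
        rw [hinv]
        exact not_lt.mpr hi.2.le
      · intro i _
        rw [hinv, hsymm]
  choose! g hg using h4
  refine ⟨∑ σ ∈ Finset.univ.filter (fun σ : Equiv.Perm n => σ⁻¹ = σ), g σ, ?_⟩
  rw [h1, ← Finset.sum_filter_add_sum_filter_not Finset.univ
    (fun σ : Equiv.Perm n => σ⁻¹ = σ), h3, add_zero, CharTwo.sum_sq]
  exact Finset.sum_congr rfl hg

section

variable {Ω : Type} [Field Ω] {m : ℕ} [NeZero m]

/-- the matrix of the forms `B_t` in `m` independent variables `t_j = t_j + t_(j+m)` -/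
noncomputable def MF (u : Fin m → Zs m Ω) :
    Matrix (Fin m) (Fin m) (MvPolynomial (Fin m) Ω) :=
  Matrix.of fun k l => ∑ j : Fin m, MvPolynomial.X j *
    MvPolynomial.C (u k ((j : ℕ) : ZMod (2 * m)) * u l ((j : ℕ) + (m : ZMod (2 * m))) +
      u k ((j : ℕ) + (m : ZMod (2 * m))) * u l ((j : ℕ) : ZMod (2 * m)))

omit [NeZero m] in
theorem degreeOf_det_MF (u : Fin m → Zs m Ω) (i : Fin m) : (MF u).det.degreeOf i ≤ 2 := by
  classical
  let M0 : Matrix (Fin m) (Fin m) (MvPolynomial (Fin m) Ω) :=
    Matrix.of fun k l => ∑ j ∈ Finset.univ.erase i, MvPolynomial.X j *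
      MvPolynomial.C (u k ((j : ℕ) : ZMod (2 * m)) * u l ((j : ℕ) + (m : ZMod (2 * m))) +
        u k ((j : ℕ) + (m : ZMod (2 * m))) * u l ((j : ℕ) : ZMod (2 * m)))
  let B : Matrix (Fin m) (Fin 2) (MvPolynomial (Fin m) Ω) :=
    Matrix.of fun k a => MvPolynomial.C (u k ((i : ℕ) + (a : ℕ) * (m : ZMod (2 * m))))
  let C : Matrix (Fin 2) (Fin m) (MvPolynomial (Fin m) Ω) :=
    Matrix.of fun a l => - (MvPolynomial.X i * MvPolynomial.C
      (u l ((i : ℕ) + (1 - (a : ℕ)) * (m : ZMod (2 * m)))))
  have h1 : MF u = M0 - B * C := by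
    ext1 k l
    simp only [MF, M0, B, C, Matrix.of_apply, Matrix.sub_apply, Matrix.mul_apply,
      Fin.sum_univ_two]
    rw [← Finset.sum_erase_add _ _ (Finset.mem_univ i)]
    simp
    ring
  have h2 : (MF u).det = (Matrix.fromBlocks M0 B C 1).det := by
    rw [h1, Matrix.det_fromBlocks_one₂₂]
  rw [h2]
  refine (degreeOf_det_le _ i (Sum.elim 0 1) ?_).trans ?_
  · rintro (a | a) (b | b)
    · simp only [Matrix.fromBlocks_apply₁₁, Sum.elim_inl, Pi.zero_apply, M0, Matrix.of_apply]
      refine (MvPolynomial.degreeOf_sum_le _ _ _).trans (Finset.sup_le fun j hj => ?_)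
      refine (MvPolynomial.degreeOf_mul_le _ _ _).trans ?_
      rw [MvPolynomial.degreeOf_C, MvPolynomial.degreeOf_X_of_ne (Finset.ne_of_mem_erase hj).symm,
        add_zero]
    · simp [B]
    · simp only [Matrix.fromBlocks_apply₂₁, Sum.elim_inr, Pi.one_apply, C, Matrix.of_apply,
        MvPolynomial.degreeOf_neg]
      refine (MvPolynomial.degreeOf_mul_le _ _ _).trans ?_
      rw [MvPolynomial.degreeOf_C, MvPolynomial.degreeOf_X]
      simp
    · simp only [Matrix.fromBlocks_apply₂₂, Sum.elim_inr, Pi.one_apply, Matrix.one_apply]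
      split_ifs
      · simp
      · simp
  · simp

theorem sum_half {M : Type} [AddCommMonoid M] (f : ZMod (2 * m) → M) :
    ∑ i, f i = ∑ j : Fin m, (f ((j : ℕ) : ZMod (2 * m)) +
      f ((j : ℕ) + (m : ZMod (2 * m)))) := by
  have h1 : ∑ i, f i = ∑ i : ZMod (2 * m), (fun n : ℕ => f (n : ZMod (2 * m))) i.val := by
    refine Finset.sum_congr rfl fun i _ => ?_
    simp only [ZMod.natCast_zmod_val]
  have h2 : Finset.range (2 * m) = Finset.range (m + m) := by rw [two_mul]
  rw [h1, sum_zmod (2 * m) (fun n : ℕ => f (n : ZMod (2 * m))), h2, Finset.sum_range_add,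
    Finset.sum_range, Finset.sum_range, ← Finset.sum_add_distrib]
  refine Finset.sum_congr rfl fun j _ => ?_
  congr 2
  push_cast
  ring

omit [NeZero m] in
theorem m_add_m (i : ZMod (2 * m)) : i + (m : ZMod (2 * m)) + (m : ZMod (2 * m)) = i := by
  have h : (m : ZMod (2 * m)) + (m : ZMod (2 * m)) = 0 := by
    have := ZMod.natCast_self (2 * m)
    push_cast at this
    rw [← two_mul]
    exact this
  rw [add_assoc, h, add_zero]

/-- the values of the matrix `MF` are the matrices of the forms -/
theorem eval_MF (u : Fin m → Zs m Ω) (t : Zs m Ω) (k l : Fin m) :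
    MvPolynomial.eval (fun j : Fin m => t ((j : ℕ) : ZMod (2 * m)) +
      t ((j : ℕ) + (m : ZMod (2 * m)))) (MF u k l) = Bt t (u k) (u l) := by
  rw [Bt_apply, sum_half]
  simp only [MF, Matrix.of_apply, map_sum, map_mul, MvPolynomial.eval_X, MvPolynomial.eval_C]
  refine Finset.sum_congr rfl fun j _ => ?_
  rw [m_add_m]
  ring

theorem eval_det_MF (u : Fin m → Zs m Ω) (t : Zs m Ω) :
    MvPolynomial.eval (fun j : Fin m => t ((j : ℕ) : ZMod (2 * m)) +
      t ((j : ℕ) + (m : ZMod (2 * m)))) (MF u).det =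
      (Matrix.of fun k l => Bt t (u k) (u l)).det := by
  rw [RingHom.map_det]
  congr 1
  ext k l
  exact eval_MF u t k l

omit [NeZero m] in
/-- if the form `B_t` is degenerate at the points `t` with `t_j + t_(j+m) = e ^ (s ^ j)` for `s ^ m`
elements `e` then at all points -/
theorem det_MF_eq_zero [CharP Ω 2] (u : Fin m → Zs m Ω) {s : ℕ} (hs : 2 ≤ s) (S : Finset Ω)
    (hS : s ^ m ≤ S.card)
    (h0 : ∀ x ∈ S, MvPolynomial.eval (fun k : Fin m => x ^ s ^ (k : ℕ)) (MF u).det = 0) :
    (MF u).det = 0 := by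
  obtain ⟨g, hg⟩ := det_eq_sq (MF u) (by
    intro i j
    simp only [MF, Matrix.of_apply]
    refine Finset.sum_congr rfl fun k _ => ?_
    congr 2
    ring) (by
    intro i
    simp only [MF, Matrix.of_apply]
    refine Finset.sum_eq_zero fun k _ => ?_
    rw [mul_comm (u i ((k : ℕ) + (m : ZMod (2 * m)))), CharTwo.add_self_eq_zero, map_zero,
      mul_zero])
  rw [hg, pow_eq_zero_iff two_ne_zero]
  by_contra hne
  apply hne
  refine digits_finset (by omega) g (fun k => ?_) S hS (fun x hx => ?_)
  · have h1 := degreeOf_det_MF u k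
    rw [hg, MvPolynomial.degreeOf_pow_eq _ _ _ hne] at h1
    omega
  · have h1 := h0 x hx
    rw [hg, map_pow, pow_eq_zero_iff two_ne_zero] at h1
    exact h1

end

section

variable (K : Type) {V Ω : Type} [Field K] [Fintype K] [Field V] [Finite V] [Algebra K V]
  [Field Ω] [Algebra V Ω]

/-- the image of the trace `β ↦ β + β ^ (s ^ m)` has at least `s ^ m` elements -/
theorem exists_finset [CharP K 2] {m : ℕ} [NeZero m] (hV : finrank K V = 2 * m) :
    ∃ S : Finset Ω, Fintype.card K ^ m ≤ S.card ∧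
      ∀ x ∈ S, ∃ β : V, x = algebraMap V Ω (β + β ^ (Fintype.card K ^ m)) := by
  classical
  have := Fintype.ofFinite V
  have hcV : CharP V 2 := charP_of_injective_algebraMap (algebraMap K V).injective 2
  let f : V →ₗ[K] V := LinearMap.id + barL K V m
  have hf : ∀ β, f β = β + β ^ (Fintype.card K ^ m) := by
    intro β
    simp [f, barL_apply]
  have hker : LinearMap.ker f = fixE K V m := by
    ext x
    rw [LinearMap.mem_ker, hf, mem_fixE, CharTwo.add_eq_zero, eq_comm]
  have h1 := LinearMap.finrank_range_add_finrank_ker f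
  have h2 : finrank K (fixE K V m) ≤ m := by
    have h3 := card_fixE_le (V := V) (m := m) K
    rw [Module.natCard_eq_pow_finrank (K := K) (V := fixE K V m), Nat.card_eq_fintype_card] at h3
    exact (Nat.pow_le_pow_iff_right Fintype.one_lt_card).mp h3
  rw [hker, hV] at h1
  have h3 : m ≤ finrank K (LinearMap.range f) := by omega
  refine ⟨Finset.univ.image (fun β : V => algebraMap V Ω (f β)), ?_, ?_⟩
  · have h4 : Finset.univ.image (fun β : V => algebraMap V Ω (f β)) =
        (Finset.univ.image f).image (algebraMap V Ω) := by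
      rw [Finset.image_image]
      rfl
    rw [h4, Finset.card_image_of_injective _ (algebraMap V Ω).injective]
    have h5 : (Finset.univ.image f).card = Nat.card (LinearMap.range f) := by
      rw [← Set.ncard_coe_finset, Finset.coe_image, Finset.coe_univ, Set.image_univ]
      exact (Nat.card_coe_set_eq _).symm
    rw [h5, Module.natCard_eq_pow_finrank (K := K) (V := LinearMap.range f),
      Nat.card_eq_fintype_card]
    exact Nat.pow_le_pow_right Fintype.card_pos h3
  · intro x hx
    obtain ⟨β, _, rfl⟩ := Finset.mem_image.mp hx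
    exact ⟨β, by rw [hf]⟩

/-- (P2c) all forms `B_t` are degenerate on the span of `W`: `det B_t` has degree `≤ 2` in every
`t_i` and is a square in characteristic two; it vanishes at `t_i = β ^ (s ^ i)`. -/
theorem rad_ne_bot [CharP K 2] {m : ℕ} [NeZero m] (hV : finrank K V = 2 * m)
    (W : Submodule K V) (hW : finrank K W = m)
    (hN : ∀ x ∈ W, ∀ y ∈ W, x ^ (Fintype.card K ^ m + 1) = y ^ (Fintype.card K ^ m + 1) → x = y)
    (t : Zs m Ω) :
    perp (Submodule.span Ω (Mo K m Ω '' (W : Set V))) (Submodule.span Ω (Mo K m Ω '' (W : Set V)))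
      t ≠ ⊥ := by
  classical
  have hcV : CharP V 2 := charP_of_injective_algebraMap (algebraMap K V).injective 2
  have hcΩ : CharP Ω 2 := charP_of_injective_algebraMap (algebraMap V Ω).injective 2
  let b := finBasisOfFinrankEq K W hW
  let u : Fin m → Zs m Ω := fun k => Mo K m Ω (b k : V)
  have hu : LinearIndependent Ω u :=
    linearIndependent_Mo K hV _ (b.linearIndependent.map' W.subtype W.ker_subtype)
  have hspan : Submodule.span Ω (Mo K m Ω '' (W : Set V)) = Submodule.span Ω (Set.range u) :=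
    span_Mo K W b
  obtain ⟨S, hS, hS'⟩ := exists_finset (V := V) (Ω := Ω) K hV
  have hdet : (MF u).det = 0 := by
    refine det_MF_eq_zero u Fintype.one_lt_card S hS fun x hx => ?_
    obtain ⟨β, rfl⟩ := hS' x hx
    have h1 : (fun k : Fin m => (algebraMap V Ω (β + β ^ (Fintype.card K ^ m))) ^
        Fintype.card K ^ (k : ℕ)) = fun j : Fin m => Mo K m Ω β ((j : ℕ) : ZMod (2 * m)) +
          Mo K m Ω β ((j : ℕ) + (m : ZMod (2 * m))) := by
      ext j
      have hj : ((j : ℕ) : ZMod (2 * m)).val = j := by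
        rw [ZMod.val_natCast]
        exact Nat.mod_eq_of_lt (by omega)
      rw [Mo_half K hV, Mo_apply, Mo_apply, hj, ← map_add, ← map_pow, add_pow_card_pow]
    rw [h1, eval_det_MF]
    rw [← Matrix.exists_vecMul_eq_zero_iff]
    obtain ⟨w, hw, hw0, hww⟩ := exists_rad K hV W hW hN β
    refine ⟨fun k => algebraMap V Ω (algebraMap K V (b.repr ⟨w, hw⟩ k)), ?_, ?_⟩
    · intro h0
      apply hw0
      have h2 : b.repr ⟨w, hw⟩ = 0 := by
        ext k
        have h3 := congrFun h0 k
        simp only [Pi.zero_apply, map_eq_zero] at h3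
        rw [h3]
        rfl
      have h4 : (⟨w, hw⟩ : W) = 0 := by
        rw [← b.repr.map_eq_zero_iff]
        exact h2
      exact congrArg Subtype.val h4
    · ext l
      have h2 : w = ∑ k, b.repr ⟨w, hw⟩ k • (b k : V) := by
        have := congrArg W.subtype (b.sum_repr ⟨w, hw⟩)
        rw [map_sum] at this
        exact this.symm
      have h3 : Bt (Mo K m Ω β) (Mo K m Ω w) (u l) = 0 := by
        rw [Bt_Mo K hV, hww _ (b l).2, map_zero, map_zero]
      rw [h2, Mo_sum, map_sum, LinearMap.sum_apply] at h3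
      simp only [Mo_smul, map_smul, LinearMap.smul_apply, smul_eq_mul] at h3
      simpa [Matrix.vecMul, dotProduct] using h3
  have hdet2 : (Matrix.of fun k l => Bt t (u k) (u l)).det = 0 := by
    rw [← eval_det_MF, hdet, map_zero]
  rw [← Matrix.exists_vecMul_eq_zero_iff] at hdet2
  obtain ⟨c, hc0, hc⟩ := hdet2
  intro hbot
  apply hc0
  have hmem : (∑ k, c k • u k) ∈ perp (Submodule.span Ω (Mo K m Ω '' (W : Set V)))
      (Submodule.span Ω (Mo K m Ω '' (W : Set V))) t := by
    rw [mem_perp, hspan]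
    refine ⟨Submodule.sum_mem _ fun k _ => Submodule.smul_mem _ _
      (Submodule.subset_span ⟨k, rfl⟩), fun d hd => ?_⟩
    induction hd using Submodule.span_induction with
    | mem x hx =>
      obtain ⟨l, rfl⟩ := hx
      have h1 := congrFun hc l
      simp only [Matrix.vecMul, dotProduct, Matrix.of_apply, Pi.zero_apply] at h1
      rw [map_sum, LinearMap.sum_apply, ← h1]
      simp
    | zero => simp
    | add x y _ _ hx hy => rw [map_add, hx, hy, add_zero]
    | smul a x _ hx => rw [map_smul, hx, smul_zero]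
  rw [hbot, Submodule.mem_bot] at hmem
  exact funext (Fintype.linearIndependent_iff.mp hu c hmem)

end

end Pool.Agent.Lib.CPlane
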