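import Pool.Agent.Lib.CPlane.Line
import Pool.Agent.Lib.CPlane.MooreP2c

/-!
# The Moore embedding `V → Ω ^ (ℤ/2m)`: the parts are in `MooreP1`, `MooreP2b`, `MooreP2c`
-/
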