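import Pool.Agent.Lib.CPlane.Form

namespace Pool.Agent.Lib.CPlane

open Module

variable (K : Type) {V Ω : Type} [Field K] [Fintype K] [Field V] [Finite V] [Algebra K V]
  [Field Ω] [Algebra V Ω]

/-- the vector of the conjugates of `x` -/
def Mo (m : ℕ) (Ω : Type) [Field Ω] [Algebra V Ω] (x : V) : Zs m Ω :=
  fun i => algebraMap V Ω (x ^ (Fintype.card K ^ i.val))

omit [Finite V] [Field K] [Algebra K V] in
theorem Mo_apply (m : ℕ) (x : V) (i : ZMod (2 * m)) :
    Mo K m Ω x i = algebraMap V Ω (x ^ (Fintype.card K ^ i.val)) := rfl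

omit [Finite V] in
theorem add_pow_card_pow (x y : V) (n : ℕ) :
    (x + y) ^ (Fintype.card K ^ n) = x ^ (Fintype.card K ^ n) + y ^ (Fintype.card K ^ n) := by
  have h := map_add ((FiniteField.frobeniusAlgHom K V) ^ n) x y
  simpa [AlgHom.coe_pow, FiniteField.coe_frobeniusAlgHom, pow_iterate] using h

omit [Finite V] in
theorem algebraMap_pow_card_pow (k : K) (n : ℕ) :
    (algebraMap K V k) ^ (Fintype.card K ^ n) = algebraMap K V k := by
  rw [← map_pow, FiniteField.pow_card_pow]

theorem pow_card_pow_finrank (x : V) : x ^ (Fintype.card K ^ finrank K V) = x := by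
  have := Fintype.ofFinite V
  rw [← Module.card_eq_pow_finrank (K := K) (V := V)]
  exact FiniteField.pow_card x

section

variable {m : ℕ} [NeZero m]

omit [NeZero m] [Finite V] in
/-- (P1a) -/
theorem Mo_add (x y : V) : Mo K m Ω (x + y) = Mo K m Ω x + Mo K m Ω y := by
  ext i
  rw [Pi.add_apply, Mo_apply, Mo_apply, Mo_apply, add_pow_card_pow, map_add]

omit [NeZero m] [Finite V] in
/-- (P1b) -/
theorem Mo_smul (k : K) (x : V) :
    Mo K m Ω (k • x) = algebraMap V Ω (algebraMap K V k) • Mo K m Ω x := by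
  ext i
  rw [Pi.smul_apply, Mo_apply, Mo_apply, Algebra.smul_def, mul_pow, algebraMap_pow_card_pow,
    map_mul, smul_eq_mul]

omit [NeZero m] [Finite V] [Algebra K V] in
theorem Mo_zero : Mo K m Ω (0 : V) = 0 := by
  ext i
  rw [Mo_apply, zero_pow (pow_ne_zero _ Fintype.card_ne_zero), map_zero, Pi.zero_apply]

omit [NeZero m] [Finite V] in
theorem Mo_sum {κ : Type} (S : Finset κ) (f : κ → V) :
    Mo K m Ω (∑ k ∈ S, f k) = ∑ k ∈ S, Mo K m Ω (f k) := by
  classical
  induction S using Finset.induction_on with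
  | empty => simp [Mo_zero]
  | insert a S ha ih => rw [Finset.sum_insert ha, Finset.sum_insert ha, Mo_add, ih]

omit [NeZero m] in
/-- the exponents may be taken modulo `2m` -/
theorem pow_card_pow_mod (hV : finrank K V = 2 * m) (x : V) (n : ℕ) :
    x ^ (Fintype.card K ^ (n % (2 * m))) = x ^ (Fintype.card K ^ n) := by
  have key : ∀ k : ℕ, x ^ (Fintype.card K ^ (2 * m * k)) = x := by
    intro k
    induction k with
    | zero => simp
    | succ k ih =>
      rw [Nat.mul_succ, pow_add, pow_mul, ih, ← hV]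
      exact pow_card_pow_finrank K x
  conv_rhs => rw [← Nat.div_add_mod n (2 * m), pow_add, pow_mul, key]

/-- (P1c) `(x ^ (s ^ i)) ^ s = x ^ (s ^ (i + 1))`, also for `i = 2m - 1` -/
theorem Mo_succ (hV : finrank K V = 2 * m) (x : V) (i : ZMod (2 * m)) :
    Mo K m Ω x (i + 1) = Mo K m Ω x i ^ Fintype.card K := by
  rw [Mo_apply, Mo_apply, ← map_pow]
  congr 1
  have h : (i + 1).val = (i.val + 1) % (2 * m) := by
    rw [ZMod.val_add]
    rcases Nat.lt_or_ge 1 (2 * m) with h1 | h1
    · have : (1 : ZMod (2 * m)).val = 1 := by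
        have : Fact (1 < 2 * m) := ⟨h1⟩
        exact ZMod.val_one _
      rw [this]
    · have := NeZero.pos m
      omega
  rw [h, pow_card_pow_mod K hV, pow_succ, pow_mul]

/-- (P1d) -/
theorem Mo_half (hV : finrank K V = 2 * m) (x : V) (i : ZMod (2 * m)) :
    Mo K m Ω x (i + m) = Mo K m Ω (x ^ (Fintype.card K ^ m)) i := by
  rw [Mo_apply, Mo_apply]
  congr 1
  have h : (i + m).val = (i.val + m) % (2 * m) := by
    rw [ZMod.val_add, ZMod.val_natCast, Nat.add_mod_mod]
  rw [h, pow_card_pow_mod K hV, ← pow_mul, ← pow_add, add_comm]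

/-- (P1e) -/
theorem Phi_Mo (hV : finrank K V = 2 * m) (τ : Ω ≃+* Ω) (hτ : ∀ x, τ x = x ^ Fintype.card K)
    (x : V) : Phi m τ (Mo K m Ω x) = Mo K m Ω x := by
  ext i
  rw [Phi_apply, hτ, ← Mo_succ K hV, sub_add_cancel]



theorem sum_zmod {M : Type} [AddCommMonoid M] (n : ℕ) [NeZero n] (f : ℕ → M) :
    ∑ i : ZMod n, f i.val = ∑ i ∈ Finset.range n, f i := by
  obtain ⟨k, rfl⟩ : ∃ k, n = k + 1 := ⟨n - 1, by have := NeZero.pos n; omega⟩
  exact Fin.sum_univ_eq_sum_range f (k + 1)

/-- the `i`-th conjugate as a homomorphism -/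
def conj (Ω : Type) [Field Ω] [Algebra V Ω] (i : ℕ) : V →* Ω :=
  (algebraMap V Ω : V →* Ω).comp (powMonoidHom (Fintype.card K ^ i))

theorem conj_injOn (hV : finrank K V = 2 * m) :
    Function.Injective (fun i : ZMod (2 * m) => conj K (V := V) Ω i.val) := by
  intro i j hij
  have h1 : ∀ x : V, x ^ (Fintype.card K ^ i.val) = x ^ (Fintype.card K ^ j.val) := by
    intro x
    have := DFunLike.congr_fun hij x
    exact (algebraMap V Ω).injective this
  have hi : i.val < finrank K V := by rw [hV]; exact ZMod.val_lt i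
  have hj : j.val < finrank K V := by rw [hV]; exact ZMod.val_lt j
  have h2 : (⟨i.val, hi⟩ : Fin (finrank K V)) = ⟨j.val, hj⟩ := by
    apply (FiniteField.bijective_frobeniusAlgHom_pow K V).1
    ext x
    simpa [AlgHom.coe_pow, FiniteField.coe_frobeniusAlgHom, pow_iterate] using h1 x
  exact ZMod.val_injective _ (Fin.mk.inj_iff.mp h2)

/-- Dedekind's lemma -/
theorem dedekind (hV : finrank K V = 2 * m) (c : ZMod (2 * m) → Ω)
    (h : ∀ x : V, ∑ i, c i * Mo K m Ω x i = 0) : c = 0 := by
  have h1 : LinearIndependent Ω (fun i : ZMod (2 * m) => (⇑(conj K (V := V) Ω i.val) : V → Ω)) :=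
    (linearIndependent_monoidHom V Ω).comp _ (conj_injOn K hV)
  have h2 := Fintype.linearIndependent_iff.mp h1 c (by
    ext x
    have := h x
    simp only [Mo_apply] at this
    simpa [Finset.sum_apply, conj] using this)
  exact funext h2

theorem linearIndependent_Mo_basis (hV : finrank K V = 2 * m) {κ : Type} (b : Basis κ K V) :
    LinearIndependent Ω (fun k => Mo K m Ω (b k)) := by
  classical
  have : Fintype κ := FiniteDimensional.fintypeBasisIndex b
  have hc : Fintype.card (ZMod (2 * m)) = Fintype.card κ := by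
    rw [ZMod.card, ← hV, finrank_eq_card_basis b]
  let e : ZMod (2 * m) ≃ κ := Fintype.equivOfCardEq hc
  let b' : Basis (ZMod (2 * m)) K V := b.reindex e.symm
  have key : LinearIndependent Ω (fun k => Mo K m Ω (b' k)) := by
    let A : Matrix (ZMod (2 * m)) (ZMod (2 * m)) Ω := fun k i => Mo K m Ω (b' k) i
    have hA : IsUnit A := by
      rw [← Matrix.mulVec_injective_iff_isUnit, ← Matrix.coe_mulVecLin,
        ← LinearMap.ker_eq_bot, LinearMap.ker_eq_bot']
      intro c hc'
      refine dedekind K hV c fun x => ?_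
      have h1 : ∀ k, ∑ i, c i * Mo K m Ω (b' k) i = 0 := by
        intro k
        have := congrFun hc' k
        simp only [Matrix.mulVecLin_apply, Matrix.mulVec, dotProduct, Pi.zero_apply] at this
        rw [← this]
        exact Finset.sum_congr rfl fun i _ => mul_comm _ _
      have h2 : Mo K m Ω x = ∑ k, algebraMap V Ω (algebraMap K V (b'.repr x k)) •
          Mo K m Ω (b' k) := by
        conv_lhs => rw [← b'.sum_repr x, Mo_sum]
        simp only [Mo_smul]
      rw [h2]
      simp only [Finset.sum_apply, Pi.smul_apply, smul_eq_mul, Finset.mul_sum]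
      rw [Finset.sum_comm]
      refine Finset.sum_eq_zero fun k _ => ?_
      have := congrArg (fun z => algebraMap V Ω (algebraMap K V (b'.repr x k)) * z) (h1 k)
      simp only [mul_zero, Finset.mul_sum] at this
      rw [← this]
      exact Finset.sum_congr rfl fun i _ => by ring
    exact Matrix.linearIndependent_rows_iff_isUnit.mpr hA
  have h2 : (fun k => Mo K m Ω (b k)) = (fun k => Mo K m Ω (b' k)) ∘ e.symm := by
    ext k i
    simp [b']
  rw [h2]
  exact key.comp _ e.symm.injective

/-- (P1f) independence over `K` implies independence of the conjugate vectors over `Ω`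
(Dedekind's independence of the powers of the Frobenius automorphism and transposition) -/
theorem linearIndependent_Mo (hV : finrank K V = 2 * m) {ι : Type} (v : ι → V)
    (hv : LinearIndependent K v) : LinearIndependent Ω (fun k => Mo K m Ω (v k)) := by
  have h := hv.linearIndepOn_id
  let B := Basis.extend h
  have hB := linearIndependent_Mo_basis (Ω := Ω) K hV B
  let f : ι → ↑(h.extend (Set.subset_univ _)) :=
    fun k => ⟨v k, h.subset_extend (Set.subset_univ _) ⟨k, rfl⟩⟩
  have hf : Function.Injective f := fun i j hij => hv.injective (congrArg Subtype.val hij)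
  have h2 := hB.comp f hf
  have h3 : (fun k => Mo K m Ω (B k)) ∘ f = fun k => Mo K m Ω (v k) := by
    ext k i
    simp [B, f]
  rwa [h3] at h2

omit [NeZero m] [Finite V] in
theorem span_Mo {ι : Type} [Fintype ι] (U : Submodule K V) (b : Basis ι K U) :
    Submodule.span Ω (Mo K m Ω '' (U : Set V)) =
      Submodule.span Ω (Set.range fun k => Mo K m Ω (b k : V)) := by
  apply le_antisymm
  · rw [Submodule.span_le]
    rintro _ ⟨x, hx, rfl⟩
    have h1 : x = ∑ k, b.repr ⟨x, hx⟩ k • (b k : V) := by
      have := congrArg U.subtype (b.sum_repr ⟨x, hx⟩)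
      rw [map_sum] at this
      exact this.symm
    rw [h1, Mo_sum]
    refine Submodule.sum_mem _ fun k _ => ?_
    rw [Mo_smul]
    exact Submodule.smul_mem _ _ (Submodule.subset_span ⟨k, rfl⟩)
  · rw [Submodule.span_le]
    rintro _ ⟨k, rfl⟩
    exact Submodule.subset_span ⟨_, (b k).2, rfl⟩

/-- (P1g) -/
theorem finrank_span_Mo (hV : finrank K V = 2 * m) (U : Submodule K V) :
    finrank Ω (Submodule.span Ω (Mo K m Ω '' (U : Set V))) = finrank K U := by
  let b := finBasis K U
  rw [span_Mo K U b, finrank_span_eq_card, Fintype.card_fin]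
  exact linearIndependent_Mo K hV _ (b.linearIndependent.map' U.subtype U.ker_subtype)

/-- (P1h) the forms at the conjugate vectors are trace forms -/
theorem Bt_Mo (hV : finrank K V = 2 * m) (β w w' : V) :
    Bt (Mo K m Ω β) (Mo K m Ω w) (Mo K m Ω w') =
      algebraMap V Ω (algebraMap K V (Algebra.trace K V
        (β * (w * w' ^ (Fintype.card K ^ m) + w ^ (Fintype.card K ^ m) * w')))) := by
  rw [Bt_apply, FiniteField.algebraMap_trace_eq_sum_pow, hV, Nat.card_eq_fintype_card, map_sum,
    ← sum_zmod (2 * m) (fun i => algebraMap V Ω ((β * (w * w' ^ (Fintype.card K ^ m) +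
      w ^ (Fintype.card K ^ m) * w')) ^ (Fintype.card K ^ i)))]
  refine Finset.sum_congr rfl fun i _ => ?_
  rw [Mo_half K hV, Mo_half K hV, Mo_apply, Mo_apply, Mo_apply, Mo_apply, Mo_apply, mul_pow,
    add_pow_card_pow, mul_pow, mul_pow]
  simp only [map_mul, map_add]

end

end Pool.Agent.Lib.CPlane
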