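import Pool.Agent.Lib.CPlane.MooreP1

namespace Pool.Agent.Lib.CPlane

open Module

variable (K : Type) {V Ω : Type} [Field K] [Fintype K] [Field V] [Finite V] [Algebra K V]
  [Field Ω] [Algebra V Ω]

omit [Fintype K] in
/-- the sum of a non-trivial character along a non-zero functional is zero -/
theorem sum_char_eq_zero {M : Type} [AddCommGroup M] [Module K M] [Fintype M]
    (ψ : AddChar K ℂ) (hψ : ψ 1 ≠ 1) (f : M →ₗ[K] K) (hf : f ≠ 0) : ∑ x, ψ (f x) = 0 := by
  obtain ⟨x, hx⟩ : ∃ x, f x ≠ 0 := by
    by_contra h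
    push Not at h
    exact hf (LinearMap.ext h)
  have h1 : ψ.compAddMonoidHom f.toAddMonoidHom ≠ 1 := by
    intro h
    have := DFunLike.congr_fun h ((f x)⁻¹ • x)
    apply hψ
    simpa [hx] using this
  simpa using AddChar.sum_eq_zero_of_ne_one h1

variable {m : ℕ} [NeZero m]

/-- `x ↦ x ^ (s ^ m)` -/
noncomputable def barL (V : Type) [Field V] [Algebra K V] (m : ℕ) : V →ₗ[K] V :=
  ((FiniteField.frobeniusAlgHom K V) ^ m).toLinearMap

omit [NeZero m] [Finite V] in
theorem barL_apply (x : V) : barL K V m x = x ^ (Fintype.card K ^ m) := by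
  simp [barL, AlgHom.coe_pow, FiniteField.coe_frobeniusAlgHom, pow_iterate]

omit [NeZero m] in
theorem bar_bar (hV : finrank K V = 2 * m) (x : V) :
    (x ^ (Fintype.card K ^ m)) ^ (Fintype.card K ^ m) = x := by
  rw [← pow_mul, ← pow_add, ← two_mul, ← hV]
  exact pow_card_pow_finrank K x

omit [NeZero m] in
theorem trace_bar (x : V) :
    Algebra.trace K V (x ^ (Fintype.card K ^ m)) = Algebra.trace K V x := by
  have := Algebra.trace_eq_of_algEquiv ((FiniteField.frobeniusAlgEquivOfAlgebraic K V) ^ m) x
  rw [← this, AlgEquiv.coe_pow, FiniteField.coe_frobeniusAlgEquivOfAlgebraic_iterate]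

omit [NeZero m] in
theorem trace_eq_zero_of_fix [CharP K 2] (hV : finrank K V = 2 * m) (x : V)
    (hx : x ^ (Fintype.card K ^ m) = x) : Algebra.trace K V x = 0 := by
  have hcV : CharP V 2 := charP_of_injective_algebraMap (algebraMap K V).injective 2
  apply (algebraMap K V).injective
  rw [FiniteField.algebraMap_trace_eq_sum_pow, hV, two_mul, Finset.sum_range_add,
    Nat.card_eq_fintype_card, map_zero]
  have h1 : ∀ i, x ^ (Fintype.card K ^ (m + i)) = x ^ (Fintype.card K ^ i) := by
    intro i
    rw [pow_add, pow_mul, hx]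
  simp only [h1]
  exact CharTwo.add_self_eq_zero _

/-- the bilinear form `Tr (β (w z^q + w^q z))` as a linear map in `w` -/
noncomputable def trB (m : ℕ) (β z : V) : V →ₗ[K] K :=
  (Algebra.trace K V).comp ((LinearMap.mulLeft K β).comp
    (LinearMap.mulRight K (z ^ (Fintype.card K ^ m)) + (LinearMap.mulRight K z).comp (barL K V m)))

omit [NeZero m] [Finite V] in
theorem trB_apply (β z w : V) : trB K m β z w = Algebra.trace K V
    (β * (w * z ^ (Fintype.card K ^ m) + w ^ (Fintype.card K ^ m) * z)) := by
  simp [trB, barL_apply]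

/-- the subfield with `s ^ m` elements, as a subspace -/
noncomputable def fixE (V : Type) [Field V] [Algebra K V] (m : ℕ) : Submodule K V :=
  LinearMap.ker (barL K V m - LinearMap.id)

omit [NeZero m] [Finite V] in
theorem mem_fixE (x : V) : x ∈ fixE K V m ↔ x ^ (Fintype.card K ^ m) = x := by
  simp [fixE, barL_apply, sub_eq_zero]

omit [Finite V] in
theorem card_fixE_le [Finite V] : Nat.card (fixE K V m) ≤ Fintype.card K ^ m := by
  classical
  have := Fintype.ofFinite V
  have hq : 1 < Fintype.card K ^ m := Nat.one_lt_pow (NeZero.ne m) Fintype.one_lt_card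
  have h1 : (Polynomial.X ^ (Fintype.card K ^ m) - Polynomial.X : Polynomial V) ≠ 0 :=
    FiniteField.X_pow_card_sub_X_ne_zero V hq
  have h2 : (Finset.univ.filter (fun x : V => x ∈ fixE K V m)) ⊆
      (Polynomial.X ^ (Fintype.card K ^ m) - Polynomial.X : Polynomial V).roots.toFinset := by
    intro x hx
    rw [Finset.mem_filter, mem_fixE] at hx
    rw [Multiset.mem_toFinset, Polynomial.mem_roots h1]
    simp [Polynomial.IsRoot, hx.2]
  have h3 := (Finset.card_le_card h2).trans ((Multiset.toFinset_card_le _).trans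
    (Polynomial.card_roots' _))
  rw [FiniteField.X_pow_card_sub_X_natDegree_eq V hq] at h3
  rw [Nat.card_eq_fintype_card, Fintype.card_subtype]
  exact h3

/-- (P2b) `N` is injective on `W`, `dim W = m`: the trace forms are degenerate (sums of additive
characters; if `β + β ^ (s ^ m) = 0` the form is zero). -/
theorem exists_rad [CharP K 2] {m : ℕ} [NeZero m] (hV : finrank K V = 2 * m)
    (W : Submodule K V) (hW : finrank K W = m)
    (hN : ∀ x ∈ W, ∀ y ∈ W, x ^ (Fintype.card K ^ m + 1) = y ^ (Fintype.card K ^ m + 1) → x = y)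
    (β : V) : ∃ w ∈ W, w ≠ 0 ∧ ∀ w' ∈ W, Algebra.trace K V
      (β * (w * w' ^ (Fintype.card K ^ m) + w ^ (Fintype.card K ^ m) * w')) = 0 := by
  classical
  have := Fintype.ofFinite V
  have hcV : CharP V 2 := charP_of_injective_algebraMap (algebraMap K V).injective 2
  -- elements of the subfield
  have hfix : ∀ w w' : V, (w * w' ^ (Fintype.card K ^ m) + w ^ (Fintype.card K ^ m) * w') ^
      (Fintype.card K ^ m) = w * w' ^ (Fintype.card K ^ m) + w ^ (Fintype.card K ^ m) * w' := by
    intro w w'
    rw [add_pow_card_pow, mul_pow, mul_pow, bar_bar K hV, bar_bar K hV]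
    ring
  by_cases hβ : β + β ^ (Fintype.card K ^ m) = 0
  · obtain ⟨w, hw, hw0⟩ : ∃ w ∈ W, w ≠ 0 := by
      apply Submodule.exists_mem_ne_zero_of_ne_bot
      rintro rfl
      rw [finrank_bot] at hW
      exact NeZero.ne m hW.symm
    refine ⟨w, hw, hw0, fun w' _ => ?_⟩
    refine trace_eq_zero_of_fix K hV _ ?_
    have h1 : β ^ (Fintype.card K ^ m) = β := by
      have := eq_neg_of_add_eq_zero_right hβ
      rwa [CharTwo.neg_eq] at this
    rw [mul_pow, hfix, h1]
  · by_contra hcon
    push Not at hcon
    obtain ⟨ψ, hψ⟩ : ∃ ψ : AddChar K ℂ, ψ 1 ≠ 1 := AddChar.exists_apply_ne_zero.mpr one_ne_zero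
    -- the values on the subfield
    obtain ⟨v, hv⟩ : ∃ v : V, Algebra.trace K V ((β + β ^ (Fintype.card K ^ m)) * v) ≠ 0 := by
      by_contra hall
      push Not at hall
      exact hβ ((traceForm_nondegenerate K V).1 _ (fun v => by
        rw [Algebra.traceForm_apply]; exact hall v))
    let fE : fixE K V m →ₗ[K] K :=
      ((Algebra.trace K V).comp (LinearMap.mulLeft K β)).comp (fixE K V m).subtype
    have hfE : fE ≠ 0 := by
      intro h0
      have h1 : v + v ^ (Fintype.card K ^ m) ∈ fixE K V m := by
        rw [mem_fixE, add_pow_card_pow, bar_bar K hV, add_comm]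
      have h2 := LinearMap.congr_fun h0 ⟨_, h1⟩
      apply hv
      have h3 : Algebra.trace K V (β * (v + v ^ (Fintype.card K ^ m))) = 0 := h2
      rw [mul_add, map_add] at h3
      rw [add_mul, map_add, ← h3]
      congr 1
      rw [← trace_bar (m := m) K (β ^ (Fintype.card K ^ m) * v), mul_pow, bar_bar K hV]
    have hsumE := sum_char_eq_zero K ψ hψ fE hfE
    -- the norm map is a bijection
    let Nm : W → fixE K V m := fun w => ⟨(w : V) ^ (Fintype.card K ^ m + 1), by
      rw [mem_fixE, pow_succ, mul_pow, bar_bar K hV, mul_comm]⟩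
    have hinj : Function.Injective Nm := by
      intro x y hxy
      exact Subtype.ext (hN x x.2 y y.2 (congrArg Subtype.val hxy))
    have hbij : Function.Bijective Nm := by
      apply hinj.bijective_of_nat_card_le
      refine (card_fixE_le K).trans ?_
      rw [Module.natCard_eq_pow_finrank (K := K) (V := W), hW, Nat.card_eq_fintype_card]
    have hS : ∑ w : W, ψ (Algebra.trace K V (β * (w : V) ^ (Fintype.card K ^ m + 1))) = 0 := by
      rw [← hsumE]
      exact Fintype.sum_bijective Nm hbij _ _ fun w => rfl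
    -- the square of the sum
    have hsq : (∑ w : W, ψ (Algebra.trace K V (β * (w : V) ^ (Fintype.card K ^ m + 1)))) *
        (∑ w : W, ψ (Algebra.trace K V (β * (w : V) ^ (Fintype.card K ^ m + 1)))) =
        Fintype.card W := by
      have h1 : ∀ w z : W,
          ψ (Algebra.trace K V (β * (w : V) ^ (Fintype.card K ^ m + 1))) *
          ψ (Algebra.trace K V (β * ((w + z : W) : V) ^ (Fintype.card K ^ m + 1))) =
          ψ (Algebra.trace K V (β * (z : V) ^ (Fintype.card K ^ m + 1))) *
          ψ ((trB K m β (z : V)).comp W.subtype w) := by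
        intro w z
        rw [← AddChar.map_add_eq_mul, ← AddChar.map_add_eq_mul]
        congr 1
        rw [LinearMap.comp_apply, trB_apply, ← map_add, ← map_add]
        congr 1
        rw [Submodule.coe_add, Submodule.coe_subtype, pow_succ, pow_succ, pow_succ,
          add_pow_card_pow]
        have h2 : β * ((w : V) ^ (Fintype.card K ^ m) * w) +
            β * ((w : V) ^ (Fintype.card K ^ m) * w) = 0 := CharTwo.add_self_eq_zero _
        linear_combination h2
      have h2 : ∀ w : W, ∑ z : W,
          ψ (Algebra.trace K V (β * (z : V) ^ (Fintype.card K ^ m + 1))) =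
          ∑ z : W, ψ (Algebra.trace K V (β * ((w + z : W) : V) ^ (Fintype.card K ^ m + 1))) := by
        intro w
        exact (Fintype.sum_equiv (Equiv.addLeft w) _ _ fun z => rfl).symm
      have h3 : ∀ w : W, ψ (Algebra.trace K V (β * (w : V) ^ (Fintype.card K ^ m + 1))) *
          ∑ z : W, ψ (Algebra.trace K V (β * (z : V) ^ (Fintype.card K ^ m + 1))) =
          ∑ z : W, ψ (Algebra.trace K V (β * (z : V) ^ (Fintype.card K ^ m + 1))) *
            ψ ((trB K m β (z : V)).comp W.subtype w) := by
        intro w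
        rw [h2 w, Finset.mul_sum]
        exact Finset.sum_congr rfl fun z _ => h1 w z
      rw [Finset.sum_mul, Finset.sum_congr rfl fun w _ => h3 w, Finset.sum_comm,
        Finset.sum_eq_single (0 : W)]
      · simp [trB_apply, zero_pow (pow_ne_zero m (Fintype.card_ne_zero (α := K)))]
      · intro z _ hz
        rw [← Finset.mul_sum, sum_char_eq_zero K ψ hψ, mul_zero]
        intro h0
        obtain ⟨w', hw', hne⟩ := hcon z z.2 (by simpa using hz)
        apply hne
        have := LinearMap.congr_fun h0 ⟨w', hw'⟩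
        rw [LinearMap.comp_apply, trB_apply] at this
        rw [← LinearMap.zero_apply (σ₁₂ := RingHom.id K) (⟨w', hw'⟩ : W), ← this]
        congr 1
        simp only [Submodule.subtype_apply]
        ring
      · intro h
        exact absurd (Finset.mem_univ _) h
    rw [hS, zero_mul] at hsq
    have : (Fintype.card W : ℂ) ≠ 0 := Nat.cast_ne_zero.mpr Fintype.card_ne_zero
    exact this hsq.symm

end Pool.Agent.Lib.CPlane
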