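import Pool.Agent.Lib.CPlane.P2Moore

/-!
# Part II, row A: reduction to a pair with a point of weight one; the basis
-/

namespace Pool.Agent.Lib.CPlane.P2

open Module Finset

theorem reduction {K E : Type} [Field K] [Field E] [Finite E] [CharP E 2] [Algebra K E]
    (G Y : Submodule K E) (hG : G ≠ ⊥) (hY : Y ≠ ⊥)
    (hii : ∀ b : E, b ≠ 0 → (∃ g ∈ G, ∃ y ∈ Y, g + b ^ 2 * y = b) →
      ∃ y ∈ Y, y ≠ 0 ∧ b ^ 2 * y ∈ G) :
    ∃ Z : Submodule K E, Z ≤ G ∧
      (∀ b : E, b ≠ 0 → (∃ g ∈ Z, ∃ y ∈ Y, g + b ^ 2 * y = b) →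
        ∃ y ∈ Y, y ≠ 0 ∧ b ^ 2 * y ∈ Z) ∧
      ∃ b : E, b ≠ 0 ∧ ∃ y0 ∈ Y, y0 ≠ 0 ∧ b ^ 2 * y0 ∈ Z ∧
        ∀ y ∈ Y, b ^ 2 * y ∈ Z → ∃ k : K, y = k • y0 := by
  classical
  have hfinsub : Finite (Submodule K E) := Finite.of_injective (fun S => (S : Set E))
    SetLike.coe_injective
  let P : Set (Submodule K E) := {Z | Z ≤ G ∧ ∀ b : E, b ≠ 0 →
    (∃ y ∈ Y, y ≠ 0 ∧ b ^ 2 * y ∈ G) → ∃ y ∈ Y, y ≠ 0 ∧ b ^ 2 * y ∈ Z}
  have hPG : G ∈ P := ⟨le_refl G, fun b _ h => h⟩
  obtain ⟨Z, hZmin⟩ := (Set.toFinite P).exists_minimal ⟨G, hPG⟩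
  have hZG : Z ≤ G := hZmin.prop.1
  have hZP := hZmin.prop.2
  refine ⟨Z, hZG, ?_, ?_⟩
  · rintro b hb ⟨g, hg, y, hy, h⟩
    exact hZP b hb (hii b hb ⟨g, hZG hg, y, hy, h⟩)
  · -- a nonzero element of `Z`
    obtain ⟨g, hg, hg0⟩ := Submodule.exists_mem_ne_zero_of_ne_bot hG
    obtain ⟨y, hy, hy0⟩ := Submodule.exists_mem_ne_zero_of_ne_bot hY
    have hsurj : Function.Surjective (frobenius E 2) :=
      Finite.surjective_of_injective (frobenius_inj E 2)
    obtain ⟨b, hb⟩ := hsurj (g / y)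
    rw [frobenius_def] at hb
    have hb0 : b ≠ 0 := by
      intro h
      rw [h, zero_pow two_ne_zero] at hb
      exact (div_ne_zero hg0 hy0) hb.symm
    have hby : b ^ 2 * y = g := by
      rw [hb]
      field_simp
    obtain ⟨y1, hy1, hy10, hy1Z⟩ := hZP b hb0 ⟨y, hy, hy0, by rw [hby]; exact hg⟩
    set w0 : E := b ^ 2 * y1 with hw0
    have hw00 : w0 ≠ 0 := mul_ne_zero (pow_ne_zero _ hb0) hy10
    obtain ⟨f, hf⟩ : ∃ f : Module.Dual K E, f w0 ≠ 0 := by
      by_contra hcon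
      apply hw00
      rw [← Module.forall_dual_apply_eq_zero_iff K w0]
      intro f
      by_contra h
      exact hcon ⟨f, h⟩
    have hZ' : Z ⊓ LinearMap.ker f ∉ P := by
      intro hmem
      have h1 := hZmin.le_of_le hmem inf_le_left
      have h2 := (h1 hy1Z).2
      exact hf h2
    have h3 : ¬ ∀ b : E, b ≠ 0 → (∃ y ∈ Y, y ≠ 0 ∧ b ^ 2 * y ∈ G) →
        ∃ y ∈ Y, y ≠ 0 ∧ b ^ 2 * y ∈ Z ⊓ LinearMap.ker f :=
      fun h => hZ' ⟨inf_le_left.trans hZG, h⟩
    push Not at h3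
    obtain ⟨b', hb'0, hex, hno⟩ := h3
    obtain ⟨y0, hy0Y, hy00, hy0Z⟩ := hZP b' hb'0 hex
    have hfy0 : f (b' ^ 2 * y0) ≠ 0 := fun h => hno y0 hy0Y hy00 ⟨hy0Z, h⟩
    refine ⟨b', hb'0, y0, hy0Y, hy00, hy0Z, ?_⟩
    intro y' hy' hy'Z
    refine ⟨f (b' ^ 2 * y') / f (b' ^ 2 * y0), ?_⟩
    set k := f (b' ^ 2 * y') / f (b' ^ 2 * y0) with hk
    by_contra hne
    have hd : y' - k • y0 ≠ 0 := sub_ne_zero.2 hne
    refine hno (y' - k • y0) (Y.sub_mem hy' (Y.smul_mem k hy0Y)) hd ⟨?_, ?_⟩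
    · rw [mul_sub, mul_smul_comm]
      exact Z.sub_mem hy'Z (Z.smul_mem k hy0Z)
    · change f _ = 0
      rw [mul_sub, mul_smul_comm, map_sub, map_smul, smul_eq_mul, hk, div_mul_cancel₀ _ hfy0,
        sub_self]

/-- a basis of `Z × Y` whose last vector is `(b² y0, y0)` -/
theorem exists_basis {K E : Type} [Field K] [Field E] [Finite E] [CharP E 2] [Algebra K E]
    (Z Y : Submodule K E) {b y0 : E} (hy0 : y0 ∈ Y) (hne : y0 ≠ 0) (hz : b ^ 2 * y0 ∈ Z)
    (huniq : ∀ y ∈ Y, b ^ 2 * y ∈ Z → ∃ k : K, y = k • y0) :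
    ∃ (n : ℕ) (z th : Fin (n + 1) → E), n + 1 = finrank K Z + finrank K Y ∧
      (∀ j, z j ∈ Z) ∧ (∀ j, th j ∈ Y) ∧
      (∀ x ∈ Z, ∀ y ∈ Y, ∃ c : Fin (n + 1) → K, lin z c = x ∧ lin th c = y) ∧
      (∀ c : Fin (n + 1) → K, lin z c = 0 → lin th c = 0 → c = 0) ∧
      z (Fin.last n) = b ^ 2 * y0 ∧ th (Fin.last n) = y0 ∧
      (∀ c : Fin n → K, lin (fun j : Fin n => z j.castSucc + b ^ 2 * th j.castSucc) c = 0 →
        c = 0) := by
  classical
  let ℓ : (Z × Y) →ₗ[K] E :=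
    { toFun := fun p => (p.1 : E) + b ^ 2 * (p.2 : E)
      map_add' := by
        intro p q
        simp only [Prod.fst_add, Prod.snd_add, Submodule.coe_add]
        ring
      map_smul' := by
        intro k p
        simp only [Prod.smul_fst, Prod.smul_snd, Submodule.coe_smul, RingHom.id_apply,
          mul_smul_comm, smul_add] }
  have hℓ : ∀ p : Z × Y, ℓ p = (p.1 : E) + b ^ 2 * (p.2 : E) := fun p => rfl
  let vs : Z × Y := (⟨b ^ 2 * y0, hz⟩, ⟨y0, hy0⟩)
  have hker : ∀ p : Z × Y, ℓ p = 0 → ∃ k : K, p = k • vs := by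
    intro p hp
    rw [hℓ] at hp
    have h1 : (p.1 : E) = b ^ 2 * (p.2 : E) := by
      rw [← sub_eq_zero, CharTwo.sub_eq_add]
      exact hp
    obtain ⟨k, hk⟩ := huniq p.2 p.2.2 (by rw [← h1]; exact p.1.2)
    refine ⟨k, ?_⟩
    apply Prod.ext
    · apply Subtype.ext
      change (p.1 : E) = k • (b ^ 2 * y0)
      rw [h1, hk, mul_smul_comm]
    · apply Subtype.ext
      exact hk
  have hℓvs : ℓ vs = 0 := by
    rw [hℓ]
    exact CharTwo.add_self_eq_zero _
  have hvs0 : vs ≠ 0 := by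
    intro h
    apply hne
    exact congrArg (fun p : Z × Y => (p.2 : E)) h
  set n := finrank K (LinearMap.range ℓ) with hn
  let B := Module.finBasis K (LinearMap.range ℓ)
  have hpre : ∀ j : Fin n, ∃ p : Z × Y, ℓ p = (B j : E) := fun j => LinearMap.mem_range.1 (B j).2
  choose u hu using hpre
  have hkerdim : finrank K (LinearMap.ker ℓ) = 1 := by
    have h1 : LinearMap.ker ℓ = Submodule.span K {vs} := by
      ext p
      rw [LinearMap.mem_ker, Submodule.mem_span_singleton]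
      constructor
      · intro h
        obtain ⟨k, hk⟩ := hker p h
        exact ⟨k, hk.symm⟩
      · rintro ⟨k, rfl⟩
        rw [map_smul, hℓvs, smul_zero]
    rw [h1]
    exact finrank_span_singleton hvs0
  have hrn := LinearMap.finrank_range_add_finrank_ker ℓ
  rw [hkerdim, Module.finrank_prod] at hrn
  refine ⟨n, Fin.snoc (fun j => ((u j).1 : E)) (b ^ 2 * y0),
    Fin.snoc (fun j => ((u j).2 : E)) y0, hrn, ?_, ?_, ?_, ?_, ?_, ?_, ?_⟩
  · intro j
    refine Fin.lastCases ?_ (fun j => ?_) j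
    · rw [Fin.snoc_last]; exact hz
    · rw [Fin.snoc_castSucc]; exact (u j).1.2
  · intro j
    refine Fin.lastCases ?_ (fun j => ?_) j
    · rw [Fin.snoc_last]; exact hy0
    · rw [Fin.snoc_castSucc]; exact (u j).2.2
  · intro x hx y hy
    let p : Z × Y := (⟨x, hx⟩, ⟨y, hy⟩)
    let c : Fin n → K := fun j => B.repr ⟨ℓ p, LinearMap.mem_range_self ℓ p⟩ j
    have h1 : ℓ (p - ∑ j, c j • u j) = 0 := by
      rw [map_sub, map_sum]
      simp only [map_smul, hu]
      have h2 := B.sum_repr ⟨ℓ p, LinearMap.mem_range_self ℓ p⟩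
      have h3 := congrArg (fun v : LinearMap.range ℓ => (v : E)) h2
      simp only [Submodule.coe_sum, Submodule.coe_smul] at h3
      rw [sub_eq_zero, ← h3]
    obtain ⟨k, hk⟩ := hker _ h1
    have h4 : p = ∑ j, c j • u j + k • vs := by
      rw [← hk]; abel
    refine ⟨Fin.snoc c k, ?_, ?_⟩
    · have h5 := congrArg (fun q : Z × Y => (q.1 : E)) h4
      simp only [Prod.fst_add, Prod.fst_sum, Prod.smul_fst, Submodule.coe_add, Submodule.coe_sum,
        Submodule.coe_smul] at h5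
      unfold lin
      rw [Fin.sum_univ_castSucc]
      simp only [Fin.snoc_castSucc, Fin.snoc_last]
      exact h5.symm
    · have h5 := congrArg (fun q : Z × Y => (q.2 : E)) h4
      simp only [Prod.snd_add, Prod.snd_sum, Prod.smul_snd, Submodule.coe_add, Submodule.coe_sum,
        Submodule.coe_smul] at h5
      unfold lin
      rw [Fin.sum_univ_castSucc]
      simp only [Fin.snoc_castSucc, Fin.snoc_last]
      exact h5.symm
  · intro c hc1 hc2
    unfold lin at hc1 hc2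
    rw [Fin.sum_univ_castSucc] at hc1 hc2
    simp only [Fin.snoc_castSucc, Fin.snoc_last] at hc1 hc2
    have h0 : (∑ j : Fin n, c j.castSucc • u j) + c (Fin.last n) • vs = 0 := by
      apply Prod.ext
      · apply Subtype.ext
        simp only [Prod.fst_add, Prod.fst_sum, Prod.smul_fst, Submodule.coe_add,
          Submodule.coe_sum, Submodule.coe_smul]
        exact hc1
      · apply Subtype.ext
        simp only [Prod.snd_add, Prod.snd_sum, Prod.smul_snd, Submodule.coe_add,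
          Submodule.coe_sum, Submodule.coe_smul]
        exact hc2
    have h1 := congrArg ℓ h0
    rw [map_add, map_sum, map_smul, hℓvs, smul_zero, add_zero, map_zero] at h1
    simp only [map_smul, hu] at h1
    have h2 : ∑ j : Fin n, c j.castSucc • B j = 0 := by
      apply Subtype.ext
      simp only [Submodule.coe_sum, Submodule.coe_smul]
      exact h1
    have h3 := Fintype.linearIndependent_iff.1 B.linearIndependent (fun j => c j.castSucc) h2
    have h4 : c (Fin.last n) • vs = 0 := by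
      rw [← h0]
      simp only [h3, zero_smul, Finset.sum_const_zero, zero_add]
    have h5 : c (Fin.last n) = 0 := by
      rcases smul_eq_zero.1 h4 with h | h
      · exact h
      · exact absurd h hvs0
    ext j
    refine Fin.lastCases ?_ (fun j => ?_) j
    · exact h5
    · exact h3 j
  · rw [Fin.snoc_last]
  · rw [Fin.snoc_last]
  · intro c hc
    unfold lin at hc
    simp only [Fin.snoc_castSucc] at hc
    have h2 : ∑ j : Fin n, c j • B j = 0 := by
      apply Subtype.ext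
      simp only [Submodule.coe_sum, Submodule.coe_smul, ← hu, hℓ]
      exact hc
    ext j
    exact Fintype.linearIndependent_iff.1 B.linearIndependent c h2 j

end Pool.Agent.Lib.CPlane.P2
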