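import Mathlib

/-!
# Part II, definitions
-/

namespace Pool.Agent.Lib.CPlane.P2

/-- the quadratic form `Σ τ_ij x_i x_j` -/
def Qf {A ι : Type} [CommRing A] [Fintype ι] (τ : Matrix ι ι A) (x : ι → A) : A :=
  ∑ i, ∑ j, τ i j * (x i * x j)

/-- its polar form `Σ τ_ij (x_i y_j + y_i x_j)` -/
def Bf {A ι : Type} [CommRing A] [Fintype ι] (τ : Matrix ι ι A) (x y : ι → A) : A :=
  ∑ i, ∑ j, τ i j * (x i * y j + y i * x j)

/-- the maximal minors of an `n × (n+1)` matrix (characteristic two: no signs) -/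
def Umin {A : Type} [CommRing A] {n : ℕ} (R : Matrix (Fin n) (Fin (n + 1)) A) (j : Fin (n + 1)) :
    A := (R.submatrix id j.succAbove).det

/-- the square matrix with first row `y`, followed by `R` -/
def cmat {A : Type} [CommRing A] {n : ℕ} (R : Matrix (Fin n) (Fin (n + 1)) A)
    (y : Fin (n + 1) → A) : Matrix (Fin (n + 1)) (Fin (n + 1)) A :=
  Matrix.of fun i j => (Fin.cons (y j) (fun k => R k j) : Fin (n + 1) → A) i

/-- the square matrix with first row `ε_i`, followed by `R` -/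
def cm {A : Type} [CommRing A] {n : ℕ} (R : Matrix (Fin n) (Fin (n + 1)) A) (i : Fin (n + 1)) :
    Matrix (Fin (n + 1)) (Fin (n + 1)) A :=
  cmat R (Pi.single i 1)

/-- the coefficients `b_k` of `B(U, .) = Σ b_k R_k`:
`b_k = Σ τ_ij det (ε_i ; R with row k replaced by ε_j)` -/
def bmin {A : Type} [CommRing A] {n : ℕ} (τ : Matrix (Fin (n + 1)) (Fin (n + 1)) A)
    (R : Matrix (Fin n) (Fin (n + 1)) A) (k : Fin n) : A :=
  ∑ i, ∑ j, τ i j * (cm R i).adjugate j k.succ

/-- linear combination of the `l j` with coefficients in `K` -/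
def lin {K A : Type} [CommSemiring K] [CommRing A] [Algebra K A] {n : ℕ} (l : Fin n → A)
    (c : Fin n → K) : A := ∑ j, c j • l j

/-- the Moore matrix with `n` rows: `l_j ^ (s ^ k)` -/
def RM {A : Type} [CommRing A] (n : ℕ) {ι : Type} (s : ℕ) (l : ι → A) : Matrix (Fin n) ι A :=
  Matrix.of fun k j => l j ^ s ^ (k : ℕ)

/-- `δ v_0(t)`, `v_0(t) = Σ t ^ (s ^ k) e_k`, `(e_k)` the dual basis of the rows of `RM` -/
def Uh {A : Type} [CommRing A] {N : ℕ} (s : ℕ) (l : Fin N → A) (t : A) : Fin N → A :=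
  (RM N s l).adjugate.mulVec (fun k => t ^ s ^ (k : ℕ))

/-- the linear forms `l(v) = z + X² θ` on basis vectors, in `E[X]` -/
noncomputable def lp {E : Type} [Field E] {N : ℕ} (z th : Fin N → E) (j : Fin N) :
    Polynomial E :=
  Polynomial.C (z j) + Polynomial.X ^ 2 * Polynomial.C (th j)

/-- the matrix `π_k + t_k ρ_k` over `E[t_0, .., t_(n-1)]` -/
noncomputable def Rt {E : Type} [Field E] {n : ℕ} (s : ℕ) (z th : Fin (n + 1) → E) :
    Matrix (Fin n) (Fin (n + 1)) (MvPolynomial (Fin n) E) :=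
  Matrix.of fun k j => MvPolynomial.C (z j ^ s ^ (k : ℕ)) +
    MvPolynomial.X k * MvPolynomial.C (th j ^ s ^ (k : ℕ))

end Pool.Agent.Lib.CPlane.P2
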