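import Pool.Agent.Lib.CPlane.P2Def

/-!
# Part II: functoriality of `Qf`, `Bf`, `Umin`, `bmin`; the relation `B(U, .) = Σ b_k R_k`
-/

namespace Pool.Agent.Lib.CPlane.P2

open Finset

theorem cmat_zero {A : Type} [CommRing A] {n : ℕ} (R : Matrix (Fin n) (Fin (n + 1)) A)
    (y : Fin (n + 1) → A) (j : Fin (n + 1)) : cmat R y 0 j = y j := rfl

theorem cmat_succ {A : Type} [CommRing A] {n : ℕ} (R : Matrix (Fin n) (Fin (n + 1)) A)
    (y : Fin (n + 1) → A) (k : Fin n) (j : Fin (n + 1)) : cmat R y k.succ j = R k j := rfl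

section map

variable {A B : Type} [CommRing A] [CommRing B] (f : A →+* B)

theorem Qf_map {ι : Type} [Fintype ι] (τ : Matrix ι ι A) (x : ι → A) :
    f (Qf τ x) = Qf (τ.map f) (fun i => f (x i)) := by
  simp only [Qf, map_sum, map_mul, Matrix.map_apply]

theorem Bf_map {ι : Type} [Fintype ι] (τ : Matrix ι ι A) (x y : ι → A) :
    f (Bf τ x y) = Bf (τ.map f) (fun i => f (x i)) (fun i => f (y i)) := by
  simp only [Bf, map_sum, map_mul, map_add, Matrix.map_apply]

theorem Umin_map {n : ℕ} (R : Matrix (Fin n) (Fin (n + 1)) A) (j : Fin (n + 1)) :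
    f (Umin R j) = Umin (R.map f) j := by
  unfold Umin
  rw [RingHom.map_det]
  rfl

theorem cm_map {n : ℕ} (R : Matrix (Fin n) (Fin (n + 1)) A) (i : Fin (n + 1)) :
    (cm R i).map f = cm (R.map f) i := by
  ext a b
  refine Fin.cases ?_ (fun a => ?_) a
  · simp only [cm, Matrix.map_apply, cmat_zero]
    by_cases h : b = i
    · subst h; simp
    · rw [Pi.single_eq_of_ne h, Pi.single_eq_of_ne h, map_zero]
  · simp only [cm, Matrix.map_apply, cmat_succ]

theorem bmin_map {n : ℕ} (τ : Matrix (Fin (n + 1)) (Fin (n + 1)) A)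
    (R : Matrix (Fin n) (Fin (n + 1)) A) (k : Fin n) :
    f (bmin τ R k) = bmin (τ.map f) (R.map f) k := by
  simp only [bmin, map_sum, map_mul, Matrix.map_apply]
  refine Finset.sum_congr rfl fun i _ => Finset.sum_congr rfl fun j _ => ?_
  congr 1
  have h := RingHom.map_adjugate f (cm R i)
  have h1 := congrFun (congrFun h j) k.succ
  rw [RingHom.mapMatrix_apply, RingHom.mapMatrix_apply, cm_map] at h1
  exact h1

end map

section char2

variable {A : Type} [CommRing A] [CharP A 2]

theorem neg_one_pow_char2 (k : ℕ) : (-1 : A) ^ k = 1 := by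
  have h : (-1 : A) = 1 := by
    rw [neg_eq_iff_add_eq_zero]
    exact CharTwo.add_self_eq_zero 1
  rw [h, one_pow]

/-- expansion of the determinant with first row `y` -/
theorem det_cmat {n : ℕ} (R : Matrix (Fin n) (Fin (n + 1)) A) (y : Fin (n + 1) → A) :
    (cmat R y).det = ∑ j, y j * Umin R j := by
  rw [Matrix.det_succ_row_zero]
  refine Finset.sum_congr rfl fun j _ => ?_
  rw [neg_one_pow_char2, one_mul, cmat_zero]
  rfl

theorem det_cm {n : ℕ} (R : Matrix (Fin n) (Fin (n + 1)) A) (i : Fin (n + 1)) :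
    (cm R i).det = Umin R i := by
  unfold cm
  rw [det_cmat, Finset.sum_eq_single i]
  · rw [Pi.single_eq_same, one_mul]
  · intro j _ hj
    rw [Pi.single_eq_of_ne hj, zero_mul]
  · intro h
    exact absurd (Finset.mem_univ i) h

/-- the vector of the minors is annihilated by the rows -/
theorem R_Umin {n : ℕ} (R : Matrix (Fin n) (Fin (n + 1)) A) (k : Fin n) :
    ∑ j, R k j * Umin R j = 0 := by
  rw [← det_cmat R (R k)]
  refine Matrix.det_zero_of_row_eq (i := 0) (j := k.succ) (Fin.succ_ne_zero k).symm ?_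
  ext j
  rw [cmat_zero, cmat_succ]

/-- Cramer: `U_i x_j + x_i U_j = Σ_k R_k(x) D_(ij,k)` -/
theorem Umin_mul {n : ℕ} (R : Matrix (Fin n) (Fin (n + 1)) A) (x : Fin (n + 1) → A)
    (i j : Fin (n + 1)) :
    Umin R i * x j + x i * Umin R j = ∑ k : Fin n, (cm R i).adjugate j k.succ *
      ∑ l, R k l * x l := by
  have h := congrFun (congrArg (fun M => Matrix.mulVec M x) (Matrix.adjugate_mul (cm R i))) j
  simp only [← Matrix.mulVec_mulVec] at h
  rw [Matrix.smul_mulVec, Matrix.one_mulVec, Pi.smul_apply, smul_eq_mul, det_cm] at h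
  rw [← h, Matrix.mulVec, dotProduct, Fin.sum_univ_succ]
  have h0 : (cm R i).adjugate j 0 = Umin R j := by
    rw [Matrix.adjugate_apply]
    have : (cm R i).updateRow 0 (Pi.single j 1) = cm R j := by
      ext a b
      refine Fin.cases ?_ (fun a => ?_) a
      · rw [Matrix.updateRow_self]
        rfl
      · rw [Matrix.updateRow_ne (Fin.succ_ne_zero a)]
        rfl
    rw [this, det_cm]
  have h1 : (cm R i).mulVec x 0 = x i := by
    simp only [Matrix.mulVec, dotProduct, cm, cmat_zero]
    rw [Finset.sum_eq_single i]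
    · rw [Pi.single_eq_same, one_mul]
    · intro j _ hj
      rw [Pi.single_eq_of_ne hj, zero_mul]
    · intro h
      exact absurd (Finset.mem_univ i) h
  have h2 : ∀ k : Fin n, (cm R i).mulVec x k.succ = ∑ l, R k l * x l := by
    intro k
    simp only [Matrix.mulVec, dotProduct, cm, cmat_succ]
  rw [h0, h1]
  simp only [h2]
  rw [add_comm, mul_comm (x i), ← add_assoc, CharTwo.add_self_eq_zero, zero_add]

/-- `B(U, x) = Σ b_k R_k(x)` -/
theorem Bf_Umin {n : ℕ} (τ : Matrix (Fin (n + 1)) (Fin (n + 1)) A)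
    (R : Matrix (Fin n) (Fin (n + 1)) A) (x : Fin (n + 1) → A) :
    Bf τ (Umin R) x = ∑ k, bmin τ R k * ∑ j, R k j * x j := by
  unfold Bf bmin
  simp only [Umin_mul]
  generalize hr : (fun k => ∑ j, R k j * x j) = r
  have hr' : ∀ k, ∑ j, R k j * x j = r k := fun k => congrFun hr k
  simp only [hr', Finset.mul_sum, Finset.sum_mul]
  rw [Finset.sum_congr rfl fun i _ => Finset.sum_comm, Finset.sum_comm]
  refine Finset.sum_congr rfl fun k _ => Finset.sum_congr rfl fun i _ =>
    Finset.sum_congr rfl fun j _ => ?_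
  rw [mul_assoc]

end char2

end Pool.Agent.Lib.CPlane.P2
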