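import Mathlib

/-!
# Part II: interface (row Q1)
-/

namespace Pool.Agent.Lib.CPlane

open Module

/-- (Q0) a sum of signs: an additive map `f : A → ZMod 2` on a finite group -/
theorem sum_sign {A : Type} [AddCommGroup A] [Fintype A] (f : A →+ ZMod 2) :
    ∑ x, (if f x = 0 then (1 : ℤ) else -1) = if f = 0 then (Fintype.card A : ℤ) else 0 := by
  by_cases hf : f = 0
  · rw [if_pos hf]
    subst hf
    simp
  · rw [if_neg hf]
    obtain ⟨a, ha⟩ : ∃ a, f a ≠ 0 := by
      by_contra h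
      push Not at h
      exact hf (AddMonoidHom.ext h)
    have h1 : ∑ x, (if f x = 0 then (1 : ℤ) else -1) =
        ∑ x, (if f (x + a) = 0 then (1 : ℤ) else -1) :=
      (Equiv.sum_comp (Equiv.addRight a) (fun x => if f x = 0 then (1 : ℤ) else -1)).symm
    have h2 : ∀ s t : ZMod 2, t ≠ 0 →
        (if s + t = 0 then (1 : ℤ) else -1) = - (if s = 0 then (1 : ℤ) else -1) := by
      decide
    have h3 : ∑ x, (if f (x + a) = 0 then (1 : ℤ) else -1) =
        - ∑ x, (if f x = 0 then (1 : ℤ) else -1) := by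
      rw [← Finset.sum_neg_distrib]
      refine Finset.sum_congr rfl fun x _ => ?_
      rw [map_add]
      exact h2 _ _ ha
    linarith

section

variable {K E : Type} [Field K] [Finite K] [CharP K 2] [Field E] [Finite E] [Algebra K E]

/-- the orthogonal space for the trace form -/
def orth (H : Submodule K E) : Submodule K E where
  carrier := {z | ∀ h ∈ H, Algebra.trace K E (z * h) = 0}
  zero_mem' := by intro h _; simp
  add_mem' := by
    intro x y hx hy h hh
    rw [add_mul, map_add, hx h hh, hy h hh, add_zero]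
  smul_mem' := by
    intro c x hx h hh
    rw [smul_mul_assoc, map_smul, hx h hh, smul_zero]

omit [Finite K] [CharP K 2] [Finite E] in
theorem mem_orth {H : Submodule K E} {z : E} :
    z ∈ orth H ↔ ∀ h ∈ H, Algebra.trace K E (z * h) = 0 := Iff.rfl

omit [CharP K 2] in
/-- (Q1a) -/
theorem finrank_orth (H : Submodule K E) :
    finrank K (orth H) + finrank K H = finrank K E := by
  have h1 : orth H = (Algebra.traceForm K E).orthogonal H := by
    ext z
    rw [mem_orth, LinearMap.BilinForm.mem_orthogonal_iff]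
    simp only [Algebra.traceForm_apply, mul_comm]
  rw [h1, LinearMap.BilinForm.finrank_orthogonal (traceForm_nondegenerate K E)]
  have h2 : finrank K H ≤ finrank K E := Submodule.finrank_le H
  omega

/-- (Q1b) = (i) -/
theorem exists_trace_ne (H Y : Submodule K E) (n : E → E)
    (hinj : ∀ h ∈ H, ∀ h' ∈ H, ∀ y ∈ Y, ∀ y' ∈ Y,
      h ^ 2 + h * y + n y = h' ^ 2 + h' * y' + n y' → h = h' ∧ y = y')
    (hdim : finrank K H + finrank K Y = finrank K E) :
    ∀ g ∈ orth H, g ≠ 0 → ∃ y ∈ Y, Algebra.trace K E (g * y) ≠ 0 := by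
  have : CharP E 2 := charP_of_injective_algebraMap (algebraMap K E).injective 2
  intro g hg hg0
  by_contra hcon
  push Not at hcon
  have hinf : H ⊓ Y = ⊥ := by
    rw [Submodule.eq_bot_iff]
    rintro z ⟨hzH, hzY⟩
    have h1 := hinj z hzH 0 H.zero_mem z hzY z hzY (by
      have h2 : (2 : E) = 0 := CharTwo.two_eq_zero
      linear_combination z ^ 2 * h2)
    exact h1.1
  have hsup : H ⊔ Y = ⊤ := by
    apply Submodule.eq_top_of_finrank_eq
    have h1 := Submodule.finrank_sup_add_finrank_inf_eq H Y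
    rw [hinf, finrank_bot, add_zero] at h1
    rw [h1, hdim]
  have h2 : ∀ x : E, Algebra.trace K E (g * x) = 0 := by
    intro x
    have hx : x ∈ H ⊔ Y := by rw [hsup]; trivial
    obtain ⟨h, hh, y, hy, rfl⟩ := Submodule.mem_sup.1 hx
    rw [mul_add, map_add, hg h hh, hcon y hy, add_zero]
  apply hg0
  refine (traceForm_nondegenerate K E).1 g fun x => ?_
  rw [Algebra.traceForm_apply]
  exact h2 x

/-- (Q1c) = (ii): the set of all `y ∈ Y` with `a + a ^ 2 y ∈ G` does not have exactly one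
element: `0 = Σ_(h,y) ψ (a² (h² + h y + n y)) = |H| Σ_(y : a + a² y ∈ G) ψ (a² n y)`,
`ψ = (-1) ^ (absolute trace)`. -/
theorem exists_second (H Y : Submodule K E) (n : E → E)
    (hinj : ∀ h ∈ H, ∀ h' ∈ H, ∀ y ∈ Y, ∀ y' ∈ Y,
      h ^ 2 + h * y + n y = h' ^ 2 + h' * y' + n y' → h = h' ∧ y = y')
    (hdim : finrank K H + finrank K Y = finrank K E) {a : E} (ha : a ≠ 0) {y : E} (hy : y ∈ Y)
    (hG : a + a ^ 2 * y ∈ orth H) : ∃ y' ∈ Y, y' ≠ 0 ∧ a ^ 2 * y' ∈ orth H := by
  classical
  by_contra hcon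
  push Not at hcon
  have hE2 : CharP E 2 := charP_of_injective_algebraMap (algebraMap K E).injective 2
  have := Fintype.ofFinite E
  have := Fintype.ofFinite K
  have := Fintype.ofFinite H
  have := Fintype.ofFinite Y
  let _ : Algebra (ZMod 2) E := ZMod.algebra E 2
  let _ : Algebra (ZMod 2) K := ZMod.algebra K 2
  have htow : IsScalarTower (ZMod 2) K E :=
    IsScalarTower.of_algebraMap_eq' (Subsingleton.elim _ _)
  -- the absolute trace
  set τ : E →+ ZMod 2 := (Algebra.trace (ZMod 2) E).toAddMonoidHom with hτ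
  have hτa : ∀ x, τ x = Algebra.trace (ZMod 2) E x := fun _ => rfl
  have hτsq : ∀ x, τ (x ^ 2) = τ x := by
    intro x
    rw [hτa, hτa]
    have h1 := Algebra.trace_eq_of_algEquiv
      (FiniteField.frobeniusAlgEquivOfAlgebraic (ZMod 2) E) x
    rw [← h1]
    congr 1
  have hτne : ∀ z : E, z ≠ 0 → ∃ x, τ (z * x) ≠ 0 := by
    intro z hz
    by_contra hc
    push Not at hc
    apply hz
    refine (traceForm_nondegenerate (ZMod 2) E).1 z fun x => ?_
    rw [Algebra.traceForm_apply]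
    exact hc x
  have hKne : ∀ z : K, z ≠ 0 → ∃ x, Algebra.trace (ZMod 2) K (z * x) ≠ 0 := by
    intro z hz
    by_contra hc
    push Not at hc
    apply hz
    refine (traceForm_nondegenerate (ZMod 2) K).1 z fun x => ?_
    rw [Algebra.traceForm_apply]
    exact hc x
  have hτorth : ∀ z : E, (∀ h ∈ H, τ (z * h) = 0) → z ∈ orth H := by
    intro z hz
    rw [mem_orth]
    intro h hh
    by_contra hne
    obtain ⟨k, hk⟩ := hKne _ hne
    apply hk
    have h1 := hz (k • h) (H.smul_mem k hh)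
    rw [hτa, ← Algebra.trace_trace (S := K), mul_smul_comm, map_smul, smul_eq_mul, mul_comm] at h1
    exact h1
  have hτorth' : ∀ z ∈ orth H, ∀ h ∈ H, τ (z * h) = 0 := by
    intro z hz h hh
    rw [hτa, ← Algebra.trace_trace (S := K), hz h hh, map_zero]
  -- the sum
  set sg : ZMod 2 → ℤ := fun t => if t = 0 then 1 else -1 with hsg
  have hsgadd : ∀ s t : ZMod 2, sg (s + t) = sg s * sg t := by
    rw [hsg]; decide
  have hsgne : ∀ t : ZMod 2, sg t ≠ 0 := by
    rw [hsg]; decide
  set Φ : H × Y → E := fun p => (p.1 : E) ^ 2 + p.1 * p.2 + n p.2 with hΦ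
  have hΦinj : Function.Injective Φ := by
    rintro ⟨⟨h, hh⟩, ⟨y, hy⟩⟩ ⟨⟨h', hh'⟩, ⟨y', hy'⟩⟩ heq
    obtain ⟨e1, e2⟩ := hinj h hh h' hh' y hy y' hy' heq
    subst e1 e2
    rfl
  have hΦbij : Function.Bijective Φ := by
    rw [Fintype.bijective_iff_injective_and_card]
    refine ⟨hΦinj, ?_⟩
    rw [Fintype.card_prod, Module.card_eq_pow_finrank (K := K) (V := H),
      Module.card_eq_pow_finrank (K := K) (V := Y), Module.card_eq_pow_finrank (K := K) (V := E),
      ← pow_add, hdim]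
  have hS1 : ∑ p : H × Y, sg (τ (a ^ 2 * Φ p)) = 0 := by
    rw [hΦbij.sum_comp (fun x => sg (τ (a ^ 2 * x)))]
    have h1 := sum_sign (τ.comp (AddMonoidHom.mulLeft (a ^ 2)))
    rw [if_neg] at h1
    · exact h1
    · intro h2
      obtain ⟨x, hx⟩ := hτne (a ^ 2) (pow_ne_zero _ ha)
      exact hx (DFunLike.congr_fun h2 x)
  set f : Y → H →+ ZMod 2 := fun y =>
    (τ.comp (AddMonoidHom.mulLeft (a + a ^ 2 * (y : E)))).comp H.subtype.toAddMonoidHom with hf
  have hfa : ∀ (y : Y) (h : H), f y h = τ ((a + a ^ 2 * (y : E)) * h) := fun _ _ => rfl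
  have hterm : ∀ p : H × Y, sg (τ (a ^ 2 * Φ p)) = sg (τ (a ^ 2 * n p.2)) * sg (f p.2 p.1) := by
    intro p
    rw [← hsgadd, hfa]
    congr 1
    have e1 : a ^ 2 * Φ p = (a * (p.1 : E)) ^ 2 + a ^ 2 * (p.2 : E) * p.1 + a ^ 2 * n p.2 := by
      rw [hΦ]; ring
    have e2 : (a + a ^ 2 * (p.2 : E)) * p.1 = a * p.1 + a ^ 2 * (p.2 : E) * p.1 := by ring
    rw [e1, e2, map_add, map_add, map_add, hτsq]
    ring
  have hS2 : ∑ p : H × Y, sg (τ (a ^ 2 * Φ p)) =
      ∑ y : Y, sg (τ (a ^ 2 * n y)) * (if f y = 0 then (Fintype.card H : ℤ) else 0) := by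
    rw [Fintype.sum_prod_type_right]
    refine Finset.sum_congr rfl fun y _ => ?_
    simp only [hterm]
    rw [← Finset.mul_sum]
    congr 1
    exact sum_sign (f y)
  have hfy : f ⟨y, hy⟩ = 0 := by
    ext h
    exact hτorth' _ hG h h.2
  have hfne : ∀ y' : Y, y' ≠ ⟨y, hy⟩ → f y' ≠ 0 := by
    intro y' hne h0
    have h1 : a + a ^ 2 * (y' : E) ∈ orth H := by
      apply hτorth
      intro h hh
      exact DFunLike.congr_fun h0 ⟨h, hh⟩
    have h2 : a ^ 2 * ((y' : E) - y) ∈ orth H := by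
      have h3 := (orth H).sub_mem h1 hG
      have h4 : a ^ 2 * ((y' : E) - y) = a + a ^ 2 * (y' : E) - (a + a ^ 2 * y) := by ring
      rwa [h4]
    refine hcon _ (Y.sub_mem y'.2 hy) ?_ h2
    intro h3
    apply hne
    exact Subtype.ext (sub_eq_zero.1 h3)
  rw [hS2, Finset.sum_eq_single (⟨y, hy⟩ : Y), if_pos hfy] at hS1
  · have h1 : (Fintype.card H : ℤ) ≠ 0 := by
      exact_mod_cast Fintype.card_ne_zero
    exact (mul_ne_zero (hsgne _) h1) hS1
  · intro y' _ hne
    rw [if_neg (hfne y' hne), mul_zero]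
  · intro h
    exact absurd (Finset.mem_univ _) h

end

end Pool.Agent.Lib.CPlane
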