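import Pool.Agent.Lib.CPlane.Main
import Pool.Agent.Lib.CPlane.FieldOf

/-!
# Spreads with a cyclic regular group (row S2)
-/

namespace Pool.Agent.Lib.CPlane

open Module

/-- the number of components of a spread -/
theorem spread_card (K : Type) {V : Type} [Field K] [Fintype K] [AddCommGroup V] [Module K V]
    {m : ℕ} (hm : 0 < m) (hV : finrank K V = 2 * m) (S : Set (Submodule K V))
    (hdim : ∀ U ∈ S, finrank K U = m) (hcov : ∀ v : V, v ≠ 0 → ∃! U, U ∈ S ∧ v ∈ U) :
    Nat.card S = Fintype.card K ^ m + 1 := by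
  classical
  have hfd : FiniteDimensional K V := Module.finite_of_finrank_pos (by rw [hV]; omega)
  have hVfin : Finite V := Module.finite_of_finite K
  have := Fintype.ofFinite V
  have hSfin : Finite (Submodule K V) := Finite.of_injective (fun U => (U : Set V))
    SetLike.coe_injective
  have := Fintype.ofFinite S
  -- the map from the non-zero vectors
  let c : {v : V // v ≠ 0} → S := fun v => ⟨(hcov v.1 v.2).choose, (hcov v.1 v.2).choose_spec.1.1⟩
  have hc : ∀ v : {v : V // v ≠ 0}, ∀ U : S, c v = U ↔ v.1 ∈ (U : Submodule K V) := by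
    intro v U
    constructor
    · intro h
      have h1 := (hcov v.1 v.2).choose_spec.1.2
      rw [← h]
      exact h1
    · intro h
      exact Subtype.ext ((hcov v.1 v.2).choose_spec.2 U ⟨U.2, h⟩).symm
  have h1 : Fintype.card {v : V // v ≠ 0} =
      ∑ U : S, Fintype.card {v : {v : V // v ≠ 0} // c v = U} := by
    rw [← Fintype.card_sigma]
    exact Fintype.card_congr (Equiv.sigmaFiberEquiv c).symm
  have h2 : ∀ U : S, Fintype.card {v : {v : V // v ≠ 0} // c v = U} =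
      Fintype.card K ^ m - 1 := by
    intro U
    have h3 : Fintype.card {x : (U : Submodule K V) // x ≠ 0} = Fintype.card K ^ m - 1 := by
      rw [Fintype.card_subtype_compl, Fintype.card_subtype_eq,
        Module.card_eq_pow_finrank (K := K), hdim U U.2]
    rw [← h3]
    refine Fintype.card_congr
      { toFun := fun v => ⟨⟨v.1.1, (hc _ _).1 v.2⟩, fun h => v.1.2 (congrArg Subtype.val h)⟩
        invFun := fun x => ⟨⟨x.1.1, fun h => x.2 (Subtype.ext h)⟩, (hc _ _).2 x.1.2⟩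
        left_inv := fun v => rfl
        right_inv := fun x => rfl }
  have h4 : Fintype.card {v : V // v ≠ 0} = Fintype.card K ^ (2 * m) - 1 := by
    rw [Fintype.card_subtype_compl, Fintype.card_subtype_eq,
      Module.card_eq_pow_finrank (K := K), hV]
  rw [h4, Finset.sum_congr rfl (fun U _ => h2 U), Finset.sum_const, Finset.card_univ,
    smul_eq_mul] at h1
  have h5 : 2 ≤ Fintype.card K ^ m := le_trans Fintype.one_lt_card
    (Nat.le_self_pow (by omega) _)
  have h6 : Fintype.card K ^ (2 * m) - 1 =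
      (Fintype.card K ^ m + 1) * (Fintype.card K ^ m - 1) := by
    obtain ⟨q, hq⟩ := Nat.exists_eq_add_of_le h5
    have h7 : Fintype.card K ^ (2 * m) = Fintype.card K ^ m * Fintype.card K ^ m := by
      rw [← pow_add, two_mul]
    rw [h7, hq]
    have h8 : 2 + q - 1 = q + 1 := by omega
    have h9 : (2 + q) * (2 + q) = (2 + q + 1) * (q + 1) + 1 := by ring
    rw [h8, h9]
    omega
  rw [h6] at h1
  rw [Nat.card_eq_fintype_card]
  exact (Nat.eq_of_mul_eq_mul_right (by omega) h1).symm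

/-- (S2) the spread -/
theorem spread (K : Type) {V : Type} [Field K] [Fintype K] [AddCommGroup V] [Module K V]
    [CharP K 2] {m a : ℕ} (hm : m = 2 ^ a) (hV : finrank K V = 2 * m)
    (hs : 4 ≤ Fintype.card K) (S : Set (Submodule K V)) (hdim : ∀ U ∈ S, finrank K U = m)
    (hcov : ∀ v : V, v ≠ 0 → ∃! U, U ∈ S ∧ v ∈ U) (g : V ≃ₗ[K] V)
    (hg : ∀ U ∈ S, U.map (g : V →ₗ[K] V) ∈ S)
    (hreg : ∀ U ∈ S, ∀ U' ∈ S, ∃! h : V ≃ₗ[K] V, h ∈ Subgroup.zpowers g ∧
      U.map (h : V →ₗ[K] V) = U') :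
    ∃ (L : Type) (_ : Field L) (_ : Algebra K L) (e : V ≃ₗ[K] L), finrank K L = 2 * m ∧
      ∀ U : Submodule K V, U ∈ S ↔ ∃ v : L, v ≠ 0 ∧ U.map (e : V →ₗ[K] L) = lineE K m v := by
  classical
  have hm0 : 0 < m := by rw [hm]; positivity
  have hne : NeZero m := ⟨by omega⟩
  have hfd : FiniteDimensional K V := Module.finite_of_finrank_pos (by rw [hV]; omega)
  have hnt : Nontrivial V := Module.nontrivial_of_finrank_pos (R := K) (by rw [hV]; omega)
  have hVfin : Finite V := Module.finite_of_finite K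
  have hGfin : Finite (V ≃ₗ[K] V) := Finite.of_injective (fun e => (e : V → V))
    DFunLike.coe_injective
  have hSfin : Finite (Submodule K V) := Finite.of_injective (fun U => (U : Set V))
    SetLike.coe_injective
  have hgk : ∀ k : ℕ, ∀ U ∈ S, U.map ((g ^ k : V ≃ₗ[K] V) : V →ₗ[K] V) ∈ S := by
    intro k
    induction k with
    | zero =>
      intro U hU
      have : U.map ((g ^ 0 : V ≃ₗ[K] V) : V →ₗ[K] V) = U := by
        rw [pow_zero]
        exact Submodule.map_id U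
      rwa [this]
    | succ k ih =>
      intro U hU
      have : U.map ((g ^ (k + 1) : V ≃ₗ[K] V) : V →ₗ[K] V) =
          (U.map ((g ^ k : V ≃ₗ[K] V) : V →ₗ[K] V)).map (g : V →ₗ[K] V) := by
        rw [pow_succ', ← Submodule.map_comp]
        rfl
      rw [this]
      exact hg _ (ih U hU)
  obtain ⟨x₀, hx₀⟩ := exists_ne (0 : V)
  obtain ⟨U₀, ⟨hU₀, hxU₀⟩, -⟩ := hcov x₀ hx₀
  have hpow : ∀ h : V ≃ₗ[K] V, h ∈ Subgroup.zpowers g → ∃ k : ℕ, g ^ k = h := by
    intro h hh
    rw [← mem_powers_iff_mem_zpowers] at hh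
    exact hh
  -- the order of `g`
  have hcardS := spread_card K hm0 hV S hdim hcov
  have hord : orderOf g = Fintype.card K ^ m + 1 := by
    rw [← hcardS, ← Nat.card_zpowers]
    refine Nat.card_congr (Equiv.ofBijective (fun h : Subgroup.zpowers g =>
      (⟨U₀.map ((h : V ≃ₗ[K] V) : V →ₗ[K] V), by
        obtain ⟨k, hk⟩ := hpow _ h.2
        rw [← hk]
        exact hgk k U₀ hU₀⟩ : S)) ⟨?_, ?_⟩)
    · intro h h' hhh
      have h1 : U₀.map ((h : V ≃ₗ[K] V) : V →ₗ[K] V) = U₀.map ((h' : V ≃ₗ[K] V) : V →ₗ[K] V) :=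
        congrArg Subtype.val hhh
      obtain ⟨h0, -, hu⟩ := hreg U₀ hU₀ (U₀.map ((h' : V ≃ₗ[K] V) : V →ₗ[K] V)) (by
        obtain ⟨k, hk⟩ := hpow _ h'.2
        rw [← hk]
        exact hgk k U₀ hU₀)
      exact Subtype.ext ((hu _ ⟨h.2, h1⟩).trans (hu _ ⟨h'.2, rfl⟩).symm)
    · rintro ⟨U, hU⟩
      obtain ⟨h, ⟨hh, hhU⟩, -⟩ := hreg U₀ hU₀ U hU
      exact ⟨⟨h, hh⟩, Subtype.ext hhU⟩
  -- the powers of `g` act freely
  have hfree' : ∀ k : ℕ, ∀ U ∈ S, ∀ v : V, v ≠ 0 → v ∈ U → (g ^ k) v ∈ U → g ^ k = 1 := by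
    intro k U hU v hv hvU hgv
    have h1 : U.map ((g ^ k : V ≃ₗ[K] V) : V →ₗ[K] V) = U := by
      obtain ⟨U', -, hu⟩ := hcov ((g ^ k) v) (by
        rw [Ne, LinearEquiv.map_eq_zero_iff]
        exact hv)
      exact (hu _ ⟨hgk k U hU, ⟨v, hvU, rfl⟩⟩).trans (hu _ ⟨hU, hgv⟩).symm
    obtain ⟨h0, -, hu⟩ := hreg U hU U hU
    have h2 := hu (g ^ k) ⟨Subgroup.pow_mem _ (Subgroup.mem_zpowers g) k, h1⟩
    have h3 := hu 1 ⟨Subgroup.one_mem _, Submodule.map_id U⟩
    rw [h2, h3]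
  have hfree : ∀ k : ℕ, ∀ v : V, v ≠ 0 → (g ^ k) v = v → g ^ k = 1 := by
    intro k v hv hgv
    obtain ⟨U, ⟨hU, hvU⟩, -⟩ := hcov v hv
    exact hfree' k U hU v hv hvU (by rw [hgv]; exact hvU)
  obtain ⟨L, hL1, hL2, e, ζ, hζ, heζ⟩ := exists_field K hV g hord hfree
  have hLfr : finrank K L = 2 * m := by rw [← e.finrank_eq, hV]
  have hLfd : FiniteDimensional K L := Module.finite_of_finrank_pos (by rw [hLfr]; omega)
  have hLfin : Finite L := Module.finite_of_finite K
  have heζk : ∀ (k : ℕ) (v : V), e ((g ^ k) v) = ζ ^ k * e v := by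
    intro k v
    induction k with
    | zero => rw [pow_zero, pow_zero, one_mul]; rfl
    | succ k ih =>
      have h1 : (g ^ (k + 1)) v = g ((g ^ k) v) := by rw [pow_succ']; rfl
      rw [h1, heζ, ih, pow_succ', mul_assoc]
  have hζ0 : ζ ≠ 0 := by
    intro h0
    rw [h0, orderOf_zero] at hζ
    omega
  have hprim : IsPrimitiveRoot ζ (Fintype.card K ^ m + 1) := by
    rw [← hζ]
    exact IsPrimitiveRoot.orderOf ζ
  -- the image of `U₀`
  let W : Submodule K L := U₀.map (e : V →ₗ[K] L)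
  have hW : finrank K W = m := by
    rw [← hdim U₀ hU₀]
    exact (LinearEquiv.finrank_eq (e.submoduleMap U₀)).symm
  have hN : ∀ x ∈ W, ∀ y ∈ W,
      x ^ (Fintype.card K ^ m + 1) = y ^ (Fintype.card K ^ m + 1) → x = y := by
    rintro _ ⟨x, hx, rfl⟩ _ ⟨y, hy, rfl⟩ hxy
    simp only [LinearEquiv.coe_coe] at hxy ⊢
    by_cases hy0 : y = 0
    · subst hy0
      rw [map_zero, zero_pow (by omega)] at hxy
      rw [map_zero]
      exact pow_eq_zero_iff (by omega) |>.1 hxy
    · have hey : e y ≠ 0 := by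
        rw [Ne, LinearEquiv.map_eq_zero_iff]
        exact hy0
      have h1 : (e x / e y) ^ (Fintype.card K ^ m + 1) = 1 := by
        rw [div_pow, hxy, div_self (pow_ne_zero _ hey)]
      obtain ⟨k, -, hk⟩ := hprim.eq_pow_of_pow_eq_one h1
      have h2 : e x = e ((g ^ k) y) := by
        rw [heζk, hk, div_mul_cancel₀ _ hey]
      have h3 : x = (g ^ k) y := e.injective h2
      have h4 := hfree' k U₀ hU₀ y hy0 hy (by rw [← h3]; exact hx)
      rw [h3, h4]
      rfl
  obtain ⟨v₀, hv₀, hWv₀⟩ := exists_eq_lineE K hm hLfr hs W hW hN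
  have key : ∀ U ∈ S, ∃ v : L, v ≠ 0 ∧ U.map (e : V →ₗ[K] L) = lineE K m v := by
    intro U hU
    obtain ⟨h, ⟨hh, hhU⟩, -⟩ := hreg U₀ hU₀ U hU
    obtain ⟨k, rfl⟩ := hpow h hh
    have hζk : ζ ^ k ≠ 0 := pow_ne_zero _ hζ0
    refine ⟨ζ ^ k * v₀, mul_ne_zero hζk hv₀, ?_⟩
    ext y
    constructor
    · rintro ⟨z, hz, rfl⟩
      rw [← hhU] at hz
      obtain ⟨x, hx, rfl⟩ := hz
      have h1 : e x ∈ lineE K m v₀ := by
        rw [← hWv₀]
        exact ⟨x, hx, rfl⟩
      rw [mem_lineE] at h1 ⊢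
      simp only [LinearEquiv.coe_coe]
      rw [heζk, mul_pow, mul_pow]
      calc (ζ ^ k) ^ (Fintype.card K ^ m) * e x ^ (Fintype.card K ^ m) * (ζ ^ k * v₀) =
          (ζ ^ k) ^ (Fintype.card K ^ m) * ζ ^ k * (e x ^ (Fintype.card K ^ m) * v₀) := by ring
        _ = (ζ ^ k) ^ (Fintype.card K ^ m) * ζ ^ k * (e x * v₀ ^ (Fintype.card K ^ m)) := by
          rw [h1]
        _ = _ := by ring
    · intro hy
      rw [mem_lineE, mul_pow] at hy
      have h1 : (ζ ^ k)⁻¹ * y ∈ lineE K m v₀ := by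
        rw [mem_lineE, mul_pow, inv_pow]
        have h2 : (ζ ^ k) ^ (Fintype.card K ^ m) ≠ 0 := pow_ne_zero _ hζk
        field_simp
        linear_combination hy
      rw [← hWv₀] at h1
      obtain ⟨x, hx, hxy⟩ := h1
      have h2 : y = e ((g ^ k) x) := by
        rw [heζk]
        simp only [LinearEquiv.coe_coe] at hxy
        rw [hxy, mul_inv_cancel_left₀ hζk]
      rw [h2]
      refine ⟨(g ^ k) x, ?_, rfl⟩
      rw [← hhU]
      exact ⟨x, hx, rfl⟩
  refine ⟨L, hL1, hL2, e, hLfr, fun U => ⟨key U, ?_⟩⟩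
  rintro ⟨v, hv, hUv⟩
  have hu : e.symm v ≠ 0 := by
    rw [Ne, LinearEquiv.map_eq_zero_iff]
    exact hv
  obtain ⟨U', ⟨hU', hvU'⟩, -⟩ := hcov (e.symm v) hu
  obtain ⟨v', hv', hUv'⟩ := key U' hU'
  have h1 : v ∈ lineE K m v' := by
    rw [← hUv']
    exact ⟨e.symm v, hvU', e.apply_symm_apply v⟩
  rw [mem_lineE] at h1
  have h2 : lineE K m v = lineE K m v' := by
    ext x
    rw [mem_lineE, mem_lineE]
    constructor
    · intro hx
      apply mul_left_cancel₀ hv
      linear_combination v' * hx + x * h1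
    · intro hx
      apply mul_left_cancel₀ hv'
      linear_combination v * hx - x * h1
  have h3 : U = U' := by
    apply Submodule.map_injective_of_injective (f := (e : V →ₗ[K] L)) e.injective
    rw [hUv, hUv', h2]
  rw [h3]
  exact hU'

end Pool.Agent.Lib.CPlane
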