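import Pool.Agent.Lib.CPlane.Aff
import Pool.Agent.Lib.CPlane.Spread

/-!
# The affine plane (row S3)
-/

namespace Pool.Agent.Lib.CPlane

open Module

/-- (S3) the plane theorem -/
theorem plane_aux (K : Type) {V : Type} [Field K] [Fintype K] [CharP K 2] [AddCommGroup V]
    [Module K V] {a m : ℕ} (hm : m = 2 ^ a) (hs : 4 ≤ Fintype.card K)
    (A : AffinePlane V (Fintype.card K ^ m))
    (htrans : ∀ L ∈ A.lines, ∀ v : V, (fun x => v + x) '' L ∈ A.lines)
    (hker : ∀ L ∈ A.lines, (0 : V) ∈ L → ∃ U : Submodule K V, (U : Set V) = L)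
    (G : Subgroup (Equiv.Perm V)) (hG : IsCollineationGroup A G)
    (hflag : SharplyFlagTransitive A G)
    (hcyc : ∃ g : V ≃ₗ[K] V, (g.toEquiv : Equiv.Perm V) ∈ G ∧
      ∀ h ∈ G, h 0 = 0 → h ∈ Subgroup.zpowers (g.toEquiv : Equiv.Perm V)) :
    Desarguesian A := by
  classical
  have hm0 : 0 < m := by rw [hm]; positivity
  have hne : NeZero m := ⟨by omega⟩
  have hK1 : 1 < Fintype.card K := Fintype.one_lt_card
  have hq2 : 2 ≤ Fintype.card K ^ m := le_trans hK1 (Nat.le_self_pow (by omega) _)
  obtain ⟨g, hgG, hcyc⟩ := hcyc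
  -- `V` is finite of dimension `2m`
  have hVfin : Finite V := by
    apply Nat.finite_of_card_ne_zero
    rw [A.card_points]
    positivity
  have := Fintype.ofFinite V
  have hfd : FiniteDimensional K V := Module.Finite.of_finite
  have hV : finrank K V = 2 * m := by
    have h1 := Module.card_eq_pow_finrank (K := K) (V := V)
    have h2 := A.card_points
    rw [Nat.card_eq_fintype_card, h1, ← pow_mul, mul_comm m 2] at h2
    exact Nat.pow_right_injective hK1 h2
  -- the spread
  let S : Set (Submodule K V) := {U | (U : Set V) ∈ A.lines}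
  have hS : ∀ U : Submodule K V, U ∈ S ↔ (U : Set V) ∈ A.lines := fun _ => Iff.rfl
  have hdim : ∀ U ∈ S, finrank K U = m := by
    intro U hU
    have h1 := A.card_line _ hU
    have h2 := Module.card_eq_pow_finrank (K := K) (V := U)
    have h3 : (U : Set V).ncard = Fintype.card U := by
      rw [← Nat.card_eq_fintype_card]
      rfl
    rw [h3, h2] at h1
    exact Nat.pow_right_injective hK1 h1
  have hcov : ∀ v : V, v ≠ 0 → ∃! U, U ∈ S ∧ v ∈ U := by
    intro v hv
    obtain ⟨L, ⟨hL, h0L, hvL⟩, hu⟩ := A.join 0 v hv.symm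
    obtain ⟨U, hU⟩ := hker L hL h0L
    refine ⟨U, ⟨by rw [hS, hU]; exact hL, ?_⟩, ?_⟩
    · rw [← SetLike.mem_coe, hU]
      exact hvL
    · rintro U' ⟨hU', hvU'⟩
      apply SetLike.coe_injective
      rw [hU]
      exact hu _ ⟨hU', U'.zero_mem, hvU'⟩
  have himg : ∀ (h : V ≃ₗ[K] V) (U : Submodule K V),
      ((h.toEquiv : Equiv.Perm V) : V → V) '' (U : Set V) =
        (U.map (h : V →ₗ[K] V) : Submodule K V) := fun h U => rfl
  have hg : ∀ U ∈ S, U.map (g : V →ₗ[K] V) ∈ S := by
    intro U hU
    rw [hS, ← himg]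
    exact hG _ hgG _ hU
  let θ : (V ≃ₗ[K] V) →* Equiv.Perm V :=
    { toFun := fun h => h.toEquiv
      map_one' := rfl
      map_mul' := fun _ _ => rfl }
  have hθ : ∀ h : V ≃ₗ[K] V, θ h = h.toEquiv := fun _ => rfl
  have hθinj : Function.Injective θ := by
    intro h h' hhh
    exact LinearEquiv.toEquiv_injective hhh
  have hθG : ∀ h ∈ Subgroup.zpowers g, θ h ∈ G := by
    intro h hh
    obtain ⟨k, rfl⟩ := hh
    change θ (g ^ k) ∈ G
    rw [map_zpow]
    exact Subgroup.zpow_mem _ hgG k
  have hreg : ∀ U ∈ S, ∀ U' ∈ S, ∃! h : V ≃ₗ[K] V, h ∈ Subgroup.zpowers g ∧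
      U.map (h : V →ₗ[K] V) = U' := by
    intro U hU U' hU'
    obtain ⟨γ, ⟨hγG, hγ0, hγU⟩, hu⟩ := hflag 0 U hU U.zero_mem 0 U' hU' U'.zero_mem
    obtain ⟨k, hk⟩ := hcyc γ hγG hγ0
    have hγ : θ (g ^ k) = γ := by
      rw [map_zpow]
      exact hk
    refine ⟨g ^ k, ⟨⟨k, rfl⟩, ?_⟩, ?_⟩
    · apply SetLike.coe_injective
      rw [← himg, ← hγU, ← hγ]
      rfl
    · rintro h ⟨hh, hhU⟩
      apply hθinj
      rw [hγ]
      refine hu _ ⟨hθG h hh, ?_, ?_⟩
      · exact map_zero h
      · rw [← hhU]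
        rfl
  obtain ⟨L, hL1, hL2, e, hLfr, hiff⟩ := spread K hm hV hs S hdim hcov g hg hreg
  have hLfd : FiniteDimensional K L := Module.finite_of_finrank_pos (by rw [hLfr]; omega)
  have hLfin : Finite L := Module.finite_of_finite K
  obtain ⟨E, hE, hmemE⟩ := exists_subfield K hLfr
  have hEL : finrank E L = 2 := by
    have h1 := Module.finrank_mul_finrank K E L
    rw [hE, hLfr, mul_comm 2 m] at h1
    exact Nat.eq_of_mul_eq_mul_left hm0 h1
  have hEE : finrank E (E × E) = 2 := by
    rw [Module.finrank_prod, Module.finrank_self]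
  have hELfd : FiniteDimensional E L := Module.finite_of_finrank_pos (by rw [hEL]; norm_num)
  let f : L ≃ₗ[E] (E × E) := LinearEquiv.ofFinrankEq L (E × E) (by rw [hEL, hEE])
  let ε : V ≃ E × E := e.toEquiv.trans f.toEquiv
  have hε : ∀ x, ε x = f (e x) := fun _ => rfl
  -- the lines `E v`
  have hlineE : ∀ v : L, v ≠ 0 → ∀ x, x ∈ lineE K m v ↔ ∃ t : E, x = t • v := by
    intro v hv x
    have hvq : v ^ (Fintype.card K ^ m) ≠ 0 := pow_ne_zero _ hv
    constructor
    · intro hx
      rw [mem_lineE] at hx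
      have h1 : x / v ∈ E := by
        rw [hmemE, div_pow]
        field_simp
        rw [hx, mul_comm]
      refine ⟨⟨_, h1⟩, ?_⟩
      change x = x / v * v
      rw [div_mul_cancel₀ _ hv]
    · rintro ⟨t, rfl⟩
      rw [mem_lineE]
      change ((t : L) * v) ^ (Fintype.card K ^ m) * v = (t : L) * v * v ^ (Fintype.card K ^ m)
      rw [mul_pow, (hmemE t).1 t.2]
      ring
  refine ⟨E, inferInstance, ε, ?_, ?_⟩
  · have := Fintype.ofFinite E
    rw [Nat.card_eq_fintype_card, Module.card_eq_pow_finrank (K := K), hE]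
  · intro M
    constructor
    · intro hM
      have hMne : M.Nonempty := by
        rw [← Set.ncard_pos (Set.toFinite _), A.card_line M hM]
        omega
      obtain ⟨p, hp⟩ := hMne
      have h1 := htrans M hM (-p)
      obtain ⟨U, hU⟩ := hker _ h1 ⟨p, hp, neg_add_cancel p⟩
      have hUS : U ∈ S := by
        rw [hS, hU]
        exact h1
      obtain ⟨v, hv, hUv⟩ := (hiff U).1 hUS
      have hmem : ∀ x, x ∈ M ↔ e (x - p) ∈ lineE K m v := by
        intro x
        rw [← hUv]
        constructor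
        · intro hx
          refine ⟨x - p, ?_, rfl⟩
          rw [hU]
          exact ⟨x, hx, by rw [sub_eq_neg_add]⟩
        · rintro ⟨y, hy, hyx⟩
          have h2 : y = x - p := e.injective hyx
          rw [hU] at hy
          obtain ⟨z, hz, hzy⟩ := hy
          have h3 : z = x := by
            rw [h2] at hzy
            simp only at hzy
            rw [sub_eq_neg_add] at hzy
            exact add_left_cancel hzy
          rwa [← h3]
      refine ⟨ε p, f v, ?_, ?_⟩
      · rw [Ne, LinearEquiv.map_eq_zero_iff]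
        exact hv
      · ext y
        obtain ⟨x, rfl⟩ := ε.surjective y
        rw [Set.mem_image_equiv, Equiv.symm_apply_apply, hmem, hlineE v hv]
        simp only [Set.mem_ofPred_eq]
        constructor
        · rintro ⟨t, ht⟩
          refine ⟨t, ?_⟩
          rw [hε, hε, ← map_smul, ← ht, ← map_add, ← map_add, add_sub_cancel]
        · rintro ⟨t, ht⟩
          refine ⟨t, ?_⟩
          rw [hε, hε, ← map_smul, ← map_add] at ht
          have h2 := f.injective ht
          rw [map_sub, h2, add_sub_cancel_left]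
    · rintro ⟨p, d, hd, hMd⟩
      obtain ⟨p', rfl⟩ := ε.surjective p
      obtain ⟨v, rfl⟩ := f.surjective d
      have hv : v ≠ 0 := by
        rintro rfl
        exact hd (map_zero f)
      let U : Submodule K V := Submodule.comap (e : V →ₗ[K] L) (lineE K m v)
      have hU : U ∈ S := by
        rw [hiff]
        exact ⟨v, hv, Submodule.map_comap_eq_of_surjective e.surjective _⟩
      have h1 := htrans _ hU p'
      have h2 : (fun x => p' + x) '' (U : Set V) = M := by
        ext x
        have h3 : x ∈ M ↔ ε x ∈ ε '' M := by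
          rw [Set.mem_image_equiv, Equiv.symm_apply_apply]
        rw [h3, hMd]
        simp only [Set.mem_ofPred_eq]
        constructor
        · rintro ⟨y, hy, rfl⟩
          obtain ⟨t, ht⟩ := (hlineE v hv _).1 (show e y ∈ lineE K m v from hy)
          refine ⟨t, ?_⟩
          rw [hε, hε, ← map_smul, ← map_add, ← ht, ← map_add]
        · rintro ⟨t, ht⟩
          rw [hε, hε, ← map_smul, ← map_add] at ht
          have h4 := f.injective ht
          refine ⟨x - p', ?_, add_sub_cancel _ _⟩
          change e (x - p') ∈ lineE K m v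
          rw [hlineE v hv]
          exact ⟨t, by rw [map_sub, h4, add_sub_cancel_left]⟩
      rw [← h2]
      exact h1

/-- the plane theorem -/
theorem plane (K : Type) {V : Type} [Field K] [Fintype K] [CharP K 2] [AddCommGroup V]
    [Module K V] (a : ℕ) (hs : 4 ≤ Fintype.card K)
    (A : AffinePlane V (Fintype.card K ^ 2 ^ a))
    (htrans : ∀ L ∈ A.lines, ∀ v : V, (fun x => v + x) '' L ∈ A.lines)
    (hker : ∀ L ∈ A.lines, (0 : V) ∈ L → ∃ U : Submodule K V, (U : Set V) = L)
    (G : Subgroup (Equiv.Perm V)) (hG : IsCollineationGroup A G)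
    (hflag : SharplyFlagTransitive A G)
    (hcyc : ∃ g : V ≃ₗ[K] V, (g.toEquiv : Equiv.Perm V) ∈ G ∧
      ∀ h ∈ G, h 0 = 0 → h ∈ Subgroup.zpowers (g.toEquiv : Equiv.Perm V)) :
    Desarguesian A :=
  plane_aux K rfl hs A htrans hker G hG hflag hcyc

end Pool.Agent.Lib.CPlane
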