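import Pool.Agent.Lib.CPlane.IT8

/-!
# The plane assembly, with Part II as a hypothesis on the field
-/

namespace Pool.Agent.Lib.CPlane

open Module

/-- the statement of Part II over the field `K` -/
def PT (K : Type) [Field K] [Fintype K] : Prop :=
  ∀ (E : Type) [Field E] [Finite E] [Algebra K E] (a : ℕ), finrank K E = 2 ^ a →
    ∀ (H Y : Submodule K E) (n : E → E),
    (∀ h ∈ H, ∀ h' ∈ H, ∀ y ∈ Y, ∀ y' ∈ Y,
      h ^ 2 + h * y + n y = h' ^ 2 + h' * y' + n y' → h = h' ∧ y = y') →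
    finrank K H + finrank K Y = finrank K E → 2 * finrank K Y < finrank K E → Y = ⊥

/-- Part II if `|K| ≥ 4` -/
theorem pt_of_four {K : Type} [Field K] [Fintype K] [CharP K 2] (hs : 4 ≤ Fintype.card K) :
    PT K := fun _ _ _ _ _ hE H Y n h1 h2 h3 => partTwo hE hs H Y n h1 h2 h3.le

section G1

variable (K : Type) {V : Type} [Field K] [Fintype K] [Field V] [Finite V] [Algebra K V]

/-- (M2) from `dim (W ∩ E v) > m / 2` to `W = E v` -/
theorem eq_lineG [CharP K 2] {m a : ℕ} [NeZero m] (hm : m = 2 ^ a) (hV : finrank K V = 2 * m)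
    (hP : PT K) (W : Submodule K V) (hW : finrank K W = m)
    (hN : ∀ x ∈ W, ∀ y ∈ W, x ^ (Fintype.card K ^ m + 1) = y ^ (Fintype.card K ^ m + 1) → x = y)
    {v : V} (hv : v ≠ 0) (h : m < 2 * finrank K (W ⊓ lineE K m v : Submodule K V)) :
    W = lineE K m v := by
  classical
  have hV2 := charP_V K (V := V)
  obtain ⟨E, hE, hmemE⟩ := exists_subfield K hV
  have hEfin : Finite E := inferInstance
  -- the maps
  let μ : V →ₗ[K] V := LinearMap.mulLeft K v
  have hμ : ∀ x, μ x = v * x := fun _ => rfl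
  have hμinj : Function.Injective μ := by
    intro x y hxy
    exact mul_left_cancel₀ hv hxy
  have hμsurj : Function.Surjective μ := fun x => ⟨v⁻¹ * x, by
    rw [hμ, mul_inv_cancel_left₀ hv]⟩
  let W' : Submodule K V := Submodule.comap μ W
  have hmapW' : Submodule.map μ W' = W := Submodule.map_comap_eq_of_surjective hμsurj W
  have hW' : finrank K W' = m := by
    rw [← hW]
    conv_rhs => rw [← hmapW']
    exact (LinearEquiv.finrank_eq (Submodule.equivMapOfInjective μ hμinj W')).symm ▸ rfl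
  have hN' : ∀ x ∈ W', ∀ y ∈ W',
      x ^ (Fintype.card K ^ m + 1) = y ^ (Fintype.card K ^ m + 1) → x = y := by
    intro x hx y hy hxy
    apply hμinj
    apply hN _ hx _ hy
    rw [hμ, hμ, mul_pow, mul_pow, hxy]
  let tr : V →ₗ[K] V := theta K m 1
  have htr : ∀ x, tr x = x + x ^ (Fintype.card K ^ m) := by
    intro x
    change x + 1 * x ^ (Fintype.card K ^ m) = _
    rw [one_mul]
  have htrE : ∀ x, tr x ∈ E := by
    intro x
    rw [hmemE, htr, add_pow_card, pow_pow_card K hV, add_comm]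
  let ι : E →ₗ[K] V := E.val.toLinearMap
  have hι : ∀ x : E, ι x = (x : V) := fun _ => rfl
  have hιinj : Function.Injective ι := fun x y hxy => Subtype.ext hxy
  let H : Submodule K E := Submodule.comap ι W'
  let Y : Submodule K E := Submodule.comap ι (Submodule.map tr W')
  have hch : ∀ y : E, y ∈ Y → ∃ w ∈ W', tr w = (y : V) := fun y hy => hy
  let wc : E → V := fun y => if hy : y ∈ Y then (hch y hy).choose else 0
  have hwc : ∀ y ∈ Y, wc y ∈ W' ∧ tr (wc y) = (y : V) := by
    intro y hy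
    have h1 := (hch y hy).choose_spec
    simp only [wc, dif_pos hy]
    exact h1
  have hNE : ∀ w : V, w ^ (Fintype.card K ^ m + 1) ∈ E := by
    intro w
    rw [hmemE, ← pow_mul, mul_comm, pow_mul, pow_succ, pow_pow_card K hV, pow_succ, mul_comm]
  let n : E → E := fun y => ⟨wc y ^ (Fintype.card K ^ m + 1), hNE _⟩
  have hinj : ∀ h ∈ H, ∀ h' ∈ H, ∀ y ∈ Y, ∀ y' ∈ Y,
      h ^ 2 + h * y + n y = h' ^ 2 + h' * y' + n y' → h = h' ∧ y = y' := by
    intro h hh h' hh' y hy y' hy' heq
    obtain ⟨hw1, hw2⟩ := hwc y hy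
    obtain ⟨hw1', hw2'⟩ := hwc y' hy'
    have e1 := norm_add K (m := m) (w := wc y) ((hmemE h).1 h.2)
    have e2 := norm_add K (m := m) (w := wc y') ((hmemE h').1 h'.2)
    have e3 : ((h : V) + wc y) ^ (Fintype.card K ^ m + 1) =
        ((h' : V) + wc y') ^ (Fintype.card K ^ m + 1) := by
      rw [e1, e2, ← htr, ← htr, hw2, hw2']
      exact congrArg Subtype.val heq
    have e4 := hN' _ (W'.add_mem hh hw1) _ (W'.add_mem hh' hw1') e3
    have e5 : tr ((h : V) + wc y) = tr ((h' : V) + wc y') := congrArg tr e4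
    have e6 : ∀ x : E, tr (x : V) = 0 := by
      intro x
      rw [htr, (hmemE x).1 x.2, CharTwo.add_self_eq_zero]
    rw [map_add, map_add, e6, e6, zero_add, zero_add, hw2, hw2'] at e5
    have e7 : y = y' := Subtype.ext e5
    subst e7
    exact ⟨Subtype.ext (add_right_cancel e4), rfl⟩
  have hdim : finrank K H + finrank K Y = finrank K E := by
    have h1 := LinearMap.finrank_range_add_finrank_ker (tr.domRestrict W')
    rw [LinearMap.range_domRestrict] at h1
    have h2 : finrank K Y = finrank K (Submodule.map tr W') := by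
      have h3 : Submodule.map ι Y = Submodule.map tr W' := by
        apply le_antisymm
        · rintro _ ⟨y, hy, rfl⟩
          exact hy
        · rintro _ ⟨w, hw, rfl⟩
          exact ⟨⟨tr w, htrE w⟩, ⟨w, hw, rfl⟩, rfl⟩
      rw [← h3]
      exact LinearEquiv.finrank_eq (Submodule.equivMapOfInjective ι hιinj Y)
    have h4 : finrank K H = finrank K (LinearMap.ker (tr.domRestrict W')) := by
      have h5 : Submodule.map ι H = Submodule.map W'.subtype
          (LinearMap.ker (tr.domRestrict W')) := by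
        apply le_antisymm
        · rintro _ ⟨x, hx, rfl⟩
          refine ⟨⟨ι x, hx⟩, ?_, rfl⟩
          change tr (ι x) = 0
          rw [hι, htr, (hmemE x).1 x.2, CharTwo.add_self_eq_zero]
        · rintro _ ⟨⟨x, hx⟩, hx', rfl⟩
          have h6 : x + x ^ (Fintype.card K ^ m) = 0 := by
            rw [← htr]
            exact hx'
          have h7 : x ∈ E := (hmemE x).2 (CharTwo.add_eq_zero.1 h6).symm
          exact ⟨⟨x, h7⟩, hx, rfl⟩
      rw [LinearEquiv.finrank_eq (Submodule.equivMapOfInjective ι hιinj H), h5,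
        Submodule.finrank_map_subtype_eq]
    rw [h2, h4, add_comm, h1, hW', hE]
  have hHW : Submodule.map μ (Submodule.map ι H) = W ⊓ lineE K m v := by
    apply le_antisymm
    · rintro _ ⟨_, ⟨x, hx, rfl⟩, rfl⟩
      refine ⟨hx, ?_⟩
      rw [hμ, hι]
      change (v * (x : V)) ^ (Fintype.card K ^ m) * v = v * (x : V) * v ^ (Fintype.card K ^ m)
      rw [mul_pow, (hmemE x).1 x.2]
      ring
    · rintro x ⟨hx, hx'⟩
      have h1 : x ^ (Fintype.card K ^ m) * v = x * v ^ (Fintype.card K ^ m) := hx'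
      have hvq : v ^ (Fintype.card K ^ m) ≠ 0 := pow_ne_zero _ hv
      have h2 : v⁻¹ * x ∈ E := by
        rw [hmemE, mul_pow, inv_pow]
        field_simp
        rw [h1, mul_comm]
      refine ⟨v⁻¹ * x, ⟨⟨_, h2⟩, ?_, rfl⟩, by rw [hμ, mul_inv_cancel_left₀ hv]⟩
      change v * (v⁻¹ * x) ∈ W
      rwa [mul_inv_cancel_left₀ hv]
  have hHW' : finrank K H = finrank K (W ⊓ lineE K m v : Submodule K V) := by
    rw [← hHW, LinearEquiv.finrank_eq (Submodule.equivMapOfInjective ι hιinj H),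
      LinearEquiv.finrank_eq (Submodule.equivMapOfInjective μ hμinj (Submodule.map ι H))]
  have hY : Y = ⊥ := by
    refine hP E a (by rw [hE, hm]) H Y n hinj hdim ?_
    rw [hE] at hdim ⊢
    omega
  rw [hY, finrank_bot, add_zero] at hdim
  have hHtop : H = ⊤ := Submodule.eq_top_of_finrank_eq hdim
  apply le_antisymm
  · have h1 : W ⊓ lineE K m v = W := by
      apply Submodule.eq_of_le_of_finrank_eq inf_le_left
      rw [← hHW', hdim, hE, hW]
    rw [← h1]
    exact inf_le_right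
  · intro x hx
    have h1 : x ^ (Fintype.card K ^ m) * v = x * v ^ (Fintype.card K ^ m) := hx
    have hvq : v ^ (Fintype.card K ^ m) ≠ 0 := pow_ne_zero _ hv
    have h2 : v⁻¹ * x ∈ E := by
      rw [hmemE, mul_pow, inv_pow]
      field_simp
      rw [h1, mul_comm]
    have h3 : (⟨_, h2⟩ : E) ∈ H := by
      rw [hHtop]
      trivial
    have h4 : v * (v⁻¹ * x) ∈ W := h3
    rwa [mul_inv_cancel_left₀ hv] at h4
/-- (M3) the theorem -/
theorem exists_eq_lineG [CharP K 2] {m a : ℕ} (hm : m = 2 ^ a) (hV : finrank K V = 2 * m)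
    (hP : PT K) (W : Submodule K V) (hW : finrank K W = m)
    (hN : ∀ x ∈ W, ∀ y ∈ W,
      x ^ (Fintype.card K ^ m + 1) = y ^ (Fintype.card K ^ m + 1) → x = y) :
    ∃ v : V, v ≠ 0 ∧ W = lineE K m v := by
  have : NeZero m := ⟨by rw [hm]; positivity⟩
  have hV2 := charP_V K (V := V)
  have hΩ2 : CharP (AlgebraicClosure V) 2 :=
    charP_of_injective_algebraMap (algebraMap V (AlgebraicClosure V)).injective 2
  obtain ⟨e, -, he⟩ := FiniteField.card K 2
  have hprime : Fact (Nat.Prime 2) := ⟨Nat.prime_two⟩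
  let Ω := AlgebraicClosure V
  let τ : Ω ≃+* Ω := iterateFrobeniusEquiv Ω 2 e
  have hτ : ∀ x, τ x = x ^ Fintype.card K := by
    intro x
    rw [he]
    exact iterateFrobeniusEquiv_def Ω 2 e x
  let X : Submodule Ω (Zs m Ω) := Submodule.span Ω (Mo K m Ω '' (W : Set V))
  have hfix : ∀ x : V, Phi m τ (Mo K m Ω x) = Mo K m Ω x := Phi_Mo K hV τ hτ
  have hX1 : ∀ z ∈ X, Phi m τ z ∈ X := by
    intro z hz
    induction hz using Submodule.span_induction with
    | mem z hz =>
      obtain ⟨x, hx, rfl⟩ := hz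
      rw [hfix]
      exact Submodule.subset_span ⟨x, hx, rfl⟩
    | zero =>
      rw [map_zero]
      exact X.zero_mem
    | add x y _ _ hx hy =>
      rw [map_add]
      exact X.add_mem hx hy
    | smul c x _ hx =>
      rw [Phi_smul]
      exact X.smul_mem _ hx
  have hX2 : ∀ z ∈ X, (Phi m τ).symm z ∈ X := by
    intro z hz
    induction hz using Submodule.span_induction with
    | mem z hz =>
      obtain ⟨x, hx, rfl⟩ := hz
      have h1 : (Phi m τ).symm (Mo K m Ω x) = Mo K m Ω x := by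
        rw [AddEquiv.symm_apply_eq, hfix]
      rw [h1]
      exact Submodule.subset_span ⟨x, hx, rfl⟩
    | zero =>
      rw [map_zero]
      exact X.zero_mem
    | add x y _ _ hx hy =>
      rw [map_add]
      exact X.add_mem hx hy
    | smul c x _ hx =>
      have h1 : (Phi m τ).symm (c • x) = τ.symm c • (Phi m τ).symm x := by
        rw [AddEquiv.symm_apply_eq, Phi_smul, AddEquiv.apply_symm_apply,
          RingEquiv.apply_symm_apply]
      rw [h1]
      exact X.smul_mem _ hx
  let C : Cfg m Ω :=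
    { X := X
      τ := τ
      finrank_X := by rw [finrank_span_Mo K hV, hW]
      mem_iff := fun z => ⟨fun h => by
        have := hX2 _ h
        rwa [AddEquiv.symm_apply_apply] at this, hX1 z⟩ }
  have hinf : Infinite Ω := IsAlgClosed.instInfinite
  obtain ⟨D, hDX, hDm, hDΦ, hDB, hDnz⟩ := partOne C (a := a) hm
    (fun t => rad_ne_bot K hV W hW hN t)
  obtain ⟨v, hv, hle⟩ := exists_line K hV W τ hτ D hDX hDΦ hDB hDnz
  exact ⟨v, hv, eq_lineG K hm hV hP W hW hN hv (by omega)⟩
end G1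

/-- (S2) the spread -/
theorem spreadG (K : Type) {V : Type} [Field K] [Fintype K] [AddCommGroup V] [Module K V]
    [CharP K 2] {m a : ℕ} (hm : m = 2 ^ a) (hV : finrank K V = 2 * m)
    (hP : PT K) (S : Set (Submodule K V)) (hdim : ∀ U ∈ S, finrank K U = m)
    (hcov : ∀ v : V, v ≠ 0 → ∃! U, U ∈ S ∧ v ∈ U) (g : V ≃ₗ[K] V)
    (hg : ∀ U ∈ S, U.map (g : V →ₗ[K] V) ∈ S)
    (hreg : ∀ U ∈ S, ∀ U' ∈ S, ∃! h : V ≃ₗ[K] V, h ∈ Subgroup.zpowers g ∧
      U.map (h : V →ₗ[K] V) = U') :
    ∃ (L : Type) (_ : Field L) (_ : Algebra K L) (e : V ≃ₗ[K] L), finrank K L = 2 * m ∧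
      ∀ U : Submodule K V, U ∈ S ↔ ∃ v : L, v ≠ 0 ∧ U.map (e : V →ₗ[K] L) = lineE K m v := by
  classical
  have hm0 : 0 < m := by rw [hm]; positivity
  have hne : NeZero m := ⟨by omega⟩
  have hfd : FiniteDimensional K V := Module.finite_of_finrank_pos (by rw [hV]; omega)
  have hnt : Nontrivial V := Module.nontrivial_of_finrank_pos (R := K) (by rw [hV]; omega)
  have hVfin : Finite V := Module.finite_of_finite K
  have hGfin : Finite (V ≃ₗ[K] V) := Finite.of_injective (fun e => (e : V → V))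
    DFunLike.coe_injective
  have hSfin : Finite (Submodule K V) := Finite.of_injective (fun U => (U : Set V))
    SetLike.coe_injective
  have hgk : ∀ k : ℕ, ∀ U ∈ S, U.map ((g ^ k : V ≃ₗ[K] V) : V →ₗ[K] V) ∈ S := by
    intro k
    induction k with
    | zero =>
      intro U hU
      have : U.map ((g ^ 0 : V ≃ₗ[K] V) : V →ₗ[K] V) = U := by
        rw [pow_zero]
        exact Submodule.map_id U
      rwa [this]
    | succ k ih =>
      intro U hU
      have : U.map ((g ^ (k + 1) : V ≃ₗ[K] V) : V →ₗ[K] V) =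
          (U.map ((g ^ k : V ≃ₗ[K] V) : V →ₗ[K] V)).map (g : V →ₗ[K] V) := by
        rw [pow_succ', ← Submodule.map_comp]
        rfl
      rw [this]
      exact hg _ (ih U hU)
  obtain ⟨x₀, hx₀⟩ := exists_ne (0 : V)
  obtain ⟨U₀, ⟨hU₀, hxU₀⟩, -⟩ := hcov x₀ hx₀
  have hpow : ∀ h : V ≃ₗ[K] V, h ∈ Subgroup.zpowers g → ∃ k : ℕ, g ^ k = h := by
    intro h hh
    rw [← mem_powers_iff_mem_zpowers] at hh
    exact hh
  -- the order of `g`
  have hcardS := spread_card K hm0 hV S hdim hcov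
  have hord : orderOf g = Fintype.card K ^ m + 1 := by
    rw [← hcardS, ← Nat.card_zpowers]
    refine Nat.card_congr (Equiv.ofBijective (fun h : Subgroup.zpowers g =>
      (⟨U₀.map ((h : V ≃ₗ[K] V) : V →ₗ[K] V), by
        obtain ⟨k, hk⟩ := hpow _ h.2
        rw [← hk]
        exact hgk k U₀ hU₀⟩ : S)) ⟨?_, ?_⟩)
    · intro h h' hhh
      have h1 : U₀.map ((h : V ≃ₗ[K] V) : V →ₗ[K] V) = U₀.map ((h' : V ≃ₗ[K] V) : V →ₗ[K] V) :=
        congrArg Subtype.val hhh
      obtain ⟨h0, -, hu⟩ := hreg U₀ hU₀ (U₀.map ((h' : V ≃ₗ[K] V) : V →ₗ[K] V)) (by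
        obtain ⟨k, hk⟩ := hpow _ h'.2
        rw [← hk]
        exact hgk k U₀ hU₀)
      exact Subtype.ext ((hu _ ⟨h.2, h1⟩).trans (hu _ ⟨h'.2, rfl⟩).symm)
    · rintro ⟨U, hU⟩
      obtain ⟨h, ⟨hh, hhU⟩, -⟩ := hreg U₀ hU₀ U hU
      exact ⟨⟨h, hh⟩, Subtype.ext hhU⟩
  -- the powers of `g` act freely
  have hfree' : ∀ k : ℕ, ∀ U ∈ S, ∀ v : V, v ≠ 0 → v ∈ U → (g ^ k) v ∈ U → g ^ k = 1 := by
    intro k U hU v hv hvU hgv
    have h1 : U.map ((g ^ k : V ≃ₗ[K] V) : V →ₗ[K] V) = U := by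
      obtain ⟨U', -, hu⟩ := hcov ((g ^ k) v) (by
        rw [Ne, LinearEquiv.map_eq_zero_iff]
        exact hv)
      exact (hu _ ⟨hgk k U hU, ⟨v, hvU, rfl⟩⟩).trans (hu _ ⟨hU, hgv⟩).symm
    obtain ⟨h0, -, hu⟩ := hreg U hU U hU
    have h2 := hu (g ^ k) ⟨Subgroup.pow_mem _ (Subgroup.mem_zpowers g) k, h1⟩
    have h3 := hu 1 ⟨Subgroup.one_mem _, Submodule.map_id U⟩
    rw [h2, h3]
  have hfree : ∀ k : ℕ, ∀ v : V, v ≠ 0 → (g ^ k) v = v → g ^ k = 1 := by
    intro k v hv hgv
    obtain ⟨U, ⟨hU, hvU⟩, -⟩ := hcov v hv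
    exact hfree' k U hU v hv hvU (by rw [hgv]; exact hvU)
  obtain ⟨L, hL1, hL2, e, ζ, hζ, heζ⟩ := exists_field K hV g hord hfree
  have hLfr : finrank K L = 2 * m := by rw [← e.finrank_eq, hV]
  have hLfd : FiniteDimensional K L := Module.finite_of_finrank_pos (by rw [hLfr]; omega)
  have hLfin : Finite L := Module.finite_of_finite K
  have heζk : ∀ (k : ℕ) (v : V), e ((g ^ k) v) = ζ ^ k * e v := by
    intro k v
    induction k with
    | zero => rw [pow_zero, pow_zero, one_mul]; rfl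
    | succ k ih =>
      have h1 : (g ^ (k + 1)) v = g ((g ^ k) v) := by rw [pow_succ']; rfl
      rw [h1, heζ, ih, pow_succ', mul_assoc]
  have hζ0 : ζ ≠ 0 := by
    intro h0
    rw [h0, orderOf_zero] at hζ
    omega
  have hprim : IsPrimitiveRoot ζ (Fintype.card K ^ m + 1) := by
    rw [← hζ]
    exact IsPrimitiveRoot.orderOf ζ
  -- the image of `U₀`
  let W : Submodule K L := U₀.map (e : V →ₗ[K] L)
  have hW : finrank K W = m := by
    rw [← hdim U₀ hU₀]
    exact (LinearEquiv.finrank_eq (e.submoduleMap U₀)).symm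
  have hN : ∀ x ∈ W, ∀ y ∈ W,
      x ^ (Fintype.card K ^ m + 1) = y ^ (Fintype.card K ^ m + 1) → x = y := by
    rintro _ ⟨x, hx, rfl⟩ _ ⟨y, hy, rfl⟩ hxy
    simp only [LinearEquiv.coe_coe] at hxy ⊢
    by_cases hy0 : y = 0
    · subst hy0
      rw [map_zero, zero_pow (by omega)] at hxy
      rw [map_zero]
      exact pow_eq_zero_iff (by omega) |>.1 hxy
    · have hey : e y ≠ 0 := by
        rw [Ne, LinearEquiv.map_eq_zero_iff]
        exact hy0
      have h1 : (e x / e y) ^ (Fintype.card K ^ m + 1) = 1 := by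
        rw [div_pow, hxy, div_self (pow_ne_zero _ hey)]
      obtain ⟨k, -, hk⟩ := hprim.eq_pow_of_pow_eq_one h1
      have h2 : e x = e ((g ^ k) y) := by
        rw [heζk, hk, div_mul_cancel₀ _ hey]
      have h3 : x = (g ^ k) y := e.injective h2
      have h4 := hfree' k U₀ hU₀ y hy0 hy (by rw [← h3]; exact hx)
      rw [h3, h4]
      rfl
  obtain ⟨v₀, hv₀, hWv₀⟩ := exists_eq_lineG K hm hLfr hP W hW hN
  have key : ∀ U ∈ S, ∃ v : L, v ≠ 0 ∧ U.map (e : V →ₗ[K] L) = lineE K m v := by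
    intro U hU
    obtain ⟨h, ⟨hh, hhU⟩, -⟩ := hreg U₀ hU₀ U hU
    obtain ⟨k, rfl⟩ := hpow h hh
    have hζk : ζ ^ k ≠ 0 := pow_ne_zero _ hζ0
    refine ⟨ζ ^ k * v₀, mul_ne_zero hζk hv₀, ?_⟩
    ext y
    constructor
    · rintro ⟨z, hz, rfl⟩
      rw [← hhU] at hz
      obtain ⟨x, hx, rfl⟩ := hz
      have h1 : e x ∈ lineE K m v₀ := by
        rw [← hWv₀]
        exact ⟨x, hx, rfl⟩
      rw [mem_lineE] at h1 ⊢
      simp only [LinearEquiv.coe_coe]
      rw [heζk, mul_pow, mul_pow]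
      calc (ζ ^ k) ^ (Fintype.card K ^ m) * e x ^ (Fintype.card K ^ m) * (ζ ^ k * v₀) =
          (ζ ^ k) ^ (Fintype.card K ^ m) * ζ ^ k * (e x ^ (Fintype.card K ^ m) * v₀) := by ring
        _ = (ζ ^ k) ^ (Fintype.card K ^ m) * ζ ^ k * (e x * v₀ ^ (Fintype.card K ^ m)) := by
          rw [h1]
        _ = _ := by ring
    · intro hy
      rw [mem_lineE, mul_pow] at hy
      have h1 : (ζ ^ k)⁻¹ * y ∈ lineE K m v₀ := by
        rw [mem_lineE, mul_pow, inv_pow]
        have h2 : (ζ ^ k) ^ (Fintype.card K ^ m) ≠ 0 := pow_ne_zero _ hζk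
        field_simp
        linear_combination hy
      rw [← hWv₀] at h1
      obtain ⟨x, hx, hxy⟩ := h1
      have h2 : y = e ((g ^ k) x) := by
        rw [heζk]
        simp only [LinearEquiv.coe_coe] at hxy
        rw [hxy, mul_inv_cancel_left₀ hζk]
      rw [h2]
      refine ⟨(g ^ k) x, ?_, rfl⟩
      rw [← hhU]
      exact ⟨x, hx, rfl⟩
  refine ⟨L, hL1, hL2, e, hLfr, fun U => ⟨key U, ?_⟩⟩
  rintro ⟨v, hv, hUv⟩
  have hu : e.symm v ≠ 0 := by
    rw [Ne, LinearEquiv.map_eq_zero_iff]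
    exact hv
  obtain ⟨U', ⟨hU', hvU'⟩, -⟩ := hcov (e.symm v) hu
  obtain ⟨v', hv', hUv'⟩ := key U' hU'
  have h1 : v ∈ lineE K m v' := by
    rw [← hUv']
    exact ⟨e.symm v, hvU', e.apply_symm_apply v⟩
  rw [mem_lineE] at h1
  have h2 : lineE K m v = lineE K m v' := by
    ext x
    rw [mem_lineE, mem_lineE]
    constructor
    · intro hx
      apply mul_left_cancel₀ hv
      linear_combination v' * hx + x * h1
    · intro hx
      apply mul_left_cancel₀ hv'
      linear_combination v * hx - x * h1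
  have h3 : U = U' := by
    apply Submodule.map_injective_of_injective (f := (e : V →ₗ[K] L)) e.injective
    rw [hUv, hUv', h2]
  rw [h3]
  exact hU'
/-- (S3) the plane theorem -/
theorem plane_auxG (K : Type) {V : Type} [Field K] [Fintype K] [CharP K 2] [AddCommGroup V]
    [Module K V] {a m : ℕ} (hm : m = 2 ^ a) (hP : PT K)
    (A : AffinePlane V (Fintype.card K ^ m))
    (htrans : ∀ L ∈ A.lines, ∀ v : V, (fun x => v + x) '' L ∈ A.lines)
    (hker : ∀ L ∈ A.lines, (0 : V) ∈ L → ∃ U : Submodule K V, (U : Set V) = L)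
    (G : Subgroup (Equiv.Perm V)) (hG : IsCollineationGroup A G)
    (hflag : SharplyFlagTransitive A G)
    (hcyc : ∃ g : V ≃ₗ[K] V, (g.toEquiv : Equiv.Perm V) ∈ G ∧
      ∀ h ∈ G, h 0 = 0 → h ∈ Subgroup.zpowers (g.toEquiv : Equiv.Perm V)) :
    Desarguesian A := by
  classical
  have hm0 : 0 < m := by rw [hm]; positivity
  have hne : NeZero m := ⟨by omega⟩
  have hK1 : 1 < Fintype.card K := Fintype.one_lt_card
  have hq2 : 2 ≤ Fintype.card K ^ m := le_trans hK1 (Nat.le_self_pow (by omega) _)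
  obtain ⟨g, hgG, hcyc⟩ := hcyc
  -- `V` is finite of dimension `2m`
  have hVfin : Finite V := by
    apply Nat.finite_of_card_ne_zero
    rw [A.card_points]
    positivity
  have := Fintype.ofFinite V
  have hfd : FiniteDimensional K V := Module.Finite.of_finite
  have hV : finrank K V = 2 * m := by
    have h1 := Module.card_eq_pow_finrank (K := K) (V := V)
    have h2 := A.card_points
    rw [Nat.card_eq_fintype_card, h1, ← pow_mul, mul_comm m 2] at h2
    exact Nat.pow_right_injective hK1 h2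
  -- the spread
  let S : Set (Submodule K V) := {U | (U : Set V) ∈ A.lines}
  have hS : ∀ U : Submodule K V, U ∈ S ↔ (U : Set V) ∈ A.lines := fun _ => Iff.rfl
  have hdim : ∀ U ∈ S, finrank K U = m := by
    intro U hU
    have h1 := A.card_line _ hU
    have h2 := Module.card_eq_pow_finrank (K := K) (V := U)
    have h3 : (U : Set V).ncard = Fintype.card U := by
      rw [← Nat.card_eq_fintype_card]
      rfl
    rw [h3, h2] at h1
    exact Nat.pow_right_injective hK1 h1
  have hcov : ∀ v : V, v ≠ 0 → ∃! U, U ∈ S ∧ v ∈ U := by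
    intro v hv
    obtain ⟨L, ⟨hL, h0L, hvL⟩, hu⟩ := A.join 0 v hv.symm
    obtain ⟨U, hU⟩ := hker L hL h0L
    refine ⟨U, ⟨by rw [hS, hU]; exact hL, ?_⟩, ?_⟩
    · rw [← SetLike.mem_coe, hU]
      exact hvL
    · rintro U' ⟨hU', hvU'⟩
      apply SetLike.coe_injective
      rw [hU]
      exact hu _ ⟨hU', U'.zero_mem, hvU'⟩
  have himg : ∀ (h : V ≃ₗ[K] V) (U : Submodule K V),
      ((h.toEquiv : Equiv.Perm V) : V → V) '' (U : Set V) =
        (U.map (h : V →ₗ[K] V) : Submodule K V) := fun h U => rfl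
  have hg : ∀ U ∈ S, U.map (g : V →ₗ[K] V) ∈ S := by
    intro U hU
    rw [hS, ← himg]
    exact hG _ hgG _ hU
  let θ : (V ≃ₗ[K] V) →* Equiv.Perm V :=
    { toFun := fun h => h.toEquiv
      map_one' := rfl
      map_mul' := fun _ _ => rfl }
  have hθ : ∀ h : V ≃ₗ[K] V, θ h = h.toEquiv := fun _ => rfl
  have hθinj : Function.Injective θ := by
    intro h h' hhh
    exact LinearEquiv.toEquiv_injective hhh
  have hθG : ∀ h ∈ Subgroup.zpowers g, θ h ∈ G := by
    intro h hh
    obtain ⟨k, rfl⟩ := hh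
    change θ (g ^ k) ∈ G
    rw [map_zpow]
    exact Subgroup.zpow_mem _ hgG k
  have hreg : ∀ U ∈ S, ∀ U' ∈ S, ∃! h : V ≃ₗ[K] V, h ∈ Subgroup.zpowers g ∧
      U.map (h : V →ₗ[K] V) = U' := by
    intro U hU U' hU'
    obtain ⟨γ, ⟨hγG, hγ0, hγU⟩, hu⟩ := hflag 0 U hU U.zero_mem 0 U' hU' U'.zero_mem
    obtain ⟨k, hk⟩ := hcyc γ hγG hγ0
    have hγ : θ (g ^ k) = γ := by
      rw [map_zpow]
      exact hk
    refine ⟨g ^ k, ⟨⟨k, rfl⟩, ?_⟩, ?_⟩
    · apply SetLike.coe_injective
      rw [← himg, ← hγU, ← hγ]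
      rfl
    · rintro h ⟨hh, hhU⟩
      apply hθinj
      rw [hγ]
      refine hu _ ⟨hθG h hh, ?_, ?_⟩
      · exact map_zero h
      · rw [← hhU]
        rfl
  obtain ⟨L, hL1, hL2, e, hLfr, hiff⟩ := spreadG K hm hV hP S hdim hcov g hg hreg
  have hLfd : FiniteDimensional K L := Module.finite_of_finrank_pos (by rw [hLfr]; omega)
  have hLfin : Finite L := Module.finite_of_finite K
  obtain ⟨E, hE, hmemE⟩ := exists_subfield K hLfr
  have hEL : finrank E L = 2 := by
    have h1 := Module.finrank_mul_finrank K E L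
    rw [hE, hLfr, mul_comm 2 m] at h1
    exact Nat.eq_of_mul_eq_mul_left hm0 h1
  have hEE : finrank E (E × E) = 2 := by
    rw [Module.finrank_prod, Module.finrank_self]
  have hELfd : FiniteDimensional E L := Module.finite_of_finrank_pos (by rw [hEL]; norm_num)
  let f : L ≃ₗ[E] (E × E) := LinearEquiv.ofFinrankEq L (E × E) (by rw [hEL, hEE])
  let ε : V ≃ E × E := e.toEquiv.trans f.toEquiv
  have hε : ∀ x, ε x = f (e x) := fun _ => rfl
  -- the lines `E v`
  have hlineE : ∀ v : L, v ≠ 0 → ∀ x, x ∈ lineE K m v ↔ ∃ t : E, x = t • v := by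
    intro v hv x
    have hvq : v ^ (Fintype.card K ^ m) ≠ 0 := pow_ne_zero _ hv
    constructor
    · intro hx
      rw [mem_lineE] at hx
      have h1 : x / v ∈ E := by
        rw [hmemE, div_pow]
        field_simp
        rw [hx, mul_comm]
      refine ⟨⟨_, h1⟩, ?_⟩
      change x = x / v * v
      rw [div_mul_cancel₀ _ hv]
    · rintro ⟨t, rfl⟩
      rw [mem_lineE]
      change ((t : L) * v) ^ (Fintype.card K ^ m) * v = (t : L) * v * v ^ (Fintype.card K ^ m)
      rw [mul_pow, (hmemE t).1 t.2]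
      ring
  refine ⟨E, inferInstance, ε, ?_, ?_⟩
  · have := Fintype.ofFinite E
    rw [Nat.card_eq_fintype_card, Module.card_eq_pow_finrank (K := K), hE]
  · intro M
    constructor
    · intro hM
      have hMne : M.Nonempty := by
        rw [← Set.ncard_pos (Set.toFinite _), A.card_line M hM]
        omega
      obtain ⟨p, hp⟩ := hMne
      have h1 := htrans M hM (-p)
      obtain ⟨U, hU⟩ := hker _ h1 ⟨p, hp, neg_add_cancel p⟩
      have hUS : U ∈ S := by
        rw [hS, hU]
        exact h1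
      obtain ⟨v, hv, hUv⟩ := (hiff U).1 hUS
      have hmem : ∀ x, x ∈ M ↔ e (x - p) ∈ lineE K m v := by
        intro x
        rw [← hUv]
        constructor
        · intro hx
          refine ⟨x - p, ?_, rfl⟩
          rw [hU]
          exact ⟨x, hx, by rw [sub_eq_neg_add]⟩
        · rintro ⟨y, hy, hyx⟩
          have h2 : y = x - p := e.injective hyx
          rw [hU] at hy
          obtain ⟨z, hz, hzy⟩ := hy
          have h3 : z = x := by
            rw [h2] at hzy
            simp only at hzy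
            rw [sub_eq_neg_add] at hzy
            exact add_left_cancel hzy
          rwa [← h3]
      refine ⟨ε p, f v, ?_, ?_⟩
      · rw [Ne, LinearEquiv.map_eq_zero_iff]
        exact hv
      · ext y
        obtain ⟨x, rfl⟩ := ε.surjective y
        rw [Set.mem_image_equiv, Equiv.symm_apply_apply, hmem, hlineE v hv]
        simp only [Set.mem_ofPred_eq]
        constructor
        · rintro ⟨t, ht⟩
          refine ⟨t, ?_⟩
          rw [hε, hε, ← map_smul, ← ht, ← map_add, ← map_add, add_sub_cancel]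
        · rintro ⟨t, ht⟩
          refine ⟨t, ?_⟩
          rw [hε, hε, ← map_smul, ← map_add] at ht
          have h2 := f.injective ht
          rw [map_sub, h2, add_sub_cancel_left]
    · rintro ⟨p, d, hd, hMd⟩
      obtain ⟨p', rfl⟩ := ε.surjective p
      obtain ⟨v, rfl⟩ := f.surjective d
      have hv : v ≠ 0 := by
        rintro rfl
        exact hd (map_zero f)
      let U : Submodule K V := Submodule.comap (e : V →ₗ[K] L) (lineE K m v)
      have hU : U ∈ S := by
        rw [hiff]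
        exact ⟨v, hv, Submodule.map_comap_eq_of_surjective e.surjective _⟩
      have h1 := htrans _ hU p'
      have h2 : (fun x => p' + x) '' (U : Set V) = M := by
        ext x
        have h3 : x ∈ M ↔ ε x ∈ ε '' M := by
          rw [Set.mem_image_equiv, Equiv.symm_apply_apply]
        rw [h3, hMd]
        simp only [Set.mem_ofPred_eq]
        constructor
        · rintro ⟨y, hy, rfl⟩
          obtain ⟨t, ht⟩ := (hlineE v hv _).1 (show e y ∈ lineE K m v from hy)
          refine ⟨t, ?_⟩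
          rw [hε, hε, ← map_smul, ← map_add, ← ht, ← map_add]
        · rintro ⟨t, ht⟩
          rw [hε, hε, ← map_smul, ← map_add] at ht
          have h4 := f.injective ht
          refine ⟨x - p', ?_, add_sub_cancel _ _⟩
          change e (x - p') ∈ lineE K m v
          rw [hlineE v hv]
          exact ⟨t, by rw [map_sub, h4, add_sub_cancel_left]⟩
      rw [← h2]
      exact h1

open IT8

/-- the model: the stabiliser of `0` consists of linear maps -/
theorem model_auxG (K : Type) {V : Type} [Field K] [Fintype K] [CharP K 2] [AddCommGroup V]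
    [Module K V] {n a m : ℕ} (hm : m = 2 ^ a) (hP : PT K)
    (hn : n = Fintype.card K ^ m) (A : AffinePlane V n)
    (htrans : ∀ L ∈ A.lines, ∀ v : V, (fun x => v + x) '' L ∈ A.lines)
    (hker : ∀ L ∈ A.lines, (0 : V) ∈ L → ∃ U : Submodule K V, (U : Set V) = L)
    (G : Subgroup (Equiv.Perm V)) (hG : IsCollineationGroup A G)
    (hflag : SharplyFlagTransitive A G)
    (hlin : ∀ h ∈ G, h 0 = 0 → ∃ φ : V ≃ₗ[K] V, φ.toEquiv = h) :
    Desarguesian A := by
  classical
  subst hn
  have hm0 : 0 < m := by rw [hm]; positivity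
  have hne : NeZero m := ⟨by omega⟩
  have hK1 : 1 < Fintype.card K := Fintype.one_lt_card
  have hq2 : 2 ≤ Fintype.card K ^ m := le_trans hK1 (Nat.le_self_pow (by omega) _)
  have hVfin : Finite V := by
    apply Nat.finite_of_card_ne_zero
    rw [A.card_points]
    positivity
  have := Fintype.ofFinite V
  have hfd : FiniteDimensional K V := Module.Finite.of_finite
  have hV : finrank K V = 2 * m := by
    have h1 := Module.card_eq_pow_finrank (K := K) (V := V)
    have h2 := A.card_points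
    rw [Nat.card_eq_fintype_card, h1, ← pow_mul, mul_comm m 2] at h2
    exact Nat.pow_right_injective hK1 h2
  let θ : (V ≃ₗ[K] V) →* Equiv.Perm V :=
    { toFun := fun h => h.toEquiv
      map_one' := rfl
      map_mul' := fun _ _ => rfl }
  have hθinj : Function.Injective θ := by
    intro h h' hhh
    exact LinearEquiv.toEquiv_injective hhh
  let G₀ : Subgroup (V ≃ₗ[K] V) := G.comap θ
  have hG₀ : ∀ φ : V ≃ₗ[K] V, φ ∈ G₀ ↔ θ φ ∈ G := fun _ => Iff.rfl
  let S : Subgroup (Equiv.Perm V) := G ⊓ MulAction.stabilizer (Equiv.Perm V) (0 : V)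
  have hS : ∀ h : Equiv.Perm V, h ∈ S ↔ h ∈ G ∧ h 0 = 0 := by
    intro h
    simp [S, Subgroup.mem_inf, MulAction.mem_stabilizer_iff]
  have hcardG₀ : Nat.card G₀ = Fintype.card K ^ m + 1 := by
    rw [← card_stab hq2 hG hflag 0 S hS]
    refine Nat.card_congr (Equiv.ofBijective (fun φ : G₀ => (⟨θ φ, (hS _).2
      ⟨φ.2, map_zero (φ : V ≃ₗ[K] V)⟩⟩ : S)) ⟨?_, ?_⟩)
    · intro φ φ' h
      exact Subtype.ext (hθinj (congrArg Subtype.val h))
    · rintro ⟨h, hh⟩
      obtain ⟨h1, h2⟩ := (hS h).1 hh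
      obtain ⟨φ, hφ⟩ := hlin h h1 h2
      exact ⟨⟨φ, by rw [hG₀]; change φ.toEquiv ∈ G; rw [hφ]; exact h1⟩, Subtype.ext hφ⟩
  have hfree : ∀ φ ∈ G₀, ∀ v : V, v ≠ 0 → φ v = v → φ = 1 := by
    intro φ hφ v hv hφv
    obtain ⟨L, ⟨hL, h0L, hvL⟩, hu⟩ := A.join 0 v hv.symm
    have h1 : (θ φ : V → V) '' L = L :=
      hu _ ⟨hG _ hφ L hL, ⟨0, h0L, map_zero φ⟩, ⟨v, hvL, hφv⟩⟩
    apply hθinj
    rw [map_one]
    exact eq_one_of_flag hflag hφ hL h0L (map_zero φ) h1
  obtain ⟨g, hg, hgen⟩ := cyclic_of_linear K hm hV G₀ hcardG₀ hfree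
  refine plane_auxG K hm hP A htrans hker G hG hflag ⟨g, hg, ?_⟩
  intro h hh h0
  obtain ⟨φ, hφ⟩ := hlin h hh h0
  obtain ⟨k, hk⟩ := hgen φ (by rw [hG₀]; change φ.toEquiv ∈ G; rw [hφ]; exact hh)
  refine ⟨k, ?_⟩
  change (θ g) ^ k = h
  rw [← hφ, ← map_zpow]
  exact congrArg θ hk


/-- **The theorem.** -/
theorem intrinsicG (hP2 : ∀ (K : Type) [Field K] [Fintype K] [CharP K 2],
    Fintype.card K = 2 → PT K) {P : Type} {n : ℕ} (A : AffinePlane P n) (G : Subgroup (Equiv.Perm P))
    (hG : IsCollineationGroup A G) (hflag : SharplyFlagTransitive A G) (o : P)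
    (h : (∃ k, n = 2 ^ 2 ^ k) ∨
      (Even n ∧ (∃ a, n = ({δ | IsHom A o δ}.ncard + 1) ^ 2 ^ a) ∧
        ∀ g ∈ G, g o = o → ∀ δ, IsHom A o δ → g * δ = δ * g)) :
    Desarguesian A := by
  classical
  have hn2 : 2 ≤ n := by
    rcases h with ⟨k, rfl⟩ | ⟨he, ⟨a, ha⟩, -⟩
    · exact le_trans (by norm_num) (Nat.pow_le_pow_right (by norm_num) (Nat.one_le_two_pow :
        1 ≤ 2 ^ k))
    · have h1 : 0 < n := by rw [ha]; positivity
      obtain ⟨r, hr⟩ := he
      omega
  have hneven : Even n := by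
    rcases h with ⟨k, rfl⟩ | ⟨he, -, -⟩
    · exact even_two.pow_of_ne_zero (by positivity)
    · exact he
  obtain ⟨V, hVg, e, A', he0, h2, he, htrans, hsub, hlift⟩ := exists_model hneven hn2 hG hflag o
  obtain ⟨K, hK, hKf, hVm, hchar, hker, hhom, hsemi⟩ := exists_kernel A' hn2 h2 htrans hsub
  obtain ⟨G', hG', hflag', hGG'⟩ := transport hG hflag e A' he
  refine desarguesian_of_equiv e A' he ?_
  have hVfin : Finite V := A'.finite hn2
  have := Fintype.ofFinite V
  have hfd : FiniteDimensional K V := Module.Finite.of_finite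
  have hK1 : 1 < Fintype.card K := Fintype.one_lt_card
  -- `n = |K| ^ m`
  obtain ⟨L₀, hL₀, h0L₀⟩ : ∃ L ∈ A'.lines, (0 : V) ∈ L := by
    have h := ncard_pencil A' hn2 0
    have h1 : {L | L ∈ A'.lines ∧ (0 : V) ∈ L}.Nonempty := by
      rw [← Set.ncard_pos (Set.finite_of_ncard_pos (by omega)), h]
      omega
    exact h1
  obtain ⟨U₀, hU₀⟩ := hker L₀ hL₀ h0L₀
  set m := finrank K U₀ with hm
  have hnm : n = Fintype.card K ^ m := by
    have h1 := A'.card_line _ hL₀
    have h3 : L₀.ncard = Fintype.card U₀ := by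
      rw [← hU₀, ← Nat.card_eq_fintype_card]
      rfl
    rw [← h1, h3, Module.card_eq_pow_finrank (K := K)]
  -- the homologies with centre `o` are the multiplications by the elements of `K`
  have hfixo : ∀ δ, IsHom A o δ → δ o = o := by
    intro δ hδ
    by_contra hne
    obtain ⟨N, ⟨hN, hoN, hδN⟩, hu⟩ := A.join o (δ o) (Ne.symm hne)
    have h1 := ncard_pencil A hn2 o
    have h2 : {L | L ∈ A.lines ∧ o ∈ L} ⊆ {N} := by
      rintro M ⟨hM, hoM⟩
      refine hu M ⟨hM, hoM, ?_⟩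
      have h3 := hδ.2 M hM hoM
      rw [← h3]
      exact ⟨o, hoM, rfl⟩
    have h3 := Set.ncard_le_ncard h2 (Set.finite_singleton N)
    rw [h1, Set.ncard_singleton] at h3
    omega
  have hlines0 : ∀ L ∈ A'.lines, (0 : V) ∈ L → e '' L ∈ A.lines ∧ o ∈ e '' L := by
    intro L hL h0
    exact ⟨(he L).1 hL, ⟨0, h0, he0⟩⟩
  have hscal : ∀ δ, IsHom A o δ → ∃ k : K, k ≠ 0 ∧ ∀ x, e (k • x) = δ (e x) := by
    intro δ hδ
    obtain ⟨φ, hφ⟩ := hlift δ hδ.1 (hfixo δ hδ)
    obtain ⟨k, hk⟩ := hhom φ.toAddMonoidHom (by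
      intro L hL h0 x hx
      obtain ⟨h1, h2⟩ := hlines0 L hL h0
      have h3 := hδ.2 _ h1 h2
      have h4 : e (φ x) ∈ e '' L := by
        rw [hφ, ← h3]
        exact ⟨e x, ⟨x, hx, rfl⟩, rfl⟩
      obtain ⟨y, hy, hyx⟩ := h4
      have h5 : y = φ x := e.injective hyx
      change φ x ∈ L
      rw [← h5]
      exact hy)
    have hk' : ∀ x, φ x = k • x := hk
    refine ⟨k, ?_, fun x => by rw [← hk', hφ]⟩
    rintro rfl
    obtain ⟨x, hx⟩ : ∃ x : V, x ≠ 0 := by
      by_contra hcon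
      push Not at hcon
      have h1 : Nat.card V = 1 := Nat.card_eq_one_iff_exists.2 ⟨0, hcon⟩
      rw [A'.card_points] at h1
      nlinarith
    have h1 := hk' x
    rw [zero_smul] at h1
    exact hx ((AddEquiv.map_eq_zero_iff φ).1 h1)
  have hscal' : ∀ k : K, k ≠ 0 → ∃ δ, IsHom A o δ ∧ ∀ x, e (k • x) = δ (e x) := by
    intro k hk
    let δ' : Equiv.Perm V := (LinearEquiv.smulOfNeZero K V k hk).toEquiv
    have hδ' : ∀ x, δ' x = k • x := fun _ => rfl
    have hδ0 : ∀ L ∈ A'.lines, (0 : V) ∈ L → (δ' : V → V) '' L = L := by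
      intro L hL h0
      obtain ⟨U, hU⟩ := hker L hL h0
      rw [← hU]
      ext x
      constructor
      · rintro ⟨y, hy, rfl⟩
        exact U.smul_mem k hy
      · intro hx
        refine ⟨k⁻¹ • x, U.smul_mem _ hx, ?_⟩
        rw [hδ', smul_inv_smul₀ hk]
    have hδL : ∀ L ∈ A'.lines, (δ' : V → V) '' L ∈ A'.lines := by
      intro L hL
      have hne : L.Nonempty := by
        rw [← Set.ncard_pos (Set.toFinite _), A'.card_line L hL]
        omega
      obtain ⟨p, hp⟩ := hne
      have h1 := htrans L hL (-p)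
      have h3 := hδ0 _ h1 ⟨p, hp, neg_add_cancel p⟩
      have h4 : (δ' : V → V) '' L = (fun x => k • p + x) '' ((fun x => -p + x) '' L) := by
        rw [← h3, Set.image_image, Set.image_image]
        refine Set.image_congr fun x _ => ?_
        rw [hδ', hδ', smul_add, smul_neg, add_neg_cancel_left]
      rw [h4]
      exact htrans _ h1 _
    have himg : ∀ M : Set V,
        e '' ((δ' : V → V) '' M) = ((e.permCongr δ' : Equiv.Perm P) : P → P) '' (e '' M) := by
      intro M
      rw [Set.image_image, Set.image_image]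
      refine Set.image_congr fun x _ => ?_
      simp
    have hsymm : ∀ M : Set P, e '' (e.symm '' M) = M := by
      intro M
      rw [Set.image_image]
      simp
    refine ⟨e.permCongr δ', ⟨?_, ?_⟩, ?_⟩
    · intro L hL
      rw [← hsymm L] at hL ⊢
      rw [← himg, ← he]
      exact hδL _ ((he _).2 hL)
    · intro L hL hoL
      rw [← hsymm L] at hL ⊢
      rw [← himg, hδ0 _ ((he _).2 hL) ⟨o, hoL, by rw [← he0, Equiv.symm_apply_apply]⟩]
    · intro x
      simp [Equiv.permCongr_apply, hδ']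
  -- the number of homologies
  have hVnt : ∃ x : V, x ≠ 0 := by
    by_contra hcon
    push Not at hcon
    have h1 : Nat.card V = 1 := Nat.card_eq_one_iff_exists.2 ⟨0, hcon⟩
    rw [A'.card_points] at h1
    nlinarith
  have hcardK : {δ | IsHom A o δ}.ncard + 1 = Fintype.card K := by
    choose! f hf0 hf using hscal
    have h1 : {δ | IsHom A o δ}.ncard = ({k : K | k ≠ 0} : Set K).ncard := by
      refine Set.ncard_congr (fun δ _ => f δ) (fun δ hδ => hf0 δ hδ) ?_ ?_
      · intro δ δ' hδ hδ' hff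
        ext x
        obtain ⟨y, rfl⟩ := e.surjective x
        rw [← hf δ hδ, ← hf δ' hδ', hff]
      · intro k hk
        obtain ⟨δ, hδ, hδk⟩ := hscal' k hk
        refine ⟨δ, hδ, ?_⟩
        obtain ⟨x, hx⟩ := hVnt
        have h2 : f δ • x = k • x := e.injective (by rw [hf δ hδ, hδk])
        have h3 : (f δ - k) • x = 0 := by rw [sub_smul, h2, sub_self]
        rcases smul_eq_zero.1 h3 with h4 | h4
        · exact sub_eq_zero.1 h4
        · exact absurd h4 hx
    have h2 : ({k : K | k ≠ 0} : Set K) = {0}ᶜ := rfl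
    rw [h1, h2, Set.ncard_compl, Set.ncard_singleton, Nat.card_eq_fintype_card]
    omega
  have hP : PT K := by
    by_cases hK2 : Fintype.card K = 2
    · exact hP2 K hK2
    · apply pt_of_four
      obtain ⟨r, -, hr⟩ := FiniteField.card K 2
      rw [hr] at hK2 ⊢
      have h5 : 2 ≤ (r : ℕ) := by
        by_contra hcon
        have h6 : (r : ℕ) = 1 := by
          have := r.pos
          omega
        rw [h6] at hK2
        omega
      calc 4 = 2 ^ 2 := by norm_num
        _ ≤ 2 ^ (r : ℕ) := Nat.pow_le_pow_right (by norm_num) h5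
  -- elements of `G'`
  have hfun : ∀ h' ∈ G', h' 0 = 0 → ∃ g ∈ G, g o = o ∧ ∃ φ : V ≃+ V,
      (∀ x, φ x = h' x) ∧ ∀ x, e (φ x) = g (e x) := by
    intro h' hh' h0
    obtain ⟨g, hg, hge⟩ := hGG' h' hh'
    have hgo : g o = o := by
      rw [← he0, ← hge, h0]
    obtain ⟨φ, hφ⟩ := hlift g (hG g hg) hgo
    refine ⟨g, hg, hgo, φ, fun x => ?_, hφ⟩
    apply e.injective
    rw [hφ, hge]
  have hodd : Odd (n + 1) := hneven.add_one
  rcases h with ⟨k, hk⟩ | ⟨-, ⟨a, ha⟩, hcomm⟩
  · -- order `2 ^ 2 ^ k`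
    have hcardV : Nat.card V = 2 ^ 2 ^ (k + 1) := by
      rw [A'.card_points, hk, ← pow_mul, pow_succ]
    obtain ⟨i, -, hi⟩ := card_kernel (K := K) k hcardV
    have hm' : ∃ a, m = 2 ^ a := by
      have h1 : 2 ^ 2 ^ k = 2 ^ (2 ^ i * m) := by
        rw [pow_mul, ← hi, ← hk, hnm]
      have h2 : 2 ^ k = 2 ^ i * m := Nat.pow_right_injective (le_refl 2) h1
      have h3 : m ∣ 2 ^ k := ⟨2 ^ i, by rw [h2, mul_comm]⟩
      obtain ⟨a, -, ha⟩ := (Nat.dvd_prime_pow Nat.prime_two).1 h3
      exact ⟨a, ha⟩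
    obtain ⟨a, ha⟩ := hm'
    let S : Subgroup (Equiv.Perm V) := G' ⊓ MulAction.stabilizer (Equiv.Perm V) (0 : V)
    have hS : ∀ h : Equiv.Perm V, h ∈ S ↔ h ∈ G' ∧ h 0 = 0 := by
      intro h
      simp [S, Subgroup.mem_inf, MulAction.mem_stabilizer_iff]
    have hcardS := card_stab hn2 hG' hflag' 0 S hS
    refine model_auxG K ha hP hnm A' htrans hker G' hG' hflag' ?_
    intro h' hh' h0
    obtain ⟨g, hg, hgo, φ, hφh, hφg⟩ := hfun h' hh' h0
    obtain ⟨σ, hσ⟩ := hsemi φ (by
      intro L hL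
      have h1 : φ '' L = (h' : V → V) '' L := Set.image_congr fun x _ => hφh x
      rw [h1]
      exact hG' _ hh' L hL)
    have hlin := linear_of_odd k hcardV φ (n + 1) hodd (by
      intro x
      have h1 : (⟨h', (hS _).2 ⟨hh', h0⟩⟩ : S) ^ (n + 1) = 1 := by
        rw [← hcardS]
        exact pow_card_eq_one'
      have h2 : h' ^ (n + 1) = 1 := congrArg Subtype.val h1
      have h3 : (φ : V → V) = (h' : V → V) := funext hφh
      rw [h3, ← Equiv.Perm.coe_pow, h2]
      rfl) σ hσ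
    exact ⟨{ h' with
      map_add' := fun x y => by
        change h' (x + y) = h' x + h' y
        rw [← hφh, ← hφh, ← hφh, map_add]
      map_smul' := fun c x => by
        change h' (c • x) = c • h' x
        rw [← hφh, ← hφh, hlin] }, rfl⟩
  · -- order `s ^ 2 ^ a`
    have hm' : m = 2 ^ a := by
      rw [hcardK, hnm] at ha
      exact Nat.pow_right_injective hK1 ha
    refine model_auxG K hm' hP hnm A' htrans hker G' hG' hflag' ?_
    intro h' hh' h0
    obtain ⟨g, hg, hgo, φ, hφh, hφg⟩ := hfun h' hh' h0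
    have hlin : ∀ (c : K) (x : V), φ (c • x) = c • φ x := by
      intro c x
      by_cases hc : c = 0
      · rw [hc, zero_smul, zero_smul, map_zero]
      obtain ⟨δ, hδ, hδc⟩ := hscal' c hc
      apply e.injective
      rw [hφg, hδc, hδc, hφg]
      have h1 := hcomm g hg hgo δ hδ
      exact DFunLike.congr_fun h1 (e x)
    exact ⟨{ h' with
      map_add' := fun x y => by
        change h' (x + y) = h' x + h' y
        rw [← hφh, ← hφh, ← hφh, map_add]
      map_smul' := fun c x => by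
        change h' (c • x) = c • h' x
        rw [← hφh, ← hφh, hlin] }, rfl⟩

end Pool.Agent.Lib.CPlane
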