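import Mathlib

/-!
# Rado's theorem for subspaces, modulo a fixed subspace
-/

namespace Pool.Agent.Lib.CPlane

open Module Submodule

variable {K V ι : Type*} [Field K] [AddCommGroup V] [Module K V] [FiniteDimensional K V]

/-- the rank function of Rado's condition -/
noncomputable def radoSp (W0 : Submodule K V) (S : ι → Finset V) (A : Finset ι) :
    Submodule K V :=
  W0 ⊔ ⨆ i ∈ A, span K (S i : Set V)

omit [FiniteDimensional K V] in
theorem radoSp_mono (W0 : Submodule K V) (S : ι → Finset V) {A B : Finset ι} (h : A ⊆ B) :
    radoSp W0 S A ≤ radoSp W0 S B := by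
  refine sup_le_sup le_rfl ?_
  exact iSup₂_le fun i hi => le_iSup₂_of_le i (h hi) le_rfl

omit [FiniteDimensional K V] in
theorem radoSp_insert [DecidableEq ι] (W0 : Submodule K V) (S : ι → Finset V) (j : ι)
    (A : Finset ι) :
    radoSp W0 S (insert j A) = radoSp W0 S A ⊔ span K (S j : Set V) := by
  unfold radoSp
  rw [Finset.iSup_insert, sup_assoc, sup_comm (span K (S j : Set V))]

omit [FiniteDimensional K V] in
theorem radoSp_update [DecidableEq ι] (W0 : Submodule K V) (S : ι → Finset V) (j : ι)
    (T : Finset V) (A : Finset ι) (hj : j ∉ A) :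
    radoSp W0 (Function.update S j T) A = radoSp W0 S A := by
  unfold radoSp
  congr 1
  refine iSup_congr fun i => iSup_congr fun hi => ?_
  rw [Function.update_of_ne]
  rintro rfl
  exact hj hi

/-- Rado's theorem for finite subsets of a vector space, modulo `W0` -/
theorem rado [Fintype ι] (W0 : Submodule K V) (S : ι → Finset V)
    (h : ∀ A : Finset ι, finrank K W0 + A.card ≤ finrank K (radoSp W0 S A)) :
    ∃ c : ι → V, (∀ i, c i ∈ S i) ∧ LinearIndependent K (fun i => W0.mkQ (c i)) := by
  classical
  induction hn : ∑ i, (S i).card using Nat.strong_induction_on generalizing S with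
  | _ n ih =>
  by_cases hbig : ∃ j, ∃ x ∈ S j, ∃ y ∈ S j, x ≠ y
  · obtain ⟨j, x, hx, y, hy, hxy⟩ := hbig
    -- one of the two elements can be removed
    have key : ∀ z ∈ S j,
        (∀ A : Finset ι, finrank K W0 + A.card ≤
          finrank K (radoSp W0 (Function.update S j ((S j).erase z)) A)) →
        ∃ c : ι → V, (∀ i, c i ∈ S i) ∧ LinearIndependent K (fun i => W0.mkQ (c i)) := by
      intro z hz hA
      have hlt : ∑ i, ((Function.update S j ((S j).erase z)) i).card < n := by
        rw [← hn]
        refine Finset.sum_lt_sum ?_ ⟨j, Finset.mem_univ _, ?_⟩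
        · intro i _
          by_cases hij : i = j
          · subst hij
            rw [Function.update_self]
            exact Finset.card_le_card (Finset.erase_subset _ _)
          · rw [Function.update_of_ne hij]
        · rw [Function.update_self]
          exact Finset.card_erase_lt_of_mem hz
      obtain ⟨c, hc, hli⟩ := ih _ hlt _ hA rfl
      refine ⟨c, fun i => ?_, hli⟩
      have := hc i
      by_cases hij : i = j
      · subst hij
        rw [Function.update_self] at this
        exact Finset.mem_of_mem_erase this
      · rwa [Function.update_of_ne hij] at this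
    by_contra hno
    have hfail : ∀ z ∈ S j, ∃ A : Finset ι, j ∉ A ∧
        finrank K (radoSp W0 S A ⊔ span K ((S j).erase z : Set V) : Submodule K V) ≤
          finrank K W0 + A.card := by
      intro z hz
      have h1 : ¬ ∀ A : Finset ι, finrank K W0 + A.card ≤
          finrank K (radoSp W0 (Function.update S j ((S j).erase z)) A) :=
        fun h2 => hno (key z hz h2)
      push Not at h1
      obtain ⟨A, hA⟩ := h1
      by_cases hjA : j ∈ A
      · refine ⟨A.erase j, Finset.notMem_erase _ _, ?_⟩
        have h3 : A = insert j (A.erase j) := (Finset.insert_erase hjA).symm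
        have h4 : A.card = (A.erase j).card + 1 := by
          conv_lhs => rw [h3]
          exact Finset.card_insert_of_notMem (Finset.notMem_erase _ _)
        rw [h3, radoSp_insert, Function.update_self,
          radoSp_update _ _ _ _ _ (Finset.notMem_erase _ _), ← h3] at hA
        omega
      · rw [radoSp_update _ _ _ _ _ hjA] at hA
        exact absurd (h A) (by omega)
    obtain ⟨A, hjA, hA⟩ := hfail x hx
    obtain ⟨B, hjB, hB⟩ := hfail y hy
    set P : Submodule K V := radoSp W0 S A ⊔ span K ((S j).erase x : Set V) with hP
    set Q : Submodule K V := radoSp W0 S B ⊔ span K ((S j).erase y : Set V) with hQ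
    have hsum := Submodule.finrank_sup_add_finrank_inf_eq P Q
    have hinf : radoSp W0 S (A ∩ B) ≤ P ⊓ Q := by
      refine le_inf ?_ ?_
      · exact (radoSp_mono W0 S Finset.inter_subset_left).trans le_sup_left
      · exact (radoSp_mono W0 S Finset.inter_subset_right).trans le_sup_left
    have hsup : radoSp W0 S (insert j (A ∪ B)) ≤ P ⊔ Q := by
      rw [radoSp_insert]
      refine sup_le ?_ ?_
      · refine sup_le ?_ (iSup₂_le fun i hi => ?_)
        · exact (le_sup_left.trans le_sup_left).trans le_sup_left
        · rcases Finset.mem_union.1 hi with hi | hi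
          · refine le_trans ?_ (le_sup_left : P ≤ P ⊔ Q)
            refine le_trans ?_ (le_sup_left : radoSp W0 S A ≤ P)
            exact le_sup_of_le_right (le_iSup₂_of_le i hi le_rfl)
          · refine le_trans ?_ (le_sup_right : Q ≤ P ⊔ Q)
            refine le_trans ?_ (le_sup_left : radoSp W0 S B ≤ Q)
            exact le_sup_of_le_right (le_iSup₂_of_le i hi le_rfl)
      · refine span_le.2 fun z hz => ?_
        by_cases hzx : z = x
        · refine (le_sup_right : Q ≤ P ⊔ Q) ?_
          refine (le_sup_right : span K ((S j).erase y : Set V) ≤ Q) ?_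
          refine subset_span ?_
          rw [Finset.mem_coe, Finset.mem_erase]
          exact ⟨by rw [hzx]; exact hxy, hz⟩
        · refine (le_sup_left : P ≤ P ⊔ Q) ?_
          refine (le_sup_right : span K ((S j).erase x : Set V) ≤ P) ?_
          refine subset_span ?_
          rw [Finset.mem_coe, Finset.mem_erase]
          exact ⟨hzx, hz⟩
    have h1 := Submodule.finrank_mono hinf
    have h2 := Submodule.finrank_mono hsup
    have h3 := h (A ∩ B)
    have h4 := h (insert j (A ∪ B))
    have h5 : (insert j (A ∪ B)).card = (A ∪ B).card + 1 :=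
      Finset.card_insert_of_notMem (by
        rw [Finset.mem_union]
        rintro (h6 | h6)
        · exact hjA h6
        · exact hjB h6)
    have h6 := Finset.card_union_add_card_inter A B
    omega
  · push Not at hbig
    have hne : ∀ i, (S i).Nonempty := by
      intro i
      by_contra hi
      rw [Finset.not_nonempty_iff_eq_empty] at hi
      have h1 := h {i}
      have h2 : radoSp W0 S {i} = W0 := by
        unfold radoSp
        simp [hi]
      rw [h2, Finset.card_singleton] at h1
      omega
    choose c hc using hne
    refine ⟨c, hc, ?_⟩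
    have hS : ∀ i, S i = {c i} := fun i =>
      Finset.eq_singleton_iff_unique_mem.2 ⟨hc i, fun x hx => hbig i x hx (c i) (hc i)⟩
    have h1 := h Finset.univ
    have h2 : radoSp W0 S Finset.univ = W0 ⊔ span K (Set.range c) := by
      unfold radoSp
      congr 1
      rw [← Set.iUnion_singleton_eq_range, Submodule.span_iUnion]
      simp [hS]
    rw [h2, Finset.card_univ] at h1
    rw [linearIndependent_iff_card_le_finrank_span]
    have h3 : span K (Set.range fun i => W0.mkQ (c i)) =
        (W0 ⊔ span K (Set.range c)).map W0.mkQ := by
      rw [Submodule.map_sup, Submodule.map_span, ← Set.range_comp]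
      rw [Submodule.mkQ_map_self, bot_sup_eq]
      rfl
    rw [Set.finrank, h3]
    set L : Submodule K V := W0 ⊔ span K (Set.range c) with hL
    have h5 := LinearMap.finrank_range_add_finrank_ker (W0.mkQ.domRestrict L)
    rw [LinearMap.range_domRestrict] at h5
    have h6 : finrank K (LinearMap.ker (W0.mkQ.domRestrict L)) ≤ finrank K W0 := by
      rw [← Submodule.finrank_map_subtype_eq]
      refine Submodule.finrank_mono ?_
      rw [Submodule.map_le_iff_le_comap]
      intro x hx
      rw [LinearMap.mem_ker, LinearMap.domRestrict_apply, Submodule.mkQ_apply,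
        Submodule.Quotient.mk_eq_zero] at hx
      exact hx
    omega

/-- Rado's theorem for pairs of vectors, modulo a subspace `W0` -/
theorem rado_pairs [Fintype ι] (W0 : Submodule K V) (a b : ι → V)
    (h : ∀ A : Finset ι, finrank K W0 + A.card ≤
      finrank K (W0 ⊔ span K (a '' (A : Set ι) ∪ b '' (A : Set ι)) : Submodule K V)) :
    ∃ c : ι → V, (∀ i, c i = a i ∨ c i = b i) ∧
      LinearIndependent K (fun i => W0.mkQ (c i)) := by
  classical
  obtain ⟨c, hc, hli⟩ := rado W0 (fun i => ({a i, b i} : Finset V)) (by
    intro A
    refine (h A).trans (Submodule.finrank_mono ?_)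
    refine sup_le_sup le_rfl ?_
    rw [span_le, Set.union_subset_iff]
    constructor
    · rintro _ ⟨i, hi, rfl⟩
      refine (le_iSup₂_of_le i hi le_rfl :
        span K (({a i, b i} : Finset V) : Set V) ≤ _) (subset_span ?_)
      simp
    · rintro _ ⟨i, hi, rfl⟩
      refine (le_iSup₂_of_le i hi le_rfl :
        span K (({a i, b i} : Finset V) : Set V) ≤ _) (subset_span ?_)
      simp)
  refine ⟨c, fun i => ?_, hli⟩
  have := hc i
  rwa [Finset.mem_insert, Finset.mem_singleton] at this

end Pool.Agent.Lib.CPlane
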