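import Pool.Agent.Lib.CPlane.Hull
import Pool.Agent.Lib.CPlane.Block

/-!
# Proportional coordinates (row A4)
-/

namespace Pool.Agent.Lib.CPlane

open Module

section

variable {Ω : Type} [Field Ω]

theorem mul_eq_mul_of_finrank_le_one (S : Submodule Ω (Ω × Ω)) (hS : finrank Ω S ≤ 1)
    {x y : Ω × Ω} (hx : x ∈ S) (hy : y ∈ S) : x.1 * y.2 = x.2 * y.1 := by
  obtain ⟨v, hv⟩ := finrank_le_one_iff.1 hS
  obtain ⟨a, ha⟩ := hv ⟨x, hx⟩
  obtain ⟨b, hb⟩ := hv ⟨y, hy⟩
  have h1 := congrArg Subtype.val ha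
  have h2 := congrArg Subtype.val hb
  simp only [Submodule.coe_smul] at h1 h2
  rw [← h1, ← h2]
  simp only [Prod.smul_fst, Prod.smul_snd, smul_eq_mul]
  ring

end

variable {m : ℕ} {Ω : Type} [Field Ω] [NeZero m] (C : Cfg m Ω)

/-- (A4a) generic points are good.  `rel`: definition of `Rel`.  `nrel`: `perp_map_rank` for
`g = (z ↦ (z i, z j))`: the rank of the image is generically `≤ 1` (then `Rel i j`) or
generically `2`. -/
theorem good_eventually [Infinite Ω] [CharP Ω 2] {D : Submodule Ω (Zs m Ω)} (hD : C.IsHull D)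
    (hdeg : ∀ t, C.rad t ≠ ⊥) : ∀ᶠ t in Gen (ZMod (2 * m)) Ω, C.Good D t := by
  have hDX := hull_le C hD
  have h1 : ∀ᶠ t in Gen (ZMod (2 * m)) Ω, ∀ i, ∃ w ∈ C.rad t, w i ≠ 0 :=
    Filter.eventually_all.2 fun i => F0 C hD hdeg i
  have h2 : ∀ᶠ t in Gen (ZMod (2 * m)) Ω, ∀ i j, C.Rel D i j →
      ∀ w ∈ perp C.X D t, ∀ w' ∈ perp C.X D t, w i * w' j = w j * w' i := by
    refine Filter.eventually_all.2 fun i => Filter.eventually_all.2 fun j => ?_
    by_cases h : C.Rel D i j
    · exact Filter.Eventually.mono h fun t ht _ => ht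
    · exact Filter.Eventually.of_forall fun t h' => absurd h' h
  have h3 : ∀ᶠ t in Gen (ZMod (2 * m)) Ω, ∀ i j, ¬ C.Rel D i j →
      ∃ w ∈ perp C.X D t, w j = 0 ∧ w i ≠ 0 := by
    refine Filter.eventually_all.2 fun i => Filter.eventually_all.2 fun j => ?_
    by_cases h : C.Rel D i j
    · exact Filter.Eventually.of_forall fun t h' => absurd h h'
    · let g : Zs m Ω →ₗ[Ω] Ω × Ω := LinearMap.prod (LinearMap.proj i) (LinearMap.proj j)
      obtain ⟨c, hc⟩ := perp_map_rank C.X D g
      by_cases hc1 : c ≤ 1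
      · exfalso
        apply h
        refine Filter.Eventually.mono hc fun t ht w hw w' hw' => ?_
        exact mul_eq_mul_of_finrank_le_one (Submodule.map g (perp C.X D t))
          (by rw [ht]; exact hc1)
          (x := g w) (y := g w') ⟨w, hw, rfl⟩ ⟨w', hw', rfl⟩
      · refine Filter.Eventually.mono hc fun t ht _ => ?_
        have h4 : Submodule.map g (perp C.X D t) = ⊤ := by
          apply Submodule.eq_top_of_finrank_eq
          have h5 := Submodule.finrank_le (Submodule.map g (perp C.X D t))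
          have h6 : finrank Ω (Ω × Ω) = 2 := by
            rw [Module.finrank_prod, Module.finrank_self]
          omega
        have h7 : ((1 : Ω), (0 : Ω)) ∈ Submodule.map g (perp C.X D t) := by
          rw [h4]
          trivial
        obtain ⟨w, hw, hww⟩ := h7
        refine ⟨w, hw, congrArg Prod.snd hww, ?_⟩
        have h8 : w i = 1 := congrArg Prod.fst hww
        rw [h8]
        exact one_ne_zero
  filter_upwards [hD.1, h1, h2, h3, F3_iso C hD hdeg] with t e0 e1 e2 e3 e4
  exact ⟨e0, e1, perp_le_of_iso C hDX e0 e4, e4, e2, e3⟩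

theorem rel_refl (D : Submodule Ω (Zs m Ω)) (i : ZMod (2 * m)) : C.Rel D i i :=
  Filter.Eventually.of_forall fun _ _ _ _ _ => rfl

theorem rel_symm {D : Submodule Ω (Zs m Ω)} {i j : ZMod (2 * m)} (h : C.Rel D i j) :
    C.Rel D j i :=
  Filter.Eventually.mono h fun _ ht w hw w' hw' => (ht w hw w' hw').symm

theorem rel_trans [Infinite Ω] {D : Submodule Ω (Zs m Ω)} (hD : C.IsHull D)
    (hdeg : ∀ t, C.rad t ≠ ⊥) {i j k : ZMod (2 * m)} (h : C.Rel D i j) (h' : C.Rel D j k) :
    C.Rel D i k := by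
  filter_upwards [h, h', F0 C hD hdeg j] with t e1 e2 e3 w hw w' hw'
  obtain ⟨u, hu, huj⟩ := e3
  have hu' := rad_le_perp (hull_le C hD) t hu
  have a1 := e1 w hw u hu'
  have a2 := e1 w' hw' u hu'
  have a3 := e2 w hw u hu'
  have a4 := e2 w' hw' u hu'
  have h5 : (w i * w' k) * (u j * u j) = (w k * w' i) * (u j * u j) := by
    calc (w i * w' k) * (u j * u j) = (w i * u j) * (w' k * u j) := by ring
      _ = (w j * u i) * (w' j * u k) := by rw [a1, ← a4]
      _ = (w j * u k) * (w' j * u i) := by ring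
      _ = (w k * u j) * (w' i * u j) := by rw [a3, ← a2]
      _ = (w k * w' i) * (u j * u j) := by ring
  exact mul_right_cancel₀ (mul_ne_zero huj huj) h5

theorem rel_half [Infinite Ω] [CharP Ω 2] {D : Submodule Ω (Zs m Ω)} (hD : C.IsHull D)
    (hdeg : ∀ t, C.rad t ≠ ⊥) (i : ZMod (2 * m)) : C.Rel D i (i + m) := by
  filter_upwards [F3_iso C hD hdeg] with t ht w hw w' hw'
  have h := ht i w hw w' hw'
  rw [Bi_apply] at h
  exact CharTwo.add_eq_zero.1 h

theorem symm_mem_perp {D : Submodule Ω (Zs m Ω)} (hD : ∀ z, Phi m C.τ z ∈ D ↔ z ∈ D)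
    (t : Zs m Ω) {w : Zs m Ω} (hw : w ∈ perp C.X D t) :
    (Phi m C.τ).symm w ∈ perp C.X D ((Phi m C.τ).symm t) := by
  refine ⟨(C.mem_iff _).1 (by rw [AddEquiv.apply_symm_apply]; exact hw.1), fun d hd => ?_⟩
  apply C.τ.injective
  rw [← Bt_Phi, AddEquiv.apply_symm_apply, AddEquiv.apply_symm_apply, map_zero]
  exact hw.2 _ ((hD d).2 hd)

theorem rel_succ [Infinite Ω] {D : Submodule Ω (Zs m Ω)} (hD : C.IsHull D)
    {i j : ZMod (2 * m)} (h : C.Rel D i j) : C.Rel D (i + 1) (j + 1) := by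
  have h1 := gen_semi C.τ.symm (Equiv.addRight (1 : ZMod (2 * m))) h
  filter_upwards [h1] with t ht w hw w' hw'
  have h2 := ht _ (symm_mem_perp C (hull_shift C hD) t hw) _
    (symm_mem_perp C (hull_shift C hD) t hw')
  have h3 : ∀ (z : Zs m Ω) (k : ZMod (2 * m)),
      (Phi m C.τ).symm z k = C.τ.symm (z (k + 1)) := fun _ _ => rfl
  rw [h3, h3, h3, h3, ← map_mul, ← map_mul] at h2
  exact C.τ.symm.injective h2

theorem rel_add [Infinite Ω] {D : Submodule Ω (Zs m Ω)} (hD : C.IsHull D)
    {i j : ZMod (2 * m)} (h : C.Rel D i j) (k : ZMod (2 * m)) : C.Rel D (i + k) (j + k) := by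
  have key : ∀ n : ℕ, C.Rel D (i + n) (j + n) := by
    intro n
    induction n with
    | zero => simpa using h
    | succ n ih =>
      have := rel_succ C hD ih
      rwa [add_assoc, add_assoc, ← Nat.cast_succ] at this
  have h1 := key k.val
  rwa [ZMod.natCast_zmod_val] at h1

/-- (A4b) the blocks: `Rel` is an equivalence relation (`F0` for transitivity), invariant under
`i ↦ i + 1` (`gen_semi`), and `Rel i (i + m)` (`F3_iso`); so the classes are the cosets of a
subgroup of `ℤ/2m` which contains `m`. -/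
theorem exists_blocks [Infinite Ω] [CharP Ω 2] {D : Submodule Ω (Zs m Ω)} (hD : C.IsHull D)
    (hdeg : ∀ t, C.rad t ≠ ⊥) :
    ∃ (b : ℕ) (κ : ZMod (2 * m) → Fin b), b ∣ m ∧ Function.Surjective κ ∧
      (∀ i, κ (i + m) = κ i) ∧ ∀ i j, κ i = κ j ↔ C.Rel D i j := by
  classical
  let H : AddSubgroup (ZMod (2 * m)) :=
    { carrier := {h | C.Rel D 0 h}
      zero_mem' := rel_refl C D 0
      add_mem' := by
        intro a b ha hb
        have h1 := rel_add C hD hb a
        rw [zero_add, add_comm] at h1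
        exact rel_trans C hD hdeg ha h1
      neg_mem' := by
        intro a ha
        have h1 := rel_add C hD ha (-a)
        rw [zero_add, add_neg_cancel] at h1
        exact rel_symm C h1 }
  have hH : ∀ h, h ∈ H ↔ C.Rel D 0 h := fun _ => Iff.rfl
  have hrel : ∀ i j, (QuotientAddGroup.mk i : ZMod (2 * m) ⧸ H) = QuotientAddGroup.mk j ↔
      C.Rel D i j := by
    intro i j
    rw [QuotientAddGroup.eq, hH]
    constructor
    · intro h
      have h1 := rel_add C hD h i
      rwa [zero_add, neg_add_cancel_comm] at h1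
    · intro h
      have h1 := rel_add C hD h (-i)
      rwa [add_neg_cancel, add_comm] at h1
  have : Finite (ZMod (2 * m) ⧸ H) := inferInstance
  let e := Finite.equivFin (ZMod (2 * m) ⧸ H)
  have hκ : ∀ i j, e (QuotientAddGroup.mk i) = e (QuotientAddGroup.mk j) ↔ C.Rel D i j := by
    intro i j
    rw [e.apply_eq_iff_eq, hrel]
  refine ⟨Nat.card (ZMod (2 * m) ⧸ H), fun i => e (QuotientAddGroup.mk i), ?_, ?_, ?_, hκ⟩
  · have h1 : Nat.card H * H.index = 2 * m := by
      rw [AddSubgroup.card_mul_index, Nat.card_zmod]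
    have hm0 : ((m : ℕ) : ZMod (2 * m)) ≠ 0 := by
      rw [Ne, ZMod.natCast_eq_zero_iff]
      intro h
      have h2 := Nat.le_of_dvd (Nat.pos_of_ne_zero (NeZero.ne m)) h
      have h3 := Nat.pos_of_ne_zero (NeZero.ne m)
      omega
    have hmem : ((m : ℕ) : ZMod (2 * m)) ∈ H := by
      rw [hH]
      have := rel_half C hD hdeg 0
      rwa [zero_add] at this
    have h2 : addOrderOf (⟨_, hmem⟩ : H) = 2 := by
      apply addOrderOf_eq_prime
      · apply Subtype.ext
        have : (2 : ℕ) • ((m : ℕ) : ZMod (2 * m)) = ((2 * m : ℕ) : ZMod (2 * m)) := by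
          push_cast
          simp
        simpa using this
      · intro h
        exact hm0 (congrArg Subtype.val h)
    have h3 : 2 ∣ Nat.card H := by
      have h5 := addOrderOf_dvd_natCard (⟨_, hmem⟩ : H)
      rw [h2] at h5
      exact h5
    obtain ⟨h', hh'⟩ := h3
    have h4 : H.index = Nat.card (ZMod (2 * m) ⧸ H) := rfl
    rw [hh', h4, mul_assoc] at h1
    exact ⟨h', by rw [mul_comm]; exact (Nat.eq_of_mul_eq_mul_left (by norm_num) h1).symm⟩
  · intro c
    obtain ⟨q, hq⟩ := e.surjective c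
    obtain ⟨i, hi⟩ := QuotientAddGroup.mk_surjective q
    exact ⟨i, by rw [← hq, ← hi]⟩
  · intro i
    exact (hκ _ _).2 (rel_symm C (rel_half C hD hdeg i))

/-- (A4c) all blocks of `D` have the same dimension (`hull_shift`, `rank_eq_of_equiv_equiv`) -/
theorem blockdim_eq [Infinite Ω] [CharP Ω 2] {D : Submodule Ω (Zs m Ω)} (hD : C.IsHull D)
    {b : ℕ} (κ : ZMod (2 * m) → Fin b) (hs : Function.Surjective κ)
    (hκ : ∀ i j, κ i = κ j ↔ C.Rel D i j) (c c' : Fin b) :
    finrank Ω (Submodule.map (pr κ c) D) = finrank Ω (Submodule.map (pr κ c') D) := by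
  have hΦ := hull_shift C hD
  have hsucc : ∀ i j : ZMod (2 * m), κ j = κ (i + 1) ↔ κ (j - 1) = κ i := by
    intro i j
    rw [hκ, hκ]
    constructor
    · intro h
      have h1 := rel_add C hD h (-1)
      rwa [← sub_eq_add_neg, add_neg_cancel_right] at h1
    · intro h
      have h1 := rel_add C hD h 1
      rwa [sub_add_cancel] at h1
  have hpr : ∀ (i : ZMod (2 * m)) (z : Zs m Ω),
      Phi m C.τ (pr κ (κ i) z) = pr κ (κ (i + 1)) (Phi m C.τ z) := by
    intro i z
    ext j
    rw [Phi_apply, pr_apply, pr_apply, Phi_apply]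
    by_cases h : κ j = κ (i + 1)
    · rw [if_pos h, if_pos ((hsucc i j).1 h)]
    · rw [if_neg h, if_neg (fun h' => h ((hsucc i j).2 h')), map_zero]
  have step : ∀ i, finrank Ω (Submodule.map (pr κ (κ i)) D) =
      finrank Ω (Submodule.map (pr κ (κ (i + 1))) D) := by
    intro i
    have hmem : ∀ z, z ∈ Submodule.map (pr κ (κ i)) D ↔
        Phi m C.τ z ∈ Submodule.map (pr κ (κ (i + 1))) D := by
      intro z
      constructor
      · rintro ⟨d, hd, rfl⟩
        exact ⟨Phi m C.τ d, (hΦ d).2 hd, (hpr i d).symm⟩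
      · rintro ⟨d, hd, hdz⟩
        refine ⟨(Phi m C.τ).symm d, (hΦ _).1 (by rwa [AddEquiv.apply_symm_apply]), ?_⟩
        apply (Phi m C.τ).injective
        rw [hpr, AddEquiv.apply_symm_apply, hdz]
    let e : Submodule.map (pr κ (κ i)) D ≃+ Submodule.map (pr κ (κ (i + 1))) D :=
      { toFun := fun z => ⟨Phi m C.τ z, (hmem z).1 z.2⟩
        invFun := fun z => ⟨(Phi m C.τ).symm z, (hmem _).2 (by
          rw [AddEquiv.apply_symm_apply]; exact z.2)⟩
        left_inv := fun z => Subtype.ext (AddEquiv.symm_apply_apply _ _)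
        right_inv := fun z => Subtype.ext (AddEquiv.apply_symm_apply _ _)
        map_add' := fun x y => Subtype.ext (map_add _ _ _) }
    have h1 := rank_eq_of_equiv_equiv C.τ e C.τ.bijective
      (fun r z => Subtype.ext (Phi_smul C.τ r (z : Zs m Ω)))
    rw [finrank, finrank, h1]
  have key : ∀ (i : ZMod (2 * m)) (n : ℕ), finrank Ω (Submodule.map (pr κ (κ i)) D) =
      finrank Ω (Submodule.map (pr κ (κ (i + n))) D) := by
    intro i n
    induction n with
    | zero => rw [Nat.cast_zero, add_zero]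
    | succ n ih =>
      rw [ih, step (i + n), add_assoc, ← Nat.cast_succ]
  obtain ⟨i, rfl⟩ := hs c
  obtain ⟨j, rfl⟩ := hs c'
  have h := key i (j - i).val
  rwa [ZMod.natCast_zmod_val, add_sub_cancel] at h

end Pool.Agent.Lib.CPlane
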