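import Pool.Agent.Lib.CPlane.S2Stat
import Pool.Agent.Lib.CPlane.LFGlue
import Pool.Agent.Lib.CPlane.S2Rado

/-!
# s = 2: the polynomials `w_F` (WFI, WNZ)
-/

namespace Pool.Agent.Lib.CPlane.S2

open Finset Module Pool.Agent.Lib.CPlane.P2

namespace WFx

/-- the determinant `dd` as a determinant `dt` of the leaf module -/
theorem dt_eq_dd {A : Type} [CommRing A] [CharP A 2] {n : ℕ}
    (ep : Fin (n + 2) ≃ Option (Fin (n + 1)) ⊕ Empty) (μ : Fin (n + 2) → A)
    (r : Fin (n + 1) → Fin (n + 2) → A) (ν : Empty → Fin (n + 2) → A) (k : Fin (n + 1)) :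
    LF.dt ep μ r ν = dd (r k) μ (fun i => r (k.succAbove i)) := by
  classical
  let e0 : Fin (n + 2) → Option (Fin (n + 1)) ⊕ Empty :=
    Fin.cons (Sum.inl (some k)) (Fin.cons (Sum.inl none)
      (fun i : Fin n => Sum.inl (some (k.succAbove i))) : Fin (n + 1) → Option (Fin (n + 1)) ⊕ Empty)
  have hinj : Function.Injective e0 := by
    intro i j
    refine Fin.cases ?_ (fun i => ?_) i <;> refine Fin.cases ?_ (fun j => ?_) j
    · intro _; rfl
    · refine Fin.cases ?_ (fun j => ?_) j
      · intro h; simp [e0] at h
      · intro h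
        simp only [e0, Fin.cons_zero, Fin.cons_succ, Sum.inl.injEq, Option.some.injEq] at h
        exact absurd h.symm (Fin.succAbove_ne k j)
    · refine Fin.cases ?_ (fun i => ?_) i
      · intro h; simp [e0] at h
      · intro h
        simp only [e0, Fin.cons_zero, Fin.cons_succ, Sum.inl.injEq, Option.some.injEq] at h
        exact absurd h (Fin.succAbove_ne k i)
    · refine Fin.cases ?_ (fun i => ?_) i <;> refine Fin.cases ?_ (fun j => ?_) j
      · intro _; rfl
      · intro h; simp [e0] at h
      · intro h; simp [e0] at h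
      · intro h
        simp only [e0, Fin.cons_succ, Sum.inl.injEq, Option.some.injEq] at h
        rw [Fin.succAbove_right_injective h]
  have hbij : Function.Bijective e0 := by
    rw [Fintype.bijective_iff_injective_and_card]
    refine ⟨hinj, ?_⟩
    rw [Fintype.card_fin, Fintype.card_sum, Fintype.card_option, Fintype.card_fin,
      Fintype.card_empty, add_zero]
  have h1 := LF.det_perm ep (Equiv.ofBijective e0 hbij)
    (fun s => Sum.elim (fun o : Option (Fin (n + 1)) => o.elim μ r) ν s)
  have h2 : LF.dt ep μ r ν =
      (Matrix.of fun i j => Sum.elim (fun o : Option (Fin (n + 1)) => o.elim μ r) ν (ep i) j).det :=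
    rfl
  rw [h2, h1]
  unfold dd
  congr 1
  ext i j
  simp only [Matrix.of_apply, Equiv.ofBijective_apply]
  refine Fin.cases ?_ (fun i => ?_) i
  · simp [e0]
  · refine Fin.cases ?_ (fun i => ?_) i
    · simp [e0]
    · simp [e0]

theorem fv_zero_of_eq {E : Type} [Field E] {N : ℕ} {v : Fin N → E} {k : ℕ} (h : fv v k = 0) :
    v = 0 := by
  funext i
  exact pow_eq_zero_iff (pow_ne_zero k two_ne_zero) |>.1 (congrFun h i)

end WFx

theorem wfi : WFI := by
  intro E _ _ n ga et s
  classical
  by_cases het : et = 0
  · have h1 : ∀ k, fv et k = 0 := by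
      intro k
      funext i
      change et i ^ 2 ^ k = 0
      rw [het]
      exact zero_pow (pow_ne_zero k two_ne_zero)
    have h2 : ∀ (u : Fin (n + 2) → MvPolynomial (Fin (n + 2)) E)
        (R : Fin n → Fin (n + 2) → MvPolynomial (Fin (n + 2)) E) (k : ℕ),
        dd u (LF.cs (fv et k)) R = 0 := by
      intro u R k
      unfold dd
      refine Matrix.det_eq_zero_of_row_eq_zero (1 : Fin (n + 2)) fun j => ?_
      have h3 : LF.cs (fv et k) j = (0 : MvPolynomial (Fin (n + 2)) E) := by
        rw [h1, LF.cs, Pi.zero_apply, map_zero]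
      rw [← h3]
      rfl
    rw [wF, h2, h2]
  · have ep : Fin (n + 2) ≃ Option (Fin (n + 1)) ⊕ Empty := Fintype.equivOfCardEq (by
      rw [Fintype.card_fin, Fintype.card_sum, Fintype.card_option, Fintype.card_fin,
        Fintype.card_empty, add_zero])
    set g : Fin (n + 1) → Fin (n + 2) → E := fun l => fv ga (s + 1 + l) with hg
    set y : Fin (n + 1) → Fin (n + 2) → E := fun l => fv et (s + 1 + l) with hy
    let ν : Empty → Fin (n + 2) → E := fun d => d.elim
    have hyne : ∀ k, LF.ev (LF.am (y k)) (MvPolynomial.X : Fin (n + 2) → MvPolynomial _ E) ≠ 0 :=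
      fun k => LF.ev_X_ne_zero fun h => het (WFx.fv_zero_of_eq h)
    have hX : (MvPolynomial.X : Fin (n + 2) → MvPolynomial (Fin (n + 2)) E) ≠ 0 := by
      intro h
      exact MvPolynomial.X_ne_zero (0 : Fin (n + 2)) (congrFun h 0)
    have h1 := LF.wx_indep ep g y ν 0 (Fin.last n) MvPolynomial.X hX (hyne _) (hyne _)
    rw [LF.wx, LF.wx, WFx.dt_eq_dd ep _ _ _ 0, WFx.dt_eq_dd ep _ _ _ (Fin.last n)] at h1
    have e0 : wF ga et (s + 1) = dd
        (Function.update (fun l => LF.al (LF.am (g l)) (LF.am (y l))
          (MvPolynomial.X : Fin (n + 2) → MvPolynomial _ E)) 0 (LF.am (g 0)) 0)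
        (LF.am (y 0)) (fun i => Function.update (fun l => LF.al (LF.am (g l)) (LF.am (y l))
          (MvPolynomial.X : Fin (n + 2) → MvPolynomial _ E)) 0 (LF.am (g 0))
            ((0 : Fin (n + 1)).succAbove i)) := by
      rw [wF, Function.update_self]
      congr 1
      funext i
      rw [Function.update_of_ne (Fin.succAbove_ne _ _)]
      have e1 : s + 1 + 1 + (i : ℕ) =
          s + 1 + (((0 : Fin (n + 1)).succAbove i : Fin (n + 1)) : ℕ) := by
        rw [Fin.succAbove_zero, Fin.val_succ]
        ring
      rw [ax, e1]
      rfl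
    have e2 : dd (LF.cs (fv ga (s + n + 1))) (LF.cs (fv et (s + n + 1)))
        (fun i : Fin n => ax ga et (s + 1 + i)) = dd
        (Function.update (fun l => LF.al (LF.am (g l)) (LF.am (y l))
          (MvPolynomial.X : Fin (n + 2) → MvPolynomial _ E)) (Fin.last n) (LF.am (g (Fin.last n)))
            (Fin.last n))
        (LF.am (y (Fin.last n))) (fun i => Function.update (fun l => LF.al (LF.am (g l))
          (LF.am (y l)) (MvPolynomial.X : Fin (n + 2) → MvPolynomial _ E)) (Fin.last n)
            (LF.am (g (Fin.last n))) ((Fin.last n).succAbove i)) := by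
      have e3 : s + n + 1 = s + 1 + ((Fin.last n : Fin (n + 1)) : ℕ) := by
        rw [Fin.val_last]
        ring
      congr 1
      · rw [Function.update_self, e3]; rfl
      · rw [e3]; rfl
      · funext i
        rw [Function.update_of_ne (Fin.succAbove_ne _ _)]
        have e1 : s + 1 + (i : ℕ) = s + 1 + (((Fin.last n).succAbove i : Fin (n + 1)) : ℕ) := by
          rw [Fin.succAbove_last, Fin.val_castSucc]
        rw [ax, e1]
        rfl
    rw [e0, e2]
    exact h1

namespace WFx

theorem ph_ne_zero {E : Type} [Field E] {n : ℕ} (ga et : Fin (n + 2) → E) (s : ℕ)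
    (hNT : ∀ A : Finset ℕ, A.Nonempty → A ⊆ Icc s (s + n) → A.card + 1 ≤ finrank E (WA ga et A))
    (ep : Fin (n + 2) ≃ Option (Fin (n + 1)) ⊕ Empty) (ν : Empty → Fin (n + 2) → E)
    (k : Fin (n + 1)) :
    LF.Ph ep (fun l : Fin (n + 1) => fv ga (s + l)) (fun l => fv et (s + l)) ν k ≠ 0 := by
  classical
  set g : Fin (n + 1) → Fin (n + 2) → E := fun l => fv ga (s + l) with hg
  set y : Fin (n + 1) → Fin (n + 2) → E := fun l => fv et (s + l) with hy
  -- the rows
  let av : Option (Fin (n + 1)) ⊕ Empty → Fin (n + 2) → E :=
    Sum.elim (fun o => o.elim (y k) g) (fun d => d.elim)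
  let bv : Option (Fin (n + 1)) ⊕ Empty → Fin (n + 2) → E :=
    Sum.elim (fun o => o.elim 0 (Function.update y k 0)) (fun d => d.elim)
  set a : Fin (n + 2) → Fin (n + 2) → E := fun r => av (ep r) with ha
  set b : Fin (n + 2) → Fin (n + 2) → E := fun r => bv (ep r) with hb
  have hrado : (pen a b).det ≠ 0 := by
    refine rado_det a b fun B => ?_
    set B' : Finset (Fin (n + 1)) := univ.filter fun l => ep.symm (Sum.inl (some l)) ∈ B with hB'
    set r0 : Fin (n + 2) := ep.symm (Sum.inl none) with hr0
    have hle : ∀ u : Fin (n + 2) → E, (∃ r ∈ B, a r = u ∨ b r = u) → u ∈ ab E a b B := by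
      rintro u ⟨r, hr, h | h⟩
      · exact Submodule.subset_span (Or.inl ⟨r, hr, h⟩)
      · exact Submodule.subset_span (Or.inr ⟨r, hr, h⟩)
    have hga : ∀ l ∈ B', g l ∈ ab E a b B := by
      intro l hl
      refine hle _ ⟨_, (Finset.mem_filter.1 hl).2, Or.inl ?_⟩
      simp [ha, av]
    have hya : ∀ l ∈ B', l ≠ k → y l ∈ ab E a b B := by
      intro l hl hlk
      refine hle _ ⟨_, (Finset.mem_filter.1 hl).2, Or.inr ?_⟩
      simp [hb, bv, Function.update_of_ne hlk]
    have hyk : r0 ∈ B → y k ∈ ab E a b B := by
      intro h
      refine hle _ ⟨_, h, Or.inl ?_⟩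
      simp [ha, av, hr0]
    -- cardinality
    have hcard : B.card = B'.card + (if r0 ∈ B then 1 else 0) := by
      have h1 : B = (B'.image fun l => ep.symm (Sum.inl (some l))) ∪ (if r0 ∈ B then {r0} else ∅) := by
        ext r
        rw [Finset.mem_union, Finset.mem_image]
        rcases hr : ep r with o | d
        · rcases o with _ | l
          · have hr' : r = r0 := by rw [hr0, ← hr, Equiv.symm_apply_apply]
            rw [hr']
            constructor
            · intro h
              right
              rw [if_pos h]
              exact Finset.mem_singleton_self _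
            · rintro (⟨l, _, h⟩ | h)
              · have h2 := ep.symm.injective h
                simp at h2
              · by_contra h3
                rw [if_neg h3] at h
                exact absurd h (Finset.notMem_empty _)
          · have hr' : r = ep.symm (Sum.inl (some l)) := by rw [← hr, Equiv.symm_apply_apply]
            rw [hr']
            constructor
            · intro h
              left
              exact ⟨l, Finset.mem_filter.2 ⟨Finset.mem_univ _, h⟩, rfl⟩
            · rintro (⟨l', hl', h⟩ | h)
              · have h2 := ep.symm.injective h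
                simp only [Sum.inl.injEq, Option.some.injEq] at h2
                rw [← h2]
                exact (Finset.mem_filter.1 hl').2
              · by_cases h3 : r0 ∈ B
                · rw [if_pos h3, Finset.mem_singleton] at h
                  have h2 := ep.symm.injective h
                  simp at h2
                · rw [if_neg h3] at h
                  exact absurd h (Finset.notMem_empty _)
        · exact d.elim
      have h2 : Disjoint (B'.image fun l => ep.symm (Sum.inl (some l)))
          (if r0 ∈ B then {r0} else ∅) := by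
        rw [Finset.disjoint_left]
        intro r hr hr2
        obtain ⟨l, _, rfl⟩ := Finset.mem_image.1 hr
        by_cases h3 : r0 ∈ B
        · rw [if_pos h3, Finset.mem_singleton] at hr2
          have h2 := ep.symm.injective hr2
          simp at h2
        · rw [if_neg h3] at hr2
          exact absurd hr2 (Finset.notMem_empty _)
      have h3 := congrArg Finset.card h1
      rw [Finset.card_union_of_disjoint h2, Finset.card_image_of_injective] at h3
      · rw [h3]
        split_ifs <;> simp
      · intro l l' h
        have h2 := ep.symm.injective h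
        simpa using h2
    -- the sets of indices
    have hW : ∀ B1 : Finset (Fin (n + 1)), B1.Nonempty →
        (∀ l ∈ B1, g l ∈ ab E a b B) → (∀ l ∈ B1, y l ∈ ab E a b B) →
        B1.card + 1 ≤ finrank E (ab E a b B) := by
      intro B1 hne h1 h2
      have h3 := hNT (B1.image fun l : Fin (n + 1) => s + (l : ℕ)) (hne.image _) (by
        intro x hx
        obtain ⟨l, _, rfl⟩ := Finset.mem_image.1 hx
        rw [Finset.mem_Icc]
        have := l.isLt
        omega)
      rw [Finset.card_image_of_injective _ (fun l l' h => by
        have h4 : s + (l : ℕ) = s + (l' : ℕ) := h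
        exact Fin.ext (by omega))] at h3
      refine h3.trans (Submodule.finrank_mono ?_)
      refine Submodule.span_le.2 ?_
      rintro u (⟨x, hx, rfl⟩ | ⟨x, hx, rfl⟩)
      · obtain ⟨l, hl, rfl⟩ := Finset.mem_image.1 (Finset.mem_coe.1 hx)
        exact h1 l hl
      · obtain ⟨l, hl, rfl⟩ := Finset.mem_image.1 (Finset.mem_coe.1 hx)
        exact h2 l hl
    have h1k : ∀ u : Fin (n + 2) → E, u ∈ ab E a b B → u ≠ 0 → 1 ≤ finrank E (ab E a b B) := by
      intro u hu hu0
      rw [Nat.one_le_iff_ne_zero]
      intro h0
      rw [Submodule.finrank_eq_zero.1 h0, Submodule.mem_bot] at hu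
      exact hu0 hu
    have h2k : g k ≠ 0 ∧ y k ≠ 0 := by
      have h3 := hNT {s + (k : ℕ)} (Finset.singleton_nonempty _) (by
        intro x hx
        rw [Finset.mem_singleton] at hx
        rw [hx, Finset.mem_Icc]
        have := k.isLt
        omega)
      rw [Finset.card_singleton] at h3
      have h4 : WA ga et {s + (k : ℕ)} = Submodule.span E {g k, y k} := by
        rw [WA, gy, Finset.coe_singleton, Set.image_singleton, Set.image_singleton,
          Set.singleton_union]
      rw [h4] at h3
      constructor
      · intro h0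
        rw [h0, Submodule.span_insert_zero] at h3
        have := finrank_span_le_card (R := E) ({y k} : Set (Fin (n + 2) → E))
        simp at this
        omega
      · intro h0
        rw [h0, Set.pair_comm, Submodule.span_insert_zero] at h3
        have := finrank_span_le_card (R := E) ({g k} : Set (Fin (n + 2) → E))
        simp at this
        omega
    rw [hcard]
    by_cases hr : r0 ∈ B
    · rw [if_pos hr]
      rcases B'.eq_empty_or_nonempty with h0 | hne
      · rw [h0, Finset.card_empty, zero_add]
        exact h1k _ (hyk hr) h2k.2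
      · refine hW B' hne hga fun l hl => ?_
        by_cases hlk : l = k
        · rw [hlk]; exact hyk hr
        · exact hya l hl hlk
    · rw [if_neg hr, add_zero]
      by_cases hk : k ∈ B'
      · rcases (B'.erase k).eq_empty_or_nonempty with h0 | hne
        · have h3 := Finset.card_erase_of_mem hk
          rw [h0, Finset.card_empty] at h3
          have h4 : 0 < B'.card := Finset.card_pos.2 ⟨k, hk⟩
          have h5 : B'.card = 1 := by omega
          rw [h5]
          exact h1k _ (hga k hk) h2k.1
        · have h3 := hW (B'.erase k) hne (fun l hl => hga l (Finset.mem_of_mem_erase hl))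
            (fun l hl => hya l (Finset.mem_of_mem_erase hl) (Finset.ne_of_mem_erase hl))
          have h4 := Finset.card_erase_of_mem hk
          have h5 : 0 < B'.card := Finset.card_pos.2 ⟨k, hk⟩
          omega
      · rcases B'.eq_empty_or_nonempty with h0 | hne
        · rw [h0, Finset.card_empty]
          exact Nat.zero_le _
        · have h3 := hW B' hne hga fun l hl => hya l hl (fun h => hk (h ▸ hl))
          omega
  intro hPh
  apply hrado
  -- renaming of the variables
  let φ : MvPolynomial (Fin (n + 1)) E →+* MvPolynomial (Fin (n + 2)) E :=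
    (MvPolynomial.rename fun l : Fin (n + 1) => ep.symm (Sum.inl (some l))).toRingHom
  have hφC : ∀ c : E, φ (MvPolynomial.C c) = MvPolynomial.C c := fun c =>
    MvPolynomial.rename_C _ _
  have hφX : ∀ l, φ (MvPolynomial.X l) = MvPolynomial.X (ep.symm (Sum.inl (some l))) := fun l =>
    MvPolynomial.rename_X _ _
  have h1 := congrArg φ hPh
  rw [map_zero, LF.Ph, LF.dt_map] at h1
  rw [← h1, LF.dt]
  congr 1
  ext1 i j
  rw [pen, Matrix.of_apply, LF.Mx, Matrix.of_apply]
  rcases hi : ep i with o | d
  · rcases o with _ | l
    · simp only [ha, hb, av, bv, hi, Sum.elim_inl, Option.elim_none, Pi.zero_apply, map_zero,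
        mul_zero, add_zero, LF.cs, hφC]
    · have hil : ep.symm (Sum.inl (some l)) = i := by rw [← hi, Equiv.symm_apply_apply]
      by_cases hlk : l = k
      · subst hlk
        simp only [ha, hb, av, bv, hi, Sum.elim_inl, Option.elim_some, Function.update_self,
          Pi.zero_apply, map_zero, mul_zero, add_zero, LF.cs, hφC]
      · simp only [ha, hb, av, bv, hi, Sum.elim_inl, Option.elim_some,
          Function.update_of_ne hlk, LF.Rt, map_add, map_mul, hφC, hφX, hil]
  · exact d.elim

end WFx

theorem wnz (hNTT : NTT) : WNZ := by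
  intro K E _ _ _ _ _ _ _ n f e a ga et hP s h0
  classical
  have ep : Fin (n + 2) ≃ Option (Fin (n + 1)) ⊕ Empty := Fintype.equivOfCardEq (by
    rw [Fintype.card_fin, Fintype.card_sum, Fintype.card_option, Fintype.card_fin,
      Fintype.card_empty, add_zero])
  set g : Fin (n + 1) → Fin (n + 2) → E := fun l => fv ga (s + l) with hg
  set y : Fin (n + 1) → Fin (n + 2) → E := fun l => fv et (s + l) with hy
  let ν : Empty → Fin (n + 2) → E := fun d => d.elim
  have h1 : wF ga et s = LF.wC ep g y ν 0 := by
    rw [LF.wC, WFx.dt_eq_dd ep _ _ _ 0, wF, Function.update_self]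
    congr 1
    funext i
    rw [Function.update_of_ne (Fin.succAbove_ne _ _)]
    have e1 : s + 1 + (i : ℕ) = s + (((0 : Fin (n + 1)).succAbove i : Fin (n + 1)) : ℕ) := by
      rw [Fin.succAbove_zero, Fin.val_succ]
      ring
    rw [ax, e1]
  have h2 := LF.aeval_wC ep g y ν 0
  rw [← h1, h0, map_zero] at h2
  have h3 : ∏ l, LF.Ph ep g y ν l ≠ 0 := Finset.prod_ne_zero_iff.2 fun l _ =>
    WFx.ph_ne_zero ga et s (fun A hA hs => hNTT ga et hP s A hA hs) ep ν l
  exact h3 h2.symm

end Pool.Agent.Lib.CPlane.S2
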