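import Pool.Agent.Lib.CPlane.S2CAc
import Pool.Agent.Lib.CPlane.S2WF

/-!
# CA
-/

namespace Pool.Agent.Lib.CPlane.S2

open Finset Module MvPolynomial

namespace CAx

section points

variable {E : Type} [Field E] {n : ℕ}

/-- a constant vector over an algebra -/
noncomputable def cv (A : Type) [CommRing A] [Algebra E A] (v : Fin (n + 2) → E) :
    Fin (n + 2) → A := fun j => algebraMap E A (v j)

/-- the row `α_k(p, .)` -/
noncomputable def rp {A : Type} [CommRing A] [Algebra E A] (ga et : Fin (n + 2) → E) (k : ℕ)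
    (p : Fin (n + 2) → A) : Fin (n + 2) → A :=
  LF.ev (cv A (fv et k)) p • cv A (fv ga k) + LF.ev (cv A (fv ga k)) p • cv A (fv et k)

theorem cv_map {A B : Type} [CommRing A] [Algebra E A] [CommRing B] [Algebra E B] (φ : A →ₐ[E] B)
    (v : Fin (n + 2) → E) (j : Fin (n + 2)) : φ (cv A v j) = cv B v j := by
  unfold cv
  rw [AlgHom.commutes]

theorem rp_map {A B : Type} [CommRing A] [Algebra E A] [CommRing B] [Algebra E B] (φ : A →ₐ[E] B)
    (ga et : Fin (n + 2) → E) (k : ℕ) (p : Fin (n + 2) → A) (j : Fin (n + 2)) :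
    φ (rp ga et k p j) = rp ga et k (fun i => φ (p i)) j := by
  unfold rp LF.ev
  simp only [Pi.add_apply, Pi.smul_apply, smul_eq_mul, map_add, map_mul, map_sum, cv_map]

theorem cs_eq (v : Fin (n + 2) → E) :
    (LF.cs v : Fin (n + 2) → MvPolynomial (Fin (n + 2)) E) = cv _ v := rfl

theorem ax_eq (ga et : Fin (n + 2) → E) (k : ℕ) :
    ax ga et k = rp ga et k (X : Fin (n + 2) → MvPolynomial (Fin (n + 2)) E) := by
  funext j
  rfl

end points

end CAx

open CAx

/-- CA -/
theorem ca (hL1 : L1) (hNTT : NTT) (hWFI : WFI) (hWNZ : WNZ) : CA := by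
  classical
  intro K E _ _ _ _ _ _ _ n f e a ga et h3 s
  have hn2 : 2 ≤ n := by
    have h1 := h3.split.two_f
    have h2 := h3.split.two_e
    have h4 := h3.split.sum
    omega
  -- the rings
  let I := Fin (n + 2)
  let B := MvPolynomial I E
  let A := MvPolynomial I B
  have hB2 : CharP B 2 := inferInstance
  have hA2 : CharP A 2 := inferInstance
  let lst : Fin n := ⟨n - 1, by omega⟩
  have hlst : (lst : ℕ) + 1 = n := by
    change n - 1 + 1 = n
    omega
  -- (L1) for all rows
  have hPh : ∀ t : ℕ, Ph (MvPolynomial (Fin n) E) (Ico (t + 1) (t + 2 ^ a)) (fv ga) (fv et)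
      (fun i : Fin n => fv ga (t + 1 + i)) (fun i => fv et (t + 1 + i)) (fun _ => 1)
      (fun i => X i) = 0 := by
    intro t
    have h := hL1 ga et h3 t
    rw [← h]
    unfold Ph
    refine Finset.sum_congr rfl fun k _ => ?_
    congr 1
    funext i j
    rw [one_mul]
    rfl
  -- the maximal near tight set
  let W : Finset ℕ := Icc (s + 2) (s + n + 1)
  let P : Finset (Finset ℕ) := W.powerset.filter (fun Z => IsNT ga et Z ∧ s + n + 1 ∈ Z)
  have hsub1 : ({s + n + 1} : Finset ℕ) ⊆ Icc (s + 1) (s + 1 + n) := by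
    intro x hx
    rw [Finset.mem_singleton] at hx
    rw [Finset.mem_Icc]
    omega
  have hP : P.Nonempty := by
    refine ⟨{s + n + 1}, Finset.mem_filter.2 ⟨Finset.mem_powerset.2 ?_, ?_,
      Finset.mem_singleton_self _⟩⟩
    · intro x hx
      rw [Finset.mem_singleton] at hx
      rw [Finset.mem_Icc]
      omega
    · apply nt_single
      have h := hNTT ga et h3 (s + 1) {s + n + 1} (Finset.singleton_nonempty _) hsub1
      rw [Finset.card_singleton] at h
      exact h
  obtain ⟨Z, hZP, hZmax⟩ := Finset.exists_max_image P Finset.card hP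
  obtain ⟨hZW, hZnt, hZl⟩ := Finset.mem_filter.1 hZP
  rw [Finset.mem_powerset] at hZW
  have hWI : W ⊆ Icc (s + 1) (s + 1 + n) := by
    intro x hx
    have := Finset.mem_Icc.1 hx
    rw [Finset.mem_Icc]
    omega
  let J : Finset (Fin n) := Finset.univ.filter (fun i => s + 1 + 1 + (i : ℕ) ∉ Z)
  have hJ : ∀ i, i ∈ J ↔ s + 1 + 1 + (i : ℕ) ∉ Z := by
    intro i
    simp [J]
  have hlJ : lst ∉ J := by
    rw [hJ, not_not]
    have h : s + 1 + 1 + (lst : ℕ) = s + n + 1 := by omega
    rw [h]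
    exact hZl
  -- the second rank condition
  have hrank : ∀ j ∈ J, ∀ A' : Finset ℕ, A' ⊆ Icc (s + 1 + 1) (s + 1 + n) →
      s + 1 + 1 + (lst : ℕ) ∈ A' → s + 1 + 1 + (j : ℕ) ∈ A' →
      A'.card + 2 ≤ finrank E (WA ga et A') := by
    intro j hj A' hA' hl hjA
    have hlst' : s + 1 + 1 + (lst : ℕ) = s + n + 1 := by omega
    rw [hlst'] at hl
    have hA'W : A' ⊆ W := by
      intro x hx
      have := Finset.mem_Icc.1 (hA' hx)
      rw [Finset.mem_Icc]
      omega
    have h1 := hNTT ga et h3 (s + 1) A' ⟨_, hl⟩ (hA'W.trans hWI)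
    by_contra hcon
    have hntA : finrank E (WA ga et A') = A'.card + 1 := by omega
    have h2 := wa_union ga et Z A'
    have h4 := hNTT ga et h3 (s + 1) (Z ∩ A') ⟨_, Finset.mem_inter.2 ⟨hZl, hl⟩⟩
      ((Finset.inter_subset_left.trans hZW).trans hWI)
    have h5 := hNTT ga et h3 (s + 1) (Z ∪ A') ⟨_, Finset.mem_union_left _ hZl⟩
      ((Finset.union_subset hZW hA'W).trans hWI)
    have h6 := Finset.card_union_add_card_inter Z A'
    have hZnt' : finrank E (WA ga et Z) = Z.card + 1 := hZnt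
    have hU : Z ∪ A' ∈ P := by
      refine Finset.mem_filter.2 ⟨Finset.mem_powerset.2 (Finset.union_subset hZW hA'W), ?_,
        Finset.mem_union_left _ hZl⟩
      unfold IsNT
      omega
    have h7 := hZmax _ hU
    have h8 : Z ⊂ Z ∪ A' := by
      refine ⟨Finset.subset_union_left, fun h => ?_⟩
      exact (hJ j).1 hj (h (Finset.mem_union_right _ hjA))
    have h9 := Finset.card_lt_card h8
    omega
  -- points
  let p : I → A := fun i => C (X i)
  let p' : I → A := fun i => X i
  let ψ : A →ₐ[E] B := (MvPolynomial.aeval (R := B) (X : I → B)).restrictScalars E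
  have hψp : ∀ i, ψ (p i) = X i := by
    intro i
    change MvPolynomial.aeval (R := B) (X : I → B) (C (X i)) = X i
    rw [MvPolynomial.aeval_C]
    rfl
  have hψp' : ∀ i, ψ (p' i) = X i := by
    intro i
    change MvPolynomial.aeval (R := B) (X : I → B) (X i) = X i
    rw [MvPolynomial.aeval_X]
  let ι : B →ₐ[E] A := (Algebra.ofId B A).restrictScalars E
  have hι : ∀ b, ι b = C b := fun _ => rfl
  set gj : Fin n → I → A := fun i => cv A (fv ga (s + 1 + 1 + i)) with hgj
  set yj : Fin n → I → A := fun i => cv A (fv et (s + 1 + 1 + i)) with hyj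
  set aa : Fin n → A := fun i => LF.ev (yj i) p with haa
  set bb : Fin n → A := fun i => LF.ev (gj i) p with hbb
  set aa' : Fin n → A := fun i => LF.ev (yj i) p' with haa'
  set bb' : Fin n → A := fun i => LF.ev (gj i) p' with hbb'
  set u : I → A := rp ga et (s + 1) p with hu
  set u' : I → A := rp ga et (s + 1) p' with hu'
  -- images under `ψ`
  have hrw : ∀ T i j, ψ (rw' gj yj aa bb aa' bb' T i j) = ax ga et (s + 1 + 1 + i) j := by
    intro T i j
    rw [ax_eq]
    unfold rw'
    split_ifs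
    · change ψ (rp ga et (s + 1 + 1 + i) p' j) = _
      rw [rp_map]
      simp only [hψp']
    · change ψ (rp ga et (s + 1 + 1 + i) p j) = _
      rw [rp_map]
      simp only [hψp]
  have hψu : ∀ j, ψ (u j) = ax ga et (s + 1) j := by
    intro j
    rw [ax_eq, hu, rp_map]
    simp only [hψp]
  have hψu' : ∀ j, ψ (u' j) = ax ga et (s + 1) j := by
    intro j
    rw [ax_eq, hu', rp_map]
    simp only [hψp']
  have hψcv : ∀ (v : I → E) j, ψ (cv A v j) = LF.cs v j := by
    intro v j
    rw [cv_map]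
    rfl
  -- the rotated rows
  have hrot : ∀ x y : I → B, dd x y (Function.update
      (fun i : Fin n => ax ga et (s + 1 + 1 + i)) lst (ax ga et (s + 1))) =
      dd x y (fun i : Fin n => ax ga et (s + 1 + i)) := by
    intro x y
    have h := dd_rot x y (fun k => ax ga et (s + 1 + k)) lst hlst
    rw [← h]
    congr 1
    funext i
    congr 1
    funext i
    congr 1
    omega
  have hupdψ : ∀ (R : Fin n → I → A) (R' : Fin n → I → B) (x : I → A) (x' : I → B) (l : Fin n),
      (∀ i j, ψ (R i j) = R' i j) → (∀ j, ψ (x j) = x' j) →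
      ∀ i j, ψ (Function.update R l x i j) = Function.update R' l x' i j := by
    intro R R' x x' l h1 h2 i j
    by_cases hi : i = l
    · subst hi
      rw [Function.update_self, Function.update_self]
      exact h2 j
    · rw [Function.update_of_ne hi, Function.update_of_ne hi]
      exact h1 i j
  have hψdd : ∀ (x y : I → A) (R : Fin n → I → A) (x' y' : I → B) (R' : Fin n → I → B),
      (∀ j, ψ (x j) = x' j) → (∀ j, ψ (y j) = y' j) → (∀ i j, ψ (R i j) = R' i j) →
      ψ (dd x y R) = dd x' y' R' := by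
    intro x y R x' y' R' h1 h2 h4
    have h := dd_map (ψ : A →+* B) x y R
    simp only [RingHom.coe_coe] at h
    rw [h]
    congr 1
    · exact funext h1
    · exact funext h2
    · funext i j
      exact h4 i j
  have hWF1 : dd (LF.cs (fv ga (s + n + 1))) (LF.cs (fv et (s + n + 1)))
      (fun i : Fin n => ax ga et (s + 1 + i)) = wF ga et (s + 1) := (hWFI ga et s).symm
  have hlast : s + 1 + 1 + (lst : ℕ) = s + n + 1 := by omega
  have hDψ : ∀ (T : Finset (Fin n)) (x : I → A), (∀ j, ψ (x j) = ax ga et (s + 1) j) →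
      ψ (dd (gj lst) (yj lst) (Function.update (rw' gj yj aa bb aa' bb' T) lst x)) =
        wF ga et (s + 1) := by
    intro T x hx
    rw [hψdd _ _ _ (LF.cs (fv ga (s + n + 1))) (LF.cs (fv et (s + n + 1)))
      (Function.update (fun i : Fin n => ax ga et (s + 1 + 1 + i)) lst (ax ga et (s + 1)))
      (fun j => by rw [hgj]; simp only [hlast]; exact hψcv _ _)
      (fun j => by rw [hyj]; simp only [hlast]; exact hψcv _ _)
      (hupdψ _ _ _ _ _ (hrw T) hx), hrot, hWF1]
  have hne1 : wF ga et (s + 1) ≠ 0 := hWNZ ga et h3 (s + 1)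
  have hden : ∀ (T : Finset (Fin n)) (x : I → A), (∀ j, ψ (x j) = ax ga et (s + 1) j) →
      dd (gj lst) (yj lst) (Function.update (rw' gj yj aa bb aa' bb' T) lst x) ≠ 0 := by
    intro T x hx h0
    have h := hDψ T x hx
    rw [h0, map_zero] at h
    exact hne1 h.symm
  have hδ : ∀ T ⊆ J, ∀ j ∈ J, j ∉ T →
      dd (gj lst) (yj lst) (Function.update (Function.update (rw' gj yj aa bb aa' bb' T) lst
        (gj j)) j (yj j)) ≠ 0 := by
    intro T _ j hj _ h0
    have hlj : lst ≠ j := fun h => hlJ (by rw [h]; exact hj)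
    have h := ca2 ga et (s + 1) (hNTT ga et h3 (s + 1)) lst j hlj (hrank j hj)
    apply h
    have h1 := hψdd _ _ _ (LF.cs (fv ga (s + 1 + 1 + lst))) (LF.cs (fv et (s + 1 + 1 + lst)))
      _ (fun k => hψcv (fv ga (s + 1 + 1 + lst)) k) (fun k => hψcv (fv et (s + 1 + 1 + lst)) k)
      (hupdψ _ _ _ _ j (hupdψ _ _ _ _ lst (hrw T)
        (fun k => hψcv (fv ga (s + 1 + 1 + j)) k)) (fun k => hψcv (fv et (s + 1 + 1 + j)) k))
    rw [← h1]
    have h2 := congrArg ψ h0
    rw [map_zero] at h2
    exact h2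
  -- the chain
  set S : Finset ℕ := Ico (s + 1 + 1) (s + 1 + 2 ^ a) with hS
  have hchain := chain S (fun k => cv A (fv ga k)) (fun k => cv A (fv et k)) gj yj lst
    (fun x y => Ph_zero S (fv ga) (fv et) _ _ (hPh (s + 1)) x y)
    aa bb aa' bb' J hlJ u u' hδ (fun T _ => hden T u hψu)
  -- the left side over `B`
  have hι0 : ∀ (x y : I → E) , dd (cv A x) (cv A y)
      (Function.update (rw' gj yj aa bb aa' bb' ∅) lst u) =
      C (dd (LF.cs x) (LF.cs y) (fun i : Fin n => ax ga et (s + 1 + i))) := by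
    intro x y
    rw [← hrot]
    have h := dd_map (ι : B →+* A) (LF.cs x) (LF.cs y)
      (Function.update (fun i : Fin n => ax ga et (s + 1 + 1 + i)) lst (ax ga et (s + 1)))
    simp only [RingHom.coe_coe] at h
    rw [← hι, h]
    congr 1
    funext i j
    by_cases hi : i = lst
    · subst hi
      rw [Function.update_self, Function.update_self, ax_eq, rp_map]
      rfl
    · rw [Function.update_of_ne hi, Function.update_of_ne hi, ax_eq, rp_map]
      unfold rw'
      rw [if_neg (Finset.notMem_empty _)]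
      rfl
  have hDl : dd (gj lst) (yj lst) (Function.update (rw' gj yj aa bb aa' bb' ∅) lst u) =
      C (wF ga et (s + 1)) := by
    rw [← hWF1, ← hι0]
    simp only [hgj, hyj, hlast]
  have hNl : ∑ k ∈ S, dd (cv A (fv ga k)) (cv A (fv et k))
      (Function.update (rw' gj yj aa bb aa' bb' ∅) lst u) = C (wF ga et s) := by
    simp only [hι0]
    rw [← map_sum]
    congr 1
    -- (L1) at `s`
    have h0 : ∑ k ∈ Ico (s + 1) (s + 2 ^ a), dd (LF.cs (fv ga k)) (LF.cs (fv et k))
        (fun i : Fin n => ax ga et (s + 1 + i)) = 0 :=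
      Ph_zero (A := B) _ (fv ga) (fv et) _ _ (hPh s)
        (fun i => LF.ev (cv B (fv et (s + 1 + i))) X)
        (fun i => LF.ev (cv B (fv ga (s + 1 + i))) X)
    have h2a : 2 ≤ 2 ^ a := by
      have h1 := h3.hf
      have h2 := h3.split.two_f
      omega
    have h1 : dd (LF.cs (fv ga (s + 1))) (LF.cs (fv et (s + 1)))
        (fun i : Fin n => ax ga et (s + 1 + i)) = 0 := by
      refine dd_plane _ _ _ ⟨0, by omega⟩ (LF.ev (LF.cs (fv et (s + 1))) X)
        (LF.ev (LF.cs (fv ga (s + 1))) X) ?_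
      rfl
    rw [← Finset.add_sum_Ioo_eq_sum_Ico (by omega : s + 1 < s + 2 ^ a), h1, zero_add] at h0
    have h4 : S = insert (s + 2 ^ a) (Ioo (s + 1) (s + 2 ^ a)) := by
      ext x
      rw [hS, Finset.mem_Ico, Finset.mem_insert, Finset.mem_Ioo]
      omega
    rw [h4, Finset.sum_insert (by simp), h0, add_zero, fv_period h3.card h3.deg,
      fv_period h3.card h3.deg]
    rfl
  rw [hDl, hNl] at hchain
  -- coefficients
  let 𝒜 : Subalgebra E B := Algebra.adjoin E (Leaf.lf '' gy ga et Z)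
  have hconst : ∀ (x : I → E) j, cv A x j ∈ CAU.cf 𝒜 I := by
    intro x j
    exact CAU.C_mem_cf 𝒜 (𝒜.algebraMap_mem _)
  have hev' : ∀ x : I → E, LF.ev (cv A x) p' ∈ CAU.cf 𝒜 I := by
    intro x
    unfold LF.ev
    exact (CAU.cf 𝒜 I).sum_mem fun i _ => (CAU.cf 𝒜 I).mul_mem (hconst x i) (CAU.X_mem_cf 𝒜 i)
  have hevp : ∀ x : I → E, x ∈ gy ga et Z → LF.ev (cv A x) p ∈ CAU.cf 𝒜 I := by
    intro x hx
    have h : LF.ev (cv A x) p = C (Leaf.lf x) := by
      unfold LF.ev Leaf.lf
      rw [map_sum]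
      refine Finset.sum_congr rfl fun i _ => ?_
      rw [map_mul]
      rfl
    rw [h]
    exact CAU.C_mem_cf 𝒜 (Algebra.subset_adjoin ⟨x, hx, rfl⟩)
  have hrow : ∀ i j, Function.update (rw' gj yj aa bb aa' bb' J) lst u' i j ∈ CAU.cf 𝒜 I := by
    intro i j
    by_cases hi : i = lst
    · subst hi
      rw [Function.update_self, hu']
      unfold rp
      exact (CAU.cf 𝒜 I).add_mem ((CAU.cf 𝒜 I).mul_mem (hev' _) (hconst _ _))
        ((CAU.cf 𝒜 I).mul_mem (hev' _) (hconst _ _))
    · rw [Function.update_of_ne hi]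
      unfold rw'
      split_ifs with hiJ
      · exact (CAU.cf 𝒜 I).add_mem ((CAU.cf 𝒜 I).mul_mem (hev' _) (hconst _ _))
          ((CAU.cf 𝒜 I).mul_mem (hev' _) (hconst _ _))
      · rw [hJ, not_not] at hiJ
        refine (CAU.cf 𝒜 I).add_mem ((CAU.cf 𝒜 I).mul_mem (hevp _ ?_) (hconst _ _))
          ((CAU.cf 𝒜 I).mul_mem (hevp _ ?_) (hconst _ _))
        · exact Or.inr ⟨_, hiJ, rfl⟩
        · exact Or.inl ⟨_, hiJ, rfl⟩
  have hdd : ∀ x y : I → E, dd (cv A x) (cv A y)
      (Function.update (rw' gj yj aa bb aa' bb' J) lst u') ∈ CAU.cf 𝒜 I := by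
    intro x y
    unfold dd
    apply CAU.det_mem_cf
    intro i j
    refine Fin.cases ?_ (fun i => ?_) i
    · exact hconst x j
    · refine Fin.cases ?_ (fun i => ?_) i
      · exact hconst y j
      · exact hrow i j
  obtain ⟨A', hA', B', hB', hA0, hB0, hAB⟩ := CAU.exists_coeff 𝒜
    (num := wF ga et s) (den := wF ga et (s + 1)) _ _
    ((CAU.mem_cf 𝒜).1 ((CAU.cf 𝒜 I).sum_mem fun k (_ : k ∈ S) => hdd (fv ga k) (fv et k)))
    ((CAU.mem_cf 𝒜).1 (hdd (fv ga (s + 1 + 1 + lst)) (fv et (s + 1 + 1 + lst))))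
    (hden J u' hψu') (hWNZ ga et h3 s) (by
      rw [mul_comm (C (wF ga et (s + 1)))]
      exact hchain)
  exact ⟨Z, hZW, hZnt, A', hA', B', hB', hA0, hB0, hAB⟩

end Pool.Agent.Lib.CPlane.S2
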