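import Pool.Agent.Lib.CPlane.S2Stat

/-!
# CA1: the one step determinant lemma
-/

namespace Pool.Agent.Lib.CPlane.S2

open Finset Module

namespace CA1

variable {A : Type} [CommRing A] {n : ℕ}

/-- the matrix of `dd` -/
def dm (u v : Fin (n + 2) → A) (R : Fin n → Fin (n + 2) → A) : Matrix (Fin (n + 2)) (Fin (n + 2)) A :=
  Matrix.of (Fin.cons u (Fin.cons v R) : Fin (n + 2) → Fin (n + 2) → A)

theorem dd_eq (u v : Fin (n + 2) → A) (R : Fin n → Fin (n + 2) → A) :
    dd u v R = (dm u v R).det := rfl

theorem dm_update (u v : Fin (n + 2) → A) (R : Fin n → Fin (n + 2) → A) (l : Fin n)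
    (x : Fin (n + 2) → A) :
    dm u v (Function.update R l x) = (dm u v R).updateRow l.succ.succ x := by
  unfold dm
  rw [Fin.cons_update, Fin.cons_update]
  rfl

theorem dd_update (u v : Fin (n + 2) → A) (R : Fin n → Fin (n + 2) → A) (l : Fin n)
    (x : Fin (n + 2) → A) :
    dd u v (Function.update R l x) = ((dm u v R).updateRow l.succ.succ x).det := by
  rw [dd_eq, dm_update]

theorem dd_upd_add (u v : Fin (n + 2) → A) (R : Fin n → Fin (n + 2) → A) (l : Fin n)
    (x x' : Fin (n + 2) → A) :
    dd u v (Function.update R l (x + x')) =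
      dd u v (Function.update R l x) + dd u v (Function.update R l x') := by
  rw [dd_update, dd_update, dd_update, Matrix.det_updateRow_add]

theorem dd_upd_smul (u v : Fin (n + 2) → A) (R : Fin n → Fin (n + 2) → A) (l : Fin n)
    (c : A) (x : Fin (n + 2) → A) :
    dd u v (Function.update R l (c • x)) = c * dd u v (Function.update R l x) := by
  rw [dd_update, dd_update, Matrix.det_updateRow_smul]

/-- `F(R) = Σ_S [g_k, y_k, R]` as a linear function of the row `l` -/
def F {σ : Type} (S : Finset σ) (g y : σ → Fin (n + 2) → A) (R : Fin n → Fin (n + 2) → A)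
    (l : Fin n) : (Fin (n + 2) → A) →ₗ[A] A where
  toFun x := ∑ k ∈ S, dd (g k) (y k) (Function.update R l x)
  map_add' := by
    intro x x'
    rw [← Finset.sum_add_distrib]
    exact Finset.sum_congr rfl fun k _ => dd_upd_add _ _ _ _ _ _
  map_smul' := by
    intro c x
    rw [RingHom.id_apply, smul_eq_mul, Finset.mul_sum]
    exact Finset.sum_congr rfl fun k _ => dd_upd_smul _ _ _ _ _ _

theorem F_apply {σ : Type} (S : Finset σ) (g y : σ → Fin (n + 2) → A)
    (R : Fin n → Fin (n + 2) → A) (l : Fin n) (x : Fin (n + 2) → A) :
    F S g y R l x = ∑ k ∈ S, dd (g k) (y k) (Function.update R l x) := rfl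

/-- repeated rows -/
theorem dd_repeat (u v : Fin (n + 2) → A) (R : Fin n → Fin (n + 2) → A) {i i' : Fin n}
    (hi : i ≠ i') (h : R i = R i') : dd u v R = 0 := by
  rw [dd_eq]
  refine Matrix.det_zero_of_row_eq (i := i.succ.succ) (j := i'.succ.succ) ?_ ?_
  · intro h1
    exact hi (Fin.succ_injective _ (Fin.succ_injective _ h1))
  · exact h

/-- Cramer -/
theorem cramer_rows (M : Matrix (Fin (n + 2)) (Fin (n + 2)) A) (u : Fin (n + 2) → A) :
    M.det • u = ∑ i, (M.updateRow i u).det • M i := by
  have h1 := Matrix.mulVec_cramer M.transpose u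
  rw [Matrix.det_transpose] at h1
  rw [← h1]
  ext t
  simp only [Matrix.mulVec, dotProduct, Matrix.cramer_transpose_apply, Matrix.transpose_apply,
    Finset.sum_apply, Pi.smul_apply, smul_eq_mul]
  exact Finset.sum_congr rfl fun i _ => mul_comm _ _

theorem swap_rows [CharP A 2] (u v : Fin (n + 2) → A) (R : Fin n → Fin (n + 2) → A)
    {l j : Fin n} (hlj : l ≠ j) (x x' : Fin (n + 2) → A) :
    dd u v (Function.update (Function.update R l x) j x') =
      dd u v (Function.update (Function.update R l x') j x) := by
  have h0 : dd u v (Function.update (Function.update R l (x + x')) j (x + x')) = 0 := by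
    apply dd_repeat _ _ _ hlj
    rw [Function.update_of_ne hlj, Function.update_self, Function.update_self]
  have h1 : ∀ z, dd u v (Function.update (Function.update R l z) j z) = 0 := by
    intro z
    apply dd_repeat _ _ _ hlj
    rw [Function.update_of_ne hlj, Function.update_self, Function.update_self]
  rw [dd_upd_add, Function.update_comm hlj, Function.update_comm hlj, dd_upd_add, dd_upd_add,
    ← Function.update_comm hlj, ← Function.update_comm hlj, ← Function.update_comm hlj,
    ← Function.update_comm hlj, h1, h1] at h0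
  have h2 : (2 : A) = 0 := by
    have := CharP.cast_eq_zero A 2
    simpa using this
  linear_combination h0 - h2 * dd u v (Function.update (Function.update R l x') j x)

end CA1

open CA1

/-- CA1 -/
theorem ca1 {A σ : Type} [CommRing A] [CharP A 2] {n : ℕ} (g y : σ → Fin (n + 2) → A)
    (S : Finset σ) (ρ : Fin n → Fin (n + 2) → A) {l j : Fin n} (hlj : l ≠ j)
    (gl yl gj yj : Fin (n + 2) → A)
    (h1 : ∑ k ∈ S, dd (g k) (y k) (Function.update (Function.update ρ l gl) j gj) = 0)
    (h2 : ∑ k ∈ S, dd (g k) (y k) (Function.update (Function.update ρ l gl) j yj) = 0)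
    (h3 : ∑ k ∈ S, dd (g k) (y k) (Function.update (Function.update ρ l yl) j gj) = 0)
    (h4 : ∑ k ∈ S, dd (g k) (y k) (Function.update (Function.update ρ l yl) j yj) = 0)
    (u : Fin (n + 2) → A) (a b : A) :
    dd gl yl (Function.update (Function.update ρ l gj) j yj) *
      ∑ k ∈ S, dd (g k) (y k) (Function.update (Function.update ρ l u) j (a • gj + b • yj)) =
    (∑ k ∈ S, dd (g k) (y k) (Function.update (Function.update ρ l yj) j gj)) *
      dd gl yl (Function.update (Function.update ρ l u) j (a • gj + b • yj)) := by
  classical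
  set v := a • gj + b • yj with hv
  set ε := ∑ k ∈ S, dd (g k) (y k) (Function.update (Function.update ρ l yj) j gj) with hε
  set M := dm gl yl (Function.update (Function.update ρ l gj) j yj) with hM
  have hcr := cramer_rows M u
  -- the linear form `u ↦ F(.., u, v)`
  have hΨ : ∀ x, ∑ k ∈ S, dd (g k) (y k) (Function.update (Function.update ρ l x) j v) =
      F S g y (Function.update ρ j v) l x := by
    intro x
    rw [F_apply]
    refine Finset.sum_congr rfl fun k _ => ?_
    rw [Function.update_comm hlj]
  -- linear in `v`
  have hlin : ∀ x, ∑ k ∈ S, dd (g k) (y k) (Function.update (Function.update ρ l x) j v) =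
      a * ∑ k ∈ S, dd (g k) (y k) (Function.update (Function.update ρ l x) j gj) +
      b * ∑ k ∈ S, dd (g k) (y k) (Function.update (Function.update ρ l x) j yj) := by
    intro x
    rw [Finset.mul_sum, Finset.mul_sum, ← Finset.sum_add_distrib]
    refine Finset.sum_congr rfl fun k _ => ?_
    rw [hv, dd_upd_add, dd_upd_smul, dd_upd_smul]
  have hself : ∀ z : Fin (n + 2) → A,
      ∑ k ∈ S, dd (g k) (y k) (Function.update (Function.update ρ l z) j z) = 0 := by
    intro z
    refine Finset.sum_eq_zero fun k _ => ?_
    apply dd_repeat _ _ _ hlj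
    rw [Function.update_of_ne hlj, Function.update_self, Function.update_self]
  have hε' : ∑ k ∈ S, dd (g k) (y k) (Function.update (Function.update ρ l gj) j yj) = ε := by
    rw [hε]
    exact Finset.sum_congr rfl fun k _ => swap_rows _ _ _ hlj _ _
  have e1 : M.det * F S g y (Function.update ρ j v) l u =
      ∑ i, (M.updateRow i u).det * F S g y (Function.update ρ j v) l (M i) := by
    have h := congrArg (F S g y (Function.update ρ j v) l) hcr
    rw [map_smul, map_sum] at h
    simp only [map_smul, smul_eq_mul] at h
    exact h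
  have hM0 : M 0 = gl := rfl
  have hM1 : M (Fin.succ 0) = yl := rfl
  have hMs : ∀ i : Fin n, M i.succ.succ =
      Function.update (Function.update ρ l gj) j yj i := fun _ => rfl
  rw [Fin.sum_univ_succ, Fin.sum_univ_succ, hM0, hM1, ← hΨ gl, ← hΨ yl, hlin gl, hlin yl, h1, h2,
    h3, h4] at e1
  have e2 : ∑ i : Fin n, (M.updateRow i.succ.succ u).det *
      F S g y (Function.update ρ j v) l (M i.succ.succ) =
      (M.updateRow l.succ.succ u).det * (b * ε) + (M.updateRow j.succ.succ u).det * (a * ε) := by
    rw [← Finset.sum_subset (Finset.subset_univ ({l, j} : Finset (Fin n)))]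
    · rw [Finset.sum_pair hlj, hMs, hMs, Function.update_of_ne hlj, Function.update_self,
        Function.update_self, ← hΨ, ← hΨ, hlin, hlin, hself, hself, hε', mul_zero, mul_zero,
        zero_add, add_zero]
    · intro i _ hi
      simp only [Finset.mem_insert, Finset.mem_singleton, not_or] at hi
      rw [hMs, Function.update_of_ne hi.2, Function.update_of_ne hi.1, ← hΨ]
      have h5 : ∑ k ∈ S, dd (g k) (y k) (Function.update (Function.update ρ l (ρ i)) j v) = 0 := by
        refine Finset.sum_eq_zero fun k _ => ?_
        apply dd_repeat _ _ _ (Ne.symm hi.1)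
        rw [Function.update_of_ne hlj, Function.update_self, Function.update_of_ne hi.2,
          Function.update_of_ne hi.1]
      rw [h5, mul_zero]
  rw [e2] at e1
  have e3 : (M.updateRow l.succ.succ u).det =
      dd gl yl (Function.update (Function.update ρ l u) j yj) := by
    rw [hM, ← dd_update, Function.update_comm hlj, Function.update_idem,
      ← Function.update_comm hlj]
  have e4 : (M.updateRow j.succ.succ u).det =
      dd gl yl (Function.update (Function.update ρ l u) j gj) := by
    rw [hM, ← dd_update, Function.update_idem, swap_rows _ _ _ hlj]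
  have e5 : dd gl yl (Function.update (Function.update ρ l u) j v) =
      a * dd gl yl (Function.update (Function.update ρ l u) j gj) +
      b * dd gl yl (Function.update (Function.update ρ l u) j yj) := by
    rw [hv, dd_upd_add, dd_upd_smul, dd_upd_smul]
  rw [e3, e4] at e1
  rw [dd_eq, ← hM, hΨ, e1, e5]
  ring

end Pool.Agent.Lib.CPlane.S2
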