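import Pool.Agent.Lib.CPlane.S2Stat
import Pool.Agent.Lib.CPlane.S2Rado

/-!
# s = 2, row CA2: `det (g_l, y_l, g_j, y_j, α_k(x) (k ≠ l, j)) ≠ 0` if no near tight set
contains both `l` and `j`
-/

set_option linter.unusedSectionVars false

namespace Pool.Agent.Lib.CPlane.S2

open Finset Module Submodule Function

namespace CA2x

variable {E : Type} [Field E]

section gen

variable {ρ σ : Type} [Fintype ρ] [DecidableEq ρ]

/-- Rado's condition is needed only for the sets containing the constant rows -/
theorem rado_fixed (a b : ρ → ρ → E) (F : Finset ρ) (hF : ∀ r ∈ F, b r = 0)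
    (h : ∀ B : Finset ρ, F ⊆ B → B.card ≤ finrank E (ab E a b B)) (B : Finset ρ) :
    B.card ≤ finrank E (ab E a b B) := by
  classical
  have h1 := h (B ∪ (F \ B)) (by
    intro i hi
    by_cases hiB : i ∈ B
    · exact Finset.mem_union_left _ hiB
    · exact Finset.mem_union_right _ (Finset.mem_sdiff.2 ⟨hi, hiB⟩))
  rw [Finset.card_union_of_disjoint Finset.disjoint_sdiff, ab_union] at h1
  have h2 := Submodule.finrank_add_le_finrank_add_finrank (ab E a b B) (ab E a b (F \ B))
  have h3 : finrank E (ab E a b (F \ B)) ≤ (F \ B).card := by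
    have h4 : ab E a b (F \ B) ≤ span E (((F \ B).image a : Finset (ρ → E)) :
        Set (ρ → E)) := by
      unfold ab
      rw [span_le]
      rintro _ (⟨i, hi, rfl⟩ | ⟨i, hi, rfl⟩)
      · exact subset_span (Finset.mem_coe.2 (Finset.mem_image_of_mem _ hi))
      · rw [hF i (Finset.mem_sdiff.1 hi).1]
        exact Submodule.zero_mem _
    refine (Submodule.finrank_mono h4).trans ?_
    exact (finrank_span_finset_le_card _).trans Finset.card_image_le
  omega

/-- the determinant with constant rows and pencil rows, arbitrary names of the variables -/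
theorem gen_det (a b : ρ → ρ → E) (v : ρ → σ) (w : σ → ρ) (hw : ∀ r, b r ≠ 0 → w (v r) = r)
    (F : Finset ρ) (hF : ∀ r ∈ F, b r = 0)
    (h : ∀ B : Finset ρ, F ⊆ B → B.card ≤ finrank E (ab E a b B)) :
    (Matrix.of fun r c => MvPolynomial.C (a r c) + MvPolynomial.X (v r) *
      MvPolynomial.C (b r c) : Matrix ρ ρ (MvPolynomial σ E)).det ≠ 0 := by
  intro h0
  refine rado_det a b (rado_fixed a b F hF h) ?_
  have h5 := AlgHom.map_det (MvPolynomial.rename (R := E) w) (Matrix.of fun r c =>
    MvPolynomial.C (a r c) + MvPolynomial.X (v r) *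
      MvPolynomial.C (b r c) : Matrix ρ ρ (MvPolynomial σ E))
  rw [h0, map_zero] at h5
  have h6 : (MvPolynomial.rename (R := E) w).mapMatrix (Matrix.of fun r c =>
    MvPolynomial.C (a r c) + MvPolynomial.X (v r) *
      MvPolynomial.C (b r c) : Matrix ρ ρ (MvPolynomial σ E)) = pen a b := by
    refine Matrix.ext fun r c => ?_
    rw [AlgHom.mapMatrix_apply, Matrix.map_apply, Matrix.of_apply]
    unfold pen
    rw [Matrix.of_apply, map_add, map_mul, MvPolynomial.rename_C, MvPolynomial.rename_X,
      MvPolynomial.rename_C]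
    by_cases hb : b r = 0
    · rw [hb]
      simp
    · rw [hw r hb]
  rw [h6] at h5
  exact h5.symm

end gen

variable {n : ℕ}

/-- scaling the last rows -/
theorem dd_smul {A : Type} [CommRing A] (u v : Fin (n + 2) → A) (c : Fin n → A)
    (R : Fin n → Fin (n + 2) → A) :
    dd u v (fun i => c i • R i) = (∏ i, c i) * dd u v R := by
  unfold dd
  have h := Matrix.det_mul_column (Fin.cons 1 (Fin.cons 1 c) : Fin (n + 2) → A)
    (Matrix.of (Fin.cons u (Fin.cons v R) : Fin (n + 2) → Fin (n + 2) → A))
  have h2 : ∏ i, (Fin.cons 1 (Fin.cons 1 c) : Fin (n + 2) → A) i = ∏ i, c i := by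
    rw [Fin.prod_univ_succ, Fin.prod_univ_succ]
    simp
  rw [h2] at h
  rw [← h]
  congr 1
  refine Matrix.ext fun i j => ?_
  rw [Matrix.of_apply, Matrix.of_apply]
  refine Fin.cases ?_ (fun i => ?_) i
  · simp
  refine Fin.cases ?_ (fun i => ?_) i
  · simp
  · simp

theorem dd_map {A B : Type} [CommRing A] [CommRing B] (φ : A →+* B) (u v : Fin (n + 2) → A)
    (R : Fin n → Fin (n + 2) → A) :
    φ (dd u v R) = dd (fun j => φ (u j)) (fun j => φ (v j)) (fun i j => φ (R i j)) := by
  unfold dd
  rw [RingHom.map_det]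
  congr 1
  refine Matrix.ext fun i j => ?_
  rw [RingHom.mapMatrix_apply, Matrix.map_apply, Matrix.of_apply, Matrix.of_apply]
  refine Fin.cases ?_ (fun i => ?_) i
  · simp
  refine Fin.cases ?_ (fun i => ?_) i
  · simp
  · simp

section pair

variable (ga et : Fin (n + 2) → E) (s : ℕ) (l j : Fin n)

/-- constant parts of the rows -/
def aC : Fin (n + 2) → Fin (n + 2) → E :=
  Fin.cons (fv ga (s + 1 + l)) (Fin.cons (fv et (s + 1 + l))
    (update (update (fun i : Fin n => fv ga (s + 1 + i)) l (fv ga (s + 1 + j))) j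
      (fv et (s + 1 + j))))

/-- coefficients of the variables -/
def bC : Fin (n + 2) → Fin (n + 2) → E :=
  Fin.cons 0 (Fin.cons 0 (update (update (fun i : Fin n => fv et (s + 1 + i)) l 0) j 0))

theorem cond (hlj : l ≠ j)
    (h : ∀ A : Finset ℕ, A ⊆ Icc (s + 1) (s + n) → s + 1 + (l : ℕ) ∈ A → s + 1 + (j : ℕ) ∈ A →
      A.card + 2 ≤ finrank E (WA ga et A)) (B : Finset (Fin (n + 2)))
    (hB : ({0, Fin.succ 0, l.succ.succ, j.succ.succ} : Finset (Fin (n + 2))) ⊆ B) :
    B.card ≤ finrank E (ab E (aC ga et s l j) (bC et s l j) B) := by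
  classical
  set a := aC ga et s l j with ha
  set b := bC et s l j with hb
  have a0 : a 0 = fv ga (s + 1 + l) := rfl
  have a1 : a (Fin.succ 0) = fv et (s + 1 + l) := rfl
  have a2 : ∀ i : Fin n, a i.succ.succ = update (update (fun i : Fin n => fv ga (s + 1 + i)) l
    (fv ga (s + 1 + j))) j (fv et (s + 1 + j)) i := fun i => rfl
  have b2 : ∀ i : Fin n, b i.succ.succ = update (update (fun i : Fin n => fv et (s + 1 + i)) l 0)
    j 0 i := fun i => rfl
  have hB0 : (0 : Fin (n + 2)) ∈ B := hB (by simp)
  have hB1 : (Fin.succ 0 : Fin (n + 2)) ∈ B := hB (by simp)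
  have hBl : l.succ.succ ∈ B := hB (by simp)
  have hBj : j.succ.succ ∈ B := hB (by simp)
  let B' : Finset (Fin n) := Finset.univ.filter fun k => k.succ.succ ∈ B
  have hBB : B ⊆ {0, Fin.succ 0} ∪ B'.image (fun k : Fin n => k.succ.succ) := by
    intro i
    refine Fin.cases (fun _ => Finset.mem_union_left _ (by simp)) (fun i => ?_) i
    refine Fin.cases (fun _ => Finset.mem_union_left _ (by simp)) (fun i hi => ?_) i
    exact Finset.mem_union_right _ (Finset.mem_image.2 ⟨i, by simp [B', hi], rfl⟩)
  have hcard : B.card ≤ 2 + B'.card := by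
    refine (Finset.card_le_card hBB).trans ((Finset.card_union_le _ _).trans ?_)
    exact Nat.add_le_add (Finset.card_le_two) Finset.card_image_le
  let A : Finset ℕ := B'.image (fun k : Fin n => s + 1 + (k : ℕ))
  have hA : A.card = B'.card := by
    refine Finset.card_image_of_injective _ fun x y hxy => ?_
    have : s + 1 + (x : ℕ) = s + 1 + (y : ℕ) := hxy
    exact Fin.ext (by omega)
  have hmem : ∀ i ∈ B, a i ∈ ab E a b B := fun i hi => subset_span (Or.inl ⟨i, hi, rfl⟩)
  have hmemb : ∀ i ∈ B, b i ∈ ab E a b B := fun i hi => subset_span (Or.inr ⟨i, hi, rfl⟩)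
  have h1 := h A (by
    intro k hk
    obtain ⟨i, _, rfl⟩ := Finset.mem_image.1 hk
    have := i.2
    rw [Finset.mem_Icc]
    omega) (Finset.mem_image.2 ⟨l, by simp [B', hBl], rfl⟩)
    (Finset.mem_image.2 ⟨j, by simp [B', hBj], rfl⟩)
  have h2 : finrank E (WA ga et A) ≤ finrank E (ab E a b B) := by
    refine Submodule.finrank_mono ?_
    unfold WA gy
    rw [span_le]
    rintro _ (⟨k, hk, rfl⟩ | ⟨k, hk, rfl⟩)
    · obtain ⟨i, hi, rfl⟩ := Finset.mem_image.1 hk
      have hiB : i.succ.succ ∈ B := (Finset.mem_filter.1 hi).2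
      by_cases hil : i = l
      · subst hil
        exact hmem 0 hB0
      by_cases hij : i = j
      · subst hij
        have h3 := hmem _ hBl
        rw [a2, update_of_ne hlj, update_self] at h3
        exact h3
      · have h3 := hmem _ hiB
        rw [a2, update_of_ne hij, update_of_ne hil] at h3
        exact h3
    · obtain ⟨i, hi, rfl⟩ := Finset.mem_image.1 hk
      have hiB : i.succ.succ ∈ B := (Finset.mem_filter.1 hi).2
      by_cases hil : i = l
      · subst hil
        exact hmem _ hB1
      by_cases hij : i = j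
      · subst hij
        have h3 := hmem _ hBj
        rw [a2, update_self] at h3
        exact h3
      · have h3 := hmemb _ hiB
        rw [b2, update_of_ne hij, update_of_ne hil] at h3
        exact h3
  omega

/-- the determinant with the rows `R_(s+1+i)(t_(v i))`, arbitrary variables -/
theorem det_ne {σ : Type} (hlj : l ≠ j)
    (h : ∀ A : Finset ℕ, A ⊆ Icc (s + 1) (s + n) → s + 1 + (l : ℕ) ∈ A → s + 1 + (j : ℕ) ∈ A →
      A.card + 2 ≤ finrank E (WA ga et A)) (v : Fin n → σ) (w : σ → Fin (n + 2))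
    (hw : ∀ i, w (v i) = i.succ.succ) :
    dd (LF.cs (fv ga (s + 1 + l)) : Fin (n + 2) → MvPolynomial σ E)
      (LF.cs (fv et (s + 1 + l)))
      (update (update (fun i : Fin n => fun c => MvPolynomial.C (fv ga (s + 1 + i) c) +
        MvPolynomial.X (v i) * MvPolynomial.C (fv et (s + 1 + i) c)) l
        (LF.cs (fv ga (s + 1 + j)))) j (LF.cs (fv et (s + 1 + j)))) ≠ 0 := by
  classical
  have hF : ∀ r ∈ ({0, Fin.succ 0, l.succ.succ, j.succ.succ} : Finset (Fin (n + 2))),
      bC et s l j r = 0 := by
    intro r hr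
    simp only [Finset.mem_insert, Finset.mem_singleton] at hr
    rcases hr with rfl | rfl | rfl | rfl
    · rfl
    · rfl
    · change update (update (fun i : Fin n => fv et (s + 1 + i)) l 0) j 0 l = 0
      rw [update_of_ne hlj, update_self]
    · change update (update (fun i : Fin n => fv et (s + 1 + i)) l 0) j 0 j = 0
      rw [update_self]
  have key := gen_det (aC ga et s l j) (bC et s l j)
    (Fin.cons (v l) (Fin.cons (v l) v) : Fin (n + 2) → σ) w (by
      intro r
      refine Fin.cases (fun h0 => absurd rfl h0) (fun r => ?_) r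
      refine Fin.cases (fun h0 => absurd rfl h0) (fun r _ => ?_) r
      rw [Fin.cons_succ, Fin.cons_succ]
      exact hw r) _ hF (cond ga et s l j hlj h)
  unfold dd
  convert key using 2
  refine Matrix.ext fun r c => ?_
  rw [Matrix.of_apply, Matrix.of_apply]
  refine Fin.cases ?_ (fun r => ?_) r
  · simp [aC, bC, LF.cs]
  refine Fin.cases ?_ (fun r => ?_) r
  · simp only [aC, bC, Fin.cons_succ, Fin.cons_zero, LF.cs, Pi.zero_apply, map_zero, mul_zero,
      add_zero]
  · simp only [aC, bC, Fin.cons_succ]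
    by_cases hrj : r = j
    · subst hrj
      rw [update_self, update_self, update_self, Pi.zero_apply, map_zero, mul_zero, add_zero]
      rfl
    · rw [update_of_ne hrj, update_of_ne hrj, update_of_ne hrj]
      by_cases hrl : r = l
      · subst hrl
        rw [update_self, update_self, update_self, Pi.zero_apply, map_zero, mul_zero, add_zero]
        rfl
      · rw [update_of_ne hrl, update_of_ne hrl, update_of_ne hrl]

end pair

end CA2x

open CA2x

/-- row CA2 with the rows `R_k(t_k)` -/
theorem ca2R {E : Type} [Field E] {n : ℕ} (ga et : Fin (n + 2) → E) (s : ℕ) (l j : Fin n)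
    (hlj : l ≠ j)
    (h : ∀ A : Finset ℕ, A ⊆ Icc (s + 1) (s + n) → s + 1 + (l : ℕ) ∈ A → s + 1 + (j : ℕ) ∈ A →
      A.card + 2 ≤ finrank E (WA ga et A)) :
    dd (LF.cs (fv ga (s + 1 + l))) (LF.cs (fv et (s + 1 + l)))
      (update (update (RS ga et s) l (LF.cs (fv ga (s + 1 + j)))) j
        (LF.cs (fv et (s + 1 + j)))) ≠ 0 :=
  det_ne ga et s l j hlj h id (fun i => i.succ.succ) fun _ => rfl

namespace CA2x

variable {E : Type} [Field E] {n : ℕ}

/-- names of the rows for the window `[s, s + n]` -/
def epW (n : ℕ) : Fin (n + 2) ≃ Option (Fin (n + 1)) ⊕ Empty :=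
  (finSuccEquiv (n + 1)).trans (Equiv.sumEmpty _ _).symm

theorem epW_zero : epW n 0 = Sum.inl none := rfl

theorem epW_succ (i : Fin (n + 1)) : epW n i.succ = Sum.inl (some i) := by
  unfold epW
  rw [Equiv.trans_apply, finSuccEquiv_succ]
  rfl

variable (ga et : Fin (n + 2) → E) (s : ℕ)

/-- the functionals `g_k`, `y_k` of the window `[s, s + n]` -/
def gW (v : Fin (n + 2) → E) (s : ℕ) : Fin (n + 1) → Fin (n + 2) → E := fun i => fv v (s + i)

theorem Ph_ne (hNT : ∀ A : Finset ℕ, A.Nonempty → A ⊆ Icc s (s + n) →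
    A.card + 1 ≤ finrank E (WA ga et A)) (k : Fin (n + 1)) :
    LF.Ph (epW n) (gW ga s) (gW et s) Empty.elim k ≠ 0 := by
  classical
  let a : Fin (n + 2) → Fin (n + 2) → E := Fin.cons (gW et s k) (gW ga s)
  let b : Fin (n + 2) → Fin (n + 2) → E := Fin.cons 0 (update (gW et s) k 0)
  have b1 : ∀ i : Fin (n + 1), b i.succ = update (gW et s) k 0 i := fun i => rfl
  have hF : ∀ r ∈ ({0, k.succ} : Finset (Fin (n + 2))), b r = 0 := by
    intro r hr
    simp only [Finset.mem_insert, Finset.mem_singleton] at hr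
    rcases hr with rfl | rfl
    · rfl
    · rw [b1, update_self]
  have hcond : ∀ B : Finset (Fin (n + 2)), ({0, k.succ} : Finset (Fin (n + 2))) ⊆ B →
      B.card ≤ finrank E (ab E a b B) := by
    intro B hB
    have hB0 : (0 : Fin (n + 2)) ∈ B := hB (by simp)
    have hBk : k.succ ∈ B := hB (by simp)
    let B' : Finset (Fin (n + 1)) := Finset.univ.filter fun i => i.succ ∈ B
    have hBB : B ⊆ {0} ∪ B'.image (fun i : Fin (n + 1) => i.succ) := by
      intro i
      refine Fin.cases (fun _ => Finset.mem_union_left _ (by simp)) (fun i hi => ?_) i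
      exact Finset.mem_union_right _ (Finset.mem_image.2 ⟨i, by simp [B', hi], rfl⟩)
    have hcard : B.card ≤ 1 + B'.card := by
      refine (Finset.card_le_card hBB).trans ((Finset.card_union_le _ _).trans ?_)
      exact Nat.add_le_add (Finset.card_singleton _).le Finset.card_image_le
    let A : Finset ℕ := B'.image (fun i : Fin (n + 1) => s + (i : ℕ))
    have hA : A.card = B'.card := by
      refine Finset.card_image_of_injective _ fun x y hxy => ?_
      have : s + (x : ℕ) = s + (y : ℕ) := hxy
      exact Fin.ext (by omega)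
    have hmem : ∀ i ∈ B, a i ∈ ab E a b B := fun i hi => subset_span (Or.inl ⟨i, hi, rfl⟩)
    have hmemb : ∀ i ∈ B, b i ∈ ab E a b B := fun i hi => subset_span (Or.inr ⟨i, hi, rfl⟩)
    have h1 := hNT A ⟨s + k, Finset.mem_image.2 ⟨k, by simp [B', hBk], rfl⟩⟩ (by
      intro k hk
      obtain ⟨i, _, rfl⟩ := Finset.mem_image.1 hk
      have := i.2
      rw [Finset.mem_Icc]
      omega)
    have h2 : finrank E (WA ga et A) ≤ finrank E (ab E a b B) := by
      refine Submodule.finrank_mono ?_
      unfold WA gy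
      rw [span_le]
      rintro _ (⟨q, hq, rfl⟩ | ⟨q, hq, rfl⟩)
      · obtain ⟨i, hi, rfl⟩ := Finset.mem_image.1 hq
        exact hmem _ (Finset.mem_filter.1 hi).2
      · obtain ⟨i, hi, rfl⟩ := Finset.mem_image.1 hq
        by_cases hik : i = k
        · subst hik
          exact hmem 0 hB0
        · have h3 := hmemb _ (Finset.mem_filter.1 hi).2
          rw [b1, update_of_ne hik] at h3
          exact h3
    omega
  have key := gen_det a b (Fin.cons k id : Fin (n + 2) → Fin (n + 1)) Fin.succ (by
    intro r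
    refine Fin.cases (fun h0 => absurd rfl h0) (fun r _ => ?_) r
    rw [Fin.cons_succ]
    rfl) _ hF hcond
  unfold LF.Ph LF.dt LF.Mx
  convert key using 2
  refine Matrix.ext fun r c => ?_
  rw [Matrix.of_apply, Matrix.of_apply]
  refine Fin.cases ?_ (fun r => ?_) r
  · rw [epW_zero]
    change MvPolynomial.C (gW et s k c) = MvPolynomial.C (gW et s k c) +
      MvPolynomial.X k * MvPolynomial.C (0 : E)
    rw [map_zero, mul_zero, add_zero]
  · rw [epW_succ]
    simp only [Sum.elim_inl, Option.elim_some, Fin.cons_succ, a, b, id_eq]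
    by_cases hrk : r = k
    · subst hrk
      rw [update_self, update_self, Pi.zero_apply, map_zero, mul_zero, add_zero]
      rfl
    · rw [update_of_ne hrk, update_of_ne hrk]
      rfl

end CA2x

/-- row CA2 -/
theorem ca2 {E : Type} [Field E] [CharP E 2] {n : ℕ} (ga et : Fin (n + 2) → E) (s : ℕ)
    (hNT : ∀ A : Finset ℕ, A.Nonempty → A ⊆ Icc s (s + n) →
      A.card + 1 ≤ finrank E (WA ga et A)) (l j : Fin n) (hlj : l ≠ j)
    (h : ∀ A : Finset ℕ, A ⊆ Icc (s + 1) (s + n) → s + 1 + (l : ℕ) ∈ A → s + 1 + (j : ℕ) ∈ A →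
      A.card + 2 ≤ finrank E (WA ga et A)) :
    dd (LF.cs (fv ga (s + 1 + l))) (LF.cs (fv et (s + 1 + l)))
      (update (update (fun i : Fin n => ax ga et (s + 1 + i)) l
        (LF.cs (fv ga (s + 1 + j)))) j (LF.cs (fv et (s + 1 + j)))) ≠ 0 := by
  classical
  intro h0
  set U := LF.Ut (epW n) (gW ga s) (gW et s) Empty.elim with hU
  let φ : MvPolynomial (Fin (n + 2)) E →+* MvPolynomial (Fin (n + 1)) E :=
    (MvPolynomial.aeval U : MvPolynomial (Fin (n + 2)) E →ₐ[E] _).toRingHom
  have hφ : ∀ p, φ p = MvPolynomial.aeval U p := fun p => rfl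
  have hφcs : ∀ (v : Fin (n + 2) → E) c, φ (LF.cs v c) = LF.cs v c := by
    intro v c
    rw [hφ]
    simp [LF.cs, MvPolynomial.algebraMap_eq]
  have h1 := congrArg φ h0
  rw [map_zero, dd_map] at h1
  let c : Fin n → MvPolynomial (Fin (n + 1)) E := fun i => if i = l ∨ i = j then 1 else
    LF.Ph (epW n) (gW ga s) (gW et s) Empty.elim i.succ
  have hc : ∀ i, c i ≠ 0 := by
    intro i
    by_cases hi : i = l ∨ i = j
    · simp [c, hi]
    · simp only [c, if_neg hi]
      exact Ph_ne ga et s hNT _
  have hrow : (fun i j' => φ ((update (update (fun i : Fin n => ax ga et (s + 1 + i)) l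
        (LF.cs (fv ga (s + 1 + j)))) j (LF.cs (fv et (s + 1 + j)))) i j')) =
      fun i => c i • (update (update (fun i : Fin n => fun c =>
        MvPolynomial.C (fv ga (s + 1 + i) c) + MvPolynomial.X i.succ *
          MvPolynomial.C (fv et (s + 1 + i) c)) l
        (LF.cs (fv ga (s + 1 + j)))) j (LF.cs (fv et (s + 1 + j)))) i := by
    funext i c'
    by_cases hij : i = j
    · subst hij
      rw [update_self, update_self, hφcs]
      simp [c]
    by_cases hil : i = l
    · subst hil
      rw [update_of_ne hij, update_self, update_of_ne hij, update_self, hφcs]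
      simp [c]
    · rw [update_of_ne hij, update_of_ne hil, update_of_ne hij, update_of_ne hil]
      have h2 : s + 1 + (i : ℕ) = s + (i.succ : Fin (n + 1)) := by
        rw [Fin.val_succ]
        omega
      rw [hφ, ax, LF.aeval_al]
      have h3 := congrFun (LF.al_Ut (epW n) (gW ga s) (gW et s) Empty.elim i.succ) c'
      have h4 : gW ga s i.succ = fv ga (s + 1 + i) := by
        rw [h2]
        rfl
      have h5 : gW et s i.succ = fv et (s + 1 + i) := by
        rw [h2]
        rfl
      rw [h4, h5] at h3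
      simp only [c, hij, hil, or_self, if_false]
      refine h3.trans ?_
      simp only [Pi.smul_apply, LF.Rt, h4, h5]
  rw [hrow, dd_smul] at h1
  have h2 := mul_eq_zero.1 h1
  rcases h2 with h2 | h2
  · exact absurd h2 (Finset.prod_ne_zero_iff.2 fun i _ => hc i)
  · simp only [hφcs] at h2
    exact det_ne ga et s l j hlj h Fin.succ Fin.succ (fun _ => rfl) h2

end Pool.Agent.Lib.CPlane.S2
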