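import Pool.Agent.Lib.CPlane.S2CA1
import Pool.Agent.Lib.CPlane.CAU

/-!
# CA, part a: (L1) for all rows in the planes `⟨g_k, y_k⟩`; the chain
-/

namespace Pool.Agent.Lib.CPlane.S2

open Finset Module MvPolynomial

namespace CAx

/-- `dd` and ring homomorphisms -/
theorem dd_map {A B : Type} [CommRing A] [CommRing B] (φ : A →+* B) {n : ℕ}
    (u v : Fin (n + 2) → A) (R : Fin n → Fin (n + 2) → A) :
    φ (dd u v R) = dd (fun j => φ (u j)) (fun j => φ (v j)) (fun i j => φ (R i j)) := by
  unfold dd
  rw [RingHom.map_det]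
  congr 1
  ext i j
  refine Fin.cases ?_ (fun i => ?_) i
  · rfl
  · refine Fin.cases ?_ (fun i => ?_) i <;> rfl

theorem dd_scale {A : Type} [CommRing A] {n : ℕ} (u v : Fin (n + 2) → A)
    (R : Fin n → Fin (n + 2) → A) (c : Fin n → A) :
    dd u v (fun i j => c i * R i j) = (∏ i, c i) * dd u v R := by
  unfold dd
  have h := Matrix.det_mul_column (Fin.cons 1 (Fin.cons 1 c) : Fin (n + 2) → A)
    (Matrix.of (Fin.cons u (Fin.cons v R) : Fin (n + 2) → Fin (n + 2) → A))
  rw [Fin.prod_univ_succ, Fin.prod_univ_succ] at h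
  simp only [Fin.cons_zero, Fin.cons_succ, one_mul] at h
  rw [← h]
  congr 1
  ext i j
  refine Fin.cases ?_ (fun i => ?_) i
  · simp
  · refine Fin.cases ?_ (fun i => ?_) i <;> simp

variable {E : Type} [Field E] {n : ℕ} {σ : Type}

/-- the sum of the determinants over an `E`-algebra, rows `a_i g_i + b_i y_i` -/
noncomputable def Ph (A : Type) [CommRing A] [Algebra E A] (S : Finset σ)
    (g y : σ → Fin (n + 2) → E) (gi yi : Fin n → Fin (n + 2) → E) (a b : Fin n → A) : A :=
  ∑ k ∈ S, dd (fun j => algebraMap E A (g k j)) (fun j => algebraMap E A (y k j))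
    (fun i j => a i * algebraMap E A (gi i j) + b i * algebraMap E A (yi i j))

theorem Ph_map {A B : Type} [CommRing A] [Algebra E A] [CommRing B] [Algebra E B]
    (φ : A →ₐ[E] B) (S : Finset σ)
    (g y : σ → Fin (n + 2) → E) (gi yi : Fin n → Fin (n + 2) → E) (a b : Fin n → A) :
    φ (Ph A S g y gi yi a b) = Ph B S g y gi yi (fun i => φ (a i)) (fun i => φ (b i)) := by
  unfold Ph
  rw [map_sum]
  refine Finset.sum_congr rfl fun k _ => ?_
  have h := dd_map (φ : A →+* B) (fun j => algebraMap E A (g k j)) (fun j => algebraMap E A (y k j))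
    (fun i j => a i * algebraMap E A (gi i j) + b i * algebraMap E A (yi i j))
  simp only [RingHom.coe_coe, map_add, map_mul, AlgHom.commutes] at h
  exact h

theorem Ph_scale {A : Type} [CommRing A] [Algebra E A] (S : Finset σ)
    (g y : σ → Fin (n + 2) → E) (gi yi : Fin n → Fin (n + 2) → E) (a b c : Fin n → A) :
    Ph A S g y gi yi (fun i => c i * a i) (fun i => c i * b i) =
      (∏ i, c i) * Ph A S g y gi yi a b := by
  unfold Ph
  rw [Finset.mul_sum]
  refine Finset.sum_congr rfl fun k _ => ?_
  rw [← dd_scale]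
  congr 1
  funext i j
  ring

/-- if the sum vanishes for the rows `g_i + t_i y_i` with independent `t_i`, it vanishes for all
rows in the planes -/
theorem Ph_zero (S : Finset σ) (g y : σ → Fin (n + 2) → E) (gi yi : Fin n → Fin (n + 2) → E)
    (h : Ph (MvPolynomial (Fin n) E) S g y gi yi (fun _ => 1) (fun i => X i) = 0)
    {A : Type} [CommRing A] [Algebra E A] (a b : Fin n → A) : Ph A S g y gi yi a b = 0 := by
  -- the universal ring
  have h0 : Ph (MvPolynomial (Fin n ⊕ Fin n) E) S g y gi yi (fun i => X (Sum.inl i))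
      (fun i => X (Sum.inr i)) = 0 := by
    let A0 := MvPolynomial (Fin n ⊕ Fin n) E
    let K0 := FractionRing A0
    have hinj : Function.Injective (Algebra.ofId A0 K0) := IsFractionRing.injective A0 K0
    have hinj' : Function.Injective ((Algebra.ofId A0 K0).restrictScalars E) := hinj
    apply hinj'
    rw [map_zero, Ph_map]
    set a' : Fin n → K0 := fun i => (Algebra.ofId A0 K0).restrictScalars E (X (Sum.inl i))
    set b' : Fin n → K0 := fun i => (Algebra.ofId A0 K0).restrictScalars E (X (Sum.inr i))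
    have ha' : ∀ i, a' i ≠ 0 := by
      intro i h1
      have h2 : (X (Sum.inl i) : A0) = 0 := hinj' (by rw [map_zero]; exact h1)
      exact MvPolynomial.X_ne_zero _ h2
    have h1 : Ph K0 S g y gi yi (fun _ => 1) (fun i => b' i / a' i) = 0 := by
      have h2 := congrArg (MvPolynomial.aeval (R := E) (fun i => b' i / a' i)) h
      rw [map_zero, Ph_map] at h2
      simpa using h2
    have h3 := Ph_scale S g y gi yi (fun _ => (1 : K0)) (fun i => b' i / a' i) a'
    rw [h1, mul_zero] at h3
    rw [← h3]
    congr 1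
    · funext i
      rw [mul_one]
    · funext i
      rw [mul_div_cancel₀ _ (ha' i)]
  have h1 := congrArg (MvPolynomial.aeval (R := E) (Sum.elim a b)) h0
  rw [map_zero, Ph_map] at h1
  simpa using h1

end CAx

end Pool.Agent.Lib.CPlane.S2
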