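import Pool.Agent.Lib.CPlane.S2CAa

/-!
# CA, part b: the chain
-/

namespace Pool.Agent.Lib.CPlane.S2

open Finset Module

namespace CAx

/-- the rows: `a' g + b' y` for `i ∈ T`, `a g + b y` for the others -/
def rw' {A : Type} [CommRing A] {n : ℕ} (gj yj : Fin n → Fin (n + 2) → A)
    (a b a' b' : Fin n → A) (T : Finset (Fin n)) (i : Fin n) : Fin (n + 2) → A :=
  if i ∈ T then a' i • gj i + b' i • yj i else a i • gj i + b i • yj i

/-- the chain -/
theorem chain {A σ : Type} [CommRing A] [IsDomain A] [CharP A 2] {n : ℕ} (S : Finset σ)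
    (g y : σ → Fin (n + 2) → A) (gj yj : Fin n → Fin (n + 2) → A) (l : Fin n)
    (hL : ∀ a b : Fin n → A, ∑ k ∈ S, dd (g k) (y k) (fun i => a i • gj i + b i • yj i) = 0)
    (a b a' b' : Fin n → A) (J : Finset (Fin n)) (hl : l ∉ J) (u u' : Fin (n + 2) → A)
    (hδ : ∀ T ⊆ J, ∀ j ∈ J, j ∉ T →
      dd (gj l) (yj l) (Function.update (Function.update (rw' gj yj a b a' b' T) l (gj j)) j
        (yj j)) ≠ 0)
    (hden : ∀ T ⊆ J, dd (gj l) (yj l) (Function.update (rw' gj yj a b a' b' T) l u) ≠ 0) :
    (∑ k ∈ S, dd (g k) (y k) (Function.update (rw' gj yj a b a' b' ∅) l u)) *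
      dd (gj l) (yj l) (Function.update (rw' gj yj a b a' b' J) l u') =
    (∑ k ∈ S, dd (g k) (y k) (Function.update (rw' gj yj a b a' b' J) l u')) *
      dd (gj l) (yj l) (Function.update (rw' gj yj a b a' b' ∅) l u) := by
  classical
  have hL' : ∀ r : Fin n → Fin (n + 2) → A, (∀ i, ∃ α β : A, r i = α • gj i + β • yj i) →
      ∑ k ∈ S, dd (g k) (y k) r = 0 := by
    intro r hr
    choose α β hαβ using hr
    have h : r = fun i => α i • gj i + β i • yj i := funext hαβ
    rw [h]
    exact hL α β
  have hrow : ∀ (T : Finset (Fin n)) (i : Fin n), ∃ α β : A,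
      rw' gj yj a b a' b' T i = α • gj i + β • yj i := by
    intro T i
    unfold rw'
    split_ifs
    · exact ⟨_, _, rfl⟩
    · exact ⟨_, _, rfl⟩
  have hg : ∀ i, ∃ α β : A, gj i = α • gj i + β • yj i := fun i => ⟨1, 0, by simp⟩
  have hy : ∀ i, ∃ α β : A, yj i = α • gj i + β • yj i := fun i => ⟨0, 1, by simp⟩
  have hupd : ∀ (r : Fin n → Fin (n + 2) → A) (i0 : Fin n) (x : Fin (n + 2) → A),
      (∀ i, ∃ α β : A, r i = α • gj i + β • yj i) →
      (∃ α β : A, x = α • gj i0 + β • yj i0) →
      ∀ i, ∃ α β : A, Function.update r i0 x i = α • gj i + β • yj i := by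
    intro r i0 x hr hx i
    by_cases h : i = i0
    · subst h
      rw [Function.update_self]
      exact hx
    · rw [Function.update_of_ne h]
      exact hr i
  set N : Finset (Fin n) → (Fin (n + 2) → A) → A := fun T u =>
    ∑ k ∈ S, dd (g k) (y k) (Function.update (rw' gj yj a b a' b' T) l u) with hN
  set D : Finset (Fin n) → (Fin (n + 2) → A) → A := fun T u =>
    dd (gj l) (yj l) (Function.update (rw' gj yj a b a' b' T) l u) with hD
  -- one step
  have step : ∀ T ⊆ J, ∀ j ∈ J, j ∉ T → N T u * D (insert j T) u = N (insert j T) u * D T u := by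
    intro T hT j hj hjT
    have hlj : l ≠ j := fun h => hl (by rw [h]; exact hj)
    have c1 := hL' _ (hupd _ j _ (hupd _ l _ (hrow T) (hg l)) (hg j))
    have c2 := hL' _ (hupd _ j _ (hupd _ l _ (hrow T) (hg l)) (hy j))
    have c3 := hL' _ (hupd _ j _ (hupd _ l _ (hrow T) (hy l)) (hg j))
    have c4 := hL' _ (hupd _ j _ (hupd _ l _ (hrow T) (hy l)) (hy j))
    have s1 := ca1 g y S (rw' gj yj a b a' b' T) hlj (gj l) (yj l) (gj j) (yj j) c1 c2 c3 c4 u
      (a j) (b j)
    have s2 := ca1 g y S (rw' gj yj a b a' b' T) hlj (gj l) (yj l) (gj j) (yj j) c1 c2 c3 c4 u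
      (a' j) (b' j)
    have r1 : Function.update (Function.update (rw' gj yj a b a' b' T) l u) j
        (a j • gj j + b j • yj j) = Function.update (rw' gj yj a b a' b' T) l u := by
      have h : a j • gj j + b j • yj j =
          Function.update (rw' gj yj a b a' b' T) l u j := by
        rw [Function.update_of_ne hlj.symm]
        unfold rw'
        rw [if_neg hjT]
      rw [h, Function.update_eq_self]
    have r2 : Function.update (Function.update (rw' gj yj a b a' b' T) l u) j
        (a' j • gj j + b' j • yj j) = Function.update (rw' gj yj a b a' b' (insert j T)) l u := by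
      funext i
      by_cases hij : i = j
      · subst hij
        rw [Function.update_self, Function.update_of_ne hlj.symm]
        unfold rw'
        rw [if_pos (Finset.mem_insert_self _ _)]
      · rw [Function.update_of_ne hij]
        by_cases hil : i = l
        · subst hil
          rw [Function.update_self, Function.update_self]
        · rw [Function.update_of_ne hil, Function.update_of_ne hil]
          unfold rw'
          simp only [Finset.mem_insert, hij, false_or]
    rw [r1] at s1
    rw [r2] at s2
    have hd := hδ T hT j hj hjT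
    apply mul_left_cancel₀ hd
    simp only [hN, hD]
    linear_combination (dd (gj l) (yj l)
      (Function.update (rw' gj yj a b a' b' (insert j T)) l u)) * s1 -
      (dd (gj l) (yj l) (Function.update (rw' gj yj a b a' b' T) l u)) * s2
  have hP : ∀ T : Finset (Fin n), T ⊆ J → N ∅ u * D T u = N T u * D ∅ u := by
    intro T
    induction T using Finset.induction_on with
    | empty =>
      intro _
      rfl
    | insert j T hjT ih =>
      intro hT
      have hT' : T ⊆ J := (Finset.subset_insert _ _).trans hT
      have h1 := ih hT'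
      have h2 := step T hT' j (hT (Finset.mem_insert_self _ _)) hjT
      apply mul_left_cancel₀ (hden T hT')
      change D T u * (N ∅ u * D (insert j T) u) = D T u * (N (insert j T) u * D ∅ u)
      linear_combination (D (insert j T) u) * h1 + (D ∅ u) * h2
  have h1 := hP J (Finset.Subset.refl _)
  have h2 : N J u * D J u' = N J u' * D J u :=
    CAU.ca_u S g y (gj l) (yj l) (rw' gj yj a b a' b' J) l
      (hL' _ (hupd _ l _ (hrow J) (hg l))) (hL' _ (hupd _ l _ (hrow J) (hy l))) u u'
  change N ∅ u * D J u' = N J u' * D ∅ u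
  apply mul_left_cancel₀ (hden J (Finset.Subset.refl _))
  change D J u * (N ∅ u * D J u') = D J u * (N J u' * D ∅ u)
  linear_combination (D J u') * h1 + (D ∅ u) * h2

end CAx

end Pool.Agent.Lib.CPlane.S2
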