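import Pool.Agent.Lib.CPlane.S2CAb
import Pool.Agent.Lib.CPlane.S2CA2

/-!
# CA, part c: permutations of rows, union lemma, period
-/

namespace Pool.Agent.Lib.CPlane.S2

open Finset Module

namespace CAx

/-- permutation of the rows in characteristic two -/
theorem dd_perm {A : Type} [CommRing A] [CharP A 2] {n : ℕ} (u v : Fin (n + 2) → A)
    (R : Fin n → Fin (n + 2) → A) (π : Equiv.Perm (Fin n)) :
    dd u v (fun i => R (π i)) = dd u v R := by
  classical
  let π1 : Equiv.Perm (Fin (n + 1)) := Equiv.Perm.decomposeFin.symm (0, π)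
  let π2 : Equiv.Perm (Fin (n + 2)) := Equiv.Perm.decomposeFin.symm (0, π1)
  have h10 : π1 0 = 0 := by simp [π1]
  have h1s : ∀ i : Fin n, π1 i.succ = (π i).succ := by
    intro i
    simp [π1]
  have h20 : π2 0 = 0 := by simp [π2]
  have h2s : ∀ i : Fin (n + 1), π2 i.succ = (π1 i).succ := by
    intro i
    simp [π2]
  have hM : (Matrix.of (Fin.cons u (Fin.cons v (fun i => R (π i))) :
      Fin (n + 2) → Fin (n + 2) → A)) =
      (Matrix.of (Fin.cons u (Fin.cons v R) : Fin (n + 2) → Fin (n + 2) → A)).submatrix π2 id := by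
    ext i j
    rw [Matrix.submatrix_apply]
    refine Fin.cases ?_ (fun i => ?_) i
    · rw [h20]
      rfl
    · rw [h2s]
      refine Fin.cases ?_ (fun i => ?_) i
      · rw [h10]
        rfl
      · rw [h1s]
        rfl
  unfold dd
  rw [hM, Matrix.det_permute]
  have h2 : ((Equiv.Perm.sign π2 : ℤˣ) : A) = 1 := by
    rcases Int.units_eq_one_or (Equiv.Perm.sign π2) with h | h
    · rw [h]
      simp
    · rw [h]
      have := CharTwo.neg_eq (1 : A)
      simp [this]
  rw [h2, one_mul]

/-- the rows `1, .., n - 1` and then the row `0` -/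
theorem dd_rot {A : Type} [CommRing A] [CharP A 2] {n : ℕ} (u v : Fin (n + 2) → A)
    (R : ℕ → Fin (n + 2) → A) (l : Fin n) (hl : (l : ℕ) + 1 = n) :
    dd u v (Function.update (fun i : Fin n => R ((i : ℕ) + 1)) l (R 0)) =
      dd u v (fun i : Fin n => R i) := by
  obtain ⟨n, rfl⟩ : ∃ k, n = k + 1 := ⟨l, hl.symm⟩
  have hl' : l = Fin.last n := Fin.ext (by rw [Fin.val_last]; omega)
  subst hl'
  have h := dd_perm u v (fun i : Fin (n + 1) => R i) (finRotate (n + 1))
  rw [← h]
  congr 1
  funext i
  by_cases hi : i = Fin.last n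
  · subst hi
    rw [Function.update_self, finRotate_last]
    rfl
  · rw [Function.update_of_ne hi, coe_finRotate_of_ne_last hi]

/-- a row in the plane `⟨u, v⟩` -/
theorem dd_plane {A : Type} [CommRing A] {n : ℕ} (u v : Fin (n + 2) → A)
    (R : Fin n → Fin (n + 2) → A) (i : Fin n) (α β : A) (h : R i = α • u + β • v) :
    dd u v R = 0 := by
  have h1 : dd u v R = CAU.ddL u v R i (R i) := by
    rw [CAU.ddL_apply, Function.update_eq_self]
    rfl
  rw [h1, h, map_add, map_smul, map_smul, CAU.ddL_left, CAU.ddL_right, smul_zero, smul_zero,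
    add_zero]

/-- submodularity -/
theorem wa_union {E : Type} [Field E] {N : ℕ} (ga et : Fin N → E) (A B : Finset ℕ) :
    finrank E (WA ga et (A ∪ B)) + finrank E (WA ga et (A ∩ B)) ≤
      finrank E (WA ga et A) + finrank E (WA ga et B) := by
  have h1 : WA ga et (A ∪ B) = WA ga et A ⊔ WA ga et B := by
    unfold WA
    rw [← Submodule.span_union]
    congr 1
    unfold gy
    rw [Finset.coe_union, Set.image_union, Set.image_union]
    ext x
    simp only [Set.mem_union]
    tauto
  have h2 : WA ga et (A ∩ B) ≤ WA ga et A ⊓ WA ga et B := by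
    apply le_inf
    · apply Submodule.span_mono
      unfold gy
      rw [Finset.coe_inter]
      exact Set.union_subset_union (Set.image_mono Set.inter_subset_left)
        (Set.image_mono Set.inter_subset_left)
    · apply Submodule.span_mono
      unfold gy
      rw [Finset.coe_inter]
      exact Set.union_subset_union (Set.image_mono Set.inter_subset_right)
        (Set.image_mono Set.inter_subset_right)
  have h3 := Submodule.finrank_sup_add_finrank_inf_eq (WA ga et A) (WA ga et B)
  have h4 := Submodule.finrank_mono h2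
  rw [h1]
  omega

/-- period -/
theorem fv_period {K E : Type} [Field K] [Fintype K] [Field E] [Finite E] [Algebra K E] {N a : ℕ}
    (hK : Fintype.card K = 2) (hE : finrank K E = 2 ^ a) (v : Fin N → E) (s : ℕ) :
    fv v (s + 2 ^ a) = fv v s := by
  have := Fintype.ofFinite E
  have hcard : Fintype.card E = 2 ^ 2 ^ a := by
    rw [Module.card_eq_pow_finrank (K := K), hK, hE]
  funext i
  unfold fv
  rw [pow_add, pow_mul, ← hcard, FiniteField.pow_card]

/-- a single index -/
theorem nt_single {E : Type} [Field E] {N : ℕ} (ga et : Fin N → E) (k : ℕ)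
    (h : 1 + 1 ≤ finrank E (WA ga et {k})) : IsNT ga et {k} := by
  unfold IsNT
  rw [Finset.card_singleton]
  refine le_antisymm ?_ h
  have h1 : WA ga et {k} = Submodule.span E (Set.range ![fv ga k, fv et k]) := by
    unfold WA gy
    congr 1
    rw [Finset.coe_singleton, Set.image_singleton, Set.image_singleton]
    ext x
    simp [or_comm, eq_comm]
  rw [h1]
  exact le_trans (finrank_range_le_card _) (by simp)

end CAx

end Pool.Agent.Lib.CPlane.S2
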