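import Pool.Agent.Lib.CPlane.S2Stat

/-!
# s = 2: rows of `dd`, change of the free row, the one step lemma
-/

namespace Pool.Agent.Lib.CPlane.S2

open Finset Module Pool.Agent.Lib.CPlane.P2

namespace ddx

set_option linter.unusedSectionVars false

variable {A B : Type} [CommRing A] [CommRing B] {n : ℕ}

/-- the matrix of `dd` -/
def DM (u v : Fin (n + 2) → A) (R : Fin n → Fin (n + 2) → A) :
    Matrix (Fin (n + 2)) (Fin (n + 2)) A :=
  Matrix.of (Fin.cons u (Fin.cons v R) : Fin (n + 2) → Fin (n + 2) → A)

theorem dd_eq (u v : Fin (n + 2) → A) (R : Fin n → Fin (n + 2) → A) : dd u v R = (DM u v R).det :=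
  rfl

theorem DM_zero (u v : Fin (n + 2) → A) (R : Fin n → Fin (n + 2) → A) : DM u v R 0 = u := rfl

theorem DM_one (u v : Fin (n + 2) → A) (R : Fin n → Fin (n + 2) → A) :
    DM u v R (Fin.succ 0) = v := rfl

theorem DM_ss (u v : Fin (n + 2) → A) (R : Fin n → Fin (n + 2) → A) (i : Fin n) :
    DM u v R i.succ.succ = R i := rfl

theorem ss_inj {i j : Fin n} : i.succ.succ = j.succ.succ ↔ i = j :=
  ⟨fun h => Fin.succ_injective _ (Fin.succ_injective _ h), fun h => by rw [h]⟩

theorem rows_ext {M M' : Matrix (Fin (n + 2)) (Fin (n + 2)) A} (h0 : M 0 = M' 0)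
    (h1 : M (Fin.succ 0) = M' (Fin.succ 0)) (h : ∀ i : Fin n, M i.succ.succ = M' i.succ.succ) :
    M = M' := by
  funext a
  refine Fin.cases h0 (fun b => ?_) a
  exact Fin.cases h1 h b

theorem DM_upd (u v w : Fin (n + 2) → A) (R : Fin n → Fin (n + 2) → A) (i : Fin n) :
    DM u v (Function.update R i w) = (DM u v R).updateRow i.succ.succ w := by
  refine rows_ext ?_ ?_ fun k => ?_
  · rw [Matrix.updateRow_ne (Fin.succ_ne_zero _).symm]
    rfl
  · rw [Matrix.updateRow_ne]
    · rfl
    · intro h
      exact Fin.succ_ne_zero i (Fin.succ_injective _ h).symm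
  · by_cases hk : k = i
    · subst hk
      rw [Matrix.updateRow_self, DM_ss, Function.update_self]
    · rw [Matrix.updateRow_ne (fun h => hk (ss_inj.1 h)), DM_ss, DM_ss,
        Function.update_of_ne hk]

theorem DM_u (u v w : Fin (n + 2) → A) (R : Fin n → Fin (n + 2) → A) :
    DM w v R = (DM u v R).updateRow 0 w := by
  refine rows_ext ?_ ?_ fun k => ?_
  · rw [Matrix.updateRow_self]
    rfl
  · rw [Matrix.updateRow_ne (Fin.succ_ne_zero _)]
    rfl
  · rw [Matrix.updateRow_ne (Fin.succ_ne_zero _)]
    rfl

theorem DM_v (u v w : Fin (n + 2) → A) (R : Fin n → Fin (n + 2) → A) :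
    DM u w R = (DM u v R).updateRow (Fin.succ 0) w := by
  refine rows_ext ?_ ?_ fun k => ?_
  · rw [Matrix.updateRow_ne (Fin.succ_ne_zero _).symm]
    rfl
  · rw [Matrix.updateRow_self]
    rfl
  · rw [Matrix.updateRow_ne]
    · rfl
    · intro h
      exact Fin.succ_ne_zero k (Fin.succ_injective _ h)

theorem add_row (u v w w' : Fin (n + 2) → A) (R : Fin n → Fin (n + 2) → A) (i : Fin n) :
    dd u v (Function.update R i (w + w')) =
      dd u v (Function.update R i w) + dd u v (Function.update R i w') := by
  simp only [dd_eq, DM_upd, Matrix.det_updateRow_add]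

theorem smul_row (u v w : Fin (n + 2) → A) (R : Fin n → Fin (n + 2) → A) (i : Fin n) (a : A) :
    dd u v (Function.update R i (a • w)) = a * dd u v (Function.update R i w) := by
  simp only [dd_eq, DM_upd, Matrix.det_updateRow_smul]

theorem map (φ : A →+* B) (u v : Fin (n + 2) → A) (R : Fin n → Fin (n + 2) → A) :
    φ (dd u v R) = dd (fun j => φ (u j)) (fun j => φ (v j)) (fun i j => φ (R i j)) := by
  rw [dd_eq, RingHom.map_det, dd_eq]
  congr 1
  ext a b
  refine Fin.cases rfl (fun a => ?_) a
  exact Fin.cases rfl (fun a => rfl) a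

/-- two equal rows -/
theorem row_eq (u v : Fin (n + 2) → A) (R : Fin n → Fin (n + 2) → A) (i j : Fin n) (hij : i ≠ j)
    (h : R i = R j) : dd u v R = 0 := by
  refine Matrix.det_zero_of_row_eq (i := i.succ.succ) (j := j.succ.succ)
    (fun h' => hij (ss_inj.1 h')) ?_
  exact h

theorem row_eq_u (u v : Fin (n + 2) → A) (R : Fin n → Fin (n + 2) → A) (i : Fin n)
    (h : R i = u) : dd u v R = 0 := by
  refine Matrix.det_zero_of_row_eq (i := i.succ.succ) (j := 0) (Fin.succ_ne_zero _) ?_
  exact h

theorem row_eq_v (u v : Fin (n + 2) → A) (R : Fin n → Fin (n + 2) → A) (i : Fin n)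
    (h : R i = v) : dd u v R = 0 := by
  refine Matrix.det_zero_of_row_eq (i := i.succ.succ) (j := Fin.succ 0) ?_ ?_
  · intro h'
    exact Fin.succ_ne_zero i (Fin.succ_injective _ h')
  · exact h

/-- a row in the span of `u`, `v` -/
theorem row_span (u v : Fin (n + 2) → A) (R : Fin n → Fin (n + 2) → A) (i : Fin n) (a b : A)
    (h : R i = a • u + b • v) : dd u v R = 0 := by
  rw [← Function.update_eq_self i R, h, add_row, smul_row, smul_row,
    row_eq_u u v _ i (Function.update_self i u R), row_eq_v u v _ i (Function.update_self i v R),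
    mul_zero, mul_zero, add_zero]

/-- permutation of the rows, characteristic two -/
theorem perm [CharP A 2] (u v : Fin (n + 2) → A) (R : Fin n → Fin (n + 2) → A)
    (σ : Equiv.Perm (Fin n)) : dd u v (fun i => R (σ i)) = dd u v R := by
  have hs : ∀ τ : Equiv.Perm (Fin (n + 2)), ((Equiv.Perm.sign τ : ℤ) : A) = 1 := by
    intro τ
    rcases Int.units_eq_one_or (Equiv.Perm.sign τ) with h | h
    · rw [h]
      simp
    · rw [h]
      simp only [Units.val_neg, Units.val_one, Int.cast_neg, Int.cast_one]
      exact CharTwo.neg_eq 1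
  have h := Matrix.det_permute (Equiv.Perm.decomposeFin.symm (0,
    Equiv.Perm.decomposeFin.symm (0, σ))) (DM u v R)
  rw [hs, one_mul] at h
  rw [dd_eq, dd_eq, ← h]
  congr 1
  refine rows_ext ?_ ?_ fun k => ?_
  · rfl
  · show v = _
    have : (Equiv.Perm.decomposeFin.symm (0, Equiv.Perm.decomposeFin.symm (0, σ)) :
        Equiv.Perm (Fin (n + 2))) (Fin.succ 0) = Fin.succ 0 := by
      rw [Equiv.Perm.decomposeFin_symm_apply_succ]
      simp
    show v = (DM u v R) ((Equiv.Perm.decomposeFin.symm (0, Equiv.Perm.decomposeFin.symm (0, σ)) :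
        Equiv.Perm (Fin (n + 2))) (Fin.succ 0))
    rw [this]
    rfl
  · show R (σ k) = (DM u v R) ((Equiv.Perm.decomposeFin.symm (0,
      Equiv.Perm.decomposeFin.symm (0, σ)) : Equiv.Perm (Fin (n + 2))) k.succ.succ)
    have : (Equiv.Perm.decomposeFin.symm (0, Equiv.Perm.decomposeFin.symm (0, σ)) :
        Equiv.Perm (Fin (n + 2))) k.succ.succ = (σ k).succ.succ := by
      rw [Equiv.Perm.decomposeFin_symm_apply_succ, Equiv.Perm.decomposeFin_symm_apply_succ]
      simp
    rw [this]
    rfl

/-- Cramer: `det(M) u = Σ_i det(M, row i replaced by u) M_i` -/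
theorem cramer_row {ι : Type} [Fintype ι] [DecidableEq ι] (M : Matrix ι ι A) (u : ι → A) :
    M.det • u = ∑ i, (M.updateRow i u).det • M i := by
  have h := Matrix.mulVec_cramer (Matrix.transpose M) u
  rw [Matrix.det_transpose] at h
  rw [← h]
  funext c
  simp only [Matrix.mulVec, dotProduct, Matrix.transpose_apply, Finset.sum_apply, Pi.smul_apply,
    smul_eq_mul]
  refine Finset.sum_congr rfl fun i _ => ?_
  rw [Matrix.cramer_transpose_apply, mul_comm]

theorem sum_rows {β : Type} [AddCommMonoid β] (F : Fin (n + 2) → β) :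
    ∑ i, F i = F 0 + (F (Fin.succ 0) + ∑ i : Fin n, F i.succ.succ) := by
  rw [Fin.sum_univ_succ, Fin.sum_univ_succ]

/-- a linear functional evaluated by Cramer -/
theorem cramer_lin (F : (Fin (n + 2) → A) →ₗ[A] A) (u v w : Fin (n + 2) → A)
    (R : Fin n → Fin (n + 2) → A) :
    dd u v R * F w = dd w v R * F u + (dd u w R * F v +
      ∑ i, dd u v (Function.update R i w) * F (R i)) := by
  have h := congrArg F (cramer_row (DM u v R) w)
  rw [map_smul, map_sum, sum_rows] at h
  simp only [map_smul, smul_eq_mul, DM_zero, DM_one, DM_ss, ← DM_upd, ← DM_u, ← DM_v] at h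
  exact h

/-- `Σ_k dd g_k y_k (R, row i replaced by w)` as a linear functional of `w` -/
def Lf {ι : Type} (S : Finset ι) (g y : ι → Fin (n + 2) → A) (R : Fin n → Fin (n + 2) → A)
    (i : Fin n) : (Fin (n + 2) → A) →ₗ[A] A where
  toFun w := ∑ k ∈ S, dd (g k) (y k) (Function.update R i w)
  map_add' w w' := by
    rw [← Finset.sum_add_distrib]
    exact Finset.sum_congr rfl fun k _ => add_row _ _ _ _ _ _
  map_smul' a w := by
    rw [RingHom.id_apply, smul_eq_mul, Finset.mul_sum]
    exact Finset.sum_congr rfl fun k _ => smul_row _ _ _ _ _ _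

theorem Lf_apply {ι : Type} (S : Finset ι) (g y : ι → Fin (n + 2) → A)
    (R : Fin n → Fin (n + 2) → A) (i : Fin n) (w : Fin (n + 2) → A) :
    Lf S g y R i w = ∑ k ∈ S, dd (g k) (y k) (Function.update R i w) := rfl

end ddx

open ddx

variable {A : Type} [CommRing A] {n : ℕ}

/-- change of the free row -/
theorem ca0 {ι : Type} (S : Finset ι) (g y : ι → Fin (n + 2) → A) (R : Fin n → Fin (n + 2) → A)
    (l : Fin n) (gl yl : Fin (n + 2) → A)
    (hg : ∑ k ∈ S, dd (g k) (y k) (Function.update R l gl) = 0)
    (hy : ∑ k ∈ S, dd (g k) (y k) (Function.update R l yl) = 0) (u w : Fin (n + 2) → A) :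
    dd gl yl (Function.update R l u) * ∑ k ∈ S, dd (g k) (y k) (Function.update R l w) =
      dd gl yl (Function.update R l w) * ∑ k ∈ S, dd (g k) (y k) (Function.update R l u) := by
  have h := cramer_lin (Lf S g y R l) gl yl w (Function.update R l u)
  rw [Lf_apply, Lf_apply, Lf_apply, hg, hy, mul_zero, mul_zero, zero_add, zero_add,
    Finset.sum_eq_single l] at h
  · rw [Function.update_idem, Function.update_self, Lf_apply] at h
    exact h
  · intro p _ hp
    rw [Function.update_of_ne hp, Lf_apply]
    rw [Finset.sum_eq_zero, mul_zero]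
    intro k _
    refine row_eq _ _ _ l p (Ne.symm hp) ?_
    rw [Function.update_self, Function.update_of_ne hp]
  · intro h'
    exact absurd (Finset.mem_univ _) h'

/-- **(CA1)**: `δ · [D, u, r_j] = ε · [g_l, y_l, u, r_j]`, `δ = [g_l, y_l, g_j, y_j]`,
`ε = [D, g_j, y_j]` -/
theorem ca1m [CharP A 2] {ι : Type} (S : Finset ι) (g y : ι → Fin (n + 2) → A)
    (R : Fin n → Fin (n + 2) → A) (l j : Fin n) (hlj : l ≠ j) (gl yl gj yj : Fin (n + 2) → A)
    (h : ∀ rl ∈ ({gl, yl} : Set (Fin (n + 2) → A)), ∀ rj ∈ ({gj, yj} : Set (Fin (n + 2) → A)),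
      ∑ k ∈ S, dd (g k) (y k) (Function.update (Function.update R l rl) j rj) = 0)
    (u : Fin (n + 2) → A) (a b : A) :
    dd gl yl (Function.update (Function.update R l gj) j yj) *
      ∑ k ∈ S, dd (g k) (y k) (Function.update (Function.update R l u) j (a • gj + b • yj)) =
    (∑ k ∈ S, dd (g k) (y k) (Function.update (Function.update R l gj) j yj)) *
      dd gl yl (Function.update (Function.update R l u) j (a • gj + b • yj)) := by
  set v : Fin (n + 2) → A := a • gj + b • yj with hv
  have hc : ∀ (R' : Fin n → Fin (n + 2) → A) (p q : Fin (n + 2) → A),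
      Function.update (Function.update R' l p) j q = Function.update (Function.update R' j q) l p :=
    fun R' p q => Function.update_comm hlj p q R'
  -- linearity in the row `j`
  have hj : ∀ (p q : Fin (n + 2) → A) (w : Fin (n + 2) → A),
      dd p q (Function.update (Function.update R l w) j v) =
        a * dd p q (Function.update (Function.update R l w) j gj) +
        b * dd p q (Function.update (Function.update R l w) j yj) := by
    intro p q w
    rw [hv, add_row, smul_row, smul_row]
  have hjS : ∀ w : Fin (n + 2) → A,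
      (∑ k ∈ S, dd (g k) (y k) (Function.update (Function.update R l w) j v)) =
        a * (∑ k ∈ S, dd (g k) (y k) (Function.update (Function.update R l w) j gj)) +
        b * (∑ k ∈ S, dd (g k) (y k) (Function.update (Function.update R l w) j yj)) := by
    intro w
    rw [Finset.mul_sum, Finset.mul_sum, ← Finset.sum_add_distrib]
    exact Finset.sum_congr rfl fun k _ => hj _ _ _
  -- swapping the rows `l` and `j`
  have hsw : ∀ (p q c d : Fin (n + 2) → A),
      dd p q (Function.update (Function.update R l c) j d) =
        dd p q (Function.update (Function.update R l d) j c) := by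
    intro p q c d
    rw [← perm p q (Function.update (Function.update R l d) j c) (Equiv.swap l j)]
    congr 1
    funext i
    by_cases h1 : i = l
    · subst h1
      rw [Equiv.swap_apply_left, Function.update_self, Function.update_of_ne hlj,
        Function.update_self]
    · by_cases h2 : i = j
      · subst h2
        rw [Equiv.swap_apply_right, Function.update_self, Function.update_of_ne hlj,
          Function.update_self]
      · rw [Equiv.swap_apply_of_ne_of_ne h1 h2, Function.update_of_ne h2,
          Function.update_of_ne h1, Function.update_of_ne h2, Function.update_of_ne h1]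
  have hgg : ∀ p q c : Fin (n + 2) → A,
      dd p q (Function.update (Function.update R l c) j c) = 0 := by
    intro p q c
    refine row_eq _ _ _ l j hlj ?_
    rw [Function.update_self, Function.update_of_ne hlj, Function.update_self]
  -- Cramer for `u` in the basis `g_l, y_l, g_j, y_j, ..`
  have hF : ∀ w, Lf S g y (Function.update R j v) l w =
      ∑ k ∈ S, dd (g k) (y k) (Function.update (Function.update R l w) j v) := by
    intro w
    rw [Lf_apply]
    exact Finset.sum_congr rfl fun k _ => by rw [hc]
  have hz : ∀ rl ∈ ({gl, yl} : Set (Fin (n + 2) → A)),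
      Lf S g y (Function.update R j v) l rl = 0 := by
    intro rl hrl
    rw [hF, hjS, h rl hrl gj (by simp), h rl hrl yj (by simp), mul_zero, mul_zero, add_zero]
  have hcr := cramer_lin (Lf S g y (Function.update R j v) l) gl yl u
    (Function.update (Function.update R l gj) j yj)
  rw [hz gl (by simp), hz yl (by simp), mul_zero, mul_zero, zero_add, zero_add,
    Finset.sum_eq_add l j hlj] at hcr
  · rw [hF, hF, hF, Function.update_of_ne hlj, Function.update_self, Function.update_self] at hcr
    have u1 : Function.update (Function.update (Function.update R l gj) j yj) l u =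
        Function.update (Function.update R l u) j yj := by
      rw [← hc (Function.update R l gj) u yj, Function.update_idem]
    have u2 : Function.update (Function.update (Function.update R l gj) j yj) j u =
        Function.update (Function.update R l gj) j u := Function.update_idem _ _ _
    rw [hcr, hjS gj, hjS yj, u1, u2, hj gl yl u, hsw gl yl u gj]
    have e1 : (∑ k ∈ S, dd (g k) (y k) (Function.update (Function.update R l gj) j gj)) = 0 :=
      Finset.sum_eq_zero fun k _ => hgg _ _ _
    have e2 : (∑ k ∈ S, dd (g k) (y k) (Function.update (Function.update R l yj) j yj)) = 0 :=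
      Finset.sum_eq_zero fun k _ => hgg _ _ _
    have e3 : (∑ k ∈ S, dd (g k) (y k) (Function.update (Function.update R l yj) j gj)) =
        ∑ k ∈ S, dd (g k) (y k) (Function.update (Function.update R l gj) j yj) :=
      Finset.sum_congr rfl fun k _ => hsw _ _ _ _
    rw [e1, e2, e3]
    ring
  · intro p _ hp
    rw [Function.update_of_ne hp.2, Function.update_of_ne hp.1, hF]
    rw [Finset.sum_eq_zero, mul_zero]
    intro k _
    refine row_eq _ _ _ l p (Ne.symm hp.1) ?_
    rw [Function.update_of_ne hlj, Function.update_self, Function.update_of_ne hp.2,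
      Function.update_of_ne hp.1]
  · intro h'
    exact absurd (Finset.mem_univ _) h'
  · intro h'
    exact absurd (Finset.mem_univ _) h'

end Pool.Agent.Lib.CPlane.S2
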