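import Mathlib

/-!
# Binary digits on the chain `t_i = X ^ (2 ^ e i)`
-/

namespace Pool.Agent.Lib.CPlane.S2

open Finset

variable {E ι : Type} [Field E]

/-- the number `Σ d_i 2 ^ (e i)` -/
def dn [Fintype ι] (e : ι → ℕ) (d : ι →₀ ℕ) : ℕ := ∑ i, d i * 2 ^ e i

/-- the substitution `t_i = X ^ (2 ^ e i)` -/
noncomputable def chain (e : ι → ℕ) : MvPolynomial ι E →ₐ[E] Polynomial E :=
  MvPolynomial.aeval fun i => (Polynomial.X : Polynomial E) ^ 2 ^ e i

@[simp] theorem chain_X (e : ι → ℕ) (i : ι) :
    chain e (MvPolynomial.X i : MvPolynomial ι E) = Polynomial.X ^ 2 ^ e i := by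
  unfold chain
  rw [MvPolynomial.aeval_X]

@[simp] theorem chain_C (e : ι → ℕ) (c : E) :
    chain e (MvPolynomial.C c : MvPolynomial ι E) = Polynomial.C c := by
  unfold chain
  rw [MvPolynomial.aeval_C]
  rfl

variable [Fintype ι]

theorem chain_monomial (e : ι → ℕ) (d : ι →₀ ℕ) (c : E) :
    chain e (MvPolynomial.monomial d c) = Polynomial.C c * Polynomial.X ^ dn e d := by
  unfold chain dn
  rw [MvPolynomial.aeval_monomial, Finsupp.prod_fintype _ _ (fun i => pow_zero _),
    ← Finset.prod_pow_eq_pow_sum]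
  congr 1
  refine Finset.prod_congr rfl fun i _ => ?_
  rw [← pow_mul, mul_comm]

theorem chain_eq (e : ι → ℕ) (p : MvPolynomial ι E) :
    chain e p = ∑ d ∈ p.support, Polynomial.C (p.coeff d) * Polynomial.X ^ dn e d := by
  conv_lhs => rw [p.as_sum]
  rw [map_sum]
  exact Finset.sum_congr rfl fun d _ => chain_monomial e d _

/-- the lower digits do not reach `2 ^ k` -/
theorem low_lt (e : ι → ℕ) (he : Function.Injective e) (k : ℕ) (d : ι →₀ ℕ)
    (hd : ∀ i, e i < k → d i ≤ 1) : (∑ i with e i < k, d i * 2 ^ e i) < 2 ^ k := by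
  classical
  calc (∑ i with e i < k, d i * 2 ^ e i) ≤ ∑ i with e i < k, 2 ^ e i := by
        refine Finset.sum_le_sum fun i hi => ?_
        have h := hd i (Finset.mem_filter.1 hi).2
        calc d i * 2 ^ e i ≤ 1 * 2 ^ e i := Nat.mul_le_mul_right _ h
          _ = 2 ^ e i := one_mul _
    _ = ∑ j ∈ (Finset.univ.filter fun i => e i < k).image e, 2 ^ j := by
        rw [Finset.sum_image]
        intro a _ b _ hab
        exact he hab
    _ ≤ ∑ j ∈ Finset.range k, 2 ^ j := by
        refine Finset.sum_le_sum_of_subset fun j hj => ?_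
        obtain ⟨i, hi, rfl⟩ := Finset.mem_image.1 hj
        exact Finset.mem_range.2 (Finset.mem_filter.1 hi).2
    _ < 2 ^ k := by
        have := Nat.geomSum_lt (m := 2) (s := Finset.range k) le_rfl
          (n := k) (fun j hj => Finset.mem_range.1 hj)
        exact this

/-- if the digits are at most two and the place `k - 1` is not used, the lower digits do not reach
`2 ^ k` -/
theorem low_lt' (e : ι → ℕ) (he : Function.Injective e) (k : ℕ) (hk : ∀ i, e i + 1 ≠ k)
    (d : ι →₀ ℕ) (hd : ∀ i, d i ≤ 2) : (∑ i with e i < k, d i * 2 ^ e i) < 2 ^ k := by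
  classical
  rcases k with _ | k
  · simp
  have h1 : (∑ i with e i < k, 2 ^ e i) < 2 ^ k := by
    have h2 := low_lt e he k (Finsupp.equivFunOnFinite.symm fun _ => 1) (fun i _ => by simp)
    simpa using h2
  have h3 : (Finset.univ.filter fun i => e i < k + 1) = Finset.univ.filter fun i => e i < k := by
    ext i
    simp only [Finset.mem_filter, Finset.mem_univ, true_and]
    have := hk i
    omega
  rw [h3]
  calc (∑ i with e i < k, d i * 2 ^ e i) ≤ ∑ i with e i < k, 2 * 2 ^ e i :=
        Finset.sum_le_sum fun i _ => Nat.mul_le_mul_right _ (hd i)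
    _ = 2 * ∑ i with e i < k, 2 ^ e i := by rw [Finset.mul_sum]
    _ < 2 ^ (k + 1) := by
        rw [pow_succ]
        omega

/-- splitting the number at the place `e j` -/
theorem dn_split (e : ι → ℕ) (he : Function.Injective e) (d : ι →₀ ℕ) (j : ι) :
    ∃ h, dn e d = (∑ i with e i < e j, d i * 2 ^ e i) + 2 ^ e j * (d j + 2 * h) := by
  classical
  have h1 : dn e d = (∑ i with e i < e j, d i * 2 ^ e i) +
      ∑ i with ¬ e i < e j, d i * 2 ^ e i := by
    unfold dn
    rw [Finset.sum_filter_add_sum_filter_not]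
  have h2 : (∑ i with ¬ e i < e j, d i * 2 ^ e i) = d j * 2 ^ e j +
      ∑ i ∈ (Finset.univ.filter fun i => ¬ e i < e j).erase j, d i * 2 ^ e i := by
    exact (Finset.add_sum_erase (Finset.univ.filter fun i => ¬ e i < e j)
      (fun i => d i * 2 ^ e i) (by simp)).symm
  have h3 : 2 ^ (e j + 1) ∣
      ∑ i ∈ (Finset.univ.filter fun i => ¬ e i < e j).erase j, d i * 2 ^ e i := by
    refine Finset.dvd_sum fun i hi => ?_
    rw [Finset.mem_erase, Finset.mem_filter] at hi
    have hne : e i ≠ e j := fun h => hi.1 (he h)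
    refine Dvd.dvd.mul_left (pow_dvd_pow 2 ?_) _
    have := hi.2.2
    omega
  obtain ⟨h, hh⟩ := h3
  refine ⟨h, ?_⟩
  rw [h1, h2, hh, pow_succ]
  ring

/-- a multilinear polynomial which vanishes on the chain is zero -/
theorem multilinear_zero (e : ι → ℕ) (he : Function.Injective e) (p : MvPolynomial ι E)
    (hp : ∀ i, p.degreeOf i ≤ 1) (h0 : chain e p = 0) : p = 0 := by
  classical
  rw [chain_eq] at h0
  have hle : ∀ d ∈ p.support, ∀ i, d i ≤ 1 := fun d hd i =>
    le_trans (MvPolynomial.monomial_le_degreeOf i hd) (hp i)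
  have hinj : ∀ d ∈ p.support, ∀ d' ∈ p.support, dn e d = dn e d' → d = d' := by
    intro d hd d' hd' h
    ext j
    obtain ⟨a, ha⟩ := dn_split e he d j
    obtain ⟨a', ha'⟩ := dn_split e he d' j
    have h1 := low_lt e he (e j) d (fun i _ => hle d hd i)
    have h2 := low_lt e he (e j) d' (fun i _ => hle d' hd' i)
    have h3 := hle d hd j
    have h4 := hle d' hd' j
    have hpos : 0 < 2 ^ e j := Nat.two_pow_pos _
    have h5 : dn e d / 2 ^ e j = d j + 2 * a := by
      rw [ha, Nat.add_mul_div_left _ _ hpos, Nat.div_eq_of_lt h1, zero_add]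
    have h6 : dn e d' / 2 ^ e j = d' j + 2 * a' := by
      rw [ha', Nat.add_mul_div_left _ _ hpos, Nat.div_eq_of_lt h2, zero_add]
    rw [h] at h5
    omega
  ext d
  rw [MvPolynomial.coeff_zero]
  by_contra hne
  have hmem : d ∈ p.support := MvPolynomial.mem_support_iff.2 hne
  have h1 := congrArg (fun q => Polynomial.coeff q (dn e d)) h0
  simp only [Polynomial.finsetSum_coeff, Polynomial.coeff_C_mul, Polynomial.coeff_X_pow,
    Polynomial.coeff_zero] at h1
  rw [Finset.sum_eq_single d] at h1
  · simp at h1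
    exact hne h1
  · intro d' hd' hdd
    have : dn e d ≠ dn e d' := fun h => hdd (hinj d hmem d' hd' h).symm
    rw [if_neg this, mul_zero]
  · intro h
    exact absurd hmem h

/-- a polynomial of degree at most two in each variable vanishes on the chain: if the place before
`e j` is not used, then the part with exponent one at `t_j` vanishes on the chain -/
theorem pderiv_zero [CharP E 2] (e : ι → ℕ) (he : Function.Injective e) (p : MvPolynomial ι E)
    (hp : ∀ i, p.degreeOf i ≤ 2) (h0 : chain e p = 0) (j : ι) (hj : ∀ i, e i + 1 ≠ e j) :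
    chain e (MvPolynomial.pderiv j p) = 0 := by
  classical
  have hle : ∀ d ∈ p.support, ∀ i, d i ≤ 2 := fun d hd i =>
    le_trans (MvPolynomial.monomial_le_degreeOf i hd) (hp i)
  have h2E : (2 : E) = 0 := CharTwo.two_eq_zero
  have h1 : chain e (MvPolynomial.X j * MvPolynomial.pderiv j p) =
      ∑ d ∈ p.support, Polynomial.C ((d j : E) * p.coeff d) * Polynomial.X ^ dn e d := by
    conv_lhs => rw [p.as_sum]
    rw [map_sum, Finset.mul_sum, map_sum]
    refine Finset.sum_congr rfl fun d _ => ?_
    rw [MvPolynomial.X_mul_pderiv_monomial, map_nsmul, chain_monomial, nsmul_eq_mul, map_mul,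
      Polynomial.C_eq_natCast, mul_assoc]
  have h3 : chain e (MvPolynomial.X j * MvPolynomial.pderiv j p) = 0 := by
    rw [h1]
    ext n
    rw [Polynomial.coeff_zero, Polynomial.finsetSum_coeff]
    have h4 := congrArg (fun q => ((n / 2 ^ e j : ℕ) : E) * Polynomial.coeff q n) h0
    simp only [chain_eq, Polynomial.finsetSum_coeff, Polynomial.coeff_zero, mul_zero,
      Finset.mul_sum] at h4
    rw [← h4]
    refine Finset.sum_congr rfl fun d hd => ?_
    rw [Polynomial.coeff_C_mul, Polynomial.coeff_C_mul, Polynomial.coeff_X_pow]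
    by_cases hn : n = dn e d
    · rw [if_pos hn, mul_one, mul_one]
      congr 1
      obtain ⟨a, ha⟩ := dn_split e he d j
      have h5 := low_lt' e he (e j) hj d (hle d hd)
      have h6 : n / 2 ^ e j = d j + 2 * a := by
        rw [hn, ha, Nat.add_mul_div_left _ _ (Nat.two_pow_pos _), Nat.div_eq_of_lt h5, zero_add]
      rw [h6]
      push_cast
      rw [h2E]
      ring
    · rw [if_neg hn, mul_zero, mul_zero, mul_zero]
  rw [map_mul, chain_X] at h3
  rcases mul_eq_zero.1 h3 with h | h
  · exact absurd h (pow_ne_zero _ Polynomial.X_ne_zero)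
  · exact h

end Pool.Agent.Lib.CPlane.S2
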