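import Pool.Agent.Lib.CPlane.S2Red

/-!
# Kernel of order two, the reduction: the cut has dimension at least two
-/

namespace Pool.Agent.Lib.CPlane.S2

open Module Finset Pool.Agent.Lib.CPlane.P2

section red

variable {K E : Type} [Field K] [Fintype K] [CharP K 2] [Field E] [Finite E] [Algebra K E]

omit [Fintype K] [CharP K 2] in
/-- if `t G ⊆ G` then `t ^ |G| = t` -/
theorem pow_card_of_stable (G : Submodule K E) (t : E) (ht : t ≠ 0)
    (hG : ∀ x ∈ G, t * x ∈ G) : t ^ Nat.card G = t := by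
  classical
  have : Fintype E := Fintype.ofFinite E
  set S : Finset E := Finset.univ.filter (fun x => x ∈ G ∧ x ≠ 0) with hS
  have hmem : ∀ x, x ∈ S ↔ x ∈ G ∧ x ≠ 0 := fun x => by simp [hS]
  have h0 : (0 : E) ∉ S := fun h => ((hmem 0).1 h).2 rfl
  have hcard : Nat.card G = S.card + 1 := by
    have hmi : ∀ x, x ∈ insert (0 : E) S ↔ x ∈ G := by
      intro x
      rw [Finset.mem_insert, hmem]
      constructor
      · rintro (rfl | h)
        · exact G.zero_mem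
        · exact h.1
      · intro h
        by_cases hx : x = 0
        · exact Or.inl hx
        · exact Or.inr ⟨h, hx⟩
    rw [← Finset.card_insert_of_notMem h0, ← Nat.subtype_card (insert (0 : E) S) hmi]
  have himg : S.image (fun x => t * x) = S := by
    refine Finset.eq_of_subset_of_card_le ?_ ?_
    · intro z hz
      obtain ⟨x, hx, rfl⟩ := Finset.mem_image.1 hz
      rw [hmem] at hx ⊢
      exact ⟨hG x hx.1, mul_ne_zero ht hx.2⟩
    · rw [Finset.card_image_of_injective S (mul_right_injective₀ ht)]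
  have hprod : ∏ x ∈ S, x = t ^ S.card * ∏ x ∈ S, x := by
    conv_lhs => rw [← himg]
    rw [Finset.prod_image (fun x _ y _ h => mul_right_injective₀ ht h),
      Finset.prod_mul_distrib, Finset.prod_const]
  have hne : ∏ x ∈ S, x ≠ 0 := Finset.prod_ne_zero_iff.2 fun x hx => ((hmem x).1 hx).2
  have h1 : t ^ S.card = 1 := by
    have h2 : (1 : E) * ∏ x ∈ S, x = t ^ S.card * ∏ x ∈ S, x := by rw [one_mul]; exact hprod
    exact (mul_right_cancel₀ hne h2).symm
  rw [hcard, pow_succ, h1, one_mul]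

/-- some point has weight less than `dim G` -/
theorem exists_small {a : ℕ} (G Y : Submodule K E) (hGY : finrank K G = finrank K Y)
    (hG : G ≠ ⊥) (h2 : 2 * finrank K Y ≤ 2 ^ (a + 1))
    (hGL : NoSub (Fintype.card K) (2 ^ (a + 1)) G)
    (hii : ∀ b : E, b ≠ 0 → (∃ g ∈ G, ∃ y ∈ Y, g + b ^ 2 * y = b) →
      ∃ y ∈ Y, y ≠ 0 ∧ b ^ 2 * y ∈ G) :
    ∃ b : E, b ≠ 0 ∧ Gb G Y b ≠ ⊥ ∧ Gb G Y b ≠ G := by
  classical
  have hch : CharP E 2 := charP_of_injective_algebraMap (algebraMap K E).injective 2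
  have hfd : FiniteDimensional K E := Module.Finite.of_finite
  by_contra hcon
  push Not at hcon
  have hpos : 0 < finrank K G := by
    rw [Nat.pos_iff_ne_zero]
    intro h
    exact hG (Submodule.finrank_eq_zero.1 h)
  -- `G = g² Y` for every `g ∈ G`, `g ≠ 0`
  have key : ∀ g ∈ G, g ≠ 0 → ∀ x ∈ G, ∃ y ∈ Y, g ^ 2 * y = x := by
    intro g hg hg0 x hx
    obtain ⟨y', hy', hy'0, hgy⟩ := hii g hg0 ⟨g, hg, 0, Y.zero_mem, by rw [mul_zero, add_zero]⟩
    have h1 : Gb G Y g ≠ ⊥ := (Submodule.ne_bot_iff _).2 ⟨g ^ 2 * y', ⟨hgy, y', hy', rfl⟩,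
      mul_ne_zero (pow_ne_zero _ hg0) hy'0⟩
    have h3 := hcon g hg0 h1
    rw [← h3] at hx
    exact hx.2
  have key2 : ∀ g ∈ G, g ≠ 0 → ∀ y ∈ Y, g ^ 2 * y ∈ G := by
    intro g hg hg0
    -- multiplication by `g²` maps `Y` onto a space containing `G`, of the same dimension
    let μ : E →ₗ[K] E := LinearMap.mulLeft K (g ^ 2)
    have hμ : ∀ x, μ x = g ^ 2 * x := fun x => rfl
    have hinj : Function.Injective μ := fun x y h =>
      mul_left_cancel₀ (pow_ne_zero 2 hg0) (by rw [← hμ, ← hμ, h])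
    have h1 : G ≤ Y.map μ := by
      intro x hx
      obtain ⟨y, hy, h⟩ := key g hg hg0 x hx
      exact ⟨y, hy, h⟩
    have h3 : finrank K (Y.map μ) = finrank K Y :=
      (Submodule.equivMapOfInjective μ hinj Y).finrank_eq.symm
    have h4 : G = Y.map μ := Submodule.eq_of_le_of_finrank_eq h1 (by rw [h3, hGY])
    intro y hy
    rw [h4]
    exact ⟨y, hy, rfl⟩
  obtain ⟨u, hu, v, hv, hu0, hv0, huv⟩ := hGL (finrank K G) hpos (by
    rw [pow_succ] at h2 ⊢
    have := Nat.two_pow_pos a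
    omega)
  refine huv ?_
  have hst : ∀ x ∈ G, (u / v) ^ 2 * x ∈ G := by
    intro x hx
    obtain ⟨y, hy, rfl⟩ := key v hv hv0 x hx
    have h1 : (u / v) ^ 2 * (v ^ 2 * y) = u ^ 2 * y := by
      field_simp
    rw [h1]
    exact key2 u hu hu0 y hy
  have h1 := pow_card_of_stable G ((u / v) ^ 2) (pow_ne_zero _ (div_ne_zero hu0 hv0)) hst
  have hcard : Nat.card G = Fintype.card K ^ finrank K G := by
    rw [← Nat.card_eq_fintype_card]
    exact Module.natCard_eq_pow_finrank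
  rw [hcard, ← pow_mul, mul_comm 2, pow_mul] at h1
  exact frobenius_inj E 2 (by rw [frobenius_def, frobenius_def]; exact h1)

theorem reduction2s {a : ℕ} (G Y : Submodule K E) (hG : G ≠ ⊥) (hY : Y ≠ ⊥)
    (hGL : ∃ u ∈ G, ∃ v ∈ G, u ≠ 0 ∧ v ≠ 0 ∧ (u / v) ^ Fintype.card K ^ 2 ^ a ≠ u / v)
    (hii : ∀ b : E, b ≠ 0 → (∃ g ∈ G, ∃ y ∈ Y, g + b ^ 2 * y = b) →
      ∃ y ∈ Y, y ≠ 0 ∧ b ^ 2 * y ∈ G)
    (hsm : ∃ b : E, b ≠ 0 ∧ Gb G Y b ≠ ⊥ ∧ Gb G Y b ≠ G) :
    ∃ Z : Submodule K E, Z ≤ G ∧ 2 ≤ finrank K Z ∧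
      (∀ b : E, b ≠ 0 → (∃ g ∈ Z, ∃ y ∈ Y, g + b ^ 2 * y = b) →
        ∃ y ∈ Y, y ≠ 0 ∧ b ^ 2 * y ∈ Z) ∧
      (∃ u ∈ Z, ∃ v ∈ Z, u ≠ 0 ∧ v ≠ 0 ∧ (u / v) ^ Fintype.card K ^ 2 ^ a ≠ u / v) ∧
      ∃ b : E, b ≠ 0 ∧ ∃ y0 ∈ Y, y0 ≠ 0 ∧ b ^ 2 * y0 ∈ Z ∧
        ∀ y ∈ Y, b ^ 2 * y ∈ Z → ∃ k : K, y = k • y0 := by
  classical
  have hch : CharP E 2 := charP_of_injective_algebraMap (algebraMap K E).injective 2
  have hfd : FiniteDimensional K E := Module.Finite.of_finite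
  have hGbG : ∀ b, Gb G Y b ≤ G := fun b g hg => hg.1
  -- the point with the smallest weight
  let D : Set E := {b | b ≠ 0 ∧ Gb G Y b ≠ ⊥}
  have hDne : D.Nonempty := by
    obtain ⟨g, hg, hg0⟩ := Submodule.exists_mem_ne_zero_of_ne_bot hG
    obtain ⟨y, hy, hy0⟩ := Submodule.exists_mem_ne_zero_of_ne_bot hY
    have hsurj : Function.Surjective (frobenius E 2) :=
      Finite.surjective_of_injective (frobenius_inj E 2)
    obtain ⟨b, hb⟩ := hsurj (g / y)
    rw [frobenius_def] at hb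
    refine ⟨b, ?_, ?_⟩
    · intro h
      rw [h, zero_pow two_ne_zero] at hb
      exact (div_ne_zero hg0 hy0) hb.symm
    · refine (Submodule.ne_bot_iff _).2 ⟨g, ⟨hg, y, hy, ?_⟩, hg0⟩
      rw [hb]
      field_simp
  obtain ⟨b0, ⟨hb00, hb0⟩, hmin⟩ := Set.exists_min_image D (fun b => finrank K (Gb G Y b))
    (Set.toFinite D) hDne
  set H := Gb G Y b0 with hH
  obtain ⟨u, hu, hu0⟩ := Submodule.exists_mem_ne_zero_of_ne_bot hb0
  obtain ⟨huG, y0, hy0, hby0⟩ := hu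
  have huH : u ∈ H := ⟨huG, y0, hy0, hby0⟩
  have hHG : H ≤ G := hGbG b0
  have hlt : finrank K H < finrank K G := by
    obtain ⟨b, hb, hbb, hbG⟩ := hsm
    have h1 := hmin b ⟨hb, hbb⟩
    have h2 := Submodule.finrank_lt_finrank_of_lt (lt_of_le_of_ne (hGbG b) hbG)
    exact lt_of_le_of_lt h1 h2
  -- the element `w`
  obtain ⟨w, hwG, hw⟩ : ∃ w ∈ G, (w ∉ H ∧
      (w / u) ^ Fintype.card K ^ 2 ^ a ≠ w / u) := by
    by_cases h : H = G
    · rw [h] at hlt
      exact absurd hlt (lt_irrefl _)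
    · obtain ⟨w, hw, hw1, hw2⟩ := exists_not_mem G.toAddSubgroup H.toAddSubgroup (uL (K := K) a u)
        (fun h' => h (le_antisymm hHG h')) (by
          intro h'
          obtain ⟨x, hx, y, hy, hx0, hy0, hxy⟩ := hGL
          refine hxy ?_
          have h1 : (x / u) ^ Fintype.card K ^ 2 ^ a = x / u := h' hx
          have h2 : (y / u) ^ Fintype.card K ^ 2 ^ a = y / u := h' hy
          have h3 : x / y = (x / u) / (y / u) := by
            field_simp
          rw [h3, div_pow, h1, h2])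
      exact ⟨w, hw, hw1, hw2⟩
  -- the complement `H'` of `u` in `H`
  obtain ⟨C1, hC1⟩ := Submodule.exists_isCompl (Submodule.span K {u})
  have huH' : Submodule.span K {u} ≤ H := (Submodule.span_singleton_le_iff_mem u H).2 huH
  set H' := C1 ⊓ H with hH'
  have hsup : Submodule.span K {u} ⊔ H' = H := by
    rw [hH', ← sup_inf_assoc_of_le C1 huH', hC1.sup_eq_top, top_inf_eq]
  have hH'H : H' ≤ H := inf_le_right
  have hdisj1 : Submodule.span K {u} ⊓ H' = ⊥ := by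
    rw [hH', ← inf_assoc, hC1.inf_eq_bot, bot_inf_eq]
  have hdisj : Disjoint (Submodule.span K {u, w}) H' := by
    rw [Submodule.disjoint_def]
    intro x hx hxH
    obtain ⟨α, β, hαβ⟩ := Submodule.mem_span_pair.1 hx
    have hxu : x ∈ Submodule.span K {u} := by
      by_cases hβ : β = 0
      · rw [← hαβ, hβ, zero_smul, add_zero]
        exact Submodule.smul_mem _ _ (Submodule.mem_span_singleton_self u)
      · exfalso
        refine hw.1 ?_
        have h1 : β • w ∈ H := by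
          have h2 : β • w = x - α • u := by
            rw [← hαβ, add_sub_cancel_left]
          rw [h2]
          exact H.sub_mem (hH'H hxH) (H.smul_mem _ huH)
        exact (Submodule.smul_mem_iff H hβ).1 h1
    have h3 : x ∈ Submodule.span K {u} ⊓ H' := ⟨hxu, hxH⟩
    rw [hdisj1] at h3
    exact (Submodule.mem_bot K).1 h3
  obtain ⟨C, hC, hCc⟩ := hdisj.exists_isCompl
  have huC : u ∈ C := hC (Submodule.subset_span (by simp))
  have hwC : w ∈ C := hC (Submodule.subset_span (by simp))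
  have huC' : Submodule.span K {u} ≤ C := (Submodule.span_singleton_le_iff_mem u C).2 huC
  have hZH : C ⊓ H = Submodule.span K {u} := by
    rw [← hsup, inf_comm, sup_inf_assoc_of_le H' huC', inf_comm H' C, hCc.inf_eq_bot, sup_bot_eq]
  have hH'G : H' ≤ G := hH'H.trans hHG
  have hZsup : H' ⊔ C ⊓ G = G := by
    rw [← sup_inf_assoc_of_le C hH'G, sup_comm, hCc.sup_eq_top, top_inf_eq]
  have hZinf : H' ⊓ (C ⊓ G) = ⊥ := by
    rw [← inf_assoc, inf_comm H' C, hCc.inf_eq_bot, bot_inf_eq]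
  have hd1 : finrank K H' + finrank K (C ⊓ G : Submodule K E) = finrank K G := by
    have h := Submodule.finrank_sup_add_finrank_inf_eq H' (C ⊓ G)
    rw [hZsup, hZinf, finrank_bot] at h
    omega
  have hd2 : 1 + finrank K H' = finrank K H := by
    have h := Submodule.finrank_sup_add_finrank_inf_eq (Submodule.span K {u}) H'
    rw [hsup, hdisj1, finrank_bot, finrank_span_singleton hu0] at h
    omega
  refine ⟨C ⊓ G, inf_le_right, ?_, ?_, ?_, b0, hb00, y0, hy0, ?_, ?_, ?_⟩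
  · omega
  · rintro b hb ⟨g, hg, y, hy, h⟩
    obtain ⟨y', hy', hy'0, hby'⟩ := hii b hb ⟨g, hg.2, y, hy, h⟩
    have hbD : b ∈ D := ⟨hb, (Submodule.ne_bot_iff _).2 ⟨b ^ 2 * y', ⟨hby', y', hy', rfl⟩,
      mul_ne_zero (pow_ne_zero _ hb) hy'0⟩⟩
    have h1 := hmin b hbD
    have h2 := Submodule.finrank_sup_add_finrank_inf_eq (C ⊓ G) (Gb G Y b)
    have h3 : finrank K (C ⊓ G ⊔ Gb G Y b : Submodule K E) ≤ finrank K G :=
      Submodule.finrank_mono (sup_le inf_le_right (hGbG b))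
    have h4 : 0 < finrank K (C ⊓ G ⊓ Gb G Y b : Submodule K E) := by omega
    have h5 : C ⊓ G ⊓ Gb G Y b ≠ ⊥ := by
      intro h6
      rw [h6, finrank_bot] at h4
      exact lt_irrefl 0 h4
    obtain ⟨x, hx, hx0⟩ := Submodule.exists_mem_ne_zero_of_ne_bot h5
    obtain ⟨hxZ, -, y2, hy2, hxy⟩ := hx
    refine ⟨y2, hy2, ?_, ?_⟩
    · rintro rfl
      rw [mul_zero] at hxy
      exact hx0 hxy.symm
    · rw [hxy]
      exact hxZ
  · refine ⟨w, ⟨hwC, hwG⟩, u, ⟨huC, huG⟩, ?_, hu0, hw.2⟩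
    rintro rfl
    refine hw.2 ?_
    have : 0 < Fintype.card K := Fintype.card_pos
    rw [zero_div, zero_pow (pow_pos this _).ne']
  · rintro rfl
    rw [mul_zero] at hby0
    exact hu0 hby0.symm
  · rw [hby0]
    exact ⟨huC, huG⟩
  · intro y hy hyZ
    have h1 : b0 ^ 2 * y ∈ C ⊓ H := ⟨hyZ.1, hyZ.2, y, hy, rfl⟩
    rw [hZH] at h1
    obtain ⟨k, hk⟩ := Submodule.mem_span_singleton.1 h1
    refine ⟨k, ?_⟩
    have h2 : b0 ^ 2 * y = b0 ^ 2 * (k • y0) := by
      rw [mul_smul_comm, hby0, hk]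
    exact mul_left_cancel₀ (pow_ne_zero _ hb00) h2

/-- the reduction, for a perfect pairing; the cut has dimension at least two -/
theorem reduction4 {a : ℕ} (hm : finrank K E = 2 ^ a) (G Y : Submodule K E)
    (hGY : finrank K G = finrank K Y) (h2 : 2 * finrank K Y ≤ 2 ^ a) (hY : Y ≠ ⊥)
    (hp : ∀ g ∈ G, g ≠ 0 → ∃ y ∈ Y, Algebra.trace K E (g * y) ≠ 0)
    (hii : ∀ b : E, b ≠ 0 → (∃ g ∈ G, ∃ y ∈ Y, g + b ^ 2 * y = b) →
      ∃ y ∈ Y, y ≠ 0 ∧ b ^ 2 * y ∈ G) :
    ∃ Z : Submodule K E, Z ≤ G ∧ 2 ≤ finrank K Z ∧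
      (∀ b : E, b ≠ 0 → (∃ g ∈ Z, ∃ y ∈ Y, g + b ^ 2 * y = b) →
        ∃ y ∈ Y, y ≠ 0 ∧ b ^ 2 * y ∈ Z) ∧
      NoSub (Fintype.card K) (2 ^ a) Z ∧
      NoSub (Fintype.card K) (2 ^ a) Y ∧
      ∃ b : E, b ≠ 0 ∧ ∃ y0 ∈ Y, y0 ≠ 0 ∧ b ^ 2 * y0 ∈ Z ∧
        ∀ y ∈ Y, b ^ 2 * y ∈ Z → ∃ k : K, y = k • y0 := by
  classical
  have hfd : FiniteDimensional K E := Module.Finite.of_finite
  have hYpos : 0 < finrank K Y := by
    rw [Nat.pos_iff_ne_zero]
    intro h
    exact hY (Submodule.finrank_eq_zero.1 h)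
  obtain ⟨a, rfl⟩ : ∃ a', a = a' + 1 := by
    rcases a with _ | a
    · rw [pow_zero] at h2
      omega
    · exact ⟨a, rfl⟩
  have hG : G ≠ ⊥ := by
    intro h
    rw [h, finrank_bot] at hGY
    omega
  -- the pairing is nondegenerate on the other side
  have hp' : ∀ y ∈ Y, y ≠ 0 → ∃ g ∈ G, Algebra.trace K E (g * y) ≠ 0 := by
    let f : G →ₗ[K] Module.Dual K Y :=
      LinearMap.mk₂ K (fun (g : G) (y : Y) => Algebra.trace K E ((g : E) * (y : E)))
        (fun g g' y => by simp [add_mul]) (fun c g y => by simp)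
        (fun g y y' => by simp [mul_add]) (fun c g y => by simp)
    have hf : Function.Injective f := by
      rw [← LinearMap.ker_eq_bot, LinearMap.ker_eq_bot']
      intro g hg
      by_contra hg0
      have hg0' : (g : E) ≠ 0 := fun h => hg0 (Subtype.ext h)
      obtain ⟨y, hy, htr⟩ := hp g g.2 hg0'
      exact htr (congrArg (fun (φ : Module.Dual K Y) => φ ⟨y, hy⟩) hg)
    have hfs : Function.Surjective f := by
      have h : finrank K G = finrank K (Module.Dual K Y) := by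
        rw [Subspace.dual_finrank_eq, hGY]
      exact (LinearMap.injective_iff_surjective_of_finrank_eq_finrank h).1 hf
    intro y hy hy0
    by_contra hcon
    push Not at hcon
    have hy0' : (⟨y, hy⟩ : Y) ≠ 0 := fun h => hy0 (congrArg Subtype.val h)
    refine hy0' ?_
    rw [← Module.forall_dual_apply_eq_zero_iff K]
    intro φ
    obtain ⟨g, rfl⟩ := hfs φ
    exact hcon g g.2
  have hGL := noSub_left hm G Y hG hp' hii
  obtain ⟨Z, hZG, hZ, hZii, hZsub, hb⟩ := reduction2s (a := a) G Y hG hY hGL hii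
    (exists_small G Y hGY hG h2 (noSub_of_half hm G hGL) hii)
  exact ⟨Z, hZG, hZ, hZii, noSub_of_half hm Z hZsub,
    noSub_right hm Z Y hY (fun g hg => hp g (hZG hg)) hZii, hb⟩

end red

end Pool.Agent.Lib.CPlane.S2
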