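import Pool.Agent.Lib.CPlane.P2Map
import Pool.Agent.Lib.CPlane.Digits

/-!
# s = 2, Theorem E, part 1: algebra of the rows
-/

namespace Pool.Agent.Lib.CPlane.S2.TE

open Finset Pool.Agent.Lib.CPlane.P2

/-! ## rows over a domain of characteristic two -/

section dom

variable {A : Type} [CommRing A]

theorem Bf_add {ι : Type} [Fintype ι] (τ τ' : Matrix ι ι A) (x y : ι → A) :
    Bf (τ + τ') x y = Bf τ x y + Bf τ' x y := by
  simp only [Bf, Matrix.add_apply, add_mul, Finset.sum_add_distrib]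

theorem Qf_add {ι : Type} [Fintype ι] (τ τ' : Matrix ι ι A) (x : ι → A) :
    Qf (τ + τ') x = Qf τ x + Qf τ' x := by
  simp only [Qf, Matrix.add_apply, add_mul, Finset.sum_add_distrib]

theorem bmin_add {n : ℕ} (τ τ' : Matrix (Fin (n + 1)) (Fin (n + 1)) A)
    (R : Matrix (Fin n) (Fin (n + 1)) A) (k : Fin n) :
    bmin (τ + τ') R k = bmin τ R k + bmin τ' R k := by
  simp only [bmin, Matrix.add_apply, add_mul, Finset.sum_add_distrib]

theorem bmin_zero {n : ℕ} (R : Matrix (Fin n) (Fin (n + 1)) A) (k : Fin n) :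
    bmin 0 R k = 0 := by
  simp [bmin]

theorem Bf_vec {ι : Type} [Fintype ι] (l v : ι → A) (x y : ι → A) :
    Bf (Matrix.vecMulVec l v) x y =
      (∑ i, l i * x i) * (∑ j, v j * y j) + (∑ i, l i * y i) * (∑ j, v j * x j) := by
  simp only [Bf, Matrix.vecMulVec_apply]
  rw [Finset.sum_mul_sum, Finset.sum_mul_sum, ← Finset.sum_add_distrib]
  refine Finset.sum_congr rfl fun i _ => ?_
  rw [← Finset.sum_add_distrib]
  refine Finset.sum_congr rfl fun j _ => ?_
  ring

theorem Qf_vec {ι : Type} [Fintype ι] (l v : ι → A) (x : ι → A) :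
    Qf (Matrix.vecMulVec l v) x = (∑ i, l i * x i) * (∑ j, v j * x j) := by
  simp only [Qf, Matrix.vecMulVec_apply]
  rw [Finset.sum_mul_sum]
  refine Finset.sum_congr rfl fun i _ => ?_
  refine Finset.sum_congr rfl fun j _ => ?_
  ring

/-- `Bf` through rows and columns -/
theorem Bf_eq {ι : Type} [Fintype ι] (τ : Matrix ι ι A) (x y : ι → A) :
    Bf τ x y = ∑ i, x i * (∑ j, (τ i j + τ j i) * y j) := by
  have h1 : Bf τ x y = (∑ i, ∑ j, τ i j * (x i * y j)) + ∑ i, ∑ j, τ i j * (y i * x j) := by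
    simp only [Bf, mul_add, Finset.sum_add_distrib]
  rw [h1, Finset.sum_comm (f := fun i j => τ i j * (y i * x j)), ← Finset.sum_add_distrib]
  refine Finset.sum_congr rfl fun i _ => ?_
  rw [← Finset.sum_add_distrib, Finset.mul_sum]
  refine Finset.sum_congr rfl fun j _ => ?_
  ring

variable [IsDomain A]

/-- the rows are independent if the vector of the minors is not zero -/
theorem rows_indep {n : ℕ} (R : Matrix (Fin n) (Fin (n + 1)) A) (hU : Umin R ≠ 0)
    (a : Fin n → A) (ha : ∀ z : Fin (n + 1) → A, ∑ k, a k * ∑ j, R k j * z j = 0) : a = 0 := by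
  classical
  by_contra hne
  apply hU
  ext j
  unfold Umin
  rw [Pi.zero_apply, ← Matrix.exists_vecMul_eq_zero_iff]
  refine ⟨a, hne, ?_⟩
  ext i
  have h := ha (Pi.single (j.succAbove i) 1)
  simp only [Pi.single_apply, mul_ite, mul_one, mul_zero, Finset.sum_ite_eq', Finset.mem_univ,
    if_true] at h
  rw [Matrix.vecMul, dotProduct, Pi.zero_apply, ← h]
  rfl

variable [CharP A 2]

theorem bmin_unique {n : ℕ} (τ : Matrix (Fin (n + 1)) (Fin (n + 1)) A)
    (R : Matrix (Fin n) (Fin (n + 1)) A) (hU : Umin R ≠ 0) (a : Fin n → A)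
    (ha : ∀ z : Fin (n + 1) → A, Bf τ (Umin R) z = ∑ k, a k * ∑ j, R k j * z j) :
    ∀ k, bmin τ R k = a k := by
  have h := rows_indep R hU (fun k => bmin τ R k - a k) fun z => by
    simp only [sub_mul, Finset.sum_sub_distrib]
    rw [← Bf_Umin, ha z, sub_self]
  intro k
  exact sub_eq_zero.1 (congrFun h k)

/-- `p ⊗ q` with `R_k = p + v q`: `bmin = q(U)` at `k`, zero elsewhere -/
theorem bmin_row {n : ℕ} (R : Matrix (Fin n) (Fin (n + 1)) A) (hU : Umin R ≠ 0)
    (k : Fin n) (p q : Fin (n + 1) → A) (v : A) (hR : ∀ j, R k j = p j + v * q j) (l : Fin n) :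
    bmin (Matrix.vecMulVec p q) R l = if l = k then ∑ j, q j * Umin R j else 0 := by
  refine bmin_unique _ R hU (fun l => if l = k then ∑ j, q j * Umin R j else 0) (fun z => ?_) l
  rw [Bf_vec]
  have h0 := R_Umin R k
  have h1 : ∀ z : Fin (n + 1) → A, ∑ j, R k j * z j = (∑ j, p j * z j) + v * ∑ j, q j * z j := by
    intro z
    simp only [hR, add_mul, Finset.sum_add_distrib, Finset.mul_sum, mul_assoc]
  rw [h1] at h0
  have h2 : (∑ j, p j * Umin R j) = v * ∑ j, q j * Umin R j := by
    rw [← sub_eq_zero, CharTwo.sub_eq_add, h0]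
  simp only [ite_mul, zero_mul]
  rw [Finset.sum_ite_eq' univ k, if_pos (Finset.mem_univ _), h1, h2]
  ring

end dom

/-! ## mixed rows -/

section rows

variable {E : Type} [Field E] {n : ℕ}

/-- positions of `B` -/
abbrev Pos (n : ℕ) (B : Finset ℕ) : Type := {j : Fin n // (j : ℕ) ∈ B}

/-- the variable `t_j`, or zero outside `B` -/
noncomputable def vx (E : Type) [Field E] {n : ℕ} (B : Finset ℕ) (j : Fin n) :
    MvPolynomial (Pos n B) E :=
  if h : (j : ℕ) ∈ B then MvPolynomial.X ⟨j, h⟩ else 0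

/-- rows `p_k + t_k q_k`, `k ∈ B`, and `p_k`, `k ∉ B` -/
noncomputable def Rw (B : Finset ℕ) (p q : Fin n → Fin (n + 1) → E) :
    Matrix (Fin n) (Fin (n + 1)) (MvPolynomial (Pos n B) E) :=
  Matrix.of fun k j => MvPolynomial.C (p k j) + vx E B k * MvPolynomial.C (q k j)

variable (B : Finset ℕ) (p q : Fin n → Fin (n + 1) → E)

theorem deg_Rw (k : Pos n B) (i : Fin n) (j : Fin (n + 1)) :
    (Rw B p q i j).degreeOf k ≤ if i = k.1 then 1 else 0 := by
  unfold Rw
  rw [Matrix.of_apply]
  refine (MvPolynomial.degreeOf_add_le _ _ _).trans ?_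
  rw [MvPolynomial.degreeOf_C]
  refine max_le (Nat.zero_le _) ?_
  refine (MvPolynomial.degreeOf_mul_le _ _ _).trans ?_
  rw [MvPolynomial.degreeOf_C, add_zero]
  unfold vx
  by_cases hi : (i : ℕ) ∈ B
  · rw [dif_pos hi, MvPolynomial.degreeOf_X]
    by_cases h : i = k.1
    · rw [if_pos h]
      split_ifs <;> omega
    · rw [if_neg h, if_neg]
      intro h'
      apply h
      rw [h']
  · rw [dif_neg hi, MvPolynomial.degreeOf_zero]
    exact Nat.zero_le _

theorem deg_Umin' (k : Pos n B) (j : Fin (n + 1)) :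
    (Umin (Rw B p q) j).degreeOf k ≤ 1 := by
  unfold Umin
  refine (degreeOf_det_le _ k (fun i => if i = k.1 then 1 else 0) fun i l => ?_).trans ?_
  · rw [Matrix.submatrix_apply]
    exact deg_Rw B p q k i _
  · rw [Finset.sum_ite_eq' univ k.1]
    simp

theorem deg_adj' (k : Pos n B) (i j : Fin (n + 1)) (l : Fin n) :
    ((cm (Rw B p q) i).adjugate j l.succ).degreeOf k ≤ if l = k.1 then 0 else 1 := by
  rw [Matrix.adjugate_apply]
  have h01 : ∀ u v : Fin (n + 1), ((Pi.single u 1 : Fin (n + 1) → MvPolynomial (Pos n B) E)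
      v).degreeOf k ≤ 0 := by
    intro u v
    by_cases h : v = u
    · subst h
      rw [Pi.single_eq_same, ← MvPolynomial.C_1, MvPolynomial.degreeOf_C]
    · rw [Pi.single_eq_of_ne h, MvPolynomial.degreeOf_zero]
  refine (degreeOf_det_le _ k (Fin.cons 0 (fun i => if i = l then 0 else
    if i = k.1 then 1 else 0)) fun a b => ?_).trans ?_
  · refine Fin.cases ?_ (fun a => ?_) a
    · rw [Matrix.updateRow_ne (Fin.succ_ne_zero l).symm]
      exact h01 i b
    · by_cases h : a = l
      · subst h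
        rw [Matrix.updateRow_self]
        exact (h01 j b).trans (Nat.zero_le _)
      · rw [Matrix.updateRow_ne (fun h' => h (Fin.succ_injective n h'))]
        rw [Fin.cons_succ, if_neg h]
        exact deg_Rw B p q k a b
  · rw [Fin.sum_univ_succ, Fin.cons_zero, zero_add]
    simp only [Fin.cons_succ]
    by_cases hl : l = k.1
    · rw [if_pos hl]
      refine le_of_eq (Finset.sum_eq_zero fun i _ => ?_)
      by_cases h : i = l
      · rw [if_pos h]
      · rw [if_neg h, if_neg (fun h' => h (h'.trans hl.symm))]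
    · rw [if_neg hl]
      calc (∑ x : Fin n, if x = l then 0 else if x = k.1 then 1 else 0)
          ≤ ∑ x : Fin n, (if x = k.1 then 1 else 0) := by
            refine Finset.sum_le_sum fun x _ => ?_
            split_ifs <;> omega
        _ ≤ 1 := by
            rw [Finset.sum_ite_eq' univ k.1]
            simp

theorem deg_sum_le' {ι σ R : Type} [CommRing R] (S : Finset ι) (f : ι → MvPolynomial σ R)
    (k : σ) (d : ℕ) (h : ∀ i ∈ S, (f i).degreeOf k ≤ d) : (∑ i ∈ S, f i).degreeOf k ≤ d :=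
  (MvPolynomial.degreeOf_sum_le _ _ _).trans (Finset.sup_le h)

theorem deg_bmin' (τ : Matrix (Fin (n + 1)) (Fin (n + 1)) E) (k : Pos n B) (l : Fin n) :
    (bmin (τ.map MvPolynomial.C) (Rw B p q) l).degreeOf k ≤ if l = k.1 then 0 else 1 := by
  unfold bmin
  refine deg_sum_le' _ _ _ _ fun i _ => deg_sum_le' _ _ _ _ fun j _ => ?_
  refine (MvPolynomial.degreeOf_mul_le _ _ _).trans ?_
  rw [Matrix.map_apply, MvPolynomial.degreeOf_C, zero_add]
  exact deg_adj' B p q k i j l

/-- `y(U)` is multilinear -/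
theorem deg_lin' (c : Fin (n + 1) → E) (k : Pos n B) :
    (∑ j, MvPolynomial.C (c j) * Umin (Rw B p q) j).degreeOf k ≤ 1 := by
  refine deg_sum_le' _ _ _ _ fun j _ => ?_
  refine (MvPolynomial.degreeOf_mul_le _ _ _).trans ?_
  rw [MvPolynomial.degreeOf_C, zero_add]
  exact deg_Umin' B p q k j

/-- the polynomial `Q(U) + Σ_(k ∈ B) b_k² t_k` -/
noncomputable def HH (τ : Matrix (Fin (n + 1)) (Fin (n + 1)) E) : MvPolynomial (Pos n B) E :=
  Qf (τ.map MvPolynomial.C) (Umin (Rw B p q)) +
    ∑ k : Pos n B, (bmin (τ.map MvPolynomial.C) (Rw B p q) k.1) ^ 2 * MvPolynomial.X k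

theorem deg_HH (τ : Matrix (Fin (n + 1)) (Fin (n + 1)) E) (k : Pos n B) :
    (HH B p q τ).degreeOf k ≤ 2 := by
  unfold HH
  refine (MvPolynomial.degreeOf_add_le _ _ _).trans (max_le ?_ ?_)
  · unfold Qf
    refine deg_sum_le' _ _ _ _ fun i _ => deg_sum_le' _ _ _ _ fun j _ => ?_
    refine (MvPolynomial.degreeOf_mul_le _ _ _).trans ?_
    rw [Matrix.map_apply, MvPolynomial.degreeOf_C, zero_add]
    refine (MvPolynomial.degreeOf_mul_le _ _ _).trans ?_
    have h1 := deg_Umin' B p q k i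
    have h2 := deg_Umin' B p q k j
    omega
  · refine deg_sum_le' _ _ _ _ fun l _ => ?_
    refine (MvPolynomial.degreeOf_mul_le _ _ _).trans ?_
    have h1 := deg_bmin' B p q τ k l.1
    have h2 : (bmin (τ.map MvPolynomial.C) (Rw B p q) l.1 ^ 2).degreeOf k ≤
        2 * if l.1 = k.1 then 0 else 1 := by
      rw [pow_two]
      refine (MvPolynomial.degreeOf_mul_le _ _ _).trans ?_
      omega
    have h3 : (MvPolynomial.X l : MvPolynomial (Pos n B) E).degreeOf k ≤
        if l.1 = k.1 then 1 else 0 := by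
      rw [MvPolynomial.degreeOf_X]
      by_cases h : l.1 = k.1
      · rw [if_pos h]
        split_ifs <;> omega
      · rw [if_neg h, if_neg]
        intro h'
        apply h
        rw [h']
    by_cases h : l.1 = k.1
    · rw [if_pos h] at h2 h3
      omega
    · rw [if_neg h] at h2 h3
      omega

variable [CharP E 2]

theorem pderiv_HH (τ : Matrix (Fin (n + 1)) (Fin (n + 1)) E) (k : Pos n B) :
    MvPolynomial.pderiv k (HH B p q τ) = bmin (τ.map MvPolynomial.C) (Rw B p q) k.1 *
      ((∑ j, MvPolynomial.C (q k.1 j) * Umin (Rw B p q) j) +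
        bmin (τ.map MvPolynomial.C) (Rw B p q) k.1) := by
  have hch : CharP (MvPolynomial (Pos n B) E) 2 := inferInstance
  have hR : ∀ l j, MvPolynomial.pderiv k (Rw B p q l j) =
      if l = k.1 then MvPolynomial.C (q l j) else 0 := by
    intro l j
    simp only [Rw, Matrix.of_apply, map_add, Derivation.leibniz, MvPolynomial.pderiv_C,
      zero_add, smul_eq_mul, mul_zero]
    unfold vx
    by_cases h : l = k.1
    · subst h
      rw [dif_pos k.2, if_pos rfl, MvPolynomial.pderiv_X_self, mul_one]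
    · rw [if_neg h]
      by_cases hl : (l : ℕ) ∈ B
      · rw [dif_pos hl, MvPolynomial.pderiv_X_of_ne, mul_zero]
        intro h'
        apply h
        rw [← h']
      · rw [dif_neg hl, map_zero, mul_zero]
  have hRU : ∀ l, ∑ j, Rw B p q l j * MvPolynomial.pderiv k (Umin (Rw B p q) j) =
      if l = k.1 then ∑ j, MvPolynomial.C (q k.1 j) * Umin (Rw B p q) j else 0 := by
    intro l
    have h := congrArg (MvPolynomial.pderiv k) (R_Umin (Rw B p q) l)
    rw [map_sum, map_zero] at h
    simp only [Derivation.leibniz, smul_eq_mul, hR] at h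
    rw [Finset.sum_add_distrib, ← sub_eq_zero, CharTwo.sub_eq_add, add_zero] at h
    rw [← sub_eq_zero, CharTwo.sub_eq_add, ← h]
    congr 1
    by_cases hl : l = k.1
    · subst hl
      simp only [if_pos]
      exact Finset.sum_congr rfl fun j _ => mul_comm _ _
    · simp only [if_neg hl, mul_zero, Finset.sum_const_zero] at h ⊢
      exact h
  have hQ : MvPolynomial.pderiv k (Qf (τ.map MvPolynomial.C) (Umin (Rw B p q))) =
      Bf (τ.map MvPolynomial.C) (Umin (Rw B p q))
        (fun j => MvPolynomial.pderiv k (Umin (Rw B p q) j)) := by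
    simp only [Qf, Bf, map_sum, Derivation.leibniz, smul_eq_mul, Matrix.map_apply,
      MvPolynomial.pderiv_C, mul_zero, add_zero]
    refine Finset.sum_congr rfl fun i _ => Finset.sum_congr rfl fun j _ => ?_
    ring
  have hS : MvPolynomial.pderiv k (∑ l : Pos n B,
      (bmin (τ.map MvPolynomial.C) (Rw B p q) l.1) ^ 2 * MvPolynomial.X l) =
      (bmin (τ.map MvPolynomial.C) (Rw B p q) k.1) ^ 2 := by
    rw [map_sum]
    have h2 : ∀ x : MvPolynomial (Pos n B) E, MvPolynomial.pderiv k (x ^ 2) = 0 := by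
      intro x
      rw [pow_two, Derivation.leibniz]
      exact CharTwo.add_self_eq_zero _
    simp only [Derivation.leibniz, smul_eq_mul, h2, mul_zero, add_zero, MvPolynomial.pderiv_X]
    rw [Finset.sum_eq_single k]
    · rw [Pi.single_eq_same, mul_one]
    · intro j _ hj
      rw [Pi.single_eq_of_ne hj, mul_zero]
    · intro h
      exact absurd (Finset.mem_univ k) h
  unfold HH
  rw [map_add, hQ, hS, Bf_Umin]
  simp only [hRU]
  rw [Finset.sum_eq_single k.1]
  · rw [if_pos rfl]
    ring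
  · intro j _ hj
    rw [if_neg hj, mul_zero]
  · intro h
    exact absurd (Finset.mem_univ k.1) h

end rows

/-! ## frames -/

section frame

variable {E : Type} [Field E] {n : ℕ}

/-- rows and columns of `τ` lie in `W` -/
def InT {N : ℕ} (W : Submodule E (Fin N → E)) (τ : Matrix (Fin N) (Fin N) E) : Prop :=
  (∀ i, τ i ∈ W) ∧ ∀ j, (fun i => τ i j) ∈ W

theorem InT.add {N : ℕ} {W : Submodule E (Fin N → E)} {τ τ' : Matrix (Fin N) (Fin N) E}
    (h : InT W τ) (h' : InT W τ') : InT W (τ + τ') :=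
  ⟨fun i => W.add_mem (h.1 i) (h'.1 i), fun j => W.add_mem (h.2 j) (h'.2 j)⟩

theorem InT.vec {N : ℕ} {W : Submodule E (Fin N → E)} {l v : Fin N → E} (hl : l ∈ W)
    (hv : v ∈ W) : InT W (Matrix.vecMulVec l v) := by
  refine ⟨fun i => ?_, fun j => ?_⟩
  · have : (Matrix.vecMulVec l v) i = l i • v := by
      ext j
      rfl
    rw [this]
    exact W.smul_mem _ hv
  · have : (fun i => Matrix.vecMulVec l v i j) = v j • l := by
      ext i
      rw [Matrix.vecMulVec_apply, Pi.smul_apply, smul_eq_mul, mul_comm]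
    rw [this]
    exact W.smul_mem _ hl

/-- rows `p, q` in `W` at the positions in `B`; at the others `p` is dual to `ze` modulo `W` -/
structure Frame (W : Submodule E (Fin (n + 1) → E)) (B : Finset ℕ)
    (p q ze : Fin n → Fin (n + 1) → E) : Prop where
  pW : ∀ k : Fin n, (k : ℕ) ∈ B → p k ∈ W
  qW : ∀ k : Fin n, (k : ℕ) ∈ B → q k ∈ W
  zW : ∀ k : Fin n, (k : ℕ) ∉ B → ∀ l ∈ W, ∑ i, l i * ze k i = 0
  zp : ∀ k l : Fin n, (k : ℕ) ∉ B → (l : ℕ) ∉ B → ∑ i, p l i * ze k i = if l = k then 1 else 0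
  top : W ⊔ Submodule.span E (p '' {k : Fin n | (k : ℕ) ∉ B}) = ⊤

variable {A : Type} [CommRing A] [CharP A 2] (f : E →+* A)
  {W : Submodule E (Fin (n + 1) → E)} {B : Finset ℕ} {p q ze : Fin n → Fin (n + 1) → E}
  {v : Fin n → A} {R : Matrix (Fin n) (Fin (n + 1)) A}

theorem frame_bmin (hF : Frame W B p q ze) (hv : ∀ k : Fin n, (k : ℕ) ∉ B → v k = 0)
    (hR : ∀ k j, R k j = f (p k j) + v k * f (q k j)) {τ : Matrix (Fin (n + 1)) (Fin (n + 1)) E}
    (hτ : InT W τ) {k : Fin n} (hk : (k : ℕ) ∉ B) : bmin (τ.map f) R k = 0 := by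
  have h := Bf_Umin (τ.map f) R (fun i => f (ze k i))
  have h1 : ∀ l ∈ W, ∑ i, f (l i) * f (ze k i) = 0 := by
    intro l hl
    simp only [← map_mul, ← map_sum]
    rw [hF.zW k hk l hl, map_zero]
  have h2 : ∀ l : Fin n, ∑ j, R l j * f (ze k j) = if l = k then 1 else 0 := by
    intro l
    simp only [hR, add_mul, Finset.sum_add_distrib]
    by_cases hl : (l : ℕ) ∈ B
    · have e1 := h1 _ (hF.pW l hl)
      have e2 : ∑ x, v l * f (q l x) * f (ze k x) = v l * ∑ x, f (q l x) * f (ze k x) := by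
        rw [Finset.mul_sum]
        exact Finset.sum_congr rfl fun x _ => mul_assoc _ _ _
      rw [e1, e2, h1 _ (hF.qW l hl), mul_zero, add_zero, if_neg]
      intro h'
      exact hk (h' ▸ hl)
    · rw [hv l hl]
      simp only [zero_mul, Finset.sum_const_zero, add_zero]
      simp only [← map_mul, ← map_sum]
      rw [hF.zp k l hk hl]
      split_ifs <;> simp
  have h3 : Bf (τ.map f) (Umin R) (fun i => f (ze k i)) = 0 := by
    rw [Bf_eq]
    refine Finset.sum_eq_zero fun i _ => ?_
    have e1 := h1 _ (hτ.1 i)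
    have e2 := h1 _ (hτ.2 i)
    have e3 : (∑ j, ((τ.map f) i j + (τ.map f) j i) * f (ze k j)) =
        (∑ j, f (τ i j) * f (ze k j)) + ∑ j, f (τ j i) * f (ze k j) := by
      rw [← Finset.sum_add_distrib]
      refine Finset.sum_congr rfl fun j _ => ?_
      rw [Matrix.map_apply, Matrix.map_apply, add_mul]
    rw [e3, e1, e2, add_zero, mul_zero]
  rw [h3] at h
  simp only [h2, mul_ite, mul_one, mul_zero] at h
  rw [Finset.sum_ite_eq' univ k, if_pos (Finset.mem_univ _)] at h
  exact h.symm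

/-- vectors killed by the rows of `B` are proportional modulo `W^⊥` -/
theorem frame_prop (hF : Frame W B p q ze) (hv : ∀ k : Fin n, (k : ℕ) ∉ B → v k = 0)
    (hR : ∀ k j, R k j = f (p k j) + v k * f (q k j)) {x : Fin (n + 1) → A}
    (hx : ∀ k : Fin n, (k : ℕ) ∈ B → ∑ j, R k j * x j = 0) {l l' : Fin (n + 1) → E}
    (hl : l ∈ W) (hl' : l' ∈ W) :
    (∑ i, f (l i) * Umin R i) * (∑ i, f (l' i) * x i) =
      (∑ i, f (l i) * x i) * (∑ i, f (l' i) * Umin R i) := by
  have h := Bf_Umin ((Matrix.vecMulVec l l').map f) R x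
  have h1 : (Matrix.vecMulVec l l').map f =
      Matrix.vecMulVec (fun i => f (l i)) (fun i => f (l' i)) := by
    ext1 i j
    rw [Matrix.map_apply, Matrix.vecMulVec_apply, Matrix.vecMulVec_apply, map_mul]
  have h2 : ∑ k, bmin ((Matrix.vecMulVec l l').map f) R k * ∑ j, R k j * x j = 0 := by
    refine Finset.sum_eq_zero fun k _ => ?_
    by_cases hk : (k : ℕ) ∈ B
    · rw [hx k hk, mul_zero]
    · rw [frame_bmin f hF hv hR (InT.vec hl hl') hk, zero_mul]
  rw [h2, h1, Bf_vec] at h
  rw [← sub_eq_zero, CharTwo.sub_eq_add, h]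

theorem frame_Bf (hF : Frame W B p q ze) (hv : ∀ k : Fin n, (k : ℕ) ∉ B → v k = 0)
    (hR : ∀ k j, R k j = f (p k j) + v k * f (q k j)) {x : Fin (n + 1) → A}
    (hx : ∀ k : Fin n, (k : ℕ) ∈ B → ∑ j, R k j * x j = 0) {l : Fin (n + 1) → E}
    (hl : l ∈ W) {τ : Matrix (Fin (n + 1)) (Fin (n + 1)) E} (hτ : InT W τ)
    (z : Fin (n + 1) → A) :
    (∑ i, f (l i) * Umin R i) * Bf (τ.map f) x z =
      (∑ i, f (l i) * x i) * Bf (τ.map f) (Umin R) z := by
  have hsymm : ∀ a b : Fin (n + 1) → A, Bf (τ.map f) a b = Bf (τ.map f) b a := by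
    intro a b
    simp only [Bf]
    refine Finset.sum_congr rfl fun i _ => Finset.sum_congr rfl fun j _ => ?_
    ring
  rw [hsymm x z, hsymm (Umin R) z, Bf_eq, Bf_eq, Finset.mul_sum, Finset.mul_sum]
  refine Finset.sum_congr rfl fun i _ => ?_
  have e : ∀ y : Fin (n + 1) → A, (∑ j, ((τ.map f) i j + (τ.map f) j i) * y j) =
      (∑ j, f (τ i j) * y j) + ∑ j, f (τ j i) * y j := by
    intro y
    rw [← Finset.sum_add_distrib]
    refine Finset.sum_congr rfl fun j _ => ?_
    rw [Matrix.map_apply, Matrix.map_apply, add_mul]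
  have h1 := frame_prop f hF hv hR hx hl (hτ.1 i)
  have h2 := frame_prop f hF hv hR hx hl (hτ.2 i)
  rw [e, e]
  calc (∑ i, f (l i) * Umin R i) * (z i * ((∑ j, f (τ i j) * x j) + ∑ j, f (τ j i) * x j))
      = z i * ((∑ i, f (l i) * Umin R i) * (∑ j, f (τ i j) * x j) +
        (∑ i, f (l i) * Umin R i) * ∑ j, f (τ j i) * x j) := by ring
    _ = z i * ((∑ i, f (l i) * x i) * (∑ j, f (τ i j) * Umin R j) +
        (∑ i, f (l i) * x i) * ∑ j, f (τ j i) * Umin R j) := by rw [h1, h2]
    _ = _ := by ring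

theorem frame_Qf (hF : Frame W B p q ze) (hv : ∀ k : Fin n, (k : ℕ) ∉ B → v k = 0)
    (hR : ∀ k j, R k j = f (p k j) + v k * f (q k j)) {x : Fin (n + 1) → A}
    (hx : ∀ k : Fin n, (k : ℕ) ∈ B → ∑ j, R k j * x j = 0) {l : Fin (n + 1) → E}
    (hl : l ∈ W) {τ : Matrix (Fin (n + 1)) (Fin (n + 1)) E} (hτ : InT W τ) :
    (∑ i, f (l i) * Umin R i) ^ 2 * Qf (τ.map f) x =
      (∑ i, f (l i) * x i) ^ 2 * Qf (τ.map f) (Umin R) := by
  have e1 : ∀ a b : Fin (n + 1) → A, (∑ i, ∑ j, (τ.map f) i j * (a i * b j)) =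
      ∑ i, a i * ∑ j, f (τ i j) * b j := by
    intro a b
    refine Finset.sum_congr rfl fun i _ => ?_
    rw [Finset.mul_sum]
    refine Finset.sum_congr rfl fun j _ => ?_
    rw [Matrix.map_apply]
    ring
  have e2 : ∀ a b : Fin (n + 1) → A, (∑ i, ∑ j, (τ.map f) i j * (a i * b j)) =
      ∑ j, b j * ∑ i, f (τ i j) * a i := by
    intro a b
    rw [Finset.sum_comm]
    refine Finset.sum_congr rfl fun j _ => ?_
    rw [Finset.mul_sum]
    refine Finset.sum_congr rfl fun i _ => ?_
    rw [Matrix.map_apply]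
    ring
  set s := ∑ i, f (l i) * Umin R i with hs
  set t := ∑ i, f (l i) * x i with ht
  have h1 : s * Qf (τ.map f) x = t * ∑ i, ∑ j, (τ.map f) i j * (x i * Umin R j) := by
    unfold Qf
    rw [e1, e1, Finset.mul_sum, Finset.mul_sum]
    refine Finset.sum_congr rfl fun i _ => ?_
    have h := frame_prop f hF hv hR hx hl (hτ.1 i)
    calc s * (x i * ∑ j, f (τ i j) * x j) = x i * (s * ∑ j, f (τ i j) * x j) := by ring
      _ = x i * (t * ∑ j, f (τ i j) * Umin R j) := by rw [h]
      _ = _ := by ring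
  have h2 : s * (∑ i, ∑ j, (τ.map f) i j * (x i * Umin R j)) = t * Qf (τ.map f) (Umin R) := by
    unfold Qf
    rw [e2, e2, Finset.mul_sum, Finset.mul_sum]
    refine Finset.sum_congr rfl fun i _ => ?_
    have h := frame_prop f hF hv hR hx hl (hτ.2 i)
    calc s * (Umin R i * ∑ j, f (τ j i) * x j) = Umin R i * (s * ∑ j, f (τ j i) * x j) := by ring
      _ = Umin R i * (t * ∑ j, f (τ j i) * Umin R j) := by rw [h]
      _ = _ := by ring
  calc s ^ 2 * Qf (τ.map f) x = s * (s * Qf (τ.map f) x) := by ring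
    _ = t * (s * ∑ i, ∑ j, (τ.map f) i j * (x i * Umin R j)) := by rw [h1]; ring
    _ = _ := by rw [h2]; ring

end frame

/-- existence of complementary functionals and of the dual vectors -/
theorem exists_compl {E S : Type} [Field E] [Fintype S] [DecidableEq S] {N : ℕ}
    (W : Submodule E (Fin N → E))
    (h : Module.finrank E W + Fintype.card S = N) :
    ∃ mu ze : S → Fin N → E, (∀ i, ∀ l ∈ W, ∑ j, l j * ze i j = 0) ∧
      (∀ i k, ∑ j, mu i j * ze k j = if i = k then 1 else 0) ∧
      W ⊔ Submodule.span E (Set.range mu) = ⊤ := by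
  obtain ⟨C, hC⟩ := Submodule.exists_isCompl W
  have h1 : Module.finrank E C = Fintype.card S := by
    have := Submodule.finrank_add_eq_of_isCompl hC
    rw [Module.finrank_fin_fun] at this
    omega
  let b : Module.Basis S E C :=
    (Module.finBasisOfFinrankEq E C h1).reindex (Fintype.equivFin S).symm
  let pr : (Fin N → E) →ₗ[E] C := Submodule.projectionOnto C W hC.symm
  let g : S → (Fin N → E) →ₗ[E] E := fun i => (b.coord i).comp pr
  have hg : ∀ i (l : Fin N → E), ∑ j, l j * g i (Pi.single j 1) = g i l := by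
    intro i l
    have : l = ∑ j, l j • (Pi.single j 1 : Fin N → E) := by
      ext k
      rw [Finset.sum_apply]
      simp only [Pi.smul_apply, Pi.single_apply, smul_eq_mul, mul_ite, mul_one, mul_zero]
      rw [Finset.sum_ite_eq univ k]
      simp
    conv_rhs => rw [this]
    rw [map_sum]
    refine Finset.sum_congr rfl fun j _ => ?_
    rw [map_smul, smul_eq_mul]
  refine ⟨fun i => (b i : Fin N → E), fun i j => g i (Pi.single j 1), ?_, ?_, ?_⟩
  · intro i l hl
    rw [hg]
    have : pr l = 0 := Submodule.projectionOnto_apply_of_mem_right hC.symm hl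
    simp only [g, LinearMap.comp_apply, this, map_zero]
  · intro i k
    rw [hg]
    have : pr (b i : Fin N → E) = b i := Submodule.projectionOnto_apply_left hC.symm (b i)
    simp only [g, LinearMap.comp_apply, this, Module.Basis.coord_apply, Module.Basis.repr_self]
    rw [Finsupp.single_apply]
  · have h2 : Submodule.span E (Set.range fun i => (b i : Fin N → E)) = C := by
      have h3 : (Set.range fun i => (b i : Fin N → E)) = C.subtype '' Set.range b := by
        rw [← Set.range_comp]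
        rfl
      rw [h3, ← Submodule.map_span, b.span_eq, Submodule.map_top, Submodule.range_subtype]
    rw [h2]
    exact hC.sup_eq_top

end Pool.Agent.Lib.CPlane.S2.TE
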