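import Pool.Agent.Lib.CPlane.S2EA

/-!
# s = 2, Theorem E, part 2: tensors of a near tight set
-/

namespace Pool.Agent.Lib.CPlane.S2.TE

open Finset Pool.Agent.Lib.CPlane.P2

theorem card_pos {n : ℕ} {B : Finset ℕ} (hB : ∀ k ∈ B, k < n) :
    Fintype.card (Pos n B) = B.card := by
  classical
  rw [← Fintype.card_coe B]
  refine Fintype.card_congr ⟨fun j => ⟨j.1, j.2⟩, fun k => ⟨⟨k.1, hB k.1 k.2⟩, k.2⟩, ?_, ?_⟩
  · intro j
    rfl
  · intro k
    rfl

/-- sums over `Pos n B` -/
theorem sum_pos {n : ℕ} {A : Type} [AddCommMonoid A] (B : Finset ℕ) (g : Fin n → A)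
    (hg : ∀ k : Fin n, (k : ℕ) ∉ B → g k = 0) : ∑ k, g k = ∑ k : Pos n B, g k.1 := by
  classical
  rw [← Finset.sum_filter_add_sum_filter_not univ (fun l : Fin n => (l : ℕ) ∈ B)]
  rw [add_comm, Finset.sum_eq_zero, zero_add]
  · rw [← Finset.sum_subtype_eq_sum_filter, Finset.subtype_univ]
  · intro l hl
    exact hg l (Finset.mem_filter.1 hl).2

/-- a dependency among `|B| + 2` vectors of `W ⊗ A`, `dim W = |B| + 1` -/
theorem exists_dep {E A : Type} [Field E] [CommRing A] [IsDomain A] (f : E →+* A) {N d : ℕ}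
    {W : Submodule E (Fin N → E)} (hW : Module.finrank E W = d) {S : Type} [Fintype S]
    (hS : d < Fintype.card S) {ι : Type} [Fintype ι] (a : S → ι → A) (l : S → ι → W) :
    ∃ c : S → A, c ≠ 0 ∧ ∀ j : Fin N, ∑ s, c s * ∑ i, a s i * f ((l s i : Fin N → E) j) = 0 := by
  classical
  let w : Module.Basis (Fin d) E W := Module.finBasisOfFinrankEq E W hW
  have hco : ∀ (x : W) (j : Fin N),
      f ((x : Fin N → E) j) = ∑ i, f (w.repr x i) * f ((w i : Fin N → E) j) := by
    intro x j
    simp only [← map_mul, ← map_sum]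
    congr 1
    have h := congrArg (fun x : W => (x : Fin N → E) j) (w.sum_repr x)
    simp only [Submodule.coe_sum, Submodule.coe_smul, Finset.sum_apply, Pi.smul_apply,
      smul_eq_mul] at h
    exact h.symm
  let v : S → Fin d → A := fun s i => ∑ u, a s u * f (w.repr (l s u) i)
  have hdep : ¬ LinearIndependent A v := by
    intro h
    have h1 := h.fintype_card_le_finrank
    rw [Module.finrank_fin_fun] at h1
    omega
  rw [Fintype.not_linearIndependent_iff] at hdep
  obtain ⟨c, hc, i0, hi0⟩ := hdep
  refine ⟨c, fun h => hi0 (by rw [h]; rfl), fun j => ?_⟩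
  have h1 : ∑ i, (∑ s, c s • v s) i * f ((w i : Fin N → E) j) = 0 := by
    rw [hc]
    simp
  rw [← h1]
  simp only [Finset.sum_apply, Pi.smul_apply, smul_eq_mul, Finset.sum_mul]
  rw [Finset.sum_comm]
  refine Finset.sum_congr rfl fun s _ => ?_
  simp only [v, Finset.mul_sum, Finset.sum_mul]
  rw [Finset.sum_comm]
  refine Finset.sum_congr rfl fun u _ => ?_
  rw [hco, Finset.mul_sum, Finset.mul_sum]
  refine Finset.sum_congr rfl fun i _ => ?_
  ring

variable {E A : Type} [Field E] [CommRing A] [IsDomain A] [CharP A 2] {n : ℕ}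

/-- a tensor of `W ⊗ W` has no coefficients outside `B`, `dim W = |B| + 1` -/
theorem gen_bmin (f : E →+* A) {B : Finset ℕ} (hB : ∀ k ∈ B, k < n)
    {W : Submodule E (Fin (n + 1) → E)} (hW : Module.finrank E W = B.card + 1)
    (p q : Fin n → Fin (n + 1) → E) (v : Fin n → A) (R : Matrix (Fin n) (Fin (n + 1)) A)
    (hR : ∀ k : Fin n, (k : ℕ) ∈ B → ∀ j, R k j = f (p k j) + v k * f (q k j))
    (hp : ∀ k : Fin n, (k : ℕ) ∈ B → p k ∈ W) (hq : ∀ k : Fin n, (k : ℕ) ∈ B → q k ∈ W)
    {y : Fin (n + 1) → E} (hy : y ∈ W) (hU : ∑ j, f (y j) * Umin R j ≠ 0)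
    {τ : Matrix (Fin (n + 1)) (Fin (n + 1)) E} (hτ : InT W τ) {j0 : Fin n}
    (hj0 : (j0 : ℕ) ∉ B) : bmin (τ.map f) R j0 = 0 := by
  classical
  by_contra hne
  have hU0 : Umin R ≠ 0 := by
    intro h
    apply hU
    rw [h]
    simp
  let ro : Fin (n + 1) → W := fun i => ⟨τ i, hτ.1 i⟩
  let cl : Fin (n + 1) → W := fun j => ⟨fun i => τ i j, hτ.2 j⟩
  let wy : W := ⟨y, hy⟩
  let wp : Pos n B → W := fun k => ⟨p k.1, hp k.1 k.2⟩
  let wq : Pos n B → W := fun k => ⟨q k.1, hq k.1 k.2⟩
  obtain ⟨c, hc, hstar⟩ := exists_dep f hW (S := Option (Option (Pos n B)))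
    (by rw [Fintype.card_option, Fintype.card_option, card_pos hB]; omega)
    (ι := Option (Fin (n + 1) × Bool))
    (fun o u => match o, u with
      | none, some x => Umin R x.1
      | none, none => 0
      | some none, none => 1
      | some none, some _ => 0
      | some (some _), none => 1
      | some (some k), some x => if x = (0, true) then v k.1 else 0)
    (fun o u => match o, u with
      | none, some x => if x.2 = true then ro x.1 else cl x.1
      | none, none => 0
      | some none, _ => wy
      | some (some k), none => wp k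
      | some (some k), some _ => wq k)
  have h2 : ∀ j : Fin (n + 1), c none * (∑ l, Umin R l * (f (τ l j) + f (τ j l))) +
      c (some none) * f (y j) + ∑ k : Pos n B, c (some (some k)) * R k.1 j = 0 := by
    intro j
    have h := hstar j
    rw [Fintype.sum_option, Fintype.sum_option] at h
    simp only [Fintype.sum_option] at h
    rw [← h, ← add_assoc]
    congr 1
    · congr 1
      · congr 1
        rw [zero_mul, zero_add, Fintype.sum_prod_type]
        refine Finset.sum_congr rfl fun l _ => ?_
        rw [Fintype.sum_bool]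
        simp only [if_true, Bool.false_eq_true, if_false, ro, cl]
        ring
      · congr 1
        simp [wy]
    · refine Finset.sum_congr rfl fun k _ => ?_
      congr 1
      rw [hR k.1 k.2, one_mul, Finset.sum_eq_single (0, true)]
      · simp only [if_true, wp, wq]
      · intro b _ hb
        rw [if_neg hb, zero_mul]
      · intro h'
        exact absurd (Finset.mem_univ _) h'
  have hBf : ∀ z : Fin (n + 1) → A, Bf (τ.map f) (Umin R) z =
      ∑ j, (∑ l, Umin R l * (f (τ l j) + f (τ j l))) * z j := by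
    intro z
    rw [Bf_eq]
    simp only [Finset.mul_sum, Finset.sum_mul]
    rw [Finset.sum_comm]
    refine Finset.sum_congr rfl fun j _ => Finset.sum_congr rfl fun l _ => ?_
    rw [Matrix.map_apply, Matrix.map_apply]
    ring
  have hz : ∀ z : Fin (n + 1) → A,
      c none * Bf (τ.map f) (Umin R) z + c (some none) * (∑ j, f (y j) * z j) +
      ∑ k : Pos n B, c (some (some k)) * (∑ j, R k.1 j * z j) = 0 := by
    intro z
    have h1 : ∑ j, (c none * (∑ l, Umin R l * (f (τ l j) + f (τ j l))) +
      c (some none) * f (y j) + ∑ k : Pos n B, c (some (some k)) * R k.1 j) * z j = 0 := by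
      refine Finset.sum_eq_zero fun j _ => ?_
      rw [h2 j, zero_mul]
    rw [← h1, hBf]
    simp only [add_mul, Finset.sum_add_distrib, Finset.mul_sum, Finset.sum_mul, mul_assoc]
    congr 1
    rw [Finset.sum_comm]
  have hBU : Bf (τ.map f) (Umin R) (Umin R) = 0 := by
    unfold Bf
    refine Finset.sum_eq_zero fun i _ => Finset.sum_eq_zero fun j _ => ?_
    rw [CharTwo.add_self_eq_zero, mul_zero]
  have hc1 : c (some none) = 0 := by
    have h := hz (Umin R)
    have h3 : ∑ k : Pos n B, c (some (some k)) * (∑ j, R k.1 j * Umin R j) = 0 := by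
      refine Finset.sum_eq_zero fun k _ => ?_
      rw [R_Umin, mul_zero]
    rw [hBU, h3, mul_zero, zero_add, add_zero] at h
    exact (mul_eq_zero.1 h).resolve_right hU
  have hall := rows_indep R hU0 (fun l => c none * bmin (τ.map f) R l +
      (if h : (l : ℕ) ∈ B then c (some (some ⟨l, h⟩)) else 0)) (fun z => by
      have h := hz z
      rw [hc1, zero_mul, add_zero, Bf_Umin] at h
      refine Eq.trans ?_ h
      have e1 : ∑ k : Fin n, (c none * bmin (τ.map f) R k +
          (if h : (k : ℕ) ∈ B then c (some (some ⟨k, h⟩)) else 0)) * ∑ j, R k j * z j =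
          c none * (∑ k, bmin (τ.map f) R k * ∑ j, R k j * z j) +
          ∑ k : Fin n, (if h : (k : ℕ) ∈ B then c (some (some ⟨k, h⟩)) else 0) *
            ∑ j, R k j * z j := by
        rw [Finset.mul_sum, ← Finset.sum_add_distrib]
        refine Finset.sum_congr rfl fun k _ => ?_
        ring
      rw [e1, sum_pos B (fun k : Fin n =>
        (if h : (k : ℕ) ∈ B then c (some (some ⟨k, h⟩)) else 0) * ∑ j, R k j * z j)]
      · congr 1
        refine Finset.sum_congr rfl fun l _ => ?_
        rw [dif_pos l.2]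
      · intro k hk
        rw [dif_neg hk, zero_mul])
  have hc0 : c none = 0 := by
    have h := congrFun hall j0
    simp only [dif_neg hj0, add_zero, Pi.zero_apply] at h
    exact (mul_eq_zero.1 h).resolve_right hne
  apply hc
  ext1 o
  rcases o with _ | _ | k
  · exact hc0
  · exact hc1
  · have h := congrFun hall k.1
    simp only [hc0, zero_mul, zero_add, Pi.zero_apply] at h
    rw [dif_pos k.2] at h
    exact h

end Pool.Agent.Lib.CPlane.S2.TE
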