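import Pool.Agent.Lib.CPlane.M0Stat
import Pool.Agent.Lib.CPlane.LFDefs
import Pool.Agent.Lib.CPlane.Leaf2

/-!
# s = 2: definitions and statements between (M0), (L1) and the end
-/

namespace Pool.Agent.Lib.CPlane.S2

open Finset Module Pool.Agent.Lib.CPlane.P2

section defs

variable {E : Type} [Field E] {N : ℕ}

/-- `fv ga k = g_k`, `fv et k = y_k` as functionals on `V` -/
def fv (v : Fin N → E) (k : ℕ) : Fin N → E := fun i => v i ^ 2 ^ k

/-- the set of the functionals `g_k`, `y_k`, `k ∈ A` -/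
def gy (ga et : Fin N → E) (A : Finset ℕ) : Set (Fin N → E) :=
  fv ga '' (A : Set ℕ) ∪ fv et '' (A : Set ℕ)

/-- `W_A` -/
def WA (ga et : Fin N → E) (A : Finset ℕ) : Submodule E (Fin N → E) :=
  Submodule.span E (gy ga et A)

/-- near tight sets -/
def IsNT (ga et : Fin N → E) (A : Finset ℕ) : Prop :=
  finrank E (WA ga et A) = A.card + 1

/-- determinant with the rows `u`, `v`, `R_0, .., R_(n-1)` -/
def dd {A : Type} [CommRing A] {n : ℕ} (u v : Fin (n + 2) → A) (R : Fin n → Fin (n + 2) → A) : A :=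
  (Matrix.of (Fin.cons u (Fin.cons v R) : Fin (n + 2) → Fin (n + 2) → A)).det

/-- the row `R_(s+1+i)(t_i)` over `E[t_0, .., t_(n-1)]` -/
noncomputable def RS {n : ℕ} (ga et : Fin (n + 2) → E) (s : ℕ) (i : Fin n) :
    Fin (n + 2) → MvPolynomial (Fin n) E :=
  fun j => MvPolynomial.C (fv ga (s + 1 + i) j) + MvPolynomial.X i *
    MvPolynomial.C (fv et (s + 1 + i) j)

/-- the row `α_k(x, .)` over `E[x]` -/
noncomputable def ax (ga et : Fin N → E) (k : ℕ) : Fin N → MvPolynomial (Fin N) E :=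
  LF.al (LF.cs (fv ga k)) (LF.cs (fv et k)) MvPolynomial.X

/-- `w_F`, `F = [s, s + n]`: `det (g_s, y_s, α_(s+1)(x), .., α_(s+n)(x))` -/
noncomputable def wF {n : ℕ} (ga et : Fin (n + 2) → E) (s : ℕ) : MvPolynomial (Fin (n + 2)) E :=
  dd (LF.cs (fv ga s)) (LF.cs (fv et s)) (fun i : Fin n => ax ga et (s + 1 + i))

end defs

/-- all that is known of the pair (`m = 2 ^ a = [E : K]`, `N = n + 2 = f + e`) -/
structure Pair3 (K : Type) {E : Type} [Field K] [Fintype K] [Field E]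
    [Algebra K E] {n : ℕ} (ga et : Fin (n + 2) → E) (f e a : ℕ) : Prop where
  card : Fintype.card K = 2
  deg : finrank K E = 2 ^ a
  p2 : Pair2 K ga et
  split : Split ga et f e
  hf : 2 * f < 2 ^ a
  he : 2 * e < 2 ^ a
  /-- no two of the `g_k`, `k < m`, are proportional -/
  np_g : ∀ k l, k < 2 ^ a → l < 2 ^ a → k ≠ l → ∀ c : E, fv ga k ≠ c • fv ga l
  /-- no two of the `y_k`, `k < m`, are proportional -/
  np_y : ∀ k l, k < 2 ^ a → l < 2 ^ a → k ≠ l → ∀ c : E, fv et k ≠ c • fv et l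

/-- (NT) for the windows of `N - 1 = n + 1` indices -/
def NTT : Prop := ∀ {K E : Type} [Field K] [Fintype K] [CharP K 2] [Field E] [Finite E]
  [CharP E 2] [Algebra K E] {n f e a : ℕ} (ga et : Fin (n + 2) → E), Pair3 K ga et f e a →
  ∀ (s : ℕ) (A : Finset ℕ), A.Nonempty → A ⊆ Icc s (s + n) →
    A.card + 1 ≤ finrank E (WA ga et A)

/-- THEOREM E -/
def THE : Prop := ∀ {K E : Type} [Field K] [Fintype K] [CharP K 2] [Field E] [Finite E]
  [CharP E 2] [Algebra K E] {n f e a : ℕ} (ga et : Fin (n + 2) → E), Pair3 K ga et f e a →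
  ∀ (s : ℕ) (A : Finset ℕ), A ⊆ Icc (s + 1) (s + n) → IsNT ga et A →
  ∀ k, fv ga k ∈ WA ga et A → fv et k ∈ WA ga et A → ∃ j ∈ A, k ≡ j [MOD 2 ^ a]

/-- (L1): `(B - α_s) ∧ R_(s+1) ∧ .. ∧ R_(s+n) = 0` -/
def L1 : Prop := ∀ {K E : Type} [Field K] [Fintype K] [CharP K 2] [Field E] [Finite E]
  [CharP E 2] [Algebra K E] {n f e a : ℕ} (ga et : Fin (n + 2) → E), Pair3 K ga et f e a →
  ∀ s : ℕ, ∑ k ∈ Ico (s + 1) (s + 2 ^ a),
    dd (LF.cs (fv ga k)) (LF.cs (fv et k)) (RS ga et s) = 0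

/-- `w_F` does not depend on the distinguished index -/
def WFI : Prop := ∀ {E : Type} [Field E] [CharP E 2] {n : ℕ} (ga et : Fin (n + 2) → E) (s : ℕ),
  wF ga et (s + 1) = dd (LF.cs (fv ga (s + n + 1))) (LF.cs (fv et (s + n + 1)))
    (fun i : Fin n => ax ga et (s + 1 + i))

/-- (CA): `w_(F_s) / w_(F_(s+1))` is a rational function on `V / W_X^⊥`, `X` near tight -/
def CA : Prop := ∀ {K E : Type} [Field K] [Fintype K] [CharP K 2] [Field E] [Finite E]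
  [CharP E 2] [Algebra K E] {n f e a : ℕ} (ga et : Fin (n + 2) → E), Pair3 K ga et f e a →
  ∀ s : ℕ, ∃ X : Finset ℕ, X ⊆ Icc (s + 2) (s + n + 1) ∧ IsNT ga et X ∧
    ∃ A ∈ Algebra.adjoin E (Leaf.lf '' gy ga et X),
    ∃ B ∈ Algebra.adjoin E (Leaf.lf '' gy ga et X),
      A ≠ 0 ∧ B ≠ 0 ∧ A * wF ga et (s + 1) = B * wF ga et s

/-- (WNZ): `w_F ≠ 0` -/
def WNZ : Prop := ∀ {K E : Type} [Field K] [Fintype K] [CharP K 2] [Field E] [Finite E]
  [CharP E 2] [Algebra K E] {n f e a : ℕ} (ga et : Fin (n + 2) → E), Pair3 K ga et f e a →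
  ∀ s : ℕ, wF ga et s ≠ 0

/-- (H2): all near tight sets of diameter `≤ N - 3` are singletons -/
def H2 {E : Type} [Field E] {n : ℕ} (ga et : Fin (n + 2) → E) : Prop :=
  ∀ (s : ℕ) (A : Finset ℕ), A ⊆ Ico s (s + n) → 2 ≤ A.card →
    A.card + 2 ≤ finrank E (WA ga et A)

/-- minimal near tight sets with at least two elements -/
structure IsLeaf {E : Type} [Field E] {N : ℕ} (ga et : Fin N → E) (C : Finset ℕ) : Prop where
  nt : IsNT ga et C
  two : 2 ≤ C.card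
  min : ∀ A ⊂ C, 2 ≤ A.card → A.card + 2 ≤ finrank E (WA ga et A)

/-- (LEAF): for a leaf `C` of diameter `≤ N - 3` there is a prime `w = w_C`, divisor of `w_F` if
`C ⊆ F` modulo `m`, with no translation invariance outside `W_C^⊥`, and not a divisor of all
`w_F` -/
def LEAF : Prop := ∀ {K E : Type} [Field K] [Fintype K] [CharP K 2] [Field E] [Finite E]
  [CharP E 2] [Algebra K E] {n f e a : ℕ} (ga et : Fin (n + 2) → E), Pair3 K ga et f e a →
  ∀ (s : ℕ) (C : Finset ℕ), C ⊆ Icc (s + 1) (s + n) → IsLeaf ga et C →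
  ∃ w : MvPolynomial (Fin (n + 2)) E, Prime w ∧
    (∀ v, Leaf.tr v w = Polynomial.C w → ∀ l ∈ C,
      ∑ i, fv ga l i * v i = 0 ∧ ∑ i, fv et l i * v i = 0) ∧
    (∀ (s' : ℕ) (C' : Finset ℕ), C' ⊆ Icc s' (s' + n) → (∀ l ∈ C, ∃ l' ∈ C', l ≡ l' [MOD 2 ^ a]) →
      w ∣ wF ga et s') ∧
    ¬ ∀ s' ≥ s, w ∣ wF ga et s'

/-- (SSR): no `E`-relation between the `g_k ⊗ y_k`, `k < m`, if (H2) holds -/
def SSR : Prop := ∀ {K E : Type} [Field K] [Fintype K] [CharP K 2] [Field E] [Finite E]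
  [CharP E 2] [Algebra K E] {n f e a : ℕ} (ga et : Fin (n + 2) → E), Pair3 K ga et f e a →
  H2 ga et → ∀ c : ℕ → E,
  (∀ i j, ∑ k ∈ range (2 ^ a), c k * (ga i ^ 2 ^ k * et j ^ 2 ^ k) = 0) →
  ∀ k < 2 ^ a, c k = 0

/-- (REL): (L1) is a relation if (H2) holds -/
def REL : Prop := ∀ {K E : Type} [Field K] [Fintype K] [CharP K 2] [Field E] [Finite E]
  [CharP E 2] [Algebra K E] {n f e a : ℕ} (ga et : Fin (n + 2) → E), Pair3 K ga et f e a →
  H2 ga et → ∃ c : ℕ → E, (∃ k < 2 ^ a, c k ≠ 0) ∧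
    ∀ i j, ∑ k ∈ range (2 ^ a), c k * (ga i ^ 2 ^ k * et j ^ 2 ^ k) = 0

/-- the end -/
def END : Prop := ∀ {K E : Type} [Field K] [Fintype K] [CharP K 2] [Field E] [Finite E]
  [CharP E 2] [Algebra K E] {n f e a : ℕ} (ga et : Fin (n + 2) → E), ¬ Pair3 K ga et f e a

/-- the reduction -/
def RED : Prop := ∀ {K E : Type} [Field K] [Fintype K] [CharP K 2] [Field E] [Finite E]
  [CharP E 2] [Algebra K E] {a : ℕ} (G Y : Submodule K E), Fintype.card K = 2 →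
  finrank K E = 2 ^ a → finrank K G = finrank K Y → 2 * finrank K Y < 2 ^ a → Y ≠ ⊥ →
  (∀ g ∈ G, g ≠ 0 → ∃ y ∈ Y, Algebra.trace K E (g * y) ≠ 0) →
  (∀ b : E, b ≠ 0 → (∃ g ∈ G, ∃ y ∈ Y, g + b ^ 2 * y = b) →
    ∃ y ∈ Y, y ≠ 0 ∧ b ^ 2 * y ∈ G) →
  ∃ (n f e : ℕ) (ga et : Fin (n + 2) → E), Pair3 K ga et f e a

end Pool.Agent.Lib.CPlane.S2
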