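import Pool.Agent.Lib.CPlane.S2EB
import Pool.Agent.Lib.CPlane.S2Digits
import Pool.Agent.Lib.CPlane.S2Stat

/-!
# s = 2, Theorem E, part 3: the chain and the digits
-/

namespace Pool.Agent.Lib.CPlane.S2.TE

open Finset Pool.Agent.Lib.CPlane.P2

theorem fv_mem {E : Type} [Field E] {N : ℕ} {ga et : Fin N → E} {A : Finset ℕ} {k : ℕ}
    (hk : k ∈ A) : fv ga k ∈ WA ga et A ∧ fv et k ∈ WA ga et A :=
  ⟨Submodule.subset_span (Or.inl ⟨k, hk, rfl⟩), Submodule.subset_span (Or.inr ⟨k, hk, rfl⟩)⟩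

section chainT

variable {E : Type} [Field E] {n : ℕ}

/-- the polynomial `H` of a tensor `τ` -/
noncomputable def HT (ga et : Fin (n + 2) → E) (τ : Matrix (Fin (n + 2)) (Fin (n + 2)) E) :
    Polynomial E :=
  Qf (τ.map Polynomial.C) (Uv ga et) + ∑ j : Fin (n + 1),
    (bmin (τ.map Polynomial.C) (RT ga et) j) ^ 2 * Polynomial.X ^ 2 ^ (j : ℕ)

theorem RT_eq (ga et : Fin (n + 2) → E) (k : Fin (n + 1)) (j : Fin (n + 2)) : RT ga et k j =
    Polynomial.C (fv ga k j) + Polynomial.X ^ 2 ^ (k : ℕ) * Polynomial.C (fv et k j) := rfl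

theorem yU_eq (ga et : Fin (n + 2) → E) (k : ℕ) :
    yU ga et k = ∑ j, Polynomial.C (fv et k j) * Umin (RT ga et) j := rfl

theorem Umin_ne {ga et : Fin (n + 2) → E} {k : ℕ} (hk : yU ga et k ≠ 0) :
    Umin (RT ga et) ≠ 0 := by
  intro h
  apply hk
  rw [yU_eq, h]
  simp

/-- the exponents of the chain -/
def ee (n : ℕ) (B : Finset ℕ) : Pos n B → ℕ := fun j => ((j.1 : Fin n) : ℕ)

theorem ee_inj (n : ℕ) (B : Finset ℕ) : Function.Injective (ee n B) := by
  intro i j h
  exact Subtype.ext (Fin.ext h)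

/-- the rows on the chain -/
noncomputable def Rc {n : ℕ} (B : Finset ℕ) (p q : Fin n → Fin (n + 1) → E) :
    Matrix (Fin n) (Fin (n + 1)) (Polynomial E) :=
  (Rw B p q).map (chain (ee n B)).toRingHom

/-- `T^(2^k)` or zero -/
noncomputable def vc (E : Type) [Field E] {n : ℕ} (B : Finset ℕ) (k : Fin n) : Polynomial E :=
  if (k : ℕ) ∈ B then Polynomial.X ^ 2 ^ (k : ℕ) else 0

theorem Rc_eq {n : ℕ} (B : Finset ℕ) (p q : Fin n → Fin (n + 1) → E) (k : Fin n)
    (j : Fin (n + 1)) :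
    Rc B p q k j = Polynomial.C (p k j) + vc E B k * Polynomial.C (q k j) := by
  unfold Rc Rw vc vx
  rw [Matrix.map_apply, Matrix.of_apply]
  change chain (ee n B) _ = _
  rw [map_add, map_mul, chain_C, chain_C]
  by_cases h : (k : ℕ) ∈ B
  · rw [dif_pos h, if_pos h, chain_X]
    rfl
  · rw [dif_neg h, if_neg h, map_zero]

theorem chain_HH {n : ℕ} (B : Finset ℕ) (p q : Fin n → Fin (n + 1) → E)
    (τ : Matrix (Fin (n + 1)) (Fin (n + 1)) E) :
    chain (ee n B) (HH B p q τ) = Qf (τ.map Polynomial.C) (Umin (Rc B p q)) +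
      ∑ k : Pos n B, (bmin (τ.map Polynomial.C) (Rc B p q) k.1) ^ 2 *
        Polynomial.X ^ 2 ^ ((k.1 : Fin n) : ℕ) := by
  have hτ : (τ.map (MvPolynomial.C (σ := Pos n B))).map (chain (ee n B)).toRingHom =
      τ.map Polynomial.C := by
    ext1 i j
    rw [Matrix.map_apply, Matrix.map_apply, Matrix.map_apply]
    exact chain_C _ _
  unfold HH
  rw [map_add, map_sum]
  have h1 := Qf_map (chain (ee n B)).toRingHom (τ.map (MvPolynomial.C (σ := Pos n B)))
    (Umin (Rw B p q))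
  rw [hτ] at h1
  have h2 : (fun i => (chain (ee n B)).toRingHom (Umin (Rw B p q) i)) = Umin (Rc B p q) := by
    ext1 i
    exact Umin_map _ _ _
  rw [h2] at h1
  have h3 : ∀ k : Fin n, chain (ee n B) (bmin (τ.map MvPolynomial.C) (Rw B p q) k) =
      bmin (τ.map Polynomial.C) (Rc B p q) k := by
    intro k
    have h := bmin_map (chain (ee n B)).toRingHom (τ.map (MvPolynomial.C (σ := Pos n B)))
      (Rw B p q) k
    rw [hτ] at h
    exact h
  have h1' : chain (ee n B) (Qf (τ.map MvPolynomial.C) (Umin (Rw B p q))) =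
      Qf (τ.map Polynomial.C) (Umin (Rc B p q)) := h1
  rw [h1']
  congr 1
  refine Finset.sum_congr rfl fun k _ => ?_
  rw [map_mul, map_pow, h3, chain_X]
  rfl

theorem chain_bmin {n : ℕ} (B : Finset ℕ) (p q : Fin n → Fin (n + 1) → E)
    (τ : Matrix (Fin (n + 1)) (Fin (n + 1)) E) (k : Fin n) :
    chain (ee n B) (bmin (τ.map MvPolynomial.C) (Rw B p q) k) =
      bmin (τ.map Polynomial.C) (Rc B p q) k := by
  have hτ : (τ.map (MvPolynomial.C (σ := Pos n B))).map (chain (ee n B)).toRingHom =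
      τ.map Polynomial.C := by
    ext1 i j
    rw [Matrix.map_apply, Matrix.map_apply, Matrix.map_apply]
    exact chain_C _ _
  have h := bmin_map (chain (ee n B)).toRingHom (τ.map (MvPolynomial.C (σ := Pos n B)))
    (Rw B p q) k
  rw [hτ] at h
  exact h

theorem chain_lin {n : ℕ} (B : Finset ℕ) (p q : Fin n → Fin (n + 1) → E)
    (c : Fin (n + 1) → E) :
    chain (ee n B) (∑ j, MvPolynomial.C (c j) * Umin (Rw B p q) j) =
      ∑ j, Polynomial.C (c j) * Umin (Rc B p q) j := by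
  rw [map_sum]
  refine Finset.sum_congr rfl fun j _ => ?_
  rw [map_mul, chain_C]
  congr 1
  exact Umin_map (chain (ee n B)).toRingHom _ _

/-- the data of a near tight set `B ⊆ [0, n]` -/
structure NTd (ga et : Fin (n + 2) → E) (B : Finset ℕ) (p ze : Fin (n + 1) → Fin (n + 2) → E) :
    Prop where
  lt : ∀ k ∈ B, k < n + 1
  rk : Module.finrank E (WA ga et B) = B.card + 1
  pB : ∀ k : Fin (n + 1), (k : ℕ) ∈ B → p k = fv ga k
  fr : Frame (WA ga et B) B p (fun k : Fin (n + 1) => fv et k) ze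

theorem exists_NTd (ga et : Fin (n + 2) → E) (B : Finset ℕ) (hB : ∀ k ∈ B, k < n + 1)
    (hrk : Module.finrank E (WA ga et B) = B.card + 1) :
    ∃ p ze, NTd ga et B p ze := by
  classical
  have hcard : Module.finrank E (WA ga et B) +
      Fintype.card {k : Fin (n + 1) // ¬ (k : ℕ) ∈ B} = n + 2 := by
    rw [hrk, Fintype.card_subtype_compl, card_pos hB, Fintype.card_fin]
    have h := card_pos hB
    have h2 := Fintype.card_subtype_le (fun j : Fin (n + 1) => (j : ℕ) ∈ B)
    rw [h, Fintype.card_fin] at h2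
    omega
  obtain ⟨mu, z, h1, h2, h3⟩ := exists_compl (WA ga et B) hcard
  refine ⟨fun k => if h : (k : ℕ) ∈ B then fv ga k else mu ⟨k, h⟩,
    fun k => if h : (k : ℕ) ∈ B then 0 else z ⟨k, h⟩, hB, hrk, fun k hk => dif_pos hk, ?_⟩
  refine ⟨fun k hk => ?_, fun k hk => (fv_mem hk).2, fun k hk l hl => ?_,
    fun k l hk hl => ?_, ?_⟩
  · rw [dif_pos hk]
    exact (fv_mem hk).1
  · rw [dif_neg hk]
    exact h1 _ l hl
  · rw [dif_neg hk, dif_neg hl, h2]
    simp only [Subtype.mk.injEq]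
  · rw [← h3]
    congr 2
    ext x
    constructor
    · rintro ⟨k, hk, rfl⟩
      refine ⟨⟨k, hk⟩, ?_⟩
      change mu ⟨k, hk⟩ = if h : (k : ℕ) ∈ B then fv ga k else mu ⟨k, h⟩
      rw [dif_neg hk]
    · rintro ⟨k, rfl⟩
      refine ⟨k.1, k.2, ?_⟩
      exact dif_neg k.2

variable {ga et : Fin (n + 2) → E} {B : Finset ℕ} {p ze : Fin (n + 1) → Fin (n + 2) → E}

/-- on the rows of `B` the two matrices coincide -/
theorem Rc_RT (h : NTd ga et B p ze) (k : Fin (n + 1)) (hk : (k : ℕ) ∈ B) (j : Fin (n + 2)) :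
    Rc B p (fun k : Fin (n + 1) => fv et k) k j = RT ga et k j := by
  rw [Rc_eq, RT_eq, h.pB k hk]
  unfold vc
  rw [if_pos hk]

variable [CharP E 2]

theorem RT_bmin (h : NTd ga et B p ze) {k0 : ℕ} (hk0 : k0 ∈ B) (hU : yU ga et k0 ≠ 0)
    {τ : Matrix (Fin (n + 2)) (Fin (n + 2)) E} (hτ : InT (WA ga et B) τ) {j : Fin (n + 1)}
    (hj : (j : ℕ) ∉ B) : bmin (τ.map Polynomial.C) (RT ga et) j = 0 :=
  gen_bmin Polynomial.C h.lt h.rk (fun k => fv ga k) (fun k => fv et k)
    (fun k => Polynomial.X ^ 2 ^ (k : ℕ)) (RT ga et) (fun k _ j => RT_eq ga et k j)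
    (fun _ hk => (fv_mem hk).1) (fun _ hk => (fv_mem hk).2) (fv_mem hk0).2 hU hτ hj

/-- `y_k(U') ≠ 0` on the chain -/
theorem Rc_ne (h : NTd ga et B p ze) {k0 : ℕ} (hk0 : k0 ∈ B) (hU : yU ga et k0 ≠ 0) :
    ∑ j, Polynomial.C (fv et k0 j) * Umin (Rc B p (fun k : Fin (n + 1) => fv et k)) j ≠ 0 := by
  classical
  intro h0
  have hch : CharP (Polynomial E) 2 := inferInstance
  rw [← det_cmat (Rc B p (fun k : Fin (n + 1) => fv et k))
    (fun j => Polynomial.C (fv et k0 j))] at h0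
  obtain ⟨x, hx0, hx⟩ := Matrix.exists_mulVec_eq_zero_iff.2 h0
  have hx1 : ∑ j, Polynomial.C (fv et k0 j) * x j = 0 := congrFun hx 0
  have hx2 : ∀ k : Fin (n + 1), ∑ j, Rc B p (fun k : Fin (n + 1) => fv et k) k j * x j = 0 :=
    fun k => congrFun hx k.succ
  have hW : ∀ l ∈ WA ga et B, ∑ j, Polynomial.C (l j) * x j = 0 := by
    intro l hl
    have hB := Bf_Umin ((Matrix.vecMulVec l (fv et k0)).map Polynomial.C) (RT ga et) x
    have h1 : (Matrix.vecMulVec l (fv et k0)).map Polynomial.C =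
        Matrix.vecMulVec (fun i => Polynomial.C (l i)) (fun i => Polynomial.C (fv et k0 i)) := by
      ext1 i j
      rw [Matrix.map_apply, Matrix.vecMulVec_apply, Matrix.vecMulVec_apply, map_mul]
    have h2 : ∑ k, bmin ((Matrix.vecMulVec l (fv et k0)).map Polynomial.C) (RT ga et) k *
        ∑ j, RT ga et k j * x j = 0 := by
      refine Finset.sum_eq_zero fun k _ => ?_
      by_cases hk : (k : ℕ) ∈ B
      · have h3 := hx2 k
        simp only [Rc_RT h k hk] at h3
        rw [h3, mul_zero]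
      · rw [RT_bmin h hk0 hU (InT.vec hl (fv_mem hk0).2) hk, zero_mul]
    rw [h2, h1, Bf_vec, hx1, mul_zero, zero_add] at hB
    exact (mul_eq_zero.1 hB).resolve_right hU
  have hall : ∀ l : Fin (n + 2) → E, ∑ j, Polynomial.C (l j) * x j = 0 := by
    let S : Submodule E (Fin (n + 2) → E) :=
      { carrier := {l | ∑ j, Polynomial.C (l j) * x j = 0}
        add_mem' := by
          intro a b ha hb
          simp only [Set.mem_ofPred_eq, Pi.add_apply, map_add, add_mul,
            Finset.sum_add_distrib] at ha hb ⊢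
          rw [ha, hb, add_zero]
        zero_mem' := by simp
        smul_mem' := by
          intro c a ha
          simp only [Set.mem_ofPred_eq, Pi.smul_apply, smul_eq_mul, map_mul, mul_assoc] at ha ⊢
          rw [← Finset.mul_sum, ha, mul_zero] }
    have hS : WA ga et B ⊔ Submodule.span E (p '' {k : Fin (n + 1) | (k : ℕ) ∉ B}) ≤ S := by
      refine sup_le (fun l hl => hW l hl) (Submodule.span_le.2 ?_)
      rintro _ ⟨k, hk, rfl⟩
      have h3 := hx2 k
      simp only [Rc_eq] at h3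
      unfold vc at h3
      rw [if_neg hk] at h3
      simp only [zero_mul, add_zero] at h3
      exact h3
    rw [h.fr.top] at hS
    intro l
    exact hS (Submodule.mem_top (x := l))
  apply hx0
  ext1 i
  have h4 := hall (Pi.single i 1)
  rw [Finset.sum_eq_single i] at h4
  · rw [Pi.single_eq_same, map_one, one_mul] at h4
    exact h4
  · intro j _ hj
    rw [Pi.single_eq_of_ne hj, map_zero, zero_mul]
  · intro h'
    exact absurd (Finset.mem_univ i) h'

end chainT

end Pool.Agent.Lib.CPlane.S2.TE
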