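import Pool.Agent.Lib.CPlane.S2EC

/-!
# s = 2, Theorem E, part 4: the digits at the run starts, and the span of `U'`
-/

namespace Pool.Agent.Lib.CPlane.S2.TE

open Finset Pool.Agent.Lib.CPlane.P2

section gen

variable {E : Type} [Field E] {n : ℕ}

/-- the polynomial `H` of a tensor, for any matrix over `E[T]` -/
noncomputable def HG (R : Matrix (Fin n) (Fin (n + 1)) (Polynomial E))
    (τ : Matrix (Fin (n + 1)) (Fin (n + 1)) E) : Polynomial E :=
  Qf (τ.map Polynomial.C) (Umin R) + ∑ j : Fin n,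
    (bmin (τ.map Polynomial.C) R j) ^ 2 * Polynomial.X ^ 2 ^ (j : ℕ)

/-- evaluation of a constant functional at the minors -/
noncomputable def le (R : Matrix (Fin n) (Fin (n + 1)) (Polynomial E)) (y : Fin (n + 1) → E) :
    Polynomial E := ∑ i, Polynomial.C (y i) * Umin R i

/-- evaluation of a constant functional at the minors of `Rw` -/
noncomputable def lm (B : Finset ℕ) (p q : Fin n → Fin (n + 1) → E) (y : Fin (n + 1) → E) :
    MvPolynomial (Pos n B) E := ∑ i, MvPolynomial.C (y i) * Umin (Rw B p q) i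

/-- `bmin` for `Rw` -/
noncomputable def bm (B : Finset ℕ) (p q : Fin n → Fin (n + 1) → E)
    (τ : Matrix (Fin (n + 1)) (Fin (n + 1)) E) (j : Fin n) : MvPolynomial (Pos n B) E :=
  bmin (τ.map MvPolynomial.C) (Rw B p q) j

theorem vc_out (B : Finset ℕ) (k : Fin n) (hk : (k : ℕ) ∉ B) : vc E B k = 0 := if_neg hk

/-- a chain matrix compatible with a frame -/
structure Comp (W : Submodule E (Fin (n + 1) → E)) (B : Finset ℕ)
    (p q ze : Fin n → Fin (n + 1) → E) (R : Matrix (Fin n) (Fin (n + 1)) (Polynomial E)) :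
    Prop where
  fr : Frame W B p q ze
  row : ∀ k : Fin n, (k : ℕ) ∈ B → ∀ j, Rc B p q k j = R k j
  bz : ∀ τ, InT W τ → ∀ k : Fin n, (k : ℕ) ∉ B → bmin (τ.map Polynomial.C) R k = 0
  ne : ∀ k : Fin n, (k : ℕ) ∈ B → le R (q k) ≠ 0
  ne' : ∀ k : Fin n, (k : ℕ) ∈ B → le (Rc B p q) (q k) ≠ 0

variable [CharP E 2] {W : Submodule E (Fin (n + 1) → E)} {B : Finset ℕ}
  {p q ze : Fin n → Fin (n + 1) → E} {R : Matrix (Fin n) (Fin (n + 1)) (Polynomial E)}

theorem Comp.killed (h : Comp W B p q ze R) (k : Fin n) (hk : (k : ℕ) ∈ B) :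
    ∑ j, Rc B p q k j * Umin R j = 0 := by
  simp only [h.row k hk]
  exact R_Umin _ _

/-- transfer of the coefficients between the two matrices -/
theorem Comp.transfer (h : Comp W B p q ze R) {k0 : Fin n} (hk0 : (k0 : ℕ) ∈ B)
    {τ : Matrix (Fin (n + 1)) (Fin (n + 1)) E} (hτ : InT W τ) (j : Fin n) :
    le (Rc B p q) (q k0) * bmin (τ.map Polynomial.C) R j =
    le R (q k0) * bmin (τ.map Polynomial.C) (Rc B p q) j := by
  have hU0 : Umin R ≠ 0 := by
    intro h'
    apply h.ne k0 hk0
    unfold le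
    rw [h']
    simp
  have hall := rows_indep R hU0 (fun l => le (Rc B p q) (q k0) * bmin (τ.map Polynomial.C) R l -
      le R (q k0) * bmin (τ.map Polynomial.C) (Rc B p q) l) (fun z => by
      have h1 : ∑ k, (le (Rc B p q) (q k0) * bmin (τ.map Polynomial.C) R k -
          le R (q k0) * bmin (τ.map Polynomial.C) (Rc B p q) k) * ∑ j, R k j * z j =
          le (Rc B p q) (q k0) * (∑ k, bmin (τ.map Polynomial.C) R k * ∑ j, R k j * z j) -
          le R (q k0) * ∑ k, bmin (τ.map Polynomial.C) (Rc B p q) k *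
            ∑ j, Rc B p q k j * z j := by
        rw [Finset.mul_sum, Finset.mul_sum, ← Finset.sum_sub_distrib]
        refine Finset.sum_congr rfl fun k _ => ?_
        by_cases hk : (k : ℕ) ∈ B
        · have : ∑ j, R k j * z j = ∑ j, Rc B p q k j * z j :=
            Finset.sum_congr rfl fun j _ => by rw [h.row k hk]
          rw [this]
          ring
        · rw [h.bz τ hτ k hk, frame_bmin Polynomial.C h.fr (vc_out B) (Rc_eq B p q) hτ hk]
          ring
      have h2 := frame_Bf Polynomial.C h.fr (vc_out B) (Rc_eq B p q) h.killed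
        (h.fr.qW k0 hk0) hτ z
      rw [h1, ← Bf_Umin, ← Bf_Umin]
      exact sub_eq_zero.2 h2)
  exact sub_eq_zero.1 (congrFun hall j)

/-- transfer of the values of functionals -/
theorem Comp.prop (h : Comp W B p q ze R) {l l' : Fin (n + 1) → E} (hl : l ∈ W) (hl' : l' ∈ W) :
    le (Rc B p q) l * le R l' = le R l * le (Rc B p q) l' :=
  frame_prop Polynomial.C h.fr (vc_out B) (Rc_eq B p q) h.killed hl hl'

/-- transfer of `H` -/
theorem Comp.transfer_H (h : Comp W B p q ze R) {k0 : Fin n} (hk0 : (k0 : ℕ) ∈ B)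
    {τ : Matrix (Fin (n + 1)) (Fin (n + 1)) E} (hτ : InT W τ) :
    le (Rc B p q) (q k0) ^ 2 * HG R τ = le R (q k0) ^ 2 * chain (ee n B) (HH B p q τ) := by
  rw [chain_HH]
  unfold HG
  rw [mul_add, mul_add]
  congr 1
  · exact frame_Qf Polynomial.C h.fr (vc_out B) (Rc_eq B p q) h.killed (h.fr.qW k0 hk0) hτ
  · rw [sum_pos B (fun j : Fin n => (bmin (τ.map Polynomial.C) R j) ^ 2 *
      Polynomial.X ^ 2 ^ (j : ℕ))]
    · rw [Finset.mul_sum, Finset.mul_sum]
      refine Finset.sum_congr rfl fun k _ => ?_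
      have h1 := h.transfer hk0 hτ k.1
      rw [← mul_assoc, ← mul_pow, h1, mul_pow, mul_assoc]
    · intro k hk
      rw [h.bz τ hτ k hk]
      simp

omit [CharP E 2] in
theorem Comp.lm_ne (h : Comp W B p q ze R) {k : Fin n} (hk : (k : ℕ) ∈ B) :
    lm B p q (q k) ≠ 0 := by
  intro h1
  apply h.ne' k hk
  unfold le
  rw [← chain_lin]
  unfold lm at h1
  rw [h1, map_zero]

/-- the digits: at a run start the coefficient is `0` or `y_j(U')` -/
theorem Comp.run_start (h : Comp W B p q ze R)
    {τ : Matrix (Fin (n + 1)) (Fin (n + 1)) E} (hτ : InT W τ)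
    (hH : HG R τ = 0) (j : Pos n B) (hj : ∀ i ∈ B, i + 1 ≠ ((j.1 : Fin n) : ℕ)) :
    bm B p q τ j.1 = 0 ∨ bm B p q τ j.1 = lm B p q (q j.1) := by
  have hch : CharP (MvPolynomial (Pos n B) E) 2 := inferInstance
  have h1 := h.transfer_H j.2 hτ
  rw [hH, mul_zero] at h1
  have h2 := (mul_eq_zero.1 h1.symm).resolve_left (pow_ne_zero 2 (h.ne _ j.2))
  have h3 := pderiv_zero (ee n B) (ee_inj _ _) _ (deg_HH B p q τ) h2 j
    (fun i => hj _ i.2)
  rw [pderiv_HH, map_mul] at h3
  rcases mul_eq_zero.1 h3 with h4 | h4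
  · left
    refine multilinear_zero (ee n B) (ee_inj _ _) _ (fun i => ?_) h4
    refine (deg_bmin' B p q τ i j.1).trans ?_
    split_ifs <;> omega
  · right
    have h5 := multilinear_zero (ee n B) (ee_inj _ _) _ (fun i => ?_) h4
    · rw [← sub_eq_zero, CharTwo.sub_eq_add, add_comm]
      exact h5
    · refine (MvPolynomial.degreeOf_add_le _ _ _).trans (max_le ?_ ?_)
      · exact deg_lin' B p q _ i
      · refine (deg_bmin' B p q τ i j.1).trans ?_
        split_ifs <;> omega

omit [CharP E 2] in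
theorem pderiv_Rw (k : Pos n B) (l : Fin n) (j : Fin (n + 1)) :
    MvPolynomial.pderiv k (Rw B p q l j) = if l = k.1 then MvPolynomial.C (q l j) else 0 := by
  simp only [Rw, Matrix.of_apply, map_add, Derivation.leibniz, MvPolynomial.pderiv_C,
    zero_add, smul_eq_mul, mul_zero]
  unfold vx
  by_cases h : l = k.1
  · subst h
    rw [dif_pos k.2, if_pos rfl, MvPolynomial.pderiv_X_self, mul_one]
  · rw [if_neg h]
    by_cases hl : (l : ℕ) ∈ B
    · rw [dif_pos hl, MvPolynomial.pderiv_X_of_ne, mul_zero]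
      intro h'
      apply h
      rw [← h']
    · rw [dif_neg hl, map_zero, mul_zero]

/-- the vector `U'` is killed by no functional of `W` -/
theorem Comp.span (h : Comp W B p q ze R) {k0 : Fin n} (hk0 : (k0 : ℕ) ∈ B)
    {l : Fin (n + 1) → E} (hl : l ∈ W) (h0 : lm B p q l = 0) : l = 0 := by
  classical
  have hch : CharP (MvPolynomial (Pos n B) E) 2 := inferInstance
  have hvx : ∀ k : Fin n, (k : ℕ) ∉ B → vx E B k = 0 := fun k hk => dif_neg hk
  have hτT : InT W (Matrix.vecMulVec l (q k0)) := InT.vec hl (h.fr.qW k0 hk0)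
  have hmap : (Matrix.vecMulVec l (q k0)).map (MvPolynomial.C (σ := Pos n B)) =
      Matrix.vecMulVec (fun i => MvPolynomial.C (l i)) (fun i => MvPolynomial.C (q k0 i)) := by
    ext1 i j
    rw [Matrix.map_apply, Matrix.vecMulVec_apply, Matrix.vecMulVec_apply, map_mul]
  have hid : ∀ j, MvPolynomial.C (l j) * lm B p q (q k0) =
      ∑ k, bm B p q (Matrix.vecMulVec l (q k0)) k * Rw B p q k j := by
    intro j
    have h1 := Bf_Umin ((Matrix.vecMulVec l (q k0)).map (MvPolynomial.C (σ := Pos n B)))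
      (Rw B p q) (Pi.single j 1)
    unfold lm at h0 ⊢
    rw [hmap, Bf_vec, h0, zero_mul, zero_add] at h1
    simp only [Pi.single_apply, mul_ite, mul_one, mul_zero, Finset.sum_ite_eq',
      Finset.mem_univ, if_true] at h1
    rw [h1, ← hmap]
    rfl
  have hb0 : ∀ k, bm B p q (Matrix.vecMulVec l (q k0)) k = 0 := by
    intro k
    by_cases hk : (k : ℕ) ∈ B
    · set kk : Pos n B := ⟨k, hk⟩ with hkk
      have h2 : ∀ j, MvPolynomial.C (l j) * MvPolynomial.pderiv kk (lm B p q (q k0)) =
          ∑ l', MvPolynomial.pderiv kk (bm B p q (Matrix.vecMulVec l (q k0)) l') *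
            Rw B p q l' j +
          bm B p q (Matrix.vecMulVec l (q k0)) k * MvPolynomial.C (q k j) := by
        intro j
        have h3 := congrArg (MvPolynomial.pderiv kk) (hid j)
        rw [Derivation.leibniz, MvPolynomial.pderiv_C, smul_zero, add_zero, smul_eq_mul] at h3
        rw [h3, map_sum]
        simp only [Derivation.leibniz, smul_eq_mul, pderiv_Rw, Finset.sum_add_distrib]
        rw [add_comm]
        congr 1
        · exact Finset.sum_congr rfl fun l' _ => mul_comm _ _
        · simp only [mul_ite, mul_zero]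
          rw [Finset.sum_ite_eq' univ kk.1, if_pos (Finset.mem_univ _)]
      have h4 : ∑ j, (MvPolynomial.C (l j) * MvPolynomial.pderiv kk (lm B p q (q k0))) *
          Umin (Rw B p q) j = 0 := by
        have e : ∑ j, (MvPolynomial.C (l j) * MvPolynomial.pderiv kk (lm B p q (q k0))) *
          Umin (Rw B p q) j = lm B p q l * MvPolynomial.pderiv kk (lm B p q (q k0)) := by
          unfold lm
          rw [Finset.sum_mul]
          exact Finset.sum_congr rfl fun j _ => by ring
        rw [e, h0, zero_mul]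
      simp only [h2, add_mul, Finset.sum_add_distrib] at h4
      have h5 : ∑ j, (∑ l', MvPolynomial.pderiv kk (bm B p q (Matrix.vecMulVec l (q k0)) l') *
          Rw B p q l' j) * Umin (Rw B p q) j = 0 := by
        have e : ∑ j, (∑ l', MvPolynomial.pderiv kk (bm B p q (Matrix.vecMulVec l (q k0)) l') *
          Rw B p q l' j) * Umin (Rw B p q) j =
          ∑ l', MvPolynomial.pderiv kk (bm B p q (Matrix.vecMulVec l (q k0)) l') *
            ∑ j, Rw B p q l' j * Umin (Rw B p q) j := by
          simp only [Finset.sum_mul, Finset.mul_sum]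
          rw [Finset.sum_comm]
          exact Finset.sum_congr rfl fun l' _ => Finset.sum_congr rfl fun j _ => by ring
        rw [e]
        refine Finset.sum_eq_zero fun l' _ => ?_
        rw [R_Umin, mul_zero]
      rw [h5, zero_add] at h4
      have h6 : ∑ j, bm B p q (Matrix.vecMulVec l (q k0)) k * MvPolynomial.C (q k j) *
          Umin (Rw B p q) j = bm B p q (Matrix.vecMulVec l (q k0)) k * lm B p q (q k) := by
        unfold lm
        rw [Finset.mul_sum]
        exact Finset.sum_congr rfl fun j _ => by ring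
      rw [h6] at h4
      exact (mul_eq_zero.1 h4).resolve_right (h.lm_ne hk)
    · exact frame_bmin MvPolynomial.C h.fr hvx (fun k j => rfl) hτT hk
  ext j
  have h7 := hid j
  simp only [hb0, zero_mul, Finset.sum_const_zero] at h7
  have h8 := (mul_eq_zero.1 h7).resolve_right (h.lm_ne hk0)
  rw [Pi.zero_apply]
  exact MvPolynomial.C_injective _ _ (by rw [h8, map_zero])

end gen

end Pool.Agent.Lib.CPlane.S2.TE
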