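import Pool.Agent.Lib.CPlane.S2Stat
import Pool.Agent.Lib.CPlane.P2Moore

/-!
# s = 2, row S01: (NT), near tight sets, periodicity, Frobenius shift, double annihilator
-/

namespace Pool.Agent.Lib.CPlane.S2

open Finset Module Pool.Agent.Lib.CPlane.P2

/-! ### the spaces `W_A` -/

section basic

variable {E : Type} [Field E] {N : ℕ}

theorem fv_apply (v : Fin N → E) (k : ℕ) (i : Fin N) : fv v k i = v i ^ 2 ^ k := rfl

theorem fv_add (v : Fin N → E) (k d : ℕ) (i : Fin N) : fv v (k + d) i = fv v k i ^ 2 ^ d := by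
  rw [fv_apply, fv_apply, pow_add, pow_mul]

theorem mem_gy {ga et : Fin N → E} {A : Finset ℕ} {u : Fin N → E} :
    u ∈ gy ga et A ↔ ∃ k ∈ A, u = fv ga k ∨ u = fv et k := by
  constructor
  · rintro (⟨k, hk, rfl⟩ | ⟨k, hk, rfl⟩)
    · exact ⟨k, mem_coe.1 hk, Or.inl rfl⟩
    · exact ⟨k, mem_coe.1 hk, Or.inr rfl⟩
  · rintro ⟨k, hk, rfl | rfl⟩
    · exact Or.inl ⟨k, mem_coe.2 hk, rfl⟩
    · exact Or.inr ⟨k, mem_coe.2 hk, rfl⟩

theorem fv_ga_mem {ga et : Fin N → E} {A : Finset ℕ} {k : ℕ} (hk : k ∈ A) :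
    fv ga k ∈ WA ga et A := Submodule.subset_span (mem_gy.2 ⟨k, hk, Or.inl rfl⟩)

theorem fv_et_mem {ga et : Fin N → E} {A : Finset ℕ} {k : ℕ} (hk : k ∈ A) :
    fv et k ∈ WA ga et A := Submodule.subset_span (mem_gy.2 ⟨k, hk, Or.inr rfl⟩)

theorem WA_le {ga et : Fin N → E} {A : Finset ℕ} {S : Submodule E (Fin N → E)} :
    WA ga et A ≤ S ↔ ∀ k ∈ A, fv ga k ∈ S ∧ fv et k ∈ S := by
  constructor
  · intro h k hk
    exact ⟨h (fv_ga_mem hk), h (fv_et_mem hk)⟩
  · intro h
    refine Submodule.span_le.2 fun u hu => ?_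
    obtain ⟨k, hk, rfl | rfl⟩ := mem_gy.1 hu
    · exact (h k hk).1
    · exact (h k hk).2

theorem WA_mono {ga et : Fin N → E} {A B : Finset ℕ} (h : A ⊆ B) :
    WA ga et A ≤ WA ga et B :=
  WA_le.2 fun _ hk => ⟨fv_ga_mem (h hk), fv_et_mem (h hk)⟩

theorem WA_union (ga et : Fin N → E) (A B : Finset ℕ) :
    WA ga et (A ∪ B) = WA ga et A ⊔ WA ga et B := by
  refine le_antisymm (WA_le.2 fun k hk => ?_) (sup_le (WA_mono subset_union_left)
    (WA_mono subset_union_right))
  rcases mem_union.1 hk with h | h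
  · exact ⟨Submodule.mem_sup_left (fv_ga_mem h), Submodule.mem_sup_left (fv_et_mem h)⟩
  · exact ⟨Submodule.mem_sup_right (fv_ga_mem h), Submodule.mem_sup_right (fv_et_mem h)⟩

theorem WA_inter_le (ga et : Fin N → E) (A B : Finset ℕ) :
    WA ga et (A ∩ B) ≤ WA ga et A ⊓ WA ga et B :=
  le_inf (WA_mono inter_subset_left) (WA_mono inter_subset_right)

theorem WA_empty (ga et : Fin N → E) : WA ga et ∅ = ⊥ := by
  refine le_bot_iff.1 (WA_le.2 fun k hk => ?_)
  exact absurd hk (notMem_empty k)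

theorem WA_insert (ga et : Fin N → E) (k : ℕ) (A : Finset ℕ) :
    WA ga et (insert k A) = Submodule.span E {fv ga k, fv et k} ⊔ WA ga et A := by
  rw [insert_eq, WA_union]
  congr 1
  unfold WA gy
  rw [coe_singleton, Set.image_singleton, Set.image_singleton, Set.singleton_union]

theorem finrank_WA_mono {ga et : Fin N → E} {A B : Finset ℕ} (h : A ⊆ B) :
    finrank E (WA ga et A) ≤ finrank E (WA ga et B) :=
  Submodule.finrank_mono (WA_mono h)

theorem finrank_WA_insert_le (ga et : Fin N → E) (k : ℕ) (A : Finset ℕ) :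
    finrank E (WA ga et (insert k A)) ≤ finrank E (WA ga et A) + 2 := by
  rw [WA_insert]
  refine (Submodule.finrank_add_le_finrank_add_finrank _ _).trans ?_
  have h : finrank E (Submodule.span E ({fv ga k, fv et k} : Set (Fin N → E))) ≤ 2 := by
    classical
    have h1 := finrank_span_finset_le_card (R := E) ({fv ga k, fv et k} : Finset (Fin N → E))
    rw [coe_insert, coe_singleton] at h1
    exact h1.trans (card_le_two)
  omega

/-- double annihilator -/
theorem mem_WA_of_forall {ga et : Fin N → E} {A : Finset ℕ} {w : Fin N → E}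
    (h : ∀ v : Fin N → E, (∀ k ∈ A, ∑ i, fv ga k i * v i = 0 ∧ ∑ i, fv et k i * v i = 0) →
      ∑ i, w i * v i = 0) : w ∈ WA ga et A := by
  by_contra hw
  obtain ⟨f, hf, hle⟩ := Submodule.exists_le_ker_of_notMem hw
  have hfv : ∀ u : Fin N → E, f u = ∑ i, u i * f (Pi.single i 1) := by
    intro u
    conv_lhs => rw [← Finset.univ_sum_single u]
    rw [map_sum]
    refine Finset.sum_congr rfl fun i _ => ?_
    rw [← smul_eq_mul, ← map_smul]
    congr 1
    rw [← Pi.single_smul, smul_eq_mul, mul_one]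
  apply hf
  rw [hfv]
  refine h _ fun k hk => ⟨?_, ?_⟩
  · rw [← hfv]
    exact LinearMap.mem_ker.1 (hle (fv_ga_mem hk))
  · rw [← hfv]
    exact LinearMap.mem_ker.1 (hle (fv_et_mem hk))

/-- the annihilator of `W_A` -/
theorem ann_WA {ga et : Fin N → E} {A : Finset ℕ} {v : Fin N → E} :
    (∀ w ∈ WA ga et A, ∑ i, w i * v i = 0) ↔
      ∀ k ∈ A, ∑ i, fv ga k i * v i = 0 ∧ ∑ i, fv et k i * v i = 0 := by
  constructor
  · intro h k hk
    exact ⟨h _ (fv_ga_mem hk), h _ (fv_et_mem hk)⟩
  · intro h w hw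
    refine Submodule.span_induction (p := fun w _ => ∑ i, w i * v i = 0) ?_ ?_ ?_ ?_ hw
    · intro u hu
      obtain ⟨k, hk, rfl | rfl⟩ := mem_gy.1 hu
      · exact (h k hk).1
      · exact (h k hk).2
    · simp
    · intro x y _ _ hx hy
      simp only [Pi.add_apply, add_mul, sum_add_distrib, hx, hy, add_zero]
    · intro c x _ hx
      simp only [Pi.smul_apply, smul_eq_mul, mul_assoc]
      rw [← mul_sum, hx, mul_zero]

end basic

/-! ### periodicity -/

section period

variable {K E : Type} [Field K] [Fintype K] [Field E] [Finite E] [Algebra K E] {N : ℕ}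

theorem pow_period {a : ℕ} (hK : Fintype.card K = 2) (hE : finrank K E = 2 ^ a) (x : E) :
    x ^ 2 ^ 2 ^ a = x := by
  have := Fintype.ofFinite E
  have h : Fintype.card E = 2 ^ 2 ^ a := by
    rw [Module.card_eq_pow_finrank (K := K) (V := E), hK, hE]
  rw [← h]
  exact FiniteField.pow_card x

theorem fv_period {a : ℕ} (hK : Fintype.card K = 2) (hE : finrank K E = 2 ^ a)
    (v : Fin N → E) (k : ℕ) : fv v (k + 2 ^ a) = fv v k := by
  funext i
  rw [fv_apply, fv_apply, Nat.add_comm, pow_add, pow_mul, pow_period hK hE]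

theorem fv_period_mul {a : ℕ} (hK : Fintype.card K = 2) (hE : finrank K E = 2 ^ a)
    (v : Fin N → E) (k q : ℕ) : fv v (k + 2 ^ a * q) = fv v k := by
  induction q with
  | zero => rw [mul_zero, add_zero]
  | succ q ih => rw [mul_add, mul_one, ← add_assoc, fv_period hK hE, ih]

theorem fv_mod {a : ℕ} (hK : Fintype.card K = 2) (hE : finrank K E = 2 ^ a)
    (v : Fin N → E) (k : ℕ) : fv v (k % 2 ^ a) = fv v k := by
  conv_rhs => rw [← Nat.mod_add_div k (2 ^ a)]
  rw [fv_period_mul hK hE]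

theorem fv_congr {a : ℕ} (hK : Fintype.card K = 2) (hE : finrank K E = 2 ^ a)
    (v : Fin N → E) {k l : ℕ} (h : k ≡ l [MOD 2 ^ a]) : fv v k = fv v l := by
  rw [← fv_mod hK hE v k, ← fv_mod hK hE v l, h]

theorem WA_le_of_mod {a : ℕ} (hK : Fintype.card K = 2) (hE : finrank K E = 2 ^ a)
    (ga et : Fin N → E) {A B : Finset ℕ} (h : ∀ k ∈ A, ∃ l ∈ B, k ≡ l [MOD 2 ^ a]) :
    WA ga et A ≤ WA ga et B := by
  refine WA_le.2 fun k hk => ?_
  obtain ⟨l, hl, hkl⟩ := h k hk
  rw [fv_congr hK hE ga hkl, fv_congr hK hE et hkl]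
  exact ⟨fv_ga_mem hl, fv_et_mem hl⟩

theorem WA_eq_of_mod {a : ℕ} (hK : Fintype.card K = 2) (hE : finrank K E = 2 ^ a)
    (ga et : Fin N → E) {A B : Finset ℕ} (h : ∀ k ∈ A, ∃ l ∈ B, k ≡ l [MOD 2 ^ a])
    (h' : ∀ k ∈ B, ∃ l ∈ A, k ≡ l [MOD 2 ^ a]) : WA ga et A = WA ga et B :=
  le_antisymm (WA_le_of_mod hK hE ga et h) (WA_le_of_mod hK hE ga et h')

end period

/-! ### the Frobenius shift -/

section shift

/-- a ring homomorphism maps spans to spans -/
theorem map_mem_span {E : Type} [Field E] {N : ℕ} (φ : E →+* E) {S T : Set (Fin N → E)}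
    (h : ∀ u ∈ S, (fun i => φ (u i)) ∈ Submodule.span E T) {w : Fin N → E}
    (hw : w ∈ Submodule.span E S) : (fun i => φ (w i)) ∈ Submodule.span E T := by
  refine Submodule.span_induction (p := fun w _ => (fun i => φ (w i)) ∈ Submodule.span E T)
    h ?_ ?_ ?_ hw
  · simp only [Pi.zero_apply, map_zero]
    exact Submodule.zero_mem _
  · intro x y _ _ hx hy
    have e1 : (fun i => φ ((x + y) i)) = (fun i => φ (x i)) + fun i => φ (y i) := by
      funext i
      simp
    rw [e1]
    exact Submodule.add_mem _ hx hy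
  · intro c x _ hx
    have e1 : (fun i => φ ((c • x) i)) = φ c • fun i => φ (x i) := by
      funext i
      simp
    rw [e1]
    exact Submodule.smul_mem _ _ hx

variable {E : Type} [Field E] [Finite E] [CharP E 2] {N : ℕ}

theorem fr_fv (v : Fin N → E) (k d : ℕ) :
    (fun i => (iterateFrobeniusEquiv E 2 d : E →+* E) (fv v k i)) = fv v (k + d) := by
  funext i
  rw [fv_add]
  simp [iterateFrobenius_def]

theorem fr_fv_symm (v : Fin N → E) (k d : ℕ) :
    (fun i => ((iterateFrobeniusEquiv E 2 d).symm : E →+* E) (fv v (k + d) i)) = fv v k := by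
  funext i
  have h := congrFun (fr_fv v k d) i
  rw [← h]
  exact (iterateFrobeniusEquiv E 2 d).symm_apply_apply _

theorem fr_mem {ga et : Fin N → E} {A : Finset ℕ} (d : ℕ) {w : Fin N → E}
    (hw : w ∈ WA ga et A) :
    (fun i => (iterateFrobeniusEquiv E 2 d : E →+* E) (w i)) ∈
      WA ga et (A.image (· + d)) := by
  refine map_mem_span _ (fun u hu => ?_) hw
  obtain ⟨k, hk, rfl | rfl⟩ := mem_gy.1 hu
  · rw [fr_fv]
    exact fv_ga_mem (mem_image_of_mem _ hk)
  · rw [fr_fv]
    exact fv_et_mem (mem_image_of_mem _ hk)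

theorem fr_mem_symm {ga et : Fin N → E} {A : Finset ℕ} (d : ℕ) {w : Fin N → E}
    (hw : w ∈ WA ga et (A.image (· + d))) :
    (fun i => ((iterateFrobeniusEquiv E 2 d).symm : E →+* E) (w i)) ∈ WA ga et A := by
  refine map_mem_span _ (fun u hu => ?_) hw
  obtain ⟨l, hl, hu'⟩ := mem_gy.1 hu
  obtain ⟨k, hk, rfl⟩ := mem_image.1 hl
  rcases hu' with rfl | rfl
  · rw [fr_fv_symm]
    exact fv_ga_mem hk
  · rw [fr_fv_symm]
    exact fv_et_mem hk

/-- `w ↦ w ^ (2 ^ d)` from `W_A` to `W_(A + d)` -/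
noncomputable def frE (ga et : Fin N → E) (A : Finset ℕ) (d : ℕ) :
    WA ga et A ≃+ WA ga et (A.image (· + d)) where
  toFun w := ⟨_, fr_mem d w.2⟩
  invFun w := ⟨_, fr_mem_symm d w.2⟩
  left_inv w := by
    ext i
    exact (iterateFrobeniusEquiv E 2 d).symm_apply_apply _
  right_inv w := by
    ext i
    exact (iterateFrobeniusEquiv E 2 d).apply_symm_apply _
  map_add' w w' := by
    ext i
    exact map_add _ _ _

theorem finrank_WA_shift (ga et : Fin N → E) (A : Finset ℕ) (d : ℕ) :
    finrank E (WA ga et (A.image (· + d))) = finrank E (WA ga et A) := by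
  have h := rank_eq_of_equiv_equiv (fun c : E => iterateFrobeniusEquiv E 2 d c)
    (frE ga et A d) (iterateFrobeniusEquiv E 2 d).bijective (by
      intro c w
      ext i
      exact map_mul _ _ _)
  unfold finrank
  rw [h]

theorem card_shift (A : Finset ℕ) (d : ℕ) : (A.image (· + d)).card = A.card :=
  card_image_of_injective _ (add_left_injective d)

theorem isNT_shift {ga et : Fin N → E} {A : Finset ℕ} (d : ℕ) :
    IsNT ga et (A.image (· + d)) ↔ IsNT ga et A := by
  unfold IsNT
  rw [finrank_WA_shift, card_shift]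

theorem fv_pow_mem {ga et : Fin N → E} {A : Finset ℕ} (d : ℕ) {w : Fin N → E}
    (hw : w ∈ WA ga et A) : (fun i => w i ^ 2 ^ d) ∈ WA ga et (A.image (· + d)) := by
  have h := fr_mem d hw
  simpa [iterateFrobenius_def] using h

theorem fv_mem_shift {ga et : Fin N → E} {A : Finset ℕ} (v : Fin N → E) (k d : ℕ) :
    fv v (k + d) ∈ WA ga et (A.image (· + d)) ↔ fv v k ∈ WA ga et A := by
  constructor
  · intro h
    have h1 := fr_mem_symm d h
    rwa [fr_fv_symm] at h1
  · intro h
    have h1 := fr_mem d h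
    rwa [fr_fv] at h1

end shift

/-! ### (NT) -/

section nt

/-- a line with one rational point: the rational functional `c0` -/
theorem exists_point {K E : Type} [Field K] [Field E] [Algebra K E] {N : ℕ}
    {ga et : Fin N → E} (p2 : Pair2 K ga et) :
    ∃ (τ : E) (c0 : Fin N → K), τ ≠ 0 ∧ c0 ≠ 0 ∧ lin ga c0 = τ * lin et c0 ∧
      lin ga c0 ≠ 0 ∧ ∀ c : Fin N → K, lin ga c = τ * lin et c → ∃ k : K, k • c0 = c := by
  obtain ⟨a, ha, hwt⟩ := p2.one
  unfold wt at hwt
  obtain ⟨c0, hc0, h1⟩ := finrank_eq_one_iff'.1 hwt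
  have hc : (c0 : Fin N → K) ≠ 0 := fun h => hc0 (Subtype.ext h)
  have h0 : lin ga (c0 : Fin N → K) = a ^ 2 * lin et (c0 : Fin N → K) := c0.2
  refine ⟨a ^ 2, c0, pow_ne_zero _ ha, hc, h0, ?_, ?_⟩
  · intro h
    rw [h] at h0
    exact hc (p2.ind _ h ((mul_eq_zero.1 h0.symm).resolve_left (pow_ne_zero _ ha)))
  · intro c hc'
    obtain ⟨k, hk⟩ := h1 ⟨c, hc'⟩
    exact ⟨k, congrArg Subtype.val hk⟩

theorem ntt : NTT := by
  intro K E _ _ _ _ _ _ _ n f e a ga et hP s A hne hA
  have hK1 : Fintype.card K = 2 ^ 1 := by rw [hP.card, pow_one]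
  obtain ⟨τ, c0, hτ, hc0, h0, hg0, h1⟩ := exists_point hP.p2
  obtain ⟨j0, hj0⟩ : ∃ j, c0 j ≠ 0 := by
    by_contra h
    push Not at h
    exact hc0 (funext h)
  -- the forms
  set l : Fin (n + 2) → E := fun j => (ga j + τ * et j) ^ 2 ^ s with hl
  have hlin : ∀ c : Fin (n + 2) → K, lin l c = (lin ga c + τ * lin et c) ^ 2 ^ s := by
    intro c
    have e1 := lin_pow hK1 (fun j => ga j + τ * et j) c s
    have e2 : lin (fun j => ga j + τ * et j) c = lin ga c + τ * lin et c := by
      simp only [lin, smul_add, sum_add_distrib, mul_sum, mul_smul_comm]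
    rw [e2, pow_one] at e1
    rw [e1]
    simp only [lin, hl]
  set ρ : ℕ → Fin (n + 2) → E := fun k => fv ga k + τ ^ 2 ^ k • fv et k with hρ
  have hρl : ∀ k j, ρ (s + k) j = l j ^ 2 ^ k := by
    intro k j
    simp only [hρ, hl, Pi.add_apply, Pi.smul_apply, smul_eq_mul, fv_apply]
    rw [← pow_mul, ← pow_add, add_pow_char_pow, mul_pow]
  -- independence of the rows
  have hind : ∀ c : Fin (n + 1) → K, lin (fun i => l (j0.succAbove i)) c = 0 → c = 0 := by
    intro c hc
    have e1 : lin l (j0.insertNth 0 c : Fin (n + 2) → K) = 0 := by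
      unfold lin
      rw [Fin.sum_univ_succAbove _ j0, Fin.insertNth_apply_same, zero_smul, zero_add]
      simp only [Fin.insertNth_apply_succAbove]
      exact hc
    rw [hlin] at e1
    have e1' := pow_eq_zero_iff (pow_ne_zero _ two_ne_zero) |>.1 e1
    rw [CharTwo.add_eq_zero] at e1'
    obtain ⟨k, hk⟩ := h1 _ e1'
    have e2 := congrFun hk j0
    rw [Pi.smul_apply, smul_eq_mul, Fin.insertNth_apply_same] at e2
    have e3 : k = 0 := (mul_eq_zero.1 e2).resolve_right hj0
    funext i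
    have e4 := congrFun hk (j0.succAbove i)
    rw [e3, zero_smul, Fin.insertNth_apply_succAbove] at e4
    exact e4.symm
  have hdet := moore hK1 (fun i => l (j0.succAbove i)) hind
  have hrow : LinearIndependent E (fun k : Fin (n + 1) => ρ (s + k)) := by
    have e1 : LinearIndependent E (RM (n + 1) (2 ^ 1) (fun i => l (j0.succAbove i))).row :=
      Matrix.linearIndependent_rows_of_det_ne_zero hdet
    refine LinearIndependent.of_comp (LinearMap.funLeft E E j0.succAbove) ?_
    convert e1 using 1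
    funext k i
    simp only [Function.comp, LinearMap.funLeft_apply, hρl, Matrix.row, RM, Matrix.of_apply,
      pow_one]
  -- the rows in `W_A`
  have hA' : ∀ k : A, (k : ℕ) - s < n + 1 := by
    intro k
    have := mem_Icc.1 (hA k.2)
    omega
  have hrowA : LinearIndependent E (fun k : A => ρ k) := by
    have e1 := hrow.comp (fun k : A => (⟨(k : ℕ) - s, hA' k⟩ : Fin (n + 1))) (by
      intro k k' h
      have h1 := mem_Icc.1 (hA k.2)
      have h2 := mem_Icc.1 (hA k'.2)
      have h3 := congrArg Fin.val h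
      simp only at h3
      exact Subtype.ext (by omega))
    convert e1 using 1
    funext k
    have h1 := mem_Icc.1 (hA k.2)
    simp only [Function.comp]
    congr 1
    omega
  obtain ⟨k0, hk0⟩ := hne
  set S := Submodule.span E (Set.range fun k : A => ρ k) with hS
  have hSr : finrank E S = A.card := by
    rw [hS, finrank_span_eq_card hrowA, Fintype.card_coe]
  have hSW : S ≤ WA ga et A := by
    refine Submodule.span_le.2 ?_
    rintro _ ⟨k, rfl⟩
    exact Submodule.add_mem _ (fv_ga_mem k.2) (Submodule.smul_mem _ _ (fv_et_mem k.2))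
  -- evaluation at `c0`
  have hev : ∀ (v : Fin (n + 2) → E) (k : ℕ), ∑ j, fv v k j * algebraMap K E (c0 j) =
      (lin v c0) ^ 2 ^ k := by
    intro v k
    have e1 := lin_pow hK1 v c0 k
    rw [pow_one] at e1
    rw [e1]
    refine Finset.sum_congr rfl fun j _ => ?_
    rw [Algebra.smul_def, mul_comm, fv_apply]
  have hSc : ∀ u ∈ S, ∑ j, u j * algebraMap K E (c0 j) = 0 := by
    intro u hu
    refine Submodule.span_induction (p := fun u _ => ∑ j, u j * algebraMap K E (c0 j) = 0)
      ?_ ?_ ?_ ?_ hu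
    · rintro _ ⟨k, rfl⟩
      have e1 : ∑ j, ρ k j * algebraMap K E (c0 j) =
          ∑ j, fv ga k j * algebraMap K E (c0 j) +
          τ ^ 2 ^ (k : ℕ) * ∑ j, fv et k j * algebraMap K E (c0 j) := by
        rw [mul_sum, ← sum_add_distrib]
        refine Finset.sum_congr rfl fun j _ => ?_
        simp only [hρ, Pi.add_apply, Pi.smul_apply, smul_eq_mul]
        ring
      rw [e1, hev, hev, h0, ← mul_pow, CharTwo.add_self_eq_zero]
    · simp
    · intro x y _ _ hx hy
      simp only [Pi.add_apply, add_mul, sum_add_distrib, hx, hy, add_zero]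
    · intro c x _ hx
      simp only [Pi.smul_apply, smul_eq_mul, mul_assoc]
      rw [← mul_sum, hx, mul_zero]
  have hlt : S < WA ga et A := by
    refine lt_of_le_of_ne hSW fun h => ?_
    have e1 : fv ga k0 ∈ S := by
      rw [h]
      exact fv_ga_mem hk0
    have e2 := hSc _ e1
    rw [hev] at e2
    exact hg0 (pow_eq_zero_iff (pow_ne_zero _ two_ne_zero) |>.1 e2)
  have := Submodule.finrank_lt_finrank_of_lt hlt
  omega

variable {K E : Type} [Field K] [Fintype K] [CharP K 2] [Field E] [Finite E]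
  [CharP E 2] [Algebra K E] {n f e a : ℕ} {ga et : Fin (n + 2) → E}

omit [Finite E] [CharP E 2] in
theorem finrank_WA_le (A : Finset ℕ) : finrank E (WA ga et A) ≤ n + 2 := by
  have h := Submodule.finrank_le (WA ga et A)
  rwa [finrank_fin_fun] at h

/-- near tight: `≤` is enough -/
theorem isNT_of_le (hP : Pair3 K ga et f e a) {s : ℕ} {A : Finset ℕ} (hne : A.Nonempty)
    (hA : A ⊆ Icc s (s + n)) (h : finrank E (WA ga et A) ≤ A.card + 1) : IsNT ga et A :=
  le_antisymm h (ntt ga et hP s A hne hA)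

theorem isNT_singleton (hP : Pair3 K ga et f e a) (k : ℕ) : IsNT ga et {k} := by
  refine isNT_of_le hP (s := k) (singleton_nonempty k) ?_ ?_
  · intro l hl
    rw [mem_singleton] at hl
    subst hl
    exact mem_Icc.2 ⟨le_rfl, Nat.le_add_right _ _⟩
  · have h := finrank_WA_insert_le ga et k ∅
    rw [WA_empty, finrank_bot] at h
    exact h

/-- `W_F = E^N` for a window of `N - 1` indices -/
theorem WA_window (hP : Pair3 K ga et f e a) (s : ℕ) : WA ga et (Icc s (s + n)) = ⊤ := by
  refine Submodule.eq_top_of_finrank_eq ?_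
  rw [finrank_fin_fun]
  refine le_antisymm (finrank_WA_le _) ?_
  have h := ntt ga et hP s (Icc s (s + n)) (nonempty_Icc.2 (Nat.le_add_right _ _)) subset_rfl
  rw [Nat.card_Icc] at h
  omega

/-- near tight sets meeting in a window: union, intersection and the spaces -/
theorem nt_union (hP : Pair3 K ga et f e a) {s : ℕ} {A B : Finset ℕ}
    (hA : A ⊆ Icc s (s + n)) (hB : B ⊆ Icc s (s + n)) (hAB : (A ∩ B).Nonempty)
    (ntA : IsNT ga et A) (ntB : IsNT ga et B) :
    IsNT ga et (A ∪ B) ∧ IsNT ga et (A ∩ B) ∧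
      WA ga et (A ∩ B) = WA ga et A ⊓ WA ga et B := by
  have h1 := Submodule.finrank_sup_add_finrank_inf_eq (WA ga et A) (WA ga et B)
  rw [← WA_union] at h1
  have h2 := ntt ga et hP s (A ∪ B) (hAB.mono (inter_subset_left.trans subset_union_left))
    (union_subset hA hB)
  have h3 := ntt ga et hP s (A ∩ B) hAB (inter_subset_left.trans hA)
  have h4 := Submodule.finrank_mono (WA_inter_le ga et A B)
  have h5 := card_union_add_card_inter A B
  unfold IsNT at ntA ntB ⊢
  refine ⟨by omega, by omega, ?_⟩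
  exact Submodule.eq_of_le_of_finrank_eq (WA_inter_le ga et A B) (by omega)

end nt

end Pool.Agent.Lib.CPlane.S2
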