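import Pool.Agent.Lib.CPlane.S2ED
import Pool.Agent.Lib.CPlane.S2NT

/-!
# s = 2, Theorem E, part 5: stripping the run starts
-/

namespace Pool.Agent.Lib.CPlane.S2.TE

open Finset Pool.Agent.Lib.CPlane.P2

section

variable {E : Type} [Field E] {n : ℕ}

/-- the tensor `Σ_(l ∈ Z) g_l ⊗ y_l` -/
def tZ (ga et : Fin (n + 2) → E) (Z : Finset ℕ) : Matrix (Fin (n + 2)) (Fin (n + 2)) E :=
  ∑ l ∈ Z, Matrix.vecMulVec (fv ga l) (fv et l)

theorem tZ_apply (ga et : Fin (n + 2) → E) (Z : Finset ℕ) (i j : Fin (n + 2)) :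
    tZ ga et Z i j = ∑ l ∈ Z, fv ga l i * fv et l j := by
  unfold tZ
  rw [Matrix.sum_apply]
  rfl

theorem tZ_union (ga et : Fin (n + 2) → E) {Z D : Finset ℕ} (h : Disjoint Z D) :
    tZ ga et (Z ∪ D) = tZ ga et Z + tZ ga et D := Finset.sum_union h

theorem InT_tZ (ga et : Fin (n + 2) → E) {D B : Finset ℕ} (h : D ⊆ B) :
    InT (WA ga et B) (tZ ga et D) := by
  refine ⟨fun i => ?_, fun j => ?_⟩
  · have : tZ ga et D i = ∑ l ∈ D, (fv ga l i) • fv et l := by
      ext j
      rw [tZ_apply, Finset.sum_apply]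
      rfl
    rw [this]
    exact Submodule.sum_mem _ fun l hl => Submodule.smul_mem _ _ (fv_mem (h hl)).2
  · have : (fun i => tZ ga et D i j) = ∑ l ∈ D, (fv et l j) • fv ga l := by
      ext i
      rw [tZ_apply, Finset.sum_apply]
      refine Finset.sum_congr rfl fun l _ => ?_
      rw [Pi.smul_apply, smul_eq_mul, mul_comm]
    rw [this]
    exact Submodule.sum_mem _ fun l hl => Submodule.smul_mem _ _ (fv_mem (h hl)).1

variable [CharP E 2]

theorem HG_add {m : ℕ} (R : Matrix (Fin m) (Fin (m + 1)) (Polynomial E))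
    (τ τ' : Matrix (Fin (m + 1)) (Fin (m + 1)) E) : HG R (τ + τ') = HG R τ + HG R τ' := by
  have hch : CharP (Polynomial E) 2 := inferInstance
  have h1 : (τ + τ').map (Polynomial.C : E → Polynomial E) =
      τ.map Polynomial.C + τ'.map Polynomial.C := by
    ext1 i j
    rw [Matrix.add_apply, Matrix.map_apply, Matrix.map_apply, Matrix.map_apply, Matrix.add_apply,
      map_add]
  unfold HG
  rw [h1, Qf_add]
  simp only [bmin_add, CharTwo.add_sq, add_mul, Finset.sum_add_distrib]
  ring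

theorem HG_vec {m : ℕ} (R : Matrix (Fin m) (Fin (m + 1)) (Polynomial E)) (hU : Umin R ≠ 0)
    (g y : Fin (m + 1) → E) (k : Fin m)
    (hR : ∀ j, R k j = Polynomial.C (g j) + Polynomial.X ^ 2 ^ (k : ℕ) * Polynomial.C (y j)) :
    HG R (Matrix.vecMulVec g y) = 0 := by
  have hch : CharP (Polynomial E) 2 := inferInstance
  have hmap : (Matrix.vecMulVec g y).map (Polynomial.C : E → Polynomial E) =
      Matrix.vecMulVec (fun i => Polynomial.C (g i)) (fun i => Polynomial.C (y i)) := by
    ext1 i j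
    rw [Matrix.map_apply, Matrix.vecMulVec_apply, Matrix.vecMulVec_apply, map_mul]
  unfold HG
  rw [hmap, Qf_vec]
  simp only [bmin_row R hU k _ _ _ hR]
  rw [Finset.sum_eq_single k]
  · rw [if_pos rfl]
    have h0 := R_Umin R k
    have h1 : ∑ j, R k j * Umin R j = (∑ j, Polynomial.C (g j) * Umin R j) +
        Polynomial.X ^ 2 ^ (k : ℕ) * ∑ j, Polynomial.C (y j) * Umin R j := by
      simp only [hR, add_mul, Finset.sum_add_distrib, Finset.mul_sum, mul_assoc]
    rw [h1] at h0
    have h2 : (∑ j, Polynomial.C (g j) * Umin R j) =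
        Polynomial.X ^ 2 ^ (k : ℕ) * ∑ j, Polynomial.C (y j) * Umin R j := by
      rw [← sub_eq_zero, CharTwo.sub_eq_add, h0]
    rw [h2]
    have h3 : ∀ a b : Polynomial E, a * b * b + b ^ 2 * a = 0 := by
      intro a b
      have : a * b * b + b ^ 2 * a = a * b * b + a * b * b := by ring
      rw [this, CharTwo.add_self_eq_zero]
    exact h3 _ _
  · intro l _ hl
    rw [if_neg hl]
    simp
  · intro h
    exact absurd (Finset.mem_univ k) h

theorem HG_tZ (ga et : Fin (n + 2) → E) (hU : Umin (RT ga et) ≠ 0) (D : Finset ℕ)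
    (hD : ∀ l ∈ D, l < n + 1) : HG (RT ga et) (tZ ga et D) = 0 := by
  classical
  induction D using Finset.induction_on with
  | empty =>
    have : tZ ga et ∅ = 0 := Finset.sum_empty
    rw [this]
    have h := HG_add (RT ga et) 0 0
    rw [add_zero] at h
    have hch : CharP (Polynomial E) 2 := inferInstance
    rw [h]
    exact CharTwo.add_self_eq_zero _
  | insert l D hl ih =>
    have h1 : tZ ga et (insert l D) = Matrix.vecMulVec (fv ga l) (fv et l) + tZ ga et D :=
      Finset.sum_insert hl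
    rw [h1, HG_add, ih fun l' hl' => hD l' (Finset.mem_insert_of_mem hl'), add_zero]
    exact HG_vec (RT ga et) hU _ _ ⟨l, hD l (Finset.mem_insert_self _ _)⟩
      (fun j => RT_eq ga et _ j)

variable {ga et : Fin (n + 2) → E}

theorem comp_of {B : Finset ℕ} {p ze : Fin (n + 1) → Fin (n + 2) → E}
    (h : NTd ga et B p ze) (hU : ∀ k, yU ga et k ≠ 0) (hne : B.Nonempty) :
    Comp (WA ga et B) B p (fun k : Fin (n + 1) => fv et k) ze (RT ga et) := by
  obtain ⟨k0, hk0⟩ := hne
  exact ⟨h.fr, Rc_RT h, fun τ hτ k hk => RT_bmin h hk0 (hU k0) hτ hk,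
    fun k _ => hU k, fun k hk => Rc_ne h hk (hU k)⟩

/-- the state of the induction -/
structure St (ga et : Fin (n + 2) → E) (B Z : Finset ℕ) : Prop where
  sub : B ⊆ Icc 1 n
  nt : B.Nonempty → IsNT ga et B
  inT : InT (WA ga et B) (tZ ga et Z)
  H : HG (RT ga et) (tZ ga et Z) = 0
  dis : Disjoint Z B

omit [CharP E 2] in
theorem bm_add {m : ℕ} (B : Finset ℕ) (p q : Fin m → Fin (m + 1) → E)
    (τ τ' : Matrix (Fin (m + 1)) (Fin (m + 1)) E) (j : Fin m) :
    bm B p q (τ + τ') j = bm B p q τ j + bm B p q τ' j := by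
  unfold bm
  have h1 : (τ + τ').map (MvPolynomial.C : E → MvPolynomial (Pos m B) E) =
      τ.map MvPolynomial.C + τ'.map MvPolynomial.C := by
    ext1 i j
    rw [Matrix.add_apply, Matrix.map_apply, Matrix.map_apply, Matrix.map_apply, Matrix.add_apply,
      map_add]
  rw [h1, bmin_add]

theorem bm_vec {m : ℕ} {W : Submodule E (Fin (m + 1) → E)} {B : Finset ℕ}
    {p q ze : Fin m → Fin (m + 1) → E} {R : Matrix (Fin m) (Fin (m + 1)) (Polynomial E)}
    (h : Comp W B p q ze R) {k : Fin m} (hk : (k : ℕ) ∈ B) (j : Fin m) :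
    bm B p q (Matrix.vecMulVec (p k) (q k)) j = if j = k then lm B p q (q k) else 0 := by
  have hch : CharP (MvPolynomial (Pos m B) E) 2 := inferInstance
  have hU : Umin (Rw B p q) ≠ 0 := by
    intro h1
    apply h.lm_ne hk
    unfold lm
    rw [h1]
    simp
  have hmap : (Matrix.vecMulVec (p k) (q k)).map (MvPolynomial.C (σ := Pos m B)) =
      Matrix.vecMulVec (fun i => MvPolynomial.C (p k i)) (fun i => MvPolynomial.C (q k i)) := by
    ext1 i j
    rw [Matrix.map_apply, Matrix.vecMulVec_apply, Matrix.vecMulVec_apply, map_mul]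
  unfold bm lm
  rw [hmap]
  exact bmin_row (Rw B p q) hU k _ _ (vx E B k) (fun j => rfl) j

theorem bm_tZ {B : Finset ℕ} {p ze : Fin (n + 1) → Fin (n + 2) → E}
    (h : NTd ga et B p ze) (hU : ∀ k, yU ga et k ≠ 0) {D : Finset ℕ} (hD : D ⊆ B)
    (j : Fin (n + 1)) :
    bm B p (fun k : Fin (n + 1) => fv et k) (tZ ga et D) j =
      if (j : ℕ) ∈ D then lm B p (fun k : Fin (n + 1) => fv et k) (fv et j) else 0 := by
  classical
  induction D using Finset.induction_on with
  | empty =>
    have h0 : tZ ga et ∅ = 0 := Finset.sum_empty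
    rw [h0, if_neg (Finset.notMem_empty _)]
    unfold bm
    have h1 : (0 : Matrix (Fin (n + 2)) (Fin (n + 2)) E).map
        (MvPolynomial.C : E → MvPolynomial (Pos (n + 1) B) E) = 0 := by
      ext1 i j
      simp
    rw [h1, bmin_zero]
  | insert l D hl ih =>
    have hlB : l ∈ B := hD (Finset.mem_insert_self _ _)
    have hne : B.Nonempty := ⟨l, hlB⟩
    have h1 : tZ ga et (insert l D) = Matrix.vecMulVec (fv ga l) (fv et l) + tZ ga et D :=
      Finset.sum_insert hl
    rw [h1, bm_add, ih ((Finset.subset_insert _ _).trans hD)]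
    have h2 := bm_vec (comp_of h hU hne) (k := ⟨l, h.lt l hlB⟩) hlB j
    rw [h.pB ⟨l, h.lt l hlB⟩ hlB] at h2
    rw [h2]
    by_cases hj : (j : ℕ) = l
    · have hj' : j = ⟨l, h.lt l hlB⟩ := Fin.ext hj
      rw [if_pos hj', if_neg (by rw [hj]; exact hl), if_pos (by rw [hj]; exact Finset.mem_insert_self _ _),
        add_zero, hj]
    · rw [if_neg (fun h' => hj (congrArg Fin.val h')), zero_add]
      by_cases hjD : (j : ℕ) ∈ D
      · rw [if_pos hjD, if_pos (Finset.mem_insert_of_mem hjD)]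
      · rw [if_neg hjD, if_neg]
        intro h'
        rcases Finset.mem_insert.1 h' with h'' | h''
        · exact hj h''
        · exact hjD h''

end

end Pool.Agent.Lib.CPlane.S2.TE
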