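import Pool.Agent.Lib.CPlane.S2EE
import Pool.Agent.Lib.CPlane.M0All
import Pool.Agent.Lib.CPlane.P2G

/-!
# s = 2, Theorem E: near tight sets in `[1, N - 2]` are closed modulo `m`
-/

namespace Pool.Agent.Lib.CPlane.S2.TE

open Finset Module Pool.Agent.Lib.CPlane.P2

section

variable {E : Type} [Field E] {n : ℕ} [CharP E 2] {ga et : Fin (n + 2) → E}

theorem form_lemma {B B' : Finset ℕ} {p ze : Fin (n + 1) → Fin (n + 2) → E}
    (h : NTd ga et B p ze) (hU : ∀ k, yU ga et k ≠ 0) (hne : B.Nonempty)
    (hz : ∀ j, ga j = 0 ∨ et j = 0) {Z : Finset ℕ}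
    (hT : InT (WA ga et B) (tZ ga et Z)) (hB' : B' ⊆ B)
    (hb : ∀ k : Fin (n + 1), (k : ℕ) ∉ B' →
      bm B p (fun k : Fin (n + 1) => fv et k) (tZ ga et Z) k = 0) :
    InT (WA ga et B') (tZ ga et Z) := by
  classical
  have hch : CharP (MvPolynomial (Pos (n + 1) B) E) 2 := inferInstance
  set q : Fin (n + 1) → Fin (n + 2) → E := fun k : Fin (n + 1) => fv et k with hq
  obtain ⟨k0, hk0⟩ := hne
  have hC := comp_of h hU ⟨k0, hk0⟩
  -- the key statement
  have key : ∀ v : Fin (n + 2) → E,
      (∀ k ∈ B', ∑ i, fv ga k i * v i = 0 ∧ ∑ i, fv et k i * v i = 0) →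
      ∀ i, ∑ j, (tZ ga et Z i j + tZ ga et Z j i) * v j = 0 := by
    intro v hv
    set l : Fin (n + 2) → E := fun i => ∑ j, (tZ ga et Z i j + tZ ga et Z j i) * v j with hl
    have hlW : l ∈ WA ga et B := by
      have : l = ∑ j, v j • ((fun i => tZ ga et Z i j) + tZ ga et Z j) := by
        ext i
        rw [hl, Finset.sum_apply]
        refine Finset.sum_congr rfl fun j _ => ?_
        rw [Pi.smul_apply, Pi.add_apply, smul_eq_mul, mul_comm]
      rw [this]
      exact Submodule.sum_mem _ fun j _ => Submodule.smul_mem _ _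
        (Submodule.add_mem _ (hT.2 j) (hT.1 j))
    have h0 : lm B p q l = 0 := by
      have h1 := Bf_Umin ((tZ ga et Z).map (MvPolynomial.C (σ := Pos (n + 1) B))) (Rw B p q)
        (fun j => MvPolynomial.C (v j))
      rw [Bf_eq] at h1
      have h2 : lm B p q l = ∑ i, Umin (Rw B p q) i * (∑ j,
          ((tZ ga et Z).map (MvPolynomial.C (σ := Pos (n + 1) B)) i j +
          (tZ ga et Z).map (MvPolynomial.C (σ := Pos (n + 1) B)) j i) *
            MvPolynomial.C (v j)) := by
        unfold lm
        refine Finset.sum_congr rfl fun i _ => ?_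
        rw [mul_comm]
        congr 1
        rw [hl, map_sum]
        refine Finset.sum_congr rfl fun j _ => ?_
        rw [map_mul, map_add]
        rfl
      rw [h2, h1]
      refine Finset.sum_eq_zero fun k _ => ?_
      by_cases hk : (k : ℕ) ∈ B'
      · have h3 : ∑ j, Rw B p q k j * MvPolynomial.C (v j) = 0 := by
          have h4 : ∑ j, Rw B p q k j * MvPolynomial.C (v j) =
              MvPolynomial.C (∑ j, fv ga k j * v j) +
              vx E B k * MvPolynomial.C (∑ j, fv et k j * v j) := by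
            rw [map_sum, map_sum, Finset.mul_sum, ← Finset.sum_add_distrib]
            refine Finset.sum_congr rfl fun j _ => ?_
            unfold Rw
            rw [Matrix.of_apply, h.pB k (hB' hk), map_mul, map_mul]
            ring
          rw [h4, (hv k hk).1, (hv k hk).2, map_zero, mul_zero, add_zero]
        rw [h3, mul_zero]
      · have h3 := hb k hk
        unfold bm at h3
        rw [h3, zero_mul]
    have h1 := hC.span (k0 := ⟨k0, h.lt k0 hk0⟩) hk0 hlW h0
    intro i
    exact congrFun h1 i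
  have z1 : ∀ i j, ga i = 0 → tZ ga et Z i j = 0 := by
    intro i j hi
    rw [tZ_apply]
    refine Finset.sum_eq_zero fun l _ => ?_
    unfold fv
    rw [hi, zero_pow (pow_ne_zero _ two_ne_zero), zero_mul]
  have z2 : ∀ i j, et j = 0 → tZ ga et Z i j = 0 := by
    intro i j hj
    rw [tZ_apply]
    refine Finset.sum_eq_zero fun l _ => ?_
    unfold fv
    rw [hj, zero_pow (pow_ne_zero _ two_ne_zero), mul_zero]
  refine ⟨fun i => mem_WA_of_forall fun v hv => ?_, fun j => mem_WA_of_forall fun v hv => ?_⟩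
  · rcases hz i with hi | hi
    · refine Finset.sum_eq_zero fun j _ => ?_
      rw [z1 i j hi, zero_mul]
    · have h1 := key v hv i
      rw [← h1]
      refine Finset.sum_congr rfl fun j _ => ?_
      rw [z2 j i hi, add_zero]
  · rcases hz j with hj | hj
    · have h1 := key v hv j
      rw [← h1]
      refine Finset.sum_congr rfl fun i _ => ?_
      rw [z1 j i hj, zero_add]
    · refine Finset.sum_eq_zero fun i _ => ?_
      rw [z2 i j hj, zero_mul]

end

section

variable {K E : Type} [Field K] [Fintype K] [CharP K 2] [Field E] [Finite E]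
  [CharP E 2] [Algebra K E] {n f e a : ℕ} {ga et : Fin (n + 2) → E}

/-- the set without its run starts -/
def strip (B : Finset ℕ) : Finset ℕ := B.filter fun b => b - 1 ∈ B

theorem strip_ssubset {B : Finset ℕ} (hB : B ⊆ Icc 1 n) (hne : B.Nonempty) : strip B ⊂ B := by
  refine Finset.filter_ssubset.2 ⟨B.min' hne, B.min'_mem hne, fun h => ?_⟩
  have h1 := B.min'_le _ h
  have h2 := (Finset.mem_Icc.1 (hB (B.min'_mem hne))).1
  omega

theorem strip_nt (hP : Pair3 K ga et f e a) {B : Finset ℕ} (hB : B ⊆ Icc 1 n)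
    (hnt : IsNT ga et B) (hne : (strip B).Nonempty) : IsNT ga et (strip B) := by
  have h1 : strip B = B ∩ B.image (· + 1) := by
    ext b
    unfold strip
    rw [Finset.mem_filter, Finset.mem_inter, Finset.mem_image]
    constructor
    · rintro ⟨hb, hb'⟩
      have := (Finset.mem_Icc.1 (hB hb)).1
      exact ⟨hb, b - 1, hb', by omega⟩
    · rintro ⟨hb, c, hc, rfl⟩
      exact ⟨hb, by simpa using hc⟩
  rw [h1] at hne ⊢
  refine (nt_union hP (s := 1) ?_ ?_ hne hnt ((isNT_shift 1).2 hnt)).2.1
  · intro b hb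
    have := Finset.mem_Icc.1 (hB hb)
    exact Finset.mem_Icc.2 ⟨this.1, by omega⟩
  · intro b hb
    obtain ⟨c, hc, rfl⟩ := Finset.mem_image.1 hb
    have := Finset.mem_Icc.1 (hB hc)
    exact Finset.mem_Icc.2 ⟨by omega, by omega⟩

theorem step (hP : Pair3 K ga et f e a) (hU : ∀ k, yU ga et k ≠ 0) {B Z : Finset ℕ}
    (st : St ga et B Z) (hne : B.Nonempty) : ∃ D ⊆ B, St ga et (strip B) (Z ∪ D) := by
  classical
  have hnt := st.nt hne
  obtain ⟨p, ze, hN⟩ := exists_NTd ga et B (fun k hk => by
    have := Finset.mem_Icc.1 (st.sub hk)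
    omega) hnt
  set q : Fin (n + 1) → Fin (n + 2) → E := fun k : Fin (n + 1) => fv et k with hq
  have hC := comp_of hN hU hne
  have hch : CharP (MvPolynomial (Pos (n + 1) B) E) 2 := inferInstance
  set D : Finset ℕ := (B \ strip B).filter fun b =>
    ∃ h : b < n + 1, bm B p q (tZ ga et Z) ⟨b, h⟩ ≠ 0 with hD
  have hDB : D ⊆ B := (Finset.filter_subset _ _).trans Finset.sdiff_subset
  have hZD : Disjoint Z D := st.dis.mono_right hDB
  have hT : InT (WA ga et B) (tZ ga et (Z ∪ D)) := by
    rw [tZ_union ga et hZD]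
    exact st.inT.add (InT_tZ ga et hDB)
  have hb : ∀ k : Fin (n + 1), (k : ℕ) ∉ strip B → bm B p q (tZ ga et (Z ∪ D)) k = 0 := by
    intro k hk
    by_cases hkB : (k : ℕ) ∈ B
    · rw [tZ_union ga et hZD, bm_add, bm_tZ hN hU hDB k]
      have hrs := hC.run_start st.inT st.H ⟨k, hkB⟩ (fun i hi h' => hk (by
        unfold strip
        rw [Finset.mem_filter]
        refine ⟨hkB, ?_⟩
        have : (k : ℕ) - 1 = i := by
          have h'' : i + 1 = (k : ℕ) := h'
          omega
        rw [this]
        exact hi))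
      by_cases hkD : (k : ℕ) ∈ D
      · rw [if_pos hkD]
        obtain ⟨_, hlt, hne0⟩ := Finset.mem_filter.1 hkD
        rcases hrs with h1 | h1
        · exact absurd h1 hne0
        · rw [h1]
          exact CharTwo.add_self_eq_zero _
      · rw [if_neg hkD, add_zero]
        by_contra hne0
        exact hkD (Finset.mem_filter.2 ⟨Finset.mem_sdiff.2 ⟨hkB, hk⟩, k.2, hne0⟩)
    · exact frame_bmin MvPolynomial.C hN.fr (fun k hk => dif_neg hk) (fun k j => rfl) hT hkB
  refine ⟨D, hDB, ?_, fun hne' => strip_nt hP st.sub hnt hne', ?_, ?_, ?_⟩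
  · exact (Finset.filter_subset _ _).trans st.sub
  · exact form_lemma hN hU hne hP.split.zero hT (Finset.filter_subset _ _) hb
  · rw [tZ_union ga et hZD, HG_add, st.H, zero_add]
    exact HG_tZ ga et (Umin_ne (hU 0)) D fun l hl => hN.lt l (hDB hl)
  · rw [Finset.disjoint_union_left]
    refine ⟨st.dis.mono_right (Finset.filter_subset _ _), ?_⟩
    rw [Finset.disjoint_left]
    intro b hb hb'
    exact (Finset.mem_sdiff.1 (Finset.mem_filter.1 hb).1).2 hb'

theorem strip_all (hP : Pair3 K ga et f e a) (hU : ∀ k, yU ga et k ≠ 0) :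
    ∀ (c : ℕ) (B Z : Finset ℕ), B.card = c → St ga et B Z →
      ∃ D ⊆ B, Disjoint Z D ∧ tZ ga et (Z ∪ D) = 0 := by
  classical
  intro c
  induction c using Nat.strong_induction_on with
  | _ c ih =>
    intro B Z hc st
    rcases B.eq_empty_or_nonempty with hB | hB
    · refine ⟨∅, Finset.empty_subset _, Finset.disjoint_empty_right _, ?_⟩
      rw [Finset.union_empty]
      have h1 := st.inT
      rw [hB, WA_empty] at h1
      ext i j
      have h2 := (Submodule.mem_bot E).1 (h1.1 i)
      exact congrFun h2 j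
    · obtain ⟨D, hDB, st'⟩ := step hP hU st hB
      have hlt := Finset.card_lt_card (strip_ssubset st.sub hB)
      obtain ⟨D', hD', hdis, h0⟩ := ih (strip B).card (by omega) (strip B) (Z ∪ D) rfl st'
      refine ⟨D ∪ D', Finset.union_subset hDB (hD'.trans (Finset.filter_subset _ _)), ?_, ?_⟩
      · rw [Finset.disjoint_union_right]
        exact ⟨st.dis.mono_right hDB, (Finset.disjoint_union_left.1 hdis).1⟩
      · rw [← Finset.union_assoc]
        exact h0

end

end Pool.Agent.Lib.CPlane.S2.TE
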