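import Pool.Agent.Lib.CPlane.S2Stat
import Pool.Agent.Lib.CPlane.P2G

/-!
# s = 2: no relation with coefficients in `F_2` between the `g_k ⊗ y_k`
-/

namespace Pool.Agent.Lib.CPlane.S2

open Finset Module Pool.Agent.Lib.CPlane.P2

theorem no_rel {K E : Type} [Field K] [Fintype K] [CharP K 2] [Field E] [Finite E]
    [CharP E 2] [Algebra K E] {n f e a : ℕ} {ga et : Fin (n + 2) → E}
    (hP : Pair3 K ga et f e a) (Z : Finset ℕ) (hZ : Z ⊆ range (2 ^ a)) (hne : Z.Nonempty) :
    (∑ l ∈ Z, Matrix.vecMulVec (fv ga l) (fv et l) :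
      Matrix (Fin (n + 2)) (Fin (n + 2)) E) ≠ 0 := by
  classical
  intro h0
  have hent : ∀ i j, ∑ l ∈ Z, (ga i * et j) ^ 2 ^ l = 0 := by
    intro i j
    have h1 := congrFun (congrFun h0 i) j
    rw [Matrix.sum_apply, Matrix.zero_apply] at h1
    rw [← h1]
    refine Finset.sum_congr rfl fun l _ => ?_
    rw [Matrix.vecMulVec_apply, mul_pow]
    rfl
  have hcard : Fintype.card K = 2 ^ 1 := by rw [hP.card, pow_one]
  -- the trace vanishes on all products
  have htr : ∀ c d : Fin (n + 2) → K, Algebra.trace K E (lin ga d * lin et c) = 0 := by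
    intro c d
    refine trace_eq_zero_of_sum hP.deg Z hZ hne _ ?_
    rw [hP.card]
    have h1 : ∀ l : ℕ, (lin ga d * lin et c) ^ 2 ^ l =
        ∑ i, ∑ j, d i • c j • (ga i * et j) ^ 2 ^ l := by
      intro l
      have hg := lin_pow hcard ga d l
      have hy := lin_pow hcard et c l
      rw [pow_one] at hg hy
      rw [mul_pow, hg, hy, Finset.sum_mul_sum]
      refine Finset.sum_congr rfl fun i _ => Finset.sum_congr rfl fun j _ => ?_
      rw [mul_pow, smul_mul_smul_comm, mul_smul]
    calc ∑ l ∈ Z, (lin ga d * lin et c) ^ 2 ^ l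
        = ∑ l ∈ Z, ∑ i, ∑ j, d i • c j • (ga i * et j) ^ 2 ^ l :=
          Finset.sum_congr rfl fun l _ => h1 l
      _ = ∑ i, ∑ j, d i • c j • ∑ l ∈ Z, (ga i * et j) ^ 2 ^ l := by
          rw [Finset.sum_comm]
          refine Finset.sum_congr rfl fun i _ => ?_
          rw [Finset.sum_comm]
          refine Finset.sum_congr rfl fun j _ => ?_
          rw [Finset.smul_sum, Finset.smul_sum]
      _ = 0 := by
          refine Finset.sum_eq_zero fun i _ => Finset.sum_eq_zero fun j _ => ?_
          rw [hent, smul_zero, smul_zero]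
  -- there is a vector of `Y`
  obtain ⟨b, _, hb⟩ := hP.p2.one
  have hex : ∃ c : Fin (n + 2) → K, lin et c ≠ 0 := by
    by_contra hcon
    push Not at hcon
    have hbot : Dsub K ga et (b ^ 2) = ⊥ := by
      rw [Submodule.eq_bot_iff]
      intro c hc
      have h1 : lin ga c = b ^ 2 * lin et c := hc
      refine hP.p2.ind c ?_ (hcon c)
      rw [h1, hcon c, mul_zero]
    unfold wt at hb
    rw [hbot, finrank_bot] at hb
    exact absurd hb (by norm_num)
  obtain ⟨c, hc⟩ := hex
  obtain ⟨d, hd⟩ := hP.p2.tr c hc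
  exact hd (htr c d)

end Pool.Agent.Lib.CPlane.S2
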