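import Pool.Agent.Lib.CPlane.S2Stat
import Pool.Agent.Lib.CPlane.S2NT

/-!
# Theorem E: reduction to the window `[1, n]`
-/

namespace Pool.Agent.Lib.CPlane.S2

open Finset Module Pool.Agent.Lib.CPlane.P2

/-- THEOREM E in the window `[1, n]` -/
def THE0 : Prop := ∀ {K E : Type} [Field K] [Fintype K] [CharP K 2] [Field E] [Finite E]
  [CharP E 2] [Algebra K E] {n f e a : ℕ} (ga et : Fin (n + 2) → E), Pair3 K ga et f e a →
  ∀ A : Finset ℕ, A ⊆ Icc 1 n → IsNT ga et A →
  ∀ k < 2 ^ a, fv ga k ∈ WA ga et A → fv et k ∈ WA ga et A → k ∈ A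

theorem the_of_zero (h : THE0) : THE := by
  intro K E _ _ _ _ _ _ _ n f e a ga et hP s A hA hnt k hg hy
  have hA' : (A.image (· - s)).image (· + s) = A := by
    rw [image_image]
    ext x
    simp only [mem_image, Function.comp_apply]
    constructor
    · rintro ⟨y, hy, rfl⟩
      have := mem_Icc.mp (hA hy)
      rwa [Nat.sub_add_cancel (by omega)]
    · intro hx
      have := mem_Icc.mp (hA hx)
      exact ⟨x, hx, Nat.sub_add_cancel (by omega)⟩
  have hsub : A.image (· - s) ⊆ Icc 1 n := by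
    intro x hx
    obtain ⟨y, hy, rfl⟩ := mem_image.mp hx
    have := mem_Icc.mp (hA hy)
    rw [mem_Icc]
    omega
  have hnt' : IsNT ga et (A.image (· - s)) := by
    rw [← isNT_shift s, hA']
    exact hnt
  set k' := (k + (2 ^ a - 1) * s) % 2 ^ a with hk'
  have hpos : 0 < 2 ^ a := Nat.two_pow_pos a
  have hkk : k ≡ k' + s [MOD 2 ^ a] := by
    have h1 : k' ≡ k + (2 ^ a - 1) * s [MOD 2 ^ a] := Nat.mod_modEq _ _
    have h2 : k' + s ≡ k + (2 ^ a - 1) * s + s [MOD 2 ^ a] := h1.add_right s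
    have h3 : k + (2 ^ a - 1) * s + s = k + 2 ^ a * s := by
      obtain ⟨c, hc⟩ : ∃ c, 2 ^ a = c + 1 := ⟨2 ^ a - 1, by omega⟩
      rw [hc]
      simp only [Nat.add_sub_cancel]
      ring
    rw [h3] at h2
    have h4 : k + 2 ^ a * s ≡ k [MOD 2 ^ a] := by
      unfold Nat.ModEq
      rw [Nat.add_mul_mod_self_left]
    exact (h2.trans h4).symm
  have e1 : fv ga k' ∈ WA ga et (A.image (· - s)) := by
    rw [← fv_mem_shift ga k' s, hA', ← fv_congr hP.card hP.deg ga hkk]
    exact hg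
  have e2 : fv et k' ∈ WA ga et (A.image (· - s)) := by
    rw [← fv_mem_shift et k' s, hA', ← fv_congr hP.card hP.deg et hkk]
    exact hy
  have h5 := h ga et hP _ hsub hnt' k' (Nat.mod_lt _ hpos) e1 e2
  refine ⟨k' + s, ?_, hkk⟩
  rw [← hA']
  exact mem_image_of_mem _ h5

end Pool.Agent.Lib.CPlane.S2
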