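import Pool.Agent.Lib.CPlane.PlaneG

/-!
# From Part II over the field with two elements to the planes
-/

namespace Pool.Agent.Lib.CPlane.S2

open Module

/-- PART II over the field with two elements, same form as `P2.main` -/
def MAIN2 : Prop :=
  ∀ (K E : Type) [Field K] [Fintype K] [CharP K 2] [Field E] [Finite E] [Algebra K E] (a : ℕ),
    Fintype.card K = 2 → finrank K E = 2 ^ a →
    ∀ (G Y : Submodule K E), finrank K G = finrank K Y → 2 * finrank K Y < 2 ^ a →
    Y ≠ ⊥ → (∀ g ∈ G, g ≠ 0 → ∃ y ∈ Y, Algebra.trace K E (g * y) ≠ 0) →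
    (∀ b : E, b ≠ 0 → (∃ g ∈ G, ∃ y ∈ Y, g + b ^ 2 * y = b) →
      ∃ y ∈ Y, y ≠ 0 ∧ b ^ 2 * y ∈ G) → False

/-- Part II in the form `PT` -/
theorem pt_of_main (hM : MAIN2) (K : Type) [Field K] [Fintype K] [CharP K 2]
    (hK : Fintype.card K = 2) : PT K := by
  intro E _ _ _ a hE H Y n hinj hdim hY
  have hch : CharP E 2 := charP_of_injective_algebraMap (algebraMap K E).injective 2
  by_contra hY0
  have h3 := finrank_orth H
  refine hM K E a hK hE (orth H) Y (by omega) (by omega) hY0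
    (exists_trace_ne H Y n hinj hdim) ?_
  rintro b hb ⟨g, hg, y, hy, h⟩
  refine exists_second H Y n hinj hdim hb hy ?_
  have h4 : b + b ^ 2 * y = g := by
    have h5 := CharTwo.add_self_eq_zero (b ^ 2 * y)
    linear_combination h5 - h
  rw [h4]
  exact hg

/-- the planes -/
theorem plane_of_main (hM : MAIN2) {P : Type} {n : ℕ} (A : AffinePlane P n)
    (G : Subgroup (Equiv.Perm P)) (hG : IsCollineationGroup A G)
    (hflag : SharplyFlagTransitive A G) (o : P)
    (h : (∃ k, n = 2 ^ 2 ^ k) ∨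
      (Even n ∧ (∃ a, n = ({δ | IsHom A o δ}.ncard + 1) ^ 2 ^ a) ∧
        ∀ g ∈ G, g o = o → ∀ δ, IsHom A o δ → g * δ = δ * g)) :
    Desarguesian A :=
  intrinsicG (fun K _ _ _ hK => pt_of_main hM K hK) A G hG hflag o h

end Pool.Agent.Lib.CPlane.S2
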