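import Pool.Agent.Lib.CPlane.P2A
import Pool.Agent.Lib.CPlane.P2G

/-!
# Kernel of order two, the reduction: a pair with a point of weight one, not inside a multiple of a
proper subfield
-/

namespace Pool.Agent.Lib.CPlane.S2

open Module Finset Pool.Agent.Lib.CPlane.P2

section red

variable {K E : Type} [Field K] [Fintype K] [CharP K 2] [Field E] [Finite E] [Algebra K E]

/-- an element fixed by the square root of `σ ^ m = 1` has trace zero -/
theorem trace_eq_zero_of_half {a : ℕ} (hm : finrank K E = 2 ^ (a + 1)) (x : E)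
    (hx : x ^ Fintype.card K ^ 2 ^ a = x) : Algebra.trace K E x = 0 := by
  have hch : CharP E 2 := charP_of_injective_algebraMap (algebraMap K E).injective 2
  have h0 : (0 : ℕ) ≠ 2 ^ a := (Nat.two_pow_pos a).ne
  refine trace_eq_zero_of_sum hm {0, 2 ^ a} ?_ ⟨0, by simp⟩ x ?_
  · intro k hk
    simp only [Finset.mem_insert, Finset.mem_singleton] at hk
    rw [Finset.mem_range, pow_succ]
    have := Nat.two_pow_pos a
    rcases hk with rfl | rfl <;> omega
  · rw [Finset.sum_pair h0, pow_zero, pow_one, hx]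
    exact CharTwo.add_self_eq_zero x

omit [CharP K 2] in
/-- an element fixed by `σ ^ d`, `0 < d < m = 2 ^ (a + 1)`, is fixed by `σ ^ (m / 2)` -/
theorem fix_half {a : ℕ} (hm : finrank K E = 2 ^ (a + 1)) {d : ℕ} (hd : 0 < d)
    (hd2 : d < 2 ^ (a + 1)) (x : E) (hx : x ^ Fintype.card K ^ d = x) :
    x ^ Fintype.card K ^ 2 ^ a = x := by
  have hcard : Nat.card E = Fintype.card K ^ 2 ^ (a + 1) := by
    rw [← Nat.card_eq_fintype_card, ← hm]
    exact Module.natCard_eq_pow_finrank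
  set F : E → E := fun y => y ^ Fintype.card K with hF
  have hFk : ∀ (k : ℕ) (y : E), F^[k] y = y ^ Fintype.card K ^ k := by
    intro k
    induction k with
    | zero => intro y; simp
    | succ k ih =>
      intro y
      rw [Function.iterate_succ_apply', ih, hF]
      simp only
      rw [← pow_mul, ← pow_succ]
  have h1 : Function.IsPeriodicPt F d x := by
    rw [Function.IsPeriodicPt, Function.IsFixedPt, hFk, hx]
  have h2 : Function.IsPeriodicPt F (2 ^ (a + 1)) x := by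
    rw [Function.IsPeriodicPt, Function.IsFixedPt, hFk, ← hcard]
    have : Fintype E := Fintype.ofFinite E
    rw [Nat.card_eq_fintype_card, FiniteField.pow_card]
  have h3 := h1.gcd h2
  have h4 : Nat.gcd d (2 ^ (a + 1)) ∣ 2 ^ a := by
    obtain ⟨j, hj, he⟩ := (Nat.dvd_prime_pow Nat.prime_two).1 (Nat.gcd_dvd_right d (2 ^ (a + 1)))
    rw [he]
    refine pow_dvd_pow 2 ?_
    by_contra hlt
    have hj' : j = a + 1 := by omega
    rw [hj'] at he
    have h5 : 2 ^ (a + 1) ∣ d := he ▸ Nat.gcd_dvd_left d (2 ^ (a + 1))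
    exact absurd (Nat.le_of_dvd hd h5) (by omega)
  have h6 : Function.IsPeriodicPt F (2 ^ a) x := h3.trans_dvd h4
  rw [Function.IsPeriodicPt, Function.IsFixedPt, hFk] at h6
  exact h6

/-- `S` is not contained in `z L` for a proper subfield `L` -/
def NoSub (q m : ℕ) (S : Submodule K E) : Prop :=
  ∀ d, 0 < d → d < m → ∃ u ∈ S, ∃ v ∈ S, u ≠ 0 ∧ v ≠ 0 ∧ (u / v) ^ q ^ d ≠ u / v

omit [CharP K 2] in
theorem noSub_of_half {a : ℕ} (hm : finrank K E = 2 ^ (a + 1)) (S : Submodule K E)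
    (h : ∃ u ∈ S, ∃ v ∈ S, u ≠ 0 ∧ v ≠ 0 ∧ (u / v) ^ Fintype.card K ^ 2 ^ a ≠ u / v) :
    NoSub (Fintype.card K) (2 ^ (a + 1)) S := by
  obtain ⟨u, hu, v, hv, hu0, hv0, huv⟩ := h
  intro d hd hd2
  exact ⟨u, hu, v, hv, hu0, hv0, fun h => huv (fix_half hm hd hd2 _ h)⟩

/-- the big space -/
theorem noSub_right {a : ℕ} (hm : finrank K E = 2 ^ (a + 1)) (Z Y : Submodule K E) (hY : Y ≠ ⊥)
    (hp : ∀ g ∈ Z, g ≠ 0 → ∃ y ∈ Y, Algebra.trace K E (g * y) ≠ 0)
    (hii : ∀ b : E, b ≠ 0 → (∃ g ∈ Z, ∃ y ∈ Y, g + b ^ 2 * y = b) →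
      ∃ y ∈ Y, y ≠ 0 ∧ b ^ 2 * y ∈ Z) :
    NoSub (Fintype.card K) (2 ^ (a + 1)) Y := by
  refine noSub_of_half hm Y ?_
  by_contra hcon
  push Not at hcon
  obtain ⟨y, hy, hy0⟩ := Submodule.exists_mem_ne_zero_of_ne_bot hY
  obtain ⟨y', hy', hy'0, hg⟩ := hii y⁻¹ (inv_ne_zero hy0) ⟨0, Z.zero_mem, y, hy, by
    rw [zero_add, pow_two]
    field_simp⟩
  obtain ⟨y2, hy2, htr⟩ := hp _ hg (mul_ne_zero (pow_ne_zero _ (inv_ne_zero hy0)) hy'0)
  refine htr (trace_eq_zero_of_half hm _ ?_)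
  by_cases h20 : y2 = 0
  · rw [h20, mul_zero]
    have : 0 < Fintype.card K := Fintype.card_pos
    rw [zero_pow (pow_pos this _).ne']
  have h1 := hcon y' hy' y hy hy'0 hy0
  have h2 := hcon y2 hy2 y hy h20 hy0
  have h3 : y⁻¹ ^ 2 * y' * y2 = y' / y * (y2 / y) := by
    field_simp
  rw [h3, mul_pow, h1, h2]

/-- the small space (if the pairing is nondegenerate on both sides) -/
theorem noSub_left {a : ℕ} (hm : finrank K E = 2 ^ (a + 1)) (Z Y : Submodule K E) (hZ : Z ≠ ⊥)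
    (hp : ∀ y ∈ Y, y ≠ 0 → ∃ g ∈ Z, Algebra.trace K E (g * y) ≠ 0)
    (hii : ∀ b : E, b ≠ 0 → (∃ g ∈ Z, ∃ y ∈ Y, g + b ^ 2 * y = b) →
      ∃ y ∈ Y, y ≠ 0 ∧ b ^ 2 * y ∈ Z) :
    ∃ u ∈ Z, ∃ v ∈ Z, u ≠ 0 ∧ v ≠ 0 ∧ (u / v) ^ Fintype.card K ^ 2 ^ a ≠ u / v := by
  by_contra hcon
  push Not at hcon
  obtain ⟨g, hg, hg0⟩ := Submodule.exists_mem_ne_zero_of_ne_bot hZ
  obtain ⟨y', hy', hy'0, hg'⟩ := hii g hg0 ⟨g, hg, 0, Y.zero_mem, by rw [mul_zero, add_zero]⟩
  obtain ⟨g2, hg2, htr⟩ := hp _ hy' hy'0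
  refine htr (trace_eq_zero_of_half hm _ ?_)
  by_cases h20 : g2 = 0
  · rw [h20, zero_mul]
    have : 0 < Fintype.card K := Fintype.card_pos
    rw [zero_pow (pow_pos this _).ne']
  have h1 := hcon _ hg' g hg (mul_ne_zero (pow_ne_zero _ hg0) hy'0) hg0
  have h2 := hcon g2 hg2 g hg h20 hg0
  have h3 : g2 * y' = g ^ 2 * y' / g * (g2 / g) := by
    field_simp
  rw [h3, mul_pow, h1, h2]

/-- a finite group is not the union of two proper subgroups -/
theorem exists_not_mem {M : Type} [AddCommGroup M] (G A B : AddSubgroup M)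
    (hA : ¬ G ≤ A) (hB : ¬ G ≤ B) : ∃ w ∈ G, w ∉ A ∧ w ∉ B := by
  obtain ⟨x, hx, hxA⟩ := SetLike.not_le_iff_exists.1 hA
  obtain ⟨y, hy, hyB⟩ := SetLike.not_le_iff_exists.1 hB
  by_cases h1 : x ∈ B
  · by_cases h2 : y ∈ A
    · refine ⟨x + y, G.add_mem hx hy, fun h => hxA ?_, fun h => hyB ?_⟩
      · have := A.sub_mem h h2
        rwa [add_sub_cancel_right] at this
      · have := B.sub_mem h h1
        rwa [add_sub_cancel_left] at this
    · exact ⟨y, hy, h2, hyB⟩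
  · exact ⟨x, hx, hxA, h1⟩

/-- the elements `g` of `G` with `g = b² y`, `y ∈ Y` -/
def Gb (G Y : Submodule K E) (b : E) : Submodule K E where
  carrier := {g | g ∈ G ∧ ∃ y ∈ Y, b ^ 2 * y = g}
  add_mem' := by
    rintro g g' ⟨hg, y, hy, h⟩ ⟨hg', y', hy', h'⟩
    exact ⟨G.add_mem hg hg', y + y', Y.add_mem hy hy', by rw [mul_add, h, h']⟩
  zero_mem' := ⟨G.zero_mem, 0, Y.zero_mem, mul_zero _⟩
  smul_mem' := by
    rintro k g ⟨hg, y, hy, h⟩
    exact ⟨G.smul_mem k hg, k • y, Y.smul_mem k hy, by rw [mul_smul_comm, h]⟩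

/-- the elements of `u L`, `L` the fixed field of `σ ^ (2 ^ a)` -/
def uL (a : ℕ) (u : E) : AddSubgroup E where
  carrier := {x | (x / u) ^ Fintype.card K ^ 2 ^ a = x / u}
  add_mem' := by
    have hch : CharP E 2 := charP_of_injective_algebraMap (algebraMap K E).injective 2
    obtain ⟨r, -, hr⟩ := FiniteField.card K 2
    rintro x y hx hy
    change (x / u) ^ Fintype.card K ^ 2 ^ a = x / u at hx
    change (y / u) ^ Fintype.card K ^ 2 ^ a = y / u at hy
    change ((x + y) / u) ^ Fintype.card K ^ 2 ^ a = (x + y) / u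
    rw [add_div, hr, ← pow_mul, add_pow_char_pow, pow_mul, ← hr, hx, hy]
  zero_mem' := by
    have : 0 < Fintype.card K := Fintype.card_pos
    change (0 / u : E) ^ Fintype.card K ^ 2 ^ a = 0 / u
    rw [zero_div, zero_pow (pow_pos this _).ne']
  neg_mem' := by
    have hch : CharP E 2 := charP_of_injective_algebraMap (algebraMap K E).injective 2
    rintro x hx
    have h : -x = x := by
      rw [neg_eq_iff_add_eq_zero]
      exact CharTwo.add_self_eq_zero x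
    rw [h]
    exact hx

theorem reduction2 {a : ℕ} (G Y : Submodule K E) (hG : G ≠ ⊥) (hY : Y ≠ ⊥)
    (hGL : ∃ u ∈ G, ∃ v ∈ G, u ≠ 0 ∧ v ≠ 0 ∧ (u / v) ^ Fintype.card K ^ 2 ^ a ≠ u / v)
    (hii : ∀ b : E, b ≠ 0 → (∃ g ∈ G, ∃ y ∈ Y, g + b ^ 2 * y = b) →
      ∃ y ∈ Y, y ≠ 0 ∧ b ^ 2 * y ∈ G) :
    ∃ Z : Submodule K E, Z ≤ G ∧ Z ≠ ⊥ ∧
      (∀ b : E, b ≠ 0 → (∃ g ∈ Z, ∃ y ∈ Y, g + b ^ 2 * y = b) →
        ∃ y ∈ Y, y ≠ 0 ∧ b ^ 2 * y ∈ Z) ∧
      (finrank K Z = 1 ∨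
        ∃ u ∈ Z, ∃ v ∈ Z, u ≠ 0 ∧ v ≠ 0 ∧ (u / v) ^ Fintype.card K ^ 2 ^ a ≠ u / v) ∧
      ∃ b : E, b ≠ 0 ∧ ∃ y0 ∈ Y, y0 ≠ 0 ∧ b ^ 2 * y0 ∈ Z ∧
        ∀ y ∈ Y, b ^ 2 * y ∈ Z → ∃ k : K, y = k • y0 := by
  classical
  have hch : CharP E 2 := charP_of_injective_algebraMap (algebraMap K E).injective 2
  have hfd : FiniteDimensional K E := Module.Finite.of_finite
  have hGbG : ∀ b, Gb G Y b ≤ G := fun b g hg => hg.1
  -- the point with the smallest weight
  let D : Set E := {b | b ≠ 0 ∧ Gb G Y b ≠ ⊥}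
  have hDne : D.Nonempty := by
    obtain ⟨g, hg, hg0⟩ := Submodule.exists_mem_ne_zero_of_ne_bot hG
    obtain ⟨y, hy, hy0⟩ := Submodule.exists_mem_ne_zero_of_ne_bot hY
    have hsurj : Function.Surjective (frobenius E 2) :=
      Finite.surjective_of_injective (frobenius_inj E 2)
    obtain ⟨b, hb⟩ := hsurj (g / y)
    rw [frobenius_def] at hb
    refine ⟨b, ?_, ?_⟩
    · intro h
      rw [h, zero_pow two_ne_zero] at hb
      exact (div_ne_zero hg0 hy0) hb.symm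
    · refine (Submodule.ne_bot_iff _).2 ⟨g, ⟨hg, y, hy, ?_⟩, hg0⟩
      rw [hb]
      field_simp
  obtain ⟨b0, ⟨hb00, hb0⟩, hmin⟩ := Set.exists_min_image D (fun b => finrank K (Gb G Y b))
    (Set.toFinite D) hDne
  set H := Gb G Y b0 with hH
  obtain ⟨u, hu, hu0⟩ := Submodule.exists_mem_ne_zero_of_ne_bot hb0
  obtain ⟨huG, y0, hy0, hby0⟩ := hu
  have huH : u ∈ H := ⟨huG, y0, hy0, hby0⟩
  have hHG : H ≤ G := hGbG b0
  -- the element `w`
  obtain ⟨w, hwG, hw⟩ : ∃ w ∈ G, (w = u ∧ H = G) ∨ (w ∉ H ∧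
      (w / u) ^ Fintype.card K ^ 2 ^ a ≠ w / u) := by
    by_cases h : H = G
    · exact ⟨u, huG, Or.inl ⟨rfl, h⟩⟩
    · obtain ⟨w, hw, hw1, hw2⟩ := exists_not_mem G.toAddSubgroup H.toAddSubgroup (uL (K := K) a u)
        (fun h' => h (le_antisymm hHG h')) (by
          intro h'
          obtain ⟨x, hx, y, hy, hx0, hy0, hxy⟩ := hGL
          refine hxy ?_
          have h1 : (x / u) ^ Fintype.card K ^ 2 ^ a = x / u := h' hx
          have h2 : (y / u) ^ Fintype.card K ^ 2 ^ a = y / u := h' hy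
          have h3 : x / y = (x / u) / (y / u) := by
            field_simp
          rw [h3, div_pow, h1, h2])
      exact ⟨w, hw, Or.inr ⟨hw1, hw2⟩⟩
  -- the complement `H'` of `u` in `H`
  obtain ⟨C1, hC1⟩ := Submodule.exists_isCompl (Submodule.span K {u})
  have huH' : Submodule.span K {u} ≤ H := (Submodule.span_singleton_le_iff_mem u H).2 huH
  set H' := C1 ⊓ H with hH'
  have hsup : Submodule.span K {u} ⊔ H' = H := by
    rw [hH', ← sup_inf_assoc_of_le C1 huH', hC1.sup_eq_top, top_inf_eq]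
  have hH'H : H' ≤ H := inf_le_right
  have hdisj1 : Submodule.span K {u} ⊓ H' = ⊥ := by
    rw [hH', ← inf_assoc, hC1.inf_eq_bot, bot_inf_eq]
  have hdisj : Disjoint (Submodule.span K {u, w}) H' := by
    rw [Submodule.disjoint_def]
    intro x hx hxH
    obtain ⟨α, β, hαβ⟩ := Submodule.mem_span_pair.1 hx
    have hxu : x ∈ Submodule.span K {u} := by
      rcases hw with ⟨hwu, -⟩ | ⟨hwH, -⟩
      · rw [hwu, Set.insert_eq_of_mem (Set.mem_singleton u)] at hx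
        exact hx
      · by_cases hβ : β = 0
        · rw [← hαβ, hβ, zero_smul, add_zero]
          exact Submodule.smul_mem _ _ (Submodule.mem_span_singleton_self u)
        · exfalso
          refine hwH ?_
          have h1 : β • w ∈ H := by
            have h2 : β • w = x - α • u := by
              rw [← hαβ, add_sub_cancel_left]
            rw [h2]
            exact H.sub_mem (hH'H hxH) (H.smul_mem _ huH)
          exact (Submodule.smul_mem_iff H hβ).1 h1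
    have h3 : x ∈ Submodule.span K {u} ⊓ H' := ⟨hxu, hxH⟩
    rw [hdisj1] at h3
    exact (Submodule.mem_bot K).1 h3
  obtain ⟨C, hC, hCc⟩ := hdisj.exists_isCompl
  have huC : u ∈ C := hC (Submodule.subset_span (by simp))
  have hwC : w ∈ C := hC (Submodule.subset_span (by simp))
  have huC' : Submodule.span K {u} ≤ C := (Submodule.span_singleton_le_iff_mem u C).2 huC
  have hZH : C ⊓ H = Submodule.span K {u} := by
    rw [← hsup, inf_comm, sup_inf_assoc_of_le H' huC', inf_comm H' C, hCc.inf_eq_bot, sup_bot_eq]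
  have hH'G : H' ≤ G := hH'H.trans hHG
  have hZsup : H' ⊔ C ⊓ G = G := by
    rw [← sup_inf_assoc_of_le C hH'G, sup_comm, hCc.sup_eq_top, top_inf_eq]
  have hZinf : H' ⊓ (C ⊓ G) = ⊥ := by
    rw [← inf_assoc, inf_comm H' C, hCc.inf_eq_bot, bot_inf_eq]
  have hd1 : finrank K H' + finrank K (C ⊓ G : Submodule K E) = finrank K G := by
    have h := Submodule.finrank_sup_add_finrank_inf_eq H' (C ⊓ G)
    rw [hZsup, hZinf, finrank_bot] at h
    omega
  have hd2 : 1 + finrank K H' = finrank K H := by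
    have h := Submodule.finrank_sup_add_finrank_inf_eq (Submodule.span K {u}) H'
    rw [hsup, hdisj1, finrank_bot, finrank_span_singleton hu0] at h
    omega
  refine ⟨C ⊓ G, inf_le_right, ?_, ?_, ?_, b0, hb00, y0, hy0, ?_, ?_, ?_⟩
  · exact (Submodule.ne_bot_iff _).2 ⟨u, ⟨huC, huG⟩, hu0⟩
  · rintro b hb ⟨g, hg, y, hy, h⟩
    obtain ⟨y', hy', hy'0, hby'⟩ := hii b hb ⟨g, hg.2, y, hy, h⟩
    have hbD : b ∈ D := ⟨hb, (Submodule.ne_bot_iff _).2 ⟨b ^ 2 * y', ⟨hby', y', hy', rfl⟩,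
      mul_ne_zero (pow_ne_zero _ hb) hy'0⟩⟩
    have h1 := hmin b hbD
    have h2 := Submodule.finrank_sup_add_finrank_inf_eq (C ⊓ G) (Gb G Y b)
    have h3 : finrank K (C ⊓ G ⊔ Gb G Y b : Submodule K E) ≤ finrank K G :=
      Submodule.finrank_mono (sup_le inf_le_right (hGbG b))
    have h4 : 0 < finrank K (C ⊓ G ⊓ Gb G Y b : Submodule K E) := by omega
    have h5 : C ⊓ G ⊓ Gb G Y b ≠ ⊥ := by
      intro h6
      rw [h6, finrank_bot] at h4
      exact lt_irrefl 0 h4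
    obtain ⟨x, hx, hx0⟩ := Submodule.exists_mem_ne_zero_of_ne_bot h5
    obtain ⟨hxZ, -, y2, hy2, hxy⟩ := hx
    refine ⟨y2, hy2, ?_, ?_⟩
    · rintro rfl
      rw [mul_zero] at hxy
      exact hx0 hxy.symm
    · rw [hxy]
      exact hxZ
  · rcases hw with ⟨-, hHG'⟩ | ⟨-, hwL⟩
    · left
      rw [hHG'] at hd2
      omega
    · right
      refine ⟨w, ⟨hwC, hwG⟩, u, ⟨huC, huG⟩, ?_, hu0, hwL⟩
      rintro rfl
      refine hwL ?_
      have : 0 < Fintype.card K := Fintype.card_pos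
      rw [zero_div, zero_pow (pow_pos this _).ne']
  · rintro rfl
    rw [mul_zero] at hby0
    exact hu0 hby0.symm
  · rw [hby0]
    exact ⟨huC, huG⟩
  · intro y hy hyZ
    have h1 : b0 ^ 2 * y ∈ C ⊓ H := ⟨hyZ.1, hyZ.2, y, hy, rfl⟩
    rw [hZH] at h1
    obtain ⟨k, hk⟩ := Submodule.mem_span_singleton.1 h1
    refine ⟨k, ?_⟩
    have h2 : b0 ^ 2 * y = b0 ^ 2 * (k • y0) := by
      rw [mul_smul_comm, hby0, hk]
    exact mul_left_cancel₀ (pow_ne_zero _ hb00) h2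

/-- the reduction, for a perfect pairing -/
theorem reduction3 {a : ℕ} (hm : finrank K E = 2 ^ a) (G Y : Submodule K E)
    (hGY : finrank K G = finrank K Y) (h2 : 2 * finrank K Y ≤ 2 ^ a) (hY : Y ≠ ⊥)
    (hp : ∀ g ∈ G, g ≠ 0 → ∃ y ∈ Y, Algebra.trace K E (g * y) ≠ 0)
    (hii : ∀ b : E, b ≠ 0 → (∃ g ∈ G, ∃ y ∈ Y, g + b ^ 2 * y = b) →
      ∃ y ∈ Y, y ≠ 0 ∧ b ^ 2 * y ∈ G) :
    ∃ Z : Submodule K E, Z ≤ G ∧ Z ≠ ⊥ ∧
      (∀ b : E, b ≠ 0 → (∃ g ∈ Z, ∃ y ∈ Y, g + b ^ 2 * y = b) →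
        ∃ y ∈ Y, y ≠ 0 ∧ b ^ 2 * y ∈ Z) ∧
      (finrank K Z = 1 ∨ NoSub (Fintype.card K) (2 ^ a) Z) ∧
      NoSub (Fintype.card K) (2 ^ a) Y ∧
      ∃ b : E, b ≠ 0 ∧ ∃ y0 ∈ Y, y0 ≠ 0 ∧ b ^ 2 * y0 ∈ Z ∧
        ∀ y ∈ Y, b ^ 2 * y ∈ Z → ∃ k : K, y = k • y0 := by
  classical
  have hfd : FiniteDimensional K E := Module.Finite.of_finite
  have hYpos : 0 < finrank K Y := by
    rw [Nat.pos_iff_ne_zero]
    intro h
    exact hY (Submodule.finrank_eq_zero.1 h)
  obtain ⟨a, rfl⟩ : ∃ a', a = a' + 1 := by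
    rcases a with _ | a
    · rw [pow_zero] at h2
      omega
    · exact ⟨a, rfl⟩
  have hG : G ≠ ⊥ := by
    intro h
    rw [h, finrank_bot] at hGY
    omega
  -- the pairing is nondegenerate on the other side
  have hp' : ∀ y ∈ Y, y ≠ 0 → ∃ g ∈ G, Algebra.trace K E (g * y) ≠ 0 := by
    let f : G →ₗ[K] Module.Dual K Y :=
      LinearMap.mk₂ K (fun (g : G) (y : Y) => Algebra.trace K E ((g : E) * (y : E)))
        (fun g g' y => by simp [add_mul]) (fun c g y => by simp)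
        (fun g y y' => by simp [mul_add]) (fun c g y => by simp)
    have hf : Function.Injective f := by
      rw [← LinearMap.ker_eq_bot, LinearMap.ker_eq_bot']
      intro g hg
      by_contra hg0
      have hg0' : (g : E) ≠ 0 := fun h => hg0 (Subtype.ext h)
      obtain ⟨y, hy, htr⟩ := hp g g.2 hg0'
      exact htr (congrArg (fun (φ : Module.Dual K Y) => φ ⟨y, hy⟩) hg)
    have hfs : Function.Surjective f := by
      have h : finrank K G = finrank K (Module.Dual K Y) := by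
        rw [Subspace.dual_finrank_eq, hGY]
      exact (LinearMap.injective_iff_surjective_of_finrank_eq_finrank h).1 hf
    intro y hy hy0
    by_contra hcon
    push Not at hcon
    have hy0' : (⟨y, hy⟩ : Y) ≠ 0 := fun h => hy0 (congrArg Subtype.val h)
    refine hy0' ?_
    rw [← Module.forall_dual_apply_eq_zero_iff K]
    intro φ
    obtain ⟨g, rfl⟩ := hfs φ
    exact hcon g g.2
  obtain ⟨Z, hZG, hZ, hZii, hZsub, hb⟩ := reduction2 (a := a) G Y hG hY
    (noSub_left hm G Y hG hp' hii) hii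
  refine ⟨Z, hZG, hZ, hZii, ?_, ?_, hb⟩
  · rcases hZsub with h | h
    · exact Or.inl h
    · exact Or.inr (noSub_of_half hm Z h)
  · exact noSub_right hm Z Y hY (fun g hg => hp g (hZG hg)) hZii

end red

end Pool.Agent.Lib.CPlane.S2
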