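import Pool.Agent.Lib.CPlane.M0Stat
import Pool.Agent.Lib.CPlane.S2Red

/-!
# Kernel of order two: the pair in coordinates
-/

namespace Pool.Agent.Lib.CPlane.S2

open Module Finset Pool.Agent.Lib.CPlane.P2

/-- the pair without `wv` (weight one points are vertices) and without `2 ≤ e` -/
structure Pair1 (K : Type) {E : Type} [Field K] [Field E] [Algebra K E] {N : ℕ}
    (ga et : Fin N → E) (f e : ℕ) : Prop where
  zero : ∀ j, ga j = 0 ∨ et j = 0
  cf : Nat.card {j // et j = 0} = f
  ce : Nat.card {j // ga j = 0} = e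
  sum : f + e = N
  ind : ∀ c : Fin N → K, lin ga c = 0 → lin et c = 0 → c = 0
  tr : ∀ c : Fin N → K, lin et c ≠ 0 → ∃ d : Fin N → K,
    Algebra.trace K E (lin ga d * lin et c) ≠ 0
  vx : ∀ a : E, IsVx K ga et a → 1 ≤ wt K ga et (a ^ 2)
  one : ∃ a : E, a ≠ 0 ∧ wt K ga et (a ^ 2) = 1

section

variable {K E : Type} [Field K] [Fintype K] [Field E] [Finite E] [CharP E 2] [Algebra K E]

omit [Finite E] in
/-- no two functionals `σ ^ k`, `σ ^ (k + d)`, `0 < d < m`, are proportional on `S` -/
theorem NoSub.not_prop (hK : Fintype.card K = 2) {m : ℕ} {S : Submodule K E} (hS : NoSub 2 m S)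
    {ι : Type} (v : ι → E) (hv : S ≤ Submodule.span K (Set.range v)) (k d : ℕ) (hd : 0 < d)
    (hd2 : d < m) (c : E) : ∃ i, v i ^ 2 ^ (k + d) ≠ c * v i ^ 2 ^ k := by
  by_contra hcon
  push Not at hcon
  have hsp : ∀ x ∈ Submodule.span K (Set.range v), x ^ 2 ^ (k + d) = c * x ^ 2 ^ k := by
    intro x hx
    induction hx using Submodule.span_induction with
    | mem x hx =>
      obtain ⟨i, rfl⟩ := hx
      exact hcon i
    | zero => rw [zero_pow (pow_ne_zero _ two_ne_zero), zero_pow (pow_ne_zero _ two_ne_zero),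
        mul_zero]
    | add x y _ _ hx hy => rw [add_pow_char_pow, add_pow_char_pow, hx, hy, mul_add]
    | smul t x _ hx =>
      have ht : t ^ 2 = t := by
        have := FiniteField.pow_card t
        rwa [hK] at this
      have ht2 : ∀ j, t ^ 2 ^ j = t := by
        intro j
        induction j with
        | zero => simp
        | succ j ih => rw [pow_succ, pow_mul, ih, ht]
      rw [Algebra.smul_def, mul_pow, mul_pow, ← map_pow, ← map_pow, ht2, ht2, hx]
      ring
  obtain ⟨x, hx, y, hy, hx0, hy0, hxy⟩ := hS d hd hd2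
  have h1 := hsp x (hv hx)
  have h2 := hsp y (hv hy)
  apply hxy
  apply iterateFrobenius_inj E 2 k
  rw [iterateFrobenius_def, iterateFrobenius_def, ← pow_mul, ← pow_add, add_comm d k]
  have hc : c ≠ 0 := by
    rintro rfl
    rw [zero_mul] at h1
    exact (pow_ne_zero _ hx0) h1
  rw [div_pow, div_pow, h1, h2, mul_div_mul_left _ _ hc]

end

section

variable {K E : Type} [Field K] [Fintype K] [CharP K 2] [Field E] [Finite E] [Algebra K E]

omit [Fintype K] [CharP K 2] in
/-- coordinates for two subspaces `G` (large), `Y` (small) -/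
theorem exists_coord (G Y : Submodule K E) :
    ∃ (ga et : Fin (finrank K G + finrank K Y) → E),
      (∀ j, ga j = 0 ∨ et j = 0) ∧
      Nat.card {j // et j = 0} = finrank K G ∧ Nat.card {j // ga j = 0} = finrank K Y ∧
      (∀ c : Fin (finrank K G + finrank K Y) → K, lin ga c = 0 → lin et c = 0 → c = 0) ∧
      (∀ c : Fin (finrank K G + finrank K Y) → K, lin ga c ∈ G ∧ lin et c ∈ Y) ∧
      (∀ g ∈ G, ∀ y ∈ Y, ∃ c : Fin (finrank K G + finrank K Y) → K, lin ga c = g ∧ lin et c = y) ∧
      G ≤ Submodule.span K (Set.range ga) ∧ Y ≤ Submodule.span K (Set.range et) := by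
  classical
  have hfd : FiniteDimensional K E := Module.Finite.of_finite
  set f := finrank K G
  set e := finrank K Y
  let bG : Basis (Fin f) K G := Module.finBasis K G
  let bY : Basis (Fin e) K Y := Module.finBasis K Y
  let ga : Fin (f + e) → E := Fin.append (fun i => (bG i : E)) (fun _ => 0)
  let et : Fin (f + e) → E := Fin.append (fun _ => 0) (fun i => (bY i : E))
  have gl : ∀ i : Fin f, ga (Fin.castAdd e i) = (bG i : E) := fun i => by
    simp [ga]
  have gr : ∀ i : Fin e, ga (Fin.natAdd f i) = 0 := fun i => by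
    simp [ga]
  have el : ∀ i : Fin f, et (Fin.castAdd e i) = 0 := fun i => by
    simp [et]
  have er : ∀ i : Fin e, et (Fin.natAdd f i) = (bY i : E) := fun i => by
    simp [et]
  have bG0 : ∀ i, (bG i : E) ≠ 0 := fun i h => bG.ne_zero i (Subtype.ext h)
  have bY0 : ∀ i, (bY i : E) ≠ 0 := fun i h => bY.ne_zero i (Subtype.ext h)
  have hga : ∀ c : Fin (f + e) → K, lin ga c =
      ((∑ i : Fin f, c (Fin.castAdd e i) • bG i : G) : E) := by
    intro c
    unfold lin
    rw [Fin.sum_univ_add]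
    simp only [gl, gr, smul_zero, Finset.sum_const_zero, add_zero]
    rw [Submodule.coe_sum]
    rfl
  have het : ∀ c : Fin (f + e) → K, lin et c =
      ((∑ i : Fin e, c (Fin.natAdd f i) • bY i : Y) : E) := by
    intro c
    unfold lin
    rw [Fin.sum_univ_add]
    simp only [el, er, smul_zero, Finset.sum_const_zero, zero_add]
    rw [Submodule.coe_sum]
    rfl
  refine ⟨ga, et, ?_, ?_, ?_, ?_, ?_, ?_, ?_, ?_⟩
  · intro j
    refine Fin.addCases (fun i => Or.inr (el i)) (fun i => Or.inl (gr i)) j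
  · have h : ∀ j, et j = 0 ↔ ∃ i, Fin.castAdd e i = j := by
      intro j
      refine Fin.addCases (fun i => ?_) (fun i => ?_) j
      · exact ⟨fun _ => ⟨i, rfl⟩, fun _ => el i⟩
      · constructor
        · intro h
          rw [er] at h
          exact absurd h (bY0 i)
        · rintro ⟨i', hi'⟩
          have := congrArg Fin.val hi'
          simp only [Fin.val_castAdd, Fin.val_natAdd] at this
          omega
    have h2 : {j | et j = 0} = Set.range (Fin.castAdd e : Fin f → Fin (f + e)) := by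
      ext j
      exact h j
    change Nat.card ({j | et j = 0} : Set _) = f
    rw [h2, Nat.card_range_of_injective (Fin.castAdd_injective f e), Nat.card_eq_fintype_card,
      Fintype.card_fin]
  · have h : ∀ j, ga j = 0 ↔ ∃ i, Fin.natAdd f i = j := by
      intro j
      refine Fin.addCases (fun i => ?_) (fun i => ?_) j
      · constructor
        · intro h
          rw [gl] at h
          exact absurd h (bG0 i)
        · rintro ⟨i', hi'⟩
          have := congrArg Fin.val hi'
          simp only [Fin.val_castAdd, Fin.val_natAdd] at this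
          omega
      · exact ⟨fun _ => ⟨i, rfl⟩, fun _ => gr i⟩
    have h2 : {j | ga j = 0} = Set.range (Fin.natAdd f : Fin e → Fin (f + e)) := by
      ext j
      exact h j
    change Nat.card ({j | ga j = 0} : Set _) = e
    rw [h2, Nat.card_range_of_injective (Fin.natAdd_injective e f), Nat.card_eq_fintype_card,
      Fintype.card_fin]
  · intro c h1 h2
    rw [hga] at h1
    rw [het] at h2
    have h1' : ∑ i : Fin f, c (Fin.castAdd e i) • bG i = 0 := Subtype.ext h1
    have h2' : ∑ i : Fin e, c (Fin.natAdd f i) • bY i = 0 := Subtype.ext h2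
    have h3 := Fintype.linearIndependent_iff.1 bG.linearIndependent _ h1'
    have h4 := Fintype.linearIndependent_iff.1 bY.linearIndependent _ h2'
    funext j
    exact Fin.addCases (fun i => h3 i) (fun i => h4 i) j
  · intro c
    rw [hga, het]
    exact ⟨SetLike.coe_mem _, SetLike.coe_mem _⟩
  · intro g hg y hy
    refine ⟨Fin.append (bG.repr ⟨g, hg⟩) (bY.repr ⟨y, hy⟩), ?_, ?_⟩
    · rw [hga]
      simp only [Fin.append_left]
      rw [bG.sum_repr]
    · rw [het]
      simp only [Fin.append_right]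
      rw [bY.sum_repr]
  · intro g hg
    have h := bG.sum_repr ⟨g, hg⟩
    have h2 := congrArg (Submodule.subtype G) h
    rw [map_sum] at h2
    change _ = g at h2
    rw [← h2]
    refine Submodule.sum_mem _ fun i _ => ?_
    rw [map_smul]
    refine Submodule.smul_mem _ _ (Submodule.subset_span ⟨Fin.castAdd e i, gl i⟩)
  · intro y hy
    have h := bY.sum_repr ⟨y, hy⟩
    have h2 := congrArg (Submodule.subtype Y) h
    rw [map_sum] at h2
    change _ = y at h2
    rw [← h2]
    refine Submodule.sum_mem _ fun i _ => ?_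
    rw [map_smul]
    refine Submodule.smul_mem _ _ (Submodule.subset_span ⟨Fin.natAdd f i, er i⟩)

/-- the pair: `G` large (dimension `f`), `Y` small (dimension `e`) -/
theorem exists_pair {a : ℕ} (hm : finrank K E = 2 ^ a) (hK : Fintype.card K = 2)
    (G Y : Submodule K E)
    (hGY : finrank K G = finrank K Y) (h2 : 2 * finrank K Y ≤ 2 ^ a) (hY : Y ≠ ⊥)
    (hp : ∀ g ∈ G, g ≠ 0 → ∃ y ∈ Y, Algebra.trace K E (g * y) ≠ 0)
    (hii : ∀ b : E, b ≠ 0 → (∃ g ∈ G, ∃ y ∈ Y, g + b ^ 2 * y = b) →
      ∃ y ∈ Y, y ≠ 0 ∧ b ^ 2 * y ∈ G) :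
    ∃ (N f e : ℕ) (ga et : Fin N → E), Pair1 K ga et f e ∧ 1 ≤ e ∧ e ≤ f ∧ 2 * f ≤ 2 ^ a ∧
      (∀ (k d : ℕ) (c : E), 0 < d → d < 2 ^ a → ∃ i, ga i ^ 2 ^ (k + d) ≠ c * ga i ^ 2 ^ k) ∧
      (e = 1 ∨
        ∀ (k d : ℕ) (c : E), 0 < d → d < 2 ^ a → ∃ i, et i ^ 2 ^ (k + d) ≠ c * et i ^ 2 ^ k) := by
  classical
  have hch : CharP E 2 := charP_of_injective_algebraMap (algebraMap K E).injective 2
  have hfd : FiniteDimensional K E := Module.Finite.of_finite
  obtain ⟨Z, hZG, hZ, hZii, hZsub, hYsub, b, hb, y0, hy0, hy00, hby0, huniq⟩ :=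
    reduction3 hm G Y hGY h2 hY hp hii
  rw [hK] at hZsub hYsub
  obtain ⟨ga, et, hzero, hcf, hce, hind, hmem, hsurj, hsg, hse⟩ := exists_coord Y Z
  have hZpos : 1 ≤ finrank K Z := by
    rw [Nat.one_le_iff_ne_zero]
    intro h
    exact hZ (Submodule.finrank_eq_zero.1 h)
  have hZle : finrank K Z ≤ finrank K Y := by
    rw [← hGY]
    exact Submodule.finrank_mono hZG
  refine ⟨_, finrank K Y, finrank K Z, ga, et, ⟨hzero, hcf, hce, rfl, hind, ?_, ?_, ?_⟩, hZpos,
    hZle, h2, ?_, ?_⟩
  · intro c hc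
    obtain ⟨y, hy, htr⟩ := hp _ (hZG (hmem c).2) hc
    obtain ⟨d, hd, -⟩ := hsurj y hy 0 Z.zero_mem
    refine ⟨d, ?_⟩
    rw [hd, mul_comm]
    exact htr
  · rintro a' ⟨ha, c, hc⟩
    have h1 : lin et c + a'⁻¹ ^ 2 * lin ga c = a'⁻¹ := by
      have h3 : a'⁻¹ ^ 2 * (lin ga c + a' ^ 2 * lin et c) = a'⁻¹ ^ 2 * a' := by rw [hc]
      have h4 : a'⁻¹ ^ 2 * a' = a'⁻¹ := by
        field_simp
      have h5 : a'⁻¹ ^ 2 * (lin ga c + a' ^ 2 * lin et c) =
          lin et c + a'⁻¹ ^ 2 * lin ga c := by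
        field_simp
        ring
      rw [← h5, h3, h4]
    obtain ⟨y', hy', hy'0, hy'Z⟩ := hZii a'⁻¹ (inv_ne_zero ha)
      ⟨_, (hmem c).2, _, (hmem c).1, h1⟩
    obtain ⟨c', hc'1, hc'2⟩ := hsurj y' hy' _ hy'Z
    have h6 : c' ∈ Dsub K ga et (a' ^ 2) := by
      change lin ga c' = a' ^ 2 * lin et c'
      rw [hc'1, hc'2]
      field_simp
    have h7 : Dsub K ga et (a' ^ 2) ≠ ⊥ := by
      intro h
      rw [h] at h6
      rw [(Submodule.mem_bot K).1 h6, lin_zero] at hc'1
      exact hy'0 hc'1.symm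
    unfold wt
    rw [Nat.one_le_iff_ne_zero]
    intro h
    exact h7 (Submodule.finrank_eq_zero.1 h)
  · refine ⟨b⁻¹, inv_ne_zero hb, ?_⟩
    obtain ⟨c0, hc01, hc02⟩ := hsurj y0 hy0 _ hby0
    have hc0 : c0 ≠ 0 := by
      rintro rfl
      rw [lin_zero] at hc01
      exact hy00 hc01.symm
    have hD : Dsub K ga et (b⁻¹ ^ 2) = Submodule.span K {c0} := by
      ext c
      rw [Submodule.mem_span_singleton]
      change lin ga c = b⁻¹ ^ 2 * lin et c ↔ _
      constructor
      · intro h
        have h3 : lin et c = b ^ 2 * lin ga c := by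
          rw [h]
          field_simp
        obtain ⟨k, hk⟩ := huniq _ (hmem c).1 (by rw [← h3]; exact (hmem c).2)
        refine ⟨k, ?_⟩
        have h4 := hind (c - k • c0) (by
          rw [lin_sub, lin_smul, hc01, hk, sub_self]) (by
          rw [lin_sub, lin_smul, hc02, h3, hk, mul_smul_comm, sub_self])
        exact (sub_eq_zero.1 h4).symm
      · rintro ⟨k, rfl⟩
        rw [lin_smul, lin_smul, hc01, hc02, mul_smul_comm]
        congr 1
        field_simp
    unfold wt
    rw [hD, finrank_span_singleton hc0]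
  · intro k d c hd hd2
    exact hYsub.not_prop hK ga hsg k d hd hd2 c
  · rcases hZsub with h | h
    · exact Or.inl h
    · exact Or.inr fun k d c hd hd2 => h.not_prop hK et hse k d hd hd2 c

end

end Pool.Agent.Lib.CPlane.S2
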