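import Pool.Agent.Lib.CPlane.P2B2
import Pool.Agent.Lib.CPlane.P2IdC
import Pool.Agent.Lib.CPlane.P2E
import Pool.Agent.Lib.CPlane.M0VAL
import Pool.Agent.Lib.CPlane.M0DER
import Pool.Agent.Lib.CPlane.S2Pair

/-!
# Kernel of order two: the identity (C) on the curve, weight one points are vertices, (L1)
-/

namespace Pool.Agent.Lib.CPlane.S2

open Finset Module Pool.Agent.Lib.CPlane.P2

/-- the matrix of `Tr (g y)` -/
noncomputable def tr0 (K : Type) {E : Type} [Field K] [Field E] [Algebra K E] {N : ℕ}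
    (ga et : Fin N → E) : Matrix (Fin N) (Fin N) K :=
  Matrix.of fun i j => Algebra.trace K E (ga i * et j)

section

variable {K E : Type} [Field K] [Fintype K] [CharP K 2] [Field E] [Finite E] [Algebra K E]
  {n : ℕ}

theorem curveC (hK : Fintype.card K = 2) (ga et : Fin (n + 2) → E)
    (hind : ∀ c : Fin (n + 2) → K, lin ga c = 0 → lin et c = 0 → c = 0)
    (h4 : ∀ b : E, (∃ c : Fin (n + 2) → K, lin ga c + b ^ 2 * lin et c = b) →
      ∃ c : Fin (n + 2) → K, c ≠ 0 ∧ lin ga c + b ^ 2 * lin et c = 0) :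
    Qf (((tr0 K ga et).map (algebraMap K E)).map Polynomial.C) (Uv ga et) =
      ∑ k : Fin (n + 1), (bmin (((tr0 K ga et).map (algebraMap K E)).map Polynomial.C)
        (RT ga et) k) ^ 2 * Polynomial.X ^ 2 ^ (k : ℕ) := by
  classical
  have hch : CharP E 2 := charP_of_injective_algebraMap (algebraMap K E).injective 2
  have hK1 : Fintype.card K = 2 ^ 1 := by rw [hK, pow_one]
  have hl' : ∀ c : Fin (n + 2) → K, lin (P2.lp ga et) c = 0 → c = 0 := by
    intro c hc
    rw [lin_lp] at hc
    have h0 := congrArg (fun p => Polynomial.coeff p 0) hc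
    have h2 := congrArg (fun p => Polynomial.coeff p 2) hc
    simp only [Polynomial.coeff_add, Polynomial.coeff_C_zero, Polynomial.coeff_mul_C,
      Polynomial.coeff_X_pow, Polynomial.coeff_zero] at h0 h2
    refine hind c ?_ ?_
    · simpa using h0
    · simpa [Polynomial.coeff_C] using h2
  have hsq := deriv_prod le_rfl hK1 ga et (tr0 K ga et) (fun i j => rfl) h4
  have hC := identityC le_rfl hK1 ga et hl' (tr0 K ga et) hsq
  have hmap : (tr0 K ga et).map (algebraMap K (Polynomial E)) =
      ((tr0 K ga et).map (algebraMap K E)).map Polynomial.C := by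
    ext1 i j
    rfl
  rw [hmap] at hC
  apply Polynomial.expand_injective (R := E) (n := 2) (by norm_num)
  set f : Polynomial E →+* Polynomial E := (Polynomial.expand E 2).toRingHom with hf
  have hfX : f Polynomial.X = Polynomial.X ^ 2 := Polynomial.expand_X 2
  have hfC : ∀ e, f (Polynomial.C e) = Polynomial.C e := fun e => Polynomial.expand_C 2 e
  have hτ : (((tr0 K ga et).map (algebraMap K E)).map Polynomial.C).map f =
      ((tr0 K ga et).map (algebraMap K E)).map Polynomial.C := by
    ext1 i j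
    simp only [Matrix.map_apply, hfC]
  have hR : (RT ga et).map f = RM (n + 1) (2 ^ 1) (P2.lp ga et) := by
    ext1 k j
    simp only [Matrix.map_apply, RT, RM, Matrix.of_apply, P2.lp]
    rw [map_add, map_mul, hfC, hfC, map_pow f Polynomial.X, hfX, pow_one, add_pow_char_pow,
      mul_pow, Polynomial.C_pow, Polynomial.C_pow]
  change f _ = f _
  rw [Qf_map, map_sum, hτ]
  simp only [map_mul, map_pow, hfX, bmin_map, hτ, hR, Uv, Umin_map]
  rw [show (fun i => Umin (RM (n + 1) (2 ^ 1) (P2.lp ga et)) i) =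
    Umin (RM (n + 1) (2 ^ 1) (P2.lp ga et)) from rfl, hC]
  refine Finset.sum_congr rfl fun k _ => ?_
  rw [pow_one]

omit [Finite E] in
/-- a linearized polynomial of small degree with values in `κ F_2` on a large space is zero -/
theorem lin_poly_zero (hK : Fintype.card K = 2) {M r : ℕ} (hr : r < M) (l : Fin M → E)
    (hl : ∀ c : Fin M → K, lin l c = 0 → c = 0) (b : Fin r → E) {κ : E} (hκ : κ ≠ 0)
    (h : ∀ c : Fin M → K, ∃ t : K, ∑ k : Fin r, b k * (lin l c) ^ 2 ^ (k : ℕ) =
      κ * algebraMap K E t) : ∀ k, b k = 0 := by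
  classical
  have hch : CharP E 2 := charP_of_injective_algebraMap (algebraMap K E).injective 2
  have hchX : CharP (Polynomial E) 2 := inferInstance
  set p : Polynomial E := ∑ k : Fin r, Polynomial.C (b k) * Polynomial.X ^ 2 ^ (k : ℕ) with hp
  have hpe : ∀ x, p.eval x = ∑ k : Fin r, b k * x ^ 2 ^ (k : ℕ) := by
    intro x
    rw [hp, Polynomial.eval_finsetSum]
    refine Finset.sum_congr rfl fun k _ => ?_
    rw [Polynomial.eval_mul, Polynomial.eval_C, Polynomial.eval_pow, Polynomial.eval_X]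
  have hpdeg : 2 * p.natDegree ≤ 2 ^ r := by
    rcases r with _ | r
    · rw [hp, Fin.sum_univ_zero, Polynomial.natDegree_zero]
      simp
    · have h1 : p.natDegree ≤ 2 ^ r := by
        rw [hp]
        refine Polynomial.natDegree_sum_le_of_forall_le _ _ fun k _ => ?_
        refine (Polynomial.natDegree_C_mul_X_pow_le _ _).trans ?_
        exact Nat.pow_le_pow_right (by norm_num) (Nat.lt_succ_iff.1 k.2)
      rw [pow_succ]
      omega
  set q : Polynomial E := p * (p + Polynomial.C κ) with hq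
  have hqdeg : q.natDegree ≤ 2 ^ r := by
    rw [hq]
    refine Polynomial.natDegree_mul_le.trans ?_
    have h1 : (p + Polynomial.C κ).natDegree ≤ p.natDegree := by
      refine (Polynomial.natDegree_add_le _ _).trans ?_
      rw [Polynomial.natDegree_C]
      exact max_le le_rfl (Nat.zero_le _)
    omega
  have hK2 : ∀ t : K, t * (t + 1) = 0 := by
    intro t
    have h1 := FiniteField.pow_card t
    rw [hK] at h1
    rw [mul_add, mul_one, ← pow_two, h1]
    exact CharTwo.add_self_eq_zero t
  have hq0 : q = 0 := by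
    refine Polynomial.eq_zero_of_natDegree_lt_card_of_eval_eq_zero' q
      (univ.image (lin (K := K) l)) ?_ ?_
    · intro x hx
      obtain ⟨c, _, rfl⟩ := Finset.mem_image.1 hx
      obtain ⟨t, ht⟩ := h c
      rw [hq, Polynomial.eval_mul, Polynomial.eval_add, Polynomial.eval_C, hpe, ht]
      have h2 : κ * algebraMap K E t * (κ * algebraMap K E t + κ) =
          κ ^ 2 * algebraMap K E (t * (t + 1)) := by
        rw [map_mul, map_add, map_one]
        ring
      rw [h2, hK2, map_zero, mul_zero]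
    · rw [Finset.card_image_of_injective _ (lin_injective l hl), Finset.card_univ,
        Fintype.card_fun, hK, Fintype.card_fin]
      exact lt_of_le_of_lt hqdeg (Nat.pow_lt_pow_right (by norm_num) hr)
  have hp0 : p = 0 := by
    rcases mul_eq_zero.1 hq0 with h1 | h1
    · exact h1
    · exfalso
      have h2 := congrArg (fun P => Polynomial.coeff P 0) h1
      simp only [Polynomial.coeff_add, Polynomial.coeff_C_zero, Polynomial.coeff_zero] at h2
      have h3 : p.coeff 0 = 0 := by
        rw [Polynomial.coeff_zero_eq_eval_zero, hpe]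
        refine Finset.sum_eq_zero fun k _ => ?_
        rw [zero_pow (pow_ne_zero _ two_ne_zero), mul_zero]
      rw [h3, zero_add] at h2
      exact hκ h2
  intro k
  have h2 := congrArg (fun P => Polynomial.coeff P (2 ^ (k : ℕ))) hp0
  simp only [hp, Polynomial.finsetSum_coeff, Polynomial.coeff_C_mul, Polynomial.coeff_X_pow,
    Polynomial.coeff_zero] at h2
  rw [Finset.sum_eq_single k] at h2
  · simpa using h2
  · intro j _ hj
    rw [if_neg, mul_zero]
    intro h3
    exact hj (Fin.ext (Nat.pow_right_injective le_rfl h3.symm))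
  · intro h3
    exact absurd (Finset.mem_univ k) h3

omit [Finite E] in
/-- the data at a point of weight one -/
theorem wt_one (hK : Fintype.card K = 2) (ga et : Fin (n + 2) → E)
    (hind : ∀ c : Fin (n + 2) → K, lin ga c = 0 → lin et c = 0 → c = 0) (τ : E)
    (hwt : wt K ga et τ = 1) :
    ∃ (c0 : Fin (n + 2) → K) (κ : E) (l : Fin (n + 1) → E), lin ga c0 = τ * lin et c0 ∧
      lin et c0 ≠ 0 ∧ κ ≠ 0 ∧
      (∀ j, Umin (RM (n + 1) (2 ^ 1) (VALx.lv ga et τ)) j = κ * algebraMap K E (c0 j)) ∧
      (∀ c : Fin (n + 1) → K, lin l c = 0 → c = 0) ∧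
      (∀ c : Fin (n + 1) → K, ∃ v : Fin (n + 2) → K, lin ga v + τ * lin et v = lin l c) := by
  have hch : CharP E 2 := charP_of_injective_algebraMap (algebraMap K E).injective 2
  obtain ⟨⟨c0, hc0m⟩, hc0ne, hc0s⟩ := finrank_eq_one_iff'.1 hwt
  have hc0 : c0 ≠ 0 := fun h => hc0ne (Subtype.ext h)
  have h0 : lin ga c0 = τ * lin et c0 := hc0m
  have h1 : ∀ c : Fin (n + 2) → K, lin ga c = τ * lin et c → ∃ k : K, k • c0 = c := by
    intro c hc
    obtain ⟨k, hk⟩ := hc0s ⟨c, hc⟩
    exact ⟨k, congrArg Subtype.val hk⟩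
  obtain ⟨κ, hκ, hU⟩ := VALx.U_eq hK ga et τ c0 hc0 h0 h1
  have hθ : lin et c0 ≠ 0 := by
    intro h
    apply hc0
    exact hind c0 (by rw [h0, h, mul_zero]) h
  obtain ⟨j0, hj0⟩ : ∃ j, c0 j ≠ 0 := by
    by_contra h
    push Not at h
    exact hc0 (funext h)
  have hins : ∀ c : Fin (n + 1) → K, lin (VALx.lv ga et τ) (j0.insertNth 0 c : Fin (n + 2) → K) =
      lin (fun i => VALx.lv ga et τ (j0.succAbove i)) c := by
    intro c
    unfold lin
    rw [Fin.sum_univ_succAbove _ j0, Fin.insertNth_apply_same, zero_smul, zero_add]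
    simp only [Fin.insertNth_apply_succAbove]
  refine ⟨c0, κ, fun i => VALx.lv ga et τ (j0.succAbove i), h0, hθ, hκ, hU, ?_, ?_⟩
  · intro c hc
    have e1 := hins c
    rw [hc, VALx.lin_lv, CharTwo.add_eq_zero] at e1
    obtain ⟨k, hk⟩ := h1 _ e1
    have e2 := congrFun hk j0
    rw [Pi.smul_apply, smul_eq_mul, Fin.insertNth_apply_same] at e2
    have e3 : k = 0 := (mul_eq_zero.1 e2).resolve_right hj0
    funext i
    have e4 := congrFun hk (j0.succAbove i)
    rw [e3, zero_smul, Fin.insertNth_apply_succAbove] at e4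
    exact e4.symm
  · intro c
    exact ⟨j0.insertNth 0 c, by rw [← VALx.lin_lv, hins]⟩

omit [Finite E] in
/-- the linearized polynomial of `Tr (θ .)` at a point of weight one -/
theorem local_form (hK : Fintype.card K = 2) (ga et : Fin (n + 2) → E) (τ : E)
    (c0 : Fin (n + 2) → K) (κ : E) (h0 : lin ga c0 = τ * lin et c0)
    (hU : ∀ j, Umin (RM (n + 1) (2 ^ 1) (VALx.lv ga et τ)) j = κ * algebraMap K E (c0 j))
    (v : Fin (n + 2) → K) :
    ∑ k : Fin (n + 1), bmin ((tr0 K ga et).map (algebraMap K E))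
      (RM (n + 1) (2 ^ 1) (VALx.lv ga et τ)) k * (lin ga v + τ * lin et v) ^ 2 ^ (k : ℕ) =
    κ * algebraMap K E (Algebra.trace K E (lin et c0 * (lin ga v + τ * lin et v))) := by
  have hch : CharP E 2 := charP_of_injective_algebraMap (algebraMap K E).injective 2
  have hK1 : Fintype.card K = 2 ^ 1 := by rw [hK, pow_one]
  set σ : Matrix (Fin (n + 2)) (Fin (n + 2)) E := (tr0 K ga et).map (algebraMap K E) with hσ
  set ve : Fin (n + 2) → E := fun j => algebraMap K E (v j) with hve
  have e1 := Bf_Umin σ (RM (n + 1) (2 ^ 1) (VALx.lv ga et τ)) ve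
  have e2 : ∀ k : Fin (n + 1), ∑ i, RM (n + 1) (2 ^ 1) (VALx.lv ga et τ) k i * ve i =
      (lin ga v + τ * lin et v) ^ 2 ^ (k : ℕ) := by
    intro k
    have e := P2.lin_pow hK1 (VALx.lv ga et τ) v (k : ℕ)
    rw [VALx.lin_lv] at e
    have e' : (lin ga v + τ * lin et v) ^ 2 ^ (k : ℕ) =
        (lin ga v + τ * lin et v) ^ (2 ^ 1) ^ (k : ℕ) := by rw [pow_one]
    rw [e', e]
    refine Finset.sum_congr rfl fun j _ => ?_
    rw [RM, Matrix.of_apply, Algebra.smul_def, mul_comm]
  simp only [e2] at e1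
  rw [← e1]
  have e3 : ∀ x y : Fin (n + 2) → K, ∑ i, ∑ j, σ i j * (algebraMap K E (x i) *
      algebraMap K E (y j)) = algebraMap K E (Algebra.trace K E (lin ga x * lin et y)) := by
    intro x y
    unfold lin
    rw [Finset.sum_mul_sum, map_sum, map_sum]
    refine Finset.sum_congr rfl fun i _ => ?_
    rw [map_sum, map_sum]
    refine Finset.sum_congr rfl fun j _ => ?_
    rw [smul_mul_smul_comm, map_smul, smul_eq_mul, map_mul, map_mul, hσ, Matrix.map_apply, tr0,
      Matrix.of_apply]
    ring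
  have e4 : Bf σ (Umin (RM (n + 1) (2 ^ 1) (VALx.lv ga et τ))) ve =
      κ * (algebraMap K E (Algebra.trace K E (lin ga c0 * lin et v)) +
        algebraMap K E (Algebra.trace K E (lin ga v * lin et c0))) := by
    rw [← e3, ← e3, Bf, ← Finset.sum_add_distrib, Finset.mul_sum]
    refine Finset.sum_congr rfl fun i _ => ?_
    rw [← Finset.sum_add_distrib, Finset.mul_sum]
    refine Finset.sum_congr rfl fun j _ => ?_
    rw [hU, hU, hve]
    ring
  rw [e4, ← map_add, ← map_add, h0]
  congr 3
  ring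

/-- the identity (C) at a point `τ = a²` of weight one -/
theorem local_C (hK : Fintype.card K = 2) (ga et : Fin (n + 2) → E)
    (hind : ∀ c : Fin (n + 2) → K, lin ga c = 0 → lin et c = 0 → c = 0)
    (h4 : ∀ b : E, (∃ c : Fin (n + 2) → K, lin ga c + b ^ 2 * lin et c = b) →
      ∃ c : Fin (n + 2) → K, c ≠ 0 ∧ lin ga c + b ^ 2 * lin et c = 0) (a : E)
    (c0 : Fin (n + 2) → K) (κ : E) (h0 : lin ga c0 = a ^ 2 * lin et c0)
    (hU : ∀ j, Umin (RM (n + 1) (2 ^ 1) (VALx.lv ga et (a ^ 2))) j = κ * algebraMap K E (c0 j)) :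
    ∑ k : Fin (n + 1), bmin ((tr0 K ga et).map (algebraMap K E))
      (RM (n + 1) (2 ^ 1) (VALx.lv ga et (a ^ 2))) k * a ^ 2 ^ (k : ℕ) =
    κ * algebraMap K E (Algebra.trace K E (a * lin et c0)) := by
  have hch : CharP E 2 := charP_of_injective_algebraMap (algebraMap K E).injective 2
  have hK1 : Fintype.card K = 2 ^ 1 := by rw [hK, pow_one]
  have hC := congrArg (Polynomial.evalRingHom (a ^ 2)) (curveC hK ga et hind h4)
  set σ : Matrix (Fin (n + 2)) (Fin (n + 2)) E := (tr0 K ga et).map (algebraMap K E) with hσ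
  have hσm : (σ.map Polynomial.C).map (Polynomial.evalRingHom (a ^ 2)) = σ := by
    ext1 i j
    simp only [Matrix.map_apply, Polynomial.coe_evalRingHom, Polynomial.eval_C]
  have hbm : ∀ k, (bmin (σ.map Polynomial.C) (RT ga et) k).eval (a ^ 2) =
      bmin σ (RM (n + 1) (2 ^ 1) (VALx.lv ga et (a ^ 2))) k := by
    intro k
    have h := bmin_map (Polynomial.evalRingHom (a ^ 2)) (σ.map Polynomial.C) (RT ga et) k
    rw [hσm, VALx.eval_RT] at h
    exact h
  rw [Qf_map, map_sum, hσm] at hC
  simp only [map_mul, map_pow, Polynomial.coe_evalRingHom, Polynomial.eval_X, VALx.eval_Uv, hU,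
    hbm] at hC
  have e1 : Qf σ (fun i => κ * algebraMap K E (c0 i)) =
      κ ^ 2 * algebraMap K E (Algebra.trace K E (lin ga c0 * lin et c0)) := by
    unfold lin Qf
    rw [Finset.sum_mul_sum, map_sum, map_sum, Finset.mul_sum]
    refine Finset.sum_congr rfl fun i _ => ?_
    rw [map_sum, map_sum, Finset.mul_sum]
    refine Finset.sum_congr rfl fun j _ => ?_
    rw [smul_mul_smul_comm, map_smul, smul_eq_mul, map_mul, map_mul, hσ, Matrix.map_apply, tr0,
      Matrix.of_apply]
    ring
  have e2 : Algebra.trace K E (lin ga c0 * lin et c0) =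
      (Algebra.trace K E (a * lin et c0)) ^ 2 := by
    have h1 := trace_sq_add_self hK1 (a * lin et c0)
    rw [Finset.sum_range_one, pow_zero, pow_one, map_add, CharTwo.add_eq_zero] at h1
    have h2 := FiniteField.pow_card (Algebra.trace K E (a * lin et c0))
    rw [hK] at h2
    rw [h2, ← h1, h0]
    congr 1
    ring
  have e3 : ∀ x y : E, x ^ 2 = y ^ 2 → x = y := fun x y h => frobenius_inj E 2 h
  apply e3
  rw [CharTwo.sum_sq, mul_pow, ← map_pow, ← e2, ← e1, hC]
  refine Finset.sum_congr rfl fun k _ => ?_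
  rw [mul_pow]
  ring

/-- (WV) points of weight one are vertices -/
theorem wv (hK : Fintype.card K = 2) (ga et : Fin (n + 2) → E)
    (hind : ∀ c : Fin (n + 2) → K, lin ga c = 0 → lin et c = 0 → c = 0)
    (htr : ∀ c : Fin (n + 2) → K, lin et c ≠ 0 → ∃ d : Fin (n + 2) → K,
      Algebra.trace K E (lin ga d * lin et c) ≠ 0)
    (hsurj : ∀ d : Fin (n + 2) → K, ∃ d' : Fin (n + 2) → K, lin ga d' = lin ga d ∧ lin et d' = 0)
    (h4 : ∀ b : E, (∃ c : Fin (n + 2) → K, lin ga c + b ^ 2 * lin et c = b) →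
      ∃ c : Fin (n + 2) → K, c ≠ 0 ∧ lin ga c + b ^ 2 * lin et c = 0) (a : E) (ha : a ≠ 0)
    (hwt : wt K ga et (a ^ 2) = 1) : IsVx K ga et a := by
  classical
  have hch : CharP E 2 := charP_of_injective_algebraMap (algebraMap K E).injective 2
  obtain ⟨c0, κ, l, h0, hθ, hκ, hU, hli, hls⟩ := wt_one hK ga et hind (a ^ 2) hwt
  have hf := local_form hK ga et (a ^ 2) c0 κ h0 hU
  have hC := local_C hK ga et hind h4 a c0 κ h0 hU
  set b : Fin (n + 1) → E := fun k => bmin ((tr0 K ga et).map (algebraMap K E))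
      (RM (n + 1) (2 ^ 1) (VALx.lv ga et (a ^ 2))) k with hb
  by_contra hnv
  have hno : ∀ v : Fin (n + 2) → K, lin ga v + a ^ 2 * lin et v ≠ a := fun v h => hnv ⟨ha, v, h⟩
  have hz : ∀ k, b k = 0 := by
    refine lin_poly_zero hK (M := n + 2) (r := n + 1) (by omega) (Fin.cons a l) ?_ b hκ ?_
    · intro c hc
      have h1 : lin (Fin.cons a l : Fin (n + 2) → E) c = c 0 • a + lin l (fun i => c i.succ) := by
        unfold lin
        rw [Fin.sum_univ_succ]
        simp only [Fin.cons_zero, Fin.cons_succ]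
      rw [h1] at hc
      by_cases hc0 : c 0 = 0
      · rw [hc0, zero_smul, zero_add] at hc
        have h2 := hli _ hc
        funext i
        refine Fin.cases hc0 (fun i => ?_) i
        exact congrFun h2 i
      · exfalso
        obtain ⟨v, hv⟩ := hls (fun i => (c 0)⁻¹ * c i.succ)
        refine hno v ?_
        rw [hv]
        have h3 : lin l (fun i => (c 0)⁻¹ * c i.succ) = (c 0)⁻¹ • lin l (fun i => c i.succ) := by
          rw [← lin_smul]
          rfl
        have h4 : lin l (fun i => c i.succ) = c 0 • a := by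
          rw [← CharTwo.add_eq_zero, add_comm]
          exact hc
        rw [h3, h4, smul_smul, inv_mul_cancel₀ hc0, one_smul]
    · intro c
      have h1 : lin (Fin.cons a l : Fin (n + 2) → E) c = c 0 • a + lin l (fun i => c i.succ) := by
        unfold lin
        rw [Fin.sum_univ_succ]
        simp only [Fin.cons_zero, Fin.cons_succ]
      obtain ⟨v, hv⟩ := hls (fun i => c i.succ)
      refine ⟨c 0 * Algebra.trace K E (a * lin et c0) +
        Algebra.trace K E (lin et c0 * (lin ga v + a ^ 2 * lin et v)), ?_⟩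
      rw [map_add, map_mul, mul_add, ← hf v, mul_left_comm, ← hC, h1, ← hv, Finset.mul_sum,
        ← Finset.sum_add_distrib]
      refine Finset.sum_congr rfl fun k _ => ?_
      have h5 : (c 0) ^ 2 ^ (k : ℕ) = c 0 := by
        have h6 : (c 0) ^ 2 = c 0 := by
          have := FiniteField.pow_card (c 0)
          rwa [hK] at this
        generalize (k : ℕ) = m
        induction m with
        | zero => simp
        | succ m ih => rw [pow_succ, pow_mul, ih, h6]
      rw [add_pow_char_pow, Algebra.smul_def, mul_pow, ← map_pow, h5]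
      ring
  obtain ⟨d, hd⟩ := htr c0 hθ
  obtain ⟨d', hd'1, hd'2⟩ := hsurj d
  have h6 := hf d'
  rw [hd'1, hd'2, mul_zero, add_zero] at h6
  have h7 : ∑ k : Fin (n + 1), b k * (lin ga d) ^ 2 ^ (k : ℕ) = 0 :=
    Finset.sum_eq_zero fun k _ => by rw [hz k, zero_mul]
  rw [h7] at h6
  have h8 := (mul_eq_zero.1 h6.symm).resolve_left hκ
  rw [map_eq_zero_iff _ (algebraMap K E).injective, mul_comm] at h8
  exact hd h8

end

end Pool.Agent.Lib.CPlane.S2
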