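import Pool.Agent.Lib.CPlane.S2L1
import Pool.Agent.Lib.CPlane.S2Stat
import Pool.Agent.Lib.CPlane.S2Digits
import Pool.Agent.Lib.CPlane.Digits

/-!
# Kernel of order two: (L1) for all windows
-/

namespace Pool.Agent.Lib.CPlane.S2

open Finset Module Pool.Agent.Lib.CPlane.P2

section dd

variable {A : Type} [CommRing A] {n : ℕ}

/-- `bmin` of a tensor of rank one -/
theorem bmin_tensor [CharP A 2] (u v : Fin (n + 2) → A) (R : Matrix (Fin (n + 1)) (Fin (n + 2)) A) :
    bmin (Matrix.of fun i j => u i * v j) R 0 = dd u v (fun i => R i.succ) := by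
  have h1 : ∀ i : Fin (n + 2), ∑ j, v j * (cm R i).adjugate j (Fin.succ 0) =
      Umin (R.updateRow 0 v) i := by
    intro i
    have h := Matrix.cramer_transpose_apply (cm R i) v (Fin.succ 0)
    rw [Matrix.cramer_eq_adjugate_mulVec, ← Matrix.adjugate_transpose] at h
    have h2 : ((cm R i).adjugate.transpose.mulVec v) (Fin.succ 0) =
        ∑ j, v j * (cm R i).adjugate j (Fin.succ 0) := by
      rw [Matrix.mulVec, dotProduct]
      exact Finset.sum_congr rfl fun j _ => mul_comm _ _
    rw [← h2, h, ← det_cm]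
    congr 1
    ext a b
    refine Fin.cases ?_ (fun a => ?_) a
    · rw [Matrix.updateRow_ne (Fin.succ_ne_zero 0).symm]
      rfl
    · refine Fin.cases ?_ (fun a => ?_) a
      · rw [Matrix.updateRow_self]
        change v b = (R.updateRow 0 v) 0 b
        rw [Matrix.updateRow_self]
      · rw [Matrix.updateRow_ne (fun h => Fin.succ_ne_zero a (Fin.succ_injective _ h))]
        change R a.succ b = (R.updateRow 0 v) a.succ b
        rw [Matrix.updateRow_ne (Fin.succ_ne_zero a)]
  have h3 : bmin (Matrix.of fun i j => u i * v j) R 0 =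
      ∑ i, u i * Umin (R.updateRow 0 v) i := by
    unfold bmin
    refine Finset.sum_congr rfl fun i _ => ?_
    rw [← h1, Finset.mul_sum]
    refine Finset.sum_congr rfl fun j _ => ?_
    rw [Matrix.of_apply]
    ring
  rw [h3, ← det_cmat]
  unfold dd
  congr 1
  ext a b
  refine Fin.cases ?_ (fun a => ?_) a
  · rfl
  · refine Fin.cases ?_ (fun a => ?_) a
    · change (R.updateRow 0 v) 0 b = v b
      rw [Matrix.updateRow_self]
    · change (R.updateRow 0 v) a.succ b = R a.succ b
      rw [Matrix.updateRow_ne (Fin.succ_ne_zero a)]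

theorem bmin_sum {ι : Type} (S : Finset ι) (τ : ι → Matrix (Fin (n + 1)) (Fin (n + 1)) A)
    (R : Matrix (Fin n) (Fin (n + 1)) A) (k : Fin n) :
    bmin (∑ s ∈ S, τ s) R k = ∑ s ∈ S, bmin (τ s) R k := by
  classical
  simp only [bmin, Matrix.sum_apply, Finset.sum_mul]
  rw [Finset.sum_comm (s := S)]
  refine Finset.sum_congr rfl fun i _ => ?_
  rw [Finset.sum_comm (s := S)]

theorem dd_map {B : Type} [CommRing B] (f : A →+* B) (u v : Fin (n + 2) → A)
    (R : Fin n → Fin (n + 2) → A) :
    f (dd u v R) = dd (fun j => f (u j)) (fun j => f (v j)) (fun i j => f (R i j)) := by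
  unfold dd
  rw [RingHom.map_det]
  congr 1
  ext a b
  refine Fin.cases ?_ (fun a => ?_) a
  · rfl
  · refine Fin.cases ?_ (fun a => ?_) a
    · rfl
    · rfl

theorem dd_swap [CharP A 2] (u v : Fin (n + 2) → A) (R : Fin n → Fin (n + 2) → A) :
    dd u v R = dd v u R := by
  unfold dd
  have h := Matrix.det_permute (Equiv.swap (0 : Fin (n + 2)) 1)
    (Matrix.of (Fin.cons u (Fin.cons v R) : Fin (n + 2) → Fin (n + 2) → A))
  rw [Equiv.Perm.sign_swap (by exact Fin.zero_ne_one)] at h
  have h2 : ((Matrix.of (Fin.cons u (Fin.cons v R) : Fin (n + 2) → Fin (n + 2) → A)).submatrix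
      (Equiv.swap (0 : Fin (n + 2)) 1) id) =
      Matrix.of (Fin.cons v (Fin.cons u R) : Fin (n + 2) → Fin (n + 2) → A) := by
    ext a b
    rw [Matrix.submatrix_apply, id]
    refine Fin.cases ?_ (fun a => ?_) a
    · rw [Equiv.swap_apply_left]
      rfl
    · refine Fin.cases ?_ (fun a => ?_) a
      · have : (Fin.succ 0 : Fin (n + 2)) = 1 := rfl
        rw [this, Equiv.swap_apply_right]
        rfl
      · have h5 : (a.succ.succ : Fin (n + 2)) ≠ 1 :=
          fun h => Fin.succ_ne_zero a (Fin.succ_injective _ h)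
        rw [Equiv.swap_apply_of_ne_of_ne (Fin.succ_ne_zero _) h5]
        rfl
  rw [h2] at h
  rw [h]
  have h3 : ((-1 : ℤˣ) : ℤ) = -1 := rfl
  rw [h3, Int.cast_neg, Int.cast_one, neg_one_mul]
  exact (CharTwo.neg_eq _).symm

end dd

/-- the derivative of (C) -/
theorem der_gen {E : Type} [Field E] [CharP E 2] {n : ℕ} (ga et : Fin (n + 2) → E)
    (σ : Matrix (Fin (n + 2)) (Fin (n + 2)) E) :
    Polynomial.derivative (Qf (σ.map Polynomial.C) (Uv ga et) + ∑ k : Fin (n + 1),
      (bmin (σ.map Polynomial.C) (RT ga et) k) ^ 2 * Polynomial.X ^ 2 ^ (k : ℕ)) =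
    bmin (σ.map Polynomial.C) (RT ga et) 0 * (yU ga et 0 +
      bmin (σ.map Polynomial.C) (RT ga et) 0) := by
  have : CharP (Polynomial E) 2 := inferInstance
  have hQ : Polynomial.derivative (Qf (σ.map Polynomial.C) (Uv ga et)) =
      Bf (σ.map Polynomial.C) (Uv ga et) (fun j => Polynomial.derivative (Uv ga et j)) := by
    simp only [Qf, Bf, Polynomial.derivative_sum, Polynomial.derivative_mul, Matrix.map_apply,
      Polynomial.derivative_C, zero_mul, zero_add]
    refine Finset.sum_congr rfl fun i _ => Finset.sum_congr rfl fun j _ => ?_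
    ring
  have hS : Polynomial.derivative (∑ j : Fin (n + 1),
      (bmin (σ.map Polynomial.C) (RT ga et) j) ^ 2 * Polynomial.X ^ 2 ^ (j : ℕ)) =
      (bmin (σ.map Polynomial.C) (RT ga et) 0) ^ 2 := by
    rw [Polynomial.derivative_sum]
    have h2 : ∀ x : Polynomial E, Polynomial.derivative (x ^ 2) = 0 := by
      intro x
      rw [pow_two, Polynomial.derivative_mul, mul_comm x]
      exact CharTwo.add_self_eq_zero _
    simp only [Polynomial.derivative_mul, h2, zero_mul, zero_add, deriv_X_pow]
    rw [Finset.sum_eq_single 0]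
    · rw [if_pos (by rfl), mul_one]
    · intro j _ hj
      rw [if_neg, mul_zero]
      intro h
      exact hj (Fin.ext h)
    · intro h
      exact absurd (Finset.mem_univ _) h
  have hB := Bf_Umin (σ.map Polynomial.C) (RT ga et)
    (fun j => Polynomial.derivative (Uv ga et j))
  rw [Polynomial.derivative_add, hQ, hS]
  unfold Uv at hB ⊢
  rw [hB]
  have h1 := RT_deriv_U ga et
  unfold Uv at h1
  simp only [h1]
  rw [Finset.sum_eq_single 0]
  · rw [if_pos rfl]
    ring
  · intro j _ hj
    rw [if_neg hj, mul_zero]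
  · intro h
    exact absurd (Finset.mem_univ _) h

/-- `y_0(U) = det (g_0, y_0, R_1, .., R_n)` -/
theorem yU_zero {E : Type} [Field E] [CharP E 2] {n : ℕ} (ga et : Fin (n + 2) → E) :
    yU ga et 0 = dd (fun j => Polynomial.C (ga j ^ 2 ^ 0)) (fun j => Polynomial.C (et j ^ 2 ^ 0))
      (fun i => RT ga et i.succ) := by
  have hch : CharP (Polynomial E) 2 := inferInstance
  have h1 : yU ga et 0 = (cmat (RT ga et) (fun j => Polynomial.C (et j ^ 2 ^ 0))).det := by
    rw [det_cmat]
    rfl
  have h2 : (cmat (RT ga et) (fun j => Polynomial.C (et j ^ 2 ^ 0))) =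
      (cmat (RT ga et) (fun j => Polynomial.C (et j ^ 2 ^ 0))).updateRow 1
        ((fun j => Polynomial.C (ga j ^ 2 ^ 0)) +
          (Polynomial.X : Polynomial E) • (fun j => Polynomial.C (et j ^ 2 ^ 0))) := by
    ext1 a b
    refine Fin.cases ?_ (fun a => ?_) a
    · rw [Matrix.updateRow_ne (by exact Fin.zero_ne_one)]
    · refine Fin.cases ?_ (fun a => ?_) a
      · have h : (Fin.succ 0 : Fin (n + 2)) = 1 := rfl
        rw [h, Matrix.updateRow_self]
        change RT ga et 0 b = _
        simp only [RT, Matrix.of_apply, Pi.add_apply, Pi.smul_apply, smul_eq_mul, Fin.val_zero,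
          pow_zero, pow_one]
      · have h5 : (a.succ.succ : Fin (n + 2)) ≠ 1 :=
          fun h => Fin.succ_ne_zero a (Fin.succ_injective _ h)
        rw [Matrix.updateRow_ne h5]
  rw [h1, h2, Matrix.det_updateRow_add, Matrix.det_updateRow_smul]
  have h3 : ((cmat (RT ga et) (fun j => Polynomial.C (et j ^ 2 ^ 0))).updateRow 1
      (fun j => Polynomial.C (et j ^ 2 ^ 0))).det = 0 := by
    refine Matrix.det_zero_of_row_eq (i := 0) (j := 1) (by exact Fin.zero_ne_one) ?_
    rw [Matrix.updateRow_self, Matrix.updateRow_ne (by exact Fin.zero_ne_one)]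
    rfl
  rw [h3, mul_zero, add_zero, dd_swap]
  unfold dd
  congr 1
  ext1 a b
  refine Fin.cases ?_ (fun a => ?_) a
  · rw [Matrix.updateRow_ne (by exact Fin.zero_ne_one)]
    rfl
  · refine Fin.cases ?_ (fun a => ?_) a
    · have h : (Fin.succ 0 : Fin (n + 2)) = 1 := rfl
      rw [h, Matrix.updateRow_self]
      rfl
    · have h5 : (a.succ.succ : Fin (n + 2)) ≠ 1 :=
        fun h => Fin.succ_ne_zero a (Fin.succ_injective _ h)
      rw [Matrix.updateRow_ne h5]
      rfl

section

variable {K E : Type} [Field K] [Fintype K] [CharP K 2] [Field E] [Finite E] [Algebra K E]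
  {n : ℕ}

omit [CharP K 2] in
/-- the trace matrix is the sum of the tensors -/
theorem tr0_eq_sum (hK : Fintype.card K = 2) {m : ℕ} (hm : finrank K E = m)
    (ga et : Fin (n + 2) → E) :
    ((tr0 K ga et).map (algebraMap K E)).map Polynomial.C = ∑ k ∈ range m, tk ga et k := by
  ext1 i j
  rw [Matrix.sum_apply]
  simp only [tk, Matrix.map_apply, Matrix.of_apply, tr0]
  rw [← map_sum, FiniteField.algebraMap_trace_eq_sum_pow, hm, Nat.card_eq_fintype_card, hK]
  congr 1
  exact Finset.sum_congr rfl fun k _ => mul_pow _ _ _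

/-- `b_0` does not vanish -/
theorem b0_ne_zero (hK : Fintype.card K = 2) (ga et : Fin (n + 2) → E)
    (hind : ∀ c : Fin (n + 2) → K, lin ga c = 0 → lin et c = 0 → c = 0)
    (htr : ∀ c : Fin (n + 2) → K, lin et c ≠ 0 → ∃ d : Fin (n + 2) → K,
      Algebra.trace K E (lin ga d * lin et c) ≠ 0)
    (hsurj : ∀ d : Fin (n + 2) → K, ∃ d' : Fin (n + 2) → K, lin ga d' = lin ga d ∧ lin et d' = 0)
    (hone : ∃ a : E, a ≠ 0 ∧ wt K ga et (a ^ 2) = 1) :
    bmin (((tr0 K ga et).map (algebraMap K E)).map Polynomial.C) (RT ga et) 0 ≠ 0 := by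
  have hch : CharP E 2 := charP_of_injective_algebraMap (algebraMap K E).injective 2
  intro h
  obtain ⟨a, ha, hwt⟩ := hone
  obtain ⟨c0, κ, l, h0, hθ, hκ, hU, hli, hls⟩ := wt_one hK ga et hind (a ^ 2) hwt
  have hf := local_form hK ga et (a ^ 2) c0 κ h0 hU
  set σ : Matrix (Fin (n + 2)) (Fin (n + 2)) E := (tr0 K ga et).map (algebraMap K E) with hσ
  have hσm : (σ.map Polynomial.C).map (Polynomial.evalRingHom (a ^ 2)) = σ := by
    ext1 i j
    simp only [Matrix.map_apply, Polynomial.coe_evalRingHom, Polynomial.eval_C]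
  have hb0 : bmin σ (RM (n + 1) (2 ^ 1) (VALx.lv ga et (a ^ 2))) 0 = 0 := by
    have h1 := bmin_map (Polynomial.evalRingHom (a ^ 2)) (σ.map Polynomial.C) (RT ga et) 0
    rw [hσm, VALx.eval_RT, h, map_zero] at h1
    exact h1.symm
  have hsurjF : ∀ x : E, ∃ y : E, y ^ 2 = x := fun x => by
    obtain ⟨y, hy⟩ := Finite.surjective_of_injective (frobenius_inj E 2) x
    exact ⟨y, hy⟩
  choose rt hrt using hsurjF
  have e3 : ∀ x y : E, x ^ 2 = y ^ 2 → x = y := fun x y h => frobenius_inj E 2 h
  have hz := lin_poly_zero hK (M := n + 1) (r := n) (by omega) l hli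
    (fun k => rt (bmin σ (RM (n + 1) (2 ^ 1) (VALx.lv ga et (a ^ 2))) k.succ))
    (κ := rt κ) (by
      intro h1
      apply hκ
      rw [← hrt κ, h1, zero_pow two_ne_zero]) (by
      intro c
      obtain ⟨v, hv⟩ := hls c
      refine ⟨Algebra.trace K E (lin et c0 * (lin ga v + a ^ 2 * lin et v)), ?_⟩
      apply e3
      have h2 := FiniteField.pow_card
        (Algebra.trace K E (lin et c0 * (lin ga v + a ^ 2 * lin et v)))
      rw [hK] at h2
      rw [CharTwo.sum_sq, mul_pow, hrt, ← map_pow, h2, ← hf v, Fin.sum_univ_succ, hb0, zero_mul,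
        zero_add]
      refine Finset.sum_congr rfl fun k _ => ?_
      have h9 : (lin l c ^ 2 ^ (k : ℕ)) ^ 2 = lin l c ^ 2 ^ ((k : ℕ) + 1) := by
        rw [← pow_mul, ← pow_succ]
      rw [mul_pow, hrt, hv, Fin.val_succ, h9])
  have hz' : ∀ k : Fin (n + 1), bmin σ (RM (n + 1) (2 ^ 1) (VALx.lv ga et (a ^ 2))) k = 0 := by
    intro k
    refine Fin.cases hb0 (fun k => ?_) k
    rw [← hrt (bmin σ (RM (n + 1) (2 ^ 1) (VALx.lv ga et (a ^ 2))) k.succ), hz k,
      zero_pow two_ne_zero]
  obtain ⟨d, hd⟩ := htr c0 hθ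
  obtain ⟨d', hd'1, hd'2⟩ := hsurj d
  have h6 := hf d'
  rw [hd'1, hd'2, mul_zero, add_zero] at h6
  have h7 : ∑ k : Fin (n + 1), bmin σ (RM (n + 1) (2 ^ 1) (VALx.lv ga et (a ^ 2))) k *
      (lin ga d) ^ 2 ^ (k : ℕ) = 0 :=
    Finset.sum_eq_zero fun k _ => by rw [hz' k, zero_mul]
  rw [h7] at h6
  have h8 := (mul_eq_zero.1 h6.symm).resolve_left hκ
  rw [map_eq_zero_iff _ (algebraMap K E).injective, mul_comm] at h8
  exact hd h8

end

/-- (L1) on the curve -/
theorem curve_L1 {K E : Type} [Field K] [Fintype K] [CharP K 2] [Field E] [Finite E]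
    [CharP E 2] [Algebra K E] {n f e a : ℕ} (ga et : Fin (n + 2) → E)
    (hp : Pair3 K ga et f e a) :
    ∑ k ∈ Ico 1 (2 ^ a), dd (fun j => Polynomial.C (ga j ^ 2 ^ k))
      (fun j => Polynomial.C (et j ^ 2 ^ k)) (fun i => RT ga et i.succ) = 0 := by
  classical
  have hchX : CharP (Polynomial E) 2 := inferInstance
  have hK := hp.card
  obtain ⟨hind, htr, hvx, hone, hwv⟩ := hp.p2
  have hzero := hp.split.zero
  have h4 : ∀ b : E, (∃ c : Fin (n + 2) → K, lin ga c + b ^ 2 * lin et c = b) →
      ∃ c : Fin (n + 2) → K, c ≠ 0 ∧ lin ga c + b ^ 2 * lin et c = 0 := by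
    rintro b' ⟨c, hc⟩
    by_cases hb' : b' = 0
    · have h1 : Nat.card {j // ga j = 0} ≠ 0 := by
        rw [hp.split.ce]
        have := hp.split.two_e
        omega
      obtain ⟨⟨j, hj⟩⟩ : Nonempty {j // ga j = 0} := by
        by_contra h
        rw [not_nonempty_iff] at h
        exact h1 Nat.card_of_isEmpty
      refine ⟨Pi.single j 1, ?_, ?_⟩
      · intro h
        have := congrFun h j
        rw [Pi.single_eq_same] at this
        exact one_ne_zero this
      · rw [hb', zero_pow two_ne_zero, zero_mul, add_zero]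
        unfold lin
        rw [Finset.sum_eq_single j]
        · rw [hj, smul_zero]
        · intro i _ hi
          rw [Pi.single_eq_of_ne hi, zero_smul]
        · intro h
          exact absurd (Finset.mem_univ _) h
    · have h1 := hvx b' ⟨hb', c, hc⟩
      have h5 : Dsub K ga et (b' ^ 2) ≠ ⊥ := by
        intro h
        unfold wt at h1
        rw [h, finrank_bot] at h1
        omega
      obtain ⟨d, hd, hd0⟩ := Submodule.exists_mem_ne_zero_of_ne_bot h5
      refine ⟨d, hd0, ?_⟩
      have h6 : lin ga d = b' ^ 2 * lin et d := hd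
      rw [h6]
      exact CharTwo.add_self_eq_zero _
  have hsurj' : ∀ d : Fin (n + 2) → K, ∃ d' : Fin (n + 2) → K,
      lin ga d' = lin ga d ∧ lin et d' = 0 := by
    intro d
    refine ⟨fun j => if et j = 0 then d j else 0, ?_, ?_⟩
    · unfold lin
      refine Finset.sum_congr rfl fun j _ => ?_
      by_cases hj : et j = 0
      · simp only [if_pos hj]
      · rw [(hzero j).resolve_right hj, smul_zero, smul_zero]
    · unfold lin
      refine Finset.sum_eq_zero fun j _ => ?_
      by_cases hj : et j = 0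
      · rw [hj, smul_zero]
      · simp only [if_neg hj, zero_smul]
  have hC := curveC hK ga et hind h4
  have hb0 := b0_ne_zero hK ga et hind htr hsurj' hone
  have hder := der_gen ga et ((tr0 K ga et).map (algebraMap K E))
  rw [hC, CharTwo.add_self_eq_zero, Polynomial.derivative_zero] at hder
  have h6 := (mul_eq_zero.1 hder.symm).resolve_left hb0
  rw [tr0_eq_sum hK hp.deg, bmin_sum, yU_zero] at h6
  have h7 : ∀ k, bmin (tk ga et k) (RT ga et) 0 = dd (fun j => Polynomial.C (ga j ^ 2 ^ k))
      (fun j => Polynomial.C (et j ^ 2 ^ k)) (fun i => RT ga et i.succ) := by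
    intro k
    rw [← bmin_tensor]
    congr 1
    ext1 i j
    simp only [tk, Matrix.of_apply, Polynomial.C_mul]
  simp only [h7] at h6
  rw [Finset.range_eq_Ico, Finset.sum_eq_sum_Ico_succ_bot (Nat.two_pow_pos a), ← add_assoc,
    CharTwo.add_self_eq_zero, zero_add] at h6
  exact h6

/-- the degree of the determinants -/
theorem degreeOf_dd {E : Type} [Field E] {n : ℕ} (u v ga et : Fin (n + 2) → E) (s : ℕ)
    (i : Fin n) : (dd (LF.cs u) (LF.cs v) (RS ga et s)).degreeOf i ≤ 1 := by
  classical
  unfold dd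
  refine (degreeOf_det_le _ i
    (Fin.cons 0 (Fin.cons 0 fun k => if k = i then 1 else 0)) ?_).trans ?_
  · intro p q
    refine Fin.cases ?_ (fun p => ?_) p
    · change (LF.cs u q).degreeOf i ≤ 0
      unfold LF.cs
      rw [MvPolynomial.degreeOf_C]
    · refine Fin.cases ?_ (fun p => ?_) p
      · change (LF.cs v q).degreeOf i ≤ 0
        unfold LF.cs
        rw [MvPolynomial.degreeOf_C]
      · change (RS ga et s p q).degreeOf i ≤ (if p = i then 1 else 0)
        unfold RS
        refine (MvPolynomial.degreeOf_add_le _ _ _).trans (max_le ?_ ?_)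
        · rw [MvPolynomial.degreeOf_C]
          exact Nat.zero_le _
        · refine (MvPolynomial.degreeOf_mul_le _ _ _).trans ?_
          rw [MvPolynomial.degreeOf_C, add_zero, MvPolynomial.degreeOf_X]
          by_cases h : p = i
          · rw [if_pos h, if_pos h.symm]
          · rw [if_neg h, if_neg (fun h' => h h'.symm)]
  · rw [Fin.sum_univ_succ, Fin.cons_zero, zero_add]
    simp only [Fin.cons_succ]
    rw [Fin.sum_univ_succ, Fin.cons_zero, zero_add]
    simp only [Fin.cons_succ]
    rw [Finset.sum_ite_eq' univ i]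
    simp

/-- row S03 -/
theorem l1 : L1 := by
  classical
  intro K E _ _ _ _ _ _ _ n f e a ga et hp s
  set P : MvPolynomial (Fin n) E := ∑ k ∈ Ico 1 (2 ^ a),
    dd (LF.cs (fv ga k)) (LF.cs (fv et k)) (RS ga et 0) with hP
  have h0 : P = 0 := by
    refine multilinear_zero (fun i : Fin n => (i : ℕ) + 1)
      (fun i j h => Fin.ext (Nat.succ_injective h)) P ?_ ?_
    · intro i
      rw [hP]
      refine (MvPolynomial.degreeOf_sum_le _ _ _).trans (Finset.sup_le fun k _ => ?_)
      exact degreeOf_dd _ _ _ _ _ _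
    · rw [hP, map_sum]
      refine Eq.trans (Finset.sum_congr rfl fun k _ => ?_) (curve_L1 ga et hp)
      have h1 := dd_map ((chain (E := E) fun i : Fin n => (i : ℕ) + 1) :
        MvPolynomial (Fin n) E →+* Polynomial E)
        (LF.cs (fv ga k)) (LF.cs (fv et k)) (RS ga et 0)
      refine h1.trans ?_
      have e1 : ∀ v : Fin (n + 2) → E, (fun j => ((chain (E := E) fun i : Fin n => (i : ℕ) + 1) :
          MvPolynomial (Fin n) E →+* Polynomial E) (LF.cs (fv v k) j)) =
          fun j => Polynomial.C (v j ^ 2 ^ k) := by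
        intro v
        funext j
        exact chain_C _ _
      have e2 : (fun (i : Fin n) j => ((chain (E := E) fun i : Fin n => (i : ℕ) + 1) :
          MvPolynomial (Fin n) E →+* Polynomial E) (RS ga et 0 i j)) =
          fun (i : Fin n) => RT ga et i.succ := by
        funext i j
        change chain (E := E) (fun i : Fin n => (i : ℕ) + 1) (RS ga et 0 i j) = _
        unfold RS
        rw [map_add, map_mul, chain_C, chain_C, chain_X]
        simp only [fv, RT, Matrix.of_apply, Fin.val_succ, zero_add, add_comm 1]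
      rw [e1, e1, e2]
  have h2 := congrArg (MvPolynomial.map (iterateFrobenius E 2 s)) h0
  rw [hP, map_sum, map_zero] at h2
  have h3 : ∀ k, MvPolynomial.map (iterateFrobenius E 2 s)
      (dd (LF.cs (fv ga k)) (LF.cs (fv et k)) (RS ga et 0)) =
      dd (LF.cs (fv ga (k + s))) (LF.cs (fv et (k + s))) (RS ga et s) := by
    intro k
    rw [dd_map]
    have e1 : ∀ v : Fin (n + 2) → E, (fun j => MvPolynomial.map (σ := Fin n)
        (iterateFrobenius E 2 s) (LF.cs (fv v k) j)) = LF.cs (fv v (k + s)) := by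
      intro v
      funext j
      simp only [LF.cs, MvPolynomial.map_C, fv, iterateFrobenius_def, ← pow_mul, ← pow_add]
    have e2 : (fun (i : Fin n) j => MvPolynomial.map (σ := Fin n)
        (iterateFrobenius E 2 s) (RS ga et 0 i j)) = RS ga et s := by
      funext i j
      simp only [RS, map_add, map_mul, MvPolynomial.map_C, MvPolynomial.map_X, fv,
        iterateFrobenius_def, ← pow_mul, ← pow_add]
      have e3 : 0 + 1 + (i : ℕ) + s = s + 1 + i := by omega
      rw [e3]
    rw [e1, e1, e2]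
  simp only [h3] at h2
  rw [Finset.sum_Ico_add' (fun k => dd (LF.cs (fv ga k)) (LF.cs (fv et k)) (RS ga et s)),
    add_comm 1 s, add_comm (2 ^ a) s] at h2
  exact h2

end Pool.Agent.Lib.CPlane.S2
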