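import Pool.Agent.Lib.CPlane.S2L1b

/-!
# Kernel of order two: (L1) for all rows in the planes `⟨g_k, y_k⟩`
-/

namespace Pool.Agent.Lib.CPlane.S2

open Finset Module Pool.Agent.Lib.CPlane.P2

/-- scaling the rows -/
theorem dd_row_smul {A : Type} [CommRing A] {n : ℕ} (u v : Fin (n + 2) → A)
    (R : Fin n → Fin (n + 2) → A) (p : Fin n → A) :
    dd u v (fun i j => p i * R i j) = (∏ i, p i) * dd u v R := by
  unfold dd
  have h := Matrix.det_mul_column (Fin.cons 1 (Fin.cons 1 p) : Fin (n + 2) → A)
    (Matrix.of (Fin.cons u (Fin.cons v R) : Fin (n + 2) → Fin (n + 2) → A))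
  rw [Fin.prod_univ_succ, Fin.cons_zero, one_mul] at h
  simp only [Fin.cons_succ] at h
  rw [Fin.prod_univ_succ, Fin.cons_zero, one_mul] at h
  simp only [Fin.cons_succ] at h
  rw [← h]
  congr 1
  ext i j
  refine Fin.cases ?_ (fun i => ?_) i
  · simp
  · refine Fin.cases ?_ (fun i => ?_) i
    · simp
    · simp

/-- (L1) over any algebra, for all rows `p_i g_i + q_i y_i` -/
theorem l1_all {K E : Type} [Field K] [Fintype K] [CharP K 2] [Field E] [Finite E]
    [CharP E 2] [Algebra K E] {n f e a : ℕ} (ga et : Fin (n + 2) → E)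
    (hp : Pair3 K ga et f e a) (s : ℕ) {A : Type} [CommRing A] [Algebra E A]
    (p q : Fin n → A) :
    ∑ k ∈ Ico (s + 1) (s + 2 ^ a),
      dd (fun j => algebraMap E A (fv ga k j)) (fun j => algebraMap E A (fv et k j))
        (fun i j => p i * algebraMap E A (fv ga (s + 1 + i) j) +
          q i * algebraMap E A (fv et (s + 1 + i) j)) = 0 := by
  classical
  -- the universal case
  have huniv : ∑ k ∈ Ico (s + 1) (s + 2 ^ a),
      dd (fun j => algebraMap E (MvPolynomial (Fin n ⊕ Fin n) E) (fv ga k j))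
        (fun j => algebraMap E (MvPolynomial (Fin n ⊕ Fin n) E) (fv et k j))
        (fun i j => MvPolynomial.X (Sum.inl i) *
          algebraMap E (MvPolynomial (Fin n ⊕ Fin n) E) (fv ga (s + 1 + i) j) +
          MvPolynomial.X (Sum.inr i) *
          algebraMap E (MvPolynomial (Fin n ⊕ Fin n) E) (fv et (s + 1 + i) j)) = 0 := by
    set L := FractionRing (MvPolynomial (Fin n ⊕ Fin n) E) with hL
    set φ : MvPolynomial (Fin n ⊕ Fin n) E →+* L := algebraMap _ _ with hφ
    have hφi : Function.Injective φ := IsFractionRing.injective _ _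
    apply hφi
    rw [map_zero, map_sum]
    have hx : ∀ i : Fin n, φ (MvPolynomial.X (Sum.inl i)) ≠ 0 := by
      intro i h
      rw [← map_zero φ] at h
      exact MvPolynomial.X_ne_zero _ (hφi h)
    set ψ : MvPolynomial (Fin n) E →+* L :=
      (MvPolynomial.eval₂Hom (φ.comp (algebraMap E (MvPolynomial (Fin n ⊕ Fin n) E)))
        (fun i => φ (MvPolynomial.X (Sum.inr i)) / φ (MvPolynomial.X (Sum.inl i)))) with hψ
    have hψC : ∀ c : E, ψ (MvPolynomial.C c) =
        φ (algebraMap E (MvPolynomial (Fin n ⊕ Fin n) E) c) := by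
      intro c
      rw [hψ, MvPolynomial.eval₂Hom_C]
      rfl
    have hψX : ∀ i, ψ (MvPolynomial.X i) =
        φ (MvPolynomial.X (Sum.inr i)) / φ (MvPolynomial.X (Sum.inl i)) := by
      intro i
      rw [hψ, MvPolynomial.eval₂Hom_X']
    have h1 := congrArg ψ (l1 ga et hp s)
    rw [map_zero, map_sum] at h1
    have h2 : ∀ k, φ (dd (fun j => algebraMap E (MvPolynomial (Fin n ⊕ Fin n) E) (fv ga k j))
        (fun j => algebraMap E (MvPolynomial (Fin n ⊕ Fin n) E) (fv et k j))
        (fun i j => MvPolynomial.X (Sum.inl i) *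
          algebraMap E (MvPolynomial (Fin n ⊕ Fin n) E) (fv ga (s + 1 + i) j) +
          MvPolynomial.X (Sum.inr i) *
          algebraMap E (MvPolynomial (Fin n ⊕ Fin n) E) (fv et (s + 1 + i) j))) =
        (∏ i : Fin n, φ (MvPolynomial.X (Sum.inl i))) *
          ψ (dd (LF.cs (fv ga k)) (LF.cs (fv et k)) (RS ga et s)) := by
      intro k
      rw [dd_map, dd_map, ← dd_row_smul]
      congr 1
      · funext j
        exact (hψC _).symm
      · funext j
        exact (hψC _).symm
      · funext i j
        unfold RS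
        rw [map_add, map_mul, map_mul, map_add ψ, map_mul ψ, hψC, hψC, hψX]
        have h5 : φ (MvPolynomial.X (Sum.inl i)) *
            (φ (MvPolynomial.X (Sum.inr i)) / φ (MvPolynomial.X (Sum.inl i))) =
            φ (MvPolynomial.X (Sum.inr i)) := by
          rw [mul_comm]
          exact div_mul_cancel₀ _ (hx i)
        rw [mul_add, ← mul_assoc, h5]
    rw [Finset.sum_congr rfl fun k _ => h2 k, ← Finset.mul_sum, h1, mul_zero]
  have h3 := congrArg (MvPolynomial.aeval (Sum.elim p q) :
    MvPolynomial (Fin n ⊕ Fin n) E →ₐ[E] A).toRingHom huniv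
  rw [map_zero, map_sum] at h3
  refine Eq.trans (Finset.sum_congr rfl fun k _ => ?_) h3
  rw [dd_map]
  congr 1
  · funext j
    exact (AlgHom.commutes _ _).symm
  · funext j
    exact (AlgHom.commutes _ _).symm
  · funext i j
    change _ = MvPolynomial.aeval (Sum.elim p q) _
    rw [map_add, map_mul, map_mul, MvPolynomial.aeval_X, MvPolynomial.aeval_X,
      AlgHom.commutes, AlgHom.commutes]
    rfl

end Pool.Agent.Lib.CPlane.S2
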