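import Pool.Agent.Lib.CPlane.S2Stat
import Pool.Agent.Lib.CPlane.LFMort
import Pool.Agent.Lib.CPlane.S2Fin

/-!
# s = 2: assembly of Part II from the rows
-/

namespace Pool.Agent.Lib.CPlane.S2

open Finset Module Pool.Agent.Lib.CPlane.P2

/-- the Frobenius shift does not change the ranks -/
def SHIFT : Prop := ∀ {E : Type} [Field E] [Finite E] [CharP E 2] {N : ℕ} (ga et : Fin N → E)
  (A : Finset ℕ), finrank E (WA ga et (A.image (· + 1))) = finrank E (WA ga et A)

/-- (S12) there is no pair -/
theorem end_of (shift : SHIFT) (ntt : NTT) (the : THE) (ca : CA) (leaf : LEAF) (ssr : SSR)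
    (rel : REL) : END := by
  classical
  intro K E _ _ _ _ _ _ _ n f e a ga et h3
  by_cases h2 : H2 ga et
  · obtain ⟨c, ⟨k, hk, hck⟩, hc⟩ := rel ga et h3 h2
    exact hck (ssr ga et h3 h2 c hc k hk)
  unfold H2 at h2
  push Not at h2
  obtain ⟨s, A, hA, hA2, hAr⟩ := h2
  -- shift by one
  set A' : Finset ℕ := A.image (· + 1) with hA'
  have hcard : A'.card = A.card := Finset.card_image_of_injective _ (add_left_injective 1)
  have hA'I : A' ⊆ Icc (s + 1) (s + n) := by
    intro x hx
    obtain ⟨y, hy, rfl⟩ := Finset.mem_image.1 hx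
    have := Finset.mem_Ico.1 (hA hy)
    rw [Finset.mem_Icc]
    omega
  have hA'r : finrank E (WA ga et A') < A'.card + 2 := by
    rw [hcard, hA', shift]
    exact hAr
  -- a minimal set
  let P : Finset (Finset ℕ) := A'.powerset.filter
    (fun B => 2 ≤ B.card ∧ finrank E (WA ga et B) < B.card + 2)
  have hP : P.Nonempty := ⟨A', Finset.mem_filter.2 ⟨Finset.mem_powerset_self _,
    by rw [hcard]; exact hA2, hA'r⟩⟩
  obtain ⟨C, hCP, hCmin⟩ := Finset.exists_min_image P Finset.card hP
  obtain ⟨hCA', hC2, hCr⟩ := Finset.mem_filter.1 hCP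
  rw [Finset.mem_powerset] at hCA'
  have hCI : C ⊆ Icc (s + 1) (s + n) := hCA'.trans hA'I
  have hCne : C.Nonempty := Finset.card_pos.1 (by omega)
  have hCI0 : C ⊆ Icc s (s + n) := hCI.trans (Finset.Icc_subset_Icc (by omega) (by omega))
  have hNT : IsNT ga et C := by
    have h := ntt ga et h3 s C hCne hCI0
    unfold IsNT
    omega
  have hleaf : IsLeaf ga et C := by
    refine ⟨hNT, hC2, fun B hB hB2 => ?_⟩
    by_contra hlt
    have hBP : B ∈ P := Finset.mem_filter.2 ⟨Finset.mem_powerset.2 (hB.1.trans hCA'), hB2,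
      by omega⟩
    have h1 := hCmin B hBP
    have h2 := Finset.card_lt_card hB
    omega
  obtain ⟨w, hw, hfull, hdvd, hnot⟩ := leaf ga et h3 s C hCI hleaf
  apply hnot
  have key : ∀ d, w ∣ wF ga et (s + d) := by
    refine LF.never_dies' (fun k => fv ga k) (fun k => fv et k) (C : Set ℕ)
      (fun d => wF ga et (s + d)) hw ?_ ?_ ?_
    · exact hdvd s C hCI0 fun l hl => ⟨l, hl, Nat.ModEq.refl l⟩
    · intro v hv l hl
      exact hfull v hv l hl
    · intro d
      obtain ⟨X, hX, hXnt, A, hA, B, -, hA0, -, hAB⟩ := ca ga et h3 (s + d)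
      refine ⟨gy ga et X, A, B, hA0, hA, hAB, fun hCX => ?_⟩
      refine hdvd (s + (d + 1)) X ?_ fun l hl => ?_
      · intro x hx
        have := Finset.mem_Icc.1 (hX hx)
        rw [Finset.mem_Icc]
        omega
      · obtain ⟨hg, hy⟩ := hCX l hl
        refine the ga et h3 (s + d + 1) X ?_ hXnt l hg hy
        intro x hx
        have := Finset.mem_Icc.1 (hX hx)
        rw [Finset.mem_Icc]
        omega
  intro s' hs'
  obtain ⟨d, rfl⟩ := Nat.exists_eq_add_of_le hs'
  exact key d

/-- Part II over the field with two elements -/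
theorem main2_of (red : RED) (hend : END) : MAIN2 := by
  intro K E _ _ _ _ _ _ a hK hE G Y hGY h2 hY hp hii
  have hch : CharP E 2 := charP_of_injective_algebraMap (algebraMap K E).injective 2
  obtain ⟨n, f, e, ga, et, h3⟩ := red G Y hK hE hGY h2 hY hp hii
  exact hend ga et h3

end Pool.Agent.Lib.CPlane.S2
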