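import Pool.Agent.Lib.CPlane.S2E1
import Pool.Agent.Lib.CPlane.S2Pair
import Pool.Agent.Lib.CPlane.S2L1
import Pool.Agent.Lib.CPlane.S2Stat

/-!
# Kernel of order two: the reduction (row RED)
-/

namespace Pool.Agent.Lib.CPlane.S2

open Module Finset Pool.Agent.Lib.CPlane.P2

theorem np_of {E : Type} [Field E] {N : ℕ} (v : Fin N → E) {m : ℕ}
    (h : ∀ (k d : ℕ) (c : E), 0 < d → d < m → ∃ i, v i ^ 2 ^ (k + d) ≠ c * v i ^ 2 ^ k) :
    ∀ k l, k < m → l < m → k ≠ l → ∀ c : E, fv v k ≠ c • fv v l := by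
  intro k l hk hl hkl c hc
  have hc' : ∀ i, v i ^ 2 ^ k = c * v i ^ 2 ^ l := fun i => congrFun hc i
  rcases lt_or_gt_of_ne hkl with hlt | hlt
  · obtain ⟨d, rfl⟩ := Nat.exists_eq_add_of_lt hlt
    obtain ⟨i, hi⟩ := h k (d + 1) c⁻¹ (by omega) (by omega)
    apply hi
    rw [← add_assoc]
    by_cases hc0 : c = 0
    · have h1 := hc' i
      rw [hc0, zero_mul] at h1
      have h2 : v i = 0 := pow_eq_zero_iff (pow_ne_zero _ two_ne_zero) |>.1 h1
      rw [h2, zero_pow (pow_ne_zero _ two_ne_zero), zero_pow (pow_ne_zero _ two_ne_zero),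
        mul_zero]
    · rw [hc' i, inv_mul_cancel_left₀ hc0]
  · obtain ⟨d, rfl⟩ := Nat.exists_eq_add_of_lt hlt
    obtain ⟨i, hi⟩ := h l (d + 1) c (by omega) (by omega)
    apply hi
    rw [← add_assoc]
    exact hc' i

theorem exists_coord' {K E : Type} [Field K] [Field E] [Finite E] [Algebra K E]
    (G Y : Submodule K E) {N : ℕ} (hN : finrank K G + finrank K Y = N) :
    ∃ (ga et : Fin N → E),
      (∀ j, ga j = 0 ∨ et j = 0) ∧
      Nat.card {j // et j = 0} = finrank K G ∧ Nat.card {j // ga j = 0} = finrank K Y ∧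
      (∀ c : Fin N → K, lin ga c = 0 → lin et c = 0 → c = 0) ∧
      (∀ c : Fin N → K, lin ga c ∈ G ∧ lin et c ∈ Y) ∧
      (∀ g ∈ G, ∀ y ∈ Y, ∃ c : Fin N → K, lin ga c = g ∧ lin et c = y) ∧
      G ≤ Submodule.span K (Set.range ga) ∧ Y ≤ Submodule.span K (Set.range et) := by
  subst hN
  exact exists_coord G Y

theorem red : RED := by
  classical
  intro K E _ _ _ _ _ _ _ a G Y hK hm hGY h2 hY hp hii
  have hfd : FiniteDimensional K E := Module.Finite.of_finite
  obtain ⟨Z, hZG, hZ2, hZii, hZsub, hYsub, b, hb, y0, hy0, hy00, hby0, huniq⟩ :=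
    reduction4 hm G Y hGY h2.le hY hp hii
  rw [hK] at hZsub hYsub
  have hZle : finrank K Z ≤ finrank K Y := by
    rw [← hGY]
    exact Submodule.finrank_mono hZG
  obtain ⟨n, hn⟩ : ∃ n, finrank K Y + finrank K Z = n + 2 :=
    ⟨finrank K Y + finrank K Z - 2, by omega⟩
  obtain ⟨ga, et, hzero, hcf, hce, hind, hmem, hsurj, hsg, hse⟩ := exists_coord' Y Z hn
  have htr : ∀ c : Fin (n + 2) → K, lin et c ≠ 0 → ∃ d : Fin (n + 2) → K,
      Algebra.trace K E (lin ga d * lin et c) ≠ 0 := by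
    intro c hc
    obtain ⟨y, hy, htr⟩ := hp _ (hZG (hmem c).2) hc
    obtain ⟨d, hd, -⟩ := hsurj y hy 0 Z.zero_mem
    refine ⟨d, ?_⟩
    rw [hd, mul_comm]
    exact htr
  have hvx : ∀ a : E, IsVx K ga et a → 1 ≤ wt K ga et (a ^ 2) := by
    rintro a' ⟨ha, c, hc⟩
    have h1 : lin et c + a'⁻¹ ^ 2 * lin ga c = a'⁻¹ := by
      have h3 : a'⁻¹ ^ 2 * (lin ga c + a' ^ 2 * lin et c) = a'⁻¹ ^ 2 * a' := by rw [hc]
      have h4 : a'⁻¹ ^ 2 * a' = a'⁻¹ := by
        field_simp
      have h5 : a'⁻¹ ^ 2 * (lin ga c + a' ^ 2 * lin et c) =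
          lin et c + a'⁻¹ ^ 2 * lin ga c := by
        field_simp
        ring
      rw [← h5, h3, h4]
    obtain ⟨y', hy', hy'0, hy'Z⟩ := hZii a'⁻¹ (inv_ne_zero ha)
      ⟨_, (hmem c).2, _, (hmem c).1, h1⟩
    obtain ⟨c', hc'1, hc'2⟩ := hsurj y' hy' _ hy'Z
    have h6 : c' ∈ Dsub K ga et (a' ^ 2) := by
      change lin ga c' = a' ^ 2 * lin et c'
      rw [hc'1, hc'2]
      field_simp
    have h7 : Dsub K ga et (a' ^ 2) ≠ ⊥ := by
      intro h
      rw [h] at h6
      rw [(Submodule.mem_bot K).1 h6, lin_zero] at hc'1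
      exact hy'0 hc'1.symm
    unfold wt
    rw [Nat.one_le_iff_ne_zero]
    intro h
    exact h7 (Submodule.finrank_eq_zero.1 h)
  have hone : ∃ a : E, a ≠ 0 ∧ wt K ga et (a ^ 2) = 1 := by
    refine ⟨b⁻¹, inv_ne_zero hb, ?_⟩
    obtain ⟨c0, hc01, hc02⟩ := hsurj y0 hy0 _ hby0
    have hc0 : c0 ≠ 0 := by
      rintro rfl
      rw [lin_zero] at hc01
      exact hy00 hc01.symm
    have hD : Dsub K ga et (b⁻¹ ^ 2) = Submodule.span K {c0} := by
      ext c
      rw [Submodule.mem_span_singleton]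
      change lin ga c = b⁻¹ ^ 2 * lin et c ↔ _
      constructor
      · intro h
        have h3 : lin et c = b ^ 2 * lin ga c := by
          rw [h]
          field_simp
        obtain ⟨k, hk⟩ := huniq _ (hmem c).1 (by rw [← h3]; exact (hmem c).2)
        refine ⟨k, ?_⟩
        have h4 := hind (c - k • c0) (by
          rw [lin_sub, lin_smul, hc01, hk, sub_self]) (by
          rw [lin_sub, lin_smul, hc02, h3, hk, mul_smul_comm, sub_self])
        exact (sub_eq_zero.1 h4).symm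
      · rintro ⟨k, rfl⟩
        rw [lin_smul, lin_smul, hc01, hc02, mul_smul_comm]
        congr 1
        field_simp
    unfold wt
    rw [hD, finrank_span_singleton hc0]
  have h4 : ∀ b : E, (∃ c : Fin (n + 2) → K, lin ga c + b ^ 2 * lin et c = b) →
      ∃ c : Fin (n + 2) → K, c ≠ 0 ∧ lin ga c + b ^ 2 * lin et c = 0 := by
    rintro b' ⟨c, hc⟩
    by_cases hb' : b' = 0
    · obtain ⟨z0, hz0, hz00⟩ := Submodule.exists_mem_ne_zero_of_ne_bot (p := Z) (by
        intro h
        rw [h, finrank_bot] at hZ2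
        omega)
      obtain ⟨d, hd1, hd2⟩ := hsurj 0 Y.zero_mem z0 hz0
      refine ⟨d, ?_, ?_⟩
      · rintro rfl
        rw [lin_zero] at hd2
        exact hz00 hd2.symm
      · rw [hd1, hb']
        ring
    · have h1 := hvx b' ⟨hb', c, hc⟩
      have h5 : Dsub K ga et (b' ^ 2) ≠ ⊥ := by
        intro h
        unfold wt at h1
        rw [h, finrank_bot] at h1
        omega
      obtain ⟨d, hd, hd0⟩ := Submodule.exists_mem_ne_zero_of_ne_bot h5
      refine ⟨d, hd0, ?_⟩
      have h6 : lin ga d = b' ^ 2 * lin et d := hd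
      rw [h6]
      exact CharTwo.add_self_eq_zero _
  have hsurj' : ∀ d : Fin (n + 2) → K, ∃ d' : Fin (n + 2) → K,
      lin ga d' = lin ga d ∧ lin et d' = 0 := fun d => hsurj _ (hmem d).1 0 Z.zero_mem
  refine ⟨n, finrank K Y, finrank K Z, ga, et, ?_⟩
  exact
    { card := hK
      deg := hm
      p2 :=
        { ind := hind
          tr := htr
          vx := hvx
          one := hone
          wv := fun a ha hwt => wv hK ga et hind htr hsurj' h4 a ha hwt }
      split :=
        { zero := hzero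
          cf := hcf
          ce := hce
          sum := hn
          two_f := le_trans hZ2 hZle
          two_e := hZ2 }
      hf := h2
      he := lt_of_le_of_lt (Nat.mul_le_mul_left 2 hZle) h2
      np_g := np_of ga fun k d c hd hd2 => hYsub.not_prop hK ga hsg k d hd hd2 c
      np_y := np_of et fun k d c hd hd2 => hZsub.not_prop hK et hse k d hd hd2 c }

end Pool.Agent.Lib.CPlane.S2
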