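import Pool.Agent.Lib.CPlane.S2Rado

/-!
# A form killed by all generic rows `g_j + t_j y_j` is a combination of the forms `g_j ∧ y_j`
(no near tight sets with two elements)
-/

namespace Pool.Agent.Lib.CPlane.S2

open Module Submodule

section RelA

variable {E : Type} [Field E]

/-- prescribed values for a spanning family of functionals of the right size -/
theorem exists_vals {V : Type} [AddCommGroup V] [Module E V] [FiniteDimensional E V]
    {ι : Type} [Fintype ι] (f : ι → Dual E V) (hs : span E (Set.range f) = ⊤)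
    (hc : Fintype.card ι = finrank E V) (a : ι → E) : ∃ x, ∀ i, f i x = a i := by
  let Φ : V →ₗ[E] (ι → E) := LinearMap.pi f
  have hinj : Function.Injective Φ := by
    rw [← LinearMap.ker_eq_bot, LinearMap.ker_eq_bot']
    intro x hx
    rw [← Module.forall_dual_apply_eq_zero_iff E]
    intro φ
    have hφ : φ ∈ span E (Set.range f) := by rw [hs]; trivial
    induction hφ using Submodule.span_induction with
    | mem z hz =>
      obtain ⟨i, rfl⟩ := hz
      exact congrFun hx i
    | zero => rfl
    | add z w _ _ hz hw => rw [LinearMap.add_apply, hz, hw, add_zero]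
    | smul c z _ hz => rw [LinearMap.smul_apply, hz, smul_zero]
  have hsurj : Function.Surjective Φ :=
    (LinearMap.injective_iff_surjective_of_finrank_eq_finrank
      (by rw [Module.finrank_fintype_fun_eq_card, hc])).1 hinj
  obtain ⟨x, hx⟩ := hsurj a
  exact ⟨x, fun i => congrFun hx i⟩

/-- the form `g ∧ y` -/
def wd {V : Type} [AddCommGroup V] [Module E V] (g y : Dual E V) (x x' : V) : E :=
  g x * y x' - y x * g x'

/-- the forms `g_j ∧ y_j`, `j ≠ 0`, are independent on the common kernel of `g_0, y_0` -/
theorem indep_forms {n : ℕ} {V : Type} [AddCommGroup V] [Module E V] [FiniteDimensional E V]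
    (hd : finrank E V = n + 3) (g y : Fin (n + 1) → Dual E V)
    (hr : ∀ A : Finset (Fin (n + 1)), 2 ≤ A.card → A.card + 2 ≤ finrank E (ab E g y A))
    (d : Fin n → E)
    (h : ∀ x x', g 0 x = 0 → y 0 x = 0 → g 0 x' = 0 → y 0 x' = 0 →
      ∑ j : Fin n, d j * wd (g j.succ) (y j.succ) x x' = 0) (l : Fin n) : d l = 0 := by
  classical
  set p : Finset (Fin (n + 1)) := {0, l.succ} with hp
  have hne : (0 : Fin (n + 1)) ≠ l.succ := (Fin.succ_ne_zero l).symm
  have hpc : p.card = 2 := Finset.card_pair hne
  have hX : finrank E (ab E g y p) ≤ 4 := by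
    have h1 : ab E g y p = span E ((({g 0, g l.succ, y 0, y l.succ} : Finset (Dual E V))) :
        Set (Dual E V)) := by
      unfold ab
      congr 1
      rw [hp]
      simp only [Finset.coe_insert, Finset.coe_singleton, Set.image_insert_eq,
        Set.image_singleton]
      ext z
      simp only [Set.mem_union, Set.mem_insert_iff, Set.mem_singleton_iff]
      tauto
    rw [h1]
    exact (finrank_span_finset_le_card _).trans Finset.card_le_four
  have hX' : finrank E (ab E g y p) = 4 := le_antisymm hX (by
    have := hr p (by omega)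
    omega)
  obtain ⟨v, hv, hve⟩ := rado_choice g y pᶜ (ab E g y p) fun B hB => by
    rw [← ab_union]
    have hdis : Disjoint p B := by
      refine Finset.disjoint_left.2 fun x hx hx' => ?_
      exact (Finset.mem_compl.1 (hB hx')) hx
    have h1 := hr (p ∪ B) (by rw [Finset.card_union_of_disjoint hdis]; omega)
    rw [Finset.card_union_of_disjoint hdis] at h1
    omega
  have hcc : (pᶜ).card = n - 1 := by
    rw [Finset.card_compl, hpc, Fintype.card_fin]
    omega
  have hn1 : 1 ≤ n := by
    have := l.2
    omega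
  have htop : ab E g y p ⊔ span E (v '' ((pᶜ : Finset (Fin (n + 1))) : Set (Fin (n + 1)))) = ⊤ := by
    apply Submodule.eq_top_of_finrank_eq
    rw [hve, hX', hcc, Subspace.dual_finrank_eq, hd]
    omega
  let f : Fin (n + 1) ⊕ Fin 2 → Dual E V := fun i => match i with
    | Sum.inl r => if r ∈ p then g r else v r
    | Sum.inr q => if q = 0 then y 0 else y l.succ
  have hf0 : f (Sum.inl 0) = g 0 := by
    change (if (0 : Fin (n + 1)) ∈ p then g 0 else v 0) = g 0
    rw [if_pos (by rw [hp]; simp)]
  have hfl : f (Sum.inl l.succ) = g l.succ := by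
    change (if l.succ ∈ p then g l.succ else v l.succ) = g l.succ
    rw [if_pos (by rw [hp]; simp)]
  have hfv : ∀ r, r ∉ p → f (Sum.inl r) = v r := fun r hr => by
    change (if r ∈ p then g r else v r) = v r
    rw [if_neg hr]
  have hg0 : f (Sum.inr 0) = y 0 := rfl
  have hgl : f (Sum.inr 1) = y l.succ := by
    change (if (1 : Fin 2) = 0 then y 0 else y l.succ) = y l.succ
    rw [if_neg (by decide)]
  have hspan : span E (Set.range f) = ⊤ := by
    rw [eq_top_iff, ← htop, sup_le_iff]
    constructor
    · unfold ab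
      rw [span_le]
      rintro z (⟨r, hr, rfl⟩ | ⟨r, hr, rfl⟩)
      · have hr' : r ∈ p := hr
        rw [hp, Finset.mem_insert, Finset.mem_singleton] at hr'
        rcases hr' with rfl | rfl
        · exact subset_span ⟨Sum.inl 0, hf0⟩
        · exact subset_span ⟨Sum.inl l.succ, hfl⟩
      · have hr' : r ∈ p := hr
        rw [hp, Finset.mem_insert, Finset.mem_singleton] at hr'
        rcases hr' with rfl | rfl
        · exact subset_span ⟨Sum.inr 0, hg0⟩
        · exact subset_span ⟨Sum.inr 1, hgl⟩
    · rw [span_le]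
      rintro z ⟨r, hr, rfl⟩
      have hr' : r ∉ p := by
        have : r ∈ (pᶜ : Finset (Fin (n + 1))) := hr
        exact Finset.mem_compl.1 this
      exact subset_span ⟨Sum.inl r, hfv r hr'⟩
  have hcard : Fintype.card (Fin (n + 1) ⊕ Fin 2) = finrank E V := by
    rw [Fintype.card_sum, Fintype.card_fin, Fintype.card_fin, hd]
  obtain ⟨x, hx⟩ := exists_vals f hspan hcard (fun i => if i = Sum.inl l.succ then 1 else 0)
  obtain ⟨x', hx'⟩ := exists_vals f hspan hcard (fun i => if i = Sum.inr 1 then 1 else 0)
  have e1 : g 0 x = 0 := by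
    have h1 := hx (Sum.inl 0)
    rwa [hf0, if_neg (by simpa using hne)] at h1
  have e2 : y 0 x = 0 := by
    have h1 := hx (Sum.inr 0)
    rwa [hg0, if_neg (by simp)] at h1
  have e3 : g 0 x' = 0 := by
    have h1 := hx' (Sum.inl 0)
    rwa [hf0, if_neg (by simp)] at h1
  have e4 : y 0 x' = 0 := by
    have h1 := hx' (Sum.inr 0)
    rwa [hg0, if_neg (by simp)] at h1
  have e5 : g l.succ x = 1 := by
    have h1 := hx (Sum.inl l.succ)
    rwa [hfl, if_pos rfl] at h1
  have e6 : y l.succ x = 0 := by
    have h1 := hx (Sum.inr 1)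
    rwa [hgl, if_neg (by simp)] at h1
  have e7 : g l.succ x' = 0 := by
    have h1 := hx' (Sum.inl l.succ)
    rwa [hfl, if_neg (by simp)] at h1
  have e8 : y l.succ x' = 1 := by
    have h1 := hx' (Sum.inr 1)
    rwa [hgl, if_pos rfl] at h1
  have key := h x x' e1 e2 e3 e4
  rw [Finset.sum_eq_single l] at key
  · unfold wd at key
    rw [e5, e6, e7, e8] at key
    simpa using key
  · intro j _ hj
    have hjp : j.succ ∉ p := by
      rw [hp, Finset.mem_insert, Finset.mem_singleton]
      rintro (h1 | h1)
      · exact Fin.succ_ne_zero j h1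
      · exact hj (Fin.succ_injective _ h1)
    have v1 : v j.succ x = 0 := by
      have h1 := hx (Sum.inl j.succ)
      rw [hfv _ hjp, if_neg] at h1
      · exact h1
      · intro h2
        exact hj (Fin.succ_injective _ (Sum.inl_injective h2))
    have v2 : v j.succ x' = 0 := by
      have h1 := hx' (Sum.inl j.succ)
      rwa [hfv _ hjp, if_neg (by simp)] at h1
    have hw : wd (g j.succ) (y j.succ) x x' = 0 := by
      unfold wd
      rcases hv j.succ with h1 | h1
      · rw [h1] at v1 v2
        rw [v1, v2]; ring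
      · rw [h1] at v1 v2
        rw [v1, v2]; ring
    rw [hw, mul_zero]
  · intro h1
    exact absurd (Finset.mem_univ l) h1

/-- the spans of the pairs with shifted indices -/
theorem ab_map_succ {n : ℕ} {V : Type} [AddCommGroup V] [Module E V]
    (g y : Fin (n + 1) → Dual E V) (A : Finset (Fin n)) :
    ab E g y (A.map (Fin.succEmb n)) = ab E (fun j => g j.succ) (fun j => y j.succ) A := by
  unfold ab
  congr 1
  ext z
  simp only [Finset.coe_map, Set.mem_union, Set.mem_image, Fin.coe_succEmb]
  constructor
  · rintro (⟨r, ⟨q, hq, rfl⟩, rfl⟩ | ⟨r, ⟨q, hq, rfl⟩, rfl⟩)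
    · exact Or.inl ⟨q, hq, rfl⟩
    · exact Or.inr ⟨q, hq, rfl⟩
  · rintro (⟨q, hq, rfl⟩ | ⟨q, hq, rfl⟩)
    · exact Or.inl ⟨_, ⟨q, hq, rfl⟩, rfl⟩
    · exact Or.inr ⟨_, ⟨q, hq, rfl⟩, rfl⟩

/-- two good values of the parameter of the first row -/
theorem exists_good [Fintype E] {n : ℕ} {V : Type} [AddCommGroup V] [Module E V]
    (hE : 2 ^ n + 2 ≤ Fintype.card E) (g y : Fin (n + 1) → Dual E V) :
    ∃ t t' : E, t ≠ t' ∧ ∀ A : Finset (Fin n),
      ¬ ab E g y {0} ≤ ab E (fun j => g j.succ) (fun j => y j.succ) A →
      g 0 + t • y 0 ∉ ab E (fun j => g j.succ) (fun j => y j.succ) A ∧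
      g 0 + t' • y 0 ∉ ab E (fun j => g j.succ) (fun j => y j.succ) A := by
  classical
  let W : Finset (Fin n) → Submodule E (Dual E V) := fun A =>
    ab E (fun j => g j.succ) (fun j => y j.succ) A
  let bad : Finset E := Finset.univ.filter fun t => ∃ A : Finset (Fin n),
    ¬ ab E g y {0} ≤ W A ∧ g 0 + t • y 0 ∈ W A
  have hle : ∀ A : Finset (Fin n), y 0 ∈ W A → g 0 ∈ W A → ab E g y {0} ≤ W A := by
    intro A h1 h2
    unfold ab
    rw [span_le]
    rintro z (⟨r, hr, rfl⟩ | ⟨r, hr, rfl⟩)
    · have hr' : r = 0 := by simpa using hr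
      rw [hr']; exact h2
    · have hr' : r = 0 := by simpa using hr
      rw [hr']; exact h1
  have hbad : bad.card ≤ 2 ^ n := by
    have h1 : ∀ t ∈ bad, ∃ A : Finset (Fin n), ¬ ab E g y {0} ≤ W A ∧ g 0 + t • y 0 ∈ W A :=
      fun t ht => (Finset.mem_filter.1 ht).2
    choose! F hF using h1
    have h2 : bad.card ≤ (Finset.univ : Finset (Finset (Fin n))).card := by
      refine Finset.card_le_card_of_injOn F (fun t _ => Finset.mem_coe.2 (Finset.mem_univ _)) ?_
      intro t ht t' ht' heq
      by_contra hne
      have e1 := hF t ht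
      have e2 := hF t' ht'
      rw [← heq] at e2
      have e3 : (t - t') • y 0 ∈ W (F t) := by
        have h3 := Submodule.sub_mem _ e1.2 e2.2
        have h4 : (t - t') • y 0 = (g 0 + t • y 0) - (g 0 + t' • y 0) := by module
        rw [h4]
        exact h3
      have e4 : y 0 ∈ W (F t) := (Submodule.smul_mem_iff _ (sub_ne_zero.2 hne)).1 e3
      have e5 : g 0 ∈ W (F t) := by
        have h3 := Submodule.sub_mem _ e1.2 (Submodule.smul_mem _ t e4)
        have h4 : g 0 = (g 0 + t • y 0) - t • y 0 := by module
        rw [h4]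
        exact h3
      exact e1.1 (hle _ e4 e5)
    rwa [Finset.card_univ, Fintype.card_finset, Fintype.card_fin] at h2
  have hgood : 1 < (badᶜ).card := by
    rw [Finset.card_compl]
    omega
  obtain ⟨t, ht, t', ht', hne⟩ := Finset.one_lt_card.1 hgood
  refine ⟨t, t', hne, fun A hA => ⟨fun h => ?_, fun h => ?_⟩⟩
  · exact (Finset.mem_compl.1 ht) (Finset.mem_filter.2 ⟨Finset.mem_univ _, A, hA, h⟩)
  · exact (Finset.mem_compl.1 ht') (Finset.mem_filter.2 ⟨Finset.mem_univ _, A, hA, h⟩)

/-- the rank drops under a map with kernel `⟨v⟩` only if `v` is in the span -/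
theorem finrank_map_gen {W W₂ : Type} [AddCommGroup W] [Module E W] [FiniteDimensional E W]
    [AddCommGroup W₂] [Module E W₂] (f : W →ₗ[E] W₂) (v : W)
    (hker : LinearMap.ker f = span E {v}) (S : Submodule E W) :
    (v ∉ S → finrank E (S.map f) = finrank E S) ∧
    finrank E S ≤ finrank E (S.map f) + 1 := by
  have hrk : finrank E (S.map f) + finrank E (LinearMap.ker (f.domRestrict S)) = finrank E S := by
    rw [← LinearMap.finrank_range_add_finrank_ker (f.domRestrict S), LinearMap.range_domRestrict]
  have hkle : finrank E (LinearMap.ker (f.domRestrict S)) ≤ finrank E (span E {v}) := by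
    have h1 : (LinearMap.ker (f.domRestrict S)).map S.subtype ≤ span E {v} := by
      rintro z ⟨w, hw, rfl⟩
      rw [← hker]
      exact hw
    have h2 := Submodule.finrank_mono h1
    rwa [Submodule.finrank_map_subtype_eq] at h2
  have hv1 : finrank E (span E {v}) ≤ 1 := by
    have h1 := finrank_span_le_card (R := E) ({v} : Set W)
    simpa using h1
  constructor
  · intro hv
    have h0 : LinearMap.ker (f.domRestrict S) = ⊥ := by
      rw [LinearMap.ker_eq_bot']
      intro w hw
      have h1 : (w : W) ∈ span E {v} := by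
        rw [← hker]
        exact hw
      obtain ⟨c, hc⟩ := Submodule.mem_span_singleton.1 h1
      by_cases hc0 : c = 0
      · rw [hc0, zero_smul] at hc
        exact Subtype.ext hc.symm
      · exfalso
        apply hv
        have h2 : c • v ∈ S := by rw [hc]; exact w.2
        exact (Submodule.smul_mem_iff _ hc0).1 h2
    rw [h0, finrank_bot, add_zero] at hrk
    exact hrk
  · omega

/-- restriction of functionals to the kernel of `v`: the rank drops only if `v` is in the span -/
theorem finrank_map_restr {V : Type} [AddCommGroup V] [Module E V] [FiniteDimensional E V]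
    (v : Dual E V) (S : Submodule E (Dual E V)) :
    (v ∉ S → finrank E (S.map (LinearMap.ker v).subtype.dualMap) = finrank E S) ∧
    finrank E S ≤ finrank E (S.map (LinearMap.ker v).subtype.dualMap) + 1 := by
  apply finrank_map_gen
  apply le_antisymm
  · intro φ hφ
    have h1 : LinearMap.ker v ≤ LinearMap.ker φ := by
      intro x hx
      have := LinearMap.congr_fun (LinearMap.mem_ker.1 hφ) ⟨x, hx⟩
      exact this
    have h2 : φ ∈ span E (Set.range fun _ : Unit => v) := by
      apply mem_span_of_iInf_ker_le_ker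
      simpa using h1
    simpa using h2
  · rw [span_le, Set.singleton_subset_iff]
    refine LinearMap.mem_ker.2 (LinearMap.ext fun x => ?_)
    exact x.2

/-- alternating forms as bilinear maps -/
theorem alt_swap {V : Type} [AddCommGroup V] [Module E V] (D : V →ₗ[E] V →ₗ[E] E)
    (hD : ∀ x, D x x = 0) (x x' : V) : D x' x = - D x x' := by
  have h := hD (x + x')
  rw [map_add, map_add, LinearMap.add_apply, LinearMap.add_apply, hD, hD, zero_add,
    add_zero] at h
  exact eq_neg_of_add_eq_zero_left h

/-- a form which vanishes on `ker (g + t y)` and on `ker (g + t' y)` is a multiple of `g ∧ y` -/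
theorem two_kernels {V : Type} [AddCommGroup V] [Module E V] [FiniteDimensional E V]
    (g y : Dual E V) (hgy : LinearIndependent E ![g, y]) (t t' : E) (ht : t ≠ t')
    (D : V →ₗ[E] V →ₗ[E] E) (hD : ∀ x, D x x = 0)
    (h1 : ∀ x x', (g + t • y) x = 0 → (g + t • y) x' = 0 → D x x' = 0)
    (h2 : ∀ x x', (g + t' • y) x = 0 → (g + t' • y) x' = 0 → D x x' = 0) :
    ∃ c : E, ∀ x x', D x x' = c * wd g y x x' := by
  have hex : ∀ g y : Dual E V, LinearIndependent E ![g, y] → ∃ x, g x = 1 ∧ y x = 0 := by
    intro g y hgy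
    by_contra hcon
    have hle : LinearMap.ker y ≤ LinearMap.ker g := by
      intro x hx
      by_contra hgx
      apply hcon
      have hgx' : g x ≠ 0 := hgx
      have hx' : y x = 0 := hx
      refine ⟨(g x)⁻¹ • x, ?_, ?_⟩
      · rw [map_smul, smul_eq_mul, inv_mul_cancel₀ hgx']
      · rw [map_smul, hx', smul_zero]
    have h3 : g ∈ span E (Set.range fun _ : Unit => y) := by
      apply mem_span_of_iInf_ker_le_ker
      simpa using hle
    rw [Set.range_const, Submodule.mem_span_singleton] at h3
    obtain ⟨c, hc⟩ := h3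
    rw [LinearIndependent.pair_iff] at hgy
    have := hgy 1 (-c) (by rw [one_smul, ← hc, neg_smul, add_neg_cancel])
    exact one_ne_zero this.1
  obtain ⟨e, he1, he2⟩ := hex g y hgy
  obtain ⟨e', he1', he2'⟩ := hex y g (by
    rw [LinearIndependent.pair_iff] at hgy ⊢
    intro a b hab
    have := hgy b a (by rw [add_comm]; exact hab)
    exact ⟨this.2, this.1⟩)
  -- `D (s e + s' e', k) = 0` for `k` in the common kernel
  have hK : ∀ k, g k = 0 → y k = 0 → D e k = 0 ∧ D e' k = 0 := by
    intro k hk1 hk2
    have q1 : D (e' - t • e) k = 0 := h1 _ _ (by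
      rw [LinearMap.add_apply, LinearMap.smul_apply, map_sub, map_sub, map_smul, map_smul, he1,
        he2, he1', he2', smul_eq_mul, smul_eq_mul, smul_eq_mul]
      ring) (by
      rw [LinearMap.add_apply, LinearMap.smul_apply, hk1, hk2, smul_zero, add_zero])
    have q2 : D (e' - t' • e) k = 0 := h2 _ _ (by
      rw [LinearMap.add_apply, LinearMap.smul_apply, map_sub, map_sub, map_smul, map_smul, he1,
        he2, he1', he2', smul_eq_mul, smul_eq_mul, smul_eq_mul]
      ring) (by
      rw [LinearMap.add_apply, LinearMap.smul_apply, hk1, hk2, smul_zero, add_zero])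
    rw [map_sub, map_smul, LinearMap.sub_apply, LinearMap.smul_apply, smul_eq_mul] at q1 q2
    have q3 : (t - t') * D e k = 0 := by
      have : (t - t') * D e k = (D e' k - t' * D e k) - (D e' k - t * D e k) := by ring
      rw [this, q1, q2, sub_zero]
    have q4 : D e k = 0 := (mul_eq_zero.1 q3).resolve_left (sub_ne_zero.2 ht)
    refine ⟨q4, ?_⟩
    rwa [q4, mul_zero, sub_zero] at q1
  have hKK : ∀ k k', g k = 0 → y k = 0 → g k' = 0 → y k' = 0 → D k k' = 0 := by
    intro k k' a1 a2 a3 a4
    refine h1 _ _ ?_ ?_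
    · rw [LinearMap.add_apply, LinearMap.smul_apply, a1, a2, smul_zero, add_zero]
    · rw [LinearMap.add_apply, LinearMap.smul_apply, a3, a4, smul_zero, add_zero]
  refine ⟨D e e', fun x x' => ?_⟩
  set k := x - g x • e - y x • e' with hk
  set k' := x' - g x' • e - y x' • e' with hk'
  have gk : g k = 0 := by
    rw [hk, map_sub, map_sub, map_smul, map_smul, he1, he2', smul_eq_mul, smul_eq_mul]
    ring
  have yk : y k = 0 := by
    rw [hk, map_sub, map_sub, map_smul, map_smul, he2, he1', smul_eq_mul, smul_eq_mul]
    ring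
  have gk' : g k' = 0 := by
    rw [hk', map_sub, map_sub, map_smul, map_smul, he1, he2', smul_eq_mul, smul_eq_mul]
    ring
  have yk' : y k' = 0 := by
    rw [hk', map_sub, map_sub, map_smul, map_smul, he2, he1', smul_eq_mul, smul_eq_mul]
    ring
  have hx : x = g x • e + y x • e' + k := by rw [hk]; module
  have hx' : x' = g x' • e + y x' • e' + k' := by rw [hk']; module
  have hs := alt_swap D hD
  have r1 : D e k' = 0 := (hK k' gk' yk').1
  have r2 : D e' k' = 0 := (hK k' gk' yk').2
  have r3 : D k e = 0 := by rw [hs e k, (hK k gk yk).1, neg_zero]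
  have r4 : D k e' = 0 := by rw [hs e' k, (hK k gk yk).2, neg_zero]
  have r5 : D k k' = 0 := hKK k k' gk yk gk' yk'
  have r6 : D e' e = - D e e' := hs e e'
  have hmain : D x x' = D (g x • e + y x • e' + k) (g x' • e + y x' • e' + k') := by
    rw [← hx, ← hx']
  rw [hmain]
  simp only [map_add, map_smul, LinearMap.add_apply, LinearMap.smul_apply, smul_eq_mul, r1, r2,
    r3, r4, r5, r6, hD]
  unfold wd
  ring

/-- `g ∧ y` as a bilinear map -/
def wdL {V : Type} [AddCommGroup V] [Module E V] (g y : Dual E V) : V →ₗ[E] V →ₗ[E] E :=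
  LinearMap.mk₂ E (wd g y) (fun a b c => by unfold wd; rw [map_add, map_add]; ring)
    (fun a b c => by
      unfold wd; rw [map_smul, map_smul, smul_eq_mul, smul_eq_mul, smul_eq_mul]; ring)
    (fun a b c => by unfold wd; rw [map_add, map_add]; ring)
    (fun a b c => by
      unfold wd; rw [map_smul, map_smul, smul_eq_mul, smul_eq_mul, smul_eq_mul]; ring)

theorem wdL_apply {V : Type} [AddCommGroup V] [Module E V] (g y : Dual E V) (x x' : V) :
    wdL g y x x' = wd g y x x' := rfl

theorem pair_li {n : ℕ} {V : Type} [AddCommGroup V] [Module E V] [FiniteDimensional E V]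
    (g y : Fin (n + 1) → Dual E V) (h : 2 ≤ finrank E (ab E g y {0})) :
    LinearIndependent E ![g 0, y 0] := by
  rw [linearIndependent_iff_card_le_finrank_span, Fintype.card_fin]
  have h1 : ab E g y {0} = span E (Set.range ![g 0, y 0]) := by
    unfold ab
    congr 1
    rw [Finset.coe_singleton, Set.image_singleton, Set.image_singleton, Matrix.range_cons,
      Matrix.range_cons, Matrix.range_empty, Set.union_empty]
  rw [h1] at h
  exact h

/-- one step: the form on the kernel of the first row -/
theorem core_step [Fintype E] {n : ℕ}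
    (ih : ∀ {V : Type} [AddCommGroup V] [Module E V] [FiniteDimensional E V],
      finrank E V = n + 2 → ∀ (g y : Fin n → Dual E V) (D : V →ₗ[E] V →ₗ[E] E),
      (∀ x, D x x = 0) →
      (∀ A : Finset (Fin n), A.Nonempty → A.card + 1 ≤ finrank E (ab E g y A)) →
      (∀ A : Finset (Fin n), 2 ≤ A.card → A.card + 2 ≤ finrank E (ab E g y A)) →
      (∀ t : Fin n → E, LinearIndependent E (fun j => g j + t j • y j) →
        ∀ x x', (∀ j, (g j + t j • y j) x = 0) → (∀ j, (g j + t j • y j) x' = 0) →
          D x x' = 0) →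
      ∃ c : Fin n → E, ∀ x x', D x x' = ∑ j, c j * wd (g j) (y j) x x')
    {V : Type} [AddCommGroup V] [Module E V] [FiniteDimensional E V]
    (hd : finrank E V = n + 3) (g y : Fin (n + 1) → Dual E V) (D : V →ₗ[E] V →ₗ[E] E)
    (hD : ∀ x, D x x = 0)
    (hr1 : ∀ A : Finset (Fin (n + 1)), A.Nonempty → A.card + 1 ≤ finrank E (ab E g y A))
    (hr2 : ∀ A : Finset (Fin (n + 1)), 2 ≤ A.card → A.card + 2 ≤ finrank E (ab E g y A))
    (hv : ∀ t : Fin (n + 1) → E, LinearIndependent E (fun j => g j + t j • y j) →
      ∀ x x', (∀ j, (g j + t j • y j) x = 0) → (∀ j, (g j + t j • y j) x' = 0) → D x x' = 0)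
    (s : E) (hs : ∀ A : Finset (Fin n),
      ¬ ab E g y {0} ≤ ab E (fun j => g j.succ) (fun j => y j.succ) A →
      g 0 + s • y 0 ∉ ab E (fun j => g j.succ) (fun j => y j.succ) A) :
    ∃ c : Fin n → E, ∀ x x', (g 0 + s • y 0) x = 0 → (g 0 + s • y 0) x' = 0 →
      D x x' = ∑ j, c j * wd (g j.succ) (y j.succ) x x' := by
  classical
  set v : Dual E V := g 0 + s • y 0 with hvdef
  have h20 : 2 ≤ finrank E (ab E g y {0}) := by
    have := hr1 {0} (Finset.singleton_nonempty 0)
    rwa [Finset.card_singleton] at this
  have hv0 : v ≠ 0 := by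
    intro h0
    apply hs ∅
    · rw [ab_empty]
      intro hle
      rw [le_bot_iff] at hle
      rw [hle, finrank_bot] at h20
      omega
    · rw [h0]
      exact Submodule.zero_mem _
  set ρ := (LinearMap.ker v).subtype.dualMap with hρ
  have hρv : ρ v = 0 := LinearMap.ext fun x => x.2
  have hdk : finrank E (LinearMap.ker v) = n + 2 := by
    have := Module.Dual.finrank_ker_add_one_of_ne_zero hv0
    omega
  have hab : ∀ A : Finset (Fin n), ab E (fun j => ρ (g j.succ)) (fun j => ρ (y j.succ)) A =
      (ab E (fun j => g j.succ) (fun j => y j.succ) A).map ρ := by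
    intro A
    unfold ab
    rw [Submodule.map_span, Set.image_union, Set.image_image, Set.image_image]
  have hrank : ∀ A : Finset (Fin n), A.Nonempty →
      (ab E g y {0} ≤ ab E (fun j => g j.succ) (fun j => y j.succ) A →
        A.card + 2 ≤ finrank E ((ab E (fun j => g j.succ) (fun j => y j.succ) A).map ρ)) := by
    intro A hA hle
    have h1 := hr2 ({0} ∪ A.map (Fin.succEmb n))
    have hdis : Disjoint ({0} : Finset (Fin (n + 1))) (A.map (Fin.succEmb n)) := by
      rw [Finset.disjoint_singleton_left, Finset.mem_map]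
      rintro ⟨j, _, hj⟩
      exact Fin.succ_ne_zero j hj
    rw [Finset.card_union_of_disjoint hdis, Finset.card_singleton, Finset.card_map, ab_union,
      ab_map_succ, sup_eq_right.2 hle] at h1
    have h2 : finrank E (ab E (fun j => g j.succ) (fun j => y j.succ) A) ≤
        finrank E ((ab E (fun j => g j.succ) (fun j => y j.succ) A).map ρ) + 1 :=
      (finrank_map_restr v _).2
    have h3 : 1 ≤ A.card := Finset.card_pos.2 hA
    have h4 := h1 (by omega)
    omega
  have hrank' : ∀ A : Finset (Fin n),
      ¬ ab E g y {0} ≤ ab E (fun j => g j.succ) (fun j => y j.succ) A →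
      finrank E ((ab E (fun j => g j.succ) (fun j => y j.succ) A).map ρ) =
        finrank E (ab E g y (A.map (Fin.succEmb n))) := by
    intro A hle
    rw [ab_map_succ]
    exact (finrank_map_restr v _).1 (hs A hle)
  obtain ⟨c, hc⟩ := ih hdk (fun j => ρ (g j.succ)) (fun j => ρ (y j.succ))
    (D.domRestrict₁₂ (LinearMap.ker v) (LinearMap.ker v)) (fun x => hD x)
    (fun A hA => by
      rw [hab]
      by_cases hle : ab E g y {0} ≤ ab E (fun j => g j.succ) (fun j => y j.succ) A
      · have := hrank A hA hle
        omega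
      · rw [hrank' A hle]
        have := hr1 (A.map (Fin.succEmb n)) (by simpa using hA)
        rwa [Finset.card_map] at this)
    (fun A hA => by
      rw [hab]
      by_cases hle : ab E g y {0} ≤ ab E (fun j => g j.succ) (fun j => y j.succ) A
      · exact hrank A (Finset.card_pos.1 (by omega)) hle
      · rw [hrank' A hle]
        have := hr2 (A.map (Fin.succEmb n)) (by rwa [Finset.card_map])
        rwa [Finset.card_map] at this)
    (fun τ hτ x x' hx hx' => by
      have hfam : (fun j : Fin (n + 1) => g j + (Fin.cons s τ : Fin (n + 1) → E) j • y j) =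
          Fin.cons v (fun j : Fin n => g j.succ + τ j • y j.succ) := by
        funext j
        refine Fin.cases ?_ (fun i => ?_) j
        · simp only [Fin.cons_zero]
          exact hvdef.symm
        · simp only [Fin.cons_succ]
      have hli : LinearIndependent E
          (fun j : Fin (n + 1) => g j + (Fin.cons s τ : Fin (n + 1) → E) j • y j) := by
        rw [hfam, linearIndependent_finCons]
        constructor
        · apply LinearIndependent.of_comp ρ
          have h1 : (ρ ∘ fun j : Fin n => g j.succ + τ j • y j.succ) =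
              fun j => ρ (g j.succ) + τ j • ρ (y j.succ) := by
            funext j
            rw [Function.comp_apply, map_add, map_smul]
          rw [h1]
          exact hτ
        · intro hmem
          obtain ⟨b, hb⟩ := (Submodule.mem_span_range_iff_exists_fun E).1 hmem
          have h1 : ∑ j, b j • (ρ (g j.succ) + τ j • ρ (y j.succ)) = 0 := by
            have h3 := congrArg ρ hb
            rw [hρv, map_sum] at h3
            refine (Finset.sum_congr rfl fun j _ => ?_).trans h3
            rw [map_smul, map_add, map_smul]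
          have h2 := Fintype.linearIndependent_iff.1 hτ b h1
          apply hv0
          rw [← hb]
          exact Finset.sum_eq_zero fun j _ => by rw [h2 j, zero_smul]
      refine hv (Fin.cons s τ) hli x x' ?_ ?_
      · intro j
        refine Fin.cases ?_ (fun i => ?_) j
        · simp only [Fin.cons_zero]
          exact x.2
        · simp only [Fin.cons_succ]
          exact hx i
      · intro j
        refine Fin.cases ?_ (fun i => ?_) j
        · simp only [Fin.cons_zero]
          exact x'.2
        · simp only [Fin.cons_succ]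
          exact hx' i)
  exact ⟨c, fun x x' hx hx' => hc ⟨x, hx⟩ ⟨x', hx'⟩⟩

/-- the form is a combination of the forms `g_j ∧ y_j` -/
theorem core [Fintype E] (n : ℕ) (hE : 2 ^ n + 2 ≤ Fintype.card E) :
    ∀ {V : Type} [AddCommGroup V] [Module E V] [FiniteDimensional E V],
    finrank E V = n + 2 → ∀ (g y : Fin n → Dual E V) (D : V →ₗ[E] V →ₗ[E] E),
    (∀ x, D x x = 0) →
    (∀ A : Finset (Fin n), A.Nonempty → A.card + 1 ≤ finrank E (ab E g y A)) →
    (∀ A : Finset (Fin n), 2 ≤ A.card → A.card + 2 ≤ finrank E (ab E g y A)) →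
    (∀ t : Fin n → E, LinearIndependent E (fun j => g j + t j • y j) →
      ∀ x x', (∀ j, (g j + t j • y j) x = 0) → (∀ j, (g j + t j • y j) x' = 0) → D x x' = 0) →
    ∃ c : Fin n → E, ∀ x x', D x x' = ∑ j, c j * wd (g j) (y j) x x' := by
  induction n with
  | zero =>
    intro V _ _ _ _ g y D _ _ _ hv
    refine ⟨fun _ => 0, fun x x' => ?_⟩
    rw [hv (fun _ => 0) linearIndependent_empty_type x x' (fun j => j.elim0)
      (fun j => j.elim0), Finset.univ_eq_empty, Finset.sum_empty]
  | succ n ih =>
    intro V _ _ _ hd g y D hD hr1 hr2 hv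
    have hE' : 2 ^ n + 2 ≤ Fintype.card E := by
      have : 2 ^ n ≤ 2 ^ (n + 1) := Nat.pow_le_pow_right (by norm_num) (by omega)
      omega
    obtain ⟨t, t', htt, hgood⟩ := exists_good hE' g y
    obtain ⟨c, hc⟩ := core_step (ih hE') hd g y D hD hr1 hr2 hv t fun A hA => (hgood A hA).1
    obtain ⟨c', hc'⟩ := core_step (ih hE') hd g y D hD hr1 hr2 hv t' fun A hA => (hgood A hA).2
    have hker : ∀ (s : E) (x : V), g 0 x = 0 → y 0 x = 0 → (g 0 + s • y 0) x = 0 := by
      intro s x h1 h2
      rw [LinearMap.add_apply, LinearMap.smul_apply, h1, h2, smul_zero, add_zero]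
    have hcc : ∀ j, c j = c' j := by
      intro j
      have := indep_forms hd g y hr2 (fun j => c j - c' j) (fun x x' h1 h2 h3 h4 => by
        have e1 := hc x x' (hker t x h1 h2) (hker t x' h3 h4)
        have e2 := hc' x x' (hker t' x h1 h2) (hker t' x' h3 h4)
        simp only [sub_mul]
        rw [Finset.sum_sub_distrib, ← e1, ← e2, sub_self]) j
      exact sub_eq_zero.1 this
    have h20 : 2 ≤ finrank E (ab E g y {0}) := by
      have := hr1 {0} (Finset.singleton_nonempty 0)
      rwa [Finset.card_singleton] at this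
    let F : V →ₗ[E] V →ₗ[E] E := D - ∑ j, c j • wdL (g j.succ) (y j.succ)
    have hF : ∀ x x', F x x' = D x x' - ∑ j, c j * wd (g j.succ) (y j.succ) x x' := by
      intro x x'
      change (D - ∑ j, c j • wdL (g j.succ) (y j.succ)) x x' = _
      rw [LinearMap.sub_apply, LinearMap.sub_apply, LinearMap.sum_apply, LinearMap.sum_apply]
      rfl
    obtain ⟨c0, hc0⟩ := two_kernels (g 0) (y 0) (pair_li g y h20) t t' htt F
      (fun x => by
        rw [hF, hD, zero_sub, neg_eq_zero]
        refine Finset.sum_eq_zero fun j _ => ?_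
        unfold wd
        ring)
      (fun x x' h1 h2 => by rw [hF, hc x x' h1 h2, sub_self])
      (fun x x' h1 h2 => by
        rw [hF, hc' x x' h1 h2, sub_eq_zero]
        exact Finset.sum_congr rfl fun j _ => by rw [hcc j])
    refine ⟨Fin.cons c0 c, fun x x' => ?_⟩
    rw [Fin.sum_univ_succ, Fin.cons_zero, ← hc0, hF]
    simp only [Fin.cons_succ]
    ring

end RelA

end Pool.Agent.Lib.CPlane.S2
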