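import Pool.Agent.Lib.CPlane.S2Stat
import Pool.Agent.Lib.CPlane.S2RelA

/-!
# s = 2, row REL: (L1) is a relation between the `g_k ⊗ y_k` if (H2) holds
-/

namespace Pool.Agent.Lib.CPlane.S2

open Finset Module Pool.Agent.Lib.CPlane.P2

section Rel

variable {E : Type} [Field E]

/-- row vectors as functionals -/
def evd {N : ℕ} : (Fin N → E) →ₗ[E] Dual E (Fin N → E) :=
  LinearMap.mk₂ E (fun u x => ∑ i, u i * x i)
    (fun a b c => by simp only [Pi.add_apply, add_mul, Finset.sum_add_distrib])
    (fun a b c => by simp only [Pi.smul_apply, smul_eq_mul, Finset.mul_sum, mul_assoc])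
    (fun a b c => by simp only [Pi.add_apply, mul_add, Finset.sum_add_distrib])
    (fun a b c => by
      simp only [Pi.smul_apply, smul_eq_mul, Finset.mul_sum]
      exact Finset.sum_congr rfl fun i _ => by ring)

theorem evd_apply {N : ℕ} (u x : Fin N → E) : evd u x = ∑ i, u i * x i := rfl

theorem evd_single {N : ℕ} (u : Fin N → E) (i : Fin N) : evd u (Pi.single i 1) = u i := by
  rw [evd_apply, Finset.sum_eq_single i]
  · rw [Pi.single_eq_same, mul_one]
  · intro j _ hj
    rw [Pi.single_eq_of_ne hj, mul_zero]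
  · intro h
    exact absurd (Finset.mem_univ i) h

theorem evd_inj {N : ℕ} : Function.Injective (evd : (Fin N → E) →ₗ[E] Dual E (Fin N → E)) := by
  intro u w h
  funext i
  have := LinearMap.congr_fun h (Pi.single i 1)
  rwa [evd_single, evd_single] at this

/-- the block indices -/
def blk (n : ℕ) : Fin 2 ⊕ Fin n → Fin (n + 2) := Sum.elim ![0, 1] (fun j => j.succ.succ)

theorem blk_bij (n : ℕ) : Function.Bijective (blk n) := by
  rw [Fintype.bijective_iff_injective_and_card]
  constructor
  · rintro (i | i) (j | j) h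
    · fin_cases i <;> fin_cases j <;> simp_all [blk]
    · exfalso
      have h2 : (j.succ.succ : Fin (n + 2)).val = (![(0 : Fin (n + 2)), 1] i).val :=
        congrArg Fin.val h.symm
      fin_cases i <;> simp at h2
    · exfalso
      have h2 : (i.succ.succ : Fin (n + 2)).val = (![(0 : Fin (n + 2)), 1] j).val :=
        congrArg Fin.val h
      fin_cases j <;> simp at h2
    · have h2 : (i.succ.succ : Fin (n + 2)) = j.succ.succ := h
      rw [Fin.succ_inj, Fin.succ_inj] at h2
      rw [h2]
  · rw [Fintype.card_sum, Fintype.card_fin, Fintype.card_fin, Fintype.card_fin]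
    omega

/-- on the common kernel of independent rows `ρ` the form `a ∧ b` is a multiple of
`det (a, b, ρ)` -/
theorem ker_det {n : ℕ} (ρ : Fin n → Fin (n + 2) → E)
    (hρ : LinearIndependent E ρ) (x x' : Fin (n + 2) → E)
    (hx : ∀ j, ∑ i, ρ j i * x i = 0) (hx' : ∀ j, ∑ i, ρ j i * x' i = 0) :
    ∃ κ : E, ∀ a b : Fin (n + 2) → E,
      (∑ i, a i * x i) * (∑ i, b i * x' i) - (∑ i, b i * x i) * (∑ i, a i * x' i) =
        κ * dd a b ρ := by
  classical
  have hsurj : Function.Surjective (Matrix.of ρ).mulVec := by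
    have h1 : (Matrix.of ρ).rank = Fintype.card (Fin n) := LinearIndependent.rank_matrix hρ
    have h2 : LinearMap.range (Matrix.of ρ).mulVecLin = ⊤ := by
      apply Submodule.eq_top_of_finrank_eq
      rw [Module.finrank_fintype_fun_eq_card]
      exact h1
    exact LinearMap.range_eq_top.1 h2
  obtain ⟨B, hB⟩ := Matrix.mulVec_surjective_iff_exists_right_inverse.1 hsurj
  let Z : Matrix (Fin (n + 2)) (Fin (n + 2)) E :=
    Matrix.of fun i => (Fin.cons (x i) (Fin.cons (x' i) (fun j => B i j)) : Fin (n + 2) → E)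
  refine ⟨Z.det, fun a b => ?_⟩
  have h3 : (Matrix.of (Fin.cons a (Fin.cons b ρ) : Fin (n + 2) → Fin (n + 2) → E) * Z).det =
      dd a b ρ * Z.det := by
    rw [Matrix.det_mul]
    rfl
  rw [mul_comm Z.det, ← h3, ← Matrix.det_submatrix_equiv_self (Equiv.ofBijective _ (blk_bij n))]
  have h4 : (Matrix.of (Fin.cons a (Fin.cons b ρ) : Fin (n + 2) → Fin (n + 2) → E) *
      Z).submatrix (Equiv.ofBijective _ (blk_bij n)) (Equiv.ofBijective _ (blk_bij n)) =
      Matrix.fromBlocks !![∑ i, a i * x i, ∑ i, a i * x' i; ∑ i, b i * x i, ∑ i, b i * x' i]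
        (Matrix.of ![fun j => ∑ i, a i * B i j, fun j => ∑ i, b i * B i j]) 0 1 := by
    ext p q
    rcases p with p | p <;> rcases q with q | q
    · fin_cases p <;> fin_cases q <;> rfl
    · fin_cases p <;> rfl
    · fin_cases q
      · exact hx p
      · exact hx' p
    · have := congrFun (congrFun hB p) q
      exact this
  rw [h4, Matrix.det_fromBlocks_zero₂₁, Matrix.det_one, mul_one, Matrix.det_fin_two_of]
  ring

/-- `W_A` in the form of the spans of pairs -/
theorem rk_eq {n : ℕ} (ga et : Fin (n + 2) → E) (s : ℕ) (A : Finset (Fin n)) :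
    finrank E (ab E (fun j : Fin n => evd (fv ga (s + 1 + j)))
      (fun j : Fin n => evd (fv et (s + 1 + j))) A) =
    finrank E (WA ga et (A.image fun j : Fin n => s + 1 + (j : ℕ))) := by
  have h1 : ab E (fun j : Fin n => evd (fv ga (s + 1 + j)))
      (fun j : Fin n => evd (fv et (s + 1 + j))) A =
      (WA ga et (A.image fun j : Fin n => s + 1 + (j : ℕ))).map evd := by
    unfold ab WA gy
    rw [Submodule.map_span, Set.image_union, Set.image_image, Set.image_image, Finset.coe_image,
      Set.image_image, Set.image_image]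
  rw [h1]
  exact LinearEquiv.finrank_eq (Submodule.equivMapOfInjective evd evd_inj _).symm

/-- the evaluation of the rows `R_(s+1+i)(t_i)` -/
theorem dd_eval {n : ℕ} (ga et : Fin (n + 2) → E) (s : ℕ) (a b : Fin (n + 2) → E)
    (t : Fin n → E) :
    MvPolynomial.eval t (dd (LF.cs a) (LF.cs b) (RS ga et s)) =
      dd a b (fun i : Fin n => fv ga (s + 1 + i) + t i • fv et (s + 1 + i)) := by
  unfold dd
  rw [RingHom.map_det]
  congr 1
  ext p q
  rw [RingHom.mapMatrix_apply, Matrix.map_apply, Matrix.of_apply, Matrix.of_apply]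
  refine Fin.cases ?_ (fun p => ?_) p
  · rw [Fin.cons_zero, Fin.cons_zero]
    unfold LF.cs
    rw [MvPolynomial.eval_C]
  · refine Fin.cases ?_ (fun p => ?_) p
    · rw [Fin.cons_succ, Fin.cons_succ, Fin.cons_zero, Fin.cons_zero]
      unfold LF.cs
      rw [MvPolynomial.eval_C]
    · rw [Fin.cons_succ, Fin.cons_succ, Fin.cons_succ, Fin.cons_succ]
      unfold RS
      rw [map_add, map_mul, MvPolynomial.eval_C, MvPolynomial.eval_C, MvPolynomial.eval_X,
        Pi.add_apply, Pi.smul_apply, smul_eq_mul]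

end Rel

/-- row REL -/
theorem rel (hNT : NTT) (hL1 : L1) : REL := by
  intro K E _ _ _ _ _ _ _ n f e a ga et hP hH2
  classical
  have : Fintype E := Fintype.ofFinite E
  -- sizes
  have hn : n + 2 < 2 ^ a := by
    have h1 := hP.split.sum
    have h2 := hP.hf
    have h3 := hP.he
    omega
  have hcardE : Fintype.card E = 2 ^ 2 ^ a := by
    have : FiniteDimensional K E := Module.Finite.of_finite
    rw [Module.card_eq_pow_finrank (K := K) (V := E), hP.card, hP.deg]
  have hE : 2 ^ n + 2 ≤ Fintype.card E := by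
    rw [hcardE]
    have h1 : 2 ^ (n + 1) ≤ 2 ^ 2 ^ a := Nat.pow_le_pow_right (by norm_num) (by omega)
    have h2 : 2 ^ (n + 2) ≤ 2 ^ 2 ^ a := Nat.pow_le_pow_right (by norm_num) (by omega)
    have h3 : 1 ≤ 2 ^ n := Nat.one_le_two_pow
    rw [pow_add] at h2
    omega
  -- the functionals and the form
  let g : Fin n → Dual E (Fin (n + 2) → E) := fun j => evd (fv ga (0 + 1 + j))
  let y : Fin n → Dual E (Fin (n + 2) → E) := fun j => evd (fv et (0 + 1 + j))
  let D : (Fin (n + 2) → E) →ₗ[E] (Fin (n + 2) → E) →ₗ[E] E :=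
    ∑ k ∈ Ico (0 + 1) (0 + 2 ^ a), wdL (evd (fv ga k)) (evd (fv et k))
  have hDa : ∀ x x', D x x' = ∑ k ∈ Ico (0 + 1) (0 + 2 ^ a),
      wd (evd (fv ga k)) (evd (fv et k)) x x' := by
    intro x x'
    change (∑ k ∈ Ico (0 + 1) (0 + 2 ^ a), wdL (evd (fv ga k)) (evd (fv et k))) x x' = _
    rw [LinearMap.sum_apply, LinearMap.sum_apply]
    rfl
  have hinj : ∀ A : Finset (Fin n), (A.image fun j : Fin n => 0 + 1 + (j : ℕ)).card = A.card := by
    intro A
    apply Finset.card_image_of_injective
    intro i j hij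
    apply Fin.ext
    have : 0 + 1 + (i : ℕ) = 0 + 1 + (j : ℕ) := hij
    omega
  have hsub : ∀ A : Finset (Fin n), (A.image fun j : Fin n => 0 + 1 + (j : ℕ)) ⊆
      Ico 1 (1 + n) := by
    intro A k hk
    obtain ⟨j, _, rfl⟩ := Finset.mem_image.1 hk
    rw [Finset.mem_Ico]
    have := j.2
    omega
  have hsub' : ∀ A : Finset (Fin n), (A.image fun j : Fin n => 0 + 1 + (j : ℕ)) ⊆
      Icc 1 (1 + n) := fun A k hk => by
    have := Finset.mem_Ico.1 (hsub A hk)
    rw [Finset.mem_Icc]
    omega
  obtain ⟨c, hc⟩ := core n hE (V := Fin (n + 2) → E) (by rw [Module.finrank_fin_fun]) g y D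
    (fun x => by
      rw [hDa]
      refine Finset.sum_eq_zero fun k _ => ?_
      unfold wd
      ring)
    (fun A hA => by
      have h1 := hNT ga et hP 1 (A.image fun j : Fin n => 0 + 1 + (j : ℕ)) (hA.image _) (hsub' A)
      rw [hinj] at h1
      rw [rk_eq ga et 0 A]
      exact h1)
    (fun A hA => by
      have h1 := hH2 1 (A.image fun j : Fin n => 0 + 1 + (j : ℕ)) (hsub A)
        (by rw [hinj]; exact hA)
      rw [hinj] at h1
      rw [rk_eq ga et 0 A]
      exact h1)
    (fun t ht x x' hx hx' => by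
      have hρ : LinearIndependent E
          (fun i : Fin n => fv ga (0 + 1 + i) + t i • fv et (0 + 1 + i)) := by
        apply LinearIndependent.of_comp evd
        have h1 : (evd ∘ fun i : Fin n => fv ga (0 + 1 + i) + t i • fv et (0 + 1 + i)) =
            fun j => g j + t j • y j := by
          funext j
          rw [Function.comp_apply, map_add, map_smul]
        rw [h1]
        exact ht
      have hk : ∀ z : Fin (n + 2) → E, (∀ j, (g j + t j • y j) z = 0) →
          ∀ j : Fin n, ∑ i, (fv ga (0 + 1 + j) + t j • fv et (0 + 1 + j)) i * z i = 0 := by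
        intro z hz j
        have h1 := hz j
        have h2 : g j + t j • y j = evd (fv ga (0 + 1 + j) + t j • fv et (0 + 1 + j)) := by
          rw [map_add, map_smul]
        rw [h2, evd_apply] at h1
        exact h1
      obtain ⟨κ, hκ⟩ := ker_det _ hρ x x' (hk x hx) (hk x' hx')
      have hz := congrArg (MvPolynomial.eval t) (hL1 ga et hP 0)
      rw [map_sum, map_zero] at hz
      simp only [dd_eval] at hz
      rw [hDa]
      have h1 : ∀ k, wd (evd (fv ga k)) (evd (fv et k)) x x' = κ * dd (fv ga k) (fv et k)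
          (fun i : Fin n => fv ga (0 + 1 + i) + t i • fv et (0 + 1 + i)) := by
        intro k
        rw [← hκ]
        unfold wd
        rw [evd_apply, evd_apply, evd_apply, evd_apply]
      simp only [h1]
      rw [← Finset.mul_sum, hz, mul_zero])
  -- the relation
  let cx : ℕ → E := fun k => if h : k < n then c ⟨k, h⟩ else 0
  have hcx : ∀ l : Fin n, cx l = c l := fun l => dif_pos l.2
  have hcx0 : ∀ k, n ≤ k → cx k = 0 := fun k hk => dif_neg (by omega)
  refine ⟨fun k => if k = 0 then 0 else 1 - cx (k - 1), ⟨n + 1, by omega, ?_⟩, fun i j => ?_⟩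
  · change (if n + 1 = 0 then 0 else 1 - cx (n + 1 - 1)) ≠ 0
    rw [if_neg (by omega), hcx0 _ (by omega), sub_zero]
    exact one_ne_zero
  · rcases hP.split.zero i with hi | hi
    · refine Finset.sum_eq_zero fun k _ => ?_
      rw [hi, zero_pow (by positivity), zero_mul, mul_zero]
    rcases hP.split.zero j with hj | hj
    swap
    · refine Finset.sum_eq_zero fun k _ => ?_
      rw [hj, zero_pow (by positivity), mul_zero, mul_zero]
    have h1 := hc (Pi.single i 1) (Pi.single j 1)
    rw [hDa] at h1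
    have h2 : ∀ k, wd (evd (fv ga k)) (evd (fv et k)) (Pi.single i 1) (Pi.single j 1) =
        ga i ^ 2 ^ k * et j ^ 2 ^ k := by
      intro k
      unfold wd
      rw [evd_single, evd_single, evd_single, evd_single]
      unfold fv
      rw [hi, hj, zero_pow (by positivity), zero_mul, sub_zero]
    have h3 : ∀ l : Fin n, wd (g l) (y l) (Pi.single i 1) (Pi.single j 1) =
        ga i ^ 2 ^ (0 + 1 + (l : ℕ)) * et j ^ 2 ^ (0 + 1 + (l : ℕ)) := fun l => h2 _
    simp only [h2, h3] at h1
    rw [Finset.sum_Ico_eq_sum_range] at h1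
    have hm : 0 + 2 ^ a - (0 + 1) = 2 ^ a - 1 := by omega
    rw [hm] at h1
    have h6 : ∑ l : Fin n, c l * (ga i ^ 2 ^ (0 + 1 + (l : ℕ)) * et j ^ 2 ^ (0 + 1 + (l : ℕ))) =
        ∑ l ∈ range (2 ^ a - 1), cx l * (ga i ^ 2 ^ (0 + 1 + l) * et j ^ 2 ^ (0 + 1 + l)) := by
      rw [← Finset.sum_subset (Finset.range_subset_range.2 (show n ≤ 2 ^ a - 1 by omega))
        (fun k _ hk => by
          rw [hcx0 k (by simpa using hk), zero_mul]), ← Fin.sum_univ_eq_sum_range
        (fun l => cx l * (ga i ^ 2 ^ (0 + 1 + l) * et j ^ 2 ^ (0 + 1 + l)))]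
      exact Finset.sum_congr rfl fun l _ => by rw [hcx]
    rw [h6] at h1
    have h7 : ∀ T : ℕ → E, ∑ k ∈ range (2 ^ a), T k = ∑ k ∈ range (2 ^ a - 1), T (0 + 1 + k) +
        T 0 := by
      intro T
      have h8 : 2 ^ a = 2 ^ a - 1 + 1 := by omega
      conv_lhs => rw [h8]
      rw [Finset.sum_range_succ']
      congr 1
      exact Finset.sum_congr rfl fun k _ => by rw [zero_add, add_comm]
    rw [h7]
    simp only [if_true, zero_mul, add_zero]
    have h9 : ∀ k ∈ range (2 ^ a - 1), (if 0 + 1 + k = 0 then 0 else 1 - cx (0 + 1 + k - 1)) *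
        (ga i ^ 2 ^ (0 + 1 + k) * et j ^ 2 ^ (0 + 1 + k)) =
        ga i ^ 2 ^ (0 + 1 + k) * et j ^ 2 ^ (0 + 1 + k) -
        cx k * (ga i ^ 2 ^ (0 + 1 + k) * et j ^ 2 ^ (0 + 1 + k)) := by
      intro k _
      rw [if_neg (by omega), show 0 + 1 + k - 1 = k by omega]
      ring
    rw [Finset.sum_congr rfl h9, Finset.sum_sub_distrib, h1, sub_self]

end Pool.Agent.Lib.CPlane.S2
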