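import Pool.Agent.Lib.CPlane.SSAll
import Pool.Agent.Lib.CPlane.S2Stat

/-!
# s = 2: row SSR
-/

namespace Pool.Agent.Lib.CPlane.S2

open Finset Module Pool.Agent.Lib.CPlane.P2

theorem ssr : SSR := by
  intro K E _ _ _ _ _ _ _ n f e a ga et hp h2 c hc
  haveI : Fintype E := Fintype.ofFinite E
  obtain ⟨n, rfl⟩ : ∃ n', n = n' + 1 := ⟨n - 1, by
    have := hp.split.sum
    have := hp.split.two_f
    have := hp.split.two_e
    omega⟩
  have hN : NoNT (N := n + 3) ga et (n + 1) := by
    intro A hA hA2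
    exact h2 0 A (fun k hk => mem_Ico.2 ⟨Nat.zero_le _, by rw [zero_add]; exact hA k hk⟩) hA2
  have h := case2_all (K := K) (n := n) ga et hp.card hp.deg hp.p2 hp.split hN
    (fun k => c k) (fun i j => by
      have h3 := hc i j
      rw [← hp.deg, Finset.sum_range] at h3
      exact h3)
  intro k hk
  rw [← hp.deg] at hk
  exact congrFun h ⟨k, hk⟩

end Pool.Agent.Lib.CPlane.S2
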