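import Pool.Agent.Lib.CPlane.S2Main
import Pool.Agent.Lib.CPlane.S2NT
import Pool.Agent.Lib.CPlane.S2RED
import Pool.Agent.Lib.CPlane.S2L1b
import Pool.Agent.Lib.CPlane.S2WF
import Pool.Agent.Lib.CPlane.S2CA
import Pool.Agent.Lib.CPlane.S2Rel
import Pool.Agent.Lib.CPlane.SSSsr
import Pool.Agent.Lib.CPlane.M0All

/-!
# s = 2: Part II over the field with two elements
-/

namespace Pool.Agent.Lib.CPlane.S2

theorem main2_pre (the : THE) (leaf : LEAF) : MAIN2 :=
  main2_of red (end_of (fun ga et A => finrank_WA_shift ga et A 1) ntt the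
    (ca l1 ntt wfi (wnz ntt)) leaf ssr (rel ntt l1))

end Pool.Agent.Lib.CPlane.S2
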