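import Pool.Agent.Lib.CPlane.P2Moore

/-!
# s = 2: the subfield of index two, no two-element near tight sets
-/

namespace Pool.Agent.Lib.CPlane.RedC

open Finset Module

/-- `x` lies in the subfield of order `2 ^ (2 ^ a)` -/
def InL {E : Type} [Field E] (a : ℕ) (x : E) : Prop := x ^ 2 ^ 2 ^ a = x

section InL

variable {E : Type} [Field E] {a : ℕ}

theorem InL.zero : InL a (0 : E) := by
  unfold InL
  rw [zero_pow (by positivity)]

theorem InL.one : InL a (1 : E) := by
  unfold InL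
  rw [one_pow]

theorem InL.add [CharP E 2] {x y : E} (hx : InL a x) (hy : InL a y) : InL a (x + y) := by
  unfold InL at *
  rw [add_pow_char_pow, hx, hy]

theorem InL.mul {x y : E} (hx : InL a x) (hy : InL a y) : InL a (x * y) := by
  unfold InL at *
  rw [mul_pow, hx, hy]

theorem InL.inv {x : E} (hx : InL a x) : InL a x⁻¹ := by
  unfold InL at *
  rw [inv_pow, hx]

theorem InL.div {x y : E} (hx : InL a x) (hy : InL a y) : InL a (x / y) := by
  rw [div_eq_mul_inv]
  exact hx.mul hy.inv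

theorem InL.smul {K : Type} [Field K] [Fintype K] [Algebra K E] (hK : Fintype.card K = 2) (k : K)
    {x : E} (hx : InL a x) : InL a (k • x) := by
  rw [Algebra.smul_def]
  refine InL.mul ?_ hx
  unfold InL
  rw [← map_pow, ← hK, FiniteField.pow_card_pow]

theorem inL_of_pow [Finite E] [CharP E 2] (hE : Nat.card E = 2 ^ 2 ^ (a + 1)) {x : E} {k l : ℕ}
    (h : x ^ 2 ^ k = x ^ 2 ^ l) (hkl : ¬ k ≡ l [MOD 2 ^ (a + 1)]) : InL a x := by
  wlog hle : k ≤ l with H
  · exact H hE h.symm (fun h1 => hkl h1.symm) (le_of_not_ge hle)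
  obtain ⟨t, rfl⟩ := Nat.exists_eq_add_of_le hle
  have hiter : ∀ (j : ℕ) (y : E), (frobenius E 2)^[j] y = y ^ 2 ^ j := fun j y => by
    rw [iterate_frobenius]
  have h1 : Function.IsPeriodicPt (frobenius E 2) t x := by
    have h2 : Function.Injective ((frobenius E 2)^[k]) := (frobenius_inj E 2).iterate k
    change (frobenius E 2)^[t] x = x
    apply h2
    rw [← Function.iterate_add_apply, hiter, hiter, ← h]
  have h3 : Function.IsPeriodicPt (frobenius E 2) (2 ^ (a + 1)) x := by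
    change (frobenius E 2)^[2 ^ (a + 1)] x = x
    rw [hiter, ← hE]
    have : Fintype E := Fintype.ofFinite E
    rw [Nat.card_eq_fintype_card]
    exact FiniteField.pow_card x
  have h4 := h3.gcd h1
  obtain ⟨i, hi, hi'⟩ := (Nat.dvd_prime_pow Nat.prime_two).1 (Nat.gcd_dvd_left (2 ^ (a + 1)) t)
  have h5 : i ≤ a := by
    by_contra h6
    have h7 : i = a + 1 := by omega
    rw [h7] at hi'
    have h8 : 2 ^ (a + 1) ∣ t := by
      rw [← hi']
      exact Nat.gcd_dvd_right _ _
    apply hkl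
    have h9 : t ≡ 0 [MOD 2 ^ (a + 1)] := (Nat.modEq_zero_iff_dvd.2 h8)
    calc k = k + 0 := rfl
      _ ≡ k + t [MOD 2 ^ (a + 1)] := Nat.ModEq.add_left k h9.symm
  rw [hi'] at h4
  have h10 : Function.IsPeriodicPt (frobenius E 2) (2 ^ a) x :=
    h4.trans_dvd (pow_dvd_pow 2 h5)
  have h11 : (frobenius E 2)^[2 ^ a] x = x := h10
  rw [hiter] at h11
  exact h11

end InL

section K

variable {K E : Type} [Field K] [Fintype K] [CharP K 2] [Field E] [Finite E] [Algebra K E]
  {a : ℕ}

/-- elements of the subfield have trace zero -/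
theorem trace_of_inL (hK : Fintype.card K = 2) (hm : finrank K E = 2 ^ (a + 1)) {x : E}
    (hx : InL a x) : Algebra.trace K E x = 0 := by
  have hch : CharP E 2 := charP_of_injective_algebraMap (algebraMap K E).injective 2
  apply (algebraMap K E).injective
  rw [FiniteField.algebraMap_trace_eq_sum_pow, hm, map_zero, Nat.card_eq_fintype_card, hK,
    pow_succ, mul_two, Finset.sum_range_add]
  have h1 : ∀ i, x ^ 2 ^ (2 ^ a + i) = x ^ 2 ^ i := by
    intro i
    rw [pow_add, pow_mul]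
    unfold InL at hx
    rw [hx]
  simp only [h1]
  exact CharTwo.add_self_eq_zero _

/-- the subspace `x L` -/
def Lsub (K : Type) {E : Type} [Field K] [Fintype K] [Field E] [CharP E 2] [Algebra K E]
    (hK : Fintype.card K = 2) (a : ℕ) (x : E) : Submodule K E where
  carrier := {y | InL a (y / x)}
  add_mem' := by
    intro y z hy hz
    change InL a ((y + z) / x)
    rw [add_div]
    exact InL.add hy hz
  zero_mem' := by
    change InL a (0 / x)
    rw [zero_div]
    exact InL.zero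
  smul_mem' := by
    intro k y hy
    change InL a (k • y / x)
    rw [smul_div_assoc]
    exact InL.smul hK k hy

omit [CharP K 2] [Finite E] in
theorem mem_Lsub [CharP E 2] (hK : Fintype.card K = 2) (x y : E) :
    y ∈ Lsub K hK a x ↔ InL a (y / x) := Iff.rfl

omit [CharP K 2] in
/-- a subspace `≠ 0` has an odd number of nonzero elements -/
theorem odd_card (hK : Fintype.card K = 2) (W : Submodule K E) (hW : W ≠ ⊥) :
    Odd (Nat.card {y : E // y ∈ W ∧ y ≠ 0}) := by
  classical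
  have : Fintype E := Fintype.ofFinite E
  have h1 : Nat.card W = 2 ^ finrank K W := by
    rw [Module.natCard_eq_pow_finrank (K := K) (V := W), Nat.card_eq_fintype_card, hK]
  have h2 : finrank K W ≠ 0 := fun h => hW (Submodule.finrank_eq_zero.1 h)
  have h3 : Nat.card W = Nat.card {y : E // y ∈ W ∧ y ≠ 0} + 1 := by
    rw [Nat.card_eq_fintype_card, Nat.card_eq_fintype_card, Fintype.card_subtype,
      Fintype.card_subtype]
    have h5 : (univ.filter fun y : E => y ∈ W ∧ y ≠ 0) =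
        (univ.filter fun y : E => y ∈ W).erase 0 := by
      ext y
      simp [and_comm]
    rw [h5, Finset.card_erase_of_mem (by simp)]
    have h6 : 0 < (univ.filter fun y : E => y ∈ W).card :=
      Finset.card_pos.2 ⟨0, by simp⟩
    omega
  rw [h1] at h3
  obtain ⟨j, hj⟩ := Nat.exists_eq_succ_of_ne_zero h2
  rw [hj, Nat.succ_eq_add_one, pow_succ] at h3
  rw [Nat.odd_iff]
  omega

/-- if the set of `L`-lines of `Y` is stable under squaring then `Y` meets `L` -/
theorem core (hK : Fintype.card K = 2) (hm : finrank K E = 2 ^ (a + 1)) (Y : Submodule K E)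
    (hY : Y ≠ ⊥) (h : ∀ y ∈ Y, y ≠ 0 → ∃ l : E, InL a l ∧ l ≠ 0 ∧ l * y ^ 2 ∈ Y) :
    ∃ y ∈ Y, y ≠ 0 ∧ InL a y := by
  classical
  have hch : CharP E 2 := charP_of_injective_algebraMap (algebraMap K E).injective 2
  have : Fintype E := Fintype.ofFinite E
  have hE : Fintype.card E = 2 ^ 2 ^ (a + 1) := by
    rw [Module.card_eq_pow_finrank (K := K) (V := E), hK, hm]
  let Ms : Finset E := univ.filter fun x => x ≠ 0 ∧ ∃ y ∈ Y, y ≠ 0 ∧ InL a (x / y)
  let Ls : Finset E := univ.filter fun l => l ∈ Lsub K hK a (1 : E) ∧ l ≠ 0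
  let Ys : Finset E := univ.filter fun y => y ∈ Y ∧ y ≠ 0
  have hodd : Odd Ms.card := by
    have h1 : (Ls ×ˢ Ys).card = ∑ x ∈ Ms, ((Ls ×ˢ Ys).filter fun p => p.1 * p.2 = x).card := by
      refine Finset.card_eq_sum_card_fiberwise ?_
      rintro ⟨l, y⟩ hp
      obtain ⟨hl, hy⟩ := Finset.mem_product.1 (Finset.mem_coe.1 hp)
      obtain ⟨-, hl1, hl2⟩ := Finset.mem_filter.1 hl
      obtain ⟨-, hy1, hy2⟩ := Finset.mem_filter.1 hy
      refine Finset.mem_coe.2 (Finset.mem_filter.2 ⟨Finset.mem_univ _, mul_ne_zero hl2 hy2, y,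
        hy1, hy2, ?_⟩)
      simp only at hl1 hl2 hy1 hy2 ⊢
      rw [mul_div_cancel_right₀ _ hy2]
      rw [mem_Lsub, div_one] at hl1
      exact hl1
    have h2 : Odd (Ls ×ˢ Ys).card := by
      rw [Finset.card_product]
      refine Odd.mul ?_ ?_
      · have := odd_card hK (Lsub K hK a (1 : E)) (by
          intro h0
          have h1 : (1 : E) ∈ Lsub K hK a (1 : E) := by
            rw [mem_Lsub, div_one]
            exact InL.one
          rw [h0, Submodule.mem_bot] at h1
          exact one_ne_zero h1)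
        rwa [Nat.card_eq_fintype_card, Fintype.card_subtype] at this
      · have := odd_card hK Y hY
        rwa [Nat.card_eq_fintype_card, Fintype.card_subtype] at this
    rw [h1, Finset.odd_sum_iff_odd_card_odd] at h2
    rwa [Finset.filter_true_of_mem] at h2
    intro x hx
    obtain ⟨-, hx0, y0, hy0, hy00, hxy⟩ := Finset.mem_filter.1 hx
    have h3 : ((Ls ×ˢ Ys).filter fun p => p.1 * p.2 = x).card =
        Nat.card {y : E // y ∈ Y ⊓ Lsub K hK a x ∧ y ≠ 0} := by
      rw [Nat.card_eq_fintype_card, Fintype.card_subtype]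
      refine Finset.card_bij (fun p _ => p.2) ?_ ?_ ?_
      · rintro ⟨l, y⟩ hp
        obtain ⟨hp, hpx⟩ := Finset.mem_filter.1 hp
        obtain ⟨hl, hy⟩ := Finset.mem_product.1 hp
        obtain ⟨-, hl1, hl2⟩ := Finset.mem_filter.1 hl
        obtain ⟨-, hy1, hy2⟩ := Finset.mem_filter.1 hy
        simp only at hl1 hl2 hy1 hy2 hpx ⊢
        refine Finset.mem_filter.2 ⟨Finset.mem_univ _, Submodule.mem_inf.2 ⟨hy1, ?_⟩, hy2⟩
        rw [mem_Lsub, ← hpx, mul_comm, div_mul_cancel_left₀ hy2]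
        rw [mem_Lsub, div_one] at hl1
        exact hl1.inv
      · rintro ⟨l, y⟩ hp ⟨l', y'⟩ hp' he
        obtain ⟨hp, hpx⟩ := Finset.mem_filter.1 hp
        obtain ⟨hp', hpx'⟩ := Finset.mem_filter.1 hp'
        obtain ⟨hl, hy⟩ := Finset.mem_product.1 hp
        obtain ⟨-, hy1, hy2⟩ := Finset.mem_filter.1 hy
        simp only at he hpx hpx' hy2
        subst he
        rw [← hpx'] at hpx
        rw [mul_right_cancel₀ hy2 hpx]
      · intro y hy
        obtain ⟨-, hy1, hy2⟩ := Finset.mem_filter.1 hy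
        obtain ⟨hy3, hy4⟩ := Submodule.mem_inf.1 hy1
        rw [mem_Lsub] at hy4
        refine ⟨(x / y, y), ?_, rfl⟩
        refine Finset.mem_filter.2 ⟨Finset.mem_product.2 ⟨Finset.mem_filter.2
          ⟨Finset.mem_univ _, ?_, div_ne_zero hx0 hy2⟩, Finset.mem_filter.2
          ⟨Finset.mem_univ _, hy3, hy2⟩⟩, div_mul_cancel₀ _ hy2⟩
        rw [mem_Lsub, div_one]
        have := hy4.inv
        rwa [inv_div] at this
    rw [h3]
    refine odd_card hK _ ?_
    intro h0
    have h1 : y0 ∈ Y ⊓ Lsub K hK a x := by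
      refine Submodule.mem_inf.2 ⟨hy0, ?_⟩
      rw [mem_Lsub]
      have := hxy.inv
      rwa [inv_div] at this
    rw [h0, Submodule.mem_bot] at h1
    exact hy00 h1
  -- the squaring permutation
  have hsq : ∀ x ∈ Ms, x ^ 2 ∈ Ms := by
    intro x hx
    obtain ⟨-, hx0, y, hy, hy0, hxy⟩ := Finset.mem_filter.1 hx
    obtain ⟨l, hl, hl0, hly⟩ := h y hy hy0
    refine Finset.mem_filter.2 ⟨Finset.mem_univ _, pow_ne_zero _ hx0, l * y ^ 2, hly,
      mul_ne_zero hl0 (pow_ne_zero _ hy0), ?_⟩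
    have h1 : x ^ 2 / (l * y ^ 2) = (x / y) * (x / y) / l := by
      field_simp
    rw [h1]
    exact (hxy.mul hxy).div hl
  let f : Ms → Ms := fun x => ⟨x.1 ^ 2, hsq x.1 x.2⟩
  have hf : Function.Injective f := by
    intro x y hxy
    have h1 : x.1 ^ 2 = y.1 ^ 2 := congrArg Subtype.val hxy
    exact Subtype.ext (frobenius_inj E 2 (by simpa [frobenius_def] using h1))
  let σ : Equiv.Perm Ms := Equiv.ofBijective f (Finite.injective_iff_bijective.1 hf)
  have hσ : ∀ (j : ℕ) (x : Ms), ((σ ^ j) x).1 = x.1 ^ 2 ^ j := by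
    intro j
    induction j with
    | zero => intro x; simp
    | succ j ih =>
      intro x
      rw [pow_succ, Equiv.Perm.mul_apply, ih]
      change (x.1 ^ 2) ^ 2 ^ j = _
      rw [← pow_mul, pow_succ']
  have hσ1 : σ ^ 2 ^ (a + 1) = 1 := by
    ext x
    rw [hσ, ← hE, FiniteField.pow_card]
    rfl
  have hnd : ¬ 2 ∣ Fintype.card Ms := by
    rw [Fintype.card_coe]
    intro h2
    rw [Nat.odd_iff] at hodd
    omega
  obtain ⟨x, hx⟩ := Equiv.Perm.exists_fixed_point_of_prime hnd hσ1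
  have hx1 : x.1 ^ 2 = x.1 := congrArg Subtype.val hx
  obtain ⟨-, hx0, y, hy, hy0, hxy⟩ := Finset.mem_filter.1 x.2
  have hx2 : x.1 = 1 := by
    have h3 : x.1 * (x.1 - 1) = 0 := by
      rw [mul_sub, mul_one, ← sq, hx1, sub_self]
    rcases mul_eq_zero.1 h3 with h4 | h4
    · exact absurd h4 hx0
    · exact sub_eq_zero.1 h4
  refine ⟨y, hy, hy0, ?_⟩
  rw [hx2] at hxy
  have := hxy.inv
  rwa [inv_div, div_one] at this

/-- `G` is not inside a multiple of the subfield -/
theorem noSub (hK : Fintype.card K = 2) (hm : finrank K E = 2 ^ (a + 1)) (G Y : Submodule K E)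
    (hY : Y ≠ ⊥) (hp : ∀ y ∈ Y, y ≠ 0 → ∃ g ∈ G, Algebra.trace K E (g * y) ≠ 0)
    (hii : ∀ b : E, b ≠ 0 → (∃ g ∈ G, ∃ y ∈ Y, g + b ^ 2 * y = b) →
      ∃ y ∈ Y, y ≠ 0 ∧ b ^ 2 * y ∈ G) (z : E) (hz : z ≠ 0) : ∃ g ∈ G, ¬ InL a (g / z) := by
  by_contra hcon
  push Not at hcon
  obtain ⟨y2, hy2, hy20, hy2L⟩ := core hK hm (Y.map (LinearMap.mulLeft K z)) (by
      intro h0
      obtain ⟨y0, hy0, hy00⟩ := Submodule.exists_mem_ne_zero_of_ne_bot hY
      have h1 : LinearMap.mulLeft K z y0 ∈ Y.map (LinearMap.mulLeft K z) :=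
        Submodule.mem_map_of_mem hy0
      rw [h0, Submodule.mem_bot, LinearMap.mulLeft_apply] at h1
      exact mul_ne_zero hz hy00 h1) (by
      rintro _ ⟨y, hy, rfl⟩ hy0
      rw [LinearMap.mulLeft_apply] at hy0 ⊢
      have hy1 : y ≠ 0 := fun h => hy0 (by rw [h, mul_zero])
      obtain ⟨y', hy', hy'0, hG⟩ := hii y⁻¹ (inv_ne_zero hy1) ⟨0, G.zero_mem, y, hy, by
        field_simp
        ring⟩
      refine ⟨(y⁻¹) ^ 2 * y' / z, hcon _ hG, ?_, y', hy', ?_⟩
      · exact div_ne_zero (mul_ne_zero (pow_ne_zero _ (inv_ne_zero hy1)) hy'0) hz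
      · rw [LinearMap.mulLeft_apply]
        field_simp)
  obtain ⟨y, hy, rfl⟩ := hy2
  rw [LinearMap.mulLeft_apply] at hy20 hy2L
  have hy1 : y ≠ 0 := fun h => hy20 (by rw [h, mul_zero])
  obtain ⟨g, hg, hgt⟩ := hp y hy hy1
  apply hgt
  apply trace_of_inL hK hm
  have h1 : g * y = (g / z) * (z * y) := by
    field_simp
  rw [h1]
  exact (hcon g hg).mul hy2L

end K

end Pool.Agent.Lib.CPlane.RedC
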