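import Pool.Agent.Lib.CPlane.S2RedA
import Pool.Agent.Lib.CPlane.M0Stat

/-!
# s = 2: the cut of a balanced pair
-/

namespace Pool.Agent.Lib.CPlane.RedC

open Finset Module Pool.Agent.Lib.CPlane.S2

variable {K E : Type} [Field K] [Fintype K] [CharP K 2] [Field E] [Finite E] [Algebra K E]
  {a : ℕ}

omit [CharP K 2] [Fintype K] in
/-- the trace pairing is also nondegenerate on the other side -/
theorem flip_pairing (G Y : Submodule K E) (hGY : finrank K G = finrank K Y)
    (hp : ∀ g ∈ G, g ≠ 0 → ∃ y ∈ Y, Algebra.trace K E (g * y) ≠ 0) :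
    ∀ y ∈ Y, y ≠ 0 → ∃ g ∈ G, Algebra.trace K E (g * y) ≠ 0 := by
  let φ : G →ₗ[K] Module.Dual K Y :=
    { toFun := fun g => (Algebra.trace K E).comp ((LinearMap.mulLeft K (g : E)).comp Y.subtype)
      map_add' := by
        intro g g'
        ext y
        simp [add_mul]
      map_smul' := by
        intro k g
        ext y
        simp }
  have hφ : ∀ g y, φ g y = Algebra.trace K E ((g : E) * (y : E)) := fun g y => rfl
  have hinj : Function.Injective φ := by
    rw [← LinearMap.ker_eq_bot, LinearMap.ker_eq_bot']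
    intro g hg
    by_contra hg0
    obtain ⟨y, hy, hyt⟩ := hp g g.2 (fun h => hg0 (Subtype.ext h))
    exact hyt (by rw [← hφ g ⟨y, hy⟩, hg]; rfl)
  have hsurj : Function.Surjective φ := by
    rw [← LinearMap.injective_iff_surjective_of_finrank_eq_finrank]
    · exact hinj
    · rw [hGY, Subspace.dual_finrank_eq]
  intro y hy hy0
  obtain ⟨f, hf⟩ : ∃ f : Module.Dual K Y, f ⟨y, hy⟩ ≠ 0 := by
    by_contra hcon
    apply hy0
    have h1 : (⟨y, hy⟩ : Y) = 0 := by
      rw [← Module.forall_dual_apply_eq_zero_iff K]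
      intro f
      by_contra h
      exact hcon ⟨f, h⟩
    exact congrArg Subtype.val h1
  obtain ⟨g, rfl⟩ := hsurj f
  exact ⟨g, g.2, hf⟩

/-- one dimensional cut: impossible -/
theorem no_line (hK : Fintype.card K = 2) (hm : finrank K E = 2 ^ a) (Y : Submodule K E)
    (u : E) (hu : u ≠ 0)
    (h : ∀ b : E, b ≠ 0 → (∃ k : K, ∃ y ∈ Y, k • u + b ^ 2 * y = b) →
      ∃ y ∈ Y, b ^ 2 * y = u) : Y = ⊤ := by
  have hch : CharP E 2 := charP_of_injective_algebraMap (algebraMap K E).injective 2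
  have hE : Nat.card E = 2 ^ 2 ^ a := by
    have : Fintype E := Fintype.ofFinite E
    rw [Nat.card_eq_fintype_card, Module.card_eq_pow_finrank (K := K) (V := E), hK, hm]
  -- membership in `u Y`
  have key : ∀ x : E, x ≠ 0 → (x / u ∈ Y ∨ (x + x ^ 2) / u ∈ Y) → x ^ 2 / u ∈ Y := by
    intro x hx hxx
    have hb : u / x ≠ 0 := div_ne_zero hu hx
    obtain ⟨y, hy, hyu⟩ := h (u / x) hb (by
      rcases hxx with h1 | h1
      · refine ⟨0, x / u, h1, ?_⟩
        rw [zero_smul]
        field_simp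
        ring
      · refine ⟨1, (x + x ^ 2) / u, h1, ?_⟩
        rw [one_smul]
        have h2 : u + (u / x) ^ 2 * ((x + x ^ 2) / u) = u / x + (u + u) := by
          field_simp
          ring
        rw [h2, CharTwo.add_self_eq_zero, add_zero])
    have h3 : y = x ^ 2 / u := by
      field_simp at hyu ⊢
      linear_combination hyu
    rw [← h3]
    exact hy
  have key2 : ∀ x : E, (x + x ^ 2) / u ∈ Y → x / u ∈ Y := by
    intro x hx
    by_cases hx0 : x = 0
    · rw [hx0, zero_div]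
      exact Y.zero_mem
    · have h1 := key x hx0 (Or.inr hx)
      have h2 := Y.sub_mem hx h1
      have h3 : (x + x ^ 2) / u - x ^ 2 / u = x / u := by
        rw [add_div, add_sub_cancel_right]
      rwa [h3] at h2
  have hpow : ∀ (j : ℕ) (x : E), (x + x ^ 2 ^ 2 ^ j) / u ∈ Y → x / u ∈ Y := by
    intro j
    induction j with
    | zero =>
      intro x hx
      refine key2 x ?_
      simpa using hx
    | succ j ih =>
      intro x hx
      refine ih x (ih _ ?_)
      have h1 : (x + x ^ 2 ^ 2 ^ j) + (x + x ^ 2 ^ 2 ^ j) ^ 2 ^ 2 ^ j =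
          x + x ^ 2 ^ 2 ^ (j + 1) := by
        rw [add_pow_char_pow, ← pow_mul, ← pow_add, ← mul_two, ← pow_succ]
        have h2 := CharTwo.add_self_eq_zero (x ^ 2 ^ 2 ^ j)
        linear_combination h2
      rw [h1]
      exact hx
  rw [eq_top_iff]
  intro x _
  have h1 := hpow a (u * x) (by
    have : Fintype E := Fintype.ofFinite E
    rw [← hE, Nat.card_eq_fintype_card, FiniteField.pow_card, CharTwo.add_self_eq_zero,
      zero_div]
    exact Y.zero_mem)
  rwa [mul_div_cancel_left₀ _ hu] at h1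

omit [CharP K 2] [Fintype K] in
/-- a complement-like subspace containing `u` and not inside `U` -/
theorem exists_cut (G B U : Submodule K E) (hBG : B ≤ G) (hne : B ≠ G) (hU : ¬ G ≤ U) (u : E)
    (hu : u ∈ B) :
    ∃ Z : Submodule K E, Z ≤ G ∧ u ∈ Z ∧ Z ⊔ B = G ∧ Z ⊓ B = Submodule.span K {u} ∧
      ¬ Z ≤ U := by
  -- from a complement to `Z`
  have step : ∀ Z0 : Submodule K E, Z0 ⊓ B = ⊥ → Z0 ⊔ B = G → ¬ Z0 ≤ U →
      ∃ Z : Submodule K E, Z ≤ G ∧ u ∈ Z ∧ Z ⊔ B = G ∧ Z ⊓ B = Submodule.span K {u} ∧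
      ¬ Z ≤ U := by
    intro Z0 h1 h2 h3
    have huB : Submodule.span K {u} ≤ B := by
      rw [Submodule.span_singleton_le_iff_mem]
      exact hu
    refine ⟨Z0 ⊔ Submodule.span K {u}, ?_, ?_, ?_, ?_, ?_⟩
    · exact sup_le (h2 ▸ le_sup_left) (huB.trans hBG)
    · exact (le_sup_right : Submodule.span K {u} ≤ _) (Submodule.mem_span_singleton_self u)
    · rw [sup_assoc, sup_eq_right.2 huB, h2]
    · rw [sup_comm, sup_inf_assoc_of_le Z0 huB, h1, sup_bot_eq]
    · exact fun h => h3 (le_sup_left.trans h)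
  obtain ⟨C, hC⟩ := B.exists_isCompl
  have hZ1 : (C ⊓ G) ⊓ B = ⊥ := by
    rw [eq_bot_iff, ← hC.inf_eq_bot]
    exact le_inf inf_le_right (inf_le_left.trans inf_le_left)
  have hZ2 : (C ⊓ G) ⊔ B = G := by
    rw [sup_comm, ← sup_inf_assoc_of_le C hBG, hC.sup_eq_top, top_inf_eq]
  by_cases hZ : (C ⊓ G) ≤ U
  · -- modify
    have hBU : ¬ B ≤ U := fun h => hU (hZ2 ▸ sup_le hZ h)
    obtain ⟨b, hb, hbU⟩ := SetLike.not_le_iff_exists.1 hBU
    have hZ0 : C ⊓ G ≠ ⊥ := by
      intro h
      rw [h, bot_sup_eq] at hZ2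
      exact hne hZ2
    obtain ⟨z0, hz0, hz00⟩ := Submodule.exists_mem_ne_zero_of_ne_bot hZ0
    obtain ⟨f, hf⟩ : ∃ f : Module.Dual K E, f z0 ≠ 0 := by
      by_contra hcon
      apply hz00
      rw [← Module.forall_dual_apply_eq_zero_iff K]
      intro f
      by_contra h
      exact hcon ⟨f, h⟩
    let ψ : E →ₗ[K] E := LinearMap.id + f.smulRight b
    have hψ : ∀ x, ψ x = x + f x • b := fun x => rfl
    refine step ((C ⊓ G).map ψ) ?_ ?_ ?_
    · rw [eq_bot_iff]
      rintro _ ⟨⟨x, hx, rfl⟩, hxB⟩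
      rw [hψ] at hxB
      have h1 : x ∈ B := by
        have := B.sub_mem hxB (B.smul_mem (f x) hb)
        rwa [add_sub_cancel_right] at this
      have h2 : x ∈ (C ⊓ G) ⊓ B := ⟨hx, h1⟩
      rw [hZ1, Submodule.mem_bot] at h2
      rw [hψ, h2, map_zero, zero_smul, add_zero]
      exact Submodule.zero_mem _
    · apply le_antisymm
      · refine sup_le ?_ hBG
        rintro _ ⟨x, hx, rfl⟩
        rw [hψ]
        exact G.add_mem hx.2 (G.smul_mem _ (hBG hb))
      · refine hZ2.symm.le.trans (sup_le ?_ le_sup_right)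
        intro x hx
        have h1 : x = ψ x - f x • b := by rw [hψ, add_sub_cancel_right]
        rw [h1]
        refine Submodule.sub_mem _ ?_ ?_
        · exact (le_sup_left : (C ⊓ G).map ψ ≤ _) (Submodule.mem_map_of_mem hx)
        · exact (le_sup_right : B ≤ (C ⊓ G).map ψ ⊔ B) (B.smul_mem _ hb)
    · intro h
      have h1 : ψ z0 ∈ U := h (Submodule.mem_map_of_mem hz0)
      rw [hψ] at h1
      have h2 := U.sub_mem h1 (hZ hz0)
      rw [add_sub_cancel_left] at h2
      apply hbU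
      have h3 := U.smul_mem (f z0)⁻¹ h2
      rwa [smul_smul, inv_mul_cancel₀ hf, one_smul] at h3
  · exact step _ hZ1 hZ2 hZ

end Pool.Agent.Lib.CPlane.RedC
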