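import Pool.Agent.Lib.CPlane.S2RedB

/-!
# s = 2: the reduction to an unbalanced pair with a point of weight one
-/

namespace Pool.Agent.Lib.CPlane.RedC

open Finset Module Pool.Agent.Lib.CPlane.P2 Pool.Agent.Lib.CPlane.S2

/-- `g_k`, `g_l` are never proportional -/
def NS {E : Type} [Field E] {N : ℕ} (v : Fin N → E) (m : ℕ) : Prop :=
  ∀ k l : ℕ, ¬ k ≡ l [MOD m] → ∀ c : E, ∃ j, v j ^ 2 ^ k ≠ c * v j ^ 2 ^ l

variable {K E : Type} [Field K] [Fintype K] [CharP K 2] [Field E] [Finite E] [Algebra K E]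
  {a : ℕ}

omit [Fintype K] [CharP K 2] [Finite E] in
theorem lin_mem {N : ℕ} (W : Submodule K E) (v : Fin N → E) (hv : ∀ j, v j ∈ W)
    (c : Fin N → K) : lin v c ∈ W := W.sum_mem fun j _ => W.smul_mem _ (hv j)

/-- not proportional -/
theorem ns_of (hK : Fintype.card K = 2) (hm : finrank K E = 2 ^ (a + 1)) {N : ℕ}
    (W : Submodule K E) (hW : ∀ z : E, z ≠ 0 → ∃ g ∈ W, ¬ InL a (g / z)) (hW0 : W ≠ ⊥)
    (v : Fin N → E) (hv : ∀ x ∈ W, ∃ c : Fin N → K, lin v c = x) : NS v (2 ^ (a + 1)) := by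
  have hch : CharP E 2 := charP_of_injective_algebraMap (algebraMap K E).injective 2
  have hE : Nat.card E = 2 ^ 2 ^ (a + 1) := by
    have : Fintype E := Fintype.ofFinite E
    rw [Nat.card_eq_fintype_card, Module.card_eq_pow_finrank (K := K) (V := E), hK, hm]
  intro k l hkl c
  by_contra hcon
  push Not at hcon
  obtain ⟨x, hx, hx0⟩ := Submodule.exists_mem_ne_zero_of_ne_bot hW0
  obtain ⟨d, hd⟩ := hv x hx
  obtain ⟨j0, hj0⟩ : ∃ j, v j ≠ 0 := by
    by_contra h
    push Not at h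
    apply hx0
    rw [← hd]
    unfold lin
    exact Finset.sum_eq_zero fun j _ => by rw [h j, smul_zero]
  have hc : c ≠ 0 := by
    rintro rfl
    have h1 := hcon j0
    rw [zero_mul] at h1
    exact pow_ne_zero _ hj0 h1
  have hj : ∀ j, InL a (v j / v j0) := by
    intro j
    refine inL_of_pow hE (k := k) (l := l) ?_ hkl
    rw [div_pow, div_pow, hcon j, hcon j0, mul_div_mul_left _ _ hc]
  obtain ⟨g, hg, hgL⟩ := hW (v j0) hj0
  apply hgL
  obtain ⟨d', rfl⟩ := hv g hg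
  have h1 := lin_mem (Lsub K hK a (v j0)) v hj d'
  exact h1

omit [Fintype K] [CharP K 2] [Finite E] in
/-- the adapted basis -/
theorem exists_split (Y Z : Submodule K E) [FiniteDimensional K Y] [FiniteDimensional K Z]
    {f e : ℕ} (hf : finrank K Y = f)
    (he : finrank K Z = e) (h2f : 2 ≤ f) (h2e : 2 ≤ e) (N : ℕ) (hN : f + e = N) :
    ∃ ga et : Fin N → E, Split ga et f e ∧ (∀ j, ga j ∈ Y) ∧ (∀ j, et j ∈ Z) ∧
      (∀ y ∈ Y, ∀ z ∈ Z, ∃ c : Fin N → K, lin ga c = y ∧ lin et c = z) ∧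
      ∀ c : Fin N → K, lin ga c = 0 → lin et c = 0 → c = 0 := by
  classical
  subst hN
  let bY := (Module.finBasisOfFinrankEq K Y hf)
  let bZ := (Module.finBasisOfFinrankEq K Z he)
  let ga : Fin (f + e) → E := Fin.append (fun i => (bY i : E)) (fun _ => 0)
  let et : Fin (f + e) → E := Fin.append (fun _ => 0) (fun i => (bZ i : E))
  have hga1 : ∀ i : Fin f, ga (Fin.castAdd e i) = bY i := fun i => Fin.append_left _ _ i
  have hga2 : ∀ i : Fin e, ga (Fin.natAdd f i) = 0 := fun i => Fin.append_right _ _ i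
  have het1 : ∀ i : Fin f, et (Fin.castAdd e i) = 0 := fun i => Fin.append_left _ _ i
  have het2 : ∀ i : Fin e, et (Fin.natAdd f i) = bZ i := fun i => Fin.append_right _ _ i
  have hbY : ∀ i, (bY i : E) ≠ 0 := fun i h => bY.ne_zero i (Subtype.ext h)
  have hbZ : ∀ i, (bZ i : E) ≠ 0 := fun i h => bZ.ne_zero i (Subtype.ext h)
  have hlga : ∀ c : Fin (f + e) → K, lin ga c =
      ((∑ i, c (Fin.castAdd e i) • bY i : Y) : E) := by
    intro c
    unfold lin
    rw [Fin.sum_univ_add]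
    simp only [hga1, hga2, smul_zero, Finset.sum_const_zero, add_zero]
    simp
  have hlet : ∀ c : Fin (f + e) → K, lin et c =
      ((∑ i, c (Fin.natAdd f i) • bZ i : Z) : E) := by
    intro c
    unfold lin
    rw [Fin.sum_univ_add]
    simp only [het1, het2, smul_zero, Finset.sum_const_zero, zero_add]
    simp
  refine ⟨ga, et, ⟨?_, ?_, ?_, rfl, h2f, h2e⟩, ?_, ?_, ?_, ?_⟩
  · intro j
    refine Fin.addCases (fun i => ?_) (fun i => ?_) j
    · right; exact het1 i
    · left; exact hga2 i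
  · have e1 : {j // et j = 0} ≃ Fin f :=
      { toFun := fun j => Fin.castLT j.1 (by
          by_contra h
          push Not at h
          have h1 : j.1 = Fin.natAdd f ⟨j.1 - f, by omega⟩ := Fin.ext (by simp; omega)
          have h2 := j.2
          rw [h1, het2] at h2
          exact hbZ _ h2)
        invFun := fun i => ⟨Fin.castAdd e i, het1 i⟩
        left_inv := fun j => Subtype.ext (Fin.ext rfl)
        right_inv := fun i => Fin.ext rfl }
    rw [Nat.card_congr e1, Nat.card_fin]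
  · have e1 : {j // ga j = 0} ≃ Fin e :=
      { toFun := fun j => ⟨j.1 - f, by have := j.1.2; omega⟩
        invFun := fun i => ⟨Fin.natAdd f i, hga2 i⟩
        left_inv := fun j => Subtype.ext (Fin.ext (by
          have h3 : f ≤ (j.1 : ℕ) := by
            by_contra h
            push Not at h
            have h1 : j.1 = Fin.castAdd e ⟨j.1, h⟩ := Fin.ext rfl
            have h2 := j.2
            rw [h1, hga1] at h2
            exact hbY _ h2
          simp
          omega))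
        right_inv := fun i => Fin.ext (by simp) }
    rw [Nat.card_congr e1, Nat.card_fin]
  · intro j
    refine Fin.addCases (fun i => ?_) (fun i => ?_) j
    · rw [hga1]; exact (bY i).2
    · rw [hga2]; exact Y.zero_mem
  · intro j
    refine Fin.addCases (fun i => ?_) (fun i => ?_) j
    · rw [het1]; exact Z.zero_mem
    · rw [het2]; exact (bZ i).2
  · intro y hy z hz
    refine ⟨Fin.append (fun i => bY.repr ⟨y, hy⟩ i) (fun i => bZ.repr ⟨z, hz⟩ i), ?_, ?_⟩
    · rw [hlga]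
      simp only [Fin.append_left]
      rw [bY.sum_repr]
    · rw [hlet]
      simp only [Fin.append_right]
      rw [bZ.sum_repr]
  · intro c h1 h2
    rw [hlga] at h1
    rw [hlet] at h2
    have h3 : (∑ i, c (Fin.castAdd e i) • bY i : Y) = 0 := Subtype.ext h1
    have h4 : (∑ i, c (Fin.natAdd f i) • bZ i : Z) = 0 := Subtype.ext h2
    have h5 := Fintype.linearIndependent_iff.1 bY.linearIndependent _ h3
    have h6 := Fintype.linearIndependent_iff.1 bZ.linearIndependent _ h4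
    ext1 j
    refine Fin.addCases (fun i => ?_) (fun i => ?_) j
    · exact h5 i
    · exact h6 i

/-- RED -/
theorem red (hK : Fintype.card K = 2) (hm : finrank K E = 2 ^ a)
    (G Y : Submodule K E) (hGY : finrank K G = finrank K Y) (h2 : 2 * finrank K Y < 2 ^ a)
    (hY : Y ≠ ⊥)
    (hp : ∀ g ∈ G, g ≠ 0 → ∃ y ∈ Y, Algebra.trace K E (g * y) ≠ 0)
    (hii : ∀ b : E, b ≠ 0 → (∃ g ∈ G, ∃ y ∈ Y, g + b ^ 2 * y = b) →
      ∃ y ∈ Y, y ≠ 0 ∧ b ^ 2 * y ∈ G) :
    ∃ (n f e : ℕ) (ga et : Fin (n + 2) → E), Split ga et f e ∧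
      (∀ c : Fin (n + 2) → K, lin ga c = 0 → lin et c = 0 → c = 0) ∧
      (∀ c : Fin (n + 2) → K, lin et c ≠ 0 → ∃ d : Fin (n + 2) → K,
        Algebra.trace K E (lin ga d * lin et c) ≠ 0) ∧
      (∀ b : E, IsVx K ga et b → 1 ≤ wt K ga et (b ^ 2)) ∧
      (∃ b : E, b ≠ 0 ∧ wt K ga et (b ^ 2) = 1) ∧
      e ≤ f ∧ 2 * f < 2 ^ a ∧ NS ga (2 ^ a) ∧ NS et (2 ^ a) := by
  classical
  have hch : CharP E 2 := charP_of_injective_algebraMap (algebraMap K E).injective 2
  have hY1 : finrank K Y ≠ 0 := fun h => hY (Submodule.finrank_eq_zero.1 h)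
  have hG : G ≠ ⊥ := by
    intro h
    rw [h, finrank_bot] at hGY
    exact hY1 hGY.symm
  obtain ⟨a', rfl⟩ : ∃ a', a = a' + 1 := by
    rcases Nat.eq_zero_or_pos a with h | h
    · rw [h] at h2
      omega
    · exact ⟨a - 1, by omega⟩
  have hp' := flip_pairing G Y hGY hp
  have hGL : ∀ z : E, z ≠ 0 → ∃ g ∈ G, ¬ InL a' (g / z) := noSub hK hm G Y hY hp' hii
  have hii' : ∀ b : E, b ≠ 0 → (∃ g ∈ Y, ∃ y ∈ G, g + b ^ 2 * y = b) →
      ∃ y ∈ G, y ≠ 0 ∧ b ^ 2 * y ∈ Y := by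
    rintro b hb ⟨y, hy, g, hg, h⟩
    obtain ⟨y', hy', hy'0, hG'⟩ := hii b⁻¹ (inv_ne_zero hb) ⟨g, hg, y, hy, by
      field_simp
      linear_combination h⟩
    refine ⟨_, hG', mul_ne_zero (pow_ne_zero _ (inv_ne_zero hb)) hy'0, ?_⟩
    have h3 : b ^ 2 * (b⁻¹ ^ 2 * y') = y' := by field_simp
    rw [h3]
    exact hy'
  have hYL : ∀ z : E, z ≠ 0 → ∃ g ∈ Y, ¬ InL a' (g / z) := noSub hK hm Y G hG
    (fun g hg hg0 => by
      obtain ⟨y, hy, h⟩ := hp g hg hg0
      exact ⟨y, hy, by rwa [mul_comm]⟩) hii'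
  -- the subspaces `B_b = G ∩ b² Y`
  let B : E → Submodule K E := fun b => G ⊓ Y.map (LinearMap.mulLeft K (b ^ 2))
  have hB : ∀ b g, g ∈ B b ↔ g ∈ G ∧ ∃ y ∈ Y, b ^ 2 * y = g := by
    intro b g
    simp only [B, Submodule.mem_inf, Submodule.mem_map, LinearMap.mulLeft_apply]
  let Hit : Set E := {b | b ≠ 0 ∧ B b ≠ ⊥}
  have hHit : ∃ b, b ∈ Hit := by
    obtain ⟨g, hg, hg0⟩ := Submodule.exists_mem_ne_zero_of_ne_bot hG
    obtain ⟨y, hy, hy0⟩ := Submodule.exists_mem_ne_zero_of_ne_bot hY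
    have hsurj : Function.Surjective (frobenius E 2) :=
      Finite.surjective_of_injective (frobenius_inj E 2)
    obtain ⟨b, hb⟩ := hsurj (g / y)
    rw [frobenius_def] at hb
    have hb0 : b ≠ 0 := by
      intro h
      rw [h, zero_pow two_ne_zero] at hb
      exact (div_ne_zero hg0 hy0) hb.symm
    have hby : b ^ 2 * y = g := by
      rw [hb]
      field_simp
    refine ⟨b, hb0, fun h => hg0 ?_⟩
    have h1 : g ∈ B b := (hB b g).2 ⟨hg, y, hy, hby⟩
    rw [h, Submodule.mem_bot] at h1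
    exact h1
  obtain ⟨b0, hb0H, hb0min⟩ := Set.exists_min_image Hit (fun b => finrank K (B b))
    (Set.toFinite _) hHit
  obtain ⟨u, hu, hu0⟩ := Submodule.exists_mem_ne_zero_of_ne_bot hb0H.2
  -- `B b0 ≠ G`
  have hne : B b0 ≠ G := by
    intro hBG
    have hall : ∀ b ∈ Hit, B b = G := by
      intro b hb
      refine Submodule.eq_of_le_of_finrank_le inf_le_left ?_
      rw [← hBG]
      exact hb0min b hb
    have hmem : ∀ b : E, b ≠ 0 → (∃ g ∈ G, ∃ y ∈ Y, g + b ^ 2 * y = b) →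
        ∃ y ∈ Y, b ^ 2 * y = u := by
      intro b hb h
      obtain ⟨y, hy, hy0, hyG⟩ := hii b hb h
      have h1 : b ∈ Hit := by
        refine ⟨hb, fun h2 => ?_⟩
        have h3 : b ^ 2 * y ∈ B b := (hB b _).2 ⟨hyG, y, hy, rfl⟩
        rw [h2, Submodule.mem_bot] at h3
        exact mul_ne_zero (pow_ne_zero _ hb) hy0 h3
      have h4 : u ∈ B b := by
        rw [hall b h1]
        exact ((hB b0 u).1 hu).1
      exact ((hB b u).1 h4).2
    have htop := no_line hK hm Y u hu0 (by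
      rintro b hb ⟨k, y, hy, h⟩
      exact hmem b hb ⟨k • u, G.smul_mem _ ((hB b0 u).1 hu).1, y, hy, h⟩)
    rw [htop, finrank_top, hm] at h2
    have : 0 < 2 ^ (a' + 1) := by positivity
    omega
  obtain ⟨Z, hZG, huZ, hZsup, hZinf, hZU⟩ := exists_cut G (B b0) (Lsub K hK a' u) inf_le_left
    hne (by
      intro h
      obtain ⟨g, hg, hgL⟩ := hGL u hu0
      exact hgL (h hg)) u hu
  have hdim := Submodule.finrank_sup_add_finrank_inf_eq Z (B b0)
  rw [hZsup, hZinf, finrank_span_singleton hu0] at hdim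
  have hBlt : finrank K (B b0) < finrank K G := Submodule.finrank_lt_finrank_of_lt
    (lt_of_le_of_ne inf_le_left hne)
  have hZle : finrank K Z ≤ finrank K G := Submodule.finrank_mono hZG
  have hB1 : 1 ≤ finrank K (B b0) := by
    rw [Nat.one_le_iff_ne_zero]
    exact fun h => hb0H.2 (Submodule.finrank_eq_zero.1 h)
  have hZ2 : 2 ≤ finrank K Z := by omega
  have hY2 : 2 ≤ finrank K Y := by omega
  -- every hit point is hit by the cut
  have hcut : ∀ b ∈ Hit, ∃ g ∈ Z, g ≠ 0 ∧ ∃ y ∈ Y, b ^ 2 * y = g := by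
    intro b hb
    have h1 := Submodule.finrank_sup_add_finrank_inf_eq Z (B b)
    have h3 : finrank K (Z ⊔ B b : Submodule K E) ≤ finrank K G :=
      Submodule.finrank_mono (sup_le hZG inf_le_left)
    have h4 := hb0min b hb
    have h5 : (Z ⊓ B b : Submodule K E) ≠ ⊥ := by
      intro h
      rw [h, finrank_bot] at h1
      omega
    obtain ⟨g, hg, hg0⟩ := Submodule.exists_mem_ne_zero_of_ne_bot h5
    exact ⟨g, hg.1, hg0, ((hB b g).1 hg.2).2⟩
  obtain ⟨n, hn⟩ : ∃ n, finrank K Y + finrank K Z = n + 2 :=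
    ⟨finrank K Y + finrank K Z - 2, by omega⟩
  obtain ⟨ga, et, hsplit, hgaY, hetZ, hspan, hind⟩ :=
    exists_split Y Z rfl rfl hY2 hZ2 (n + 2) hn
  refine ⟨n, finrank K Y, finrank K Z, ga, et, hsplit, hind, ?_, ?_, ?_, by omega, h2, ?_, ?_⟩
  · -- (i')
    intro c hc
    obtain ⟨y, hy, hyt⟩ := hp (lin et c) (hZG (lin_mem Z et hetZ c)) hc
    obtain ⟨d, hd, -⟩ := hspan y hy 0 Z.zero_mem
    exact ⟨d, by rwa [hd, mul_comm]⟩
  · -- (ii)
    rintro b ⟨hb, c, hc⟩
    have h3 : b⁻¹ ∈ Hit := by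
      obtain ⟨y, hy, hy0, hyG⟩ := hii b⁻¹ (inv_ne_zero hb) ⟨lin et c,
        hZG (lin_mem Z et hetZ c), lin ga c, lin_mem Y ga hgaY c, by
          field_simp
          linear_combination hc⟩
      refine ⟨inv_ne_zero hb, fun h4 => ?_⟩
      have h5 : b⁻¹ ^ 2 * y ∈ B b⁻¹ := (hB _ _).2 ⟨hyG, y, hy, rfl⟩
      rw [h4, Submodule.mem_bot] at h5
      exact mul_ne_zero (pow_ne_zero _ (inv_ne_zero hb)) hy0 h5
    obtain ⟨g, hg, hg0, y, hy, hyg⟩ := hcut _ h3
    obtain ⟨d, hd1, hd2⟩ := hspan y hy g hg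
    have h4 : d ∈ Dsub K ga et (b ^ 2) := by
      change lin ga d = b ^ 2 * lin et d
      rw [hd1, hd2, ← hyg]
      field_simp
    unfold wt
    rw [Nat.one_le_iff_ne_zero]
    intro h5
    have h6 := Submodule.finrank_eq_zero.1 h5
    rw [h6, Submodule.mem_bot] at h4
    apply hg0
    rw [← hd2, h4, lin_zero]
  · -- the point of weight one
    obtain ⟨huG, y0, hy0, hy0u⟩ := (hB b0 u).1 hu
    have hb0 := hb0H.1
    refine ⟨b0⁻¹, inv_ne_zero hb0, ?_⟩
    obtain ⟨d, hd1, hd2⟩ := hspan y0 hy0 u huZ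
    have h4 : d ∈ Dsub K ga et (b0⁻¹ ^ 2) := by
      change lin ga d = b0⁻¹ ^ 2 * lin et d
      rw [hd1, hd2, ← hy0u]
      field_simp
    unfold wt
    rw [finrank_eq_one_iff']
    refine ⟨⟨d, h4⟩, ?_, ?_⟩
    · intro h5
      have h6 : d = 0 := congrArg Subtype.val h5
      apply hu0
      rw [← hd2, h6, lin_zero]
    · rintro ⟨c, hc⟩
      have hc1 : lin ga c = b0⁻¹ ^ 2 * lin et c := hc
      have h7 : lin et c ∈ Z ⊓ B b0 := by
        refine ⟨lin_mem Z et hetZ c, (hB _ _).2 ⟨hZG (lin_mem Z et hetZ c), lin ga c,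
          lin_mem Y ga hgaY c, ?_⟩⟩
        rw [hc1]
        field_simp
      rw [hZinf, Submodule.mem_span_singleton] at h7
      obtain ⟨k, hk⟩ := h7
      refine ⟨k, Subtype.ext ?_⟩
      change k • d = c
      have h8 : lin et (k • d - c) = 0 := by
        rw [lin_sub, lin_smul, hd2, hk, sub_self]
      have h9 : lin ga (k • d - c) = 0 := by
        have hd3 : lin ga d = b0⁻¹ ^ 2 * lin et d := h4
        rw [lin_sub, lin_smul, hd3, hc1, ← mul_smul_comm, hd2, hk, sub_self]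
      exact sub_eq_zero.1 (hind _ h9 h8)
  · -- NS for `Y`
    refine ns_of hK hm Y hYL hY ga ?_
    intro x hx
    obtain ⟨c, hc, -⟩ := hspan x hx 0 Z.zero_mem
    exact ⟨c, hc⟩
  · -- NS for `Z`
    refine ns_of hK hm Z ?_ ?_ et ?_
    · intro z hz
      by_contra hcon
      push Not at hcon
      apply hZU
      intro g hg
      rw [mem_Lsub]
      have h3 := hcon g hg
      have h4 := hcon u huZ
      have h5 : g / u = (g / z) / (u / z) := by field_simp
      rw [h5]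
      exact h3.div h4
    · intro h
      rw [h, finrank_bot] at hZ2
      omega
    · intro x hx
      obtain ⟨c, -, hc⟩ := hspan 0 Y.zero_mem x hx
      exact ⟨c, hc⟩

end Pool.Agent.Lib.CPlane.RedC
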