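import Pool.Agent.Lib.CPlane.LFShift
import Pool.Agent.Lib.CPlane.S2Main

/-!
# SHIFT
-/

namespace Pool.Agent.Lib.CPlane.S2

theorem shift : SHIFT := fun ga et A => LF.finrank_WA_shift ga et A

end Pool.Agent.Lib.CPlane.S2
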