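import Pool.Agent.Lib.CPlane.SSStat
import Pool.Agent.Lib.CPlane.S2Rado

/-!
# s = 2, row SSg2: without near tight sets the multilinear determinant vanishes only for `χ = 0`
-/

namespace Pool.Agent.Lib.CPlane.S2

open Module Submodule Pool.Agent.Lib.CPlane.P2

namespace CHIx

theorem card_two {K : Type} [Field K] [Fintype K] (hK : Fintype.card K = 2) (x : K) :
    x = 0 ∨ x = 1 := by
  classical
  by_contra h
  push Not at h
  have h1 : ({0, 1, x} : Finset K).card = 3 := by
    rw [Finset.card_eq_three]
    exact ⟨0, 1, x, zero_ne_one, h.1.symm, h.2.symm, rfl⟩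
  have h2 := Finset.card_le_univ ({0, 1, x} : Finset K)
  omega

theorem lin_single {K E : Type} [Field K] [Field E] [Algebra K E] {N : ℕ} (l : Fin N → E)
    (j : Fin N) : lin l (Pi.single j (1 : K)) = l j := by
  classical
  unfold lin
  rw [Finset.sum_eq_single j]
  · rw [Pi.single_eq_same, one_smul]
  · intro i _ hi
    rw [Pi.single_eq_of_ne hi, zero_smul]
  · intro h
    exact absurd (Finset.mem_univ _) h

/-- the three fixed rows and the constant parts -/
def aR {E : Type} [Field E] {n : ℕ} (psi ga et : Fin (n + 3) → E) :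
    Fin (n + 3) → Fin (n + 3) → E :=
  Fin.cons psi (Fin.cons ga (Fin.cons et (fun k : Fin n => gv ga ((k : ℕ) + 1))))

/-- the coefficients of the variables -/
def bR {E : Type} [Field E] {n : ℕ} (et : Fin (n + 3) → E) :
    Fin (n + 3) → Fin (n + 3) → E :=
  Fin.cons 0 (Fin.cons 0 (Fin.cons 0 (fun k : Fin n => gv et ((k : ℕ) + 1))))

theorem pen_eq {E : Type} [Field E] {n : ℕ} (psi ga et : Fin (n + 3) → E) :
    (PMt psi ga et).map (MvPolynomial.rename (fun k : Fin n => k.succ.succ.succ)) =
      pen (aR psi ga et) (bR et) := by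
  refine Matrix.ext fun i j => ?_
  rw [Matrix.map_apply]
  unfold PMt pen aR bR
  rw [Matrix.of_apply, Matrix.of_apply]
  refine Fin.cases ?_ (fun i => ?_) i
  · simp only [Fin.cons_zero, MvPolynomial.rename_C, Pi.zero_apply, map_zero, mul_zero, add_zero]
  refine Fin.cases ?_ (fun i => ?_) i
  · simp only [Fin.cons_zero, Fin.cons_succ, MvPolynomial.rename_C, Pi.zero_apply, map_zero,
      mul_zero, add_zero]
  refine Fin.cases ?_ (fun i => ?_) i
  · simp only [Fin.cons_zero, Fin.cons_succ, MvPolynomial.rename_C, Pi.zero_apply, map_zero,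
      mul_zero, add_zero]
  · simp only [Fin.cons_succ, map_add, map_mul, MvPolynomial.rename_C, MvPolynomial.rename_X, gv]

theorem rado_cond {E : Type} [Field E] {n : ℕ} (psi ga et : Fin (n + 3) → E)
    (hno : NoNT ga et (n + 1)) (hli : LinearIndependent E ![psi, ga, et])
    (B : Finset (Fin (n + 3))) : B.card ≤ finrank E (ab E (aR psi ga et) (bR et) B) := by
  classical
  set a := aR psi ga et with ha
  set b := bR (n := n) et with hb
  let F : Finset (Fin (n + 3)) := {0, Fin.succ 0, Fin.succ (Fin.succ 0)}
  have hF : F.card = 3 := by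
    rw [Finset.card_eq_three]
    refine ⟨0, Fin.succ 0, Fin.succ (Fin.succ 0), ?_, ?_, ?_, rfl⟩
    · exact (Fin.succ_ne_zero _).symm
    · exact (Fin.succ_ne_zero _).symm
    · intro h
      exact (Fin.succ_ne_zero _).symm (Fin.succ_injective _ h)
  have a0 : a 0 = psi := rfl
  have a1 : a (Fin.succ 0) = ga := rfl
  have a2 : a (Fin.succ (Fin.succ 0)) = et := rfl
  have a3 : ∀ k : Fin n, a k.succ.succ.succ = gv ga ((k : ℕ) + 1) := fun k => rfl
  have b3 : ∀ k : Fin n, b k.succ.succ.succ = gv et ((k : ℕ) + 1) := fun k => rfl
  have bF : ∀ i ∈ F, b i = 0 := by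
    intro i hi
    simp only [F, Finset.mem_insert, Finset.mem_singleton] at hi
    rcases hi with rfl | rfl | rfl <;> rfl
  -- the case of a set containing the fixed rows
  have key : ∀ B : Finset (Fin (n + 3)), F ⊆ B → B.card ≤ finrank E (ab E a b B) := by
    intro B hFB
    let B' : Finset (Fin n) := Finset.univ.filter fun k => k.succ.succ.succ ∈ B
    have hB : B = F ∪ B'.image (fun k : Fin n => k.succ.succ.succ) := by
      ext i
      constructor
      · intro hi
        rw [Finset.mem_union]
        revert hi
        refine Fin.cases (fun _ => Or.inl (by simp [F])) (fun i => ?_) i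
        refine Fin.cases (fun _ => Or.inl (by simp [F])) (fun i => ?_) i
        refine Fin.cases (fun _ => Or.inl (by simp [F])) (fun i hi => ?_) i
        right
        exact Finset.mem_image.2 ⟨i, by simp [B', hi], rfl⟩
      · intro hi
        rcases Finset.mem_union.1 hi with h | h
        · exact hFB h
        · obtain ⟨k, hk, rfl⟩ := Finset.mem_image.1 h
          exact (Finset.mem_filter.1 hk).2
    have hinj : Function.Injective (fun k : Fin n => k.succ.succ.succ) :=
      (Fin.succ_injective _).comp ((Fin.succ_injective _).comp (Fin.succ_injective _))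
    have hcard : B.card ≤ 3 + B'.card := by
      rw [hB]
      refine (Finset.card_union_le _ _).trans ?_
      rw [hF, Finset.card_image_of_injective _ hinj]
    have hmem : ∀ i ∈ B, a i ∈ ab E a b B := fun i hi =>
      subset_span (Or.inl ⟨i, hi, rfl⟩)
    have hmemb : ∀ i ∈ B, b i ∈ ab E a b B := fun i hi =>
      subset_span (Or.inr ⟨i, hi, rfl⟩)
    by_cases hB' : B' = ∅
    · rw [hB', Finset.card_empty, add_zero] at hcard
      refine hcard.trans ?_
      have h1 : span E (Set.range ![psi, ga, et]) ≤ ab E a b B := by
        rw [span_le]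
        rintro _ ⟨i, rfl⟩
        fin_cases i
        · exact hmem 0 (hFB (by simp [F]))
        · exact hmem (Fin.succ 0) (hFB (by simp [F]))
        · exact hmem (Fin.succ (Fin.succ 0)) (hFB (by simp [F]))
      have h2 : finrank E (span E (Set.range ![psi, ga, et])) = 3 := by
        rw [finrank_span_eq_card hli, Fintype.card_fin]
      exact h2.symm.le.trans (Submodule.finrank_mono h1)
    · let A : Finset ℕ := insert 0 (B'.image (fun k : Fin n => (k : ℕ) + 1))
      have hA : A.card = B'.card + 1 := by
        rw [Finset.card_insert_of_notMem, Finset.card_image_of_injective]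
        · intro x y h
          exact Fin.ext (Nat.succ_injective h)
        · intro h
          obtain ⟨k, _, hk⟩ := Finset.mem_image.1 h
          omega
      have hpos : 0 < B'.card := Finset.card_pos.2 (Finset.nonempty_iff_ne_empty.2 hB')
      have h1 := hno A (by
        intro k hk
        rcases Finset.mem_insert.1 hk with rfl | hk
        · omega
        · obtain ⟨j, _, rfl⟩ := Finset.mem_image.1 hk
          have := j.2
          omega) (by omega)
      have h2 : rA ga et A ≤ finrank E (ab E a b B) := by
        unfold rA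
        refine Submodule.finrank_mono ?_
        rw [span_le]
        rintro _ (⟨k, hk, rfl⟩ | ⟨k, hk, rfl⟩)
        · rcases Finset.mem_insert.1 hk with rfl | hk
          · have h3 : gv ga 0 = a (Fin.succ 0) := by
              rw [a1]
              funext j
              simp [gv]
            rw [h3]
            exact hmem _ (hFB (by simp [F]))
          · obtain ⟨j, hj, rfl⟩ := Finset.mem_image.1 hk
            rw [← a3]
            exact hmem _ (Finset.mem_filter.1 hj).2
        · rcases Finset.mem_insert.1 hk with rfl | hk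
          · have h3 : gv et 0 = a (Fin.succ (Fin.succ 0)) := by
              rw [a2]
              funext j
              simp [gv]
            rw [h3]
            exact hmem _ (hFB (by simp [F]))
          · obtain ⟨j, hj, rfl⟩ := Finset.mem_image.1 hk
            rw [← b3]
            exact hmemb _ (Finset.mem_filter.1 hj).2
      omega
  have h1 := key (B ∪ (F \ B)) (by
    intro i hi
    by_cases hiB : i ∈ B
    · exact Finset.mem_union_left _ hiB
    · exact Finset.mem_union_right _ (Finset.mem_sdiff.2 ⟨hi, hiB⟩))
  rw [Finset.card_union_of_disjoint Finset.disjoint_sdiff, ab_union] at h1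
  have h2 := Submodule.finrank_add_le_finrank_add_finrank (ab E a b B) (ab E a b (F \ B))
  have h3 : finrank E (ab E a b (F \ B)) ≤ (F \ B).card := by
    have h4 : ab E a b (F \ B) ≤ span E (((F \ B).image a : Finset (Fin (n + 3) → E)) :
        Set (Fin (n + 3) → E)) := by
      unfold ab
      rw [span_le]
      rintro _ (⟨i, hi, rfl⟩ | ⟨i, hi, rfl⟩)
      · exact subset_span (Finset.mem_coe.2 (Finset.mem_image_of_mem _ hi))
      · rw [bF i (Finset.mem_sdiff.1 hi).1]
        exact Submodule.zero_mem _
    refine (Submodule.finrank_mono h4).trans ?_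
    exact (finrank_span_finset_le_card _).trans Finset.card_image_le
  omega

end CHIx

open CHIx in
theorem chi0 : CHI0 := by
  intro K E _ _ _ _ n f e ga et chi chi' hK hind hsp hno hchi hchi' hdet
  classical
  by_contra hne
  -- a basis vector with `χ = 1`
  obtain ⟨j0, hj0⟩ : ∃ j0 : Fin (n + 3), chi (Pi.single j0 1) ≠ 0 := by
    by_contra hcon
    push Not at hcon
    apply hne
    refine (Pi.basisFun K (Fin (n + 3))).ext fun i => ?_
    rw [Pi.basisFun_apply, LinearMap.zero_apply]
    exact hcon i
  have hc0 : chi (Pi.single j0 1) = 1 := (card_two hK _).resolve_left hj0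
  have hga0 : ga j0 ≠ 0 := by
    intro h
    exact hj0 (hchi _ (by rw [lin_single]; exact h))
  have het0 : et j0 = 0 := (hsp.zero j0).resolve_left hga0
  have hnz : ∀ j, ga j = 0 → et j = 0 → False := by
    intro j h1 h2
    have h3 := hind (Pi.single j 1) (by rw [lin_single]; exact h1) (by rw [lin_single]; exact h2)
    exact one_ne_zero ((Pi.single_eq_zero_iff).1 h3)
  obtain ⟨j1, hj1, hj10⟩ : ∃ j1, et j1 = 0 ∧ j1 ≠ j0 := by
    have h1 : 1 < Nat.card {j // et j = 0} := by
      have := hsp.cf
      have := hsp.two_f
      omega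
    have h2 := Finite.one_lt_card_iff_nontrivial.1 h1
    obtain ⟨⟨j, hj⟩, hne'⟩ := exists_ne (⟨j0, het0⟩ : {j // et j = 0})
    exact ⟨j, hj, fun h => hne' (Subtype.ext h)⟩
  obtain ⟨j2, hj2⟩ : ∃ j2, ga j2 = 0 := by
    have h1 : 0 < Nat.card {j // ga j = 0} := by
      have := hsp.ce
      have := hsp.two_e
      omega
    obtain ⟨⟨j, hj⟩⟩ := (Nat.card_pos_iff.1 h1).1
    exact ⟨j, hj⟩
  have hga1 : ga j1 ≠ 0 := fun h => hnz j1 h hj1
  have het2 : et j2 ≠ 0 := fun h => hnz j2 hj2 h
  have hne01 : ga j0 ≠ ga j1 := by
    intro h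
    have h3 := hind (Pi.single j0 1 - Pi.single j1 1)
      (by rw [lin_sub, lin_single, lin_single, h, sub_self])
      (by rw [lin_sub, lin_single, lin_single, het0, hj1, sub_self])
    have h4 := congrFun h3 j0
    rw [Pi.sub_apply, Pi.single_eq_same, Pi.single_eq_of_ne hj10.symm, sub_zero] at h4
    exact one_ne_zero h4
  have hpsi : ∀ j, et j = 0 → psv E chi chi' j = algebraMap K E (chi (Pi.single j 1)) := by
    intro j hj
    have h1 : chi' (Pi.single j 1) = 0 := hchi' _ (by rw [lin_single]; exact hj)
    unfold psv
    rw [h1, add_zero]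
  have hli : LinearIndependent E ![psv E chi chi', ga, et] := by
    rw [Fintype.linearIndependent_iff]
    intro g hg
    rw [Fin.sum_univ_three] at hg
    have hco : ∀ j, g 0 * psv E chi chi' j + g 1 * ga j + g 2 * et j = 0 := by
      intro j
      exact congrFun hg j
    have e0 := hco j0
    rw [hpsi j0 het0, hc0, map_one, het0] at e0
    have e1 := hco j1
    rw [hpsi j1 hj1, hj1] at e1
    have hg1 : g 1 = 0 := by
      rcases card_two hK (chi (Pi.single j1 1)) with h | h
      · rw [h, map_zero] at e1
        have h2 : g 1 * ga j1 = 0 := by linear_combination e1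
        exact (mul_eq_zero.1 h2).resolve_right hga1
      · rw [h, map_one] at e1
        have h2 : g 1 * (ga j0 - ga j1) = 0 := by linear_combination e0 - e1
        exact (mul_eq_zero.1 h2).resolve_right (sub_ne_zero.2 hne01)
    have hg0 : g 0 = 0 := by
      rw [hg1] at e0
      linear_combination e0
    have e2 := hco j2
    rw [hg0, hg1] at e2
    have hg2 : g 2 = 0 := by
      have h2 : g 2 * et j2 = 0 := by linear_combination e2
      exact (mul_eq_zero.1 h2).resolve_right het2
    intro i
    fin_cases i
    · exact hg0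
    · exact hg1
    · exact hg2
  refine rado_det (aR (psv E chi chi') ga et) (bR et)
    (rado_cond (psv E chi chi') ga et hno hli) ?_
  have h5 := AlgHom.map_det (MvPolynomial.rename (R := E)
    (fun k : Fin n => (k.succ.succ.succ : Fin (n + 3)))) (PMt (psv E chi chi') ga et)
  rw [hdet, map_zero] at h5
  rw [← pen_eq]
  exact h5.symm

end Pool.Agent.Lib.CPlane.S2
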