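import Pool.Agent.Lib.CPlane.SSStat

/-!
# s = 2, row SSf0: the number of ones of a product of two functionals
-/

namespace Pool.Agent.Lib.CPlane.S2

open Finset Pool.Agent.Lib.CPlane.P2

theorem lin_single {K E : Type} [Field K] [Field E] [Algebra K E] {N : ℕ} (l : Fin N → E)
    (j : Fin N) : lin l (Pi.single j (1 : K)) = l j := by
  classical
  unfold lin
  rw [Finset.sum_eq_single j]
  · rw [Pi.single_eq_same, one_smul]
  · intro i _ hi
    rw [Pi.single_eq_of_ne hi, zero_smul]
  · intro h
    exact absurd (Finset.mem_univ j) h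

theorem exists_single_ne {K : Type} [Field K] {N : ℕ} (chi : (Fin N → K) →ₗ[K] K)
    (h : chi ≠ 0) : ∃ j, chi (Pi.single j 1) ≠ 0 := by
  classical
  by_contra hc
  push Not at hc
  apply h
  refine LinearMap.pi_ext' fun j => ?_
  ext
  simpa using hc j

/-- (SSf0) -/
theorem cxx : CXX := by
  intro K E _ _ _ _ N f e ga et chi chi' hK hS h1 h2 hg hy
  classical
  have hp : Fact (Nat.Prime 2) := ⟨Nat.prime_two⟩
  have hch : CharP K 2 := charP_of_card_eq_prime hK
  have hK2 : ∀ x : K, x ≠ 0 → x = 1 := by
    intro x hx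
    have h := FiniteField.pow_card x
    rw [hK, pow_two] at h
    exact mul_left_cancel₀ hx (by rw [h, mul_one])
  obtain ⟨j1, hj1⟩ := exists_single_ne chi h1
  obtain ⟨j2, hj2⟩ := exists_single_ne chi' h2
  have hga1 : ga j1 ≠ 0 := fun h => hj1 (hg _ (by rw [lin_single, h]))
  have het2 : et j2 ≠ 0 := fun h => hj2 (hy _ (by rw [lin_single, h]))
  have het1 : et j1 = 0 := (hS.zero j1).resolve_left hga1
  have hga2 : ga j2 = 0 := (hS.zero j2).resolve_right het2
  have a11 : chi (Pi.single j1 1) = 1 := hK2 _ hj1
  have a22 : chi' (Pi.single j2 1) = 1 := hK2 _ hj2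
  have a21 : chi' (Pi.single j1 1) = 0 := hy _ (by rw [lin_single, het1])
  have a12 : chi (Pi.single j2 1) = 0 := hg _ (by rw [lin_single, hga2])
  let u : K → K → (Fin N → K) := fun s t => (s + 1) • Pi.single j1 1 + (t + 1) • Pi.single j2 1
  have hu1 : ∀ s t, chi (u s t) = s + 1 := by
    intro s t
    simp only [u, map_add, map_smul, a11, a12, smul_eq_mul, mul_one, mul_zero, add_zero]
  have hu2 : ∀ s t, chi' (u s t) = t + 1 := by
    intro s t
    simp only [u, map_add, map_smul, a21, a22, smul_eq_mul, mul_one, mul_zero, zero_add]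
  have hself : ∀ v : Fin N → K, v + v = 0 := by
    intro v
    funext i
    exact CharTwo.add_self_eq_zero (v i)
  let Φ : (Fin N → K) ≃ (K × K) × {c : Fin N → K // chi c * chi' c ≠ 0} :=
    { toFun := fun c => ((chi c, chi' c), ⟨c + u (chi c) (chi' c), by
        rw [map_add chi c (u _ _), map_add chi' c (u _ _), hu1, hu2]
        have e1 : chi c + (chi c + 1) = 1 := by
          rw [← add_assoc, CharTwo.add_self_eq_zero, zero_add]
        have e2 : chi' c + (chi' c + 1) = 1 := by
          rw [← add_assoc, CharTwo.add_self_eq_zero, zero_add]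
        rw [e1, e2, one_mul]
        exact one_ne_zero⟩)
      invFun := fun p => p.2.1 + u p.1.1 p.1.2
      left_inv := by
        intro c
        change c + u (chi c) (chi' c) + u (chi c) (chi' c) = c
        rw [add_assoc, hself, add_zero]
      right_inv := by
        rintro ⟨⟨s, t⟩, ⟨c, hc⟩⟩
        have hc1 : chi c = 1 := hK2 _ (left_ne_zero_of_mul hc)
        have hc2 : chi' c = 1 := hK2 _ (right_ne_zero_of_mul hc)
        have e1 : chi (c + u s t) = s := by
          rw [map_add, hu1, hc1]
          rw [add_comm s 1, ← add_assoc, CharTwo.add_self_eq_zero, zero_add]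
        have e2 : chi' (c + u s t) = t := by
          rw [map_add, hu2, hc2]
          rw [add_comm t 1, ← add_assoc, CharTwo.add_self_eq_zero, zero_add]
        refine Prod.ext (Prod.ext e1 e2) (Subtype.ext ?_)
        change c + u s t + u (chi (c + u s t)) (chi' (c + u s t)) = c
        rw [e1, e2, add_assoc, hself, add_zero] }
  have h3 := Nat.card_congr Φ
  rw [Nat.card_prod, Nat.card_prod, Nat.card_eq_fintype_card (α := K), hK,
    Nat.card_eq_fintype_card (α := Fin N → K), Fintype.card_fun, hK, Fintype.card_fin] at h3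
  rw [h3]

end Pool.Agent.Lib.CPlane.S2
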