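import Pool.Agent.Lib.CPlane.SSStat

/-!
# SSh2: a nonzero Frobenius stable `S^⊥` contains `1`
-/

namespace Pool.Agent.Lib.CPlane.S2

open Module

theorem perp_add {K E : Type} [Field K] [Field E] [Algebra K E] {N : ℕ} (ga et : Fin N → E)
    {d d' : E} (h : Perp K ga et d) (h' : Perp K ga et d') : Perp K ga et (d + d') := by
  intro c c'
  have h1 := h c c'
  have h2 := h' c c'
  unfold bt at h1 h2 ⊢
  rw [add_mul, map_add, h1, h2, add_zero]

theorem fix1 : FIX1 := by
  intro K E _ _ _ _ _ _ _ N a ga et hK hE hst hex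
  classical
  obtain ⟨d, hd, hP⟩ := hex
  set T : E → E := fun x => x ^ 2 + x with hT
  have hcard : Fintype.card E = 2 ^ 2 ^ a := by
    rw [Module.card_eq_pow_finrank (K := K), hK, hE]
  have hiter : ∀ i : ℕ, ∀ x : E, T^[2 ^ i] x = x ^ 2 ^ 2 ^ i + x := by
    intro i
    induction i with
    | zero =>
      intro x
      simp [hT]
    | succ i ih =>
      intro x
      rw [pow_succ, mul_two, Function.iterate_add_apply, ih x, ih, add_pow_char_pow, ← pow_mul,
        ← pow_add]
      have h1 : x ^ 2 ^ 2 ^ i + x ^ 2 ^ 2 ^ i = 0 := CharTwo.add_self_eq_zero _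
      linear_combination h1
  have hnil : T^[2 ^ a] d = 0 := by
    rw [hiter, ← hcard, FiniteField.pow_card, CharTwo.add_self_eq_zero]
  have hex : ∃ j, T^[j] d = 0 := ⟨_, hnil⟩
  have hmem : ∀ j, Perp K ga et (T^[j] d) := by
    intro j
    induction j with
    | zero => exact hP
    | succ j ih =>
      rw [Function.iterate_succ_apply']
      exact perp_add ga et (hst _ ih) ih
  have hj0 : Nat.find hex ≠ 0 := by
    intro h0
    have h1 := Nat.find_spec hex
    rw [h0] at h1
    exact hd h1
  obtain ⟨j, hj⟩ := Nat.exists_eq_succ_of_ne_zero hj0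
  have hne : T^[j] d ≠ 0 := by
    intro h1
    have h2 := Nat.find_min' hex h1
    omega
  have hT0 : T (T^[j] d) = 0 := by
    have h1 := Nat.find_spec hex
    rw [hj, Function.iterate_succ_apply'] at h1
    exact h1
  have h1 : T^[j] d = 1 := by
    have h2 : T^[j] d * (T^[j] d + 1) = 0 := by
      have h3 : (T^[j] d) ^ 2 + T^[j] d = 0 := hT0
      linear_combination h3
    rcases mul_eq_zero.1 h2 with h3 | h3
    · exact absurd h3 hne
    · have h4 : (1 : E) + 1 = 0 := CharTwo.add_self_eq_zero 1
      linear_combination h3 - h4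
  rw [← h1]
  exact hmem j

end Pool.Agent.Lib.CPlane.S2
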