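import Pool.Agent.Lib.CPlane.SSStat

/-!
# s = 2, Case 2: the bound for non-vertices
-/

namespace Pool.Agent.Lib.CPlane.S2

open Finset Pool.Agent.Lib.CPlane.P2

/-- arithmetic: `S ⊇ V ⊔ W` -/
theorem nnb_arith {ι : Type} [DecidableEq ι] (S V W : Finset ι) (w : ι → ℕ) (f e : ℕ)
    (hV : V ⊆ S) (hW : W ⊆ S) (hVW : Disjoint V W) (hf : 2 ≤ f) (he : 2 ≤ e)
    (hV1 : ∀ a ∈ V, 1 ≤ w a)
    (h1 : ∑ a ∈ S, (2 ^ w a - 1) = (2 ^ f - 1) * (2 ^ e - 1))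
    (h2 : ∑ a ∈ V, 2 ^ w a + 2 ^ e = 2 ^ (f + e)) :
    ∑ a ∈ W, (2 ^ w a - 1) < 2 ^ (f + e - 1) := by
  have hVc : V.card * 2 ≤ ∑ a ∈ V, 2 ^ w a := by
    rw [← smul_eq_mul]
    refine Finset.card_nsmul_le_sum _ _ _ fun a ha => ?_
    calc 2 = 2 ^ 1 := by norm_num
      _ ≤ 2 ^ w a := Nat.pow_le_pow_right (by norm_num) (hV1 a ha)
  have hVs : ∑ a ∈ V, (2 ^ w a - 1) + V.card = ∑ a ∈ V, 2 ^ w a := by
    rw [Finset.card_eq_sum_ones, ← Finset.sum_add_distrib]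
    refine Finset.sum_congr rfl fun a _ => ?_
    have : 1 ≤ 2 ^ w a := Nat.one_le_two_pow
    omega
  have hsum : ∑ a ∈ V, (2 ^ w a - 1) + ∑ a ∈ W, (2 ^ w a - 1) ≤ ∑ a ∈ S, (2 ^ w a - 1) := by
    rw [← Finset.sum_union hVW]
    exact Finset.sum_le_sum_of_subset (Finset.union_subset hV hW)
  obtain ⟨f', rfl⟩ : ∃ f', f = f' + 2 := ⟨f - 2, by omega⟩
  obtain ⟨e', rfl⟩ : ∃ e', e = e' + 2 := ⟨e - 2, by omega⟩
  have e1 : (2 : ℕ) ^ (f' + 2 + (e' + 2)) = 16 * (2 ^ f' * 2 ^ e') := by ring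
  have e2 : (2 : ℕ) ^ (f' + 2 + (e' + 2) - 1) = 8 * (2 ^ f' * 2 ^ e') := by
    rw [show f' + 2 + (e' + 2) - 1 = f' + e' + 3 by omega]
    ring
  have hfp : 1 ≤ 2 ^ f' := Nat.one_le_two_pow
  have hep : 1 ≤ 2 ^ e' := Nat.one_le_two_pow
  have e3 : (2 ^ (f' + 2) - 1) * (2 ^ (e' + 2) - 1) + 4 * 2 ^ f' + 4 * 2 ^ e' =
      16 * (2 ^ f' * 2 ^ e') + 1 := by
    obtain ⟨x, hx⟩ : ∃ x, 2 ^ f' = x + 1 := ⟨2 ^ f' - 1, by omega⟩
    obtain ⟨y, hy⟩ : ∃ y, 2 ^ e' = y + 1 := ⟨2 ^ e' - 1, by omega⟩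
    rw [pow_add, pow_add, hx, hy]
    have : (x + 1) * 2 ^ 2 - 1 = 4 * x + 3 := by omega
    rw [this]
    have : (y + 1) * 2 ^ 2 - 1 = 4 * y + 3 := by omega
    rw [this]
    ring
  have e4 : (2 : ℕ) ^ (e' + 2) = 4 * 2 ^ e' := by ring
  rw [e1, e4] at h2
  rw [e2]
  rw [h1] at hsum
  generalize hP : 2 ^ f' * 2 ^ e' = P at *
  omega

theorem nnb : CNT1 → CNT2 → NNB := by
  intro cnt1 cnt2 K E _ _ _ _ _ _ _ N f e ga et NN hK hp hs hN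
  classical
  have h1 := cnt1 (K := K) ga et hK hp.ind hs
  have h2 := cnt2 ga et (univ.filter fun a => IsVx K ga et a) hK (fun a => by simp) hp hs
  have hN' := hs.sum
  have h3 := nnb_arith (univ.filter fun a : E => a ≠ 0) (univ.filter fun a => IsVx K ga et a) NN
    (fun a => wt K ga et (a ^ 2)) f e (fun a ha => ?_) (fun a ha => ?_) ?_ hs.two_f hs.two_e
    (fun a ha => ?_) h1 (by rw [hN']; exact h2)
  · rw [hN'] at h3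
    exact h3
  · exact mem_filter.2 ⟨mem_univ _, (mem_filter.1 ha).2.1⟩
  · exact mem_filter.2 ⟨mem_univ _, (hN a ha).1⟩
  · rw [Finset.disjoint_left]
    intro a ha hb
    exact (hN a hb).2 (mem_filter.1 ha).2
  · exact hp.vx a (mem_filter.1 ha).2

end Pool.Agent.Lib.CPlane.S2
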