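import Pool.Agent.Lib.CPlane.SSRKC

/-!
# s = 2, Case 2: the points where `β_(d²)` does not vanish on `D_a`
-/

namespace Pool.Agent.Lib.CPlane.S2

open Finset Pool.Agent.Lib.CPlane.P2

namespace NnS

variable {K E : Type} [Field K] [Fintype K] [Field E] [Finite E] [Algebra K E]

theorem trace_sq (hK : Fintype.card K = 2) (x : E) :
    Algebra.trace K E (x ^ 2) = Algebra.trace K E x := by
  have h1 := Algebra.trace_eq_of_algEquiv (FiniteField.frobeniusAlgEquivOfAlgebraic K E) x
  rw [← h1]
  congr 1
  change x ^ 2 = x ^ Fintype.card K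
  rw [hK]

/-- on `D_a` the form `β_(d²)` is linear -/
theorem bt_sq {N : ℕ} (hK : Fintype.card K = 2) (ga et : Fin N → E) (d a : E) (c : Fin N → K)
    (hc : lin ga c = a ^ 2 * lin et c) :
    bt K ga et (d ^ 2) c c = Algebra.trace K E (d * a * lin et c) := by
  unfold bt
  rw [hc, ← trace_sq hK (d * a * lin et c)]
  congr 1
  ring

theorem bt_vx {N : ℕ} (hK : Fintype.card K = 2) [CharP E 2] (ga et : Fin N → E) (d a : E)
    (hd : Perp K ga et d) (hv : IsVx K ga et a) (c : Fin N → K)
    (hc : lin ga c = a ^ 2 * lin et c) : bt K ga et (d ^ 2) c c = 0 := by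
  obtain ⟨_, c₀, hc₀⟩ := hv
  rw [bt_sq hK ga et d a c hc]
  have h1 := hd c₀ c
  have h2 := hd c c₀
  unfold bt at h1 h2
  have h3 : d * a * lin et c = d * (lin ga c₀ * lin et c) + d * (lin ga c * lin et c₀) := by
    rw [hc]
    linear_combination -(d * lin et c) * hc₀
  rw [h3, map_add, h1, h2, add_zero]

end NnS

theorem nns : NNS := by
  intro K E _ _ _ _ _ _ _ N ga et d NN hK hP hd hNN
  classical
  have hK1 := CntA.eq_one_of_ne (K := K) hK
  have h1 : ∀ a ∈ NN, ¬ IsVx K ga et a := by
    intro a ha hv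
    obtain ⟨_, c, hc, hne⟩ := (hNN a).1 ha
    exact hne (NnS.bt_vx hK ga et d a hd hv c hc)
  refine ⟨fun a ha => ⟨h1 a ha, ?_⟩, ?_⟩
  · obtain ⟨ha0, c, hc, hne⟩ := (hNN a).1 ha
    have h2 : wt K ga et (a ^ 2) ≠ 0 := by
      intro h0
      have h3 : Dsub K ga et (a ^ 2) = ⊥ := Submodule.finrank_eq_zero.1 h0
      rw [h3, Submodule.mem_bot] at hc
      apply hne
      rw [hc]
      unfold bt
      rw [lin_zero, zero_mul, mul_zero, map_zero]
    have h3 : wt K ga et (a ^ 2) ≠ 1 := fun h => h1 a ha (hP.wv a ha0 h)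
    omega
  · set S : Finset (Fin N → K) := univ.filter fun c => bt K ga et (d ^ 2) c c ≠ 0 with hS
    have hSc : Nat.card {c : Fin N → K // bt K ga et (d ^ 2) c c ≠ 0} = S.card := by
      rw [Nat.card_eq_fintype_card, Fintype.card_subtype]
    rw [hSc]
    have h2 : ∀ a ∈ NN, 2 ^ wt K ga et (a ^ 2) =
        2 * (S.filter fun c => lin ga c = a ^ 2 * lin et c).card := by
      intro a ha
      obtain ⟨ha0, c₀, hc₀, hne⟩ := (hNN a).1 ha
      let ℓ : Dsub K ga et (a ^ 2) →+ K :=
        { toFun := fun c => Algebra.trace K E (d * a * lin et (c : Fin N → K))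
          map_zero' := by
            rw [Submodule.coe_zero, lin_zero, mul_zero, map_zero]
          map_add' := by
            intro x y
            rw [Submodule.coe_add, lin_add, mul_add, map_add] }
      have hℓ : ∀ c : Dsub K ga et (a ^ 2), ℓ c = bt K ga et (d ^ 2) (c : Fin N → K) c := by
        intro c
        exact (NnS.bt_sq hK ga et d a c.1 c.2).symm
      have h3 := RkC.half hK ℓ ⟨⟨c₀, hc₀⟩, by rw [hℓ]; exact hne⟩
      have h4 := CntA.card_Dsub hK ga et (a ^ 2)
      have h5 : Nat.card (Dsub K ga et (a ^ 2)) =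
        Nat.card {c : Fin N → K // lin ga c = a ^ 2 * lin et c} := rfl
      rw [← h4, ← h5, ← h3]
      congr 1
      have h6 : (S.filter fun c => lin ga c = a ^ 2 * lin et c).card =
          Nat.card {c : Fin N → K // bt K ga et (d ^ 2) c c ≠ 0 ∧
            lin ga c = a ^ 2 * lin et c} := by
        rw [Nat.card_eq_fintype_card, Fintype.card_subtype, hS, Finset.filter_filter]
      rw [h6]
      refine Nat.card_congr
        { toFun := fun c => ⟨c.1.1, by rw [← hℓ]; exact c.2, c.1.2⟩
          invFun := fun c => ⟨⟨c.1, c.2.2⟩, by rw [hℓ]; exact c.2.1⟩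
          left_inv := fun c => rfl
          right_inv := fun c => rfl }
    rw [Finset.sum_congr rfl h2, ← Finset.mul_sum]
    congr 1
    have h3 := Finset.sum_card_bipartiteAbove_eq_sum_card_bipartiteBelow
      (s := NN) (t := S) (fun (a : E) (c : Fin N → K) => lin ga c = a ^ 2 * lin et c)
    simp only [Finset.bipartiteAbove, Finset.bipartiteBelow] at h3
    rw [h3]
    have h4 : ∀ c ∈ S, (NN.filter fun a => lin ga c = a ^ 2 * lin et c).card = 1 := by
      intro c hc
      have hb := (Finset.mem_filter.1 hc).2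
      have hg : lin ga c ≠ 0 := by
        intro h
        apply hb
        unfold bt
        rw [h, zero_mul, mul_zero, map_zero]
      have hy : lin et c ≠ 0 := by
        intro h
        apply hb
        unfold bt
        rw [h, mul_zero, mul_zero, map_zero]
      obtain ⟨a, ha⟩ := CntA.exists_sqrt (lin ga c / lin et c)
      have ha0 : a ≠ 0 := by
        intro h
        rw [h, zero_pow two_ne_zero] at ha
        exact div_ne_zero hg hy ha.symm
      have hca : lin ga c = a ^ 2 * lin et c := by
        rw [ha, div_mul_cancel₀ _ hy]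
      rw [Finset.card_eq_one]
      refine ⟨a, ?_⟩
      ext b
      simp only [Finset.mem_filter, Finset.mem_singleton]
      constructor
      · rintro ⟨_, hb'⟩
        apply CntA.sq_inj
        rw [ha, hb', mul_div_cancel_right₀ _ hy]
      · rintro rfl
        exact ⟨(hNN b).2 ⟨ha0, c, hca, hb⟩, hca⟩
    rw [Finset.sum_congr rfl h4, Finset.sum_const, smul_eq_mul, mul_one]

end Pool.Agent.Lib.CPlane.S2
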