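import Pool.Agent.Lib.CPlane.SSStat
import Pool.Agent.Lib.CPlane.M0Ord

/-!
# s = 2, rows ORD and DPM: order and degree of the determinant (helper87)
-/

namespace Pool.Agent.Lib.CPlane.S2

open Finset Polynomial Pool.Agent.Lib.CPlane.P2 Pool.Agent.Lib.CPlane.M0

namespace SSOx

/-- the exponents of the rows -/
def cx (n w : ℕ) (r : Fin (n + 3)) : ℕ :=
  if (r : ℕ) < 2 then 2 ^ (w - 1) else if (r : ℕ) = 2 then 0 else 2 ^ ((r : ℕ) - 3)

theorem sum_cx {n w : ℕ} (S : Finset (Fin (n + 3))) (hS : S.card = w) :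
    2 ^ (w - 1) - 1 ≤ ∑ r ∈ S, cx n w r := by
  classical
  by_cases h : ∃ r ∈ S, (r : ℕ) < 2
  · obtain ⟨r, hr, hr2⟩ := h
    have h1 : cx n w r ≤ ∑ r ∈ S, cx n w r :=
      Finset.single_le_sum (f := cx n w) (fun _ _ => Nat.zero_le _) hr
    have h2 : cx n w r = 2 ^ (w - 1) := if_pos hr2
    omega
  · push Not at h
    have hinj : Set.InjOn (fun r : Fin (n + 3) => (r : ℕ) - 3) (S.filter fun r : Fin (n + 3) => 3 ≤ (r : ℕ)) := by
      intro r hr s hs h1
      have h2 := (Finset.mem_filter.1 hr).2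
      have h3 := (Finset.mem_filter.1 hs).2
      simp only at h1
      exact Fin.ext (by omega)
    have h1 := two_pow_card_le ((S.filter fun r : Fin (n + 3) => 3 ≤ (r : ℕ)).image
      fun r : Fin (n + 3) => (r : ℕ) - 3)
    rw [Finset.sum_image hinj, Finset.card_image_of_injOn hinj] at h1
    have h2 : ∑ r ∈ S.filter (fun r : Fin (n + 3) => 3 ≤ (r : ℕ)), 2 ^ ((r : ℕ) - 3) ≤ ∑ r ∈ S, cx n w r := by
      refine le_trans (Finset.sum_le_sum fun r hr => ?_)
        (Finset.sum_le_sum_of_subset (Finset.filter_subset _ _))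
      have h3 := (Finset.mem_filter.1 hr).2
      unfold cx
      rw [if_neg (by omega), if_neg (by omega)]
    have h3 : (S.filter fun r : Fin (n + 3) => ¬ 3 ≤ (r : ℕ)).card ≤ 1 := by
      rw [Finset.card_le_one]
      intro a ha b hb
      have ha1 := (Finset.mem_filter.1 ha)
      have hb1 := (Finset.mem_filter.1 hb)
      have ha2 := h a ha1.1
      have hb2 := h b hb1.1
      exact Fin.ext (by omega)
    have h4 := Finset.card_filter_add_card_filter_not (s := S) (fun r : Fin (n + 3) => 3 ≤ (r : ℕ))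
    have h5 : 2 ^ (w - 1) ≤ 2 ^ (S.filter fun r : Fin (n + 3) => 3 ≤ (r : ℕ)).card :=
      Nat.pow_le_pow_right (by norm_num) (by omega)
    omega

theorem sum_C {K E : Type} [Field K] [Field E] [Algebra K E] {N : ℕ} (a : Fin N → E)
    (x : Fin N → K) : ∑ i, Polynomial.C (a i) * algebraMap K (Polynomial E) (x i) =
      Polynomial.C (lin a x) := by
  unfold lin
  rw [map_sum]
  refine Finset.sum_congr rfl fun i _ => ?_
  rw [Polynomial.algebraMap_apply, Algebra.smul_def, ← map_mul, mul_comm]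

theorem lin_two {K E : Type} [Field K] [Fintype K] [CharP K 2] [Field E] [CharP E 2]
    [Algebra K E] {N : ℕ} (hK : Fintype.card K = 2) (l : Fin N → E) (c : Fin N → K) (k : ℕ) :
    lin (fun j => l j ^ 2 ^ k) c = lin l c ^ 2 ^ k := by
  have h := lin_pow (r := 1) (by rw [hK]; norm_num) l c k
  rw [pow_one] at h
  rw [h]
  rfl

end SSOx

open SSOx in
theorem ord : ORD := by
  intro K E _ _ _ _ _ _ n psi ga et τ hK hpsi
  classical
  obtain ⟨M, hM⟩ : ∃ M, M = PM psi ga et := ⟨_, rfl⟩
  have e0 : ∀ i, M 0 i = Polynomial.C (psi i) := by rw [hM]; exact fun i => rfl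
  have e1 : ∀ i, M (0 : Fin (n + 2)).succ i = Polynomial.C (ga i) := by
    rw [hM]; exact fun i => rfl
  have e2 : ∀ i, M (0 : Fin (n + 1)).succ.succ i = Polynomial.C (et i) := by
    rw [hM]; exact fun i => rfl
  have e3 : ∀ (k : Fin n) i, M k.succ.succ.succ i = Polynomial.C (ga i ^ 2 ^ ((k : ℕ) + 1)) +
      Polynomial.X ^ 2 ^ (k : ℕ) * Polynomial.C (et i ^ 2 ^ ((k : ℕ) + 1)) := by
    rw [hM]; exact fun k i => rfl
  have hne : (0 : Fin (n + 2)).succ ≠ (0 : Fin (n + 1)).succ.succ := by
    intro h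
    have h2 : (1 : ℕ) = 2 := congrArg Fin.val h
    exact absurd h2 (by norm_num)
  have hdet := Matrix.det_updateRow_add_smul_self M hne (-(Polynomial.C τ))
  rw [← hM, ← hdet]
  refine det_dvd_sub (F := K) _ (Dsub K ga et τ) _ (cx n (wt K ga et τ)) ?_ _ ?_
  · intro x hx r
    have hx1 : lin ga x = τ * lin et x := hx
    revert r
    refine Fin.cases ?_ (Fin.cases ?_ (Fin.cases ?_ ?_))
    · rw [Matrix.updateRow_ne (Fin.succ_ne_zero _).symm]
      simp_rw [e0]
      rw [sum_C, hpsi x hx, Polynomial.C_0]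
      exact dvd_zero _
    · rw [Matrix.updateRow_self]
      have h1 : ∀ i, (M (0 : Fin (n + 2)).succ + -(Polynomial.C τ) • M (0 : Fin (n + 1)).succ.succ) i *
          algebraMap K (Polynomial E) (x i) = Polynomial.C (ga i) * algebraMap K (Polynomial E) (x i) -
            Polynomial.C τ * (Polynomial.C (et i) * algebraMap K (Polynomial E) (x i)) := by
        intro i
        rw [Pi.add_apply, Pi.smul_apply, e1, e2, smul_eq_mul]
        ring
      simp_rw [h1]
      rw [Finset.sum_sub_distrib, ← Finset.mul_sum, sum_C, sum_C, hx1, ← map_mul, sub_self]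
      exact dvd_zero _
    · have h1 : cx n (wt K ga et τ) (0 : Fin (n + 1)).succ.succ = 0 := by
        have v2 : (((0 : Fin (n + 1)).succ.succ : Fin (n + 3)) : ℕ) = 2 := rfl
        unfold cx
        rw [v2, if_neg (by norm_num), if_pos rfl]
      rw [h1, pow_zero]
      exact one_dvd _
    · intro k
      have h0 : k.succ.succ.succ ≠ (0 : Fin (n + 2)).succ := by
        intro h
        have := congrArg Fin.val h
        simp at this
      have h1 : cx n (wt K ga et τ) k.succ.succ.succ = 2 ^ (k : ℕ) := by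
        unfold cx
        rw [if_neg (by simp), if_neg (by simp)]
        simp
      rw [h1, Matrix.updateRow_ne h0]
      simp_rw [e3, add_mul, mul_assoc]
      rw [Finset.sum_add_distrib, ← Finset.mul_sum, sum_C (fun i => ga i ^ 2 ^ ((k : ℕ) + 1)),
        sum_C (fun i => et i ^ 2 ^ ((k : ℕ) + 1)), lin_two hK, lin_two hK, hx1, mul_pow,
        sub_pow_char_pow, ← Polynomial.C_pow, ← pow_mul, ← pow_succ', map_mul, CharTwo.sub_eq_add]
      refine ⟨Polynomial.C (lin et x ^ 2 ^ ((k : ℕ) + 1)), ?_⟩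
      ring
  · intro S hS
    exact sum_cx S hS

open SSOx in
theorem dpm : DPM := by
  intro E _ n psi ga et
  classical
  have h : (PM psi ga et).det.natDegree ≤ 2 ^ n - 1 := by
    refine natDegree_det_le _ _ fun σ => Or.inr ?_
    set c : Fin (n + 3) → ℕ := fun r => if (r : ℕ) < 3 then 0 else 2 ^ ((r : ℕ) - 3) with hc
    have h1 : ∀ r i, (PM psi ga et r i).natDegree ≤ c r := by
      intro r i
      revert r
      refine Fin.cases ?_ (Fin.cases ?_ (Fin.cases ?_ ?_))
      · exact (Polynomial.natDegree_C (psi i)).le.trans (Nat.zero_le _)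
      · exact (Polynomial.natDegree_C (ga i)).le.trans (Nat.zero_le _)
      · exact (Polynomial.natDegree_C (et i)).le.trans (Nat.zero_le _)
      · intro k
        have h2 : c k.succ.succ.succ = 2 ^ (k : ℕ) := by
          rw [hc]
          simp only
          rw [if_neg (by simp)]
          simp
        rw [h2]
        change (Polynomial.C (ga i ^ 2 ^ ((k : ℕ) + 1)) +
          Polynomial.X ^ 2 ^ (k : ℕ) * Polynomial.C (et i ^ 2 ^ ((k : ℕ) + 1))).natDegree ≤ _
        refine (Polynomial.natDegree_add_le _ _).trans (max_le ?_ ?_)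
        · rw [Polynomial.natDegree_C]
          exact Nat.zero_le _
        · exact (Polynomial.natDegree_mul_C_le _ _).trans (Polynomial.natDegree_X_pow_le _)
    refine (Finset.sum_le_sum fun i _ => h1 (σ i) i).trans ?_
    rw [Equiv.sum_comp σ c, Fin.sum_univ_succ, Fin.sum_univ_succ, Fin.sum_univ_succ]
    have h3 : ∑ k : Fin n, c k.succ.succ.succ = 2 ^ n - 1 := by
      have h4 : ∀ k : Fin n, c k.succ.succ.succ = 2 ^ (k : ℕ) := by
        intro k
        rw [hc]
        simp only
        rw [if_neg (by simp)]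
        simp
      simp_rw [h4]
      rw [Fin.sum_univ_eq_sum_range (fun k => 2 ^ k) n]
      have := Nat.geomSum_eq (le_refl 2) n
      simpa using this
    rw [h3]
    have c0 : c 0 = 0 := if_pos (by simp)
    have c1 : c (0 : Fin (n + 2)).succ = 0 := if_pos (show (1 : ℕ) < 3 by norm_num)
    have c2 : c (0 : Fin (n + 1)).succ.succ = 0 := if_pos (show (2 : ℕ) < 3 by norm_num)
    rw [c0, c1, c2]
    omega
  have h2 : 0 < 2 ^ n := by positivity
  omega

end Pool.Agent.Lib.CPlane.S2
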