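import Pool.Agent.Lib.CPlane.SSStat

/-!
# s = 2, Case 2: in the rank one case the determinant vanishes
-/

namespace Pool.Agent.Lib.CPlane.S2

open Finset Pool.Agent.Lib.CPlane.P2

theorem eq_one_of_card_two {K : Type} [Field K] [Fintype K] (hK : Fintype.card K = 2) {x : K}
    (hx : x ≠ 0) : x = 1 := by
  have h := FiniteField.pow_card_sub_one_eq_one x hx
  rw [hK] at h
  simpa using h

theorem lin_psv {E K : Type} [Field K] [Field E] [Algebra K E] {N : ℕ}
    (chi chi' : (Fin N → K) →ₗ[K] K) (c : Fin N → K) :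
    lin (psv E chi chi') c = algebraMap K E (chi c + chi' c) := by
  have h : ∀ f : (Fin N → K) →ₗ[K] K, f c = ∑ j, c j * f (Pi.single j 1) := by
    intro f
    conv_lhs => rw [pi_eq_sum_univ' c]
    rw [map_sum]
    refine Finset.sum_congr rfl fun j _ => ?_
    rw [map_smul, smul_eq_mul]
  rw [h chi, h chi', ← Finset.sum_add_distrib, map_sum]
  unfold lin psv
  refine Finset.sum_congr rfl fun j _ => ?_
  rw [Algebra.smul_def, ← map_mul, mul_add]

section bt

variable {K E : Type} [Field K] [Field E] [Algebra K E] {N : ℕ} (ga et : Fin N → E) (d : E)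

theorem bt_add_left (c c1 c' : Fin N → K) :
    bt K ga et d (c + c1) c' = bt K ga et d c c' + bt K ga et d c1 c' := by
  unfold bt
  rw [← map_add, lin_add]
  congr 1
  ring

theorem bt_add_right (c c' c1 : Fin N → K) :
    bt K ga et d c (c' + c1) = bt K ga et d c c' + bt K ga et d c c1 := by
  unfold bt
  rw [← map_add, lin_add]
  congr 1
  ring

theorem bt_comm_of_mem {τ : E} {c c1 : Fin N → K} (hc : c ∈ Dsub K ga et τ)
    (hc1 : c1 ∈ Dsub K ga et τ) : bt K ga et d c c1 = bt K ga et d c1 c := by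
  have h1 : lin ga c = τ * lin et c := hc
  have h2 : lin ga c1 = τ * lin et c1 := hc1
  unfold bt
  rw [h1, h2]
  congr 1
  ring

end bt

theorem psi_zero {K E : Type} [Field K] [Fintype K] [CharP K 2] [Field E] [Algebra K E] {N : ℕ}
    (ga et : Fin N → E) (d τ : E) (chi chi' : (Fin N → K) →ₗ[K] K) (hK : Fintype.card K = 2)
    (h : ∀ c c', bt K ga et d c c' = chi c * chi' c') {c1 : Fin N → K}
    (hc1 : c1 ∈ Dsub K ga et τ) (h1 : bt K ga et d c1 c1 ≠ 0) (c : Fin N → K)
    (hc : c ∈ Dsub K ga et τ) : chi c + chi' c = 0 := by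
  rw [h] at h1
  have e1 : chi c1 = 1 := eq_one_of_card_two hK (left_ne_zero_of_mul h1)
  have e2 : chi' c1 = 1 := eq_one_of_card_two hK (right_ne_zero_of_mul h1)
  have e3 := bt_comm_of_mem ga et d hc hc1
  rw [h, h, e1, e2, one_mul, mul_one] at e3
  rw [e3]
  exact CharTwo.add_self_eq_zero _

theorem pz : NNS → CXX → ORD → DPM → PZ := by
  intro nns cxx ord dpm K E _ _ _ _ _ _ _ n f e ga et d chi chi' hK hp hs hd hc hc' h
  classical
  obtain ⟨h2, h3⟩ := nns (K := K) ga et d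
    (univ.filter fun a => a ≠ 0 ∧ ∃ c ∈ Dsub K ga et (a ^ 2), bt K ga et (d ^ 2) c c ≠ 0)
    hK hp hd (fun a => by simp)
  have hmem : ∀ a ∈ (univ.filter fun a => a ≠ 0 ∧
      ∃ c ∈ Dsub K ga et (a ^ 2), bt K ga et (d ^ 2) c c ≠ 0),
      ∃ c ∈ Dsub K ga et (a ^ 2), bt K ga et (d ^ 2) c c ≠ 0 :=
    fun a ha => (mem_filter.1 ha).2.2
  generalize (univ.filter fun a => a ≠ 0 ∧
    ∃ c ∈ Dsub K ga et (a ^ 2), bt K ga et (d ^ 2) c c ≠ 0) = NN at h2 h3 hmem
  -- the number of ones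
  have k1 : ∀ c, lin ga c = 0 → chi c = 0 := by
    intro c hc0
    by_contra hne
    refine hc' (LinearMap.ext fun c' => ?_)
    have := h c c'
    unfold bt at this
    rw [hc0, zero_mul, mul_zero, map_zero] at this
    exact (mul_eq_zero.1 this.symm).resolve_left hne
  have k2 : ∀ c, lin et c = 0 → chi' c = 0 := by
    intro c hc0
    by_contra hne
    refine hc (LinearMap.ext fun c' => ?_)
    have := h c' c
    unfold bt at this
    rw [hc0, mul_zero, mul_zero, map_zero] at this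
    exact (mul_eq_zero.1 this.symm).resolve_right hne
  have k3 := cxx (K := K) ga et chi chi' hK hs hc hc' k1 k2
  have k4 : Nat.card {c : Fin (n + 3) → K // bt K ga et (d ^ 2) c c ≠ 0} =
      Nat.card {c : Fin (n + 3) → K // chi c * chi' c ≠ 0} := by
    refine Nat.card_congr (Equiv.subtypeEquivRight fun c => ?_)
    rw [h]
  rw [k4] at h3
  -- the order at the points of `NN`
  have ho : ∀ a ∈ NN, (Polynomial.X - Polynomial.C ((a ^ 2) ^ 2)) ^
      (2 ^ (wt K ga et (a ^ 2) - 1) - 1) ∣ (PM (psv E chi chi') ga et).det := by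
    intro a ha
    obtain ⟨c1, hc1, hb⟩ := hmem a ha
    refine ord (K := K) _ ga et (a ^ 2) hK fun c hcc => ?_
    rw [lin_psv, psi_zero ga et (d ^ 2) (a ^ 2) chi chi' hK h hc1 hb c hcc, map_zero]
  have hprod : ∏ a ∈ NN, (Polynomial.X - Polynomial.C ((a ^ 2) ^ 2)) ^
      (2 ^ (wt K ga et (a ^ 2) - 1) - 1) ∣ (PM (psv E chi chi') ga et).det := by
    refine Finset.prod_dvd_of_coprime (fun a _ b _ hab => ?_) ho
    refine IsCoprime.pow ?_
    refine Polynomial.isCoprime_X_sub_C_of_isUnit_sub ?_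
    refine (sub_ne_zero.2 fun hh => hab ?_).isUnit
    have hinj := CharTwo.sq_injective (R := E)
    exact hinj (hinj hh)
  by_contra hdet
  have hle := Polynomial.natDegree_le_of_dvd hprod hdet
  rw [Polynomial.natDegree_prod_of_monic _ _ fun a _ => (Polynomial.monic_X_sub_C _).pow _]
    at hle
  have hle' : ∑ a ∈ NN, (2 ^ (wt K ga et (a ^ 2) - 1) - 1) < 2 ^ n := by
    refine lt_of_le_of_lt (le_trans (le_of_eq ?_) hle) (dpm _ _ _)
    refine Finset.sum_congr rfl fun a _ => ?_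
    rw [Polynomial.natDegree_pow, Polynomial.natDegree_X_sub_C, mul_one]
  have hs4 : ∑ a ∈ NN, 2 ^ wt K ga et (a ^ 2) ≤
      4 * ∑ a ∈ NN, (2 ^ (wt K ga et (a ^ 2) - 1) - 1) := by
    rw [Finset.mul_sum]
    refine Finset.sum_le_sum fun a ha => ?_
    obtain ⟨w, hw⟩ : ∃ w, wt K ga et (a ^ 2) = w + 2 := ⟨wt K ga et (a ^ 2) - 2, by
      have := (h2 a ha).2
      omega⟩
    rw [hw]
    have e1 : w + 2 - 1 = w + 1 := by omega
    rw [e1, pow_succ, pow_succ]
    have : 1 ≤ 2 ^ w := Nat.one_le_two_pow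
    omega
  have e2 : (2 : ℕ) ^ (n + 3) = 8 * 2 ^ n := by ring
  omega

end Pool.Agent.Lib.CPlane.S2
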