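import Pool.Agent.Lib.CPlane.SSStat

/-!
# s = 2, Case 2: from the curve to independent variables
-/

namespace Pool.Agent.Lib.CPlane.S2

open Finset Pool.Agent.Lib.CPlane.P2

section rows

variable {E : Type} [Field E] {n : ℕ} (psi ga et : Fin (n + 3) → E)

theorem PM_r0 (j) : PM psi ga et 0 j = Polynomial.C (psi j) := rfl

theorem PM_r1 (j) : PM psi ga et (Fin.succ 0) j = Polynomial.C (ga j) := rfl

theorem PM_r2 (j) : PM psi ga et (Fin.succ (Fin.succ 0)) j = Polynomial.C (et j) := rfl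

theorem PM_r3 (k : Fin n) (j) : PM psi ga et k.succ.succ.succ j =
    Polynomial.C (ga j ^ 2 ^ ((k : ℕ) + 1)) +
      Polynomial.X ^ 2 ^ (k : ℕ) * Polynomial.C (et j ^ 2 ^ ((k : ℕ) + 1)) := rfl

theorem PMt_r0 (j) : PMt psi ga et 0 j = MvPolynomial.C (psi j) := rfl

theorem PMt_r1 (j) : PMt psi ga et (Fin.succ 0) j = MvPolynomial.C (ga j) := rfl

theorem PMt_r2 (j) : PMt psi ga et (Fin.succ (Fin.succ 0)) j = MvPolynomial.C (et j) := rfl

theorem PMt_r3 (k : Fin n) (j) : PMt psi ga et k.succ.succ.succ j =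
    MvPolynomial.C (ga j ^ 2 ^ ((k : ℕ) + 1)) +
      MvPolynomial.X k * MvPolynomial.C (et j ^ 2 ^ ((k : ℕ) + 1)) := rfl

theorem PM_eq_map :
    PM psi ga et = (PMt psi ga et).map
      (MvPolynomial.aeval (fun k : Fin n => (Polynomial.X : Polynomial E) ^ 2 ^ (k : ℕ))) := by
  refine Matrix.ext fun i j => ?_
  rw [Matrix.map_apply]
  refine Fin.cases ?_ (fun i => Fin.cases ?_ (fun i => Fin.cases ?_ (fun i => ?_) i) i) i
  · rw [PM_r0, PMt_r0, MvPolynomial.aeval_C]
    rfl
  · rw [PM_r1, PMt_r1, MvPolynomial.aeval_C]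
    rfl
  · rw [PM_r2, PMt_r2, MvPolynomial.aeval_C]
    rfl
  · rw [PM_r3, PMt_r3, map_add, map_mul, MvPolynomial.aeval_C, MvPolynomial.aeval_C,
      MvPolynomial.aeval_X]
    rfl

end rows

theorem pzt : PZt := by
  intro E _ n psi ga et h
  have hc : curve 2 (PMt psi ga et).det = 0 := by
    unfold curve
    rw [AlgHom.map_det, AlgHom.mapMatrix_apply, ← PM_eq_map]
    exact h
  refine digits (s := 2) _ (fun k => ?_) hc
  have h1 := degreeOf_det_le (PMt psi ga et) k
    (fun i => if i = k.succ.succ.succ then 1 else 0) (fun i j => ?_)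
  · rw [Finset.sum_ite_eq' univ k.succ.succ.succ (fun _ => 1), if_pos (mem_univ _)] at h1
    omega
  · refine Fin.cases ?_ (fun i => Fin.cases ?_ (fun i => Fin.cases ?_ (fun i => ?_) i) i) i
    · rw [PMt_r0, MvPolynomial.degreeOf_C]
      exact Nat.zero_le _
    · rw [PMt_r1, MvPolynomial.degreeOf_C]
      exact Nat.zero_le _
    · rw [PMt_r2, MvPolynomial.degreeOf_C]
      exact Nat.zero_le _
    · rw [PMt_r3]
      refine (MvPolynomial.degreeOf_add_le _ _ _).trans ?_
      rw [MvPolynomial.degreeOf_C]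
      refine max_le (Nat.zero_le _) ?_
      refine (MvPolynomial.degreeOf_mul_le _ _ _).trans ?_
      rw [MvPolynomial.degreeOf_C, add_zero]
      by_cases hik : i = k
      · subst hik
        rw [if_pos rfl, MvPolynomial.degreeOf_X, if_pos rfl]
      · rw [if_neg (fun hh => hik (by simpa using hh)), MvPolynomial.degreeOf_X,
          if_neg (fun hh => hik hh.symm)]

end Pool.Agent.Lib.CPlane.S2
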