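import Pool.Agent.Lib.CPlane.SSStat

/-!
# SSh1: a relation between the tensors `g_k ⊗ y_k` gives a nonzero element of `S^⊥`
-/

namespace Pool.Agent.Lib.CPlane.S2

open Module Finset

/-- every functional is `Tr(d ·)` -/
theorem exists_trace_repr {K E : Type} [Field K] [Fintype K] [Field E] [Fintype E] [Algebra K E]
    (F : E →ₗ[K] K) : ∃ d : E, ∀ x, F x = Algebra.trace K E (d * x) := by
  have hfd : FiniteDimensional K E := Module.Finite.of_finite
  have hnd := traceForm_nondegenerate K E
  refine ⟨(LinearMap.BilinForm.toDual (Algebra.traceForm K E) hnd).symm F, fun x => ?_⟩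
  have h1 := LinearMap.BilinForm.toDual_def (B := Algebra.traceForm K E) hnd
    (m := (LinearMap.BilinForm.toDual (Algebra.traceForm K E) hnd).symm F) (n := x)
  rw [LinearEquiv.apply_symm_apply] at h1
  rw [h1, Algebra.traceForm_apply]

theorem rel0 : REL0 := by
  intro K E _ _ _ _ _ _ _ N ga et c hK hc hrel
  classical
  have hfd : FiniteDimensional K E := Module.Finite.of_finite
  have hcardE : Fintype.card E = 2 ^ finrank K E := by
    rw [Module.card_eq_pow_finrank (K := K), hK]
  have hK1 : ∀ (k : K) (j : ℕ), k ^ 2 ^ j = k := by
    intro k j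
    induction j with
    | zero => simp
    | succ j ih =>
      rw [pow_succ, pow_mul, ih]
      have h1 := FiniteField.pow_card k
      rw [hK] at h1
      exact h1
  -- the linearized polynomial as a linear map
  let L : E →ₗ[K] E :=
    { toFun := fun z => ∑ k : Fin (finrank K E), c k * z ^ 2 ^ (k : ℕ)
      map_add' := by
        intro x y
        rw [← Finset.sum_add_distrib]
        refine Finset.sum_congr rfl fun k _ => ?_
        rw [add_pow_char_pow, mul_add]
      map_smul' := by
        intro t x
        rw [RingHom.id_apply, Finset.smul_sum]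
        refine Finset.sum_congr rfl fun k _ => ?_
        rw [smul_pow, hK1, mul_smul_comm] }
  have hL : ∀ z, L z = ∑ k : Fin (finrank K E), c k * z ^ 2 ^ (k : ℕ) := fun _ => rfl
  -- it is not zero
  have hLne : ∃ z, L z ≠ 0 := by
    by_contra hcon
    push Not at hcon
    apply hc
    let p : Polynomial E := ∑ k : Fin (finrank K E), Polynomial.monomial (2 ^ (k : ℕ)) (c k)
    have hcoeff : ∀ k : Fin (finrank K E), p.coeff (2 ^ (k : ℕ)) = c k := by
      intro k
      simp only [p, Polynomial.finsetSum_coeff, Polynomial.coeff_monomial]
      rw [Finset.sum_eq_single k]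
      · rw [if_pos rfl]
      · intro j _ hj
        rw [if_neg]
        intro h
        apply hj
        exact Fin.ext (Nat.pow_right_injective (le_refl 2) h)
      · intro h
        exact absurd (Finset.mem_univ _) h
    have hdeg : p.natDegree < Fintype.card E := by
      have hfr : 0 < finrank K E := Module.finrank_pos
      have h1 : p.natDegree ≤ 2 ^ (finrank K E - 1) := by
        apply Polynomial.natDegree_sum_le_of_forall_le
        intro k _
        refine le_trans (Polynomial.natDegree_monomial_le _) ?_
        exact Nat.pow_le_pow_right (by norm_num) (by omega)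
      have h2 : 2 ^ (finrank K E - 1) < 2 ^ finrank K E :=
        Nat.pow_lt_pow_right (by norm_num) (by omega)
      rw [hcardE]
      omega
    have hp0 : p = 0 := by
      apply Polynomial.eq_zero_of_natDegree_lt_card_of_eval_eq_zero' p Finset.univ
      · intro z _
        rw [Polynomial.eval_finsetSum]
        simp only [Polynomial.eval_monomial]
        exact hcon z
      · rw [Finset.card_univ]
        exact hdeg
    funext k
    rw [← hcoeff k, hp0]
    simp
  obtain ⟨z, hz⟩ := hLne
  have hex : ∃ e : E, Algebra.trace K E (e * L z) ≠ 0 := by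
    by_contra hcon
    push Not at hcon
    apply hz
    refine (traceForm_nondegenerate K E).1 _ fun v => ?_
    rw [Algebra.traceForm_apply, mul_comm]
    exact hcon v
  obtain ⟨e, he⟩ := hex
  obtain ⟨d, hd⟩ := exists_trace_repr
    ((Algebra.trace K E).comp ((LinearMap.mulLeft K e).comp L))
  have hd' : ∀ x, Algebra.trace K E (e * L x) = Algebra.trace K E (d * x) := hd
  refine ⟨d, ?_, ?_⟩
  · rintro rfl
    apply he
    rw [hd', zero_mul, map_zero]
  · intro u v
    change Algebra.trace K E (d * (P2.lin ga u * P2.lin et v)) = 0
    rw [← hd']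
    have h0 : L (P2.lin ga u * P2.lin et v) = 0 := by
      unfold P2.lin
      rw [Finset.sum_mul_sum, map_sum]
      refine Finset.sum_eq_zero fun i _ => ?_
      rw [map_sum]
      refine Finset.sum_eq_zero fun j _ => ?_
      rw [smul_mul_smul_comm, map_smul, hL]
      have h1 := hrel i j
      simp only [mul_pow]
      rw [h1, smul_zero]
    rw [h0, mul_zero, map_zero]

end Pool.Agent.Lib.CPlane.S2
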