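import Pool.Agent.Lib.CPlane.SSStat

/-!
# s = 2, Case 2: the form `β_(d²)` has rank at most one
-/

namespace Pool.Agent.Lib.CPlane.S2

open Finset Pool.Agent.Lib.CPlane.P2

theorem rk1 : NNS → NNB → RKC → RK1 := by
  intro nns nnb rkc K E _ _ _ _ _ _ _ N f e ga et d hK hp hs hd c c' c1 c1'
  classical
  by_contra hne
  have h1 := rkc (K := K) ga et (d ^ 2) hK hs ⟨c, c', c1, c1', hne⟩
  obtain ⟨h2, h3⟩ := nns (K := K) ga et d
    (univ.filter fun a => a ≠ 0 ∧ ∃ c ∈ Dsub K ga et (a ^ 2), bt K ga et (d ^ 2) c c ≠ 0)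
    hK hp hd (fun a => by simp)
  have h4 := nnb (K := K) ga et
    (univ.filter fun a => a ≠ 0 ∧ ∃ c ∈ Dsub K ga et (a ^ 2), bt K ga et (d ^ 2) c c ≠ 0)
    hK hp hs (fun a ha => ⟨(mem_filter.1 ha).2.1, (h2 a ha).1⟩)
  generalize (univ.filter fun a => a ≠ 0 ∧
    ∃ c ∈ Dsub K ga et (a ^ 2), bt K ga et (d ^ 2) c c ≠ 0) = NN at h2 h3 h4
  have h5 : 3 * ∑ a ∈ NN, 2 ^ wt K ga et (a ^ 2) ≤
      4 * ∑ a ∈ NN, (2 ^ wt K ga et (a ^ 2) - 1) := by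
    rw [Finset.mul_sum, Finset.mul_sum]
    refine Finset.sum_le_sum fun a ha => ?_
    have h6 : 2 ^ 2 ≤ 2 ^ wt K ga et (a ^ 2) := Nat.pow_le_pow_right (by norm_num) (h2 a ha).2
    omega
  have hN : 2 ≤ N := by
    have := hs.sum
    have := hs.two_f
    omega
  have h7 : (2 : ℕ) ^ N = 2 * 2 ^ (N - 1) := by
    rw [← pow_succ']
    congr 1
    omega
  omega

end Pool.Agent.Lib.CPlane.S2
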