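import Pool.Agent.Lib.CPlane.SSStat
import Pool.Agent.Lib.CPlane.M0CNTA

/-!
# s = 2, Case 2: a bilinear form of rank at least two has at least `3/8` ones
-/

namespace Pool.Agent.Lib.CPlane.S2

open Finset Pool.Agent.Lib.CPlane.P2

namespace RkC

/-- a nonzero additive function with two values takes both equally often -/
theorem half {K V : Type} [Field K] [Fintype K] (hK : Fintype.card K = 2) [AddCommGroup V]
    [Finite V] (f : V →+ K) (hf : ∃ v, f v ≠ 0) : 2 * Nat.card {v // f v ≠ 0} = Nat.card V := by
  classical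
  obtain ⟨v₀, hv₀⟩ := hf
  have hK1 := CntA.eq_one_of_ne (K := K) hK
  have h1 : f v₀ = 1 := hK1 _ hv₀
  have e1 : {v // f v ≠ 0} ≃ {v // ¬ f v ≠ 0} :=
    { toFun := fun v => ⟨v.1 - v₀, by rw [map_sub, hK1 _ v.2, h1, sub_self, not_not]⟩
      invFun := fun v => ⟨v.1 + v₀, by
        rw [map_add, not_not.1 v.2, zero_add, h1]
        exact one_ne_zero⟩
      left_inv := fun v => Subtype.ext (sub_add_cancel _ _)
      right_inv := fun v => Subtype.ext (add_sub_cancel_right _ _) }
  have e2 : {v // f v ≠ 0} ⊕ {v // ¬ f v ≠ 0} ≃ V := Equiv.sumCompl _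
  rw [← Nat.card_congr e2, Nat.card_sum, ← Nat.card_congr e1, two_mul]

/-- the coordinates of `c` in `G`, those of `c'` in `Y` -/
def mix {K E : Type} [Field E] {N : ℕ} (et : Fin N → E) [DecidablePred fun j => et j = 0]
    (c c' : Fin N → K) : Fin N → K := fun j => if et j = 0 then c j else c' j

theorem mix_mix {K E : Type} [Field E] {N : ℕ} (et : Fin N → E)
    [DecidablePred fun j => et j = 0] (c c' : Fin N → K) :
    mix et (mix et c c') (mix et c' c) = c := by
  funext j
  unfold mix
  split_ifs <;> rfl

theorem card_swap {K E : Type} [Field E] {N : ℕ} (et : Fin N → E)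
    [DecidablePred fun j => et j = 0] (P : (Fin N → K) → (Fin N → K) → Prop)
    (hP : ∀ c c', P (mix et c c') (mix et c c') ↔ P c c') :
    Nat.card {p : (Fin N → K) × (Fin N → K) // P p.1 p.2} =
      Nat.card {x // P x x} * Nat.card (Fin N → K) := by
  rw [← Nat.card_prod]
  refine Nat.card_congr
    { toFun := fun p => (⟨mix et p.1.1 p.1.2, (hP _ _).2 p.2⟩, mix et p.1.2 p.1.1)
      invFun := fun q => ⟨(mix et q.1.1 q.2, mix et q.2 q.1.1), ?_⟩
      left_inv := ?_
      right_inv := ?_ }
  · have h1 := hP (mix et q.1.1 q.2) (mix et q.2 q.1.1)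
    rw [mix_mix] at h1
    exact h1.1 q.1.2
  · intro p
    apply Subtype.ext
    exact Prod.ext (mix_mix et _ _) (mix_mix et _ _)
  · intro q
    exact Prod.ext (Subtype.ext (mix_mix et _ _)) (mix_mix et _ _)

variable {K E : Type} [Field K] [Field E] [Algebra K E] {N : ℕ}

theorem lin_ga_mix (ga et : Fin N → E) (hz : ∀ j, ga j = 0 ∨ et j = 0)
    [DecidablePred fun j => et j = 0] (c c' : Fin N → K) :
    lin ga (mix et c c') = lin ga c := by
  unfold lin mix
  refine Finset.sum_congr rfl fun j _ => ?_
  by_cases h : et j = 0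
  · rw [if_pos h]
  · rw [(hz j).resolve_right h, smul_zero, smul_zero]

theorem lin_et_mix (et : Fin N → E) [DecidablePred fun j => et j = 0] (c c' : Fin N → K) :
    lin et (mix et c c') = lin et c' := by
  unfold lin mix
  refine Finset.sum_congr rfl fun j _ => ?_
  by_cases h : et j = 0
  · rw [if_pos h, h, smul_zero, smul_zero]
  · rw [if_neg h]

/-- `β_d(c, .)` and `β_d(., c')` are additive -/
noncomputable def btl (K : Type) [Field K] [Algebra K E] (ga et : Fin N → E) (d : E)
    (c' : Fin N → K) : (Fin N → K) →+ K where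
  toFun c := bt K ga et d c c'
  map_zero' := by
    unfold bt
    rw [lin_zero, zero_mul, mul_zero, map_zero]
  map_add' := by
    intro c1 c2
    unfold bt
    rw [lin_add, add_mul, mul_add, map_add]

/-- `β_d(c, .)` -/
noncomputable def btr (K : Type) [Field K] [Algebra K E] (ga et : Fin N → E) (d : E)
    (c : Fin N → K) : (Fin N → K) →+ K where
  toFun c' := bt K ga et d c c'
  map_zero' := by
    unfold bt
    rw [lin_zero, mul_zero, mul_zero, map_zero]
  map_add' := by
    intro c1 c2
    unfold bt
    rw [lin_add, mul_add, mul_add, map_add]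

end RkC

theorem rkc : RKC := by
  intro K E _ _ _ _ _ _ _ N f e ga et d hK hs ⟨c0, c0', c1, c1', hne⟩
  classical
  have hz := hs.zero
  have hK1 := CntA.eq_one_of_ne (K := K) hK
  have hN : Nat.card (Fin N → K) = 2 ^ N := by
    rw [CntA.card_fun hK, Nat.card_eq_fintype_card, Fintype.card_fin]
  have h1 := RkC.card_swap (K := K) et (fun c c' => bt K ga et d c c' ≠ 0) (fun c c' => by
    unfold bt
    rw [RkC.lin_ga_mix ga et hz, RkC.lin_et_mix])
  rw [hN] at h1
  -- the right radical
  set R0 : Finset (Fin N → K) := univ.filter fun c' => ∀ c, bt K ga et d c c' = 0 with hR0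
  have h2 : 2 * Nat.card {p : (Fin N → K) × (Fin N → K) // bt K ga et d p.1 p.2 ≠ 0} =
      (2 ^ N - R0.card) * 2 ^ N := by
    have e1 : (Σ c' : Fin N → K, {c : Fin N → K // bt K ga et d c c' ≠ 0}) ≃
        {p : (Fin N → K) × (Fin N → K) // bt K ga et d p.1 p.2 ≠ 0} :=
      { toFun := fun x => ⟨(x.2.1, x.1), x.2.2⟩
        invFun := fun p => ⟨p.1.2, p.1.1, p.2⟩
        left_inv := fun x => rfl
        right_inv := fun p => rfl }
    rw [← Nat.card_congr e1, Nat.card_sigma, Finset.mul_sum]
    have h3 : ∀ c' : Fin N → K, 2 * Nat.card {c : Fin N → K // bt K ga et d c c' ≠ 0} =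
        if c' ∈ R0 then 0 else 2 ^ N := by
      intro c'
      by_cases hc' : c' ∈ R0
      · rw [if_pos hc']
        have h4 := (Finset.mem_filter.1 hc').2
        have : IsEmpty {c : Fin N → K // bt K ga et d c c' ≠ 0} := ⟨fun c => c.2 (h4 c.1)⟩
        rw [Nat.card_of_isEmpty]
      · rw [if_neg hc', ← hN]
        refine RkC.half hK (RkC.btl K ga et d c') ?_
        by_contra hcon
        push Not at hcon
        exact hc' (Finset.mem_filter.2 ⟨Finset.mem_univ _, hcon⟩)
    rw [Finset.sum_congr rfl fun c' _ => h3 c', Finset.sum_ite, Finset.sum_const_zero, zero_add,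
      Finset.sum_const, smul_eq_mul]
    congr 1
    rw [Finset.filter_not, Finset.card_sdiff_of_subset (Finset.filter_subset _ _),
      Finset.card_univ, ← Nat.card_eq_fintype_card, hN]
    congr 2
    ext c'
    simp
  -- the radical has codimension at least two
  have h5 : 4 * R0.card ≤ 2 ^ N := by
    have hsurj : Function.Surjective
        ((RkC.btr K ga et d c0).prod (RkC.btr K ga et d c1)) := by
      have hv : ∀ v, ((RkC.btr K ga et d c0).prod (RkC.btr K ga et d c1)) v =
        (bt K ga et d c0 v, bt K ga et d c1 v) := fun _ => rfl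
      have hadd : ∀ v w, ((RkC.btr K ga et d c0).prod (RkC.btr K ga et d c1)) (v + w) =
        (bt K ga et d c0 v + bt K ga et d c0 w, bt K ga et d c1 v + bt K ga et d c1 w) := by
        intro v w
        rw [map_add, hv, hv]
        rfl
      have hch : (1 : K) + 1 = 0 := CharTwo.add_self_eq_zero 1
      have hval : ∀ k : K, k = 0 ∨ k = 1 := fun k => by
        by_cases hk : k = 0
        · exact Or.inl hk
        · exact Or.inr (hK1 k hk)
      rintro ⟨s, t⟩
      have hall : ∀ x y : K, ∃ v, (bt K ga et d c0 v, bt K ga et d c1 v) = (x, y) := by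
        have a0 : ∃ v, (bt K ga et d c0 v, bt K ga et d c1 v) = ((0 : K), (0 : K)) := by
          refine ⟨0, ?_⟩
          rw [← hv, map_zero]
          rfl
        rcases hval (bt K ga et d c0 c0') with p | p <;>
        rcases hval (bt K ga et d c1 c0') with q | q <;>
        rcases hval (bt K ga et d c0 c1') with r | r <;>
        rcases hval (bt K ga et d c1 c1') with u | u <;>
        rw [p, q, r, u] at hne <;>
        first
        | (exfalso; apply hne; ring1)
        | (intro x y
           have e0 := hv c0'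
           have e1 := hv c1'
           have e2 := hadd c0' c1'
           rw [hv] at e2
           rw [p, q, r, u] at e2
           rcases hval x with rfl | rfl <;> rcases hval y with rfl | rfl <;>
           first
           | exact a0
           | (refine ⟨c0', ?_⟩; rw [p, q]; done)
           | (refine ⟨c1', ?_⟩; rw [r, u]; done)
           | (refine ⟨c0' + c1', ?_⟩; rw [e2]; simp [hch]))
      obtain ⟨v, hv'⟩ := hall s t
      exact ⟨v, by rw [hv]; exact hv'⟩
    have h6 := CntA.card_ker_of_surj _ hsurj
    rw [hN, Nat.card_prod, Nat.card_eq_fintype_card (α := K), hK] at h6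
    rw [h6]
    have h7 : R0.card ≤
        Nat.card ((RkC.btr K ga et d c0).prod (RkC.btr K ga et d c1)).ker := by
      have h8 : Nat.card ((RkC.btr K ga et d c0).prod (RkC.btr K ga et d c1)).ker =
          (univ.filter fun c' => c' ∈
            ((RkC.btr K ga et d c0).prod (RkC.btr K ga et d c1)).ker).card := by
        rw [Nat.card_eq_fintype_card]
        exact Fintype.card_subtype _
      rw [h8]
      refine Finset.card_le_card fun c' hc' => ?_
      have h9 := (Finset.mem_filter.1 hc').2
      refine Finset.mem_filter.2 ⟨Finset.mem_univ _, ?_⟩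
      rw [AddMonoidHom.mem_ker]
      exact Prod.ext (h9 c0) (h9 c1)
    omega
  have h8 : 8 * (Nat.card {x : Fin N → K // bt K ga et d x x ≠ 0} * 2 ^ N) ≥
      3 * 2 ^ N * 2 ^ N := by
    rw [← h1]
    have h9 : 8 * Nat.card {p : (Fin N → K) × (Fin N → K) // bt K ga et d p.1 p.2 ≠ 0} =
        4 * (2 ^ N - R0.card) * 2 ^ N := by
      calc _ = 4 * (2 * Nat.card
            {p : (Fin N → K) × (Fin N → K) // bt K ga et d p.1 p.2 ≠ 0}) := by ring
        _ = _ := by rw [h2]; ring
    rw [h9]
    refine Nat.mul_le_mul_right _ ?_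
    omega
  have h10 : 0 < 2 ^ N := by positivity
  have h11 : 3 * 2 ^ N * 2 ^ N ≤
      8 * Nat.card {x : Fin N → K // bt K ga et d x x ≠ 0} * 2 ^ N := by
    rw [mul_assoc 8]
    exact h8
  exact Nat.le_of_mul_le_mul_right h11 h10

end Pool.Agent.Lib.CPlane.S2
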