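import Pool.Agent.Lib.CPlane.SSMain
import Pool.Agent.Lib.CPlane.SSNNB
import Pool.Agent.Lib.CPlane.SSRK1
import Pool.Agent.Lib.CPlane.SSPZ
import Pool.Agent.Lib.CPlane.SSPZT
import Pool.Agent.Lib.CPlane.SSNNS
import Pool.Agent.Lib.CPlane.SSRKC
import Pool.Agent.Lib.CPlane.SSORD
import Pool.Agent.Lib.CPlane.SSCXX
import Pool.Agent.Lib.CPlane.SSCHI
import Pool.Agent.Lib.CPlane.SSREL
import Pool.Agent.Lib.CPlane.SSFIX
import Pool.Agent.Lib.CPlane.M0CNTA

/-!
# s = 2, Case 2: complete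
-/

namespace Pool.Agent.Lib.CPlane.S2

theorem nnb_all : NNB := nnb cnt1 cnt2

theorem rk1_all : RK1 := rk1 nns nnb_all rkc

theorem pz_all : PZ := pz nns cxx ord dpm

/-- Case 2: if `[0, N - 3]` has no near tight set with two elements then the tensors
`g_k ⊗ y_k`, `k < m`, are independent over `E` -/
theorem case2_all : CASE2 := case2 rk1_all pz_all pzt chi0 rel0 fix1

end Pool.Agent.Lib.CPlane.S2
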