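import Pool.Agent.Lib.CPlane.SSStat

/-!
# s = 2, Case 2: assembly
-/

namespace Pool.Agent.Lib.CPlane.S2

open Finset Pool.Agent.Lib.CPlane.P2

section btl

variable {K E : Type} [Field K] [Field E] [Algebra K E] {N : ℕ} (ga et : Fin N → E) (d : E)

/-- `c ↦ β_d(c, c0)` -/
noncomputable def btL (c0 : Fin N → K) : (Fin N → K) →ₗ[K] K where
  toFun c := bt K ga et d c c0
  map_add' c c1 := by
    unfold bt
    rw [← map_add, lin_add]
    congr 1
    ring
  map_smul' k c := by
    unfold bt
    rw [lin_smul, RingHom.id_apply, ← map_smul]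
    congr 1
    rw [smul_mul_assoc, mul_smul_comm]

/-- `c' ↦ β_d(c0, c')` -/
noncomputable def btR (c0 : Fin N → K) : (Fin N → K) →ₗ[K] K where
  toFun c := bt K ga et d c0 c
  map_add' c c1 := by
    unfold bt
    rw [← map_add, lin_add]
    congr 1
    ring
  map_smul' k c := by
    unfold bt
    rw [lin_smul, RingHom.id_apply, ← map_smul]
    congr 1
    rw [mul_smul_comm, mul_smul_comm]

theorem btL_apply (c0 c : Fin N → K) : btL ga et d c0 c = bt K ga et d c c0 := rfl

theorem btR_apply (c0 c : Fin N → K) : btR ga et d c0 c = bt K ga et d c0 c := rfl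

theorem bt_zero_left {c c' : Fin N → K} (h : lin ga c = 0) : bt K ga et d c c' = 0 := by
  unfold bt
  rw [h, zero_mul, mul_zero, map_zero]

theorem bt_zero_right {c c' : Fin N → K} (h : lin et c' = 0) : bt K ga et d c c' = 0 := by
  unfold bt
  rw [h, mul_zero, mul_zero, map_zero]

end btl

/-- `S^⊥` is Frobenius stable -/
theorem perp_sq (rk1 : RK1) (pz : PZ) (pzt : PZt) (chi0 : CHI0) {K E : Type} [Field K]
    [Fintype K] [CharP K 2] [Field E] [Fintype E] [CharP E 2] [Algebra K E] {n f e : ℕ}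
    (ga et : Fin (n + 3) → E) (hK : Fintype.card K = 2) (hp : Pair2 K ga et)
    (hs : Split ga et f e) (hN : NoNT ga et (n + 1)) (d : E) (hd : Perp K ga et d) :
    Perp K ga et (d ^ 2) := by
  by_contra hne
  unfold Perp at hne
  push Not at hne
  obtain ⟨c0, c0', h0⟩ := hne
  have h1 : bt K ga et (d ^ 2) c0 c0' = 1 := by
    have h := FiniteField.pow_card_sub_one_eq_one _ h0
    rw [hK] at h
    simpa using h
  have hr := rk1 (K := K) ga et d hK hp hs hd
  have hc : btL ga et (d ^ 2) c0' ≠ 0 := by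
    intro h
    have h2 := congrArg (fun l => l c0) h
    simp only [btL_apply, LinearMap.zero_apply] at h2
    exact h0 h2
  have hc' : btR ga et (d ^ 2) c0 ≠ 0 := by
    intro h
    have h2 := congrArg (fun l => l c0') h
    simp only [btR_apply, LinearMap.zero_apply] at h2
    exact h0 h2
  refine hc (chi0 (K := K) ga et _ (btR ga et (d ^ 2) c0) hK hp.ind hs hN
    (fun c hc0 => ?_) (fun c hc0 => ?_) (pzt _ _ _ (pz (K := K) ga et d _ _ hK hp hs hd hc hc'
      fun c c' => ?_)))
  · rw [btL_apply, bt_zero_left ga et _ hc0]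
  · rw [btR_apply, bt_zero_right ga et _ hc0]
  · rw [btL_apply, btR_apply]
    have h2 := hr c c' c0 c0'
    rw [h1, mul_one] at h2
    exact h2

theorem case2 : RK1 → PZ → PZt → CHI0 → REL0 → FIX1 → CASE2 := by
  intro rk1 pz pzt chi0 rel fix1 K E _ _ _ _ _ _ _ n f e a ga et hK hm hp hs hN c hc
  by_contra hne
  obtain ⟨d, hd0, hd⟩ := rel (K := K) ga et c hK hne hc
  have h1 : Perp K ga et 1 := fix1 (K := K) ga et hK hm
    (fun d hd => perp_sq rk1 pz pzt chi0 ga et hK hp hs hN d hd) ⟨d, hd0, hd⟩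
  have hce : 0 < Nat.card {j // ga j = 0} := by
    rw [hs.ce]
    have := hs.two_e
    omega
  obtain ⟨⟨j, hj⟩⟩ : Nonempty {j // ga j = 0} := (Nat.card_pos_iff.1 hce).1
  have l1 : ∀ l : Fin (n + 3) → E, lin l (Pi.single j (1 : K)) = l j := by
    intro l
    unfold lin
    rw [Finset.sum_eq_single j]
    · rw [Pi.single_eq_same, one_smul]
    · intro i _ hi
      rw [Pi.single_eq_of_ne hi, zero_smul]
    · intro h
      exact absurd (mem_univ _) h
  have hj' : lin et (Pi.single j (1 : K)) ≠ 0 := by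
    intro h
    have h2 := hp.ind (Pi.single j 1) (by rw [l1, hj]) h
    have h3 := congrFun h2 j
    rw [Pi.single_eq_same] at h3
    exact one_ne_zero h3
  obtain ⟨c', hc'⟩ := hp.tr _ hj'
  refine hc' ?_
  have h2 := h1 c' (Pi.single j 1)
  unfold bt at h2
  rw [one_mul] at h2
  exact h2

end Pool.Agent.Lib.CPlane.S2
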