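import Pool.Agent.Lib.CPlane.M0Stat
import Pool.Agent.Lib.CPlane.Digits

/-!
# s = 2, Case 2: if `[0, N - 3]` has no near tight set with two elements then the tensors
`g_k ⊗ y_k`, `k < m`, are independent over `E` (`S = E`); definitions and statements
-/

namespace Pool.Agent.Lib.CPlane.S2

open Finset Pool.Agent.Lib.CPlane.P2

/-- `β_d(c, c') = Tr(d g(c) y(c'))` -/
noncomputable def bt (K : Type) {E : Type} [Field K] [Field E] [Algebra K E] {N : ℕ}
    (ga et : Fin N → E) (d : E) (c c' : Fin N → K) : K :=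
  Algebra.trace K E (d * (lin ga c * lin et c'))

/-- `d` is orthogonal to all products `g y` -/
def Perp (K : Type) {E : Type} [Field K] [Field E] [Algebra K E] {N : ℕ}
    (ga et : Fin N → E) (d : E) : Prop := ∀ c c' : Fin N → K, bt K ga et d c c' = 0

/-- the functional `g_k` as a vector of `E^N` -/
def gv {E : Type} [Field E] {N : ℕ} (ga : Fin N → E) (k : ℕ) : Fin N → E :=
  fun j => ga j ^ 2 ^ k

/-- `r(A)`: the rank of `g_k, y_k`, `k ∈ A` -/
noncomputable def rA {E : Type} [Field E] {N : ℕ} (ga et : Fin N → E) (A : Finset ℕ) : ℕ :=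
  Module.finrank E (Submodule.span E (gv ga '' (A : Set ℕ) ∪ gv et '' (A : Set ℕ)))

/-- no near tight set with two elements in `[0, L - 1]` -/
def NoNT {E : Type} [Field E] {N : ℕ} (ga et : Fin N → E) (L : ℕ) : Prop :=
  ∀ A : Finset ℕ, (∀ k ∈ A, k < L) → 2 ≤ A.card → A.card + 2 ≤ rA ga et A

/-- SSa. `NN` = set of the `a ≠ 0` with `β_(d²) ≠ 0` on `D_a`, `d ∈ S^⊥`: no vertices, of weight
at least two, and `Σ_NN 2^w = 2 #{β ≠ 0}` -/
def NNS : Prop := ∀ {K E : Type} [Field K] [Fintype K] [CharP K 2] [Field E] [Fintype E]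
  [CharP E 2] [Algebra K E] {N : ℕ} (ga et : Fin N → E) (d : E) (NN : Finset E),
  Fintype.card K = 2 → Pair2 K ga et → Perp K ga et d →
  (∀ a, a ∈ NN ↔ a ≠ 0 ∧ ∃ c ∈ Dsub K ga et (a ^ 2), bt K ga et (d ^ 2) c c ≠ 0) →
  (∀ a ∈ NN, ¬ IsVx K ga et a ∧ 2 ≤ wt K ga et (a ^ 2)) ∧
  ∑ a ∈ NN, 2 ^ wt K ga et (a ^ 2) =
    2 * Nat.card {c : Fin N → K // bt K ga et (d ^ 2) c c ≠ 0}

/-- SSb. `Σ (2^w - 1) < 2^(N-1)` over non-vertices (from CNT1, CNT2) -/
def NNB : Prop := ∀ {K E : Type} [Field K] [Fintype K] [CharP K 2] [Field E] [Fintype E]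
  [CharP E 2] [Algebra K E] {N f e : ℕ} (ga et : Fin N → E) (NN : Finset E),
  Fintype.card K = 2 → Pair2 K ga et → Split ga et f e →
  (∀ a ∈ NN, a ≠ 0 ∧ ¬ IsVx K ga et a) →
  ∑ a ∈ NN, (2 ^ wt K ga et (a ^ 2) - 1) < 2 ^ (N - 1)

/-- SSc. a bilinear form of rank at least two on `G × Y` has at least `3 * 2^N / 8` ones -/
def RKC : Prop := ∀ {K E : Type} [Field K] [Fintype K] [CharP K 2] [Field E] [Fintype E]
  [CharP E 2] [Algebra K E] {N f e : ℕ} (ga et : Fin N → E) (d : E),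
  Fintype.card K = 2 → Split ga et f e →
  (∃ c c' c1 c1' : Fin N → K, bt K ga et d c c' * bt K ga et d c1 c1' ≠
    bt K ga et d c c1' * bt K ga et d c1 c') →
  3 * 2 ^ N ≤ 8 * Nat.card {c : Fin N → K // bt K ga et d c c ≠ 0}

/-- SSd. for `d ∈ S^⊥` the form `β_(d²)` has rank at most one -/
def RK1 : Prop := ∀ {K E : Type} [Field K] [Fintype K] [CharP K 2] [Field E] [Fintype E]
  [CharP E 2] [Algebra K E] {N f e : ℕ} (ga et : Fin N → E) (d : E),
  Fintype.card K = 2 → Pair2 K ga et → Split ga et f e → Perp K ga et d →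
  ∀ c c' c1 c1' : Fin N → K, bt K ga et (d ^ 2) c c' * bt K ga et (d ^ 2) c1 c1' =
    bt K ga et (d ^ 2) c c1' * bt K ga et (d ^ 2) c1 c'

/-- the rows `ψ, g_0, y_0, g_k + Y^(2^(k-1)) y_k` (`k = 1 .. n`) over `E[Y]`, `Y = T²`,
`N = n + 3` -/
noncomputable def PM {E : Type} [Field E] {n : ℕ} (psi ga et : Fin (n + 3) → E) :
    Matrix (Fin (n + 3)) (Fin (n + 3)) (Polynomial E) :=
  Matrix.of fun i j => (Fin.cons (Polynomial.C (psi j)) (Fin.cons (Polynomial.C (ga j))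
    (Fin.cons (Polynomial.C (et j)) (fun k : Fin n => Polynomial.C (ga j ^ 2 ^ ((k : ℕ) + 1)) +
      Polynomial.X ^ 2 ^ (k : ℕ) * Polynomial.C (et j ^ 2 ^ ((k : ℕ) + 1))))) :
    Fin (n + 3) → Polynomial E) i

/-- the same rows with independent variables -/
noncomputable def PMt {E : Type} [Field E] {n : ℕ} (psi ga et : Fin (n + 3) → E) :
    Matrix (Fin (n + 3)) (Fin (n + 3)) (MvPolynomial (Fin n) E) :=
  Matrix.of fun i j => (Fin.cons (MvPolynomial.C (psi j)) (Fin.cons (MvPolynomial.C (ga j))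
    (Fin.cons (MvPolynomial.C (et j)) (fun k : Fin n =>
      MvPolynomial.C (ga j ^ 2 ^ ((k : ℕ) + 1)) +
      MvPolynomial.X k * MvPolynomial.C (et j ^ 2 ^ ((k : ℕ) + 1))))) :
    Fin (n + 3) → MvPolynomial (Fin n) E) i

/-- `ψ = χ + χ'` as a vector of `E^N` -/
noncomputable def psv (E : Type) {K : Type} [Field K] [Field E] [Algebra K E] {N : ℕ}
    (chi chi' : (Fin N → K) →ₗ[K] K) : Fin N → E :=
  fun j => algebraMap K E (chi (Pi.single j 1) + chi' (Pi.single j 1))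

/-- SSe. order of the determinant at a point of weight `w` with `ψ = 0` on `D_τ` -/
def ORD : Prop := ∀ {K E : Type} [Field K] [Fintype K] [CharP K 2] [Field E] [CharP E 2]
  [Algebra K E] {n : ℕ} (psi ga et : Fin (n + 3) → E) (τ : E), Fintype.card K = 2 →
  (∀ c ∈ Dsub K ga et τ, lin psi c = 0) →
  (Polynomial.X - Polynomial.C (τ ^ 2)) ^ (2 ^ (wt K ga et τ - 1) - 1) ∣ (PM psi ga et).det

/-- degree of the determinant -/
def DPM : Prop := ∀ {E : Type} [Field E] {n : ℕ} (psi ga et : Fin (n + 3) → E),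
  (PM psi ga et).det.natDegree < 2 ^ n

/-- SSf0. `#{χ χ' ≠ 0} = 2^(N-2)` -/
def CXX : Prop := ∀ {K E : Type} [Field K] [Fintype K] [Field E] [Algebra K E] {N f e : ℕ}
  (ga et : Fin N → E) (chi chi' : (Fin N → K) →ₗ[K] K), Fintype.card K = 2 →
  Split ga et f e → chi ≠ 0 → chi' ≠ 0 → (∀ c, lin ga c = 0 → chi c = 0) →
  (∀ c, lin et c = 0 → chi' c = 0) →
  4 * Nat.card {c : Fin N → K // chi c * chi' c ≠ 0} = 2 ^ N

/-- SSf. rank one: the determinant vanishes -/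
def PZ : Prop := ∀ {K E : Type} [Field K] [Fintype K] [CharP K 2] [Field E] [Fintype E]
  [CharP E 2] [Algebra K E] {n f e : ℕ} (ga et : Fin (n + 3) → E) (d : E)
  (chi chi' : (Fin (n + 3) → K) →ₗ[K] K),
  Fintype.card K = 2 → Pair2 K ga et → Split ga et f e → Perp K ga et d →
  chi ≠ 0 → chi' ≠ 0 → (∀ c c', bt K ga et (d ^ 2) c c' = chi c * chi' c') →
  (PM (psv E chi chi') ga et).det = 0

/-- SSg1. from the curve to independent variables -/
def PZt : Prop := ∀ {E : Type} [Field E] {n : ℕ} (psi ga et : Fin (n + 3) → E),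
  (PM psi ga et).det = 0 → (PMt psi ga et).det = 0

/-- RADO. `q` fixed rows and `n` generic rows `g_k + t_k y_k` are independent if
`q + |B| ≤ dim span (M, g_B, y_B)` for all `B` -/
def RADO : Prop := ∀ {E : Type} [Field E] {q n : ℕ} {ι : Type} [Fintype ι] (M : Fin q → ι → E)
  (g y : Fin n → ι → E),
  (∀ B : Finset (Fin n), q + B.card ≤ Module.finrank E (Submodule.span E
    (Set.range M ∪ g '' (B : Set (Fin n)) ∪ y '' (B : Set (Fin n))))) →
  ∀ (a : Fin q → MvPolynomial (Fin n) E) (b : Fin n → MvPolynomial (Fin n) E),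
  (∀ j, ∑ i, a i * MvPolynomial.C (M i j) + ∑ k, b k * (MvPolynomial.C (g k j) +
    MvPolynomial.X k * MvPolynomial.C (y k j)) = 0) → (∀ i, a i = 0) ∧ ∀ k, b k = 0

/-- SSg2. without near tight sets the multilinear determinant vanishes only for `χ = 0` -/
def CHI0 : Prop := ∀ {K E : Type} [Field K] [Fintype K] [Field E] [Algebra K E] {n f e : ℕ}
  (ga et : Fin (n + 3) → E) (chi chi' : (Fin (n + 3) → K) →ₗ[K] K), Fintype.card K = 2 →
  (∀ c : Fin (n + 3) → K, lin ga c = 0 → lin et c = 0 → c = 0) → Split ga et f e →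
  NoNT ga et (n + 1) → (∀ c, lin ga c = 0 → chi c = 0) → (∀ c, lin et c = 0 → chi' c = 0) →
  (PMt (psv E chi chi') ga et).det = 0 → chi = 0

/-- SSh1. a relation gives a nonzero element of `S^⊥` -/
def REL0 : Prop := ∀ {K E : Type} [Field K] [Fintype K] [CharP K 2] [Field E] [Fintype E]
  [CharP E 2] [Algebra K E] {N : ℕ} (ga et : Fin N → E) (c : Fin (Module.finrank K E) → E),
  Fintype.card K = 2 → c ≠ 0 →
  (∀ i j, ∑ k : Fin (Module.finrank K E), c k * (ga i ^ 2 ^ (k : ℕ) * et j ^ 2 ^ (k : ℕ)) = 0) →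
  ∃ d : E, d ≠ 0 ∧ Perp K ga et d

/-- SSh2. `m = 2^a`: a nonzero Frobenius stable `S^⊥` contains `1` -/
def FIX1 : Prop := ∀ {K E : Type} [Field K] [Fintype K] [CharP K 2] [Field E] [Fintype E]
  [CharP E 2] [Algebra K E] {N a : ℕ} (ga et : Fin N → E),
  Fintype.card K = 2 → Module.finrank K E = 2 ^ a →
  (∀ d : E, Perp K ga et d → Perp K ga et (d ^ 2)) → (∃ d : E, d ≠ 0 ∧ Perp K ga et d) →
  Perp K ga et 1

/-- SSh. Case 2: the tensors `g_k ⊗ y_k`, `k < m`, are independent -/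
def CASE2 : Prop := ∀ {K E : Type} [Field K] [Fintype K] [CharP K 2] [Field E] [Fintype E]
  [CharP E 2] [Algebra K E] {n f e a : ℕ} (ga et : Fin (n + 3) → E),
  Fintype.card K = 2 → Module.finrank K E = 2 ^ a → Pair2 K ga et → Split ga et f e →
  NoNT ga et (n + 1) → ∀ c : Fin (Module.finrank K E) → E,
  (∀ i j, ∑ k : Fin (Module.finrank K E), c k * (ga i ^ 2 ^ (k : ℕ) * et j ^ 2 ^ (k : ℕ)) = 0) →
  c = 0

end Pool.Agent.Lib.CPlane.S2
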